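import Pool.Agent.P.MP_ab0431_ag.UB.Defs

/-! Algebras given by structure constants, covers of the line, plane curves. -/

set_option autoImplicit false
set_option linter.unusedSectionVars false
set_option linter.dupNamespace false

namespace Pool.Agent.P.MP_ab0431_ag.UB

open Polynomial

/-- Structure constants of a commutative algebra that is free of rank `b`. -/
structure Str (S : Type) [CommRing S] (b : ℕ) where
  γ : Fin b → Fin b → Fin b → S
  u : Fin b → S
  comm : ∀ i j, γ i j = γ j i
  assoc : ∀ i j k l, ∑ m, γ i j m * γ m k l = ∑ m, γ j k m * γ i m l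
  one : ∀ j l, ∑ i, u i * γ i j l = if j = l then 1 else 0

namespace Str

variable {S S' : Type} [CommRing S] [CommRing S'] {b : ℕ}

/-- The algebra. -/
def A (_ : Str S b) : Type := Fin b → S

variable (D : Str S b)

instance : AddCommGroup D.A := inferInstanceAs (AddCommGroup (Fin b → S))
instance : Module S D.A := inferInstanceAs (Module S (Fin b → S))
instance : Mul D.A := ⟨fun x y l => ∑ i, ∑ j, x i * y j * D.γ i j l⟩
instance : One D.A := ⟨D.u⟩

theorem mul_apply (x y : D.A) (l : Fin b) : (x * y) l = ∑ i, ∑ j, x i * y j * D.γ i j l := rfl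
theorem one_apply (l : Fin b) : (1 : D.A) l = D.u l := rfl
theorem add_apply (x y : D.A) (l : Fin b) : (x + y) l = x l + y l := rfl
theorem sub_apply (x y : D.A) (l : Fin b) : (x - y) l = x l - y l := rfl
theorem neg_apply (x : D.A) (l : Fin b) : (-x) l = -x l := rfl
theorem zero_apply (l : Fin b) : (0 : D.A) l = 0 := rfl
theorem smul_apply (g : S) (x : D.A) (l : Fin b) : (g • x) l = g * x l := rfl
theorem sum_apply {ι : Type} (s : Finset ι) (x : ι → D.A) (l : Fin b) :
    (∑ i ∈ s, x i) l = ∑ i ∈ s, x i l := Finset.sum_apply l s x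
@[ext] theorem ext {x y : D.A} (h : ∀ l, x l = y l) : x = y := funext h

theorem mul_comm' (x y : D.A) : x * y = y * x := by
  ext l
  rw [mul_apply, mul_apply, Finset.sum_comm]
  exact Finset.sum_congr rfl fun i _ => Finset.sum_congr rfl fun j _ => by rw [D.comm j i]; ring

theorem one_mul' (x : D.A) : 1 * x = x := by
  ext l
  rw [mul_apply, Finset.sum_comm]
  have : ∀ j, ∑ i, (1 : D.A) i * x j * D.γ i j l = x j * if j = l then 1 else 0 := fun j => by
    rw [← D.one j l, Finset.mul_sum]
    exact Finset.sum_congr rfl fun i _ => by rw [one_apply]; ring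
  rw [Finset.sum_congr rfl fun j _ => this j, Finset.sum_eq_single l, if_pos rfl, mul_one]
  · exact fun j _ h => by rw [if_neg h, mul_zero]
  · simp

theorem mul_assoc' (x y z : D.A) : x * y * z = x * (y * z) := by
  ext l
  have h1 : (x * y * z) l = ∑ i, ∑ j, ∑ k, x i * y j * z k * ∑ m, D.γ i j m * D.γ m k l := by
    simp only [mul_apply, Finset.sum_mul, Finset.mul_sum]
    rw [Finset.sum_comm]
    calc _ = ∑ k, ∑ i, ∑ j, ∑ m, x i * y j * D.γ i j m * z k * D.γ m k l := by
          refine Finset.sum_congr rfl fun k _ => ?_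
          rw [Finset.sum_comm]
          exact Finset.sum_congr rfl fun i _ => Finset.sum_comm
      _ = _ := by
          rw [Finset.sum_comm]
          refine Finset.sum_congr rfl fun i _ => ?_
          rw [Finset.sum_comm]
          exact Finset.sum_congr rfl fun j _ => Finset.sum_congr rfl fun k _ =>
            Finset.sum_congr rfl fun m _ => by ring
  have h2 : (x * (y * z)) l = ∑ i, ∑ j, ∑ k, x i * y j * z k * ∑ m, D.γ j k m * D.γ i m l := by
    simp only [mul_apply, Finset.sum_mul, Finset.mul_sum]
    refine Finset.sum_congr rfl fun i _ => ?_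
    rw [Finset.sum_comm]
    refine Finset.sum_congr rfl fun j _ => ?_
    rw [Finset.sum_comm]
    exact Finset.sum_congr rfl fun k _ => Finset.sum_congr rfl fun m _ => by ring
  simp only [h1, h2, D.assoc]

instance : CommRing D.A where
  left_distrib x y z := by
    ext l; simp only [mul_apply, add_apply, mul_add, add_mul, Finset.sum_add_distrib]
  right_distrib x y z := by
    ext l; simp only [mul_apply, add_apply, add_mul, Finset.sum_add_distrib]
  zero_mul x := by ext l; simp [mul_apply, zero_apply]
  mul_zero x := by ext l; simp [mul_apply, zero_apply]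
  mul_assoc := D.mul_assoc'
  one_mul := D.one_mul'
  mul_one x := by rw [mul_comm', one_mul']
  mul_comm := D.mul_comm'

instance : Algebra S D.A := Algebra.ofModule
  (fun g x y => by
    ext l; simp only [mul_apply, smul_apply, Finset.mul_sum, mul_assoc])
  (fun g x y => by
    ext l; simp only [mul_apply, smul_apply, Finset.mul_sum]
    exact Finset.sum_congr rfl fun i _ => Finset.sum_congr rfl fun j _ => by ring)

/-- The standard basis. -/
noncomputable def bas : Module.Basis (Fin b) S D.A := Pi.basisFun S (Fin b)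

/-- Basis vectors. -/
def e (i : Fin b) : D.A := Pi.single i 1

theorem bas_apply (i : Fin b) : D.bas i = D.e i := Pi.basisFun_apply S (Fin b) i
theorem bas_repr (x : D.A) (i : Fin b) : D.bas.repr x i = x i := rfl
theorem e_apply (i j : Fin b) : D.e i j = if j = i then 1 else 0 := Pi.single_apply i 1 j
theorem sum_e (x : D.A) : ∑ i, x i • D.e i = x := by
  simpa only [bas_apply, bas_repr] using D.bas.sum_repr x
theorem e_mul_e (i j : Fin b) : D.e i * D.e j = D.γ i j := by
  ext l; simp [mul_apply, e_apply]

instance : Module.Free S D.A := .of_basis D.bas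
instance : Module.Finite S D.A := .of_basis D.bas

/-- Matrix of multiplication. -/
noncomputable def L : D.A →ₐ[S] Matrix (Fin b) (Fin b) S := Algebra.leftMulMatrix D.bas

theorem L_apply (x : D.A) (l j : Fin b) : D.L x l j = ∑ i, x i * D.γ i j l := by
  rw [L, Algebra.leftMulMatrix_eq_repr_mul, bas_apply, bas_repr]
  simp [mul_apply, e_apply]

/-- Characteristic polynomial. -/
noncomputable def ch (x : D.A) : S[X] := (D.L x).charpoly

/-- Trace. -/
noncomputable def tr : D.A →ₗ[S] S := (Matrix.traceLinearMap (Fin b) S S).comp D.L.toLinearMap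

theorem tr_apply (x : D.A) : D.tr x = (D.L x).trace := rfl

/-- Matrix of the trace form. -/
noncomputable def T : Matrix (Fin b) (Fin b) S := .of fun i j => D.tr (D.e i * D.e j)

/-- Discriminant. -/
noncomputable def disc : S := D.T.det

/-- The powers of an element in the basis (row `j` is `x ^ j`). -/
def N (x : D.A) : Matrix (Fin b) (Fin b) S := .of fun j i => (x ^ (j : ℕ)) i

/-- `disc` times the dual basis. -/
noncomputable def du (l : Fin b) : D.A := fun i => D.T.adjugate l i

theorem ch_monic (x : D.A) : (D.ch x).Monic := Matrix.charpoly_monic _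
theorem ch_natDegree [Nontrivial S] (x : D.A) : (D.ch x).natDegree = b := by
  simp [ch, Matrix.charpoly_natDegree_eq_dim]
theorem aeval_ch (x : D.A) : aeval x (D.ch x) = 0 := by
  apply Algebra.leftMulMatrix_injective D.bas
  rw [map_zero, ← aeval_algHom_apply]
  exact Matrix.aeval_self_charpoly _

/-- Base change. -/
def map (φ : S →+* S') : Str S' b where
  γ i j l := φ (D.γ i j l)
  u i := φ (D.u i)
  comm i j := by rw [D.comm]
  assoc i j k l := by simpa using congrArg φ (D.assoc i j k l)
  one j l := by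
    have := congrArg φ (D.one j l)
    rw [apply_ite φ] at this
    simpa using this

/-- Base change of elements. -/
def mapA (φ : S →+* S') : D.A →+* (D.map φ).A where
  toFun x i := φ (x i)
  map_one' := rfl
  map_mul' x y := funext fun l => by
    change φ (∑ i, ∑ j, x i * y j * D.γ i j l) = ∑ i, ∑ j, φ (x i) * φ (y j) * φ (D.γ i j l)
    simp
  map_zero' := funext fun _ => map_zero φ
  map_add' x y := funext fun l => map_add φ (x l) (y l)

variable (φ : S →+* S')

theorem mapA_apply (x : D.A) (i : Fin b) : D.mapA φ x i = φ (x i) := rfl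
theorem mapA_smul (g : S) (x : D.A) : D.mapA φ (g • x) = φ g • D.mapA φ x := by
  ext l; simp [mapA_apply, smul_apply]
theorem mapA_e (i : Fin b) : D.mapA φ (D.e i) = (D.map φ).e i := by
  ext l; simp [mapA_apply, e_apply, apply_ite φ]
theorem L_map (x : D.A) : (D.map φ).L (D.mapA φ x) = (D.L x).map φ := by
  ext l j; rw [L_apply, Matrix.map_apply, L_apply, map_sum]
  exact Finset.sum_congr rfl fun i _ => (map_mul φ _ _).symm
theorem ch_map (x : D.A) : (D.map φ).ch (D.mapA φ x) = (D.ch x).map φ := by
  rw [ch, L_map, Matrix.charpoly_map, ch]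
theorem tr_map (x : D.A) : (D.map φ).tr (D.mapA φ x) = φ (D.tr x) := by
  rw [tr_apply, L_map, tr_apply]; simp [Matrix.trace]
theorem T_map : (D.map φ).T = D.T.map φ := by
  ext i j; simp only [T, Matrix.of_apply, Matrix.map_apply, ← mapA_e, ← map_mul, tr_map]
theorem disc_map : (D.map φ).disc = φ D.disc := by
  rw [disc, T_map, disc, RingHom.map_det]; rfl
theorem N_map (x : D.A) : (D.map φ).N (D.mapA φ x) = (D.N x).map φ := by
  ext i j; simp only [N, Matrix.of_apply, Matrix.map_apply, ← map_pow, mapA_apply]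

/-- A point of the algebra with values in the base ring. -/
def IsPt (χ : Fin b → S) : Prop :=
  (∀ i j, χ i * χ j = ∑ l, D.γ i j l * χ l) ∧ ∑ i, D.u i * χ i = 1

variable {D} in
/-- The homomorphism attached to a point. -/
def IsPt.hom {χ : Fin b → S} (h : D.IsPt χ) : D.A →ₐ[S] S :=
  AlgHom.ofLinearMap
    { toFun := fun x => ∑ i, x i * χ i
      map_add' := fun x y => by simp [add_apply, add_mul, Finset.sum_add_distrib]
      map_smul' := fun g x => by simp [smul_apply, Finset.mul_sum, mul_assoc] }
    h.2 fun x y => by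
      change ∑ l, (x * y) l * χ l = (∑ i, x i * χ i) * ∑ j, y j * χ j
      rw [Finset.sum_mul_sum]
      simp only [mul_apply, Finset.sum_mul]
      rw [Finset.sum_comm]
      refine Finset.sum_congr rfl fun i _ => ?_
      rw [Finset.sum_comm]
      refine Finset.sum_congr rfl fun j _ => ?_
      rw [show x i * χ i * (y j * χ j) = x i * y j * (χ i * χ j) by ring, h.1, Finset.mul_sum]
      exact Finset.sum_congr rfl fun l _ => by ring

variable {D} in
theorem IsPt.hom_apply {χ : Fin b → S} (h : D.IsPt χ) (x : D.A) :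
    h.hom x = ∑ i, x i * χ i := rfl

theorem isPt_hom (f : D.A →ₐ[S] S) : D.IsPt fun i => f (D.e i) := by
  have key : ∀ x : D.A, f x = ∑ i, x i * f (D.e i) := fun x => by
    conv_lhs => rw [← D.sum_e x]
    simp [map_sum]
  exact ⟨fun i j => by rw [← map_mul, key, e_mul_e], by rw [← map_one f, key]; rfl⟩

/-- Integrally closed, in terms of the characteristic polynomial. -/
def Max : Prop :=
  ∀ (g : S) (x : D.A), g ≠ 0 → (∀ j, g ^ (b - j) ∣ (D.ch x).coeff j) → ∀ i, g ∣ x i

end Str

/-- A cover of the line, unramified at infinity, with weights `a` and branch polynomial `P`. -/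
structure Dat (R : Type) [CommRing R] (b : ℕ) extends Str R[X] b where
  a : Fin b → ℕ
  dγ : ∀ i j l n, a i + a j < n + a l → (γ i j l).coeff n = 0
  d1 : ∀ i n, 0 < n + a i → (u i).coeff n = 0
  c : Rˣ
  P : R[X]
  P1 : P.coeff (2 * ∑ i, a i) = 1
  P0 : ∀ n, 2 * ∑ i, a i < n → P.coeff n = 0
  hd : toStr.disc = C (c : R) * P

/-- Index set of the monomials `x ^ n e_i` of degree at most `m`. -/
abbrev J {b : ℕ} (a : Fin b → ℕ) (m : ℕ) : Type :=
  {p : Fin b × Fin (m + 1) // (p.2 : ℕ) + a p.1 ≤ m}

/-- Index set of the coefficients of a curve. -/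
abbrev Co (b m : ℕ) : Type := Fin b × Fin (m * b + 1)

section
variable {R R' : Type} [CommRing R] [CommRing R']

/-- The monic polynomial in `z` with the given coefficients. -/
noncomputable def toP {b m : ℕ} (c : Co b m → R) : R[X][X] :=
  X ^ b + ∑ p : Co b m, monomial p.1 (monomial p.2 (c p))

/-- The coefficient vector. -/
noncomputable def co (b m : ℕ) (F : R[X][X]) : Co b m → R := fun p => (F.coeff p.1).coeff p.2

/-- Weighted degree: the coefficient of `z ^ j` has degree at most `m (b - j)`. -/
def WD (b m : ℕ) (F : R[X][X]) : Prop := ∀ j n, m * (b - j) < n → (F.coeff j).coeff n = 0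

/-- The top form. -/
noncomputable def top (b m : ℕ) (F : R[X][X]) : R[X] :=
  ∑ j ∈ Finset.range (b + 1), monomial j ((F.coeff j).coeff (m * (b - j)))

/-- Companion matrix. -/
def comp (b : ℕ) (F : R[X]) : Matrix (Fin b) (Fin b) R :=
  .of fun i j => if (j : ℕ) + 1 = b then -F.coeff i else if (i : ℕ) = j + 1 then 1 else 0

/-- Discriminant, as the Hankel determinant of the power sums. -/
def Δ (b : ℕ) (F : R[X]) : R :=
  (Matrix.of fun i j : Fin b => (comp b F ^ ((i : ℕ) + j)).trace).det

theorem comp_map (φ : R →+* R') (b : ℕ) (F : R[X]) : comp b (F.map φ) = (comp b F).map φ := by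
  ext i j; simp [comp, apply_ite φ]

theorem Δ_map (φ : R →+* R') (b : ℕ) (F : R[X]) : Δ b (F.map φ) = φ (Δ b F) := by
  rw [Δ, Δ, RingHom.map_det, comp_map]
  congr 1; ext i j
  simp [← Matrix.map_pow, Matrix.trace]

theorem toP_coeff {b m : ℕ} (c : Co b m → R) (j n : ℕ) : ((toP c).coeff j).coeff n =
    (if j = b ∧ n = 0 then 1 else 0) + ∑ p : Co b m, if p.1 = j ∧ p.2 = n then c p else 0 := by
  simp only [toP, coeff_add, finsetSum_coeff, coeff_monomial, coeff_X_pow]
  congr 1
  · by_cases h : j = b <;> simp [h, coeff_one]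
  · refine Finset.sum_congr rfl fun p _ => ?_
    by_cases h : (p.1 : ℕ) = j <;> simp [h, coeff_monomial]

theorem co_toP {b m : ℕ} (c : Co b m → R) : co b m (toP c) = c := by
  ext p
  rw [co, toP_coeff, if_neg fun h => p.1.2.ne h.1, zero_add, Finset.sum_eq_single p]
  · simp
  · exact fun q _ h => if_neg fun h' => h (Prod.ext (Fin.ext h'.1) (Fin.ext h'.2))
  · simp

theorem toP_map {b m : ℕ} (φ : R →+* R') (c : Co b m → R) :
    toP (φ ∘ c) = (toP c).map (mapRingHom φ) := by
  simp [toP, Polynomial.map_sum]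

theorem toP_degree_lt {b m : ℕ} (c : Co b m → R) :
    (∑ p : Co b m, monomial (p.1 : ℕ) (monomial (p.2 : ℕ) (c p)) : R[X][X]).degree < b :=
  (degree_sum_le _ _).trans_lt <| (Finset.sup_lt_iff (WithBot.bot_lt_coe b)).2 fun p _ =>
    (degree_monomial_le _ _).trans_lt (Nat.cast_lt.2 p.1.2)

theorem toP_monic {b m : ℕ} (c : Co b m → R) : (toP c).Monic := monic_X_pow_add (toP_degree_lt c)

theorem toP_natDegree [Nontrivial R] {b m : ℕ} (c : Co b m → R) : (toP c).natDegree = b := by
  rw [toP, natDegree_add_eq_left_of_degree_lt, natDegree_X_pow]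
  rw [degree_X_pow]; exact toP_degree_lt c

theorem toP_co [Nontrivial R] {b m : ℕ} {F : R[X][X]} (h1 : F.Monic) (h2 : F.natDegree = b)
    (h3 : WD b m F) : toP (co b m F) = F := by
  ext j n
  rw [toP_coeff]
  rcases lt_trichotomy j b with h | rfl | h
  · rw [if_neg fun h' => h.ne h'.1, zero_add]
    by_cases hn : n < m * b + 1
    · rw [Finset.sum_eq_single (⟨j, h⟩, ⟨n, hn⟩)]
      · simp [co]
      · exact fun q _ h => if_neg fun h' => h (Prod.ext (Fin.ext h'.1) (Fin.ext h'.2))
      · simp
    · rw [h3 j n (by have := Nat.mul_le_mul_left m (Nat.sub_le b j); omega)]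
      exact Finset.sum_eq_zero fun p _ => if_neg fun h' => by have := p.2.2; omega
  · rw [Finset.sum_eq_zero fun p _ => if_neg fun h' => p.1.2.ne h'.1, add_zero,
      show F.coeff j = 1 from h2 ▸ h1.coeff_natDegree, coeff_one]
    simp
  · rw [Finset.sum_eq_zero fun p _ => if_neg fun h' => by have := p.1.2; omega, add_zero,
      if_neg fun h' => h.ne' h'.1, coeff_eq_zero_of_natDegree_lt (p := F) (by omega), coeff_zero]

end

namespace Dat

variable {R R' : Type} [CommRing R] [CommRing R'] {b : ℕ} (D : Dat R b)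

/-- The number of branch points. -/
def w : ℕ := 2 * ∑ i, D.a i

theorem P_monic : D.P.Monic :=
  monic_of_natDegree_le_of_coeff_eq_one _ (natDegree_le_iff_coeff_eq_zero.2 D.P0) D.P1

theorem P_natDegree [Nontrivial R] : D.P.natDegree = D.w :=
  natDegree_eq_of_le_of_coeff_ne_zero (natDegree_le_iff_coeff_eq_zero.2 D.P0)
    (by rw [w, D.P1]; exact one_ne_zero)

/-- Base change. -/
noncomputable def map (φ : R →+* R') : Dat R' b where
  toStr := D.toStr.map (mapRingHom φ)
  a := D.a
  dγ i j l n h := by simp [Str.map, D.dγ i j l n h]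
  d1 i n h := by simp [Str.map, D.d1 i n h]
  c := Units.map φ.toMonoidHom D.c
  P := D.P.map φ
  P1 := by simp [D.P1]
  P0 n h := by simp [D.P0 n h]
  hd := by rw [Str.disc_map, D.hd]; simp

/-- The fibre over `x`. -/
noncomputable abbrev fib (x : R) : Str R b := D.toStr.map (evalRingHom x)

/-- Degree at most `m`. -/
def Deg (m : ℕ) (o : D.A) : Prop := ∀ i n, m < n + D.a i → (o i).coeff n = 0

/-- The element with the given coordinates. -/
noncomputable def el (m : ℕ) (l : J D.a m → R) : D.A :=
  fun i => ∑ p : J D.a m, if p.1.1 = i then monomial p.1.2 (l p) else 0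

/-- Coefficient vectors of the characteristic polynomials of the elements of degree at most `m`. -/
def Tset (m : ℕ) : Set (Co b m → R) := {c | ∃ o : D.A, D.Deg m o ∧ c = co b m (D.ch o)}

/-- A polynomial in the coefficients, as a polynomial in the coordinates of the element. -/
noncomputable def Phi (m : ℕ) (G : MvPolynomial (Co b m) R) : MvPolynomial (J D.a m) R :=
  MvPolynomial.aeval (co b m ((D.map (MvPolynomial.C : R →+* MvPolynomial (J D.a m) R)).ch
    ((D.map MvPolynomial.C).el m MvPolynomial.X))) G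

theorem el_coeff (m : ℕ) (l : J D.a m → R) (p : J D.a m) :
    (D.el m l p.1.1).coeff p.1.2 = l p := by
  rw [el, finsetSum_coeff, Finset.sum_eq_single p]
  · simp
  · intro q _ h
    split_ifs with h1
    · rw [coeff_monomial, if_neg fun h2 => h (Subtype.ext (Prod.ext h1 (Fin.ext h2)))]
    · simp
  · simp

theorem el_deg (m : ℕ) (l : J D.a m → R) : D.Deg m (D.el m l) := fun i n h => by
  rw [el, finsetSum_coeff]
  refine Finset.sum_eq_zero fun p _ => ?_
  split_ifs with h1
  · rw [coeff_monomial, if_neg fun h2 => by have := p.2; rw [h1, h2] at this; omega]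
  · simp

variable {D} in
theorem Deg.eq_el {m : ℕ} {o : D.A} (h : D.Deg m o) :
    o = D.el m fun p => (o p.1.1).coeff p.1.2 := by
  ext i n
  by_cases hn : n + D.a i ≤ m
  · exact (D.el_coeff m (fun p => (o p.1.1).coeff p.1.2) ⟨(i, ⟨n, by omega⟩), hn⟩).symm
  · rw [h i n (by omega), D.el_deg m _ i n (by omega)]

theorem el_map (φ : R →+* R') (m : ℕ) (l : J D.a m → R) :
    (D.map φ).el m (φ ∘ l) = D.toStr.mapA (mapRingHom φ) (D.el m l) := by
  funext i
  change _ = mapRingHom φ (D.el m l i)
  simp only [el, map_sum, apply_ite (mapRingHom φ), map_zero, coe_mapRingHom, map_monomial]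
  rfl

variable {D} in
theorem Deg.map {m : ℕ} {o : D.A} (h : D.Deg m o) (φ : R →+* R') :
    (D.map φ).Deg m (D.toStr.mapA (mapRingHom φ) o) := fun i n hn => by
  simp [Str.mapA_apply, h i n hn]

theorem Tset_map (φ : R →+* R') {m : ℕ} {c : Co b m → R} (h : c ∈ D.Tset m) :
    φ ∘ c ∈ (D.map φ).Tset m := by
  obtain ⟨o, ho, rfl⟩ := h
  refine ⟨_, ho.map φ, ?_⟩
  have := D.toStr.ch_map (mapRingHom φ) o
  ext p
  change _ = co b m ((D.toStr.map (mapRingHom φ)).ch _) p
  rw [this]; simp [co]

end Dat

/-- The coefficient vectors that come from a simply branched cover with small weights. -/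
def Y0 (b w m : ℕ) : Set (Co b m → ℂ) :=
  {c | ∃ D : Dat ℂ b, D.w = w ∧ D.P.Separable ∧ (∀ i, D.a i + 1 ≤ m) ∧ c ∈ D.Tset m}

/-- A plane curve of degree `b`, transversal to the line at infinity, with no triple root on a
vertical line. -/
def Good {b m : ℕ} (c : Co b m → ℂ) : Prop :=
  WD b 1 (toP c) ∧ (Δ b (toP c)).coeff (b * (b - 1)) ≠ 0 ∧ ∀ x z : ℂ,
    ¬((toP c).evalEval x z = 0 ∧ (toP c).derivative.evalEval x z = 0 ∧
      (toP c).derivative.derivative.evalEval x z = 0)

/-- Number of distinct roots of the discriminant. -/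
noncomputable def nr {b m : ℕ} (c : Co b m → ℂ) : ℕ := (Δ b (toP c)).roots.toFinset.card

/-- The homogeneous form of a plane curve. -/
noncomputable def hom (b : ℕ) (F : ℂ[X][X]) (v : Fin 3 → ℂ) : ℂ :=
  ∑ j ∈ Finset.range (b + 1), ∑ l ∈ Finset.range (b - j + 1),
    (F.coeff j).coeff l * v 0 ^ (b - j - l) * v 1 ^ l * v 2 ^ j

/-- Hilbert function. -/
noncomputable def HF {σ K : Type} [Field K] (I : Ideal (MvPolynomial σ K)) (k : ℕ) : ℕ :=
  Module.finrank K
    ((MvPolynomial.restrictTotalDegree σ K k).map (Ideal.Quotient.mkₐ K I).toLinearMap)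

/-- Dimension of a prime. -/
noncomputable def dm {σ K : Type} [Field K] (I : Ideal (MvPolynomial σ K)) : ℕ :=
  (Algebra.trdeg K (MvPolynomial σ K ⧸ I)).toNat

/-- Integral over `k[t]` after inverting `W(t)`. -/
def IntOver (k : Type) {K : Type} [Field k] [Field K] [Algebra k K] (t : K) (W : k[X]) (x : K) :
    Prop :=
  ∃ n : ℕ, IsIntegral (Algebra.adjoin k {t}) (aeval t W ^ n * x)

/-- The height constant. -/
def del (b m : ℕ) : ℕ := (m + 1) * (4 * b ^ 2 + 1)

/-- The constant in the bound for the Hilbert function. -/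
def Gam (b w m : ℕ) : ℕ := (b * del b m + 1) ^ w * (b ^ 2 + 1) ^ w * (b + 1) ^ (b * (m + 1))

end Pool.Agent.P.MP_ab0431_ag.UB
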