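import Pool.Agent.P.MP_ab0431_ag.UB.IfaceT

/-! Pluricanonical forms, Jacobians and the events excluded by genericity. -/

set_option autoImplicit false
set_option linter.unusedSectionVars false

namespace Pool.Agent.P.MP_ab0431_ag.UB

open Polynomial Set Filter Topology Asymptotics
open scoped Manifold ContDiff

/-- Families of functions in the charts. -/
abbrev Sec (X : Surf) : Type := OpenPartialHomeomorph X.X C2 → C2 → ℂ

section
variable {X : Surf} {m n : ℕ} {s t : Sec X}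

theorem isForm_one : IsForm X.X 0 (1 : Sec X) :=
  ⟨fun _ _ => differentiableOn_const 1, fun _ _ _ _ _ _ => by simp⟩

theorem isForm_zero : IsForm X.X m (0 : Sec X) :=
  ⟨fun _ _ => differentiableOn_const 0, fun _ _ _ _ _ _ => by simp⟩

theorem isForm_mul (hs : IsForm X.X m s) (ht : IsForm X.X n t) : IsForm X.X (m + n) (s * t) :=
  ⟨fun e he => (hs.1 e he).mul (ht.1 e he), fun e he e' he' x hx => by
    simp only [Pi.mul_apply]; rw [hs.2 e he e' he' x hx, ht.2 e he e' he' x hx]; ring⟩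

theorem isForm_add (hs : IsForm X.X m s) (ht : IsForm X.X m t) : IsForm X.X m (s + t) :=
  ⟨fun e he => (hs.1 e he).add (ht.1 e he), fun e he e' he' x hx => by
    simp only [Pi.add_apply]; rw [hs.2 e he e' he' x hx, ht.2 e he e' he' x hx]; ring⟩

theorem isForm_smul (c : ℂ) (hs : IsForm X.X m s) : IsForm X.X m (c • s) :=
  ⟨fun e he => (hs.1 e he).const_smul c, fun e he e' he' x hx => by
    simp only [Pi.smul_apply, smul_eq_mul]; rw [hs.2 e he e' he' x hx]; ring⟩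

theorem isForm_sub (hs : IsForm X.X m s) (ht : IsForm X.X m t) : IsForm X.X m (s - t) := by
  simpa [sub_eq_add_neg] using isForm_add hs (isForm_smul (-1) ht)

theorem isForm_pow (hs : IsForm X.X m s) (k : ℕ) : IsForm X.X (k * m) (s ^ k) := by
  induction k with
  | zero => simpa using isForm_one
  | succ k ih => rw [pow_succ, Nat.succ_mul]; exact isForm_mul ih hs

theorem isForm_sum {ι : Type} (S : Finset ι) {f : ι → Sec X} (h : ∀ i ∈ S, IsForm X.X m (f i)) :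
    IsForm X.X m (∑ i ∈ S, f i) :=
  Finset.sum_induction f (IsForm X.X m) (fun _ _ => isForm_add) isForm_zero h

theorem isForm_prod {ι : Type} (S : Finset ι) {f : ι → Sec X} (h : ∀ i ∈ S, IsForm X.X m (f i)) :
    IsForm X.X (S.card * m) (∏ i ∈ S, f i) := by
  classical
  induction S using Finset.induction_on with
  | empty => simpa using isForm_one
  | insert a S ha ih =>
    rw [Finset.prod_insert ha, Finset.card_insert_of_notMem ha, Nat.succ_mul, add_comm]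
    exact isForm_mul (h a (Finset.mem_insert_self _ _))
      (ih fun i hi => h i (Finset.mem_insert_of_mem hi))

theorem isForm_analyticAt (hs : IsForm X.X m s) {e : OpenPartialHomeomorph X.X C2}
    (he : e ∈ atlas C2 X.X) {ζ : C2} (hζ : ζ ∈ e.target) : AnalyticAt ℂ (s e) ζ :=
  MP_f17f76_ag.E.analyticOnNhd_of_diffOn e.open_target (hs.1 e he) ζ hζ

/-- Changes of charts are analytic. -/
theorem trans_analyticAt {e e' : OpenPartialHomeomorph X.X C2} (he : e ∈ atlas C2 X.X)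
    (he' : e' ∈ atlas C2 X.X) {x : X.X} (hx : x ∈ e.source) (hx' : x ∈ e'.source) :
    AnalyticAt ℂ (e' ∘ e.symm) (e x) := by
  have h := (contDiffGroupoid ω 𝓘(ℂ, C2)).compatible he he'
  rw [contDiffGroupoid, mem_groupoid_of_pregroupoid] at h
  have h1 : ContDiffOn ℂ ω (e.symm ≫ₕ e') (e.symm ≫ₕ e').source := by
    simpa [contDiffPregroupoid] using h.1
  exact (h1.contDiffAt ((e.symm ≫ₕ e').open_source.mem_nhds (by simp [hx, hx']))).analyticAt

theorem trans_det_ne {e e' : OpenPartialHomeomorph X.X C2} (he : e ∈ atlas C2 X.X)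
    (he' : e' ∈ atlas C2 X.X) {x : X.X} (hx : x ∈ e.source) (hx' : x ∈ e'.source) :
    (fderiv ℂ (e' ∘ e.symm) (e x)).det ≠ 0 := by
  have h1 := (trans_analyticAt he he' hx hx').differentiableAt
  have h2 := (trans_analyticAt he' he hx' hx).differentiableAt
  have h3 : (e' ∘ e.symm) (e x) = e' x := by simp [hx]
  have h4 : (e ∘ e'.symm) ∘ (e' ∘ e.symm) =ᶠ[𝓝 (e x)] id := by
    filter_upwards [(e.symm ≫ₕ e').open_source.mem_nhds (show e x ∈ _ by simp [hx, hx'])] with y hy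
    simp only [OpenPartialHomeomorph.trans_source, OpenPartialHomeomorph.symm_source,
      mem_inter_iff, mem_preimage] at hy
    simp [e'.left_inv hy.2, e.right_inv hy.1]
  have h5 := fderiv_comp (e x) (h3 ▸ h2) h1
  rw [h4.fderiv_eq, fderiv_id] at h5
  intro h0
  have := congrArg ContinuousLinearMap.det h5
  have h6 : ∀ A B : C2 →L[ℂ] C2, (A.comp B).det = A.det * B.det := fun A B =>
    LinearMap.det_comp (A : C2 →ₗ[ℂ] C2) (B : C2 →ₗ[ℂ] C2)
  rw [h6, h0, mul_zero] at this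
  exact one_ne_zero (LinearMap.det_id.symm.trans this)

/-- The values of forms in two charts differ by a power of one unit. -/
theorem exists_unit {e e' : OpenPartialHomeomorph X.X C2} (he : e ∈ atlas C2 X.X)
    (he' : e' ∈ atlas C2 X.X) {x : X.X} (hx : x ∈ e.source) (hx' : x ∈ e'.source) :
    ∃ u : ℂ, u ≠ 0 ∧ ∀ (n : ℕ) (s : Sec X), IsForm X.X n s → s e (e x) = s e' (e' x) * u ^ n :=
  ⟨_, trans_det_ne he he' hx hx', fun _ _ hs => hs.2 e he e' he' x ⟨hx, hx'⟩⟩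

end

/-- A choice of a chart at each point, among finitely many charts. -/
structure Ch (X : Surf) where
  e : X.X → OpenPartialHomeomorph X.X C2
  mem : ∀ p, e p ∈ atlas C2 X.X
  src : ∀ p, p ∈ (e p).source
  fin : (range e).Finite

theorem exists_ch (X : Surf) : Nonempty (Ch X) := by
  obtain ⟨S, hS⟩ := isCompact_univ.elim_finite_subcover (fun p : X.X => (chartAt C2 p).source)
    (fun p => (chartAt C2 p).open_source) fun p _ => mem_iUnion.2 ⟨p, mem_chart_source _ p⟩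
  have h : ∀ p : X.X, ∃ q ∈ S, p ∈ (chartAt C2 q).source := fun p => by
    simpa using hS (mem_univ p)
  choose q hq hq' using h
  exact ⟨⟨fun p => chartAt C2 (q p), fun p => chart_mem_atlas _ _, hq',
    (S.finite_toSet.image (chartAt C2)).subset (by rintro _ ⟨p, rfl⟩; exact ⟨_, hq p, rfl⟩)⟩⟩

/-- The coordinates of a point in its chart. -/
noncomputable def Ch.pt {X : Surf} (h : Ch X) (p : X.X) : C2 := h.e p p

/-- The value of a form at a point, in the chart of the point. -/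
noncomputable def Ch.vl {X : Surf} (h : Ch X) (s : Sec X) (p : X.X) : ℂ := s (h.e p) (h.e p p)

/-- Derivative in a coordinate direction. -/
noncomputable def pd (i : Fin 2) (f : C2 → ℂ) (ζ : C2) : ℂ := fderiv ℂ f ζ (Pi.single i 1)

/-- Jacobian of two functions. -/
noncomputable def jac (f g : C2 → ℂ) (ζ : C2) : ℂ := pd 0 f ζ * pd 1 g ζ - pd 1 f ζ * pd 0 g ζ

/-- Weighted Jacobian of three functions. -/
noncomputable def wjf (m₀ m₁ m₂ : ℕ) (f₀ f₁ f₂ : C2 → ℂ) (ζ : C2) : ℂ :=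
  m₀ * f₀ ζ * jac f₁ f₂ ζ - m₁ * f₁ ζ * jac f₀ f₂ ζ + m₂ * f₂ ζ * jac f₀ f₁ ζ

/-- The form that vanishes on the ramification curve. -/
noncomputable def J1 {X : Surf} (M : ℕ) (s : Fin 3 → Sec X) : Sec X :=
  fun e => wjf M M M (s 0 e) (s 1 e) (s 2 e)

/-- The form that cuts out the critical points on the ramification curve. -/
noncomputable def J2 {X : Surf} (M : ℕ) (s : Fin 3 → Sec X) : Sec X :=
  fun e => wjf (3 * M + 1) M M (J1 M s e) (s 0 e) (s 1 e)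

theorem jac_swap (f g : C2 → ℂ) (ζ : C2) : jac f g ζ = -jac g f ζ := by unfold jac; ring

theorem jac_neg (f g : C2 → ℂ) (ζ : C2) : jac (-f) g ζ = -jac f g ζ := by
  simp only [jac, pd, fderiv_neg, ContinuousLinearMap.neg_apply]; ring

theorem J1_swap {X : Surf} (M : ℕ) (s : Fin 3 → Sec X) :
    J1 M ![s 1, s 0, s 2] = -J1 M s := by
  funext e ζ
  change wjf M M M (s 1 e) (s 0 e) (s 2 e) ζ = -wjf M M M (s 0 e) (s 1 e) (s 2 e) ζ
  unfold wjf; rw [jac_swap (s 1 e) (s 0 e)]; ring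

theorem J2_swap {X : Surf} (M : ℕ) (s : Fin 3 → Sec X) :
    J2 M ![s 1, s 0, s 2] = J2 M s := by
  funext e ζ
  change wjf _ M M (J1 M ![s 1, s 0, s 2] e) (s 1 e) (s 0 e) ζ = wjf _ M M _ _ _ ζ
  rw [J1_swap]
  change wjf _ M M (-(J1 M s e)) (s 1 e) (s 0 e) ζ = _
  unfold wjf; rw [jac_swap (s 1 e) (s 0 e), jac_neg, jac_neg, Pi.neg_apply]; ring

theorem analyticAt_pd {f : C2 → ℂ} {ζ : C2} (h : AnalyticAt ℂ f ζ) (i : Fin 2) :
    AnalyticAt ℂ (pd i f) ζ :=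
  ((ContinuousLinearMap.apply ℂ ℂ (Pi.single i 1 : C2)).analyticAt _).comp h.fderiv

theorem analyticAt_jac {f g : C2 → ℂ} {ζ : C2} (hf : AnalyticAt ℂ f ζ) (hg : AnalyticAt ℂ g ζ) :
    AnalyticAt ℂ (jac f g) ζ :=
  ((analyticAt_pd hf 0).mul (analyticAt_pd hg 1)).sub
    ((analyticAt_pd hf 1).mul (analyticAt_pd hg 0))

theorem fderiv_apply_pd (f : C2 → ℂ) (ζ ξ : C2) :
    fderiv ℂ f ζ ξ = ξ 0 * pd 0 f ζ + ξ 1 * pd 1 f ζ := by
  have : ξ = ξ 0 • (Pi.single 0 1 : C2) + ξ 1 • (Pi.single 1 1 : C2) := by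
    ext i; fin_cases i <;> simp
  conv_lhs => rw [this]
  simp only [map_add, map_smul, smul_eq_mul, pd]

/-- Coordinate vectors. -/
def ev (sw : Bool) : C2 := Pi.single (if sw then 1 else 0) 1

/-- A polynomial curve that is a graph over a coordinate direction. -/
noncomputable def cv (ζ : C2) (sw : Bool) (α : Fin 3 → ℂ) (v : ℂ) : C2 :=
  ζ + v • ev sw + (α 0 * v + α 1 * v ^ 2 + α 2 * v ^ 3) • ev (!sw)

theorem cv_zero (ζ : C2) (sw : Bool) (α : Fin 3 → ℂ) : cv ζ sw α 0 = ζ := by simp [cv]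

theorem analyticAt_cv (ζ : C2) (sw : Bool) (α : Fin 3 → ℂ) (v : ℂ) :
    AnalyticAt ℂ (cv ζ sw α) v := by
  unfold cv; fun_prop

/-- Vanishing of a function and of its transversal derivative along the curve. -/
def Vn (f : C2 → ℂ) (ζ : C2) (sw : Bool) (α : Fin 3 → ℂ) (n₀ n₁ : ℕ) : Prop :=
  (fun v => f (cv ζ sw α v)) =O[𝓝 0] (fun v : ℂ => v ^ n₀) ∧
    (fun v => fderiv ℂ f (cv ζ sw α v) (ev (!sw))) =O[𝓝 0] fun v : ℂ => v ^ n₁

/-- The type of a local event. -/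
structure Ty where
  bt : Bool
  nl : ℕ
  n₀ : Fin 3 → ℕ
  n₁ : Fin 3 → ℕ

/-- A local event of type `t`. -/
def Evt (t : Ty) (f : Fin 3 → C2 → ℂ) (ζ : C2) (c γ : ℂ) : Prop :=
  ∃ (β : ℂ) (sw : Bool) (α : Fin 3 → ℂ), (t.bt = false → β = 0) ∧
    (∀ i : Fin 3, t.nl ≤ i → α i = 0) ∧ Vn (f 0) ζ sw α (t.n₀ 0) (t.n₁ 0) ∧
    Vn (f 1 - c • f 0) ζ sw α (t.n₀ 1) (t.n₁ 1) ∧
    Vn (f 2 - γ • f 0 - β • (f 1 - c • f 0)) ζ sw α (t.n₀ 2) (t.n₁ 2)

def tN1 : Ty := ⟨false, 0, ![1, 1, 1], ![0, 0, 0]⟩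
def tN2 : Ty := ⟨false, 1, ![2, 2, 0], ![0, 0, 0]⟩
def tS : Ty := ⟨true, 1, ![0, 2, 3], ![0, 0, 2]⟩
def tZ : Ty := ⟨false, 0, ![0, 2, 2], ![0, 1, 1]⟩
def tT1 : Ty := ⟨false, 1, ![0, 3, 0], ![0, 2, 0]⟩
def tT2 : Ty := ⟨false, 1, ![0, 3, 2], ![0, 1, 0]⟩
def tB4 : Ty := ⟨false, 3, ![0, 4, 4], ![0, 0, 0]⟩
def tA : Ty := ⟨false, 2, ![0, 3, 3], ![0, 0, 0]⟩
def tB : Ty := ⟨false, 0, ![0, 2, 1], ![0, 1, 0]⟩
def tR : Ty := ⟨false, 1, ![0, 2, 2], ![0, 0, 0]⟩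

/-- The event at a point of the surface. -/
def Ch.Evt {X : Surf} (h : Ch X) (s : Fin 3 → Sec X) (t : Ty) (p : X.X) (c γ : ℂ) : Prop :=
  UB.Evt t (fun i => s i (h.e p)) (h.pt p) c γ

/-- None of the events occurs. -/
structure Nice {X : Surf} (h : Ch X) (s : Fin 3 → Sec X) : Prop where
  n1 : ∀ p, ¬h.Evt s tN1 p 0 0
  n2 : ∀ p, ¬h.Evt s tN2 p 0 0
  sg : ∀ p c γ, ¬h.Evt s tS p c γ
  zz : ∀ p c γ, ¬h.Evt s tZ p c γ
  t1 : ∀ p c, ¬h.Evt s tT1 p c 0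
  t2 : ∀ p c γ, ¬h.Evt s tT2 p c γ
  b4 : ∀ p c γ, ¬h.Evt s tB4 p c γ
  two : ∀ t t' p p' c γ γ', t = tA ∨ t = tB → t' = tA ∨ t' = tB → p ≠ p' →
    h.Evt s t p c γ → ¬h.Evt s t' p' c γ'
  pair : ∀ t p p' c γ, t = tA ∨ t = tB → p ≠ p' → h.Evt s t p c γ → ¬h.Evt s tR p' c γ
  tri : ∀ p p' p'' c γ, p ≠ p' → p ≠ p'' → p' ≠ p'' → h.Evt s tR p c γ → h.Evt s tR p' c γ →
    ¬h.Evt s tR p'' c γ
  inf1 : ∀ t p γ, t = tA ∨ t = tB → ¬h.Evt s t p 0 γ
  inf2 : ∀ p p' γ, p ≠ p' → h.Evt s tR p 0 γ → ¬h.Evt s tR p' 0 γ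

/-- A generic triple of forms of degree `M`. -/
structure Tri {X : Surf} (M : ℕ) (h : Ch X) (s : Fin 3 → Sec X) : Prop where
  pos : 2 < M
  form : ∀ i, IsForm X.X M (s i)
  nice : Nice h s
  nice' : Nice h ![s 1, s 0, s 2]

theorem Tri.swap {X : Surf} {M : ℕ} {h : Ch X} {s : Fin 3 → Sec X} (H : Tri M h s) :
    Tri M h ![s 1, s 0, s 2] :=
  ⟨H.pos, fun i => by fin_cases i <;> exact H.form _, H.nice', by
    have : ![s 0, s 1, s 2] = s := by funext i; fin_cases i <;> rfl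
    exact (this ▸ H.nice : Nice h ![s 0, s 1, s 2])⟩

/-- The span of `τ` realises all jets of order four at three points. -/
def JetS {X : Surf} {ι : Type} [Fintype ι] (τ : ι → Sec X) : Prop :=
  ∀ (r : ℕ) (p : Fin r → X.X) (e : Fin r → OpenPartialHomeomorph X.X C2) (T : Fin r → C2 → ℂ),
    r ≤ 3 → Function.Injective p → (∀ j, e j ∈ atlas C2 X.X ∧ p j ∈ (e j).source) →
    (∀ j, AnalyticAt ℂ (T j) (e j (p j))) → ∃ a : ι → ℂ, ∀ j,
      (fun ζ => (∑ i, a i • τ i) (e j) ζ - T j ζ) =O[𝓝 (e j (p j))] fun ζ => ‖ζ - e j (p j)‖ ^ 5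

/-- The map to the plane. -/
noncomputable def prj {X : Surf} (Q : PM) (h : Ch X) (s : Fin 3 → Sec X) (p : X.X) : Q.Y :=
  Q.pp fun i => h.vl (s i) p

/-- A parametrisation of the zero set of `j` at `ζ`. -/
def Par (j : C2 → ℂ) (ζ : C2) (ψ : ℂ → C2) : Prop :=
  AnalyticAt ℂ ψ 0 ∧ ψ 0 = ζ ∧ deriv ψ 0 ≠ 0 ∧ ∀ᶠ u in 𝓝 0, j (ψ u) = 0

/-- `S` is a model of the ramification curve. -/
structure Mdl {X : Surf} (M : ℕ) (h : Ch X) (s : Fin 3 → Sec X) (S : RS) (i : S.R → X.X) :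
    Prop where
  inj : Function.Injective i
  cont : Continuous i
  rng : range i = {p | h.vl (J1 M s) p = 0}
  inf : ∀ r, r ∈ S.inf ↔ h.vl (s 0) (i r) = 0
  inf1 : ∀ r ∈ S.inf, h.vl (s 1) (i r) ≠ 0
  xx : ∀ r ∉ S.inf, S.xx r = h.vl (s 1) (i r) / h.vl (s 0) (i r)
  nu : ∀ r, S.ν r = 2 ↔ h.vl (J2 M s) (i r) = 0
  par : ∀ r, ∃ ψ : ℂ → C2, AnalyticAt ℂ ψ 0 ∧ ψ 0 = h.pt (i r) ∧ deriv ψ 0 ≠ 0 ∧ ∀ᶠ u in 𝓝 0,
    i ((S.ψ r).symm u) ∈ (h.e (i r)).source ∧ h.e (i r) (i ((S.ψ r).symm u)) = ψ u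

end Pool.Agent.P.MP_ab0431_ag.UB
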