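import Pool.Agent.P.MP_ab0431_ag.UB.IfaceT

/-! Definitions and tools for the block on degrees and strips. -/

set_option autoImplicit false
set_option linter.unusedSectionVars false

namespace Pool.Agent.P.MP_ab0431_ag.UB.Cc

open Polynomial Set Filter Topology Metric

/-- Polynomials in the variables `σ`. -/
abbrev MP (σ : Type) : Type := MvPolynomial σ ℂ

/-- Evaluation at a point. -/
noncomputable abbrev ev {σ : Type} (c : σ → ℂ) : MP σ →+* ℂ := MvPolynomial.eval c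

section

variable {σ : Type} {d : ℕ}

/-- The zero set. -/
def V (q : Ideal (MP σ)) : Set (σ → ℂ) := {c | ∀ p ∈ q, ev c p = 0}

theorem V_eq (q : Ideal (MP σ)) : MvPolynomial.zeroLocus ℂ q = V q := rfl

theorem V_anti {p q : Ideal (MP σ)} (h : p ≤ q) : V q ⊆ V p := fun _ hc f hf => hc f (h hf)

theorem V_closed (q : Ideal (MP σ)) : IsClosed (V q) := by
  have : V q = ⋂ p ∈ q, {c | ev c p = 0} := by ext; simp [V]
  rw [this]
  exact isClosed_biInter fun p _ => isClosed_eq (MvPolynomial.continuous_eval p) continuous_const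

/-- Linear independence modulo an ideal. -/
def Ind {ι : Type} [Fintype ι] (I : Ideal (MP σ)) (v : ι → MP σ) : Prop :=
  ∀ c : ι → ℂ, ∑ i, c i • v i ∈ I → c = 0

theorem ind_iff {ι : Type} [Fintype ι] {I : Ideal (MP σ)} {v : ι → MP σ} :
    Ind I v ↔ LinearIndependent ℂ fun i => Ideal.Quotient.mkₐ ℂ I (v i) := by
  rw [Fintype.linearIndependent_iff]
  refine forall_congr' fun c => ?_
  rw [← Ideal.Quotient.eq_zero_iff_mem, ← Ideal.Quotient.mkₐ_eq_mk ℂ, map_sum, funext_iff]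
  simp only [map_smul, Pi.zero_apply]

theorem HF_ge [Finite σ] {ι : Type} [Fintype ι] {I : Ideal (MP σ)} {v : ι → MP σ} {k : ℕ}
    (h : Ind I v) (hd : ∀ i, (v i).totalDegree ≤ k) : Fintype.card ι ≤ HF I k :=
  (LinearIndependent.of_comp (Submodule.subtype _) (v := fun i =>
    (⟨Ideal.Quotient.mkₐ ℂ I (v i), v i, (MvPolynomial.mem_restrictTotalDegree _ _ _).2 (hd i),
      rfl⟩ : (MvPolynomial.restrictTotalDegree σ ℂ k).map (Ideal.Quotient.mkₐ ℂ I).toLinearMap))
    (ind_iff.1 h)).fintype_card_le_finrank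

theorem HF_ex (I : Ideal (MP σ)) (k : ℕ) :
    ∃ v : Fin (HF I k) → MP σ, Ind I v ∧ ∀ i, (v i).totalDegree ≤ k := by
  obtain ⟨w, hw⟩ := exists_linearIndependent_of_le_finrank (le_refl (HF I k))
  choose v hv hv' using fun i => (w i).2
  refine ⟨v, ind_iff.2 ?_, fun i => (MvPolynomial.mem_restrictTotalDegree _ _ _).1 (hv i)⟩
  have := hw.map' (Submodule.subtype _) (Submodule.ker_subtype _)
  rwa [show (Submodule.subtype _) ∘ w = fun i => Ideal.Quotient.mkₐ ℂ I (v i) from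
    funext fun i => (hv' i).symm] at this

theorem HF_mono [Finite σ] {I I' : Ideal (MP σ)} {k k' : ℕ} (h : I ≤ I') (hk : k ≤ k') :
    HF I' k ≤ HF I k' := by
  obtain ⟨v, h1, h2⟩ := HF_ex I' k
  simpa using HF_ge (I := I) (fun c hc => h1 c (h hc)) fun i => (h2 i).trans hk

/-- A lower bound for the Hilbert function. -/
def LB (I : Ideal (MP σ)) (n ρ c : ℕ) : Prop :=
  ∃ a, ∀ k, ρ * (k + n).choose n ≤ c * HF I (k + a)

theorem LB.mono [Finite σ] {I I' : Ideal (MP σ)} {n ρ c c' : ℕ} (h : LB I' n ρ c) (hI : I ≤ I')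
    (hc : c ≤ c') : LB I n ρ c' :=
  h.imp fun _ h k => (h k).trans (Nat.mul_le_mul hc (HF_mono hI le_rfl))

/-- The coordinate ring as an algebra over the polynomial ring in the functions `y`. -/
def Qt (q : Ideal (MP σ)) (_y : Fin d → MP σ) : Type := MP σ ⧸ q

variable (q : Ideal (MP σ)) (y : Fin d → MP σ)

noncomputable instance : CommRing (Qt q y) := inferInstanceAs (CommRing (MP σ ⧸ q))
noncomputable instance : Algebra ℂ (Qt q y) := inferInstanceAs (Algebra ℂ (MP σ ⧸ q))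
instance [q.IsPrime] : IsDomain (Qt q y) := inferInstanceAs (IsDomain (MP σ ⧸ q))
instance [Finite σ] : Algebra.FiniteType ℂ (Qt q y) :=
  inferInstanceAs (Algebra.FiniteType ℂ (MP σ ⧸ q))

/-- The class of a polynomial. -/
noncomputable def mk : MP σ →ₐ[ℂ] Qt q y := Ideal.Quotient.mkₐ ℂ q

noncomputable instance : Algebra (MP (Fin d)) (Qt q y) :=
  ((mk q y).comp (MvPolynomial.aeval y)).toRingHom.toAlgebra

theorem alg_eq (p : MP (Fin d)) :
    algebraMap (MP (Fin d)) (Qt q y) p = mk q y (MvPolynomial.aeval y p) := rfl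

instance : IsScalarTower ℂ (MP (Fin d)) (Qt q y) :=
  .of_algebraMap_eq fun c => (((mk q y).comp (MvPolynomial.aeval y)).commutes c).symm

theorem mk_surj : Function.Surjective (mk q y) := Ideal.Quotient.mk_surjective

variable {q y}

theorem mk_eq_zero {f : MP σ} : mk q y f = 0 ↔ f ∈ q := Ideal.Quotient.eq_zero_iff_mem

theorem dm_eq : dm q = (Algebra.trdeg ℂ (Qt q y)).toNat := rfl

/-- Evaluation at a point of the zero set. -/
noncomputable def evq (y : Fin d → MP σ) {c : σ → ℂ} (hc : c ∈ V q) : Qt q y →ₐ[ℂ] ℂ :=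
  Ideal.Quotient.liftₐ q (MvPolynomial.aeval c) hc

theorem evq_mk {c : σ → ℂ} (hc : c ∈ V q) (f : MP σ) : evq y hc (mk q y f) = ev c f := rfl

/-- The values of the functions `y`. -/
noncomputable def yv (y : Fin d → MP σ) (c : σ → ℂ) : Fin d → ℂ := fun i => ev c (y i)

theorem yv_cont (y : Fin d → MP σ) : Continuous (yv y) :=
  continuous_pi fun i => MvPolynomial.continuous_eval (y i)

theorem ev_aeval (c : σ → ℂ) (p : MP (Fin d)) : ev c (MvPolynomial.aeval y p) = ev (yv y c) p :=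
  MvPolynomial.comp_aeval_apply y (MvPolynomial.aeval c : MP σ →ₐ[ℂ] ℂ) p

theorem evq_alg {c : σ → ℂ} (hc : c ∈ V q) (p : MP (Fin d)) :
    evq y hc (algebraMap (MP (Fin d)) (Qt q y) p) = ev (yv y c) p := ev_aeval c p

theorem evq_aeval {c : σ → ℂ} (hc : c ∈ V q) (x : Qt q y) (g : (MP (Fin d))[X]) :
    evq y hc (aeval x g) = (g.map (ev (yv y c))).eval (evq y hc x) := by
  rw [eval_map, aeval_def, ← AlgHom.coe_toRingHom, hom_eval₂]
  congr 1
  exact RingHom.ext (evq_alg hc)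

/-- Every homomorphism to `ℂ` is an evaluation. -/
theorem ex_pt (χ : Qt q y →ₐ[ℂ] ℂ) : ∃ c ∈ V q, ∀ f, χ (mk q y f) = ev c f := by
  have h : ∀ f, χ (mk q y f) = ev (fun s => χ (mk q y (MvPolynomial.X s))) f := fun f =>
    DFunLike.congr_fun (MvPolynomial.aeval_unique (χ.comp (mk q y))) f
  exact ⟨_, fun p hp => by rw [← h, mk_eq_zero.2 hp, map_zero], h⟩

variable (q y)

/-- Noether normalisation. -/
structure Nz : Prop where
  inj : Function.Injective (algebraMap (MP (Fin d)) (Qt q y))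
  int : Algebra.IsIntegral (MP (Fin d)) (Qt q y)

/-- The degree of the projection. -/
noncomputable def rk : ℕ := Module.finrank (MP (Fin d)) (Qt q y)

variable {q y}

theorem Nz.finite [Finite σ] (h : Nz q y) : Module.Finite (MP (Fin d)) (Qt q y) :=
  have := h.int
  have := Algebra.FiniteType.of_restrictScalars_finiteType ℂ (MP (Fin d)) (Qt q y)
  Algebra.IsIntegral.finite

theorem Nz.faithful (h : Nz q y) : FaithfulSMul (MP (Fin d)) (Qt q y) :=
  (faithfulSMul_iff_algebraMap_injective _ _).2 h.inj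

/-- A prime with a finite projection of degree at most `ρ`. -/
def Pc (q : Ideal (MP σ)) (ρ : ℕ) : Prop :=
  q.IsPrime ∧ ∃ (d : ℕ) (y : Fin d → MP σ), Nz q y ∧ rk q y ≤ ρ

/-- The common zeros of `E` in `W` lie on primes that contain `E`, of total degree at most `R`. -/
def Cov (E : Set (MP σ)) (W : Set (σ → ℂ)) (R : ℕ) : Prop :=
  ∃ (κ : Type) (_ : Fintype κ) (q : κ → Ideal (MP σ)) (ρ : κ → ℕ), ∑ i, ρ i ≤ R ∧
    (∀ i, Pc (q i) (ρ i) ∧ ∀ f ∈ E, f ∈ q i) ∧ ∀ c ∈ W, (∀ f ∈ E, ev c f = 0) → ∃ i, c ∈ V (q i)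

theorem Cov.union {E : Set (MP σ)} {W : Set (σ → ℂ)} {R : ℕ} (Q : Finset (Ideal (MP σ)))
    (r : Ideal (MP σ) → ℕ) (h : ∀ p ∈ Q, Cov E (V p) (r p)) (hR : ∑ p ∈ Q, r p ≤ R)
    (hW : ∀ c ∈ W, (∀ f ∈ E, ev c f = 0) → ∃ p ∈ Q, c ∈ V p) : Cov E W R := by
  choose κ _ q ρ h1 h2 h3 using fun p : Q => h p p.2
  refine ⟨Σ p, κ p, inferInstance, fun i => q i.1 i.2, fun i => ρ i.1 i.2, ?_, fun i => h2 _ _,
    fun c hc hE => ?_⟩
  · rw [Fintype.sum_sigma]
    exact (Finset.sum_le_sum fun p _ => h1 p).trans ((Finset.sum_coe_sort Q r).trans_le hR)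
  · obtain ⟨p, hp, h4⟩ := hW c hc hE
    obtain ⟨i, hi⟩ := h3 ⟨p, hp⟩ c h4 hE
    exact ⟨⟨_, i⟩, hi⟩

/-- A description of the zero set over the complement of a hypersurface. -/
structure Par (q : Ideal (MP σ)) (y : Fin d → MP σ) (h u : MP σ) (g : (MP (Fin d))[X])
    (δ : MP (Fin d)) (r : σ → (MP (Fin d))[X]) : Prop where
  monic : g.Monic
  ne : δ ≠ 0
  root : ∀ c ∈ V q, (g.map (ev (yv y c))).eval (ev c u) = 0
  pt : ∀ y₀ u₀, ev y₀ δ ≠ 0 → (g.map (ev y₀)).eval u₀ = 0 →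
    (g.map (ev y₀)).derivative.eval u₀ ≠ 0 ∧ ∃ c ∈ V q, yv y c = y₀ ∧ ev c u = u₀ ∧
      ev c h ≠ 0 ∧ ∀ s, c s = ((r s).map (ev y₀)).eval u₀ / ev y₀ δ

end

section

variable {R R' : Type} [CommRing R] [CommRing R'] {ι : Type} [Fintype ι] [DecidableEq ι]

/-- The family whose dependence bounds the number of roots. -/
noncomputable def fam (n : ℕ) (P : R[X]) : Fin n ⊕ Fin n → R[X] :=
  Sum.elim (fun i => X ^ (i : ℕ) * derivative P) fun i => X ^ (i : ℕ) * P

/-- A generalised minor of the matrix of coefficients. -/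
noncomputable def mnr (L : ℕ) (w : ι → ℕ → R) (P : ι → R[X]) : R :=
  (Matrix.of fun i k => ∑ j ∈ Finset.range L, w k j * (P i).coeff j).det

theorem fam_map (φ : R →+* R') (n : ℕ) (P : R[X]) (i : Fin n ⊕ Fin n) :
    (fam n P i).map φ = fam n (P.map φ) i := by
  cases i <;> simp [fam, derivative_map]

theorem fam_deg (n : ℕ) (P : R[X]) (i : Fin n ⊕ Fin n) :
    (fam n P i).natDegree < P.natDegree + n + 1 := by
  have h1 := natDegree_derivative_le P
  rcases i with i | i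
  · have := (natDegree_mul_le (p := X ^ (i : ℕ)) (q := derivative P))
    have := natDegree_X_pow_le (R := R) i
    have := i.2
    change (X ^ (i : ℕ) * derivative P).natDegree < _
    omega
  · have := (natDegree_mul_le (p := X ^ (i : ℕ)) (q := P))
    have := natDegree_X_pow_le (R := R) i
    have := i.2
    change (X ^ (i : ℕ) * P).natDegree < _
    omega

theorem mnr_map (φ : R →+* R') (L : ℕ) (w : ι → ℕ → R) (P : ι → R[X]) :
    φ (mnr L w P) = mnr L (fun k j => φ (w k j)) fun i => (P i).map φ := by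
  rw [mnr, RingHom.map_det, mnr]
  congr 1
  ext i k
  simp

end

/-- The universal curve. -/
noncomputable def Fu (b m : ℕ) : (MP (Co b m))[X][X] := toP MvPolynomial.X

/-- Its discriminant. -/
noncomputable def Du (b m : ℕ) : (MP (Co b m))[X] := Δ b (Fu b m)

theorem Fu_map {b m : ℕ} (c : Co b m → ℂ) : (Fu b m).map (mapRingHom (ev c)) = toP c := by
  rw [Fu, ← toP_map]
  congr 1
  ext p
  simp

theorem Du_map {b m : ℕ} (c : Co b m → ℂ) : (Du b m).map (ev c) = Δ b (toP c) := by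
  rw [← Fu_map, Δ_map]
  rfl

/-- The universal generalised minor. -/
noncomputable def Mu (b m n : ℕ) (w : Fin n ⊕ Fin n → ℕ → ℂ) : MP (Co b m) :=
  mnr ((Du b m).natDegree + n + 1) (fun k j => MvPolynomial.C (w k j)) (fam n (Du b m))

theorem Mu_ev {b m n : ℕ} (w : Fin n ⊕ Fin n → ℕ → ℂ) (c : Co b m → ℂ) :
    ev c (Mu b m n w) = mnr ((Du b m).natDegree + n + 1) w (fam n (Δ b (toP c))) := by
  rw [Mu, mnr_map, ← Du_map]
  simp only [MvPolynomial.eval_C, fam_map]

theorem fam_deg' {b m : ℕ} (n : ℕ) (c : Co b m → ℂ) (i : Fin n ⊕ Fin n) :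
    (fam n (Δ b (toP c)) i).natDegree < (Du b m).natDegree + n + 1 := by
  have := fam_deg n (Δ b (toP c)) i
  have h := natDegree_map_le (f := ev c) (p := Du b m)
  rw [Du_map] at h
  omega

/-- A plane curve that is unramified over the complement of `Z`. -/
structure Cu (G : ℂ[X][X]) (Z : Set ℂ) : Prop where
  monic : G.Monic
  fin : Z.Finite
  sep : ∀ t ∉ Z, ∀ u, G.evalEval t u = 0 → G.derivative.evalEval t u ≠ 0

/-- Its unramified part. -/
def Gm (G : ℂ[X][X]) (Z : Set ℂ) : Set (ℂ × ℂ) := {p | p.1 ∉ Z ∧ G.evalEval p.1 p.2 = 0}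

theorem evalEval_eq (G : ℂ[X][X]) (t u : ℂ) :
    G.evalEval t u = (G.map (evalRingHom t)).eval u := (map_evalRingHom_eval t u G).symm

theorem evalEval_diff (G : ℂ[X][X]) : Differentiable ℂ fun p : ℂ × ℂ => G.evalEval p.1 p.2 := by
  induction G using Polynomial.induction_on' with
  | add p q hp hq => simp only [evalEval_add]; exact hp.add hq
  | monomial n a =>
    simp only [← C_mul_X_pow_eq_monomial, evalEval_mul, evalEval_C, evalEval_pow, evalEval_X]
    exact (a.differentiable.comp differentiable_fst).mul (differentiable_snd.pow n)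

/-- A branch of the curve at the point `(a, u₀)`. -/
structure Dsc (G : ℂ[X][X]) (Z : Set ℂ) (a u₀ : ℂ) (e : ℕ) (ε : ℝ) (φ : ℂ → ℂ) : Prop where
  one : 1 ≤ e
  pos : 0 < ε
  hol : DifferentiableOn ℂ φ (ball 0 ε)
  zero : φ 0 = u₀
  mem : ∀ v ∈ ball (0 : ℂ) ε, v ≠ 0 → (a + v ^ e, φ v) ∈ Gm G Z

theorem Dsc.mono {G : ℂ[X][X]} {Z : Set ℂ} {a u₀ : ℂ} {e : ℕ} {ε ε' : ℝ} {φ : ℂ → ℂ}
    (h : Dsc G Z a u₀ e ε φ) (h0 : 0 < ε') (h1 : ε' ≤ ε) : Dsc G Z a u₀ e ε' φ :=
  ⟨h.one, h0, h.hol.mono (ball_subset_ball h1), h.zero,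
    fun v hv => h.mem v (ball_subset_ball h1 hv)⟩

/-- The principal root. -/
noncomputable def rt (e : ℕ) (β : ℂ) : ℂ := β ^ (e : ℂ)⁻¹

theorem rt_pow {e : ℕ} (he : 1 ≤ e) (β : ℂ) : rt e β ^ e = β :=
  Complex.cpow_nat_inv_pow β (by omega)

theorem rt_one (e : ℕ) : rt e 1 = 1 := Complex.one_cpow _

theorem rt_an (e : ℕ) {β : ℂ} (h : ‖β - 1‖ < 1 / 2) : AnalyticAt ℂ (rt e) β :=
  analyticAt_id.cpow analyticAt_const (by
    simpa using Complex.mem_slitPlane_of_norm_lt_one (z := β - 1) (by linarith))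

theorem rt_ne {e : ℕ} (he : 1 ≤ e) {β : ℂ} (h : ‖β - 1‖ < 1 / 2) : rt e β ≠ 0 := fun h0 => by
  have := rt_pow he β
  rw [h0, zero_pow (by omega)] at this
  norm_num [← this] at h

theorem rt_norm {e : ℕ} (he : 1 ≤ e) {β : ℂ} (h : ‖β - 1‖ < 1 / 2) : ‖rt e β‖ < 2 := by
  by_contra h0
  have h1 : (2 : ℝ) ^ e ≤ ‖β‖ := by
    rw [← rt_pow he β, norm_pow]
    exact pow_le_pow_left₀ zero_le_two (not_lt.1 h0) e
  have h2 : (2 : ℝ) ^ 1 ≤ 2 ^ e := pow_le_pow_right₀ one_le_two he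
  have h3 := norm_add_le (β - 1) 1
  rw [sub_add_cancel, norm_one] at h3
  linarith

end Pool.Agent.P.MP_ab0431_ag.UB.Cc
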