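import Pool.Agent.P.MP_ab0431_ag.UB.Base
import Pool.Agent.P.MP_f17f76_ag.E.An1

/-! The projective plane, branched covers, the model of the ramification curve. -/

set_option autoImplicit false
set_option linter.unusedSectionVars false

namespace Pool.Agent.P.MP_ab0431_ag.UB

open Polynomial Set Filter Topology
open scoped Manifold ContDiff

attribute [instance] Surf.mfd Surf.t2 Surf.cpt Surf.conn

/-- A model of the projective plane. -/
structure PM where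
  Y : Type
  [met : MetricSpace Y]
  [cs : ChartedSpace C2 Y]
  mfd : IsManifold 𝓘(ℂ, C2) ω Y
  cpt : CompactSpace Y
  pp : (Fin 3 → ℂ) → Y
  surj : ∀ y, ∃ v, v ≠ 0 ∧ pp v = y
  eq_iff : ∀ v w, v ≠ 0 → w ≠ 0 → (pp v = pp w ↔ ∃ c : ℂ, w = c • v)
  ch : Fin 3 → OpenPartialHomeomorph Y C2
  ch_mem : ∀ i, ch i ∈ atlas C2 Y
  ch_src : ∀ i v, v ≠ 0 → (pp v ∈ (ch i).source ↔ v i ≠ 0)
  ch_tgt : ∀ i, (ch i).target = univ
  ch_app : ∀ i v, v i ≠ 0 → ch i (pp v) = fun j => v (i.succAbove j) / v i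
  ch_symm : ∀ i w, (ch i).symm w = pp (i.insertNth 1 w)

attribute [instance] PM.met PM.cs PM.mfd PM.cpt

/-- Product charts. -/
noncomputable instance PM.csP (Q : PM) : ChartedSpace (C2 × ℂ) (Q.Y × ℂ) := prodChartedSpace C2 Q.Y ℂ ℂ

instance PM.mfdP (Q : PM) : IsManifold 𝓘(ℂ, C2 × ℂ) ω (Q.Y × ℂ) := by
  rw [modelWithCornersSelf_prod]
  exact IsManifold.prod Q.Y ℂ

/-- The plane curve with coefficient vector `c`. -/
def Bc (Q : PM) {b m : ℕ} (c : Co b m → ℂ) : Set Q.Y :=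
  {y | ∃ v, v ≠ 0 ∧ Q.pp v = y ∧ hom b (toP c) v = 0}

/-- A continuous fibrewise bijection over `W`. -/
def TI {E E' T : Type} [TopologicalSpace E] [TopologicalSpace E'] (p : E → T) (p' : E' → T)
    (W : Set T) (f : E → E') : Prop :=
  ContinuousOn f (p ⁻¹' W) ∧ (∀ z, p z ∈ W → p' (f z) = p z) ∧ BijOn f (p ⁻¹' W) (p' ⁻¹' W)

section

variable (E : Type) [NormedAddCommGroup E] [NormedSpace ℂ E]
  (T : Type) [TopologicalSpace T] [ChartedSpace E T]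

/-- A manifold with a holomorphic map to `T`. -/
structure Cv where
  Z : Type
  [top : TopologicalSpace Z]
  [cs : ChartedSpace E Z]
  mfd : IsManifold 𝓘(ℂ, E) ω Z
  t2 : T2Space Z
  π : Z → T
  hol : MDifferentiable 𝓘(ℂ, E) 𝓘(ℂ, E) π

attribute [instance] Cv.top Cv.cs Cv.mfd Cv.t2

variable {E T}

/-- The map is biholomorphic near `z`. -/
def Cv.Loc (F : Cv E T) (z : F.Z) : Prop :=
  ∃ e : OpenPartialHomeomorph F.Z T, z ∈ e.source ∧ EqOn e F.π e.source ∧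
    MDifferentiableOn 𝓘(ℂ, E) 𝓘(ℂ, E) e.symm e.target

/-- Over `Ω` the map is proper with finite fibres and locally biholomorphic off `B`, and the
preimage of `B` is nowhere dense. -/
structure Cv.G0 (F : Cv E T) (B Ω : Set T) : Prop where
  prop : ∀ K ⊆ Ω, IsCompact K → IsCompact (F.π ⁻¹' K)
  fin : ∀ q ∈ Ω, (F.π ⁻¹' {q}).Finite
  loc : ∀ z, F.π z ∈ Ω → F.π z ∉ B → F.Loc z
  thin : ∀ z, F.π z ∈ Ω → z ∈ closure (F.π ⁻¹' Bᶜ)

/-- At least `d - 2` points over `q` where the map is locally biholomorphic. -/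
def Cv.Fold (F : Cv E T) (d : ℕ) (q : T) : Prop :=
  ∃ S : Finset F.Z, d ≤ S.card + 2 ∧ ∀ z ∈ S, F.π z = q ∧ F.Loc z

/-- Degree `d`, and simple branching off a set that is discrete in each level set of `μ`. -/
structure Cv.G1 (F : Cv E T) (B : Set T) (d : ℕ) (μ : T → ℂ) (Ω : Set T) : Prop where
  card : ∀ q ∈ Ω, q ∉ B → (F.π ⁻¹' {q}).ncard = d
  fold : ∀ q ∈ Ω, ∀ᶠ q' in 𝓝 q, μ q' = μ q → q' ≠ q → F.Fold d q'

theorem Cv.G0.mono {F : Cv E T} {B Ω Ω' : Set T} (h : F.G0 B Ω) (hs : Ω' ⊆ Ω) : F.G0 B Ω' :=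
  ⟨fun K hK => h.prop K (hK.trans hs), fun q hq => h.fin q (hs hq),
    fun z hz => h.loc z (hs hz), fun z hz => h.thin z (hs hz)⟩

theorem Cv.G1.mono {F : Cv E T} {B Ω Ω' : Set T} {d : ℕ} {μ : T → ℂ} (h : F.G1 B d μ Ω)
    (hs : Ω' ⊆ Ω) : F.G1 B d μ Ω' :=
  ⟨fun q hq => h.card q (hs hq), fun q hq => h.fold q (hs hq)⟩

end

/-- `π` presents the surface `X` as a simply branched cover of degree `d` of the plane with
branch set in `B`. -/
def IsCov (Q : PM) (X : Surf) (B : Set Q.Y) (d : ℕ) : Prop :=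
  ∃ (π : X.X → Q.Y) (h : MDifferentiable 𝓘(ℂ, C2) 𝓘(ℂ, C2) π),
    (Cv.mk X.X X.mfd X.t2 π h : Cv C2 Q.Y).G0 B univ ∧
    (Cv.mk X.X X.mfd X.t2 π h : Cv C2 Q.Y).G1 B d (fun _ => 0) univ

/-- A holomorphic family of good curves with `n` critical abscissae over a neighbourhood of the
segment from `0` to `N`. -/
structure Strip {b m : ℕ} (n N : ℕ) (U : Set ℂ) (s : ℂ → Co b m → ℂ) : Prop where
  isOpen : IsOpen U
  seg : ∀ x : ℝ, 0 ≤ x → x ≤ N → (x : ℂ) ∈ U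
  hol : DifferentiableOn ℂ s U
  good : ∀ u ∈ U, Good (s u) ∧ nr (s u) = n

/-- A compact curve with a function `x` that has the local forms `x₀ + u`, `x₀ + u ^ 2` and,
at the points at infinity, `1 / u`. -/
structure RS where
  R : Type
  [top : TopologicalSpace R]
  cpt : CompactSpace R
  t2 : T2Space R
  inf : Set R
  xx : R → ℂ
  ν : R → ℕ
  ψ : R → OpenPartialHomeomorph R ℂ
  mem : ∀ r, r ∈ (ψ r).source
  zero : ∀ r, ψ r r = 0
  ν12 : ∀ r, ν r = 1 ∨ ν r = 2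
  aff : ∀ r ∉ inf, ∀ r' ∈ (ψ r).source, r' ∉ inf ∧ xx r' = xx r + ψ r r' ^ ν r
  atinf : ∀ r ∈ inf, ν r = 1 ∧ ∀ r' ∈ (ψ r).source, r' ≠ r → r' ∉ inf ∧ xx r' * ψ r r' = 1

attribute [instance] RS.top RS.cpt RS.t2

namespace RS

variable (S : RS)

/-- The fibre of `x`. -/
def fb (x : ℂ) : Set S.R := {r | r ∉ S.inf ∧ S.xx r = x}

/-- A function in the local parameter at `r`. -/
noncomputable def lc (f : S.R → ℂ) (r : S.R) : ℂ → ℂ := f ∘ (S.ψ r).symm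

/-- Holomorphic at finite distance, with poles of order at most `n` at infinity and leading
coefficients `τ`. -/
def Cl (n : ℕ) (f τ : S.R → ℂ) : Prop :=
  (∀ r ∉ S.inf, AnalyticAt ℂ (S.lc f r) 0) ∧ ∀ r ∈ S.inf, ∃ g : ℂ → ℂ, AnalyticAt ℂ g 0 ∧
    g 0 = τ r ∧ ∀ᶠ u in 𝓝[≠] 0, S.lc f r u * u ^ n = g u

/-- The genericity properties of the ramification curve and of the function `z`. -/
structure Gen (z τ : S.R → ℂ) : Prop where
  cl : S.Cl 1 z τ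
  inj : InjOn τ S.inf
  crit : ∀ r r', S.ν r = 2 → S.ν r' = 2 → S.xx r = S.xx r' → r = r'
  pair : ∀ x, ∀ r ∈ S.fb x, ∀ r' ∈ S.fb x, S.ν r = 2 → z r = z r' → r = r'
  triple : ∀ x, ∀ r ∈ S.fb x, ∀ r' ∈ S.fb x, ∀ r'' ∈ S.fb x, z r = z r' → z r = z r'' →
    r = r' ∨ r = r'' ∨ r' = r''
  sep : ∀ x, ∃ g τ', S.Cl 1 g τ' ∧ InjOn g (S.fb x) ∧
    ∀ r ∈ S.fb x, S.ν r = 2 → deriv (S.lc g r) 0 ≠ 0
  neg : ∃ (M n : ℕ) (φ τ' : S.R → ℂ), n < 6 * M ∧ S.Cl n φ τ' ∧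
    (∀ r ∉ S.inf, S.ν r = 1 → φ r ≠ 0) ∧
    ∀ r, S.ν r = 2 → S.lc φ r =O[𝓝 0] fun u => u ^ M

end RS

end Pool.Agent.P.MP_ab0431_ag.UB
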