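import Pool.Agent.P.MP_ab0431_ag.Defs

/-!
Definitions for the upper bound on the number of families of surfaces.
-/

namespace Pool.Agent.P.MP_ab0431_ag

open scoped Manifold ContDiff

/-- The `m`-th power of the canonical bundle is very ample: finitely many sections of it have no
common zero and define an injective immersion into projective space. -/
def VeryAmple (X : Type) [TopologicalSpace X] [ChartedSpace C2 X] (m : ℕ) : Prop :=
  ∃ (N : ℕ) (σ : Fin N → OpenPartialHomeomorph X C2 → C2 → ℂ),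
    (∀ i, IsForm X m (σ i)) ∧ ∀ e ∈ atlas C2 X, ∀ x ∈ e.source, (∃ i, σ i e (e x) ≠ 0) ∧
      (∀ (v : C2) (c : ℂ), (∀ i, fderiv ℂ (σ i e) (e x) v = c * σ i e (e x)) → v = 0) ∧
      ∀ e' ∈ atlas C2 X, ∀ y ∈ e'.source, ∀ c : ℂ, (∀ i, σ i e (e x) = c * σ i e' (e' y)) → x = y

/-- The plurigenera satisfy `2 P_n ≤ y n ^ 2` for all large `n`: any `r` linearly independent
sections of the `n`-th power of the canonical bundle have `2 r ≤ y n ^ 2`. -/
def KsqLe (X : Type) [TopologicalSpace X] [ChartedSpace C2 X] (y : ℕ) : Prop :=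
  ∀ᶠ n in Filter.atTop, ∀ (r : ℕ) (σ : Fin r → OpenPartialHomeomorph X C2 → C2 → ℂ),
    (∀ i, IsForm X n (σ i)) →
    (∀ c : Fin r → ℂ, (∀ e ∈ atlas C2 X, ∀ x ∈ e.source, ∑ i, c i * σ i e (e x) = 0) → c = 0) →
    2 * r ≤ y * n ^ 2

section

variable (E F : Type) [NormedAddCommGroup E] [NormedSpace ℂ E] [NormedAddCommGroup F]
  [NormedSpace ℂ F] {M N : Type} [TopologicalSpace M] [ChartedSpace E M] [TopologicalSpace N]
  [ChartedSpace F N]

/-- `f` is a holomorphic immersion of complex manifolds modelled on `E` and `F`. -/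
def HolImm (f : M → N) : Prop :=
  MDifferentiable 𝓘(ℂ, E) 𝓘(ℂ, F) f ∧ ∀ x, Function.Injective (mfderiv 𝓘(ℂ, E) 𝓘(ℂ, F) f x)

/-- `f` is a holomorphic submersion of complex manifolds modelled on `E` and `F`. -/
def HolSubm (f : M → N) : Prop :=
  MDifferentiable 𝓘(ℂ, E) 𝓘(ℂ, F) f ∧ ∀ x, Function.Surjective (mfderiv 𝓘(ℂ, E) 𝓘(ℂ, F) f x)

end

/-- `X` is mapped onto a fibre of `p : Z → ℂ` by an injective holomorphic immersion. -/
def IsFibre (X : Surf) {Z : Type} [TopologicalSpace Z] [ChartedSpace (C2 × ℂ) Z] (p : Z → ℂ) :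
    Prop :=
  ∃ (t : ℂ) (j : X.X → Z), Function.Injective j ∧ HolImm C2 (C2 × ℂ) j ∧ Set.range j = p ⁻¹' {t}

/-- `X` and `Y` are fibres of one proper holomorphic submersion from a complex threefold `Z` to a
connected open subset `U` of `ℂ`. -/
def OneFamily (X Y : Surf) : Prop :=
  ∃ (Z : Type) (_ : TopologicalSpace Z) (_ : ChartedSpace (C2 × ℂ) Z) (U : Set ℂ) (p : Z → ℂ),
    T2Space Z ∧ IsManifold 𝓘(ℂ, C2 × ℂ) ω Z ∧ IsOpen U ∧ IsConnected U ∧ (∀ z, p z ∈ U) ∧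
    HolSubm (C2 × ℂ) ℂ p ∧ (∀ K ⊆ U, IsCompact K → IsCompact (p ⁻¹' K)) ∧
    IsFibre X p ∧ IsFibre Y p

end Pool.Agent.P.MP_ab0431_ag
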