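import Pool.Agent.P.MP_ab0431_ag.UB.BaseA

/-! Statements of the steps from a surface to a plane curve and a cover. -/

set_option autoImplicit false
set_option linter.unusedSectionVars false

namespace Pool.Agent.P.MP_ab0431_ag.UB

open Polynomial Set Filter Topology Asymptotics MeasureTheory
open scoped Manifold ContDiff

-- deps:
def S_ORDB : Prop := ∀ (g : ℂ → ℂ) (n : ℕ), AnalyticAt ℂ g 0 →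
  ((g =O[𝓝 0] fun v : ℂ => v ^ n) ↔ ∀ i < n, iteratedDeriv i g 0 = 0) ∧
  ((g =O[𝓝 0] fun v : ℂ => v ^ n) ↔ ∃ h, AnalyticAt ℂ h 0 ∧ ∀ᶠ v in 𝓝 0, g v = v ^ n * h v)

-- deps:
def S_APX : Prop := ∀ (f : C2 → ℂ) (ζ : C2) (n : ℕ), AnalyticAt ℂ f ζ →
  (f =O[𝓝 ζ] fun y => ‖y - ζ‖ ^ (n + 1)) → fderiv ℂ f =O[𝓝 ζ] fun y => ‖y - ζ‖ ^ n

-- deps:
def S_GEN0 : Prop := ∀ (E W κ : Type) [NormedAddCommGroup E] [NormedSpace ℂ E]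
  [FiniteDimensional ℂ E] [NormedAddCommGroup W] [NormedSpace ℂ W] [FiniteDimensional ℂ W]
  [MeasurableSpace W] [BorelSpace W] (μ : Measure W) [μ.IsAddHaarMeasure] [Fintype κ]
  (Ω : Set E) (L : E → W →L[ℂ] κ → ℂ), IsOpen Ω → DifferentiableOn ℂ L Ω →
  (∀ q ∈ Ω, Function.Surjective (L q)) → Module.finrank ℂ E < Fintype.card κ →
  μ {a | ∃ q ∈ Ω, L q a = 0} = 0

-- deps: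
def S_HOLD : Prop := ∀ (E : Type) [NormedAddCommGroup E] [NormedSpace ℂ E]
  [FiniteDimensional ℂ E] (g : E × ℂ → ℂ) (q : E) (i : ℕ), AnalyticAt ℂ g (q, 0) →
  AnalyticAt ℂ (fun q' => iteratedDeriv i (fun v => g (q', v)) 0) q

-- deps: ORDB APX
def S_JETF : Prop := ∀ (ζ : C2) (sw : Bool) (α : Fin 3 → ℂ) (A B : ℕ → ℂ), ∃ T : C2 → ℂ,
  AnalyticAt ℂ T ζ ∧ ∀ f : C2 → ℂ, AnalyticAt ℂ f ζ →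
    ((fun y => f y - T y) =O[𝓝 ζ] fun y => ‖y - ζ‖ ^ 5) →
    (∀ i < 5, iteratedDeriv i (fun v => f (cv ζ sw α v)) 0 = A i) ∧
    ∀ i < 4, iteratedDeriv i (fun v => fderiv ℂ f (cv ζ sw α v) (ev (!sw))) 0 = B i

-- deps: ORDB GEN0 HOLD JETF
def S_GENE0 : Prop := ∀ (X : Surf) (h : Ch X) (M : ℕ) (ι : Type) [Fintype ι] (τ : ι → Sec X)
  (r : ℕ) (t : Fin r → Ty) (fc fg : Bool) (og : Fin r → Bool) (σ : Equiv.Perm (Fin 3)),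
  (∀ i, IsForm X.X M (τ i)) → JetS τ → r ≤ 3 →
  (∀ j, (t j).nl ≤ 3 ∧ ∀ i, (t j).n₀ i ≤ 5 ∧ (t j).n₁ i ≤ 4) →
  fc.toNat + fg.toNat + ∑ j, (2 + (t j).nl + (og j).toNat + (t j).bt.toNat) <
    ∑ j, ∑ i, ((t j).n₀ i + (t j).n₁ i) →
  volume {a : Fin 3 → ι → ℂ | ∃ (p : Fin r → X.X) (c g : ℂ) (γ : Fin r → ℂ),
    Function.Injective p ∧ (fc = false → c = 0) ∧ (fg = false → g = 0) ∧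
    (∀ j, og j = false → γ j = 0) ∧
    ∀ j, h.Evt (fun i => ∑ l, a (σ i) l • τ l) (t j) (p j) c (g + γ j)} = 0

-- deps: GENE0
def S_GENE : Prop := ∀ (X : Surf) (h : Ch X) (M : ℕ) (ι : Type) [Fintype ι] (τ : ι → Sec X),
  2 < M → (∀ i, IsForm X.X M (τ i)) → JetS τ → ∃ s : Fin 3 → Sec X, Tri M h s

-- deps:
def S_TAY : Prop := ∀ (x₀ x₁ T : C2 → ℂ) (ζ : C2), AnalyticAt ℂ x₀ ζ → AnalyticAt ℂ x₁ ζ →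
  AnalyticAt ℂ T ζ → x₀ ζ = 0 → x₁ ζ = 0 → jac x₀ x₁ ζ ≠ 0 → ∃ a : Fin 5 → Fin 5 → ℂ,
    (fun y => T y - ∑ i, ∑ j, a i j * x₀ y ^ (i : ℕ) * x₁ y ^ (j : ℕ)) =O[𝓝 ζ]
      fun y => ‖y - ζ‖ ^ 5

-- deps: TAY
def S_JET : Prop := ∀ (X : Surf) (m : ℕ), VeryAmple X.X m →
  ∃ (n : ℕ) (τ : Fin n → Sec X), (∀ i, IsForm X.X (20 * m) (τ i)) ∧ JetS τ

-- deps:
def S_JFORM : Prop := ∀ (X : Surf) (m₀ m₁ m₂ : ℕ) (s₀ s₁ s₂ : Sec X), IsForm X.X m₀ s₀ →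
  IsForm X.X m₁ s₁ → IsForm X.X m₂ s₂ →
  IsForm X.X (m₀ + m₁ + m₂ + 1) fun e => wjf m₀ m₁ m₂ (s₀ e) (s₁ e) (s₂ e)

-- deps:
def S_RPAR : Prop := ∀ (j : C2 → ℂ) (ζ : C2) (O₀ : Set C2), AnalyticAt ℂ j ζ → j ζ = 0 →
  fderiv ℂ j ζ ≠ 0 → O₀ ∈ 𝓝 ζ → ∃ (ε : ℝ) (ψ : ℂ → C2) (θ : C2 → ℂ) (O : Set C2), 0 < ε ∧
    IsOpen O ∧ ζ ∈ O ∧ O ⊆ O₀ ∧ AnalyticOnNhd ℂ ψ (Metric.ball 0 ε) ∧ ContinuousOn θ O ∧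
    ψ 0 = ζ ∧ deriv ψ 0 ≠ 0 ∧ (∀ u ∈ Metric.ball 0 ε, ψ u ∈ O ∧ j (ψ u) = 0 ∧ θ (ψ u) = u) ∧
    ∀ y ∈ O, j y = 0 → θ y ∈ Metric.ball 0 ε ∧ ψ (θ y) = y

-- deps: RPAR ORDB
def S_RCH : Prop := ∀ (j g : C2 → ℂ) (ζ : C2) (O₀ : Set C2) (ν : ℕ), AnalyticAt ℂ j ζ →
  AnalyticAt ℂ g ζ → j ζ = 0 → fderiv ℂ j ζ ≠ 0 → O₀ ∈ 𝓝 ζ → 0 < ν →
  (∀ ψ, Par j ζ ψ → ((fun u => g (ψ u)) =O[𝓝 0] fun u : ℂ => u ^ ν) ∧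
    ¬(fun u => g (ψ u)) =O[𝓝 0] fun u : ℂ => u ^ (ν + 1)) →
  ∃ (ε : ℝ) (ψ : ℂ → C2) (θ : C2 → ℂ) (O : Set C2), 0 < ε ∧
    IsOpen O ∧ ζ ∈ O ∧ O ⊆ O₀ ∧ AnalyticOnNhd ℂ ψ (Metric.ball 0 ε) ∧ ContinuousOn θ O ∧
    ψ 0 = ζ ∧ deriv ψ 0 ≠ 0 ∧
    (∀ u ∈ Metric.ball 0 ε, ψ u ∈ O ∧ j (ψ u) = 0 ∧ θ (ψ u) = u ∧ g (ψ u) = u ^ ν) ∧
    ∀ y ∈ O, j y = 0 → θ y ∈ Metric.ball 0 ε ∧ ψ (θ y) = y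

-- deps: RPAR ORDB
def S_QREG : Prop := ∀ (u v : C2 → ℂ) (ζ : C2) (S : Finset (ℕ × ℕ)) (f : ℕ × ℕ → C2 → ℂ)
  (N : ℕ), AnalyticAt ℂ u ζ → AnalyticAt ℂ v ζ → u ζ = 0 → v ζ = 0 → fderiv ℂ u ζ ≠ 0 →
  (∀ᶠ y in 𝓝[≠] ζ, ¬(u y = 0 ∧ v y = 0)) → (∀ q ∈ S, AnalyticAt ℂ (f q) ζ ∧ N ≤ q.1 + q.2) →
  (∀ᶠ y in 𝓝 ζ, ∑ q ∈ S, f q y * u y ^ q.1 * v y ^ q.2 = 0) →
  ∀ q ∈ S, q.1 + q.2 = N → f q ζ = 0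

-- deps:
def S_SEPF : Prop := ∀ (X : Surf) (h : Ch X) (m : ℕ) (S : Finset X.X) (l : ℕ),
  VeryAmple X.X m → S.card ≤ l → ∀ p ∈ S, ∃ f : Sec X, IsForm X.X (l * m) f ∧ h.vl f p ≠ 0 ∧
    ∀ q ∈ S, q ≠ p → h.vl f q = 0

-- deps: QREG SEPF
def S_BEZ : Prop := ∀ (X : Surf) (h : Ch X) (m y α β : ℕ) (u v : Sec X) (S : Finset X.X),
  0 < m → VeryAmple X.X m → KsqLe X.X y → 0 < α → 0 < β → IsForm X.X α u → IsForm X.X β v →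
  (∀ p ∈ S, h.vl u p = 0 ∧ h.vl v p = 0 ∧ fderiv ℂ (u (h.e p)) (h.pt p) ≠ 0 ∧
    ∀ᶠ q in 𝓝[≠] p, ¬(h.vl u q = 0 ∧ h.vl v q = 0)) → S.card ≤ 8 * m ^ 2 * α * β * y

-- deps:
def S_NF : Prop := ∀ (x : C2 → ℂ) (ζ : C2), AnalyticAt ℂ x ζ → fderiv ℂ x ζ ≠ 0 →
  ∃ (sw : Bool) (φ : ℂ × ℂ → ℂ), AnalyticAt ℂ φ (x ζ, 0) ∧ φ (x ζ, 0) = 0 ∧
    fderiv ℂ x ζ (ev (!sw)) ≠ 0 ∧
    (∀ᶠ q in 𝓝 (x ζ, (0 : ℂ)), x (ζ + q.2 • ev sw + φ q • ev (!sw)) = q.1) ∧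
    ∀ᶠ y in 𝓝 ζ, ζ + (y - ζ) (if sw then 1 else 0) • ev sw +
      φ (x y, (y - ζ) (if sw then 1 else 0)) • ev (!sw) = y

-- deps: ORDB
def S_TRUNC : Prop := ∀ (φ : ℂ → ℂ) (ζ : C2) (sw : Bool) (n : ℕ), AnalyticAt ℂ φ 0 → φ 0 = 0 →
  n ≤ 3 → ∃ α : Fin 3 → ℂ, (∀ i : Fin 3, n ≤ i → α i = 0) ∧ ∀ f : C2 → ℂ, AnalyticAt ℂ f ζ →
    (fun v => f (cv ζ sw α v) - f (ζ + v • ev sw + φ v • ev (!sw))) =O[𝓝 0]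
      fun v : ℂ => v ^ (n + 1)

-- deps:
def S_LTU : Prop := ∀ (t : Ty) (f : Fin 3 → C2 → ℂ) (ζ : C2) (c γ : ℂ),
  (∀ i, AnalyticAt ℂ (f i) ζ) → f 0 ζ ≠ 0 → (∀ i, t.n₁ i ≤ t.n₀ i) → t.n₀ 0 = 0 →
  Evt t ![1, f 1 / f 0, f 2 / f 0] ζ c γ → Evt t f ζ c γ

-- deps:
def S_WJ : Prop := ∀ (M : ℕ) (f : Fin 3 → C2 → ℂ) (ζ : C2), M ≠ 0 →
  (∀ i, AnalyticAt ℂ (f i) ζ) → f 0 ζ ≠ 0 →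
  AnalyticAt ℂ (jac (f 1 / f 0) (f 2 / f 0)) ζ ∧
  (∀ᶠ y in 𝓝 ζ, wjf M M M (f 0) (f 1) (f 2) y = M * f 0 y ^ 3 * jac (f 1 / f 0) (f 2 / f 0) y) ∧
  (wjf M M M (f 0) (f 1) (f 2) ζ = 0 →
    (fderiv ℂ (wjf M M M (f 0) (f 1) (f 2)) ζ = 0 ↔
      fderiv ℂ (jac (f 1 / f 0) (f 2 / f 0)) ζ = 0) ∧
    (wjf (3 * M + 1) M M (wjf M M M (f 0) (f 1) (f 2)) (f 0) (f 1) ζ = 0 ↔
      jac (jac (f 1 / f 0) (f 2 / f 0)) (f 1 / f 0) ζ = 0))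

-- deps: ORDB
def S_LR : Prop := ∀ (x z : C2 → ℂ) (ζ : C2), AnalyticAt ℂ x ζ → AnalyticAt ℂ z ζ →
  (jac x z ζ = 0 → Evt tR ![1, x, z] ζ (x ζ) (z ζ)) ∧
  (fderiv ℂ x ζ = 0 → Evt tB ![1, x, z] ζ (x ζ) (z ζ)) ∧
  (fderiv ℂ x ζ = 0 → fderiv ℂ z ζ = 0 → Evt tZ ![1, x, z] ζ (x ζ) (z ζ)) ∧
  ∀ f : C2 → ℂ, AnalyticAt ℂ f ζ → x ζ = 0 → z ζ = 0 →
    (f ζ = 0 → Evt tN1 ![x, z, f] ζ 0 0) ∧ (jac x z ζ = 0 → Evt tN2 ![x, z, f] ζ 0 0)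

/-- Coordinates adapted to `x`: the data of the normal form and the function `z` in them. -/
structure Adp (x z : C2 → ℂ) (ζ : C2) (Γ : ℂ × ℂ → C2) (f u : ℂ × ℂ → ℂ) : Prop where
  an : AnalyticAt ℂ Γ (x ζ, 0)
  base : Γ (x ζ, 0) = ζ
  inv : ∃ Λ : C2 → ℂ × ℂ, AnalyticAt ℂ Λ ζ ∧ Λ ζ = (x ζ, 0) ∧ (∀ᶠ y in 𝓝 ζ, Γ (Λ y) = y) ∧
    ∀ᶠ q in 𝓝 (x ζ, (0 : ℂ)), Λ (Γ q) = q
  fx : ∀ᶠ q in 𝓝 (x ζ, (0 : ℂ)), x (Γ q) = q.1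
  fz : f = z ∘ Γ
  uan : AnalyticAt ℂ u (x ζ, 0)
  une : u (x ζ, 0) ≠ 0
  jv : ∀ᶠ q in 𝓝 (x ζ, (0 : ℂ)), jac x z (Γ q) = u q * fderiv ℂ f q (0, 1)

/-- Partial derivative in the first coordinate. -/
noncomputable def da (f : ℂ × ℂ → ℂ) (q : ℂ × ℂ) : ℂ := fderiv ℂ f q (1, 0)

/-- Partial derivative in the second coordinate. -/
noncomputable def dv (f : ℂ × ℂ → ℂ) (q : ℂ × ℂ) : ℂ := fderiv ℂ f q (0, 1)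

-- deps: ORDB
def S_HESS : Prop := ∀ (x : C2 → ℂ) (ζ : C2), AnalyticAt ℂ x ζ → fderiv ℂ x ζ = 0 →
  (∀ (sw : Bool) (a : ℂ), x ζ = 0 →
    (fderiv ℂ (fderiv ℂ x) ζ (ev sw + a • ev (!sw)) = 0 → Vn x ζ sw ![a, 0, 0] 3 2) ∧
    (fderiv ℂ (fderiv ℂ x) ζ (ev sw + a • ev (!sw)) (ev sw + a • ev (!sw)) = 0 →
      Vn x ζ sw ![a, 0, 0] 3 1)) ∧
  (∀ (z : C2 → ℂ) (ξ : C2), AnalyticAt ℂ z ζ → ξ ≠ 0 → fderiv ℂ (fderiv ℂ x) ζ ξ = 0 →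
    Evt tT1 ![1, x, z] ζ (x ζ) 0) ∧
  ∀ (Γ : ℂ × ℂ → C2) (q ξ η : ℂ × ℂ), AnalyticAt ℂ Γ q → Γ q = ζ →
    fderiv ℂ (fun q' => fderiv ℂ (x ∘ Γ) q' η) q ξ =
      fderiv ℂ (fderiv ℂ x) ζ (fderiv ℂ Γ q ξ) (fderiv ℂ Γ q η)

-- deps: NF TRUNC ORDB HESS
def S_ADP : Prop := ∀ (x z : C2 → ℂ) (ζ : C2), AnalyticAt ℂ x ζ → AnalyticAt ℂ z ζ →
  fderiv ℂ x ζ ≠ 0 → ∃ Γ f u, Adp x z ζ Γ f u ∧ (dv f (x ζ, 0) = 0 → dv (dv f) (x ζ, 0) = 0 →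
    Evt tA ![1, x, z] ζ (x ζ) (z ζ) ∧
    (dv (dv (dv f)) (x ζ, 0) = 0 → Evt tB4 ![1, x, z] ζ (x ζ) (z ζ)) ∧
    (da (dv f) (x ζ, 0) = 0 → Evt tS ![1, x, z] ζ (x ζ) (z ζ)) ∧
    (da f (x ζ, 0) = 0 → Evt tT2 ![1, z, x] ζ (z ζ) (x ζ)))

-- deps: ADP LR
def S_LC : Prop := ∀ (x z : C2 → ℂ) (ζ : C2), AnalyticAt ℂ x ζ → AnalyticAt ℂ z ζ →
  jac x z ζ = 0 →
  (jac (jac x z) x ζ = 0 → Evt tA ![1, x, z] ζ (x ζ) (z ζ) ∨ Evt tB ![1, x, z] ζ (x ζ) (z ζ)) ∧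
  (fderiv ℂ (jac x z) ζ = 0 → Evt tS ![1, x, z] ζ (x ζ) (z ζ) ∨
    Evt tZ ![1, x, z] ζ (x ζ) (z ζ) ∨ Evt tT2 ![1, x, z] ζ (x ζ) (z ζ))

-- deps: ADP LR HESS ORDB
def S_LO : Prop := ∀ (x z : C2 → ℂ) (ζ : C2) (ψ : ℂ → C2), AnalyticAt ℂ x ζ →
  AnalyticAt ℂ z ζ → fderiv ℂ (jac x z) ζ ≠ 0 → Par (jac x z) ζ ψ →
  (deriv (fun u => x (ψ u)) 0 = 0 ↔ jac (jac x z) x ζ = 0) ∧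
  (((fun u => x (ψ u) - x ζ) =O[𝓝 0] fun u : ℂ => u ^ 3) →
    Evt tB4 ![1, x, z] ζ (x ζ) (z ζ) ∨ Evt tZ ![1, x, z] ζ (x ζ) (z ζ) ∨
    Evt tT1 ![1, x, z] ζ (x ζ) 0 ∨ Evt tT2 ![1, x, z] ζ (x ζ) (z ζ))

-- deps: ADP LR
def S_LF : Prop := ∀ (x z : C2 → ℂ) (ζ : C2), AnalyticAt ℂ x ζ → AnalyticAt ℂ z ζ →
  ¬Evt tB4 ![1, x, z] ζ (x ζ) (z ζ) → ¬Evt tZ ![1, x, z] ζ (x ζ) (z ζ) →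
  ¬Evt tT2 ![1, x, z] ζ (x ζ) (z ζ) → ∀ᶠ y in 𝓝[≠] ζ, ¬(x y = x ζ ∧ z y = z ζ)

-- deps: ADP
def S_L2 : Prop := ∀ (x z : C2 → ℂ) (ζ : C2), AnalyticAt ℂ x ζ → AnalyticAt ℂ z ζ →
  jac x z ζ = 0 → jac (jac x z) x ζ ≠ 0 → ∃ O ∈ 𝓝 ζ, ∀ y₁ ∈ O, ∀ y₂ ∈ O, ∀ y₃ ∈ O,
    x y₁ = x y₂ → x y₁ = x y₃ → z y₁ = z y₂ → z y₁ = z y₃ → y₁ = y₂ ∨ y₁ = y₃ ∨ y₂ = y₃

-- deps: LR LC LTU WJ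
def S_PT1 : Prop := ∀ (X : Surf) (M : ℕ) (h : Ch X) (s : Fin 3 → Sec X) (p : X.X), Tri M h s →
  ((fun i => h.vl (s i) p) ≠ 0) ∧ (h.vl (J1 M s) p = 0 →
    (h.vl (s 0) p = 0 → h.vl (s 1) p ≠ 0 ∧ h.vl (J2 M s) p ≠ 0) ∧
    fderiv ℂ (J1 M s (h.e p)) (h.pt p) ≠ 0)

-- deps: LO LTU WJ PT1 ORDB
def S_PT2 : Prop := ∀ (X : Surf) (M : ℕ) (h : Ch X) (s : Fin 3 → Sec X) (p : X.X) (ψ : ℂ → C2),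
  Tri M h s → Par (J1 M s (h.e p)) (h.pt p) ψ →
  (h.vl (s 0) p ≠ 0 → ∀ ν : ℕ, ν = 1 ∧ h.vl (J2 M s) p ≠ 0 ∨ ν = 2 ∧ h.vl (J2 M s) p = 0 →
    ((fun u => s 1 (h.e p) (ψ u) / s 0 (h.e p) (ψ u) - h.vl (s 1) p / h.vl (s 0) p) =O[𝓝 0]
      fun u : ℂ => u ^ ν) ∧
    ¬(fun u => s 1 (h.e p) (ψ u) / s 0 (h.e p) (ψ u) - h.vl (s 1) p / h.vl (s 0) p) =O[𝓝 0]
      fun u : ℂ => u ^ (ν + 1)) ∧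
  (h.vl (s 0) p = 0 →
    ((fun u => s 0 (h.e p) (ψ u) / s 1 (h.e p) (ψ u)) =O[𝓝 0] fun u : ℂ => u ^ 1) ∧
    ¬(fun u => s 0 (h.e p) (ψ u) / s 1 (h.e p) (ψ u)) =O[𝓝 0] fun u : ℂ => u ^ (1 + 1))

-- deps: LR LC LTU WJ PT1
def S_PT3 : Prop := ∀ (X : Surf) (M : ℕ) (h : Ch X) (s : Fin 3 → Sec X) (x z : X.X → ℂ),
  Tri M h s → (x = fun p => h.vl (s 1) p / h.vl (s 0) p) →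
  (z = fun p => h.vl (s 2) p / h.vl (s 0) p) → ∀ p p', p ≠ p' → h.vl (J1 M s) p = 0 →
  h.vl (J1 M s) p' = 0 →
  (h.vl (s 0) p = 0 → h.vl (s 0) p' = 0 →
    h.vl (s 2) p / h.vl (s 1) p ≠ h.vl (s 2) p' / h.vl (s 1) p') ∧
  (h.vl (s 0) p ≠ 0 → h.vl (s 0) p' ≠ 0 → x p = x p' →
    (h.vl (J2 M s) p = 0 → h.vl (J2 M s) p' ≠ 0 ∧ z p ≠ z p') ∧
    ∀ p'', p ≠ p'' → p' ≠ p'' → h.vl (J1 M s) p'' = 0 → h.vl (s 0) p'' ≠ 0 → x p = x p'' →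
      z p = z p' → z p ≠ z p'')

-- deps: PT1
def S_PIH : Prop := ∀ (Q : PM) (X : Surf) (M : ℕ) (h : Ch X) (s : Fin 3 → Sec X), Tri M h s →
  ∃ hπ : MDifferentiable 𝓘(ℂ, C2) 𝓘(ℂ, C2) (prj Q h s), ∀ p, h.vl (J1 M s) p ≠ 0 →
    (Cv.mk X.X X.mfd X.t2 (prj Q h s) hπ : Cv C2 Q.Y).Loc p

-- deps: LF L2 LTU WJ PT1 PIH
def S_PT4 : Prop := ∀ (Q : PM) (X : Surf) (M : ℕ) (h : Ch X) (s : Fin 3 → Sec X) (p : X.X),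
  Tri M h s → (∀ᶠ p' in 𝓝[≠] p, prj Q h s p' ≠ prj Q h s p) ∧
  (h.vl (J1 M s) p = 0 → h.vl (s 0) p ≠ 0 → h.vl (J2 M s) p ≠ 0 → ∃ O ∈ 𝓝 p, ∀ y₁ ∈ O,
    ∀ y₂ ∈ O, ∀ y₃ ∈ O, prj Q h s y₁ = prj Q h s y₂ → prj Q h s y₁ = prj Q h s y₃ →
      y₁ = y₂ ∨ y₁ = y₃ ∨ y₂ = y₃)

-- deps: PT1 PT2 RCH JFORM
def S_RM1 : Prop := ∀ (X : Surf) (M : ℕ) (h : Ch X) (s : Fin 3 → Sec X), Tri M h s →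
  ∃ (S : RS) (i : S.R → X.X), Mdl M h s S i

-- deps:
def S_RM2 : Prop := ∀ (X : Surf) (M : ℕ) (h : Ch X) (s : Fin 3 → Sec X) (S : RS) (i : S.R → X.X)
  (n : ℕ) (t : Sec X), Tri M h s → Mdl M h s S i → IsForm X.X (n * M) t →
  S.Cl n (fun r => h.vl t (i r) / h.vl (s 0) (i r) ^ n)
    (fun r => h.vl t (i r) / h.vl (s 1) (i r) ^ n) ∧
  ∀ r, ∀ ψ : ℂ → C2, (∀ᶠ u in 𝓝 0, i ((S.ψ r).symm u) ∈ (h.e (i r)).source ∧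
    h.e (i r) (i ((S.ψ r).symm u)) = ψ u) →
    ∀ᶠ u in 𝓝 0, S.lc (fun r => h.vl t (i r) / h.vl (s 0) (i r) ^ n) r u =
      t (h.e (i r)) (ψ u) / s 0 (h.e (i r)) (ψ u) ^ n

-- deps:
def S_RFIN : Prop := ∀ S : RS, S.inf.Finite ∧ {r | S.ν r = 2}.Finite ∧ (∀ x, (S.fb x).Finite) ∧
  ∀ r, ∀ᶠ r' in 𝓝[≠] r, r' ∉ S.inf ∧ S.ν r' = 1

-- deps: RM2 RFIN APX
def S_RM4 : Prop := ∀ (X : Surf) (M : ℕ) (h : Ch X) (s : Fin 3 → Sec X) (S : RS) (i : S.R → X.X)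
  (n : ℕ) (τ : Fin n → Sec X), Tri M h s → Mdl M h s S i → (∀ l, IsForm X.X M (τ l)) → JetS τ →
  ∀ x, ∃ g τ', S.Cl 1 g τ' ∧ InjOn g (S.fb x) ∧ ∀ r ∈ S.fb x, S.ν r = 2 → deriv (S.lc g r) 0 ≠ 0

-- deps: RM2 RM4 PT3 JFORM ORDB
def S_RM3 : Prop := ∀ (X : Surf) (M : ℕ) (h : Ch X) (s : Fin 3 → Sec X) (S : RS) (i : S.R → X.X)
  (n : ℕ) (τ : Fin n → Sec X), Tri M h s → Mdl M h s S i → (∀ l, IsForm X.X M (τ l)) → JetS τ →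
  S.Gen (fun r => h.vl (s 2) (i r) / h.vl (s 0) (i r))
    fun r => h.vl (s 2) (i r) / h.vl (s 1) (i r)

-- deps: BEZ RFIN PT1 JFORM
def S_RM5 : Prop := ∀ (X : Surf) (m y M : ℕ) (h : Ch X) (s : Fin 3 → Sec X) (S : RS)
  (i : S.R → X.X), 0 < m → VeryAmple X.X m → KsqLe X.X y → Tri M h s → Mdl M h s S i →
  S.inf.ncard ≤ 8 * m ^ 2 * (3 * M + 1) * M * y ∧
  {r | S.ν r = 2}.ncard ≤ 8 * m ^ 2 * (3 * M + 1) * (5 * M + 2) * y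

-- deps:
def S_BCF : Prop := ∀ (Q : PM) (b m : ℕ) (c : Co b m → ℂ), WD b 1 (toP c) →
  (∀ v, v ≠ 0 → (Q.pp v ∈ Bc Q c ↔ hom b (toP c) v = 0)) ∧
  (∀ (a : ℂ) v, hom b (toP c) (a • v) = a ^ b * hom b (toP c) v) ∧
  (∀ x z, hom b (toP c) ![1, x, z] = (toP c).evalEval x z) ∧
  (∀ z, hom b (toP c) ![0, 1, z] = (top b 1 (toP c)).eval z) ∧ hom b (toP c) ![0, 0, 1] = 1 ∧
  IsClosed (Bc Q c) ∧ Dense (Bc Q c)ᶜ ∧ IsPreconnected (Bc Q c)ᶜ ∧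
  ∃ x z, Q.pp ![1, x, z] ∉ Bc Q c

-- deps:
def S_CARD : Prop := ∀ (Q : PM) (F : Cv C2 Q.Y) (B : Set Q.Y), F.G0 B univ → IsClosed B →
  (IsPreconnected Bᶜ → ∃ d, ∀ q ∉ B, (F.π ⁻¹' {q}).ncard = d) ∧
  ∀ d q (p : F.Z), Dense Bᶜ → (∀ q ∉ B, (F.π ⁻¹' {q}).ncard = d) → F.π p = q →
    (∀ p', F.π p' = q → p' ≠ p → F.Loc p') → (∃ O ∈ 𝓝 p, ∀ y₁ ∈ O, ∀ y₂ ∈ O, ∀ y₃ ∈ O,
      F.π y₁ = F.π y₂ → F.π y₁ = F.π y₃ → y₁ = y₂ ∨ y₁ = y₃ ∨ y₂ = y₃) → F.Fold d q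

/-- The curve `c` is the image of the ramification curve. -/
structure Img (S : RS) (z τ : S.R → ℂ) (c : Co S.inf.ncard 6 → ℂ) : Prop where
  good : Good c
  aff : ∀ x, (S.fb x).Finite ∧
    (toP c).map (evalRingHom x) = ∏ᶠ r ∈ S.fb x, (X - C (z r)) ^ S.ν r
  fin : S.inf.Finite
  top : top S.inf.ncard 1 (toP c) = ∏ᶠ r ∈ S.inf, (X - C (τ r))

-- deps: PT1 PT4 BCF JFORM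
def S_COV0 : Prop := ∀ (Q : PM) (X : Surf) (M : ℕ) (h : Ch X) (s : Fin 3 → Sec X) (S : RS)
  (i : S.R → X.X) (c : Co S.inf.ncard 6 → ℂ)
  (hπ : MDifferentiable 𝓘(ℂ, C2) 𝓘(ℂ, C2) (prj Q h s)), Tri M h s → Mdl M h s S i →
  Img S (fun r => h.vl (s 2) (i r) / h.vl (s 0) (i r))
    (fun r => h.vl (s 2) (i r) / h.vl (s 1) (i r)) c →
  (∀ p, h.vl (J1 M s) p ≠ 0 → (Cv.mk X.X X.mfd X.t2 (prj Q h s) hπ : Cv C2 Q.Y).Loc p) →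
  (Cv.mk X.X X.mfd X.t2 (prj Q h s) hπ : Cv C2 Q.Y).G0 (Bc Q c) univ ∧
    ∀ p, prj Q h s p ∉ Bc Q c → h.vl (J1 M s) p ≠ 0

-- deps: PT1 PT4 BCF CARD DSEP
def S_COV1 : Prop := ∀ (Q : PM) (X : Surf) (M d : ℕ) (h : Ch X) (s : Fin 3 → Sec X) (S : RS)
  (i : S.R → X.X) (c : Co S.inf.ncard 6 → ℂ)
  (hπ : MDifferentiable 𝓘(ℂ, C2) 𝓘(ℂ, C2) (prj Q h s)), Tri M h s → Mdl M h s S i →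
  Img S (fun r => h.vl (s 2) (i r) / h.vl (s 0) (i r))
    (fun r => h.vl (s 2) (i r) / h.vl (s 1) (i r)) c →
  (∀ p, h.vl (J1 M s) p ≠ 0 → (Cv.mk X.X X.mfd X.t2 (prj Q h s) hπ : Cv C2 Q.Y).Loc p) →
  (Cv.mk X.X X.mfd X.t2 (prj Q h s) hπ : Cv C2 Q.Y).G0 (Bc Q c) univ →
  (∀ p, prj Q h s p ∉ Bc Q c → h.vl (J1 M s) p ≠ 0) →
  (∀ q ∉ Bc Q c, (prj Q h s ⁻¹' {q}).ncard = d) →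
  (Cv.mk X.X X.mfd X.t2 (prj Q h s) hπ : Cv C2 Q.Y).G1 (Bc Q c) d (fun _ => 0) univ

-- deps: BEZ PT1 PT4 WJ
def S_DEGB : Prop := ∀ (Q : PM) (X : Surf) (m y M : ℕ) (h : Ch X) (s : Fin 3 → Sec X) (x z : ℂ),
  0 < m → VeryAmple X.X m → KsqLe X.X y → Tri M h s →
  (∀ p, prj Q h s p = Q.pp ![1, x, z] → h.vl (J1 M s) p ≠ 0) →
  (prj Q h s ⁻¹' {Q.pp ![1, x, z]}).ncard ≤ 8 * m ^ 2 * M * M * y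

-- redeps: AMAIN JET GENE RM1 RM3 RM5 AALG PIH COV0 COV1 CARD BCF DEGB

end Pool.Agent.P.MP_ab0431_ag.UB
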