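import Pool.Agent.P.MP_ab0431_ag.UB.IfaceT

/-! Statements of the steps from the model of the ramification curve to the plane curve. -/

set_option autoImplicit false
set_option linter.unusedSectionVars false

namespace Pool.Agent.P.MP_ab0431_ag.UB

open Polynomial Set Filter Topology Asymptotics

/-- `e` enumerates `A`. -/
def En {R : Type} {b : ℕ} (e : Fin b → R) (A : Set R) : Prop := Function.Injective e ∧ range e = A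

theorem En.finprod {R M : Type} [CommMonoid M] {b : ℕ} {e : Fin b → R} {A : Set R} (h : En e A)
    (f : R → M) : ∏ᶠ r ∈ A, f r = ∏ j, f (e j) := by
  rw [← h.2, finprod_mem_range h.1, finprod_eq_prod_of_fintype]

theorem En.mem {R : Type} {b : ℕ} {e : Fin b → R} {A : Set R} (h : En e A) (j : Fin b) :
    e j ∈ A := h.2 ▸ mem_range_self j

theorem exists_en {R : Type} {b : ℕ} {A : Set R} (h : A.Finite) (hb : A.ncard = b) :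
    ∃ e : Fin b → R, En e A := by
  have : Finite A := h
  refine ⟨fun j => ((Finite.equivFinOfCardEq hb).symm j : A),
    Subtype.val_injective.comp (Equiv.injective _), ?_⟩
  rw [← Function.comp_def Subtype.val, range_comp, Equiv.range_eq_univ, image_univ,
    Subtype.range_val]

theorem En.ncard {R : Type} {b : ℕ} {e : Fin b → R} {A : Set R} (h : En e A) : A.ncard = b := by
  rw [← h.2, ← image_univ, ncard_image_of_injective _ h.1, ncard_univ, Nat.card_fin]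

theorem En.bij {R R' : Type} {b : ℕ} {e : Fin b → R} {A : Set R} {A' : Set R'} {f : R → R'}
    (h : En e A) (hf : BijOn f A A') : En (fun j => f (e j)) A' :=
  ⟨fun i j k => h.1 (hf.injOn (h.mem i) (h.mem j) k), by
    rw [← Function.comp_def f, range_comp, h.2, hf.image_eq]⟩

theorem Dat.exists_deg {R : Type} [CommRing R] {b : ℕ} (D : Dat R b) (o : D.A) :
    ∃ m, D.Deg m o :=
  ⟨∑ i, ((o i).natDegree + D.a i), fun i n h => coeff_eq_zero_of_natDegree_lt (by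
    have := Finset.single_le_sum (f := fun i => (o i).natDegree + D.a i)
      (fun _ _ => Nat.zero_le _) (Finset.mem_univ i)
    omega)⟩

namespace RS

variable (S : RS)

/-- The critical values. -/
def cv : Set ℂ := S.xx '' {r | S.ν r = 2}

theorem tgt (r : S.R) : (0 : ℂ) ∈ (S.ψ r).target := S.zero r ▸ (S.ψ r).map_source (S.mem r)

theorem tgt_ev (r : S.R) : ∀ᶠ u in 𝓝 (0 : ℂ), u ∈ (S.ψ r).target :=
  (S.ψ r).open_target.mem_nhds (S.tgt r)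

theorem symm_zero (r : S.R) : (S.ψ r).symm 0 = r := by
  rw [← S.zero r, (S.ψ r).left_inv (S.mem r)]

theorem lc_zero (f : S.R → ℂ) (r : S.R) : S.lc f r 0 = f r := congrArg f (S.symm_zero r)

theorem tendsto_symm (r : S.R) : Tendsto (S.ψ r).symm (𝓝 0) (𝓝 r) := by
  simpa only [ContinuousAt, S.symm_zero] using (S.ψ r).continuousAt_symm (S.tgt r)

theorem tendsto_ψ (r : S.R) : Tendsto (S.ψ r) (𝓝 r) (𝓝 0) := by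
  simpa only [ContinuousAt, S.zero] using (S.ψ r).continuousAt (S.mem r)

theorem ν_ne (r : S.R) : S.ν r ≠ 0 := by rcases S.ν12 r with n | n <;> simp [n]

theorem aff_ev {r : S.R} (h : r ∉ S.inf) :
    ∀ᶠ u in 𝓝 (0 : ℂ), (S.ψ r).symm u ∈ S.fb (S.xx r + u ^ S.ν r) :=
  (S.tgt_ev r).mono fun u hu => by
    have := S.aff r h _ ((S.ψ r).map_target hu)
    rw [(S.ψ r).right_inv hu] at this
    exact this

theorem inf_ev {r : S.R} (h : r ∈ S.inf) : ∀ᶠ u in 𝓝[≠] (0 : ℂ), (S.ψ r).symm u ∈ S.fb u⁻¹ := by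
  filter_upwards [nhdsWithin_le_nhds (S.tgt_ev r), self_mem_nhdsWithin] with u hu u0
  have := (S.atinf r h).2 _ ((S.ψ r).map_target hu) fun e =>
    u0 (by rw [← (S.ψ r).right_inv hu, e]; exact S.zero r)
  rw [(S.ψ r).right_inv hu] at this
  exact ⟨this.1, eq_inv_of_mul_eq_one_left this.2⟩

theorem ν_one {x : ℂ} (hx : x ∉ S.cv) {r : S.R} (h : r ∈ S.fb x) : S.ν r = 1 :=
  (S.ν12 r).resolve_right fun e => hx ⟨r, e, h.2⟩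

/-- Near `x`, the values `x + u ^ ν` avoid a finite set. -/
theorem ev_notMem {Z : Set ℂ} (hZ : Z.Finite) (x : ℂ) {ν : ℕ} (hν : ν ≠ 0) :
    ∀ᶠ u in 𝓝[≠] (0 : ℂ), x + u ^ ν ∉ Z := by
  have h : Tendsto (fun u : ℂ => x + u ^ ν) (𝓝[≠] 0) (𝓝[≠] x) :=
    tendsto_nhdsWithin_iff.2 ⟨tendsto_nhdsWithin_of_tendsto_nhds
      (Continuous.tendsto' (by fun_prop) _ _ (by simp [hν])),
      eventually_mem_nhdsWithin.mono fun u hu => by simpa [hν] using hu⟩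
  refine h.eventually (p := fun y => y ∉ Z) ?_
  filter_upwards [nhdsWithin_le_nhds ((hZ.subset (sdiff_subset (t := {x}))).isClosed.isOpen_compl.mem_nhds
    (show x ∈ (Z \ {x})ᶜ by simp)), self_mem_nhdsWithin] with y a b c using a ⟨c, b⟩

theorem ev_inv_notMem {Z : Set ℂ} (hZ : Z.Finite) : ∀ᶠ u in 𝓝[≠] (0 : ℂ), u⁻¹ ∉ Z := by
  simpa using ev_notMem (hZ.preimage inv_injective.injOn) 0 one_ne_zero

/-- The points of the fibres of `D` off a finite set are the points of the curve. -/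
structure Rep (D : Dat ℂ S.inf.ncard) (Z : Set ℂ) (E : S.R → Fin S.inf.ncard → ℂ) : Prop where
  fin : Z.Finite
  cv : S.cv ⊆ Z
  pt : ∀ x ∉ Z, ∀ r ∈ S.fb x, (D.fib x).IsPt (E r) ∧ AnalyticAt ℂ (fun u => E ((S.ψ r).symm u)) 0
  det : ∀ x ∉ Z, ∀ e, En e (S.fb x) → (Matrix.of fun j => E (e j)).det ≠ 0
  mer : ∀ r ∉ S.inf, ∀ i, MeromorphicAt (fun u => E ((S.ψ r).symm u) i) 0

/-- The value of an element of the algebra at a point of the curve. -/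
noncomputable def val {b : ℕ} (E : S.R → Fin b → ℂ) (o : Fin b → ℂ[X]) (r : S.R) : ℂ :=
  ∑ i, (o i).eval (S.xx r) * E r i

variable {S} in
theorem val_eq {b : ℕ} {D : Dat ℂ b} {E : S.R → Fin b → ℂ} {x : ℂ} {r : S.R} (hr : r ∈ S.fb x)
    (h : (D.fib x).IsPt (E r)) (o : D.A) :
    S.val E o r = h.hom (D.toStr.mapA (evalRingHom x) o) := by
  rw [val, hr.2]; rfl

variable {S} in
theorem val_root {b : ℕ} {D : Dat ℂ b} {E : S.R → Fin b → ℂ} {x : ℂ} {r : S.R} (hr : r ∈ S.fb x)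
    (h : (D.fib x).IsPt (E r)) (o : D.A) :
    ((D.ch o).map (evalRingHom x)).IsRoot (S.val E o r) := by
  rw [val_eq hr h, ← Str.ch_map, IsRoot, ← coe_aeval_eq_eval, aeval_algHom_apply, Str.aeval_ch,
    map_zero]

end RS

-- deps:
def S_APROP : Prop := ∀ S : RS,
  (∀ x₀ W, IsOpen W → S.fb x₀ ⊆ W → ∀ᶠ x in 𝓝 x₀, S.fb x ⊆ W) ∧
  ∀ W, IsOpen W → S.inf ⊆ W → ∀ᶠ u in 𝓝[≠] (0 : ℂ), S.fb u⁻¹ ⊆ W

-- deps: APROP RFIN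
def S_ASHG : Prop := ∀ S : RS,
  (∀ x₀, ∀ᶠ x in 𝓝 x₀, BijOn (fun p : S.R × ℂ => (S.ψ p.1).symm p.2)
    {p | p.1 ∈ S.fb x₀ ∧ p.2 ^ S.ν p.1 = x - x₀} (S.fb x)) ∧
  ∀ᶠ u in 𝓝[≠] (0 : ℂ), BijOn (fun r => (S.ψ r).symm u) S.inf (S.fb u⁻¹)

-- deps: ASHG RFIN
def S_ASH1 : Prop := ∀ S : RS,
  (∀ x₀ ∉ S.cv, ∃ e : Fin S.inf.ncard → S.R, En e (S.fb x₀) ∧
    ∀ᶠ x in 𝓝 x₀, En (fun j => (S.ψ (e j)).symm (x - x₀)) (S.fb x)) ∧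
  ∃ e : Fin S.inf.ncard → S.R, En e S.inf ∧
    ∀ᶠ u in 𝓝[≠] (0 : ℂ), En (fun j => (S.ψ (e j)).symm u) (S.fb u⁻¹)

-- deps: ASHG ASH1 RFIN
def S_ASH2 : Prop := ∀ (S : RS) (x₀ : ℂ),
  ∃ (ρ : Fin S.inf.ncard → S.R) (v : Fin S.inf.ncard → ℂ → ℂ),
    (∀ j, ρ j ∈ S.fb x₀ ∧ AnalyticAt ℂ (v j) 0 ∧ v j 0 = 0) ∧
    (∀ᶠ u in 𝓝[≠] (0 : ℂ), x₀ + u ^ 2 ∉ S.cv ∧
      En (fun j => (S.ψ (ρ j)).symm (v j u)) (S.fb (x₀ + u ^ 2))) ∧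
    (∀ h : S.R → ℂ[X], ∏ᶠ r ∈ S.fb x₀, h r ^ S.ν r = ∏ j, h (ρ j)) ∧
    (∀ i j, i ≠ j → ρ i = ρ j → S.ν (ρ i) = 2 ∧ deriv (v i) 0 ≠ deriv (v j) 0) ∧
    ∀ i j k, ρ i = ρ j → ρ i = ρ k → i = j ∨ i = k ∨ j = k

-- deps:
def S_AGRO : Prop := ∀ (S : RS) (n : ℕ) (f τ : S.R → ℂ),
  (∀ r ∉ S.inf, S.lc f r =O[𝓝[≠] 0] fun _ => (1 : ℝ)) →
  (∀ r ∈ S.inf, Tendsto (fun u => S.lc f r u * u ^ n) (𝓝[≠] 0) (𝓝 (τ r))) →
  ∃ c : ℝ, 0 ≤ c ∧ ∀ r ∉ S.inf, ‖f r‖ ≤ c * (1 + ‖S.xx r‖) ^ n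

-- deps:
def S_ACF : Prop := ∀ b j : ℕ,
  (∀ (a : Fin b → ℂ → ℂ) (x₀ : ℂ), (∀ i, AnalyticAt ℂ (a i) x₀) →
    AnalyticAt ℂ (fun x => (∏ i, (X - C (a i x))).coeff j) x₀) ∧
  ∀ (a : Fin b → ℂ) (B : ℝ), 0 ≤ B → (∀ i, ‖a i‖ ≤ B) →
    ‖(∏ i, (X - C (a i))).coeff j‖ ≤ 2 ^ b * B ^ (b - j)

-- deps:
def S_ATOP : Prop := ∀ (b n : ℕ) (G : ℂ[X][X]) (a : Fin b → ℂ → ℂ) (τ : Fin b → ℂ),
  G.natDegree ≤ b → WD b n G →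
  (∀ᶠ u in 𝓝[≠] (0 : ℂ), G.map (evalRingHom u⁻¹) = ∏ i, (X - C (a i u))) →
  (∀ i, Tendsto (fun u => a i u * u ^ n) (𝓝[≠] 0) (𝓝 (τ i))) → top b n G = ∏ i, (X - C (τ i))

-- deps: POLY ASH1 AGRO ACF ATOP
def S_ACH0 : Prop := ∀ (S : RS) (Z : Set ℂ) (n : ℕ) (f τ : S.R → ℂ), Z.Finite → S.cv ⊆ Z →
  (∀ r ∉ S.inf, S.xx r ∉ Z → AnalyticAt ℂ (S.lc f r) 0) →
  (∀ r ∉ S.inf, S.lc f r =O[𝓝[≠] 0] fun _ => (1 : ℝ)) →
  (∀ r ∈ S.inf, Tendsto (fun u => S.lc f r u * u ^ n) (𝓝[≠] 0) (𝓝 (τ r))) →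
  ∃ G : ℂ[X][X], G.Monic ∧ G.natDegree = S.inf.ncard ∧ WD S.inf.ncard n G ∧
    (∀ x ∉ Z, G.map (evalRingHom x) = ∏ᶠ r ∈ S.fb x, (X - C (f r))) ∧
    top S.inf.ncard n G = ∏ᶠ r ∈ S.inf, (X - C (τ r))

-- deps: ACH0 ASH2 RFIN
def S_ACHR : Prop := ∀ (S : RS) (n : ℕ) (f τ : S.R → ℂ), S.Cl n f τ →
  ∃ G : ℂ[X][X], G.Monic ∧ G.natDegree = S.inf.ncard ∧ WD S.inf.ncard n G ∧
    (∀ x, G.map (evalRingHom x) = ∏ᶠ r ∈ S.fb x, (X - C (f r)) ^ S.ν r) ∧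
    top S.inf.ncard n G = ∏ᶠ r ∈ S.inf, (X - C (τ r))

-- deps: ASH2 DISC
def S_AORD : Prop := ∀ (S : RS) (x₀ : ℂ) (g : S.R → ℂ) (G : ℂ[X][X]),
  (∀ r r', S.ν r = 2 → S.ν r' = 2 → S.xx r = S.xx r' → r = r') →
  (∀ r ∉ S.inf, AnalyticAt ℂ (S.lc g r) 0) → InjOn g (S.fb x₀) →
  (∀ r ∈ S.fb x₀, S.ν r = 2 → deriv (S.lc g r) 0 ≠ 0) →
  (∀ x, G.map (evalRingHom x) = ∏ᶠ r ∈ S.fb x, (X - C (g r)) ^ S.ν r) →
  ¬(X - C x₀) ^ 2 ∣ Δ S.inf.ncard G ∧ (x₀ ∉ S.cv → (Δ S.inf.ncard G).eval x₀ ≠ 0)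

-- deps: SPLIT CHP DISC RFIN
def S_AREP : Prop := ∀ (S : RS) (z : S.R → ℂ) (D : Dat ℂ S.inf.ncard) (s : D.A),
  (∀ r ∉ S.inf, AnalyticAt ℂ (S.lc z r) 0) → (D.toStr.N s).det ≠ 0 →
  (∀ x, (D.ch s).map (evalRingHom x) = ∏ᶠ r ∈ S.fb x, (X - C (z r)) ^ S.ν r) →
  ∃ Z E, S.Rep D Z E

-- deps:
def S_ARB : Prop := ∀ (b n : ℕ) (F : ℂ[X][X]), F.Monic → F.natDegree = b → WD b n F →
  ∃ c : ℝ, 0 ≤ c ∧ ∀ x t, (F.map (evalRingHom x)).IsRoot t → ‖t‖ ≤ c * (1 + ‖x‖) ^ n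

-- deps: NEWT CHS
def S_AYN : Prop := ∀ (b : ℕ) (D : Dat ℂ b) (l : Fin b), ∃ y : D.A, D.du l ^ b = D.P • y

-- deps: AYN ARB TUP
def S_ANS1 : Prop := ∀ (S : RS) (D : Dat ℂ S.inf.ncard) (Z : Set ℂ)
  (E : S.R → Fin S.inf.ncard → ℂ), S.Rep D Z E →
  (∀ m (o : D.A), D.Deg m o → ∃ c : ℝ, 0 ≤ c ∧
    ∀ x ∉ Z, ∀ r ∈ S.fb x, ‖S.val E o r‖ ≤ c * (1 + ‖x‖) ^ m) ∧
  (∀ (o : D.A), ∀ r ∉ S.inf, S.lc (S.val E o) r =O[𝓝[≠] 0] fun _ => (1 : ℝ)) ∧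
  ∀ l, ∀ r ∉ S.inf, D.P.eval (S.xx r) = 0 → S.lc (S.val E (D.du l)) r =O[𝓝[≠] 0] fun u => u

-- deps: ANS1 ACH0 ASH1 TUP CHP CHS
def S_ANSP : Prop := ∀ (S : RS) (D : Dat ℂ S.inf.ncard) (Z : Set ℂ)
  (E : S.R → Fin S.inf.ncard → ℂ) (M n : ℕ) (φ τ : S.R → ℂ), S.Rep D Z E → D.P.Separable →
  n < 6 * M → S.Cl n φ τ → (∀ r ∉ S.inf, S.ν r = 1 → φ r ≠ 0) →
  (∀ r, S.ν r = 2 → S.lc φ r =O[𝓝 0] fun u => u ^ M) → ∀ l, D.a l + 1 ≤ 6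

-- deps: PINT ASH1
def S_APIN : Prop := ∀ (S : RS) (D : Dat ℂ S.inf.ncard) (Z : Set ℂ)
  (E : S.R → Fin S.inf.ncard → ℂ) (g : S.R → ℂ) (G : ℂ[X][X]), S.Rep D Z E → D.toStr.Max →
  (∀ r ∉ S.inf, AnalyticAt ℂ (S.lc g r) 0) →
  (∀ x, G.map (evalRingHom x) = ∏ᶠ r ∈ S.fb x, (X - C (g r)) ^ S.ν r) → ∃ o : D.A, D.ch o = G

-- deps: APIN ACHR AORD DISC RFIN
def S_APS : Prop := ∀ (S : RS) (z τ : S.R → ℂ) (D : Dat ℂ S.inf.ncard) (Z : Set ℂ)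
  (E : S.R → Fin S.inf.ncard → ℂ), S.Gen z τ → S.Rep D Z E → D.toStr.Max →
  D.P.Separable ∧ D.w ≤ {r | S.ν r = 2}.ncard

-- deps: ASH1 ASH2 TOP DSEP
def S_AGOOD : Prop := ∀ (S : RS) (z τ : S.R → ℂ) (c : Co S.inf.ncard 6 → ℂ), S.Gen z τ →
  WD S.inf.ncard 1 (toP c) →
  (∀ x, (toP c).map (evalRingHom x) = ∏ᶠ r ∈ S.fb x, (X - C (z r)) ^ S.ν r) →
  top S.inf.ncard 1 (toP c) = ∏ᶠ r ∈ S.inf, (X - C (τ r)) →
  Good c ∧ (top S.inf.ncard 1 (toP c)).Separable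

-- redeps: AALG ACHR AGOOD NORM AREP APS ANSP RFIN

end Pool.Agent.P.MP_ab0431_ag.UB
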