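import Pool.Agent.P.MP_ab0431_ag.UB.IfaceT

/-! Boundary statements inside the block on the Hilbert function. -/

set_option autoImplicit false
set_option linter.unusedSectionVars false

namespace Pool.Agent.P.MP_ab0431_ag.UB

open Polynomial Set Filter Topology

/-- A large algebraically closed extension of `ℂ`. -/
abbrev Om : Type := AlgebraicClosure (FractionRing (MvPolynomial ℕ ℂ))

/-- The points that lie over a generic branch polynomial. -/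
def GenT (b w m : ℕ) : Set (Co b m → Om) :=
  {c | ∃ (D : Dat Om b) (t : Fin w → Om), (∀ i, D.a i ≤ m + 1) ∧ AlgebraicIndependent ℂ t ∧
    D.P = ∏ j, (X - C (t j)) ∧ c ∈ D.Tset m}

-- deps: HUR
def S_HURO : Prop := ∀ (b m : ℕ) (P : Om[X]), P.Separable →
  {T | ∃ D : Dat Om b, D.P = P ∧ T = D.Tset m}.encard ≤ ((b ^ 2 + 1) ^ P.natDegree : ℕ)

-- deps: LIFTD
def S_DESC : Prop := ∀ (k K : Type) [Field k] [IsAlgClosed k] [Field K] [Algebra k K] (b m : ℕ)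
  (a : Fin b → ℕ) (P : k[X]) (G : MvPolynomial (Co b m) K),
  (∀ D : Dat k b, D.a = a → D.P = P → ∀ c ∈ D.Tset m,
    MvPolynomial.eval (algebraMap k K ∘ c) G = 0) →
  ∀ D : Dat K b, D.a = a → D.P = P.map (algebraMap k K) → ∀ c ∈ D.Tset m,
    MvPolynomial.eval c G = 0

-- deps:
def S_HFB : Prop := ∀ b w m κ : ℕ, 1 ≤ κ → HF (MvPolynomial.vanishingIdeal ℂ (GenT b w m)) κ ≤
  Gam b w m * κ ^ (w + (b * (m + 1) - w / 2))

-- deps:
def S_INC : Prop := ∀ (b m : ℕ) (D₀ : Dat ℂ b), D₀.P.Separable → (∀ i, D₀.a i + 1 ≤ m) →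
  ∃ (D : Dat Om b) (c : Co b m → Om), D.w = D₀.w ∧ D.P.Separable ∧ (∀ i, D.a i ≤ m + 1) ∧
    c ∈ D.Tset m ∧ D₀.w + (b * (m + 1) - D₀.w / 2) ≤ dm (MvPolynomial.vanishingIdeal ℂ {c}) ∧
    ∀ c₀ ∈ D₀.Tset m, c₀ ∈ MvPolynomial.zeroLocus ℂ (MvPolynomial.vanishingIdeal ℂ {c})

-- deps: HURO DESC JC PHI
def S_TR : Prop := ∀ (b m : ℕ) (D : Dat Om b) (c : Co b m → Om) (t : Fin D.w → Om),
  D.P.Separable → (∀ i, D.a i ≤ m + 1) → D.P = ∏ j, (X - C (t j)) → c ∈ D.Tset m →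
  D.w + (b * (m + 1) - D.w / 2) ≤ dm (MvPolynomial.vanishingIdeal ℂ {c}) →
  AlgebraicIndependent ℂ t

-- redeps: BMAIN HFB INC TR

end Pool.Agent.P.MP_ab0431_ag.UB
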