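import Pool.Agent.P.MP_ab0431_ag.UB.IfaceB

/-! Statements of the steps on the number of covers and on the Hilbert function. -/

set_option autoImplicit false
set_option linter.unusedSectionVars false

namespace Pool.Agent.P.MP_ab0431_ag.UB

open Polynomial Set Filter Topology

/-- The space of points of the fibres. -/
abbrev Dat.E {b : ℕ} (D : Dat ℂ b) : Type := {q : ℂ × (Fin b → ℂ) // (D.fib q.1).IsPt q.2}

/-- The projection to the line. -/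
def Dat.pr {b : ℕ} (D : Dat ℂ b) : D.E → ℂ := fun q => q.1.1

/-- Near `x₀` the functions `χ j` are holomorphic and give all the points of the fibres. -/
def Dat.Sec {b : ℕ} (D : Dat ℂ b) (x₀ : ℂ) (χ : Fin b → ℂ → Fin b → ℂ) : Prop :=
  (∀ j, AnalyticAt ℂ (χ j) x₀) ∧
    ∀ᶠ x in 𝓝 x₀, (∀ j, (D.fib x).IsPt (χ j x)) ∧ (Matrix.of fun j => χ j x).det ≠ 0

/-- `G` vanishes on all the sets `Tset` with weights `a` and branch polynomial `P`. -/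
def Van {k K : Type} [Field k] [Field K] [Algebra k K] {b m : ℕ} (a : Fin b → ℕ)
    (G : MvPolynomial (Co b m) k) (P : K[X]) : Prop :=
  ∀ D : Dat K b, D.a = a → D.P = P → ∀ c ∈ D.Tset m, MvPolynomial.aeval c G = 0

-- deps:
def S_HCOVS : Prop := ∀ (X Y : Type) [TopologicalSpace X] [TopologicalSpace Y] [T2Space Y]
  (E : X × Y → Prop) (b : ℕ) (χ : Fin b → X → Y) (x₀ : X) (U : Set X), U ∈ 𝓝 x₀ →
  (∀ j, ContinuousOn (χ j) U) →
  (∀ x ∈ U, (Function.Injective fun j => χ j x) ∧ ∀ y, E (x, y) ↔ ∃ j, y = χ j x) →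
  IsEvenlyCovered (fun e : {q // E q} => e.1.1) x₀ (Fin b)

-- deps: HCOVS PTS CHP
def S_HCOV : Prop := ∀ (b : ℕ) (D : Dat ℂ b) (x : ℂ), D.P.eval x ≠ 0 →
  IsEvenlyCovered D.pr x (D.pr ⁻¹' {x}) ∧ (D.pr ⁻¹' {x}).encard = b

-- deps: SPLIT1 PTS
def S_HSEC : Prop := ∀ (b : ℕ) (D : Dat ℂ b) (x₀ : ℂ), D.P.Separable →
  ∃ (s : Fin (b - 2) → ℂ → D.E) (ε : ℝ), 0 < ε ∧
    (∀ l, ContinuousOn (s l) (Metric.ball x₀ ε \ {x₀})) ∧
    ∀ x ∈ Metric.ball x₀ ε \ {x₀}, (∀ l, D.pr (s l x) = x) ∧ Function.Injective fun l => s l x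

-- deps: PTS CHP
def S_HLOC : Prop := ∀ (b : ℕ) (D D' : Dat ℂ b) (W : Set ℂ) (f : D.E → D'.E) (x₀ : ℂ), IsOpen W →
  TI D.pr D'.pr W f → x₀ ∈ W → D.P.eval x₀ ≠ 0 → D'.P.eval x₀ ≠ 0 →
  ∃ χ χ' : Fin b → ℂ → Fin b → ℂ, D.Sec x₀ χ ∧ D'.Sec x₀ χ' ∧
    ∀ᶠ x in 𝓝 x₀, ∀ (j : Fin b) (e : D.E), e.1 = (x, χ j x) → (f e).1 = (x, χ' j x)

-- deps: PINT MAXS CHP TUP LV
def S_HINC : Prop := ∀ (b m : ℕ) (D D' : Dat ℂ b) (Z : Set ℂ)
  (F : ℂ → (Fin b → ℂ) → Fin b → ℂ), D.P.Separable → Z.Finite →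
  (∀ x₀ ∉ Z, ∃ χ χ' : Fin b → ℂ → Fin b → ℂ, D.Sec x₀ χ ∧ D'.Sec x₀ χ' ∧
    ∀ᶠ x in 𝓝 x₀, ∀ j, F x (χ j x) = χ' j x) → D'.Tset m ⊆ D.Tset m

-- deps: HLOC HINC
def S_HTI : Prop := ∀ (b m : ℕ) (D D' : Dat ℂ b) (Z : Set ℂ) (f : D.E → D'.E), D.P.Separable →
  D'.P.Separable → Z.Finite → (∀ x ∉ Z, D.P.eval x ≠ 0 ∧ D'.P.eval x ≠ 0) →
  TI D.pr D'.pr Zᶜ f → D.Tset m = D'.Tset m

-- redeps: HUR SLIT HCOV HSEC HTI

-- deps:
def S_HPRIM : Prop := ∀ (k L K : Type) [Field k] [CharZero k] [Field L] [Field K] [IsAlgClosed K]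
  [Algebra k L] [Algebra k K] (τ : L) (T : Set L), Transcendental k τ →
  (∀ x : L, ∃ q : k[X][X], q ≠ 0 ∧ q.eval₂ (aeval τ : k[X] →ₐ[k] L).toRingHom x = 0) →
  T.Finite →
  ∃ (y : L) (n : ℕ) (W : k[X]) (f : k[X][X]), W ≠ 0 ∧ f.Monic ∧
    f.eval₂ (aeval τ : k[X] →ₐ[k] L).toRingHom y = 0 ∧
    (∀ x ∈ T, ∃ p : k[X][X], p.degree < n ∧
      aeval τ W * x = p.eval₂ (aeval τ : k[X] →ₐ[k] L).toRingHom y) ∧
    ∀ s : K, Transcendental k s → ∃ Y : Finset K, n ≤ Y.card ∧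
      ∀ z ∈ Y, ∃ σ : L →ₐ[k] K, σ τ = s ∧ σ y = z

-- deps: HPRIM
def S_HDIVM : Prop := ∀ (k k' L K : Type) [Field k] [CharZero k] [Field k'] [Field L] [Field K]
  [IsAlgClosed K] [Algebra k k'] [Algebra k' K] [Algebra k K] [IsScalarTower k k' K] [Algebra k L]
  (ρ : L →ₐ[k] K) (τ : L) (T : Set L), Transcendental k τ →
  (∀ x : L, ∃ q : k[X][X], q ≠ 0 ∧ q.eval₂ (aeval τ : k[X] →ₐ[k] L).toRingHom x = 0) →
  T.Finite →
  ∃ W : k[X], W ≠ 0 ∧ (∀ x ∈ T, IntOver k' (ρ τ) (W.map (algebraMap k k')) (ρ x)) ∧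
    ∀ s : k', Transcendental k s → ∀ (ι : Type) (A : Finset ι) (x : ι → L) (β : ι → k'),
      (∀ i ∈ A, x i ∈ T) →
      (∀ σ : L →ₐ[k] K, σ τ = algebraMap k' K s →
        ∑ i ∈ A, algebraMap k' K (β i) * σ (x i) = 0) →
      ∃ ψ, IntOver k' (ρ τ) (W.map (algebraMap k k')) ψ ∧
        ∑ i ∈ A, algebraMap k' K (β i) * ρ (x i) = (ρ τ - algebraMap k' K s) * ψ

-- deps: DESC HDIVM LINE0 PHI
def S_HLINE1 : Prop := ∀ (k k' K : Type) [Field k] [CharZero k] [Field k'] [Field K]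
  [IsAlgClosed K] [Algebra k k'] [Algebra k' K] [Algebra k K] [IsScalarTower k k' K] (b m κ : ℕ)
  (a : Fin b → ℕ) (g : k[X]) (S : Finset k') (t : K) (G : MvPolynomial (Co b m) k'),
  g.Separable → (∀ s ∈ S, Transcendental k s) → Transcendental k' t → G.totalDegree ≤ κ →
  b * κ * del b m < S.card →
  (∀ s ∈ S, Van a G (g.map (algebraMap k K) * (X - C (algebraMap k' K s)))) →
  Van a G (g.map (algebraMap k K) * (X - C t))

-- deps: HLINE1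
def S_HLINE2 : Prop := ∀ (k k' K : Type) [Field k] [CharZero k] [Field k'] [Field K]
  [IsAlgClosed K] [Algebra k k'] [Algebra k' K] [Algebra k K] [IsScalarTower k k' K] (b m κ : ℕ)
  (a : Fin b → ℕ) (ι : Type) [Fintype ι] (u : ι → K) (S : Finset k') (t : K)
  (G : MvPolynomial (Co b m) k'), Function.Injective u →
  (∀ s ∈ S, Transcendental (Algebra.adjoin k (range u)) (algebraMap k' K s)) →
  Transcendental (Algebra.adjoin k' (range u)) t → G.totalDegree ≤ κ →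
  b * κ * del b m < S.card →
  (∀ s ∈ S, Van a G ((∏ i, (X - C (u i))) * (X - C (algebraMap k' K s)))) →
  Van a G ((∏ i, (X - C (u i))) * (X - C t))

-- deps: HLINE2 DESC
def S_HGRID : Prop := ∀ (k k' K : Type) [Field k] [CharZero k] [Field k'] [IsAlgClosed k']
  [Field K] [IsAlgClosed K] [Algebra k k'] [Algebra k' K] [Algebra k K] [IsScalarTower k k' K]
  (b w m κ N : ℕ) (a : Fin b → ℕ) (G : MvPolynomial (Co b m) k') (s : Fin w × Fin N → k')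
  (t : Fin w → K), G.totalDegree ≤ κ → b * κ * del b m < N →
  AlgebraicIndependent k s → AlgebraicIndependent k' t →
  (∀ ν : Fin w → Fin N, Van a G (∏ j, (X - C (s (j, ν j))) : k'[X])) →
  Van a G (∏ j, (X - C (t j)))

-- deps:
def S_HIND : Prop := ∀ (ι : Type) [Fintype ι], ∃ s : ι → ℂ, AlgebraicIndependent ℚ s

-- deps:
def S_HFP : Prop := ∀ (K σ : Type) [Field K] (I : Ideal (MvPolynomial σ K)) (κ : ℕ)
  (Y : Finset (σ → K)),
  (∀ G : MvPolynomial σ K, G.totalDegree ≤ κ → (∀ y ∈ Y, MvPolynomial.eval y G = 0) → G ∈ I) →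
  HF I κ ≤ Y.card

-- deps: HUR JC PHI
def S_HPT : Prop := ∀ (b m κ : ℕ) (P : ℂ[X]), P.Separable → ∃ Y : Finset (Co b m → ℂ),
  Y.card ≤ (b ^ 2 + 1) ^ P.natDegree * (b * κ + 1) ^ (b * (m + 1) - P.natDegree / 2) ∧
  ∀ G : MvPolynomial (Co b m) ℂ, G.totalDegree ≤ κ → (∀ y ∈ Y, MvPolynomial.eval y G = 0) →
    ∀ a : Fin b → ℕ, (∀ i, a i ≤ m + 1) → Van a G P

-- redeps: HFB HFP HPT HGRID HIND

-- deps:
def S_HTRK : Prop := ∀ (k K σ : Type) [Field k] [Field K] [Algebra k K] [IsAlgClosed K]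
  [Fintype σ] (c : σ → K) (w r : ℕ) (t : Fin w → K), ¬AlgebraicIndependent k t →
  w + r ≤ dm (MvPolynomial.vanishingIdeal k {c}) →
  ∃ (L : IntermediateField k K) (f : Fin (r + 1) → σ), IsAlgClosed L ∧ (∀ j, t j ∈ L) ∧
    AlgebraicIndependent L (c ∘ f)

-- deps: HURO DESC PHI
def S_HTRD : Prop := ∀ (k : Type) [Field k] [IsAlgClosed k] [Algebra k Om] (b m n : ℕ)
  (D : Dat Om b) (P : k[X]) (c : Co b m → Om) (f : Fin n → Co b m),
  D.P = P.map (algebraMap k Om) → D.P.Separable → c ∈ D.Tset m →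
  Fintype.card (J D.a m) < n → ¬AlgebraicIndependent k (c ∘ f)

-- redeps: TR HTRK HTRD JC

end Pool.Agent.P.MP_ab0431_ag.UB
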