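import Pool.Agent.P.MP_ab0431_ag.UB.LibB3

/-! Statements of the steps of the height bound on a line. -/

set_option autoImplicit false
set_option linter.unusedSectionVars false

namespace Pool.Agent.P.MP_ab0431_ag.UB

open Polynomial WithZero
open MP_6f117a_ag (Place)

/-- the integers up to `b` are invertible -/
def Chb (k : Type) [Field k] (b : ℕ) : Prop := ∀ j : ℕ, 0 < j → j ≤ b → (j : k) ≠ 0

-- deps:
def S_LCOLS : Prop := ∀ (K I W : Type) [Field K] [Fintype I] [DecidableEq I] (M : I → W → K),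
  (∀ l : I → K, (∀ w, ∑ i, l i * M i w = 0) → l = 0) →
  ∃ σ : I → W, (Matrix.of fun i j => M i (σ j)).det ≠ 0

-- deps: LCOLS
def S_LTRI : Prop := ∀ (K ι : Type) [Field K] [Fintype ι] [DecidableEq ι] (q : ι → Prop)
  [DecidablePred q] (v : Valuation K (WithZero (Multiplicative ℤ))) (W : Matrix ι ι K),
  W.det ≠ 0 → ∃ (ρ : {i // ¬ q i} → ι) (T : Matrix {i // q i} ι K), (∀ j r, v (T j r) ≤ 1) ∧
    (∀ j (i : {i // ¬ q i}), (T * W) j i = 0) ∧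
    v W.det = v (Matrix.of fun i i' : {i // ¬ q i} => W (ρ i) i').det *
      v (Matrix.of fun j j' : {i // q i} => (T * W) j j').det

-- deps:
def S_LWD : Prop := ∀ (K : Type) [Field K] (b m : ℕ) (w : Matrix (Fin b) (Fin b) K[X]),
  (Matrix.of fun p q : Fin b × Fin (m + 1) => (X ^ (p.2 : ℕ) * w p.1 q.1).coeff q.2).det =
    w.det.eval 0 ^ (m + 1)

-- deps: NEWT CHI CHS
def S_LDOWN : Prop := ∀ (k K : Type) [Field k] [Field K] [Algebra k K] (P : Place k K) (b : ℕ)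
  (D : Str K[X] b) (z : D.A) (m₀ : ℤ), Chb k b →
  (∀ m : ℤ, m₀ ≤ m → C (P.π ^ m) • z ∈ In P.v D → ∀ j, 0 < j →
    gv P.v (D.tr ((C (P.π ^ m) • z) ^ j)) ≤ exp (-b : ℤ)) → C (P.π ^ (m₀ - 1)) • z ∈ In P.v D

-- deps: LDOWN DISC CHI CHS
def S_LTAME : Prop := ∀ (k K : Type) [Field k] [Field K] [Algebra k K] (P : Place k K) (b : ℕ)
  (D : Str K[X] b), Chb k b → D.disc ≠ 0 → ∃ w : Fin b → D.A, (∀ i, w i ∈ In P.v D) ∧
    exp (-b ^ 2 : ℤ) ≤ gv P.v (Matrix.of fun i l => w i l).det ^ 2 * gv P.v D.disc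

-- deps: LDOWN TUP CHI CHS
def S_LLOSS : Prop := ∀ (k K : Type) [Field k] [Field K] [Algebra k K] (P : Place k K) (b m : ℕ)
  (D : Dat K b) (o s a : D.A), Chb k b → D.Deg m o → s ∈ In P.v D.toStr →
  o = s + (X ^ (m + 1) : K[X]) • a → C (P.π ^ b) • o ∈ In P.v D.toStr

-- deps: CHI CHS
def S_LCOORD : Prop := ∀ (k K : Type) [Field k] [Field K] [Algebra k K] (P : Place k K) (b : ℕ)
  (D : Str K[X] b), D.disc ≠ 0 →
  (∃ N : ℕ, ∀ o ∈ In P.v D, ∀ l, gv P.v (o l) ≤ exp (N : ℤ)) ∧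
  (Gd P D → gv P.v D.disc = 1 → ∀ o ∈ In P.v D, ∀ l, gv P.v (o l) ≤ 1)

-- deps:
def S_LPOW : Prop := ∀ (R : Type) [CommRing R] (p : ℕ) [CharP R p] (b : ℕ)
  (M : Matrix (Fin b) (Fin b) R), p.Prime →
  (∀ j, (M ^ p).charpoly.coeff j = M.charpoly.coeff j ^ p) ∧ (M ^ p).trace = M.trace ^ p

-- deps: LPOW DER CHS DISC
def S_LROOT : Prop := ∀ (K : Type) [Field K] [IsAlgClosed K] (p : ℕ) [CharP K p] (b : ℕ)
  (D : Dat K b) (d : D.A →+ D.A) (α : D.A), p.Prime → (∀ y z, d (y * z) = y * d z + z * d y) →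
  (∀ (g : K[X]) y, d (g • y) = (D.P * derivative g) • y + g • d y) → d α = 0 →
  ∃ (g : K[X]) (y : D.A), g ≠ 0 ∧ y ^ p = g ^ p • α

-- deps: LPOW LROOT DER MAXS LV TUP CHS
def S_LTANGO : Prop := ∀ (K : Type) [Field K] [IsAlgClosed K] (p : ℕ) [CharP K p] (b : ℕ)
  (D : Dat K b) (m₀ m₁ s : ℕ) (o : D.A), p.Prime → D.P.Separable → D.w < p → m₀ < m₁ →
  Triv D (p ^ s * m₀) (p ^ s * m₁) (o ^ p ^ s) → Triv D m₀ m₁ o

-- deps: LTANGO LCOLS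
def S_LWIN : Prop := ∀ (K : Type) [Field K] (p : ℕ) [CharP K p] (b m s : ℕ) (D : Dat K b),
  p.Prime → D.P.Separable → D.w < p → ∃ σ : I2 D.a m → Fin b × ℕ,
    (∀ l, (σ l).2 < p ^ s * (m + 1) ∧ p ^ s * m < (σ l).2 + D.a (σ l).1) ∧
    (Matrix.of fun j l : I2 D.a m =>
      (((((X : K[X]) ^ (j.1.2 : ℕ)) • D.e j.1.1) ^ p ^ s) (σ l).1).coeff (σ l).2).det ≠ 0

-- deps: LWIN LCOORD TUP
def S_LFR : Prop := ∀ (k K : Type) [Field k] [Field K] [Algebra k K] (p : ℕ) [CharP K p]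
  (b m : ℕ) (D : Dat K b) (B : Finset (Place k K)) (f : Place k K → I2 D.a m → D.A),
  PF k K → p.Prime → D.P.Separable → D.w < p → (∀ P ∉ B, Gd P D.toStr) →
  (∀ P ∈ B, (∀ j, f P j ∈ In P.v D.toStr) ∧
    (Matrix.of fun j l : I2 D.a m => (f P j l.1.1).coeff l.1.2).det ≠ 0) →
  ∑ P ∈ B, log (P.v (Matrix.of fun j l : I2 D.a m => (f P j l.1.1).coeff l.1.2).det) ≤ 0

-- deps: LTRI LWD LFR LLOSS
def S_LKEY : Prop := ∀ (k K : Type) [Field k] [Field K] [Algebra k K] (p : ℕ) [CharP K p]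
  (b m : ℕ) (D : Dat K b) (B : Finset (Place k K)) (w : Place k K → Fin b → D.A),
  PF k K → p.Prime → Chb k b → D.P.Separable → D.w < p → (∀ P ∉ B, Gd P D.toStr) →
  (∀ P ∈ B, (∀ i, w P i ∈ In P.v D.toStr) ∧ (Matrix.of fun i l => w P i l).det.eval 0 ≠ 0) →
  ∃ U : Place k K → Matrix (J D.a m) (J D.a m) K,
    (∀ P ∈ B, (U P).det ≠ 0 ∧ ∀ j, C (P.π ^ b) • D.el m (U P j) ∈ In P.v D.toStr) ∧
    (m + 1) * ∑ P ∈ B, log (P.v ((Matrix.of fun i l => w P i l).det.eval 0)) ≤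
      ∑ P ∈ B, log (P.v (U P).det)

-- deps: LCOLS
def S_LPL : Prop := ∀ (k K : Type) [Field k] [Field K] [Algebra k K] (b m : ℕ) (D : Dat K b)
  (B : Finset (Place k K)) (U : Place k K → Matrix (J D.a m) (J D.a m) K), PF k K → Pts k D m →
  (∀ P ∉ B, Gd P D.toStr) →
  (∀ P ∈ B, (U P).det ≠ 0 ∧ ∀ j, D.el m (U P j) ∈ In P.v D.toStr) →
  ∃ n, HB k D m n ∧ ∀ Z : Finset (Place k K),
    ∑ P ∈ Z, (n P : ℤ) ≤ -∑ P ∈ B, log (P.v (U P).det)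

-- deps: CHI
def S_LSH : Prop := ∀ (k K : Type) [Field k] [Field K] [Algebra k K] (b m : ℕ) (D : Dat K b)
  (x : k), ∃ (D' : Dat K b) (τ : D.A → D'.A), D'.w = D.w ∧ (D.P.Separable → D'.P.Separable) ∧
    (∀ o i, τ o i = taylor (algebraMap k K x) (o i)) ∧
    (∀ P : Place k K, Gd P D.toStr → Gd P D'.toStr) ∧
    (∀ (P : Place k K) o, o ∈ In P.v D.toStr → τ o ∈ In P.v D'.toStr) ∧
    (Pts k D m → Pts k D' m) ∧ ∀ n, HB k D' m n → HB k D m n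

-- deps:
def S_LGEN : Prop := ∀ (k K : Type) [Field k] [Infinite k] [Field K] [Algebra k K]
  (B : Finset (Place k K)) (h : Place k K → K[X]),
  ∃ x : k, ∀ P ∈ B, P.v ((h P).eval (algebraMap k K x)) = gv P.v (h P)

-- deps: LTAME LKEY LPL LSH LGEN
def S_LHT : Prop := ∀ (k K : Type) [Field k] [Infinite k] [Field K] [Algebra k K] (p : ℕ)
  [CharP K p] (b m : ℕ) (D : Dat K b) (B : Finset (Place k K)), PF k K → p.Prime → Chb k b →
  D.P.Separable → D.w < p → (∀ P ∉ B, Gd P D.toStr ∧ P.v D.c = 1) → Pts k D m →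
  ∃ n, HB k D m n ∧ ∀ Z : Finset (Place k K), 2 * ∑ P ∈ Z, (n P : ℤ) ≤
    (m + 1) * (3 * b ^ 2 * B.card + ∑ P ∈ B, log (gv P.v D.P))

-- deps:
def S_LBAD : Prop := ∀ (k K : Type) [Field k] [Field K] [Algebra k K] (t θ : K) (W : k[X]),
  PF k K → Transcendental k t → (∃ P : Place k K, 1 < P.v t) → W ≠ 0 →
  θ ^ (W.natDegree + 1) = aeval t W → ∃ (B : Finset (Place k K)) (ρ : ℕ), 0 < ρ ∧
    B.card ≤ 2 * ρ ∧ (∀ P ∉ B, P.v t ≤ 1 ∧ P.v (aeval t W) = 1) ∧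
    ∑ P ∈ B, log (gv P.v (X - C t)) = ρ ∧ ∀ s : k, ∃ Z : Finset (Place k K),
      (∀ P, P ∈ Z ↔ P.v (t - algebraMap k K s) < 1) ∧
      ∑ P ∈ Z, log (P.v (t - algebraMap k K s)) = -ρ ∧
      (W.eval s ≠ 0 → ∀ P ∈ Z, P.v t ≤ 1 ∧ P.v (aeval t W) = 1)

-- deps: PHI CHI CHS LCOORD
def S_LVAL : Prop := ∀ (k K : Type) [Field k] [Infinite k] [Field K] [Algebra k K] (b m κ : ℕ)
  (D : Dat K b) (G : MvPolynomial (Co b m) k) (n : Place k K → ℕ), HB k D m n →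
  G.totalDegree ≤ κ → D.Phi m (MvPolynomial.map (algebraMap k K) G) ≠ 0 →
  ∃ y : K, y ≠ 0 ∧ ∀ P : Place k K, P.v y ≤ exp (b * κ * n P : ℤ) ∧
    ∀ γ, Gd P D.toStr → gv P.v D.disc = 1 →
      (∀ α, P.v ((D.Phi m (MvPolynomial.map (algebraMap k K) G)).coeff α) ≤ γ) →
      P.v y ≤ γ * exp (b * κ * n P : ℤ)

-- deps: LHT LBAD LVAL
def S_LTHL : Prop := ∀ (k K : Type) [Field k] [Infinite k] [Field K] [Algebra k K] (p : ℕ)
  [CharP k p] (b m κ : ℕ) (t θ : K) (W g : k[X]) (D : Dat K b) (G : MvPolynomial (Co b m) k)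
  (S : Finset k), PF k K → (∃ P : Place k K, 1 < P.v t) → p.Prime → b < p → D.w < p →
  θ ^ (W.natDegree + 1) = aeval t W → Pts k D m →
  Transcendental k t → W ≠ 0 → g.Separable → D.P = g.map (algebraMap k K) * (X - C t) →
  (∀ i j l n, RegW t W ((D.γ i j l).coeff n)) → (∀ i n, RegW t W ((D.u i).coeff n)) →
  RegW t W (D.c : K) → RegW t W ((D.c⁻¹ : Kˣ) : K) → G.totalDegree ≤ κ →
  b * κ * del b m < S.card → (∀ s ∈ S, W.eval s ≠ 0 ∧ ∀ α, ∃ ψ, RegW t W ψ ∧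
    (D.Phi m (MvPolynomial.map (algebraMap k K) G)).coeff α = (t - algebraMap k K s) * ψ) →
  D.Phi m (MvPolynomial.map (algebraMap k K) G) = 0

-- deps:
def S_LPF : Prop := ∀ (k K : Type) [Field k] [IsAlgClosed k] [Field K] [Algebra k K]
  [Algebra.EssFiniteType k K], Algebra.trdeg k K ≤ 1 →
  PF k K ∧ ∀ t : K, Transcendental k t → ∃ P : Place k K, 1 < P.v t

-- deps: LTHL LPF LIFTD SPLIT PHI
def S_LINEP : Prop := ∀ (k K : Type) [Field k] [IsAlgClosed k] [Field K] [IsAlgClosed K]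
  [Algebra k K] (p : ℕ) [CharP k p] (b m κ : ℕ) (t : K) (W g : k[X]) (D : Dat K b)
  (G : MvPolynomial (Co b m) k) (S : Finset k), p.Prime → b < p → D.w < p →
  Transcendental k t → W ≠ 0 → g.Separable → D.P = g.map (algebraMap k K) * (X - C t) →
  (∀ i j l n, IntP t W ((D.γ i j l).coeff n)) → (∀ i n, IntP t W ((D.u i).coeff n)) →
  IntP t W (D.c : K) → IntP t W ((D.c⁻¹ : Kˣ) : K) → G.totalDegree ≤ κ →
  b * κ * del b m < S.card → (∀ s ∈ S, W.eval s ≠ 0 ∧ ∀ α, ∃ ψ, IntP t W ψ ∧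
    (D.Phi m (MvPolynomial.map (algebraMap k K) G)).coeff α = (t - algebraMap k K s) * ψ) →
  D.Phi m (MvPolynomial.map (algebraMap k K) G) = 0

-- deps:
def S_LSPR : Prop := ∀ (k K : Type) [Field k] [Field K] [Algebra k K] (t : K) (E : Finset k),
  Transcendental k t → ∃ (V : ValuationSubring K) (k' Ω : Type) (_ : Field k') (_ : Field Ω)
    (_ : Algebra k' Ω) (p : ℕ) (ψ : V →+* Ω) (ψ₀ : Subring.closure (E : Set k) →+* k')
    (f : (Subring.closure (E : Set k))[X] →+* V), IsAlgClosed k' ∧ IsAlgClosed Ω ∧ p.Prime ∧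
    CharP k' p ∧ Transcendental k' (ψ (f X)) ∧
    (∀ h, (f h : K) = aeval t (h.map (Subring.subtype _))) ∧
    (∀ h, ψ (f h) = aeval (ψ (f X)) (h.map ψ₀)) ∧ ∀ x, ψ x ≠ 0 → IsUnit x

-- redeps: LINE0 LINEP LSPR LIFTD PHI

end Pool.Agent.P.MP_ab0431_ag.UB
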