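import Pool.Agent.P.MP_ab0431_ag.UB.IfaceB

/-! Statements of the steps that deform a cover to a generic one. -/

set_option autoImplicit false
set_option linter.unusedSectionVars false

namespace Pool.Agent.P.MP_ab0431_ag.UB

open Polynomial Set

section
variable {R : Type} [CommRing R] {b m n : ℕ}

/-- The fibre polynomial divided by a linear factor. -/
noncomputable def nq (F : R[X][X]) (x z : R) : R[X] := F.map (evalRingHom x) /ₘ (X - C z)

/-- The monic polynomial with the given roots. -/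
noncomputable def nH (x : Fin n → R) : R[X] := ∏ i, (X - C (x i))

/-- The discriminant with the nodes removed. -/
noncomputable def nP (c : Co b m → R) (x : Fin n → R) : R[X] := Δ b (toP c) /ₘ nH x ^ 2

/-- The product of the quantities that must not vanish. -/
noncomputable def nU (w : ℕ) (c : Co b m → R) (x z : Fin n → R) : R :=
  (Matrix.vandermonde x).det * (Δ b (toP c)).coeff (m * (b * (b - 1))) *
    (∏ i, Δ (b - 1) (nq (toP c) (x i) (z i))) * resultant (nP c x) (nP c x).derivative w (w - 1)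

/-- A singular point of the curve. -/
def Sing (F : R[X][X]) (x z : R) : Prop :=
  F.evalEval x z = 0 ∧ F.derivative.evalEval x z = 0 ∧ (F.eval (C z)).derivative.eval x = 0

/-- The closed conditions. -/
def NodE (c : Co b m → R) (x z : Fin n → R) : Prop :=
  WD b m (toP c) ∧ ∀ i, Sing (toP c) (x i) (z i)

/-- The linear conditions that describe the regular functions on the normalisation. -/
noncomputable def KMat (c : Co b m → R) (x z : Fin n → R) :
    Matrix (Fin n × Fin b) (J (fun j : Fin b => m * j) (m + n) ⊕ Fin n) R :=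
  .of fun r => Sum.elim (fun p => if p.1.1 = r.2 then x r.1 ^ (p.1.2 : ℕ) else 0)
    fun i => if i = r.1 then -(nq (toP c) (x i) (z i)).coeff r.2 else 0

end

-- deps:
def S_NMAP : Prop := ∀ (R R' : Type) [CommRing R] [CommRing R'] (φ : R →+* R') (b m n w : ℕ)
  (c : Co b m → R) (x z : Fin n → R), nU w (φ ∘ c) (φ ∘ x) (φ ∘ z) = φ (nU w c x z) ∧
  KMat (φ ∘ c) (φ ∘ x) (φ ∘ z) = (KMat c x z).map φ

-- deps:
def S_NEQ : Prop := ∀ (k : Type) [Field k] (b m n : ℕ), ∃ (ι : Type) (_ : Fintype ι)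
  (f : ι → MvPolynomial (Co b m ⊕ Fin n ⊕ Fin n) k),
  2 * Fintype.card ι + m * (b * (b + 1)) + 2 * b = 2 * Fintype.card (Co b m) + 6 * n ∧
  ∀ (K : Type) [Field K] [Algebra k K] (p : Co b m ⊕ Fin n ⊕ Fin n → K),
    (∀ i, MvPolynomial.aeval p (f i) = 0) ↔
      NodE (p ∘ Sum.inl) (p ∘ Sum.inr ∘ Sum.inl) (p ∘ Sum.inr ∘ Sum.inr)

-- deps:
def S_RK : Prop := ∀ (R K K' ι κ : Type) [CommRing R] [Field K] [Field K'] [Fintype ι] [Fintype κ]
  (φ : R →+* K) (ψ : R →+* K') (M : Matrix ι κ R), (∀ r, φ r = 0 → ψ r = 0) →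
  Module.finrank K (LinearMap.ker (M.map φ).mulVecLin) ≤
    Module.finrank K' (LinearMap.ker (M.map ψ).mulVecLin)

-- deps: HYP
def S_KR : Prop := ∀ (k σ ι : Type) [Field k] [Fintype σ] [Fintype ι]
  (f : ι → MvPolynomial σ k) (p : Ideal (MvPolynomial σ k)), p.IsPrime → (∀ i, f i ∈ p) →
  ∃ q : Ideal (MvPolynomial σ k), q.IsPrime ∧ q ≤ p ∧ (∀ i, f i ∈ q) ∧
    Fintype.card σ ≤ dm q + Fintype.card ι

-- deps:
def S_EMB : Prop := ∀ (σ : Type) [Fintype σ] (q : Ideal (MvPolynomial σ ℂ)), q.IsPrime →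
  ∃ p : σ → Om, MvPolynomial.vanishingIdeal ℂ {p} = q

-- deps:
def S_TDA : Prop := ∀ (k K σ τ : Type) [Field k] [Field K] [Algebra k K] [Fintype σ] [Fintype τ]
  (p : σ ⊕ τ → K), (∀ j, IsAlgebraic (Algebra.adjoin k (range (p ∘ Sum.inl))) (p (Sum.inr j))) →
  dm (MvPolynomial.vanishingIdeal k {p}) ≤ dm (MvPolynomial.vanishingIdeal k {p ∘ Sum.inl})

-- deps:
def S_RSEP : Prop := ∀ (K : Type) [Field K] (f : K[X]) (w : ℕ), f ≠ 0 → f.natDegree = w →
  (resultant f f.derivative w (w - 1) ≠ 0 ↔ f.Separable)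

-- deps: MAXI
def S_NODE : Prop := ∀ (K : Type) [Field K] (b : ℕ) (D : Str K[X] b) (s : D.A) (x z : K), D.Max →
  Sing (D.ch s) x z → ∀ i, X - C x ∣ (aeval s ((nq (D.ch s) x z).map C) : D.A) i

-- deps: NODE DISC TOP TUP RSEP
def S_KMA : Prop := ∀ (K : Type) [Field K] (b m n w : ℕ) (D : Dat K b) (s : D.A)
  (x z : Fin n → K), D.toStr.Max → D.Deg m s → w + 2 * n = m * (b * (b - 1)) →
  NodE (co b m (D.ch s)) x z → nU w (co b m (D.ch s)) x z ≠ 0 →
  D.P.Separable ∧ D.w = w ∧ ∃ u : K, u ≠ 0 ∧ (D.toStr.N s).det = C u * nH x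

-- deps: TUP TOP DISC
def S_LVY : Prop := ∀ (K : Type) [Field K] (b m n : ℕ) (D : Dat K b) (s : D.A)
  (y : Fin b → K[X]), D.Deg m s → (Δ b (D.ch s)).coeff (m * (b * (b - 1))) ≠ 0 →
  (D.Deg n (∑ j, y j • s ^ (j : ℕ)) ↔ ∀ (j : Fin b) l, n < l + m * j → (y j).coeff l = 0)

-- deps: KMA LVY TUP DSEP
def S_KM1 : Prop := ∀ (K : Type) [Field K] [IsAlgClosed K] (b m n w : ℕ) (D : Dat K b) (s : D.A)
  (x z : Fin n → K), D.toStr.Max → D.Deg m s → w + 2 * n = m * (b * (b - 1)) →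
  NodE (co b m (D.ch s)) x z → nU w (co b m (D.ch s)) x z ≠ 0 →
  Fintype.card (J D.a m) ≤
    Module.finrank K (LinearMap.ker (KMat (co b m (D.ch s)) x z).mulVecLin)

-- deps: KMA LVY TUP NODE
def S_KM2 : Prop := ∀ (K : Type) [Field K] (b m n w : ℕ) (D : Dat K b) (s : D.A)
  (x z : Fin n → K), D.toStr.Max → D.Deg m s → w + 2 * n = m * (b * (b - 1)) →
  NodE (co b m (D.ch s)) x z → nU w (co b m (D.ch s)) x z ≠ 0 →
  Module.finrank K (LinearMap.ker (KMat (co b m (D.ch s)) x z).mulVecLin) ≤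
    Fintype.card (J D.a m)

-- deps:
def S_CODIM2 : Prop := ∀ (k K ι : Type) [Field k] [Field K] [Algebra k K] [Fintype ι]
  (l u v : ι → K) (x : K), AlgebraicIndependent k l →
  (∀ i, IsAlgebraic (Algebra.adjoin k {x}) (u i) ∧ IsAlgebraic (Algebra.adjoin k {x}) (v i)) →
  LinearIndependent K ![u, v] → ¬(∑ i, u i * l i = 0 ∧ ∑ i, v i * l i = 0)

-- deps: DER
def S_DUALP : Prop := ∀ (k K : Type) [Field k] [Field K] [Algebra k K] (b : ℕ) (D : Dat k b)
  (x : K) (χ : Fin b → K), aeval x D.P ≠ 0 → ((D.map (algebraMap k K)).fib x).IsPt χ →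
  ∃ χ' : Fin b → K, (∀ i, IsAlgebraic (Algebra.adjoin k {x}) (χ i) ∧
    IsAlgebraic (Algebra.adjoin k {x}) (χ' i)) ∧
    ((D.map (algebraMap k K)).toStr.map (eval₂RingHom (algebraMap K (DualNumber K))
      (TrivSqZeroExt.inl x + TrivSqZeroExt.inr 1))).IsPt
      fun i => TrivSqZeroExt.inl (χ i) + TrivSqZeroExt.inr (χ' i)

-- deps:
def S_NODV : Prop := ∀ (K : Type) [Field K] (b : ℕ) (v : Fin b → DualNumber K) (F : K[X][X])
  (x : K) (j l : Fin b), j ≠ l → (v j).fst = (v l).fst → (v j).snd ≠ (v l).snd →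
  (∀ j' l', j' ≠ l' → (v j').fst = (v l').fst → j' = j ∧ l' = l ∨ j' = l ∧ l' = j) →
  F.map (eval₂RingHom (algebraMap K (DualNumber K))
    (TrivSqZeroExt.inl x + TrivSqZeroExt.inr 1)) = ∏ i, (X - C (v i)) →
  (Matrix.vandermonde v).det ≠ 0 ∧ Sing F x (v j).fst ∧ (nq F x (v j).fst).Separable

-- deps: TUP TOP SPLIT CHP DSEP
def S_NOD1 : Prop := ∀ (k K : Type) [Field k] [IsAlgClosed k] [Field K] [Algebra k K] (b m : ℕ)
  (D : Dat k b) (l : J D.a m → K), (∀ i, D.a i ≤ m) → AlgebraicIndependent k l →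
  (Δ b ((D.map (algebraMap k K)).ch ((D.map (algebraMap k K)).el m l))).coeff
    (m * (b * (b - 1))) ≠ 0

-- deps: SPLIT1
def S_NOD2 : Prop := ∀ (k K : Type) [Field k] [IsAlgClosed k] [Field K] [Algebra k K] (b m : ℕ)
  (D : Dat k b) (l : J D.a m → K) (x : k), D.P.Separable → (∀ i, D.a i ≤ m) →
  AlgebraicIndependent k l → ((D.map (algebraMap k K)).toStr.N
    ((D.map (algebraMap k K)).el m l)).det.eval (algebraMap k K x) ≠ 0

-- deps: SPLIT CHP DUALP NODV CODIM2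
def S_NOD3 : Prop := ∀ (k K : Type) [Field k] [Field K] [IsAlgClosed K] [Algebra k K] (b m : ℕ)
  (D : Dat k b) (l : J D.a m → K) (x : K) (h : K[X]) (F : K[X][X]), (∀ i, D.a i + 1 ≤ m) →
  AlgebraicIndependent k l → aeval x D.P ≠ 0 →
  h = ((D.map (algebraMap k K)).toStr.N ((D.map (algebraMap k K)).el m l)).det →
  F = (D.map (algebraMap k K)).ch ((D.map (algebraMap k K)).el m l) → h.eval x = 0 →
  h.derivative.eval x ≠ 0 ∧ ∃ z, Sing F x z ∧ (nq F x z).Separable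

-- deps: NOD1 NOD2 NOD3 DISC DSEP TOP TUP RSEP
def S_NOD : Prop := ∀ (k K : Type) [Field k] [IsAlgClosed k] [Field K] [IsAlgClosed K]
  [Algebra k K] (b m : ℕ) (D : Dat k b) (l : J D.a m → K) (c : Co b m → K), D.P.Separable →
  (∀ i, D.a i + 1 ≤ m) → AlgebraicIndependent k l →
  c = co b m ((D.map (algebraMap k K)).ch ((D.map (algebraMap k K)).el m l)) →
  ∃ (n : ℕ) (x z : Fin n → K), D.w + 2 * n = m * (b * (b - 1)) ∧ NodE c x z ∧ nU D.w c x z ≠ 0

-- deps: DSEP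
def S_NALG : Prop := ∀ (k K : Type) [Field k] [Field K] [Algebra k K] (b m : ℕ) (c : Co b m → K)
  (x z : K), Δ b (toP c) ≠ 0 → Sing (toP c) x z →
  IsAlgebraic (Algebra.adjoin k (range c)) x ∧ IsAlgebraic (Algebra.adjoin k (range c)) z

-- redeps: INC EMB NOD NEQ KR NMAP NORM TOP DSEP KMA KM1 KM2 RK MAXS JC TDA NALG PHI

end Pool.Agent.P.MP_ab0431_ag.UB
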