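import Pool.Agent.P.MP_ab0431_ag.UB.BaseC

/-! Statements of the steps on degrees and strips. -/

set_option autoImplicit false
set_option linter.unusedSectionVars false

namespace Pool.Agent.P.MP_ab0431_ag.UB

open Polynomial Set Filter Topology Metric
open Pool.Agent.P.MP_ab0431_ag.UB.Cc

/-! ### Degrees -/

-- deps:
def S_CBZ1 : Prop := ∀ (σ : Type) [Fintype σ] (p I : Ideal (MP σ)) (f : MP σ) (e n ρ c : ℕ),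
  p.IsPrime → f ∉ p → f.totalDegree ≤ e → 1 ≤ e → p ≤ I → f ∈ I → LB I n ρ c →
  LB p (n + 1) ρ (e * c)

-- deps:
def S_CBZ2 : Prop := ∀ (σ : Type) [Fintype σ] (I : Ideal (MP σ)) (Q : Finset (Ideal (MP σ)))
  (ρ : Ideal (MP σ) → ℕ) (n c : ℕ), (∀ q ∈ Q, q.IsPrime ∧ I ≤ q ∧ LB q n (ρ q) c) →
  (∀ q ∈ Q, ∀ q' ∈ Q, q ≤ q' → q = q') → LB I n (∑ q ∈ Q, ρ q) c

-- deps:
def S_CLBU : Prop := ∀ (σ : Type) [Fintype σ] (I : Ideal (MP σ)) (n n' ρ c Γ : ℕ),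
  (∀ κ, 1 ≤ κ → HF I κ ≤ Γ * κ ^ n) → LB I n' ρ c →
  (n < n' → ρ = 0) ∧ (n' = n → ρ ≤ c * n ^ n * Γ)

-- deps:
def S_CLNN : Prop := ∀ (σ : Type) [Fintype σ] (q : Ideal (MP σ)), q.IsPrime →
  ∃ (d : ℕ) (y : Fin d → MP σ), (∀ i, (y i).totalDegree ≤ 1) ∧ Nz q y

-- deps:
def S_CNDM : Prop := ∀ (σ : Type) [Fintype σ],
  (∀ (q : Ideal (MP σ)) (d : ℕ) (y : Fin d → MP σ), q.IsPrime → Nz q y → dm q = d) ∧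
  ∀ p p' : Ideal (MP σ), p.IsPrime → p'.IsPrime → p ≤ p' → dm p' ≤ dm p

-- deps:
def S_CNLB : Prop := ∀ (σ : Type) [Fintype σ] (q : Ideal (MP σ)) (d : ℕ) (y : Fin d → MP σ),
  q.IsPrime → (∀ i, (y i).totalDegree ≤ 1) → Nz q y → 1 ≤ rk q y ∧ LB q d (rk q y) 1

-- deps: HYP CBZ1 CBZ2 CLNN CNDM CNLB
def S_CBEZ0 : Prop := ∀ (σ : Type) [Fintype σ] (E : Set (MP σ)) (e : ℕ), 1 ≤ e →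
  (∀ f ∈ E, f.totalDegree ≤ e) → ∀ (n : ℕ) (p : Ideal (MP σ)), p.IsPrime → dm p = n →
  ∃ R, LB p n R (e ^ n) ∧ Cov E (V p) R

-- deps: CBEZ0 CBZ2 CLBU CLNN CNDM CNLB
def S_CBEZ : Prop := ∀ (σ : Type) [Fintype σ] (E : Set (MP σ)) (I : Ideal (MP σ)) (e n Γ : ℕ),
  1 ≤ e → (∀ f ∈ E, f.totalDegree ≤ e) → (∀ κ, 1 ≤ κ → HF I κ ≤ Γ * κ ^ n) →
  Cov E {c | ∃ p : Ideal (MP σ), p.IsPrime ∧ I ≤ p ∧ n ≤ dm p ∧ c ∈ V p} ((e * n) ^ n * Γ)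

/-! ### Equations of the strata -/

-- deps:
def S_CRES : Prop := ∀ (f g : ℂ[X]) (m n : ℕ), f.natDegree ≤ m → f.coeff m ≠ 0 →
  g.natDegree ≤ n → (resultant f g m n = 0 ↔ ∃ x, f.eval x = 0 ∧ g.eval x = 0)

-- deps:
def S_CMIN : Prop := ∀ (ι : Type) [Fintype ι] [DecidableEq ι] (L : ℕ) (P : ι → ℂ[X]),
  (∀ i, (P i).natDegree < L) → ((∃ w, mnr L w P ≠ 0) ↔ LinearIndependent ℂ P)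

-- deps:
def S_CNRL : Prop := ∀ (n : ℕ) (P : ℂ[X]), P ≠ 0 →
  (LinearIndependent ℂ (fam n P) ↔ n ≤ P.roots.toFinset.card)

-- deps:
def S_CDEG : Prop := ∀ b m : ℕ, (∀ j n, (((Fu b m).coeff j).coeff n).totalDegree ≤ 1) ∧
  (∀ j, ((Du b m).coeff j).totalDegree ≤ 2 * b ^ 2) ∧
  ∀ n w, (Mu b m n w).totalDegree ≤ 2 * n * (2 * b ^ 2)

-- deps: CMIN CNRL CDEG
def S_CEQS : Prop := ∀ b m nn : ℕ, nn ≤ b * (b - 1) → ∃ E : Set (MP (Co b m)),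
  (∀ f ∈ E, f.totalDegree ≤ 64 * (b + 1) ^ 4) ∧
  (∀ c, Good c → nr c = nn → ∀ f ∈ E, ev c f = 0) ∧
  ∀ c, (∀ f ∈ E, ev c f = 0) → WD b 1 (toP c) ∧ (Δ b (toP c) ≠ 0 → nr c ≤ nn)

-- deps: CRES TOP DSEP
def S_COPT : Prop := ∀ (b m : ℕ) (c₀ : Co b m → ℂ), Good c₀ → ∃ h : MP (Co b m), ev c₀ h ≠ 0 ∧
  ∀ c, WD b 1 (toP c) → ev c h ≠ 0 → Good c

-- deps: COPT CMIN CNRL
def S_COPEN : Prop := ∀ (b m : ℕ) (c₀ : Co b m → ℂ), Good c₀ → ∃ h : MP (Co b m), ev c₀ h ≠ 0 ∧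
  ∀ c, WD b 1 (toP c) → ev c h ≠ 0 → Good c ∧ nr c₀ ≤ nr c

/-! ### Reduction to a plane curve -/

-- deps:
def S_CLO : Prop := ∀ (σ : Type) [Fintype σ] (q : Ideal (MP σ)) (d : ℕ) (y : Fin d → MP σ)
  (x : Qt q y) (y₀ : Fin d → ℂ) (u₀ : ℂ), Nz q y →
  (∀ p : (MP (Fin d))[X], aeval x p = 0 → (p.map (ev y₀)).eval u₀ = 0) →
  ∃ (c : σ → ℂ) (hc : c ∈ V q), yv y c = y₀ ∧ evq y hc x = u₀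

-- deps:
def S_CPRIM : Prop := ∀ (σ : Type) [Fintype σ] (q : Ideal (MP σ)) (d : ℕ) (y : Fin d → MP σ)
  (F : Set (σ → ℂ)), q.IsPrime → Nz q y → F.Finite → ∃ (u : MP σ) (δ : MP (Fin d)),
    InjOn (fun c => ev c u) F ∧ δ ≠ 0 ∧ ∀ s, ∃ r : (MP (Fin d))[X],
      algebraMap (MP (Fin d)) (Qt q y) δ * mk q y (MvPolynomial.X s) = aeval (mk q y u) r

-- deps:
def S_CMPO : Prop := ∀ (σ : Type) [Fintype σ] (q : Ideal (MP σ)) (d : ℕ) (y : Fin d → MP σ)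
  (x : Qt q y), q.IsPrime → Nz q y → ∃ g : (MP (Fin d))[X], g.Monic ∧ g.natDegree ≤ rk q y ∧
    aeval x g = 0 ∧ (∀ p : (MP (Fin d))[X], aeval x p = 0 → g ∣ p) ∧
    ∃ (δ : MP (Fin d)) (α β : (MP (Fin d))[X]), δ ≠ 0 ∧ α * g + β * derivative g = C δ

-- deps: CLO CPRIM CMPO
def S_CPAR : Prop := ∀ (σ : Type) [Fintype σ] (q : Ideal (MP σ)) (d : ℕ) (y : Fin d → MP σ)
  (h : MP σ) (F : Set (σ → ℂ)), q.IsPrime → Nz q y → h ∉ q → F.Finite →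
  ∃ u g δ r, Par q y h u g δ r ∧ g.natDegree ≤ rk q y ∧ InjOn (fun c => ev c u) F

-- deps:
def S_CFIB : Prop := ∀ (σ : Type) [Fintype σ] (q : Ideal (MP σ)) (d : ℕ) (y : Fin d → MP σ),
  Nz q y → (∀ s, ∃ g : (MP (Fin d))[X], g.Monic ∧
    ∀ c ∈ V q, (g.map (ev (yv y c))).eval (c s) = 0) ∧ ∀ y₀, {c ∈ V q | yv y c = y₀}.Finite

-- deps:
def S_CSIG : Prop := ∀ (ι : Type) [Fintype ι] (d : ℕ) (y₀ : ι → Fin d → ℂ) (δ : MP (Fin d)),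
  δ ≠ 0 → ∃ (a : ι → ℂ) (s : Fin d → ℂ[X]), (∀ i l, (s l).eval (a i) = y₀ i l) ∧
    {t | ev (fun l => (s l).eval t) δ = 0}.Finite

-- deps:
def S_CBND : Prop := ∀ (α : Type) (l : Filter α) (n : ℕ) (p : α → ℂ[X]) (z : α → ℂ),
  (∀ᶠ a in l, (p a).Monic ∧ (p a).natDegree = n ∧ (p a).eval (z a) = 0) →
  (∀ i, ∃ x, Tendsto (fun a => (p a).coeff i) l (𝓝 x)) → ∃ M, ∀ᶠ a in l, ‖z a‖ ≤ M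

/-! ### Plane curves -/

-- deps:
def S_CLOC : Prop := ∀ (G : ℂ[X][X]) (t₀ u₀ : ℂ), G.evalEval t₀ u₀ = 0 →
  G.derivative.evalEval t₀ u₀ ≠ 0 → ∃ κ : ℂ → ℂ, AnalyticAt ℂ κ t₀ ∧
    (∀ᶠ t in 𝓝 t₀, G.evalEval t (κ t) = 0) ∧
    ∀ᶠ p : ℂ × ℂ in 𝓝 (t₀, u₀), G.evalEval p.1 p.2 = 0 → κ p.1 = p.2

-- deps: CLOC
def S_CUNIQ : Prop := ∀ (G : ℂ[X][X]) (Z : Set ℂ) (A : Type) [TopologicalSpace A] (s : Set A)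
  (f g : A → ℂ × ℂ), Cu G Z → IsPreconnected s → ContinuousOn f s → ContinuousOn g s →
  (∀ a ∈ s, f a ∈ Gm G Z ∧ g a ∈ Gm G Z ∧ (f a).1 = (g a).1) →
  ∀ a₀ ∈ s, f a₀ = g a₀ → EqOn f g s

-- deps: CBND
def S_CCOV : Prop := ∀ (G : ℂ[X][X]) (Z : Set ℂ), Cu G Z → G.natDegree ≠ 0 →
  IsCoveringMapOn (fun p : ℂ × ℂ => (p.1, G.evalEval p.1 p.2)) {x | x.1 ∉ Z ∧ x.2 = 0}

-- deps: CCOV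
def S_CLIFT : Prop := ∀ (G : ℂ[X][X]) (Z : Set ℂ) (E : Type) [NormedAddCommGroup E]
  [NormedSpace ℝ E] (s : Set E) (τ : E → ℂ), Cu G Z → Convex ℝ s → ContinuousOn τ s →
  (∀ a ∈ s, τ a ∉ Z) → ∀ a₀ ∈ s, ∀ u₀, G.evalEval (τ a₀) u₀ = 0 →
  ∃ υ : E → ℂ, ContinuousOn υ s ∧ υ a₀ = u₀ ∧ ∀ a ∈ s, G.evalEval (τ a) (υ a) = 0

-- deps: CLIFT CUNIQ CLOC
def S_CBRS : Prop := ∀ (G : ℂ[X][X]) (Z : Set ℂ) (a : ℂ), Cu G Z →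
  ∃ (e : ℕ) (M : ℝ) (B : Set (ℂ → ℂ)), 1 ≤ e ∧ B.Finite ∧
    (∀ b ∈ B, Function.Periodic b (e : ℝ) ∧ ∀ z : ℂ, M < z.im → DifferentiableAt ℂ b z ∧
      (a + Function.Periodic.qParam 1 z, b z) ∈ Gm G Z) ∧
    ∀ z : ℂ, M < z.im → ∀ u, G.evalEval (a + Function.Periodic.qParam 1 z) u = 0 →
      ∃ b ∈ B, b z = u

-- deps: CBRS CBND
def S_CPUIS : Prop := ∀ (G : ℂ[X][X]) (Z : Set ℂ) (a u₀ : ℂ), Cu G Z → G.evalEval a u₀ = 0 →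
  ∃ e ε φ, Dsc G Z a u₀ e ε φ

-- deps: CLIFT
def S_CCMP : Prop := ∀ (G : ℂ[X][X]) (Z : Set ℂ) (ι : Type) [Fintype ι] (p : ι → ℂ × ℂ) (N : ℕ),
  Cu G Z → (∀ i, p i ∈ Gm G Z) → G.natDegree * N < Fintype.card ι →
  ∃ f : Fin (N + 1) → ι, Function.Injective f ∧ ∀ j j', JoinedIn (Gm G Z) (p (f j)) (p (f j'))

-- deps:
def S_CDJ : Prop := ∀ (G : ℂ[X][X]) (Z : Set ℂ) (a u₀ : ℂ) (e : ℕ) (ε : ℝ) (φ : ℂ → ℂ),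
  Dsc G Z a u₀ e ε φ → ∀ v ∈ ball (0 : ℂ) ε, ∀ v' ∈ ball (0 : ℂ) ε, v ≠ 0 → v' ≠ 0 →
  JoinedIn (Gm G Z) (a + v ^ e, φ v) (a + v' ^ e, φ v')

-- deps:
def S_CPATH : Prop := ∀ (N : ℕ) (η : ℝ) (W : Set (ℂ × ℂ)) (D : ℕ → ℝ → ℂ × ℂ), 0 < η →
  η < 1 / 2 → (∀ j ≤ N, ContinuousOn (D j) (Icc (-η) η) ∧ ∀ x ∈ Icc (-η) η, x ≠ 0 → D j x ∈ W) →
  (∀ j < N, JoinedIn W (D j η) (D (j + 1) (-η))) →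
  ∃ Γ : ℝ → ℂ × ℂ, ContinuousOn Γ (Icc 0 N) ∧ ∀ x ∈ Icc (0 : ℝ) N,
    (∀ j ≤ N, |x - j| ≤ η → Γ x = D j (x - j)) ∧ ((∀ j : ℕ, x ≠ j) → Γ x ∈ W)

-- deps:
def S_CWEI : Prop := (∀ (g : ℝ → ℂ) (a b ε : ℝ), ContinuousOn g (Icc a b) → 0 < ε →
    ∃ k : ℂ[X], ∀ x ∈ Icc a b, ‖k.eval (x : ℂ) - g x‖ < ε) ∧
  ∀ (N : ℕ) (a : ℕ → ℂ) (e : ℕ → ℕ), ∃ (H : ℂ[X]) (m : ℕ → ℂ[X]),
    ∀ j ≤ N, H = C (a j) + (X - C (j : ℂ)) ^ e j * m j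

-- deps: CWEI
def S_CAPX : Prop := ∀ (N : ℕ) (η ε : ℝ) (a : ℕ → ℂ) (e : ℕ → ℕ) (t : ℝ → ℂ), 0 < η →
  η < 1 / 2 → 0 < ε → ContinuousOn t (Icc 0 N) →
  (∀ x ∈ Icc (0 : ℝ) N, ∀ j ≤ N, |x - j| ≤ η → t x = a j + ((x : ℂ) - j) ^ e j) →
  ∃ (τ : ℂ[X]) (β : ℕ → ℂ[X]), (∀ j ≤ N, τ = C (a j) + (X - C (j : ℂ)) ^ e j * β j) ∧
    ∀ x ∈ Icc (0 : ℝ) N, ‖τ.eval (x : ℂ) - t x‖ < ε ∧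
      ∀ j ≤ N, |x - j| ≤ η → ‖(β j).eval (x : ℂ) - 1‖ < ε

-- deps:
def S_CGAP : Prop := ∀ (N : ℕ) (η : ℝ) (Z : Set ℂ) (t : ℝ → ℂ), 0 < η → Z.Finite →
  ContinuousOn t (Icc 0 N) → (∀ x ∈ Icc (0 : ℝ) N, (∀ j : ℕ, x ≠ j) → t x ∉ Z) →
  ∃ ε > 0, ∀ x ∈ Icc (0 : ℝ) N, (∀ j ≤ N, η ≤ |x - j|) → ∀ w, ‖w - t x‖ < ε → w ∉ Z

-- deps: CLIFT CUNIQ
def S_CHL1 : Prop := ∀ (G : ℂ[X][X]) (Z : Set ℂ) (s : Set ℝ) (Γ : ℝ → ℂ × ℂ) (τ : ℝ → ℂ),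
  Cu G Z → Convex ℝ s → ContinuousOn Γ s → ContinuousOn τ s → (∀ x ∈ s, Γ x ∈ Gm G Z) →
  (∀ x ∈ s, ∀ r ∈ Icc (0 : ℝ) 1, (Γ x).1 + r * (τ x - (Γ x).1) ∉ Z) →
  ∃ υ : ℝ → ℂ, ContinuousOn υ s ∧ ∀ x ∈ s, (τ x, υ x) ∈ Gm G Z ∧ ∀ ψ : ℝ → ℂ,
    ContinuousOn ψ (Icc 0 1) → ψ 0 = (Γ x).2 →
    (∀ r ∈ Icc (0 : ℝ) 1, G.evalEval ((Γ x).1 + r * (τ x - (Γ x).1)) (ψ r) = 0) → υ x = ψ 1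

-- deps: CHL1
def S_CHLF : Prop := ∀ (G : ℂ[X][X]) (Z : Set ℂ) (N : ℕ) (η ε : ℝ) (a u : ℕ → ℂ) (e : ℕ → ℕ)
  (φ : ℕ → ℂ → ℂ) (Γ : ℝ → ℂ × ℂ) (τ : ℝ → ℂ) (β : ℕ → ℝ → ℂ), Cu G Z → 0 < η → η < 1 / 2 →
  (∀ j ≤ N, Dsc G Z (a j) (u j) (e j) (2 * η) (φ j)) → ContinuousOn Γ (Icc 0 N) →
  ContinuousOn τ (Icc 0 N) → (∀ x ∈ Icc (0 : ℝ) N, ((∀ j : ℕ, x ≠ j) → Γ x ∈ Gm G Z) ∧
    ‖τ x - (Γ x).1‖ < ε ∧ ((∀ j ≤ N, η ≤ |x - j|) → ∀ w, ‖w - (Γ x).1‖ < ε → w ∉ Z) ∧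
    ∀ j ≤ N, |x - j| ≤ η → Γ x = (a j + ((x : ℂ) - j) ^ e j, φ j (x - j)) ∧
      τ x = a j + ((x : ℂ) - j) ^ e j * β j x ∧ ‖β j x - 1‖ < 1 / 2) →
  ∃ υ : ℝ → ℂ, ∀ x ∈ Icc (0 : ℝ) N,
    ((∀ j : ℕ, x ≠ j) → ContinuousAt υ x ∧ ∀ᶠ x' in 𝓝 x, (τ x', υ x') ∈ Gm G Z) ∧
    ∀ j ≤ N, |x - j| ≤ η → υ x = φ j ((x - j) * rt (e j) (β j x))

-- deps:
def S_CREA : Prop := ∀ (a b : ℝ) (υ : ℝ → ℂ) (P : ℂ → ℂ → Prop),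
  (∀ x ∈ Icc a b, ∃ ψ : ℂ → ℂ, AnalyticAt ℂ ψ x ∧
    (∀ᶠ x' : ℝ in 𝓝[Icc a b] x, ψ x' = υ x') ∧ ∀ᶠ w in 𝓝 (x : ℂ), P w (ψ w)) →
  ∃ (U : Set ℂ) (ψ : ℂ → ℂ), IsOpen U ∧ DifferentiableOn ℂ ψ U ∧
    (∀ x ∈ Icc a b, (x : ℂ) ∈ U ∧ ψ x = υ x) ∧ ∀ w ∈ U, P w (ψ w)

-- deps: CPATH CAPX CGAP CHLF CREA CLOC
def S_CST : Prop := ∀ (G : ℂ[X][X]) (Z : Set ℂ) (N : ℕ) (η : ℝ) (a u : ℕ → ℂ) (e : ℕ → ℕ)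
  (φ : ℕ → ℂ → ℂ), Cu G Z → 0 < η → η < 1 / 2 →
  (∀ j ≤ N, Dsc G Z (a j) (u j) (e j) (2 * η) (φ j)) →
  (∀ j < N, JoinedIn (Gm G Z) (a j + (η : ℂ) ^ e j, φ j η)
    (a (j + 1) + (-η : ℂ) ^ e (j + 1), φ (j + 1) (-η))) →
  ∃ (U : Set ℂ) (τ : ℂ[X]) (υ : ℂ → ℂ), IsOpen U ∧ (∀ x ∈ Icc (0 : ℝ) N, (x : ℂ) ∈ U) ∧
    DifferentiableOn ℂ υ U ∧ (∀ j ≤ N, τ.eval (j : ℂ) = a j ∧ υ j = u j) ∧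
    ∀ w ∈ U, (∀ j ≤ N, w ≠ j) → (τ.eval w, υ w) ∈ Gm G Z

-- deps: CPUIS CCMP CDJ CST
def S_CPST : Prop := ∀ (G : ℂ[X][X]) (Z : Set ℂ) (ι : Type) [Fintype ι] (a u : ι → ℂ) (N : ℕ),
  Cu G Z → (∀ i, G.evalEval (a i) (u i) = 0) → G.natDegree * N < Fintype.card ι →
  ∃ (f : Fin (N + 1) → ι) (U : Set ℂ) (τ : ℂ[X]) (υ : ℂ → ℂ), Function.Injective f ∧ IsOpen U ∧
    (∀ x ∈ Icc (0 : ℝ) N, (x : ℂ) ∈ U) ∧ DifferentiableOn ℂ υ U ∧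
    (∀ j : Fin (N + 1), τ.eval (j : ℂ) = a (f j) ∧ υ j = u (f j)) ∧
    ∀ w ∈ U, (∀ j : Fin (N + 1), w ≠ j) → (τ.eval w, υ w) ∈ Gm G Z

-- deps: CBND CFIB
def S_CREM : Prop := ∀ (σ : Type) [Fintype σ] (q : Ideal (MP σ)) (d : ℕ) (y : Fin d → MP σ)
  (u : MP σ) (s : ℂ → σ → ℂ) (w₀ : ℂ) (c₀ : σ → ℂ), Nz q y → c₀ ∈ V q →
  InjOn (fun c => ev c u) {c ∈ V q | yv y c = yv y c₀} →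
  (∀ᶠ w in 𝓝[≠] w₀, DifferentiableAt ℂ s w ∧ s w ∈ V q) →
  Tendsto (fun w => yv y (s w)) (𝓝[≠] w₀) (𝓝 (yv y c₀)) →
  Tendsto (fun w => ev (s w) u) (𝓝[≠] w₀) (𝓝 (ev c₀ u)) → s w₀ = c₀ → DifferentiableAt ℂ s w₀

-- deps: CPAR CFIB CSIG CPST CREM
def S_CCURV : Prop := ∀ (σ : Type) [Fintype σ] (q : Ideal (MP σ)) (ρ N : ℕ) (h : MP σ) (ι : Type)
  [Fintype ι] (c : ι → σ → ℂ), Pc q ρ → h ∉ q → (∀ i, c i ∈ V q) → ρ * N < Fintype.card ι →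
  ∃ (f : Fin (N + 1) → ι) (U : Set ℂ) (s : ℂ → σ → ℂ), Function.Injective f ∧ IsOpen U ∧
    (∀ x ∈ Icc (0 : ℝ) N, (x : ℂ) ∈ U) ∧ DifferentiableOn ℂ s U ∧
    (∀ j : Fin (N + 1), s j = c (f j)) ∧
    ∀ w ∈ U, (∀ j : Fin (N + 1), w ≠ j) → s w ∈ V q ∧ ev (s w) h ≠ 0

-- redeps: CMAIN CBEZ CEQS COPEN CCURV TOP

end Pool.Agent.P.MP_ab0431_ag.UB
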