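import Pool.Agent.P.MP_ab0431_ag.UB.IfaceT

/-! Statements on coverings: lifting, gluing, slits, vertical lines. -/

set_option autoImplicit false
set_option linter.unusedSectionVars false

namespace Pool.Agent.P.MP_ab0431_ag.UB

open Polynomial Set Filter Topology

section

variable {E E' T V ι : Type} [TopologicalSpace E] [TopologicalSpace E'] [TopologicalSpace T]
  [TopologicalSpace V]

theorem TI.mono {p : E → T} {p' : E' → T} {W W' : Set T} {f : E → E'} (h : TI p p' W f)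
    (hs : W' ⊆ W) : TI p p' W' f := by
  refine ⟨h.1.mono (preimage_mono hs), fun z hz => h.2.1 z (hs hz), fun z hz => ?_,
    h.2.2.injOn.mono (preimage_mono hs), fun z hz => ?_⟩
  · rw [mem_preimage, h.2.1 z (hs hz)]; exact hz
  · obtain ⟨e, he, rfl⟩ := h.2.2.surjOn (hs hz)
    exact ⟨e, by rw [mem_preimage, ← h.2.1 e he]; exact hz, rfl⟩

/-- Sections over `O` that list every fibre. -/
def Secs (p : E → T) (O : Set T) (s : ι → T → E) : Prop :=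
  (∀ l, ContinuousOn (s l) O) ∧ ∀ x ∈ O, (∀ l, p (s l x) = x) ∧
    (Function.Injective fun l => s l x) ∧ ∀ e, p e = x → ∃ l, s l x = e

/-- The part of a map over the range of an embedding. -/
noncomputable def pb (p : E → T) {φ : V → T} (h : IsEmbedding φ) (e : p ⁻¹' range φ) : V :=
  h.toHomeomorph.symm ⟨p e, e.2⟩

theorem pb_spec (p : E → T) {φ : V → T} (h : IsEmbedding φ) (e : p ⁻¹' range φ) :
    φ (pb p h e) = p e :=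
  congrArg Subtype.val (h.toHomeomorph.apply_symm_apply ⟨p e, e.2⟩)

theorem pb_eq (p : E → T) {φ : V → T} (h : IsEmbedding φ) (e : p ⁻¹' range φ) (v : V) :
    pb p h e = v ↔ p e = φ v := by
  rw [← pb_spec p h e, h.injective.eq_iff]

end

/-- The plane cut along rays that start at the points of `Z`. -/
structure Rays (Z : Finset ℂ) where
  U : Set ℂ
  V : ℂ → Set ℂ
  Vp : ℂ → Set ℂ
  Vm : ℂ → Set ℂ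
  oU : IsOpen U
  scU : IsSimplyConnected U
  UZ : U ⊆ (Z : Set ℂ)ᶜ
  oV : ∀ z ∈ Z, IsOpen (V z)
  scV : ∀ z ∈ Z, IsSimplyConnected (V z)
  VZ : ∀ z ∈ Z, V z ⊆ (Z : Set ℂ)ᶜ
  VU : ∀ z ∈ Z, V z ∩ U = Vp z ∪ Vm z
  cp : ∀ z ∈ Z, IsPreconnected (Vp z)
  cm : ∀ z ∈ Z, IsPreconnected (Vm z)
  VV : ∀ z ∈ Z, ∀ z' ∈ Z, z ≠ z' → V z ∩ V z' ⊆ U
  cov : ∀ x ∉ Z, x ∈ U ∨ ∃ z ∈ Z, x ∈ V z
  near : ∀ z ∈ Z, ∀ ε : ℝ, 0 < ε → ∃ A A' : Set ℂ, IsPreconnected A ∧ IsPreconnected A' ∧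
    A ⊆ (Metric.ball z ε \ {z}) ∩ U ∧ A' ⊆ (Metric.ball z ε \ {z}) ∩ V z ∧
    (A ∩ A' ∩ Vp z).Nonempty ∧ (A ∩ A' ∩ Vm z).Nonempty

/-- The sheets over the cut plane are permuted by `σ z` across the ray at `z`. -/
def Rays.Code {Z : Finset ℂ} (R : Rays Z) {E : Type} [TopologicalSpace E] (p : E → ℂ) {d : ℕ}
    (σ : ℂ → Equiv.Perm (Fin d)) : Prop :=
  ∃ (s : Fin d → ℂ → E) (τ : ℂ → Fin d → ℂ → E), Secs p R.U s ∧ ∀ z ∈ Z, Secs p (R.V z) (τ z) ∧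
    ∀ l, EqOn (τ z l) (s l) (R.Vp z) ∧ EqOn (τ z l) (s (σ z l)) (R.Vm z)

/-- The affine chart of the plane. -/
noncomputable def PM.af (Q : PM) (q : ℂ × ℂ) : Q.Y := (Q.ch 0).symm ![q.1, q.2]

-- deps:
def S_TUNI : Prop := ∀ (E T A : Type) [TopologicalSpace E] [TopologicalSpace T]
  [TopologicalSpace A] (p : E → T) (W : Set T) (S : Set A) (g₁ g₂ : A → E) (a : A),
  IsCoveringMapOn p W → IsPreconnected S → ContinuousOn g₁ S → ContinuousOn g₂ S →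
  (∀ x ∈ S, p (g₁ x) ∈ W ∧ p (g₂ x) = p (g₁ x)) → a ∈ S → g₁ a = g₂ a → EqOn g₁ g₂ S

-- deps:
def S_HLIFT : Prop := ∀ (E T A : Type) [TopologicalSpace E] [TopologicalSpace T]
  [TopologicalSpace A] (p : E → T) (W : Set T) (S : Set A) (H : A × ℝ → T) (g : A → E),
  IsCoveringMapOn p W → ContinuousOn H (S ×ˢ Icc 0 1) →
  (∀ a ∈ S, ∀ t ∈ Icc (0 : ℝ) 1, H (a, t) ∈ W) → ContinuousOn g S →
  (∀ a ∈ S, p (g a) = H (a, 0)) →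
  ∃ K : A × ℝ → E, ContinuousOn K (S ×ˢ Icc 0 1) ∧
    ∀ a ∈ S, K (a, 0) = g a ∧ ∀ t ∈ Icc (0 : ℝ) 1, p (K (a, t)) = H (a, t)

-- deps: TUNI HLIFT
def S_TUQ : Prop := ∀ (E E' T : Type) [TopologicalSpace E] [TopologicalSpace E']
  [TopologicalSpace T] (p : E → T) (p' : E' → T) (W S₀ : Set T) (f f' : E → E'),
  IsCoveringMapOn p W → IsCoveringMapOn p' W → (∀ y ∈ W, ∃ y₀ ∈ S₀, JoinedIn W y y₀) →
  TI p p' W f → TI p p' W f' → (∀ e, p e ∈ S₀ → f e = f' e) → ∀ e, p e ∈ W → f e = f' e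

-- deps:
def S_TINV : Prop := ∀ (E E' T : Type) [TopologicalSpace E] [TopologicalSpace E']
  [TopologicalSpace T] (p : E → T) (p' : E' → T) (W : Set T) (f : E → E'),
  IsCoveringMapOn p W → IsCoveringMapOn p' W → TI p p' W f → Nonempty (E' → E) →
  ∃ g, TI p' p W g ∧ (∀ e, p e ∈ W → g (f e) = e) ∧ ∀ e', p' e' ∈ W → f (g e') = e'

-- deps:
def S_TSEC : Prop := ∀ (E E' T ι : Type) [TopologicalSpace E] [TopologicalSpace E']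
  [TopologicalSpace T] (p : E → T) (p' : E' → T) (O : Set T) (s : ι → T → E) (s' : ι → T → E'),
  IsCoveringMapOn p O → Secs p O s → Secs p' O s' → Nonempty (E → E') →
  ∃ f, TI p p' O f ∧ ∀ l, ∀ x ∈ O, f (s l x) = s' l x

-- deps:
def S_TGLUE : Prop := ∀ (E E' T α : Type) [TopologicalSpace E] [TopologicalSpace E']
  [TopologicalSpace T] (p : E → T) (p' : E' → T) (W : Set T) (O : α → Set T) (f : α → E → E'),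
  ContinuousOn p (p ⁻¹' W) → (∀ a, IsOpen (O a)) → (∀ y ∈ W, ∃ a, y ∈ O a) →
  (∀ a, TI p p' (O a ∩ W) (f a)) →
  (∀ a b e, p e ∈ O a → p e ∈ O b → p e ∈ W → f a e = f b e) → Nonempty (E → E') →
  ∃ g, TI p p' W g ∧ ∀ a e, p e ∈ O a → p e ∈ W → g e = f a e

-- deps:
def S_SECS : Prop := ∀ (E T ι : Type) [TopologicalSpace E] [TopologicalSpace T]
  [LocallyPathConnectedSpace T] (p : E → T) (O : Set T) (x₀ : T) (a : ι → E),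
  IsCoveringMapOn p O → IsOpen O → IsSimplyConnected O → x₀ ∈ O → (∀ l, p (a l) = x₀) →
  Function.Injective a → (∀ e, p e = x₀ → ∃ l, a l = e) → ∃ s, Secs p O s ∧ ∀ l, s l x₀ = a l

-- deps: TUNI HLIFT
def S_ULIFT : Prop := ∀ (E E' T : Type) [TopologicalSpace E] [TopologicalSpace E']
  [TopologicalSpace T] (p : E → T) (p' : E' → T) (W S₀ : Set T) (H : T × ℝ → T) (f₀ : E → E'),
  IsCoveringMapOn p W → IsCoveringMapOn p' W → S₀ ⊆ W → ContinuousOn H (W ×ˢ Icc 0 1) →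
  (∀ y ∈ W, H (y, 0) = y ∧ H (y, 1) ∈ S₀ ∧ ∀ t ∈ Icc (0 : ℝ) 1, H (y, t) ∈ W) →
  (∀ y ∈ S₀, ∀ t ∈ Icc (0 : ℝ) 1, H (y, t) ∈ S₀) → TI p p' S₀ f₀ →
  ∃ f, TI p p' W f ∧ ∀ e, p e ∈ S₀ → f e = f₀ e

-- deps: TUNI TSEC TGLUE SECS
def S_EXT : Prop := ∀ (E E' T : Type) [TopologicalSpace E] [TopologicalSpace E'] [T2Space E']
  [TopologicalSpace T] [LocallyPathConnectedSpace T] (p : E → T) (p' : E' → T) (W W' : Set T)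
  (f : E → E'), IsCoveringMapOn p W → IsCoveringMapOn p' W → W' ⊆ W → W ⊆ closure W' →
  (∀ y ∈ W, ∃ N, IsOpen N ∧ y ∈ N ∧ N ⊆ W ∧ IsSimplyConnected N ∧ IsPreconnected (N ∩ W')) →
  TI p p' W' f → ∃ g, TI p p' W g ∧ ∀ e, p e ∈ W' → g e = f e

-- deps:
def S_CONN : Prop := ∀ (V : Type) [NormedAddCommGroup V] [NormedSpace ℂ V] [NormedSpace ℝ V]
  [IsScalarTower ℝ ℂ V] (C : Set V) (g : V → ℂ), IsOpen C → Convex ℝ C →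
  DifferentiableOn ℂ g C → (∃ v ∈ C, g v ≠ 0) →
  IsPreconnected {v ∈ C | g v ≠ 0} ∧ C ⊆ closure {v ∈ C | g v ≠ 0}

-- deps:
def S_COVG : Prop := ∀ (E T : Type) [NormedAddCommGroup E] [NormedSpace ℂ E] [TopologicalSpace T]
  [ChartedSpace E T] [T2Space T] [LocallyCompactSpace T] (F : Cv E T) (B Ω : Set T),
  IsOpen Ω → F.G0 B Ω → IsCoveringMapOn F.π (Ω \ B)

-- deps:
def S_PULL : Prop := ∀ (E E' T V : Type) [TopologicalSpace E] [TopologicalSpace E']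
  [TopologicalSpace T] [TopologicalSpace V] (p : E → T) (p' : E' → T) (φ : V → T)
  (h : IsEmbedding φ) (A : Set V),
  (∀ W, IsCoveringMapOn p W → IsCoveringMapOn (pb p h) (φ ⁻¹' W)) ∧
  (∀ f₀, TI (pb p h) (pb p' h) A f₀ → Nonempty (E → E') → ∃ f, TI p p' (φ '' A) f ∧
    ∀ e : p ⁻¹' range φ, pb p h e ∈ A → f e = f₀ e) ∧
  ∀ f, TI p p' (φ '' A) f → Nonempty (p ⁻¹' range φ → p' ⁻¹' range φ) →
    ∃ f₀, TI (pb p h) (pb p' h) A f₀ ∧ ∀ e : p ⁻¹' range φ, pb p h e ∈ A → f e = f₀ e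

-- deps:
def S_BCH : Prop := ∀ (Q : PM) (b m : ℕ) (c : Co b m → ℂ), WD b 1 (toP c) →
  (∀ v, v ≠ 0 → (Q.pp v ∈ Bc Q c ↔ hom b (toP c) v = 0)) ∧
  (∀ x z, hom b (toP c) ![1, x, z] = (toP c).evalEval x z) ∧
  (∀ q : ℂ × ℂ, Q.af q = Q.pp ![1, q.1, q.2]) ∧
  (∀ q : ℂ × ℂ, Q.af q ∈ Bc Q c ↔ (toP c).evalEval q.1 q.2 = 0) ∧
  Q.pp ![0, 0, 1] ∉ Bc Q c ∧ IsClosed (Bc Q c) ∧ IsOpenEmbedding Q.af

-- deps: CONN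
def S_NBH : Prop := ∀ (Q : PM) (G : (Fin 3 → ℂ) → ℂ) (W : Set Q.Y), IsOpen W →
  Differentiable ℂ G → (∀ (t : ℂ) v, t ≠ 0 → (G (t • v) = 0 ↔ G v = 0)) →
  (∃ v, (∀ i, v i ≠ 0) ∧ G v ≠ 0) →
  W ⊆ closure {y ∈ W | ∃ v, v ≠ 0 ∧ Q.pp v = y ∧ G v ≠ 0} ∧
  ∀ y ∈ W, ∃ N, IsOpen N ∧ y ∈ N ∧ N ⊆ W ∧ IsSimplyConnected N ∧
    IsPreconnected (N ∩ {y ∈ W | ∃ v, v ≠ 0 ∧ Q.pp v = y ∧ G v ≠ 0})

-- deps:
def S_NINF : Prop := ∀ (Q : PM) (N : Set Q.Y) (M : ℝ), N ∈ 𝓝 (Q.pp ![0, 0, 1]) →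
  ∃ R : ℝ, ∀ x z : ℂ, ‖x‖ ≤ M → R ≤ ‖z‖ → Q.pp ![1, x, z] ∈ N

-- deps:
def S_FOLD : Prop := ∀ (Q : PM) (F : Cv C2 Q.Y) (d : ℕ),
  (∀ B, F.G1 B d (fun _ => 0) univ → {q | ¬F.Fold d q}.Finite) ∧
  ∀ (ψ : ℂ → Q.Y) (h : IsEmbedding ψ) (x₀ : ℂ), F.Fold d (ψ x₀) →
    ∃ (s : Fin (d - 2) → ℂ → F.π ⁻¹' range ψ) (ε : ℝ), 0 < ε ∧
      (∀ l, ContinuousOn (s l) (Metric.ball x₀ ε \ {x₀})) ∧
      ∀ x ∈ Metric.ball x₀ ε \ {x₀}, (∀ l, pb F.π h (s l x) = x) ∧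
        Function.Injective fun l => s l x

-- deps:
def S_ROOTS : Prop := ∀ (b : ℕ) (F : ℂ[X][X]) (x₁ : ℂ), F.Monic → F.natDegree = b →
  (F.map (evalRingHom x₁)).Separable → ∃ (δ : ℝ) (z : Fin b → ℂ → ℂ), 0 < δ ∧
    (∀ i, DifferentiableOn ℂ (z i) (Metric.ball x₁ δ)) ∧
    ∀ x ∈ Metric.ball x₁ δ, (Function.Injective fun i => z i x) ∧
      ∀ w, F.evalEval x w = 0 ↔ ∃ i, w = z i x

-- deps: ROOTS
def S_HTP : Prop := ∀ (F : ℂ[X][X]) (x₁ : ℂ), F.Monic → (F.map (evalRingHom x₁)).Separable →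
  ∃ δ₀ : ℝ, 0 < δ₀ ∧ ∀ δ ≤ δ₀, ∀ x₂ ∈ Metric.ball x₁ δ, ∃ H : (ℂ × ℂ) × ℝ → ℂ × ℂ,
    ContinuousOn H ((Metric.ball x₁ δ ×ˢ univ) ×ˢ Icc 0 1) ∧
    ∀ x ∈ Metric.ball x₁ δ, ∀ z, H ((x, z), 0) = (x, z) ∧ (H ((x, z), 1)).1 = x₂ ∧
      ∀ t ∈ Icc (0 : ℝ) 1, (H ((x, z), t)).1 ∈ Metric.ball x₁ δ ∧
        (x = x₂ → (H ((x, z), t)).1 = x₂) ∧ (F.evalEval x z ≠ 0 →
          F.evalEval (H ((x, z), t)).1 (H ((x, z), t)).2 ≠ 0)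

-- deps: TUQ TGLUE ULIFT HTP
def S_VL : Prop := ∀ (E E' : Type) [TopologicalSpace E] [TopologicalSpace E'] (p : E → ℂ × ℂ)
  (p' : E' → ℂ × ℂ) (F : ℂ[X][X]) (X₀ : Finset ℂ) (N : Set (ℂ × ℂ)) (x₀ z₀ : ℂ) (f₀ g : E → E'),
  F.Monic → (∀ x ∉ X₀, (F.map (evalRingHom x)).Separable) → x₀ ∉ X₀ →
  IsCoveringMapOn p {q | F.evalEval q.1 q.2 ≠ 0} → IsCoveringMapOn p' {q | F.evalEval q.1 q.2 ≠ 0} →
  N ⊆ {q | F.evalEval q.1 q.2 ≠ 0} →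
  (∀ M : ℝ, ∃ R : ℝ, ∀ x z : ℂ, ‖x‖ ≤ M → R ≤ ‖z‖ → (x, z) ∈ N) →
  (∀ z, ‖z₀‖ ≤ ‖z‖ → (x₀, z) ∈ N) → TI p p' N g →
  TI p p' {q | q.1 = x₀ ∧ F.evalEval q.1 q.2 ≠ 0} f₀ → (∀ e, p e = (x₀, z₀) → f₀ e = g e) →
  ∃ f, TI p p' {q | q.1 ∉ X₀ ∧ F.evalEval q.1 q.2 ≠ 0} f

-- deps:
def S_RAYS : Prop := ∀ Z : Finset ℂ, Nonempty (Rays Z)

-- deps: TUNI SECS
def S_SL1 : Prop := ∀ (Z : Finset ℂ) (R : Rays Z) (d : ℕ) (E : Type) [TopologicalSpace E]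
  (p : E → ℂ), IsCoveringMapOn p (Z : Set ℂ)ᶜ → (∀ x ∉ Z, (p ⁻¹' {x}).encard = d) →
  (∀ x₀ ∈ Z, ∃ (s : Fin (d - 2) → ℂ → E) (ε : ℝ), 0 < ε ∧
    (∀ l, ContinuousOn (s l) (Metric.ball x₀ ε \ {x₀})) ∧
    ∀ x ∈ Metric.ball x₀ ε \ {x₀}, (∀ l, p (s l x) = x) ∧ Function.Injective fun l => s l x) →
  ∃ σ : ℂ → Equiv.Perm (Fin d), R.Code p σ ∧ ∀ z ∈ Z, σ z = 1 ∨ ∃ a b, σ z = Equiv.swap a b

-- deps: TSEC TGLUE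
def S_SL2 : Prop := ∀ (Z : Finset ℂ) (R : Rays Z) (d : ℕ) (E E' : Type) [TopologicalSpace E]
  [TopologicalSpace E'] (p : E → ℂ) (p' : E' → ℂ) (σ σ' : ℂ → Equiv.Perm (Fin d)),
  IsCoveringMapOn p (Z : Set ℂ)ᶜ → R.Code p σ → R.Code p' σ' → (∀ z ∈ Z, σ z = σ' z) →
  Nonempty (E → E') → ∃ f, TI p p' (Z : Set ℂ)ᶜ f

-- deps: RAYS SL1 SL2
def S_SL3 : Prop := ∀ (Z : Finset ℂ) (d n : ℕ) (E : Fin n → Type) [∀ i, TopologicalSpace (E i)]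
  (p : ∀ i, E i → ℂ), (d ^ 2 + 1) ^ Z.card < n → (∀ i, IsCoveringMapOn (p i) (Z : Set ℂ)ᶜ) →
  (∀ i, ∀ x ∉ Z, (p i ⁻¹' {x}).encard = d) →
  (∀ i, ∀ x₀ ∈ Z, ∃ (s : Fin (d - 2) → ℂ → E i) (ε : ℝ), 0 < ε ∧
    (∀ l, ContinuousOn (s l) (Metric.ball x₀ ε \ {x₀})) ∧
    ∀ x ∈ Metric.ball x₀ ε \ {x₀}, (∀ l, p i (s l x) = x) ∧ Function.Injective fun l => s l x) →
  ∃ i j, i < j ∧ (Nonempty (E i → E j) → ∃ f, TI (p i) (p j) (Z : Set ℂ)ᶜ f) ∧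
    (Nonempty (E j → E i) → ∃ f, TI (p j) (p i) (Z : Set ℂ)ᶜ f)

-- deps: SL3 COVG PULL BCH FOLD
def S_CT1 : Prop := ∀ (Q : PM) (b m d n : ℕ) (c : Co b m → ℂ) (F : Fin n → Cv C2 Q.Y)
  (X₀ : Finset ℂ), WD b 1 (toP c) → 0 < d → (d ^ 2 + 1) ^ b < n →
  (∀ i, (F i).G0 (Bc Q c) univ) → (∀ i, (F i).G1 (Bc Q c) d (fun _ => 0) univ) →
  ∃ x₀ ∉ X₀, ∃ i j, i < j ∧ ∃ f, TI (F j).π (F i).π
    (Q.af '' {q | q.1 = x₀ ∧ (toP c).evalEval q.1 q.2 ≠ 0}) f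

-- deps: VL COVG PULL BCH NBH NINF SECS TSEC
def S_CT2 : Prop := ∀ (Q : PM) (b m d : ℕ) (c : Co b m → ℂ) (F F' : Cv C2 Q.Y) (X₀ : Finset ℂ)
  (x₀ : ℂ) (f : F.Z → F'.Z), WD b 1 (toP c) → 0 < d →
  (∀ x ∉ X₀, ((toP c).map (evalRingHom x)).Separable) → x₀ ∉ X₀ → F.G0 (Bc Q c) univ →
  F'.G0 (Bc Q c) univ → F'.G1 (Bc Q c) d (fun _ => 0) univ →
  TI F.π F'.π (Q.af '' {q | q.1 = x₀ ∧ (toP c).evalEval q.1 q.2 ≠ 0}) f →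
  ∃ g, TI F.π F'.π (Q.af '' {q | q.1 ∉ X₀ ∧ (toP c).evalEval q.1 q.2 ≠ 0}) g

-- redeps: SLIT SL3
-- redeps: COUNT CT1 CT2 EXT COVG BCH NBH DSEP

end Pool.Agent.P.MP_ab0431_ag.UB
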