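import Pool.Agent.P.MP_ab0431_ag.UB.IfaceD2
import Pool.Agent.P.MP_ab0431_ag.UB.IfaceD5
import Pool.Agent.P.MP_ab0431_ag.UB.IfaceA

/-! Statements on the continuation of branched covers along a family of curves. -/

set_option autoImplicit false
set_option linter.unusedSectionVars false

namespace Pool.Agent.P.MP_ab0431_ag.UB

open Set Filter Topology
open scoped Manifold ContDiff

section

variable {E T E' T' E'' T'' : Type} [TopologicalSpace E] [TopologicalSpace E']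
  [TopologicalSpace E'']

/-- A continuous map over `h` on `W` that is bijective on fibres. -/
structure Car (p : E → T) (p' : E' → T') (h : T → T') (W : Set T) (f : E → E') : Prop where
  cont : ContinuousOn f (p ⁻¹' W)
  comm : ∀ z, p z ∈ W → p' (f z) = h (p z)
  inj : ∀ z z', p z ∈ W → p z' = p z → f z' = f z → z' = z
  surj : ∀ w ∈ W, ∀ z', p' z' = h w → ∃ z, p z = w ∧ f z = z'

variable {p : E → T} {p' : E' → T'} {p'' : E'' → T''} {h h₁ : T → T'} {h' : T' → T''}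
  {W W₁ : Set T} {W' : Set T'} {f : E → E'} {f' : E' → E''}

theorem Car.mono (c : Car p p' h W f) (hs : W₁ ⊆ W) : Car p p' h W₁ f :=
  ⟨c.cont.mono (preimage_mono hs), fun z hz => c.comm z (hs hz),
    fun z z' hz => c.inj z z' (hs hz), fun w hw => c.surj w (hs hw)⟩

theorem Car.congr (c : Car p p' h W f) (e : ∀ w ∈ W, h₁ w = h w) : Car p p' h₁ W f :=
  ⟨c.cont, fun z hz => by rw [e _ hz, c.comm z hz], c.inj,
    fun w hw z' hz' => c.surj w hw z' (by rw [← e _ hw, hz'])⟩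

theorem Car.refl : Car p p id W id :=
  ⟨continuousOn_id, fun _ _ => rfl, fun _ _ _ _ e => e, fun _ _ z hz => ⟨z, hz, rfl⟩⟩

theorem Car.comp (c' : Car p' p'' h' W' f') (c : Car p p' h W f) (m : MapsTo h W W') :
    Car p p'' (h' ∘ h) W (f' ∘ f) := by
  have k : ∀ z, p z ∈ W → p' (f z) ∈ W' := fun z hz => c.comm z hz ▸ m hz
  refine ⟨c'.cont.comp c.cont k, fun z hz => ?_, fun z z' hz e e' => ?_, fun w hw z' hz' => ?_⟩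
  · rw [Function.comp_apply, c'.comm _ (k z hz), c.comm z hz, Function.comp_apply]
  · exact c.inj z z' hz e (c'.inj _ _ (k z hz) (by rw [c.comm z hz, c.comm z' (e ▸ hz), e]) e')
  · obtain ⟨y, hy, rfl⟩ := c'.surj _ (m hw) z' hz'
    obtain ⟨z, hz, rfl⟩ := c.surj w hw y hy
    exact ⟨z, hz, rfl⟩

theorem TI.car {q : E' → T} (c : TI p q W f) : Car p q id W f :=
  ⟨c.1, c.2.1, fun z z' hz e e' => c.2.2.injOn (by rw [mem_preimage, e]; exact hz) hz e',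
    fun w hw z' hz' => by
      obtain ⟨z, hz, rfl⟩ := c.2.2.surjOn (show z' ∈ q ⁻¹' W by rw [mem_preimage, hz']; exact hw)
      exact ⟨z, (c.2.1 z hz).symm.trans hz', rfl⟩⟩

/-- The map is a homeomorphism near the point. -/
def LH [TopologicalSpace T] (p : E → T) (z : E) : Prop :=
  ∃ e : OpenPartialHomeomorph E T, z ∈ e.source ∧ EqOn e p e.source

end

section

variable (E : Type) [NormedAddCommGroup E] [NormedSpace ℂ E]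
  {M M' M'' : Type} [TopologicalSpace M] [ChartedSpace E M] [TopologicalSpace M']
  [ChartedSpace E M'] [TopologicalSpace M''] [ChartedSpace E M'']

/-- Biholomorphic. -/
structure Bi (e : OpenPartialHomeomorph M M') : Prop where
  hol : MDifferentiableOn 𝓘(ℂ, E) 𝓘(ℂ, E) e e.source
  inv : MDifferentiableOn 𝓘(ℂ, E) 𝓘(ℂ, E) e.symm e.target

/-- Near the points of `O` the set `S` is the zero set of a holomorphic function. -/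
def ZL (S O : Set M) : Prop := ∀ z ∈ O, ∃ (N : Set M) (g : M → ℂ), IsOpen N ∧ z ∈ N ∧
  MDifferentiableOn 𝓘(ℂ, E) 𝓘(ℂ, ℂ) g N ∧ ∀ z' ∈ N, (z' ∈ S ↔ g z' = 0)

variable {E}

theorem Bi.symm {e : OpenPartialHomeomorph M M'} (h : Bi E e) : Bi E e.symm := ⟨h.inv, h.hol⟩

theorem Bi.refl : Bi E (OpenPartialHomeomorph.refl M) :=
  ⟨mdifferentiableOn_id, mdifferentiableOn_id⟩

theorem Bi.trans {e : OpenPartialHomeomorph M M'} {e' : OpenPartialHomeomorph M' M''}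
    (h : Bi E e) (h' : Bi E e') : Bi E (e.trans e') :=
  ⟨h'.hol.comp (h.hol.mono fun _ hx => hx.1) fun _ hx => hx.2,
    h.inv.comp (h'.inv.mono fun _ hx => hx.1) fun _ hx => hx.2⟩

theorem Bi.restr {e : OpenPartialHomeomorph M M'} (h : Bi E e) {s : Set M} (hs : IsOpen s) :
    Bi E (e.restrOpen s hs) :=
  ⟨h.hol.mono fun _ hx => hx.1, h.inv.mono fun _ hx => hx.1⟩

theorem ZL.pull {E₁ M₁ : Type} [NormedAddCommGroup E₁] [NormedSpace ℂ E₁] [TopologicalSpace M₁]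
    [ChartedSpace E₁ M₁] {S O : Set M} (h : ZL E S O) {k : M₁ → M} {O₁ : Set M₁} (ho : IsOpen O₁)
    (hk : MDifferentiableOn 𝓘(ℂ, E₁) 𝓘(ℂ, E) k O₁) (m : MapsTo k O₁ O) : ZL E₁ (k ⁻¹' S) O₁ :=
  fun z hz => by
    obtain ⟨N, g, hN, hz', hg, hS⟩ := h _ (m hz)
    exact ⟨O₁ ∩ k ⁻¹' N, g ∘ k, hk.continuousOn.isOpen_inter_preimage ho hN, ⟨hz, hz'⟩,
      hg.comp (hk.mono inter_subset_left) fun _ hx => hx.2, fun z' hz' => hS _ hz'.2⟩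

theorem ZL.isOpen {S O : Set M} (h : ZL E S O) (ho : IsOpen O) : IsOpen (O \ S) := by
  refine isOpen_iff_mem_nhds.2 fun z hz => ?_
  obtain ⟨N, g, hN, hz', hg, hS⟩ := h z hz.1
  have := (hg.continuousOn.continuousAt (hN.mem_nhds hz')).eventually_ne
    fun e => hz.2 ((hS z hz').2 e)
  filter_upwards [this, hN.mem_nhds hz', ho.mem_nhds hz.1] with y h1 h2 h3
  exact ⟨h3, fun e => h1 ((hS y h2).1 e)⟩

theorem Cv.Loc.lh {F : Cv E M} {z : F.Z} (h : F.Loc z) : LH F.π z :=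
  let ⟨e, a, b, _⟩ := h
  ⟨e, a, b⟩

theorem Cv.cont (F : Cv E M) : Continuous F.π := F.hol.continuous

variable {X Y : Type} [TopologicalSpace X]

/-- A local model: `Λ` carries `B` to `A`, and `φ` identifies the cover `F` with the pull-back of
`q` along `r`. -/
structure Md (F : Cv E M) (A B : Set M) (q : X → Y) (r : M → Y)
    (Λ : OpenPartialHomeomorph M M) (φ : F.Z → X) : Prop where
  bi : Bi E Λ
  bb : ∀ w ∈ Λ.source, (w ∈ B ↔ Λ w ∈ A)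
  car : Car F.π q (r ∘ Λ.symm) (Λ.target \ A) φ

/-- The cover `G` is assembled from local models with the property `R`. -/
def Asm (F : Cv E M) (A B Ω : Set M) (q : X → Y) (r : M → Y)
    (R : OpenPartialHomeomorph M M → Prop) (G : Cv E M) (κ : G.Z → X) : Prop :=
  (∀ z, G.π z ∈ Ω) ∧ ∀ w ∈ Ω, ∃ (Λ : OpenPartialHomeomorph M M) (φ : F.Z → X)
    (e : OpenPartialHomeomorph F.Z G.Z), R Λ ∧ Md F A B q r Λ φ ∧ w ∈ Λ.source ∧ Bi E e ∧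
    e.source = F.π ⁻¹' Λ.target ∧ e.target = G.π ⁻¹' Λ.source ∧
    (∀ m ∈ e.source, G.π (e m) = Λ.symm (F.π m)) ∧ ∀ m ∈ e.source, F.π m ∉ A → κ (e m) = φ m

end

/-- Product charts. -/
noncomputable instance (priority := 100) csP (M : Type) [TopologicalSpace M] [ChartedSpace C2 M] :
    ChartedSpace (C2 × ℂ) (M × ℂ) := prodChartedSpace C2 M ℂ ℂ

section

variable {M M' : Type} [TopologicalSpace M] [ChartedSpace C2 M] [TopologicalSpace M']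
  [ChartedSpace C2 M']

instance mfdP [IsManifold 𝓘(ℂ, C2) ω M] : IsManifold 𝓘(ℂ, C2 × ℂ) ω (M × ℂ) := by
  rw [modelWithCornersSelf_prod]
  exact IsManifold.prod M ℂ

theorem md_fst : MDifferentiable 𝓘(ℂ, C2 × ℂ) 𝓘(ℂ, C2) (Prod.fst : M × ℂ → M) := by
  rw [modelWithCornersSelf_prod]
  exact mdifferentiable_fst

theorem md_snd : MDifferentiable 𝓘(ℂ, C2 × ℂ) 𝓘(ℂ, ℂ) (Prod.snd : M × ℂ → ℂ) := by
  rw [modelWithCornersSelf_prod]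
  exact mdifferentiable_snd

theorem md_pair {E N : Type} [NormedAddCommGroup E] [NormedSpace ℂ E] [TopologicalSpace N]
    [ChartedSpace E N] {f : N → M} {g : N → ℂ} {s : Set N}
    (hf : MDifferentiableOn 𝓘(ℂ, E) 𝓘(ℂ, C2) f s) (hg : MDifferentiableOn 𝓘(ℂ, E) 𝓘(ℂ, ℂ) g s) :
    MDifferentiableOn 𝓘(ℂ, E) 𝓘(ℂ, C2 × ℂ) (fun x => (f x, g x)) s := by
  rw [modelWithCornersSelf_prod]
  exact hf.prodMk hg

theorem Bi.prod {e : OpenPartialHomeomorph M M'} (h : Bi C2 e) :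
    Bi (C2 × ℂ) (e.prod (OpenPartialHomeomorph.refl ℂ)) :=
  ⟨md_pair (h.hol.comp md_fst.mdifferentiableOn fun _ hx => hx.1) md_snd.mdifferentiableOn,
    md_pair (h.inv.comp md_fst.mdifferentiableOn fun _ hx => hx.1) md_snd.mdifferentiableOn⟩

/-- The product of a cover with the line. -/
noncomputable def Cv.prod (F : Cv C2 M) : Cv (C2 × ℂ) (M × ℂ) where
  Z := F.Z × ℂ
  mfd := mfdP
  t2 := inferInstance
  π z := (F.π z.1, z.2)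
  hol := mdifferentiableOn_univ.1
    (md_pair (F.hol.comp md_fst).mdifferentiableOn md_snd.mdifferentiableOn)

/-- The second coordinate is preserved. -/
def Fs (Λ : OpenPartialHomeomorph (M × ℂ) (M' × ℂ)) : Prop := ∀ w ∈ Λ.source, (Λ w).2 = w.2

theorem Fs.symm {Λ : OpenPartialHomeomorph (M × ℂ) (M' × ℂ)} (h : Fs Λ) : Fs Λ.symm :=
  fun w hw => by rw [← h _ (Λ.map_target hw), Λ.right_inv hw]

/-- A product chart for `B`. -/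
structure Box (B : Set (M × ℂ)) (Ψ : OpenPartialHomeomorph (M × ℂ) (M × ℂ)) : Prop where
  bi : Bi (C2 × ℂ) Ψ
  fs : Fs Ψ
  bb : ∃ A : Set M, ∀ w ∈ Ψ.source, (w ∈ B ↔ (Ψ w).1 ∈ A)

end

/-- The total space of a family of curves. -/
def Fam (Q : PM) {b m : ℕ} (s : ℂ → Co b m → ℂ) : Set (Q.Y × ℂ) := {w | w.1 ∈ Bc Q (s w.2)}

-- deps: TRA BCF
def S_TBOX : Prop := ∀ (Q : PM) (b m nn N : ℕ) (U : Set ℂ) (s : ℂ → Co b m → ℂ),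
  Strip nn N U s → ∀ w : Q.Y × ℂ, w.2 ∈ U → ∃ Ψ, Box (Fam Q s) Ψ ∧ w ∈ Ψ.source

-- deps: BCF
def S_ZLB : Prop := ∀ (Q : PM) (b m : ℕ) (c : Co b m → ℂ), WD b 1 (toP c) → ZL C2 (Bc Q c) univ

-- deps:
def S_TRN1 : Prop := ∀ (Y : Type) [MetricSpace Y] [CompactSpace Y] (B : Set (Y × ℂ)) (A : Set Y)
  (Ψ : OpenPartialHomeomorph (Y × ℂ) (Y × ℂ)) (w₀ : Y × ℂ), w₀ ∈ Ψ.source →
  (∀ w ∈ Ψ.source, (Ψ w).2 = w.2) → (∀ w ∈ Ψ.source, (w ∈ B ↔ (Ψ w).1 ∈ A)) →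
  ∃ G : (Y × ℂ) × ℂ → Y × ℂ, Continuous G ∧ (∀ w, G (w, w.2) = w) ∧ (∀ x, x.1 ∉ B → G x ∉ B) ∧
    ∀ᶠ x in 𝓝 (w₀, w₀.2), (G x).2 = x.2

-- deps: TRN1
def S_TRANS : Prop := ∀ (Y : Type) [MetricSpace Y] [CompactSpace Y] (B : Set (Y × ℂ))
  (K : Set ℂ), IsCompact K → Convex ℝ K →
  (∀ w : Y × ℂ, w.2 ∈ K → ∃ (Ψ : OpenPartialHomeomorph (Y × ℂ) (Y × ℂ)) (A : Set Y),
    w ∈ Ψ.source ∧ (∀ w ∈ Ψ.source, (Ψ w).2 = w.2) ∧ ∀ w ∈ Ψ.source, (w ∈ B ↔ (Ψ w).1 ∈ A)) →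
  ∃ G : (Y × ℂ) × ℂ → Y × ℂ, Continuous G ∧ (∀ w, G (w, w.2) = w) ∧ (∀ x, x.1 ∉ B → G x ∉ B) ∧
    ∀ x : (Y × ℂ) × ℂ, x.1.2 ∈ K → x.2 ∈ K → (G x).2 = x.2

-- deps: TUNI HLIFT
def S_HL : Prop := ∀ (E T X Y : Type) [TopologicalSpace E] [TopologicalSpace T]
  [TopologicalSpace X] [TopologicalSpace Y] (p : E → T) (q : X → Y) (W : Set T) (W₀ : Set Y)
  (H : T × ℝ → Y) (f : E → X), IsCoveringMapOn q W₀ → Continuous p →
  ContinuousOn H (W ×ˢ Icc 0 1) → (∀ w ∈ W, ∀ s ∈ Icc (0 : ℝ) 1, H (w, s) ∈ W₀) →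
  Car p q (fun w => H (w, 0)) W f → ∃ f', Car p q (fun w => H (w, 1)) W f'

-- deps:
def S_DIVC : Prop := ∀ (E₁ T₁ E₂ T₂ X Y : Type) [TopologicalSpace E₁] [TopologicalSpace T₁]
  [TopologicalSpace E₂] [TopologicalSpace T₂] [TopologicalSpace X] [TopologicalSpace Y]
  (p₁ : E₁ → T₁) (p₂ : E₂ → T₂) (q : X → Y) (k : T₁ → T₂) (h : T₂ → Y) (W₁ : Set T₁)
  (W₂ : Set T₂) (φ₁ : E₁ → X) (φ₂ : E₂ → X), Continuous p₁ → ContinuousOn k W₁ →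
  MapsTo k W₁ W₂ → (∀ z, p₂ z ∈ W₂ → LH p₂ z) → (∀ w ∈ W₂, ∀ x, q x = h w → LH q x) →
  Car p₁ q (h ∘ k) W₁ φ₁ → Car p₂ q h W₂ φ₂ → Nonempty (E₁ → E₂) →
  ∃ g, Car p₁ p₂ k W₁ g ∧ ∀ z, p₁ z ∈ W₁ → φ₂ (g z) = φ₁ z

-- deps: RIEM CONN
def S_XT0 : Prop := ∀ (E₁ E₂ M : Type) [NormedAddCommGroup E₁] [NormedSpace ℂ E₁]
  [NormedAddCommGroup E₂] [NormedSpace ℂ E₂] [CompleteSpace E₂] [TopologicalSpace M]
  [ChartedSpace E₁ M] [IsManifold 𝓘(ℂ, E₁) ω M] (O S : Set M) (z : M), IsOpen O → z ∈ O →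
  ZL E₁ S O → O ⊆ closure (O \ S) →
  (∀ N ∈ 𝓝 z, ∃ N' ∈ 𝓝 z, N' ⊆ N ∧ IsPreconnected (N' \ S)) ∧
  ∀ (f : M → E₂) (C : ℝ),
    (∀ᶠ y in 𝓝 z, y ∉ S → MDifferentiableAt 𝓘(ℂ, E₁) 𝓘(ℂ, E₂) f y ∧ ‖f y‖ ≤ C) →
    ∃ f' : M → E₂, ∀ᶠ y in 𝓝 z, MDifferentiableAt 𝓘(ℂ, E₁) 𝓘(ℂ, E₂) f' y ∧ (y ∉ S → f' y = f y)

-- deps: XT0
def S_XT1 : Prop := ∀ (E₁ E₂ M T : Type) [NormedAddCommGroup E₁] [NormedSpace ℂ E₁]
  [NormedAddCommGroup E₂] [NormedSpace ℂ E₂] [FiniteDimensional ℂ E₂] [TopologicalSpace M]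
  [ChartedSpace E₁ M] [IsManifold 𝓘(ℂ, E₁) ω M] [TopologicalSpace T] [ChartedSpace E₂ T]
  [T2Space T] (F : Cv E₂ T) (B Ω : Set T) (O S : Set M) (h : M → T) (f : M → F.Z), IsOpen Ω →
  F.G0 B Ω → IsOpen O → ZL E₁ S O → O ⊆ closure (O \ S) →
  MDifferentiableOn 𝓘(ℂ, E₁) 𝓘(ℂ, E₂) h O → MapsTo h O Ω → (∀ z ∈ O \ S, h z ∉ B) →
  ContinuousOn f (O \ S) → (∀ z ∈ O \ S, F.π (f z) = h z) →
  ∃ f' : M → F.Z, MDifferentiableOn 𝓘(ℂ, E₁) 𝓘(ℂ, E₂) f' O ∧ EqOn f' f (O \ S) ∧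
    ∀ z ∈ O, F.π (f' z) = h z

-- deps:
def S_GLUE0 : Prop := ∀ (E M Z α : Type) [NormedAddCommGroup E] [NormedSpace ℂ E]
  [CompleteSpace E] [TopologicalSpace M] [ChartedSpace E M] [IsManifold 𝓘(ℂ, E) ω M]
  (O : α → Set M) (ι : α → M → Z), (∀ a, IsOpen (O a)) → (∀ a, InjOn (ι a) (O a)) →
  (∀ z, ∃ a, ∃ m ∈ O a, ι a m = z) →
  (∀ a b, ∀ m ∈ O a, ι a m ∈ ι b '' O b → ∃ g : M → M, ∀ᶠ m' in 𝓝 m,
    MDifferentiableAt 𝓘(ℂ, E) 𝓘(ℂ, E) g m' ∧ g m' ∈ O b ∧ ι b (g m') = ι a m') →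
  ∃ (_ : TopologicalSpace Z) (_ : ChartedSpace E Z), IsManifold 𝓘(ℂ, E) ω Z ∧
    ∀ a, ∃ e : OpenPartialHomeomorph M Z, e.source = O a ∧ EqOn e (ι a) (O a) ∧ Bi E e

-- deps: DIVC XT1
def S_TRSN : Prop := ∀ (E M X Y : Type) [NormedAddCommGroup E] [NormedSpace ℂ E]
  [FiniteDimensional ℂ E] [TopologicalSpace M] [ChartedSpace E M] [T2Space M]
  [TopologicalSpace X] [TopologicalSpace Y] (F : Cv E M) (A B : Set M) (q : X → Y) (r : M → Y)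
  (Λ Λ' : OpenPartialHomeomorph M M) (φ φ' : F.Z → X), F.G0 A univ → ZL E A univ →
  (∀ w ∈ Λ'.source \ B, ∀ x, q x = r w → LH q x) → Md F A B q r Λ φ → Md F A B q r Λ' φ' →
  ∃ g : F.Z → F.Z, MDifferentiableOn 𝓘(ℂ, E) 𝓘(ℂ, E) g (F.π ⁻¹' (Λ.symm.trans Λ').source) ∧
    ∀ m ∈ F.π ⁻¹' (Λ.symm.trans Λ').source,
      F.π (g m) = Λ' (Λ.symm (F.π m)) ∧ (F.π m ∉ A → φ' (g m) = φ m)

-- deps: TRSN GLUE0
def S_ZCON : Prop := ∀ (E M X Y : Type) [NormedAddCommGroup E] [NormedSpace ℂ E]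
  [FiniteDimensional ℂ E] [TopologicalSpace M] [ChartedSpace E M] [T2Space M]
  [TopologicalSpace X] [TopologicalSpace Y] (F : Cv E M) (A B Ω : Set M) (q : X → Y) (r : M → Y)
  (R : OpenPartialHomeomorph M M → Prop), F.G0 A univ → ZL E A univ →
  Function.Surjective F.π → Ω.Nonempty → (∀ w ∈ Ω \ B, ∀ x, q x = r w → LH q x) →
  (∀ w ∈ Ω, ∃ Λ φ, R Λ ∧ Md F A B q r Λ φ ∧ w ∈ Λ.source ∧ Λ.source ⊆ Ω) →
  ∃ G κ, Asm F A B Ω q r R G κ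

-- deps:
def S_ASMG : Prop := ∀ (E M X Y : Type) [NormedAddCommGroup E] [NormedSpace ℂ E]
  [FiniteDimensional ℂ E] [TopologicalSpace M] [ChartedSpace E M] [T2Space M]
  [TopologicalSpace X] (F : Cv E M) (A B Ω : Set M) (q : X → Y) (r : M → Y)
  (R : OpenPartialHomeomorph M M → Prop) (G : Cv E M) (κ : G.Z → X), F.G0 A univ →
  Asm F A B Ω q r R G κ → G.G0 B Ω ∧ Car G.π q r (Ω \ B) κ ∧
    ∀ d, F.G1 A d (fun _ => 0) univ → G.G1 B d (fun _ => 0) Ω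

-- deps:
def S_PRODG : Prop := ∀ (M : Type) [TopologicalSpace M] [ChartedSpace C2 M] [T2Space M]
  (F : Cv C2 M) (A : Set M), F.G0 A univ → F.prod.G0 (Prod.fst ⁻¹' A) univ

-- deps:
def S_SLC : Prop := ∀ (M : Type) [TopologicalSpace M] [ChartedSpace C2 M]
  (Λ : OpenPartialHomeomorph (M × ℂ) (M × ℂ)) (τ : ℂ), Bi (C2 × ℂ) Λ → Fs Λ →
  ∃ μ : OpenPartialHomeomorph M M, Bi C2 μ ∧ μ.source = {y | (y, τ) ∈ Λ.source} ∧
    μ.target = {y | (y, τ) ∈ Λ.target} ∧ (∀ y, μ y = (Λ (y, τ)).1) ∧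
    (∀ y, μ.symm y = (Λ.symm (y, τ)).1) ∧
    ∀ (X Y : Type) [TopologicalSpace X] (F : Cv C2 M) (A : Set M) (B : Set (M × ℂ)) (q : X → Y)
      (r : M × ℂ → Y) (φ : F.Z × ℂ → X), Md F.prod (Prod.fst ⁻¹' A) B q r Λ φ →
      Md F A {y | (y, τ) ∈ B} q (fun y => r (y, τ)) μ fun x => φ (x, τ)

-- deps: SLC HL
def S_STEP : Prop := ∀ (M X Y : Type) [TopologicalSpace M] [ChartedSpace C2 M]
  [TopologicalSpace X] [TopologicalSpace Y] (F : Cv C2 M) (A : Set M) (B : Set (M × ℂ))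
  (q : X → Y) (W₀ : Set Y) (r : M × ℂ → Y) (μ : OpenPartialHomeomorph M M) (φ : F.Z → X)
  (Ψ : OpenPartialHomeomorph (M × ℂ) (M × ℂ)) (V : Set M) (D : Set ℂ) (τ : ℂ),
  IsCoveringMapOn q W₀ → Continuous r → (∀ w, w.2 ∈ D → w ∉ B → r w ∈ W₀) →
  Md F A {y | (y, τ) ∈ B} q (fun y => r (y, τ)) μ φ → Box B Ψ → IsOpen V → IsOpen D →
  Convex ℝ D → τ ∈ D → V ×ˢ D ⊆ Ψ.target →
  ∃ Λ φ', Fs Λ ∧ Md F.prod (Prod.fst ⁻¹' A) B q r Λ φ' ∧ ∀ w, w ∈ Λ.source ↔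
    w ∈ Ψ.source ∧ (Ψ w).1 ∈ V ∧ w.2 ∈ D ∧ (Ψ.symm ((Ψ w).1, τ)).1 ∈ μ.source

-- deps: STEP SLC
def S_PROP : Prop := ∀ (M : Type) [TopologicalSpace M] [ChartedSpace C2 M] [CompactSpace M]
  (F : Cv C2 M) (A : Set M) (B : Set (M × ℂ)) (r : M × ℂ → M) (U : Set ℂ) (t₀ : ℂ),
  IsCoveringMapOn F.π Aᶜ → Continuous r → (∀ w, w.2 ∈ U → w ∉ B → r w ∉ A) → IsOpen U →
  IsPreconnected U → (∀ w : M × ℂ, w.2 ∈ U → ∃ Ψ, Box B Ψ ∧ w ∈ Ψ.source) → t₀ ∈ U →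
  (∀ y, (y, t₀) ∈ B ↔ y ∈ A) → (∀ y, r (y, t₀) = y) → ∀ w ∈ Prod.snd ⁻¹' U,
    ∃ Λ φ, Fs Λ ∧ Md F.prod (Prod.fst ⁻¹' A) B F.π r Λ φ ∧ w ∈ Λ.source ∧
      Λ.source ⊆ Prod.snd ⁻¹' U

-- deps:
def S_SUBM : Prop := ∀ (M X Y : Type) [TopologicalSpace M] [ChartedSpace C2 M]
  [TopologicalSpace X] (F : Cv C2 M) (A B Ω : Set (M × ℂ)) (q : X → Y) (r : M × ℂ → Y)
  (G : Cv (C2 × ℂ) (M × ℂ)) (κ : G.Z → X), Asm F.prod A B Ω q r Fs G κ →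
  ∀ z, Function.Surjective (mfderiv 𝓘(ℂ, C2 × ℂ) 𝓘(ℂ, ℂ) (fun z => (G.π z).2) z)

-- deps: DIVC XT1 ASMG PRODG SLC
def S_FIB : Prop := ∀ (M : Type) [TopologicalSpace M] [ChartedSpace C2 M] [T2Space M]
  (F F' : Cv C2 M) (A : Set M) (B : Set (M × ℂ)) (r : M × ℂ → M) (U : Set ℂ) (t : ℂ)
  (G : Cv (C2 × ℂ) (M × ℂ)) (κ : G.Z → F.Z) (ψ : F'.Z → F.Z), IsOpen U → t ∈ U →
  Nonempty F'.Z → F.G0 A univ → ZL C2 A univ → F'.G0 {y | (y, t) ∈ B} univ →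
  ZL C2 {y | (y, t) ∈ B} univ → (∀ w, w.2 ∈ U → w ∉ B → r w ∉ A) →
  Asm F.prod (Prod.fst ⁻¹' A) B (Prod.snd ⁻¹' U) F.π r Fs G κ →
  Car F'.π F.π (fun y => r (y, t)) {y | (y, t) ∉ B} ψ →
  ∃ j : F'.Z → G.Z, Function.Injective j ∧ MDifferentiable 𝓘(ℂ, C2) 𝓘(ℂ, C2 × ℂ) j ∧
    (∀ x, Function.Injective (mfderiv 𝓘(ℂ, C2) 𝓘(ℂ, C2 × ℂ) j x)) ∧
    range j = (fun z => (G.π z).2) ⁻¹' {t}

-- deps: HL DIVC
def S_BACK : Prop := ∀ (Y X X' E E' : Type) [TopologicalSpace Y] [TopologicalSpace X]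
  [TopologicalSpace X'] [TopologicalSpace E] [TopologicalSpace E'] (B : Set (Y × ℂ)) (U : Set ℂ)
  (G : (Y × ℂ) × ℂ → Y × ℂ) (t t' τ : ℂ) (q : X → Y) (q' : X' → Y) (p : E → Y) (p' : E' → Y)
  (κ : E → X) (κ' : E' → X') (f : E' → E), Convex ℝ U → t ∈ U → t' ∈ U → τ ∈ U → Continuous G →
  (∀ w, G (w, w.2) = w) → (∀ x, x.1 ∉ B → G x ∉ B) →
  (∀ x : (Y × ℂ) × ℂ, x.1.2 ∈ U → x.2 ∈ U → (G x).2 = x.2) → Continuous q' →
  IsCoveringMapOn q {y | (y, t) ∉ B} → IsCoveringMapOn q' {y | (y, t') ∉ B} →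
  (∀ z, (p' z, τ) ∉ B → LH p' z) →
  Car p q (fun y => (G ((y, τ), t)).1) {y | (y, τ) ∉ B} κ →
  Car p' q' (fun y => (G ((y, τ), t')).1) {y | (y, τ) ∉ B} κ' →
  TI p' p {y | (y, τ) ∉ B} f → Nonempty (X' → E') →
  ∃ ψ, Car q' q (fun y => (G ((y, t'), t)).1) {y | (y, t') ∉ B} ψ

-- redeps: DMAIN TBOX ZLB TRANS PROP SLC ZCON ASMG PRODG SUBM FIB BACK COUNT COVG BCF

end Pool.Agent.P.MP_ab0431_ag.UB
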