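import Pool.Agent.P.MP_ab0431_ag.UB.IfaceT

/-! Statements on holomorphic functions with parameters: local product charts of a family of
plane curves. -/

set_option autoImplicit false
set_option linter.unusedSectionVars false

namespace Pool.Agent.P.MP_ab0431_ag.UB

open Polynomial Set Filter Topology

section

variable {P : Type} [NormedAddCommGroup P] [NormedSpace ℂ P]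

/-- Derivative in the first variable. -/
noncomputable def dz (h : ℂ × P → ℂ) (q : ℂ × P) : ℂ := fderiv ℂ h q (1, 0)

theorem hasDerivAt_dz {h : ℂ × P → ℂ} {z : ℂ} {p : P} (hd : DifferentiableAt ℂ h (z, p)) :
    HasDerivAt (fun x => h (x, p)) (dz h (z, p)) z :=
  hd.hasFDerivAt.comp_hasDerivAt z ((hasDerivAt_id z).prodMk (hasDerivAt_const z p))

theorem analyticAt_dz {h : ℂ × P → ℂ} {q : ℂ × P} (ha : AnalyticAt ℂ h q) :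
    AnalyticAt ℂ (dz h) q :=
  ((ContinuousLinearMap.apply ℂ ℂ ((1, 0) : ℂ × P)).analyticAt _).comp ha.fderiv

theorem dz_congr {h h' : ℂ × P → ℂ} {q : ℂ × P} (e : h =ᶠ[𝓝 q] h') : dz h =ᶠ[𝓝 q] dz h' :=
  e.fderiv.mono fun _ hx => by rw [dz, dz, hx]

end

/-- A biholomorphic chart over the parameter that straightens the zero set of `H`. -/
def Str3 (H : C2 × ℂ → ℂ) (p₀ : C2 × ℂ) : Prop :=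
  ∃ Ψ : OpenPartialHomeomorph (C2 × ℂ) (C2 × ℂ), p₀ ∈ Ψ.source ∧
    DifferentiableOn ℂ Ψ Ψ.source ∧ DifferentiableOn ℂ Ψ.symm Ψ.target ∧
    (∀ p ∈ Ψ.source, (Ψ p).2 = p.2) ∧ ∃ A : Set C2, ∀ p ∈ Ψ.source, (H p = 0 ↔ (Ψ p).1 ∈ A)

-- deps:
def S_RIEM : Prop := ∀ (E F : Type) [NormedAddCommGroup E] [NormedSpace ℂ E]
  [NormedAddCommGroup F] [NormedSpace ℂ F] [CompleteSpace F] (g : E → ℂ) (f : E → F) (z₀ : E)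
  (C : ℝ), AnalyticAt ℂ g z₀ → (∃ᶠ z in 𝓝 z₀, g z ≠ 0) →
  (∀ᶠ z in 𝓝 z₀, g z ≠ 0 → DifferentiableAt ℂ f z ∧ ‖f z‖ ≤ C) →
  ∃ f', AnalyticAt ℂ f' z₀ ∧ ∀ᶠ z in 𝓝 z₀, g z ≠ 0 → f' z = f z

-- deps:
def S_IFT1 : Prop := ∀ (P : Type) [NormedAddCommGroup P] [NormedSpace ℂ P] [CompleteSpace P]
  (h : ℂ × P → ℂ) (x₀ : ℂ) (p₀ : P), AnalyticAt ℂ h (x₀, p₀) → h (x₀, p₀) = 0 →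
  dz h (x₀, p₀) ≠ 0 → ∃ ξ : P → ℂ, AnalyticAt ℂ ξ p₀ ∧ ξ p₀ = x₀ ∧
    (∀ᶠ p in 𝓝 p₀, h (ξ p, p) = 0) ∧ ∀ᶠ q in 𝓝 (x₀, p₀), h q = 0 → q.1 = ξ q.2

-- deps: RIEM
def S_DIVA : Prop := ∀ (P : Type) [NormedAddCommGroup P] [NormedSpace ℂ P] (h : ℂ × P → ℂ)
  (ξ : P → ℂ) (p₀ : P), AnalyticAt ℂ h (ξ p₀, p₀) → AnalyticAt ℂ ξ p₀ →
  (∀ᶠ p in 𝓝 p₀, h (ξ p, p) = 0) →
  ∃ h', AnalyticAt ℂ h' (ξ p₀, p₀) ∧ ∀ᶠ q in 𝓝 (ξ p₀, p₀), h q = (q.1 - ξ q.2) * h' q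

-- deps:
def S_MINM : Prop := ∀ (P : Type) [NormedAddCommGroup P] [NormedSpace ℂ P] (a : ℂ × P → ℂ)
  (x₀ : ℂ) (p₀ : P), AnalyticAt ℂ a (x₀, p₀) → a (x₀, p₀) = 0 →
  (∀ᶠ x in 𝓝[≠] x₀, a (x, p₀) ≠ 0) → ∀ N ∈ 𝓝 x₀, ∀ᶠ p in 𝓝 p₀, ∃ x ∈ N, a (x, p) = 0

-- deps: DIVA MINM
def S_AFORM : Prop := ∀ (P : Type) [NormedAddCommGroup P] [NormedSpace ℂ P] (a : ℂ × P → ℂ)
  (ξ : P → ℂ) (p₀ : P), AnalyticAt ℂ a (ξ p₀, p₀) → AnalyticAt ℂ ξ p₀ →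
  (∀ᶠ q in 𝓝 (ξ p₀, p₀), a q = 0 → q.1 = ξ q.2) →
  ∃ (k : ℕ) (b : ℂ × P → ℂ), AnalyticAt ℂ b (ξ p₀, p₀) ∧ b (ξ p₀, p₀) ≠ 0 ∧
    ∀ᶠ q in 𝓝 (ξ p₀, p₀), a q = (q.1 - ξ q.2) ^ k * b q

-- deps: IFT1 MINM
def S_ROOT1 : Prop := ∀ (n nn : ℕ) (P : ℂ → ℂ[X]) (t₀ x₀ : ℂ),
  (∀ j, AnalyticAt ℂ (fun t => (P t).coeff j) t₀) →
  (∀ᶠ t in 𝓝 t₀, P t ≠ 0 ∧ (P t).natDegree = n ∧ (P t).roots.toFinset.card = nn) →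
  (P t₀).IsRoot x₀ → ∃ ξ : ℂ → ℂ, AnalyticAt ℂ ξ t₀ ∧ ξ t₀ = x₀ ∧
    ∀ᶠ q : ℂ × ℂ in 𝓝 (x₀, t₀), (P q.2).eval q.1 = 0 → q.1 = ξ q.2

-- deps:
def S_ROOTK : Prop := ∀ (E : Type) [NormedAddCommGroup E] [NormedSpace ℂ E] (b : E → ℂ) (p : E)
  (k : ℕ), AnalyticAt ℂ b p → b p ≠ 0 → k ≠ 0 →
  ∃ c : E → ℂ, AnalyticAt ℂ c p ∧ c p ≠ 0 ∧ ∀ᶠ q in 𝓝 p, c q ^ k = b q

-- deps: IFT1 DIVA ROOTK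
def S_MORSE : Prop := ∀ (P : Type) [NormedAddCommGroup P] [NormedSpace ℂ P] [CompleteSpace P]
  (H : ℂ × P → ℂ) (z₀ : ℂ) (p₀ : P), AnalyticAt ℂ H (z₀, p₀) → dz H (z₀, p₀) = 0 →
  dz (dz H) (z₀, p₀) ≠ 0 → ∃ (ζ : P → ℂ) (w : ℂ × P → ℂ), AnalyticAt ℂ ζ p₀ ∧ ζ p₀ = z₀ ∧
    AnalyticAt ℂ w (z₀, p₀) ∧ dz w (z₀, p₀) ≠ 0 ∧ (∀ᶠ p in 𝓝 p₀, dz H (ζ p, p) = 0) ∧
    ∀ᶠ q in 𝓝 (z₀, p₀), H q = H (ζ q.2, q.2) + w q ^ 2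

-- deps:
def S_COORD : Prop := ∀ (α : ℂ × ℂ → ℂ) (β : ℂ × ℂ × ℂ → ℂ) (p₀ : C2 × ℂ) (N : Set (C2 × ℂ)),
  AnalyticAt ℂ α (p₀.1 0, p₀.2) → AnalyticAt ℂ β (p₀.1 1, p₀.1 0, p₀.2) →
  dz α (p₀.1 0, p₀.2) ≠ 0 → dz β (p₀.1 1, p₀.1 0, p₀.2) ≠ 0 → N ∈ 𝓝 p₀ →
  ∃ Ψ : OpenPartialHomeomorph (C2 × ℂ) (C2 × ℂ), p₀ ∈ Ψ.source ∧ Ψ.source ⊆ N ∧
    DifferentiableOn ℂ Ψ Ψ.source ∧ DifferentiableOn ℂ Ψ.symm Ψ.target ∧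
    ∀ p ∈ Ψ.source, Ψ p = (![α (p.1 0, p.2), β (p.1 1, p.1 0, p.2)], p.2)

-- deps: COORD AFORM MORSE ROOTK
def S_TRIV0 : Prop := ∀ (H : ℂ × ℂ × ℂ → ℂ) (p₀ : C2 × ℂ),
  AnalyticAt ℂ H (p₀.1 1, p₀.1 0, p₀.2) →
  (H (p₀.1 1, p₀.1 0, p₀.2) ≠ 0 ∨ dz H (p₀.1 1, p₀.1 0, p₀.2) ≠ 0 ∨
    (dz (dz H) (p₀.1 1, p₀.1 0, p₀.2) ≠ 0 ∧ ∃ ξ : ℂ → ℂ, AnalyticAt ℂ ξ p₀.2 ∧ ξ p₀.2 = p₀.1 0 ∧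
      ∀ᶠ q in 𝓝 (p₀.1 1, p₀.1 0, p₀.2), H q = 0 → dz H q = 0 → q.2.1 = ξ q.2.2)) →
  Str3 (fun p => H (p.1 1, p.1 0, p.2)) p₀

-- deps: ROOT1 TOP DSEP
def S_TRD0 : Prop := ∀ (b m nn N : ℕ) (U : Set ℂ) (s : ℂ → Co b m → ℂ), Strip nn N U s →
  ∀ t₀ ∈ U, ∀ x₀ z₀ : ℂ, (toP (s t₀)).evalEval x₀ z₀ = 0 →
    (toP (s t₀)).derivative.evalEval x₀ z₀ = 0 → ∃ ξ : ℂ → ℂ, AnalyticAt ℂ ξ t₀ ∧ ξ t₀ = x₀ ∧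
      ∀ᶠ q : ℂ × ℂ × ℂ in 𝓝 (z₀, x₀, t₀), (toP (s q.2.2)).evalEval q.2.1 q.1 = 0 →
        (toP (s q.2.2)).derivative.evalEval q.2.1 q.1 = 0 → q.2.1 = ξ q.2.2

-- deps: TRIV0 TRD0 TOP DSEP PMEX BCF
def S_TRA : Prop := ∀ (b m nn N : ℕ) (U : Set ℂ) (s : ℂ → Co b m → ℂ), Strip nn N U s →
  ∀ t₀ ∈ U, ∀ v : Fin 3 → ℂ, v ≠ 0 → ∃ (i : Fin 3) (w : C2) (a : ℂ), v = a • i.insertNth 1 w ∧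
    Str3 (fun p => hom b (toP (s p.2)) (i.insertNth 1 p.1)) (w, t₀)

end Pool.Agent.P.MP_ab0431_ag.UB
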