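import Pool.Agent.P.MP_ab0431_ag.UB.BaseG

/-! Statements of the shared algebraic steps. -/

set_option autoImplicit false
set_option linter.unusedSectionVars false

namespace Pool.Agent.P.MP_ab0431_ag.UB

open Polynomial Set Filter Topology

/-- The top form of an element in degree `n`. -/
noncomputable def Dat.tp {R : Type} [CommRing R] {b : ℕ} (D : Dat R b) (n : ℕ) (o : D.A) :
    Fin b → R := fun i => if D.a i ≤ n then (o i).coeff (n - D.a i) else 0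

-- deps:
def S_NEWT : Prop := ∀ (R : Type) [CommRing R] (b : ℕ) (M : Matrix (Fin b) (Fin b) R) (k : ℕ),
  ∑ i ∈ Finset.range k, (if i ≤ b then M.charpoly.coeff (b - i) else 0) * (M ^ (k - i)).trace +
    k * (if k ≤ b then M.charpoly.coeff (b - k) else 0) = 0

-- deps: NEWT
def S_COMP : Prop := ∀ (R : Type) [CommRing R] (b : ℕ) (M : Matrix (Fin b) (Fin b) R),
  (∀ F : R[X], F.Monic → F.natDegree = b → (comp b F).charpoly = F) ∧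
  ∀ k, (comp b M.charpoly ^ k).trace = (M ^ k).trace

-- deps: COMP
def S_DISC : Prop := ∀ (R : Type) [CommRing R] (b : ℕ),
  (∀ (D : Str R b) (o : D.A), Δ b (D.ch o) = (D.N o).det ^ 2 * D.disc) ∧
  (∀ (D : Str R b) (y : Fin b → D.A), (Matrix.of fun i j => D.tr (y i * y j)).det =
    (Matrix.of fun i j => y i j).det ^ 2 * D.disc) ∧
  ∀ z : Fin b → R, Δ b (∏ i, (X - C (z i))) = (Matrix.vandermonde z).det ^ 2

-- deps: DISC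
def S_DSEP : Prop := ∀ (K : Type) [Field K] (b : ℕ) (F : K[X]), F.Monic → F.natDegree = b →
  (Δ b F ≠ 0 ↔ F.Separable)

-- deps:
def S_WDET : Prop := ∀ (R : Type) [CommRing R] (ι : Type) [Fintype ι] [DecidableEq ι]
  (M : Matrix ι ι R[X]) (r s : ι → ℤ), (∀ i j (n : ℕ), r i + s j < n → (M i j).coeff n = 0) →
  (∀ n : ℕ, ∑ i, (r i + s i) < n → M.det.coeff n = 0) ∧ ∀ n : ℕ, ∑ i, (r i + s i) = n →
    M.det.coeff n = (Matrix.of fun i j =>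
      if 0 ≤ r i + s j then (M i j).coeff (r i + s j).toNat else 0).det

-- deps: NEWT COMP WDET
def S_TOP : Prop := ∀ (R : Type) [CommRing R] (b m : ℕ) (F : R[X][X]), F.Monic →
  F.natDegree = b → WD b m F → (∀ n, m * (b * (b - 1)) < n → (Δ b F).coeff n = 0) ∧
    (Δ b F).coeff (m * (b * (b - 1))) = Δ b (top b m F)

-- deps:
def S_NIL : Prop := ∀ (R : Type) [CommRing R] [IsDomain R] (b : ℕ) (D : Str R b), D.disc ≠ 0 →
  (∀ o : D.A, (∀ y, D.tr (o * y) = 0) → o = 0) ∧ ∀ o : D.A, IsNilpotent o → o = 0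

-- deps:
def S_CHS : Prop := ∀ (R : Type) [CommRing R] (b : ℕ) (D : Str R b) (o : D.A),
  (∀ (g : R) j, (D.ch (g • o)).coeff j = g ^ (b - j) * (D.ch o).coeff j) ∧
  (0 < b → D.tr o = -(D.ch o).coeff (b - 1)) ∧
  (∀ l, D.tr (D.du l * o) = D.disc * o l) ∧ ∑ l, D.tr (o * D.e l) • D.du l = D.disc • o

-- deps:
def S_CHP : Prop := ∀ (R : Type) [CommRing R] (b : ℕ) (D : Str R b) (χ : Fin b → Fin b → R),
  (∀ j, D.IsPt (χ j)) → (D.disc = (Matrix.of χ).det ^ 2 ∨ ¬IsUnit (Matrix.of χ).det) ∧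
  (IsUnit (Matrix.of χ).det → ∀ o : D.A, D.ch o = ∏ j, (X - C (∑ i, o i * χ j i)) ∧
    D.tr o = ∑ j, ∑ i, o i * χ j i) ∧
  (IsUnit (Matrix.of χ).det → IsDomain R → ∀ χ', D.IsPt χ' → ∃ j, χ' = χ j)

-- deps: NIL
def S_SPLIT : Prop := ∀ (K : Type) [Field K] [IsAlgClosed K] (b : ℕ) (D : Str K b), D.disc ≠ 0 →
  ∃ χ : Fin b → Fin b → K, (∀ j, D.IsPt (χ j)) ∧ (Matrix.of χ).det ≠ 0

-- deps: SPLIT NIL CHP DISC
def S_SPLIT1 : Prop := ∀ (K : Type) [Field K] [IsAlgClosed K] (b : ℕ) (D : Dat K b) (x : K),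
  ¬(X - C x) ^ 2 ∣ D.P → ∃ (s : (D.fib x).A) (Z : Finset K), ((D.fib x).N s).det ≠ 0 ∧
    b ≤ Z.card + 1 ∧ ∀ z ∈ Z, ((D.fib x).ch s).IsRoot z

-- deps: WDET
def S_TUP : Prop := ∀ (R : Type) [CommRing R] (b : ℕ) (D : Dat R b), ∃ Dt : Str R b,
  Dt.disc = D.c ∧ D.Deg 0 1 ∧ D.tp 0 1 = Dt.u ∧
  (∀ n n' o o', D.Deg n o → D.Deg n' o' → D.Deg (n + n') (o * o') ∧
    D.tp (n + n') (o * o') = HMul.hMul (α := Dt.A) (β := Dt.A) (D.tp n o) (D.tp n' o')) ∧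
  (∀ n o, D.Deg n o → WD b n (D.ch o) ∧ top b n (D.ch o) = Dt.ch (D.tp n o)) ∧
  ∀ l, D.Deg (D.w - D.a l) (D.du l)

-- deps: TUP NIL
def S_LV : Prop := ∀ (K : Type) [Field K] (b n : ℕ) (D : Dat K b) (o : D.A),
  WD b n (D.ch o) → D.Deg n o

-- deps: DISC NEWT
def S_MAXS : Prop := ∀ (K : Type) [Field K] (b : ℕ) (D : Dat K b), D.P.Separable → D.toStr.Max

-- deps:
def S_CHI : Prop := ∀ (R K : Type) [CommRing R] [Field K] [Algebra R K] (b : ℕ)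
  (M : Matrix (Fin b) (Fin b) K) (f : R[X]), f.Monic → aeval M (f.map (algebraMap R K)) = 0 →
  ∀ j, IsIntegral R (M.charpoly.coeff j)

-- deps: CHI CHS
def S_MAXI : Prop := ∀ (K : Type) [Field K] (b : ℕ) (D : Str K[X] b) (g : K[X]) (o : D.A) (n : ℕ)
  (α : ℕ → D.A), g ≠ 0 → o ^ n + ∑ j ∈ Finset.range n, g ^ (n - j) • (α j * o ^ j) = 0 →
  ∀ j, g ^ (b - j) ∣ (D.ch o).coeff j

-- deps: CHS TUP
def S_DER : Prop := ∀ (R : Type) [CommRing R] (b : ℕ) (D : Dat R b), ∃ d : D.A →+ D.A,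
  (∀ y z, d (y * z) = y * d z + z * d y) ∧
  (∀ (g : R[X]) y, d (g • y) = (D.P * derivative g) • y + g • d y) ∧
  ∀ n y i k, D.Deg n y → n + D.w ≤ k + D.a i → (d y i).coeff k = 0

-- deps: COMP DISC TOP DSEP
def S_POWB : Prop := ∀ (K : Type) [Field K] (b m : ℕ) (F : K[X][X]), F.Monic → F.natDegree = b →
  WD b m F → (top b m F).Separable →
  ∃ (D : Dat K b) (z : D.A), (∀ j, D.a j = m * j) ∧ D.ch z = F ∧ D.toStr.N z = 1

-- deps: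
def S_HOM : Prop := ∀ (R : Type) [CommRing R] [IsDomain R] (b : ℕ) (D D' : Str R b)
  (f : D.A →ₐ[R] D'.A), Function.Injective f → ∀ o, D'.ch (f o) = D.ch o

-- deps: TUP LV NIL CHS MAXI HOM DISC WDET
def S_RED : Prop := ∀ (K : Type) [Field K] (b : ℕ) (D : Dat K b),
  ∃ (D' : Dat K b) (f : D.A →ₐ[K[X]] D'.A), D'.toStr.Max ∧ Function.Injective f

-- deps: POWB RED HOM LV
def S_NORM : Prop := ∀ (K : Type) [Field K] (b m : ℕ) (F : K[X][X]), F.Monic → F.natDegree = b →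
  WD b m F → (top b m F).Separable →
  ∃ (D : Dat K b) (s : D.A), D.toStr.Max ∧ D.Deg m s ∧ D.ch s = F ∧ (D.toStr.N s).det ≠ 0

-- deps:
def S_PHI : Prop := ∀ (R : Type) [CommRing R] (b m : ℕ) (D : Dat R b)
  (G : MvPolynomial (Co b m) R),
  (∀ l, MvPolynomial.eval l (D.Phi m G) = MvPolynomial.eval (co b m (D.ch (D.el m l))) G) ∧
  (∀ (R' : Type) [CommRing R'] (φ : R →+* R'),
    (D.map φ).Phi m (MvPolynomial.map φ G) = MvPolynomial.map φ (D.Phi m G)) ∧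
  (D.Phi m G).totalDegree ≤ b * G.totalDegree

-- deps:
def S_LIFTD : Prop := ∀ (R R' : Type) [CommRing R] [CommRing R'] (φ : R →+* R') (b : ℕ)
  (D : Dat R' b), Function.Injective φ → (∀ i j l n, (D.γ i j l).coeff n ∈ φ.range) →
  (∀ i n, (D.u i).coeff n ∈ φ.range) → (∀ n, D.P.coeff n ∈ φ.range) → (D.c : R') ∈ φ.range →
  ((D.c⁻¹ : R'ˣ) : R') ∈ φ.range → ∃ D₀ : Dat R b, D₀.map φ = D

-- deps:
def S_JC : Prop := ∀ (b m : ℕ) (a : Fin b → ℕ),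
  b * (m + 1) ≤ Fintype.card (J a m) + ∑ i, a i ∧
  (Fintype.card (J a m) + ∑ i, a i = b * (m + 1) ↔ ∀ i, a i ≤ m + 1)

-- deps:
def S_POLY : Prop := ∀ (f : ℂ → ℂ) (Z : Set ℂ) (c : ℝ) (n : ℕ), Z.Finite →
  (∀ x ∉ Z, DifferentiableAt ℂ f x) → (∀ x ∉ Z, ‖f x‖ ≤ c * (1 + ‖x‖) ^ n) →
  ∃ p : ℂ[X], p.natDegree ≤ n ∧ ∀ x ∉ Z, f x = p.eval x

-- deps: SPLIT CHP DISC DSEP
def S_PTS : Prop := ∀ (b : ℕ) (D : Dat ℂ b) (x₀ : ℂ),
  (D.P.eval x₀ ≠ 0 → ∃ χ : Fin b → ℂ → Fin b → ℂ, (∀ j, AnalyticAt ℂ (χ j) x₀) ∧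
    ∀ᶠ x in 𝓝 x₀, (∀ j, (D.fib x).IsPt (χ j x)) ∧ (Matrix.of fun j => χ j x).det ≠ 0) ∧
  ∀ (s : (D.fib x₀).A) (z₀ : ℂ), ((D.fib x₀).N s).det ≠ 0 → ((D.fib x₀).ch s).IsRoot z₀ →
    ¬((D.fib x₀).ch s).derivative.IsRoot z₀ → ∃ χ : ℂ → Fin b → ℂ, AnalyticAt ℂ χ x₀ ∧
      ∑ i, s i * χ x₀ i = z₀ ∧ ∀ᶠ x in 𝓝 x₀, (D.fib x).IsPt (χ x)

-- deps: POLY CHP CHS
def S_PINT : Prop := ∀ (b : ℕ) (D : Dat ℂ b) (Z : Set ℂ) (G : ℂ[X][X])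
  (f : ℂ → (Fin b → ℂ) → ℂ), D.toStr.Max → Z.Finite →
  (∀ x₀ ∉ Z, ∃ χ : Fin b → ℂ → Fin b → ℂ,
    (∀ j, AnalyticAt ℂ (χ j) x₀ ∧ AnalyticAt ℂ (fun x => f x (χ j x)) x₀) ∧
    ∀ᶠ x in 𝓝 x₀, (∀ j, (D.fib x).IsPt (χ j x)) ∧ (Matrix.of fun j => χ j x).det ≠ 0 ∧
      G.map (evalRingHom x) = ∏ j, (X - C (f x (χ j x)))) →
  ∃ o : D.A, D.ch o = G

-- deps:
def S_HYP : Prop := ∀ (K σ : Type) [Field K] [Fintype σ] (p q : Ideal (MvPolynomial σ K))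
  (f : MvPolynomial σ K), p.IsPrime → f ∉ p → q ∈ (p ⊔ Ideal.span {f}).minimalPrimes →
  dm q + 1 = dm p

end Pool.Agent.P.MP_ab0431_ag.UB
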