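import Pool.Agent.P.MP_ab0431_ag.UB.IfaceO

/-! Statements at the boundaries of the blocks. -/

set_option autoImplicit false
set_option linter.unusedSectionVars false

namespace Pool.Agent.P.MP_ab0431_ag.UB

open Polynomial Set Filter Topology

-- deps:
def S_PMEX : Prop := Nonempty PM

-- deps:
def S_AALG : Prop := ∀ (S : RS) (z τ : S.R → ℂ), S.Gen z τ →
  ∃ (w : ℕ) (c : Co S.inf.ncard 6 → ℂ), w ≤ {r | S.ν r = 2}.ncard ∧ c ∈ Y0 S.inf.ncard w 6 ∧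
    Good c ∧ (∀ x, (S.fb x).Finite ∧
      (toP c).map (evalRingHom x) = ∏ᶠ r ∈ S.fb x, (X - C (z r)) ^ S.ν r) ∧
    S.inf.Finite ∧ top S.inf.ncard 1 (toP c) = ∏ᶠ r ∈ S.inf, (X - C (τ r))

-- deps:
def S_AMAIN : Prop := ∀ (Q : PM) (m : ℕ), 0 < m → ∃ C : ℕ, ∀ (y : ℕ) (X : Surf),
  VeryAmple X.X m → KsqLe X.X y → ∃ (b w d : ℕ) (c : Co b 6 → ℂ), b ≤ C * y ∧ w ≤ C * y ∧
    d ≤ C * y ∧ c ∈ Y0 b w 6 ∧ Good c ∧ IsCov Q X (Bc Q c) d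

-- deps:
def S_LINE0 : Prop := ∀ (k K : Type) [Field k] [CharZero k] [Field K] [Algebra k K] (b m κ : ℕ)
  (t : K) (W g : k[X]) (D : Dat K b) (G : MvPolynomial (Co b m) k) (S : Finset k),
  Transcendental k t → W ≠ 0 → g.Separable → D.P = g.map (algebraMap k K) * (X - C t) →
  (∀ i j l n, IntOver k t W ((D.γ i j l).coeff n)) → (∀ i n, IntOver k t W ((D.u i).coeff n)) →
  IntOver k t W (D.c : K) → IntOver k t W ((D.c⁻¹ : Kˣ) : K) → G.totalDegree ≤ κ →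
  b * κ * del b m < S.card → (∀ s ∈ S, W.eval s ≠ 0 ∧ ∀ α, ∃ ψ, IntOver k t W ψ ∧
    (D.Phi m (MvPolynomial.map (algebraMap k K) G)).coeff α = (t - algebraMap k K s) * ψ) →
  D.Phi m (MvPolynomial.map (algebraMap k K) G) = 0

-- deps:
def S_SLIT : Prop := ∀ (Z : Finset ℂ) (d n : ℕ) (E : Fin n → Type) [∀ i, TopologicalSpace (E i)]
  (p : ∀ i, E i → ℂ), (d ^ 2 + 1) ^ Z.card < n → (∀ i, IsCoveringMapOn (p i) (Z : Set ℂ)ᶜ) →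
  (∀ i, ∀ x ∉ Z, (p i ⁻¹' {x}).encard = d) →
  (∀ i, ∀ x₀ ∈ Z, ∃ (s : Fin (d - 2) → ℂ → E i) (ε : ℝ), 0 < ε ∧
    (∀ l, ContinuousOn (s l) (Metric.ball x₀ ε \ {x₀})) ∧
    ∀ x ∈ Metric.ball x₀ ε \ {x₀}, (∀ l, p i (s l x) = x) ∧ Function.Injective fun l => s l x) →
  ∃ i j, i ≠ j ∧ ∃ f, TI (p i) (p j) (Z : Set ℂ)ᶜ f

-- deps:
def S_HUR : Prop := ∀ (b m : ℕ) (P : ℂ[X]), P.Separable →
  {T | ∃ D : Dat ℂ b, D.P = P ∧ T = D.Tset m}.encard ≤ ((b ^ 2 + 1) ^ P.natDegree : ℕ)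

-- deps:
def S_BMAIN : Prop := ∀ b w m : ℕ, ∃ (I : Ideal (MvPolynomial (Co b m) ℂ)) (n : ℕ),
  n ≤ w + b * (m + 1) ∧ (∀ κ, 1 ≤ κ → HF I κ ≤ Gam b w m * κ ^ n) ∧ ∀ c ∈ Y0 b w m,
    ∃ p : Ideal (MvPolynomial (Co b m) ℂ), p.IsPrime ∧ I ≤ p ∧ n ≤ dm p ∧
      c ∈ MvPolynomial.zeroLocus ℂ p

-- deps:
def S_CMAIN : Prop := ∀ (b m n Γ nn N : ℕ) (I : Ideal (MvPolynomial (Co b m) ℂ)) (ι : Type)
  [Fintype ι] (c : ι → Co b m → ℂ), (∀ κ, 1 ≤ κ → HF I κ ≤ Γ * κ ^ n) →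
  (∀ i, ∃ p : Ideal (MvPolynomial (Co b m) ℂ), p.IsPrime ∧ I ≤ p ∧ n ≤ dm p ∧
    c i ∈ MvPolynomial.zeroLocus ℂ p) → (∀ i, Good (c i) ∧ nr (c i) = nn) →
  (64 * n * (b + 1) ^ 4) ^ n * Γ * N < Fintype.card ι →
  ∃ (f : Fin (N + 1) → ι) (U : Set ℂ) (s : ℂ → Co b m → ℂ), Function.Injective f ∧
    Strip nn N U s ∧ ∀ j : Fin (N + 1), s j = c (f j)

-- deps:
def S_COUNT : Prop := ∀ (Q : PM) (b m d n : ℕ) (c : Co b m → ℂ) (F : Fin n → Cv C2 Q.Y),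
  Good c → (d ^ 2 + 1) ^ b < n → (∀ i, (F i).G0 (Bc Q c) univ) →
  (∀ i, (F i).G1 (Bc Q c) d (fun _ => 0) univ) →
  ∃ i j, i < j ∧ ∃ f, TI (F j).π (F i).π (Bc Q c)ᶜ f

-- deps:
def S_DMAIN : Prop := ∀ (Q : PM) (b m d nn N : ℕ) (U : Set ℂ) (s : ℂ → Co b m → ℂ)
  (X : Fin (N + 1) → Surf), Strip nn N U s → (d ^ 2 + 1) ^ b ≤ N →
  (∀ j : Fin (N + 1), IsCov Q (X j) (Bc Q (s j)) d) → ∃ i j, i ≠ j ∧ OneFamily (X i) (X j)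

-- deps:
def S_ARITH : Prop := ∀ C : ℕ, ∃ C' : ℕ, ∀ y b w d n : ℕ, b ≤ C * y → w ≤ C * y → d ≤ C * y →
  n ≤ w + b * 7 → (C * y + 1) ^ 3 * ((C * y) ^ 2 + 1) *
    ((64 * n * (b + 1) ^ 4) ^ n * Gam b w 6 * (d ^ 2 + 1) ^ b) ≤ (y + 2) ^ (C' * (y + 1))

-- deps: PMEX AMAIN BMAIN CMAIN DMAIN ARITH TOP
def S_MAIN : Prop := ∀ m : ℕ, 0 < m → ∃ C : ℕ, ∀ (y n : ℕ) (X : Fin n → Surf),
  (y + 2) ^ (C * (y + 1)) < n → (∀ i, VeryAmple (X i).X m ∧ KsqLe (X i).X y) →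
  ∃ i j, i ≠ j ∧ OneFamily (X i) (X j)

end Pool.Agent.P.MP_ab0431_ag.UB
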