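import Pool.Agent.P.MP_ab0431_ag.UB.IfaceT
import Pool.Agent.P.MP_6f117a_ag.Curve

/-! The Gauss valuation and integral elements of a cover of the line. -/

set_option autoImplicit false
set_option linter.unusedSectionVars false

namespace Pool.Agent.P.MP_ab0431_ag.UB

open Polynomial WithZero
open MP_6f117a_ag (Place)

theorem v_det_le {R ι : Type} [CommRing R] [Fintype ι] [DecidableEq ι] (v : Valuation R ℤᵐ⁰)
    {M : Matrix ι ι R} {γ : ℤᵐ⁰} (h : ∀ i j, v (M i j) ≤ γ) : v M.det ≤ γ ^ Fintype.card ι := by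
  rw [Matrix.det_apply']
  refine v.map_sum_le fun σ _ => ?_
  have h1 : v ((Equiv.Perm.sign σ : ℤ) : R) = 1 := by
    rcases Int.units_eq_one_or (Equiv.Perm.sign σ) with e | e <;> simp [e]
  rw [map_mul, h1, one_mul, map_prod, ← Finset.card_univ, ← Finset.prod_const]
  exact Finset.prod_le_prod' fun i _ => h _ _

theorem v_det_le_one {R ι : Type} [CommRing R] [Fintype ι] [DecidableEq ι] (v : Valuation R ℤᵐ⁰)
    {M : Matrix ι ι R} (h : ∀ i j, v (M i j) ≤ 1) : v M.det ≤ 1 := by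
  simpa using v_det_le v h

theorem v_adj_le_one {R ι : Type} [CommRing R] [Fintype ι] [DecidableEq ι] (v : Valuation R ℤᵐ⁰)
    {M : Matrix ι ι R} (h : ∀ i j, v (M i j) ≤ 1) (i j : ι) : v (M.adjugate i j) ≤ 1 := by
  rw [Matrix.adjugate_apply]
  refine v_det_le_one v fun a c => ?_
  rw [Matrix.updateRow_apply]
  split_ifs
  · rw [Pi.single_apply]; split_ifs <;> simp
  · exact h _ _

section

variable {K : Type} [Field K] (v : Valuation K ℤᵐ⁰)

/-- the largest value of a coefficient -/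
noncomputable def gs (f : K[X]) : ℤᵐ⁰ := f.support.sup fun n => v (f.coeff n)

theorem gs_le {f : K[X]} {γ : ℤᵐ⁰} : gs v f ≤ γ ↔ ∀ n, v (f.coeff n) ≤ γ := by
  rw [gs, Finset.sup_le_iff]
  refine ⟨fun h n => ?_, fun h n _ => h n⟩
  by_cases e : f.coeff n = 0
  · simp [e]
  · exact h n (mem_support_iff.2 e)

theorem gs_min {f : K[X]} (h : gs v f ≠ 0) :
    ∃ i, v (f.coeff i) = gs v f ∧ ∀ j < i, v (f.coeff j) < gs v f := by
  classical
  have h1 : ∃ i, v (f.coeff i) = gs v f := by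
    obtain ⟨i, -, hi⟩ := f.support.exists_mem_eq_sup (support_nonempty.2 fun e => h (by
      simp [gs, e])) fun n => v (f.coeff n)
    exact ⟨i, hi.symm⟩
  exact ⟨Nat.find h1, Nat.find_spec h1, fun j hj =>
    ((gs_le v).1 le_rfl j).lt_of_ne (Nat.find_min h1 hj)⟩

theorem gs_mul (f g : K[X]) : gs v (f * g) = gs v f * gs v g := by
  classical
  have hf := (gs_le v (f := f)).1 le_rfl
  have hg := (gs_le v (f := g)).1 le_rfl
  refine le_antisymm ((gs_le v).2 fun n => ?_) ?_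
  · rw [coeff_mul]
    exact v.map_sum_le fun p _ => by rw [map_mul]; exact mul_le_mul' (hf _) (hg _)
  by_cases h : gs v f * gs v g = 0
  · rw [h]; exact zero_le
  obtain ⟨i, i1, i2⟩ := gs_min v (left_ne_zero_of_mul h)
  obtain ⟨j, j1, j2⟩ := gs_min v (right_ne_zero_of_mul h)
  refine le_of_eq_of_le ?_ ((gs_le v).1 le_rfl (i + j))
  rw [coeff_mul, v.map_sum_eq_of_lt (j := (i, j)) (by simp), map_mul, i1, j1]
  rintro ⟨a, c⟩ hp
  have h1 : a + c = i + j := by simpa using (Finset.mem_sdiff.1 hp).1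
  have h2 : ¬ (a = i ∧ c = j) := by simpa using (Finset.mem_sdiff.1 hp).2
  rw [map_mul, map_mul, i1, j1]
  by_cases ha : a < i
  · exact mul_lt_mul_of_lt_of_le_of_nonneg_of_pos (i2 a ha) (hg _) zero_le
      (zero_lt_iff.2 (right_ne_zero_of_mul h))
  · exact mul_lt_mul_of_le_of_lt_of_nonneg_of_pos (hf _) (j2 c (by omega)) zero_le
      (zero_lt_iff.2 (left_ne_zero_of_mul h))

theorem gs_monomial (n : ℕ) (a : K) : gs v (monomial n a) = v a :=
  le_antisymm ((gs_le v).2 fun m => by rw [coeff_monomial]; split_ifs <;> simp)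
    (by simpa using (gs_le v (f := monomial n a)).1 le_rfl n)

/-- the Gauss valuation -/
noncomputable def gv : Valuation K[X] ℤᵐ⁰ where
  toFun := gs v
  map_zero' := by simp [gs]
  map_one' := by simpa using gs_monomial v 0 1
  map_mul' := gs_mul v
  map_add_le_max' f g := (gs_le v).2 fun n => by
    rw [coeff_add]
    exact v.map_add_le (((gs_le v).1 le_rfl n).trans (le_max_left _ _))
      (((gs_le v).1 le_rfl n).trans (le_max_right _ _))

theorem gv_le {f : K[X]} {γ : ℤᵐ⁰} : gv v f ≤ γ ↔ ∀ n, v (f.coeff n) ≤ γ := gs_le v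

theorem le_gv (f : K[X]) (n : ℕ) : v (f.coeff n) ≤ gv v f := (gv_le v).1 le_rfl n

theorem gv_monomial (n : ℕ) (a : K) : gv v (monomial n a) = v a := gs_monomial v n a

@[simp] theorem gv_C (a : K) : gv v (C a) = v a := gs_monomial v 0 a

@[simp] theorem gv_X : gv v X = 1 := (gs_monomial v 1 1).trans v.map_one

theorem gv_eq_zero {f : K[X]} : gv v f = 0 ↔ f = 0 :=
  ⟨fun h => Polynomial.ext fun n => by simpa [h] using le_gv v f n, fun h => h ▸ map_zero _⟩

theorem gv_monic {f : K[X]} (h : f.Monic) : 1 ≤ gv v f := by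
  simpa [h.coeff_natDegree] using le_gv v f f.natDegree

theorem v_eval_le {x : K} (hx : v x ≤ 1) (f : K[X]) : v (f.eval x) ≤ gv v f := by
  rw [eval_eq_sum_range]
  refine v.map_sum_le fun n _ => ?_
  rw [map_mul, map_pow]
  exact (mul_le_of_le_one_right' (pow_le_one₀ zero_le hx)).trans (le_gv v f n)

theorem gv_taylor_le {x : K} (hx : v x ≤ 1) (f : K[X]) : gv v (taylor x f) ≤ gv v f := by
  rw [taylor_apply, comp_eq_sum_left, sum_def]
  refine (gv v).map_sum_le fun n _ => ?_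
  rw [map_mul, map_pow, gv_C]
  exact (mul_le_of_le_one_right' (pow_le_one₀ zero_le
    ((gv v).map_add_le (gv_X v).le (by simpa using hx)))).trans (le_gv v f n)

theorem gv_taylor {x : K} (hx : v x ≤ 1) (f : K[X]) : gv v (taylor x f) = gv v f :=
  le_antisymm (gv_taylor_le v hx f) (by
    simpa [taylor_taylor] using gv_taylor_le v (x := -x) (by simpa using hx) (taylor x f))

variable {b : ℕ} (D : Str K[X] b)

/-- the integral elements -/
noncomputable def In : Subalgebra (gv v).integer D.A := integralClosure _ _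

variable {v D}

theorem In.smul {g : K[X]} {o : D.A} (hg : gv v g ≤ 1) (h : o ∈ In v D) : g • o ∈ In v D :=
  (In v D).smul_mem h (⟨g, hg⟩ : (gv v).integer)

theorem in_of_ch {o : D.A} (h : ∀ j, gv v ((D.ch o).coeff j) ≤ 1) : o ∈ In v D := by
  obtain ⟨q, h1, -, h2⟩ := lifts_and_natDegree_eq_and_monic (p := D.ch o)
    (f := algebraMap (gv v).integer K[X]) ((lifts_iff_coeff_lifts _).2 fun j => ⟨⟨_, h j⟩, rfl⟩)
    (D.ch_monic o)
  exact ⟨q, h2, by rw [← aeval_def, ← aeval_map_algebraMap K[X], h1, D.aeval_ch]⟩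

theorem In.ch (hCHI : S_CHI) {o : D.A} (h : o ∈ In v D) (j : ℕ) :
    gv v ((D.ch o).coeff j) ≤ 1 := by
  obtain ⟨q, h1, h2⟩ := h
  let φ := algebraMap K[X] (FractionRing K[X])
  have h3 := hCHI (gv v).integer (FractionRing K[X]) b ((D.L o).map φ) q h1 (by
    have h4 : aeval (D.L o) (q.map (algebraMap _ K[X])) = 0 := by
      rw [aeval_algHom_apply, aeval_map_algebraMap, aeval_def, h2, map_zero]
    have h5 := congrArg φ.mapMatrix h4
    rw [aeval_def, hom_eval₂, map_zero, eval₂_map] at h5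
    rw [aeval_def, eval₂_map, ← h5]
    congr 1
    ext x i j
    by_cases e : i = j <;> simp [e, φ, Matrix.algebraMap_matrix_apply,
      IsScalarTower.algebraMap_apply (gv v).integer K[X] (FractionRing K[X])]) j
  rw [Matrix.charpoly_map, coeff_map,
    isIntegral_algebraMap_iff (IsFractionRing.injective _ _)] at h3
  exact (Valuation.integer.integers (gv v)).mem_of_integral h3

theorem In.tr (hCHI : S_CHI) (hCHS : S_CHS) {o : D.A} (h : o ∈ In v D) : gv v (D.tr o) ≤ 1 := by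
  rcases b.eq_zero_or_pos with rfl | hb
  · simp [Str.tr_apply, Matrix.trace]
  · rw [(hCHS _ b D o).2.1 hb, Valuation.map_neg]
    exact In.ch hCHI h _

theorem in_of_L {o : D.A} (h : ∀ i j, gv v (D.L o i j) ≤ 1) : o ∈ In v D := in_of_ch fun j => by
  let M : Matrix (Fin b) (Fin b) (gv v).integer := fun i j => ⟨_, h i j⟩
  have : D.L o = M.map (gv v).integer.subtype := rfl
  rw [Str.ch, this, Matrix.charpoly_map, coeff_map]
  exact (M.charpoly.coeff j).2

theorem in_of_coord (hγ : ∀ i j l, gv v (D.γ i j l) ≤ 1) {o : D.A} (h : ∀ i, gv v (o i) ≤ 1) :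
    o ∈ In v D := in_of_L fun i j => by
  rw [Str.L_apply]
  exact (gv v).map_sum_le fun l _ => by rw [map_mul]; exact mul_le_one' (h l) (hγ _ _ _)

theorem coord_mul (hγ : ∀ i j l, gv v (D.γ i j l) ≤ 1) {o o' : D.A} (h : ∀ i, gv v (o i) ≤ 1)
    (h' : ∀ i, gv v (o' i) ≤ 1) (l : Fin b) : gv v ((o * o') l) ≤ 1 := by
  rw [Str.mul_apply]
  exact (gv v).map_sum_le fun i _ => (gv v).map_sum_le fun j _ => by
    rw [map_mul, map_mul]; exact mul_le_one' (mul_le_one' (h i) (h' j)) (hγ _ _ _)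

end

section

variable {k K : Type} [Field k] [Field K] [Algebra k K] (P : Place k K) {b : ℕ}

theorem v_πz (n : ℤ) : P.v (P.π ^ n) = exp (-n) := by
  rw [map_zpow₀, P.v_π, ← exp_zsmul]; simp

theorem v_πn (n : ℕ) : P.v (P.π ^ n) = exp (-n : ℤ) := by rw [← zpow_natCast, v_πz]

theorem exists_exp {ι : Type} [Finite ι] (γ : ι → ℤᵐ⁰) : ∃ N : ℕ, ∀ i, γ i ≤ exp (N : ℤ) := by
  obtain ⟨N, hN⟩ := (Set.finite_range fun i => (log (γ i)).toNat).bddAbove
  refine ⟨N, fun i => ?_⟩
  by_cases h : γ i = 0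
  · simp [h]
  · rw [← exp_log h, exp_le_exp]
    have := hN ⟨i, rfl⟩
    simp only at this
    omega

theorem exists_in (D : Str K[X] b) (o : D.A) : ∃ N : ℕ, C (P.π ^ N) • o ∈ In P.v D := by
  obtain ⟨N, hN⟩ := exists_exp fun p : Fin b × Fin b => gv P.v (D.L o p.1 p.2)
  refine ⟨N, in_of_L fun i j => ?_⟩
  rw [map_smul, Matrix.smul_apply, smul_eq_mul, map_mul, gv_C, v_πn]
  refine (mul_le_mul_right (hN (i, j)) _).trans ?_
  rw [← exp_add]; simp

theorem gv_map (g : k[X]) : gv P.v (g.map (algebraMap k K)) ≤ 1 :=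
  (gv_le _).2 fun n => by rw [coeff_map]; exact P.triv _

variable (k K) in
/-- the product formula -/
def PF : Prop :=
  ∀ x : K, x ≠ 0 → {P : Place k K | P.v x ≠ 1}.Finite ∧
    ∀ Z : Finset (Place k K), (∀ P, P.v x ≠ 1 → P ∈ Z) → ∑ P ∈ Z, log (P.v x) = 0

/-- integral structure constants -/
def Gd (D : Str K[X] b) : Prop := (∀ i j l, gv P.v (D.γ i j l) ≤ 1) ∧ ∀ i, gv P.v (D.u i) ≤ 1

variable (k) in
/-- a basis of the elements of degree at most `m` whose poles have order at most `n` -/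
def HB (D : Dat K b) (m : ℕ) (n : Place k K → ℕ) : Prop :=
  ∃ ε : J D.a m → D.A, (∀ j, D.Deg m (ε j)) ∧
    (∀ o, D.Deg m o → ∃ l : J D.a m → K, o = ∑ j, C (l j) • ε j) ∧
    ∀ (P : Place k K) j, C (P.π ^ n P) • ε j ∈ In P.v D.toStr

variable (k) in
/-- the fibres over `m + 1` constants split -/
def Pts (D : Dat K b) (m : ℕ) : Prop :=
  ∃ x : Fin (m + 1) → k, Function.Injective x ∧ ∀ r, ∃ χ : Fin b → Fin b → K,
    (∀ j, (D.fib (algebraMap k K (x r))).IsPt (χ j)) ∧ (Matrix.of χ).det ≠ 0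

/-- integral over `k[t]` after inverting `W(t)` -/
def IntP (t : K) (W : k[X]) (x : K) : Prop :=
  ∃ (n : ℕ) (f : k[X][X]), f.Monic ∧ f.eval₂ (aeval t : k[X] →ₐ[k] K) (aeval t W ^ n * x) = 0

/-- regular wherever `t` and the inverse of `W(t)` are -/
def RegW (t : K) (W : k[X]) (x : K) : Prop :=
  ∀ P : Place k K, P.v t ≤ 1 → P.v (aeval t W) = 1 → P.v x ≤ 1

end

section

variable {K : Type} [Field K] {b : ℕ}

/-- congruent modulo `x ^ m₁` to an element of degree at most `m₀` -/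
def Triv (D : Dat K b) (m₀ m₁ : ℕ) (o : D.A) : Prop :=
  ∃ α β : D.A, D.Deg m₀ α ∧ o = α + (X ^ m₁ : K[X]) • β

theorem triv_iff {D : Dat K b} {m₀ m₁ : ℕ} {o : D.A} :
    Triv D m₀ m₁ o ↔ ∀ i n, n < m₁ → m₀ < n + D.a i → (o i).coeff n = 0 := by
  refine ⟨fun ⟨α, β, h, e⟩ i n h1 h2 => ?_, fun h =>
    ⟨fun i => o i %ₘ X ^ m₁, fun i => o i /ₘ X ^ m₁, fun i n h2 => ?_,
      funext fun i => (modByMonic_add_div _ _).symm⟩⟩
  · rw [e, Str.add_apply, Str.smul_apply, coeff_add, h i n h2, coeff_X_pow_mul', if_neg h1.not_ge,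
      add_zero]
  · by_cases h1 : n < m₁
    · have := congrArg (coeff · n) (modByMonic_add_div (o i) (X ^ m₁))
      simp only [coeff_add, coeff_X_pow_mul', if_neg h1.not_ge, add_zero] at this
      exact this.trans (h i n h1 h2)
    · refine coeff_eq_zero_of_degree_lt ((degree_modByMonic_lt _ (monic_X_pow m₁)).trans_le ?_)
      rw [degree_X_pow]
      exact Nat.cast_le.2 (not_lt.1 h1)

/-- the complement of `J` -/
abbrev I2 (a : Fin b → ℕ) (m : ℕ) : Type :=
  {p : Fin b × Fin (m + 1) // ¬ (p.2 : ℕ) + a p.1 ≤ m}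

theorem el_sum (D : Dat K b) (m : ℕ) {ι : Type} (s : Finset ι) (c : ι → K) (l : ι → J D.a m → K) :
    D.el m (∑ i ∈ s, c i • l i) = ∑ i ∈ s, C (c i) • D.el m (l i) := by
  ext i : 1
  simp only [Dat.el, Str.sum_apply, Str.smul_apply, Finset.mul_sum, Finset.sum_apply,
    Pi.smul_apply, smul_eq_mul]
  rw [Finset.sum_comm]
  refine Finset.sum_congr rfl fun p _ => ?_
  split_ifs <;> simp [C_mul_monomial]

theorem el_smul (D : Dat K b) (m : ℕ) (c : K) (l : J D.a m → K) :
    D.el m (c • l) = C c • D.el m l := by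
  simpa using el_sum D m {()} (fun _ => c) fun _ => l

theorem disc_ne (D : Dat K b) : D.disc ≠ 0 := by
  rw [D.hd]
  exact mul_ne_zero (C_ne_zero.2 D.c.ne_zero) D.P_monic.ne_zero

theorem deg_sum {D : Dat K b} {m : ℕ} {ι : Type} (s : Finset ι) (c : ι → K) {o : ι → D.A}
    (h : ∀ i ∈ s, D.Deg m (o i)) : D.Deg m (∑ i ∈ s, C (c i) • o i) := fun i n hn => by
  rw [Str.sum_apply, finsetSum_coeff]
  exact Finset.sum_eq_zero fun j hj => by rw [Str.smul_apply, coeff_C_mul, h j hj i n hn, mul_zero]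

theorem deg_pow (hTUP : S_TUP) {D : Dat K b} {m : ℕ} {o : D.A} (h : D.Deg m o) (j : ℕ) :
    D.Deg (j * m) (o ^ j) := by
  obtain ⟨_, -, h1, -, h2, -⟩ := hTUP K b D
  induction j with
  | zero => simpa using h1
  | succ j ih => rw [pow_succ, add_mul, one_mul]; exact (h2 _ _ _ _ ih h).1

theorem deg_tr (hTUP : S_TUP) (hCHS : S_CHS) {D : Dat K b} {m : ℕ} {o : D.A} (h : D.Deg m o)
    {n : ℕ} (hn : m < n) : (D.tr o).coeff n = 0 := by
  obtain ⟨_, -, -, -, -, h2, -⟩ := hTUP K b D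
  rcases b.eq_zero_or_pos with rfl | hb
  · simp [Str.tr_apply, Matrix.trace]
  · rw [(hCHS _ b D.toStr o).2.1 hb, coeff_neg, (h2 m o h).1 _ n
      (by rwa [show b - (b - 1) = 1 by omega, mul_one]), neg_zero]

theorem charA (D : Str K[X] b) (p : ℕ) [CharP K p] [Nontrivial D.A] : CharP D.A p :=
  charP_of_injective_ringHom ((algebraMap K[X] D.A).comp C).injective p

theorem frob_sum (D : Str K[X] b) {p : ℕ} (hp : p.Prime) [CharP K p] (s : ℕ) {ι : Type}
    (S : Finset ι) (f : ι → D.A) : (∑ i ∈ S, f i) ^ p ^ s = ∑ i ∈ S, f i ^ p ^ s := by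
  rcases subsingleton_or_nontrivial D.A with h | h
  · exact Subsingleton.elim _ _
  have := charA D p
  have := Fact.mk hp
  exact sum_pow_char_pow p s S f

theorem frob_add (D : Str K[X] b) {p : ℕ} (hp : p.Prime) [CharP K p] (s : ℕ) (x y : D.A) :
    (x + y) ^ p ^ s = x ^ p ^ s + y ^ p ^ s := by
  rcases subsingleton_or_nontrivial D.A with h | h
  · exact Subsingleton.elim _ _
  have := charA D p
  have := Fact.mk hp
  exact add_pow_char_pow x y p s

end

end Pool.Agent.P.MP_ab0431_ag.UB
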