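import Pool.Agent.P.MP_ab0431_ag.UB.IfaceA2
import Pool.Agent.P.MP_ab0431_ag.UB.IfaceA
import Pool.Agent.P.MP_ab0431_ag.UB.IfaceO
import Pool.Agent.P.MP_ab0431_ag.UB.IfaceT

/-! Steps APROP ASHG ASH1 AGRO ACF ATOP ACH0 ASH2 ACHR AGOOD AREP APIN AORD APS AYN ARB ANS1 ANSP AALG. -/

set_option autoImplicit false
set_option linter.unusedSectionVars false
set_option linter.unusedVariables false

namespace Pool.Agent.P.MP_ab0431_ag.UB

open Polynomial Set Filter Topology Asymptotics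

theorem src_aprop (S : RS) (x : ℂ) (r : S.R) :
    ∀ᶠ z : ℂ × S.R in 𝓝 (x, r), z.2 ∈ (S.ψ r).source :=
  continuousAt_snd.eventually ((S.ψ r).open_source.mem_nhds (S.mem r))

theorem psi_aprop (S : RS) (x : ℂ) (r : S.R) :
    Tendsto (fun z : ℂ × S.R => S.ψ r z.2) (𝓝 (x, r)) (𝓝 0) :=
  (S.tendsto_ψ r).comp continuousAt_snd

theorem p_APROP :
    S_APROP := by
  refine fun S => ⟨fun x₀ W hW h => ?_, fun W hW h => ?_⟩
  · refine (hW.isClosed_compl.isCompact.eventually_forall_of_forall_eventually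
      (P := fun x r => r ∉ S.fb x) fun r hr => ?_).mono fun x hx r hr => by_contra (hx r · hr)
    have h1 : Tendsto (fun z : ℂ × S.R => z.1) (𝓝 (x₀, r)) (𝓝 x₀) := continuousAt_fst
    by_cases hi : r ∈ S.inf
    · filter_upwards [src_aprop S x₀ r, (h1.mul (psi_aprop S x₀ r)).eventually_ne
        (show x₀ * 0 ≠ 1 by simp)] with z h2 h3 h4
      by_cases e : z.2 = r
      · exact h4.1 (e ▸ hi)
      · exact h3 (h4.2 ▸ ((S.atinf r hi).2 _ h2 e).2)
    · have h0 : S.xx r + 0 ^ S.ν r - x₀ ≠ 0 := fun e => hr (h ⟨hi, by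
        rwa [zero_pow (S.ν_ne r), add_zero, sub_eq_zero] at e⟩)
      filter_upwards [src_aprop S x₀ r, ((((psi_aprop S x₀ r).pow (S.ν r)).const_add
        (S.xx r)).sub h1).eventually_ne h0] with z h2 h3 h4
      exact h3 (by rw [← (S.aff r hi _ h2).2, h4.2, sub_self])
  · have := hW.isClosed_compl.isCompact.eventually_forall_of_forall_eventually (x₀ := (0 : ℂ))
      (P := fun u r => u ≠ 0 → r ∉ S.fb u⁻¹) fun r hr => ?_
    · filter_upwards [nhdsWithin_le_nhds this, self_mem_nhdsWithin] with u h1 h2 r hr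
      exact by_contra (h1 r · h2 hr)
    have h1 : Tendsto (fun z : ℂ × S.R => z.1) (𝓝 (0, r)) (𝓝 0) := continuousAt_fst
    filter_upwards [src_aprop S 0 r, (h1.mul (((psi_aprop S 0 r).pow (S.ν r)).const_add
      (S.xx r))).eventually_ne (show 0 * (S.xx r + 0 ^ S.ν r) ≠ 1 by simp)] with z h2 h3 h4 h5
    exact h3 (by rw [← (S.aff r (fun e => hr (h e)) _ h2).2, h5.2, mul_inv_cancel₀ h4])

end Pool.Agent.P.MP_ab0431_ag.UB

namespace Pool.Agent.P.MP_ab0431_ag.UB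

open Polynomial Set Filter Topology Asymptotics

theorem ashg_root {ν : ℕ} {p : ℂ → Prop} (h : ∀ᶠ v in 𝓝 (0 : ℂ), p v) (x₀ : ℂ) :
    ∀ᶠ x in 𝓝 x₀, ∀ v, v ^ ν = x - x₀ → p v := by
  obtain ⟨ε, ε0, hε⟩ := Metric.eventually_nhds_iff.1 h
  filter_upwards [Metric.ball_mem_nhds x₀ (pow_pos ε0 ν)] with x hx v hv
  refine hε ?_
  rw [mem_ball_iff_norm, ← hv, norm_pow] at hx
  rw [dist_zero_right]
  exact lt_of_pow_lt_pow_left₀ ν ε0.le hx

theorem p_ASHG (hAPROP : S_APROP) (hRFIN : S_RFIN) :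
    S_ASHG := by
  intro S
  obtain ⟨hi, -, hf, -⟩ := hRFIN S
  obtain ⟨h1, h2⟩ := hAPROP S
  have op : ∀ (A : Set S.R) (U : S.R → Set S.R), (∀ r, r ∈ U r ∧ IsOpen (U r)) →
      IsOpen (⋃ r ∈ A, U r ∩ (S.ψ r).source) ∧ A ⊆ ⋃ r ∈ A, U r ∩ (S.ψ r).source :=
    fun A U hU => ⟨isOpen_biUnion fun r _ => (hU r).2.inter (S.ψ r).open_source,
      fun r hr => mem_biUnion hr ⟨(hU r).1, S.mem r⟩⟩
  have ev : ∀ (U : S.R → Set S.R), (∀ r, r ∈ U r ∧ IsOpen (U r)) → ∀ r,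
      ∀ᶠ v in 𝓝 (0 : ℂ), v ∈ (S.ψ r).target ∧ (S.ψ r).symm v ∈ U r :=
    fun U hU r => (S.tgt_ev r).and ((S.tendsto_symm r).eventually ((hU r).2.mem_nhds (hU r).1))
  refine ⟨fun x₀ => ?_, ?_⟩
  · obtain ⟨U, hU, hd⟩ := (hf x₀).t2_separation
    filter_upwards [h1 x₀ _ (op _ U hU).1 (op _ U hU).2, (hf x₀).eventually_all.2
      fun r _ => ashg_root (ev U hU r) x₀] with x hx hv
    refine ⟨fun p hp => ?_, fun p hp q hq e => ?_, fun r' hr' => ?_⟩
    · have t := (hv _ hp.1 _ hp.2).1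
      have := S.aff _ hp.1.1 _ ((S.ψ p.1).map_target t)
      rw [(S.ψ p.1).right_inv t, hp.2, hp.1.2] at this
      exact ⟨this.1, by rw [this.2]; ring⟩
    · have a := hv _ hp.1 _ hp.2
      have b := hv _ hq.1 _ hq.2
      simp only at e
      have e1 : p.1 = q.1 := hd.elim_set hp.1 hq.1 _ a.2 (e ▸ b.2)
      refine Prod.ext e1 ?_
      rw [← e1] at e b
      exact (S.ψ p.1).symm.injOn a.1 b.1 e
    · obtain ⟨r, hr, -, s⟩ := mem_iUnion₂.1 (hx hr')
      refine ⟨(r, S.ψ r r'), ⟨hr, ?_⟩, (S.ψ r).left_inv s⟩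
      have := (S.aff r hr.1 r' s).2
      rw [hr.2, hr'.2] at this
      simp only [this]
      ring
  · obtain ⟨U, hU, hd⟩ := hi.t2_separation
    filter_upwards [h2 _ (op _ U hU).1 (op _ U hU).2, hi.eventually_all.2
      fun r hr => (S.inf_ev hr).and (nhdsWithin_le_nhds (ev U hU r)), self_mem_nhdsWithin]
      with u hx hv u0
    refine ⟨fun r hr => (hv r hr).1, fun p hp q hq e => ?_, fun r' hr' => ?_⟩
    · simp only at e
      exact hd.elim_set hp hq _ (hv p hp).2.2 (e ▸ (hv q hq).2.2)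
    · obtain ⟨r, hr, -, s⟩ := mem_iUnion₂.1 (hx hr')
      have := ((S.atinf r hr).2 r' s fun e => hr'.1 (e ▸ hr)).2
      rw [hr'.2, inv_mul_eq_one₀ u0] at this
      exact ⟨r, hr, by rw [this]; exact (S.ψ r).left_inv s⟩

end Pool.Agent.P.MP_ab0431_ag.UB

namespace Pool.Agent.P.MP_ab0431_ag.UB

open Polynomial Set Filter Topology Asymptotics

theorem p_ASH1 (hASHG : S_ASHG) (hRFIN : S_RFIN) :
    S_ASH1 := by
  intro S
  obtain ⟨hinf, hν, hfb, -⟩ := hRFIN S
  obtain ⟨h1, h2⟩ := hASHG S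
  have hcv : S.cv.Finite := hν.image _
  have hb : ∀ x₀ ∉ S.cv, ∀ᶠ x in 𝓝 x₀,
      BijOn (fun r => (S.ψ r).symm (x - x₀)) (S.fb x₀) (S.fb x) := fun x₀ hx₀ =>
    (h1 x₀).mono fun x hx => by
      have hg : BijOn (fun r : S.R => (r, x - x₀)) (S.fb x₀)
          {p : S.R × ℂ | p.1 ∈ S.fb x₀ ∧ p.2 ^ S.ν p.1 = x - x₀} := by
        refine ⟨fun r hr => ⟨hr, by simp [S.ν_one hx₀ hr]⟩,
          fun r _ r' _ h => congrArg Prod.fst h, fun p hp => ⟨p.1, hp.1, ?_⟩⟩
        have := hp.2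
        rw [S.ν_one hx₀ hp.1, pow_one] at this
        exact Prod.ext rfl this.symm
      exact hx.comp hg
  have hconn : IsPreconnected S.cvᶜ :=
    (hcv.countable.isConnected_compl_of_one_lt_rank
      (by rw [Complex.rank_real_complex]; norm_num)).isPreconnected
  have hcont : ContinuousOn (fun x => (S.fb x).ncard) S.cvᶜ := fun x₀ hx₀ => by
    refine ContinuousAt.continuousWithinAt ?_
    refine (continuousAt_const (y := (S.fb x₀).ncard)).congr ?_
    exact (hb x₀ hx₀).mono fun x hx => hx.ncard_eq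
  obtain ⟨u, hu, hu'⟩ := (h2.and (RS.ev_inv_notMem hcv)).exists
  have hcard : ∀ x₀ ∉ S.cv, (S.fb x₀).ncard = S.inf.ncard := fun x₀ hx₀ =>
    (hconn.constant hcont hx₀ hu').trans hu.ncard_eq.symm
  refine ⟨fun x₀ hx₀ => ?_, ?_⟩
  · obtain ⟨e, he⟩ := exists_en (hfb x₀) (hcard x₀ hx₀)
    exact ⟨e, he, (hb x₀ hx₀).mono fun x hx => he.bij hx⟩
  · obtain ⟨e, he⟩ := exists_en hinf rfl
    exact ⟨e, he, h2.mono fun x hx => he.bij hx⟩

end Pool.Agent.P.MP_ab0431_ag.UB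

namespace Pool.Agent.P.MP_ab0431_ag.UB

open Polynomial Set Filter Topology Asymptotics

theorem agro_pull (S : RS) (r₀ : S.R) {P : ℂ → Prop} (h : ∀ᶠ u in 𝓝[≠] (0 : ℂ), P u) :
    ∀ᶠ r in 𝓝 r₀, r ∈ (S.ψ r₀).source ∧ (r ≠ r₀ → P (S.ψ r₀ r)) := by
  have h1 := (S.tendsto_ψ r₀).eventually (eventually_nhdsWithin_iff.1 h)
  filter_upwards [h1, (S.ψ r₀).open_source.mem_nhds (S.mem r₀)] with r hr hs
  refine ⟨hs, fun hne => hr fun h0 => hne ?_⟩
  exact (S.ψ r₀).injOn hs (S.mem r₀) (by rw [S.zero]; exact h0)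

theorem p_AGRO :
    S_AGRO := by
  intro S n f τ hf hi
  have one : ∀ r : S.R, (1 : ℝ) ≤ (1 + ‖S.xx r‖) ^ n := fun r =>
    one_le_pow₀ (le_add_of_nonneg_right (norm_nonneg _))
  have loc : ∀ r₀ : S.R, ∃ c : ℝ, 0 ≤ c ∧
      ∀ᶠ r in 𝓝 r₀, r ∉ S.inf → ‖f r‖ ≤ c * (1 + ‖S.xx r‖) ^ n := by
    intro r₀
    by_cases h₀ : r₀ ∈ S.inf
    · obtain ⟨C, hC, hb⟩ := ((hi r₀ h₀).isBigO_one ℝ).exists_nonneg
      refine ⟨C, hC, ?_⟩
      filter_upwards [agro_pull S r₀ hb.bound] with r ⟨hs, hr⟩ hn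
      have hne : r ≠ r₀ := fun e => hn (e ▸ h₀)
      have h1 := hr hne
      have h2 := ((S.atinf r₀ h₀).2 r hs hne).2
      simp only [RS.lc, Function.comp, (S.ψ r₀).left_inv hs, norm_one, mul_one] at h1
      have h3 : f r = f r * S.ψ r₀ r ^ n * S.xx r ^ n := by
        rw [mul_assoc, ← mul_pow, mul_comm (S.ψ r₀ r), h2, one_pow, mul_one]
      rw [h3, norm_mul, norm_pow]
      gcongr
      exact le_add_of_nonneg_left zero_le_one
    · obtain ⟨C, hC, hb⟩ := (hf r₀ h₀).exists_nonneg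
      refine ⟨max C ‖f r₀‖, le_max_of_le_left hC, ?_⟩
      filter_upwards [agro_pull S r₀ hb.bound] with r ⟨hs, hr⟩ _
      refine le_trans ?_ (le_mul_of_one_le_right (le_max_of_le_left hC) (one r))
      by_cases hne : r = r₀
      · rw [hne]; exact le_max_right _ _
      · have h1 := hr hne
        simp only [RS.lc, Function.comp, (S.ψ r₀).left_inv hs, norm_one, mul_one] at h1
        exact le_max_of_le_left h1
  have key := (isCompact_univ (X := S.R)).induction_on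
    (p := fun A => ∃ c : ℝ, 0 ≤ c ∧ ∀ r ∈ A, r ∉ S.inf → ‖f r‖ ≤ c * (1 + ‖S.xx r‖) ^ n)
    ⟨0, le_rfl, by simp⟩ (fun _ _ hst ⟨c, hc, h⟩ => ⟨c, hc, fun r hr => h r (hst hr)⟩)
    (fun _ _ ⟨c, hc, h⟩ ⟨c', _, h'⟩ => ⟨max c c', le_max_of_le_left hc, fun r hr hn => by
      have := zero_le_one.trans (one r)
      rcases hr with hr | hr
      · exact (h r hr hn).trans (by gcongr; exact le_max_left _ _)
      · exact (h' r hr hn).trans (by gcongr; exact le_max_right _ _)⟩)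
    (fun r₀ _ => by
      obtain ⟨c, hc, h⟩ := loc r₀
      exact ⟨_, mem_nhdsWithin_of_mem_nhds h, c, hc, fun r hr => hr⟩)
  obtain ⟨c, hc, h⟩ := key
  exact ⟨c, hc, fun r hn => h r (mem_univ r) hn⟩

end Pool.Agent.P.MP_ab0431_ag.UB

namespace Pool.Agent.P.MP_ab0431_ag.UB

open Polynomial Set Filter Topology Asymptotics

theorem coeff_acf {b : ℕ} (j : ℕ) (a : Fin b → ℂ) : (∏ i, (X - C (a i))).coeff j =
    if j ≤ b then ∑ t ∈ Finset.univ.powersetCard (b - j), ∏ i ∈ t, -a i else 0 := by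
  split_ifs with h
  · simpa [sub_eq_add_neg] using
      Finset.prod_X_add_C_coeff Finset.univ (fun i => -a i) (k := j) (by simpa using h)
  · exact coeff_eq_zero_of_natDegree_lt (by rw [natDegree_finsetProd_X_sub_C_eq_card]; simpa using h)

theorem p_ACF :
    S_ACF := by
  refine fun b j => ⟨fun a x₀ h => ?_, fun a B hB h => ?_⟩
  · simp only [coeff_acf]
    split_ifs
    · exact Finset.analyticAt_fun_sum _ fun t _ => Finset.analyticAt_fun_prod _ fun i _ => (h i).neg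
    · exact analyticAt_const
  · rw [coeff_acf]
    split_ifs
    · refine (norm_sum_le _ _).trans ((Finset.sum_le_card_nsmul _ _ (B ^ (b - j))
        fun t ht => ?_).trans ?_)
      · rw [norm_prod, ← (Finset.mem_powersetCard.1 ht).2, ← Finset.prod_const]
        exact Finset.prod_le_prod (fun i _ => norm_nonneg _) fun i _ => (norm_neg _).trans_le (h i)
      · rw [Finset.card_powersetCard, Finset.card_fin, nsmul_eq_mul]
        exact mul_le_mul_of_nonneg_right (by exact_mod_cast Nat.choose_le_two_pow b _)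
          (pow_nonneg hB _)
    · rw [norm_zero]; positivity

end Pool.Agent.P.MP_ab0431_ag.UB

namespace Pool.Agent.P.MP_ab0431_ag.UB

open Polynomial Set Filter Topology Asymptotics

theorem lim_atop (p : ℂ[X]) (m : ℕ) (h : ∀ n, m < n → p.coeff n = 0) :
    Tendsto (fun u : ℂ => u ^ m * p.eval u⁻¹) (𝓝[≠] 0) (𝓝 (p.coeff m)) := by
  have h1 : p.natDegree < m + 1 := Nat.lt_succ_of_le (natDegree_le_iff_coeff_eq_zero.2 h)
  have h2 : Tendsto (fun u : ℂ => ∑ k ∈ Finset.range (m + 1), p.coeff k * u ^ (m - k)) (𝓝 0)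
      (𝓝 (p.coeff m)) := by
    refine Continuous.tendsto' (by fun_prop) _ _ ?_
    rw [Finset.sum_range_succ, Finset.sum_eq_zero fun k hk => by
      rw [zero_pow (by have := Finset.mem_range.1 hk; omega), mul_zero]]
    simp
  refine (h2.mono_left nhdsWithin_le_nhds).congr' ?_
  filter_upwards [self_mem_nhdsWithin] with u hu
  rw [eval_eq_sum_range' h1, Finset.mul_sum]
  refine Finset.sum_congr rfl fun k hk => ?_
  rw [pow_sub₀ u hu (Nat.lt_succ_iff.1 (Finset.mem_range.1 hk)), inv_pow]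
  ring

theorem p_ATOP :
    S_ATOP := by
  intro b n G a τ hG hW hev ha
  refine Polynomial.funext fun t => ?_
  have h1 : Tendsto (fun u : ℂ => ∏ i, (t - a i u * u ^ n)) (𝓝[≠] 0) (𝓝 (∏ i, (t - τ i))) :=
    tendsto_finsetProd _ fun i _ => (ha i).const_sub t
  have h2 : Tendsto (fun u : ℂ => ∑ j ∈ Finset.range (b + 1),
      u ^ (n * (b - j)) * (G.coeff j).eval u⁻¹ * t ^ j) (𝓝[≠] 0)
      (𝓝 (∑ j ∈ Finset.range (b + 1), (G.coeff j).coeff (n * (b - j)) * t ^ j)) :=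
    tendsto_finsetSum _ fun j _ => (lim_atop _ _ (hW j)).mul_const _
  have h3 := tendsto_nhds_unique_of_eventuallyEq h2 h1 (by
    filter_upwards [hev, self_mem_nhdsWithin] with u hu u0
    have un : u ^ n ≠ 0 := pow_ne_zero n u0
    have h4 := congrArg (eval (t / u ^ n)) hu
    rw [eval_eq_sum_range' (Nat.lt_succ_of_le (natDegree_map_le.trans hG)), eval_prod] at h4
    have h5 : ∏ i, (t - a i u * u ^ n) = (∏ i, eval (t / u ^ n) (X - C (a i u))) * (u ^ n) ^ b := by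
      rw [← Fin.prod_const b, ← Finset.prod_mul_distrib]
      refine Finset.prod_congr rfl fun i _ => ?_
      rw [eval_sub, eval_X, eval_C, sub_mul, div_mul_cancel₀ _ un]
    rw [h5, ← h4, Finset.sum_mul]
    refine Finset.sum_congr rfl fun j hj => ?_
    rw [coeff_map, coe_evalRingHom, pow_mul,
      pow_sub₀ _ un (Nat.lt_succ_iff.1 (Finset.mem_range.1 hj)), div_pow]
    ring)
  rw [top, eval_finsetSum, eval_prod]
  simpa only [eval_monomial, eval_sub, eval_X, eval_C] using h3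

end Pool.Agent.P.MP_ab0431_ag.UB

namespace Pool.Agent.P.MP_ab0431_ag.UB

open Polynomial Set Filter Topology Asymptotics

theorem p_ACH0 (hPOLY : S_POLY) (hASH1 : S_ASH1) (hAGRO : S_AGRO) (hACF : S_ACF) (hATOP : S_ATOP) :
    S_ACH0 := by
  intro S Z n f τ hZ hcv ha hb hi
  obtain ⟨c, c0, hc⟩ := hAGRO S n f τ hb hi
  have key : ∀ j, ∃ p : ℂ[X], p.natDegree ≤ n * (S.inf.ncard - j) ∧
      ∀ x ∉ Z, (∏ᶠ r ∈ S.fb x, (X - C (f r))).coeff j = p.eval x := fun j => by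
    refine hPOLY _ Z (2 ^ S.inf.ncard * c ^ (S.inf.ncard - j)) _ hZ (fun x hx => ?_) fun x hx => ?_
    all_goals obtain ⟨e, he, hev⟩ := (hASH1 S).1 x fun h => hx (hcv h)
    · have := (hACF _ j).1 (fun i y => S.lc f (e i) (y - x)) x fun i =>
        (ha _ (he.mem i).1 (by rw [(he.mem i).2]; exact hx)).comp_of_eq (by fun_prop) (sub_self x)
      refine this.differentiableAt.congr_of_eventuallyEq (hev.mono fun y hy => ?_)
      beta_reduce
      rw [hy.finprod]; rfl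
    · rw [he.finprod]
      refine ((hACF _ j).2 (fun i => f (e i)) (c * (1 + ‖x‖) ^ n) (by positivity) fun i => ?_).trans_eq
        (by rw [mul_pow, ← pow_mul, mul_assoc])
      simpa only [(he.mem i).2] using hc _ (he.mem i).1
  choose p hp1 hp2 using key
  obtain ⟨G, hG⟩ : ∃ G : ℂ[X][X],
    G = X ^ S.inf.ncard + ∑ j ∈ Finset.range S.inf.ncard, C (p j) * X ^ j := ⟨_, rfl⟩
  have hd : (∑ j ∈ Finset.range S.inf.ncard, C (p j) * X ^ j : ℂ[X][X]).degree < S.inf.ncard := by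
    rw [Finset.sum_range]; exact degree_sum_fin_lt _
  have g2 : G.natDegree = S.inf.ncard := by
    rw [hG, natDegree_add_eq_left_of_degree_lt (by rwa [degree_X_pow]), natDegree_X_pow]
  have g3 : WD S.inf.ncard n G := fun j k h => by
    rw [hG, coeff_add, coeff_add, finsetSum_coeff, finsetSum_coeff, Finset.sum_eq_zero, add_zero,
      coeff_X_pow]
    · split_ifs with e
      · rw [coeff_one, if_neg (by omega)]
      · rfl
    · intro i _
      rw [coeff_C_mul_X_pow]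
      split_ifs with e
      · exact coeff_eq_zero_of_natDegree_lt ((hp1 i).trans_lt (e ▸ h))
      · rfl
  have g4 : ∀ x ∉ Z, G.map (evalRingHom x) = ∏ᶠ r ∈ S.fb x, (X - C (f r)) := fun x hx => by
    obtain ⟨e, he, -⟩ := (hASH1 S).1 x fun h => hx (hcv h)
    have h1 : (∏ᶠ r ∈ S.fb x, (X - C (f r))).Monic := by
      rw [he.finprod]; exact monic_prod_X_sub_C _ _
    have h2 : (∏ᶠ r ∈ S.fb x, (X - C (f r))).natDegree = S.inf.ncard := by
      rw [he.finprod, natDegree_finsetProd_X_sub_C_eq_card]; simp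
    rw [h1.as_sum, h2, hG]
    simp [Polynomial.map_sum, hp2 _ x hx]
  refine ⟨G, hG ▸ monic_X_pow_add hd, g2, g3, g4, ?_⟩
  obtain ⟨e, he, hev⟩ := (hASH1 S).2
  rw [he.finprod]
  refine hATOP _ n G (fun i => S.lc f (e i)) _ g2.le g3 ?_ fun i => hi _ (he.mem i)
  filter_upwards [hev, RS.ev_inv_notMem hZ] with u h1 h2
  rw [g4 _ h2, h1.finprod]; rfl

end Pool.Agent.P.MP_ab0431_ag.UB

namespace Pool.Agent.P.MP_ab0431_ag.UB

open Polynomial Set Filter Topology Asymptotics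

theorem p_ASH2 (hASHG : S_ASHG) (hASH1 : S_ASH1) (hRFIN : S_RFIN) :
    S_ASH2 := by
  classical
  intro S x₀
  obtain ⟨-, f2, f3, -⟩ := hRFIN S
  let I : Finset (S.R × Bool) :=
    ((f3 x₀).toFinset ×ˢ Finset.univ).filter fun p => p.2 = true → S.ν p.1 = 2
  have hI : ∀ p, p ∈ (I : Set (S.R × Bool)) ↔ p.1 ∈ S.fb x₀ ∧ (p.2 = true → S.ν p.1 = 2) :=
    fun p => by simp only [I, Finset.mem_coe, Finset.mem_filter, Finset.mem_product,
      Finite.mem_toFinset, Finset.mem_univ, and_true]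
  let w : S.R × Bool → ℂ → ℂ := fun p u => if S.ν p.1 = 2 then (if p.2 then -u else u) else u ^ 2
  have hb : ∀ u ≠ 0, BijOn (fun p => (p.1, w p u)) I
      {p : S.R × ℂ | p.1 ∈ S.fb x₀ ∧ p.2 ^ S.ν p.1 = x₀ + u ^ 2 - x₀} := by
    refine fun u u0 => ⟨fun p hp => ⟨((hI p).1 hp).1, ?_⟩, ?_, ?_⟩
    · rcases S.ν12 p.1 with e | e <;> cases e' : p.2 <;> simp [w, e, e']
    · rintro ⟨r, s⟩ hp ⟨r', s'⟩ hp' e
      obtain ⟨rfl, e⟩ := Prod.ext_iff.1 e
      have a := ((hI _).1 hp).2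
      have b := ((hI _).1 hp').2
      cases s <;> cases s'
      · rfl
      · simp [w, b rfl, self_eq_neg, u0] at e
      · simp [w, a rfl, neg_eq_self, u0] at e
      · rfl
    · rintro ⟨r, y⟩ ⟨a, b⟩
      rw [add_sub_cancel_left] at b
      rcases S.ν12 r with e | e <;> simp only [e] at b
      · exact ⟨(r, false), (hI _).2 ⟨a, by simp⟩, by simpa [w, e] using b.symm⟩
      · rcases sq_eq_sq_iff_eq_or_eq_neg.1 b with rfl | rfl
        · exact ⟨(r, false), (hI _).2 ⟨a, by simp⟩, by simp [w, e]⟩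
        · exact ⟨(r, true), (hI _).2 ⟨a, fun _ => e⟩, by simp [w, e]⟩
  have t : Tendsto (fun u : ℂ => x₀ + u ^ 2) (𝓝[≠] 0) (𝓝 x₀) :=
    tendsto_nhdsWithin_of_tendsto_nhds (Continuous.tendsto' (by fun_prop) _ _ (by simp))
  have ev : ∀ᶠ u in 𝓝[≠] (0 : ℂ), x₀ + u ^ 2 ∉ S.cv ∧
      BijOn (fun p : S.R × Bool => (S.ψ p.1).symm (w p u)) I (S.fb (x₀ + u ^ 2)) := by
    filter_upwards [RS.ev_notMem (f2.image S.xx) x₀ two_ne_zero, t.eventually ((hASHG S).1 x₀),
      self_mem_nhdsWithin] with u a b c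
    exact ⟨a, b.comp (hb u c)⟩
  obtain ⟨e, he⟩ : ∃ e : Fin S.inf.ncard → S.R × Bool, En e I := by
    obtain ⟨u, a, b⟩ := ev.exists
    obtain ⟨e, h, -⟩ := (hASH1 S).1 _ a
    exact exists_en I.finite_toSet (b.ncard_eq.trans h.ncard)
  have ne : ∀ i j, i ≠ j → (e i).1 = (e j).1 → (e i).2 ≠ (e j).2 := fun i j a b c =>
    a (he.1 (Prod.ext b c))
  refine ⟨fun j => (e j).1, fun j => w (e j), fun j => ⟨((hI _).1 (he.mem j)).1, ?_, by simp [w]⟩,
    ev.mono fun u h => ⟨h.1, he.bij h.2⟩, fun h => ?_, fun i j a b => ?_, fun i j k a b => ?_⟩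
  · simp only [w]
    split_ifs <;> fun_prop
  · rw [← he.finprod fun p => h p.1, finprod_mem_coe_finset, Finset.prod_filter,
      Finset.prod_product, finprod_mem_eq_finite_toFinset_prod _ (f3 x₀)]
    refine Finset.prod_congr rfl fun r _ => ?_
    rcases S.ν12 r with n | n <;> simp [n, pow_two]
  · replace b : (e i).1 = (e j).1 := b
    have c := ne i j a b
    have n : S.ν (e i).1 = 2 := by
      cases d : (e i).2
      · exact b ▸ ((hI _).1 (he.mem j)).2 (by simpa [d] using c)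
      · exact ((hI _).1 (he.mem i)).2 d
    refine ⟨n, ?_⟩
    simp only [w, n, ← b, if_true]
    revert c
    cases (e i).2 <;> cases (e j).2 <;> simp <;> norm_num
  · by_contra c
    simp only [not_or] at c
    have c1 := ne i j c.1 a
    have c2 := ne i k c.2.1 b
    have c3 := ne j k c.2.2 (a.symm.trans b)
    revert c1 c2 c3
    cases (e i).2 <;> cases (e j).2 <;> cases (e k).2 <;> simp

end Pool.Agent.P.MP_ab0431_ag.UB

namespace Pool.Agent.P.MP_ab0431_ag.UB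

open Polynomial Set Filter Topology Asymptotics

theorem p_ACHR (hACH0 : S_ACH0) (hASH2 : S_ASH2) (hRFIN : S_RFIN) :
    S_ACHR := by
  intro S n f τ h
  obtain ⟨G, g1, g2, g3, g4, g5⟩ := hACH0 S S.cv n f τ ((hRFIN S).2.1.image _) subset_rfl
    (fun r hr _ => h.1 r hr)
    (fun r hr => ((h.1 r hr).continuousAt.tendsto.isBigO_one ℝ).mono nhdsWithin_le_nhds)
    fun r hr => by
      obtain ⟨g, a1, a2, a3⟩ := h.2 r hr
      exact ((a2 ▸ a1.continuousAt.tendsto).mono_left nhdsWithin_le_nhds).congr'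
        (a3.mono fun u hu => hu.symm)
  refine ⟨G, g1, g2, g3, fun x => Polynomial.funext fun t => ?_, g5⟩
  obtain ⟨ρ, v, a1, a2, a3, -⟩ := hASH2 S x
  rw [a3 fun r => X - C (f r), eval_prod]
  have e : ∀ y, (G.map (evalRingHom y)).eval t = (G.eval (C t)).eval y := fun y => by
    rw [eval_map, ← coe_evalRingHom y, ← eval₂_at_apply]; simp
  refine tendsto_nhds_unique_of_eventuallyEq (l := 𝓝[≠] (0 : ℂ))
    (f := fun u => (G.eval (C t)).eval (x + u ^ 2))
    (g := fun u => ∏ j, (t - S.lc f (ρ j) (v j u))) (tendsto_nhdsWithin_of_tendsto_nhds ?_)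
    (tendsto_nhdsWithin_of_tendsto_nhds (tendsto_finsetProd _ fun j _ => ?_)) (a2.mono fun u hu => ?_)
  · exact Continuous.tendsto' (by fun_prop) _ _ (by simp [e])
  · have := ((h.1 _ (a1 j).1.1).comp_of_eq (a1 j).2.1 (a1 j).2.2).continuousAt.tendsto.const_sub t
    simpa [(a1 j).2.2, S.lc_zero] using this
  · beta_reduce
    rw [← e, g4 _ hu.1, hu.2.finprod, eval_prod]
    simp [RS.lc]

end Pool.Agent.P.MP_ab0431_ag.UB

namespace Pool.Agent.P.MP_ab0431_ag.UB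

open Polynomial Set Filter Topology Asymptotics

theorem three_agood {b : ℕ} (a : Fin b → ℂ) (t : ℂ) (p : ℂ[X]) (hp : p = ∏ j, (X - C (a j)))
    (h0 : p.eval t = 0) (h1 : p.derivative.eval t = 0) (h2 : p.derivative.derivative.eval t = 0) :
    ∃ i j k, i ≠ j ∧ i ≠ k ∧ j ≠ k ∧ a i = t ∧ a j = t ∧ a k = t := by
  classical
  have hm : p.Monic := hp ▸ monic_prod_of_monic _ _ fun j _ => monic_X_sub_C _
  have h : 2 < p.rootMultiplicity t :=
    lt_rootMultiplicity_of_isRoot_iterate_derivative hm.ne_zero fun m hm => by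
      interval_cases m
      exacts [h0, h1, h2]
  have e : p.roots = Finset.univ.val.map a := by
    rw [← roots_multiset_prod_X_sub_C (Finset.univ.val.map a), Multiset.map_map, hp]; rfl
  rw [← count_roots, e, Multiset.count_map] at h
  obtain ⟨i, j, k, hi, hj, hk, a1, a2, a3⟩ :=
    (Finset.two_lt_card_iff (s := Finset.univ.filter fun j => t = a j)).1 h
  exact ⟨i, j, k, a1, a2, a3, (Finset.mem_filter.1 hi).2.symm, (Finset.mem_filter.1 hj).2.symm,
    (Finset.mem_filter.1 hk).2.symm⟩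

theorem p_AGOOD (hASH1 : S_ASH1) (hASH2 : S_ASH2) (hTOP : S_TOP) (hDSEP : S_DSEP) :
    S_AGOOD := by
  intro S z τ c hG hW hF ht
  obtain ⟨e, he, -⟩ := (hASH1 S).2
  rw [he.finprod] at ht
  have hs : (top S.inf.ncard 1 (toP c)).Separable := by
    rw [ht]
    exact separable_prod_X_sub_C_iff.2 fun i j h => he.1 (hG.inj (he.mem i) (he.mem j) h)
  refine ⟨⟨hW, ?_, fun x t ⟨h0, h1, h2⟩ => ?_⟩, hs⟩
  · have := (hTOP ℂ _ 1 _ (toP_monic c) (toP_natDegree c) hW).2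
    rw [one_mul] at this
    rw [this]
    refine (hDSEP ℂ _ _ ?_ ?_).2 hs <;> rw [ht]
    · exact monic_prod_of_monic _ _ fun j _ => monic_X_sub_C _
    · rw [natDegree_prod_of_monic _ _ fun j _ => monic_X_sub_C _]; simp
  · obtain ⟨ρ, v, a1, -, a3, a4, a5⟩ := hASH2 S x
    obtain ⟨i, j, k, hij, hik, hjk, hi, hj, hk⟩ := three_agood (fun j => z (ρ j)) t _
      ((hF x).trans (a3 fun r => X - C (z r))) ((map_evalRingHom_eval x t _).trans h0)
      (by rw [derivative_map, map_evalRingHom_eval]; exact h1)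
      (by rw [derivative_map, derivative_map, map_evalRingHom_eval]; exact h2)
    have key : ∀ i j k, i ≠ j → i ≠ k → j ≠ k → z (ρ i) = z (ρ k) → ρ i ≠ ρ j :=
      fun i j k hij hik hjk h e' => by
        have := a5 i j k e' (hG.pair x _ (a1 i).1 _ (a1 k).1 (a4 i j hij e').1 h)
        tauto
    rcases hG.triple x _ (a1 i).1 _ (a1 j).1 _ (a1 k).1 (hi.trans hj.symm) (hi.trans hk.symm)
      with h | h | h
    · exact key i j k hij hik hjk (hi.trans hk.symm) h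
    · exact key i k j hik hij hjk.symm (hi.trans hj.symm) h
    · exact key j k i hjk hij.symm hik.symm (hj.trans hi.symm) h

end Pool.Agent.P.MP_ab0431_ag.UB

namespace Pool.Agent.P.MP_ab0431_ag.UB

open Polynomial Set Filter Topology Asymptotics

theorem AREP_solve {b : ℕ} (N : Matrix (Fin b) (Fin b) ℂ[X]) (x : ℂ) (χ t : Fin b → ℂ)
    (h0 : N.det.eval x ≠ 0) (h : (N.map (evalRingHom x)).mulVec χ = t) (i : Fin b) :
    (∑ k, (N.adjugate i k).eval x * t k) / N.det.eval x = χ i := by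
  have h1 := congrFun (congrArg ((evalRingHom x).mapMatrix N.adjugate).mulVec h) i
  rw [Matrix.mulVec_mulVec, RingHom.map_adjugate, RingHom.mapMatrix_apply, Matrix.adjugate_mul,
    ← RingHom.mapMatrix_apply, ← RingHom.map_det, ← RingHom.map_adjugate] at h1
  rw [div_eq_iff h0]
  simpa [Matrix.mulVec, dotProduct, Matrix.one_apply, mul_comm] using h1.symm

theorem p_AREP (hSPLIT : S_SPLIT) (hCHP : S_CHP) (hDISC : S_DISC) (hRFIN : S_RFIN) :
    S_AREP := by
  intro S z D s hz hN hch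
  obtain ⟨-, f2, f3, -⟩ := hRFIN S
  have hh : (D.toStr.N s).det * D.P ≠ 0 := mul_ne_zero hN D.P_monic.ne_zero
  let E : S.R → Fin S.inf.ncard → ℂ := fun r i =>
    (∑ k, ((D.toStr.N s).adjugate i k).eval (S.xx r) * z r ^ (k : ℕ)) /
      (D.toStr.N s).det.eval (S.xx r)
  have hZ : ∀ x ∉ S.cv ∪ {x | ((D.toStr.N s).det * D.P).IsRoot x},
      x ∉ S.cv ∧ (D.toStr.N s).det.eval x ≠ 0 ∧ (D.fib x).disc ≠ 0 := fun x hx => by
    simp only [mem_union, mem_ofPred_eq, IsRoot, eval_mul, mul_eq_zero, not_or] at hx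
    refine ⟨hx.1, hx.2.1, ?_⟩
    rw [Str.disc_map, D.hd]
    simpa using hx.2.2
  have key : ∀ x, (D.toStr.N s).det.eval x ≠ 0 → (D.fib x).disc ≠ 0 → ∀ r ∈ S.fb x,
      (D.fib x).IsPt (E r) ∧
        ((D.toStr.N s).map (evalRingHom x)).mulVec (E r) = fun k => z r ^ k.val := by
    intro x h1 h2 r hr
    obtain ⟨χ, hχ, hd⟩ := hSPLIT ℂ _ _ h2
    have h3 := ((hCHP ℂ _ _ χ hχ).2.1 hd.isUnit (D.toStr.mapA (evalRingHom x) s)).1
    rw [Str.ch_map, hch, finprod_mem_eq_finite_toFinset_prod _ (f3 x)] at h3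
    have h4 := congrArg (eval (z r)) h3
    rw [eval_prod, eval_prod, Finset.prod_eq_zero ((f3 x).mem_toFinset.2 hr)
      (by simp [S.ν_ne r]), eq_comm, Finset.prod_eq_zero_iff] at h4
    obtain ⟨j, -, hj⟩ := h4
    rw [eval_sub, eval_X, eval_C, sub_eq_zero, ← (hχ j).hom_apply] at hj
    have h5 : ((D.toStr.N s).map (evalRingHom x)).mulVec (χ j) = fun k => z r ^ k.val := by
      funext k
      rw [hj, ← map_pow, ← Str.N_map]
      rfl
    have h6 : E r = χ j := funext fun i => by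
      rw [← AREP_solve _ x _ _ h1 h5 i, ← hr.2]
    rw [h6]
    exact ⟨hχ j, h5⟩
  have loc : ∀ r ∉ S.inf, ∀ i, ∃ f g : ℂ → ℂ, AnalyticAt ℂ f 0 ∧ AnalyticAt ℂ g 0 ∧
      g 0 = (D.toStr.N s).det.eval (S.xx r) ∧
      (f / g) =ᶠ[𝓝 0] fun u => E ((S.ψ r).symm u) i := by
    intro r hr i
    have h1 : ∀ p : ℂ[X], AnalyticAt ℂ (fun u : ℂ => p.eval (S.xx r + u ^ S.ν r)) 0 := fun p =>
      (p.differentiable.comp (by fun_prop)).analyticAt 0
    refine ⟨fun u => ∑ k, ((D.toStr.N s).adjugate i k).eval (S.xx r + u ^ S.ν r) *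
      S.lc z r u ^ (k : ℕ), _, Finset.analyticAt_fun_sum _ fun k _ =>
        (h1 _).mul ((hz r hr).pow _), h1 (D.toStr.N s).det, by simp [S.ν_ne r], ?_⟩
    filter_upwards [S.aff_ev hr] with u hu
    simp only [E, hu.2, Pi.div_apply, RS.lc, Function.comp]
  refine ⟨_, E, (f2.image _).union (finite_setOfPred_isRoot hh), subset_union_left,
    fun x hx r hr => ?_, fun x hx e he h0 => ?_, fun r hr i => ?_⟩
  · obtain ⟨-, h1, h2⟩ := hZ x hx
    refine ⟨(key x h1 h2 r hr).1, analyticAt_pi_iff.2 fun i => ?_⟩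
    obtain ⟨f, g, hf, hg, h0, h⟩ := loc r hr.1 i
    exact (hf.div hg (by rw [h0, hr.2]; exact h1)).congr h
  · obtain ⟨h3, h1, h2⟩ := hZ x hx
    have h4 : (Matrix.of fun j => E (e j)) * ((D.toStr.N s).map (evalRingHom x)).transpose =
        Matrix.vandermonde fun j => z (e j) := by
      ext j k
      rw [Matrix.vandermonde_apply, ← congrFun (key x h1 h2 _ (he.mem j)).2 k]
      simp [Matrix.mul_apply, Matrix.mulVec, dotProduct, mul_comm]
    have h5 := (hDISC ℂ _).1 (D.fib x) (D.toStr.mapA (evalRingHom x) s)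
    rw [Str.ch_map, hch, he.finprod, Finset.prod_congr rfl fun j _ => by
      rw [S.ν_one h3 (he.mem j), pow_one], (hDISC ℂ _).2.2, ← h4, Matrix.det_mul, h0,
      Str.N_map, ← RingHom.mapMatrix_apply, ← RingHom.map_det] at h5
    exact mul_ne_zero (pow_ne_zero 2 h1) h2 (by simpa using h5.symm)
  · obtain ⟨f, g, hf, hg, -, h⟩ := loc r hr i
    exact (hf.meromorphicAt.div hg.meromorphicAt).congr (h.filter_mono nhdsWithin_le_nhds)

end Pool.Agent.P.MP_ab0431_ag.UB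

namespace Pool.Agent.P.MP_ab0431_ag.UB

open Polynomial Set Filter Topology Asymptotics

theorem p_APIN (hPINT : S_PINT) (hASH1 : S_ASH1) :
    S_APIN := by
  intro S D Z E g G hR hM hg hG
  refine hPINT _ D Z G (fun x χ => ∑ᶠ r ∈ {r ∈ S.fb x | E r = χ}, g r) hM hR.fin fun x₀ h0 => ?_
  obtain ⟨e, he, h1⟩ := (hASH1 S).1 x₀ fun h => h0 (hR.cv h)
  have key : ∀ x ∉ Z, ∀ e' : Fin S.inf.ncard → S.R, En e' (S.fb x) → ∀ j,
      ∑ᶠ r ∈ {r ∈ S.fb x | E r = E (e' j)}, g r = g (e' j) := fun x hx e' h j => by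
    have h2 : {r ∈ S.fb x | E r = E (e' j)} = {e' j} := by
      refine eq_singleton_iff_unique_mem.2 ⟨⟨h.mem j, rfl⟩, fun r hr => ?_⟩
      obtain ⟨i, rfl⟩ : r ∈ range e' := h.2 ▸ hr.1
      by_contra h3
      exact hR.det x hx e' h (Matrix.det_zero_of_row_eq (i := i) (j := j)
        (fun h4 => h3 (congrArg e' h4)) hr.2)
    rw [h2, finsum_mem_singleton]
  have h2 : ∀ᶠ x in 𝓝 x₀, x ∉ Z := hR.fin.isClosed.isOpen_compl.mem_nhds h0
  have h3 : AnalyticAt ℂ (fun x : ℂ => x - x₀) x₀ := by fun_prop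
  refine ⟨fun j x => E ((S.ψ (e j)).symm (x - x₀)), fun j =>
    ⟨(hR.pt x₀ h0 _ (he.mem j)).2.comp_of_eq h3 (sub_self _), ?_⟩, ?_⟩
  · refine ((hg _ (he.mem j).1).comp_of_eq h3 (sub_self _)).congr ?_
    filter_upwards [h1, h2] with x a b using (key x b _ a j).symm
  · filter_upwards [h1, h2] with x a b
    refine ⟨fun j => (hR.pt x b _ (a.mem j)).1, hR.det x b _ a, ?_⟩
    rw [hG, a.finprod]
    exact Finset.prod_congr rfl fun j _ => by
      rw [S.ν_one (fun h => b (hR.cv h)) (a.mem j), pow_one]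
      exact congrArg (X - C ·) (key x b _ a j).symm

end Pool.Agent.P.MP_ab0431_ag.UB

namespace Pool.Agent.P.MP_ab0431_ag.UB

open Polynomial Set Filter Topology Asymptotics

theorem AORD_one {f : ℂ → ℂ} (hf : ContinuousAt f 0) (h : f 0 ≠ 0) :
    (fun u : ℂ => u ^ 0) =O[𝓝 0] f := by
  have h1 : (fun _ : ℂ => (1 : ℝ)) =O[𝓝 0] f :=
    (isTheta_const_const one_ne_zero h).isBigO.trans
      (IsBigO.of_bound 2 (by
        have : ∀ᶠ u in 𝓝 (0 : ℂ), ‖f 0‖ / 2 < ‖f u‖ :=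
          hf.norm.eventually (lt_mem_nhds (half_lt_self (norm_pos_iff.2 h)))
        filter_upwards [this] with u hu
        linarith))
  refine IsBigO.trans ?_ h1
  simpa using isBigO_const_const (1 : ℂ) (one_ne_zero : (1 : ℝ) ≠ 0) (𝓝 (0 : ℂ))

theorem AORD_der {f : ℂ → ℂ} {c : ℂ} (hf : HasDerivAt f c 0) (h0 : f 0 = 0) (h : c ≠ 0) :
    (fun u : ℂ => u ^ 1) =O[𝓝 0] f := by
  have := (hf.isTheta_sub h).isBigO_symm
  simpa [h0, Function.comp_def] using this

theorem p_AORD (hASH2 : S_ASH2) (hDISC : S_DISC) :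
    S_AORD := by
  classical
  intro S x₀ g G crit han hinj hder hG
  obtain ⟨ρ, v, h1, h2, -, h4, h5⟩ := hASH2 S x₀
  set a : Fin S.inf.ncard → ℂ → ℂ := fun j u => S.lc g (ρ j) (v j u) with ha
  have hd : ∀ j, HasDerivAt (a j) (deriv (S.lc g (ρ j)) 0 * deriv (v j) 0) 0 := fun j => by
    have e1 : HasDerivAt (S.lc g (ρ j)) (deriv (S.lc g (ρ j)) 0) (v j 0) := by
      rw [(h1 j).2.2]; exact (han _ (h1 j).1.1).differentiableAt.hasDerivAt
    exact e1.comp 0 (h1 j).2.1.differentiableAt.hasDerivAt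
  have h0 : ∀ j, a j 0 = g (ρ j) := fun j => by
    simp only [ha, (h1 j).2.2, S.lc_zero]
  set s : Finset (Σ _ : Fin S.inf.ncard, Fin S.inf.ncard) := Finset.univ.sigma Finset.Ioi with hs
  have hsm : ∀ p ∈ s, p.1 < p.2 := fun p hp => by simpa [hs] using hp
  set k := (s.filter fun p => ρ p.1 = ρ p.2).card with hk
  have hO : (fun u : ℂ => u ^ k) =O[𝓝 0] fun u => ∏ p ∈ s, (a p.2 u - a p.1 u) := by
    have : (fun u : ℂ => ∏ p ∈ s, u ^ (if ρ p.1 = ρ p.2 then 1 else 0)) =O[𝓝 0]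
        fun u => ∏ p ∈ s, (a p.2 u - a p.1 u) := by
      refine IsBigO.finsetProd fun p hp => ?_
      have hne := (hsm p hp).ne
      split_ifs with e
      · refine AORD_der ((hd p.2).sub (hd p.1)) (by simp [h0, e]) ?_
        obtain ⟨n2, nd⟩ := h4 _ _ hne e
        rw [← e, ← mul_sub]
        exact mul_ne_zero (hder _ (h1 _).1 n2) (sub_ne_zero.2 nd.symm)
      · refine AORD_one ((hd p.2).sub (hd p.1)).continuousAt ?_
        simp only [h0]
        exact sub_ne_zero.2 fun q => e (hinj (h1 _).1 (h1 _).1 q).symm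
    refine this.congr_left fun u => ?_
    rw [Finset.prod_pow_eq_pow_sum, hk, Finset.card_filter]
  have hD : (fun u : ℂ => u ^ (2 * k)) =O[𝓝[≠] 0]
      fun u => (Δ S.inf.ncard G).eval (x₀ + u ^ 2) := by
    refine ((hO.pow 2).mono nhdsWithin_le_nhds).congr' (Eventually.of_forall fun u => ?_) ?_
    · simp only [← pow_mul, mul_comm]
    · filter_upwards [h2] with u hu
      have e1 := Δ_map (evalRingHom (x₀ + u ^ 2)) S.inf.ncard G
      rw [hG, finprod_mem_congr rfl (fun r hr => by rw [S.ν_one hu.1 hr, pow_one]),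
        hu.2.finprod, (hDISC ℂ _).2.2, Matrix.det_vandermonde, Finset.prod_sigma'] at e1
      exact e1
  have hfr : ∀ n : ℕ, ∃ᶠ u in 𝓝[≠] (0 : ℂ), u ^ n ≠ 0 := fun n =>
    Eventually.frequently (eventually_mem_nhdsWithin.mono fun u hu => pow_ne_zero n hu)
  constructor
  · rintro ⟨q, hq⟩
    have k1 : k ≤ 1 := by
      refine Finset.card_le_one.2 fun p hp p' hp' => ?_
      obtain ⟨hp, e⟩ := Finset.mem_filter.1 hp
      obtain ⟨hp', e'⟩ := Finset.mem_filter.1 hp'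
      have l := hsm p hp
      have l' := hsm p' hp'
      have c := crit _ _ (h4 _ _ l.ne e).1 (h4 _ _ l'.ne e').1
        ((h1 _).1.2.trans (h1 _).1.2.symm)
      have t1 := h5 p.1 p.2 p'.1 e c
      have t2 := h5 p.1 p.2 p'.2 e (c.trans e')
      have t3 := h5 p'.1 p'.2 p.1 e' c.symm
      have t4 := h5 p'.1 p'.2 p.2 e' (c.symm.trans e)
      obtain ⟨i, j⟩ := p
      obtain ⟨i', j'⟩ := p'
      simp only [Fin.ext_iff, Fin.lt_def] at l l' t1 t2 t3 t4
      obtain rfl : i = i' := Fin.ext (by omega)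
      obtain rfl : j = j' := Fin.ext (by omega)
      rfl
    have h4' : (fun u : ℂ => (Δ S.inf.ncard G).eval (x₀ + u ^ 2)) =O[𝓝 0] fun u => u ^ 4 := by
      have hc : ContinuousAt (fun u : ℂ => q.eval (x₀ + u ^ 2)) 0 :=
        (q.continuous.comp (by fun_prop)).continuousAt
      refine ((isBigO_refl (fun u : ℂ => u ^ 4) _).mul (hc.tendsto.isBigO_one ℂ)).congr
        (fun u => ?_) fun u => mul_one _
      rw [hq, eval_mul, eval_pow, eval_sub, eval_X, eval_C]; ring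
    exact isLittleO_irrefl (hfr (2 * k)) (hD.trans_isLittleO
      ((h4'.trans_isLittleO (isLittleO_pow_pow (by omega))).mono nhdsWithin_le_nhds))
  · intro hx he
    have k0 : k = 0 := by
      refine Finset.card_eq_zero.2 (Finset.filter_eq_empty_iff.2 fun p hp e => ?_)
      exact hx ⟨_, (h4 _ _ (hsm p hp).ne e).1, (h1 _).1.2⟩
    have hc : Tendsto (fun u : ℂ => (Δ S.inf.ncard G).eval (x₀ + u ^ 2)) (𝓝 0) (𝓝 0) :=
      Continuous.tendsto' ((Δ S.inf.ncard G).continuous.comp (by fun_prop)) _ _ (by simpa using he)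
    refine isLittleO_irrefl (hfr (2 * k)) (hD.trans_isLittleO ?_)
    simpa [k0] using ((isLittleO_one_iff ℂ).2 hc).mono nhdsWithin_le_nhds

end Pool.Agent.P.MP_ab0431_ag.UB

namespace Pool.Agent.P.MP_ab0431_ag.UB

open Polynomial Set Filter Topology Asymptotics

theorem p_APS (hAPIN : S_APIN) (hACHR : S_ACHR) (hAORD : S_AORD) (hDISC : S_DISC) (hRFIN : S_RFIN) :
    S_APS := by
  classical
  intro S z τ D Z E hG hR hM
  have key : ∀ x, ¬(X - C x) ^ 2 ∣ D.P ∧ (D.P.IsRoot x → x ∈ S.cv) := fun x => by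
    obtain ⟨g, τ', h1, h2, h3⟩ := hG.sep x
    obtain ⟨G, -, -, -, h4, -⟩ := hACHR S 1 g τ' h1
    obtain ⟨o, rfl⟩ := hAPIN S D Z E g G hR hM h1.1 h4
    have h5 : D.P ∣ Δ S.inf.ncard (D.ch o) := by
      rw [(hDISC _ _).1, D.hd, ← mul_assoc]
      exact dvd_mul_left _ _
    obtain ⟨h6, h7⟩ := hAORD S x g _ hG.crit h1.1 h2 h3 h4
    exact ⟨fun h => h6 (h.trans h5), fun h => by_contra fun h' => h7 h' (h.dvd h5)⟩
  have h0 := D.P_monic.ne_zero
  have nd : D.P.roots.Nodup := Multiset.nodup_iff_count_le_one.2 fun x => by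
    rw [count_roots]
    by_contra h
    exact (key x).1 ((le_rootMultiplicity_iff h0).1 (by omega))
  have sp := IsAlgClosed.splits D.P
  refine ⟨(nodup_roots_iff_of_splits h0 sp).1 nd, ?_⟩
  have fin : {r | S.ν r = 2}.Finite := by
    have := hRFIN S
    tauto
  rw [← D.P_natDegree, sp.natDegree_eq_card_roots, ← Multiset.toFinset_card_of_nodup nd,
    ← ncard_coe_finset]
  refine (ncard_le_ncard (fun x hx => (key x).2 ?_) (fin.image _)).trans (ncard_image_le fin)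
  exact isRoot_of_mem_roots (Multiset.mem_toFinset.1 hx)

end Pool.Agent.P.MP_ab0431_ag.UB

namespace Pool.Agent.P.MP_ab0431_ag.UB

open Polynomial Set Filter Topology Asymptotics

theorem p_AYN (hNEWT : S_NEWT) (hCHS : S_CHS) :
    S_AYN := by
  intro b D l
  have h1 : ∀ k, 0 < k → D.P ∣ (D.L (D.du l) ^ k).trace := fun k hk => by
    obtain ⟨k, rfl⟩ := Nat.exists_eq_succ_of_ne_zero hk.ne'
    rw [← map_pow, ← Str.tr_apply, pow_succ', (hCHS _ b D.toStr _).2.2.1 l, D.hd]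
    exact (dvd_mul_left _ _).mul_right _
  have h2 : ∀ j < b, D.P ∣ (D.ch (D.du l)).coeff j := fun j hj => by
    have h := hNEWT _ b (D.L (D.du l)) (b - j)
    rw [if_pos (Nat.sub_le _ _), Nat.sub_sub_self hj.le] at h
    have h3 : D.P ∣ ((b - j : ℕ) : ℂ[X]) * (D.ch (D.du l)).coeff j := by
      rw [Str.ch, eq_neg_of_add_eq_zero_right h, dvd_neg]
      exact Finset.dvd_sum fun i hi =>
        (h1 _ (Nat.sub_pos_of_lt (Finset.mem_range.1 hi))).mul_left _
    refine (IsUnit.dvd_mul_left ?_).1 h3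
    rw [← map_natCast (C : ℂ →+* ℂ[X])]
    exact isUnit_C.2 (Nat.cast_ne_zero.2 (Nat.sub_pos_of_lt hj).ne').isUnit
  choose! q hq using h2
  have h := D.aeval_ch (D.du l)
  rw [aeval_eq_sum_range, Finset.sum_range_succ, coeff_natDegree, (D.ch_monic _).leadingCoeff,
    one_smul, D.ch_natDegree] at h
  refine ⟨-∑ j ∈ Finset.range b, q j • D.du l ^ j, ?_⟩
  rw [eq_neg_of_add_eq_zero_right h, smul_neg, Finset.smul_sum]
  exact congrArg Neg.neg (Finset.sum_congr rfl fun j hj => by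
    rw [hq j (Finset.mem_range.1 hj), mul_smul])

end Pool.Agent.P.MP_ab0431_ag.UB

namespace Pool.Agent.P.MP_ab0431_ag.UB

open Polynomial Set Filter Topology Asymptotics

theorem ev_arb (f : ℂ[X]) {N : ℕ} (h : ∀ l, N < l → f.coeff l = 0) (x : ℂ) :
    ‖f.eval x‖ ≤ (∑ l ∈ Finset.range (N + 1), ‖f.coeff l‖) * (1 + ‖x‖) ^ N := by
  rw [eval_eq_sum_range' (Nat.lt_succ_of_le (natDegree_le_iff_coeff_eq_zero.2 h)), Finset.sum_mul]
  refine norm_sum_le_of_le _ fun l hl => ?_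
  have := norm_nonneg x
  rw [norm_mul, norm_pow]
  exact mul_le_mul_of_nonneg_left ((pow_le_pow_left₀ this (by linarith) l).trans
    (pow_le_pow_right₀ (by linarith) (Nat.lt_succ_iff.1 (Finset.mem_range.1 hl)))) (norm_nonneg _)

theorem p_ARB :
    S_ARB := by
  intro b n F h1 h2 h3
  set K := ∑ j ∈ Finset.range b, ∑ l ∈ Finset.range (n * (b - j) + 1), ‖(F.coeff j).coeff l‖
    with hK
  have K0 : 0 ≤ K := by positivity
  refine ⟨K + 1, by positivity, fun x t ht => not_lt.1 fun c => ?_⟩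
  have B1 : 1 ≤ (1 + ‖x‖) ^ n := one_le_pow₀ (by linarith [norm_nonneg x])
  have e : ∀ j ∈ Finset.range b, ‖(F.coeff j).eval x * t ^ j‖ * ‖t‖ ≤
      (∑ l ∈ Finset.range (n * (b - j) + 1), ‖(F.coeff j).coeff l‖) *
        ((1 + ‖x‖) ^ n * ‖t‖ ^ b) := fun j hj => by
    obtain ⟨i, rfl⟩ := Nat.exists_eq_add_of_lt (Finset.mem_range.1 hj)
    have a := ev_arb _ (h3 j) x
    rw [show j + i + 1 - j = i + 1 by omega] at a ⊢
    rw [pow_mul, pow_succ] at a
    generalize (1 + ‖x‖) ^ n = B at *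
    have : B ^ i ≤ ‖t‖ ^ i := pow_le_pow_left₀ (by linarith) (by nlinarith) i
    rw [norm_mul, norm_pow]
    calc _ ≤ _ * (‖t‖ ^ i * B) * ‖t‖ ^ j * ‖t‖ := by
          gcongr
          exact a.trans (by gcongr)
      _ = _ := by ring
  have s := Finset.sum_le_sum e
  rw [← Finset.sum_mul, ← Finset.sum_mul, ← hK] at s
  rw [IsRoot, h1.as_sum, h2] at ht
  simp only [Polynomial.map_add, Polynomial.map_pow, map_X, Polynomial.map_sum, Polynomial.map_mul,
    map_C, eval_add, eval_pow, eval_X, eval_finsetSum, eval_mul, eval_C, coe_evalRingHom] at ht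
  have a := norm_sum_le (Finset.range b) fun j => (F.coeff j).eval x * t ^ j
  rw [← neg_eq_of_add_eq_zero_right ht, norm_neg, norm_pow] at a
  have p : 0 < ‖t‖ ^ b := pow_pos (by nlinarith) b
  nlinarith [mul_le_mul_of_nonneg_right a (norm_nonneg t), mul_lt_mul_of_pos_right c p]

end Pool.Agent.P.MP_ab0431_ag.UB

namespace Pool.Agent.P.MP_ab0431_ag.UB

open Polynomial Set Filter Topology Asymptotics

theorem ans1_pow {f : ℂ → ℂ} {l : Filter ℂ} {b : ℕ}
    (h : Tendsto (fun u => f u ^ b) l (𝓝 0)) : Tendsto f l (𝓝 0) := by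
  rw [NormedAddGroup.tendsto_nhds_zero] at h ⊢
  intro ε hε
  filter_upwards [h (ε ^ b) (pow_pos hε b)] with u hu
  rw [norm_pow] at hu
  exact lt_of_pow_lt_pow_left₀ b hε.le hu

theorem ans1_mer {f : ℂ → ℂ} (hf : MeromorphicAt f 0) (h : Tendsto f (𝓝[≠] 0) (𝓝 0)) :
    f =O[𝓝[≠] 0] fun u => u := by
  have e : Function.update f 0 0 =ᶠ[𝓝[≠] 0] f :=
    eventually_mem_nhdsWithin.mono fun u hu => Function.update_of_ne hu _ _
  have a : AnalyticAt ℂ (Function.update f 0 0) 0 :=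
    (hf.congr e.symm).analyticAt (continuousAt_update_same.2 h)
  have o := a.differentiableAt.isBigO_sub
  simp only [Function.update_self, sub_zero] at o
  exact (o.mono nhdsWithin_le_nhds).congr' e EventuallyEq.rfl

theorem p_ANS1 (hAYN : S_AYN) (hARB : S_ARB) (hTUP : S_TUP) :
    S_ANS1 := by
  intro S D Z E R
  have h1 : ∀ m (o : D.A), D.Deg m o → ∃ c : ℝ, 0 ≤ c ∧
      ∀ x ∉ Z, ∀ r ∈ S.fb x, ‖S.val E o r‖ ≤ c * (1 + ‖x‖) ^ m := by
    intro m o ho
    obtain ⟨Dt, -, -, -, -, h, -⟩ := hTUP ℂ _ D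
    obtain ⟨c, hc, H⟩ := hARB _ m (D.ch o) (Str.ch_monic _ o) (Str.ch_natDegree _ o) (h m o ho).1
    exact ⟨c, hc, fun x hx r hr => H x _ (RS.val_root hr (R.pt x hx r hr).1 o)⟩
  have hx : ∀ r, Tendsto (fun u : ℂ => S.xx r + u ^ S.ν r) (𝓝[≠] 0) (𝓝 (S.xx r)) := fun r =>
    tendsto_nhdsWithin_of_tendsto_nhds
      (Continuous.tendsto' (by fun_prop) _ _ (by simp [S.ν_ne r]))
  have hev : ∀ r ∉ S.inf, ∀ᶠ u in 𝓝[≠] (0 : ℂ), S.xx r + u ^ S.ν r ∉ Z ∧
      (S.ψ r).symm u ∈ S.fb (S.xx r + u ^ S.ν r) := fun r hr =>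
    (RS.ev_notMem R.fin _ (S.ν_ne r)).and (nhdsWithin_le_nhds (S.aff_ev hr))
  have h2 : ∀ (o : D.A), ∀ r ∉ S.inf, S.lc (S.val E o) r =O[𝓝[≠] 0] fun _ => (1 : ℝ) := by
    intro o r hr
    obtain ⟨m, hm⟩ := D.exists_deg o
    obtain ⟨c, -, H⟩ := h1 m o hm
    have t : Tendsto (fun u : ℂ => c * (1 + ‖S.xx r + u ^ S.ν r‖) ^ m) (𝓝[≠] 0)
        (𝓝 (c * (1 + ‖S.xx r‖) ^ m)) := (((hx r).norm.const_add 1).pow m).const_mul c
    refine IsBigO.trans (IsBigO.of_bound' ?_) (t.isBigO_one ℝ)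
    filter_upwards [hev r hr] with u hu
    exact (H _ hu.1 _ hu.2).trans (le_abs_self _)
  refine ⟨h1, h2, fun l r hr hP => ans1_mer ?_ (ans1_pow (b := S.inf.ncard) ?_)⟩
  · have m : MeromorphicAt (fun u : ℂ => ∑ i, (D.du l i).eval (S.xx r + u ^ S.ν r) *
        E ((S.ψ r).symm u) i) 0 := by
      refine MeromorphicAt.fun_sum fun i _ => MeromorphicAt.fun_mul ?_ (R.mer r hr i)
      exact (((D.du l i).differentiable.comp (by fun_prop :
        Differentiable ℂ fun u : ℂ => S.xx r + u ^ S.ν r)).analyticAt 0).meromorphicAt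
    refine m.congr ?_
    filter_upwards [hev r hr] with u hu
    simp only [RS.lc, Function.comp_apply, RS.val]
    rw [hu.2.2]
  · obtain ⟨y, hy⟩ := hAYN _ D l
    have t : Tendsto (fun u : ℂ => D.P.eval (S.xx r + u ^ S.ν r)) (𝓝[≠] 0) (𝓝 0) := by
      have := (D.P.continuous.tendsto _).comp (hx r)
      rwa [hP] at this
    have o := ((isLittleO_one_iff ℝ).2 t).mul_isBigO (h2 y r hr)
    simp only [mul_one] at o
    refine ((isLittleO_one_iff ℝ).1 o).congr' ?_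
    filter_upwards [hev r hr] with u hu
    have p := (R.pt _ hu.1 _ hu.2).1
    rw [RS.lc, RS.lc, Function.comp_apply, Function.comp_apply, RS.val_eq hu.2 p,
      RS.val_eq hu.2 p, ← map_pow, ← map_pow, hy, Str.mapA_smul, map_smul]
    rfl

end Pool.Agent.P.MP_ab0431_ag.UB

namespace Pool.Agent.P.MP_ab0431_ag.UB

open Polynomial Set Filter Topology Asymptotics

namespace ANSPa

theorem inv1 {Q : ℂ[X]} {x : ℂ} {ν : ℕ} (hν : ν ≠ 0) (h : Q.eval x ≠ 0) :
    (fun u : ℂ => (Q.eval (x + u ^ ν))⁻¹) =O[𝓝[≠] 0] fun _ => (1 : ℂ) :=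
  (((Continuous.tendsto' (by fun_prop) 0 (Q.eval x) (by simp [hν])).inv₀ h).isBigO_one ℂ).mono
    nhdsWithin_le_nhds

theorem inv2 {P : ℂ[X]} {x : ℂ} {ν : ℕ} (hν : ν ≠ 0) (hP : P.Separable) (h : P.eval x = 0) :
    (fun u : ℂ => (P.eval (x + u ^ ν))⁻¹) =O[𝓝[≠] 0] fun u => (u ^ ν)⁻¹ := by
  obtain ⟨Q, rfl⟩ := dvd_iff_isRoot.2 h
  have : Q.eval x ≠ 0 := fun e => not_isUnit_X_sub_C x
    (hP.squarefree _ (mul_dvd_mul_left _ (dvd_iff_isRoot.2 e)))
  simpa [mul_comm] using (isBigO_refl (fun u : ℂ => (u ^ ν)⁻¹) _).mul (inv1 hν this)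

theorem inv3 {P : ℂ[X]} (hP : P.Monic) :
    (fun u : ℂ => (P.eval u⁻¹)⁻¹) =O[𝓝[≠] 0] fun u => u ^ P.natDegree := by
  have h := (inv1 (Q := P.reverse) (x := 0) one_ne_zero (by
    rw [← coeff_zero_eq_eval_zero, coeff_zero_reverse, hP.leadingCoeff]; exact one_ne_zero)).mul
    (isBigO_refl (fun u : ℂ => u ^ P.natDegree) _)
  refine h.congr' (eventually_mem_nhdsWithin.mono fun u hu => ?_) (.of_forall fun u => one_mul _)
  have := invertibleOfNonzero (inv_ne_zero hu)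
  have e := eval₂_reverse_mul_pow (RingHom.id ℂ) u⁻¹ P
  rw [invOf_eq_inv, inv_inv, eval₂_id, eval₂_id] at e
  simp [← e, mul_comm]

theorem big {f : ℂ → ℂ} {c : ℝ} {m : ℕ} (h : ∀ᶠ u in 𝓝[≠] (0 : ℂ), ‖f u‖ ≤ c * (1 + ‖u⁻¹‖) ^ m) :
    f =O[𝓝[≠] 0] fun u => u⁻¹ ^ m := by
  have h1 : (fun u : ℂ => 1 + ‖u⁻¹‖) =O[𝓝[≠] 0] fun u => u⁻¹ := by
    refine IsBigO.add (.of_bound 1 ?_) (isBigO_refl _ _).norm_left
    filter_upwards [nhdsWithin_le_nhds (Metric.ball_mem_nhds (0 : ℂ) one_pos),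
      self_mem_nhdsWithin] with u a b
    rw [norm_one, one_mul, norm_inv]
    exact (one_le_inv₀ (norm_pos_iff.2 b)).2 (mem_ball_zero_iff.1 a).le
  refine (IsBigO.of_bound c (h.mono fun u hu => ?_)).trans (h1.pow m)
  rwa [Real.norm_of_nonneg (by positivity)]

end ANSPa

open ANSPa in
theorem p_ANSP (hANS1 : S_ANS1) (hACH0 : S_ACH0) (hASH1 : S_ASH1) (hTUP : S_TUP) (hCHP : S_CHP) (hCHS : S_CHS) :
    S_ANSP := by
  intro S D Z E M n φ τ hR hP hn hφ h1 h2 l
  by_contra hl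
  have hM : M ≠ 0 := by omega
  obtain ⟨n1, n2, n3⟩ := hANS1 S D Z E hR
  obtain ⟨y, hy⟩ : ∃ y, y = S.val E (D.du l) := ⟨_, rfl⟩
  have hZ : (Z ∪ {x | D.P.IsRoot x}).Finite := hR.fin.union (finite_setOfPred_isRoot D.P_monic.ne_zero)
  have ev : ∀ r ∉ S.inf, ∀ᶠ u in 𝓝 (0 : ℂ), S.xx ((S.ψ r).symm u) = S.xx r + u ^ S.ν r :=
    fun r hr => (S.aff_ev hr).mono fun u hu => hu.2
  obtain ⟨G, -, g2, g3, g4, g5⟩ := hACH0 S _ 0
    (fun r => y r ^ M * φ r * (D.P.eval (S.xx r))⁻¹ ^ M) (fun _ => 0) hZ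
    (hR.cv.trans subset_union_left) (fun r hr hx => by
      have ax : ∀ p : ℂ[X], AnalyticAt ℂ (fun u => p.eval (S.xx ((S.ψ r).symm u))) 0 := fun p =>
        (show AnalyticAt ℂ (fun u : ℂ => p.eval (S.xx r + u ^ S.ν r)) 0 from
          (p.differentiable.analyticAt _).comp (by fun_prop)).congr
          ((ev r hr).mono fun u hu => by simp only [hu])
      have ay : AnalyticAt ℂ (S.lc y r) 0 := by
        rw [hy]
        change AnalyticAt ℂ (fun u => ∑ i, (D.du l i).eval (S.xx ((S.ψ r).symm u)) *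
          E ((S.ψ r).symm u) i) 0
        exact Finset.analyticAt_fun_sum _ fun i _ => (ax (D.du l i)).mul
          (analyticAt_pi_iff.1 (hR.pt _ (fun h => hx (.inl h)) r ⟨hr, rfl⟩).2 i)
      exact ((ay.pow M).mul (hφ.1 r hr)).mul (((ax _).inv (by
        rw [S.symm_zero]; exact fun h => hx (.inr h))).pow M))
    (fun r hr => by
      have bφ := ((hφ.1 r hr).continuousAt.tendsto.isBigO_one ℂ).mono
        (nhdsWithin_le_nhds (s := {0}ᶜ))
      have e : (fun u => S.lc y r u ^ M * S.lc φ r u * (D.P.eval (S.xx r + u ^ S.ν r))⁻¹ ^ M)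
          =ᶠ[𝓝[≠] 0] S.lc (fun r => y r ^ M * φ r * (D.P.eval (S.xx r))⁻¹ ^ M) r :=
        ((ev r hr).filter_mono nhdsWithin_le_nhds).mono fun u hu => by
          simp only [RS.lc, Function.comp, hu]
      refine IsBigO.congr' ?_ e .rfl
      rw [hy]
      by_cases h0 : D.P.eval (S.xx r) = 0
      · have i2 := (inv2 (S.ν_ne r) hP h0).pow M
        rw [isBigO_one_iff, ← isBigO_one_iff ℂ]
        rcases S.ν12 r with e | e
        · refine ((((n3 l r hr h0).pow M).mul bφ).mul i2).congr' .rfl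
            (eventually_mem_nhdsWithin.mono fun u hu => ?_)
          simp [e, mul_inv_cancel₀ (pow_ne_zero M hu)]
        · refine ((((n3 l r hr h0).pow M).mul ((h2 r e).mono nhdsWithin_le_nhds)).mul i2).congr'
            .rfl (eventually_mem_nhdsWithin.mono fun u hu => ?_)
          simp only [e]
          rw [← mul_pow, ← mul_pow, ← sq, mul_inv_cancel₀ (pow_ne_zero 2 hu), one_pow]
      · have := n2 (D.du l) r hr
        rw [isBigO_one_iff, ← isBigO_one_iff ℂ] at this ⊢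
        simpa using ((this.pow M).mul bφ).mul ((inv1 (S.ν_ne r) h0).pow M))
    (fun r hr => by
      obtain ⟨c, -, hc⟩ := n1 _ _ ((hTUP ℂ _ D).choose_spec.2.2.2.2.2 l)
      obtain ⟨g, a1, -, a3⟩ := hφ.2 r hr
      have b1 : S.lc y r =O[𝓝[≠] 0] fun u => u⁻¹ ^ (D.w - D.a l) := big (c := c) (by
        filter_upwards [S.inf_ev hr, RS.ev_inv_notMem hR.fin] with u a b using hy ▸ hc _ b _ a)
      have b2 : S.lc φ r =O[𝓝[≠] 0] fun u => u⁻¹ ^ n := by
        refine (((a1.continuousAt.tendsto.isBigO_one ℂ).mono nhdsWithin_le_nhds).mul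
          (isBigO_refl (fun u : ℂ => u⁻¹ ^ n) _)).congr' ?_ (.of_forall fun u => one_mul _)
        filter_upwards [a3, self_mem_nhdsWithin] with u a b
        rw [← a, mul_assoc, ← mul_pow, mul_inv_cancel₀ b, one_pow, mul_one]
      obtain ⟨k, hk⟩ : ∃ k, D.w * M = (D.w - D.a l) * M + n + (k + 1) := by
        have : D.a l ≤ ∑ i, D.a i :=
          Finset.single_le_sum (fun _ _ => Nat.zero_le _) (Finset.mem_univ l)
        obtain ⟨t, ht⟩ : ∃ t, D.w = t + D.a l := ⟨D.w - D.a l, by unfold Dat.w; omega⟩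
        have := Nat.mul_le_mul_right M (show 6 ≤ D.a l by omega)
        exact ⟨D.a l * M - n - 1, by rw [ht, Nat.add_sub_cancel, add_mul]; omega⟩
      refine ((((b1.pow M).mul b2).mul ((inv3 D.P_monic).pow M)).congr' ?_
        (g₂ := fun u => u ^ (k + 1)) ?_).trans_tendsto (tendsto_nhdsWithin_of_tendsto_nhds
          (Continuous.tendsto' (by fun_prop) _ _ (by simp)))
      · filter_upwards [S.inf_ev hr] with u a
        simp only [RS.lc, Function.comp, a.2, pow_zero, mul_one]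
      · filter_upwards [self_mem_nhdsWithin] with u b
        rw [D.P_natDegree, ← pow_mul, ← pow_mul, hk, ← pow_add, pow_add u, ← mul_assoc, ← mul_pow,
          inv_mul_cancel₀ b, one_pow, one_mul])
  obtain ⟨x, hx⟩ := hZ.exists_notMem
  have hx1 : x ∉ Z := fun h => hx (.inl h)
  have hx2 : D.P.eval x ≠ 0 := fun h => hx (.inr h)
  obtain ⟨e, he, -⟩ := (hASH1 S).1 x fun h => hx1 (hR.cv h)
  obtain ⟨e', he', -⟩ := (hASH1 S).2
  have hG : G.map (evalRingHom x) = top S.inf.ncard 0 G := by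
    conv_lhs => rw [G.as_sum_range' _ (Nat.lt_succ_of_le g2.le), Polynomial.map_sum]
    refine Finset.sum_congr rfl fun j _ => ?_
    rw [map_monomial, zero_mul, eq_C_of_natDegree_le_zero (p := G.coeff j)
      (natDegree_le_iff_coeff_eq_zero.2 fun k hk => g3 j k (by omega))]
    simp
  rw [g4 x hx, g5, he.finprod, he'.finprod] at hG
  have pt := fun j => (hR.pt x hx1 _ (he.mem j)).1
  have y0 : ∀ j, (pt j).hom (D.toStr.mapA (evalRingHom x) (D.du l)) = 0 := fun j => by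
    have := congrArg (eval (y (e j) ^ M * φ (e j) * (D.P.eval (S.xx (e j)))⁻¹ ^ M)) hG
    rw [eval_prod, eval_prod, Finset.prod_eq_zero (Finset.mem_univ j) (by simp), eq_comm,
      Finset.prod_eq_zero_iff] at this
    obtain ⟨-, -, this⟩ := this
    rw [← RS.val_eq (he.mem j), ← hy]
    simpa [hM, (he.mem j).2, hx2, h1 _ (he.mem j).1 (S.ν_one (fun h => hx1 (hR.cv h)) (he.mem j))]
      using this
  have t := ((hCHP ℂ _ (D.fib x) _ pt).2.1 (isUnit_iff_ne_zero.2 (hR.det x hx1 e he))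
    (D.toStr.mapA (evalRingHom x) (D.du l * D.e l))).2
  rw [Str.tr_map, (hCHS _ _ _ _).2.2.1, D.hd, Finset.sum_eq_zero fun j _ => by
    rw [← (pt j).hom_apply, map_mul, map_mul, y0, zero_mul]] at t
  simp [Str.e_apply, hx2] at t

end Pool.Agent.P.MP_ab0431_ag.UB

namespace Pool.Agent.P.MP_ab0431_ag.UB

open Polynomial Set Filter Topology

theorem p_AALG (hACHR : S_ACHR) (hAGOOD : S_AGOOD) (hNORM : S_NORM) (hAREP : S_AREP) (hAPS : S_APS) (hANSP : S_ANSP) (hRFIN : S_RFIN) :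
    S_AALG := by
  intro S z τ hG
  obtain ⟨F, h1, h2, h3, h4, h5⟩ := hACHR S 1 z τ hG.cl
  have e : toP (co S.inf.ncard 6 F) = F := toP_co h1 h2 fun j n h => h3 j n (by omega)
  obtain ⟨g1, g2⟩ := hAGOOD S z τ (co _ 6 F) hG (e.symm ▸ h3) (e.symm ▸ h4) (e.symm ▸ h5)
  rw [e] at g2
  obtain ⟨D, s, m1, m2, m3, m4⟩ := hNORM ℂ _ 1 F h1 h2 h3 g2
  obtain ⟨Z, E, hR⟩ := hAREP S z D s hG.cl.1 m4 (m3.symm ▸ h4)
  obtain ⟨p1, p2⟩ := hAPS S z τ D Z E hG hR m1
  obtain ⟨M, n, φ, τ', n1, n2, n3, n4⟩ := hG.neg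
  refine ⟨D.w, co _ 6 F, p2, ⟨D, rfl, p1, hANSP S D Z E M n φ τ' hR p1 n1 n2 n3 n4, s,
    fun i k h => m2 i k (by omega), by rw [m3]⟩, g1, fun x => ⟨(hRFIN S).2.2.1 x, ?_⟩,
    (hRFIN S).1, ?_⟩
  · rw [e]; exact h4 x
  · rw [e]; exact h5

end Pool.Agent.P.MP_ab0431_ag.UB
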