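import Pool.Agent.P.MP_ab0431_ag.UB.IfaceA

/-! Steps TAY JET ORDB GEN0 HOLD APX JETF GENE0. -/

set_option autoImplicit false
set_option linter.unusedSectionVars false
set_option linter.unusedVariables false

namespace Pool.Agent.P.MP_ab0431_ag.UB

open Polynomial Set Filter Topology Asymptotics MeasureTheory
open scoped Manifold ContDiff

/-- Polynomial functions of bidegree at most four. -/
def pol_tay : Submodule ℂ (C2 → ℂ) := LinearMap.range
  ({ toFun := fun a y => ∑ i, ∑ j, a i j * y 0 ^ (i : ℕ) * y 1 ^ (j : ℕ)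
     map_add' := fun a b => by ext y; simp [add_mul, Finset.sum_add_distrib]
     map_smul' := fun c a => by ext y; simp [Finset.mul_sum, mul_assoc] } :
    (Fin 5 → Fin 5 → ℂ) →ₗ[ℂ] (C2 → ℂ))

theorem mono_tay {i j : ℕ} (hi : i < 5) (hj : j < 5) :
    (fun y : C2 => y 0 ^ i * y 1 ^ j) ∈ pol_tay := by
  refine ⟨Pi.single ⟨i, hi⟩ (Pi.single ⟨j, hj⟩ 1), funext fun y => ?_⟩
  simp only [LinearMap.coe_mk, AddHom.coe_mk]
  rw [Finset.sum_eq_single ⟨i, hi⟩, Finset.sum_eq_single ⟨j, hj⟩]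
  · simp
  · intro b _ hb; simp [hb]
  · simp
  · intro b _ hb; simp [hb]
  · simp

theorem term_tay {k : ℕ} (hk : k < 5) (p : ContinuousMultilinearMap ℂ (fun _ : Fin k => C2) ℂ) :
    (fun y : C2 => p fun _ => y) ∈ pol_tay := by
  have e : (fun y : C2 => p fun _ => y) = ∑ r : Fin k → Fin 2,
      p (fun l => Pi.single (r l) 1) • fun y : C2 =>
        y 0 ^ (Finset.univ.filter fun l => r l = 0).card *
          y 1 ^ (Finset.univ.filter fun l => r l = 1).card := by
    funext y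
    have h1 : y = ∑ b : Fin 2, y b • (Pi.single b 1 : C2) := by
      ext b; fin_cases b <;> simp
    have h2 : (p fun _ => y) = p fun _ => ∑ b : Fin 2, y b • (Pi.single b 1 : C2) := by rw [← h1]
    rw [h2, p.map_sum fun _ (b : Fin 2) => y b • (Pi.single b 1 : C2), Finset.sum_apply]
    refine Finset.sum_congr rfl fun r _ => ?_
    rw [p.map_smul_univ, ← Finset.prod_fiberwise' Finset.univ r y, Fin.prod_univ_two,
      Finset.prod_const, Finset.prod_const, Pi.smul_apply, smul_eq_mul, smul_eq_mul, mul_comm]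
  rw [e]
  have h3 : ∀ s : Finset (Fin k), s.card < 5 := fun s =>
    (s.card_le_univ.trans_eq (Fintype.card_fin k)).trans_lt hk
  exact Submodule.sum_mem _ fun r _ => Submodule.smul_mem _ _ (mono_tay (h3 _) (h3 _))

theorem p_TAY :
    S_TAY := by
  intro x₀ x₁ T ζ h0 h1 hT z0 z1 hj
  let Φ : C2 → C2 := fun y => ![x₀ y, x₁ y]
  have hΦ : AnalyticAt ℂ Φ ζ := analyticAt_pi_iff.2 fun i => by fin_cases i <;> assumption
  have Φ0 : Φ ζ = 0 := by ext i; fin_cases i <;> assumption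
  have hd : ∀ (v : C2) (i : Fin 2), fderiv ℂ Φ ζ v i = fderiv ℂ (fun y => Φ y i) ζ v := by
    intro v i
    rw [fderiv_apply hΦ.differentiableAt i]; rfl
  have inj : Function.Injective (fderiv ℂ Φ ζ : C2 →ₗ[ℂ] C2) := by
    refine (injective_iff_map_eq_zero _).2 fun v hv => ?_
    have a0 : fderiv ℂ x₀ ζ v = 0 := (hd v 0).symm.trans (congrFun hv 0)
    have a1 : fderiv ℂ x₁ ζ v = 0 := (hd v 1).symm.trans (congrFun hv 1)
    rw [fderiv_apply_pd] at a0 a1
    unfold jac at hj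
    ext i
    fin_cases i
    · refine mul_left_cancel₀ hj ?_
      simp only [Fin.zero_eta, Pi.zero_apply, mul_zero]
      linear_combination pd 1 x₁ ζ * a0 - pd 1 x₀ ζ * a1
    · refine mul_left_cancel₀ hj ?_
      simp only [Fin.mk_one, Pi.zero_apply, mul_zero]
      linear_combination pd 0 x₀ ζ * a1 - pd 0 x₁ ζ * a0
  let L : C2 ≃L[ℂ] C2 := (LinearEquiv.ofInjectiveEndo _ inj).toContinuousLinearEquiv
  have hL : HasFDerivAt Φ (L : C2 →L[ℂ] C2) ζ := hΦ.differentiableAt.hasFDerivAt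
  have hC : ContDiffAt ℂ ω Φ ζ := hΦ.contDiffAt
  have hψ := (hC.to_localInverse hL (by simp)).analyticAt
  have hψ0 := hC.localInverse_apply_image hL (by simp)
  have hl : ∀ᶠ y in 𝓝 ζ, hC.localInverse hL (by simp) (Φ y) = y :=
    (hC.hasStrictFDerivAt' hL (by simp)).eventually_left_inverse
  obtain ⟨p, hp⟩ := AnalyticAt.comp_of_eq hT hψ hψ0
  rw [Φ0] at hp
  have hb := hp.isBigO_sub_partialSum_pow 5
  have hpol : (fun y : C2 => p.partialSum 5 y) ∈ pol_tay := by
    have : (fun y : C2 => p.partialSum 5 y) = ∑ k ∈ Finset.range 5, fun y : C2 => p k fun _ => y := by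
      funext y; rw [Finset.sum_apply]; rfl
    rw [this]
    exact Submodule.sum_mem _ fun k hk => term_tay (Finset.mem_range.1 hk) _
  obtain ⟨a, ha⟩ := hpol
  have ht : Tendsto Φ (𝓝 ζ) (𝓝 0) := Φ0 ▸ hΦ.continuousAt.tendsto
  have hO : Φ =O[𝓝 ζ] fun y => y - ζ := by simpa [Φ0] using hL.isBigO_sub
  refine ⟨a, ((hb.comp_tendsto ht).congr' ?_ EventuallyEq.rfl).trans (hO.norm_norm.pow 5)⟩
  filter_upwards [hl] with y hy
  simp only [Function.comp_apply, zero_add, hy]
  rw [← congrFun ha (Φ y)]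
  rfl

end Pool.Agent.P.MP_ab0431_ag.UB

namespace Pool.Agent.P.MP_ab0431_ag.UB

open Polynomial Set Filter Topology Asymptotics MeasureTheory
open scoped Manifold ContDiff

theorem pd_jet {f g : C2 → ℂ} {ζ : C2} (hf : AnalyticAt ℂ f ζ) (hg : AnalyticAt ℂ g ζ)
    (h : f ζ = 0) (i : Fin 2) : pd i (f * g) ζ = g ζ * pd i f ζ := by
  rw [pd, fderiv_mul hf.differentiableAt hg.differentiableAt, h]
  simp [pd]

theorem loc_jet (hTAY : S_TAY) {u l0 l1 l2 T : C2 → ℂ} {ζ : C2} (hu : AnalyticAt ℂ u ζ)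
    (h0 : AnalyticAt ℂ l0 ζ) (h1 : AnalyticAt ℂ l1 ζ) (h2 : AnalyticAt ℂ l2 ζ)
    (hT : AnalyticAt ℂ T ζ) (u0 : u ζ ≠ 0) (z0 : l0 ζ ≠ 0) (z1 : l1 ζ = 0) (z2 : l2 ζ = 0)
    (hj : jac l1 l2 ζ ≠ 0) : ∃ a : Fin 5 → Fin 5 → ℂ, (fun y => u y * (∑ i, ∑ j, a i j *
      (l1 y ^ (i : ℕ) * l2 y ^ (j : ℕ) * l0 y ^ (8 - (i + j : ℕ)))) - T y) =O[𝓝 ζ]
        fun y => ‖y - ζ‖ ^ 5 := by
  have hi := h0.inv z0
  have hg := hu.mul (h0.pow 8)
  have g0 : (u * l0 ^ 8) ζ ≠ 0 := mul_ne_zero u0 (pow_ne_zero 8 z0)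
  obtain ⟨a, ha⟩ := hTAY (l1 * l0⁻¹) (l2 * l0⁻¹) (T / (u * l0 ^ 8)) ζ (h1.mul hi) (h2.mul hi)
    (hT.div hg g0) (by simp [z1]) (by simp [z2]) (by
      rw [jac, pd_jet h1 hi z1, pd_jet h1 hi z1, pd_jet h2 hi z2, pd_jet h2 hi z2]
      intro h
      refine mul_ne_zero (pow_ne_zero 2 (inv_ne_zero z0)) hj ?_
      rw [jac]
      simp only [Pi.inv_apply] at h
      linear_combination h)
  refine ⟨a, (((hg.continuousAt.tendsto.isBigO_one ℝ).mul ha).neg_left.congr' ?_
    (Eventually.of_forall fun y => one_mul _))⟩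
  filter_upwards [h0.continuousAt.eventually_ne z0, hg.continuousAt.eventually_ne g0] with y a0 a1
  rw [Pi.div_apply, mul_sub, mul_div_cancel₀ _ a1, neg_sub, Pi.mul_apply, mul_assoc,
    Finset.mul_sum]
  congr 2
  refine Finset.sum_congr rfl fun i _ => ?_
  rw [Finset.mul_sum]
  refine Finset.sum_congr rfl fun j _ => ?_
  obtain ⟨d, hd⟩ : ∃ d, 8 = (i + j : ℕ) + d := ⟨8 - (i + j), by have := i.2; have := j.2; omega⟩
  rw [Pi.pow_apply, Pi.mul_apply, Pi.mul_apply, Pi.inv_apply, hd, Nat.add_sub_cancel_left,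
    mul_pow, mul_pow, inv_pow, inv_pow, pow_add, pow_add]
  field_simp

theorem minor_jet {ι : Type} (f : ι → C2 → ℂ) (ζ : C2)
    (h : ∀ v, (∀ i, fderiv ℂ (f i) ζ v = 0) → v = 0) : ∃ i j, jac (f i) (f j) ζ ≠ 0 := by
  by_contra hc
  push Not at hc
  have h1 : ∀ i, pd 0 (f i) ζ = 0 := fun i => by
    have := h ![-pd 1 (f i) ζ, pd 0 (f i) ζ] fun j => by
      have := hc i j
      rw [jac] at this
      rw [fderiv_apply_pd]
      simp only [Matrix.cons_val_zero, Matrix.cons_val_one]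
      linear_combination this
    simpa using congrFun this 1
  simpa using congrFun (h _ h1) 0

theorem prod_jet {A ι : Type} [CommRing A] [Algebra ℂ A] {P : Submodule ℂ A} (S : Finset ι)
    {f : ι → A} (h : ∀ i, f i ∈ P) : ∏ i ∈ S, f i ∈ P ^ S.card := by
  classical
  induction S using Finset.induction_on with
  | empty => simpa using Submodule.one_le.1 (le_refl (1 : Submodule ℂ A))
  | insert a S ha ih =>
    rw [Finset.prod_insert ha, Finset.card_insert_of_notMem ha, pow_succ']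
    exact Submodule.mul_mem_mul (h a) ih

theorem p_JET (hTAY : S_TAY) :
    S_JET := by
  classical
  rintro X m ⟨N, σ, hσ, hv⟩
  let τ : (Fin 20 → Fin N) → Sec X := fun f => ∏ i, σ (f i)
  let E := Fintype.equivFin (Fin 20 → Fin N)
  refine ⟨_, τ ∘ E.symm, fun i => by
    simpa using isForm_prod Finset.univ fun j _ => hσ (E.symm i j), fun r p e T hr hp he hT => ?_⟩
  let P : Submodule ℂ (Sec X) := Submodule.span ℂ (range σ)
  have m0 : ∀ i, σ i ∈ P := fun i => Submodule.subset_span ⟨i, rfl⟩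
  have an1 : ∀ s ∈ P, ∀ j, AnalyticAt ℂ (s (e j)) (e j (p j)) := fun s hs j =>
    isForm_analyticAt (m := m) (Submodule.span_induction (p := fun s _ => IsForm X.X m s)
      (by rintro _ ⟨i, rfl⟩; exact hσ i) isForm_zero
      (fun _ _ _ _ => isForm_add) (fun c _ _ => isForm_smul c) hs) (he j).1
        ((e j).map_source (he j).2)
  have an : ∀ {k : ℕ} {s : Sec X}, s ∈ P ^ k → ∀ j, AnalyticAt ℂ (s (e j)) (e j (p j)) :=
    fun hs j => Submodule.pow_induction_on_left P
      (C := fun s => AnalyticAt ℂ (s (e j)) (e j (p j))) (fun _ => analyticAt_const)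
      (fun _ _ a b => a.add b) (fun s hs _ b => (an1 s hs j).mul b) hs
  have sep : ∀ j k, k ≠ j → ∃ w ∈ P, w (e j) (e j (p j)) ≠ 0 ∧ w (e k) (e k (p k)) = 0 := by
    intro j k hk
    obtain ⟨i1, h1⟩ := (hv _ (he k).1 _ (he k).2).1
    have h2 := mt ((hv _ (he j).1 _ (he j).2).2.2 _ (he k).1 _ (he k).2
      (σ i1 (e j) (e j (p j)) / σ i1 (e k) (e k (p k)))) fun h => hk (hp h).symm
    obtain ⟨i, hi⟩ := not_forall.1 h2
    refine ⟨σ i - (σ i (e k) (e k (p k)) / σ i1 (e k) (e k (p k))) • σ i1,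
      sub_mem (m0 i) (P.smul_mem _ (m0 i1)), fun h => hi ?_, ?_⟩
    · simp only [Pi.sub_apply, Pi.smul_apply, smul_eq_mul] at h
      linear_combination h
    · simp only [Pi.sub_apply, Pi.smul_apply, smul_eq_mul, div_mul_cancel₀ _ h1, sub_self]
  have one : ∀ j, ∃ s ∈ P ^ 20, ∀ k, (fun y => s (e k) y - if j = k then T k y else 0)
      =O[𝓝 (e k (p k))] fun y => ‖y - e k (p k)‖ ^ 5 := by
    intro j
    obtain ⟨⟨i0, z0⟩, him, -⟩ := hv _ (he j).1 _ (he j).2
    let φ : Fin N → Sec X := fun i =>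
      σ i - (σ i (e j) (e j (p j)) / σ i0 (e j) (e j (p j))) • σ i0
    have mφ : ∀ i, φ i ∈ P := fun i => sub_mem (m0 i) (P.smul_mem _ (m0 i0))
    have zφ : ∀ i, φ i (e j) (e j (p j)) = 0 := fun i => by
      simp only [φ, Pi.sub_apply, Pi.smul_apply, smul_eq_mul, div_mul_cancel₀ _ z0, sub_self]
    obtain ⟨i1, i2, hj⟩ := minor_jet (fun i => φ i (e j)) (e j (p j)) fun v h =>
      him v (fderiv ℂ (σ i0 (e j)) (e j (p j)) v / σ i0 (e j) (e j (p j))) fun i => by
        have := h i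
        simp only [φ, Pi.sub_apply, Pi.smul_apply] at this
        rw [fderiv_sub (an1 _ (m0 i) j).differentiableAt
          ((an1 _ (m0 i0) j).differentiableAt.const_smul _),
          fderiv_const_smul (an1 _ (m0 i0) j).differentiableAt] at this
        simp only [_root_.sub_apply, _root_.smul_apply, smul_eq_mul] at this
        linear_combination this
    have hw : ∀ k, ∃ w ∈ P, k ≠ j → w (e j) (e j (p j)) ≠ 0 ∧ w (e k) (e k (p k)) = 0 :=
      fun k => by
        by_cases hk : k = j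
        · exact ⟨0, zero_mem _, fun h => absurd hk h⟩
        · exact (sep j k hk).imp fun _ h => ⟨h.1, fun _ => h.2⟩
    choose w mw hw using hw
    have mW := prod_jet (Finset.univ.erase j) mw
    have hc : (Finset.univ.erase j).card ≤ 2 := by
      rw [Finset.card_erase_of_mem (Finset.mem_univ j), Finset.card_univ, Fintype.card_fin]
      omega
    have W0 : (∏ k ∈ Finset.univ.erase j, w k) (e j) (e j (p j)) ≠ 0 := by
      simp only [Finset.prod_apply]
      exact Finset.prod_ne_zero_iff.2 fun k hk => (hw k (Finset.ne_of_mem_erase hk)).1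
    have W1 : ∀ k, k ≠ j → (∏ k ∈ Finset.univ.erase j, w k) (e k) (e k (p k)) = 0 :=
      fun k hk => by
        simp only [Finset.prod_apply]
        exact Finset.prod_eq_zero (Finset.mem_erase.2 ⟨hk, Finset.mem_univ k⟩) (hw k hk).2
    generalize ∏ k ∈ Finset.univ.erase j, w k = W at mW W0 W1
    generalize (Finset.univ.erase j).card = c at mW hc
    have m1 := Submodule.pow_mem_pow _ mW 5
    have m2 := Submodule.pow_mem_pow _ (m0 i0) (12 - c * 5)
    rw [← pow_mul] at m1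
    obtain ⟨a, ha⟩ := loc_jet hTAY (an (Submodule.mul_mem_mul m1 m2 |> (pow_add P _ _).ge) j)
      (an1 _ (m0 i0) j) (an1 _ (mφ i1) j) (an1 _ (mφ i2) j) (hT j)
      (mul_ne_zero (pow_ne_zero _ W0) (pow_ne_zero _ z0)) z0 (zφ i1) (zφ i2) hj
    have m3 : ∑ i : Fin 5, ∑ l : Fin 5, a i l •
        (φ i1 ^ (i : ℕ) * φ i2 ^ (l : ℕ) * σ i0 ^ (8 - (i + l : ℕ))) ∈ P ^ 8 :=
      sum_mem fun i _ => sum_mem fun l _ => Submodule.smul_mem _ _ (by
        have := Submodule.mul_mem_mul (Submodule.mul_mem_mul (Submodule.pow_mem_pow _ (mφ i1) i)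
          (Submodule.pow_mem_pow _ (mφ i2) l)) (Submodule.pow_mem_pow _ (m0 i0) (8 - (i + l)))
        rwa [← pow_add, ← pow_add, show (i + l : ℕ) + (8 - (i + l)) = 8 by
          have := i.2; have := l.2; omega] at this)
    have m4 := Submodule.mul_mem_mul m2 m3
    have m5 := Submodule.mul_mem_mul m1 m4
    rw [← pow_add] at m4
    rw [← pow_add, ← pow_add, show c * 5 + (12 - c * 5 + 8) = 20 by omega] at m5
    refine ⟨_, m5, fun k => ?_⟩
    by_cases hk : j = k
    · subst hk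
      refine ha.congr_left fun y => ?_
      simp [mul_assoc]
    · have b1 := ((an mW k).differentiableAt.isBigO_sub.norm_right.pow 5).mul
        ((an m4 k).continuousAt.tendsto.isBigO_one ℝ)
      refine b1.congr (fun y => ?_) fun y => mul_one _
      simp only [W1 k (Ne.symm hk), if_neg hk, sub_zero]
      rfl
  choose s ms hs using one
  have m6 : ∑ j, s j ∈ Submodule.span ℂ (range (τ ∘ E.symm)) := by
    refine (?_ : P ^ 20 ≤ _) (sum_mem fun j _ => ms j)
    rw [Submodule.span_pow]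
    refine Submodule.span_mono fun x hx => ?_
    obtain ⟨f, rfl⟩ := Set.mem_pow.1 hx
    choose g hg using fun i => (f i).2
    exact ⟨E g, by simp only [Function.comp_apply, E.symm_apply_apply, τ, hg, List.prod_ofFn]⟩
  obtain ⟨a, ha⟩ := (Submodule.mem_span_range_iff_exists_fun ℂ).1 m6
  refine ⟨a, fun k => (IsBigO.sum (s := Finset.univ) fun j _ => hs j k).congr_left fun y => ?_⟩
  rw [ha]
  simp

end Pool.Agent.P.MP_ab0431_ag.UB

namespace Pool.Agent.P.MP_ab0431_ag.UB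

open Polynomial Set Filter Topology Asymptotics MeasureTheory
open scoped Manifold ContDiff

theorem key_ordb (g : ℂ → ℂ) (hg : AnalyticAt ℂ g 0) (n : ℕ)
    (h : g =O[𝓝 0] fun v : ℂ => v ^ n) :
    ∃ h, AnalyticAt ℂ h 0 ∧ ∀ᶠ v in 𝓝 0, g v = v ^ n * h v := by
  induction n with
  | zero => exact ⟨g, hg, Eventually.of_forall fun v => by simp⟩
  | succ n ih =>
    obtain ⟨k, hk, e⟩ := ih (h.trans (isLittleO_pow_pow (Nat.lt_succ_self n)).isBigO)
    obtain ⟨C, hC⟩ := h.bound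
    have h0 : k 0 = 0 := by
      have t1 : Tendsto (fun v => ‖k v‖) (𝓝[≠] 0) (𝓝 ‖k 0‖) :=
        hk.continuousAt.norm.tendsto.mono_left nhdsWithin_le_nhds
      have t2 : Tendsto (fun v : ℂ => C * ‖v‖) (𝓝[≠] 0) (𝓝 (C * ‖(0 : ℂ)‖)) :=
        (continuous_const.mul continuous_norm).continuousAt.tendsto.mono_left nhdsWithin_le_nhds
      have := le_of_tendsto_of_tendsto t1 t2 (by
        filter_upwards [nhdsWithin_le_nhds e, nhdsWithin_le_nhds hC, self_mem_nhdsWithin]
          with v a b c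
        have c' : 0 < ‖v ^ n‖ := norm_pos_iff.2 (pow_ne_zero _ c)
        rw [a, norm_mul, pow_succ, norm_mul, mul_left_comm] at b
        exact le_of_mul_le_mul_left b c')
      simpa using this
    obtain ⟨k', hk', e'⟩ := (natCast_le_analyticOrderAt hk (n := 1)).1
      ((natCast_le_analyticOrderAt_iff_iteratedDeriv_eq_zero hk).2 fun i hi => by
        obtain rfl : i = 0 := by omega
        simpa using h0)
    refine ⟨k', hk', ?_⟩
    filter_upwards [e, e'] with v a b
    rw [a, b]; simp [pow_succ, mul_assoc]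

theorem p_ORDB :
    S_ORDB := by
  intro g n hg
  have h2 : (g =O[𝓝 0] fun v : ℂ => v ^ n) ↔
      ∃ h, AnalyticAt ℂ h 0 ∧ ∀ᶠ v in 𝓝 0, g v = v ^ n * h v := by
    refine ⟨key_ordb g hg n, fun ⟨h, hh, e⟩ => ?_⟩
    have := (isBigO_refl (fun v : ℂ => v ^ n) (𝓝 0)).mul (hh.continuousAt.tendsto.isBigO_one ℂ)
    simp only [mul_one] at this
    exact (EventuallyEq.isBigO e).trans this
  refine ⟨?_, h2⟩
  rw [h2, ← natCast_le_analyticOrderAt_iff_iteratedDeriv_eq_zero hg, natCast_le_analyticOrderAt hg]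
  simp only [sub_zero, smul_eq_mul]

end Pool.Agent.P.MP_ab0431_ag.UB

namespace Pool.Agent.P.MP_ab0431_ag.UB

open Polynomial Set Filter Topology Asymptotics MeasureTheory
open scoped Manifold ContDiff

theorem null_image_gen0 {F W : Type} [NormedAddCommGroup F] [NormedSpace ℂ F]
    [FiniteDimensional ℂ F] [NormedAddCommGroup W] [NormedSpace ℂ W] [FiniteDimensional ℂ W]
    [MeasurableSpace W] [BorelSpace W] (μ : Measure W) [μ.IsAddHaarMeasure] {S : Set F}
    {Φ : F → W} (h : DifferentiableOn ℂ Φ S) (hd : Module.finrank ℂ F < Module.finrank ℂ W) :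
    μ (Φ '' S) = 0 := by
  obtain ⟨i, hi⟩ := finrank_le_iff_exists_linearMap.1 hd.le
  obtain ⟨π, hπ⟩ := i.exists_leftInverse_of_injective (LinearMap.ker_eq_bot.2 hi)
  have hs : Function.Surjective π := fun x => ⟨i x, DFunLike.congr_fun hπ x⟩
  obtain ⟨w, hw, hw0⟩ : ∃ w, π w = 0 ∧ w ≠ 0 := by
    by_contra hc
    push Not at hc
    exact hd.not_ge (LinearMap.finrank_le_finrank_of_injective
      (LinearMap.ker_eq_bot.1 (LinearMap.ker_eq_bot'.2 hc)))
  set P : W →L[ℂ] F := LinearMap.toContinuousLinearMap π with hP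
  have e : Φ '' S = (Φ ∘ P) '' (P ⁻¹' S) := by
    rw [image_comp, image_preimage_eq _ (show Function.Surjective P from hs)]
  rw [e]
  refine addHaar_image_eq_zero_of_det_fderivWithin_eq_zero μ
    (f' := fun x => ((fderivWithin ℂ Φ S (P x)).comp P).restrictScalars ℝ) (fun x hx => ?_)
    fun x _ => ?_
  · exact ((h _ hx).hasFDerivWithinAt.comp x P.hasFDerivWithinAt fun _ a => a).restrictScalars ℝ
  · refine LinearMap.det_eq_zero_iff_ker_ne_bot.2 ((Submodule.ne_bot_iff _).2 ⟨w, ?_, hw0⟩)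
    change fderivWithin ℂ Φ S (P x) (π w) = 0
    rw [hw, map_zero]

theorem p_GEN0 :
    S_GEN0 := by
  intro E W κ _ _ _ _ _ _ _ _ μ _ _ Ω L _ hL hs hd
  have key : ∀ q0 ∈ Ω, ∃ V ∈ 𝓝[Ω] q0, μ {a | ∃ q ∈ V, L q a = 0} = 0 := by
    intro q0 h0
    obtain ⟨r, hr⟩ := (L q0).toLinearMap.exists_rightInverse_of_surjective
      (LinearMap.range_eq_top.2 (hs q0 h0))
    set R : (κ → ℂ) →L[ℂ] W := LinearMap.toContinuousLinearMap r with hR
    have hR1 : ∀ b, L q0 (R b) = b := fun b => DFunLike.congr_fun hr b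
    set A : E → (κ → ℂ) →L[ℂ] κ → ℂ := fun q => (L q).comp R with hA
    have hAd : DifferentiableOn ℂ A Ω := hL.clm_comp (differentiableOn_const R)
    have hA0 : A q0 = 1 := ContinuousLinearMap.ext hR1
    refine ⟨Ω ∩ {q | IsUnit (A q)}, inter_mem self_mem_nhdsWithin
      (hAd.continuousOn q0 h0 (Units.isOpen.mem_nhds (by rw [hA0]; exact isUnit_one))), ?_⟩
    set K := LinearMap.ker (L q0).toLinearMap with hK
    have hfin : Module.finrank ℂ (E × K) < Module.finrank ℂ W := by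
      have h1 := (L q0).toLinearMap.finrank_range_add_finrank_ker
      rw [LinearMap.range_eq_top.2 (hs q0 h0), finrank_top, Module.finrank_fintype_fun_eq_card,
        ← hK] at h1
      rw [Module.finrank_prod]
      omega
    have hΦ : DifferentiableOn ℂ
        (fun z : E × K => (z.2 : W) - R (Ring.inverse (A z.1) (L z.1 z.2)))
        (Prod.fst ⁻¹' (Ω ∩ {q | IsUnit (A q)})) := by
      have h2 : Differentiable ℂ fun z : E × K => (z.2 : W) :=
        K.subtypeL.differentiable.comp differentiable_snd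
      refine h2.differentiableOn.sub (R.differentiable.comp_differentiableOn ?_)
      exact ((hAd.comp differentiableOn_fst fun _ a => a.1).inverse fun _ a => a.2).clm_apply
        ((hL.comp differentiableOn_fst fun _ a => a.1).clm_apply h2.differentiableOn)
    refine measure_mono_null ?_ (null_image_gen0 μ hΦ hfin)
    rintro a ⟨q, hq, ha⟩
    refine ⟨(q, ⟨a - R (L q0 a), ?_⟩), hq, ?_⟩
    · change L q0 (a - R (L q0 a)) = 0
      rw [map_sub, hR1, sub_self]
    · change a - R (L q0 a) - R (Ring.inverse (A q) (L q (a - R (L q0 a)))) = a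
      have h3 : Ring.inverse (A q) (A q (L q0 a)) = L q0 a :=
        DFunLike.congr_fun (Ring.inverse_mul_cancel _ hq.2) _
      rw [map_sub, ha, zero_sub, map_neg]
      change a - R (L q0 a) - R (-Ring.inverse (A q) (A q (L q0 a))) = a
      rw [h3, map_neg, sub_neg_eq_add, sub_add_cancel]
  choose! V hV hμ using key
  obtain ⟨t, ht, htc, hcov⟩ := TopologicalSpace.countable_cover_nhdsWithin hV
  refine measure_mono_null ?_ ((measure_biUnion_null_iff htc).2 fun q hq => hμ q (ht hq))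
  rintro a ⟨q, hq, ha⟩
  obtain ⟨x, hx, hqx⟩ := mem_iUnion₂.1 (hcov hq)
  exact mem_iUnion₂.2 ⟨x, hx, q, hqx, ha⟩

end Pool.Agent.P.MP_ab0431_ag.UB

namespace Pool.Agent.P.MP_ab0431_ag.UB

open Polynomial Set Filter Topology Asymptotics MeasureTheory
open scoped Manifold ContDiff

theorem p_HOLD :
    S_HOLD := by
  intro E _ _ _ g q i hg
  have := FiniteDimensional.complete ℂ E
  have key : AnalyticAt ℂ (fun z : E × ℂ => iteratedDeriv i (fun v => g (z.1, v)) z.2) (q, 0) := by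
    induction i with
    | zero => exact hg
    | succ i ih =>
      refine (((ContinuousLinearMap.apply ℂ ℂ ((0, 1) : E × ℂ)).analyticAt _).comp ih.fderiv).congr
        (ih.eventually_analyticAt.mono fun z hz => ?_)
      simp only [iteratedDeriv_succ]
      exact (hz.differentiableAt.hasFDerivAt.comp_hasDerivAt z.2
        ((hasDerivAt_const z.2 z.1).prodMk (hasDerivAt_id z.2))).deriv.symm
  exact key.comp (f := fun q' : E => (q', (0 : ℂ))) (analyticAt_id.prod analyticAt_const)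

end Pool.Agent.P.MP_ab0431_ag.UB

namespace Pool.Agent.P.MP_ab0431_ag.UB

open Polynomial Set Filter Topology Asymptotics MeasureTheory
open scoped Manifold ContDiff

theorem p_APX :
    S_APX := by
  intro f ζ n hf hO
  obtain ⟨C, hC0, hC⟩ := hO.exists_pos
  obtain ⟨δ, hδ, h⟩ := Metric.eventually_nhds_iff_ball.1
    (hC.bound.and hf.eventually_analyticAt)
  refine IsBigO.of_bound (2 * (C * 2 ^ (n + 1))) ?_
  filter_upwards [Metric.ball_mem_nhds ζ (half_pos hδ)] with y hy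
  rw [mem_ball_iff_norm] at hy
  rw [Real.norm_of_nonneg (by positivity)]
  have key : ∀ r, ‖y - ζ‖ < r → r < δ / 2 → ‖fderiv ℂ f y‖ ≤ 2 * (C * 2 ^ (n + 1)) * r ^ n := by
    intro r h1 h2
    have r0 : 0 < r := (norm_nonneg _).trans_lt h1
    have hz : ∀ z ∈ Metric.ball y r, ‖z - ζ‖ < 2 * r := fun z hz => by
      rw [mem_ball_iff_norm] at hz
      linarith [norm_sub_le_norm_sub_add_norm_sub z y ζ]
    have hb : ∀ z ∈ Metric.ball y r, z ∈ Metric.ball ζ δ := fun z a =>
      mem_ball_iff_norm.2 (by linarith [hz z a])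
    have hn : ∀ z ∈ Metric.ball y r, ‖f z‖ ≤ C * (2 * r) ^ (n + 1) := fun z a => by
      refine (h z (hb z a)).1.trans (mul_le_mul_of_nonneg_left ?_ hC0.le)
      rw [Real.norm_of_nonneg (by positivity)]
      exact pow_le_pow_left₀ (norm_nonneg _) (hz z a).le _
    have := Complex.norm_fderiv_le_div_of_mapsTo_ball (f := f) (c := y) (R₁ := r)
      (R₂ := 2 * (C * (2 * r) ^ (n + 1)))
      (fun z a => (h z (hb z a)).2.differentiableAt.differentiableWithinAt) (fun z a => by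
        rw [mem_closedBall_iff_norm]
        linarith [norm_sub_le (f z) (f y), hn z a, hn y (Metric.mem_ball_self r0)]) r0
    refine this.trans_eq ?_
    field_simp
    ring
  have hc : Tendsto (fun r : ℝ => 2 * (C * 2 ^ (n + 1)) * r ^ n) (𝓝[>] ‖y - ζ‖)
      (𝓝 (2 * (C * 2 ^ (n + 1)) * ‖y - ζ‖ ^ n)) :=
    (Continuous.tendsto (by fun_prop) _).mono_left nhdsWithin_le_nhds
  refine ge_of_tendsto hc ?_
  filter_upwards [Ioo_mem_nhdsGT hy] with r hr using key r hr.1 hr.2

end Pool.Agent.P.MP_ab0431_ag.UB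

namespace Pool.Agent.P.MP_ab0431_ag.UB

open Polynomial Set Filter Topology Asymptotics MeasureTheory
open scoped Manifold ContDiff

theorem pol_jetf (A : ℕ → ℂ) : ∃ P : ℂ → ℂ, (∀ v, AnalyticAt ℂ P v) ∧
    ∀ i < 5, iteratedDeriv i P 0 = A i := by
  refine ⟨fun v => ∑ k ∈ Finset.range 5, A k / k.factorial * v ^ k, fun v => by fun_prop,
    fun i hi => ?_⟩
  rw [iteratedDeriv_fun_sum fun k _ => by fun_prop]
  simp only [iteratedDeriv_const_mul_field, iteratedDeriv_fun_pow_zero]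
  rw [Finset.sum_eq_single i (fun k _ h => by simp [h.symm]) (by simp [hi])]
  simp [Nat.factorial_ne_zero]

theorem ord_jetf (hORDB : S_ORDB) {g P F : ℂ → ℂ} {c : ℂ → C2} {ζ : C2} {n i : ℕ} (hi : i < n)
    (hc : AnalyticAt ℂ c 0) (h0 : c 0 = ζ) (hg : AnalyticAt ℂ g 0) (hP : AnalyticAt ℂ P 0)
    (h : g =O[𝓝 0] fun v => ‖c v - ζ‖ ^ n) (hF : ∀ᶠ v in 𝓝 0, F v = g v + P v) :
    iteratedDeriv i F 0 = iteratedDeriv i P 0 := by
  have h1 := (hc.differentiableAt.isBigO_sub.norm_left).pow n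
  simp only [h0, sub_zero] at h1
  rw [EventuallyEq.iteratedDeriv_eq i hF, iteratedDeriv_fun_add hg.contDiffAt hP.contDiffAt,
    (hORDB g n hg).1.1 (h.trans h1) i hi, zero_add]

theorem p_JETF (hORDB : S_ORDB) (hAPX : S_APX) :
    S_JETF := by
  intro ζ sw α A B
  obtain ⟨P, hP, hA⟩ := pol_jetf A
  obtain ⟨Q, hQ, hB⟩ := pol_jetf B
  set a : C2 → ℂ := fun y => (y - ζ) (if sw then 1 else 0) with ha
  set b : C2 → ℂ := fun y => (y - ζ) (if !sw then 1 else 0) with hb
  set T : C2 → ℂ := fun y => P (a y) + Q (a y) * (b y - (α 0 * a y + α 1 * a y ^ 2 + α 2 * a y ^ 3))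
  have hT : ∀ y, AnalyticAt ℂ T y := fun y => by
    have h0 : ∀ i, AnalyticAt ℂ (fun y : C2 => (y - ζ) i) y := fun i =>
      ((ContinuousLinearMap.proj (R := ℂ) (φ := fun _ : Fin 2 => ℂ) i).analyticAt _).comp
        (analyticAt_id.sub analyticAt_const)
    have h1 : AnalyticAt ℂ a y := h0 _
    have h2 : AnalyticAt ℂ b y := h0 _
    exact ((hP _).comp h1).add (((hQ _).comp h1).mul (by fun_prop))
  have t1 : ∀ v t, T (cv ζ sw α v + t • ev (!sw)) = P v + Q v * t := fun v t => by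
    have h1 : a (cv ζ sw α v + t • ev (!sw)) = v := by cases sw <;> simp [ha, cv, ev]
    have h2 : b (cv ζ sw α v + t • ev (!sw)) = α 0 * v + α 1 * v ^ 2 + α 2 * v ^ 3 + t := by
      cases sw <;> simp [hb, cv, ev] <;> ring
    simp only [T, h1, h2]; ring
  have t2 : ∀ v, fderiv ℂ T (cv ζ sw α v) (ev (!sw)) = Q v := fun v => by
    rw [← (hT _).differentiableAt.lineDeriv_eq_fderiv, lineDeriv]
    simp [t1]
  refine ⟨T, hT ζ, fun f hf h => ?_⟩
  have hc := analyticAt_cv ζ sw α 0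
  have h0 := cv_zero ζ sw α
  have ht : Tendsto (cv ζ sw α) (𝓝 0) (𝓝 ζ) := by simpa [h0] using hc.continuousAt.tendsto
  have hg : AnalyticAt ℂ (fun y => f y - T y) ζ := hf.sub (hT ζ)
  refine ⟨fun i hi => (ord_jetf hORDB hi hc h0 (hg.comp_of_eq hc h0) (hP 0) (h.comp_tendsto ht)
    (.of_forall fun v => by simpa [sub_add_eq_add_sub, eq_sub_iff_add_eq] using t1 v 0)).trans (hA i hi), fun i hi =>
    (ord_jetf hORDB (g := fun v => fderiv ℂ (fun y => f y - T y) (cv ζ sw α v) (ev (!sw))) hi hc h0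
      (((ContinuousLinearMap.apply ℂ ℂ (ev (!sw))).analyticAt _).comp (hg.fderiv.comp_of_eq hc h0))
      (hQ 0) (((ContinuousLinearMap.apply ℂ ℂ (ev (!sw))).isBigO_comp _ _).trans
        ((hAPX _ ζ 4 hg h).comp_tendsto ht)) ?_).trans (hB i (by omega))⟩
  filter_upwards [ht.eventually hf.eventually_analyticAt] with v hv
  rw [fderiv_fun_sub hv.differentiableAt (hT _).differentiableAt, sub_apply, t2,
    sub_add_cancel]

end Pool.Agent.P.MP_ab0431_ag.UB

namespace Pool.Agent.P.MP_ab0431_ag.UB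

open Polynomial Set Filter Topology Asymptotics MeasureTheory
open scoped Manifold ContDiff

/-- The triangular combinations. -/
def cb_gene0 {V : Type} [AddCommGroup V] [Module ℂ V] (c γ β : ℂ) (f : Fin 3 → V) : Fin 3 → V :=
  ![f 0, f 1 - c • f 0, f 2 - γ • f 0 - β • (f 1 - c • f 0)]

theorem cb_map_gene0 {V W : Type} [AddCommGroup V] [Module ℂ V] [AddCommGroup W] [Module ℂ W]
    (φ : V →ₗ[ℂ] W) (c γ β : ℂ) (f : Fin 3 → V) (i : Fin 3) :
    φ (cb_gene0 c γ β f i) = cb_gene0 c γ β (fun i => φ (f i)) i := by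
  fin_cases i <;> simp [cb_gene0]

theorem cb_mem_gene0 {V : Type} [AddCommGroup V] [Module ℂ V] (S : Submodule ℂ V) (c γ β : ℂ)
    {f : Fin 3 → V} (h : ∀ i, f i ∈ S) (i : Fin 3) : cb_gene0 c γ β f i ∈ S := by
  have h1 := S.sub_mem (h 1) (S.smul_mem c (h 0))
  fin_cases i
  exacts [h 0, h1, S.sub_mem (S.sub_mem (h 2) (S.smul_mem γ (h 0))) (S.smul_mem β h1)]

theorem cb_inv_gene0 {V : Type} [AddCommGroup V] [Module ℂ V] (c γ β : ℂ) (f T : Fin 3 → V)
    (i : Fin 3) : cb_gene0 c γ β (f - cb_gene0 (-c) (β * c - γ) (-β) T) i =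
      cb_gene0 c γ β f i - T i := by
  fin_cases i <;> simp [cb_gene0] <;> module

/-- The germs analytic at a point. -/
def an_gene0 (ζ : C2) : Submodule ℂ (C2 → ℂ) where
  carrier := {f | AnalyticAt ℂ f ζ}
  zero_mem' := analyticAt_const
  add_mem' := AnalyticAt.add
  smul_mem' := fun _ _ h => AnalyticAt.const_smul h

/-- The germs of order five at a point. -/
def o5_gene0 (ζ : C2) : Submodule ℂ (C2 → ℂ) where
  carrier := {f | f =O[𝓝 ζ] fun y => ‖y - ζ‖ ^ 5}
  zero_mem' := isBigO_zero _ _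
  add_mem' := IsBigO.add
  smul_mem' := fun c _ h => IsBigO.const_smul_left h c

/-- A function or its transversal derivative. -/
noncomputable def tr_gene0 (sw : Bool) : Bool → (C2 → ℂ) → C2 → ℂ
  | false, f => f
  | true, f => fun y => fderiv ℂ f y (ev (!sw))

theorem tr_an_gene0 (sw u : Bool) {f : C2 → ℂ} {ζ : C2} (h : AnalyticAt ℂ f ζ) :
    AnalyticAt ℂ (tr_gene0 sw u f) ζ := by
  cases u
  · exact h
  · exact ((ContinuousLinearMap.apply ℂ ℂ (ev (!sw))).analyticAt _).comp h.fderiv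

theorem tr_cv_gene0 (sw u : Bool) {f : C2 → ℂ} {ζ : C2} (α : Fin 3 → ℂ) (h : AnalyticAt ℂ f ζ) :
    AnalyticAt ℂ (fun v => tr_gene0 sw u f (cv ζ sw α v)) 0 :=
  (tr_an_gene0 sw u h).comp_of_eq (analyticAt_cv ζ sw α 0) (cv_zero _ _ _)

/-- The jets along the curve. -/
noncomputable def jt_gene0 (ζ : C2) (sw : Bool) (α : Fin 3 → ℂ) (u : Bool) (k : ℕ)
    (f : C2 → ℂ) : ℂ := iteratedDeriv k (fun v => tr_gene0 sw u f (cv ζ sw α v)) 0

theorem jt_sum_gene0 {ι : Type} [Fintype ι] {ζ : C2} (sw : Bool) (α : Fin 3 → ℂ) (u : Bool)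
    (k : ℕ) {f : ι → C2 → ℂ} (h : ∀ l, AnalyticAt ℂ (f l) ζ) (b : ι → ℂ) :
    jt_gene0 ζ sw α u k (∑ l, b l • f l) = ∑ l, b l * jt_gene0 ζ sw α u k (f l) := by
  have h1 : ∀ᶠ y in 𝓝 ζ, tr_gene0 sw u (∑ l, b l • f l) y = ∑ l, b l * tr_gene0 sw u (f l) y := by
    cases u
    · exact Eventually.of_forall fun y => by simp [tr_gene0]
    · filter_upwards [eventually_all.2 fun l => (h l).eventually_analyticAt] with y hy
      change fderiv ℂ _ y _ = _
      rw [fderiv_sum fun l _ => (hy l).differentiableAt.const_smul (b l)]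
      simp [tr_gene0, fderiv_const_smul_field]
  have h2 : Tendsto (cv ζ sw α) (𝓝 0) (𝓝 ζ) := by
    simpa [cv_zero] using (analyticAt_cv ζ sw α 0).continuousAt.tendsto
  have h3 : (fun v => tr_gene0 sw u (∑ l, b l • f l) (cv ζ sw α v)) =ᶠ[𝓝 0]
      fun v => ∑ l, b l * tr_gene0 sw u (f l) (cv ζ sw α v) := h2.eventually h1
  refine (h3.iteratedDeriv_eq k).trans ((iteratedDeriv_fun_sum fun l _ =>
      (analyticAt_const.fun_mul (tr_cv_gene0 sw u α (h l))).contDiffAt).trans ?_)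
  exact Finset.sum_congr rfl fun l _ => iteratedDeriv_const_mul_field _ _

/-- The orders of vanishing. -/
def nn_gene0 (t : Ty) (i : Fin 3) : Bool → ℕ
  | false => t.n₀ i
  | true => t.n₁ i

theorem core_gene0 (hORDB : S_ORDB) (hGEN0 : S_GEN0) (hHOLD : S_HOLD) (hJETF : S_JETF)
    {X : Surf} {M : ℕ} {ι : Type} [Fintype ι] {τ : ι → Sec X} {r : ℕ} {t : Fin r → Ty}
    (σ : Equiv.Perm (Fin 3)) (hτ : ∀ i, IsForm X.X M (τ i)) (hJ : JetS τ) (hr : r ≤ 3)
    (ht : ∀ j i, (t j).n₀ i ≤ 5 ∧ (t j).n₁ i ≤ 4) {E : Type} [NormedAddCommGroup E]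
    [NormedSpace ℂ E] [FiniteDimensional ℂ E] {c : E → ℂ} {γ β : Fin r → E → ℂ}
    {α : Fin r → E → Fin 3 → ℂ} {ζ : Fin r → E → C2} (hc : ∀ q, AnalyticAt ℂ c q)
    (hγ : ∀ j q, AnalyticAt ℂ (γ j) q) (hβ : ∀ j q, AnalyticAt ℂ (β j) q)
    (hα : ∀ j i q, AnalyticAt ℂ (fun q => α j q i) q) (hζ : ∀ j q, AnalyticAt ℂ (ζ j) q)
    (hd : Module.finrank ℂ E < ∑ j, ∑ i, ((t j).n₀ i + (t j).n₁ i))
    (e : Fin r → OpenPartialHomeomorph X.X C2) (he : ∀ j, e j ∈ atlas C2 X.X)
    (sw : Fin r → Bool) :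
    volume {a : Fin 3 → ι → ℂ | ∃ q, (∀ j, ζ j q ∈ (e j).target) ∧
      (Function.Injective fun j => (e j).symm (ζ j q)) ∧ ∀ j i,
        Vn (cb_gene0 (c q) (γ j q) (β j q) (fun i => (∑ l, a (σ i) l • τ l) (e j)) i)
          (ζ j q) (sw j) (α j q) ((t j).n₀ i) ((t j).n₁ i)} = 0 := by
  have := X.t2
  let κ := Σ (j : Fin r) (i : Fin 3) (u : Bool), Fin (nn_gene0 (t j) i u)
  let Ω := {q | (∀ j, ζ j q ∈ (e j).target) ∧ Function.Injective fun j => (e j).symm (ζ j q)}
  let L0 : E → (Fin 3 → ι → ℂ) → κ → ℂ := fun q a k => ∑ l,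
    cb_gene0 (c q) (γ k.1 q) (β k.1 q) (fun i => a (σ i) l) k.2.1 *
      jt_gene0 (ζ k.1 q) (sw k.1) (α k.1 q) k.2.2.1 k.2.2.2 (τ l (e k.1))
  let L : E → (Fin 3 → ι → ℂ) →L[ℂ] κ → ℂ := fun q => LinearMap.toContinuousLinearMap
    { toFun := L0 q
      map_add' := fun a a' => by
        funext ⟨j, i, k⟩
        simp only [L0, Pi.add_apply, ← Finset.sum_add_distrib]
        refine Finset.sum_congr rfl fun l _ => ?_
        fin_cases i <;> simp [cb_gene0] <;> ring
      map_smul' := fun s a => by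
        funext ⟨j, i, k⟩
        simp only [L0, Pi.smul_apply, smul_eq_mul, RingHom.id_apply, Finset.mul_sum]
        refine Finset.sum_congr rfl fun l _ => ?_
        fin_cases i <;> simp [cb_gene0] <;> ring }
  have han : ∀ q ∈ Ω, ∀ j l, AnalyticAt ℂ (τ l (e j)) (ζ j q) := fun q hq j l =>
    isForm_analyticAt (hτ l) (he j) (hq.1 j)
  have hsec : ∀ (b : ι → ℂ) j, (∑ l, b l • τ l) (e j) = ∑ l, b l • τ l (e j) := fun b j => by
    simp
  have han' : ∀ q ∈ Ω, ∀ j (a : Fin 3 → ι → ℂ) i, AnalyticAt ℂ (cb_gene0 (c q) (γ j q) (β j q)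
      (fun i => (∑ l, a (σ i) l • τ l) (e j)) i) (ζ j q) := fun q hq j a =>
    cb_mem_gene0 (an_gene0 (ζ j q)) _ _ _ fun i => by
      rw [hsec]
      exact Submodule.sum_mem _ fun l _ => Submodule.smul_mem _ _ (han q hq j l)
  have hL : ∀ q ∈ Ω, ∀ a (k : κ), L q a k = jt_gene0 (ζ k.1 q) (sw k.1) (α k.1 q) k.2.2.1 k.2.2.2
      (cb_gene0 (c q) (γ k.1 q) (β k.1 q) (fun i => (∑ l, a (σ i) l • τ l) (e k.1)) k.2.1) := by
    rintro q hq a ⟨j, i, u, k⟩
    refine (jt_sum_gene0 _ _ _ _ (han q hq j) _).symm.trans (congrArg _ ?_)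
    have := cb_map_gene0 (Fintype.linearCombination ℂ fun l => τ l (e j)) (c q) (γ j q) (β j q)
      (fun i => a (σ i)) i
    simp only [Fintype.linearCombination_apply] at this
    simp only [hsec, ← this]
    exact Finset.sum_congr rfl fun l _ => congrArg (· • _)
      (cb_map_gene0 (LinearMap.proj l) (c q) (γ j q) (β j q) (fun i => a (σ i)) i).symm
  have : (volume : Measure (ι → ℂ)).IsAddHaarMeasure := Measure.pi.isAddHaarMeasure _
  have : (volume : Measure (Fin 3 → ι → ℂ)).IsAddHaarMeasure := Measure.pi.isAddHaarMeasure _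
  refine measure_mono_null ?_ (hGEN0 E _ κ volume Ω L ?_ ?_ ?_ ?_)
  · rintro a ⟨q, h1, h2, h3⟩
    refine ⟨q, ⟨h1, h2⟩, funext fun k => (hL q ⟨h1, h2⟩ a k).trans ?_⟩
    obtain ⟨j, i, u, k⟩ := k
    refine (hORDB _ _ (tr_cv_gene0 (sw j) u (α j q) (han' q ⟨h1, h2⟩ j a i))).1.1 ?_ k k.2
    cases u
    exacts [(h3 j i).1, (h3 j i).2]
  · refine isOpen_iff_mem_nhds.2 fun q hq => ?_
    have h1 : ∀ j, ContinuousAt (fun q => (e j).symm (ζ j q)) q := fun j =>
      ((e j).continuousAt_symm (hq.1 j)).comp (hζ j q).continuousAt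
    have h2 : ∀ j j', ∀ᶠ q' in 𝓝 q, (e j).symm (ζ j q') = (e j').symm (ζ j' q') → j = j' := by
      intro j j'
      by_cases hj : j = j'
      · exact Eventually.of_forall fun _ _ => hj
      · exact (((h1 j).ne_iff_eventually_ne (h1 j')).1 fun a => hj (hq.2 a)).mono
          fun _ a b => absurd b a
    filter_upwards [eventually_all.2 fun j => (hζ j q).continuousAt.eventually
      ((e j).open_target.mem_nhds (hq.1 j)), eventually_all.2 fun j => eventually_all.2 (h2 j)]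
      with q' a1 a2
    exact ⟨a1, fun j j' => a2 j j'⟩
  · refine (contDiffOn_clm_apply.2 fun a => contDiffOn_pi.2 fun k q hq =>
      (AnalyticAt.contDiffAt (n := 1) ?_).contDiffWithinAt).differentiableOn one_ne_zero
    obtain ⟨j, i, u, k⟩ := k
    refine Finset.analyticAt_fun_sum _ fun l _ => AnalyticAt.fun_mul ?_ ?_
    · have h1 := hc q
      have h2 := hγ j q
      have h3 := hβ j q
      fin_cases i <;> simp [cb_gene0] <;> fun_prop
    · refine hHOLD E (fun z => tr_gene0 (sw j) u (τ l (e j)) (cv (ζ j z.1) (sw j) (α j z.1) z.2))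
        q k ((tr_an_gene0 (sw j) u (han q hq j l)).fun_comp_of_eq ?_ (cv_zero _ _ _))
      have h1 := (hζ j q).fun_comp_of_eq (analyticAt_fst (F := ℂ) (p := (q, 0))) rfl
      have h2 := fun i => (hα j i q).fun_comp_of_eq (analyticAt_fst (F := ℂ) (p := (q, 0))) rfl
      have h3 := analyticAt_snd (𝕜 := ℂ) (F := ℂ) (p := (q, 0))
      exact (h1.fun_add (h3.fun_smul analyticAt_const)).fun_add (((((h2 0).fun_mul h3).fun_add
        ((h2 1).fun_mul (h3.fun_pow 2))).fun_add ((h2 2).fun_mul (h3.fun_pow 3))).fun_smul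
          analyticAt_const)
  · intro q hq w
    let A : (j : Fin r) → (i : Fin 3) → Bool → ℕ → ℂ := fun j i u k =>
      if h : k < nn_gene0 (t j) i u then w ⟨j, i, u, k, h⟩ else 0
    choose T hT1 hT2 using fun j i => hJETF (ζ j q) (sw j) (α j q) (A j i false) (A j i true)
    have hp : ∀ j, e j ((e j).symm (ζ j q)) = ζ j q := fun j => (e j).right_inv (hq.1 j)
    choose a ha using fun i => hJ r (fun j => (e j).symm (ζ j q)) e
      (fun j => cb_gene0 (-c q) (β j q * c q - γ j q) (-β j q) (T j) i) hr hq.2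
      (fun j => ⟨he j, (e j).map_target (hq.1 j)⟩) fun j => by
        rw [hp]; exact cb_mem_gene0 (an_gene0 (ζ j q)) _ _ _ (hT1 j) i
    simp only [hp] at ha
    refine ⟨fun i => a (σ.symm i), funext fun k => (hL q hq _ k).trans ?_⟩
    obtain ⟨j, i, u, k⟩ := k
    have h1 := hT2 j i _ (han' q hq j (fun i => a (σ.symm i)) i) (by
      have := cb_mem_gene0 (o5_gene0 (ζ j q)) (c q) (γ j q) (β j q)
        (f := (fun i => (∑ l, a i l • τ l) (e j)) -
          cb_gene0 (-c q) (β j q * c q - γ j q) (-β j q) (T j)) (fun i => ha i j) i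
      rw [cb_inv_gene0] at this
      simp only [Equiv.symm_apply_apply]
      exact this)
    cases u
    · exact (h1.1 k (k.2.trans_le (ht j i).1)).trans (dif_pos k.2)
    · exact (h1.2 k (k.2.trans_le (ht j i).2)).trans (dif_pos k.2)
  · refine hd.trans_eq ?_
    simp only [κ, Fintype.card_sigma, Fintype.card_fin, Fintype.sum_bool]
    simp only [nn_gene0, add_comm]

theorem sum_bool_gene0 (b : Bool) {c : ℂ} (h : b = false → c = 0) :
    ∑ _k : Fin b.toNat, c = c := by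
  cases b <;> simp_all

theorem sum_an_gene0 {E : Type} [NormedAddCommGroup E] [NormedSpace ℂ E] {n : ℕ}
    {f : E → Fin n → ℂ} {q : E} (h : AnalyticAt ℂ f q) : AnalyticAt ℂ (fun q => ∑ k, f q k) q :=
  Finset.analyticAt_fun_sum _ fun k _ => analyticAt_pi_iff.1 h k

theorem p_GENE0 (hORDB : S_ORDB) (hGEN0 : S_GEN0) (hHOLD : S_HOLD) (hJETF : S_JETF) :
    S_GENE0 := by
  intro X h M ι _ τ r t fc fg og σ hτ hJ hr ht hd
  let E := (Fin fc.toNat → ℂ) × (Fin fg.toNat → ℂ) × ∀ j : Fin r,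
    C2 × (Fin (t j).nl → ℂ) × (Fin (og j).toNat → ℂ) × (Fin (t j).bt.toNat → ℂ)
  have := h.fin.to_subtype
  have hP : ∀ j (q : E), AnalyticAt ℂ (fun q : E => q.2.2 j) q := fun j q =>
    analyticAt_pi_iff.1 (analyticAt_snd.fun_comp analyticAt_snd) j
  refine measure_mono_null ?_ (measure_iUnion_null fun e : Fin r → range h.e =>
    measure_iUnion_null fun sw : Fin r → Bool =>
      core_gene0 hORDB hGEN0 hHOLD hJETF σ hτ hJ hr (fun j => (ht j).2) (E := E)
        (c := fun q => ∑ k, q.1 k) (γ := fun j q => ∑ k, q.2.1 k + ∑ k, (q.2.2 j).2.2.1 k)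
        (β := fun j q => ∑ k, (q.2.2 j).2.2.2 k)
        (α := fun j q i => if h : (i : ℕ) < (t j).nl then (q.2.2 j).2.1 ⟨i, h⟩ else 0)
        (ζ := fun j q => (q.2.2 j).1) (fun q => ?_) (fun j q => ?_) (fun j q => ?_)
        (fun j i q => ?_) (fun j q => ?_) ?_ (fun j => e j) (fun j => ?_) sw)
  · rintro a ⟨p, c, g, γ, h1, h2, h3, h4, h5⟩
    choose β sw α b1 b2 b3 using h5
    refine mem_iUnion.2 ⟨fun j => ⟨h.e (p j), p j, rfl⟩, mem_iUnion.2 ⟨sw,
      (fun _ => c, fun _ => g, fun j => (h.pt (p j), fun k => α j (k.castLE (ht j).1),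
        fun _ => γ j, fun _ => β j)), fun j => (h.e (p j)).map_source (h.src _), ?_, ?_⟩⟩
    · have : ∀ j, (h.e (p j)).symm (h.pt (p j)) = p j := fun j => (h.e (p j)).left_inv (h.src _)
      simpa only [this] using h1
    · intro j i
      have e1 : (fun i : Fin 3 => if h : (i : ℕ) < (t j).nl then
          α j ((⟨i, h⟩ : Fin (t j).nl).castLE (ht j).1) else 0) = α j := by
        funext i
        split_ifs with hi
        exacts [rfl, (b2 j i (not_lt.1 hi)).symm]
      simp only [sum_bool_gene0 _ h2, sum_bool_gene0 _ h3, sum_bool_gene0 _ (h4 j),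
        sum_bool_gene0 _ (b1 j), e1]
      fin_cases i
      exacts [(b3 j).1, (b3 j).2.1, (b3 j).2.2]
  · exact sum_an_gene0 analyticAt_fst
  · exact (sum_an_gene0 (analyticAt_fst.fun_comp analyticAt_snd)).fun_add (sum_an_gene0
      (analyticAt_fst.fun_comp (analyticAt_snd.fun_comp (analyticAt_snd.fun_comp (hP j q)))))
  · exact sum_an_gene0
      (analyticAt_snd.fun_comp (analyticAt_snd.fun_comp (analyticAt_snd.fun_comp (hP j q))))
  · split_ifs
    · exact analyticAt_pi_iff.1 (analyticAt_fst.fun_comp (analyticAt_snd.fun_comp (hP j q))) _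
    · exact analyticAt_const
  · exact analyticAt_fst.fun_comp (hP j q)
  · refine lt_of_eq_of_lt ?_ hd
    simp [E, Module.finrank_pi_fintype, add_assoc]
  · obtain ⟨p, hp⟩ := (e j).2
    exact hp ▸ h.mem p

end Pool.Agent.P.MP_ab0431_ag.UB
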