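import Pool.Agent.P.MP_ab0431_ag.UB.IfaceA

/-! Steps GENE LR NF TRUNC HESS ADP LC LTU WJ. -/

set_option autoImplicit false
set_option linter.unusedSectionVars false
set_option linter.unusedVariables false

namespace Pool.Agent.P.MP_ab0431_ag.UB

open Polynomial Set Filter Topology Asymptotics MeasureTheory
open scoped Manifold ContDiff

theorem cnt_gene : Countable Ty :=
  Function.Injective.countable (f := fun t : Ty => (t.bt, t.nl, t.n₀, t.n₁)) fun a b e => by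
    cases a; cases b; simpa using e

theorem inj_gene {α : Type} {p p' : α} (h : p ≠ p') : Function.Injective ![p, p'] := by
  intro i j e
  fin_cases i <;> fin_cases j <;> simp_all [eq_comm]

theorem inj3_gene {α : Type} {p p' p'' : α} (h : p ≠ p') (h' : p ≠ p'') (h'' : p' ≠ p'') :
    Function.Injective ![p, p', p''] := by
  intro i j e
  fin_cases i <;> fin_cases j <;> simp_all [eq_comm]

theorem nice_gene {X : Surf} {h : Ch X} {s : Fin 3 → Sec X}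
    (H : ∀ (r : ℕ) (t : Fin r → Ty) (fc fg : Bool) (og : Fin r → Bool), r ≤ 3 →
      (∀ j, (t j).nl ≤ 3 ∧ ∀ i, (t j).n₀ i ≤ 5 ∧ (t j).n₁ i ≤ 4) →
      fc.toNat + fg.toNat + ∑ j, (2 + (t j).nl + (og j).toNat + (t j).bt.toNat) <
        ∑ j, ∑ i, ((t j).n₀ i + (t j).n₁ i) →
      ¬∃ (p : Fin r → X.X) (c g : ℂ) (γ : Fin r → ℂ),
        Function.Injective p ∧ (fc = false → c = 0) ∧ (fg = false → g = 0) ∧
        (∀ j, og j = false → γ j = 0) ∧ ∀ j, h.Evt s (t j) (p j) c (g + γ j)) : Nice h s := by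
  have i1 : ∀ p : X.X, Function.Injective ![p] := fun p => Function.injective_of_subsingleton _
  refine ⟨fun p e => ?_, fun p e => ?_, fun p c γ e => ?_, fun p c γ e => ?_, fun p c e => ?_,
    fun p c γ e => ?_, fun p c γ e => ?_, fun t t' p p' c γ γ' a a' n e e' => ?_,
    fun t p p' c γ a n e e' => ?_, fun p p' p'' c γ n n' n'' e e' e'' => ?_, fun t p γ a e => ?_,
    fun p p' γ n e e' => ?_⟩
  · exact H 1 ![tN1] false false ![false] (by decide) (by decide) (by decide)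
      ⟨![p], 0, 0, 0, i1 p, by simp, by simp, by simp, by simpa using e⟩
  · exact H 1 ![tN2] false false ![false] (by decide) (by decide) (by decide)
      ⟨![p], 0, 0, 0, i1 p, by simp, by simp, by simp, by simpa using e⟩
  · exact H 1 ![tS] true true ![false] (by decide) (by decide) (by decide)
      ⟨![p], c, γ, 0, i1 p, by simp, by simp, by simp, by simpa using e⟩
  · exact H 1 ![tZ] true true ![false] (by decide) (by decide) (by decide)
      ⟨![p], c, γ, 0, i1 p, by simp, by simp, by simp, by simpa using e⟩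
  · exact H 1 ![tT1] true false ![false] (by decide) (by decide) (by decide)
      ⟨![p], c, 0, 0, i1 p, by simp, by simp, by simp, by simpa using e⟩
  · exact H 1 ![tT2] true true ![false] (by decide) (by decide) (by decide)
      ⟨![p], c, γ, 0, i1 p, by simp, by simp, by simp, by simpa using e⟩
  · exact H 1 ![tB4] true true ![false] (by decide) (by decide) (by decide)
      ⟨![p], c, γ, 0, i1 p, by simp, by simp, by simp, by simpa using e⟩
  · refine H 2 ![t, t'] true false ![true, true] (by decide) ?_ ?_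
      ⟨![p, p'], c, 0, ![γ, γ'], inj_gene n, by simp, by simp, by simp, by simpa using ⟨e, e'⟩⟩ <;>
    rcases a with rfl | rfl <;> rcases a' with rfl | rfl <;> decide
  · refine H 2 ![t, tR] true true ![false, false] (by decide) ?_ ?_
      ⟨![p, p'], c, γ, 0, inj_gene n, by simp, by simp, by simp, by simpa using ⟨e, e'⟩⟩ <;>
    rcases a with rfl | rfl <;> decide
  · exact H 3 ![tR, tR, tR] true true ![false, false, false] (by decide) (by decide) (by decide)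
      ⟨![p, p', p''], c, γ, 0, inj3_gene n n' n'', by simp, by simp, by simp,
        by simpa [Fin.forall_fin_succ] using ⟨e, e', e''⟩⟩
  · refine H 1 ![t] false false ![true] (by decide) ?_ ?_
      ⟨![p], 0, 0, ![γ], i1 p, by simp, by simp, by simp, by simpa using e⟩ <;>
    rcases a with rfl | rfl <;> decide
  · exact H 2 ![tR, tR] false true ![false, false] (by decide) (by decide) (by decide)
      ⟨![p, p'], 0, γ, 0, inj_gene n, by simp, by simp, by simp, by simpa using ⟨e, e'⟩⟩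

theorem p_GENE (hGENE0 : S_GENE0) :
    S_GENE := by
  intro X h M ι _ τ hM hτ hJ
  have := cnt_gene
  obtain ⟨a, ha⟩ : ∃ a : Fin 3 → ι → ℂ, ∀ σ : Equiv.Perm (Fin 3),
      Nice h fun i => ∑ l, a (σ i) l • τ l := by
    have : (volume : Measure (ι → ℂ)).IsOpenPosMeasure := Measure.pi.isOpenPosMeasure _
    have : (volume : Measure (Fin 3 → ι → ℂ)).IsOpenPosMeasure := Measure.pi.isOpenPosMeasure _
    have : (ae (volume : Measure (Fin 3 → ι → ℂ))).NeBot := ae_neBot.2 fun e =>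
      (isOpen_univ.measure_pos (volume : Measure (Fin 3 → ι → ℂ)) univ_nonempty).ne' (by simp [e])
    refine Eventually.exists (f := ae volume) (ae_all_iff.2 fun σ => ?_)
    refine Eventually.mono ?_ fun a => nice_gene
    simp only [ae_all_iff]
    exact fun r t fc fg og h1 h2 h3 =>
      measure_eq_zero_iff_ae_notMem.1 (hGENE0 X h M ι τ r t fc fg og σ hτ hJ h1 h2 h3)
  refine ⟨fun i => ∑ l, a i l • τ l, hM, fun i => isForm_sum _ fun l _ => isForm_smul _ (hτ l),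
    ha 1, ?_⟩
  refine (congrArg (Nice h) ?_).mp (ha (Equiv.swap 0 1))
  funext i
  fin_cases i <;> rfl

end Pool.Agent.P.MP_ab0431_ag.UB

namespace Pool.Agent.P.MP_ab0431_ag.UB

open Polynomial Set Filter Topology Asymptotics MeasureTheory
open scoped Manifold ContDiff

theorem der_lr (ζ : C2) (sw : Bool) (α : Fin 3 → ℂ) :
    HasDerivAt (cv ζ sw α) (ev sw + α 0 • ev (!sw)) 0 := by
  have h1 : HasDerivAt (fun v : ℂ => α 0 * v + α 1 * v ^ 2 + α 2 * v ^ 3) (α 0) 0 := by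
    simpa using (((hasDerivAt_id (0 : ℂ)).const_mul (α 0)).fun_add
      ((hasDerivAt_pow 2 (0 : ℂ)).const_mul (α 1))).fun_add
      ((hasDerivAt_pow 3 (0 : ℂ)).const_mul (α 2))
  have h2 := (((hasDerivAt_id (0 : ℂ)).smul_const (ev sw)).const_add ζ).fun_add
    (h1.smul_const (ev (!sw)))
  rw [one_smul] at h2
  exact h2

theorem vn_lr (hORDB : S_ORDB) {f g : C2 → ℂ} {ζ : C2} (hf : AnalyticAt ℂ f ζ) (c : ℂ)
    (e : ∀ y, g y = f y - c) (sw : Bool) (α : Fin 3 → ℂ) {n₀ n₁ : ℕ} (h0 : n₀ ≤ 2) (h1 : n₁ ≤ 1)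
    (a : 1 ≤ n₀ → f ζ = c) (b : 2 ≤ n₀ → fderiv ℂ f ζ (ev sw + α 0 • ev (!sw)) = 0)
    (d : 1 ≤ n₁ → fderiv ℂ f ζ (ev (!sw)) = 0) : Vn g ζ sw α n₀ n₁ := by
  obtain rfl : g = fun y => f y - c := funext e
  have hf' : AnalyticAt ℂ f (cv ζ sw α 0) := by rwa [cv_zero]
  have hc := analyticAt_cv ζ sw α 0
  refine ⟨(hORDB _ n₀ ((hf'.comp hc).sub analyticAt_const)).1.2 fun i hi => ?_, ?_⟩
  · obtain rfl | rfl : i = 0 ∨ i = 1 := by omega
    · simp [cv_zero, a hi]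
    · rw [iteratedDeriv_one]
      have := (hf'.differentiableAt.hasFDerivAt.comp_hasDerivAt 0 (der_lr ζ sw α)).sub_const c
      rw [cv_zero, b hi] at this
      exact this.deriv
  · simp only [fderiv_sub_const]
    refine (hORDB _ n₁ (((ContinuousLinearMap.apply ℂ ℂ (ev (!sw))).analyticAt _).comp
      (hf'.fderiv.comp hc))).1.2 fun i hi => ?_
    obtain rfl : i = 0 := by omega
    simp [cv_zero, d hi]

theorem dir_lr {x z : C2 → ℂ} {ζ : C2} (h : jac x z ζ = 0) : ∃ (sw : Bool) (a : ℂ),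
    fderiv ℂ x ζ (ev sw + a • ev (!sw)) = 0 ∧ fderiv ℂ z ζ (ev sw + a • ev (!sw)) = 0 := by
  unfold jac at h
  by_cases h1 : pd 1 x ζ = 0
  · by_cases h2 : pd 1 z ζ = 0
    · refine ⟨true, 0, ?_, ?_⟩ <;> rw [fderiv_apply_pd] <;> simp [ev, h1, h2]
    · refine ⟨false, -pd 0 z ζ / pd 1 z ζ, ?_, ?_⟩ <;> rw [fderiv_apply_pd] <;> simp [ev] <;>
        field_simp
      · linear_combination h
      · ring
  · refine ⟨false, -pd 0 x ζ / pd 1 x ζ, ?_, ?_⟩ <;> rw [fderiv_apply_pd] <;> simp [ev] <;>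
      field_simp
    · ring
    · linear_combination -h

theorem p_LR (hORDB : S_ORDB) :
    S_LR := by
  intro x z ζ hx hz
  have h1 : AnalyticAt ℂ (1 : C2 → ℂ) ζ := analyticAt_const
  refine ⟨fun h => ?_, fun h => ?_, fun h h' => ?_, fun f hf a b => ⟨fun h => ?_, fun h => ?_⟩⟩
  · obtain ⟨sw, a, u, v⟩ := dir_lr h
    refine ⟨0, sw, ![a, 0, 0], fun _ => rfl, fun i hi => ?_,
      vn_lr hORDB h1 0 (by simp) _ _ ?_ ?_ ?_ ?_ ?_,
      vn_lr hORDB hx (x ζ) (by simp) _ _ ?_ ?_ ?_ (fun _ => u) ?_,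
      vn_lr hORDB hz (z ζ) (by simp) _ _ ?_ ?_ ?_ (fun _ => v) ?_⟩
    · fin_cases i <;> simp [tR] at hi ⊢
    all_goals simp [tR]
  · refine ⟨0, false, 0, fun _ => rfl, fun i hi => rfl,
      vn_lr hORDB h1 0 (by simp) _ _ ?_ ?_ ?_ ?_ ?_,
      vn_lr hORDB hx (x ζ) (by simp) _ _ ?_ ?_ ?_ ?_ ?_,
      vn_lr hORDB hz (z ζ) (by simp) _ _ ?_ ?_ ?_ ?_ ?_⟩
    all_goals simp [tB, h]
  · refine ⟨0, false, 0, fun _ => rfl, fun i hi => rfl,
      vn_lr hORDB h1 0 (by simp) _ _ ?_ ?_ ?_ ?_ ?_,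
      vn_lr hORDB hx (x ζ) (by simp) _ _ ?_ ?_ ?_ ?_ ?_,
      vn_lr hORDB hz (z ζ) (by simp) _ _ ?_ ?_ ?_ ?_ ?_⟩
    all_goals simp [tZ, h, h']
  · refine ⟨0, false, 0, fun _ => rfl, fun i hi => rfl,
      vn_lr hORDB hx 0 (by simp) _ _ ?_ ?_ ?_ ?_ ?_,
      vn_lr hORDB hz 0 (by simp) _ _ ?_ ?_ ?_ ?_ ?_,
      vn_lr hORDB hf 0 (by simp) _ _ ?_ ?_ ?_ ?_ ?_⟩
    all_goals simp [tN1, a, b, h]
  · obtain ⟨sw, c, u, v⟩ := dir_lr h
    refine ⟨0, sw, ![c, 0, 0], fun _ => rfl, fun i hi => ?_,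
      vn_lr hORDB hx 0 (by simp) _ _ ?_ ?_ ?_ (fun _ => u) ?_,
      vn_lr hORDB hz 0 (by simp) _ _ ?_ ?_ ?_ (fun _ => v) ?_,
      vn_lr hORDB hf 0 (by simp) _ _ ?_ ?_ ?_ ?_ ?_⟩
    · fin_cases i <;> simp [tN2] at hi ⊢
    all_goals simp [tN2, a, b]

end Pool.Agent.P.MP_ab0431_ag.UB

namespace Pool.Agent.P.MP_ab0431_ag.UB

open Polynomial Set Filter Topology Asymptotics MeasureTheory
open scoped Manifold ContDiff

theorem dec_nf (sw : Bool) (v : C2) :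
    v (if sw then 1 else 0) • ev sw + v (if (!sw) then 1 else 0) • ev (!sw) = v := by
  funext i
  cases sw <;> fin_cases i <;> simp [ev]

theorem inv_nf {f : C2 → ℂ × ℂ} {ζ : C2} (hf : AnalyticAt ℂ f ζ)
    (hi : Function.Injective (fderiv ℂ f ζ)) :
    ∃ g : ℂ × ℂ → C2, AnalyticAt ℂ g (f ζ) ∧ (∀ᶠ y in 𝓝 ζ, g (f y) = y) ∧
      ∀ᶠ q in 𝓝 (f ζ), f (g q) = q := by
  let e : C2 ≃L[ℂ] ℂ × ℂ := (LinearMap.linearEquivOfInjective (fderiv ℂ f ζ).toLinearMap hi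
    (by simp)).toContinuousLinearEquiv
  have h1 : HasFDerivAt f (e : C2 →L[ℂ] ℂ × ℂ) ζ := hf.differentiableAt.hasFDerivAt
  have h2 : ContDiffAt ℂ ω f ζ := hf.contDiffAt
  have h0 : (ω : WithTop ℕ∞) ≠ 0 := by simp
  exact ⟨h2.localInverse h1 h0, (h2.to_localInverse h1 h0).analyticAt,
    (h2.hasStrictFDerivAt' h1 h0).eventually_left_inverse,
    (h2.hasStrictFDerivAt' h1 h0).eventually_right_inverse⟩

theorem p_NF :
    S_NF := by
  intro x ζ hx hd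
  obtain ⟨sw, hsw⟩ : ∃ sw : Bool, fderiv ℂ x ζ (ev (!sw)) ≠ 0 := by
    by_contra h
    push Not at h
    refine hd (ContinuousLinearMap.ext fun v => ?_)
    have h1 := h true
    have h2 := h false
    simp only [Bool.not_true, Bool.not_false] at h1 h2
    rw [← dec_nf true v, map_add, map_smul, map_smul, Bool.not_true, h1, h2]
    simp
  set i : Fin 2 := if sw then 1 else 0 with hi
  set j : Fin 2 := if (!sw) then 1 else 0 with hj
  have hl : HasFDerivAt (fun y : C2 => (y - ζ) i) (ContinuousLinearMap.proj i : C2 →L[ℂ] ℂ) ζ :=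
    (hasFDerivAt_apply (𝕜 := ℂ) i ζ).sub_const (ζ i)
  have hf : AnalyticAt ℂ (fun y : C2 => (x y, (y - ζ) i)) ζ :=
    hx.prod (((ContinuousLinearMap.proj i : C2 →L[ℂ] ℂ).analyticAt ζ).sub analyticAt_const)
  obtain ⟨g, hg, h1, h2⟩ := inv_nf hf (by
    rw [(hx.differentiableAt.hasFDerivAt.prodMk hl).fderiv]
    refine (injective_iff_map_eq_zero _).2 fun v hv => ?_
    have a1 : fderiv ℂ x ζ v = 0 := congrArg Prod.fst hv
    have a2 : v i = 0 := congrArg Prod.snd hv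
    have a3 := dec_nf sw v
    rw [← hi, ← hj, a2, zero_smul, zero_add] at a3
    rw [← a3, map_smul, smul_eq_mul, mul_eq_zero] at a1
    rw [← a3, a1.resolve_right hsw, zero_smul])
  have e0 : (x ζ, (ζ - ζ) i) = (x ζ, (0 : ℂ)) := by simp
  rw [e0] at hg h2
  have key : ∀ y : C2, ζ + (y - ζ) i • ev sw + (y - ζ) j • ev (!sw) = y := fun y => by
    rw [add_assoc, dec_nf sw (y - ζ), add_sub_cancel]
  refine ⟨sw, fun q => (g q - ζ) j, ?_, ?_, hsw, ?_, ?_⟩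
  · exact ((ContinuousLinearMap.proj j : C2 →L[ℂ] ℂ).analyticAt _).comp (hg.sub analyticAt_const)
  · have := h1.self_of_nhds
    simp only [e0] at this
    simp [this]
  · filter_upwards [h2] with q hq
    have a1 : x (g q) = q.1 := congrArg Prod.fst hq
    have a2 : (g q - ζ) i = q.2 := congrArg Prod.snd hq
    rw [← a2, key, a1]
  · filter_upwards [h1] with y hy
    rw [hy, key]

end Pool.Agent.P.MP_ab0431_ag.UB

namespace Pool.Agent.P.MP_ab0431_ag.UB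

open Polynomial Set Filter Topology Asymptotics MeasureTheory
open scoped Manifold ContDiff

theorem poly_trunc (φ : ℂ → ℂ) (n : ℕ) (hφ : AnalyticAt ℂ φ 0) (h0 : φ 0 = 0) (hn : n ≤ 3) :
    ∃ (α : Fin 3 → ℂ) (F : ℂ → ℂ), (∀ i : Fin 3, n ≤ i → α i = 0) ∧ AnalyticAt ℂ F 0 ∧
      ∀ v, φ v = α 0 * v + α 1 * v ^ 2 + α 2 * v ^ 3 + v ^ (n + 1) * F v := by
  obtain ⟨F, hF, h⟩ := hφ.exists_eq_sum_add_pow_mul (n + 1)
  refine ⟨fun i => if (i : ℕ) < n then iteratedDeriv (i + 1) φ 0 / ((i : ℕ) + 1).factorial else 0,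
    F, fun i hi => if_neg (not_lt.2 hi), hF, fun v => ?_⟩
  rw [h v]
  interval_cases n <;> simp [Finset.sum_range_succ, h0, Nat.factorial] <;> ring

theorem p_TRUNC (hORDB : S_ORDB) :
    S_TRUNC := by
  intro φ ζ sw n hφ h0 hn
  obtain ⟨α, F, h1, hF, h⟩ := poly_trunc φ n hφ h0 hn
  refine ⟨α, h1, fun f hf => ?_⟩
  have a : Tendsto (cv ζ sw α) (𝓝 0) (𝓝 ζ) := by
    simpa only [cv_zero] using (analyticAt_cv ζ sw α 0).continuousAt.tendsto
  have b : Tendsto (fun v : ℂ => ζ + v • ev sw + φ v • ev (!sw)) (𝓝 0) (𝓝 ζ) := by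
    have : ContinuousAt (fun v : ℂ => ζ + v • ev sw + φ v • ev (!sw)) 0 := by
      have := hφ.continuousAt
      fun_prop
    simpa [h0] using this.tendsto
  have c := hf.hasStrictFDerivAt.isBigO_sub.comp_tendsto (a.prodMk_nhds b)
  refine c.trans ?_
  have hG : AnalyticAt ℂ (fun v => -F v) 0 := hF.neg
  have d : (fun v : ℂ => v ^ (n + 1) * -F v) =O[𝓝 0] fun v : ℂ => v ^ (n + 1) :=
    (hORDB _ (n + 1) (by fun_prop)).2.2 ⟨_, hG, Eventually.of_forall fun _ => rfl⟩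
  have e : (fun v : ℂ => (v ^ (n + 1) * -F v) • ev (!sw)) =O[𝓝 0] fun v : ℂ => v ^ (n + 1) := by
    simpa using d.smul (isBigO_const_const (ev (!sw)) (one_ne_zero (α := ℂ)) (𝓝 0))
  refine e.congr_left fun v => ?_
  simp only [Function.comp_apply, cv]
  rw [h v]
  module

end Pool.Agent.P.MP_ab0431_ag.UB

namespace Pool.Agent.P.MP_ab0431_ag.UB

open Polynomial Set Filter Topology Asymptotics MeasureTheory
open scoped Manifold ContDiff

theorem line_hess (ζ ξ : C2) (v : ℂ) : HasDerivAt (fun v : ℂ => ζ + v • ξ) ξ v := by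
  simpa using ((hasDerivAt_id v).smul_const ξ).const_add ζ

theorem lineA_hess (ζ ξ : C2) (v : ℂ) : AnalyticAt ℂ (fun v : ℂ => ζ + v • ξ) v := by
  fun_prop

theorem comp_hess {F : Type} [NormedAddCommGroup F] [NormedSpace ℂ F] {f : C2 → F} {ζ : C2}
    (hf : AnalyticAt ℂ f ζ) (ξ : C2) : AnalyticAt ℂ (fun v : ℂ => f (ζ + v • ξ)) 0 :=
  AnalyticAt.comp_of_eq hf (lineA_hess ζ ξ 0) (by simp)

theorem d1_hess {f : C2 → ℂ} {ζ : C2} (hf : AnalyticAt ℂ f ζ) (ξ : C2) :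
    deriv (fun v : ℂ => f (ζ + v • ξ)) =ᶠ[𝓝 0] fun v => fderiv ℂ f (ζ + v • ξ) ξ := by
  have h1 : Tendsto (fun v : ℂ => ζ + v • ξ) (𝓝 0) (𝓝 ζ) := by
    simpa using (lineA_hess ζ ξ 0).continuousAt.tendsto
  filter_upwards [h1.eventually hf.eventually_analyticAt] with v hv
  exact (hv.differentiableAt.hasFDerivAt.comp_hasDerivAt v (line_hess ζ ξ v)).deriv

theorem d2_hess {f : C2 → ℂ} {ζ : C2} (hf : AnalyticAt ℂ f ζ) (ξ η : C2) :
    HasDerivAt (fun v : ℂ => fderiv ℂ f (ζ + v • ξ) η) (fderiv ℂ (fderiv ℂ f) ζ ξ η) 0 := by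
  have h1 : HasFDerivAt (fderiv ℂ f) (fderiv ℂ (fderiv ℂ f) ζ) (ζ + (0 : ℂ) • ξ) := by
    simpa using hf.fderiv.differentiableAt.hasFDerivAt
  have h2 := h1.comp_hasDerivAt (0 : ℂ) (line_hess ζ ξ 0)
  simpa using h2.clm_apply (hasDerivAt_const (0 : ℂ) η)

theorem cv_hess (ζ : C2) (sw : Bool) (a v : ℂ) :
    cv ζ sw ![a, 0, 0] v = ζ + v • (ev sw + a • ev (!sw)) := by
  simp [cv, smul_add, smul_smul, add_assoc, mul_comm]

theorem a2_hess {f : C2 → ℂ} {ζ : C2} (hf : AnalyticAt ℂ f ζ) (ξ η : C2) :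
    AnalyticAt ℂ (fun v : ℂ => fderiv ℂ f (ζ + v • ξ) η) 0 := by
  have h := comp_hess hf.fderiv ξ
  exact ((ContinuousLinearMap.apply ℂ ℂ η).analyticAt _).comp h

theorem o3_hess (hORDB : S_ORDB) {x : C2 → ℂ} {ζ : C2} (hx : AnalyticAt ℂ x ζ)
    (h0 : x ζ = 0) (h1 : fderiv ℂ x ζ = 0) (ξ : C2)
    (h2 : fderiv ℂ (fderiv ℂ x) ζ ξ ξ = 0) :
    (fun v : ℂ => x (ζ + v • ξ)) =O[𝓝 0] fun v : ℂ => v ^ 3 := by
  refine ((hORDB _ 3 (comp_hess hx ξ)).1).2 fun i hi => ?_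
  interval_cases i
  · simpa using h0
  · rw [iteratedDeriv_one, (d1_hess hx ξ).eq_of_nhds]
    simp [h1]
  · rw [iteratedDeriv_succ, iteratedDeriv_one, (d1_hess hx ξ).deriv_eq, (d2_hess hx ξ ξ).deriv,
      h2]

theorem vn0_hess (hORDB : S_ORDB) {f : C2 → ℂ} {ζ : C2} (hf : AnalyticAt ℂ f ζ) (sw : Bool)
    (a : ℂ) : Vn f ζ sw ![a, 0, 0] 0 0 := by
  simp only [Vn, cv_hess]
  exact ⟨((hORDB _ 0 (comp_hess hf _)).1).2 fun i hi => absurd hi (by omega),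
    ((hORDB _ 0 (a2_hess hf _ _)).1).2 fun i hi => absurd hi (by omega)⟩

theorem vn32_hess (hORDB : S_ORDB) {x : C2 → ℂ} {ζ : C2} (hx : AnalyticAt ℂ x ζ)
    (h0 : x ζ = 0) (h1 : fderiv ℂ x ζ = 0) (sw : Bool) (a : ℂ)
    (h2 : fderiv ℂ (fderiv ℂ x) ζ (ev sw + a • ev (!sw)) = 0) : Vn x ζ sw ![a, 0, 0] 3 2 := by
  simp only [Vn, cv_hess]
  refine ⟨o3_hess hORDB hx h0 h1 _ (by rw [h2]; rfl),
    ((hORDB _ 2 (a2_hess hx _ _)).1).2 fun i hi => ?_⟩
  interval_cases i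
  · simp [h1]
  · rw [iteratedDeriv_one, (d2_hess hx _ _).deriv, h2]; rfl

theorem vn31_hess (hORDB : S_ORDB) {x : C2 → ℂ} {ζ : C2} (hx : AnalyticAt ℂ x ζ)
    (h0 : x ζ = 0) (h1 : fderiv ℂ x ζ = 0) (sw : Bool) (a : ℂ)
    (h2 : fderiv ℂ (fderiv ℂ x) ζ (ev sw + a • ev (!sw)) (ev sw + a • ev (!sw)) = 0) :
    Vn x ζ sw ![a, 0, 0] 3 1 := by
  simp only [Vn, cv_hess]
  refine ⟨o3_hess hORDB hx h0 h1 _ h2, ((hORDB _ 1 (a2_hess hx _ _)).1).2 fun i hi => ?_⟩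
  interval_cases i
  simp [h1]

theorem dir_hess {ξ : C2} (h : ξ ≠ 0) :
    ∃ (sw : Bool) (a c : ℂ), ev sw + a • ev (!sw) = c • ξ := by
  by_cases h0 : ξ 0 = 0
  · have h1 : ξ 1 ≠ 0 := fun h1 => h (by ext i; fin_cases i <;> simp [h0, h1])
    refine ⟨true, 0, (ξ 1)⁻¹, ?_⟩
    ext i; fin_cases i <;> simp [ev, h0, h1]
  · refine ⟨false, ξ 1 / ξ 0, (ξ 0)⁻¹, ?_⟩
    ext i; fin_cases i <;> simp [ev, h0, div_eq_inv_mul]

theorem p_HESS (hORDB : S_ORDB) :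
    S_HESS := by
  intro x ζ hx h1
  refine ⟨fun sw a h0 => ⟨vn32_hess hORDB hx h0 h1 sw a, vn31_hess hORDB hx h0 h1 sw a⟩,
    fun z ξ hz hξ h2 => ?_, fun Γ q ξ η hΓ hq => ?_⟩
  · obtain ⟨sw, a, c, hc⟩ := dir_hess hξ
    have hone : AnalyticAt ℂ (1 : C2 → ℂ) ζ := analyticAt_const
    have hy : AnalyticAt ℂ (x - x ζ • (1 : C2 → ℂ)) ζ := hx.sub (hone.const_smul)
    have hd : fderiv ℂ (x - x ζ • (1 : C2 → ℂ)) = fderiv ℂ x := by
      funext y
      have : (x - x ζ • (1 : C2 → ℂ)) = fun y => x y - x ζ := by funext y; simp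
      rw [this, fderiv_sub_const]
    refine ⟨0, sw, ![a, 0, 0], fun _ => rfl, fun i hi => ?_, vn0_hess hORDB hone sw a,
      vn32_hess hORDB hy (by simp) (by rw [hd, h1]) sw a ?_,
      vn0_hess hORDB ((hz.sub hone.const_smul).sub hy.const_smul) sw a⟩
    · fin_cases i
      · simp [tT1] at hi
      · rfl
      · rfl
    · rw [hd, hc, map_smul, h2]
      ext i; simp
  · subst hq
    have e1 : (fun q' => fderiv ℂ (x ∘ Γ) q' η) =ᶠ[𝓝 q]
        fun q' => fderiv ℂ x (Γ q') (fderiv ℂ Γ q' η) := by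
      filter_upwards [hΓ.eventually_analyticAt,
        hΓ.continuousAt.tendsto.eventually hx.eventually_analyticAt] with q' h h'
      rw [fderiv_comp q' h'.differentiableAt h.differentiableAt]; rfl
    rw [e1.fderiv_eq]
    have a1 : HasFDerivAt (fun q' => fderiv ℂ x (Γ q'))
        ((fderiv ℂ (fderiv ℂ x) (Γ q)).comp (fderiv ℂ Γ q)) q :=
      hx.fderiv.differentiableAt.hasFDerivAt.comp q hΓ.differentiableAt.hasFDerivAt
    have a2 : DifferentiableAt ℂ (fun q' => fderiv ℂ Γ q' η) q :=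
      hΓ.fderiv.differentiableAt.clm_apply (differentiableAt_const η)
    rw [(a1.clm_apply a2.hasFDerivAt).fderiv]
    simp [h1]

end Pool.Agent.P.MP_ab0431_ag.UB

namespace Pool.Agent.P.MP_ab0431_ag.UB

open Polynomial Set Filter Topology Asymptotics MeasureTheory
open scoped Manifold ContDiff

theorem big0_adp {G : ℂ → ℂ} (h : AnalyticAt ℂ G 0) : G =O[𝓝 0] fun v : ℂ => v ^ 0 := by
  simpa using h.continuousAt.tendsto.isBigO_one ℂ

theorem vn0_adp {g : C2 → ℂ} {ζ : C2} {sw : Bool} {α : Fin 3 → ℂ} {n : ℕ} (hg : AnalyticAt ℂ g ζ)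
    (h : (fun v => g (cv ζ sw α v)) =O[𝓝 0] fun v : ℂ => v ^ n) : Vn g ζ sw α n 0 :=
  ⟨h, big0_adp (((ContinuousLinearMap.apply ℂ ℂ (ev (!sw))).analyticAt _).comp
    (hg.fderiv.comp_of_eq (analyticAt_cv ζ sw α 0) (cv_zero ζ sw α)))⟩

theorem vn00_adp (ζ : C2) (sw : Bool) (α : Fin 3 → ℂ) : Vn 1 ζ sw α 0 0 :=
  vn0_adp analyticAt_const (big0_adp analyticAt_const)

theorem sl_adp (c : ℂ) (v : ℂ) : AnalyticAt ℂ (fun v : ℂ => (c, v)) v :=
  analyticAt_const.prod analyticAt_id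

theorem it_adp (c : ℂ) (i : ℕ) : ∀ f : ℂ × ℂ → ℂ, AnalyticAt ℂ f (c, 0) →
    iteratedDeriv i (fun v => f (c, v)) 0 = dv^[i] f (c, 0) := by
  induction i with
  | zero => exact fun _ _ => rfl
  | succ i ih =>
    intro f hf
    rw [iteratedDeriv_succ', Function.iterate_succ_apply, ← ih (dv f)
      (((ContinuousLinearMap.apply ℂ ℂ ((0, 1) : ℂ × ℂ)).analyticAt _).comp hf.fderiv)]
    refine Filter.EventuallyEq.iteratedDeriv_eq i ?_
    filter_upwards [(sl_adp c 0).continuousAt.eventually hf.eventually_analyticAt] with v hv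
    exact (hv.differentiableAt.hasFDerivAt.comp_hasDerivAt v
      ((hasDerivAt_const v c).prodMk (hasDerivAt_id v))).deriv

theorem ord_adp (hORDB : S_ORDB) {c : ℂ} {f : ℂ × ℂ → ℂ} (hf : AnalyticAt ℂ f (c, 0)) (n : ℕ)
    (h : ∀ i < n, dv^[i] (dv f) (c, 0) = 0) :
    (fun v => f (c, v) - f (c, 0)) =O[𝓝 0] fun v : ℂ => v ^ (n + 1) := by
  have h1 : AnalyticAt ℂ (fun q => f q - f (c, 0)) (c, 0) := hf.sub analyticAt_const
  refine (hORDB _ _ (h1.comp_of_eq (sl_adp c 0) rfl)).1.2 fun i hi => (it_adp c i _ h1).trans ?_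
  rcases i with _ | i
  · exact sub_self _
  · have : dv (fun q => f q - f (c, 0)) = dv f := funext fun q => by rw [dv, fderiv_sub_const, dv]
    rw [Function.iterate_succ_apply, this, h i (by omega)]

theorem p_ADP (hNF : S_NF) (hTRUNC : S_TRUNC) (hORDB : S_ORDB) (hHESS : S_HESS) :
    S_ADP := by
  intro x z ζ hx hz h0
  obtain ⟨sw, φ, hφ, φ0, hne, n1, n2⟩ := hNF x ζ hx h0
  set c := x ζ with hc
  let Γ : ℂ × ℂ → C2 := fun q => ζ + q.2 • ev sw + φ q • ev (!sw)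
  let Λ : C2 → ℂ × ℂ := fun y => (x y, (y - ζ) (if sw then 1 else 0))
  have hΓ : AnalyticAt ℂ Γ (c, 0) :=
    (analyticAt_const.add (analyticAt_snd.smul analyticAt_const)).add (hφ.smul analyticAt_const)
  have Γ0 : Γ (c, 0) = ζ := by simp [Γ, φ0]
  have hΛ : AnalyticAt ℂ Λ ζ := hx.prod
    (((ContinuousLinearMap.proj _ : C2 →L[ℂ] ℂ).analyticAt _).comp (analyticAt_id.sub analyticAt_const))
  have Λ0 : Λ ζ = (c, 0) := by simp [Λ, hc]
  have dΓ : ∀ q, AnalyticAt ℂ φ q → fderiv ℂ Γ q (0, 1) = ev sw + dv φ q • ev (!sw) := fun q h => by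
    rw [(((hasFDerivAt_snd.smul_const (ev sw)).const_add ζ).fun_add
      (h.differentiableAt.hasFDerivAt.smul_const (ev (!sw)))).fderiv]
    simp [dv]
  have ch : ∀ g : C2 → ℂ, AnalyticAt ℂ g ζ → ∀ᶠ q in 𝓝 (c, (0 : ℂ)),
      fderiv ℂ (g ∘ Γ) q = (fderiv ℂ g (Γ q)).comp (fderiv ℂ Γ q) := fun g hg => by
    filter_upwards [hΓ.eventually_analyticAt,
      hΓ.continuousAt.eventually (Γ0 ▸ hg).eventually_analyticAt] with q a b
    exact fderiv_comp q b.differentiableAt a.differentiableAt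
  have dx : ∀ᶠ q in 𝓝 (c, (0 : ℂ)), fderiv ℂ (x ∘ Γ) q = ContinuousLinearMap.fst ℂ ℂ ℂ :=
    (Filter.EventuallyEq.fderiv (f₁ := x ∘ Γ) (f := Prod.fst) n1).mono fun q h =>
      h.trans fderiv_fst
  have dx0 : ∀ᶠ q in 𝓝 (c, (0 : ℂ)), fderiv ℂ x (Γ q) (ev sw + dv φ q • ev (!sw)) = 0 := by
    filter_upwards [ch x hx, dx, hφ.eventually_analyticAt] with q a b d
    rw [← dΓ q d, ← ContinuousLinearMap.comp_apply, ← a, b]; rfl
  have hf : AnalyticAt ℂ (z ∘ Γ) (c, 0) := hz.comp_of_eq hΓ Γ0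
  refine ⟨Γ, z ∘ Γ, fun q => (if sw then 1 else -1) * fderiv ℂ x (Γ q) (ev (!sw)),
    ⟨hΓ, Γ0, ⟨Λ, hΛ, Λ0, n2, n1.mono fun q h => Prod.ext h ?_⟩, n1, rfl,
      analyticAt_const.mul (((ContinuousLinearMap.apply ℂ ℂ (ev (!sw))).analyticAt _).comp
        (hx.fderiv.comp_of_eq hΓ Γ0)), ?_, ?_⟩, fun h1 h2 => ?_⟩
  · cases sw <;> simp [Λ, Γ, ev]
  · rw [Γ0]; exact mul_ne_zero (by cases sw <;> simp) hne
  · filter_upwards [ch z hz, dx0, hφ.eventually_analyticAt] with q a b d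
    rw [a, ContinuousLinearMap.comp_apply, dΓ q d]
    rw [map_add, map_smul, smul_eq_mul] at b ⊢
    cases sw
    · change pd 0 x _ + _ * pd 1 x _ = 0 at b
      change _ = -1 * pd 1 x _ * (pd 0 z _ + _ * pd 1 z _)
      rw [jac]; linear_combination pd 1 z (Γ q) * b
    · change pd 1 x _ + _ * pd 0 x _ = 0 at b
      change _ = 1 * pd 0 x _ * (pd 1 z _ + _ * pd 0 z _)
      rw [jac]; linear_combination -pd 0 z (Γ q) * b
  have ax : AnalyticAt ℂ (x - c • 1) ζ := hx.sub (analyticAt_const (v := c • (1 : ℂ)))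
  have az : AnalyticAt ℂ (z - z ζ • 1) ζ := hz.sub (analyticAt_const (v := z ζ • (1 : ℂ)))
  have tr : ∀ n ≤ 3, (∀ i < n, dv^[i] (dv (z ∘ Γ)) (c, 0) = 0) → ∃ α : Fin 3 → ℂ,
      (∀ i : Fin 3, n ≤ i → α i = 0) ∧ Vn (x - c • 1) ζ sw α (n + 1) 0 ∧
        Vn (z - z ζ • 1 - (0 : ℂ) • (x - c • 1)) ζ sw α (n + 1) 0 := fun n hn h => by
    obtain ⟨α, a1, a2⟩ := hTRUNC (fun v => φ (c, v)) ζ sw n (hφ.comp_of_eq (sl_adp c 0) rfl) φ0 hn
    rw [zero_smul, sub_zero]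
    refine ⟨α, a1, vn0_adp ax ((a2 _ ax).congr' ?_ EventuallyEq.rfl),
      vn0_adp az (((a2 _ az).add (ord_adp hORDB hf n h)).congr_left fun v => ?_)⟩
    · filter_upwards [(sl_adp c 0).continuousAt.eventually n1] with v hv
      simp [hv]
    · simp [Γ, φ0]
  let α : Fin 3 → ℂ := ![dv φ (c, 0), 0, 0]
  have hα : ∀ i : Fin 3, 1 ≤ (i : ℕ) → α i = 0 := fun i hi => by
    fin_cases i <;> simp_all [α]
  have vx : Vn (x - c • 1) ζ sw α 2 0 := by
    have h3 : HasDerivAt (cv ζ sw α) (ev sw + dv φ (c, 0) • ev (!sw)) 0 := by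
      have : cv ζ sw α = fun v => ζ + v • (ev sw + dv φ (c, 0) • ev (!sw)) := by
        funext v; simp [cv, α, add_assoc, smul_smul, mul_comm]
      rw [this]
      exact (((hasDerivAt_id (0 : ℂ)).smul_const _).const_add ζ).congr_deriv (one_smul _ _)
    refine vn0_adp ax ((hORDB _ 2 (ax.comp_of_eq (analyticAt_cv ζ sw α 0) (cv_zero ..))).1.2 ?_)
    intro i hi
    interval_cases i
    · simp [cv_zero, hc]
    · have := dx0.self_of_nhds
      rw [Γ0] at this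
      rw [iteratedDeriv_one]
      exact ((hx.differentiableAt.hasFDerivAt.sub_const (c • (1 : ℂ))).comp_hasDerivAt_of_eq 0 h3
        (cv_zero ..).symm).deriv.trans this
  set g : C2 → ℂ := z - z ζ • 1 - da (z ∘ Γ) (c, 0) • (x - c • 1) with hg
  have ag : AnalyticAt ℂ g ζ := az.sub (ax.const_smul)
  have dg : ∀ᶠ q in 𝓝 (c, (0 : ℂ)), fderiv ℂ (g ∘ Γ) q =
      fderiv ℂ (z ∘ Γ) q - da (z ∘ Γ) (c, 0) • ContinuousLinearMap.fst ℂ ℂ ℂ := by
    have : g ∘ Γ =ᶠ[𝓝 (c, 0)] fun q => (z ∘ Γ) q - z ζ - da (z ∘ Γ) (c, 0) • (q.1 - c) :=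
      n1.mono fun q h => by simp [g, show x (Γ q) = q.1 from h]
    filter_upwards [this.fderiv (𝕜 := ℂ), hf.eventually_analyticAt] with q a b
    exact a.trans ((b.differentiableAt.hasFDerivAt.sub_const (z ζ)).fun_sub
      ((hasFDerivAt_fst.sub_const c).fun_const_smul (da (z ∘ Γ) (c, 0)))).fderiv
  have sur : ∀ w, fderiv ℂ Γ (c, 0) (fderiv ℂ Λ ζ w) = w := fun w => by
    rw [← Λ0, ← ContinuousLinearMap.comp_apply,
      ← fderiv_comp ζ (Λ0 ▸ hΓ).differentiableAt hΛ.differentiableAt,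
      Filter.EventuallyEq.fderiv_eq (f₁ := Γ ∘ Λ) (f := id) n2, fderiv_id]; rfl
  have dec : ∀ (L : ℂ × ℂ →L[ℂ] ℂ) (ξ : ℂ × ℂ), L ξ = ξ.1 * L (1, 0) + ξ.2 * L (0, 1) :=
    fun L ξ => by rw [← smul_eq_mul, ← smul_eq_mul, ← map_smul, ← map_smul, ← map_add]; simp
  have g1 : fderiv ℂ g ζ = 0 := by
    ext1 w
    have := (ch g ag).self_of_nhds.symm.trans dg.self_of_nhds
    rw [Γ0] at this
    rw [← sur w, ← ContinuousLinearMap.comp_apply, this, dec]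
    change _ * (da _ _ - _ * 1) + _ * (dv _ _ - _ * 0) = 0
    rw [h1]; ring
  have g2 : ∀ ξ, fderiv ℂ (fderiv ℂ g) ζ (fderiv ℂ Γ (c, 0) ξ) (ev sw + dv φ (c, 0) • ev (!sw)) =
      ξ.1 * da (dv (z ∘ Γ)) (c, 0) := fun ξ => by
    rw [← dΓ _ hφ, ← (hHESS g ζ ag g1).2.2 Γ _ ξ _ hΓ Γ0,
      Filter.EventuallyEq.fderiv_eq (f := dv (z ∘ Γ)) (dg.mono fun q h => by simp [h, dv]), dec]
    change _ + _ * dv _ _ = _
    rw [h2, mul_zero, add_zero, da]
  obtain ⟨v1, v2⟩ := (hHESS g ζ ag g1).1 sw (dv φ (c, 0)) (by simp [g, hc])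
  refine ⟨?_, fun h3 => ?_, fun h3 => ⟨_, sw, α, fun h => by simp [tS] at h, hα, vn00_adp .., vx,
    v1 ?_⟩, fun h3 => ⟨0, sw, α, fun _ => rfl, hα, vn00_adp .., ?_, ?_⟩⟩
  · obtain ⟨α, a1, a2, a3⟩ := tr 2 (by omega) fun i hi => by interval_cases i <;> assumption
    exact ⟨0, sw, α, fun _ => rfl, a1, vn00_adp .., a2, a3⟩
  · obtain ⟨α, a1, a2, a3⟩ := tr 3 le_rfl fun i hi => by interval_cases i <;> assumption
    exact ⟨0, sw, α, fun _ => rfl, a1, vn00_adp .., a2, a3⟩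
  · ext1 w
    rw [ag.contDiffAt.isSymmSndFDerivAt (n := ω) (by simp), ← sur w, g2, h3, mul_zero]; rfl
  · have := v2 (by simpa [dΓ _ hφ] using g2 (0, 1))
    rwa [hg, h3, zero_smul, sub_zero] at this
  · rw [zero_smul, sub_zero]; exact vx

end Pool.Agent.P.MP_ab0431_ag.UB

namespace Pool.Agent.P.MP_ab0431_ag.UB

open Polynomial Set Filter Topology Asymptotics MeasureTheory
open scoped Manifold ContDiff

theorem adp_lc {x z : C2 → ℂ} {ζ : C2} {Γ : ℂ × ℂ → C2} {f u : ℂ × ℂ → ℂ}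
    (hx : AnalyticAt ℂ x ζ) (hz : AnalyticAt ℂ z ζ) (hj : jac x z ζ = 0)
    (h : Adp x z ζ Γ f u) :
    dv f (x ζ, 0) = 0 ∧
    (∀ ξ, fderiv ℂ (jac x z) ζ (fderiv ℂ Γ (x ζ, 0) ξ) =
      u (x ζ, 0) * fderiv ℂ (dv f) (x ζ, 0) ξ) ∧
    fderiv ℂ x ζ (fderiv ℂ Γ (x ζ, 0) (0, 1)) = 0 ∧
    ∀ ξ, fderiv ℂ f (x ζ, 0) ξ = fderiv ℂ z ζ (fderiv ℂ Γ (x ζ, 0) ξ) := by
  have hcomp : ∀ g : C2 → ℂ, AnalyticAt ℂ g ζ → ∀ ξ,
      fderiv ℂ (fun q => g (Γ q)) (x ζ, 0) ξ = fderiv ℂ g ζ (fderiv ℂ Γ (x ζ, 0) ξ) := by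
    intro g hg ξ
    have hg' : HasFDerivAt g (fderiv ℂ g ζ) (Γ (x ζ, 0)) := by
      rw [h.base]; exact hg.differentiableAt.hasFDerivAt
    have := (hg'.comp (x ζ, (0 : ℂ)) h.an.differentiableAt.hasFDerivAt).fderiv
    change fderiv ℂ (g ∘ Γ) (x ζ, 0) ξ = _
    rw [this]; rfl
  have hf : AnalyticAt ℂ f (x ζ, 0) := by
    rw [h.fz]; exact AnalyticAt.comp (by rw [h.base]; exact hz) h.an
  have hdv : AnalyticAt ℂ (dv f) (x ζ, 0) :=
    ((ContinuousLinearMap.apply ℂ ℂ ((0, 1) : ℂ × ℂ)).analyticAt _).comp hf.fderiv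
  have h0 : dv f (x ζ, 0) = 0 := by
    have := h.jv.self_of_nhds
    rw [h.base, hj] at this
    exact (mul_eq_zero.1 this.symm).resolve_left h.une
  refine ⟨h0, fun ξ => ?_, ?_, fun ξ => ?_⟩
  · rw [← hcomp _ (analyticAt_jac hx hz)]
    have he : (fun q => jac x z (Γ q)) =ᶠ[𝓝 (x ζ, (0 : ℂ))] fun q => u q * dv f q := h.jv
    rw [he.fderiv_eq, fderiv_fun_mul h.uan.differentiableAt hdv.differentiableAt]
    simp [h0]
  · rw [← hcomp _ hx]
    have he : (fun q => x (Γ q)) =ᶠ[𝓝 (x ζ, (0 : ℂ))] fun q => q.1 := h.fx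
    rw [he.fderiv_eq, fderiv_fst]
    rfl
  · rw [← hcomp _ hz, h.fz]; rfl

theorem par_lc {j x : C2 → ℂ} {ζ w : C2} (hj : jac j x ζ = 0) (hx : fderiv ℂ x ζ ≠ 0)
    (hw : fderiv ℂ x ζ w = 0) : fderiv ℂ j ζ w = 0 := by
  rw [fderiv_apply_pd] at hw ⊢
  unfold jac at hj
  by_cases h0 : pd 0 x ζ = 0
  · have h1 : pd 1 x ζ ≠ 0 := fun h1 => hx (by
      ext1 ξ
      rw [fderiv_apply_pd, h0, h1]; simp)
    apply mul_left_cancel₀ h1
    linear_combination (w 0) * hj + pd 1 j ζ * hw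
  · apply mul_left_cancel₀ h0
    linear_combination pd 0 j ζ * hw - (w 1) * hj

theorem p_LC (hADP : S_ADP) (hLR : S_LR) :
    S_LC := by
  intro x z ζ hx hz hj
  refine ⟨fun hjj => ?_, fun hd => ?_⟩
  · by_cases hdx : fderiv ℂ x ζ = 0
    · exact Or.inr ((hLR x z ζ hx hz).2.1 hdx)
    · obtain ⟨Γ, f, u, hA, hE⟩ := hADP x z ζ hx hz hdx
      obtain ⟨h0, h1, h2, -⟩ := adp_lc hx hz hj hA
      have h3 := par_lc hjj hdx h2
      rw [h1] at h3
      exact Or.inl (hE h0 ((mul_eq_zero.1 h3).resolve_left hA.une)).1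
  · by_cases hdx : fderiv ℂ x ζ = 0
    · by_cases hdz : fderiv ℂ z ζ = 0
      · exact Or.inr (Or.inl ((hLR x z ζ hx hz).2.2.1 hdx hdz))
      · obtain ⟨Γ, f, u, hA, hE⟩ := hADP z x ζ hz hx hdz
        have hj' : jac z x ζ = 0 := by rw [jac_swap, hj, neg_zero]
        have hd' : fderiv ℂ (jac z x) ζ = 0 := by
          have : jac z x = -jac x z := funext fun y => jac_swap z x y
          rw [this, fderiv_neg, hd, neg_zero]
        obtain ⟨h0, h1, -, h4⟩ := adp_lc hz hx hj' hA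
        have h3 := h1 (0, 1)
        rw [hd'] at h3
        have h5 : da f (z ζ, 0) = 0 := by
          unfold da
          rw [h4, hdx]; rfl
        exact Or.inr (Or.inr ((hE h0
          ((mul_eq_zero.1 h3.symm).resolve_left hA.une)).2.2.2 h5))
    · obtain ⟨Γ, f, u, hA, hE⟩ := hADP x z ζ hx hz hdx
      obtain ⟨h0, h1, -, -⟩ := adp_lc hx hz hj hA
      have h3 := h1 (0, 1)
      have h4 := h1 (1, 0)
      rw [hd] at h3 h4
      exact Or.inl ((hE h0 ((mul_eq_zero.1 h3.symm).resolve_left hA.une)).2.2.1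
        ((mul_eq_zero.1 h4.symm).resolve_left hA.une))

end Pool.Agent.P.MP_ab0431_ag.UB

namespace Pool.Agent.P.MP_ab0431_ag.UB

open Polynomial Set Filter Topology Asymptotics MeasureTheory
open scoped Manifold ContDiff

theorem vn_mul_ltu {F g h : C2 → ℂ} {ζ : C2} {sw : Bool} {α : Fin 3 → ℂ} {n₀ n₁ : ℕ}
    (hg : AnalyticAt ℂ g ζ) (hh : AnalyticAt ℂ h ζ) (hn : n₁ ≤ n₀) (hF : F =ᶠ[𝓝 ζ] g * h)
    (H : Vn h ζ sw α n₀ n₁) : Vn F ζ sw α n₀ n₁ := by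
  have T : Tendsto (cv ζ sw α) (𝓝 0) (𝓝 ζ) := by
    simpa only [ContinuousAt, cv_zero] using (analyticAt_cv ζ sw α 0).continuousAt
  have b1 : (fun v => g (cv ζ sw α v)) =O[𝓝 0] fun _ : ℂ => (1 : ℂ) :=
    (hg.continuousAt.tendsto.comp T).isBigO_one ℂ
  have b2 : (fun v => fderiv ℂ g (cv ζ sw α v) (ev (!sw))) =O[𝓝 0] fun _ : ℂ => (1 : ℂ) :=
    ((hg.fderiv.continuousAt.clm_apply continuousAt_const).tendsto.comp T).isBigO_one ℂ
  have b3 : (fun v : ℂ => v ^ n₀) =O[𝓝 0] fun v : ℂ => v ^ n₁ := by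
    rcases hn.eq_or_lt with rfl | h
    · exact isBigO_refl _ _
    · exact (isLittleO_pow_pow h).isBigO
  refine ⟨((b1.mul H.1).congr' (T.eventually hF.symm) (by simp)), ?_⟩
  have b4 := (b1.mul H.2).add (((H.1.trans b3).mul b2).congr_right fun v => mul_comm _ _)
  refine b4.congr' ?_ (by simp)
  filter_upwards [T.eventually (hF.fderiv (𝕜 := ℂ)), T.eventually hg.eventually_analyticAt,
    T.eventually hh.eventually_analyticAt] with v h1 h2 h3
  rw [h1, fderiv_mul (𝕜 := ℂ) h2.differentiableAt h3.differentiableAt]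
  simp

theorem p_LTU :
    S_LTU := by
  rintro t f ζ c γ ha h0 hn - ⟨β, sw, α, h1, h2, h3, h4, h5⟩
  have hx := (ha 1).div (ha 0) h0
  have hz := (ha 2).div (ha 0) h0
  have h1' : AnalyticAt ℂ (1 : C2 → ℂ) ζ := analyticAt_const
  have hne := (ha 0).continuousAt.eventually_ne h0
  refine ⟨β, sw, α, h1, h2, vn_mul_ltu (ha 0) h1' (hn 0) (by simp) h3,
    vn_mul_ltu (ha 0) (hx.sub h1'.const_smul) (hn 1) ?_ h4,
    vn_mul_ltu (ha 0) ((hz.sub h1'.const_smul).sub (hx.sub h1'.const_smul).const_smul) (hn 2) ?_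
      h5⟩
  all_goals
    filter_upwards [hne] with y hy
    simp only [Pi.mul_apply, Pi.sub_apply, Pi.smul_apply, Pi.div_apply, Pi.one_apply, smul_eq_mul]
    field_simp

end Pool.Agent.P.MP_ab0431_ag.UB

namespace Pool.Agent.P.MP_ab0431_ag.UB

open Polynomial Set Filter Topology Asymptotics MeasureTheory
open scoped Manifold ContDiff

theorem mul_wj {g u v : C2 → ℂ} {y : C2} (hu : AnalyticAt ℂ u y) (hv : AnalyticAt ℂ v y)
    (h : ∀ᶠ z in 𝓝 y, g z = u z * v z) :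
    fderiv ℂ g y = u y • fderiv ℂ v y + v y • fderiv ℂ u y := by
  rw [Filter.EventuallyEq.fderiv_eq (f := u * v) h]
  exact fderiv_mul hu.differentiableAt hv.differentiableAt

theorem num_wj {g u : C2 → ℂ} {y : C2} (hg : AnalyticAt ℂ g y) (hu : AnalyticAt ℂ u y)
    (h : u y ≠ 0) : g y = u y * (g / u) y ∧
      ∀ i, pd i g y = u y * pd i (g / u) y + (g / u) y * pd i u y := by
  have e : ∀ᶠ z in 𝓝 y, g z = u z * (g / u) z :=
    (hu.continuousAt.eventually_ne h).mono fun z hz => by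
      rw [Pi.div_apply, mul_div_cancel₀ _ hz]
  refine ⟨e.self_of_nhds, fun i => ?_⟩
  rw [pd, mul_wj hu (hg.div hu h) e]
  rfl

theorem p_WJ :
    S_WJ := by
  intro M f ζ hM hf h0
  have hx := (hf 1).div (hf 0) h0
  have hz := (hf 2).div (hf 0) h0
  have hj := analyticAt_jac hx hz
  have h1 : ∀ᶠ y in 𝓝 ζ, wjf M M M (f 0) (f 1) (f 2) y =
      M * f 0 y ^ 3 * jac (f 1 / f 0) (f 2 / f 0) y := by
    filter_upwards [(hf 0).eventually_analyticAt, (hf 1).eventually_analyticAt,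
      (hf 2).eventually_analyticAt, (hf 0).continuousAt.eventually_ne h0] with y a0 a1 a2 a3
    obtain ⟨b1, c1⟩ := num_wj a1 a0 a3
    obtain ⟨b2, c2⟩ := num_wj a2 a0 a3
    simp only [wjf, jac]
    rw [c1 0, c1 1, c2 0, c2 1]
    generalize (f 1 / f 0) y = p at b1 ⊢
    generalize (f 2 / f 0) y = q at b2 ⊢
    rw [b1, b2]
    ring
  refine ⟨hj, h1, fun hJ => ?_⟩
  have hM' : (M : ℂ) ≠ 0 := Nat.cast_ne_zero.2 hM
  have hU : (M : ℂ) * f 0 ζ ^ 3 ≠ 0 := mul_ne_zero hM' (pow_ne_zero _ h0)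
  have hj0 : jac (f 1 / f 0) (f 2 / f 0) ζ = 0 :=
    (mul_eq_zero.1 (h1.self_of_nhds.symm.trans hJ)).resolve_left hU
  have h2 := mul_wj (u := fun y => (M : ℂ) * f 0 y ^ 3) (analyticAt_const.mul ((hf 0).pow 3)) hj h1
  replace h2 : fderiv ℂ (wjf M M M (f 0) (f 1) (f 2)) ζ =
      ((M : ℂ) * f 0 ζ ^ 3) • fderiv ℂ (jac (f 1 / f 0) (f 2 / f 0)) ζ := by
    rw [h2, hj0]; ext v; simp
  refine ⟨⟨fun h => ContinuousLinearMap.ext fun v => ?_, fun h => by rw [h2, h]; ext v; simp⟩, ?_⟩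
  · have := congrArg (fun L : C2 →L[ℂ] ℂ => L v) (h2.symm.trans h)
    exact (mul_eq_zero.1 this).resolve_left hU
  obtain ⟨b1, c1⟩ := num_wj (hf 1) (hf 0) h0
  have h3 : ∀ i, pd i (wjf M M M (f 0) (f 1) (f 2)) ζ =
      (M : ℂ) * f 0 ζ ^ 3 * pd i (jac (f 1 / f 0) (f 2 / f 0)) ζ := fun i => by
    rw [pd, h2]; rfl
  have h4 : wjf (3 * M + 1) M M (wjf M M M (f 0) (f 1) (f 2)) (f 0) (f 1) ζ =
      -(M * f 0 ζ ^ 2 * (M * f 0 ζ ^ 3)) * jac (jac (f 1 / f 0) (f 2 / f 0)) (f 1 / f 0) ζ := by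
    rw [wjf, hJ, jac, jac, jac, jac, h3 0, h3 1, c1 0, c1 1]
    generalize (f 1 / f 0) ζ = p at b1 ⊢
    rw [b1]
    ring
  rw [h4, mul_eq_zero, or_iff_right
    (neg_ne_zero.2 (mul_ne_zero (mul_ne_zero hM' (pow_ne_zero _ h0)) hU))]

end Pool.Agent.P.MP_ab0431_ag.UB
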