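import Pool.Agent.P.MP_ab0431_ag.UB.IfaceA

/-! Steps PT1 LO PT2 RPAR RCH JFORM RM1 RM2 RFIN. -/

set_option autoImplicit false
set_option linter.unusedSectionVars false
set_option linter.unusedVariables false

namespace Pool.Agent.P.MP_ab0431_ag.UB

open Polynomial Set Filter Topology Asymptotics MeasureTheory
open scoped Manifold ContDiff

theorem an_pt1 {X : Surf} {M : ℕ} {h : Ch X} {s : Fin 3 → Sec X} (H : Tri M h s) (p : X.X)
    (i : Fin 3) : AnalyticAt ℂ (s i (h.e p)) (h.pt p) :=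
  isForm_analyticAt (H.form i) (h.mem p) ((h.e p).map_source (h.src p))

theorem key_pt1 (hLC : S_LC) (hLTU : S_LTU) (hWJ : S_WJ) {X : Surf} {M : ℕ} {h : Ch X}
    {s : Fin 3 → Sec X} (H : Tri M h s) (p : X.X) (h0 : h.vl (s 0) p ≠ 0)
    (hJ : h.vl (J1 M s) p = 0) : fderiv ℂ (J1 M s (h.e p)) (h.pt p) ≠ 0 ∧
      (h.vl (s 1) p = 0 → h.vl (J2 M s) p ≠ 0) := by
  have an := an_pt1 H p
  have M0 : M ≠ 0 := by have := H.pos; omega
  obtain ⟨-, w2, w3⟩ := hWJ M (fun i => s i (h.e p)) (h.pt p) M0 an h0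
  obtain ⟨w3, w4⟩ := w3 hJ
  have hj : jac (s 1 (h.e p) / s 0 (h.e p)) (s 2 (h.e p) / s 0 (h.e p)) (h.pt p) = 0 :=
    (mul_eq_zero.1 (w2.self_of_nhds.symm.trans hJ)).resolve_left
      (mul_ne_zero (Nat.cast_ne_zero.2 M0) (pow_ne_zero 3 h0))
  obtain ⟨c1, c2⟩ := hLC _ _ _ ((an 1).div (an 0) h0) ((an 2).div (an 0) h0) hj
  have tu := fun t c γ => hLTU t (fun i => s i (h.e p)) (h.pt p) c γ an h0
  refine ⟨fun e => ?_, fun e1 e => ?_⟩
  · rcases c2 (w3.1 e) with a | a | a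
    · exact H.nice.sg p _ _ (tu _ _ _ (by decide) rfl a)
    · exact H.nice.zz p _ _ (tu _ _ _ (by decide) rfl a)
    · exact H.nice.t2 p _ _ (tu _ _ _ (by decide) rfl a)
  · have z : (s 1 (h.e p) / s 0 (h.e p)) (h.pt p) = 0 := div_eq_zero_iff.2 (.inl e1)
    rcases c1 (w4.1 e) with a | a <;> rw [z] at a
    · exact H.nice.inf1 _ p _ (.inl rfl) (tu _ _ _ (by decide) rfl a)
    · exact H.nice.inf1 _ p _ (.inr rfl) (tu _ _ _ (by decide) rfl a)

theorem p_PT1 (hLR : S_LR) (hLC : S_LC) (hLTU : S_LTU) (hWJ : S_WJ) :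
    S_PT1 := by
  intro X M h s p H
  have an := an_pt1 H p
  have e3 : (fun i => s i (h.e p)) = ![s 0 (h.e p), s 1 (h.e p), s 2 (h.e p)] := by
    funext i; fin_cases i <;> rfl
  have lr := (hLR _ _ _ (an 0) (an 1)).2.2.2 _ (an 2)
  have n1 : h.vl (s 0) p = 0 → h.vl (s 1) p = 0 → h.vl (s 2) p ≠ 0 := fun a b c =>
    H.nice.n1 p (by rw [Ch.Evt, e3]; exact (lr a b).1 c)
  refine ⟨fun e => n1 (congrFun e 0) (congrFun e 1) (congrFun e 2), fun hJ => ?_⟩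
  by_cases h0 : h.vl (s 0) p = 0
  · have h1 : h.vl (s 1) p ≠ 0 := fun h1 => by
      have M0 : (M : ℂ) ≠ 0 := Nat.cast_ne_zero.2 (by have := H.pos; omega)
      have e : h.vl (J1 M s) p = M * h.vl (s 0) p * jac (s 1 (h.e p)) (s 2 (h.e p)) (h.pt p) -
          M * h.vl (s 1) p * jac (s 0 (h.e p)) (s 2 (h.e p)) (h.pt p) +
          M * h.vl (s 2) p * jac (s 0 (h.e p)) (s 1 (h.e p)) (h.pt p) := rfl
      rw [hJ, h0, h1, mul_zero, zero_mul, zero_mul, sub_zero, zero_add] at e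
      exact H.nice.n2 p (by
        rw [Ch.Evt, e3]
        exact (lr h0 h1).2 ((mul_eq_zero.1 e.symm).resolve_left (mul_ne_zero M0 (n1 h0 h1))))
    obtain ⟨k1, k2⟩ := key_pt1 hLC hLTU hWJ H.swap p h1
      (by rw [J1_swap]; exact neg_eq_zero.2 hJ)
    rw [J2_swap] at k2
    rw [J1_swap, Pi.neg_apply, fderiv_neg] at k1
    exact ⟨fun _ => ⟨h1, k2 h0⟩, neg_ne_zero.1 k1⟩
  · exact ⟨fun a => absurd a h0, (key_pt1 hLC hLTU hWJ H p h0 hJ).1⟩

end Pool.Agent.P.MP_ab0431_ag.UB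

namespace Pool.Agent.P.MP_ab0431_ag.UB

open Polynomial Set Filter Topology Asymptotics MeasureTheory
open scoped Manifold ContDiff

section
variable {E F : Type} [NormedAddCommGroup E] [NormedSpace ℂ E] [CompleteSpace E]
  [NormedAddCommGroup F] [NormedSpace ℂ F] [CompleteSpace F] {g : E → F} {χ : ℂ → E} {q : E}

theorem d1_lo (e : χ 0 = q) (hg : AnalyticAt ℂ g q) (hχ : AnalyticAt ℂ χ 0) :
    deriv (fun u => g (χ u)) 0 = fderiv ℂ g q (deriv χ 0) := by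
  subst e
  exact (hg.differentiableAt.hasFDerivAt.comp_hasDerivAt 0 hχ.differentiableAt.hasDerivAt).deriv

theorem d2_lo (e : χ 0 = q) (hg : AnalyticAt ℂ g q) (hχ : AnalyticAt ℂ χ 0) :
    deriv (deriv fun u => g (χ u)) 0 = fderiv ℂ (fderiv ℂ g) q (deriv χ 0) (deriv χ 0) +
      fderiv ℂ g q (deriv (deriv χ) 0) := by
  subst e
  have a : (deriv fun u => g (χ u)) =ᶠ[𝓝 0] fun u => fderiv ℂ g (χ u) (deriv χ u) := by
    filter_upwards [hχ.continuousAt.eventually hg.eventually_analyticAt,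
      hχ.eventually_analyticAt] with u h1 h2
    exact (h1.differentiableAt.hasFDerivAt.comp_hasDerivAt u h2.differentiableAt.hasDerivAt).deriv
  rw [a.deriv_eq]
  exact ((hg.fderiv.differentiableAt.hasFDerivAt.comp_hasDerivAt 0
    hχ.differentiableAt.hasDerivAt).clm_apply hχ.deriv.differentiableAt.hasDerivAt).deriv

theorem ap_lo (hg : AnalyticAt ℂ g q) (ξ η : E) :
    fderiv ℂ (fun y => fderiv ℂ g y η) q ξ = fderiv ℂ (fderiv ℂ g) q ξ η := by
  rw [fderiv_clm_apply hg.fderiv.differentiableAt (differentiableAt_const η)]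
  simp

theorem an_lo (hg : AnalyticAt ℂ g q) (η : E) : AnalyticAt ℂ (fun y => fderiv ℂ g y η) q :=
  ((ContinuousLinearMap.apply ℂ F η).analyticAt _).comp hg.fderiv

end

theorem sp_lo (ξ : ℂ × ℂ) : ξ = ξ.1 • ((1, 0) : ℂ × ℂ) + ξ.2 • ((0, 1) : ℂ × ℂ) := by simp

theorem Adp.chi_lo {x z : C2 → ℂ} {ζ : C2} {Γ : ℂ × ℂ → C2} {f w : ℂ × ℂ → ℂ}
    (A : Adp x z ζ Γ f w) {ψ : ℂ → C2} (P : Par (jac x z) ζ ψ) : ∃ χ : ℂ → ℂ × ℂ,
    AnalyticAt ℂ χ 0 ∧ χ 0 = (x ζ, 0) ∧ deriv ψ 0 = fderiv ℂ Γ (x ζ, 0) (deriv χ 0) ∧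
    (fun u => (χ u).1) =ᶠ[𝓝 0] (fun u => x (ψ u)) ∧ (fun u => dv f (χ u)) =ᶠ[𝓝 0] (fun _ => 0) ∧
    Function.Surjective (fderiv ℂ Γ (x ζ, 0)) := by
  obtain ⟨Λ, a1, a2, a3, -⟩ := A.inv
  obtain ⟨p1, rfl, -, p4⟩ := P
  have c : AnalyticAt ℂ (fun u => Λ (ψ u)) 0 := a1.comp p1
  have t : Tendsto (fun u => Λ (ψ u)) (𝓝 0) (𝓝 (x (ψ 0), 0)) := a2 ▸ c.continuousAt
  have e : (fun u => Γ (Λ (ψ u))) =ᶠ[𝓝 0] ψ := p1.continuousAt.eventually a3
  refine ⟨_, c, a2, by rw [← d1_lo a2 A.an c, e.deriv_eq], ?_, ?_, fun η => ?_⟩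
  · filter_upwards [e, t.eventually A.fx] with u h1 h2
    rw [← h2, h1]
  · filter_upwards [e, t.eventually A.jv, p4,
      t.eventually (A.uan.continuousAt.eventually_ne A.une)] with u h1 h2 h3 h4
    rw [h1, h3] at h2
    exact (mul_eq_zero.1 h2.symm).resolve_left h4
  · have := fderiv_comp (ψ 0) (a2 ▸ A.an).differentiableAt a1.differentiableAt
    rw [(show Γ ∘ Λ =ᶠ[𝓝 (ψ 0)] id from a3).fderiv_eq, fderiv_id, a2] at this
    exact ⟨_, (DFunLike.congr_fun this η).symm⟩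

theorem p_LO (hADP : S_ADP) (hLR : S_LR) (hHESS : S_HESS) (hORDB : S_ORDB) :
    S_LO := by
  intro x z ζ ψ hx hz hj P
  have ⟨p1, p2, p3, p4⟩ := P
  have c : AnalyticAt ℂ (fun u => x (ψ u)) 0 := (p2 ▸ hx).comp p1
  refine ⟨?_, fun h => ?_⟩
  · have a := d1_lo p2 (analyticAt_jac hx hz) p1
    rw [(show (fun u => jac x z (ψ u)) =ᶠ[𝓝 0] fun _ => 0 from p4).deriv_eq, deriv_const,
      fderiv_apply_pd] at a
    rw [d1_lo p2 hx p1, fderiv_apply_pd, jac]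
    constructor <;> intro b <;> by_contra n
    · refine p3 (funext fun i => ?_)
      fin_cases i <;> refine mul_left_cancel₀ n ?_
      · simp only [Fin.zero_eta, Pi.zero_apply]
        linear_combination -pd 1 x ζ * a - pd 1 (jac x z) ζ * b
      · simp only [Fin.mk_one, Pi.zero_apply]
        linear_combination pd 0 x ζ * a + pd 0 (jac x z) ζ * b
    · refine hj (ContinuousLinearMap.ext fun ξ => ?_)
      rw [fderiv_apply_pd, zero_apply]
      refine mul_left_cancel₀ n ?_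
      linear_combination -(ξ 0 * pd 0 x ζ + ξ 1 * pd 1 x ζ) * a +
        (ξ 0 * deriv ψ 0 1 - ξ 1 * deriv ψ 0 0) * b
  have o := (hORDB (fun u => x (ψ u) - x ζ) 3 (c.sub analyticAt_const)).1.1 h
  have o1 := o 1 (by omega)
  have o2 := o 2 (by omega)
  simp only [iteratedDeriv_succ, iteratedDeriv_zero, deriv_sub_const_fun] at o1 o2
  by_cases dx : fderiv ℂ x ζ = 0
  · by_cases dz : fderiv ℂ z ζ = 0
    · exact .inr (.inl ((hLR x z ζ hx hz).2.2.1 dx dz))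
    obtain ⟨Γ, f, w, A, k⟩ := hADP z x ζ hz hx dz
    obtain ⟨χ, c1, c2, c3, -, c5, c6⟩ := A.chi_lo (ψ := ψ)
      ⟨p1, p2, p3, p4.mono fun u e => by rw [jac_swap, e, neg_zero]⟩
    have fa : AnalyticAt ℂ f (z ζ, 0) := A.fz ▸ (A.base ▸ hx).comp A.an
    have f0 : fderiv ℂ f (z ζ, 0) = 0 := by
      rw [A.fz, fderiv_comp _ (A.base ▸ hx).differentiableAt A.an.differentiableAt, A.base, dx,
        ContinuousLinearMap.zero_comp]
    have a := c5.deriv_eq.symm.trans (d1_lo c2 (an_lo fa (0, 1)) c1)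
    rw [deriv_const] at a
    by_cases a0 : (deriv χ 0).1 = 0
    · refine .inr (.inr (.inr ((k (by simp [dv, f0]) ?_).2.2.2 (by simp [da, f0]))))
      rw [sp_lo (deriv χ 0), a0, zero_smul, zero_add, map_smul] at a c3
      exact (smul_eq_zero.1 a.symm).resolve_left fun e => p3 (by rw [c3, e, zero_smul])
    obtain ⟨-, H2, H3⟩ := hHESS x ζ hx dx
    refine .inr (.inr (.inl (H2 z _ hz p3 (ContinuousLinearMap.ext fun η => ?_))))
    obtain ⟨η, rfl⟩ := c6 η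
    rw [A.fz] at a
    replace a := a.trans (H3 Γ _ _ _ A.an A.base)
    rw [← c3] at a
    rw [d2_lo p2 hx p1, dx, zero_apply, add_zero] at o2
    nth_rw 2 [c3] at o2
    rw [sp_lo (deriv χ 0)] at o2
    rw [zero_apply, sp_lo η]
    simp only [map_add, map_smul, ← a, smul_zero, add_zero] at o2 ⊢
    rw [(smul_eq_zero.1 o2).resolve_left a0, smul_zero]
  obtain ⟨Γ, f, w, A, k⟩ := hADP x z ζ hx hz dx
  obtain ⟨χ, c1, c2, c3, c4, c5, -⟩ := A.chi_lo P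
  have fa := an_lo (show AnalyticAt ℂ f (x ζ, 0) from A.fz ▸ (A.base ▸ hz).comp A.an) (0, 1)
  have l := (ContinuousLinearMap.fst ℂ ℂ ℂ).analyticAt (χ 0)
  have a1 := (c4.deriv_eq.trans o1).symm.trans (d1_lo rfl l c1)
  have a2 := (c4.deriv.deriv_eq.trans o2).symm.trans (d2_lo rfl l c1)
  have b1 := c5.deriv_eq.symm.trans (d1_lo c2 fa c1)
  have b2 := c5.deriv.deriv_eq.symm.trans (d2_lo c2 fa c1)
  rw [deriv_const] at b1
  rw [fderiv_fst] at a1 a2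
  rw [show fderiv ℂ Prod.fst = fun _ => _ from funext fun _ => fderiv_fst, fderiv_fun_const] at a2
  simp only [Pi.zero_apply, zero_apply, zero_add, ContinuousLinearMap.coe_fst'] at a1 a2
  rw [sp_lo (deriv χ 0), ← a1, zero_smul, zero_add] at b1 b2 c3
  rw [sp_lo (deriv (deriv χ) 0), ← a2, zero_smul, zero_add] at b2
  simp only [map_smul] at b1 b2 c3
  have v0 : (deriv χ 0).2 ≠ 0 := fun e => p3 (by rw [c3, e, zero_smul])
  have e1 := (smul_eq_zero.1 b1.symm).resolve_left v0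
  rw [e1] at b2
  refine .inl ((k (c2 ▸ c5.eq_of_nhds) e1).2.1 ((ap_lo fa _ _).trans ?_))
  simpa [v0] using! b2.symm

end Pool.Agent.P.MP_ab0431_ag.UB

namespace Pool.Agent.P.MP_ab0431_ag.UB

open Polynomial Set Filter Topology Asymptotics MeasureTheory
open scoped Manifold ContDiff

theorem one_pt2 (hLO : S_LO) (hLTU : S_LTU) (hWJ : S_WJ) (hPT1 : S_PT1) (hORDB : S_ORDB)
    (X : Surf) (M : ℕ) (h : Ch X) (s : Fin 3 → Sec X) (p : X.X) (ψ : ℂ → C2)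
    (H : Tri M h s) (hP : Par (J1 M s (h.e p)) (h.pt p) ψ) (h0 : h.vl (s 0) p ≠ 0) (ν : ℕ)
    (hν : ν = 1 ∧ h.vl (J2 M s) p ≠ 0 ∨ ν = 2 ∧ h.vl (J2 M s) p = 0) :
    ((fun u => s 1 (h.e p) (ψ u) / s 0 (h.e p) (ψ u) - h.vl (s 1) p / h.vl (s 0) p) =O[𝓝 0]
      fun u : ℂ => u ^ ν) ∧
    ¬(fun u => s 1 (h.e p) (ψ u) / s 0 (h.e p) (ψ u) - h.vl (s 1) p / h.vl (s 0) p) =O[𝓝 0]
      fun u : ℂ => u ^ (ν + 1) := by
  obtain ⟨hψ, hψ0, hψ1, hψ2⟩ := hP
  set f : Fin 3 → C2 → ℂ := fun i => s i (h.e p) with hf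
  have hfa : ∀ i, AnalyticAt ℂ (f i) (h.pt p) := fun i =>
    isForm_analyticAt (H.form i) (h.mem p) ((h.e p).map_source (h.src p))
  have hf0 : f 0 (h.pt p) ≠ 0 := h0
  have hM : M ≠ 0 := by have := H.pos; omega
  obtain ⟨-, hev, hW⟩ := hWJ M f (h.pt p) hM hfa hf0
  have hJ0 : wjf M M M (f 0) (f 1) (f 2) (h.pt p) = 0 := by
    have := hψ2.self_of_nhds
    rw [hψ0] at this
    exact this
  obtain ⟨hW1, hW2⟩ := hW hJ0
  have hfd : fderiv ℂ (jac (f 1 / f 0) (f 2 / f 0)) (h.pt p) ≠ 0 := fun h' =>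
    ((hPT1 X M h s p H).2 hJ0).2 (hW1.2 h')
  have hx : AnalyticAt ℂ (f 1 / f 0) (h.pt p) := (hfa 1).div (hfa 0) hf0
  have hz : AnalyticAt ℂ (f 2 / f 0) (h.pt p) := (hfa 2).div (hfa 0) hf0
  have ht : Tendsto ψ (𝓝 0) (𝓝 (h.pt p)) := hψ0 ▸ hψ.continuousAt.tendsto
  have hPar : Par (jac (f 1 / f 0) (f 2 / f 0)) (h.pt p) ψ := by
    refine ⟨hψ, hψ0, hψ1, ?_⟩
    filter_upwards [hψ2, ht.eventually hev,
      ht.eventually ((hfa 0).continuousAt.eventually_ne hf0)] with u h1 h2 h3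
    have h4 : (M : ℂ) * f 0 (ψ u) ^ 3 * jac (f 1 / f 0) (f 2 / f 0) (ψ u) = 0 := h2.symm.trans h1
    exact (mul_eq_zero.1 h4).resolve_left
      (mul_ne_zero (Nat.cast_ne_zero.2 hM) (pow_ne_zero _ h3))
  obtain ⟨hL1, hL2⟩ := hLO _ _ _ ψ hx hz hfd hPar
  have hxψ : AnalyticAt ℂ (fun u => (f 1 / f 0) (ψ u)) 0 := AnalyticAt.comp (hψ0 ▸ hx) hψ
  have hg : AnalyticAt ℂ (fun u => (f 1 / f 0) (ψ u) - (f 1 / f 0) (h.pt p)) 0 :=
    hxψ.sub analyticAt_const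
  have hg0 : iteratedDeriv 0 (fun u => (f 1 / f 0) (ψ u) - (f 1 / f 0) (h.pt p)) 0 = 0 := by
    rw [iteratedDeriv_zero, hψ0, sub_self]
  have hg1 : iteratedDeriv 1 (fun u => (f 1 / f 0) (ψ u) - (f 1 / f 0) (h.pt p)) 0 = 0 ↔
      h.vl (J2 M s) p = 0 := by
    rw [iteratedDeriv_one, deriv_sub_const, hL1]
    exact hW2.symm
  change ((fun u => (f 1 / f 0) (ψ u) - (f 1 / f 0) (h.pt p)) =O[𝓝 0] fun u : ℂ => u ^ ν) ∧
    ¬(fun u => (f 1 / f 0) (ψ u) - (f 1 / f 0) (h.pt p)) =O[𝓝 0] fun u : ℂ => u ^ (ν + 1)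
  rcases hν with ⟨rfl, h2⟩ | ⟨rfl, h2⟩
  · refine ⟨(hORDB _ 1 hg).1.2 fun i hi => ?_, fun h3 => h2 (hg1.1 ?_)⟩
    · obtain rfl : i = 0 := by omega
      exact hg0
    · exact (hORDB _ 2 hg).1.1 h3 1 (by omega)
  · refine ⟨(hORDB _ 2 hg).1.2 fun i hi => ?_, fun h3 => ?_⟩
    · obtain rfl | rfl : i = 0 ∨ i = 1 := by omega
      · exact hg0
      · exact hg1.2 h2
    · rcases hL2 h3 with h4 | h4 | h4 | h4
      · exact H.nice.b4 p _ _ (hLTU _ f _ _ _ hfa hf0 (by decide) rfl h4)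
      · exact H.nice.zz p _ _ (hLTU _ f _ _ _ hfa hf0 (by decide) rfl h4)
      · exact H.nice.t1 p _ (hLTU _ f _ _ _ hfa hf0 (by decide) rfl h4)
      · exact H.nice.t2 p _ _ (hLTU _ f _ _ _ hfa hf0 (by decide) rfl h4)

theorem p_PT2 (hLO : S_LO) (hLTU : S_LTU) (hWJ : S_WJ) (hPT1 : S_PT1) (hORDB : S_ORDB) :
    S_PT2 := by
  intro X M h s p ψ H hP
  refine ⟨one_pt2 hLO hLTU hWJ hPT1 hORDB X M h s p ψ H hP, fun h0 => ?_⟩
  have hJ0 : h.vl (J1 M s) p = 0 := by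
    have := hP.2.2.2.self_of_nhds
    rw [hP.2.1] at this
    exact this
  obtain ⟨h1, h2⟩ := ((hPT1 X M h s p H).2 hJ0).1 h0
  have hP' : Par (J1 M ![s 1, s 0, s 2] (h.e p)) (h.pt p) ψ := by
    refine ⟨hP.1, hP.2.1, hP.2.2.1, ?_⟩
    filter_upwards [hP.2.2.2] with u hu
    rw [J1_swap]
    exact neg_eq_zero.2 hu
  have := one_pt2 hLO hLTU hWJ hPT1 hORDB X M h ![s 1, s 0, s 2] p ψ H.swap hP' h1 1
    (Or.inl ⟨rfl, by rw [J2_swap]; exact h2⟩)
  change ((fun u => s 0 (h.e p) (ψ u) / s 1 (h.e p) (ψ u) - h.vl (s 0) p / h.vl (s 1) p) =O[𝓝 0]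
      fun u : ℂ => u ^ 1) ∧
    ¬(fun u => s 0 (h.e p) (ψ u) / s 1 (h.e p) (ψ u) - h.vl (s 0) p / h.vl (s 1) p) =O[𝓝 0]
      fun u : ℂ => u ^ (1 + 1) at this
  simpa only [h0, zero_div, sub_zero] using this

end Pool.Agent.P.MP_ab0431_ag.UB

namespace Pool.Agent.P.MP_ab0431_ag.UB

open Polynomial Set Filter Topology Asymptotics MeasureTheory
open scoped Manifold ContDiff

theorem exists_equiv_rpar (L : C2 →L[ℂ] ℂ) (hL : L ≠ 0) :
    ∃ (l : C2 →L[ℂ] ℂ) (E : C2 ≃L[ℂ] ℂ × ℂ), (E : C2 →L[ℂ] ℂ × ℂ) = L.prod l := by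
  have key : ∀ v : C2, L v = v 0 * L (Pi.single 0 1) + v 1 * L (Pi.single 1 1) := fun v => by
    have : v = v 0 • (Pi.single 0 1 : C2) + v 1 • (Pi.single 1 1 : C2) := by
      funext i; fin_cases i <;> simp
    conv_lhs => rw [this]
    simp only [map_add, map_smul, smul_eq_mul]
  have h : ∃ l : C2 →L[ℂ] ℂ, ∀ v, L v = 0 → l v = 0 → v = 0 := by
    by_cases h0 : L (Pi.single 0 1) = 0
    · have h1 : L (Pi.single 1 1) ≠ 0 := fun h1 => hL (by
        ext1 v; rw [key, h0, h1]; simp)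
      refine ⟨ContinuousLinearMap.proj 0, fun v a b => ?_⟩
      rw [key, h0, mul_zero, zero_add] at a
      funext i; fin_cases i
      exacts [b, (mul_eq_zero.1 a).resolve_right h1]
    · refine ⟨ContinuousLinearMap.proj 1, fun v a b => ?_⟩
      have b' : v 1 = 0 := b
      rw [key, b', zero_mul, add_zero] at a
      funext i; fin_cases i
      exacts [(mul_eq_zero.1 a).resolve_right h0, b]
  obtain ⟨l, hl⟩ := h
  have hi : Function.Injective ((L.prod l : C2 →L[ℂ] ℂ × ℂ) : C2 →ₗ[ℂ] ℂ × ℂ) :=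
    (injective_iff_map_eq_zero _).2 fun v hv => hl v (congrArg Prod.fst hv) (congrArg Prod.snd hv)
  exact ⟨l, (LinearMap.linearEquivOfInjective _ hi (by simp)).toContinuousLinearEquiv,
    ContinuousLinearMap.ext fun _ => rfl⟩

theorem p_RPAR :
    S_RPAR := by
  intro j ζ O₀ hj hj0 hd hO
  obtain ⟨l, E, hE⟩ := exists_equiv_rpar _ hd
  let θ : C2 → ℂ := fun y => l y - l ζ
  have hθ : Continuous θ := l.continuous.sub continuous_const
  have hθd : ∀ y, HasFDerivAt θ l y := fun y => l.hasFDerivAt.sub_const _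
  have ha : ContDiffAt ℂ ω (fun y => (j y, θ y)) ζ :=
    (hj.prod ((l.analyticAt ζ).sub analyticAt_const)).contDiffAt
  have hf : HasFDerivAt (fun y => (j y, θ y)) (E : C2 →L[ℂ] ℂ × ℂ) ζ := by
    rw [hE]; exact hj.differentiableAt.hasFDerivAt.prodMk (hθd ζ)
  have hn : (ω : WithTop ℕ∞) ≠ 0 := by simp
  let e := ha.toOpenPartialHomeomorph _ hf hn
  have he : ∀ y, e y = (j y, θ y) := fun _ => rfl
  have hs : ζ ∈ e.source := ha.mem_toOpenPartialHomeomorph_source hf hn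
  have h0 : e ζ = 0 := by rw [he, hj0]; exact Prod.ext rfl (sub_self _)
  have h1 : e.symm 0 = ζ := by rw [← h0, e.left_inv hs]
  have han : AnalyticAt ℂ e.symm 0 := h0 ▸ (ha.to_localInverse hf hn).analyticAt
  have hev : ∀ᶠ p in 𝓝 (0 : ℂ × ℂ), p ∈ e.target ∧ AnalyticAt ℂ e.symm p ∧ e.symm p ∈ O₀ :=
    (Filter.Eventually.and (e.open_target.mem_nhds (h0 ▸ e.map_source hs))
      (han.eventually_analyticAt.and (han.continuousAt.preimage_mem_nhds (h1.symm ▸ hO))))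
  obtain ⟨ε, hε, hb⟩ := Metric.eventually_nhds_iff_ball.1 hev
  have hball : ∀ u : ℂ, ((0 : ℂ), u) ∈ Metric.ball (0 : ℂ × ℂ) ε ↔ u ∈ Metric.ball (0 : ℂ) ε :=
    fun u => by simp [Prod.norm_def]
  have hψ : AnalyticOnNhd ℂ (fun u : ℂ => e.symm (0, u)) (Metric.ball 0 ε) := fun u hu =>
    (hb _ ((hball u).2 hu)).2.1.comp (f := fun u : ℂ => ((0 : ℂ), u))
      (analyticAt_const.prod analyticAt_id)
  have hr : ∀ u ∈ Metric.ball (0 : ℂ) ε, e (e.symm (0, u)) = (0, u) := fun u hu =>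
    e.right_inv (hb _ ((hball u).2 hu)).1
  refine ⟨ε, fun u => e.symm (0, u), θ, e.source ∩ e ⁻¹' Metric.ball 0 ε, hε,
    e.isOpen_inter_preimage Metric.isOpen_ball, ⟨hs, by
      rw [mem_preimage, h0]; exact Metric.mem_ball_self hε⟩, fun y hy => ?_, hψ, hθ.continuousOn,
    h1, fun hz => ?_, fun u hu => ⟨⟨e.map_target (hb _ ((hball u).2 hu)).1, ?_⟩,
      congrArg Prod.fst (hr u hu), congrArg Prod.snd (hr u hu)⟩, fun y hy hy0 => ?_⟩
  · rw [← e.left_inv hy.1]; exact (hb _ hy.2).2.2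
  · have h2 := (hθd _).comp_hasDerivAt (0 : ℂ)
      (hψ 0 (Metric.mem_ball_self hε)).differentiableAt.hasDerivAt
    have h3 : (θ ∘ fun u : ℂ => e.symm (0, u)) =ᶠ[𝓝 0] id := by
      filter_upwards [Metric.ball_mem_nhds (0 : ℂ) hε] with u hu
      exact congrArg Prod.snd (hr u hu)
    have h4 := (h2.congr_of_eventuallyEq h3.symm).unique (hasDerivAt_id 0)
    rw [hz, map_zero] at h4
    exact zero_ne_one h4
  · rw [mem_preimage, hr u hu]; exact (hball u).2 hu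
  · have h2 : e y = (0, θ y) := by rw [he, hy0]
    exact ⟨(hball _).1 (h2 ▸ hy.2), (congrArg e.symm h2.symm).trans (e.left_inv hy.1)⟩

end Pool.Agent.P.MP_ab0431_ag.UB

namespace Pool.Agent.P.MP_ab0431_ag.UB

open Polynomial Set Filter Topology Asymptotics MeasureTheory
open scoped Manifold ContDiff

theorem inv_rch {w : ℂ → ℂ} (hw : AnalyticAt ℂ w 0) (h0 : w 0 = 0) (hd : deriv w 0 ≠ 0) :
    ∃ s : ℂ → ℂ, AnalyticAt ℂ s 0 ∧ s 0 = 0 ∧ deriv s 0 ≠ 0 ∧ (∀ᶠ v in 𝓝 0, w (s v) = v) ∧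
      ∀ᶠ u in 𝓝 0, s (w u) = u := by
  have hf := hw.hasStrictDerivAt.hasStrictFDerivAt_equiv hd
  have h1 := hw.analyticAt_localInverse hd
  have h2 : ∀ᶠ v in 𝓝 (w 0), w (hw.hasStrictDerivAt.localInverse _ _ _ hd v) = v :=
    hf.eventually_right_inverse
  have h3 : ∀ᶠ u in 𝓝 0, hw.hasStrictDerivAt.localInverse _ _ _ hd (w u) = u :=
    hf.eventually_left_inverse
  have h4 := (hw.hasStrictDerivAt.to_localInverse hd).hasDerivAt.deriv
  have h5 := h3.self_of_nhds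
  generalize hw.hasStrictDerivAt.localInverse _ _ _ hd = s at *
  rw [h0] at h1 h2 h4 h5
  exact ⟨s, h1, h5, by rw [h4]; exact inv_ne_zero hd, h2, h3⟩

theorem root_rch {h : ℂ → ℂ} (hh : AnalyticAt ℂ h 0) (h0 : h 0 ≠ 0) {ν : ℕ} (hν : 0 < ν) :
    ∃ w : ℂ → ℂ, AnalyticAt ℂ w 0 ∧ w 0 = 0 ∧ deriv w 0 ≠ 0 ∧
      ∀ᶠ u in 𝓝 0, w u ^ ν = u ^ ν * h u := by
  obtain ⟨c, hc⟩ := IsAlgClosed.exists_pow_nat_eq (h 0) hν
  have c0 : c ≠ 0 := fun e => h0 (by rw [← hc, e, zero_pow hν.ne'])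
  have hk : AnalyticAt ℂ (fun u => c * Complex.exp (Complex.log (h u / h 0) / ν)) 0 :=
    analyticAt_const.mul (((hh.div_const (c := h 0)).clog (by
      rw [div_self h0]; exact Complex.one_mem_slitPlane)).div_const (c := (ν : ℂ))).cexp'
  refine ⟨fun u => u * (c * Complex.exp (Complex.log (h u / h 0) / ν)), analyticAt_id.mul hk,
    zero_mul _, ?_, ?_⟩
  · have := ((hasDerivAt_id' (0 : ℂ)).fun_mul hk.differentiableAt.hasDerivAt).deriv
    rw [this, zero_mul, add_zero, one_mul]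
    exact mul_ne_zero c0 (Complex.exp_ne_zero _)
  · filter_upwards [hh.continuousAt.eventually_ne h0] with u hu
    rw [mul_pow, mul_pow, ← Complex.exp_nat_mul, mul_div_cancel₀ _ (Nat.cast_ne_zero.2 hν.ne'),
      Complex.exp_log (div_ne_zero hu h0), hc, mul_div_cancel₀ _ h0]

theorem p_RCH (hRPAR : S_RPAR) (hORDB : S_ORDB) :
    S_RCH := by
  intro j g ζ O₀ ν hj hg j0 dj hO hν hord
  obtain ⟨ε0, ψ, θ, O, e0, Oo, ζO, OO, ψa, θc, ψ0, dψ, h1, h2⟩ := hRPAR j ζ O₀ hj j0 dj hO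
  have b0 := Metric.ball_mem_nhds (0 : ℂ) e0
  have a0 := ψa 0 (Metric.mem_ball_self e0)
  obtain ⟨o1, o2⟩ := hord ψ ⟨a0, ψ0, dψ, mem_of_superset b0 fun u hu => (h1 u hu).2.1⟩
  have hG : AnalyticAt ℂ (fun u => g (ψ u)) 0 := hg.comp_of_eq a0 ψ0
  obtain ⟨h, ha, hh⟩ := (hORDB _ ν hG).2.1 o1
  have h0 : h 0 ≠ 0 := fun e => by
    obtain ⟨h', ha', hh'⟩ := (hORDB h 1 ha).2.1 ((hORDB h 1 ha).1.2 fun i hi => by
      rw [Nat.lt_one_iff.1 hi, iteratedDeriv_zero, e])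
    refine o2 ((hORDB _ (ν + 1) hG).2.2 ⟨h', ha', ?_⟩)
    filter_upwards [hh, hh'] with u a b
    rw [a, b]; ring
  obtain ⟨w, wa, w0, dw, hw⟩ := root_rch ha h0 hν
  obtain ⟨s, sa, s0, ds, ws, sw⟩ := inv_rch wa w0 dw
  obtain ⟨V, hV, Vo, V0⟩ := eventually_nhds_iff.1
    ((wa.eventually_analyticAt.and sw).and ((hh.and hw).and
      (show ∀ᶠ u in 𝓝 0, u ∈ Metric.ball (0 : ℂ) ε0 from b0)))
  have sV : ∀ᶠ v in 𝓝 0, s v ∈ V := sa.continuousAt.eventually_mem (by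
    rw [s0]; exact Vo.mem_nhds V0)
  obtain ⟨ε, e1, hε⟩ := Metric.eventually_nhds_iff_ball.1 (sa.eventually_analyticAt.and (ws.and sV))
  have wc : ContinuousOn w V := fun u hu => (hV u hu).1.1.continuousAt.continuousWithinAt
  have t0 : θ ζ = 0 := by rw [← ψ0]; exact (h1 0 (Metric.mem_ball_self e0)).2.2
  refine ⟨ε, ψ ∘ s, w ∘ θ, O ∩ θ ⁻¹' (V ∩ w ⁻¹' Metric.ball 0 ε), e1,
    θc.isOpen_inter_preimage Oo (wc.isOpen_inter_preimage Vo Metric.isOpen_ball),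
    ⟨ζO, ?_⟩, inter_subset_left.trans OO,
    fun u hu => (ψa _ (hV _ (hε u hu).2.2).2.2).comp (hε u hu).1,
    wc.comp (θc.mono inter_subset_left) fun y hy => hy.2.1, by rw [Function.comp, s0, ψ0], ?_,
    fun u hu => ?_, fun y hy hj => ⟨hy.2.2, ?_⟩⟩
  · rw [mem_preimage, t0]
    exact ⟨V0, by rw [mem_preimage, w0]; exact Metric.mem_ball_self e1⟩
  · rw [(a0.differentiableAt.hasDerivAt.scomp_of_eq 0 sa.differentiableAt.hasDerivAt s0.symm).deriv]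
    exact smul_ne_zero ds dψ
  · obtain ⟨-, a1, a2⟩ := hε u hu
    obtain ⟨-, ⟨a3, a4⟩, a5⟩ := hV _ a2
    obtain ⟨a6, a7, a8⟩ := h1 _ a5
    simp only [Function.comp, mem_inter_iff, mem_preimage, a8, a1]
    exact ⟨⟨a6, a2, hu⟩, a7, trivial, by rw [a3, ← a4, a1]⟩
  · simp only [Function.comp]
    rw [(hV _ hy.2.1).1.2, (h2 y hy.1 hj).2]

end Pool.Agent.P.MP_ab0431_ag.UB

namespace Pool.Agent.P.MP_ab0431_ag.UB

open Polynomial Set Filter Topology Asymptotics MeasureTheory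
open scoped Manifold ContDiff

theorem det_jform (A : C2 →L[ℂ] C2) : A.det =
    A (Pi.single 0 1) 0 * A (Pi.single 1 1) 1 - A (Pi.single 1 1) 0 * A (Pi.single 0 1) 1 := by
  have h := LinearMap.det_toMatrix' (A : C2 →ₗ[ℂ] C2)
  rw [Matrix.det_fin_two] at h
  simpa [LinearMap.toMatrix'_apply, ContinuousLinearMap.det] using h.symm

theorem diffdet_jform {φ : C2 → C2} {ζ : C2} (h : AnalyticAt ℂ φ ζ) :
    DifferentiableAt ℂ (fun y => (fderiv ℂ φ y).det) ζ := by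
  have h1 := h.fderiv.differentiableAt
  have h2 : ∀ i j : Fin 2, DifferentiableAt ℂ (fun y => fderiv ℂ φ y (Pi.single i 1) j) ζ :=
    fun i j => differentiableAt_pi.1 (h1.clm_apply (differentiableAt_const _)) j
  simp only [det_jform]
  exact ((h2 0 0).mul (h2 1 1)).sub ((h2 1 0).mul (h2 0 1))

theorem pd_jform {f g D : C2 → ℂ} {φ : C2 → C2} {ζ : C2} {m : ℕ}
    (hf : f =ᶠ[𝓝 ζ] fun y => g (φ y) * D y ^ m) (hg : DifferentiableAt ℂ g (φ ζ))
    (hφ : DifferentiableAt ℂ φ ζ) (hD : DifferentiableAt ℂ D ζ) (h0 : D ζ ≠ 0) (k : Fin 2) :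
    pd k f ζ = D ζ ^ m * (fderiv ℂ φ ζ (Pi.single k 1) 0 * pd 0 g (φ ζ) +
      fderiv ℂ φ ζ (Pi.single k 1) 1 * pd 1 g (φ ζ) + m * g (φ ζ) * (pd k D ζ / D ζ)) := by
  have h1 := ((hg.hasFDerivAt.comp ζ hφ.hasFDerivAt).mul (hD.hasFDerivAt.pow m)).fderiv
  have h2 : fderiv ℂ f ζ = fderiv ℂ ((g ∘ φ) * fun x => D x ^ m) ζ := hf.fderiv_eq
  rw [← fderiv_apply_pd]
  unfold pd
  rw [h2, h1]
  simp only [add_apply, smul_apply, smul_eq_mul,
    ContinuousLinearMap.comp_apply, Function.comp_apply, nsmul_eq_mul]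
  rcases m with _ | m
  · simp
  · simp only [Nat.add_sub_cancel]
    field_simp
    ring

theorem p_JFORM :
    S_JFORM := by
  intro X m₀ m₁ m₂ s₀ s₁ s₂ h₀ h₁ h₂
  refine ⟨fun e he ζ hζ => ?_, fun e he e' he' x hx => ?_⟩
  · have a₀ := isForm_analyticAt h₀ he hζ
    have a₁ := isForm_analyticAt h₁ he hζ
    have a₂ := isForm_analyticAt h₂ he hζ
    exact ((((analyticAt_const.mul a₀).mul (analyticAt_jac a₁ a₂)).sub
      ((analyticAt_const.mul a₁).mul (analyticAt_jac a₀ a₂))).add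
      ((analyticAt_const.mul a₂).mul
        (analyticAt_jac a₀ a₁))).differentiableAt.differentiableWithinAt
  · have hφ := trans_analyticAt he he' hx.1 hx.2
    have h0 := trans_det_ne he he' hx.1 hx.2
    have h3 : (e' ∘ e.symm) (e x) = e' x := by simp [hx.1]
    have key : ∀ (m : ℕ) (s : Sec X), IsForm X.X m s → ∀ k : Fin 2, pd k (s e) (e x) =
        (fderiv ℂ (e' ∘ e.symm) (e x)).det ^ m *
          (fderiv ℂ (e' ∘ e.symm) (e x) (Pi.single k 1) 0 * pd 0 (s e') (e' x) +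
          fderiv ℂ (e' ∘ e.symm) (e x) (Pi.single k 1) 1 * pd 1 (s e') (e' x) + m * s e' (e' x) *
            (pd k (fun y => (fderiv ℂ (e' ∘ e.symm) y).det) (e x) /
              (fderiv ℂ (e' ∘ e.symm) (e x)).det)) := by
      intro m s hs k
      have hf : s e =ᶠ[𝓝 (e x)] fun y => s e' ((e' ∘ e.symm) y) *
          (fun y => (fderiv ℂ (e' ∘ e.symm) y).det) y ^ m := by
        filter_upwards [(e.symm ≫ₕ e').open_source.mem_nhds
          (show e x ∈ _ by simp [hx.1, hx.2])] with y hy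
        simp only [OpenPartialHomeomorph.trans_source, OpenPartialHomeomorph.symm_source,
          mem_inter_iff, mem_preimage] at hy
        have := hs.2 e he e' he' (e.symm y) ⟨e.map_target hy.1, hy.2⟩
        rwa [e.right_inv hy.1] at this
      have hg : DifferentiableAt ℂ (s e') ((e' ∘ e.symm) (e x)) :=
        h3 ▸ (isForm_analyticAt hs he' (e'.map_source hx.2)).differentiableAt
      have := pd_jform hf hg hφ.differentiableAt (diffdet_jform hφ) h0 k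
      rwa [h3] at this
    simp only [wjf, jac]
    rw [key m₀ s₀ h₀ 0, key m₀ s₀ h₀ 1, key m₁ s₁ h₁ 0, key m₁ s₁ h₁ 1, key m₂ s₂ h₂ 0,
      key m₂ s₂ h₂ 1, h₀.2 e he e' he' x hx, h₁.2 e he e' he' x hx, h₂.2 e he e' he' x hx]
    generalize pd 0 (fun y => (fderiv ℂ (e' ∘ e.symm) y).det) (e x) /
      (fderiv ℂ (e' ∘ e.symm) (e x)).det = L₀
    generalize pd 1 (fun y => (fderiv ℂ (e' ∘ e.symm) y).det) (e x) /
      (fderiv ℂ (e' ∘ e.symm) (e x)).det = L₁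
    rw [pow_succ, pow_add, pow_add]
    generalize (fderiv ℂ (e' ∘ e.symm) (e x)).det ^ m₀ = P₀
    generalize (fderiv ℂ (e' ∘ e.symm) (e x)).det ^ m₁ = P₁
    generalize (fderiv ℂ (e' ∘ e.symm) (e x)).det ^ m₂ = P₂
    rw [det_jform]
    ring

end Pool.Agent.P.MP_ab0431_ag.UB

namespace Pool.Agent.P.MP_ab0431_ag.UB

open Polynomial Set Filter Topology Asymptotics MeasureTheory
open scoped Manifold ContDiff

section
variable {X : Surf} (h : Ch X) {n M : ℕ} {j a b : Sec X} {e : OpenPartialHomeomorph X.X C2}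
  {x : X.X}

theorem zero_rm1 (hj : IsForm X.X n j) (he : e ∈ atlas C2 X.X) (hx : x ∈ e.source) :
    h.vl j x = 0 ↔ j e (e x) = 0 := by
  obtain ⟨u, u0, hu⟩ := exists_unit (h.mem x) he (h.src x) hx
  rw [Ch.vl, hu n j hj, mul_eq_zero, or_iff_left (pow_ne_zero _ u0)]

theorem ratio_rm1 (ha : IsForm X.X M a) (hb : IsForm X.X M b) (he : e ∈ atlas C2 X.X)
    (hx : x ∈ e.source) : h.vl a x / h.vl b x = a e (e x) / b e (e x) := by
  obtain ⟨u, u0, hu⟩ := exists_unit (h.mem x) he (h.src x) hx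
  rw [Ch.vl, Ch.vl, hu M a ha, hu M b hb, mul_div_mul_right _ _ (pow_ne_zero _ u0)]

theorem closed_rm1 (hj : IsForm X.X n j) : IsClosed {p | h.vl j p = 0} := by
  refine isOpen_compl_iff.1 (isOpen_iff_mem_nhds.2 fun p hp => ?_)
  have h1 := ((isForm_analyticAt hj (h.mem p) ((h.e p).map_source (h.src p))).continuousAt.comp
    ((h.e p).continuousAt (h.src p))).eventually_ne hp
  filter_upwards [h1, (h.e p).open_source.mem_nhds (h.src p)] with q a1 a2 a3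
  exact a1 ((zero_rm1 h hj (h.mem p) a2).1 a3)

theorem chart_rm1 (hRCH : S_RCH) (hj : IsForm X.X n j) (ha : IsForm X.X M a) (hb : IsForm X.X M b)
    (r : {p // h.vl j p = 0}) (c : ℂ) {ν : ℕ} (hν : 0 < ν)
    (hd : fderiv ℂ (j (h.e r)) (h.pt r) ≠ 0) (hb0 : h.vl b r ≠ 0)
    (ho : ∀ ψ, Par (j (h.e r)) (h.pt r) ψ →
      ((fun u => a (h.e r) (ψ u) / b (h.e r) (ψ u) - c) =O[𝓝 0] fun u : ℂ => u ^ ν) ∧
      ¬(fun u => a (h.e r) (ψ u) / b (h.e r) (ψ u) - c) =O[𝓝 0] fun u : ℂ => u ^ (ν + 1)) :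
    ∃ φ : OpenPartialHomeomorph {p // h.vl j p = 0} ℂ, r ∈ φ.source ∧ φ r = 0 ∧
      (∀ r' ∈ φ.source, h.vl b r' ≠ 0 ∧ h.vl a r' / h.vl b r' - c = φ r' ^ ν) ∧
      ∃ ψ : ℂ → C2, AnalyticAt ℂ ψ 0 ∧ ψ 0 = h.pt r ∧ deriv ψ 0 ≠ 0 ∧ ∀ᶠ u in 𝓝 0,
        (φ.symm u).1 ∈ (h.e r).source ∧ h.e r (φ.symm u).1 = ψ u := by
  classical
  have he := h.mem r
  have ht : h.pt r ∈ (h.e r).target := (h.e r).map_source (h.src r)
  have ab := isForm_analyticAt hb he ht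
  obtain ⟨ε, ψ, θ, O, ε0, oO, mO, sO, aψ, cθ, ψ0, dψ, h1, h2⟩ := hRCH (j (h.e r))
    (fun y => a (h.e r) y / b (h.e r) y - c) (h.pt r) ((h.e r).target ∩ {y | b (h.e r) y ≠ 0}) ν
    (isForm_analyticAt hj he ht) (((isForm_analyticAt ha he ht).div ab hb0).sub analyticAt_const)
    r.2 hd (inter_mem ((h.e r).open_target.mem_nhds ht) (ab.continuousAt.eventually_ne hb0)) hν ho
  have src := h.src r
  unfold Ch.pt at *
  generalize h.e r = e at *
  have tg : ∀ u ∈ Metric.ball (0 : ℂ) ε, ψ u ∈ e.target := fun u hu => (sO (h1 u hu).1).1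
  have key : ∀ u ∈ Metric.ball (0 : ℂ) ε, h.vl j (e.symm (ψ u)) = 0 := fun u hu =>
    (zero_rm1 h hj he (e.map_target (tg u hu))).2 (by rw [e.right_inv (tg u hu)]; exact (h1 u hu).2.1)
  have h3 : ∀ r' : {p // h.vl j p = 0}, r'.1 ∈ e.source ∩ e ⁻¹' O →
      θ (e r') ∈ Metric.ball 0 ε ∧ ψ (θ (e r')) = e r' := fun r' hr =>
    h2 _ hr.2 ((zero_rm1 h hj he hr.1).1 r'.2)
  refine ⟨{ toFun := fun r' => θ (e r')
            invFun := fun u => if hu : u ∈ Metric.ball 0 ε then ⟨e.symm (ψ u), key u hu⟩ else r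
            source := Subtype.val ⁻¹' (e.source ∩ e ⁻¹' O)
            target := Metric.ball 0 ε
            map_source' := fun r' hr => (h3 r' hr).1
            map_target' := fun u hu => ?_
            left_inv' := fun r' hr => ?_
            right_inv' := fun u hu => ?_
            open_source := (e.isOpen_inter_preimage oO).preimage continuous_subtype_val
            open_target := Metric.isOpen_ball
            continuousOn_toFun := cθ.comp (e.continuousOn.comp continuous_subtype_val.continuousOn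
              fun _ hr => hr.1) fun _ hr => hr.2
            continuousOn_invFun := IsInducing.subtypeVal.continuousOn_iff.2
              ((e.continuousOn_symm.comp aψ.continuousOn tg).congr fun u hu => ?_) },
    ⟨src, mO⟩, ?_, fun r' hr => ⟨fun h0 => ?_, ?_⟩, ψ, aψ 0 (Metric.mem_ball_self ε0), ψ0, dψ, ?_⟩
  · rw [dif_pos hu]
    exact ⟨e.map_target (tg u hu), by rw [mem_preimage, e.right_inv (tg u hu)]; exact (h1 u hu).1⟩
  · rw [dif_pos (h3 r' hr).1]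
    exact Subtype.ext (by simp only [(h3 r' hr).2, e.left_inv hr.1])
  · simp only [dif_pos hu, e.right_inv (tg u hu), (h1 u hu).2.2.1]
  · simp only [Function.comp, dif_pos hu]
  · change θ (e r) = 0
    rw [← ψ0, (h1 0 (Metric.mem_ball_self ε0)).2.2.1]
  · exact (sO hr.2).2 ((zero_rm1 h hb he hr.1).1 h0)
  · have := (h1 _ (h3 r' hr).1).2.2.2
    rw [(h3 r' hr).2] at this
    rw [ratio_rm1 h ha hb he hr.1]
    exact this
  · filter_upwards [Metric.ball_mem_nhds (0 : ℂ) ε0] with u hu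
    change (dite _ _ _ : {p // h.vl j p = 0}).1 ∈ _ ∧ e (dite _ _ _ : {p // h.vl j p = 0}).1 = _
    rw [dif_pos hu]
    exact ⟨e.map_target (tg u hu), e.right_inv (tg u hu)⟩

end

theorem p_RM1 (hPT1 : S_PT1) (hPT2 : S_PT2) (hRCH : S_RCH) (hJFORM : S_JFORM) :
    S_RM1 := by
  classical
  intro X M h s H
  have hj : IsForm X.X _ (J1 M s) := hJFORM X M M M _ _ _ (H.form 0) (H.form 1) (H.form 2)
  let ν : {p // h.vl (J1 M s) p = 0} → ℕ := fun r => if h.vl (J2 M s) r = 0 then 2 else 1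
  have hν : ∀ r, ν r = 1 ∧ h.vl (J2 M s) r ≠ 0 ∨ ν r = 2 ∧ h.vl (J2 M s) r = 0 := fun r => by
    by_cases e : h.vl (J2 M s) r = 0 <;> simp [ν, e]
  have key : ∀ r : {p // h.vl (J1 M s) p = 0},
      ∃ φ : OpenPartialHomeomorph {p // h.vl (J1 M s) p = 0} ℂ, r ∈ φ.source ∧ φ r = 0 ∧
      (h.vl (s 0) r ≠ 0 → ∀ r' ∈ φ.source, h.vl (s 0) r' ≠ 0 ∧
        h.vl (s 1) r' / h.vl (s 0) r' = h.vl (s 1) r / h.vl (s 0) r + φ r' ^ ν r) ∧
      (h.vl (s 0) r = 0 → ν r = 1 ∧ ∀ r' ∈ φ.source, r' ≠ r → h.vl (s 0) r' ≠ 0 ∧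
        h.vl (s 1) r' / h.vl (s 0) r' * φ r' = 1) ∧
      ∃ ψ : ℂ → C2, AnalyticAt ℂ ψ 0 ∧ ψ 0 = h.pt r ∧ deriv ψ 0 ≠ 0 ∧ ∀ᶠ u in 𝓝 0,
        (φ.symm u).1 ∈ (h.e r).source ∧ h.e r (φ.symm u).1 = ψ u := fun r => by
    obtain ⟨p1, p2⟩ := (hPT1 X M h s r H).2 r.2
    by_cases e : h.vl (s 0) r = 0
    · obtain ⟨φ, a1, a2, a3, a4⟩ := chart_rm1 h hRCH hj (H.form 0) (H.form 1) r 0 one_pos p2
        (p1 e).1 fun ψ hψ => by simpa only [sub_zero] using (hPT2 X M h s r ψ H hψ).2 e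
      refine ⟨φ, a1, a2, fun e' => absurd e e', fun _ => ⟨if_neg (p1 e).2, fun r' hr hn => ?_⟩, a4⟩
      obtain ⟨b1, b2⟩ := a3 r' hr
      rw [sub_zero, pow_one] at b2
      have b3 : h.vl (s 0) r' ≠ 0 := fun b3 =>
        hn (φ.injOn hr a1 (by rw [a2, ← b2, b3, zero_div]))
      exact ⟨b3, by rw [← b2]; field_simp⟩
    · obtain ⟨φ, a1, a2, a3, a4⟩ := chart_rm1 h hRCH hj (H.form 1) (H.form 0) r _
        (show 0 < ν r by rcases hν r with a | a <;> omega) p2 e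
        fun ψ hψ => (hPT2 X M h s r ψ H hψ).1 e _ (hν r)
      exact ⟨φ, a1, a2, fun _ r' hr => ⟨(a3 r' hr).1, eq_add_of_sub_eq' (a3 r' hr).2⟩,
        fun e' => absurd e' e, a4⟩
  choose φ k1 k2 k3 k4 k5 using key
  refine ⟨{ R := {p // h.vl (J1 M s) p = 0}
            cpt := isCompact_iff_compactSpace.1 (closed_rm1 h hj).isCompact
            t2 := inferInstance
            inf := {r | h.vl (s 0) r = 0}
            xx := fun r => h.vl (s 1) r / h.vl (s 0) r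
            ν := ν
            ψ := φ
            mem := k1
            zero := k2
            ν12 := fun r => (hν r).imp And.left And.left
            aff := k3
            atinf := k4 }, Subtype.val, Subtype.val_injective, continuous_subtype_val,
    Subtype.range_val_subtype, fun _ => Iff.rfl, fun r hr => (((hPT1 X M h s r H).2 r.2).1 hr).1,
    fun _ _ => rfl, fun r => ?_, k5⟩
  rcases hν r with a | a
  · exact iff_of_false (fun b => by have : ν r = 2 := b; omega) a.2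
  · exact iff_of_true a.1 a.2

end Pool.Agent.P.MP_ab0431_ag.UB

namespace Pool.Agent.P.MP_ab0431_ag.UB

open Polynomial Set Filter Topology Asymptotics MeasureTheory
open scoped Manifold ContDiff

theorem ratio_rm2 {X : Surf} {M n : ℕ} (h : Ch X) {s t : Sec X} (hs : IsForm X.X M s)
    (ht : IsForm X.X (n * M) t) {p q : X.X} (hp : p ∈ (h.e q).source) :
    h.vl t p / h.vl s p ^ n = t (h.e q) (h.e q p) / s (h.e q) (h.e q p) ^ n := by
  obtain ⟨v, v0, hv⟩ := exists_unit (h.mem p) (h.mem q) (h.src p) hp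
  rw [Ch.vl, Ch.vl, hv _ _ hs, hv _ _ ht, mul_pow, ← pow_mul, mul_comm M,
    mul_div_mul_right _ _ (pow_ne_zero _ v0)]

theorem p_RM2 :
    S_RM2 := by
  intro X M h s S i n t T D ht
  have p2 : ∀ r, ∀ ψ : ℂ → C2, (∀ᶠ u in 𝓝 0, i ((S.ψ r).symm u) ∈ (h.e (i r)).source ∧
      h.e (i r) (i ((S.ψ r).symm u)) = ψ u) →
      ∀ᶠ u in 𝓝 0, S.lc (fun r => h.vl t (i r) / h.vl (s 0) (i r) ^ n) r u =
        t (h.e (i r)) (ψ u) / s 0 (h.e (i r)) (ψ u) ^ n := fun r ψ hψ =>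
    hψ.mono fun u hu => hu.2 ▸ ratio_rm2 h (T.form 0) ht hu.1
  have an : ∀ r (ψ : ℂ → C2) (m : ℕ) (w : Sec X), AnalyticAt ℂ ψ 0 → ψ 0 = h.pt (i r) →
      IsForm X.X m w → AnalyticAt ℂ (fun u => w (h.e (i r)) (ψ u)) 0 := fun r ψ m w a b c =>
    (isForm_analyticAt c (h.mem _) (b ▸ (h.e _).map_source (h.src _))).comp a
  refine ⟨⟨fun r hr => ?_, fun r hr => ?_⟩, p2⟩
  · obtain ⟨ψ, a1, a2, -, a3⟩ := D.par r
    refine ((an r ψ _ _ a1 a2 ht).div ((an r ψ _ _ a1 a2 (T.form 0)).pow n)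
      (pow_ne_zero _ ?_)).congr (EventuallyEq.symm (p2 r ψ a3))
    simp only [a2]
    exact fun e => hr ((D.inf r).2 e)
  · obtain ⟨ψ, a1, a2, -, a3⟩ := D.par r
    refine ⟨fun u => t (h.e (i r)) (ψ u) / s 1 (h.e (i r)) (ψ u) ^ n,
      (an r ψ _ _ a1 a2 ht).div ((an r ψ _ _ a1 a2 (T.form 1)).pow n)
        (pow_ne_zero _ (by rw [a2]; exact D.inf1 r hr)), by simp only [a2]; rfl, ?_⟩
    have tg : (S.ψ r).target ∈ 𝓝 (0 : ℂ) :=
      (S.ψ r).open_target.mem_nhds (S.zero r ▸ (S.ψ r).map_source (S.mem r))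
    filter_upwards [self_mem_nhdsWithin, nhdsWithin_le_nhds (p2 r ψ a3), nhdsWithin_le_nhds a3,
      nhdsWithin_le_nhds tg] with u u0 b1 b2 b3
    obtain ⟨c1, c2⟩ := (S.atinf r hr).2 _ ((S.ψ r).map_target b3) fun e => u0 (by
      rw [← (S.ψ r).right_inv b3, e]
      exact S.zero r)
    have c3 := ratio_rm2 (n := 1) h (T.form 0) ((one_mul M).symm ▸ T.form 1) b2.1
    rw [pow_one, pow_one, b2.2] at c3
    rw [(S.ψ r).right_inv b3, D.xx _ c1, c3] at c2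
    rw [b1]
    generalize ψ u = y at c2 ⊢
    rw [eq_inv_of_mul_eq_one_right c2, inv_div, div_pow, div_mul_div_cancel₀ (pow_ne_zero _
      fun e => by simp [e] at c2)]

end Pool.Agent.P.MP_ab0431_ag.UB

namespace Pool.Agent.P.MP_ab0431_ag.UB

open Polynomial Set Filter Topology Asymptotics MeasureTheory
open scoped Manifold ContDiff

theorem fin_rfin {R : Type} [TopologicalSpace R] [CompactSpace R] {A : Set R}
    (h : ∀ r, ∀ᶠ r' in 𝓝[≠] r, r' ∉ A) : A.Finite := by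
  by_contra hA
  obtain ⟨r, -, hr⟩ := Set.Infinite.exists_accPt_of_subset_isCompact hA isCompact_univ
    (subset_univ _)
  exact accPt_iff_frequently_nhdsNE.1 hr (h r)

theorem ne_rfin (S : RS) {r r' : S.R} (h : r' ∈ (S.ψ r).source) (e : r' ≠ r) : S.ψ r r' ≠ 0 :=
  fun k => e ((S.ψ r).injOn h (S.mem r) (k.trans (S.zero r).symm))

theorem src_rfin (S : RS) (r : S.R) : ∀ᶠ r' in 𝓝[≠] r, r' ∈ (S.ψ r).source ∧ r' ≠ r :=
  Eventually.and (nhdsWithin_le_nhds ((S.ψ r).open_source.mem_nhds (S.mem r))) self_mem_nhdsWithin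

theorem inj_rfin (S : RS) {r r' : S.R} (h : r' ∈ (S.ψ r).source) (e : r' ≠ r) :
    ∃ W ∈ 𝓝 r', InjOn S.xx W := by
  have h1 := (S.ψ r).open_source.mem_nhds h
  by_cases hr : r ∈ S.inf
  · refine ⟨_, inter_mem h1 (isOpen_ne.mem_nhds e), fun a ha b hb k => (S.ψ r).injOn ha.1 hb.1 ?_⟩
    have a1 := ((S.atinf r hr).2 a ha.1 ha.2).2
    have b1 := ((S.atinf r hr).2 b hb.1 hb.2).2
    linear_combination S.ψ r b * a1 - S.ψ r a * b1 - S.ψ r a * S.ψ r b * k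
  · refine ⟨_, inter_mem h1 (((S.ψ r).continuousAt h).preimage_mem_nhds
      (Metric.ball_mem_nhds _ (norm_pos_iff.2 (ne_rfin S h e)))), fun a ha b hb k =>
      (S.ψ r).injOn ha.1 hb.1 ?_⟩
    rw [(S.aff r hr a ha.1).2, (S.aff r hr b hb.1).2, add_right_inj] at k
    rcases S.ν12 r with n | n <;> rw [n] at k
    · simpa using k
    · refine (sq_eq_sq_iff_eq_or_eq_neg.1 k).resolve_right fun k' => ?_
      have a1 := mem_ball_iff_norm.1 ha.2
      have b1 := mem_ball_iff_norm.1 hb.2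
      have := norm_add_le (S.ψ r a - S.ψ r r') (S.ψ r b - S.ψ r r')
      rw [show S.ψ r a - S.ψ r r' + (S.ψ r b - S.ψ r r') = -(2 * S.ψ r r') by rw [k']; ring,
        norm_neg, norm_mul, Complex.norm_two] at this
      linarith

theorem one_rfin (S : RS) {r : S.R} (hr : r ∉ S.inf) {W : Set S.R} (hW : W ∈ 𝓝 r)
    (h : InjOn S.xx W) : S.ν r = 1 := by
  refine (S.ν12 r).resolve_right fun n => ?_
  have t : (0 : ℂ) ∈ (S.ψ r).target := S.zero r ▸ (S.ψ r).map_source (S.mem r)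
  have e : (S.ψ r).symm 0 = r := by rw [← S.zero r, (S.ψ r).left_inv (S.mem r)]
  have h1 : ∀ᶠ u in 𝓝 (0 : ℂ), u ∈ (S.ψ r).target ∧ (S.ψ r).symm u ∈ W :=
    Eventually.and ((S.ψ r).open_target.mem_nhds t)
      (((S.ψ r).continuousAt_symm t).preimage_mem_nhds (e.symm ▸ hW))
  have h2 := (show Tendsto (fun u : ℂ => -u) (𝓝 0) (𝓝 0) from by
    simpa using continuous_neg.tendsto (0 : ℂ)).eventually h1
  obtain ⟨u, ⟨⟨a1, a2⟩, b1, b2⟩, u0⟩ := (((h1.and h2).filter_mono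
    (nhdsWithin_le_nhds (s := {0}ᶜ))).and self_mem_nhdsWithin).exists
  refine u0 (CharZero.eq_neg_self_iff.1 ((S.ψ r).symm.injOn a1 b1 (h a2 b2 ?_)))
  rw [(S.aff r hr _ ((S.ψ r).map_target a1)).2, (S.aff r hr _ ((S.ψ r).map_target b1)).2,
    (S.ψ r).right_inv a1, (S.ψ r).right_inv b1, n, neg_sq]

theorem p_RFIN :
    S_RFIN := by
  intro S
  have key : ∀ r, ∀ᶠ r' in 𝓝[≠] r, r' ∉ S.inf ∧ S.ν r' = 1 := fun r =>
    (src_rfin S r).mono fun r' ⟨a, b⟩ => by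
      have c : r' ∉ S.inf := by
        by_cases hr : r ∈ S.inf
        exacts [((S.atinf r hr).2 r' a b).1, (S.aff r hr r' a).1]
      obtain ⟨W, w1, w2⟩ := inj_rfin S a b
      exact ⟨c, one_rfin S c w1 w2⟩
  refine ⟨fin_rfin fun r => (key r).mono fun _ a => a.1,
    fin_rfin fun r => (key r).mono fun _ a b => by simp [a.2] at b, fun x => fin_rfin fun r => ?_,
    key⟩
  have c := ((S.ψ r).continuousAt (S.mem r)).continuousWithinAt (s := {r}ᶜ)
  have n : S.ν r ≠ 0 := by rcases S.ν12 r with n | n <;> simp [n]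
  by_cases hr : r ∈ S.inf
  · filter_upwards [src_rfin S r, (c.const_mul x).eventually_ne (b₂ := 1) (by simp [S.zero])]
      with r' a b k
    exact b (k.2 ▸ ((S.atinf r hr).2 r' a.1 a.2).2)
  by_cases hx : S.xx r = x
  · filter_upwards [src_rfin S r] with r' a k
    have := (S.aff r hr r' a.1).2
    rw [k.2, hx, left_eq_add] at this
    exact pow_ne_zero _ (ne_rfin S a.1 a.2) this
  · filter_upwards [src_rfin S r, ((c.pow (S.ν r)).const_add (S.xx r)).eventually_ne (b₂ := x)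
      (by simpa [S.zero, n] using hx)] with r' a b k
    exact b ((S.aff r hr r' a.1).2.symm.trans k.2)

end Pool.Agent.P.MP_ab0431_ag.UB
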