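import Pool.Agent.P.MP_ab0431_ag.UB.IfaceA

/-! Steps RM4 PT3 RM3 QREG SEPF BEZ RM5 PIH LF. -/

set_option autoImplicit false
set_option linter.unusedSectionVars false
set_option linter.unusedVariables false

namespace Pool.Agent.P.MP_ab0431_ag.UB

open Polynomial Set Filter Topology Asymptotics MeasureTheory
open scoped Manifold ContDiff

theorem val_rm4 {f : C2 → ℂ} {ζ : C2} (h : f =O[𝓝 ζ] fun y => ‖y - ζ‖ ^ 5) : f ζ = 0 := by
  simpa using h.eq_zero_imp.self_of_nhds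

theorem p_RM4 (hRM2 : S_RM2) (hRFIN : S_RFIN) (hAPX : S_APX) :
    S_RM4 := by
  intro X M h s S i n τ T D hτ hJ x
  classical
  have fm : ∀ a : Fin n → ℂ, IsForm X.X (1 * M) (∑ l, a l • τ l) := fun a =>
    (one_mul M).symm ▸ isForm_sum _ fun l _ => isForm_smul _ (hτ l)
  have R := fun a => hRM2 X M h s S i 1 _ T D (fm a)
  let G : (Fin n → ℂ) →ₗ[ℂ] S.R → ℂ :=
    { toFun := fun a r => h.vl (∑ l, a l • τ l) (i r) / h.vl (s 0) (i r) ^ 1
      map_add' := fun a b => funext fun r => by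
        simp [Ch.vl, add_smul, Finset.sum_add_distrib, add_div]
      map_smul' := fun c a => funext fun r => by
        simp [Ch.vl, Finset.sum_apply, mul_assoc, ← Finset.mul_sum, mul_div_assoc] }
  have df : ∀ a, ∀ r : S.fb x, DifferentiableAt ℂ (S.lc (G a) r) 0 := fun a r =>
    ((R a).1.1 r r.2.1).differentiableAt
  let P : S.fb x → Submodule ℂ (Fin n → ℂ) := fun r =>
    { carrier := {a | deriv (S.lc (G a) r) 0 = 0}
      zero_mem' := by simp [RS.lc]
      add_mem' := fun {a b} ha hb => by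
        have := deriv_add (df a r) (df b r)
        rw [ha, hb, add_zero] at this
        rw [mem_ofPred_eq, map_add]
        exact this
      smul_mem' := fun c a ha => by
        have := deriv_const_smul c (df a r)
        rw [ha, smul_zero] at this
        rw [mem_ofPred_eq, map_smul]
        exact this }
  have n0 : ∀ r : S.fb x, h.vl (s 0) (i r) ≠ 0 := fun r e => r.2.1 ((D.inf r).2 e)
  have := ((hRFIN S).2.2.1 x).to_subtype
  obtain ⟨a, ha⟩ := Submodule.exists_forall_notMem_of_forall_ne_top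
    (fun p : S.fb x × S.fb x => if p.1 = p.2 then P p.1 else
      ((LinearMap.proj p.1.1).comp G).eqLocus ((LinearMap.proj p.2.1).comp G)) (by
    rintro ⟨r, r'⟩ e
    rw [Submodule.eq_top_iff'] at e
    split_ifs at e with c
    · obtain ⟨ψ, a1, a2, a3, a4⟩ := D.par r
      obtain ⟨k, hk⟩ := Function.ne_iff.1 a3
      obtain ⟨a, ha⟩ := hJ 1 (fun _ => i r) (fun _ => h.e (i r)) (fun _ y => y k - h.pt (i r) k)
        (by omega) (Function.injective_of_subsingleton _) (fun _ => ⟨h.mem _, h.src _⟩)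
        fun _ => ((ContinuousLinearMap.proj (R := ℂ) (φ := fun _ : Fin 2 => ℂ) k).analyticAt
          _).sub analyticAt_const
      have b0 := val_rm4 (ha 0)
      have b1 := ((ha 0).hasFDerivAt (by omega)).add
        ((hasFDerivAt_apply (𝕜 := ℂ) k (h.pt (i r))).sub_const (h.pt (i r) k))
      have b2 := (b1.comp_hasDerivAt_of_eq 0 a1.differentiableAt.hasDerivAt a2.symm).div
        (((isForm_analyticAt (T.form 0) (h.mem (i r)) (a2 ▸ (h.e _).map_source (h.src _))).comp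
          a1).differentiableAt.hasDerivAt) (by simp only [Function.comp, a2]; exact n0 r)
      have b3 : deriv (S.lc (G a) r) 0 = _ := (b2.congr_of_eventuallyEq
        (((R a).2 r ψ a4).mono fun u hu => hu.trans (by simp))).deriv
      rw [e a] at b3
      simp only [Function.comp, a2, Pi.add_apply, Ch.pt, sub_self, sub_zero] at b3 b0
      simp only [b0, zero_add, zero_mul, sub_zero] at b3
      exact div_ne_zero (mul_ne_zero hk (n0 r)) (pow_ne_zero _ (n0 r)) b3.symm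
    · obtain ⟨a, ha⟩ := hJ 2 ![i r, i r'] ![h.e (i r), h.e (i r')] ![0, 1] (by omega)
        (by simpa using fun e => c (Subtype.ext (D.inj e)))
        (fun j => by fin_cases j <;> exact ⟨h.mem _, h.src _⟩)
        fun j => by fin_cases j <;> exact analyticAt_const
      have b0 : h.vl (∑ l, a l • τ l) (i r) - 0 = 0 := val_rm4 (ha 0)
      have b1 : h.vl (∑ l, a l • τ l) (i r') - 1 = 0 := val_rm4 (ha 1)
      have b2 : h.vl _ (i r) / _ = h.vl _ (i r') / _ := e a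
      rw [sub_eq_zero.1 b0, sub_eq_zero.1 b1, zero_div] at b2
      exact div_ne_zero one_ne_zero (pow_ne_zero _ (n0 r')) b2.symm)
  refine ⟨G a, _, (R a).1, fun r hr r' hr' e => ?_, fun r hr _ => ?_⟩
  · by_contra c
    have := ha (⟨r, hr⟩, ⟨r', hr'⟩)
    rw [if_neg fun e => c (congrArg Subtype.val e)] at this
    exact this e
  · have := ha (⟨r, hr⟩, ⟨r, hr⟩)
    rwa [if_pos rfl] at this

end Pool.Agent.P.MP_ab0431_ag.UB

namespace Pool.Agent.P.MP_ab0431_ag.UB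

open Polynomial Set Filter Topology Asymptotics MeasureTheory
open scoped Manifold ContDiff

theorem evt_pt3 (hLR : S_LR) (hLC : S_LC) (hLTU : S_LTU) (hWJ : S_WJ) {X : Surf} {M : ℕ}
    {h : Ch X} {s : Fin 3 → Sec X} (H : Tri M h s) {p : X.X} (h0 : h.vl (s 0) p ≠ 0)
    (h1 : h.vl (J1 M s) p = 0) :
    h.Evt s tR p (h.vl (s 1) p / h.vl (s 0) p) (h.vl (s 2) p / h.vl (s 0) p) ∧
    (h.vl (J2 M s) p = 0 → ∃ t, (t = tA ∨ t = tB) ∧
      h.Evt s t p (h.vl (s 1) p / h.vl (s 0) p) (h.vl (s 2) p / h.vl (s 0) p)) := by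
  have hM : M ≠ 0 := by have := H.pos; omega
  set f : Fin 3 → C2 → ℂ := fun i => s i (h.e p) with hf
  have an : ∀ i, AnalyticAt ℂ (f i) (h.pt p) := fun i =>
    isForm_analyticAt (H.form i) (h.mem p) ((h.e p).map_source (h.src p))
  have h0' : f 0 (h.pt p) ≠ 0 := h0
  obtain ⟨-, w2, w3⟩ := hWJ M f (h.pt p) hM an h0'
  have ax := (an 1).div (an 0) h0'
  have az := (an 2).div (an 0) h0'
  have h1' : wjf M M M (f 0) (f 1) (f 2) (h.pt p) = 0 := h1
  have hj : jac (f 1 / f 0) (f 2 / f 0) (h.pt p) = 0 := by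
    have := w2.self_of_nhds
    rw [h1'] at this
    exact (mul_eq_zero.1 this.symm).resolve_left
      (mul_ne_zero (Nat.cast_ne_zero.2 hM) (pow_ne_zero _ h0'))
  refine ⟨hLTU tR f _ _ _ an h0' (by decide) rfl ((hLR _ _ _ ax az).1 hj), fun h2 => ?_⟩
  rcases (hLC _ _ _ ax az hj).1 ((w3 h1').2.1 h2) with e | e
  · exact ⟨tA, .inl rfl, hLTU tA f _ _ _ an h0' (by decide) rfl e⟩
  · exact ⟨tB, .inr rfl, hLTU tB f _ _ _ an h0' (by decide) rfl e⟩

theorem p_PT3 (hLR : S_LR) (hLC : S_LC) (hLTU : S_LTU) (hWJ : S_WJ) (hPT1 : S_PT1) :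
    S_PT3 := by
  intro X M h s x z H hx hz p p' hne j j'
  subst hx hz
  refine ⟨fun a a' e => ?_, fun a a' e => ?_⟩
  · have b := (((hPT1 X M h s p H).2 j).1 a).1
    have b' := (((hPT1 X M h s p' H).2 j').1 a').1
    have k : ∀ q, h.vl (J1 M s) q = 0 → h.vl (J1 M ![s 1, s 0, s 2]) q = 0 := fun q hq => by
      rw [J1_swap]
      exact neg_eq_zero.2 hq
    have e1 : h.Evt ![s 1, s 0, s 2] tR p (h.vl (s 0) p / h.vl (s 1) p)
        (h.vl (s 2) p / h.vl (s 1) p) := (evt_pt3 hLR hLC hLTU hWJ H.swap (p := p) b (k p j)).1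
    have e2 : h.Evt ![s 1, s 0, s 2] tR p' (h.vl (s 0) p' / h.vl (s 1) p')
        (h.vl (s 2) p' / h.vl (s 1) p') := (evt_pt3 hLR hLC hLTU hWJ H.swap (p := p') b' (k p' j')).1
    rw [a, zero_div, e] at e1
    rw [a', zero_div] at e2
    exact H.nice'.inf2 p p' _ hne e1 e2
  · obtain ⟨r, q⟩ := evt_pt3 hLR hLC hLTU hWJ H a j
    obtain ⟨r', q'⟩ := evt_pt3 hLR hLC hLTU hWJ H a' j'
    dsimp only at e ⊢
    rw [← e] at r' q'
    refine ⟨fun c => ?_, fun p'' n n' j'' a'' e' e1 e2 => ?_⟩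
    · obtain ⟨t, ht, et⟩ := q c
      refine ⟨fun c' => ?_, fun e1 => ?_⟩
      · obtain ⟨t', ht', et'⟩ := q' c'
        exact H.nice.two t t' p p' _ _ _ ht ht' hne et et'
      · rw [← e1] at r'
        exact H.nice.pair t p p' _ _ ht hne et r'
    · obtain ⟨r'', -⟩ := evt_pt3 hLR hLC hLTU hWJ H a'' j''
      rw [← e1] at r'
      rw [← e', ← e2] at r''
      exact H.nice.tri p p' p'' _ _ hne n n' r r' r''

end Pool.Agent.P.MP_ab0431_ag.UB

namespace Pool.Agent.P.MP_ab0431_ag.UB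

open Polynomial Set Filter Topology Asymptotics MeasureTheory
open scoped Manifold ContDiff

theorem big_rm3 {f g : ℂ → ℂ} (hf : AnalyticAt ℂ f 0) (hg : AnalyticAt ℂ g 0) (f0 : f 0 = 0)
    (g0 : g 0 ≠ 0) (M n : ℕ) :
    (fun u => f u ^ M / g u ^ n) =O[𝓝 0] fun u : ℂ => u ^ M := by
  have h1 : f =O[𝓝 0] fun u : ℂ => u := by
    simpa only [f0, sub_zero] using hf.differentiableAt.isBigO_sub
  have h2 : (fun u => (g u ^ n)⁻¹) =O[𝓝 (0 : ℂ)] fun _ => (1 : ℂ) :=
    ((hg.continuousAt.pow n).inv₀ (pow_ne_zero n g0)).tendsto.isBigO_one ℂ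
  simpa only [div_eq_mul_inv, mul_one] using (h1.pow M).mul h2

theorem p_RM3 (hRM2 : S_RM2) (hRM4 : S_RM4) (hPT3 : S_PT3) (hJFORM : S_JFORM) (hORDB : S_ORDB) :
    S_RM3 := by
  intro X M h s S i n τ H m hτ hJ
  have j1 : ∀ r, h.vl (J1 M s) (i r) = 0 := fun r => by
    have : i r ∈ range i := mem_range_self r
    rwa [m.rng] at this
  have ni : ∀ r, S.ν r = 2 → r ∉ S.inf := fun r h2 hr => by
    have := (S.atinf r hr).1
    omega
  have s0 : ∀ r ∉ S.inf, h.vl (s 0) (i r) ≠ 0 := fun r hr h0 => hr ((m.inf r).2 h0)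
  have P := fun r r' (hne : r ≠ r') => hPT3 X M h s _ _ H rfl rfl (i r) (i r')
    (fun e => hne (m.inj e)) (j1 r) (j1 r')
  have xe : ∀ r ∉ S.inf, ∀ r' ∉ S.inf, S.xx r = S.xx r' →
      h.vl (s 1) (i r) / h.vl (s 0) (i r) = h.vl (s 1) (i r') / h.vl (s 0) (i r') :=
    fun r hr r' hr' e => by rw [← m.xx r hr, ← m.xx r' hr', e]
  have f1 : IsForm X.X (3 * M + 1) (J1 M s) := by
    have := hJFORM X M M M _ _ _ (H.form 0) (H.form 1) (H.form 2)
    rwa [show M + M + M + 1 = 3 * M + 1 by ring] at this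
  have f2 : IsForm X.X (5 * M + 2) (J2 M s) := by
    have := hJFORM X (3 * M + 1) M M _ _ _ f1 (H.form 0) (H.form 1)
    rwa [show 3 * M + 1 + M + M + 1 = 5 * M + 2 by ring] at this
  have f3 : IsForm X.X ((5 * M + 2) * M) (J2 M s ^ M) := mul_comm M _ ▸ isForm_pow f2 M
  refine ⟨?_, fun r hr r' hr' e => ?_, fun r r' h2 h2' e => ?_, fun x r hr r' hr' h2 e => ?_,
    fun x r hr r' hr' r'' hr'' e e' => ?_, hRM4 X M h s S i n τ H m hτ hJ, ?_⟩
  · simpa only [pow_one] using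
      (hRM2 X M h s S i 1 (s 2) H m (by rw [one_mul]; exact H.form 2)).1
  · by_contra hne
    exact (P r r' hne).1 ((m.inf r).1 hr) ((m.inf r').1 hr') e
  · by_contra hne
    exact (((P r r' hne).2 (s0 r (ni r h2)) (s0 r' (ni r' h2'))
      (xe r (ni r h2) r' (ni r' h2') e)).1 ((m.nu r).1 h2)).1 ((m.nu r').1 h2')
  · by_contra hne
    exact (((P r r' hne).2 (s0 r hr.1) (s0 r' hr'.1)
      (xe r hr.1 r' hr'.1 (hr.2.trans hr'.2.symm))).1 ((m.nu r).1 h2)).2 e
  · by_contra hne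
    push Not at hne
    exact ((P r r' hne.1).2 (s0 r hr.1) (s0 r' hr'.1)
      (xe r hr.1 r' hr'.1 (hr.2.trans hr'.2.symm))).2 (i r'') (fun e => hne.2.1 (m.inj e))
      (fun e => hne.2.2 (m.inj e)) (j1 r'') (s0 r'' hr''.1)
      (xe r hr.1 r'' hr''.1 (hr.2.trans hr''.2.symm)) e e'
  · obtain ⟨c1, c2⟩ := hRM2 X M h s S i (5 * M + 2) (J2 M s ^ M) H m f3
    refine ⟨M, 5 * M + 2, _, _, by have := H.pos; omega, c1, fun r hr h1 => ?_, fun r h2 => ?_⟩
    · refine div_ne_zero (pow_ne_zero M fun h0 => ?_) (pow_ne_zero _ (s0 r hr))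
      have := (m.nu r).2 h0
      omega
    · obtain ⟨ψ, a, z0, -, hψ⟩ := m.par r
      have hp : h.pt (i r) ∈ (h.e (i r)).target := (h.e (i r)).map_source (h.src _)
      have an : ∀ {k : ℕ} {t : Sec X}, IsForm X.X k t →
          AnalyticAt ℂ (fun u => t (h.e (i r)) (ψ u)) 0 := fun ht =>
        AnalyticAt.comp_of_eq (isForm_analyticAt ht (h.mem _) hp) a z0
      refine IsBigO.congr' (big_rm3 (an f2) (an (H.form 0)) ?_ ?_ M (5 * M + 2))
        (EventuallyEq.symm (c2 r ψ hψ)) EventuallyEq.rfl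
      · rw [z0]; exact (m.nu r).1 h2
      · rw [z0]; exact s0 r (ni r h2)

end Pool.Agent.P.MP_ab0431_ag.UB

namespace Pool.Agent.P.MP_ab0431_ag.UB

open Polynomial Set Filter Topology Asymptotics MeasureTheory
open scoped Manifold ContDiff

theorem slope_qreg {g : C2 → ℂ} {ζ : C2} (hg : AnalyticAt ℂ g ζ) {ψ : ℂ → C2}
    (hψ : Tendsto ψ (𝓝 0) (𝓝 ζ)) {k : ℕ} {η : C2}
    (hc : Tendsto (fun w : ℂ => ψ w + w ^ k • η) (𝓝 0) (𝓝 ζ)) :
    Tendsto (fun w : ℂ => (g (ψ w + w ^ k • η) - g (ψ w)) / w ^ k) (𝓝[≠] 0)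
      (𝓝 (fderiv ℂ g ζ η)) := by
  have h1 := hg.hasStrictFDerivAt.isLittleO.comp_tendsto (hc.prodMk_nhds hψ)
  have h2 : ((fun p : C2 × C2 => p.1 - p.2) ∘ fun w : ℂ => (ψ w + w ^ k • η, ψ w)) =O[𝓝 0]
      fun w : ℂ => w ^ k :=
    IsBigO.of_bound ‖η‖ (Eventually.of_forall fun w => by simp [norm_smul, mul_comm])
  have h3 := ((h1.trans_isBigO h2).tendsto_div_nhds_zero.mono_left
    (nhdsWithin_le_nhds (s := {0}ᶜ))).add_const (fderiv ℂ g ζ η)
  rw [zero_add] at h3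
  refine h3.congr' (eventually_mem_nhdsWithin.mono fun w hw => ?_)
  have : w ^ k ≠ 0 := pow_ne_zero _ hw
  simp only [Function.comp, add_sub_cancel_left, map_smul, smul_eq_mul]
  field_simp
  ring

theorem alg_qreg {S : Finset (ℕ × ℕ)} {a : ℕ × ℕ → ℂ} {N : ℕ} {A B e : ℂ} (hA : A ≠ 0)
    (he : e ≠ 0) (hS : ∀ q ∈ S, q.1 + q.2 = N)
    (h : ∀ l : ℂ, ∑ q ∈ S, a q * (l * A) ^ q.1 * (l * B + e) ^ q.2 = 0) : ∀ q ∈ S, a q = 0 := by
  have h1 : (∑ q ∈ S, C (a q) * X ^ q.1 : ℂ[X]) * (C A - X * C B) = 0 := by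
    refine Polynomial.funext fun t => ?_
    rw [eval_mul, eval_zero, mul_eq_zero, or_iff_not_imp_right]
    simp only [eval_sub, eval_mul, eval_C, eval_X, eval_finsetSum, eval_pow]
    intro ht
    have e1 : t * e / (A - t * B) * B + e = e * A / (A - t * B) := by field_simp; ring
    have e2 : t * e / (A - t * B) * A = t * (e * A / (A - t * B)) := by ring
    have h2 := h (t * e / (A - t * B))
    rw [e1, e2] at h2
    refine mul_right_cancel₀ (pow_ne_zero N (div_ne_zero (mul_ne_zero he hA) ht)) ?_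
    rw [zero_mul, Finset.sum_mul, ← h2]
    refine Finset.sum_congr rfl fun q hq => ?_
    rw [← hS q hq]
    ring
  have h2 : (C A - X * C B : ℂ[X]) ≠ 0 := fun h0 => hA (by simpa using congrArg (eval 0) h0)
  intro q hq
  have h3 := congrArg (coeff · q.1) ((mul_eq_zero.1 h1).resolve_right h2)
  simp only [finsetSum_coeff, coeff_C_mul_X_pow, coeff_zero] at h3
  rw [Finset.sum_eq_single q, if_pos rfl] at h3
  · exact h3
  · intro r hr hne
    refine if_neg fun e => hne (Prod.ext e.symm ?_)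
    have := hS q hq
    have := hS r hr
    omega
  · exact fun h => absurd hq h

theorem p_QREG (hRPAR : S_RPAR) (hORDB : S_ORDB) :
    S_QREG := by
  intro u v ζ S f N hu hv u0 v0 du hne hf hrel
  obtain ⟨ε, ψ, θ, O, hε, -, -, -, hψ, -, ψ0, -, hp, -⟩ := hRPAR u ζ univ hu u0 du univ_mem
  have hb : Metric.ball (0 : ℂ) ε ∈ 𝓝 (0 : ℂ) := Metric.ball_mem_nhds _ hε
  have ha : AnalyticAt ℂ ψ 0 := hψ 0 (Metric.mem_ball_self hε)
  have ht : Tendsto ψ (𝓝 0) (𝓝 ζ) := ψ0 ▸ ha.continuousAt.tendsto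
  have hva : AnalyticAt ℂ (fun w => v (ψ w)) 0 := AnalyticAt.comp (ψ0 ▸ hv) ha
  have hn : ¬∀ᶠ w in 𝓝 (0 : ℂ), v (ψ w) = 0 := fun h0 => by
    have h1 : ∀ᶠ w in 𝓝[≠] (0 : ℂ), False := by
      filter_upwards [nhdsWithin_le_nhds h0, nhdsWithin_le_nhds hb, self_mem_nhdsWithin,
        nhdsWithin_le_nhds (ht.eventually (eventually_nhdsWithin_iff.1 hne))] with w a1 a2 a3 a4
      refine a4 (fun e => a3 ?_) ⟨(hp w a2).2.1, a1⟩
      have e' : ψ w = ψ 0 := (mem_singleton_iff.1 e).trans ψ0.symm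
      exact (hp w a2).2.2.symm.trans ((congrArg θ e').trans (hp 0 (Metric.mem_ball_self hε)).2.2)
    exact h1.exists.elim fun _ => id
  obtain ⟨k, h, hh, h0, hk⟩ := hva.exists_eventuallyEq_pow_smul_nonzero_iff.2 hn
  have k0 : k ≠ 0 := by
    rintro rfl
    have := hk.self_of_nhds
    rw [ψ0, v0, pow_zero, one_smul] at this
    exact h0 this.symm
  obtain ⟨ξ, hξ⟩ : ∃ ξ, fderiv ℂ u ζ ξ ≠ 0 := by
    by_contra hc
    push Not at hc
    exact du (ContinuousLinearMap.ext hc)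
  have key : ∀ l : ℂ, ∑ q ∈ S, f q ζ * (l * fderiv ℂ u ζ ξ) ^ q.1 *
      (l * fderiv ℂ v ζ ξ + h 0) ^ q.2 * 0 ^ (q.1 + q.2 - N) = 0 := fun l => by
    have hw : Tendsto (fun w : ℂ => w ^ k) (𝓝 0) (𝓝 0) := by
      simpa [k0] using (continuous_pow k).tendsto (0 : ℂ)
    have hc : Tendsto (fun w : ℂ => ψ w + w ^ k • l • ξ) (𝓝 0) (𝓝 ζ) := by
      simpa using ht.add (hw.smul_const (l • ξ))
    have hU : Tendsto (fun w : ℂ => u (ψ w + w ^ k • l • ξ) / w ^ k) (𝓝[≠] 0)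
        (𝓝 (l * fderiv ℂ u ζ ξ)) := by
      have := slope_qreg hu ht hc
      rw [map_smul, smul_eq_mul] at this
      refine this.congr' ?_
      filter_upwards [nhdsWithin_le_nhds hb] with w a
      simp only [(hp w a).2.1, sub_zero]
    have hV : Tendsto (fun w : ℂ => v (ψ w + w ^ k • l • ξ) / w ^ k) (𝓝[≠] 0)
        (𝓝 (l * fderiv ℂ v ζ ξ + h 0)) := by
      have := (slope_qreg hv ht hc).add (hh.continuousAt.tendsto.mono_left nhdsWithin_le_nhds)
      rw [map_smul, smul_eq_mul] at this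
      refine this.congr' ?_
      filter_upwards [nhdsWithin_le_nhds hk, self_mem_nhdsWithin] with w a1 a2
      have : w ^ k ≠ 0 := pow_ne_zero _ a2
      have a3 : v (ψ w) = w ^ k * h w := by simpa using a1
      rw [a3]
      field_simp
      ring
    have h1 := tendsto_finsetSum S fun q hq =>
      ((((hf q hq).1.continuousAt.tendsto.comp (hc.mono_left nhdsWithin_le_nhds)).mul
        (hU.pow q.1)).mul (hV.pow q.2)).mul
        ((hw.mono_left nhdsWithin_le_nhds).pow (q.1 + q.2 - N))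
    refine tendsto_nhds_unique h1 (tendsto_const_nhds.congr' ?_)
    filter_upwards [nhdsWithin_le_nhds (hc.eventually hrel), self_mem_nhdsWithin] with w a1 a2
    have hw0 : w ^ k ≠ 0 := pow_ne_zero _ a2
    refine mul_right_cancel₀ (pow_ne_zero N hw0) ?_
    rw [zero_mul, Finset.sum_mul, ← a1]
    refine Finset.sum_congr rfl fun q hq => ?_
    rw [mul_assoc _ _ ((w ^ k) ^ N), ← pow_add, Nat.sub_add_cancel (hf q hq).2, pow_add,
      div_pow, div_pow]
    simp only [Function.comp]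
    field_simp
  intro q hq hN
  refine alg_qreg (S := S.filter fun q => q.1 + q.2 = N) (a := fun q => f q ζ)
    (B := fderiv ℂ v ζ ξ) hξ h0 (fun q hq => (Finset.mem_filter.1 hq).2) (fun l => ?_) q
    (Finset.mem_filter.2 ⟨hq, hN⟩)
  refine Eq.trans ?_ (key l)
  rw [Finset.sum_filter]
  refine Finset.sum_congr rfl fun r hr => ?_
  have := (hf r hr).2
  split_ifs with e
  · rw [e, Nat.sub_self, pow_zero, mul_one]
  · rw [zero_pow (by omega), mul_zero]

end Pool.Agent.P.MP_ab0431_ag.UB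

namespace Pool.Agent.P.MP_ab0431_ag.UB

open Polynomial Set Filter Topology Asymptotics MeasureTheory
open scoped Manifold ContDiff

theorem p_SEPF :
    S_SEPF := by
  intro X h m S l ⟨N, σ, hσ, hv⟩ hl p hp
  have key : ∀ q, ∃ f : Sec X, IsForm X.X m f ∧ h.vl f p ≠ 0 ∧ (q ≠ p → h.vl f q = 0) := by
    intro q
    by_cases hq : q = p
    · obtain ⟨i, hi⟩ := (hv _ (h.mem p) p (h.src p)).1
      exact ⟨σ i, hσ i, hi, fun a => (a hq).elim⟩
    obtain ⟨j, hj⟩ := (hv _ (h.mem q) q (h.src q)).1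
    obtain ⟨i, hi⟩ := not_forall.1 fun a => hq ((hv _ (h.mem p) p (h.src p)).2.2 _ (h.mem q) q
      (h.src q) (h.vl (σ j) p / h.vl (σ j) q) a).symm
    refine ⟨h.vl (σ j) q • σ i - h.vl (σ i) q • σ j,
      isForm_sub (isForm_smul _ (hσ i)) (isForm_smul _ (hσ j)), fun a => hi ?_, fun _ => ?_⟩
    · change h.vl (σ j) q * h.vl (σ i) p - h.vl (σ i) q * h.vl (σ j) p = 0 at a
      change h.vl (σ i) p = _ * h.vl (σ i) q
      change h.vl (σ j) q ≠ 0 at hj
      field_simp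
      linear_combination a
    · change h.vl (σ j) q * h.vl (σ i) q - h.vl (σ i) q * h.vl (σ j) q = 0
      ring
  choose f hf h1 h2 using key
  have e : ∀ x, h.vl ((∏ q ∈ S, f q) * f p ^ (l - S.card)) x =
      (∏ q ∈ S, h.vl (f q) x) * h.vl (f p) x ^ (l - S.card) := fun x => by
    simp only [Ch.vl, Pi.mul_apply, Pi.pow_apply, Finset.prod_apply]
  refine ⟨(∏ q ∈ S, f q) * f p ^ (l - S.card), ?_, ?_, fun q hq hn => ?_⟩
  · have := isForm_mul (isForm_prod S fun q _ => hf q) (isForm_pow (hf p) (l - S.card))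
    rwa [← add_mul, Nat.add_sub_cancel' hl] at this
  · rw [e]
    exact mul_ne_zero (Finset.prod_ne_zero_iff.2 fun q _ => h1 q) (pow_ne_zero _ (h1 p))
  · rw [e, Finset.prod_eq_zero (f := fun x => h.vl (f x) q) hq (h2 q hn), zero_mul]

end Pool.Agent.P.MP_ab0431_ag.UB

namespace Pool.Agent.P.MP_ab0431_ag.UB

open Polynomial Set Filter Topology Asymptotics MeasureTheory
open scoped Manifold ContDiff

theorem fin_bez {X : Surf} {ι : Type} {n b : ℕ} (T : Finset ι) (F : ι → Sec X)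
    (H : ∀ (r : ℕ) (σ : Fin r → Sec X), (∀ i, IsForm X.X n (σ i)) → (∀ c : Fin r → ℂ,
      (∀ e ∈ atlas C2 X.X, ∀ x ∈ e.source, ∑ i, c i * σ i e (e x) = 0) → c = 0) → 2 * r ≤ b)
    (h1 : ∀ t ∈ T, IsForm X.X n (F t)) (h2 : ∀ c : ι → ℂ, (∀ e ∈ atlas C2 X.X, ∀ x ∈ e.source,
      ∑ t ∈ T, c t * F t e (e x) = 0) → ∀ t ∈ T, c t = 0) : 2 * T.card ≤ b := by
  classical
  refine H _ (fun i => F (T.equivFin.symm i)) (fun i => h1 _ (T.equivFin.symm i).2) fun c hc => ?_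
  have := h2 (fun t => if h : t ∈ T then c (T.equivFin ⟨t, h⟩) else 0) fun e he x hx => by
    rw [← Finset.sum_coe_sort T, ← T.equivFin.symm.sum_comp, ← hc e he x hx]
    exact Finset.sum_congr rfl fun i _ => by simp
  funext i
  simpa using this _ (T.equivFin.symm i).2

theorem qreg_bez (hQ : S_QREG) {u v : C2 → ℂ} {ζ : C2} {m N : ℕ} (B : Finset (ℕ × ℕ))
    (f : ℕ × ℕ → C2 → ℂ) (hm : 0 < m) (hu : AnalyticAt ℂ u ζ) (hv : AnalyticAt ℂ v ζ)
    (u0 : u ζ = 0) (v0 : v ζ = 0) (du : fderiv ℂ u ζ ≠ 0)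
    (iso : ∀ᶠ y in 𝓝[≠] ζ, ¬(u y = 0 ∧ v y = 0)) (hf : ∀ q ∈ B, AnalyticAt ℂ (f q) ζ)
    (h0 : ∀ q ∈ B, q.1 + q.2 < N → ∀ y, f q y = 0)
    (hs : ∀ᶠ y in 𝓝 ζ, ∑ q ∈ B, f q y * u y ^ (m * q.1) * v y ^ (m * q.2) = 0) :
    ∀ q ∈ B, q.1 + q.2 = N → f q ζ = 0 := by
  intro q hq hN
  have d : ∀ a, m * a / m = a := fun a => Nat.mul_div_cancel_left a hm
  have := hQ u v ζ ((B.filter fun q => N ≤ q.1 + q.2).image fun q => (m * q.1, m * q.2))
    (fun q => f (q.1 / m, q.2 / m)) (m * N) hu hv u0 v0 du iso (fun q' hq' => by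
      obtain ⟨q, hq, rfl⟩ := Finset.mem_image.1 hq'
      rw [Finset.mem_filter] at hq
      simp only [d, ← mul_add]
      exact ⟨hf q hq.1, Nat.mul_le_mul_left _ hq.2⟩) (hs.mono fun y hy => by
      rw [Finset.sum_image fun a _ b _ e => Prod.ext (Nat.eq_of_mul_eq_mul_left hm (congrArg
        Prod.fst e)) (Nat.eq_of_mul_eq_mul_left hm (congrArg Prod.snd e))]
      simp only [d]
      rw [Finset.sum_filter_of_ne fun q hq e => not_lt.1 fun l => e (by simp [h0 q hq l]), hy])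
    _ (Finset.mem_image_of_mem _ (Finset.mem_filter.2 ⟨hq, hN.ge⟩)) (by rw [← mul_add, hN])
  simpa only [d] using this

theorem p_BEZ (hQREG : S_QREG) (hSEPF : S_SEPF) :
    S_BEZ := by
  intro X h m y α β u v S hm hva hK hα hβ hu hv hS
  obtain ⟨n0, hn0⟩ := eventually_atTop.1 hK
  obtain ⟨k, k0, k1, k2⟩ : ∃ k, 0 < k ∧ n0 ≤ k ∧ S.card ≤ k := ⟨n0 + S.card + 1, by omega⟩
  have k3 : k ≤ α * β * k := Nat.le_mul_of_pos_left _ (Nat.mul_pos hα hβ)
  have : ∀ l p, ∃ f : Sec X, S.card ≤ l → p ∈ S → IsForm X.X (l * m) f ∧ h.vl f p ≠ 0 ∧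
      ∀ q ∈ S, q ≠ p → h.vl f q = 0 := fun l p => by
    by_cases a : S.card ≤ l ∧ p ∈ S
    · exact (hSEPF X h m S l hva a.1 p a.2).imp fun f hf _ _ => hf
    · exact ⟨0, fun a1 a2 => absurd ⟨a1, a2⟩ a⟩
  choose g hg using this
  let B := Finset.range (β * k) ×ˢ Finset.range (α * k)
  let l : ℕ × ℕ → ℕ := fun q => 4 * (α * β * k) - (q.1 * α + q.2 * β)
  have hl : ∀ q ∈ B, S.card ≤ l q ∧ l q + (q.1 * α + q.2 * β) = 4 * (α * β * k) := fun q hq => by
    simp only [B, Finset.mem_product, Finset.mem_range] at hq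
    have a1 : q.1 * α ≤ α * β * k := (Nat.mul_le_mul_right _ hq.1.le).trans_eq (by ring)
    have a2 : q.2 * β ≤ α * β * k := (Nat.mul_le_mul_right _ hq.2.le).trans_eq (by ring)
    simp only [l]
    omega
  have key := fin_bez (S ×ˢ B) (fun t => g (l t.2) t.1 * u ^ (m * t.2.1) * v ^ (m * t.2.2))
    (hn0 (4 * (α * β * k) * m) ((k1.trans (by omega)).trans (Nat.le_mul_of_pos_right _ hm)))
    (fun t ht => by
      rw [Finset.mem_product] at ht
      have := isForm_mul (isForm_mul (hg _ _ (hl _ ht.2).1 ht.1).1 (isForm_pow hu (m * t.2.1)))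
        (isForm_pow hv (m * t.2.2))
      rwa [show l t.2 * m + m * t.2.1 * α + m * t.2.2 * β = 4 * (α * β * k) * m by
        rw [← (hl _ ht.2).2]; ring] at this) fun c hc => by
    suffices H : ∀ N, ∀ p ∈ S, ∀ q ∈ B, q.1 + q.2 = N → c (p, q) = 0 from fun t ht =>
      H _ _ (Finset.mem_product.1 ht).1 _ (Finset.mem_product.1 ht).2 rfl
    intro N
    induction N using Nat.strong_induction_on with
    | _ N ih =>
    intro p hp q hq hN
    obtain ⟨u0, v0, du, iso⟩ := hS p hp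
    have tg : h.pt p ∈ (h.e p).target := (h.e p).map_source (h.src p)
    have tn := (h.e p).open_target.mem_nhds tg
    have := qreg_bez hQREG (N := N) B (fun q y => ∑ p' ∈ S, c (p', q) * g (l q) p' (h.e p) y) hm
      (isForm_analyticAt hu (h.mem p) tg) (isForm_analyticAt hv (h.mem p) tg) u0 v0 du (by
        rw [eventually_nhdsWithin_iff] at iso ⊢
        filter_upwards [((h.e p).tendsto_symm (h.src p)).eventually iso, tn] with y a1 a2 a3 a4
        obtain ⟨w, -, hw⟩ := exists_unit (h.mem _) (h.mem p) (h.src _) ((h.e p).map_target a2)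
        refine a1 (fun e => a3 ?_) ⟨?_, ?_⟩
        · exact ((h.e p).right_inv a2).symm.trans (congrArg (h.e p) e)
        · rw [Ch.vl, hw _ _ hu, (h.e p).right_inv a2, a4.1, zero_mul]
        · rw [Ch.vl, hw _ _ hv, (h.e p).right_inv a2, a4.2, zero_mul])
      (fun q hq => Finset.analyticAt_fun_sum _ fun p' hp' => analyticAt_const.mul
        (isForm_analyticAt (hg _ _ (hl q hq).1 hp').1 (h.mem p) tg))
      (fun q hq a y => Finset.sum_eq_zero fun p' hp' => by rw [ih _ a p' hp' q hq rfl, zero_mul])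
      (by
        filter_upwards [tn] with y a2
        have := hc _ (h.mem p) _ ((h.e p).map_target a2)
        rw [(h.e p).right_inv a2, Finset.sum_product_right] at this
        simpa only [Finset.sum_mul, Pi.mul_apply, Pi.pow_apply, mul_assoc] using this) q hq hN
    exact (mul_eq_zero.1 ((Finset.sum_eq_single_of_mem p hp fun p' hp' a => mul_eq_zero_of_right _
      ((hg _ _ (hl q hq).1 hp').2.2 p hp a.symm)).symm.trans this)).resolve_right
      (hg _ _ (hl q hq).1 hp).2.1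
  simp only [B, Finset.card_product, Finset.card_range] at key
  refine Nat.le_of_mul_le_mul_left ?_ (show 0 < 2 * (β * k * (α * k)) by positivity)
  calc _ = 2 * (S.card * (β * k * (α * k))) := by ring
    _ ≤ _ := key
    _ = _ := by ring

end Pool.Agent.P.MP_ab0431_ag.UB

namespace Pool.Agent.P.MP_ab0431_ag.UB

open Polynomial Set Filter Topology Asymptotics MeasureTheory
open scoped Manifold ContDiff

theorem p_RM5 (hBEZ : S_BEZ) (hRFIN : S_RFIN) (hPT1 : S_PT1) (hJFORM : S_JFORM) :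
    S_RM5 := by
  intro X m y M h s S i hm hv hk ht hS
  obtain ⟨f1, f2, -, f4⟩ := hRFIN S
  have j1 : IsForm X.X (3 * M + 1) (J1 M s) :=
    (show M + M + M + 1 = 3 * M + 1 by ring) ▸
      hJFORM X M M M _ _ _ (ht.form 0) (ht.form 1) (ht.form 2)
  have j2 : IsForm X.X (5 * M + 2) (J2 M s) :=
    (show 3 * M + 1 + M + M + 1 = 5 * M + 2 by ring) ▸
      hJFORM X _ M M _ _ _ j1 (ht.form 0) (ht.form 1)
  have hr : ∀ p, h.vl (J1 M s) p = 0 ↔ p ∈ range i := fun p => by rw [hS.rng]; rfl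
  have key : ∀ (T : Set S.R) (β : ℕ) (v : Sec X), T.Finite → 0 < β → IsForm X.X β v →
      (∀ r ∈ T, h.vl v (i r) = 0) → (∀ r, r ∉ S.inf ∧ S.ν r = 1 → h.vl v (i r) ≠ 0) →
      T.ncard ≤ 8 * m ^ 2 * (3 * M + 1) * β * y := fun T β v hT hβ hf h0 h1 => by
    rw [← ncard_image_of_injective T hS.inj, ncard_eq_toFinset_card _ (hT.image i)]
    refine hBEZ X h m y _ β _ v _ hm hv hk (Nat.succ_pos _) hβ j1 hf fun p hp => ?_
    obtain ⟨r, hr0, rfl⟩ := (hT.image i).mem_toFinset.1 hp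
    have h2 := (hr _).2 ⟨r, rfl⟩
    refine ⟨h2, h0 r hr0, ((hPT1 X M h s _ ht).2 h2).2, ?_⟩
    have h3 := f4 r
    rw [eventually_nhdsWithin_iff, (hS.cont.isClosedEmbedding hS.inj).isInducing.nhds_eq_comap,
      eventually_comap] at h3
    rw [eventually_nhdsWithin_iff]
    filter_upwards [h3] with q h4 h5 h6
    obtain ⟨r', rfl⟩ := (hr q).1 h6.1
    exact h1 r' (h4 r' rfl fun e => h5 (congrArg i e)) h6.2
  exact ⟨key _ M _ f1 (by have := ht.pos; omega) (ht.form 0) (fun r => (hS.inf r).1)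
      fun r a b => a.1 ((hS.inf r).2 b),
    key _ _ _ f2 (Nat.succ_pos _) j2 (fun r => (hS.nu r).1) fun r a b => by
      have := (hS.nu r).2 b; omega⟩

end Pool.Agent.P.MP_ab0431_ag.UB

namespace Pool.Agent.P.MP_ab0431_ag.UB

open Polynomial Set Filter Topology Asymptotics MeasureTheory
open scoped Manifold ContDiff

/-- The map of ratios. -/
noncomputable def rat_pih (f : Fin 3 → C2 → ℂ) (i : Fin 3) (y : C2) : C2 :=
  fun j => f (i.succAbove j) y / f i y

theorem an_pih {f : Fin 3 → C2 → ℂ} {i : Fin 3} {ζ : C2} (hf : ∀ k, AnalyticAt ℂ (f k) ζ)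
    (hi : f i ζ ≠ 0) : AnalyticAt ℂ (rat_pih f i) ζ :=
  analyticAt_pi_iff.2 fun _ => (hf _).div (hf i) hi

theorem inj_pih {M : ℕ} {f : Fin 3 → C2 → ℂ} {i : Fin 3} {ζ : C2}
    (hf : ∀ k, AnalyticAt ℂ (f k) ζ) (hi : f i ζ ≠ 0)
    (hJ : wjf M M M (f 0) (f 1) (f 2) ζ ≠ 0) :
    Function.Injective (fderiv ℂ (rat_pih f i) ζ) := by
  rw [injective_iff_map_eq_zero]
  intro ξ hξ
  have key : ∀ k, fderiv ℂ (f k) ζ ξ = fderiv ℂ (f i) ζ ξ / f i ζ * f k ζ := by
    intro k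
    rcases Fin.eq_self_or_eq_succAbove i k with rfl | ⟨j, rfl⟩
    · rw [div_mul_cancel₀ _ hi]
    · have h1 : HasFDerivAt (fun y => rat_pih f i y j) _ ζ :=
        hasFDerivAt_pi'.1 (an_pih hf hi).differentiableAt.hasFDerivAt j
      have h2 := h1.mul (hf i).differentiableAt.hasFDerivAt
      have h3 : f (i.succAbove j) =ᶠ[𝓝 ζ] (fun y => rat_pih f i y j) * f i := by
        filter_upwards [(hf i).continuousAt.eventually_ne hi] with y hy
        exact (div_mul_cancel₀ _ hy).symm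
      rw [(h2.congr_of_eventuallyEq h3).fderiv]
      simp only [add_apply, smul_apply,
        ContinuousLinearMap.comp_apply, hξ, map_zero, smul_eq_mul, mul_zero, add_zero, rat_pih]
      field_simp
  generalize fderiv ℂ (f i) ζ ξ / f i ζ = c at key
  have k0 := key 0
  have k1 := key 1
  have k2 := key 2
  rw [fderiv_apply_pd] at k0 k1 k2
  funext j
  refine (mul_eq_zero.1 ?_).resolve_right hJ
  unfold wjf jac
  fin_cases j
  · change ξ 0 * _ = 0
    linear_combination M * (f 2 ζ * pd 1 (f 1) ζ - f 1 ζ * pd 1 (f 2) ζ) * k0 +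
      M * (f 0 ζ * pd 1 (f 2) ζ - f 2 ζ * pd 1 (f 0) ζ) * k1 +
      M * (f 1 ζ * pd 1 (f 0) ζ - f 0 ζ * pd 1 (f 1) ζ) * k2
  · change ξ 1 * _ = 0
    linear_combination M * (f 1 ζ * pd 0 (f 2) ζ - f 2 ζ * pd 0 (f 1) ζ) * k0 +
      M * (f 2 ζ * pd 0 (f 0) ζ - f 0 ζ * pd 0 (f 2) ζ) * k1 +
      M * (f 0 ζ * pd 0 (f 1) ζ - f 1 ζ * pd 0 (f 0) ζ) * k2

theorem ift_pih {G : C2 → C2} {ζ : C2} (hG : AnalyticAt ℂ G ζ)
    (hi : Function.Injective (fderiv ℂ G ζ)) : ∃ g : OpenPartialHomeomorph C2 C2,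
      (g : C2 → C2) = G ∧ ζ ∈ g.source ∧ AnalyticAt ℂ g.symm (G ζ) := by
  let L : C2 ≃L[ℂ] C2 := (LinearEquiv.ofInjectiveEndo (fderiv ℂ G ζ : C2 →ₗ[ℂ] C2)
    hi).toContinuousLinearEquiv
  have h1 : HasFDerivAt G (L : C2 →L[ℂ] C2) ζ := by
    have : (L : C2 →L[ℂ] C2) = fderiv ℂ G ζ := ContinuousLinearMap.ext fun _ => rfl
    rw [this]; exact hG.differentiableAt.hasFDerivAt
  have h2 : ContDiffAt ℂ ω G ζ := hG.contDiffAt
  exact ⟨h2.toOpenPartialHomeomorph G h1 (by simp), rfl,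
    h2.mem_toOpenPartialHomeomorph_source h1 _, (h2.to_localInverse h1 (by simp)).analyticAt⟩

theorem loc_pih (hPT1 : S_PT1) (Q : PM) {X : Surf} {M : ℕ} {h : Ch X} {s : Fin 3 → Sec X}
    (H : Tri M h s) (p : X.X) {i : Fin 3} (hi : h.vl (s i) p ≠ 0) :
    prj Q h s =ᶠ[𝓝 p] (Q.ch i).symm ∘ rat_pih (fun k => s k (h.e p)) i ∘ h.e p := by
  have hc : ContinuousAt (fun x => s i (h.e p) (h.e p x)) p :=
    (isForm_analyticAt (H.form i) (h.mem p) ((h.e p).map_source (h.src p))).continuousAt.comp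
      ((h.e p).continuousAt (h.src p))
  filter_upwards [(h.e p).open_source.mem_nhds (h.src p), hc.eventually_ne hi] with x hx hx'
  obtain ⟨u, -, hu⟩ := exists_unit (h.mem p) (h.mem x) hx (h.src x)
  have hw : (fun k => s k (h.e p) (h.e p x)) ≠ 0 := fun e => hx' (congrFun e i)
  have h1 : prj Q h s x = Q.pp fun k => s k (h.e p) (h.e p x) :=
    (Q.eq_iff _ _ (hPT1 X M h s x H).1 hw).2
      ⟨u ^ M, funext fun k => (hu M _ (H.form k)).trans (mul_comm _ _)⟩
  rw [h1, ← (Q.ch i).left_inv ((Q.ch_src i _ hw).2 hx'), Q.ch_app i _ hx']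
  rfl

theorem p_PIH (hPT1 : S_PT1) :
    S_PIH := by
  intro Q X M h s H
  have hex : ∀ p, ∃ i, h.vl (s i) p ≠ 0 := fun p => Function.ne_iff.1 (hPT1 X M h s p H).1
  have han : ∀ p k, AnalyticAt ℂ (s k (h.e p)) (h.e p p) := fun p k =>
    isForm_analyticAt (H.form k) (h.mem p) ((h.e p).map_source (h.src p))
  have hT : ∀ i y, y ∈ (Q.ch i).target := fun i y => by rw [Q.ch_tgt]; trivial
  refine ⟨fun p => ?_, fun p hJ => ?_⟩
  · obtain ⟨i, hi⟩ := hex p
    refine MDifferentiableAt.congr_of_eventuallyEq ?_ (loc_pih hPT1 Q H p hi)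
    exact (mdifferentiableAt_atlas_symm (Q.ch_mem i) (hT i _)).comp p
      ((an_pih (han p) hi).differentiableAt.mdifferentiableAt.comp p
        (mdifferentiableAt_atlas (h.mem p) (h.src p)))
  · obtain ⟨i, hi⟩ := hex p
    obtain ⟨g, hg, hζ, hs⟩ := ift_pih (an_pih (han p) hi) (inj_pih (han p) hi hJ)
    let E : OpenPartialHomeomorph X.X Q.Y := h.e p ≫ₕ g ≫ₕ (Q.ch i).symm
    have hp : p ∈ E.source := ⟨h.src p, hζ, hT i _⟩
    have hc : ContinuousAt (fun x => g (h.e p x)) p :=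
      (g.continuousAt hζ).comp ((h.e p).continuousAt (h.src p))
    have h1 : ∀ᶠ x in 𝓝 p, E x = prj Q h s x ∧ AnalyticAt ℂ g.symm (g (h.e p x)) := by
      rw [← hg] at hs
      filter_upwards [loc_pih hPT1 Q H p hi, hc.eventually hs.eventually_analyticAt] with x a b
      refine ⟨?_, b⟩
      rw [a, ← hg]
      rfl
    obtain ⟨S, hS, hSo, hpS⟩ := eventually_nhds_iff.1 h1
    refine ⟨E.restrOpen S hSo, ⟨hp, hpS⟩, fun x hx => (hS x hx.2).1, fun y hy => ?_⟩
    obtain ⟨⟨⟨y1, y2⟩, y3⟩, y4⟩ := hy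
    have y5 := (hS _ y4).2
    change AnalyticAt ℂ g.symm (g (h.e p ((h.e p).symm (g.symm (Q.ch i y))))) at y5
    change g.symm (Q.ch i y) ∈ (h.e p).target at y3
    change Q.ch i y ∈ g.target at y2
    rw [(h.e p).right_inv y3, g.right_inv y2] at y5
    exact ((mdifferentiableAt_atlas_symm (h.mem p) y3).comp y
      (y5.differentiableAt.mdifferentiableAt.comp y
        (mdifferentiableAt_atlas (Q.ch_mem i) y1))).mdifferentiableWithinAt

end Pool.Agent.P.MP_ab0431_ag.UB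

namespace Pool.Agent.P.MP_ab0431_ag.UB

open Polynomial Set Filter Topology Asymptotics MeasureTheory
open scoped Manifold ContDiff

theorem dv_lf {F : ℂ × ℂ → ℂ} {c K : ℂ} (hF : AnalyticAt ℂ F (c, 0))
    (h : ∀ᶠ v in 𝓝 (0 : ℂ), F (c, v) = K) :
    AnalyticAt ℂ (dv F) (c, 0) ∧ ∀ᶠ v in 𝓝 (0 : ℂ), dv F (c, v) = 0 := by
  refine ⟨((ContinuousLinearMap.apply ℂ ℂ ((0, 1) : ℂ × ℂ)).analyticAt _).comp hF.fderiv, ?_⟩
  filter_upwards [h.eventually_nhds,
    (Continuous.prodMk_right c).continuousAt.eventually hF.eventually_analyticAt] with v a b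
  exact (b.differentiableAt.hasFDerivAt.comp_hasDerivAt v
    ((hasDerivAt_const v c).prodMk (hasDerivAt_id v))).unique
      ((hasDerivAt_const v K).congr_of_eventuallyEq a)

theorem adp_lf {x z : C2 → ℂ} {ζ : C2} {Γ : ℂ × ℂ → C2} {f u : ℂ × ℂ → ℂ} (hz : AnalyticAt ℂ z ζ)
    (h : Adp x z ζ Γ f u) : (∀ᶠ y in 𝓝[≠] ζ, ¬(x y = x ζ ∧ z y = z ζ)) ∨
      dv f (x ζ, 0) = 0 ∧ dv (dv f) (x ζ, 0) = 0 ∧ dv (dv (dv f)) (x ζ, 0) = 0 := by
  have hf : AnalyticAt ℂ f (x ζ, 0) := h.fz ▸ hz.comp_of_eq h.an h.base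
  have hg : AnalyticAt ℂ (fun v : ℂ => f (x ζ, v)) 0 :=
    hf.comp (f := fun v : ℂ => (x ζ, v)) (analyticAt_const.prod analyticAt_id)
  refine (hg.eventually_eq_or_eventually_ne (analyticAt_const (v := z ζ))).symm.imp
    (fun a => ?_) fun a => ?_
  · obtain ⟨Λ, l1, l2, l3, -⟩ := h.inv
    have t : Tendsto Λ (𝓝 ζ) (𝓝 (x ζ, 0)) := l2 ▸ l1.continuousAt.tendsto
    filter_upwards [self_mem_nhdsWithin, nhdsWithin_le_nhds l3,
      nhdsWithin_le_nhds (t.eventually h.fx), nhdsWithin_le_nhds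
        (((continuous_snd.tendsto _).comp t).eventually (eventually_nhdsWithin_iff.1 a))]
      with y p q r s e
    rw [q, e.1] at r
    have k : Λ y = (x ζ, (Λ y).2) := Prod.ext r.symm rfl
    refine s (fun e0 => p ?_) ?_
    · rw [← q, k, show (Λ y).2 = 0 from e0]
      exact h.base
    · change f (x ζ, (Λ y).2) = _
      rw [← k, h.fz, Function.comp_apply, q, e.2]
  · have h1 := dv_lf hf a
    have h2 := dv_lf h1.1 h1.2
    exact ⟨h1.2.self_of_nhds, h2.2.self_of_nhds, (dv_lf h2.1 h2.2).2.self_of_nhds⟩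

theorem p_LF (hADP : S_ADP) (hLR : S_LR) :
    S_LF := by
  intro x z ζ hx hz h4 hZ h2
  by_cases dx : fderiv ℂ x ζ = 0
  · obtain ⟨Γ, f, u, h, k⟩ := hADP z x ζ hz hx fun dz => hZ ((hLR x z ζ hx hz).2.2.1 dx dz)
    refine ((adp_lf hx h).resolve_right fun a => h2 ((k a.1 a.2.1).2.2.2 ?_)).mono
      fun y a b => a b.symm
    rw [da, h.fz, fderiv_comp _ (h.base ▸ hx.differentiableAt :) h.an.differentiableAt, h.base, dx]
    rfl
  · obtain ⟨Γ, f, u, h, k⟩ := hADP x z ζ hx hz dx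
    exact (adp_lf hz h).resolve_right fun a => h4 ((k a.1 a.2.1).2.1 a.2.2)

end Pool.Agent.P.MP_ab0431_ag.UB
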