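import Pool.Agent.P.MP_ab0431_ag.UB.IfaceA
import Pool.Agent.P.MP_ab0431_ag.UB.IfaceO
import Pool.Agent.P.MP_ab0431_ag.UB.IfaceT

/-! Steps L2 PT4 BCF COV0 CARD COV1 DEGB AMAIN. -/

set_option autoImplicit false
set_option linter.unusedSectionVars false
set_option linter.unusedVariables false

namespace Pool.Agent.P.MP_ab0431_ag.UB

open Polynomial Set Filter Topology Asymptotics MeasureTheory
open scoped Manifold ContDiff

theorem three_l2 {g g' g'' : ℂ → ℂ} {B : Set ℂ} {κ : ℂ} (hB : Convex ℝ B) (hκ : κ ≠ 0)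
    (h1 : ∀ v ∈ B, HasDerivAt g (g' v) v) (h2 : ∀ v ∈ B, HasDerivAt g' (g'' v) v)
    (h3 : ∀ v ∈ B, ‖g'' v - κ‖ ≤ ‖κ‖ / 4) {a b c : ℂ} (ha : a ∈ B) (hb : b ∈ B) (hc : c ∈ B)
    (e1 : g a = g b) (e2 : g a = g c) : a = b ∨ a = c ∨ b = c := by
  have lip : ∀ v ∈ B, ∀ w ∈ B, ‖(g' w - κ * w) - (g' v - κ * v)‖ ≤ ‖κ‖ / 4 * ‖w - v‖ :=
    fun v hv w hw => hB.norm_image_sub_le_of_norm_hasDerivWithin_le
      (f := fun v => g' v - κ * v) (f' := fun v => g'' v - κ)
      (fun y hy => by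
        simpa using ((h2 y hy).fun_sub ((hasDerivAt_id y).const_mul κ)).hasDerivWithinAt) h3 hv hw
  have der : ∀ d : ℂ, ∀ s : ℂ, a + s * d ∈ B →
      HasDerivAt (fun s : ℂ => g (a + s * d) - κ * (a + s * d) ^ 2 / 2)
        ((g' (a + s * d) - κ * (a + s * d)) * d) s := fun d s hs => by
    have l : HasDerivAt (fun s : ℂ => a + s * d) d s := by
      simpa using ((hasDerivAt_id s).mul_const d).const_add a
    have := ((h1 _ hs).comp s l).fun_sub (((l.fun_pow 2).const_mul κ).div_const 2)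
    refine this.congr_deriv ?_
    simp only [Nat.cast_ofNat, Nat.add_one_sub_one, pow_one]; ring
  have mem : ∀ w ∈ B, ∀ s ∈ Icc (0 : ℝ) 1, a + (s : ℂ) * (w - a) ∈ B := fun w hw s hs => by
    simpa using hB.add_smul_sub_mem ha hw hs
  have key := norm_image_sub_le_of_norm_deriv_le_segment_01'
    (f := fun s : ℝ => (c - a) * (g (a + s * (b - a)) - κ * (a + s * (b - a)) ^ 2 / 2) -
      (b - a) * (g (a + s * (c - a)) - κ * (a + s * (c - a)) ^ 2 / 2))
    (f' := fun s : ℝ => (c - a) * ((g' (a + s * (b - a)) - κ * (a + s * (b - a))) * (b - a)) -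
      (b - a) * ((g' (a + s * (c - a)) - κ * (a + s * (c - a))) * (c - a)))
    (C := ‖c - a‖ * ‖b - a‖ * (‖κ‖ / 4 * ‖b - c‖))
    (fun s hs => (((der _ _ (mem b hb s hs)).const_mul (c - a)).fun_sub
      ((der _ _ (mem c hc s hs)).const_mul (b - a))).comp_ofReal.hasDerivWithinAt)
    (fun s hs => by
      have hs' := Ico_subset_Icc_self hs
      have := lip _ (mem c hc s hs') _ (mem b hb s hs')
      rw [show a + s * (b - a) - (a + s * (c - a)) = s * (b - c) by ring, norm_mul,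
        Complex.norm_real, Real.norm_of_nonneg hs.1] at this
      rw [show ∀ p q : ℂ, (c - a) * (p * (b - a)) - (b - a) * (q * (c - a)) =
        (c - a) * (b - a) * (p - q) from fun p q => by ring, norm_mul, norm_mul]
      refine mul_le_mul_of_nonneg_left (this.trans ?_) (by positivity)
      exact mul_le_mul_of_nonneg_left (mul_le_of_le_one_left (norm_nonneg _) hs'.2)
        (by positivity))
  simp only [Complex.ofReal_one, Complex.ofReal_zero, one_mul, zero_mul, add_zero,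
    add_sub_cancel, ← e1, ← e2] at key
  rw [show (c - a) * (g a - κ * b ^ 2 / 2) - (b - a) * (g a - κ * c ^ 2 / 2) -
      ((c - a) * (g a - κ * a ^ 2 / 2) - (b - a) * (g a - κ * a ^ 2 / 2)) =
      (c - a) * (b - a) * (κ * (b - c)) * (-1 / 2) by ring] at key
  simp only [norm_mul, norm_div, norm_neg, norm_one, Complex.norm_ofNat] at key
  by_contra hne
  rw [not_or, not_or] at hne
  have p1 : 0 < ‖c - a‖ := norm_pos_iff.2 (sub_ne_zero.2 (Ne.symm hne.2.1))
  have p2 : 0 < ‖b - a‖ := norm_pos_iff.2 (sub_ne_zero.2 (Ne.symm hne.1))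
  have p3 : 0 < ‖b - c‖ := norm_pos_iff.2 (sub_ne_zero.2 hne.2.2)
  have p4 : 0 < ‖κ‖ := norm_pos_iff.2 hκ
  have : 0 < ‖c - a‖ * ‖b - a‖ * (‖κ‖ * ‖b - c‖) := by positivity
  linarith

theorem line_l2 (a v : ℂ) : HasDerivAt (fun v : ℂ => (a, v)) ((0, 1) : ℂ × ℂ) v :=
  (hasDerivAt_const v a).prodMk (hasDerivAt_id v)

theorem hd_l2 {F : ℂ × ℂ → ℂ} {a v : ℂ} (h : AnalyticAt ℂ F (a, v)) :
    HasDerivAt (fun v => F (a, v)) (dv F (a, v)) v :=
  h.differentiableAt.hasFDerivAt.comp_hasDerivAt v (line_l2 a v)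

theorem an_l2 {F : ℂ × ℂ → ℂ} {q : ℂ × ℂ} (h : AnalyticAt ℂ F q) : AnalyticAt ℂ (dv F) q :=
  ((ContinuousLinearMap.apply ℂ ℂ ((0, 1) : ℂ × ℂ)).analyticAt _).comp h.fderiv

theorem p_L2 (hADP : S_ADP) :
    S_L2 := by
  intro x z ζ hx hz j0 j1
  have hdx : fderiv ℂ x ζ ≠ 0 := fun h => j1 (by simp [jac, pd, h])
  obtain ⟨Γ, f, u, A, -⟩ := hADP x z ζ hx hz hdx
  obtain ⟨Λ, hΛ, Λ0, Λ1, Λ2⟩ := A.inv
  have hf : AnalyticAt ℂ f (x ζ, 0) := A.fz ▸ hz.comp_of_eq A.an A.base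
  have hκ : dv (dv f) (x ζ, 0) ≠ 0 := by
    intro h0
    have hc : HasDerivAt (fun v => Γ (x ζ, v)) (fderiv ℂ Γ (x ζ, 0) (0, 1)) 0 :=
      A.an.differentiableAt.hasFDerivAt.comp_hasDerivAt 0 (line_l2 _ 0)
    generalize fderiv ℂ Γ (x ζ, 0) (0, 1) = ξ at hc
    have tl : Tendsto (fun v : ℂ => (x ζ, v)) (𝓝 0) (𝓝 (x ζ, 0)) :=
      (line_l2 (x ζ) 0).continuousAt
    have e0 : dv f (x ζ, 0) = 0 := by
      have := A.jv.self_of_nhds
      rw [A.base, j0] at this
      exact (mul_eq_zero.1 this.symm).resolve_left A.une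
    have d1 : fderiv ℂ x ζ ξ = 0 :=
      (hx.differentiableAt.hasFDerivAt.comp_hasDerivAt_of_eq 0 hc A.base.symm).unique
        ((hasDerivAt_const 0 (x ζ)).congr_of_eventuallyEq (tl.eventually A.fx))
    have d2 : fderiv ℂ Λ ζ ξ = (0, 1) :=
      (hΛ.differentiableAt.hasFDerivAt.comp_hasDerivAt_of_eq 0 hc A.base.symm).unique
        ((line_l2 (x ζ) 0).congr_of_eventuallyEq (tl.eventually Λ2))
    have d3 := ((analyticAt_jac hx hz).differentiableAt.hasFDerivAt.comp_hasDerivAt_of_eq 0 hc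
      A.base.symm).unique (((hd_l2 A.uan).fun_mul (hd_l2 (an_l2 hf))).congr_of_eventuallyEq
        (tl.eventually A.jv))
    rw [e0, h0, mul_zero, mul_zero, add_zero, fderiv_apply_pd] at d3
    rw [fderiv_apply_pd] at d1
    have x0 : ξ 0 = 0 := (mul_eq_zero.1 (show ξ 0 * jac (jac x z) x ζ = 0 by
      rw [jac]; linear_combination pd 1 x ζ * d3 - pd 1 (jac x z) ζ * d1)).resolve_right j1
    have x1 : ξ 1 = 0 := (mul_eq_zero.1 (show ξ 1 * jac (jac x z) x ζ = 0 by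
      rw [jac]; linear_combination pd 0 (jac x z) ζ * d1 - pd 0 x ζ * d3)).resolve_right j1
    have : ξ = 0 := by
      ext i; fin_cases i
      exacts [x0, x1]
    rw [this, map_zero] at d2
    exact zero_ne_one (congrArg Prod.snd d2)
  have hcl : ∀ᶠ q in 𝓝 (x ζ, (0 : ℂ)),
      ‖dv (dv f) q - dv (dv f) (x ζ, 0)‖ ≤ ‖dv (dv f) (x ζ, 0)‖ / 4 := by
    filter_upwards [(an_l2 (an_l2 hf)).continuousAt.eventually (Metric.closedBall_mem_nhds _
      (div_pos (norm_pos_iff.2 hκ) four_pos))] with q hq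
    rwa [← dist_eq_norm]
  obtain ⟨ε, hε, hb⟩ := Metric.eventually_nhds_iff_ball.1
    ((hf.eventually_analyticAt.and hcl).and A.fx)
  refine ⟨{y | Λ y ∈ Metric.ball (x ζ, (0 : ℂ)) ε ∧ Γ (Λ y) = y},
    (hΛ.continuousAt.eventually (Λ0 ▸ Metric.ball_mem_nhds _ hε)).and Λ1, ?_⟩
  have k1 : ∀ y, Λ y ∈ Metric.ball (x ζ, (0 : ℂ)) ε → Γ (Λ y) = y →
      Λ y = (x y, (Λ y).2) ∧ z y = f (x y, (Λ y).2) := fun y h1 h2 => by
    have e : Λ y = (x y, (Λ y).2) := Prod.ext ((hb _ h1).2.symm.trans (congrArg x h2)) rfl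
    exact ⟨e, by rw [← e, A.fz, Function.comp_apply, h2]⟩
  rintro y₁ ⟨a1, b1⟩ y₂ ⟨a2, b2⟩ y₃ ⟨a3, b3⟩ x2 x3 z2 z3
  obtain ⟨c1, d1⟩ := k1 _ a1 b1
  obtain ⟨c2, d2⟩ := k1 _ a2 b2
  obtain ⟨c3, d3⟩ := k1 _ a3 b3
  rw [← x2] at c2 d2
  rw [← x3] at c3 d3
  rw [← ball_prod_same] at a1 a2 a3 hb
  have m : ∀ v ∈ Metric.ball (0 : ℂ) ε, (x y₁, v) ∈ Metric.ball (x ζ) ε ×ˢ Metric.ball (0 : ℂ) ε :=
    fun v hv => ⟨(congrArg Prod.fst c1 ▸ a1.1 :), hv⟩
  have := three_l2 (g := fun v => f (x y₁, v)) (g' := fun v => dv f (x y₁, v))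
    (g'' := fun v => dv (dv f) (x y₁, v)) (convex_ball 0 ε) hκ
    (fun v hv => hd_l2 (hb _ (m v hv)).1.1) (fun v hv => hd_l2 (an_l2 (hb _ (m v hv)).1.1))
    (fun v hv => (hb _ (m v hv)).1.2) a1.2 a2.2 a3.2
    (d1.symm.trans (z2.trans d2)) (d1.symm.trans (z3.trans d3))
  refine this.imp (fun e => ?_) (Or.imp (fun e => ?_) fun e => ?_)
  · rw [← b1, ← b2, c1, c2, e]
  · rw [← b1, ← b3, c1, c3, e]
  · rw [← b2, ← b3, c2, c3, e]

end Pool.Agent.P.MP_ab0431_ag.UB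

namespace Pool.Agent.P.MP_ab0431_ag.UB

open Polynomial Set Filter Topology Asymptotics MeasureTheory
open scoped Manifold ContDiff

theorem ratio_pt4 (hPT1 : S_PT1) {Q : PM} {X : Surf} {M : ℕ} {h : Ch X} {s : Fin 3 → Sec X}
    (H : Tri M h s) {e : OpenPartialHomeomorph X.X C2} (he : e ∈ atlas C2 X.X) {y y' : X.X}
    (hy : y ∈ e.source) (hy' : y' ∈ e.source) (hp : prj Q h s y = prj Q h s y') (i j : Fin 3) :
    (s i e / s j e) (e y) = (s i e / s j e) (e y') := by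
  obtain ⟨c, hc⟩ := (Q.eq_iff _ _ (hPT1 X M h s y H).1 (hPT1 X M h s y' H).1).1 hp
  have c0 : c ≠ 0 := by
    rintro rfl
    exact (hPT1 X M h s y' H).1 (hc.trans (zero_smul _ _))
  obtain ⟨u, u0, hu⟩ := exists_unit (h.mem y) he (h.src y) hy
  obtain ⟨v, v0, hv⟩ := exists_unit (h.mem y') he (h.src y') hy'
  have k : ∀ i, s i e (e y') * v ^ M = s i e (e y) * (c * u ^ M) := fun i => by
    have h1 : s i (h.e y') (h.e y' y') = c * s i (h.e y) (h.e y y) := congrFun hc i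
    rw [hu M _ (H.form i), hv M _ (H.form i)] at h1
    rw [h1]; ring
  rw [Pi.div_apply, Pi.div_apply,
    ← mul_div_mul_right (s i e (e y')) _ (pow_ne_zero M v0), k, k,
    mul_div_mul_right _ _ (mul_ne_zero c0 (pow_ne_zero M u0))]

theorem an_pt4 {X : Surf} {M : ℕ} {h : Ch X} {s : Fin 3 → Sec X} (H : Tri M h s) (p : X.X)
    (i : Fin 3) : AnalyticAt ℂ (s i (h.e p)) (h.pt p) :=
  isForm_analyticAt (H.form i) (h.mem p) ((h.e p).map_source (h.src p))

theorem lf_pt4 (hLF : S_LF) (hLTU : S_LTU) {X : Surf} {M : ℕ} {h : Ch X} {s : Fin 3 → Sec X}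
    (H : Tri M h s) (p : X.X) (h0 : h.vl (s 0) p ≠ 0) :
    ∀ᶠ p' in 𝓝[≠] p, p' ∈ (h.e p).source ∧
      ¬((s 1 (h.e p) / s 0 (h.e p)) (h.e p p') = (s 1 (h.e p) / s 0 (h.e p)) (h.e p p) ∧
        (s 2 (h.e p) / s 0 (h.e p)) (h.e p p') = (s 2 (h.e p) / s 0 (h.e p)) (h.e p p)) := by
  have an := an_pt4 H p
  have k := fun t c γ => hLTU t (fun i => s i (h.e p)) (h.pt p) c γ an h0
  have h1 := hLF _ _ (h.pt p) ((an 1).div (an 0) h0) ((an 2).div (an 0) h0)
    (fun E => H.nice.b4 p _ _ (k tB4 _ _ (by decide) rfl E))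
    (fun E => H.nice.zz p _ _ (k tZ _ _ (by decide) rfl E))
    (fun E => H.nice.t2 p _ _ (k tT2 _ _ (by decide) rfl E))
  have h2 : ∀ᶠ p' in 𝓝[≠] p, p' ∈ (h.e p).source :=
    mem_nhdsWithin_of_mem_nhds ((h.e p).open_source.mem_nhds (h.src p))
  have h3 : Tendsto (h.e p) (𝓝[≠] p) (𝓝[≠] (h.pt p)) := by
    refine tendsto_nhdsWithin_iff.2
      ⟨((h.e p).continuousAt (h.src p)).tendsto.mono_left nhdsWithin_le_nhds, ?_⟩
    filter_upwards [h2, self_mem_nhdsWithin] with y hy hne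
    exact fun E => hne ((h.e p).injOn hy (h.src p) E)
  exact h2.and (h3.eventually h1)

theorem p_PT4 (hLF : S_LF) (hL2 : S_L2) (hLTU : S_LTU) (hWJ : S_WJ) (hPT1 : S_PT1) (hPIH : S_PIH) :
    S_PT4 := by
  intro Q X M h s p H
  constructor
  · by_cases hJ : h.vl (J1 M s) p = 0
    · by_cases h0 : h.vl (s 0) p = 0
      · filter_upwards [lf_pt4 hLF hLTU H.swap p (((hPT1 X M h s p H).2 hJ).1 h0).1] with y hy E
        exact hy.2 ⟨ratio_pt4 hPT1 H (h.mem p) hy.1 (h.src p) E 0 1,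
          ratio_pt4 hPT1 H (h.mem p) hy.1 (h.src p) E 2 1⟩
      · filter_upwards [lf_pt4 hLF hLTU H p h0] with y hy E
        exact hy.2 ⟨ratio_pt4 hPT1 H (h.mem p) hy.1 (h.src p) E 1 0,
          ratio_pt4 hPT1 H (h.mem p) hy.1 (h.src p) E 2 0⟩
    · obtain ⟨hπ, hl⟩ := hPIH Q X M h s H
      obtain ⟨e, he, heq, -⟩ := hl p hJ
      filter_upwards [mem_nhdsWithin_of_mem_nhds (e.open_source.mem_nhds he),
        self_mem_nhdsWithin] with y hy hne E
      exact hne (e.injOn hy he ((heq hy).trans (E.trans (heq he).symm)))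
  · intro hJ h0 hJ2
    have an := an_pt4 H p
    have M0 : M ≠ 0 := by have := H.pos; omega
    obtain ⟨-, w1, w2⟩ := hWJ M (fun i => s i (h.e p)) (h.pt p) M0 an h0
    have w3 : jac (s 1 (h.e p) / s 0 (h.e p)) (s 2 (h.e p) / s 0 (h.e p)) (h.pt p) = 0 := by
      have := w1.self_of_nhds.symm.trans hJ
      exact (mul_eq_zero.1 this).resolve_left
        (mul_ne_zero (Nat.cast_ne_zero.2 M0) (pow_ne_zero 3 h0))
    obtain ⟨O, hO, k⟩ := hL2 _ _ (h.pt p) ((an 1).div (an 0) h0) ((an 2).div (an 0) h0) w3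
      fun E => hJ2 ((w2 hJ).2.2 E)
    refine ⟨(h.e p).source ∩ h.e p ⁻¹' O, inter_mem ((h.e p).open_source.mem_nhds (h.src p))
      ((h.e p).continuousAt (h.src p) hO), fun y₁ h₁ y₂ h₂ y₃ h₃ E E' => ?_⟩
    have r := ratio_pt4 hPT1 H (h.mem p) h₁.1 h₂.1 E
    have r' := ratio_pt4 hPT1 H (h.mem p) h₁.1 h₃.1 E'
    exact (k _ h₁.2 _ h₂.2 _ h₃.2 (r 1 0) (r' 1 0) (r 2 0) (r' 2 0)).imp
      ((h.e p).injOn h₁.1 h₂.1) (Or.imp ((h.e p).injOn h₁.1 h₃.1) ((h.e p).injOn h₂.1 h₃.1))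

end Pool.Agent.P.MP_ab0431_ag.UB

namespace Pool.Agent.P.MP_ab0431_ag.UB

open Polynomial Set Filter Topology Asymptotics MeasureTheory
open scoped Manifold ContDiff

theorem cont_bcf (Q : PM) {v : Fin 3 → ℂ} (hv : v ≠ 0) : ContinuousAt Q.pp v := by
  obtain ⟨i, hi⟩ := Function.ne_iff.1 hv
  have c : Continuous (Q.ch i).symm :=
    continuousOn_univ.1 (Q.ch_tgt i ▸ (Q.ch i).continuousOn_symm)
  refine (c.continuousAt.comp (f := fun (w : Fin 3 → ℂ) j => w (i.succAbove j) / w i)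
    (continuousAt_pi.2 fun j => (continuousAt_apply _ _).div (continuousAt_apply _ _) hi)).congr ?_
  filter_upwards [(continuousAt_apply i v).eventually_ne hi] with w hw
  have w0 : w ≠ 0 := fun e => hw (e ▸ rfl)
  rw [Function.comp, ← Q.ch_app i w hw, (Q.ch i).left_inv ((Q.ch_src i w w0).2 hw)]

theorem p_BCF :
    S_BCF := by
  intro Q b m c hW
  have h2 : ∀ (a : ℂ) v, hom b (toP c) (a • v) = a ^ b * hom b (toP c) v := fun a v => by
    simp only [hom, Finset.mul_sum]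
    refine Finset.sum_congr rfl fun j hj => Finset.sum_congr rfl fun l hl => ?_
    rw [Finset.mem_range] at hj hl
    obtain ⟨k, rfl⟩ : ∃ k, b = j + l + k := ⟨b - j - l, by omega⟩
    simp only [Pi.smul_apply, smul_eq_mul, show j + l + k - j - l = k by omega]
    ring
  have h1 : ∀ v, v ≠ 0 → (Q.pp v ∈ Bc Q c ↔ hom b (toP c) v = 0) := fun v hv =>
    ⟨fun ⟨w, a1, a2, a3⟩ => by
      obtain ⟨t, rfl⟩ := (Q.eq_iff w v a1 hv).1 a2
      rw [h2, a3, mul_zero], fun h => ⟨v, hv, rfl, h⟩⟩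
  have h3 : ∀ x z, hom b (toP c) ![1, x, z] = (toP c).evalEval x z := fun x z => by
    rw [evalEval, eval_eq_sum_range (p := toP c), toP_natDegree, eval_finsetSum, hom]
    refine Finset.sum_congr rfl fun j _ => ?_
    rw [eval_mul, eval_eq_sum_range' (n := b - j + 1) (Nat.lt_succ_of_le
      (natDegree_le_iff_coeff_eq_zero.2 fun n hn => hW j n (by omega))), Finset.sum_mul]
    simp
  have h4 : ∀ v : Fin 3 → ℂ, v 0 = 0 → hom b (toP c) v = ∑ j ∈ Finset.range (b + 1),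
      ((toP c).coeff j).coeff (b - j) * v 1 ^ (b - j) * v 2 ^ j := fun v hv =>
    Finset.sum_congr rfl fun j _ => by
      rw [Finset.sum_range_succ, Finset.sum_eq_zero fun l hl => by
        rw [hv, zero_pow (Nat.sub_pos_of_lt (Finset.mem_range.1 hl)).ne']
        simp]
      simp
  have h5 : hom b (toP c) ![0, 0, 1] = 1 := by
    rw [h4 _ rfl, Finset.sum_range_succ, Finset.sum_eq_zero fun l hl => by
      simp [(Nat.sub_pos_of_lt (Finset.mem_range.1 hl)).ne']]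
    have := (toP_monic c).coeff_natDegree
    rw [toP_natDegree] at this
    simp [this]
  have hc : Continuous (hom b (toP c)) := by unfold hom; fun_prop
  obtain ⟨e, he⟩ : ∃ e : Fin 3 → ℂ, e = ![0, 0, 1] := ⟨_, rfl⟩
  have e1 : hom b (toP c) e = 1 := he ▸ h5
  have e2 : e 2 = 1 := he ▸ rfl
  have e3 : e ≠ 0 := fun h => one_ne_zero (e2.symm.trans (congrFun h 2))
  clear he
  have hL : ∀ v : Fin 3 → ℂ, {t : ℂ | ¬(v + t • (e - v) ≠ 0 ∧
      hom b (toP c) (v + t • (e - v)) ≠ 0)}.Finite := fun v => by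
    obtain ⟨p, hp⟩ : ∃ p : ℂ[X], ∀ t, p.eval t = hom b (toP c) (v + t • (e - v)) *
        (v + t • (e - v)) 2 := by
      let P : Fin 3 → ℂ[X] := fun k => C (v k) + X * C ((e - v) k)
      exact ⟨(∑ j ∈ Finset.range (b + 1), ∑ l ∈ Finset.range (b - j + 1),
        C (((toP c).coeff j).coeff l) * P 0 ^ (b - j - l) * P 1 ^ l * P 2 ^ j) * P 2, fun t => by
          simp only [P, hom, eval_mul, eval_finsetSum, eval_pow, eval_add, eval_C, eval_X,
            Pi.add_apply, Pi.smul_apply, smul_eq_mul]⟩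
    refine (finite_setOfPred_isRoot (p := p) fun h => by simpa [h, e1, e2] using hp 1).subset
      fun t ht => ?_
    rw [mem_ofPred_eq, not_and_or, not_not, not_not] at ht
    rw [mem_ofPred_eq, IsRoot, hp]
    rcases ht with h | h <;> rw [h]
    exacts [mul_zero _, zero_mul _]
  refine ⟨h1, h2, h3, fun z => ?_, h5, ?_, fun y => ?_, ?_, ?_⟩
  · rw [h4 _ rfl]
    simp [top, eval_finsetSum]
  · refine isOpen_compl_iff.1 (isOpen_iff_forall_mem_open.2 fun y hy => ?_)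
    obtain ⟨v, v0, rfl⟩ := Q.surj y
    obtain ⟨i, hi⟩ := Function.ne_iff.1 v0
    have k : ∀ y ∈ (Q.ch i).source, y ∈ Bc Q c ↔ hom b (toP c) (i.insertNth 1 (Q.ch i y)) = 0 :=
      fun y hy => by
        rw [← h1 _ fun e => by simpa using congrFun e i, ← Q.ch_symm, (Q.ch i).left_inv hy]
    have s := (Q.ch_src i v v0).2 hi
    exact ⟨_, fun y hy => mt (k y hy.1).1 hy.2, (Q.ch i).isOpen_inter_preimage
      (s := {w | hom b (toP c) (i.insertNth 1 w) ≠ 0}) (isOpen_ne_fun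
        (hc.comp (continuous_const.finInsertNth i continuous_id)) continuous_const),
      s, mt (k _ s).2 hy⟩
  · obtain ⟨v, v0, rfl⟩ := Q.surj y
    have c0 : ContinuousAt (fun t : ℂ => Q.pp (v + t • (e - v))) 0 :=
      (cont_bcf Q v0).comp_of_eq (by fun_prop) (by simp)
    refine mem_closure_of_tendsto (b := 𝓝[≠] (0 : ℂ)) (f := fun t => Q.pp (v + t • (e - v)))
      (by simpa using c0.tendsto.mono_left nhdsWithin_le_nhds) ?_
    filter_upwards [nhdsNE_le_cofinite _ (hL v).compl_mem_cofinite] with t ht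
    have := not_not.1 ht
    exact mt (h1 _ this.1).1 this.2
  · refine isPreconnected_of_forall (Q.pp e) fun y hy => ?_
    obtain ⟨v, v0, rfl⟩ := Q.surj y
    refine ⟨_, ?_, ?_, ?_, ((hL v).countable.isPathConnected_compl_of_one_lt_rank
        (by simp)).isConnected.isPreconnected.image (fun t : ℂ => Q.pp (v + t • (e - v)))
        fun t ht => ((cont_bcf Q (not_not.1 ht).1).comp_of_eq (f := fun t : ℂ => v + t • (e - v))
          (by fun_prop) rfl).continuousWithinAt⟩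
    · rintro _ ⟨t, ht, rfl⟩
      have := not_not.1 ht
      exact mt (h1 _ this.1).1 this.2
    · exact ⟨1, by simp [e1, e3], by simp⟩
    · exact ⟨0, by simpa [v0] using mt (h1 v v0).2 hy, by simp⟩
  · by_contra! h
    refine ((toP_monic c).map (evalRingHom 0)).ne_zero (zero_of_eval_zero _ fun z => ?_)
    rw [map_evalRingHom_eval, ← h3]
    exact (h1 _ fun e => one_ne_zero (congrFun e 0)).1 (h 0 z)

end Pool.Agent.P.MP_ab0431_ag.UB

namespace Pool.Agent.P.MP_ab0431_ag.UB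

open Polynomial Set Filter Topology Asymptotics MeasureTheory
open scoped Manifold ContDiff

theorem dense_cov0 (hPT1 : S_PT1) (hJFORM : S_JFORM) {X : Surf} {M : ℕ} {h : Ch X}
    {s : Fin 3 → Sec X} (H : Tri M h s) (p : X.X) :
    p ∈ closure {p | h.vl (J1 M s) p ≠ 0} := by
  by_cases hp : h.vl (J1 M s) p = 0
  swap
  · exact subset_closure hp
  have hd := ((hPT1 X M h s p H).2 hp).2
  have hF : IsForm X.X (M + M + M + 1) (J1 M s) :=
    hJFORM X M M M (s 0) (s 1) (s 2) (H.form 0) (H.form 1) (H.form 2)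
  rw [mem_closure_iff_frequently]
  intro hev
  apply hd
  have h1 : ∀ᶠ y in 𝓝 (h.pt p), J1 M s (h.e p) y = 0 := by
    rw [Ch.pt, ← (h.e p).map_nhds_eq (h.src p), eventually_map]
    filter_upwards [hev, (h.e p).open_source.mem_nhds (h.src p)] with x hx hx'
    obtain ⟨u, -, hu⟩ := exists_unit (h.mem p) (h.mem x) hx' (h.src x)
    have h0 : J1 M s (h.e x) (h.e x x) = 0 := not_not.1 hx
    rw [hu _ _ hF, h0, zero_mul]
  have h2 : J1 M s (h.e p) =ᶠ[𝓝 (h.pt p)] fun _ => 0 := h1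
  rw [h2.fderiv_eq]
  simp

theorem p_COV0 (hPT1 : S_PT1) (hPT4 : S_PT4) (hBCF : S_BCF) (hJFORM : S_JFORM) :
    S_COV0 := by
  intro Q X M h s S i c hπ H hM hI hloc
  obtain ⟨b1, b2, b3, b4, -, -, b7, -⟩ := hBCF Q _ _ c hI.good.1
  have key : ∀ p, prj Q h s p ∉ Bc Q c → h.vl (J1 M s) p ≠ 0 := by
    intro p hp h0
    apply hp
    obtain ⟨r, rfl⟩ : p ∈ range i := by rw [hM.rng]; exact h0
    rw [prj, b1 _ (hPT1 X M h s (i r) H).1]
    by_cases hr : r ∈ S.inf
    · have e0 := (hM.inf r).1 hr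
      have e1 := hM.inf1 r hr
      have e : (fun j => h.vl (s j) (i r)) = h.vl (s 1) (i r) •
          (![0, 1, h.vl (s 2) (i r) / h.vl (s 1) (i r)] : Fin 3 → ℂ) := by
        funext j; fin_cases j
        · simpa using e0
        · simp
        · simp; field_simp
      rw [e, b2, b4, hI.top, finprod_mem_eq_finite_toFinset_prod _ hI.fin, eval_prod,
        Finset.prod_eq_zero (i := r) (by simpa using hr) (by simp), mul_zero]
    · have e0 : h.vl (s 0) (i r) ≠ 0 := fun h0 => hr ((hM.inf r).2 h0)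
      have e : (fun j => h.vl (s j) (i r)) = h.vl (s 0) (i r) •
          (![1, S.xx r, h.vl (s 2) (i r) / h.vl (s 0) (i r)] : Fin 3 → ℂ) := by
        funext j; fin_cases j
        · simp
        · simp [hM.xx r hr]; field_simp
        · simp; field_simp
      have hν : S.ν r ≠ 0 := by rcases S.ν12 r with h | h <;> omega
      rw [e, b2, b3, ← map_evalRingHom_eval, (hI.aff _).2,
        finprod_mem_eq_finite_toFinset_prod _ (hI.aff _).1, eval_prod,
        Finset.prod_eq_zero (i := r) (by simpa [RS.fb] using hr) (by simp [hν]), mul_zero]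
  have hc : Continuous (prj Q h s) := hπ.continuous
  refine ⟨⟨fun K _ hK => (hK.isClosed.preimage hc).isCompact, fun q _ => ?_,
    fun z _ hz => hloc z (key z hz), fun z _ => ?_⟩, key⟩
  · refine ((isClosed_singleton.preimage hc).isCompact).finite ?_
    rw [isDiscrete_iff_nhdsNE]
    intro p hp
    rw [inf_principal_eq_bot]
    filter_upwards [(hPT4 Q X M h s p H).1] with p' hp' h'
    exact hp' ((mem_singleton_iff.1 h').trans (mem_singleton_iff.1 hp).symm)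
  · rw [← closure_closure]
    refine closure_mono (fun p hp => ?_) (dense_cov0 hPT1 hJFORM H z)
    obtain ⟨e, he, heq, -⟩ := hloc p hp
    have h1 := mem_closure_iff_frequently.1 (b7 (e p))
    rw [← e.map_nhds_eq he, frequently_map] at h1
    rw [mem_closure_iff_frequently]
    refine (h1.and_eventually (e.open_source.mem_nhds he)).mono fun x hx => ?_
    rw [mem_preimage, ← heq hx.2]
    exact hx.1

end Pool.Agent.P.MP_ab0431_ag.UB

namespace Pool.Agent.P.MP_ab0431_ag.UB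

open Polynomial Set Filter Topology Asymptotics MeasureTheory
open scoped Manifold ContDiff

theorem up_card {Z Y : Type} [TopologicalSpace Z] [TopologicalSpace Y] {π : Z → Y}
    (hc : IsClosedMap π) (q : Y) (hq : (π ⁻¹' {q}).Finite) (n : Z → ℕ)
    (h : ∀ p, π p = q → ∃ O ∈ 𝓝 p, ∀ q', (O ∩ π ⁻¹' {q'}).ncard ≤ n p) :
    ∀ᶠ q' in 𝓝 q, (π ⁻¹' {q'}).Finite → (π ⁻¹' {q'}).ncard ≤ ∑ p ∈ hq.toFinset, n p := by
  classical
  choose! O hO hn using h
  have := hc.eventually_nhds_fiber (p := fun z => ∃ p, π p = q ∧ z ∈ O p) q fun p hp =>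
    mem_of_superset (hO p hp) fun z hz => ⟨p, hp, hz⟩
  filter_upwards [this] with q' h1 h2
  have e : h2.toFinset ⊆ hq.toFinset.biUnion fun p => (h2.inter_of_right (O p)).toFinset := by
    intro z hz
    rw [Finite.mem_toFinset] at hz
    obtain ⟨p, hp, hz'⟩ := h1 z hz
    simp only [Finset.mem_biUnion, Finite.mem_toFinset]
    exact ⟨p, hp, hz', hz⟩
  rw [ncard_eq_toFinset_card _ h2]
  refine (Finset.card_le_card e).trans (Finset.card_biUnion_le.trans (Finset.sum_le_sum ?_))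
  intro p hp
  rw [← ncard_eq_toFinset_card _ (h2.inter_of_right (O p))]
  exact hn p ((Finite.mem_toFinset hq).1 hp) q'

theorem one_card {E T : Type} [NormedAddCommGroup E] [NormedSpace ℂ E] [TopologicalSpace T]
    [ChartedSpace E T] (F : Cv E T) (hf : ∀ q, (F.π ⁻¹' {q}).Finite) {p : F.Z} (h : F.Loc p) :
    ∃ O ∈ 𝓝 p, ∀ q', (O ∩ F.π ⁻¹' {q'}).ncard ≤ 1 := by
  obtain ⟨e, h1, h2, -⟩ := h
  refine ⟨e.source, e.open_source.mem_nhds h1, fun q' => ?_⟩
  rw [ncard_le_one ((hf q').inter_of_right _)]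
  intro a ha b hb
  refine e.injOn ha.1 hb.1 ?_
  rw [h2 ha.1, h2 hb.1]
  exact ha.2.trans hb.2.symm

theorem low_card {E T : Type} [NormedAddCommGroup E] [NormedSpace ℂ E] [TopologicalSpace T]
    [ChartedSpace E T] (F : Cv E T) (hf : ∀ q, (F.π ⁻¹' {q}).Finite) (q : T)
    (h : ∀ p, F.π p = q → F.Loc p) :
    ∀ᶠ q' in 𝓝 q, (F.π ⁻¹' {q}).ncard ≤ (F.π ⁻¹' {q'}).ncard := by
  obtain ⟨U, hU, hd⟩ := (hf q).t2_separation
  have : ∀ᶠ q' in 𝓝 q, ∀ p ∈ F.π ⁻¹' {q}, ∃ z ∈ U p, F.π z = q' := by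
    refine (eventually_all_finite (hf q)).2 fun p hp => ?_
    obtain ⟨e, h1, h2, -⟩ := h p hp
    have a : e '' (U p ∩ e.source) ∈ 𝓝 (e p) :=
      e.image_mem_nhds h1 (inter_mem ((hU p).2.mem_nhds (hU p).1) (e.open_source.mem_nhds h1))
    rw [h2 h1, show F.π p = q from hp] at a
    filter_upwards [a] with q' hq'
    obtain ⟨z, hz, rfl⟩ := hq'
    exact ⟨z, hz.1, (h2 hz.2).symm⟩
  filter_upwards [this] with q' h1
  choose! g hg hg' using h1
  refine ncard_le_ncard_of_injOn g (fun a ha => hg' a ha) (fun a ha b hb e => ?_) (hf q')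
  by_contra hne
  exact disjoint_left.1 (hd ha hb hne) (hg a ha) (e ▸ hg b hb)

theorem p_CARD :
    S_CARD := by
  classical
  intro Q F B hG _
  have : CompactSpace F.Z := ⟨by simpa using hG.prop univ Subset.rfl isCompact_univ⟩
  have hc : IsClosedMap F.π := F.hol.continuous.isClosedMap
  have hf : ∀ q, (F.π ⁻¹' {q}).Finite := fun q => hG.fin q trivial
  refine ⟨fun hB => ?_, fun d q p hD hd hp hl ⟨O, hO, h3⟩ => ?_⟩
  · by_cases h0 : ∃ q0, q0 ∉ B
    · obtain ⟨q0, h0⟩ := h0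
      refine ⟨_, fun q hq => hB.constant (f := fun q => (F.π ⁻¹' {q}).ncard) (fun q hq => ?_) hq h0⟩
      have hl : ∀ p, F.π p = q → F.Loc p := fun p hp => hG.loc p trivial (hp ▸ hq)
      refine (ContinuousAt.congr (f := fun _ => (F.π ⁻¹' {q}).ncard) continuousAt_const
        ?_).continuousWithinAt
      filter_upwards [low_card F hf q hl,
        up_card hc q (hf q) (fun _ => 1) fun p hp => one_card F hf (hl p hp)] with q' a b
      have b' := b (hf q')
      rw [Finset.sum_const, smul_eq_mul, mul_one, ← ncard_eq_toFinset_card _ (hf q)] at b'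
      exact le_antisymm a b'
    · exact ⟨0, fun q hq => (h0 ⟨q, hq⟩).elim⟩
  · have h1 := up_card hc q (hf q) (fun z => if z = p then 2 else 1) fun z hz => by
      by_cases e : z = p
      · subst e
        refine ⟨O, hO, fun q' => ?_⟩
        rw [if_pos rfl]
        by_contra hne
        obtain ⟨a, ha, b, hb, c, hc, ab, ac, bc⟩ :=
          (two_lt_ncard ((hf q').inter_of_right O)).1 (not_le.1 hne)
        rcases h3 a ha.1 b hb.1 c hc.1 (ha.2.trans hb.2.symm) (ha.2.trans hc.2.symm) with k | k | k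
        exacts [ab k, ac k, bc k]
      · rw [if_neg e]
        exact one_card F hf (hl z hz e)
    obtain ⟨q', a, b⟩ := mem_closure_iff_nhds.1 (hD q) _ h1
    have a' := a (hf q')
    rw [hd q' b, ← Finset.sum_erase_add _ _ ((Finite.mem_toFinset (hf q)).2 hp), if_pos rfl,
      Finset.sum_congr rfl fun z hz => if_neg (Finset.ne_of_mem_erase hz), Finset.sum_const,
      smul_eq_mul, mul_one] at a'
    refine ⟨_, a', fun z hz => ?_⟩
    have hz' : F.π z = q := (Finite.mem_toFinset (hf q)).1 (Finset.mem_of_mem_erase hz)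
    exact ⟨hz', hl z hz' (Finset.ne_of_mem_erase hz)⟩

end Pool.Agent.P.MP_ab0431_ag.UB

namespace Pool.Agent.P.MP_ab0431_ag.UB

open Polynomial Set Filter Topology Asymptotics MeasureTheory
open scoped Manifold ContDiff

theorem sep_cov1 {ι : Type} (T : Finset ι) (z : ι → ℂ) (ν : ι → ℕ) (hν : ∀ r, ν r = 1 ∨ ν r = 2)
    (h : (∏ r ∈ T, (X - C (z r)) ^ ν r).Separable) :
    (∀ r ∈ T, ν r ≠ 2) ∧ ∀ r ∈ T, ∀ r' ∈ T, z r = z r' → r = r' := by
  classical
  have key : ∀ a : ℂ, ¬(X - C a) * (X - C a) ∣ ∏ r ∈ T, (X - C (z r)) ^ ν r := fun a ha =>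
    not_isUnit_X_sub_C a (h.squarefree _ ha)
  have h1 : ∀ r (a : ℂ), X - C a ∣ (X - C a) ^ ν r := fun r a =>
    dvd_pow_self _ (by rcases hν r with e | e <;> omega)
  refine ⟨fun r hr e => key (z r) ?_, fun r hr r' hr' e => by_contra fun hne => key (z r) ?_⟩
  · have := Finset.dvd_prod_of_mem (fun r => (X - C (z r)) ^ ν r) hr
    rwa [e, pow_two] at this
  · have := Finset.prod_dvd_prod_of_subset {r, r'} T (fun r => (X - C (z r)) ^ ν r)
      (Finset.insert_subset hr (Finset.singleton_subset_iff.2 hr'))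
    rw [Finset.prod_pair hne, ← e] at this
    exact (mul_dvd_mul (h1 r _) (h1 r' _)).trans this

theorem p_COV1 (hPT1 : S_PT1) (hPT4 : S_PT4) (hBCF : S_BCF) (hCARD : S_CARD) (hDSEP : S_DSEP) :
    S_COV1 := by
  intro Q X M d h s S i c hπ ht hm him hloc hG0 _ hd
  obtain ⟨-, b2, b3, b4, b5, b6, b7, -, -⟩ := hBCF Q _ 6 c him.good.1
  set E : Set Q.Y := (fun p : ℂ × ℂ => Q.pp ![1, p.1, p.2]) ''
    {p | (Δ S.inf.ncard (toP c)).eval p.1 = 0 ∧ (toP c).evalEval p.1 p.2 = 0} ∪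
    (fun z => Q.pp ![0, 1, z]) '' {z | (top S.inf.ncard 1 (toP c)).eval z = 0} with hE
  have hmon : ∀ x : ℂ, ((toP c).map (evalRingHom x)).Monic := fun x => (toP_monic c).map _
  have hfin : E.Finite := by
    refine (Finite.image _ ?_).union (Finite.image _ ?_)
    · have hΔ : Δ S.inf.ncard (toP c) ≠ 0 := fun e => him.good.2.1 (by rw [e, coeff_zero])
      refine ((finite_setOfPred_isRoot hΔ).biUnion fun x _ =>
        (finite_setOfPred_isRoot (hmon x).ne_zero).image fun z => (x, z)).subset ?_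
      rintro ⟨x, z⟩ ⟨h1, h2⟩
      exact mem_iUnion₂.2 ⟨x, h1, z, (map_evalRingHom_eval x z _).trans h2, rfl⟩
    · have : (top S.inf.ncard 1 (toP c)).Monic := by
        rw [him.top]
        exact finprod_mem_induction Monic monic_one (fun _ _ => Monic.mul)
          fun r _ => monic_X_sub_C _
      exact finite_setOfPred_isRoot this.ne_zero
  have main : ∀ q ∉ E, (Cv.mk X.X X.mfd X.t2 (prj Q h s) hπ : Cv C2 Q.Y).Fold d q := by
    intro q hq
    by_cases hB : q ∈ Bc Q c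
    swap
    · refine ⟨(hG0.fin q trivial).toFinset, ?_, fun p hp => ?_⟩
      · exact ((hd q hB).symm.trans (ncard_eq_toFinset_card _ (hG0.fin q trivial))).le.trans
          (Nat.le_add_right _ _)
      · have e : prj Q h s p = q := (hG0.fin q trivial).mem_toFinset.1 hp
        exact ⟨e, hG0.loc p trivial fun e' => hB (e ▸ (e' : prj Q h s p ∈ _))⟩
    obtain ⟨v, hv, rfl, hv0⟩ := hB
    have h0 : v 0 ≠ 0 := by
      intro h0
      by_cases h1 : v 1 = 0
      · have e : v = v 2 • ![0, 0, 1] := by ext j; fin_cases j <;> simp [h0, h1]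
        rw [e, b2, b5, mul_one] at hv0
        exact hv (by rw [e, pow_eq_zero_iff'.1 hv0 |>.1, zero_smul])
      · have e : v = v 1 • ![0, 1, v 2 / v 1] := by
          ext j; fin_cases j <;> simp [h0, mul_div_cancel₀ _ h1]
        refine hq (Or.inr ⟨v 2 / v 1, ?_, (Q.eq_iff _ _ (by simp) hv).2 ⟨_, e⟩⟩)
        rw [e, b2, b4] at hv0
        exact (mul_eq_zero.1 hv0).resolve_left (pow_ne_zero _ h1)
    obtain ⟨x, z, e⟩ : ∃ x z, v = v 0 • ![1, x, z] := ⟨v 1 / v 0, v 2 / v 0, by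
      ext j; fin_cases j <;> simp [mul_div_cancel₀ _ h0]⟩
    have hne : (![1, x, z] : Fin 3 → ℂ) ≠ 0 := by simp
    have hq' : Q.pp ![1, x, z] = Q.pp v := (Q.eq_iff _ _ hne hv).2 ⟨_, e⟩
    rw [e, b2, b3] at hv0
    have hz : (toP c).evalEval x z = 0 := (mul_eq_zero.1 hv0).resolve_left (pow_ne_zero _ h0)
    have hΔ : (Δ S.inf.ncard (toP c)).eval x ≠ 0 := fun e' => hq (Or.inl ⟨(x, z), ⟨e', hz⟩, hq'⟩)
    have hsep : ((toP c).map (evalRingHom x)).Separable :=
      (hDSEP ℂ _ _ (hmon x) (((toP_monic c).natDegree_map _).trans (toP_natDegree c))).1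
        (by rw [Δ_map]; exact hΔ)
    obtain ⟨hf, hp⟩ := him.aff x
    rw [finprod_mem_eq_finite_toFinset_prod _ hf] at hp
    rw [← map_evalRingHom_eval, hp, eval_prod, Finset.prod_eq_zero_iff] at hz
    obtain ⟨r, hr, hz⟩ := hz
    rw [eval_pow, eval_sub, eval_X, eval_C] at hz
    have hz : z = h.vl (s 2) (i r) / h.vl (s 0) (i r) := sub_eq_zero.1 (pow_eq_zero_iff'.1 hz).1
    rw [hp] at hsep
    obtain ⟨s1, s2⟩ := sep_cov1 _ _ _ S.ν12 hsep
    have hr' := (Finite.mem_toFinset _).1 hr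
    have a0 : h.vl (s 0) (i r) ≠ 0 := fun e => hr'.1 ((hm.inf r).2 e)
    have a1 : h.vl (J1 M s) (i r) = 0 := (Set.ext_iff.1 hm.rng (i r)).1 ⟨r, rfl⟩
    have a2 : h.vl (J2 M s) (i r) ≠ 0 := fun e => s1 r hr ((hm.nu r).2 e)
    have a3 : x = h.vl (s 1) (i r) / h.vl (s 0) (i r) := hr'.2.symm.trans (hm.xx r hr'.1)
    rw [← hq']
    refine (hCARD Q _ _ hG0 b6).2 d _ (i r) b7 hd ?_ (fun p' e' hne' => hloc p' fun e'' => ?_)
      ((hPT4 Q X M h s (i r) ht).2 a1 a0 a2)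
    · refine ((Q.eq_iff _ _ hne (hPT1 X M h s (i r) ht).1).2 ⟨h.vl (s 0) (i r), ?_⟩).symm
      ext j; fin_cases j <;> simp [a3, hz, mul_div_cancel₀ _ a0]
    · obtain ⟨r', rfl⟩ := (Set.ext_iff.1 hm.rng p').2 e''
      have n0 := (hPT1 X M h s (i r') ht).1
      obtain ⟨a, ha⟩ := (Q.eq_iff _ _ hne n0).1 (Eq.symm e')
      have n1 : a ≠ 0 := fun e => n0 (by rw [ha, e, zero_smul])
      have c0 : h.vl (s 0) (i r') = a := by simpa using congrFun ha 0
      have c1 : h.vl (s 1) (i r') = a * x := by simpa using congrFun ha 1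
      have c2 : h.vl (s 2) (i r') = a * z := by simpa using congrFun ha 2
      have c3 : r' ∉ S.inf := fun e => n1 (c0.symm.trans ((hm.inf r').1 e))
      refine hne' (congrArg i (s2 r' ((Finite.mem_toFinset _).2 ⟨c3, ?_⟩) r hr ?_))
      · rw [hm.xx r' c3, c0, c1, mul_div_cancel_left₀ _ n1]
      · rw [← hz, c0, c2, mul_div_cancel_left₀ _ n1]
  refine ⟨fun q _ hq => hd q hq, fun q _ => ?_⟩
  filter_upwards [(hfin.subset (sdiff_subset (t := {q}))).isClosed.isOpen_compl.mem_nhds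
    fun hq => hq.2 rfl] with q' hq' _ hne
  exact main q' fun e => hq' ⟨e, hne⟩

end Pool.Agent.P.MP_ab0431_ag.UB

namespace Pool.Agent.P.MP_ab0431_ag.UB

open Polynomial Set Filter Topology Asymptotics MeasureTheory
open scoped Manifold ContDiff

theorem p_DEGB (hBEZ : S_BEZ) (hPT1 : S_PT1) (hPT4 : S_PT4) (hWJ : S_WJ) :
    S_DEGB := by
  intro Q X m y M h s x z hm hva hk hT hJ
  have hM := hT.pos
  have h1 : (![1, x, z] : Fin 3 → ℂ) ≠ 0 := fun e => by simpa using congrFun e 0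
  have key : ∀ p, (prj Q h s p = Q.pp ![1, x, z] ↔
      h.vl (s 1 - x • s 0) p = 0 ∧ h.vl (s 2 - z • s 0) p = 0) ∧
      (prj Q h s p = Q.pp ![1, x, z] → h.vl (s 0) p ≠ 0) := by
    intro p
    have h2 := (hPT1 X M h s p hT).1
    have e1 : h.vl (s 1 - x • s 0) p = h.vl (s 1) p - x * h.vl (s 0) p := rfl
    have e2 : h.vl (s 2 - z • s 0) p = h.vl (s 2) p - z * h.vl (s 0) p := rfl
    rw [prj, Q.eq_iff _ _ h2 h1, e1, e2]
    refine ⟨⟨?_, ?_⟩, ?_⟩
    · rintro ⟨c, hc⟩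
      have a0 : 1 = c * h.vl (s 0) p := congrFun hc 0
      have a1 : x = c * h.vl (s 1) p := congrFun hc 1
      have a2 : z = c * h.vl (s 2) p := congrFun hc 2
      exact ⟨by linear_combination h.vl (s 1) p * a0 - h.vl (s 0) p * a1,
        by linear_combination h.vl (s 2) p * a0 - h.vl (s 0) p * a2⟩
    · rintro ⟨a1, a2⟩
      have a0 : h.vl (s 0) p ≠ 0 := by
        intro a0
        apply h2
        rw [a0, mul_zero, sub_zero] at a1 a2
        funext i
        fin_cases i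
        exacts [a0, a1, a2]
      refine ⟨(h.vl (s 0) p)⁻¹, funext fun i => ?_⟩
      fin_cases i
      · exact (inv_mul_cancel₀ a0).symm
      · change x = (h.vl (s 0) p)⁻¹ * h.vl (s 1) p
        rw [eq_inv_mul_iff_mul_eq₀ a0]
        linear_combination -a1
      · change z = (h.vl (s 0) p)⁻¹ * h.vl (s 2) p
        rw [eq_inv_mul_iff_mul_eq₀ a0]
        linear_combination -a2
    · rintro ⟨c, hc⟩
      have a0 : 1 = c * h.vl (s 0) p := congrFun hc 0
      exact right_ne_zero_of_mul_eq_one a0.symm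
  rcases (prj Q h s ⁻¹' {Q.pp ![1, x, z]}).finite_or_infinite with hf | hf
  swap
  · rw [hf.ncard]; exact Nat.zero_le _
  rw [Set.ncard_eq_toFinset_card _ hf]
  have hu := isForm_sub (hT.form 1) (isForm_smul x (hT.form 0))
  refine hBEZ X h m y M M _ _ _ hm hva hk (by omega) (by omega) hu
    (isForm_sub (hT.form 2) (isForm_smul z (hT.form 0))) fun p hp => ?_
  have hp' : prj Q h s p = Q.pp ![1, x, z] := by simpa using hp
  obtain ⟨a1, a2⟩ := (key p).1.1 hp'
  have a0 := (key p).2 hp'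
  refine ⟨a1, a2, fun hd => hJ p hp' ?_, (hPT4 Q X M h s p hT).1.mono fun q hq hq' =>
    hq (((key q).1.2 hq').trans hp'.symm)⟩
  have hζ : h.pt p ∈ (h.e p).target := (h.e p).map_source (h.src p)
  have an : ∀ i, AnalyticAt ℂ (s i (h.e p)) (h.pt p) := fun i =>
    isForm_analyticAt (hT.form i) (h.mem p) hζ
  have e1 := (hWJ M (fun i => s i (h.e p)) (h.pt p) (by omega) an a0).2.1.self_of_nhds
  have d1 : HasFDerivAt ((s 1 - x • s 0) (h.e p)) (0 : C2 →L[ℂ] ℂ) (h.pt p) :=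
    hd ▸ (isForm_analyticAt hu (h.mem p) hζ).differentiableAt.hasFDerivAt
  have d2 := (d1.mul ((an 0).inv a0).differentiableAt.hasFDerivAt).add_const x
  have a1' : (s 1 - x • s 0) (h.e p) (h.pt p) = 0 := a1
  rw [a1'] at d2
  have d3 : fderiv ℂ (s 1 (h.e p) / s 0 (h.e p)) (h.pt p) = 0 := by
    refine (d2.congr_of_eventuallyEq ?_).fderiv.trans (by ext w; simp)
    filter_upwards [(an 0).continuousAt.eventually_ne a0] with w hw
    simp only [Pi.div_apply, Pi.mul_apply, Pi.sub_apply, Pi.smul_apply, Pi.inv_apply, smul_eq_mul]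
    field_simp
    ring
  change wjf M M M (s 0 (h.e p)) (s 1 (h.e p)) (s 2 (h.e p)) (h.pt p) = 0
  rw [e1]
  simp [jac, pd, d3]

end Pool.Agent.P.MP_ab0431_ag.UB

namespace Pool.Agent.P.MP_ab0431_ag.UB

open Polynomial Set Filter Topology

theorem p_AMAIN (hJET : S_JET) (hGENE : S_GENE) (hRM1 : S_RM1) (hRM3 : S_RM3) (hRM5 : S_RM5) (hAALG : S_AALG) (hPIH : S_PIH) (hCOV0 : S_COV0) (hCOV1 : S_COV1) (hCARD : S_CARD) (hBCF : S_BCF) (hDEGB : S_DEGB) :
    S_AMAIN := by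
  intro Q m hm
  refine ⟨8 * m ^ 2 * (3 * (20 * m) + 1) * (5 * (20 * m) + 2), fun y Xs hV hK => ?_⟩
  obtain ⟨h⟩ := exists_ch Xs
  obtain ⟨n, τ, hτ, hJ⟩ := hJET Xs m hV
  obtain ⟨s, hs⟩ := hGENE Xs h (20 * m) (Fin n) τ (by omega) hτ hJ
  obtain ⟨S, i, hS⟩ := hRM1 Xs _ h s hs
  obtain ⟨w, c, hw, hc, hg, h1, h2, h3⟩ := hAALG S _ _ (hRM3 Xs _ h s S i n τ hs hS hτ hJ)
  obtain ⟨hπ, hL⟩ := hPIH Q Xs _ h s hs
  obtain ⟨g0, g1⟩ := hCOV0 Q Xs _ h s S i c hπ hs hS ⟨hg, h1, h2, h3⟩ hL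
  obtain ⟨-, -, -, -, -, b1, -, b2, x, z, b3⟩ := hBCF Q _ 6 c hg.1
  obtain ⟨d, hd⟩ := (hCARD Q _ _ g0 b1).1 b2
  obtain ⟨r1, r2⟩ := hRM5 Xs m y _ h s S i hm hV hK hs hS
  refine ⟨_, w, d, c, r1.trans ?_, hw.trans r2, ?_, hc, hg, _, hπ, g0,
    hCOV1 Q Xs _ d h s S i c hπ hs hS ⟨hg, h1, h2, h3⟩ hL g0 g1 hd⟩
  · exact Nat.mul_le_mul_right _ (Nat.mul_le_mul_left _ (by omega))
  · refine (hd _ b3).ge.trans ((hDEGB Q Xs m y _ h s x z hm hV hK hs
      fun p hp => g1 p (hp ▸ b3)).trans ?_)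
    exact Nat.mul_le_mul_right _ (Nat.mul_le_mul (Nat.mul_le_mul_left _ (by omega)) (by omega))

end Pool.Agent.P.MP_ab0431_ag.UB
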