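import Pool.Agent.P.MP_ab0431_ag.UB.IfaceB1
import Pool.Agent.P.MP_ab0431_ag.UB.IfaceO
import Pool.Agent.P.MP_ab0431_ag.UB.IfaceT
import Pool.Agent.P.MP_ab0431_ag.UB.IfaceB

/-! Steps HFP HCOVS HCOV HSEC HLOC HINC HTI HUR HPT DESC HPRIM HDIVM HLINE1 HLINE2 HGRID HIND HFB HTRK HURO HTRD TR BMAIN. -/

set_option autoImplicit false
set_option linter.unusedSectionVars false
set_option linter.unusedVariables false

namespace Pool.Agent.P.MP_ab0431_ag.UB

open Polynomial Set Filter Topology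

theorem rank_hfp {K V W Q : Type} [Field K] [AddCommGroup V] [Module K V] [AddCommGroup W]
    [Module K W] [AddCommGroup Q] [Module K Q] [Module.Finite K W] (f : V →ₗ[K] W) (g : V →ₗ[K] Q)
    (h : LinearMap.ker f ≤ LinearMap.ker g) :
    Module.finrank K (LinearMap.range g) ≤ Module.finrank K W := by
  have := Module.Finite.equiv f.quotKerEquivRange.symm
  rw [← Submodule.range_liftQ _ g h]
  exact (LinearMap.finrank_range_le _).trans
    (f.quotKerEquivRange.finrank_eq.le.trans (Submodule.finrank_le _))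

theorem p_HFP :
    S_HFP := by
  intro K σ _ I κ Y h
  have := rank_hfp (K := K) (W := Y → K)
    ((LinearMap.pi fun y : Y => (MvPolynomial.aeval (R := K) y.1).toLinearMap).comp
      (MvPolynomial.restrictTotalDegree σ K κ).subtype)
    ((Ideal.Quotient.mkₐ K I).toLinearMap.comp (MvPolynomial.restrictTotalDegree σ K κ).subtype)
    fun G hG => Ideal.Quotient.eq_zero_iff_mem.2
      (h G ((MvPolynomial.mem_restrictTotalDegree _ _ _).1 G.2) fun y hy =>
        congrFun (LinearMap.mem_ker.1 hG) ⟨y, hy⟩)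
  rw [LinearMap.range_comp, Submodule.range_subtype, Module.finrank_fintype_fun_eq_card,
    Fintype.card_coe] at this
  exact this

end Pool.Agent.P.MP_ab0431_ag.UB

namespace Pool.Agent.P.MP_ab0431_ag.UB

open Polynomial Set Filter Topology

theorem p_HCOVS :
    S_HCOVS := by
  intro X Y _ _ _ E b χ x₀ U hU hc hE
  let f : {q // E q} → X := fun e => e.1.1
  have hf : Continuous f := continuous_fst.comp continuous_subtype_val
  let V := interior U
  have hV : V ⊆ U := interior_subset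
  have hex : ∀ e : f ⁻¹' V, ∃ j, e.1.1.2 = χ j e.1.1.1 := fun e =>
    ((hE _ (hV e.2)).2 _).1 e.1.2
  choose idx hidx using hex
  have huq : ∀ (e : f ⁻¹' V) j, idx e = j ↔ e.1.1.2 = χ j e.1.1.1 := fun e j =>
    ⟨fun h => h ▸ hidx e, fun h => (hE _ (hV e.2)).1 ((hidx e).symm.trans h)⟩
  have hχ : ∀ j, Continuous fun x : V => χ j x := fun j => ((hc j).mono hV).domRestrict
  have h1 : Continuous fun e : f ⁻¹' V => (⟨e.1.1.1, e.2⟩ : V) :=
    (hf.comp continuous_subtype_val).subtype_mk _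
  have hi : Continuous idx := by
    rw [continuous_iff_isClosed]
    intro s _
    have : idx ⁻¹' s = ⋃ j ∈ s, {e | e.1.1.2 = χ j e.1.1.1} := by
      ext e; simp [← huq]
    rw [this]
    exact (toFinite s).isClosed_biUnion fun j _ => isClosed_eq
      (continuous_snd.comp (continuous_subtype_val.comp continuous_subtype_val)) ((hχ j).comp h1)
  refine ⟨inferInstance, V, mem_interior_iff_mem_nhds.2 hU, isOpen_interior,
    isOpen_interior.preimage hf,
    { toFun := fun e => (⟨e.1.1.1, e.2⟩, idx e)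
      invFun := fun p => ⟨⟨(p.1.1, χ p.2 p.1.1), ((hE _ (hV p.1.2)).2 _).2 ⟨p.2, rfl⟩⟩, p.1.2⟩
      left_inv := fun e => Subtype.ext (Subtype.ext (Prod.ext rfl (hidx e).symm))
      right_inv := fun p => Prod.ext rfl ((huq _ _).2 rfl)
      continuous_toFun := h1.prodMk hi
      continuous_invFun := ?_ }, fun _ => rfl⟩
  refine Continuous.subtype_mk (Continuous.subtype_mk ?_ _) _
  refine (continuous_subtype_val.comp continuous_fst).prodMk ?_
  exact continuous_prod_of_discrete_right.2 fun j => hχ j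

end Pool.Agent.P.MP_ab0431_ag.UB

namespace Pool.Agent.P.MP_ab0431_ag.UB

open Polynomial Set Filter Topology

theorem p_HCOV (hHCOVS : S_HCOVS) (hPTS : S_PTS) (hCHP : S_CHP) :
    S_HCOV := by
  intro b D x hx
  obtain ⟨χ, ha, hχ⟩ := (hPTS b D x).1 hx
  have h : IsEvenlyCovered D.pr x (Fin b) := hHCOVS ℂ (Fin b → ℂ)
    (fun q => (D.fib q.1).IsPt q.2) b χ x _
    (hχ.and (eventually_all.2 fun j => (ha j).eventually_analyticAt))
    (fun j y hy => (hy.2 j).continuousAt.continuousWithinAt) fun y hy =>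
      ⟨fun i j e => by_contra fun hne => hy.1.2 (Matrix.det_zero_of_row_eq hne e), fun z =>
        ⟨(hCHP ℂ b (D.fib y) (fun j => χ j y) hy.1.1).2.2 (isUnit_iff_ne_zero.2 hy.1.2)
          inferInstance z, fun ⟨j, e⟩ => e ▸ hy.1.1 j⟩⟩
  refine ⟨h.to_isEvenlyCovered_preimage, ?_⟩
  rw [Set.encard, ← ENat.card_congr h.fiberHomeomorph.toEquiv]
  simp

end Pool.Agent.P.MP_ab0431_ag.UB

namespace Pool.Agent.P.MP_ab0431_ag.UB

open Polynomial Set Filter Topology

theorem count_hsec (F : ℂ[X]) (hF : F ≠ 0) (Z : Finset ℂ) (hZ : ∀ z ∈ Z, F.IsRoot z)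
    (hb : F.natDegree ≤ Z.card + 1) :
    F.natDegree - 2 ≤ (Z.filter fun z => ¬F.derivative.IsRoot z).card := by
  have h1 : ∑ z ∈ Z, F.rootMultiplicity z ≤ F.natDegree := by
    refine le_trans ?_ (card_roots' F)
    rw [← Multiset.toFinset_sum_count_eq]
    simp only [count_roots]
    exact Finset.sum_le_sum_of_subset fun z hz =>
      Multiset.mem_toFinset.2 ((mem_roots hF).2 (hZ z hz))
  have h2 : ∑ z ∈ Z, (1 + if F.derivative.IsRoot z then 1 else 0) ≤
      ∑ z ∈ Z, F.rootMultiplicity z := by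
    refine Finset.sum_le_sum fun z hz => ?_
    split_ifs with h
    · exact (one_lt_rootMultiplicity_iff_isRoot hF).2 ⟨hZ z hz, h⟩
    · exact (rootMultiplicity_pos hF).2 (hZ z hz)
  rw [Finset.sum_add_distrib, ← Finset.card_filter, Finset.sum_const, smul_eq_mul, mul_one] at h2
  have h3 := Finset.card_filter_add_card_filter_not (s := Z) fun z => F.derivative.IsRoot z
  omega

theorem p_HSEC (hSPLIT1 : S_SPLIT1) (hPTS : S_PTS) :
    S_HSEC := by
  intro b D x₀ hP
  classical
  have h0 : ¬(X - C x₀) ^ 2 ∣ D.P := fun h =>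
    not_isUnit_X_sub_C x₀ (hP.squarefree _ (by rwa [← sq]))
  obtain ⟨s, Z, hN, hb, hZ⟩ := hSPLIT1 ℂ b D x₀ h0
  have hd := (D.fib x₀).ch_natDegree s
  have hc := count_hsec _ ((D.fib x₀).ch_monic s).ne_zero Z hZ (by rwa [hd])
  rw [hd] at hc
  obtain ⟨z, hz⟩ := Function.Embedding.exists_of_card_le_finset
    (α := Fin (b - 2)) (s := Z.filter fun z => ¬((D.fib x₀).ch s).derivative.IsRoot z)
    (by rwa [Fintype.card_fin])
  have hz' : ∀ l, z l ∈ Z ∧ ¬((D.fib x₀).ch s).derivative.IsRoot (z l) := fun l =>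
    Finset.mem_filter.1 (Finset.mem_coe.1 (hz ⟨l, rfl⟩))
  choose χ h1 h2 h3 using fun l => (hPTS b D x₀).2 s (z l) hN (hZ _ (hz' l).1) (hz' l).2
  have hne : ∀ l l', l ≠ l' → ∀ᶠ x in 𝓝 x₀, χ l x ≠ χ l' x := fun l l' h =>
    ((h1 l).continuousAt.ne_iff_eventually_ne (h1 l').continuousAt).1 fun e =>
      h (z.injective (by rw [← h2 l, ← h2 l', e]))
  have hev : ∀ᶠ x in 𝓝 x₀, (∀ l, AnalyticAt ℂ (χ l) x) ∧ (∀ l, (D.fib x).IsPt (χ l x)) ∧
      ∀ l l', l ≠ l' → χ l x ≠ χ l' x := by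
    refine (eventually_all.2 fun l => (h1 l).eventually_analyticAt).and
      ((eventually_all.2 h3).and (eventually_all.2 fun l => eventually_all.2 fun l' => ?_))
    by_cases h : l = l'
    · exact Eventually.of_forall fun _ h' => absurd h h'
    · exact (hne l l' h).mono fun _ a _ => a
  obtain ⟨ε, hε, hB⟩ := Metric.eventually_nhds_iff_ball.1 hev
  let σ : Fin (b - 2) → ℂ → D.E := fun l x =>
    if h : (D.fib x).IsPt (χ l x) then ⟨(x, χ l x), h⟩ else ⟨(x₀, χ l x₀), (h3 l).self_of_nhds⟩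
  have hσ : ∀ l, ∀ x ∈ Metric.ball x₀ ε, (σ l x).1 = (x, χ l x) := fun l x hx => by
    simp only [σ, dif_pos ((hB x hx).2.1 l)]
  refine ⟨σ, ε, hε, fun l => ?_, fun x hx => ⟨fun l => ?_, fun l l' h => ?_⟩⟩
  · refine (IsInducing.subtypeVal
      (t := {q : ℂ × (Fin b → ℂ) | (D.fib q.1).IsPt q.2})).continuousOn_iff.2 ?_
    refine ContinuousOn.congr (f := fun x => (x, χ l x)) ?_ fun x hx => hσ l x hx.1
    exact continuousOn_id.prodMk fun x hx => ((hB x hx.1).1 l).continuousAt.continuousWithinAt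
  · exact congrArg Prod.fst (hσ l x hx.1)
  · by_contra hl
    have e : (σ l x).1 = (σ l' x).1 := congrArg Subtype.val h
    rw [hσ l x hx.1, hσ l' x hx.1] at e
    exact (hB x hx.1).2.2 l l' hl (congrArg Prod.snd e)

end Pool.Agent.P.MP_ab0431_ag.UB

namespace Pool.Agent.P.MP_ab0431_ag.UB

open Polynomial Set Filter Topology

theorem inj_hloc {b : ℕ} {χ : Fin b → Fin b → ℂ} (h : (Matrix.of χ).det ≠ 0) :
    Function.Injective χ := fun _ _ e =>
  by_contra fun n => h (Matrix.det_zero_of_row_eq n e)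

theorem p_HLOC (hPTS : S_PTS) (hCHP : S_CHP) :
    S_HLOC := by
  classical
  intro b D D' W f x₀ hW hT hx h1 h2
  obtain ⟨χ, a1, e1⟩ := (hPTS b D x₀).1 h1
  obtain ⟨ψ, a2, e2⟩ := (hPTS b D' x₀).1 h2
  have s1 := e1.self_of_nhds
  have s2 := e2.self_of_nhds
  have eW : ∀ᶠ x in 𝓝 x₀, x ∈ W := hW.mem_nhds hx
  let e : Fin b → ℂ → D.E := fun j x =>
    if h : (D.fib x).IsPt (χ j x) then ⟨(x, χ j x), h⟩ else ⟨(x₀, χ j x₀), s1.1 j⟩
  have he : ∀ j x, (D.fib x).IsPt (χ j x) → (e j x).1 = (x, χ j x) := fun j x h => by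
    simp only [e, dif_pos h]
  have ce : ∀ j, ContinuousAt (e j) x₀ := fun j => by
    refine tendsto_subtype_rng.2 ?_
    rw [he j x₀ (s1.1 j)]
    exact (continuousAt_id.prodMk (a1 j).continuousAt).tendsto.congr'
      (e1.mono fun x h => (he j x (h.1 j)).symm)
  have hp : ∀ j x, (D.fib x).IsPt (χ j x) → D.pr (e j x) = x := fun j x h =>
    congrArg Prod.fst (he j x h)
  have hm : ∀ j, e j x₀ ∈ D.pr ⁻¹' W := fun j => by
    rw [mem_preimage, hp j x₀ (s1.1 j)]; exact hx
  have oW : IsOpen (D.pr ⁻¹' W) := hW.preimage (continuous_fst.comp continuous_subtype_val)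
  let g : Fin b → ℂ → Fin b → ℂ := fun j x => (f (e j x)).1.2
  have cg : ∀ j, ContinuousAt (g j) x₀ := fun j =>
    (continuous_snd.comp continuous_subtype_val).continuousAt.comp
      ((hT.1.continuousAt (oW.mem_nhds (hm j))).comp (ce j))
  have hf : ∀ j x, (D.fib x).IsPt (χ j x) → x ∈ W → (f (e j x)).1.1 = x := fun j x h hw =>
    (hT.2.1 _ (by rw [hp j x h]; exact hw)).trans (hp j x h)
  have hg : ∀ᶠ x in 𝓝 x₀, ∀ j, ∃ l, g j x = ψ l x := by
    filter_upwards [e1, e2, eW] with x u1 u2 hw j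
    have := (f (e j x)).2
    rw [hf j x (u1.1 j) hw] at this
    exact (hCHP ℂ b (D'.fib x) (fun l => ψ l x) u2.1).2.2 (isUnit_iff_ne_zero.2 u2.2)
      inferInstance _ this
  choose σ hσ using hg.self_of_nhds
  have iσ : Function.Injective σ := fun i j h => by
    have a : f (e i x₀) = f (e j x₀) := Subtype.ext (Prod.ext
      ((hf i x₀ (s1.1 i) hx).trans (hf j x₀ (s1.1 j) hx).symm)
      ((hσ i).trans ((congrArg (fun l => ψ l x₀) h).trans (hσ j).symm)))
    have c := congrArg (fun q : D.E => q.1.2) (hT.2.2.injOn (hm i) (hm j) a)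
    simp only [he i x₀ (s1.1 i), he j x₀ (s1.1 j)] at c
    exact inj_hloc s1.2 c
  let τ : Equiv.Perm (Fin b) := Equiv.ofBijective σ (Finite.injective_iff_bijective.1 iσ)
  have hne : ∀ᶠ x in 𝓝 x₀, ∀ j l, l ≠ σ j → g j x ≠ ψ l x := by
    refine eventually_all.2 fun j => eventually_all.2 fun l => ?_
    by_cases h : l = σ j
    · exact Eventually.of_forall fun _ n => absurd h n
    · have : g j x₀ - ψ l x₀ ≠ 0 := fun z =>
        h (inj_hloc s2.2 ((sub_eq_zero.1 z).symm.trans (hσ j)))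
      exact (((cg j).sub (a2 l).continuousAt).eventually_ne this).mono
        fun x u _ z => u (sub_eq_zero.2 z)
  refine ⟨χ, fun j => ψ (σ j), ⟨a1, e1⟩, ⟨fun j => a2 _, e2.mono fun x u =>
    ⟨fun j => u.1 _, ?_⟩⟩, ?_⟩
  · have := Matrix.det_permute τ (Matrix.of fun j => ψ j x)
    refine fun z => u.2 ?_
    have z' : ((Matrix.of fun j => ψ j x).submatrix τ id).det = 0 := z
    rw [this] at z'
    exact (mul_eq_zero.1 z').resolve_left (Int.cast_ne_zero.2 (Units.ne_zero _))
  · filter_upwards [e1, eW, hg, hne] with x u1 hw u2 u3 j q hq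
    obtain rfl : q = e j x := Subtype.ext (hq.trans (he j x (u1.1 j)).symm)
    obtain ⟨l, hl⟩ := u2 j
    obtain rfl : l = σ j := by_contra fun n => u3 j l n hl
    exact Prod.ext (hf j x (u1.1 j) hw) hl

end Pool.Agent.P.MP_ab0431_ag.UB

namespace Pool.Agent.P.MP_ab0431_ag.UB

open Polynomial Set Filter Topology

theorem p_HINC (hPINT : S_PINT) (hMAXS : S_MAXS) (hCHP : S_CHP) (hTUP : S_TUP) (hLV : S_LV) :
    S_HINC := by
  intro b m D D' Z F hP hZ h c hc
  obtain ⟨o', ho', hc⟩ := hc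
  have key : ∃ o : D.A, D.ch o = D'.ch o' := by
    refine hPINT b D Z (D'.ch o') (fun x χ => ∑ i, (o' i).eval x * F x χ i)
      (hMAXS ℂ b D hP) hZ fun x₀ hx => ?_
    obtain ⟨χ, χ', h1, h2, h3⟩ := h x₀ hx
    refine ⟨χ, fun j => ⟨h1.1 j, ?_⟩, ?_⟩
    · have : AnalyticAt ℂ (fun x => ∑ i, (o' i).eval x * χ' j x i) x₀ :=
        Finset.analyticAt_fun_sum _ fun i _ => ((o' i).differentiable.analyticAt x₀).mul
          (analyticAt_pi_iff.1 (h2.1 j) i)
      refine this.congr ?_
      filter_upwards [h3] with x hx'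
      rw [hx' j]
    · filter_upwards [h1.2, h2.2, h3] with x a1 a2 a3
      refine ⟨a1.1, a1.2, (D'.toStr.ch_map (evalRingHom x) o').symm.trans
        (((hCHP ℂ b (D'.fib x) (fun j => χ' j x) a2.1).2.1 a2.2.isUnit _).1.trans ?_)⟩
      refine Finset.prod_congr rfl fun j _ => ?_
      rw [a3 j]
      simp only [Str.mapA_apply, coe_evalRingHom]
  obtain ⟨o, ho⟩ := key
  obtain ⟨Dt, -, -, -, -, h5, -⟩ := hTUP ℂ b D'
  refine ⟨o, hLV ℂ b m D o ?_, ?_⟩
  · rw [ho]; exact (h5 m o' ho').1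
  · rw [ho]; exact hc

end Pool.Agent.P.MP_ab0431_ag.UB

namespace Pool.Agent.P.MP_ab0431_ag.UB

open Polynomial Set Filter Topology

theorem p_HTI (hHLOC : S_HLOC) (hHINC : S_HINC) :
    S_HTI := by
  intro b m D D' Z f hP hP' hZ hne hf
  classical
  have loc := fun x₀ (hx : x₀ ∉ Z) =>
    hHLOC b D D' Zᶜ f x₀ hZ.isClosed.isOpen_compl hf hx (hne x₀ hx).1 (hne x₀ hx).2
  apply Subset.antisymm
  · refine hHINC b m D' D Z (fun x χ' =>
      if h : ∃ e : D.E, e.1.1 = x ∧ (f e).1 = (x, χ') then h.choose.1.2 else 0) hP' hZ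
      fun x₀ hx => ?_
    obtain ⟨χ, χ', s, s', h⟩ := loc x₀ hx
    refine ⟨χ', χ, s', s, ?_⟩
    filter_upwards [h, s.2, hZ.isClosed.isOpen_compl.mem_nhds hx] with x h1 h2 h3 j
    have ex : ∃ e : D.E, e.1.1 = x ∧ (f e).1 = (x, χ' j x) :=
      ⟨⟨(x, χ j x), h2.1 j⟩, rfl, h1 j _ rfl⟩
    have h4 : ex.choose ∈ D.pr ⁻¹' Zᶜ := by
      change ex.choose.1.1 ∈ Zᶜ
      rw [ex.choose_spec.1]
      exact h3
    have h5 : ex.choose = ⟨(x, χ j x), h2.1 j⟩ :=
      hf.2.2.injOn h4 h3 (Subtype.ext (ex.choose_spec.2.trans (h1 j _ rfl).symm))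
    rw [dif_pos ex, h5]
  · refine hHINC b m D D' Z (fun x χ =>
      if h : (D.fib x).IsPt χ then (f ⟨(x, χ), h⟩).1.2 else 0) hP hZ fun x₀ hx => ?_
    obtain ⟨χ, χ', s, s', h⟩ := loc x₀ hx
    refine ⟨χ, χ', s, s', ?_⟩
    filter_upwards [h, s.2] with x h1 h2 j
    rw [dif_pos (h2.1 j), h1 j _ rfl]

end Pool.Agent.P.MP_ab0431_ag.UB

namespace Pool.Agent.P.MP_ab0431_ag.UB

open Polynomial Set Filter Topology

theorem p_HUR (hSLIT : S_SLIT) (hHCOV : S_HCOV) (hHSEC : S_HSEC) (hHTI : S_HTI) :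
    S_HUR := by
  classical
  intro b m P hP
  by_contra h
  obtain ⟨t, t1, t2⟩ := Set.exists_subset_encard_eq (Order.add_one_le_of_lt (not_le.1 h))
  have hf : t.Finite := finite_of_encard_eq_coe (k := (b ^ 2 + 1) ^ P.natDegree + 1)
    (by rw [t2]; norm_cast)
  have := hf.to_subtype
  have e : Nat.card t = (b ^ 2 + 1) ^ P.natDegree + 1 := by
    rw [Nat.card_coe_set_eq, Set.ncard_def, t2]; rfl
  choose D d1 d2 using fun i : Fin (Nat.card t) => t1 ((Finite.equivFin t).symm i).2
  have hz : ∀ i, ∀ x ∉ P.roots.toFinset, (D i).P.eval x ≠ 0 := fun i x hx k =>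
    hx (Multiset.mem_toFinset.2 ((mem_roots hP.ne_zero).2 (d1 i ▸ k)))
  obtain ⟨i, j, hij, f, hT⟩ := hSLIT P.roots.toFinset b _ (fun i => (D i).E) (fun i => (D i).pr)
    (by rw [e, Multiset.toFinset_card_of_nodup (nodup_roots hP),
      ← (IsAlgClosed.splits P).natDegree_eq_card_roots]; omega)
    (fun i x hx => (hHCOV b _ x (hz i x hx)).1) (fun i x hx => (hHCOV b _ x (hz i x hx)).2)
    fun i x _ => hHSEC b _ x (d1 i ▸ hP)
  exact hij ((Finite.equivFin t).symm.injective (Subtype.ext ((d2 i).trans ((hHTI b m _ _ _ f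
    (d1 i ▸ hP) (d1 j ▸ hP) (Finset.finite_toSet _) (fun x hx => ⟨hz i x hx, hz j x hx⟩) hT).trans
      (d2 j).symm))))

end Pool.Agent.P.MP_ab0431_ag.UB

namespace Pool.Agent.P.MP_ab0431_ag.UB

open Polynomial Set Filter Topology

theorem one_hpt (hJC : S_JC) (hPHI : S_PHI) {b : ℕ} (m κ : ℕ) (D : Dat ℂ b)
    (ha : ∀ i, D.a i ≤ m + 1) : ∃ Y : Finset (Co b m → ℂ),
    Y.card ≤ (b * κ + 1) ^ (b * (m + 1) - D.P.natDegree / 2) ∧
    ∀ G : MvPolynomial (Co b m) ℂ, G.totalDegree ≤ κ → (∀ y ∈ Y, MvPolynomial.eval y G = 0) →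
      ∀ c ∈ D.Tset m, MvPolynomial.eval c G = 0 := by
  classical
  set S : Finset ℂ := (Finset.range (b * κ + 1)).image Nat.cast with hS
  have hc : S.card = b * κ + 1 := by
    rw [hS, Finset.card_image_of_injective _ Nat.cast_injective, Finset.card_range]
  refine ⟨(Fintype.piFinset fun _ : J D.a m => S).image fun l => co b m (D.ch (D.el m l)),
    Finset.card_image_le.trans_eq ?_, fun G hG hY c hc' => ?_⟩
  · have h1 := (hJC b m D.a).2.2 ha
    rw [Fintype.card_piFinset, Finset.prod_const, hc, Finset.card_univ, D.P_natDegree, Dat.w]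
    congr 1
    omega
  · obtain ⟨h1, -, h3⟩ := hPHI ℂ b m D G
    have h0 : D.Phi m G = 0 := by
      refine MvPolynomial.eq_zero_of_eval_zero_at_prod_finset _ (fun _ => S) (fun i => ?_)
        fun x hx => ?_
      · rw [hc]
        exact Nat.lt_succ_of_le ((MvPolynomial.degreeOf_le_totalDegree _ _).trans
          (h3.trans (Nat.mul_le_mul_left _ hG)))
      · rw [h1]
        exact hY _ (Finset.mem_image_of_mem _ (Fintype.mem_piFinset.2 hx))
    obtain ⟨o, ho, rfl⟩ := hc'
    rw [ho.eq_el, ← h1, h0, map_zero]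

theorem p_HPT (hHUR : S_HUR) (hJC : S_JC) (hPHI : S_PHI) :
    S_HPT := by
  classical
  intro b m κ P hP
  set TT := {T | ∃ D : Dat ℂ b, D.P = P ∧ (∀ i, D.a i ≤ m + 1) ∧ T = D.Tset m} with hTT
  have h1 : TT.encard ≤ ((b ^ 2 + 1) ^ P.natDegree : ℕ) :=
    le_trans (Set.encard_le_encard (by rintro T ⟨D, a, _, c⟩; exact ⟨D, a, c⟩)) (hHUR b m P hP)
  have hf : TT.Finite := Set.finite_of_encard_le_coe h1
  have h2 : hf.toFinset.card ≤ (b ^ 2 + 1) ^ P.natDegree := by
    rw [hf.encard_eq_coe_toFinset_card] at h1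
    exact_mod_cast h1
  have h3 : ∀ T ∈ TT, ∃ Y : Finset (Co b m → ℂ),
      Y.card ≤ (b * κ + 1) ^ (b * (m + 1) - P.natDegree / 2) ∧
      ∀ G : MvPolynomial (Co b m) ℂ, G.totalDegree ≤ κ → (∀ y ∈ Y, MvPolynomial.eval y G = 0) →
        ∀ c ∈ T, MvPolynomial.eval c G = 0 := by
    rintro T ⟨D, rfl, ha, rfl⟩
    exact one_hpt hJC hPHI m κ D ha
  choose! Y hY using h3
  refine ⟨hf.toFinset.biUnion Y, (Finset.card_biUnion_le_card_mul _ _ _ fun T hT =>
    (hY T (hf.mem_toFinset.1 hT)).1).trans (Nat.mul_le_mul_right _ h2), fun G hG h0 a ha => ?_⟩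
  intro D hD hDP c hc
  have hT : D.Tset m ∈ TT := ⟨D, hDP, hD ▸ ha, rfl⟩
  have := (hY _ hT).2 G hG (fun y hy => h0 y (Finset.mem_biUnion.2
    ⟨_, hf.mem_toFinset.2 hT, hy⟩)) c hc
  exact this

end Pool.Agent.P.MP_ab0431_ag.UB

namespace Pool.Agent.P.MP_ab0431_ag.UB

open Polynomial Set Filter Topology

theorem dec_desc {k K σ : Type} [Field k] [Field K] [Algebra k K] (T : (σ → k) → Prop)
    (G : MvPolynomial σ K) (c : σ → K)
    (hG : ∀ c', T c' → MvPolynomial.eval (algebraMap k K ∘ c') G = 0)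
    (h : ∀ H : MvPolynomial σ k, (∀ c', T c' → MvPolynomial.eval c' H = 0) →
      MvPolynomial.aeval c H = 0) : MvPolynomial.eval c G = 0 := by
  classical
  let β := Module.Basis.ofVectorSpace k K
  let H := fun i => ∑ d ∈ G.support, MvPolynomial.monomial d (β.repr (G.coeff d) i)
  have h1 : ∀ i, MvPolynomial.aeval c (H i) = 0 := fun i => h _ fun c' hc' => by
    have := congrArg (fun x => β.repr x i) (hG c' hc')
    rw [MvPolynomial.eval_eq] at this
    simp only [map_zero, Finsupp.zero_apply, map_sum, Finsupp.finsetSum_apply, Function.comp,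
      ← map_pow, ← map_prod, mul_comm (G.coeff _), ← Algebra.smul_def, map_smul,
      Finsupp.smul_apply, smul_eq_mul] at this
    simp only [H, map_sum, MvPolynomial.eval_monomial, Finsupp.prod, mul_comm (β.repr _ _)]
    exact this
  let s := G.support.biUnion fun d => (β.repr (G.coeff d)).support
  have h2 : ∀ d ∈ G.support, G.coeff d = ∑ i ∈ s, β.repr (G.coeff d) i • β i := fun d hd => by
    conv_lhs => rw [← β.linearCombination_repr (G.coeff d), Finsupp.linearCombination_apply]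
    exact Finsupp.sum_of_support_subset _ (Finset.subset_biUnion_of_mem
      (fun d => (β.repr (G.coeff d)).support) hd) _ fun i _ => zero_smul _ _
  have h3 : MvPolynomial.eval c G = ∑ i ∈ s, β i * MvPolynomial.aeval c (H i) := by
    rw [MvPolynomial.eval_eq]
    simp only [H, map_sum, MvPolynomial.aeval_monomial, Finset.mul_sum, Finsupp.prod]
    rw [Finset.sum_comm]
    refine Finset.sum_congr rfl fun d hd => ?_
    conv_lhs => rw [h2 d hd, Finset.sum_mul]
    exact Finset.sum_congr rfl fun i _ => by rw [Algebra.smul_def]; ring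
  rw [h3]
  exact Finset.sum_eq_zero fun i _ => by rw [h1, mul_zero]

theorem pt_desc (k R : Type) [Field k] [IsAlgClosed k] [CommRing R] [Nontrivial R] [Algebra k R]
    [Algebra.FiniteType k R] : Nonempty (R →ₐ[k] k) := by
  obtain ⟨M, hM⟩ := Ideal.exists_maximal R
  let := Ideal.Quotient.field M
  have := finite_of_finite_type_of_isJacobsonRing k (R ⧸ M)
  exact ⟨(IsAlgClosed.lift : (R ⧸ M) →ₐ[k] k).comp (Ideal.Quotient.mkₐ k M)⟩

theorem sub_desc (k : Type) {K ι : Type} [Field k] [Field K] [Algebra k K] [Finite ι]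
    (p : ι → K[X]) : ∃ R : Subalgebra k K, Algebra.FiniteType k R ∧ ∀ i n, (p i).coeff n ∈ R :=
  ⟨Algebra.adjoin k (⋃ i, range (p i).coeff),
    .adjoin_of_finite (finite_iUnion fun _ => finite_range_coeff _),
    fun i n => Algebra.subset_adjoin (mem_iUnion.2 ⟨i, n, rfl⟩)⟩

theorem p_DESC (hLIFTD : S_LIFTD) :
    S_DESC := by
  intro k K _ _ _ _ b m a P G hG D ha hP c hc
  refine dec_desc (fun c' => ∃ D : Dat k b, D.a = a ∧ D.P = P ∧ c' ∈ D.Tset m) G c
    (fun c' ⟨D', h1, h2, h3⟩ => hG D' h1 h2 c' h3) fun H hH => ?_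
  by_contra hn
  obtain ⟨o, ho, rfl⟩ := hc
  obtain ⟨R, _, hR⟩ := sub_desc k (ι := (Fin b × Fin b × Fin b) ⊕ Fin b ⊕ Fin b ⊕ Fin 3)
    (Sum.elim (fun q => D.γ q.1 q.2.1 q.2.2) (Sum.elim D.u (Sum.elim (fun i => o i) fun j =>
      C (![(D.c : K), ((D.c⁻¹ : Kˣ) : K), (MvPolynomial.aeval (co b m (D.ch o)) H)⁻¹] j))))
  have hC := fun j => (coeff_C_zero (R := K)) ▸ (show (C _).coeff 0 ∈ R from
    hR (.inr (.inr (.inr j))) 0)
  have hv : (MvPolynomial.aeval (co b m (D.ch o)) H)⁻¹ ∈ R := hC 2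
  have hr : ∀ x ∈ R, x ∈ (R.val : R →+* K).range := fun x hx => ⟨⟨x, hx⟩, rfl⟩
  have hi : Function.Injective (R.val : R →+* K) := Subtype.val_injective
  obtain ⟨φ⟩ := pt_desc k R
  obtain ⟨D0, rfl⟩ := hLIFTD R K (R.val : R →+* K) b D hi
    (fun i j l n => hr _ (hR (.inl (i, j, l)) n)) (fun i n => hr _ (hR (.inr (.inl i)) n))
    (fun n => hr _ (by rw [hP, coeff_map]; exact R.algebraMap_mem _))
    (hr _ (hC 0)) (hr _ (hC 1))
  choose o0 ho0 using fun i => (mem_lifts (o i)).1 ((lifts_iff_coeff_lifts (f := (R.val : R →+* K))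
    (o i)).2 fun n => hr _ (hR (.inr (.inr (.inl i))) n))
  have hd : D0.Deg m o0 := fun i n h => hi (by rw [← coeff_map, ho0, map_zero]; exact ho i n h)
  have e : co b m ((D0.map (R.val : R →+* K)).ch o) = fun q => R.val (co b m (D0.ch o0) q) := by
    have := D0.toStr.ch_map (mapRingHom (R.val : R →+* K)) o0
    rw [show D0.toStr.mapA (mapRingHom (R.val : R →+* K)) o0 = o from funext ho0] at this
    funext q
    change co b m ((D0.toStr.map (mapRingHom (R.val : R →+* K))).ch o) q = _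
    rw [this]; simp [co]
  have eP : D0.P = P.map (algebraMap k R) := map_injective _ hi (by
    rw [Polynomial.map_map]; exact hP)
  have h0 := hH _ ⟨D0.map (φ : R →+* k), ha, by
    change D0.P.map _ = P
    rw [eP, Polynomial.map_map, φ.comp_algebraMap, Algebra.algebraMap_self, Polynomial.map_id],
    D0.Tset_map (φ : R →+* k) ⟨o0, hd, rfl⟩⟩
  rw [e, ← MvPolynomial.comp_aeval_apply] at hn hv
  have h1 : MvPolynomial.aeval (co b m (D0.ch o0)) H * ⟨_, hv⟩ = 1 :=
    Subtype.ext (mul_inv_cancel₀ hn)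
  have h2 := congrArg φ h1
  rw [map_mul, map_one, MvPolynomial.comp_aeval_apply] at h2
  rw [← MvPolynomial.coe_aeval_eq_eval] at h0
  exact zero_ne_one (((congrArg (· * _) h0).trans (zero_mul _)).symm.trans h2)

end Pool.Agent.P.MP_ab0431_ag.UB

namespace Pool.Agent.P.MP_ab0431_ag.UB

open Polynomial Set Filter Topology

theorem gen_hprim (R F L : Type) [CommRing R] [IsDomain R] [Field F] [Algebra R F]
    [IsFractionRing R F] [Field L] [Algebra R L] [Algebra F L] [IsScalarTower R F L] [CharZero F]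
    [Algebra.IsAlgebraic F L] (T : Set L) (hT : T.Finite) :
    ∃ (y : L) (W : R), W ≠ 0 ∧ IsIntegral R y ∧ ∀ x ∈ T, ∃ p : R[X],
      p.degree < (minpoly F y).natDegree ∧ algebraMap R L W * x = aeval y p := by
  classical
  have : Finite T := hT
  have hfd : FiniteDimensional F (IntermediateField.adjoin F T) :=
    IntermediateField.finiteDimensional_adjoin fun x _ => Algebra.IsIntegral.isIntegral x
  obtain ⟨α, hα⟩ := Field.exists_primitive_element F (IntermediateField.adjoin F T)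
  have h0 : IntermediateField.adjoin F {(α : L)} = IntermediateField.adjoin F T := by
    rw [← IntermediateField.lift_adjoin_simple, hα, IntermediateField.lift_top]
  have hal : IsAlgebraic R (α : L) :=
    (IsFractionRing.isAlgebraic_iff R F L).2 (Algebra.IsAlgebraic.isAlgebraic _)
  obtain ⟨d, hd, hint⟩ := hal.exists_integral_multiple
  set y : L := d • (α : L) with hy
  have hyF : IsIntegral F y := Algebra.IsIntegral.isIntegral y
  have hdF : algebraMap R F d ≠ 0 := fun h => hd (IsFractionRing.injective R F (by simpa using h))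
  have h1 : IntermediateField.adjoin F T ≤ IntermediateField.adjoin F {y} := by
    rw [← h0, IntermediateField.adjoin_simple_le_iff]
    have : (α : L) = (algebraMap R F d)⁻¹ • y := by
      rw [hy, ← IsScalarTower.algebraMap_smul F d, smul_smul, inv_mul_cancel₀ hdF, one_smul]
    rw [this]
    exact IntermediateField.smul_mem _ (IntermediateField.mem_adjoin_simple_self F y)
  have h2 : ∀ x ∈ T, ∃ w : R, w ≠ 0 ∧ ∃ p : R[X],
      p.degree < (minpoly F y).natDegree ∧ algebraMap R L w * x = aeval y p := by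
    intro x hx
    have hx' : x ∈ (IntermediateField.adjoin F {y}).toSubalgebra :=
      h1 (IntermediateField.subset_adjoin F T hx)
    rw [IntermediateField.adjoin_simple_toSubalgebra_of_isAlgebraic hyF.isAlgebraic,
      Algebra.adjoin_singleton_eq_range_aeval] at hx'
    obtain ⟨q, hq⟩ := hx'
    have hq' : aeval y (q %ₘ minpoly F y) = x := by
      rw [minpoly.aeval_modByMonic_minpoly]; exact hq
    have hdeg : (q %ₘ minpoly F y).degree < (minpoly F y).natDegree := by
      rw [← degree_eq_natDegree (minpoly.ne_zero hyF)]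
      exact degree_modByMonic_lt _ (minpoly.monic hyF)
    obtain ⟨w, hw, hsp⟩ :=
      IsLocalization.integerNormalization_spec (nonZeroDivisors R) (q %ₘ minpoly F y)
    refine ⟨w, nonZeroDivisors.ne_zero hw, IsLocalization.integerNormalization (nonZeroDivisors R)
      (q %ₘ minpoly F y), ?_, ?_⟩
    · rw [← degree_map_eq_of_injective (IsFractionRing.injective R F), hsp]
      exact (degree_smul_le _ _).trans_lt hdeg
    · rw [← aeval_map_algebraMap F, hsp, ← IsScalarTower.algebraMap_smul F w, map_smul, hq',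
        IsScalarTower.algebraMap_smul, Algebra.smul_def]
  choose! w hw p hp using h2
  refine ⟨y, ∏ x ∈ hT.toFinset, w x,
    Finset.prod_ne_zero_iff.2 fun x hx => hw x (hT.mem_toFinset.1 hx), hint, fun x hx => ?_⟩
  refine ⟨C (∏ x' ∈ hT.toFinset.erase x, w x') * p x, ?_, ?_⟩
  · rw [← smul_eq_C_mul]
    exact (degree_smul_le _ _).trans_lt (hp x hx).1
  · rw [← Finset.prod_erase_mul _ _ (hT.mem_toFinset.2 hx), map_mul, mul_assoc, (hp x hx).2,
      map_mul, aeval_C]

theorem p_HPRIM :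
    S_HPRIM := by
  intro k L K _ _ _ _ _ _ _ τ T hτ halg hT
  classical
  have hinj : Function.Injective (aeval τ : k[X] →ₐ[k] L).toRingHom :=
    transcendental_iff_injective.1 hτ
  let a1 : Algebra k[X] L := (aeval τ : k[X] →ₐ[k] L).toRingHom.toAlgebra
  let a2 : Algebra (FractionRing k[X]) L := (IsFractionRing.lift hinj).toAlgebra
  have : IsScalarTower k[X] (FractionRing k[X]) L :=
    .of_algebraMap_eq fun x => (IsFractionRing.lift_algebraMap hinj x).symm
  have : Algebra.IsAlgebraic (FractionRing k[X]) L :=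
    ⟨fun x => (IsFractionRing.isAlgebraic_iff k[X] _ L).1 (halg x)⟩
  obtain ⟨y, W, hW, ⟨f, hf1, hf2⟩, hrep⟩ := gen_hprim k[X] (FractionRing k[X]) L T hT
  refine ⟨y, _, W, f, hW, hf1, hf2, hrep, fun s hs => ?_⟩
  have hinj' : Function.Injective (aeval s : k[X] →ₐ[k] K).toRingHom :=
    transcendental_iff_injective.1 hs
  let a3 : Algebra (FractionRing k[X]) K := (IsFractionRing.lift hinj').toAlgebra
  refine ⟨((minpoly (FractionRing k[X]) y).rootSet K).toFinset, ?_, fun z hz => ?_⟩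
  · rw [Set.toFinset_card, card_rootSet_eq_natDegree
      (Algebra.IsSeparable.isSeparable (FractionRing k[X]) y) (IsAlgClosed.splits _)]
  · rw [Set.mem_toFinset, ← Algebra.IsAlgebraic.range_eval_eq_rootSet_minpoly] at hz
    obtain ⟨ψ, hψ⟩ := hz
    have key : ∀ q : k[X], ψ (aeval τ q) = aeval s q := fun q => by
      have h1 := ψ.commutes (algebraMap k[X] _ q)
      have h2 : algebraMap (FractionRing k[X]) L (algebraMap k[X] _ q) = aeval τ q :=
        IsFractionRing.lift_algebraMap hinj q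
      have h3 : algebraMap (FractionRing k[X]) K (algebraMap k[X] _ q) = aeval s q :=
        IsFractionRing.lift_algebraMap hinj' q
      rw [← h2, h1, h3]
    refine ⟨⟨ψ.toRingHom, fun r => ?_⟩, ?_, hψ⟩
    · simpa using key (C r)
    · simpa using key X

end Pool.Agent.P.MP_ab0431_ag.UB

namespace Pool.Agent.P.MP_ab0431_ag.UB

open Polynomial Set Filter Topology

theorem int_hdivm {k K : Type} [Field k] [Field K] [Algebra k K] {t z : K}
    (hz : IsIntegral (Algebra.adjoin k {t}) z) (Q : k[X][X]) :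
    IsIntegral (Algebra.adjoin k {t}) (Q.eval₂ (aeval t : k[X] →ₐ[k] K).toRingHom z) := by
  rw [eval₂_eq_sum_range]
  exact IsIntegral.sum _ fun i _ => (isIntegral_algebraMap
    (x := (⟨_, aeval_mem_adjoin_singleton k t⟩ : Algebra.adjoin k {t}))).mul (hz.pow i)

theorem p_HDIVM (hHPRIM : S_HPRIM) :
    S_HDIVM := by
  intro k k' L K _ _ _ _ _ _ _ _ _ _ _ ρ τ T hτ ha hT
  obtain ⟨y, n, W, f, W0, fm, fy, hp, hs⟩ := hHPRIM k L K τ T hτ ha hT
  have key : ∀ (σ : L →ₐ[k] K) (p : k[X][X]), σ (p.eval₂ (aeval τ : k[X] →ₐ[k] L).toRingHom y) =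
      (p.map (mapRingHom (algebraMap k k'))).eval₂ (aeval (σ τ) : k'[X] →ₐ[k'] K).toRingHom (σ y) :=
    fun σ p => by
      rw [eval₂_map]
      refine (hom_eval₂ p _ (σ : L →+* K) y).trans (congrArg (eval₂ · (σ y) p) ?_)
      exact RingHom.ext fun q => by simp [aeval_map_algebraMap, aeval_algHom_apply]
  have kW : ∀ σ : L →ₐ[k] K, aeval (σ τ) (W.map (algebraMap k k')) = σ (aeval τ W) := fun σ => by
    rw [aeval_map_algebraMap, aeval_algHom_apply]
  have W1 : ρ (aeval τ W) ≠ 0 := (map_ne_zero ρ).2 fun e => hτ ⟨W, W0, e⟩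
  have iy : IsIntegral (Algebra.adjoin k' {ρ τ}) (ρ y) := by
    let φ : k'[X] →+* Algebra.adjoin k' {ρ τ} := (aeval (ρ τ) : k'[X] →ₐ[k'] K).toRingHom.codRestrict
      _ fun q => aeval_mem_adjoin_singleton k' (ρ τ)
    refine ⟨(f.map (mapRingHom (algebraMap k k'))).map φ, (fm.map _).map φ, ?_⟩
    rw [eval₂_map]
    exact (key ρ f).symm.trans (by rw [fy, map_zero])
  refine ⟨W, W0, fun x hx => ⟨1, ?_⟩, fun s ts ι A x β hx h0 => ?_⟩
  · obtain ⟨p, -, e⟩ := hp x hx
    rw [pow_one, kW, ← map_mul, e, key]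
    exact int_hdivm iy _
  choose! p p1 p2 using hp
  set Q : k'[X][X] := ∑ i ∈ A, C (C (β i)) * (p (x i)).map (mapRingHom (algebraMap k k')) with hQ
  have e : ∀ σ : L →ₐ[k] K, Q.eval₂ (aeval (σ τ) : k'[X] →ₐ[k'] K).toRingHom (σ y) =
      σ (aeval τ W) * ∑ i ∈ A, algebraMap k' K (β i) * σ (x i) := fun σ => by
    rw [hQ, eval₂_finsetSum, Finset.mul_sum]
    refine Finset.sum_congr rfl fun i hi => ?_
    rw [eval₂_mul, eval₂_C, ← key, ← p2 _ (hx i hi), map_mul, mul_left_comm]
    simp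
  have d : Q.degree < n := (degree_sum_le _ _).trans_lt ((Finset.sup_lt_iff (WithBot.bot_lt_coe n)).2
    fun i hi => by
      rw [← smul_eq_C_mul]
      exact ((degree_smul_le _ _).trans degree_map_le).trans_lt (p1 _ (hx i hi)))
  obtain ⟨Y, y1, y2⟩ := hs (algebraMap k' K s) ((transcendental_algebraMap_iff
    (algebraMap k' K).injective).2 ts)
  have z : Q.map (aeval (algebraMap k' K s) : k'[X] →ₐ[k'] K).toRingHom = 0 :=
    eq_zero_of_degree_lt_of_eval_finset_eq_zero Y
      ((degree_map_le.trans_lt d).trans_le (by exact_mod_cast y1)) fun z hz => by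
        obtain ⟨σ, a, rfl⟩ := y2 z hz
        rw [eval_map, ← a, e, h0 σ a, mul_zero]
  obtain ⟨Q', hQ'⟩ : C (X - C s) ∣ Q := (C_dvd_iff_dvd_coeff _ _).2 fun l => dvd_iff_isRoot.2 (by
    simpa [aeval_algebraMap_apply] using congrArg (coeff · l) z)
  refine ⟨Q'.eval₂ (aeval (ρ τ) : k'[X] →ₐ[k'] K).toRingHom (ρ y) / ρ (aeval τ W), ⟨1, ?_⟩, ?_⟩
  · rw [pow_one, kW, mul_div_cancel₀ _ W1]
    exact int_hdivm iy _
  · rw [← mul_div_assoc, eq_div_iff W1, mul_comm, ← e, hQ', eval₂_mul, eval₂_C]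
    simp

end Pool.Agent.P.MP_ab0431_ag.UB

namespace Pool.Agent.P.MP_ab0431_ag.UB

open Polynomial Set Filter Topology

theorem clos_hline1 (k K : Type) [Field k] [Field K] [IsAlgClosed K] [Algebra k K] (t : K) :
    ∃ L : IntermediateField k K, IsAlgClosed L ∧ ∃ τ : L, (τ : K) = t ∧ ∀ x : L,
      ∃ q : k[X][X], q ≠ 0 ∧ q.eval₂ (aeval τ : k[X] →ₐ[k] L).toRingHom x = 0 := by
  let F := IntermediateField.adjoin k {t}
  have ht : t ∈ algebraicClosure F K :=
    (algebraicClosure F K).algebraMap_mem ⟨t, IntermediateField.mem_adjoin_simple_self k t⟩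
  refine ⟨(algebraicClosure F K).restrictScalars k,
    IsAlgClosure.isAlgClosed (K := algebraicClosure F K) F, ⟨t, ht⟩, rfl, fun x => ?_⟩
  have hx : IsAlgebraic (Algebra.adjoin k {t}) (x : K) :=
    IntermediateField.isAlgebraic_adjoin_iff.1 (mem_algebraicClosure_iff.1 x.2)
  obtain ⟨q', hq0, hq⟩ := hx
  let φ : k[X] →+* Algebra.adjoin k {t} :=
    (aeval (⟨t, Algebra.self_mem_adjoin_singleton k t⟩ : Algebra.adjoin k {t})).toRingHom
  have hφ : ∀ r, (φ r : K) = aeval t r := fun r =>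
    (aeval_algHom_apply (Algebra.adjoin k {t}).val _ r).symm
  have hs : Function.Surjective φ := fun z => by
    obtain ⟨r, hr⟩ := (Algebra.adjoin_singleton_eq_range_aeval k t).le z.2
    exact ⟨r, Subtype.ext ((hφ r).trans hr)⟩
  obtain ⟨q, rfl⟩ := Polynomial.map_surjective φ hs q'
  refine ⟨q, fun h => hq0 (by rw [h, Polynomial.map_zero]), ?_⟩
  apply ((algebraicClosure F K).restrictScalars k).val.injective
  rw [map_zero, ← hq, aeval_def, eval₂_map]
  refine (hom_eval₂ q _ ((algebraicClosure F K).restrictScalars k).val.toRingHom x).trans ?_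
  congr 1
  refine RingHom.ext fun r => ?_
  exact ((aeval_algHom_apply ((algebraicClosure F K).restrictScalars k).val _ r).symm).trans
    (hφ r).symm

theorem exp_hline1 (hPHI : S_PHI) {k' L K : Type} [Field k'] [Field L] [Field K] [Algebra k' K]
    {b m : ℕ} (D : Dat L b) (G : MvPolynomial (Co b m) k') (σ : L →+* K) (α : J D.a m →₀ ℕ) :
    ((D.map σ).Phi m (MvPolynomial.map (algebraMap k' K) G)).coeff α =
      ∑ μ ∈ G.support, algebraMap k' K (G.coeff μ) *
        σ ((D.Phi m (MvPolynomial.monomial μ 1)).coeff α) := by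
  have h1 : MvPolynomial.map (algebraMap k' K) G = ∑ μ ∈ G.support,
      algebraMap k' K (G.coeff μ) • MvPolynomial.map σ (MvPolynomial.monomial μ 1) := by
    conv_lhs => rw [G.as_sum, map_sum]
    refine Finset.sum_congr rfl fun μ _ => ?_
    rw [MvPolynomial.map_monomial, MvPolynomial.map_monomial, MvPolynomial.smul_monomial, map_one,
      smul_eq_mul, mul_one]
  have h2 : (D.map σ).Phi m (MvPolynomial.map (algebraMap k' K) G) = ∑ μ ∈ G.support,
      algebraMap k' K (G.coeff μ) •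
        (D.map σ).Phi m (MvPolynomial.map σ (MvPolynomial.monomial μ 1)) := by
    rw [h1]
    simp only [Dat.Phi, map_sum, map_smul]
  rw [h2]
  refine (MvPolynomial.coeff_sum _ _ _).trans (Finset.sum_congr rfl fun μ _ => ?_)
  refine (MvPolynomial.coeff_smul _ _ _).trans ?_
  rw [smul_eq_mul, (hPHI L b m D _).2.1 K σ]
  exact congrArg _ (MvPolynomial.coeff_map σ _ α)

theorem fin_hline1 {L : Type} [Field L] (p : L[X]) : (range p.coeff).Finite :=
  (p.support.finite_toSet.image p.coeff).insert 0 |>.subset <| by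
    rintro _ ⟨n, rfl⟩
    by_cases h : p.coeff n = 0
    · exact Or.inl h
    · exact Or.inr ⟨n, mem_support_iff.2 h, rfl⟩

theorem fin2_hline1 {L σ : Type} [Field L] (p : MvPolynomial σ L) :
    (range fun α => p.coeff α).Finite :=
  (p.support.finite_toSet.image fun α => p.coeff α).insert 0 |>.subset <| by
    rintro _ ⟨n, rfl⟩
    by_cases h : p.coeff n = 0
    · exact Or.inl h
    · exact Or.inr ⟨n, MvPolynomial.mem_support_iff.2 h, rfl⟩

theorem van_hline1 (hPHI : S_PHI) {k' K : Type} [Field k'] [Field K] [Algebra k' K] [Infinite K]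
    {b m : ℕ} (D : Dat K b) (G : MvPolynomial (Co b m) k') :
    D.Phi m (MvPolynomial.map (algebraMap k' K) G) = 0 ↔
      ∀ c ∈ D.Tset m, MvPolynomial.aeval c G = 0 := by
  constructor
  · rintro h c ⟨o, ho, rfl⟩
    rw [MvPolynomial.aeval_def, ← MvPolynomial.eval_map, ho.eq_el, ← (hPHI K b m D _).1, h,
      map_zero]
  · intro h
    refine MvPolynomial.funext fun l => ?_
    rw [(hPHI K b m D _).1, MvPolynomial.eval_map, ← MvPolynomial.aeval_def, map_zero]
    exact h _ ⟨_, D.el_deg m l, rfl⟩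

theorem p_HLINE1 (hDESC : S_DESC) (hHDIVM : S_HDIVM) (hLINE0 : S_LINE0) (hPHI : S_PHI) :
    S_HLINE1 := by
  intro k k' K _ _ _ _ _ _ _ _ _ b m κ a g S t G hg hS ht hG hcard hV
  classical
  obtain ⟨L, hL, τ, rfl, halg⟩ := clos_hline1 k K t
  have hτ : Transcendental k τ :=
    (transcendental_algebraMap_iff (algebraMap L K).injective).1 (ht.restrictScalars
      (algebraMap k k').injective)
  have : CharZero k' := charZero_of_injective_algebraMap (algebraMap k k').injective
  have hP : ∀ σ : L →ₐ[k] K, (g.map (algebraMap k L) * (X - C τ)).map σ.toRingHom =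
      g.map (algebraMap k K) * (X - C (σ τ)) := fun σ => by
    rw [Polynomial.map_mul, Polynomial.map_map, Polynomial.map_sub, map_X, map_C]
    congr 2
    exact σ.comp_algebraMap
  have key : ∀ D : Dat L b, D.a = a → D.P = g.map (algebraMap k L) * (X - C τ) →
      (D.map L.val.toRingHom).Phi m (MvPolynomial.map (algebraMap k' K) G) = 0 := by
    intro D ha hD
    let T : Set L := (⋃ i, ⋃ j, ⋃ l, range (D.γ i j l).coeff) ∪ (⋃ i, range (D.u i).coeff) ∪
      {(D.c : L), ((D.c⁻¹ : Lˣ) : L)} ∪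
      ⋃ μ ∈ G.support, range fun α => (D.Phi m (MvPolynomial.monomial μ 1)).coeff α
    have hT : T.Finite :=
      (((finite_iUnion fun i => finite_iUnion fun j => finite_iUnion fun l => fin_hline1 _).union
        (finite_iUnion fun i => fin_hline1 _)).union (toFinite _)).union
        (G.support.finite_toSet.biUnion fun μ _ => fin2_hline1 _)
    obtain ⟨W, hW, hint, hdiv⟩ := hHDIVM k k' L K L.val τ T hτ halg hT
    refine hLINE0 k' K b m κ τ (W.map (algebraMap k k')) (g.map (algebraMap k k'))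
      (D.map L.val.toRingHom) G S ht (map_ne_zero hW) hg.map ?_ (fun i j l n => ?_)
      (fun i n => ?_) ?_ ?_ hG hcard fun s hs => ⟨?_, fun α => ?_⟩
    · change D.P.map L.val.toRingHom = _
      rw [hD, hP, Polynomial.map_map, ← IsScalarTower.algebraMap_eq]
      rfl
    · have := hint ((D.γ i j l).coeff n) (Or.inl (Or.inl (Or.inl
        (mem_iUnion.2 ⟨i, mem_iUnion.2 ⟨j, mem_iUnion.2 ⟨l, n, rfl⟩⟩⟩))))
      change IntOver k' _ _ (((D.γ i j l).map L.val.toRingHom).coeff n)
      rwa [coeff_map]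
    · have := hint ((D.u i).coeff n) (Or.inl (Or.inl (Or.inr (mem_iUnion.2 ⟨i, n, rfl⟩))))
      change IntOver k' _ _ (((D.u i).map L.val.toRingHom).coeff n)
      rwa [coeff_map]
    · exact hint D.c (Or.inl (Or.inr (Or.inl rfl)))
    · exact hint ((D.c⁻¹ : Lˣ) : L) (Or.inl (Or.inr (Or.inr rfl)))
    · rw [eval_map_algebraMap]
      exact fun h => hS s hs ⟨W, hW, h⟩
    · obtain ⟨ψ, h1, h2⟩ := hdiv s (hS s hs) _ G.support
        (fun μ => (D.Phi m (MvPolynomial.monomial μ 1)).coeff α) (fun μ => G.coeff μ)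
        (fun μ hμ => Or.inr (mem_biUnion hμ ⟨α, rfl⟩)) fun σ hσ => by
          have h0 := (van_hline1 hPHI (D.map σ.toRingHom) G).2 (hV s hs _ ha (by
            change D.P.map σ.toRingHom = _
            rw [hD, hP, hσ]))
          have h3 := exp_hline1 hPHI D G σ.toRingHom α
          rw [h0] at h3
          exact h3.symm.trans (MvPolynomial.coeff_zero _)
      exact ⟨ψ, h1, (exp_hline1 hPHI D G L.val.toRingHom α).trans h2⟩
  intro D ha hD c hc
  have := hDESC L K b m a (g.map (algebraMap k L) * (X - C τ))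
    (MvPolynomial.map (algebraMap k' K) G) (fun D' ha' hD' c' hc' => by
      rw [MvPolynomial.eval_map, ← MvPolynomial.aeval_def]
      exact (van_hline1 hPHI _ G).1 (key D' ha' hD') _ (D'.Tset_map _ hc')) D ha
    (hD.trans (hP L.val).symm) c hc
  rwa [MvPolynomial.eval_map, ← MvPolynomial.aeval_def] at this

end Pool.Agent.P.MP_ab0431_ag.UB

namespace Pool.Agent.P.MP_ab0431_ag.UB

open Polynomial Set Filter Topology

theorem p_HLINE2 (hHLINE1 : S_HLINE1) :
    S_HLINE2 := by
  intro k k' K _ _ _ _ _ _ _ _ _ b m κ a ι _ u S t G hu hS ht hG hc hV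
  classical
  let k2 := IntermediateField.adjoin k (range u)
  let k3 := IntermediateField.adjoin k' (range u)
  have hle : k2 ≤ k3.restrictScalars k :=
    IntermediateField.adjoin_le_iff.2 (IntermediateField.subset_adjoin k' (range u))
  let f : k2 →+* k3 :=
    { toFun := fun x => ⟨x.1, hle x.2⟩
      map_one' := rfl
      map_mul' := fun _ _ => rfl
      map_zero' := rfl
      map_add' := fun _ _ => rfl }
  let : Algebra k2 k3 := f.toAlgebra
  have : IsScalarTower k2 k3 K := IsScalarTower.of_algebraMap_eq fun _ => rfl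
  have : CharZero k2 := algebraRat.charZero k2
  let v : ι → k2 := fun i => ⟨u i, IntermediateField.subset_adjoin k (range u) ⟨i, rfl⟩⟩
  have hv : Function.Injective v := fun i j h => hu (congrArg Subtype.val h)
  have hg : (∏ i, (X - C (v i)) : k2[X]).map (algebraMap k2 K) = ∏ i, (X - C (u i)) := by
    rw [Polynomial.map_prod]
    exact Finset.prod_congr rfl fun i _ => by rw [Polynomial.map_sub, map_X, map_C]; rfl
  have hVan : ∀ P : K[X], Van a (MvPolynomial.map (algebraMap k' k3) G) P ↔ Van a G P := by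
    intro P
    simp only [Van, MvPolynomial.aeval_map_algebraMap]
  have := hHLINE1 k2 k3 K b m κ a (∏ i, (X - C (v i)))
    (S.map ⟨algebraMap k' k3, (algebraMap k' k3).injective⟩) t
    (MvPolynomial.map (algebraMap k' k3) G) (separable_prod_X_sub_C_iff.2 hv) ?_
    (IntermediateField.transcendental_adjoin_iff.2 ht) ?_ (by rwa [Finset.card_map]) ?_
  · rwa [hg, hVan] at this
  · intro s hs
    obtain ⟨s, hs', rfl⟩ := Finset.mem_map.1 hs
    have h1 : Transcendental k2 (algebraMap k' K s) :=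
      IntermediateField.transcendental_adjoin_iff.2 (hS s hs')
    rw [IsScalarTower.algebraMap_apply k' k3 K] at h1
    exact (transcendental_algebraMap_iff (algebraMap k3 K).injective).1 h1
  · refine le_trans ?_ hG
    exact Finset.sup_mono (MvPolynomial.support_map_subset _ _)
  · intro s hs
    obtain ⟨s, hs', rfl⟩ := Finset.mem_map.1 hs
    rw [hg, hVan]
    exact hV s hs'

end Pool.Agent.P.MP_ab0431_ag.UB

namespace Pool.Agent.P.MP_ab0431_ag.UB

open Polynomial Set Filter Topology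

theorem p_HGRID (hHLINE2 : S_HLINE2) (hDESC : S_DESC) :
    S_HGRID := by
  classical
  intro k k' K _ _ _ _ _ _ _ _ _ _ b w m κ N a G s t hG hN hs ht h0
  have hz := hs.sumElim_comp ht
  obtain ⟨z, ez⟩ : ∃ z, z = Sum.elim t (algebraMap k' K ∘ s) := ⟨_, rfl⟩
  rw [← ez] at hz
  have z1 : ∀ i, z (.inl i) = t i := fun i => by rw [ez]; rfl
  have z2 : ∀ x, z (.inr x) = algebraMap k' K (s x) := fun i => by rw [ez]; rfl
  let e : Finset (Fin w) → (Fin w → Fin N) → Fin w → Fin w ⊕ Fin w × Fin N :=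
    fun A ν i => if i ∈ A then .inl i else .inr (i, ν i)
  have he : ∀ A ν i, Sum.elim id Prod.fst (e A ν i) = i := fun A ν i => by
    simp only [e]; split_ifs <;> rfl
  have key : ∀ A ν, Van a G (∏ i, (X - C (z (e A ν i)))) := fun A => by
    induction A using Finset.induction_on with
    | empty =>
      intro ν D h1 h2 c hc
      have := hDESC k' K b m a (∏ j, (X - C (s (j, ν j)))) (G.map (algebraMap k' K))
        (fun D h1 h2 c hc => by
          have := h0 ν D h1 h2 c hc
          rw [MvPolynomial.eval_map, ← MvPolynomial.aeval_def, MvPolynomial.aeval_algebraMap_apply,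
            this, map_zero]) D h1 (by rw [h2]; simp [Polynomial.map_prod, e, z2]) c hc
      rwa [MvPolynomial.eval_map] at this
    | insert j A hj ih =>
      intro ν
      have pr : ∀ B μ, (∀ i, i ≠ j → e B μ i = e A ν i) → ∏ i, (X - C (z (e B μ i))) =
          (∏ i : {i // i ≠ j}, (X - C (z (e A ν i)))) * (X - C (z (e B μ j))) := fun B μ h => by
        rw [Fintype.prod_eq_mul_prod_subtype_ne _ j, mul_comm]
        exact congrArg (· * _) (Finset.prod_congr rfl fun i _ => by rw [h i i.2])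
      rw [pr _ _ fun i hi => by simp [e, hi], show e (insert j A) ν j = .inl j by simp [e], z1]
      refine hHLINE2 k k' K b m κ a {i // i ≠ j} (fun i => z (e A ν i))
        (Finset.univ.image fun x => s (j, x)) (t j) G
        (fun i i' h => Subtype.ext ((he A ν i).symm.trans
          ((congrArg _ (hz.injective h)).trans (he A ν i')))) (fun y hy => ?_) ?_ hG ?_
        fun y hy => ?_
      · obtain ⟨x, _, rfl⟩ := Finset.mem_image.1 hy
        rw [← z2, show (range fun i : {i // i ≠ j} => z (e A ν i)) =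
          z '' range fun i : {i // i ≠ j} => e A ν i from range_comp z _]
        exact hz.transcendental_adjoin fun ⟨i, hi⟩ =>
          i.2 ((he A ν i).symm.trans (congrArg (Sum.elim id Prod.fst) hi))
      · refine (ht.transcendental_adjoin (s := {i | i ≠ j}) (i := j)
          fun h => h rfl).of_tower_top_of_subalgebra_le (Algebra.adjoin_le ?_)
        rintro _ ⟨i, rfl⟩
        simp only [e]
        split_ifs
        · rw [z1]; exact Algebra.subset_adjoin ⟨i, i.2, rfl⟩
        · rw [z2]; exact Subalgebra.algebraMap_mem _ _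
      · rwa [Finset.card_image_of_injective _
          fun x y h => (Prod.ext_iff.1 (hs.injective h)).2, Finset.card_univ, Fintype.card_fin]
      · obtain ⟨x, _, rfl⟩ := Finset.mem_image.1 hy
        have := ih (Function.update ν j x)
        rwa [pr _ _ fun i hi => by simp [e, hi],
          show e A (Function.update ν j x) j = .inr (j, x) by simp [e, hj], z2] at this
  simpa [e, z1] using key Finset.univ fun _ => ⟨0, by omega⟩

end Pool.Agent.P.MP_ab0431_ag.UB

namespace Pool.Agent.P.MP_ab0431_ag.UB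

open Polynomial Set Filter Topology

theorem p_HIND :
    S_HIND := by
  intro ι _
  obtain ⟨B, hB⟩ := exists_isTranscendenceBasis ℚ ℂ
  have h1 : Cardinal.aleph0 < Cardinal.mk ℂ := by
    rw [Cardinal.mk_complex]; exact Cardinal.aleph0_lt_continuum
  have h2 := IsAlgClosed.cardinal_eq_cardinal_transcendence_basis_of_aleph0_lt' _ hB
    Cardinal.mk_le_aleph0 h1
  have : Infinite B := Cardinal.infinite_iff.2 (h2 ▸ h1.le)
  obtain ⟨f⟩ : Nonempty (ι ↪ B) :=
    ⟨(Fintype.equivFin ι).toEmbedding.trans (Fin.valEmbedding.trans (Infinite.natEmbedding B))⟩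
  exact ⟨_, hB.1.comp f f.injective⟩

end Pool.Agent.P.MP_ab0431_ag.UB

namespace Pool.Agent.P.MP_ab0431_ag.UB

open Polynomial Set Filter Topology

theorem count_hfb (b w m κ : ℕ) (hκ : 1 ≤ κ) :
    (b * κ * del b m + 1) ^ w * ((b ^ 2 + 1) ^ w * (b * κ + 1) ^ (b * (m + 1) - w / 2)) ≤
      Gam b w m * κ ^ (w + (b * (m + 1) - w / 2)) := by
  have h1 : b * κ * del b m + 1 ≤ (b * del b m + 1) * κ := by
    rw [add_mul, one_mul, mul_right_comm]; omega
  have h2 : b * κ + 1 ≤ (b + 1) * κ := by rw [add_mul, one_mul]; omega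
  have h3 : (b + 1) ^ (b * (m + 1) - w / 2) ≤ (b + 1) ^ (b * (m + 1)) :=
    Nat.pow_le_pow_right (Nat.succ_pos b) (Nat.sub_le _ _)
  calc _ ≤ ((b * del b m + 1) * κ) ^ w *
        ((b ^ 2 + 1) ^ w * ((b + 1) * κ) ^ (b * (m + 1) - w / 2)) := by gcongr
    _ = (b * del b m + 1) ^ w * (b ^ 2 + 1) ^ w * (b + 1) ^ (b * (m + 1) - w / 2) *
        κ ^ (w + (b * (m + 1) - w / 2)) := by rw [mul_pow, mul_pow, pow_add]; ring
    _ ≤ _ := by unfold Gam; gcongr

theorem p_HFB (hHFP : S_HFP) (hHPT : S_HPT) (hHGRID : S_HGRID) (hHIND : S_HIND) :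
    S_HFB := by
  classical
  intro b w m κ hκ
  obtain ⟨s, hs⟩ := hHIND (Fin w × Fin (b * κ * del b m + 1))
  have hsep : ∀ ν : Fin w → Fin (b * κ * del b m + 1),
      (∏ j, (X - C (s (j, ν j))) : ℂ[X]).Separable := fun ν =>
    separable_prod_X_sub_C_iff.2 fun i j h => congrArg Prod.fst (hs.injective h)
  have hdeg : ∀ ν : Fin w → Fin (b * κ * del b m + 1),
      (∏ j, (X - C (s (j, ν j))) : ℂ[X]).natDegree = w := fun ν => by
    rw [natDegree_prod_of_monic _ _ fun j _ => monic_X_sub_C _]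
    simp
  choose Y hY hV using fun ν => hHPT b m κ _ (hsep ν)
  simp only [hdeg] at hY
  refine (hHFP ℂ _ _ κ (Finset.univ.biUnion Y) fun G hG h0 => ?_).trans ?_
  · rw [MvPolynomial.mem_vanishingIdeal_iff]
    rintro c ⟨D, t, ha, ht, hP, hc⟩
    exact hHGRID ℚ ℂ Om b w m κ _ D.a G s t hG (Nat.lt_succ_self _) hs ht
      (fun ν => hV ν G hG (fun y hy => h0 y (Finset.mem_biUnion.2 ⟨ν, Finset.mem_univ _, hy⟩))
        D.a ha) D rfl hP c hc
  · refine (Finset.card_biUnion_le_card_mul _ _ _ fun ν _ => hY ν).trans ?_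
    rw [Finset.card_univ, Fintype.card_fun, Fintype.card_fin, Fintype.card_fin]
    exact count_hfb b w m κ hκ

end Pool.Agent.P.MP_ab0431_ag.UB

namespace Pool.Agent.P.MP_ab0431_ag.UB

open Polynomial Set Filter Topology

theorem pick_htrk {R K ι : Type} [CommRing R] [IsDomain R] [Field K] [Algebra R K]
    [FaithfulSMul R K] (x : ι → K) (n : ℕ)
    (h : (n : Cardinal) ≤ Algebra.trdeg R (Algebra.adjoin R (range x))) :
    ∃ f : Fin n → ι, AlgebraicIndependent R (x ∘ f) := by
  set B := Algebra.adjoin R (range x)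
  have : Algebra.IsAlgebraic (Algebra.adjoin R (((↑) : B → K) ⁻¹' range x)) B :=
    ⟨fun b => isAlgebraic_algebraMap (⟨b, (Algebra.adjoin_adjoin_coe_preimage (R := R)
      (s := range x)).ge trivial⟩ : Algebra.adjoin R (((↑) : B → K) ⁻¹' range x))⟩
  obtain ⟨T, h1, h2⟩ := exists_isTranscendenceBasis_subset (R := R) (((↑) : B → K) ⁻¹' range x)
  rw [← h2.cardinalMk_eq_trdeg, ← Cardinal.mk_fin] at h
  obtain ⟨g⟩ := (Cardinal.le_def _ _).1 h
  choose f hf using fun i => h1 (g i).2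
  refine ⟨f, ?_⟩
  rw [show x ∘ f = B.val ∘ ((↑) : T → B) ∘ g from funext hf]
  exact (h2.1.comp g g.injective).map' Subtype.val_injective

theorem p_HTRK :
    S_HTRK := by
  intro k K σ _ _ _ _ _ c w r t ht hd
  set A := Algebra.adjoin k (range t)
  set B := Algebra.adjoin A (range c)
  have h1 : Algebra.trdeg k A < w := not_le.1 fun h => by
    obtain ⟨f, hf⟩ := pick_htrk t w h
    exact ht ((algebraicIndependent_equiv (Equiv.ofBijective f
      (Finite.injective_iff_bijective.1 hf.injective.of_comp))).1 hf)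
  let φ : MvPolynomial σ k →ₐ[k] B :=
    MvPolynomial.aeval fun i => ⟨c i, Algebra.subset_adjoin ⟨i, rfl⟩⟩
  have hφ : ∀ p, p ∈ MvPolynomial.vanishingIdeal k {c} ↔ φ p = 0 := fun p => by
    have e : (φ p : K) = MvPolynomial.aeval c p :=
      MvPolynomial.comp_aeval_apply _ (B.val.restrictScalars k) p
    rw [MvPolynomial.mem_vanishingIdeal_singleton_iff, ← e, ZeroMemClass.coe_eq_zero]
  have h2 := trdeg_le_of_injective (Ideal.Quotient.liftₐ _ φ fun p => (hφ p).1)
    ((injective_iff_map_eq_zero _).2 fun a ha => by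
      obtain ⟨p, rfl⟩ := Ideal.Quotient.mk_surjective a
      exact Ideal.Quotient.eq_zero_iff_mem.2 ((hφ p).2 ha))
  have h3 : ((r + 1 : ℕ) : Cardinal) ≤ Algebra.trdeg A B := not_lt.1 fun h => by
    obtain ⟨a, ha⟩ := Cardinal.lt_aleph0.1 (h1.trans Cardinal.natCast_lt_aleph0)
    obtain ⟨b, hb⟩ := Cardinal.lt_aleph0.1 (h.trans Cardinal.natCast_lt_aleph0)
    rw [← trdeg_add_eq k A (A := B), ha, hb, ← Nat.cast_add] at h2
    rw [ha, Nat.cast_lt] at h1
    rw [hb, Nat.cast_lt] at h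
    have := hd.trans ((Cardinal.toNat_le_toNat h2 Cardinal.natCast_lt_aleph0).trans_eq
      (Cardinal.toNat_natCast _))
    omega
  obtain ⟨f, hf⟩ := pick_htrk c (r + 1) h3
  refine ⟨(algebraicClosure (IntermediateField.adjoin k (range t)) K).restrictScalars k, f,
    IsAlgClosure.isAlgClosed (IntermediateField.adjoin k (range t))
      (K := algebraicClosure (IntermediateField.adjoin k (range t)) K), fun j => ?_,
    (IntermediateField.algebraicIndependent_adjoin_iff.2 hf).algebraicClosure⟩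
  exact (algebraicClosure (IntermediateField.adjoin k (range t)) K).algebraMap_mem
    ⟨t j, IntermediateField.subset_adjoin k _ ⟨j, rfl⟩⟩

end Pool.Agent.P.MP_ab0431_ag.UB

namespace Pool.Agent.P.MP_ab0431_ag.UB

open Polynomial Set Filter Topology

theorem card_huro : Cardinal.mk Om = Cardinal.mk ℂ := by
  have h0 : Cardinal.aleph0 ≤ Cardinal.mk ℂ := Cardinal.aleph0_le_mk ℂ
  refine le_antisymm ?_ (Cardinal.mk_le_of_injective (algebraMap ℂ Om).injective)
  refine (Algebra.IsAlgebraic.cardinalMk_le_max (FractionRing (MvPolynomial ℕ ℂ)) Om).trans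
    (max_le ?_ h0)
  refine (Localization.cardinalMk_le (nonZeroDivisors (MvPolynomial ℕ ℂ))).trans ?_
  refine MvPolynomial.cardinalMk_le_max.trans (max_le (max_le le_rfl ?_) h0)
  rw [Cardinal.mk_nat]; exact h0

theorem iso_huro : Nonempty (Om ≃+* ℂ) := by
  refine IsAlgClosed.ringEquiv_of_equiv_of_charZero ?_ (Cardinal.eq.1 card_huro)
  rw [card_huro, Cardinal.mk_complex]
  exact Cardinal.aleph0_lt_continuum

theorem tset_huro {K K' : Type} [Field K] [Field K'] (e : K ≃+* K') {b : ℕ} (D : Dat K b)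
    (m : ℕ) : (D.map (e : K →+* K')).Tset m = (fun c => e ∘ c) '' D.Tset m := by
  refine Set.Subset.antisymm ?_ ?_
  · rintro _ ⟨o', ho', rfl⟩
    let o : D.A := fun i => (o' i).map (e.symm : K' →+* K)
    have h1 : D.toStr.mapA (mapRingHom (e : K →+* K')) o = o' := by
      funext i
      change ((o' i).map (e.symm : K' →+* K)).map (e : K →+* K') = o' i
      rw [Polynomial.map_map]
      simp
    refine ⟨co b m (D.ch o), ⟨o, fun i n hn => ?_, rfl⟩, ?_⟩
    · change ((o' i).map (e.symm : K' →+* K)).coeff n = 0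
      rw [coeff_map, ho' i n hn, map_zero]
    · have := D.toStr.ch_map (mapRingHom (e : K →+* K')) o
      rw [h1] at this
      ext p
      change _ = co b m ((D.toStr.map (mapRingHom (e : K →+* K'))).ch _) p
      rw [this]; simp [co]
  · rintro _ ⟨c, hc, rfl⟩
    exact D.Tset_map (e : K →+* K') hc

theorem p_HURO (hHUR : S_HUR) :
    S_HURO := by
  intro b m P hP
  obtain ⟨e⟩ := iso_huro
  have h := hHUR b m (P.map (e : Om →+* ℂ)) hP.map
  rw [natDegree_map] at h
  refine le_trans ?_ h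
  refine Set.encard_le_encard_of_injOn (f := fun T => (fun c => e ∘ c) '' T) ?_ ?_
  · rintro _ ⟨D, hD, rfl⟩
    exact ⟨D.map (e : Om →+* ℂ), by rw [← hD]; rfl, (tset_huro e D m).symm⟩
  · intro T _ T' _ hT
    exact (Set.image_injective.2 (e.injective.comp_left)) hT

end Pool.Agent.P.MP_ab0431_ag.UB

namespace Pool.Agent.P.MP_ab0431_ag.UB

open Polynomial Set Filter Topology

theorem ev_htrd {k K σ τ : Type} [Field k] [Field K] [Algebra k K] (f : τ → σ) (c : σ → K)
    (H : MvPolynomial τ k) :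
    MvPolynomial.eval c (MvPolynomial.map (algebraMap k K) (MvPolynomial.rename f H)) =
      MvPolynomial.aeval (c ∘ f) H := by
  rw [MvPolynomial.eval_map, ← MvPolynomial.aeval_def, MvPolynomial.aeval_rename]

theorem dep_htrd (hPHI : S_PHI) {k K : Type} [Field k] [Field K] [Algebra k K] {b m n : ℕ}
    (D : Dat k b) (f : Fin n → Co b m) (h : Fintype.card (J D.a m) < n) :
    ∃ H : MvPolynomial (Fin n) k, H ≠ 0 ∧
      ∀ c ∈ (D.map (algebraMap k K)).Tset m, MvPolynomial.aeval (c ∘ f) H = 0 := by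
  have h1 : ¬AlgebraicIndependent k fun i => D.Phi m (MvPolynomial.X (f i)) := fun hi => by
    have := hi.cardinalMk_le_trdeg
    rw [MvPolynomial.trdeg_of_isDomain, Cardinal.lift_id, Cardinal.mk_fin, Cardinal.mk_fintype,
      Nat.cast_le] at this
    omega
  rw [algebraicIndependent_iff] at h1
  push Not at h1
  obtain ⟨H, h2, h3⟩ := h1
  refine ⟨H, h3, ?_⟩
  rintro _ ⟨o, ho, rfl⟩
  have h4 : D.Phi m (MvPolynomial.rename f H) = 0 := by
    rw [← h2]
    simp only [Dat.Phi, MvPolynomial.aeval_rename, MvPolynomial.aeval_X]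
    rfl
  rw [← ev_htrd, ho.eq_el, ← (hPHI K b m _ _).1, (hPHI k b m D _).2.1, h4, map_zero]
  exact map_zero _

theorem p_HTRD (hHURO : S_HURO) (hDESC : S_DESC) (hPHI : S_PHI) :
    S_HTRD := by
  intro k _ _ _ b m n D P c f hP hS hc hn hi
  have hf := Set.finite_of_encard_le_coe (hHURO b m D.P hS)
  have h1 : ∀ T : Set (Co b m → Om), ∃ H : MvPolynomial (Fin n) k, H ≠ 0 ∧ ∀ D' : Dat k b,
      D'.a = D.a → T = (D'.map (algebraMap k Om)).Tset m →
        ∀ c' ∈ T, MvPolynomial.aeval (c' ∘ f) H = 0 := fun T => by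
    by_cases h : ∃ D' : Dat k b, D'.a = D.a ∧ T = (D'.map (algebraMap k Om)).Tset m
    · obtain ⟨D', h2, rfl⟩ := h
      obtain ⟨H, h3, h4⟩ := dep_htrd (K := Om) hPHI D' f (h2 ▸ hn)
      exact ⟨H, h3, fun _ _ _ => h4⟩
    · exact ⟨1, one_ne_zero, fun D' h2 h3 => absurd ⟨D', h2, h3⟩ h⟩
  choose H h2 h3 using h1
  have h4 := hDESC k Om b m D.a P (MvPolynomial.map (algebraMap k Om)
    (MvPolynomial.rename f (∏ T ∈ hf.toFinset, H T))) (fun D' e1 e2 c0 h0 => by
      rw [ev_htrd, map_prod]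
      exact Finset.prod_eq_zero (i := (D'.map (algebraMap k Om)).Tset m)
        (hf.mem_toFinset.2 ⟨_, by rw [hP, ← e2]; rfl, rfl⟩)
        (h3 _ D' e1 rfl _ (D'.Tset_map _ h0))) D rfl hP c hc
  rw [ev_htrd] at h4
  exact Finset.prod_ne_zero_iff.2 (fun T _ => h2 T) (algebraicIndependent_iff.1 hi _ h4)

end Pool.Agent.P.MP_ab0431_ag.UB

namespace Pool.Agent.P.MP_ab0431_ag.UB

open Polynomial Set Filter Topology

theorem p_TR (hHTRK : S_HTRK) (hHTRD : S_HTRD) (hJC : S_JC) :
    S_TR := by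
  intro b m D c t hsep ha hP hc hdm
  by_contra hind
  obtain ⟨L, f, hL, ht, hf⟩ := hHTRK ℂ Om (Co b m) c D.w _ t hind hdm
  have hcard := (hJC b m D.a).2.2 ha
  have hw : D.w / 2 = ∑ i, D.a i := by rw [Dat.w]; omega
  refine hHTRD L b m _ D (∏ j, (X - C (⟨t j, ht j⟩ : L))) c f ?_ hsep hc (by omega) hf
  rw [hP, Polynomial.map_prod]
  simp

end Pool.Agent.P.MP_ab0431_ag.UB

namespace Pool.Agent.P.MP_ab0431_ag.UB

open Polynomial Set Filter Topology

theorem roots_bmain {K : Type} [Field K] [IsAlgClosed K] (n : ℕ) : ∀ P : K[X], P.Monic →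
    P.natDegree = n → ∃ t : Fin n → K, P = ∏ j, (X - C (t j)) := by
  intro P h1 h2
  have h3 := (IsAlgClosed.splits P).eq_prod_roots_of_monic h1
  have h4 : P.roots.toList.length = n := by
    rw [Multiset.length_toList, ← h2, (IsAlgClosed.splits P).natDegree_eq_card_roots]
  subst h4
  refine ⟨fun j => P.roots.toList[(j : ℕ)], h3.trans
    (Eq.trans ?_ (Fin.prod_univ_fun_getElem P.roots.toList fun a => X - C a).symm)⟩
  rw [← Multiset.prod_coe, ← Multiset.map_coe, Multiset.coe_toList]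

theorem p_BMAIN (hHFB : S_HFB) (hINC : S_INC) (hTR : S_TR) :
    S_BMAIN := by
  intro b w m
  refine ⟨MvPolynomial.vanishingIdeal ℂ (GenT b w m), w + (b * (m + 1) - w / 2), by omega,
    hHFB b w m, ?_⟩
  rintro c ⟨D₀, rfl, h1, h2, h3⟩
  obtain ⟨D, c', e, a1, a2, a3, a4, a5⟩ := hINC b m D₀ h1 h2
  rw [← e] at a4 ⊢
  obtain ⟨t, ht⟩ := roots_bmain D.w D.P D.P_monic D.P_natDegree
  refine ⟨MvPolynomial.vanishingIdeal ℂ {c'}, inferInstance,
    MvPolynomial.vanishingIdeal_anti_mono (singleton_subset_iff.2 ?_), a4, a5 c h3⟩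
  exact ⟨D, t, a2, hTR b m D c' t a1 a2 ht a3 a4, ht, a3⟩

end Pool.Agent.P.MP_ab0431_ag.UB
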