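import Pool.Agent.P.MP_ab0431_ag.UB.IfaceB3
import Pool.Agent.P.MP_ab0431_ag.UB.IfaceO

/-! Steps LDOWN LTAME LCOLS LTRI LWD LPOW LROOT LTANGO LWIN LCOORD LFR LLOSS LKEY. -/

set_option autoImplicit false
set_option linter.unusedSectionVars false
set_option linter.unusedVariables false

namespace Pool.Agent.P.MP_ab0431_ag.UB

open Polynomial WithZero
open MP_6f117a_ag (Place)

theorem step_ldown (hNEWT : S_NEWT) (hCHI : S_CHI) (hCHS : S_CHS) {k K : Type} [Field k] [Field K]
    [Algebra k K] (P : Place k K) {b : ℕ} {D : Str K[X] b} {y : D.A} (hc : Chb k b)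
    (hy : y ∈ In P.v D) (h : ∀ j, 0 < j → gv P.v (D.tr (y ^ j)) ≤ exp (-b : ℤ)) :
    C (P.π ^ (-1 : ℤ)) • y ∈ In P.v D := by
  refine in_of_ch fun j => ?_
  rw [(hCHS _ b D y).1, map_mul, map_pow, gv_C, v_πz, neg_neg]
  rcases le_or_gt b j with hj | hj
  · rw [Nat.sub_eq_zero_of_le hj, pow_zero, one_mul]
    exact In.ch hCHI hy j
  have h1 := hNEWT _ b (D.L y) (b - j)
  rw [if_pos (Nat.sub_le b j), Nat.sub_sub_self hj.le, add_eq_zero_iff_neg_eq] at h1
  have h2 : gv P.v ((b - j : ℕ) : K[X]) = 1 := by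
    rw [← map_natCast C, gv_C, ← map_natCast (algebraMap k K)]
    exact P.v_const (hc _ (by omega) (by omega))
  have h3 := congrArg (gv P.v) h1
  rw [map_mul, h2, one_mul, Valuation.map_neg] at h3
  have h4 : gv P.v ((D.ch y).coeff j) ≤ exp (-b : ℤ) := h3.symm.trans_le
    ((gv P.v).map_sum_le fun i hi => by
      have := Finset.mem_range.1 hi
      rw [map_mul, if_pos (by omega), ← map_pow, ← Str.tr_apply]
      exact (mul_le_mul' (In.ch hCHI hy _) (h _ (by omega))).trans_eq (one_mul _))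
  refine (mul_le_mul_right h4 _).trans ?_
  rw [← exp_nsmul, ← exp_add, ← exp_zero, exp_le_exp, nsmul_one]
  omega

theorem p_LDOWN (hNEWT : S_NEWT) (hCHI : S_CHI) (hCHS : S_CHS) :
    S_LDOWN := by
  intro k K _ _ _ P b D z m₀ hc h
  have e : ∀ a m : ℤ, C (P.π ^ a) • C (P.π ^ m) • z = C (P.π ^ (a + m)) • z := fun a m => by
    rw [smul_smul, ← C_mul, ← zpow_add₀ P.π_ne]
  have key : ∀ (n : ℕ), C (P.π ^ (m₀ - 1 + n)) • z ∈ In P.v D →
      C (P.π ^ (m₀ - 1)) • z ∈ In P.v D := fun n => by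
    induction n with
    | zero => simp
    | succ n ih =>
      intro h1
      have h2 := step_ldown hNEWT hCHI hCHS P hc h1 (h _ (by omega) h1)
      rw [e, show -1 + (m₀ - 1 + (n + 1 : ℕ)) = m₀ - 1 + n by omega] at h2
      exact ih h2
  obtain ⟨N, hN⟩ := exists_in P D z
  have h1 := In.smul (g := C (P.π ^ ((m₀ - 1 - N).toNat : ℤ))) (by
    rw [gv_C, v_πz, ← exp_zero, exp_le_exp]; omega) hN
  rw [← zpow_natCast P.π N, e, show ((m₀ - 1 - N).toNat : ℤ) + N =
    m₀ - 1 + (N - (m₀ - 1)).toNat by omega] at h1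
  exact key _ h1

end Pool.Agent.P.MP_ab0431_ag.UB

namespace Pool.Agent.P.MP_ab0431_ag.UB

open Polynomial WithZero
open MP_6f117a_ag (Place)

theorem det_ltame {R : Type} [CommRing R] {b : ℕ} (D : Str R b) (x y : Fin b → D.A) :
    (Matrix.of fun i j => D.tr (x i * y j)).det =
      (Matrix.of fun i l => x i l).det * (Matrix.of fun i l => y i l).det * D.disc := by
  have : (Matrix.of fun i j => D.tr (x i * y j)) =
      (Matrix.of fun i l => x i l) * (D.T * (Matrix.of fun i l => y i l).transpose) := by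
    ext i j
    rw [Matrix.of_apply, ← D.sum_e (x i), ← D.sum_e (y j), Finset.sum_mul_sum]
    simp only [map_sum, smul_mul_smul_comm, map_smul, Matrix.mul_apply, Matrix.of_apply, Str.T,
      Matrix.transpose_apply, Finset.mul_sum, smul_eq_mul]
    exact Finset.sum_congr rfl fun _ _ => Finset.sum_congr rfl fun _ _ => by ring
  rw [this, Matrix.det_mul, Matrix.det_mul, Matrix.det_transpose, Str.disc]
  ring

theorem p_LTAME (hLDOWN : S_LDOWN) (hDISC : S_DISC) (hCHI : S_CHI) (hCHS : S_CHS) :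
    S_LTAME := by
  intro k K _ _ _ P b D hk hD
  rcases b with _ | c
  · exact ⟨Fin.elim0, fun i => i.elim0, by simp [Str.disc]⟩
  obtain ⟨e, he⟩ : ∃ e : ℤ, gv P.v D.disc = exp e :=
    ⟨_, (exp_log ((gv_eq_zero _).not.2 hD)).symm⟩
  obtain ⟨n, ⟨w, hw, hn⟩, hmax⟩ := Int.exists_greatest_of_bdd (P := fun n => ∃ w : Fin _ → D.A,
    (∀ i, w i ∈ In P.v D) ∧ gv P.v (Matrix.of fun i l => w i l).det = exp n)
    ⟨e.natAbs, fun n ⟨w, hw, hn⟩ => by
      have := v_det_le_one (gv P.v) (M := Matrix.of fun i j => D.tr (w i * w j)) fun i j =>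
        In.tr hCHI hCHS (mul_mem (hw i) (hw j))
      rw [det_ltame, map_mul, map_mul, hn, he, ← exp_add, ← exp_add, ← exp_zero,
        exp_le_exp] at this
      omega⟩ (by
    choose N hN using fun i => exists_in P D (D.e i)
    refine ⟨_, _, hN, (exp_log ((gv_eq_zero _).not.2 ?_)).symm⟩
    have : (Matrix.of fun i l => (C (P.π ^ N i) • D.e i) l) = .diagonal fun i => C (P.π ^ N i) := by
      ext i l : 2
      simp [Str.smul_apply, Str.e_apply, Matrix.diagonal_apply, eq_comm]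
    rw [this, Matrix.det_diagonal]
    exact Finset.prod_ne_zero_iff.2 fun i _ => C_ne_zero.2 (pow_ne_zero _ P.π_ne))
  have hm : ∀ x : Fin _ → D.A, (∀ i, x i ∈ In P.v D) →
      gv P.v (Matrix.of fun i l => x i l).det ≤ exp n := fun x hx => by
    by_cases z : gv P.v (Matrix.of fun i l => x i l).det = 0
    · rw [z]; exact zero_le
    · rw [← exp_log z]
      exact exp_le_exp.2 (hmax _ ⟨x, hx, (exp_log z).symm⟩)
  obtain ⟨T, hT⟩ : ∃ T, T = Matrix.of fun i j => D.tr (w i * w j) := ⟨_, rfl⟩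
  have dT : gv P.v T.det = exp (n + n + e) := by
    rw [hT, det_ltame, map_mul, map_mul, hn, he, exp_add, exp_add]
  let y : Fin _ → D.A := fun i => ∑ j, T.adjugate i j • w j
  have h1 : ∀ i, ∀ s ∈ In P.v D, gv P.v (D.tr (y i * s)) ≤ exp (n + n + e) := fun i s hs => by
    have a1 : D.tr (y i * s) = T.cramer (fun j => D.tr (w j * s)) i := by
      simp only [y, Matrix.cramer_eq_adjugate_mulVec, Matrix.mulVec, dotProduct, Finset.sum_mul,
        map_sum, smul_mul_assoc, map_smul, smul_eq_mul]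
    have a2 : T.updateCol i (fun j => D.tr (w j * s)) =
        Matrix.of fun a j => D.tr (w a * Function.update w i s j) := by
      ext a j : 2
      rw [Matrix.updateCol_apply, Matrix.of_apply, Function.update_apply, hT]
      split_ifs <;> rfl
    rw [a1, Matrix.cramer_apply, a2, det_ltame, map_mul, map_mul, hn, he, exp_add, exp_add]
    refine mul_le_mul_left (mul_le_mul_right (hm _ fun j => ?_) _) _
    rw [Function.update_apply]
    split_ifs
    exacts [hs, hw j]
  have h2 := hm (fun i => C (P.π ^ (c + 1 + (n + n + e) - 1 : ℤ)) • y i) fun i =>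
    hLDOWN k K P _ D (y i) _ hk fun m hm hi j hj => by
      obtain ⟨j, rfl⟩ := Nat.exists_eq_add_one_of_ne_zero hj.ne'
      rw [pow_succ', smul_mul_assoc, map_smul, smul_eq_mul, map_mul, gv_C, v_πz]
      refine (mul_le_mul_right (h1 i _ (pow_mem hi j)) _).trans ?_
      rw [← exp_add, exp_le_exp]
      push_cast
      omega
  have a3 : (Matrix.of fun i l => (C (P.π ^ (c + 1 + (n + n + e) - 1 : ℤ)) • y i) l) =
      C (P.π ^ (c + 1 + (n + n + e) - 1 : ℤ)) • (T.adjugate * Matrix.of fun i l => w i l) := by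
    ext i l : 2
    simp only [y, Matrix.of_apply, Str.smul_apply, Str.sum_apply, Matrix.smul_apply,
      Matrix.mul_apply, smul_eq_mul]
  rw [a3, Matrix.det_smul, Matrix.det_mul, Matrix.det_adjugate, map_mul, map_mul, map_pow, map_pow,
    gv_C, v_πz, dT, hn, Fintype.card_fin, Nat.add_sub_cancel, ← exp_nsmul, ← exp_nsmul, ← exp_add,
    ← exp_add, exp_le_exp, nsmul_eq_mul, nsmul_eq_mul] at h2
  refine ⟨w, hw, ?_⟩
  rw [hn, he, ← exp_nsmul, ← exp_add, exp_le_exp, nsmul_eq_mul]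
  push_cast at h2 ⊢
  nlinarith [Int.natCast_nonneg c]

end Pool.Agent.P.MP_ab0431_ag.UB

namespace Pool.Agent.P.MP_ab0431_ag.UB

open Polynomial WithZero
open MP_6f117a_ag (Place)

theorem p_LCOLS :
    S_LCOLS := by
  intro K I W _ _ _ M h
  have top : Submodule.span K (Set.range fun w i => M i w) = ⊤ := by
    by_contra e
    obtain ⟨f, f0, hf⟩ := Submodule.exists_le_ker_of_lt_top _ (lt_top_iff_ne_top.2 e)
    refine f0 (LinearMap.pi_ext fun i x => ?_)
    have := congrFun (h (fun i => f (Pi.single i 1)) fun w => by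
      have := hf (Submodule.subset_span ⟨w, rfl⟩)
      rw [LinearMap.mem_ker, LinearMap.pi_apply_eq_sum_univ] at this
      refine Eq.trans (Finset.sum_congr rfl fun i _ => ?_) this
      rw [smul_eq_mul, mul_comm]
      congr 2
      ext j
      simp [Pi.single_apply, eq_comm]) i
    rw [show Pi.single i x = x • (Pi.single i 1 : I → K) by simp [← Pi.single_smul], map_smul]
    simp [show f (Pi.single i 1) = 0 from this]
  obtain ⟨b, b1, b2, b3⟩ := exists_linearIndependent K (Set.range fun w i => M i w)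
  let B := Module.Basis.mk b3 (by simp [b2, top])
  let e := B.indexEquiv (Pi.basisFun K I)
  choose σ hσ using fun j => b1 (e.symm j).2
  refine ⟨σ, ((Matrix.isUnit_iff_isUnit_det _).1 (Matrix.linearIndependent_cols_iff_isUnit.1
    ?_)).ne_zero⟩
  have : (Matrix.of fun i j => M i (σ j)).col = (↑) ∘ e.symm := funext hσ
  exact this ▸ b3.comp _ e.symm.injective

end Pool.Agent.P.MP_ab0431_ag.UB

namespace Pool.Agent.P.MP_ab0431_ag.UB

open Polynomial WithZero
open MP_6f117a_ag (Place)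

theorem p_LTRI (hLCOLS : S_LCOLS) :
    S_LTRI := by
  intro K ι _ _ _ q _ v W hW
  let A : ({i // ¬ q i} → ι) → Matrix {i // ¬ q i} {i // ¬ q i} K := fun ρ =>
    Matrix.of fun i i' => W (ρ i) i'
  obtain ⟨σ, hσ⟩ := hLCOLS K {i // ¬ q i} ι (fun i w => W w i) fun l hl => by
    have h1 : W.mulVec (fun i => if h : q i then 0 else l ⟨i, h⟩) = 0 := by
      funext w
      refine Eq.trans ?_ (hl w)
      rw [Matrix.mulVec, dotProduct, ← Fintype.sum_subtype_add_sum_subtype q,
        Finset.sum_eq_zero fun i _ => by rw [dif_pos i.2, mul_zero], zero_add]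
      exact Finset.sum_congr rfl fun i _ => by rw [dif_neg i.2, mul_comm]
    funext i
    simpa [i.2] using congrFun (Matrix.eq_zero_of_mulVec_eq_zero hW h1) i
  obtain ⟨ρ, -, hρ⟩ := Finset.exists_max_image Finset.univ (fun ρ => v (A ρ).det)
    ⟨σ, Finset.mem_univ _⟩
  have hA : (A ρ).det ≠ 0 := fun h => hσ (by
    have := hρ σ (Finset.mem_univ _)
    rw [h, map_zero, le_zero_iff, map_eq_zero, ← Matrix.det_transpose] at this
    exact this)
  have hinj : Function.Injective ρ := fun i j e => by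
    by_contra h
    exact hA (Matrix.det_zero_of_row_eq h (funext fun _ => by simp [A, e]))
  obtain ⟨s, hs⟩ := Equiv.Perm.exists_extending_pair _ _ Subtype.val_injective hinj
  let C : Matrix {i // q i} {i // ¬ q i} K := Matrix.of fun j i => W (s j) i
  let B : Matrix {i // q i} {i // ¬ q i} K := C * (A ρ)⁻¹
  have hu : IsUnit (A ρ).det := hA.isUnit
  have hB : ∀ j i, v (B j i) ≤ 1 := fun j i => by
    have h1 := congrFun (Matrix.det_smul_inv_vecMul_eq_cramer_transpose (A ρ)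
      (fun i => W (s j) i) hu) i
    have h2 : (A ρ).updateRow i (fun i => W (s j) i) = A (Function.update ρ i (s j)) := by
      ext a b
      by_cases h : a = i <;> simp [A, h]
    rw [Matrix.cramer_transpose_apply, h2] at h1
    have h3 := hρ (Function.update ρ i (s j)) (Finset.mem_univ _)
    rw [← h1] at h3
    change v ((A ρ).det * B j i) ≤ _ at h3
    rw [map_mul] at h3
    exact (mul_le_iff_le_one_right (zero_lt_iff.2 ((map_ne_zero v).2 hA))).1 h3
  let T : Matrix {i // q i} ι K := Matrix.of fun j r =>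
    (if r = s j then 1 else 0) - ∑ i, B j i * if r = ρ i then 1 else 0
  have hT : ∀ j c, (T * W) j c = W (s j) c - ∑ i, B j i * W (ρ i) c := fun j c => by
    simp only [T, Matrix.mul_apply, Matrix.of_apply, sub_mul, Finset.sum_sub_distrib,
      Finset.sum_mul]
    rw [Finset.sum_comm]
    simp
  refine ⟨ρ, T, fun j r => v.map_sub_le ?_ (v.map_sum_le fun i _ => ?_), fun j i => ?_, ?_⟩
  · split_ifs <;> simp
  · split_ifs
    · rw [mul_one]; exact hB j i
    · simp
  · rw [hT, sub_eq_zero]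
    change _ = (B * A ρ) j i
    rw [Matrix.nonsing_inv_mul_cancel_right _ _ hu]
    rfl
  · have := Matrix.invertibleOfIsUnitDet _ hu
    have e : (W.submatrix s id).submatrix (Equiv.sumCompl q) (Equiv.sumCompl q) =
        Matrix.fromBlocks (Matrix.of fun j j' : {i // q i} => W (s j) j') C
          (Matrix.of fun i j => W (ρ i) j) (A ρ) := by
      ext (a | a) (b | b) <;> simp [A, C, hs]
    have h1 := congrArg (fun M => v (Matrix.det M)) e
    simp only [Matrix.det_submatrix_equiv_self, Matrix.det_permute, Matrix.det_fromBlocks₂₂,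
      map_mul, Matrix.invOf_eq_nonsing_inv] at h1
    have h2 : v (((Equiv.Perm.sign s : ℤˣ) : ℤ) : K) = 1 := by
      rcases Int.units_eq_one_or (Equiv.Perm.sign s) with h | h <;> simp [h]
    rw [h2, one_mul] at h1
    rw [h1]
    congr 3
    ext j j'
    rw [Matrix.of_apply, hT]
    rfl

end Pool.Agent.P.MP_ab0431_ag.UB

namespace Pool.Agent.P.MP_ab0431_ag.UB

open Polynomial WithZero
open MP_6f117a_ag (Place)

theorem p_LWD :
    S_LWD := by
  intro K _ b m w
  have h : (Matrix.of fun p q : Fin b × Fin (m + 1) =>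
      (X ^ (p.2 : ℕ) * w p.1 q.1).coeff q.2).BlockTriangular Prod.snd := fun p q hpq => by
    rw [Matrix.of_apply, coeff_X_pow_mul', if_neg (Nat.not_le.2 hpq)]
  have hc : w.det.eval 0 ^ (m + 1) = ∏ _k : Fin (m + 1), w.det.eval 0 := by simp
  rw [h.det_fintype, hc]
  refine Finset.prod_congr rfl fun k _ => ?_
  let e : Fin b ≃ {p : Fin b × Fin (m + 1) // p.2 = k} :=
    ⟨fun i => ⟨(i, k), rfl⟩, fun p => p.1.1, fun _ => rfl, by rintro ⟨⟨i, _⟩, rfl⟩; rfl⟩
  rw [← Matrix.det_submatrix_equiv_self e, ← coe_evalRingHom, RingHom.map_det]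
  congr 1
  ext i j
  change (X ^ (k : ℕ) * w i j).coeff k = (w i j).eval 0
  rw [coeff_X_pow_mul', if_pos le_rfl, Nat.sub_self, coeff_zero_eq_eval_zero]

end Pool.Agent.P.MP_ab0431_ag.UB

namespace Pool.Agent.P.MP_ab0431_ag.UB

open Polynomial WithZero
open MP_6f117a_ag (Place)

theorem charpoly_pow_lpow {R : Type} [CommRing R] (p : ℕ) [CharP R p] (b : ℕ)
    (M : Matrix (Fin b) (Fin b) R) (hp : p.Prime) :
    (M ^ p).charpoly = M.charpoly.map (haveI : Fact p.Prime := ⟨hp⟩; frobenius R p) := by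
  have : Fact p.Prime := ⟨hp⟩
  have : Nontrivial R := CharP.nontrivial_of_char_ne_one hp.ne_one
  rcases isEmpty_or_nonempty (Fin b) with hb | hb
  · simp [Matrix.charpoly]
  apply expand_injective hp.pos
  rw [← map_expand, map_frobenius_expand]
  unfold Matrix.charpoly
  rw [AlgHom.map_det, ← Matrix.coe_detMonoidHom,
    ← (Matrix.detMonoidHom : Matrix (Fin b) (Fin b) R[X] →* R[X]).map_pow]
  apply congr_arg Matrix.det
  refine matPolyEquiv.injective ?_
  rw [map_pow, Matrix.matPolyEquiv_charmatrix, sub_pow_char_of_commute, ← C_pow]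
  · exact (id (matPolyEquiv_eq_X_pow_sub_C p M) :)
  · exact (C M).commute_X

theorem p_LPOW :
    S_LPOW := by
  intro R _ p _ b M hp
  have : Fact p.Prime := ⟨hp⟩
  have : Nontrivial R := CharP.nontrivial_of_char_ne_one hp.ne_one
  have h : ∀ j, (M ^ p).charpoly.coeff j = M.charpoly.coeff j ^ p := fun j => by
    rw [charpoly_pow_lpow p b M hp, coeff_map, frobenius_def]
  refine ⟨h, ?_⟩
  rcases isEmpty_or_nonempty (Fin b) with hb | hb
  · simp [Matrix.trace, hp.ne_zero]
  rw [Matrix.trace_eq_neg_charpoly_coeff, Matrix.trace_eq_neg_charpoly_coeff, h,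
    ← frobenius_def, ← frobenius_def, map_neg]

end Pool.Agent.P.MP_ab0431_ag.UB

namespace Pool.Agent.P.MP_ab0431_ag.UB

open Polynomial WithZero
open MP_6f117a_ag (Place)

theorem root_lroot {K : Type} [Field K] [IsAlgClosed K] {p : ℕ} [CharP K p] (hp : p.Prime)
    {f : K[X]} (h : derivative f = 0) : ∃ g : K[X], g ^ p = f := by
  have := Fact.mk hp
  refine ⟨(contract p f).map (frobeniusEquiv K p).symm.toRingHom, ?_⟩
  rw [← map_frobenius_expand, ← map_expand, Polynomial.map_map, expand_contract p h hp.ne_zero]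
  have : (frobenius K p).comp (frobeniusEquiv K p).symm.toRingHom = RingHom.id K :=
    RingHom.ext fun x => frobenius_apply_frobeniusEquiv_symm K p x
  rw [this, Polynomial.map_id]

theorem p_LROOT (hLPOW : S_LPOW) (hDISC : S_DISC) :
    S_LROOT := by
  intro K _ _ p _ b D d α hp h1 h2 h0
  have := Fact.mk hp
  have p0 : (p : K[X]) = 0 := CharP.cast_eq_zero _ p
  have dp : ∀ (y : D.A) n, d (y ^ (n + 1)) = ((n + 1 : ℕ) : K[X]) • (y ^ n * d y) := by
    intro y n
    induction n with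
    | zero => simp
    | succ n ih =>
      rw [pow_succ, h1, ih, Nat.cast_succ (n + 1), add_smul _ 1, one_smul, mul_smul_comm,
        ← mul_assoc, ← pow_succ', add_comm]
  have d0 : ∀ y : D.A, d (y ^ p) = 0 := fun y => by
    have := dp y (p - 1)
    rwa [Nat.sub_add_cancel hp.one_le, p0, zero_smul] at this
  let E : Matrix (Fin b) (Fin b) K[X] := .of fun i l => (D.e i ^ p) l
  have hE : E.det ≠ 0 := fun e => by
    have a := (hDISC K[X] b).2.1 D.toStr fun i => D.e i ^ p
    have a2 : (Matrix.of fun i j => D.tr (D.e i ^ p * D.e j ^ p)) =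
        (frobenius K[X] p).mapMatrix D.T := by
      refine Matrix.ext fun i j => ?_
      change D.tr _ = (D.tr _) ^ p
      rw [← mul_pow, Str.tr_apply, map_pow, (hLPOW _ p b _ hp).2, Str.tr_apply]
    rw [a2, ← RingHom.map_det, e, zero_pow two_ne_zero, zero_mul] at a
    exact pow_ne_zero p (disc_ne D) a
  have hs : ∀ c : Fin b → K[X], ∑ i, c i • D.e i ^ p = Matrix.vecMul c E := fun c => by
    funext l
    rw [Str.sum_apply]; rfl
  let β : Fin b → K[X] := E.det ^ (p - 1) • Matrix.vecMul α E.adjugate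
  have hv : ∀ a : Fin b → K[X],
      Matrix.vecMul (E.det ^ (p - 1) • Matrix.vecMul a E.adjugate) E = E.det ^ p • a := fun a => by
    rw [Matrix.smul_vecMul, Matrix.vecMul_vecMul, Matrix.adjugate_mul, Matrix.vecMul_smul,
      Matrix.vecMul_one, smul_smul, ← pow_succ, Nat.sub_add_cancel hp.one_le]
  have hβ : ∑ i, β i • D.e i ^ p = E.det ^ p • α := (hs β).trans (hv α)
  have hd := congrArg d hβ
  rw [map_sum, h2, h0, smul_zero, add_zero, derivative_pow, map_natCast, p0, zero_mul, zero_mul,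
    mul_zero, zero_smul] at hd
  simp only [h2, d0, smul_zero, add_zero] at hd
  rw [hs] at hd
  have hz := Matrix.eq_zero_of_vecMul_eq_zero hE hd
  choose δ hδ using fun i => root_lroot hp
    ((mul_eq_zero.1 (congrFun hz i)).resolve_left D.P_monic.ne_zero)
  refine ⟨E.det, ∑ i, δ i • D.e i, hE, ?_⟩
  have := frob_sum D.toStr hp 1 Finset.univ fun i => δ i • D.e i
  simp only [pow_one, _root_.smul_pow, hδ] at this
  rw [this, hβ]

end Pool.Agent.P.MP_ab0431_ag.UB

namespace Pool.Agent.P.MP_ab0431_ag.UB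

open Polynomial WithZero
open MP_6f117a_ag (Place)

section

variable {K : Type} [Field K] {p : ℕ} [CharP K p] {b : ℕ} {D : Dat K b}

theorem ch_ltango (hLPOW : S_LPOW) (hp : p.Prime) (y : D.A) (j : ℕ) :
    (D.ch (y ^ p)).coeff j = (D.ch y).coeff j ^ p := by
  rw [Str.ch, map_pow]
  exact (hLPOW K[X] p b _ hp).1 j

theorem max_ltango (hLPOW : S_LPOW) (hCHS : S_CHS) (hp : p.Prime) (hm : D.toStr.Max) {g : K[X]}
    (hg : g ≠ 0) {y z : D.A} (h : y ^ p = g ^ p • z) : ∃ y1 : D.A, y = g • y1 := by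
  choose y1 h1 using hm g y hg fun j => (IsIntegrallyClosed.pow_dvd_pow_iff hp.ne_zero).1 (by
    rw [← ch_ltango hLPOW hp, h, (hCHS _ b D.toStr z).1, ← pow_mul, ← pow_mul, mul_comm p]
    exact dvd_mul_right _ _)
  exact ⟨y1, funext h1⟩

theorem der_ltango (hp : p.Prime) {d : D.A →+ D.A} (h : ∀ y z, d (y * z) = y * d z + z * d y)
    (y : D.A) : d (y ^ p) = 0 := by
  have h1 : ∀ n : ℕ, d (y ^ (n + 1)) = (n + 1) • (y ^ n * d y) := fun n => by
    induction n with
    | zero => simp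
    | succ n ih => rw [pow_succ, h, ih]; ring
  rw [← Nat.succ_pred_eq_of_pos hp.pos, h1, ← Nat.succ_eq_add_one, Nat.succ_pred_eq_of_pos hp.pos,
    ← Nat.cast_smul_eq_nsmul K[X], CharP.cast_eq_zero, zero_smul]

end

theorem p_LTANGO (hLPOW : S_LPOW) (hLROOT : S_LROOT) (hDER : S_DER) (hMAXS : S_MAXS) (hLV : S_LV) (hTUP : S_TUP) (hCHS : S_CHS) :
    S_LTANGO := by
  intro K _ _ p _ b D m₀ m₁ s o hp hs hw
  have hm := hMAXS K b D hs
  induction s generalizing m₀ m₁ o with
  | zero => simp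
  | succ s ih =>
  intro hlt H
  rw [pow_succ, mul_assoc, mul_assoc, mul_comm (p ^ s) p, pow_mul] at H
  obtain ⟨α, β, hα, e⟩ := ih _ _ _ (Nat.mul_lt_mul_of_pos_left hlt hp.pos) H
  obtain ⟨d, d1, d2, d3⟩ := hDER K b D
  have d0 : d α = 0 := by
    have h1 := der_ltango hp d1 o
    rw [e, map_add, d2, derivative_X_pow, Nat.cast_mul, CharP.cast_eq_zero, zero_mul, C_0, zero_mul,
      mul_zero, zero_smul, zero_add] at h1
    ext i k
    by_cases hk : k < p * m₁
    · have h2 := congrArg (fun y : D.A => (y i).coeff k) h1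
      simpa only [Str.add_apply, Str.smul_apply, coeff_add, coeff_X_pow_mul', if_neg hk.not_ge,
        add_zero] using h2
    · refine d3 _ α i k hα ?_
      have := Nat.mul_le_mul_left p (Nat.succ_le_of_lt hlt)
      rw [Nat.mul_succ] at this
      omega
  obtain ⟨g, y, g0, hy⟩ := hLROOT K p b D d α hp d1 d2 d0
  obtain ⟨a, rfl⟩ := max_ltango hLPOW hCHS hp hm g0 hy
  rw [_root_.smul_pow] at hy
  obtain rfl : a ^ p = α := funext fun i => mul_left_cancel₀ (pow_ne_zero p g0) (congrFun hy i)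
  obtain ⟨_, -, -, -, -, h2, -⟩ := hTUP K b D
  have h3 := frob_add D.toStr hp 1 (o - a) a
  rw [pow_one, sub_add_cancel, e, add_comm, add_left_inj, mul_comm p, pow_mul] at h3
  obtain ⟨c, hc⟩ := max_ltango hLPOW hCHS hp hm (pow_ne_zero m₁ X_ne_zero) h3.symm
  refine ⟨a, c, hLV K b m₀ D a fun j n hn => coeff_eq_zero_of_natDegree_lt (lt_of_le_of_lt ?_ hn),
    sub_eq_iff_eq_add'.1 hc⟩
  have h4 := natDegree_le_iff_coeff_eq_zero.2 ((h2 _ _ hα).1 j)
  rw [ch_ltango hLPOW hp, natDegree_pow, mul_assoc] at h4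
  exact Nat.le_of_mul_le_mul_left h4 hp.pos

end Pool.Agent.P.MP_ab0431_ag.UB

namespace Pool.Agent.P.MP_ab0431_ag.UB

open Polynomial WithZero
open MP_6f117a_ag (Place)

theorem cl_lwin (hLTANGO : S_LTANGO) {K : Type} [Field K] [IsAlgClosed K] {p : ℕ} [CharP K p]
    {b m s : ℕ} (D : Dat K b) (hp : p.Prime) (hS : D.P.Separable) (hw : D.w < p)
    (l : I2 D.a m → K) (h : ∀ i n, n < p ^ s * (m + 1) → p ^ s * m < n + D.a i →
      ∑ j, l j * (((((X : K[X]) ^ (j.1.2 : ℕ)) • D.e j.1.1) ^ p ^ s) i).coeff n = 0) : l = 0 := by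
  choose μ hμ using fun j => IsAlgClosed.exists_pow_nat_eq (l j) (pow_pos hp.pos s)
  have h1 := triv_iff.1 (hLTANGO K p b D m (m + 1) s
    (∑ j : I2 D.a m, C (μ j) • ((X : K[X]) ^ (j.1.2 : ℕ)) • D.e j.1.1) hp hS hw (by omega)
    (triv_iff.2 fun i n h2 h3 => by
      rw [frob_sum D.toStr hp, Str.sum_apply, finsetSum_coeff, ← h i n h2 h3]
      refine Finset.sum_congr rfl fun j _ => ?_
      rw [_root_.smul_pow, ← C_pow, hμ, Str.smul_apply, coeff_C_mul]))
  funext j
  have h2 := h1 j.1.1 j.1.2 j.1.2.2 (not_le.1 j.2)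
  rw [Str.sum_apply, finsetSum_coeff, Finset.sum_eq_single j] at h2
  · rw [Str.smul_apply, Str.smul_apply, Str.e_apply, if_pos rfl, mul_one, coeff_C_mul,
      coeff_X_pow_self, mul_one] at h2
    rw [← hμ, h2, zero_pow (pow_pos hp.pos s).ne']
    rfl
  · intro j' _ hj
    rw [Str.smul_apply, Str.smul_apply, Str.e_apply, coeff_C_mul]
    split_ifs with e
    · rw [mul_one, coeff_X_pow, if_neg fun e' => hj (Subtype.ext (Prod.ext e.symm
        (Fin.ext e'.symm))), mul_zero]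
    · simp
  · simp

theorem p_LWIN (hLTANGO : S_LTANGO) (hLCOLS : S_LCOLS) :
    S_LWIN := by
  intro K _ p _ b m s D hp hS hw
  obtain ⟨σ, hσ⟩ := hLCOLS K (I2 D.a m)
    {q : Fin b × ℕ // q.2 < p ^ s * (m + 1) ∧ p ^ s * m < q.2 + D.a q.1}
    (fun j w => (((((X : K[X]) ^ (j.1.2 : ℕ)) • D.e j.1.1) ^ p ^ s) w.1.1).coeff w.1.2)
    fun l h => by
      let φ := algebraMap K (AlgebraicClosure K)
      have h1 := cl_lwin hLTANGO (s := s) (D.map φ) hp hS.map hw (φ ∘ l) fun i n h2 h3 => by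
        have h4 := congrArg φ (h ⟨(i, n), h2, h3⟩)
        rw [map_sum, map_zero] at h4
        refine (Finset.sum_congr rfl fun j _ => ?_).trans h4
        have h5 := D.toStr.mapA_apply (mapRingHom φ)
          ((((X : K[X]) ^ (j.1.2 : ℕ)) • D.e j.1.1) ^ p ^ s) i
        rw [map_pow, Str.mapA_smul, Str.mapA_e, map_pow, coe_mapRingHom, map_X] at h5
        rw [map_mul, ← coeff_map, ← h5]
        rfl
      exact funext fun j => φ.injective ((congrFun h1 j).trans (map_zero φ).symm)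
  exact ⟨fun l => (σ l).1, fun l => (σ l).2, hσ⟩

end Pool.Agent.P.MP_ab0431_ag.UB

namespace Pool.Agent.P.MP_ab0431_ag.UB

open Polynomial WithZero
open MP_6f117a_ag (Place)

theorem key_lcoord (hCHI : S_CHI) (hCHS : S_CHS) {K : Type} [Field K] {v : Valuation K ℤᵐ⁰}
    {b : ℕ} {D : Str K[X] b} {g : K[X]} {l : Fin b} (hg : g • D.du l ∈ In v D) {o : D.A}
    (ho : o ∈ In v D) : gv v (g * D.disc) * gv v (o l) ≤ 1 := by
  have h := In.tr hCHI hCHS ((In v D).mul_mem hg ho)
  rwa [smul_mul_assoc, map_smul, (hCHS _ b D o).2.2.1 l, smul_eq_mul, ← mul_assoc, map_mul] at h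

theorem p_LCOORD (hCHI : S_CHI) (hCHS : S_CHS) :
    S_LCOORD := by
  intro k K _ _ _ P b D hd
  constructor
  · choose n hn using fun l => exists_in P D (D.du l)
    obtain ⟨N, hN⟩ := exists_exp fun l => (gv P.v (C (P.π ^ n l) * D.disc))⁻¹
    refine ⟨N, fun o ho l => le_trans ?_ (hN l)⟩
    have h0 : gv P.v (C (P.π ^ n l) * D.disc) ≠ 0 := fun e =>
      mul_ne_zero (C_ne_zero.2 (pow_ne_zero _ P.π_ne)) hd ((gv_eq_zero _).1 e)
    have h1 := key_lcoord hCHI hCHS (hn l) ho
    rwa [mul_comm, ← le_div_iff₀ (zero_lt_iff.2 h0), one_div] at h1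
  · intro hG h1 o ho l
    have he : ∀ i, D.e i ∈ In P.v D := fun i => in_of_coord hG.1 fun j => by
      rw [Str.e_apply]; split_ifs <;> simp
    have hT : ∀ i j, gv P.v (D.T i j) ≤ 1 := fun i j =>
      In.tr hCHI hCHS ((In P.v D).mul_mem (he i) (he j))
    have hu : (1 : K[X]) • D.du l ∈ In P.v D := by
      rw [one_smul]
      exact in_of_coord hG.1 fun i => v_adj_le_one _ hT l i
    have h2 := key_lcoord hCHI hCHS hu ho
    rwa [one_mul, h1, one_mul] at h2

end Pool.Agent.P.MP_ab0431_ag.UB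

namespace Pool.Agent.P.MP_ab0431_ag.UB

open Polynomial WithZero
open MP_6f117a_ag (Place)

theorem dec_lfr {K : Type} [Field K] {b : ℕ} (D : Dat K b) (m : ℕ) (o : D.A) :
    Triv D m (m + 1) (o - ∑ l : I2 D.a m,
      C ((o l.1.1).coeff l.1.2) • ((X : K[X]) ^ (l.1.2 : ℕ)) • D.e l.1.1) := by
  refine triv_iff.2 fun i n h1 h2 => ?_
  rw [Str.sub_apply, coeff_sub, Str.sum_apply, finsetSum_coeff,
    Finset.sum_eq_single (⟨(i, ⟨n, h1⟩), by simpa using h2⟩ : I2 D.a m)]
  · simp [Str.smul_apply, Str.e_apply]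
  · intro l _ hl
    rw [Str.smul_apply, Str.smul_apply, Str.e_apply, coeff_C_mul]
    split_ifs with e
    · rw [mul_one, coeff_X_pow, if_neg, mul_zero]
      exact fun e' => hl (Subtype.ext (Prod.ext e.symm (Fin.ext e'.symm)))
    · simp
  · simp

theorem frob_lfr (hTUP : S_TUP) {K : Type} [Field K] {p : ℕ} (hp : p.Prime) [CharP K p] {b : ℕ}
    (D : Dat K b) (m s : ℕ) (o : D.A) (i : Fin b) (n : ℕ) (h1 : n < p ^ s * (m + 1))
    (h2 : p ^ s * m < n + D.a i) :
    ((o ^ p ^ s) i).coeff n = ∑ l : I2 D.a m, (o l.1.1).coeff l.1.2 ^ p ^ s *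
      (((((X : K[X]) ^ (l.1.2 : ℕ)) • D.e l.1.1) ^ p ^ s) i).coeff n := by
  obtain ⟨α, β, hα, e⟩ := dec_lfr D m o
  have ht : Triv D (p ^ s * m) (p ^ s * (m + 1)) ((α + (X ^ (m + 1) : K[X]) • β) ^ p ^ s) :=
    ⟨α ^ p ^ s, β ^ p ^ s, deg_pow hTUP hα _, by
      rw [frob_add D.toStr hp, _root_.smul_pow, ← pow_mul, mul_comm (m + 1)]⟩
  conv_lhs => rw [sub_eq_iff_eq_add.1 e]
  rw [frob_add D.toStr hp, Str.add_apply, coeff_add, triv_iff.1 ht i n h1 h2, zero_add,
    frob_sum D.toStr hp, Str.sum_apply, finsetSum_coeff]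
  refine Finset.sum_congr rfl fun l _ => ?_
  rw [_root_.smul_pow, ← C_pow, Str.smul_apply, coeff_C_mul]

theorem good_lfr {k K : Type} [Field k] [Field K] [Algebra k K] (P : Place k K) {b : ℕ}
    {D : Str K[X] b} (h : Gd P D) {o : D.A} (ho : ∀ i, gv P.v (o i) ≤ 1) (n : ℕ) :
    ∀ i, gv P.v ((o ^ n) i) ≤ 1 := by
  induction n with
  | zero => rw [pow_zero]; exact h.2
  | succ n ih => rw [pow_succ]; exact coord_mul h.1 ih ho

theorem p_LFR (hLWIN : S_LWIN) (hLCOORD : S_LCOORD) (hTUP : S_TUP) :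
    S_LFR := by
  intro k K _ _ _ p _ b m D B f hPF hp hsep hw hG hB
  classical
  choose N hN using fun P : Place k K => (hLCOORD k K P b D.toStr (disc_ne D)).1
  by_contra hS
  set c : ℕ := ∑ P ∈ B, Fintype.card (I2 D.a m) * N P with hc
  obtain ⟨σ, hσ, hW⟩ := hLWIN K p b m c D hp hsep hw
  set W : Matrix (I2 D.a m) (I2 D.a m) K := Matrix.of fun j l : I2 D.a m =>
    (((((X : K[X]) ^ (j.1.2 : ℕ)) • D.e j.1.1) ^ p ^ c) (σ l).1).coeff (σ l).2 with hWd
  have : Fact p.Prime := ⟨hp⟩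
  have h1 : ∀ P ∈ B, (p ^ c : ℤ) *
      log (P.v (Matrix.of fun j l : I2 D.a m => (f P j l.1.1).coeff l.1.2).det) +
      log (P.v W.det) ≤ (Fintype.card (I2 D.a m) * N P : ℕ) := fun P hP => by
    obtain ⟨hf, hU⟩ := hB P hP
    set U : Matrix (I2 D.a m) (I2 D.a m) K :=
      Matrix.of fun j l : I2 D.a m => (f P j l.1.1).coeff l.1.2 with hUd
    have e : (iterateFrobenius K p c).mapMatrix U * W =
        Matrix.of fun j l => ((f P j ^ p ^ c) (σ l).1).coeff (σ l).2 := by
      ext j l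
      rw [Matrix.of_apply, frob_lfr hTUP hp D m c _ _ _ (hσ l).1 (hσ l).2, Matrix.mul_apply]
      rfl
    have e2 : P.v ((iterateFrobenius K p c).mapMatrix U * W).det ≤
        exp (N P : ℤ) ^ Fintype.card (I2 D.a m) := by
      rw [e]
      exact v_det_le _ fun j l => (le_gv _ _ _).trans (hN P _ (pow_mem (hf j) _) _)
    have u0 : P.v U.det ≠ 0 := by simpa using hU
    have w0 : P.v W.det ≠ 0 := by simpa using hW
    rw [Matrix.det_mul, ← RingHom.map_det, iterateFrobenius_def, map_mul, map_pow, ← exp_nsmul,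
      ← log_le_iff_le_exp (mul_ne_zero (pow_ne_zero _ u0) w0), log_mul (pow_ne_zero _ u0) w0,
      log_pow] at e2
    simpa using e2
  have h2 : ∀ P ∉ B, log (P.v W.det) ≤ 0 := fun P hP => by
    have w0 : P.v W.det ≠ 0 := by simpa using hW
    rw [log_le_iff_le_exp w0, exp_zero]
    refine v_det_le_one _ fun j l => (le_gv _ _ _).trans (good_lfr P (hG P hP) (fun i => ?_) _ _)
    rw [Str.smul_apply, Str.e_apply]
    split_ifs <;> simp
  obtain ⟨hfin, hsum⟩ := hPF _ hW
  have h3 := hsum (B ∪ hfin.toFinset) fun P hP => by simp [hP]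
  rw [← Finset.sum_sdiff (Finset.subset_union_left (s₂ := hfin.toFinset))] at h3
  have h4 : ∑ P ∈ (B ∪ hfin.toFinset) \ B, log (P.v W.det) ≤ 0 :=
    Finset.sum_nonpos fun P hP => h2 P (Finset.mem_sdiff.1 hP).2
  have h5 := Finset.sum_le_sum h1
  rw [Finset.sum_add_distrib, ← Finset.mul_sum, ← Nat.cast_sum, ← hc] at h5
  have h6 : (c : ℤ) < p ^ c := by exact_mod_cast Nat.lt_pow_self hp.one_lt
  have h7 : (0 : ℤ) < p ^ c := by exact_mod_cast pow_pos hp.pos c
  nlinarith [not_le.1 hS]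

end Pool.Agent.P.MP_ab0431_ag.UB

namespace Pool.Agent.P.MP_ab0431_ag.UB

open Polynomial WithZero
open MP_6f117a_ag (Place)

theorem pow_lloss {K : Type} [Field K] {v : Valuation K ℤᵐ⁰} {b : ℕ} {D : Str K[X] b}
    {g c : K[X]} {a s : D.A} (hg : gv v g ≤ 1) (hc : gv v c ≤ 1) (ha : a ∈ In v D)
    (hs : s ∈ In v D) (j : ℕ) :
    ∃ r ∈ In v D, (c • s + g • a) ^ j = g ^ j • a ^ j + c • r := by
  induction j with
  | zero => exact ⟨0, zero_mem _, by simp⟩
  | succ j ih =>
    obtain ⟨r, h1, h2⟩ := ih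
    refine ⟨g ^ j • (a ^ j * s) + r * (c • s + g • a), add_mem (In.smul ?_
      (mul_mem (pow_mem ha j) hs)) (mul_mem h1 (add_mem (In.smul hc hs) (In.smul hg ha))), ?_⟩
    · rw [map_pow]; exact pow_le_one₀ zero_le hg
    · rw [pow_succ, h2]
      simp only [Algebra.smul_def, map_pow]
      ring

theorem p_LLOSS (hLDOWN : S_LDOWN) (hTUP : S_TUP) (hCHI : S_CHI) (hCHS : S_CHS) :
    S_LLOSS := by
  intro k K _ _ _ P b m D o s a hb ho hs e
  have key := hLDOWN k K P b D.toStr o (b + 1) hb fun n hn hy j hj => ?_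
  · rwa [add_sub_cancel_right, zpow_natCast] at key
  have hv : P.v (P.π ^ n) ≤ exp (-b : ℤ) := by rw [v_πz, exp_le_exp]; omega
  have hc : gv P.v (C (P.π ^ n)) ≤ 1 := by
    rw [gv_C]
    refine hv.trans ?_
    rw [← exp_zero, exp_le_exp]; omega
  have hg : gv P.v (X ^ (m + 1) : K[X]) = 1 := by rw [map_pow, gv_X, one_pow]
  have e' : C (P.π ^ n) • o = C (P.π ^ n) • s + (X ^ (m + 1) : K[X]) • (C (P.π ^ n) • a) := by
    rw [e, smul_add, smul_comm]
  have ha : C (P.π ^ n) • a ∈ In P.v D.toStr := by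
    have h1 : (X ^ (m + 1) : K[X]) • (C (P.π ^ n) • a) ∈ In P.v D.toStr := by
      have := sub_mem hy (In.smul hc hs)
      rwa [e', add_sub_cancel_left] at this
    refine in_of_ch fun i => ?_
    have := In.ch hCHI h1 i
    rwa [(hCHS _ b D.toStr _).1, map_mul, map_pow, hg, one_pow, one_mul] at this
  have hd : D.Deg m (C (P.π ^ n) • o) := fun i l hl => by
    rw [Str.smul_apply, coeff_C_mul, ho i l hl, mul_zero]
  refine (gv_le _).2 fun l => ?_
  by_cases hl : j * m < l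
  · rw [deg_tr hTUP hCHS (deg_pow hTUP hd j) hl, map_zero]
    exact zero_le
  obtain ⟨r, h1, h2⟩ := pow_lloss hg.le hc ha hs j
  have h3 : ¬(m + 1) * j ≤ l := by nlinarith
  rw [e', h2, map_add, map_smul, map_smul, smul_eq_mul, smul_eq_mul, coeff_add, ← pow_mul,
    coeff_X_pow_mul', if_neg h3, zero_add, coeff_C_mul, map_mul]
  exact (mul_le_of_le_one_right' ((le_gv _ _ l).trans (In.tr hCHI hCHS h1))).trans hv

end Pool.Agent.P.MP_ab0431_ag.UB

namespace Pool.Agent.P.MP_ab0431_ag.UB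

open Polynomial WithZero
open MP_6f117a_ag (Place)

theorem loc_lkey (hLTRI : S_LTRI) (hLWD : S_LWD) (hLLOSS : S_LLOSS) {k K : Type} [Field k]
    [Field K] [Algebra k K] {b : ℕ} (m : ℕ) (D : Dat K b) (P : Place k K) (w : Fin b → D.A)
    (hch : Chb k b) (hw : ∀ i, w i ∈ In P.v D.toStr)
    (hd : (Matrix.of fun i l => w i l).det.eval 0 ≠ 0) :
    ∃ (f : I2 D.a m → D.A) (U : Matrix (J D.a m) (J D.a m) K), (∀ j, f j ∈ In P.v D.toStr) ∧
      (Matrix.of fun j l : I2 D.a m => (f j l.1.1).coeff l.1.2).det ≠ 0 ∧ U.det ≠ 0 ∧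
      (∀ j, C (P.π ^ b) • D.el m (U j) ∈ In P.v D.toStr) ∧
      (m + 1) * log (P.v ((Matrix.of fun i l => w i l).det.eval 0)) =
        log (P.v (Matrix.of fun j l : I2 D.a m => (f j l.1.1).coeff l.1.2).det) +
          log (P.v U.det) := by
  have h1 := hLWD K b m (Matrix.of fun i l => w i l)
  set W : Matrix (Fin b × Fin (m + 1)) (Fin b × Fin (m + 1)) K := Matrix.of fun p q =>
    (X ^ (p.2 : ℕ) * (Matrix.of fun i l => w i l) p.1 q.1).coeff q.2 with hW
  have h2 : W.det ≠ 0 := by rw [h1]; exact pow_ne_zero _ hd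
  obtain ⟨ρ, T, hT, hz, hv⟩ := hLTRI K _ (fun p : Fin b × Fin (m + 1) => (p.2 : ℕ) + D.a p.1 ≤ m)
    P.v W h2
  have hg : ∀ r : Fin b × Fin (m + 1), (X ^ (r.2 : ℕ) : K[X]) • w r.1 ∈ In P.v D.toStr :=
    fun r => In.smul (by simp) (hw _)
  have h3 := (mul_ne_zero_iff.1 (hv ▸ (Valuation.ne_zero_iff P.v).2 h2))
  refine ⟨fun j => (X ^ ((ρ j).2 : ℕ) : K[X]) • w (ρ j).1,
    Matrix.of fun j j' => (T * W) j j', fun j => hg _, (Valuation.ne_zero_iff P.v).1 h3.1,
    (Valuation.ne_zero_iff P.v).1 h3.2, fun j => ?_, ?_⟩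
  · set s : D.A := ∑ r, C (T j r) • (X ^ (r.2 : ℕ) : K[X]) • w r.1 with hs
    have h4 : s ∈ In P.v D.toStr :=
      Subalgebra.sum_mem _ fun r _ => In.smul (by simpa using hT j r) (hg r)
    have h5 : ∀ q : Fin b × Fin (m + 1), (s q.1).coeff q.2 = (T * W) j q := fun q => by
      rw [hs, Str.sum_apply, finsetSum_coeff, Matrix.mul_apply]
      exact Finset.sum_congr rfl fun r _ => by rw [Str.smul_apply, coeff_C_mul]; rfl
    obtain ⟨α, β, h6, h7⟩ : Triv D m (m + 1) s := triv_iff.2 fun i n hn h =>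
      (h5 (i, ⟨n, hn⟩)).trans (hz j ⟨(i, ⟨n, hn⟩), by simpa using h⟩)
    have h8 : α = D.el m ((Matrix.of fun j j' : J D.a m => (T * W) j j') j) := by
      rw [h6.eq_el]
      congr 1
      funext q
      rw [Matrix.of_apply, ← h5, h7, Str.add_apply, Str.smul_apply, coeff_add, coeff_X_pow_mul',
        if_neg q.1.2.2.not_ge, add_zero]
    rw [← h8]
    exact hLLOSS k K P b m D α s (-β) hch h6 h4 (by rw [h7, smul_neg, add_neg_cancel_right])
  · have h4 := congrArg log hv
    rw [log_mul h3.1 h3.2, h1, map_pow, log_pow] at h4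
    exact Eq.trans (by simp) h4

theorem p_LKEY (hLTRI : S_LTRI) (hLWD : S_LWD) (hLFR : S_LFR) (hLLOSS : S_LLOSS) :
    S_LKEY := by
  intro k K _ _ _ p _ b m D B w hPF hp hch hsep hwp hG hB
  have h1 := fun P (h : P ∈ B) =>
    loc_lkey hLTRI hLWD hLLOSS m D P (w P) hch (hB P h).1 (hB P h).2
  choose! f U h1 h2 h3 h4 h5 using h1
  have h6 := hLFR k K p b m D B f hPF hp hsep hwp hG fun P h => ⟨h1 P h, h2 P h⟩
  refine ⟨U, fun P h => ⟨h3 P h, h4 P h⟩, ?_⟩
  rw [Finset.mul_sum, Finset.sum_congr rfl h5, Finset.sum_add_distrib]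
  exact add_le_of_nonpos_left h6

end Pool.Agent.P.MP_ab0431_ag.UB
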