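import Pool.Agent.P.MP_ab0431_ag.UB.IfaceB3
import Pool.Agent.P.MP_ab0431_ag.UB.IfaceO

/-! Steps LPL LSH LGEN LHT LBAD LVAL LTHL LPF. -/

set_option autoImplicit false
set_option linter.unusedSectionVars false
set_option linter.unusedVariables false

namespace Pool.Agent.P.MP_ab0431_ag.UB

open Polynomial WithZero
open MP_6f117a_ag (Place)

section

variable {K : Type} [Field K] {b : ℕ} {D : Dat K b} {x : K} {χ : Fin b → K}

/-- the value at a point of a fibre -/
noncomputable def val_lpl (h : (D.fib x).IsPt χ) : D.A →+* K :=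
  h.hom.toRingHom.comp (D.toStr.mapA (evalRingHom x))

theorem apply_lpl (h : (D.fib x).IsPt χ) (o : D.A) :
    val_lpl h o = ∑ i, (o i).eval x * χ i := rfl

theorem smul_lpl (h : (D.fib x).IsPt χ) (g : K[X]) (o : D.A) :
    val_lpl h (g • o) = g.eval x * val_lpl h o := by
  simp only [apply_lpl, Str.smul_apply, eval_mul, Finset.mul_sum, mul_assoc]

theorem int_lpl (h : (D.fib x).IsPt χ) (v : Valuation K ℤᵐ⁰) (hx : v x ≤ 1) {o : D.A}
    (ho : o ∈ In v D.toStr) : v (val_lpl h o) ≤ 1 := by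
  let ψ : (gv v).integer →+* v.integer :=
    ((evalRingHom x).comp (gv v).integer.subtype).codRestrict _ fun g =>
      (v_eval_le v hx g.1).trans g.2
  refine (Valuation.integer.integers v).mem_of_integral
    (IsIntegral.map_of_comp_eq ψ (val_lpl h) (RingHom.ext fun g => ?_) ho)
  change g.1.eval x = val_lpl h (algebraMap K[X] D.A g.1)
  rw [Algebra.algebraMap_eq_smul_one, smul_lpl, map_one, mul_one]

theorem el_lpl {v : Valuation K ℤᵐ⁰} (hγ : ∀ i j l, gv v (D.γ i j l) ≤ 1) {m : ℕ}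
    {l : J D.a m → K} (hl : ∀ p, v (l p) ≤ 1) : D.el m l ∈ In v D.toStr :=
  in_of_coord hγ fun i => (gv v).map_sum_le fun p _ => by
    split_ifs
    · rw [gv_monomial]; exact hl p
    · simp

theorem vec_lpl (m : ℕ) (l : J D.a m → K) (N : Matrix (J D.a m) (J D.a m) K) :
    D.el m (Matrix.vecMul l N) = ∑ j, C (l j) • D.el m (N j) := by
  rw [← el_sum, Matrix.vecMul_eq_sum]

end

theorem p_LPL (hLCOLS : S_LCOLS) :
    S_LPL := by
  classical
  intro k K _ _ _ b m D B U hPF ⟨x, hx, hχ⟩ hG hU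
  choose χ hχ hdet using hχ
  let φ : Fin (m + 1) × Fin b → D.A →+* K := fun w => val_lpl (hχ w.1 w.2)
  have lin : ∀ (l : J D.a m → K) (N : Matrix (J D.a m) (J D.a m) K) w,
      φ w (D.el m (Matrix.vecMul l N)) = ∑ j, l j * φ w (D.el m (N j)) := fun l N w => by
    rw [vec_lpl, map_sum]
    exact Finset.sum_congr rfl fun j _ => by rw [smul_lpl, eval_C]
  obtain ⟨σ, hσ⟩ := hLCOLS K (J D.a m) (Fin (m + 1) × Fin b)
    (fun l w => φ w (D.el m ((1 : Matrix (J D.a m) (J D.a m) K) l))) fun l hl => by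
      have h1 : ∀ r, (fun i => (D.el m l i).eval (algebraMap k K (x r))) = 0 := fun r =>
        Matrix.eq_zero_of_mulVec_eq_zero (hdet r) (funext fun j => by
          have := hl (r, j)
          rw [← lin, Matrix.vecMul_one, apply_lpl] at this
          rw [Matrix.mulVec, dotProduct]
          exact (Finset.sum_congr rfl fun i _ => mul_comm _ _).trans this)
      funext p
      have h2 : D.el m l p.1.1 = 0 := eq_zero_of_natDegree_lt_card_of_eval_eq_zero _
        ((algebraMap k K).injective.comp hx) (fun r => congrFun (h1 r) p.1.1) (by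
          rw [Fintype.card_fin, Nat.lt_succ_iff]
          exact natDegree_le_iff_coeff_eq_zero.2 fun n hn => D.el_deg m l _ n (by omega))
      rw [← D.el_coeff m l p, h2, coeff_zero, Pi.zero_apply]
  set M : Matrix (J D.a m) (J D.a m) K :=
    Matrix.of fun i j => φ (σ j) (D.el m ((1 : Matrix (J D.a m) (J D.a m) K) i)) with hM
  have hMv : ∀ (l : J D.a m → K) j, Matrix.vecMul l M j = φ (σ j) (D.el m l) := fun l j => by
    conv_rhs => rw [← Matrix.vecMul_one l, lin]
    rfl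
  let U' : Place k K → Matrix (J D.a m) (J D.a m) K := fun P => if P ∈ B then U P else 1
  have hU' : ∀ P, (U' P).det ≠ 0 ∧ ∀ j, D.el m (U' P j) ∈ In P.v D.toStr := fun P => by
    by_cases h : P ∈ B
    · simp only [U', if_pos h]; exact hU P h
    · simp only [U', if_neg h]
      refine ⟨by simp, fun j => el_lpl (hG P h).1 fun p => ?_⟩
      rw [Matrix.one_apply]
      split_ifs <;> simp
  have hA : ∀ P : Place k K, ∀ i j, P.v ((U' P * M) i j) ≤ 1 := fun P i j => by
    have : (U' P * M) i j = Matrix.vecMul (U' P i) M j := rfl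
    rw [this, hMv]
    exact int_lpl _ P.v (P.triv _) ((hU' P).2 i)
  have hA0 : ∀ P, (U' P * M).det ≠ 0 := fun P => by
    rw [Matrix.det_mul]; exact mul_ne_zero (hU' P).1 hσ
  have hv0 : ∀ (P : Place k K) {y : K}, y ≠ 0 → P.v y ≠ 0 := fun P y hy =>
    (Valuation.ne_zero_iff _).2 hy
  have hn : ∀ P : Place k K, (((-log (P.v (U' P * M).det)).toNat : ℕ) : ℤ) =
      -log (P.v (U' P * M).det) := fun P => by
    refine Int.toNat_of_nonneg (neg_nonneg.2 ?_)
    have := v_det_le_one P.v (hA P)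
    rwa [← exp_log (hv0 P (hA0 P)), ← exp_zero, exp_le_exp] at this
  have uM : IsUnit M.det := isUnit_iff_ne_zero.2 hσ
  refine ⟨fun P => (-log (P.v (U' P * M).det)).toNat,
    ⟨fun j => D.el m (M⁻¹ j), fun j => D.el_deg m _, fun o ho => ?_, fun P j => ?_⟩, fun Z => ?_⟩
  · refine ⟨Matrix.vecMul (fun p => (o p.1.1).coeff p.1.2) M, ?_⟩
    rw [← vec_lpl, Matrix.vecMul_vecMul, Matrix.mul_nonsing_inv _ uM, Matrix.vecMul_one]
    exact ho.eq_el
  · have e1 : M⁻¹ = (U' P * M)⁻¹ * U' P := by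
      refine Matrix.inv_eq_left_inv ?_
      rw [Matrix.mul_assoc, Matrix.nonsing_inv_mul _ (isUnit_iff_ne_zero.2 (hA0 P))]
    have e2 : M⁻¹ j = Matrix.vecMul ((U' P * M)⁻¹ j) (U' P) := by rw [e1]; rfl
    beta_reduce
    rw [e2, vec_lpl, Finset.smul_sum]
    refine Subalgebra.sum_mem _ fun i _ => ?_
    rw [smul_smul, ← C_mul]
    refine In.smul ?_ ((hU' P).2 i)
    rw [gv_C, Matrix.inv_def, Matrix.smul_apply, smul_eq_mul, Ring.inverse_eq_inv', ← mul_assoc,
      map_mul, map_mul, v_πn, hn, neg_neg, exp_log (hv0 P (hA0 P)), map_inv₀,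
      mul_inv_cancel₀ (hv0 P (hA0 P)), one_mul]
    exact v_adj_le_one P.v (hA P) _ _
  · obtain ⟨hf, hs⟩ := hPF M.det hσ
    calc ∑ P ∈ Z, (((-log (P.v (U' P * M).det)).toNat : ℕ) : ℤ)
        ≤ ∑ P ∈ Z ∪ (B ∪ hf.toFinset), (((-log (P.v (U' P * M).det)).toNat : ℕ) : ℤ) :=
          Finset.sum_le_sum_of_subset_of_nonneg Finset.subset_union_left
            fun _ _ _ => Nat.cast_nonneg _
      _ = -(∑ P ∈ Z ∪ (B ∪ hf.toFinset), log (P.v (U' P).det) +
          ∑ P ∈ Z ∪ (B ∪ hf.toFinset), log (P.v M.det)) := by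
          rw [← Finset.sum_add_distrib, ← Finset.sum_neg_distrib]
          refine Finset.sum_congr rfl fun P _ => ?_
          rw [hn, Matrix.det_mul, map_mul, log_mul (hv0 P (hU' P).1) (hv0 P hσ)]
      _ = _ := by
          rw [hs _ fun P hP => by simp [hP], add_zero, neg_inj]
          refine (Finset.sum_subset (Finset.subset_union_left.trans Finset.subset_union_right)
            fun P _ hP => by simp [U', hP]).symm.trans (Finset.sum_congr rfl fun P hP => ?_)
          simp only [U', if_pos hP]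

end Pool.Agent.P.MP_ab0431_ag.UB

namespace Pool.Agent.P.MP_ab0431_ag.UB

open Polynomial WithZero
open MP_6f117a_ag (Place)

theorem van_lsh {K : Type} [Field K] (y : K) {f : K[X]} {A c : ℕ}
    (h : ∀ n, A < n + c → f.coeff n = 0) (n : ℕ) (hn : A < n + c) : (taylor y f).coeff n = 0 :=
  coeff_eq_zero_of_degree_lt ((degree_taylor f y).trans_lt
    ((degree_lt_iff_coeff_zero f n).2 fun m hm => h m (by omega)))

/-- The shifted cover. -/
noncomputable def sh_lsh {K : Type} [Field K] {b : ℕ} (D : Dat K b) (y : K) : Dat K b where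
  toStr := D.toStr.map (taylorAlgHom y).toRingHom
  a := D.a
  dγ i j l := van_lsh y (D.dγ i j l)
  d1 i := van_lsh y (D.d1 i)
  c := D.c
  P := taylor y D.P
  P1 := by
    have h1 := leadingCoeff_taylor y D.P
    rwa [D.P_monic.leadingCoeff, leadingCoeff, natDegree_taylor, D.P_natDegree] at h1
  P0 := van_lsh y (c := 0) D.P0
  hd := by
    rw [Str.disc_map, D.hd, map_mul]
    exact congrArg (· * _) (taylor_C y _)

theorem p_LSH (hCHI : S_CHI) :
    S_LSH := by
  intro k K _ _ _ b m D x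
  set y := algebraMap k K x with hy
  let τ := D.toStr.mapA (taylorAlgHom y).toRingHom
  have hτ : ∀ o i, τ o i = taylor y (o i) := fun _ _ => rfl
  have hC : ∀ (g : K) o, τ (C g • o) = (C g : K[X]) • τ o := fun g o =>
    (D.toStr.mapA_smul _ _ o).trans (congrArg (· • τ o) (taylor_C y g))
  have hI : ∀ (P : Place k K) o, o ∈ In P.v D.toStr ↔ τ o ∈ In P.v (sh_lsh D y).toStr := by
    intro P o
    have e : ∀ j, gv P.v (((sh_lsh D y).ch (τ o)).coeff j) = gv P.v ((D.ch o).coeff j) := fun j => by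
      rw [← gv_taylor P.v (P.triv x) ((D.ch o).coeff j)]
      exact congrArg _ ((congrArg (coeff · j) (D.toStr.ch_map _ o)).trans (coeff_map _ _))
    exact ⟨fun h => in_of_ch fun j => (e j).trans_le (In.ch hCHI h j),
      fun h => in_of_ch fun j => (e j).symm.trans_le (In.ch hCHI h j)⟩
  refine ⟨sh_lsh D y, τ, rfl, fun h => ?_, hτ, fun P h => ⟨fun i j l => ?_, fun i => ?_⟩,
    fun P o => (hI P o).1, fun ⟨z, hz, h⟩ => ⟨fun r => z r - x, fun r r' e => ?_, fun r => ?_⟩,
    fun n ⟨ε, h1, h2, h3⟩ => ?_⟩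
  · have := IsCoprime.map h (taylorAlgHom y).toRingHom
    change IsCoprime (taylor y D.P) (derivative (taylor y D.P))
    rw [taylor_apply, derivative_comp]
    simpa [taylor_apply] using this
  · exact (gv_taylor_le _ (P.triv x) _).trans (h.1 i j l)
  · exact (gv_taylor_le _ (P.triv x) _).trans (h.2 i)
  · exact hz (sub_left_injective e)
  · obtain ⟨χ, h1, h2⟩ := h r
    refine ⟨χ, fun j => ?_, h2⟩
    have := h1 j
    simp only [Str.IsPt, Str.map, sh_lsh, coe_evalRingHom, map_sub] at this ⊢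
    simp only [← taylor_eval_sub y (f := _) (algebraMap k K (z r))] at this
    exact this
  · let ε' : J D.a m → D.A := fun j i => taylor (-y) (ε j i)
    have e : ∀ j, τ (ε' j) = ε j := fun j => funext fun i => by
      simp only [hτ, ε', taylor_taylor, add_neg_cancel, taylor_zero]
    refine ⟨ε', fun j i => van_lsh _ (h1 j i), fun o ho => ?_, fun P j => (hI P _).2 ?_⟩
    · obtain ⟨l, hl⟩ := h2 (τ o) fun i => van_lsh _ (ho i)
      have : τ o = τ (∑ j, C (l j) • ε' j) := by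
        rw [map_sum]
        exact hl.trans (Finset.sum_congr rfl fun j _ => by rw [hC, e]; rfl)
      exact ⟨l, funext fun i => taylor_injective y (congrFun this i)⟩
    · rw [hC, e]
      exact h3 P j

end Pool.Agent.P.MP_ab0431_ag.UB

namespace Pool.Agent.P.MP_ab0431_ag.UB

open Polynomial WithZero
open MP_6f117a_ag (Place)

theorem lgen_fin {k K : Type} [Field k] [Field K] [Algebra k K] (P : Place k K) (h : K[X]) :
    {x : k | P.v (h.eval (algebraMap k K x)) < gv P.v h}.Finite := by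
  classical
  by_contra hi
  obtain ⟨s, h1, h2⟩ := Set.Infinite.exists_subset_card_eq hi (h.natDegree + 1)
  obtain ⟨x, hx⟩ : s.Nonempty := Finset.card_pos.1 (by omega)
  have h0 : gv P.v h ≠ 0 := (zero_le.trans_lt (h1 hx)).ne'
  have e := Lagrange.eq_interpolate (s := s) (v := algebraMap k K) (f := h)
    (algebraMap k K).injective.injOn (by
      rw [h2]; exact degree_le_natDegree.trans_lt (Nat.cast_lt.2 (Nat.lt_succ_self _)))
  refine lt_irrefl (gv P.v h) ?_
  conv_lhs => rw [e, Lagrange.interpolate_apply]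
  refine (gv P.v).map_sum_lt h0 fun i hi => ?_
  rw [map_mul, gv_C]
  refine (mul_le_of_le_one_right' ?_).trans_lt (h1 hi)
  rw [Lagrange.basis, map_prod]
  refine Finset.prod_le_one' fun j _ => ?_
  rw [Lagrange.basisDivisor, map_mul, gv_C, ← map_sub, ← map_inv₀]
  exact mul_le_one' (P.triv _) ((gv P.v).map_sub_le (gv_X _).le (by rw [gv_C]; exact P.triv _))

theorem p_LGEN :
    S_LGEN := by
  intro k K _ _ _ _ B h
  obtain ⟨x, hx⟩ := (B.finite_toSet.biUnion fun P _ => lgen_fin P (h P)).exists_notMem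
  exact ⟨x, fun P hP => (v_eval_le _ (P.triv x) _).eq_of_not_lt fun e =>
    hx (Set.mem_biUnion hP e)⟩

end Pool.Agent.P.MP_ab0431_ag.UB

namespace Pool.Agent.P.MP_ab0431_ag.UB

open Polynomial WithZero
open MP_6f117a_ag (Place)

theorem card_lht {b : ℕ} (a : Fin b → ℕ) (m : ℕ) : Fintype.card (J a m) ≤ b * (m + 1) := by
  simpa using Fintype.card_subtype_le fun p : Fin b × Fin (m + 1) => (p.2 : ℕ) + a p.1 ≤ m

theorem tame_lht {k K : Type} [Field k] [Field K] [Algebra k K] (P : Place k K) {b : ℕ}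
    (D : Dat K b) (h : K[X]) (H : exp (-b ^ 2 : ℤ) ≤ gv P.v h ^ 2 * gv P.v D.disc) :
    gv P.v h ≠ 0 ∧ -(b : ℤ) ^ 2 ≤ 2 * log (gv P.v h) + log (P.v D.c) + log (gv P.v D.P) := by
  have h0 : gv P.v h ≠ 0 := fun e => by
    rw [e, zero_pow two_ne_zero, zero_mul] at H
    exact exp_ne_zero (le_zero_iff.1 H)
  have h1 : P.v D.c ≠ 0 := by simp
  have h2 : gv P.v D.P ≠ 0 := fun e => D.P_monic.ne_zero ((gv_eq_zero _).1 e)
  have h3 := le_log_of_exp_le H
  rw [D.hd, map_mul, gv_C, log_mul (pow_ne_zero 2 h0) (mul_ne_zero h1 h2), log_mul h1 h2,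
    log_pow] at h3
  refine ⟨h0, h3.trans_eq ?_⟩
  simp [add_assoc]

theorem p_LHT (hLTAME : S_LTAME) (hLKEY : S_LKEY) (hLPL : S_LPL) (hLSH : S_LSH) (hLGEN : S_LGEN) :
    S_LHT := by
  intro k K _ _ _ _ p _ b m D B hPF hp hC hs hw hB hPts
  choose w hw1 hw2 using fun P : Place k K => hLTAME k K P b D.toStr hC (disc_ne D)
  have hw3 := fun P => tame_lht P D _ (hw2 P)
  obtain ⟨x, hx⟩ := hLGEN k K B fun P => (Matrix.of fun i l => w P i l).det
  obtain ⟨D', τ, e1, e2, e3, e4, e5, e6, e7⟩ := hLSH k K b m D x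
  have hdet : ∀ P, (Matrix.of fun i l => τ (w P i) l).det.eval 0 =
      (Matrix.of fun i l => w P i l).det.eval (algebraMap k K x) := fun P => by
    rw [← coe_evalRingHom, ← coe_evalRingHom, RingHom.map_det, RingHom.map_det]
    congr 1
    ext i l
    simp [e3, taylor_eval]
  have gd : ∀ P ∉ B, Gd P D'.toStr := fun P hP => e4 P (hB P hP).1
  obtain ⟨U, hU1, hU2⟩ := hLKEY k K p b m D' B (fun P i => τ (w P i)) hPF hp hC (e2 hs)
    (e1 ▸ hw) gd fun P hP => ⟨fun i => e5 P _ (hw1 P i), fun e => (hw3 P).1 (by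
      rw [← hx P hP, ← hdet, e, map_zero])⟩
  obtain ⟨n, hn1, hn2⟩ := hLPL k K b m D' B (fun P => P.π ^ b • U P) hPF (e6 hPts) gd
    fun P hP => ⟨by
      rw [Matrix.det_smul]
      exact mul_ne_zero (pow_ne_zero _ (pow_ne_zero _ P.π_ne)) (hU1 P hP).1, fun j => by
      have := (hU1 P hP).2 j
      rwa [← el_smul] at this⟩
  refine ⟨n, e7 n hn1, fun Z => ?_⟩
  have a1 : ∑ P ∈ B, (log (P.v (U P).det) - (b : ℤ) ^ 2 * (m + 1)) ≤
      ∑ P ∈ B, log (P.v (P.π ^ b • U P).det) := Finset.sum_le_sum fun P hP => by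
    rw [Matrix.det_smul, map_mul, map_pow, v_πn, log_mul (pow_ne_zero _ exp_ne_zero)
      (by simpa using (hU1 P hP).1), log_pow, log_exp, nsmul_eq_mul]
    have : (Fintype.card (J D'.a m) : ℤ) ≤ b * (m + 1) := by exact_mod_cast card_lht D'.a m
    nlinarith [mul_le_mul_of_nonneg_right this (Int.natCast_nonneg b)]
  have a2 : ∑ P ∈ B, log (P.v ((Matrix.of fun i l => τ (w P i) l).det.eval 0)) =
      ∑ P ∈ B, log (gv P.v (Matrix.of fun i l => w P i l).det) :=
    Finset.sum_congr rfl fun P hP => by rw [hdet, hx P hP]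
  have a3 := Finset.sum_le_sum fun P (_ : P ∈ B) => (hw3 P).2
  have a4 := (hPF D.c D.c.ne_zero).2 B fun P hP => by_contra fun h => hP (hB P h).2
  rw [Finset.sum_add_distrib, Finset.sum_add_distrib, a4, ← Finset.mul_sum, Finset.sum_const,
    nsmul_eq_mul] at a3
  rw [Finset.sum_sub_distrib, Finset.sum_const, nsmul_eq_mul] at a1
  rw [a2] at hU2
  have a5 := mul_le_mul_of_nonneg_left a3 (show (0 : ℤ) ≤ m + 1 by positivity)
  have a6 := hn2 Z
  nlinarith

end Pool.Agent.P.MP_ab0431_ag.UB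

namespace Pool.Agent.P.MP_ab0431_ag.UB

open Polynomial WithZero
open MP_6f117a_ag (Place)

theorem zeros_lbad {k K : Type} [Field k] [Field K] [Algebra k K] (hPF : PF k K)
    (Y : Finset (Place k K)) {x : K} (hx : x ≠ 0) (h : ∀ P ∉ Y, P.v x ≤ 1) :
    ∃ Z : Finset (Place k K), (∀ P, P ∈ Z ↔ P ∉ Y ∧ P.v x < 1) ∧
      ∑ P ∈ Z, log (P.v x) = -∑ P ∈ Y, log (P.v x) := by
  classical
  obtain ⟨h1, h2⟩ := hPF x hx
  have h3 : {P : Place k K | P ∉ Y ∧ P.v x < 1}.Finite := h1.subset fun P hP => hP.2.ne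
  refine ⟨h3.toFinset, fun P => h3.mem_toFinset, ?_⟩
  have h4 := h2 (Y ∪ h3.toFinset) fun P hP => by
    by_cases e : P ∈ Y
    · exact Finset.mem_union_left _ e
    · exact Finset.mem_union_right _ (h3.mem_toFinset.2 ⟨e, (h P e).lt_of_ne hP⟩)
  rw [Finset.sum_union (Finset.disjoint_left.2 fun P e e' => (h3.mem_toFinset.1 e').1 e)] at h4
  omega

theorem p_LBAD :
    S_LBAD := by
  classical
  intro k K _ _ _ t θ W hPF ht ⟨P₀, hP₀⟩ hW hθ
  have t0 := MP_6f117a_ag.trans_ne ht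
  have w0 := MP_6f117a_ag.aeval_ne ht hW
  have hv : ∀ (P : Place k K) {x : K}, x ≠ 0 → P.v x ≠ 0 := fun P _ hx => (_root_.map_ne_zero _).2 hx
  obtain ⟨Y, hY⟩ : ∃ Y : Finset (Place k K), ∀ P, P ∈ Y ↔ 1 < P.v t :=
    ⟨((hPF t t0).1.subset fun P (hP : 1 < P.v t) => hP.ne').toFinset,
      fun P => Set.Finite.mem_toFinset _⟩
  have hY' : ∀ P ∉ Y, P.v t ≤ 1 := fun P hP => not_lt.1 fun h => hP ((hY P).2 h)
  have h1 : (Y.card : ℤ) ≤ ∑ P ∈ Y, log (P.v t) := by
    simpa using Finset.card_nsmul_le_sum Y (fun P => log (P.v t)) 1 fun P hP =>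
      lt_log_of_exp_lt (a := 0) ((hY P).1 hP)
  have h2 : 0 < Y.card := Finset.card_pos.2 ⟨P₀, (hY _).2 hP₀⟩
  obtain ⟨ρ, hρ⟩ := Int.eq_ofNat_of_zero_le (a := ∑ P ∈ Y, log (P.v t)) (by omega)
  obtain ⟨Z₀, z1, z2⟩ := zeros_lbad hPF Y w0 fun P hP => P.v_aeval (hY' P hP) W
  have h3 : ∑ P ∈ Y, log (P.v (aeval t W)) ≤ W.natDegree * ρ := by
    rw [← hρ, Finset.mul_sum]
    refine Finset.sum_le_sum fun P hP => ?_
    rw [← nsmul_eq_mul, ← log_pow, log_le_log (hv P w0) (pow_ne_zero _ (hv P t0)),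
      aeval_eq_sum_range]
    refine P.v.map_sum_le fun n hn => ?_
    rw [Algebra.smul_def, map_mul, map_pow]
    exact (mul_le_of_le_one_left' (P.triv _)).trans (pow_le_pow_right₀ ((hY P).1 hP).le
      (Nat.lt_succ_iff.1 (Finset.mem_range.1 hn)))
  have h4 : ∑ P ∈ Z₀, log (P.v (aeval t W)) ≤ Z₀.card • (-(W.natDegree + 1) : ℤ) := by
    refine Finset.sum_le_card_nsmul _ _ _ fun P hP => ?_
    have h5 := (log_lt_iff_lt_exp (a := 0) (hv P w0)).2 ((z1 P).1 hP).2
    rw [← hθ, map_pow, log_pow, nsmul_eq_mul] at h5 ⊢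
    have h6 : log (P.v θ) < 0 := by
      by_contra h
      exact h5.not_ge (mul_nonneg (by positivity) (not_lt.1 h))
    push_cast
    nlinarith
  have h5 : Z₀.card ≤ ρ := by
    rw [nsmul_eq_mul] at h4
    by_contra h
    have : (ρ : ℤ) + 1 ≤ Z₀.card := by omega
    nlinarith
  have hd : Disjoint Y Z₀ := Finset.disjoint_left.2 fun P e e' => ((z1 P).1 e').1 e
  refine ⟨Y ∪ Z₀, ρ, by omega, (Finset.card_union_le _ _).trans (by omega), fun P hP => ?_, ?_,
    fun s => ?_⟩
  · rw [Finset.mem_union, not_or] at hP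
    exact ⟨hY' P hP.1, (P.v_aeval (hY' P hP.1) W).eq_of_not_lt fun h => hP.2 ((z1 P).2 ⟨hP.1, h⟩)⟩
  · rw [Finset.sum_union hd, ← hρ, Finset.sum_eq_zero (s := Z₀), add_zero]
    · refine Finset.sum_congr rfl fun P hP => ?_
      rw [(gv P.v).map_sub_eq_of_lt_right (by simpa using (hY P).1 hP), gv_C]
    · intro P hP
      rw [le_antisymm ((gv P.v).map_sub_le (gv_X _).le (by simpa using hY' P ((z1 P).1 hP).1))
        (gv_monic _ (monic_X_sub_C t)), log_one]
  have s0 := MP_6f117a_ag.trans_ne (MP_6f117a_ag.trans_sub ht s)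
  have h6 : ∀ P ∈ Y, P.v (t - algebraMap k K s) = P.v t := fun P hP =>
    P.v.map_sub_eq_of_lt_left ((P.triv s).trans_lt ((hY P).1 hP))
  obtain ⟨Z, y1, y2⟩ := zeros_lbad hPF Y s0 fun P hP => P.v.map_sub_le (hY' P hP) (P.triv s)
  refine ⟨Z, fun P => (y1 P).trans (and_iff_right_of_imp fun h e => ?_), ?_, fun hs P hP => ?_⟩
  · rw [h6 P e] at h
    exact h.not_gt ((hY P).1 e)
  · rw [y2, ← hρ, Finset.sum_congr rfl fun P hP => congrArg log (h6 P hP)]
  · obtain ⟨e1, e2⟩ := (y1 P).1 hP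
    obtain ⟨q, hq⟩ := X_sub_C_dvd_sub_C_eval (a := s) (p := W)
    have h7 : aeval t W = algebraMap k K (W.eval s) + (t - algebraMap k K s) * aeval t q := by
      have := congrArg (aeval t) hq
      simp only [map_sub, map_mul, aeval_X, aeval_C] at this
      rw [← this]; ring
    refine ⟨hY' P e1, ?_⟩
    rw [h7, P.v.map_add_eq_of_lt_left, P.v_const hs]
    rw [P.v_const hs, map_mul]
    exact (mul_le_of_le_one_right' (P.v_aeval (hY' P e1) q)).trans_lt e2

end Pool.Agent.P.MP_ab0431_ag.UB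

namespace Pool.Agent.P.MP_ab0431_ag.UB

open Polynomial WithZero
open MP_6f117a_ag (Place)

theorem ev_le_lval {K σ : Type} [Field K] (v : Valuation K ℤᵐ⁰) (F : MvPolynomial σ K)
    (x : σ → K) (γ : ℤᵐ⁰) (N e : ℕ) (hF : ∀ α, v (F.coeff α) ≤ γ)
    (hx : ∀ i, v (x i) ≤ exp (N : ℤ)) (he : F.totalDegree ≤ e) :
    v (MvPolynomial.eval x F) ≤ γ * exp (e * N : ℤ) := by
  rw [MvPolynomial.eval_eq]
  refine v.map_sum_le fun α hα => ?_
  rw [map_mul, map_prod]
  refine mul_le_mul' (hF α) ?_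
  have h1 : ∏ i ∈ α.support, v (x i ^ α i) ≤ ∏ i ∈ α.support, exp (N : ℤ) ^ α i :=
    Finset.prod_le_prod' fun i _ => by rw [map_pow]; exact pow_le_pow_left' (hx i) _
  refine h1.trans ?_
  rw [Finset.prod_pow_eq_pow_sum, ← exp_nsmul, exp_le_exp, nsmul_eq_mul]
  have h2 : ∑ i ∈ α.support, α i ≤ e := (MvPolynomial.le_totalDegree hα).trans he
  exact mul_le_mul_of_nonneg_right (by exact_mod_cast h2) (Nat.cast_nonneg N)

theorem ex_lval {k K σ τ : Type} [Field k] [Infinite k] [Field K] [Algebra k K] [Fintype τ]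
    (F : MvPolynomial σ K) (c : τ → σ → K) (hF : F ≠ 0)
    (hc : ∀ x : σ → K, ∃ l : τ → K, ∀ p, x p = ∑ j, l j * c j p) :
    ∃ l : τ → k, MvPolynomial.eval (fun p => ∑ j, algebraMap k K (l j) * c j p) F ≠ 0 := by
  by_contra h
  push Not at h
  have := Infinite.of_injective _ (algebraMap k K).injective
  let Ψ : MvPolynomial τ K :=
    MvPolynomial.aeval (fun p => ∑ j, MvPolynomial.X j * MvPolynomial.C (c j p)) F
  have h1 : ∀ l : τ → K, MvPolynomial.eval l Ψ = MvPolynomial.eval (fun p => ∑ j, l j * c j p) F :=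
    fun l => by
      rw [← MvPolynomial.coe_aeval_eq_eval, ← MvPolynomial.coe_aeval_eq_eval]
      change (MvPolynomial.aeval l).comp (MvPolynomial.aeval _) F = _
      rw [MvPolynomial.comp_aeval]
      simp
  have h2 : Ψ = 0 := MvPolynomial.funext_set (fun _ => Set.range (algebraMap k K))
    (fun _ => Set.infinite_range_of_injective (algebraMap k K).injective) fun x hx => by
      choose l hl using fun j => hx j (Set.mem_univ j)
      rw [h1, map_zero, ← h l]
      simp only [hl]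
  refine hF (MvPolynomial.funext fun x => ?_)
  obtain ⟨l, hl⟩ := hc x
  rw [map_zero, funext hl, ← h1, h2, map_zero]

theorem gv_lval {k K : Type} [Field k] [Field K] [Algebra k K] (P : Place k K) {f : K[X]}
    {n j : ℕ} (h : gv P.v (C (P.π ^ n) ^ j * f) ≤ 1) : gv P.v f ≤ exp ((j * n : ℕ) : ℤ) := by
  rw [map_mul, map_pow, gv_C, v_πn, ← exp_nsmul] at h
  have h1 := mul_le_mul_right h (exp ((j * n : ℕ) : ℤ))
  rw [← mul_assoc, ← exp_add, mul_one] at h1
  simpa using h1

theorem p_LVAL (hPHI : S_PHI) (hCHI : S_CHI) (hCHS : S_CHS) (hLCOORD : S_LCOORD) :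
    S_LVAL := by
  intro k K _ _ _ _ b m κ D G n ⟨ε, h1, h2, h3⟩ hG hΦ
  have hc : ∀ (l : J D.a m → K) (p : J D.a m),
      ((∑ j, C (l j) • ε j : D.A) p.1.1).coeff p.1.2 = ∑ j, l j * (ε j p.1.1).coeff p.1.2 :=
    fun l p => by
      rw [Str.sum_apply, finsetSum_coeff]
      exact Finset.sum_congr rfl fun j _ => by rw [Str.smul_apply, coeff_C_mul]
  obtain ⟨l, hl⟩ := ex_lval (k := k) _ (fun j p => (ε j p.1.1).coeff p.1.2) hΦ fun x => by
    obtain ⟨l, hl⟩ := h2 _ (D.el_deg m x)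
    exact ⟨l, fun p => by rw [← hc, ← hl, D.el_coeff]⟩
  simp only [← hc] at hl
  set o : D.A := ∑ j, C (algebraMap k K (l j)) • ε j with ho
  have hd : D.Deg m o := deg_sum _ _ fun j _ => h1 j
  have hG' : (MvPolynomial.map (algebraMap k K) G).totalDegree ≤ κ :=
    (Finset.sup_mono (MvPolynomial.support_map_subset _ _)).trans hG
  obtain ⟨p1, -, p3⟩ := hPHI K b m D (MvPolynomial.map (algebraMap k K) G)
  refine ⟨_, hl, fun P => ?_⟩
  have hin : C (P.π ^ n P) • o ∈ In P.v D.toStr := by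
    rw [ho, Finset.smul_sum]
    refine Subalgebra.sum_mem _ fun j _ => ?_
    rw [smul_comm]
    exact In.smul (by rw [gv_C]; exact P.triv _) (h3 P j)
  refine ⟨?_, fun γ g1 g2 g3 => ?_⟩
  · rw [p1, ← hd.eq_el]
    refine (ev_le_lval P.v _ _ 1 (b * n P) κ (fun α => ?_) (fun p => ?_) hG').trans_eq ?_
    · rw [MvPolynomial.coeff_map]; exact P.triv _
    · have := In.ch hCHI hin p.1
      rw [(hCHS _ b D.toStr o).1] at this
      refine (le_gv _ _ _).trans ((gv_lval P this).trans (exp_le_exp.2 ?_))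
      exact_mod_cast Nat.mul_le_mul_right _ (Nat.sub_le _ _)
    · rw [one_mul]; congr 1; push_cast; ring
  · refine (ev_le_lval P.v _ _ γ (n P) (b * κ) g3 (fun p => ?_)
      (p3.trans (Nat.mul_le_mul_left b hG'))).trans_eq (by push_cast; rfl)
    have := (hLCOORD k K P b D.toStr (disc_ne D)).2 g1 g2 _ hin p.1.1
    rw [Str.smul_apply, ← pow_one (C (P.π ^ n P))] at this
    simpa using (le_gv _ _ _).trans (gv_lval P this)

end Pool.Agent.P.MP_ab0431_ag.UB

namespace Pool.Agent.P.MP_ab0431_ag.UB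

open Polynomial WithZero
open MP_6f117a_ag (Place)

theorem p_LTHL (hLHT : S_LHT) (hLBAD : S_LBAD) (hLVAL : S_LVAL) :
    S_LTHL := by
  classical
  intro k K _ _ _ _ p _ b m κ t θ W g D G S hPF hinf hp hb hw hθ hpts ht hW hg hP hγ hu hc hc' hG
    hS hs
  by_contra hne
  have : CharP K p := charP_of_injective_algebraMap (algebraMap k K).injective p
  have hch : Chb k b := fun j h1 h2 h =>
    Nat.not_dvd_of_pos_of_lt h1 (h2.trans_lt hb) ((CharP.cast_eq_zero_iff k p j).1 h)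
  have hsep : D.P.Separable := by
    rw [hP]
    refine hg.map.mul separable_X_sub_C ((irreducible_X_sub_C t).isRelPrime_iff_not_dvd.2
      fun h => ?_).isCoprime.symm
    rw [dvd_iff_isRoot, IsRoot, eval_map_algebraMap] at h
    exact ht ⟨g, hg.ne_zero, h⟩
  have hle : ∀ P : Place k K, gv P.v D.P ≤ gv P.v (X - C t) := fun P => by
    rw [hP, map_mul]
    exact mul_le_of_le_one_left' (gv_map P g)
  have good : ∀ P : Place k K, P.v t ≤ 1 → P.v (aeval t W) = 1 →
      (Gd P D.toStr ∧ P.v D.c = 1) ∧ gv P.v D.disc = 1 := fun P h1 h2 => by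
    have e : P.v D.c = 1 := le_antisymm (hc P h1 h2) (by
      have a : P.v D.c * P.v ((D.c⁻¹ : Kˣ) : K) = 1 := by rw [← map_mul, Units.mul_inv, map_one]
      rw [← a]
      exact mul_le_of_le_one_right' (hc' P h1 h2))
    refine ⟨⟨⟨fun i j l => (gv_le _).2 fun n => hγ i j l n P h1 h2,
      fun i => (gv_le _).2 fun n => hu i n P h1 h2⟩, e⟩, ?_⟩
    rw [D.hd, map_mul, gv_C, e, one_mul]
    exact le_antisymm ((hle P).trans ((gv P.v).map_sub_le (gv_X _).le (by rwa [gv_C])))
      (gv_monic _ D.P_monic)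
  obtain ⟨B, ρ, hρ, hB, hB', hBρ, hZ⟩ := hLBAD k K t θ W hPF ht hinf hW hθ
  choose Z hZ1 hZ2 hZ3 using hZ
  obtain ⟨n, hn, hn'⟩ := hLHT k K p b m D B hPF hp hch hsep hw
    (fun P h => (good P (hB' P h).1 (hB' P h).2).1) hpts
  have hsum : ∀ Y : Finset (Place k K), ∑ P ∈ Y, (n P : ℤ) ≤ del b m * ρ := fun Y => by
    have a := hn' Y
    have c : ∑ P ∈ B, log (gv P.v D.P) ≤ ρ := by
      rw [← hBρ]
      refine Finset.sum_le_sum fun P _ => ?_
      have d : gv P.v D.P ≠ 0 := fun h => D.P_monic.ne_zero ((gv_eq_zero _).1 h)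
      exact (log_le_log d fun h => X_sub_C_ne_zero t ((gv_eq_zero _).1 h)).2 (hle P)
    have d : (B.card : ℤ) ≤ 2 * ρ := by exact_mod_cast hB
    have e : 3 * (b : ℤ) ^ 2 * B.card ≤ 3 * b ^ 2 * (2 * ρ) := by gcongr
    have f : ((m : ℤ) + 1) * (3 * b ^ 2 * B.card + ∑ P ∈ B, log (gv P.v D.P)) ≤
        (m + 1) * (2 * ((4 * b ^ 2 + 1) * ρ)) := by
      refine mul_le_mul_of_nonneg_left ?_ (by positivity)
      have : (0 : ℤ) ≤ b ^ 2 * ρ := by positivity
      have : (0 : ℤ) ≤ ρ := by positivity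
      linarith
    simp only [del]
    push_cast
    linarith
  obtain ⟨y, hy, hv⟩ := hLVAL k K b m κ D G n hn hG hne
  have hts : ∀ s : k, t - algebraMap k K s ≠ 0 := fun s h =>
    ht (by rw [sub_eq_zero.1 h]; exact isAlgebraic_algebraMap s)
  have hvy : ∀ P : Place k K, P.v y ≠ 0 := fun P => (_root_.map_ne_zero _).2 hy
  have key : ∀ P : Place k K, log (P.v y) ≤ b * κ * n P +
      ∑ s ∈ S, if P ∈ Z s then log (P.v (t - algebraMap k K s)) else 0 := fun P => by
    by_cases h : ∃ s ∈ S, P ∈ Z s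
    · obtain ⟨s, h1, h2⟩ := h
      rw [Finset.sum_eq_single_of_mem s h1 fun s' _ e => if_neg fun h3 => ?_, if_pos h2]
      · obtain ⟨a, a'⟩ := hZ3 s (hs s h1).1 P h2
        have c := (hv P).2 (P.v (t - algebraMap k K s)) (good P a a').1.1 (good P a a').2
          fun α => by
            obtain ⟨ψ, c, d⟩ := (hs s h1).2 α
            rw [d, map_mul]
            exact mul_le_of_le_one_right' (c P a a')
        have d : P.v (t - algebraMap k K s) ≠ 0 := (_root_.map_ne_zero _).2 (hts s)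
        have e := (log_le_log (hvy P) (mul_ne_zero d exp_ne_zero)).2 c
        rw [log_mul d exp_ne_zero, log_exp] at e
        linarith
      · have a := P.v.map_sub_lt ((hZ1 s P).1 h2) ((hZ1 s' P).1 h3)
        rw [sub_sub_sub_cancel_left, ← map_sub, P.v_const (sub_ne_zero.2 e)] at a
        exact lt_irrefl _ a
    · rw [Finset.sum_eq_zero fun s h1 => if_neg fun h2 => h ⟨s, h1, h2⟩, add_zero]
      have e := (log_le_log (hvy P) exp_ne_zero).2 (hv P).1
      rwa [log_exp] at e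
  obtain ⟨f1, f2⟩ := hPF y hy
  have a := f2 (f1.toFinset ∪ S.biUnion Z) fun P h =>
    Finset.mem_union_left _ (f1.mem_toFinset.2 h)
  have c := Finset.sum_le_sum (s := f1.toFinset ∪ S.biUnion Z) fun P _ => key P
  rw [a, Finset.sum_add_distrib, ← Finset.mul_sum, Finset.sum_comm,
    Finset.sum_congr rfl fun s h => (Finset.sum_ite_mem _ _ _).trans (by
      rw [Finset.inter_eq_right.2 ((Finset.subset_biUnion_of_mem Z h).trans
        Finset.subset_union_right), hZ2]), Finset.sum_const, nsmul_eq_mul] at c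
  have d : (b : ℤ) * κ * ∑ P ∈ f1.toFinset ∪ S.biUnion Z, (n P : ℤ) ≤ b * κ * (del b m * ρ) :=
    mul_le_mul_of_nonneg_left (hsum _) (by positivity)
  have e : (b : ℤ) * κ * del b m < S.card := by exact_mod_cast hS
  have f : (0 : ℤ) < ρ := by exact_mod_cast hρ
  nlinarith

end Pool.Agent.P.MP_ab0431_ag.UB

namespace Pool.Agent.P.MP_ab0431_ag.UB

open Polynomial WithZero
open MP_6f117a_ag (Place)

namespace LPFx

open MP_6f117a_ag IsDedekindDomain
open scoped IntermediateField nonZeroDivisors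

variable {L K : Type} [Field L] [IsAlgClosed L] [Field K] [Algebra L K]

theorem mod {t : K} (ht : Transcendental L t) [FiniteDimensional L⟮t⟯ K]
    [Algebra.IsSeparable L⟮t⟯ K] :
    (∃ Z : Finset (Place L K), (∀ P, P ∈ Z ↔ P.v t < 1) ∧
      ∑ P ∈ Z, -log (P.v t) = Module.finrank L⟮t⟯ K) ∧
    ∀ P : Place L K, P.v t ≤ 1 → ∀ x, P.v x ≤ 1 → ∃ c, P.v (x - algebraMap L K c) < 1 := by
  let φ : L[X] →ₐ[L] L⟮t⟯ := aeval (IntermediateField.AdjoinSimple.gen L t)
  let _ : Algebra L[X] L⟮t⟯ := φ.toAlgebra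
  let _ : Algebra L[X] K := (aeval t : L[X] →ₐ[L] K).toAlgebra
  have hX : algebraMap L[X] K X = t := aeval_X t
  have : IsScalarTower L L[X] K := .of_algebraMap_eq fun c =>
    ((aeval t : L[X] →ₐ[L] K).commutes c).symm
  have : IsScalarTower L[X] L⟮t⟯ K := .of_algebraMap_eq fun p =>
    aeval_algebraMap_apply K (IntermediateField.AdjoinSimple.gen L t) p
  have : IsFractionRing L[X] L⟮t⟯ := IsLocalization.isLocalization_of_algEquiv L[X]⁰
    { (RatFunc.algEquivOfTranscendental t ht).toRingEquiv with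
      commutes' := RatFunc.algEquivOfTranscendental_algebraMap t ht : RatFunc L ≃ₐ[L[X]] L⟮t⟯ }
  have : Module.IsTorsionFree L[X] K := .trans_faithfulSMul L[X] L⟮t⟯ K
  let B := integralClosure L[X] K
  have : IsDedekindDomain B := integralClosure.isDedekindDomain L[X] L⟮t⟯ K
  have : IsFractionRing B K := integralClosure.isFractionRing_of_finite_extension L⟮t⟯ K
  have : Module.Finite L[X] B := IsIntegralClosure.finite L[X] L⟮t⟯ K B
  have : Module.Free L[X] B := IsIntegralClosure.module_free L[X] L⟮t⟯ K B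
  have rk := IsIntegralClosure.rank L[X] L⟮t⟯ K B
  refine ⟨by simpa only [hX, rk] using fund_aux (L := L) (K := K) (B := B), fun P h x hx => ?_⟩
  obtain ⟨w, rfl⟩ := exists_prime (B := B) P (hX ▸ h)
  obtain ⟨a, ha⟩ := w.exists_valuation_sub_lt_of_integer hx 1
  have := w.isMaximal
  obtain ⟨c, hc⟩ := (res_bij (L := L) w.asIdeal).2 (Ideal.Quotient.mk _ a)
  have h2 := (w.valuation_lt_one_iff_mem (K := K) _).2
    (Ideal.Quotient.eq.1 (hc.symm : _ = Ideal.Quotient.mk _ (algebraMap L B c)))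
  refine ⟨c, ?_⟩
  have e : x - algebraMap L K c =
      algebraMap B K (a - algebraMap L B c) - (algebraMap B K a - x) := by
    rw [map_sub, ← IsScalarTower.algebraMap_apply]; ring
  rw [e]
  exact (w.valuation K).map_sub_lt h2 ha

variable (L) in
/-- the product formula for one element -/
def P1 (x : K) : Prop := {P : Place L K | P.v x ≠ 1}.Finite ∧
  ∀ Z : Finset (Place L K), (∀ P, P.v x ≠ 1 → P ∈ Z) → ∑ P ∈ Z, log (P.v x) = 0

theorem P1.div {x y : K} (hx : P1 L x) (hy : P1 L y) (x0 : x ≠ 0) (y0 : y ≠ 0) :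
    P1 L (x / y) := by
  classical
  refine ⟨(hx.1.union hy.1).subset fun P h => by_contra fun e => h ?_, fun Z hZ => ?_⟩
  · simp only [Set.mem_union, Set.mem_ofPred_eq, not_or, not_not] at e
    rw [map_div₀, e.1, e.2, div_one]
  rw [Finset.sum_subset (s₂ := Z ∪ (hx.1.toFinset ∪ hy.1.toFinset)) Finset.subset_union_left
    fun P _ h => by rw [not_not.1 fun e => h (hZ P e), log_one],
    Finset.sum_congr rfl fun P _ => by
      rw [map_div₀, log_div (by simpa using x0) (by simpa using y0)],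
    Finset.sum_sub_distrib, hx.2 _ fun P h => by simp [h], hy.2 _ fun P h => by simp [h], sub_self]

theorem p1 [FF L K] {x : K} (ht : Transcendental L x) (hs : Algebra.IsSeparable L⟮x⟯ K) :
    P1 L x := by
  classical
  have := FF.fin x ht
  have := FF.fin _ (trans_inv ht)
  have : Algebra.IsSeparable L⟮x⁻¹⟯ K := by rwa [adjoin_inv]
  obtain ⟨Z₁, h1, e1⟩ := (mod ht).1
  obtain ⟨Z₂, h3, e2⟩ := (mod (trans_inv ht)).1
  have h2 : ∀ P, P ∈ Z₂ ↔ 1 < P.v x := fun P => (h3 P).trans (by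
    rw [map_inv₀, inv_lt_one₀ (zero_lt_iff.2 (by simpa using trans_ne ht))])
  rw [adjoin_inv] at e2
  simp only [map_inv₀, log_inv, neg_neg] at e2
  refine ⟨(Z₁.finite_toSet.union Z₂.finite_toSet).subset fun P h =>
    (lt_or_gt_of_ne h).imp (h1 P).2 (h2 P).2, fun Z hZ => ?_⟩
  rw [← Finset.sum_subset (s₁ := Z₁ ∪ Z₂) (fun P h => hZ P ((Finset.mem_union.1 h).elim
      (fun h => ((h1 P).1 h).ne) fun h => ((h2 P).1 h).ne')) fun P _ h => by
        rw [Finset.mem_union, h1, h2, not_or, not_lt, not_lt] at h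
        rw [le_antisymm h.2 h.1, log_one],
    Finset.sum_union (Finset.disjoint_left.2 fun P a b => ((h1 P).1 a).asymm ((h2 P).1 b)), e2,
    ← e1, Finset.sum_neg_distrib, add_neg_cancel]

theorem ex [Algebra.EssFiniteType L K] (h : Algebra.trdeg L K ≤ 1) {x : K}
    (hx : Transcendental L x) : ∃ z : K, Transcendental L z ∧ Algebra.IsSeparable L⟮z⟯ K := by
  obtain ⟨s, h1, h2⟩ := exists_isTranscendenceBasis_and_isSeparable_of_perfectField L K
  have : Algebra.Transcendental L K := ⟨x, hx⟩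
  have h3 := h1.cardinalMk_eq_trdeg.trans
    (le_antisymm h (Cardinal.one_le_iff_pos.2 (trdeg_pos L K)))
  obtain ⟨z, rfl⟩ := Finset.card_eq_one.1 (show s.card = 1 by simpa using h3)
  exact ⟨z, h1.1.transcendental ⟨z, by simp⟩, by rwa [Finset.coe_singleton] at h2⟩

theorem alt [FF L K] (h : Algebra.trdeg L K ≤ 1) {x z : K} (hx : Transcendental L x)
    (hz : Algebra.IsSeparable L⟮z⟯ K) :
    Algebra.IsSeparable L⟮x⟯ K ∨
      (Transcendental L (x * z) ∧ Algebra.IsSeparable L⟮x * z⟯ K) := by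
  obtain _ | ⟨p, hp, hpk⟩ := CharP.exists' L
  · have := FF.fin x hx
    exact .inl inferInstance
  have : ExpChar L p := .prime hp.out
  have : CharP K p := .of_ringHom_of_ne_zero (algebraMap L K) p hp.out.ne_zero
  have : Subsingleton {i : Bool // i ≠ false} := ⟨by decide⟩
  obtain ⟨i, h1, h2⟩ := exists_isTranscendenceBasis_and_isSeparable_of_linearIndepOn_pow
    (k := L) (a := fun b : Bool => cond b x (x * z)) p hp.out (fun s hs => by
      apply hs.map_of_injective_injective (frobeniusEquiv L p).symm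
        (frobenius K p).toAddMonoidHom <;>
      simp [frobenius, Algebra.smul_def, mul_pow, ← map_pow, frobeniusEquiv_symm_pow]) false
    (((algebraicIndependent_singleton_iff ⟨true, by decide⟩).2
      hx).isTranscendenceBasis_of_trdeg_le_of_finite (by simpa using h))
  have key : ∀ y : K, x ∈ separableClosure L⟮y⟯ K → x * z ∈ separableClosure L⟮y⟯ K →
      Algebra.IsSeparable L⟮y⟯ K := fun y a b => ⟨fun w =>
    (separableClosure_le_separableClosure_iff (F := L) (K := L⟮y⟯) (L := L⟮z⟯)).2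
      (IntermediateField.adjoin_simple_le_iff.2 (by
        simpa [mul_div_cancel_left₀ z (trans_ne hx)] using div_mem b a)) (hz.1 w)⟩
  have self : ∀ y : K, y ∈ separableClosure L⟮y⟯ K := fun y =>
    le_restrictScalars_separableClosure _ (IntermediateField.mem_adjoin_simple_self L y)
  rw [Bool.compl_singleton, Set.image_singleton] at h2
  cases i
  · exact .inl (key _ (self _) h2)
  · exact .inr ⟨h1.1.transcendental ⟨false, by decide⟩, key _ h2 (self _)⟩

end LPFx

open MP_6f117a_ag LPFx in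
theorem p_LPF :
    S_LPF := by
  intro k K _ _ _ _ _ h
  have := FF.of_fg (IntermediateField.fg_top k K) h
  have pf : PF k K := fun x x0 => by
    rcases const_or_trans (L := k) x with ⟨c, rfl⟩ | ht
    · have : ∀ P : Place k K, P.v (algebraMap k K c) = 1 := fun P =>
        P.v_const fun h => x0 (by rw [h, map_zero])
      simp [this]
    obtain ⟨z, z1, z2⟩ := ex h ht
    rcases alt h ht z2 with e | e
    · exact p1 ht e
    · have := (p1 e.1 e.2).div (p1 z1 z2) (trans_ne e.1) (trans_ne z1)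
      rwa [mul_div_cancel_right₀ x (trans_ne z1)] at this
  refine ⟨pf, fun t ht => by_contra fun hc => ?_⟩
  simp only [not_exists, not_lt] at hc
  obtain ⟨z, z1, z2⟩ := ex h ht
  have := FF.fin z z1
  obtain ⟨⟨Z, h1, h2⟩, h3⟩ := mod z1
  obtain ⟨P, hP⟩ : Z.Nonempty := Finset.nonempty_of_sum_ne_zero
    (h2 ▸ Nat.cast_ne_zero.2 Module.finrank_pos.ne')
  obtain ⟨c, h4⟩ := h3 P ((h1 P).1 hP).le t (hc P)
  have t0 := trans_ne (trans_sub ht c)
  obtain ⟨a, b⟩ := pf _ t0
  refine (Finset.sum_neg' (fun Q _ => ?_) ⟨P, by simpa using h4.ne, ?_⟩).ne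
    (b a.toFinset fun Q => a.mem_toFinset.2)
  · rw [log_le_iff_le_exp (by simpa using t0)]
    exact Q.v.map_sub_le (hc Q) (Q.triv c)
  · rw [log_lt_iff_lt_exp (by simpa using t0)]
    exact h4

end Pool.Agent.P.MP_ab0431_ag.UB
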