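import Pool.Agent.P.MP_ab0431_ag.UB.IfaceB3
import Pool.Agent.P.MP_ab0431_ag.UB.IfaceO
import Pool.Agent.P.MP_ab0431_ag.UB.IfaceT

/-! Steps LINEP LSPR LINE0. -/

set_option autoImplicit false
set_option linter.unusedSectionVars false
set_option linter.unusedVariables false

namespace Pool.Agent.P.MP_ab0431_ag.UB

open Polynomial WithZero
open MP_6f117a_ag (Place)

namespace LP

variable {k K : Type} [Field k] [Field K] [Algebra k K] {t : K} {W : k[X]}

/-- algebraic over `k[t]` -/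
def Alg (k : Type) [Field k] [Algebra k K] (t x : K) : Prop :=
  ∃ f : k[X][X], f ≠ 0 ∧ f.eval₂ (aeval t : k[X] →ₐ[k] K) x = 0

theorem exists_F (t : K) : ∃ F : IntermediateField k K, t ∈ F ∧ (∀ x ∈ F, Alg k t x) ∧
    ∀ x, IsIntegral F x → x ∈ F := by
  let _ : Algebra k[X] K := (aeval t : k[X] →ₐ[k] K).toAlgebra
  have : IsScalarTower k k[X] K := .of_algebraMap_eq fun c =>
    ((aeval t : k[X] →ₐ[k] K).commutes c).symm
  let A := Subalgebra.algebraicClosure k[X] K
  refine ⟨(A.restrictScalars k).toIntermediateField fun x hx => IsAlgebraic.inv hx, ?_,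
    fun x hx => hx, fun x hx => (show IsIntegral A x from hx).trans_isAlgebraic k[X]⟩
  have := A.algebraMap_mem X
  rwa [show algebraMap k[X] K X = t from aeval_X t] at this

theorem aeval_mem {F : IntermediateField k K} (h : t ∈ F) (p : k[X]) : aeval t p ∈ F := by
  rw [show t = F.val ⟨t, h⟩ from rfl, aeval_algHom_apply]
  exact SetLike.coe_mem _

theorem int_mem {F : IntermediateField k K} (h : t ∈ F) (hF : ∀ x, IsIntegral F x → x ∈ F)
    (hW : aeval t W ≠ 0) {x : K} (hx : IntP t W x) : x ∈ F := by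
  obtain ⟨n, f, h1, h2⟩ := hx
  have h3 := hF (aeval t W ^ n * x) ⟨f.map (aeval (⟨t, h⟩ : F) : k[X] →ₐ[k] F), h1.map _, by
    rw [eval₂_map, ← h2]
    congr 1
    exact RingHom.ext fun p => (aeval_algHom_apply F.val _ p).symm⟩
  have := F.mul_mem (F.inv_mem (pow_mem (aeval_mem h W) n)) h3
  rwa [inv_mul_cancel_left₀ (pow_ne_zero _ hW)] at this

theorem pt_mem {F : IntermediateField k K} (hF : ∀ x, IsIntegral F x → x ∈ F) {b : ℕ}
    {χ : Fin b → K} {γ : Fin b → Fin b → Fin b → K} (hγ : ∀ i j l, γ i j l ∈ F)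
    (h : ∀ i j, χ i * χ j = ∑ l, γ i j l * χ l) (i : Fin b) : χ i ∈ F := by
  by_cases e : χ i = 0
  · rw [e]; exact F.zero_mem
  refine hF _ (isIntegral_of_smul_mem_submodule (Submodule.span F (Set.range χ))
    (fun x => e (Submodule.span_eq_bot.1 x _ ⟨i, rfl⟩))
    (Submodule.fg_span (Set.finite_range χ)) _ fun y hy => ?_)
  induction hy using Submodule.span_induction with
  | mem y hy =>
    obtain ⟨j, rfl⟩ := hy
    rw [smul_eq_mul, h]
    exact Submodule.sum_mem _ fun l _ =>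
      Submodule.smul_mem _ (⟨_, hγ i j l⟩ : F) (Submodule.subset_span ⟨l, rfl⟩)
  | zero => simp
  | add y z _ _ hy hz => rw [smul_add]; exact add_mem hy hz
  | smul a y _ hy => rw [smul_comm]; exact Submodule.smul_mem _ a hy

theorem ev_val (L : IntermediateField k K) (t x : L) (f : k[X][X]) :
    f.eval₂ (aeval (t : K) : k[X] →ₐ[k] K) (x : K) =
      ((f.eval₂ (aeval t : k[X] →ₐ[k] L) x : L) : K) := by
  refine Eq.trans ?_ (hom_eval₂ f _ L.val.toRingHom x).symm
  congr 1
  exact RingHom.ext fun p => aeval_algHom_apply L.val _ p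

theorem trdeg_le (L : IntermediateField k K) (t : L) (ht : Transcendental k t)
    (h : ∀ x ∈ L, Alg k (t : K) x) : Algebra.trdeg k L ≤ 1 := by
  let _ : Algebra k[X] L := (aeval t : k[X] →ₐ[k] L).toAlgebra
  have : IsScalarTower k k[X] L := .of_algebraMap_eq fun c =>
    ((aeval t : k[X] →ₐ[k] L).commutes c).symm
  have : FaithfulSMul k[X] L :=
    (faithfulSMul_iff_algebraMap_injective _ _).2 (transcendental_iff_injective.1 ht)
  have : Algebra.IsAlgebraic k[X] L := ⟨fun x => by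
    obtain ⟨f, h1, h2⟩ := h x x.2
    rw [ev_val] at h2
    exact ⟨f, h1, Subtype.ext h2⟩⟩
  rw [← trdeg_add_eq k k[X], trdeg_eq_zero (R := k[X]), Polynomial.trdeg_of_isDomain, add_zero]

theorem regW {L : IntermediateField k K} {t x : L} (h : IntP (t : K) W (x : K)) : RegW t W x := by
  intro P h1 h2
  obtain ⟨n, f, f1, f2⟩ := h
  have e : aeval (t : K) W ^ n * (x : K) = ↑(aeval t W ^ n * x) := by
    rw [show (t : K) = L.val t from rfl, aeval_algHom_apply]; rfl
  rw [e, ev_val] at f2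
  let φ : k[X] →+* P.v.integer :=
    (aeval t : k[X] →ₐ[k] L).toRingHom.codRestrict _ fun p => P.v_aeval h1 p
  have : P.v (aeval t W ^ n * x) ≤ 1 := (Valuation.integer.integers P.v).mem_of_integral
    ⟨f.map φ, f1.map _, (eval₂_map _ _ _).trans (Subtype.ext f2)⟩
  rwa [map_mul, map_pow, h2, one_pow, one_mul] at this

theorem phi_coeff (hPHI : S_PHI) {R R' : Type} [CommRing R] [CommRing R'] (φ : R →+* R') {b m : ℕ}
    (D : Dat R b) (G : MvPolynomial (Co b m) R) (α : J D.a m →₀ ℕ) :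
    ((D.map φ).Phi m (MvPolynomial.map φ G)).coeff α = φ ((D.Phi m G).coeff α) :=
  (congrArg (MvPolynomial.coeff α) ((hPHI R b m D G).2.1 R' φ)).trans (MvPolynomial.coeff_map _ _ _)

end LP

open LP in
theorem p_LINEP (hLTHL : S_LTHL) (hLPF : S_LPF) (hLIFTD : S_LIFTD) (hSPLIT : S_SPLIT)
    (hPHI : S_PHI) : S_LINEP := by
  classical
  intro k K _ _ _ _ _ p _ b m κ t W g D G S hp hb hw ht hW hg hP hγ hu hc hc' hG hS hs
  obtain ⟨F, F1, F2, F3⟩ := exists_F (k := k) t
  have W0 := MP_6f117a_ag.aeval_ne ht hW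
  obtain ⟨θ, hθ⟩ := IsAlgClosed.exists_pow_nat_eq (aeval t W) W.natDegree.succ_pos
  let x := (g.roots.toFinset.finite_toSet.infinite_compl).natEmbedding
  have hx : ∀ r : ℕ, (D.fib (algebraMap k K (x r))).disc ≠ 0 := fun r => by
    have h1 : g.eval (x r : k) ≠ 0 := fun e => (x r).2 (by simpa using ⟨hg.ne_zero, e⟩)
    rw [Str.disc_map, D.hd, hP]
    simp only [coe_evalRingHom, eval_mul, eval_C, eval_map_algebraMap, aeval_algebraMap_apply,
      coe_aeval_eq_eval, eval_sub, eval_X]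
    exact mul_ne_zero D.c.ne_zero (mul_ne_zero ((_root_.map_ne_zero _).2 h1) fun e =>
      MP_6f117a_ag.trans_ne (MP_6f117a_ag.trans_sub ht (x r)) (by rw [← neg_sub, e, neg_zero]))
  choose χ c1 c2 using fun r : Fin (m + 1) => hSPLIT K b _ (hx r)
  let T : Set K := {t, θ, (D.c : K)} ∪ (⋃ i, ⋃ j, ⋃ l, (D.γ i j l).coeffs) ∪ (⋃ i, (D.u i).coeffs) ∪
    Set.range fun q : Fin (m + 1) × Fin b × Fin b => χ q.1 q.2.1 q.2.2
  have T0 : T.Finite := (((Set.toFinite _).union (Set.finite_iUnion fun i => Set.finite_iUnion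
    fun j => Set.finite_iUnion fun l => Finset.finite_toSet _)).union
    (Set.finite_iUnion fun i => Finset.finite_toSet _)).union (Set.finite_range _)
  have TF : T ⊆ F := by
    rintro y (((h | h) | h) | ⟨q, rfl⟩)
    · rcases h with rfl | rfl | rfl
      · exact F1
      · exact F3 _ (.of_pow W.natDegree.succ_pos
          (hθ ▸ isIntegral_algebraMap (x := (⟨_, aeval_mem F1 W⟩ : F))))
      · exact int_mem F1 F3 W0 hc
    · simp only [Set.mem_iUnion, Finset.mem_coe, mem_coeffs_iff] at h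
      obtain ⟨i, j, l, n, -, rfl⟩ := h
      exact int_mem F1 F3 W0 (hγ i j l n)
    · simp only [Set.mem_iUnion, Finset.mem_coe, mem_coeffs_iff] at h
      obtain ⟨i, n, -, rfl⟩ := h
      exact int_mem F1 F3 W0 (hu i n)
    · refine pt_mem F3 (fun i j l => ?_) (c1 q.1 q.2.1).1 _
      change (D.γ i j l).eval _ ∈ F
      rw [eval_eq_sum_range]
      exact sum_mem fun n _ => mul_mem (int_mem F1 F3 W0 (hγ i j l n))
        (pow_mem (F.algebraMap_mem _) n)
  have TL : T ⊆ IntermediateField.adjoin k T := IntermediateField.subset_adjoin k T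
  have LF : IntermediateField.adjoin k T ≤ F := IntermediateField.adjoin_le_iff.2 TF
  have := IntermediateField.essFiniteType_iff.2 (IntermediateField.fg_adjoin_of_finite (F := k) T0)
  generalize IntermediateField.adjoin k T = L at TL LF this
  have cf : ∀ h : K[X], ↑h.coeffs ⊆ T → ∀ n, h.coeff n ∈ L := fun h H n => by
    by_cases e : h.coeff n = 0
    · rw [e]; exact L.zero_mem
    · exact TL (H (coeff_mem_coeffs e))
  have l1 : t ∈ L := TL (by simp [T])
  have l2 : θ ∈ L := TL (by simp [T])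
  have l3 : (D.c : K) ∈ L := TL (by simp [T])
  have l4 : ∀ r j i, χ r j i ∈ L := fun r j i => TL (Or.inr ⟨(r, j, i), rfl⟩)
  have l5 : ∀ i j l n, (D.γ i j l).coeff n ∈ L := fun i j l => cf _ fun y hy =>
    Or.inl (Or.inl (Or.inr (by simp only [Set.mem_iUnion]; exact ⟨i, j, l, hy⟩)))
  have l6 : ∀ i n, (D.u i).coeff n ∈ L := fun i => cf _ fun y hy =>
    Or.inl (Or.inr (by simp only [Set.mem_iUnion]; exact ⟨i, hy⟩))
  clear cf TL TF T0
  clear_value T
  lift t to L using l1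
  lift θ to L using l2
  have ht' : Transcendental k t := (transcendental_algebraMap_iff (algebraMap L K).injective).1 ht
  have hP' : D.P = (g.map (algebraMap k L) * (X - C t)).map (algebraMap L K) := by
    rw [hP, Polynomial.map_mul, Polynomial.map_map, ← IsScalarTower.algebraMap_eq]
    simp
  obtain ⟨D₀, rfl⟩ := hLIFTD L K (algebraMap L K) b D (algebraMap L K).injective
    (fun i j l n => ⟨⟨_, l5 i j l n⟩, rfl⟩) (fun i n => ⟨⟨_, l6 i n⟩, rfl⟩)
    (fun n => ⟨_, by rw [hP', coeff_map]⟩) ⟨⟨_, l3⟩, rfl⟩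
    ⟨⟨_, L.inv_mem l3⟩, (Units.val_inv_eq_inv_val _).symm⟩
  have F1 := phi_coeff hPHI (algebraMap L K) D₀ (MvPolynomial.map (algebraMap k L) G)
  rw [MvPolynomial.map_map, ← IsScalarTower.algebraMap_eq] at F1
  obtain ⟨p1, p2⟩ := hLPF k L (trdeg_le L t ht' fun y hy => F2 y (LF hy))
  have z1 : θ ^ (W.natDegree + 1) = aeval t W :=
    Subtype.ext (hθ.trans (aeval_algHom_apply L.val t W))
  have z2 : ∀ h : L[X], (∀ n, IntP (t : K) W ((h.map (algebraMap L K)).coeff n)) →
      ∀ n, RegW t W (h.coeff n) := fun h H n => by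
    have := H n
    rw [coeff_map] at this
    exact regW this
  have ev : ∀ (h : L[X]) (c : k), (h.map (algebraMap L K)).eval (algebraMap k K c) =
      algebraMap L K (h.eval (algebraMap k L c)) := fun h c => by
    rw [IsScalarTower.algebraMap_apply k L K, eval_map_apply]
  have z3 : Pts k D₀ m := ⟨fun r => x r, fun r r' e => Fin.ext (x.injective (Subtype.ext e)),
    fun r => ⟨fun j i => ⟨_, l4 r j i⟩, fun j => ⟨fun i i' => (algebraMap L K).injective (by
      rw [map_mul, map_sum]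
      refine ((c1 r j).1 i i').trans (Finset.sum_congr rfl fun l _ => ?_)
      rw [map_mul]
      exact congrArg (· * _) (ev _ _)), (algebraMap L K).injective (by
      rw [map_one, map_sum]
      refine (Finset.sum_congr rfl fun l _ => ?_).trans (c1 r j).2
      rw [map_mul]
      exact congrArg (· * _) (ev _ _).symm)⟩, fun e => c2 r (by
      have := congrArg (algebraMap L K) e
      rwa [RingHom.map_det, map_zero] at this)⟩⟩
  have fin := hLTHL k L p b m κ t θ W g D₀ G S p1 (p2 t ht') hp hb hw z1 z3 ht' hW hg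
    (map_injective _ (algebraMap L K).injective hP') (fun i j l => z2 (D₀.γ i j l) (hγ i j l))
    (fun i => z2 (D₀.u i) (hu i)) (regW hc) (regW hc') hG hS
    fun s h => ⟨(hs s h).1, fun α => by
      obtain ⟨y, a1, a2⟩ := (hs s h).2 α
      have n0 := MP_6f117a_ag.trans_ne (MP_6f117a_ag.trans_sub ht' s)
      refine ⟨_, regW ?_, (mul_div_cancel₀ _ n0).symm⟩
      have a3 := (F1 α).symm.trans a2
      have n1 : (t : K) - algebraMap k K s = algebraMap L K (t - algebraMap k L s) := rfl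
      rw [n1, mul_comm, ← div_eq_iff ((_root_.map_ne_zero _).2 n0), ← map_div₀] at a3
      rw [← a3] at a1
      exact a1⟩
  exact MvPolynomial.ext _ _ fun α => (F1 α).trans (by rw [fin]; simp)

end Pool.Agent.P.MP_ab0431_ag.UB

namespace Pool.Agent.P.MP_ab0431_ag.UB

open Polynomial WithZero
open MP_6f117a_ag (Place)

theorem lspr_val {R K : Type} [CommRing R] [Field K] (f0 : R →+* K) (hf : Function.Injective f0)
    (q : Ideal R) [hq : q.IsPrime] :
    ∃ (V : ValuationSubring K) (f : R →+* V), (∀ h, (f h : K) = f0 h) ∧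
      ∀ h, f h ∈ IsLocalRing.maximalIdeal V ↔ h ∈ q := by
  have hu : ∀ y : q.primeCompl, IsUnit (f0 y) := by
    intro y
    refine IsUnit.mk0 _ fun h => y.2 ?_
    have : (y : R) = 0 := hf (by rw [h, map_zero])
    rw [this]
    exact q.zero_mem
  let g : Localization.AtPrime q →+* K := IsLocalization.lift hu
  obtain ⟨V, hV, hl⟩ := IsLocalRing.exists_factor_valuationRing g
  let g' : Localization.AtPrime q →+* V := g.codRestrict V.toSubring hV
  have hl' : IsLocalHom g' := hl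
  refine ⟨V, g'.comp (algebraMap R _), fun h => ?_, fun h => ?_⟩
  · show g (algebraMap R _ h) = f0 h
    exact IsLocalization.lift_eq hu h
  · rw [← IsLocalization.AtPrime.to_map_mem_maximal_iff (Localization.AtPrime q) q h,
      IsLocalRing.mem_maximalIdeal, IsLocalRing.mem_maximalIdeal, mem_nonunits_iff,
      mem_nonunits_iff, RingHom.comp_apply]
    exact not_congr (isUnit_map_iff g' _)

theorem lspr_jac : IsJacobsonRing ℤ := by
  rw [isJacobsonRing_iff_prime_eq]
  intro P hP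
  by_cases h : P = ⊥
  · subst h
    rw [eq_bot_iff]
    intro x hx
    have h1 := Int.isUnit_iff.1 (Ideal.mem_jacobson_bot.1 hx x)
    have h2 := mul_self_nonneg x
    have h3 : x * x = 0 := by omega
    exact mul_self_eq_zero.1 h3
  · have := IsPrime.to_maximal_ideal h
    exact Ideal.jacobson_eq_self_of_isMaximal

theorem lspr_char {F : Type} [Field F] [Algebra ℤ F] [Algebra.FiniteType ℤ F] :
    ∃ p : ℕ, p.Prime ∧ CharP F p := by
  have := lspr_jac
  have h1 := finite_of_finite_type_of_isJacobsonRing ℤ F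
  have h2 : Algebra.IsIntegral ℤ F := @Algebra.IsIntegral.of_finite ℤ F _ _ _ h1
  obtain ⟨p, hp⟩ := CharP.exists F
  rcases CharP.char_is_prime_or_zero F p with h | h
  · exact ⟨p, h, hp⟩
  · subst h
    have := CharP.charP_to_charZero F
    exact absurd (isField_of_isIntegral_of_isField (algebraMap ℤ F).injective_int
      (Field.toIsField F)) Int.not_isField

theorem lspr_ft {k : Type} [Field k] (E : Finset k) :
    Algebra.FiniteType ℤ (Subring.closure (E : Set k)) := by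
  have h : Algebra.FiniteType ℤ (Algebra.adjoin ℤ (E : Set k)) :=
    (Subalgebra.fg_iff_finiteType _).1 (Subalgebra.fg_adjoin_finset E)
  have e : Algebra.adjoin ℤ (E : Set k) = subalgebraOfSubring (Subring.closure (E : Set k)) :=
    Algebra.adjoin_int _
  rw [e] at h
  exact h

theorem lspr_core {L K : Type} [CommRing L] [Nontrivial L] [Field K] [Algebra.FiniteType ℤ L]
    (f0 : L[X] →+* K) (hf : Function.Injective f0) :
    ∃ (V : ValuationSubring K) (k' Ω : Type) (_ : Field k') (_ : Field Ω)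
    (_ : Algebra k' Ω) (p : ℕ) (ψ : V →+* Ω) (ψ₀ : L →+* k')
    (f : L[X] →+* V), IsAlgClosed k' ∧ IsAlgClosed Ω ∧ p.Prime ∧
    CharP k' p ∧ Transcendental k' (ψ (f X)) ∧ (∀ h, (f h : K) = f0 h) ∧
    (∀ h, ψ (f h) = aeval (ψ (f X)) (h.map ψ₀)) ∧ ∀ x, ψ x ≠ 0 → IsUnit x := by
  obtain ⟨m, hm⟩ := Ideal.exists_maximal L
  let : Field (L ⧸ m) := Ideal.Quotient.field m
  have hft : Algebra.FiniteType ℤ (L ⧸ m) :=
    Algebra.FiniteType.of_surjective (Ideal.Quotient.mkₐ ℤ m) (Ideal.Quotient.mkₐ_surjective ℤ m)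
  obtain ⟨p, hp, hc⟩ := lspr_char (F := L ⧸ m)
  have hq : (m.map (C : L →+* L[X])).IsPrime := Ideal.isPrime_map_C_of_isPrime
  obtain ⟨V, f, h1, h2⟩ := lspr_val f0 hf (m.map (C : L →+* L[X]))
  let Ω := AlgebraicClosure (IsLocalRing.ResidueField V)
  let ψ : V →+* Ω := (algebraMap (IsLocalRing.ResidueField V) Ω).comp (IsLocalRing.residue V)
  have hψ : ∀ x, ψ x = 0 ↔ x ∈ IsLocalRing.maximalIdeal V := fun x => by
    rw [← IsLocalRing.residue_eq_zero_iff]
    exact map_eq_zero_iff _ (algebraMap (IsLocalRing.ResidueField V) Ω).injective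
  let j : (L ⧸ m) →+* Ω := Ideal.Quotient.lift m (ψ.comp (f.comp C)) fun a ha =>
    (hψ _).2 ((h2 _).2 (Ideal.mem_map_of_mem _ ha))
  let : Algebra (L ⧸ m) Ω := j.toAlgebra
  let k' := AlgebraicClosure (L ⧸ m)
  let i : k' →ₐ[L ⧸ m] Ω := IsAlgClosed.lift
  let : Algebra k' Ω := i.toRingHom.toAlgebra
  have tower : IsScalarTower (L ⧸ m) k' Ω :=
    IsScalarTower.of_algebraMap_eq fun x => (i.commutes x).symm
  have key : ∀ h : L[X], ψ (f h) = aeval (ψ (f X)) (h.map (Ideal.Quotient.mk m)) := by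
    intro h
    have : ψ.comp f = (aeval (R := L ⧸ m) (ψ (f X))).toRingHom.comp
        (mapRingHom (Ideal.Quotient.mk m)) := by
      refine Polynomial.ringHom_ext (fun a => ?_) ?_
      · simp only [RingHom.comp_apply, coe_mapRingHom, map_C, AlgHom.toRingHom_eq_coe,
          RingHom.coe_coe, aeval_C]
        rfl
      · simp
    exact RingHom.congr_fun this h
  have htr : Transcendental (L ⧸ m) (ψ (f X)) := by
    rw [transcendental_iff]
    intro g hg
    obtain ⟨h, rfl⟩ := map_surjective (Ideal.Quotient.mk m) Ideal.Quotient.mk_surjective g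
    rw [← key, hψ, h2, Ideal.mem_map_C_iff] at hg
    ext n
    rw [coeff_map, coeff_zero, Ideal.Quotient.eq_zero_iff_mem]
    exact hg n
  refine ⟨V, k', Ω, inferInstance, inferInstance, inferInstance, p, ψ,
    (algebraMap (L ⧸ m) k').comp (Ideal.Quotient.mk m), f, inferInstance, inferInstance, hp,
    charP_of_injective_algebraMap (algebraMap (L ⧸ m) k').injective p, htr.extendScalars k', h1,
    fun h => ?_, fun x hx => ?_⟩
  · rw [← map_map, aeval_map_algebraMap]
    exact key h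
  · by_contra hu
    exact hx ((hψ x).2 hu)

theorem p_LSPR :
    S_LSPR := by
  intro k K _ _ _ t E ht
  have := lspr_ft E
  exact lspr_core (L := Subring.closure (E : Set k))
    ((aeval (R := k) t).toRingHom.comp (mapRingHom (Subring.subtype _)))
    ((transcendental_iff_injective.1 ht).comp
      (Polynomial.map_injective (Subring.closure (E : Set k)).subtype
        (Subring.subtype_injective _)))

end Pool.Agent.P.MP_ab0431_ag.UB

namespace Pool.Agent.P.MP_ab0431_ag.UB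

open Polynomial Set Filter Topology

namespace L0

variable {k K : Type} [Field k] [Field K] [Algebra k K] {t : K} {W : k[X]}

theorem intP {x : K} (h : IntOver k t W x) : IntP t W x := by
  obtain ⟨n, f, h1, h2⟩ := h
  let π : k[X] →+* Algebra.adjoin k {t} :=
    (aeval t : k[X] →ₐ[k] K).toRingHom.codRestrict _ fun p => aeval_mem_adjoin_singleton k t
  have hπ : Function.Surjective π := fun y => by
    obtain ⟨p, hp⟩ := (Algebra.adjoin_singleton_eq_range_aeval k t).le y.2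
    exact ⟨p, Subtype.ext hp⟩
  obtain ⟨q, q1, -, q2⟩ := lifts_and_natDegree_eq_and_monic (p := f) (f := π)
    (map_surjective π hπ f) h1
  refine ⟨n, q, q2, ?_⟩
  rw [← q1, eval₂_map] at h2
  exact h2

variable (k) in
/-- large finitely generated subrings -/
noncomputable def FF : Filter (Subring k) := atTop.map fun E : Finset k => Subring.closure (E : Set k)

theorem e0 (c : k) : ∀ᶠ Λ : Subring k in FF k, c ∈ Λ :=
  eventually_map.2 ((eventually_ge_atTop {c}).mono fun _ h =>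
    Subring.subset_closure (h (Finset.mem_singleton_self c)))

theorem e1 (h : k[X]) : ∀ᶠ Λ : Subring k in FF k, ∃ h₀ : Λ[X], h₀.map Λ.subtype = h :=
  ((eventually_all_finset h.support).2 fun n _ => e0 (h.coeff n)).mono fun Λ H =>
    (lifts_iff_coeff_lifts h).2 fun n => by
      by_cases e : h.coeff n = 0
      · exact ⟨0, by simp [e]⟩
      · exact ⟨⟨_, H n (mem_support_iff.2 e)⟩, rfl⟩

theorem e2 (h : k[X][X]) : ∀ᶠ Λ : Subring k in FF k, ∃ h₀ : Λ[X][X], h₀.map (mapRingHom Λ.subtype) = h :=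
  ((eventually_all_finset h.support).2 fun n _ => e1 (h.coeff n)).mono fun Λ H =>
    (lifts_iff_coeff_lifts h).2 fun n => by
      by_cases e : h.coeff n = 0
      · exact ⟨0, by simp [e]⟩
      · exact H n (mem_support_iff.2 e)

theorem e3 {σ : Type} (G : MvPolynomial σ k) :
    ∀ᶠ Λ : Subring k in FF k, ∃ G₀ : MvPolynomial σ Λ, MvPolynomial.map Λ.subtype G₀ = G :=
  ((eventually_all_finset G.coeffs).2 fun c _ => e0 c).mono fun _ H =>
    MvPolynomial.mem_range_map_iff_coeffs_subset.2 fun c hc => ⟨⟨c, H c hc⟩, rfl⟩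

theorem e4 {g : k[X]} (hg : g.Separable) :
    ∀ᶠ Λ : Subring k in FF k, ∃ g₀ : Λ[X], g₀.map Λ.subtype = g ∧ g₀.Separable := by
  obtain ⟨a, b, e⟩ := hg
  filter_upwards [e1 g, e1 a, e1 b] with Λ ⟨g₀, h1⟩ ⟨a₀, h2⟩ ⟨b₀, h3⟩
  refine ⟨g₀, h1, a₀, b₀, map_injective _ Λ.subtype_injective ?_⟩
  rw [Polynomial.map_add, Polynomial.map_mul, Polynomial.map_mul, ← derivative_map, h1, h2, h3, e,
    Polynomial.map_one]

/-- evaluation at `t` -/
noncomputable def ev (t : K) (Λ : Subring k) : Λ[X] →+* K :=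
  (aeval t : k[X] →ₐ[k] K).toRingHom.comp (mapRingHom Λ.subtype)

/-- integral over the subring -/
def IntL (t : K) (W : k[X]) (Λ : Subring k) (x : K) : Prop :=
  ∃ (n : ℕ) (f : Λ[X][X]), f.Monic ∧ f.eval₂ (ev t Λ) (aeval t W ^ n * x) = 0

/-- the inverse is almost integral over the subring -/
def NzL (t : K) (W : k[X]) (Λ : Subring k) (x : K) : Prop :=
  ∃ (n j : ℕ) (f : Λ[X][X]), IsUnit ((f.coeff 0).coeff j) ∧
    f.eval₂ (ev t Λ) (aeval t W ^ n * x) = 0

theorem e5 {x : K} (h : IntP t W x) : ∀ᶠ Λ : Subring k in FF k, IntL t W Λ x := by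
  obtain ⟨n, f, h1, h2⟩ := h
  filter_upwards [e2 f] with Λ ⟨f₀, e⟩
  subst e
  exact ⟨n, f₀, monic_of_injective (map_injective _ Λ.subtype_injective) h1,
    (eval₂_map _ _ _).symm.trans h2⟩

theorem intL_zero (Λ : Subring k) : IntL t W Λ 0 := ⟨0, X, monic_X, by simp⟩

theorem e6 {h : K[X]} (H : ∀ n, IntOver k t W (h.coeff n)) :
    ∀ᶠ Λ : Subring k in FF k, ∀ n, IntL t W Λ (h.coeff n) :=
  ((eventually_all_finset h.support).2 fun n _ => e5 (intP (H n))).mono fun Λ H n => by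
    by_cases e : h.coeff n = 0
    · rw [e]; exact intL_zero Λ
    · exact H n (mem_support_iff.2 e)

theorem unit {Λ : Subring k} {c : Λ} (h0 : (c : k) ≠ 0) (h : (c : k)⁻¹ ∈ Λ) : IsUnit c :=
  IsUnit.of_mul_eq_one ⟨_, h⟩ (Subtype.ext (mul_inv_cancel₀ h0))

theorem e7 {x : K} (h : IntP t W x) (hW : aeval t W ≠ 0) (hx : x ≠ 0) :
    ∀ᶠ Λ : Subring k in FF k, NzL t W Λ x := by
  obtain ⟨n, f, h1, h2⟩ := h
  obtain ⟨q, q1, q2⟩ := exists_eq_pow_rootMultiplicity_mul_and_not_dvd f h1.ne_zero 0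
  rw [C_0, sub_zero] at q1 q2
  rw [q1, eval₂_mul, eval₂_X_pow] at h2
  have h3 := (mul_eq_zero.1 h2).resolve_left (pow_ne_zero _ (mul_ne_zero (pow_ne_zero _ hW) hx))
  have h4 : (q.coeff 0).leadingCoeff ≠ 0 := leadingCoeff_ne_zero.2 (mt X_dvd_iff.2 q2)
  filter_upwards [e2 q, e0 (q.coeff 0).leadingCoeff⁻¹] with Λ ⟨f₀, e⟩ hi
  have h5 : (((f₀.coeff 0).coeff (q.coeff 0).natDegree : Λ) : k) = (q.coeff 0).leadingCoeff := by
    rw [leadingCoeff]
    generalize (q.coeff 0).natDegree = j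
    simp [← e]
  refine ⟨n, _, f₀, unit (h5 ▸ h4) (h5 ▸ hi), ?_⟩
  rw [← e, eval₂_map] at h3
  exact h3

section

variable {Λ : Subring k} {V : ValuationSubring K} {k' Ω : Type} [Field k'] [Field Ω] [Algebra k' Ω]
  {ψ : V →+* Ω} {ψ₀ : Λ →+* k'} {f : Λ[X] →+* V} {W₀ : Λ[X]}
  (h1 : ∀ h, (f h : K) = aeval t (h.map Λ.subtype))
  (h2 : ∀ h, ψ (f h) = aeval (ψ (f X)) (h.map ψ₀)) (hW : W₀.map Λ.subtype = W)

include h1 h2 hW

theorem push {x : V} {n : ℕ} {q : Λ[X][X]} (h : q.eval₂ (ev t Λ) (aeval t W ^ n * x) = 0) :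
    (q.map (mapRingHom ψ₀)).eval₂ (aeval (ψ (f X)) : k'[X] →ₐ[k'] Ω)
      (aeval (ψ (f X)) (W₀.map ψ₀) ^ n * ψ x) = 0 := by
  have h3 : q.eval₂ f (f W₀ ^ n * x) = 0 := V.subtype_injective (by
    rw [hom_eval₂, map_zero, ← h, ← hW, ← h1]
    congr 1
    exact RingHom.ext h1)
  have h4 := congrArg ψ h3
  rw [hom_eval₂, map_zero, map_mul, map_pow, h2] at h4
  rw [eval₂_map, ← h4]
  congr 1
  exact (RingHom.ext h2).symm

theorem push_int {x : V} (h : IntL t W Λ x) : IntP (ψ (f X)) (W₀.map ψ₀) (ψ x) := by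
  obtain ⟨n, q, q1, q2⟩ := h
  exact ⟨n, _, q1.map _, push h1 h2 hW q2⟩

theorem push_nz (hT : Transcendental k' (ψ (f X))) {x : V} (h : NzL t W Λ x) : ψ x ≠ 0 := by
  obtain ⟨n, j, q, q1, q2⟩ := h
  intro e
  have h3 := push h1 h2 hW q2
  rw [e, mul_zero, eval₂_at_zero, coeff_map] at h3
  refine MP_6f117a_ag.aeval_ne hT (fun x => (q1.map ψ₀).ne_zero ?_) h3
  simpa using congrArg (coeff · j) x

omit h2 in
theorem mem (hu : IsUnit (f W₀)) {x : K} (h : IntL t W Λ x) : x ∈ V.subtype.range := by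
  obtain ⟨n, q, q1, q2⟩ := h
  have h3 : IsIntegral V (aeval t W ^ n * x) := ⟨q.map f, q1.map _, by
    rw [eval₂_map, ← q2]
    congr 1
    exact RingHom.ext h1⟩
  obtain ⟨y, hy⟩ := IsIntegrallyClosed.isIntegral_iff.1 h3
  obtain ⟨u, hu⟩ := hu.pow n
  refine ⟨(u⁻¹ : Vˣ) * y, ?_⟩
  have h4 : V.subtype u = aeval t W ^ n := by rw [hu, map_pow, ← hW, ← h1]; rfl
  rw [map_mul, show V.subtype y = _ from hy, ← h4, ← mul_assoc, ← map_mul, u.inv_mul, map_one,
    one_mul]

end

theorem phi_coeff (hPHI : S_PHI) {R R' : Type} [CommRing R] [CommRing R'] (φ : R →+* R') {b m : ℕ}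
    (D : Dat R b) (G : MvPolynomial (Co b m) R) (α : J D.a m →₀ ℕ) :
    ((D.map φ).Phi m (MvPolynomial.map φ G)).coeff α = φ ((D.Phi m G).coeff α) :=
  (congrArg (MvPolynomial.coeff α) ((hPHI R b m D G).2.1 R' φ)).trans (MvPolynomial.coeff_map _ _ _)

end L0

open L0 in
theorem p_LINE0 (hLINEP : S_LINEP) (hLSPR : S_LSPR) (hLIFTD : S_LIFTD) (hPHI : S_PHI) :
    S_LINE0 := by
  classical
  intro k K _ _ _ _ b m κ t W g D G S ht hW hg hP hγ hu hc hc' hG hS hs
  by_contra hΦ
  obtain ⟨α₀, hα⟩ := MvPolynomial.ne_zero_iff.1 hΦ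
  obtain ⟨s₀, hs₀⟩ := Finset.card_pos.1 (Nat.zero_lt_of_lt hS)
  obtain ⟨y₀, y1, y2⟩ := (hs s₀ hs₀).2 α₀
  have y0 : y₀ ≠ 0 := fun e => hα (by rw [y2, e, mul_zero])
  have E7 : ∀ᶠ Λ : Subring k in FF k, ∀ s ∈ S, ∀ α, ∃ y, IntL t W Λ y ∧
      (D.Phi m (MvPolynomial.map (algebraMap k K) G)).coeff α = (t - algebraMap k K s) * y := by
    refine (eventually_all_finset S).2 fun s h => ?_
    choose y a1 a2 using (hs s h).2
    refine ((eventually_all_finset (D.Phi m (MvPolynomial.map (algebraMap k K) G)).support).2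
      fun α _ => e5 (intP (a1 α))).mono fun Λ H α => ?_
    by_cases e : (D.Phi m (MvPolynomial.map (algebraMap k K) G)).coeff α = 0
    · exact ⟨0, intL_zero Λ, by rw [e, mul_zero]⟩
    · exact ⟨y α, H α (MvPolynomial.mem_support_iff.2 e), a2 α⟩
  obtain ⟨E, ⟨W₀, w1⟩, ⟨g₀, g1, g2⟩, ⟨G₀, G1⟩, r3, r4, r5, r5', r6, r6', r6'', r7, r8, r8', r9⟩ :=
    (eventually_map.1 ((e1 W).and <| (e4 hg).and <| (e3 G).and <|
      (eventually_all.2 fun i => eventually_all.2 fun j => eventually_all.2 fun l =>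
        e6 (hγ i j l)).and <| (eventually_all.2 fun i => e6 (hu i)).and <| (e5 (intP hc)).and <|
      (e5 (intP hc')).and <| ((eventually_all_finset S).2 fun s _ => e0 s).and <|
      ((eventually_all_finset S).2 fun s _ => (eventually_all_finset S).2 fun s' _ =>
        e0 (s - s')⁻¹).and <| ((eventually_all_finset S).2 fun s _ => e0 (W.eval s)⁻¹).and <|
      E7.and <| (e5 (intP y1)).and <| (e7 (intP y1) (MP_6f117a_ag.aeval_ne ht hW) y0).and <|
      (eventually_all_finset (Finset.range (b + D.w + 1))).2 fun j _ => e0 (j : k)⁻¹)).exists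
  obtain ⟨V, k', Ω, _, _, _, p, ψ, ψ₀, f, _, _, hp, _, hT, h1, h2, h3⟩ := hLSPR k K t E ht
  generalize Subring.closure (E : Set k) = Λ at *
  have hp' : b + D.w < p := not_le.1 fun h => by
    have := (unit (c := (p : Λ)) (by simpa using hp.ne_zero)
      (by simpa using r9 p (Finset.mem_range.2 (by omega)))).map ψ₀
    simp at this
  have wv : ∀ s (h : s ∈ S), (W₀.map ψ₀).eval (ψ₀ ⟨s, r6 s h⟩) ≠ 0 := fun s h => by
    have e : ((W₀.eval ⟨s, r6 s h⟩ : Λ) : k) = W.eval s := by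
      rw [← w1]; exact (eval_map_apply Λ.subtype _).symm
    rw [eval_map_apply]
    exact ((unit (e ▸ (hs s h).1) (e ▸ r6'' s h)).map ψ₀).ne_zero
  have W0 : W₀.map ψ₀ ≠ 0 := fun e => wv s₀ hs₀ (by rw [e, eval_zero])
  have uW : IsUnit (f W₀) := h3 _ (by rw [h2]; exact MP_6f117a_ag.aeval_ne hT W0)
  have fX : (f X : K) = t := by simp [h1]
  have fC : ∀ c : Λ, V.subtype (f (C c)) = algebraMap k K c := fun c => (h1 _).trans (by simp)
  have fC' : ∀ c : Λ, ψ (f (C c)) = algebraMap k' Ω (ψ₀ c) := fun c => (h2 _).trans (by simp)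
  have c1 : V.subtype.comp (f.comp C) = (algebraMap k K).comp Λ.subtype := RingHom.ext fC
  have c2 : ψ.comp (f.comp C) = (algebraMap k' Ω).comp ψ₀ := RingHom.ext fC'
  have hP' : D.P = (g₀.map (f.comp C) * (X - C (f X))).map V.subtype := by
    rw [hP, Polynomial.map_mul, Polynomial.map_map, c1, ← Polynomial.map_map, g1]
    simp [fX]
  obtain ⟨D₀, rfl⟩ := hLIFTD V K V.subtype b D V.subtype_injective
    (fun i j l n => mem h1 w1 uW (r3 i j l n)) (fun i n => mem h1 w1 uW (r4 i n))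
    (fun n => ⟨_, by rw [hP', coeff_map]⟩) (mem h1 w1 uW r5) (mem h1 w1 uW r5')
  have P0 : D₀.P = g₀.map (f.comp C) * (X - C (f X)) := map_injective _ V.subtype_injective hP'
  have F1 := phi_coeff hPHI V.subtype D₀ (MvPolynomial.map (f.comp C) G₀)
  have F2 := phi_coeff hPHI ψ D₀ (MvPolynomial.map (f.comp C) G₀)
  rw [MvPolynomial.map_map, c1, ← MvPolynomial.map_map, G1] at F1
  rw [MvPolynomial.map_map, c2, ← MvPolynomial.map_map] at F2
  have key : ∀ s (h : s ∈ S) α (y : V),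
      ((D₀.map V.subtype).Phi m (MvPolynomial.map (algebraMap k K) G)).coeff α =
        (t - algebraMap k K s) * y →
      ((D₀.map ψ).Phi m (MvPolynomial.map (algebraMap k' Ω) (MvPolynomial.map ψ₀ G₀))).coeff α =
        (ψ (f X) - algebraMap k' Ω (ψ₀ ⟨s, r6 s h⟩)) * ψ y := fun s h α y e => by
    refine (F2 α).trans ?_
    rw [← fC', ← map_sub, ← map_mul]
    refine congrArg ψ (V.subtype_injective (((F1 α).symm.trans e).trans ?_))
    rw [map_mul, map_sub, fC]
    simp [fX]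
  have inj : Function.Injective fun s : S => ψ₀ ⟨s, r6 s s.2⟩ := fun s s' e => by_contra fun ne =>
    ((unit (c := ⟨s, r6 s s.2⟩ - ⟨s', r6 s' s'.2⟩) (sub_ne_zero.2 fun x => ne (Subtype.ext x))
      (r6' s s.2 s' s'.2)).map ψ₀).ne_zero (by rw [map_sub]; exact sub_eq_zero.2 e)
  have z1 : (D₀.map ψ).P = (g₀.map ψ₀).map (algebraMap k' Ω) * (X - C (ψ (f X))) := by
    change D₀.P.map ψ = _
    rw [P0, Polynomial.map_mul, Polynomial.map_map, c2, ← Polynomial.map_map]
    simp
  have z2 : ∀ h : V[X], (∀ n, IntL t W Λ ((h.map V.subtype).coeff n)) →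
      ∀ n, IntP (ψ (f X)) (W₀.map ψ₀) ((h.map ψ).coeff n) := fun h H n => by
    have := H n
    rw [coeff_map] at this ⊢
    exact push_int h1 h2 w1 this
  have z3 : (MvPolynomial.map ψ₀ G₀).totalDegree ≤ κ := by
    refine (Finset.sup_mono (MvPolynomial.support_map_subset ψ₀ G₀)).trans ?_
    rw [← MvPolynomial.support_map_of_injective G₀ Λ.subtype_injective, G1]
    exact hG
  have fin := hLINEP k' Ω p b m κ (ψ (f X)) (W₀.map ψ₀) (g₀.map ψ₀) (D₀.map ψ)
    (MvPolynomial.map ψ₀ G₀) (Finset.univ.image fun s : S => ψ₀ ⟨s, r6 s s.2⟩) hp (by omega)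
    (lt_of_le_of_lt (Nat.le_add_left _ b) hp') hT W0 g2.map z1
    (fun i j l => z2 (D₀.γ i j l) (r3 i j l)) (fun i => z2 (D₀.u i) (r4 i))
    (push_int h1 h2 w1 (x := D₀.c) r5) (push_int h1 h2 w1 (x := (D₀.c⁻¹ : Vˣ)) r5') z3
    (by rwa [Finset.card_image_of_injective _ inj, Finset.card_univ, Fintype.card_coe])
    (fun s' hs' => by
      obtain ⟨s, -, rfl⟩ := Finset.mem_image.1 hs'
      refine ⟨wv s s.2, fun α => ?_⟩
      obtain ⟨y, a1, a2⟩ := r7 s s.2 α
      obtain ⟨y, rfl⟩ := mem h1 w1 uW a1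
      exact ⟨ψ y, push_int h1 h2 w1 a1, key s s.2 α y a2⟩)
  obtain ⟨y₀, rfl⟩ := mem h1 w1 uW r8
  exact mul_ne_zero (MP_6f117a_ag.trans_ne (MP_6f117a_ag.trans_sub hT _))
    (push_nz h1 h2 w1 hT r8') ((key s₀ hs₀ α₀ y₀ y2).symm.trans
      ((congrArg (MvPolynomial.coeff α₀) fin).trans (MvPolynomial.coeff_zero _)))

end Pool.Agent.P.MP_ab0431_ag.UB
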