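import Pool.Agent.P.MP_ab0431_ag.UB.IfaceB5
import Pool.Agent.P.MP_ab0431_ag.UB.IfaceO

/-! Steps EMB NOD1 NOD2 DUALP NODV CODIM2 NOD3 RSEP NOD NEQ. -/

set_option autoImplicit false
set_option linter.unusedSectionVars false
set_option linter.unusedVariables false

namespace Pool.Agent.P.MP_ab0431_ag.UB

open Polynomial Set

theorem p_EMB :
    S_EMB := by
  intro σ _ q hq
  obtain ⟨s, g, gi, gint⟩ := exists_integral_inj_algHom_of_fg ℂ (MvPolynomial σ ℂ ⧸ q)
  let h : MvPolynomial (Fin s) ℂ →ₐ[ℂ] Om :=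
    (IsScalarTower.toAlgHom ℂ (MvPolynomial ℕ ℂ) Om).comp (MvPolynomial.rename Fin.val)
  have hi : Function.Injective h := ((algebraMap (FractionRing (MvPolynomial ℕ ℂ)) Om).injective.comp
    (IsFractionRing.injective (MvPolynomial ℕ ℂ) _)).comp
    (MvPolynomial.rename_injective _ Fin.val_injective)
  obtain ⟨φ, e⟩ : ∃ φ : (MvPolynomial σ ℂ ⧸ q) →+* Om, ∀ a, φ (g a) = h a := by
    let := g.toRingHom.toAlgebra
    let : Algebra (MvPolynomial (Fin s) ℂ) Om := h.toRingHom.toAlgebra
    have : Algebra.IsIntegral (MvPolynomial (Fin s) ℂ) (MvPolynomial σ ℂ ⧸ q) := ⟨gint⟩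
    have := Module.isTorsionFree_iff_algebraMap_injective (R := MvPolynomial (Fin s) ℂ)
      (A := MvPolynomial σ ℂ ⧸ q).2 gi
    have := Module.isTorsionFree_iff_algebraMap_injective (R := MvPolynomial (Fin s) ℂ)
      (A := Om).2 hi
    let φ : (MvPolynomial σ ℂ ⧸ q) →ₐ[MvPolynomial (Fin s) ℂ] Om := IsAlgClosed.lift
    exact ⟨φ, φ.commutes⟩
  have φi : Function.Injective φ := by
    let := g.toRingHom.toAlgebra
    have : Algebra.IsIntegral (MvPolynomial (Fin s) ℂ) (MvPolynomial σ ℂ ⧸ q) := ⟨gint⟩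
    refine (RingHom.injective_iff_ker_eq_bot φ).2 (Ideal.eq_bot_of_comap_eq_bot
      (R := MvPolynomial (Fin s) ℂ) (eq_bot_iff.2 fun a ha => hi ?_))
    rw [map_zero, ← e]
    exact ha
  let ψ : MvPolynomial σ ℂ →ₐ[ℂ] Om := ⟨φ.comp (Ideal.Quotient.mk q), fun c => by
    rw [← h.commutes, ← e, g.commutes]
    rfl⟩
  refine ⟨fun i => ψ (MvPolynomial.X i), Ideal.ext fun f => ?_⟩
  rw [MvPolynomial.mem_vanishingIdeal_singleton_iff, ← Ideal.Quotient.eq_zero_iff_mem,
    ← map_eq_zero_iff φ φi, show (MvPolynomial.aeval fun i => ψ (MvPolynomial.X i)) = ψ from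
      (MvPolynomial.aeval_unique ψ).symm]
  rfl

end Pool.Agent.P.MP_ab0431_ag.UB

namespace Pool.Agent.P.MP_ab0431_ag.UB

open Polynomial Set

theorem map_nod1 {k R R' : Type} [CommRing k] [CommRing R] [CommRing R'] {b : ℕ} (D : Dat k b)
    (m N : ℕ) (φ : k →+* R) (ψ : R →+* R') (φ' : k →+* R') (h : φ' = ψ.comp φ)
    (l : J D.a m → R) (l' : J D.a m → R') (hl : ∀ p, l' p = ψ (l p)) :
    (Δ b ((D.map φ').ch ((D.map φ').el m l'))).coeff N =
      ψ ((Δ b ((D.map φ).ch ((D.map φ).el m l))).coeff N) := by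
  have h1 : ∀ i, (D.map φ').el m l' i = mapRingHom ψ ((D.map φ).el m l i) := fun i => by
    simp only [Dat.el, map_sum, apply_ite (mapRingHom ψ), map_zero, coe_mapRingHom, map_monomial]
    exact Finset.sum_congr rfl fun p _ => by rw [hl p]
  have h2 : (D.map φ').toStr.L ((D.map φ').el m l') =
      ((D.map φ).toStr.L ((D.map φ).el m l)).map (mapRingHom ψ) := by
    refine Matrix.ext fun r j => ?_
    rw [Str.L_apply, Matrix.map_apply, Str.L_apply, map_sum]
    refine Finset.sum_congr rfl fun i _ => ?_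
    rw [map_mul, h1]
    congr 1
    change (D.γ i j r).map φ' = ((D.γ i j r).map φ).map ψ
    rw [Polynomial.map_map, h]
  rw [Str.ch, h2, Matrix.charpoly_map, Δ_map, coe_mapRingHom, coeff_map, Str.ch]

theorem pt_nod1 (hTUP : S_TUP) (hTOP : S_TOP) (hSPLIT : S_SPLIT) (hCHP : S_CHP) (hDSEP : S_DSEP)
    {k : Type} [Field k] [IsAlgClosed k] {b m : ℕ} (D : Dat k b) (ha : ∀ i, D.a i ≤ m) :
    ∃ l : J D.a m → k, (Δ b (D.ch (D.el m l))).coeff (m * (b * (b - 1))) ≠ 0 := by
  obtain ⟨Dt, h1, -, -, -, h2, -⟩ := hTUP k b D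
  obtain ⟨χ, h3, h4⟩ := hSPLIT k b Dt (by rw [h1]; exact D.c.ne_zero)
  obtain ⟨f, hf⟩ := Module.exists_dual_forall_apply_ne_zero (K := k)
    (fun p : {p : Fin b × Fin b // p.1 ≠ p.2} => χ p.1.1 - χ p.1.2) fun p hp =>
      h4 (Matrix.det_zero_of_row_eq p.2 (sub_eq_zero.1 hp))
  let t : Fin b → k := fun i => f fun j => if i = j then 1 else 0
  have ht : ∀ v : Fin b → k, ∑ i, t i * v i = f v := fun v => by
    rw [LinearMap.pi_apply_eq_sum_univ f v]
    exact Finset.sum_congr rfl fun i _ => by rw [smul_eq_mul, mul_comm]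
  let o : D.A := fun i => monomial (m - D.a i) (t i)
  have ho : D.Deg m o := fun i n hn => by
    have := ha i
    change (monomial (m - D.a i) (t i)).coeff n = 0
    rw [coeff_monomial, if_neg (by omega)]
  have h5 : D.tp m o = t := by
    funext i
    change (if D.a i ≤ m then (monomial (m - D.a i) (t i)).coeff (m - D.a i) else 0) = t i
    rw [if_pos (ha i), coeff_monomial, if_pos rfl]
  refine ⟨fun p => (o p.1.1).coeff p.1.2, ?_⟩
  rw [← ho.eq_el]
  obtain ⟨h6, h7⟩ := h2 m o ho
  rw [(hTOP k b m _ (D.toStr.ch_monic o) (D.toStr.ch_natDegree o) h6).2, h7, h5]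
  refine (hDSEP k b _ (Dt.ch_monic t) (Dt.ch_natDegree t)).2 ?_
  rw [((hCHP k b Dt χ h3).2.1 (IsUnit.mk0 _ h4) t).1, separable_prod_X_sub_C_iff]
  intro j j' hj
  by_contra hne
  refine hf ⟨(j, j'), hne⟩ ?_
  rw [map_sub, ← ht, ← ht]
  exact sub_eq_zero.2 hj

theorem p_NOD1 (hTUP : S_TUP) (hTOP : S_TOP) (hSPLIT : S_SPLIT) (hCHP : S_CHP) (hDSEP : S_DSEP) :
    S_NOD1 := by
  intro k K _ _ _ _ b m D l ha hl
  obtain ⟨l0, h0⟩ := pt_nod1 hTUP hTOP hSPLIT hCHP hDSEP (D.map (RingHom.id k)) (m := m) ha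
  rw [map_nod1 D m _ (MvPolynomial.C : k →+* MvPolynomial (J D.a m) k)
    (MvPolynomial.eval l0) (RingHom.id k)
    (RingHom.ext fun x => (MvPolynomial.eval_C (f := l0) x).symm) MvPolynomial.X l0
    (fun p => (MvPolynomial.eval_X (f := l0) p).symm)] at h0
  rw [map_nod1 D m _ (MvPolynomial.C : k →+* MvPolynomial (J D.a m) k)
    (MvPolynomial.aeval l : MvPolynomial (J D.a m) k →ₐ[k] K) (algebraMap k K) (by ext x; simp)
    MvPolynomial.X l (fun p => by simp)]
  intro h
  refine h0 ?_
  rw [(algebraicIndependent_iff.1 hl) _ h, map_zero]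

end Pool.Agent.P.MP_ab0431_ag.UB

namespace Pool.Agent.P.MP_ab0431_ag.UB

open Polynomial Set

theorem congr_nod2 {R : Type} [CommRing R] {b : ℕ} (S T : Str R[X] b) (o o' : Fin b → R[X])
    (h : S = T) (h' : o = o') (x : R) : (S.N o).det.eval x = (T.N o').det.eval x := by
  subst h h'; rfl

theorem comp_nod2 {k R R' : Type} [CommRing k] [CommRing R] [CommRing R'] {b m : ℕ} (D : Dat k b)
    (f : k →+* R) (g : R →+* R') (h : k →+* R') (e : g.comp f = h) (l : J D.a m → R)
    (l' : J D.a m → R') (e' : g ∘ l = l') (x : k) :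
    ((D.map h).toStr.N ((D.map h).el m l')).det.eval (h x) =
      g (((D.map f).toStr.N ((D.map f).el m l)).det.eval (f x)) := by
  subst e e'
  refine (congr_nod2 _ ((D.map f).toStr.map (mapRingHom g)) _
    ((D.map f).toStr.mapA (mapRingHom g) ((D.map f).el m l)) ?_ ((D.map f).el_map g m l) _).trans ?_
  · change D.toStr.map (mapRingHom (g.comp f)) = D.toStr.map ((mapRingHom g).comp (mapRingHom f))
    rw [mapRingHom_comp]
  · rw [Str.N_map, ← RingHom.mapMatrix_apply, ← RingHom.map_det, coe_mapRingHom,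
      RingHom.comp_apply, eval_map, eval₂_at_apply]

theorem p_NOD2 (hSPLIT1 : S_SPLIT1) :
    S_NOD2 := by
  classical
  intro k K _ _ _ _ b m D l x hP ha hl h0
  obtain ⟨s, -, hs, -⟩ := hSPLIT1 k b D x fun h =>
    not_isUnit_X_sub_C x (hP.squarefree _ (by rwa [← sq]))
  have e1 := comp_nod2 D (MvPolynomial.C : k →+* MvPolynomial (J D.a m) k)
    (MvPolynomial.aeval l : MvPolynomial (J D.a m) k →ₐ[k] K).toRingHom (algebraMap k K)
    (by ext; simp) MvPolynomial.X l (by ext; simp) x
  rw [h0] at e1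
  have e3 := (injective_iff_map_eq_zero _).1 hl _ e1.symm
  have hd : D.Deg m fun i => C (s i) := fun i n hn => by
    have := ha i
    exact coeff_C_of_ne_zero (by omega)
  have e4 := comp_nod2 D (MvPolynomial.C : k →+* MvPolynomial (J D.a m) k)
    (MvPolynomial.eval fun p : J D.a m => (C (s p.1.1)).coeff p.1.2) (RingHom.id k)
    (by ext; simp) MvPolynomial.X (fun p : J D.a m => (C (s p.1.1)).coeff p.1.2) (by ext; simp) x
  rw [e3, map_zero] at e4
  have e5 := (congr_nod2 (D.map (RingHom.id k)).toStr D.toStr _ (fun i => C (s i)) (by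
      change D.toStr.map (mapRingHom (RingHom.id k)) = D.toStr
      rw [mapRingHom_id]; rfl) hd.eq_el.symm _).symm.trans e4
  have e6 : s = D.toStr.mapA (evalRingHom x) fun i => C (s i) := by
    funext i
    exact (eval_C).symm
  have e7 := D.toStr.N_map (evalRingHom x) fun i => C (s i)
  rw [← RingHom.mapMatrix_apply] at e7
  exact hs ((congrArg (fun y => ((D.fib x).N y).det) e6).trans ((congrArg Matrix.det e7).trans
    (((evalRingHom x).map_det _).symm.trans e5)))

end Pool.Agent.P.MP_ab0431_ag.UB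

namespace Pool.Agent.P.MP_ab0431_ag.UB

open Polynomial Set

theorem ev_dualp {k K : Type} [Field k] [Field K] [Algebra k K] (x : K) (g : k[X]) :
    eval₂RingHom (algebraMap K (DualNumber K)) (TrivSqZeroExt.inl x + TrivSqZeroExt.inr 1)
      (mapRingHom (algebraMap k K) g) =
      TrivSqZeroExt.inl (aeval x g) + TrivSqZeroExt.inr (aeval x (derivative g)) := by
  induction g using Polynomial.induction_on with
  | C a => ext <;> simp [TrivSqZeroExt.algebraMap_eq_inl]
  | add p q hp hq =>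
    rw [map_add, map_add, hp, hq]; ext <;> simp
  | monomial n a h =>
    rw [pow_succ, ← mul_assoc, map_mul, map_mul, h, derivative_mul]
    ext
    · simp
    · simp [add_comm]

theorem ch0_dualp {k K : Type} [Field k] [Field K] [Algebra k K] {b : ℕ} (D : Dat k b)
    (x : K) (χ : Fin b → K) (h : ((D.map (algebraMap k K)).fib x).IsPt χ) :
    ∃ c : D.A →+* K, ∀ o, c o = ∑ i, aeval x (o i) * χ i := by
  refine ⟨(h.hom.toRingHom.comp ((D.map (algebraMap k K)).toStr.mapA (evalRingHom x))).comp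
    (D.toStr.mapA (mapRingHom (algebraMap k K))), fun o => ?_⟩
  change ∑ i, eval x ((o i).map (algebraMap k K)) * χ i = _
  simp only [eval_map_algebraMap]

theorem p_DUALP (hDER : S_DER) :
    S_DUALP := by
  intro k K _ _ _ b D x χ hP h
  obtain ⟨c, hc⟩ := ch0_dualp D x χ h
  obtain ⟨d, hd1, hd2, -⟩ := hDER k b D
  have cs : ∀ (g : k[X]) (o : D.A), c (g • o) = aeval x g * c o := fun g o => by
    simp only [hc, Str.smul_apply, map_mul, Finset.mul_sum, mul_assoc]
  have ce : ∀ i, c (D.toStr.e i) = χ i := fun i => by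
    simp [hc, Str.e_apply, apply_ite (aeval x : k[X] → K)]
  have alg : ∀ o, IsAlgebraic (Algebra.adjoin k {x}) (c o) := fun o => by
    let ψ : k[X] →+* Algebra.adjoin k {x} :=
      (aeval (⟨x, Algebra.self_mem_adjoin_singleton k x⟩ : Algebra.adjoin k {x})).toRingHom
    refine IsIntegral.isAlgebraic ⟨(D.toStr.ch o).map ψ, (D.toStr.ch_monic o).map ψ, ?_⟩
    have e : (algebraMap (Algebra.adjoin k {x}) K).comp ψ = c.comp (algebraMap k[X] D.A) := by
      refine RingHom.ext fun g => ?_
      rw [RingHom.comp_apply, RingHom.comp_apply, Algebra.algebraMap_eq_smul_one g, cs, map_one,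
        mul_one]
      exact (aeval_algebraMap_apply K
        (⟨x, Algebra.self_mem_adjoin_singleton k x⟩ : Algebra.adjoin k {x}) g).symm
    rw [eval₂_map, e, ← hom_eval₂, ← aeval_def, Str.aeval_ch, map_zero]
  have key : ∀ o : D.A, c (d o) * (aeval x D.P)⁻¹ = ∑ l, (aeval x (o l) *
      (c (d (D.toStr.e l)) * (aeval x D.P)⁻¹) + aeval x (derivative (o l)) * χ l) := fun o => by
    conv_lhs => rw [← D.toStr.sum_e o]
    rw [map_sum, map_sum, Finset.sum_mul]
    refine Finset.sum_congr rfl fun l _ => ?_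
    rw [hd2, map_add, cs, cs, ce, map_mul]
    field_simp
    ring
  have d1 : d 1 = 0 := by
    have := hd1 1 1
    rw [mul_one, one_mul] at this
    exact left_eq_add.1 this
  refine ⟨fun i => c (d (D.toStr.e i)) * (aeval x D.P)⁻¹, fun i => ⟨ce i ▸ alg _,
    (alg _).mul (IsAlgebraic.inv ?_)⟩, fun i j => ?_, ?_⟩
  · have := alg (D.P • 1)
    rwa [cs, map_one, mul_one] at this
  · change _ = ∑ l, eval₂RingHom _ _ (mapRingHom (algebraMap k K) (D.γ i j l)) * _
    simp only [ev_dualp]
    have h1 := hc (D.toStr.e i * D.toStr.e j)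
    have h2 := key (D.toStr.e i * D.toStr.e j)
    rw [map_mul, ce, ce, Str.e_mul_e] at h1
    rw [hd1, map_add, map_mul, map_mul, ce, ce, Str.e_mul_e] at h2
    ext
    · simpa [TrivSqZeroExt.fst_sum] using h1
    · rw [add_mul, mul_assoc, mul_assoc, mul_comm (χ j)] at h2
      simpa [TrivSqZeroExt.snd_sum] using h2
  · change ∑ l, eval₂RingHom _ _ (mapRingHom (algebraMap k K) (D.u l)) * _ = _
    simp only [ev_dualp]
    have h1 := hc 1
    have h2 := key 1
    rw [map_one] at h1
    rw [d1, map_zero, zero_mul] at h2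
    ext
    · simpa [TrivSqZeroExt.fst_sum, Str.one_apply] using h1.symm
    · simpa [TrivSqZeroExt.snd_sum, Str.one_apply] using h2.symm

end Pool.Agent.P.MP_ab0431_ag.UB

namespace Pool.Agent.P.MP_ab0431_ag.UB

open Polynomial Set

theorem ev_nodv {K : Type} [Field K] (x : K) (g : K[X]) :
    eval₂RingHom (algebraMap K (DualNumber K)) (TrivSqZeroExt.inl x + TrivSqZeroExt.inr 1) g =
      TrivSqZeroExt.inl (g.eval x) + TrivSqZeroExt.inr (g.derivative.eval x) := by
  have h := aeval_add_of_sq_eq_zero g (algebraMap K (DualNumber K) x) (TrivSqZeroExt.inr 1)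
    (by rw [sq, TrivSqZeroExt.inr_mul_inr])
  rw [aeval_algebraMap_apply, aeval_algebraMap_apply, coe_aeval_eq_eval] at h
  refine h.trans ?_
  ext <;> simp [TrivSqZeroExt.algebraMap_eq_inl]

theorem det_nodv {K : Type} [Field K] {b : ℕ} (v : Fin b → DualNumber K) {j l : Fin b}
    (hjl : j < l) (h2 : (v j).snd ≠ (v l).snd)
    (h3 : ∀ j' l', j' ≠ l' → (v j').fst = (v l').fst → j' = j ∧ l' = l ∨ j' = l ∧ l' = j) :
    (Matrix.vandermonde v).det ≠ 0 := by
  have hu : ∀ i i', i < i' → ¬(i = j ∧ i' = l) → IsUnit (v i' - v i) := by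
    intro i i' hi hn
    rw [TrivSqZeroExt.isUnit_iff_isUnit_fst, TrivSqZeroExt.fst_sub, isUnit_iff_ne_zero]
    intro h
    rcases h3 i i' hi.ne (sub_eq_zero.1 h).symm with h4 | ⟨rfl, rfl⟩
    · exact hn h4
    · exact hi.not_gt hjl
  rw [Matrix.det_vandermonde, ← Finset.mul_prod_erase _ _ (Finset.mem_univ j),
    ← Finset.mul_prod_erase _ _ (Finset.mem_Ioi.2 hjl), mul_assoc]
  have h4 : IsUnit ((∏ i' ∈ (Finset.Ioi j).erase l, (v i' - v j)) *
      ∏ i ∈ Finset.univ.erase j, ∏ i' ∈ Finset.Ioi i, (v i' - v i)) := by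
    refine IsUnit.mul (IsUnit.prod_iff.2 fun i' hi' => ?_)
      (IsUnit.prod_iff.2 fun i hi => IsUnit.prod_iff.2 fun i' hi' => ?_)
    · exact hu _ _ (Finset.mem_Ioi.1 (Finset.mem_erase.1 hi').2)
        fun h => (Finset.mem_erase.1 hi').1 h.2
    · exact hu _ _ (Finset.mem_Ioi.1 hi') fun h => (Finset.mem_erase.1 hi).1 h.1
  rw [Ne, h4.mul_left_eq_zero, sub_eq_zero]
  exact fun h => h2 (by rw [h])

theorem p_NODV :
    S_NODV := by
  intro K _ b v F x j l hjl h1 h2 h3 hF
  classical
  have hx : F.map (evalRingHom x) = ∏ i, (X - C (v i).fst) := by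
    have h4 := congrArg (Polynomial.map (TrivSqZeroExt.fstHom K K K).toRingHom) hF
    rw [Polynomial.map_map, Polynomial.map_prod] at h4
    have h5 : (TrivSqZeroExt.fstHom K K K).toRingHom.comp (eval₂RingHom
        (algebraMap K (DualNumber K)) (TrivSqZeroExt.inl x + TrivSqZeroExt.inr 1)) =
        evalRingHom x := by
      refine RingHom.ext fun g => ?_
      rw [RingHom.comp_apply, ev_nodv]
      simp
    rw [h5] at h4
    simpa using h4
  have hl : l ∈ Finset.univ.erase j := Finset.mem_erase.2 ⟨hjl.symm, Finset.mem_univ _⟩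
  have hx2 : F.map (evalRingHom x) = (X - C (v j).fst) * ((X - C (v j).fst) *
      ∏ i ∈ (Finset.univ.erase j).erase l, (X - C (v i).fst)) := by
    rw [hx, ← Finset.mul_prod_erase _ _ (Finset.mem_univ j), ← Finset.mul_prod_erase _ _ hl, h1]
  refine ⟨?_, ⟨?_, ?_, ?_⟩, ?_⟩
  · rcases lt_or_gt_of_ne hjl with h | h
    · exact det_nodv v h h2 h3
    · exact det_nodv v h h2.symm fun j' l' a c => (h3 j' l' a c).symm
  · rw [← map_evalRingHom_eval, hx2]
    simp
  · rw [← map_evalRingHom_eval, ← derivative_map, hx2]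
    simp
  · have h4 := congrArg (eval (TrivSqZeroExt.inl (v j).fst : DualNumber K)) hF
    have h5 : (TrivSqZeroExt.inl (v j).fst : DualNumber K) = eval₂RingHom
        (algebraMap K (DualNumber K)) (TrivSqZeroExt.inl x + TrivSqZeroExt.inr 1)
        (C (v j).fst) := by
      rw [ev_nodv]; simp
    rw [eval_prod, ← Finset.mul_prod_erase _ _ (Finset.mem_univ j),
      ← Finset.mul_prod_erase _ _ hl, ← mul_assoc, eval_map] at h4
    nth_rewrite 1 [h5] at h4
    rw [eval₂_at_apply, ev_nodv] at h4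
    have h6 : eval (TrivSqZeroExt.inl (v j).fst : DualNumber K) (X - C (v j)) *
        eval (TrivSqZeroExt.inl (v j).fst : DualNumber K) (X - C (v l)) = 0 := by
      ext <;> simp [h1]
    rw [h6, zero_mul] at h4
    simpa using congrArg TrivSqZeroExt.snd h4
  · rw [nq, hx, ← Finset.mul_prod_erase _ _ (Finset.mem_univ j),
      mul_divByMonic_cancel_left _ (monic_X_sub_C _), separable_prod_X_sub_C_iff']
    intro i hi i' hi' h
    by_contra hn
    rcases h3 i i' hn h with h4 | h4
    · exact (Finset.mem_erase.1 hi).1 h4.1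
    · exact (Finset.mem_erase.1 hi').1 h4.2

end Pool.Agent.P.MP_ab0431_ag.UB

namespace Pool.Agent.P.MP_ab0431_ag.UB

open Polynomial Set

theorem alg_codim2 {k K ι : Type} [Field k] [Field K] [Algebra k K] [Fintype ι]
    {l u v : ι → K} {A : Subalgebra k K} (h : ∀ i, IsAlgebraic A (u i) ∧ IsAlgebraic A (v i))
    (hu : ∑ i, u i * l i = 0) (hv : ∑ i, v i * l i = 0) {a b : ι}
    (hl : ∀ n, n ≠ a → n ≠ b → l n ∈ A) (hd : u a * v b - u b * v a ≠ 0) :
    IsAlgebraic A (l a) := by
  classical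
  have hw : ∀ n, IsAlgebraic A (u n * v b - u b * v n) := fun n =>
    ((h n).1.mul (h b).2).sub ((h b).1.mul (h n).2)
  refine IsAlgebraic.of_mul (mem_nonZeroDivisors_of_ne_zero hd) (hw a) ?_
  have e : ∑ n, (u n * v b - u b * v n) * l n = 0 := by
    calc _ = v b * ∑ i, u i * l i - u b * ∑ i, v i * l i := by
          rw [Finset.mul_sum, Finset.mul_sum, ← Finset.sum_sub_distrib]
          exact Finset.sum_congr rfl fun n _ => by ring
      _ = 0 := by rw [hu, hv]; ring
  rw [← Finset.add_sum_erase _ _ (Finset.mem_univ a), add_eq_zero_iff_eq_neg] at e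
  rw [e]
  refine IsAlgebraic.neg (Finset.sum_induction _ (IsAlgebraic A) (fun _ _ => IsAlgebraic.add)
    isAlgebraic_zero fun n hn => ?_)
  by_cases nb : n = b
  · rw [nb, sub_self, zero_mul]; exact isAlgebraic_zero
  · exact (hw n).mul (isAlgebraic_algebraMap (⟨l n, hl n (Finset.ne_of_mem_erase hn) nb⟩ : A))

theorem p_CODIM2 :
    S_CODIM2 := by
  classical
  rintro k K ι _ _ _ _ l u v x hl h li ⟨hu, hv⟩
  obtain ⟨i, j, hd⟩ : ∃ i j, u i * v j - u j * v i ≠ 0 := by
    by_contra e
    push Not at e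
    refine li.ne_zero 0 (funext fun i => neg_eq_zero.1
      (LinearIndependent.pair_iff.1 li (v i) (-u i) (funext fun j => ?_)).2)
    simp only [Pi.add_apply, Pi.smul_apply, smul_eq_mul, Pi.zero_apply]
    linear_combination e j i
  have ij : i ≠ j := fun e => hd (by rw [e, sub_self])
  let T : Finset K := insert x (((Finset.univ.erase i).erase j).image l)
  have hT : ∀ n, n ≠ i → n ≠ j → l n ∈ Algebra.adjoin k (T : Set K) := fun n a b =>
    Algebra.subset_adjoin (Finset.mem_coe.2 (Finset.mem_insert_of_mem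
      (Finset.mem_image_of_mem l (by simp [a, b]))))
  have le : Algebra.adjoin k {x} ≤ Algebra.adjoin k (T : Set K) :=
    Algebra.adjoin_mono (singleton_subset_iff.2 (Finset.mem_insert_self _ _))
  have h' := fun n => And.intro ((h n).1.tower_top_of_subalgebra_le le)
    ((h n).2.tower_top_of_subalgebra_le le)
  have sub : range l ⊆ (AlgebraicIndependent.matroid k K).closure T := by
    rintro _ ⟨n, rfl⟩
    rw [AlgebraicIndependent.matroid_closure_eq, SetLike.mem_coe, Subalgebra.mem_algebraicClosure]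
    by_cases ni : n = i
    · exact ni ▸ alg_codim2 h' hu hv hT hd
    by_cases nj : n = j
    · exact nj ▸ alg_codim2 h' hu hv (fun n a b => hT n b a) fun e => hd (by linear_combination -e)
    · exact isAlgebraic_algebraMap (⟨l n, hT n ni nj⟩ : Algebra.adjoin k (T : Set K))
  have ind : (AlgebraicIndependent.matroid k K).Indep (range l) := hl.to_subtype_range
  have c := ind.encard_le_eRk_of_subset sub
  rw [Matroid.eRk_closure_eq] at c
  have c1 := c.trans (Matroid.eRk_le_encard _ _)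
  rw [← image_univ, ← Finset.coe_univ, ← Finset.coe_image, encard_coe_eq_coe_finsetCard,
    encard_coe_eq_coe_finsetCard, Nat.cast_le, Finset.card_image_of_injective _ hl.injective] at c1
  have c2 : T.card ≤ ((Finset.univ.erase i).erase j).card + 1 :=
    (Finset.card_insert_le _ _).trans (Nat.add_le_add_right Finset.card_image_le 1)
  have c3 := Finset.card_erase_add_one (Finset.mem_univ i)
  have c4 := Finset.card_erase_add_one
    (Finset.mem_erase.2 ⟨ij.symm, Finset.mem_univ j⟩ : j ∈ Finset.univ.erase i)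
  omega

end Pool.Agent.P.MP_ab0431_ag.UB

namespace Pool.Agent.P.MP_ab0431_ag.UB

open Polynomial Set

theorem ev_nod3 {K : Type} [Field K] (x : K) (g : K[X]) :
    eval₂RingHom (algebraMap K (DualNumber K)) (TrivSqZeroExt.inl x + TrivSqZeroExt.inr 1) g =
      TrivSqZeroExt.inl (g.eval x) + TrivSqZeroExt.inr (g.derivative.eval x) := by
  induction g using Polynomial.induction_on with
  | C a => ext <;> simp [TrivSqZeroExt.algebraMap_eq_inl]
  | add p q hp hq => rw [map_add, hp, hq]; ext <;> simp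
  | monomial n a h =>
    rw [pow_succ, ← mul_assoc, map_mul, h]
    generalize C a * X ^ n = g
    ext <;> simp
    ring

theorem mul_nod3 {R K : Type} [CommRing R] [IsDomain R] [Field K] [Algebra R K]
    {a b : DualNumber K} (ha : IsAlgebraic R a.fst ∧ IsAlgebraic R a.snd)
    (hb : IsAlgebraic R b.fst ∧ IsAlgebraic R b.snd) :
    IsAlgebraic R (a * b).fst ∧ IsAlgebraic R (a * b).snd := by
  rw [TrivSqZeroExt.fst_mul, DualNumber.snd_mul]
  exact ⟨ha.1.mul hb.1, (ha.1.mul hb.2).add (ha.2.mul hb.1)⟩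

theorem pow_nod3 {R K : Type} [CommRing R] [IsDomain R] [Field K] [Algebra R K]
    {a : DualNumber K} (ha : IsAlgebraic R a.fst ∧ IsAlgebraic R a.snd) (n : ℕ) :
    IsAlgebraic R (a ^ n).fst ∧ IsAlgebraic R (a ^ n).snd := by
  induction n with
  | zero => rw [pow_zero]; exact ⟨isAlgebraic_one, isAlgebraic_zero⟩
  | succ n ih => rw [pow_succ]; exact mul_nod3 ih ha

theorem ind_nod3 {K : Type} [Field K] {b : ℕ} {χ : Fin b → Fin b → K}
    (h : (Matrix.of χ).det ≠ 0) {j l j' l' : Fin b} {s t : K}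
    (e : ∀ i, s * (χ j i - χ l i) + t * (χ j' i - χ l' i) = 0) (r : Fin b) :
    s * ((if r = j then 1 else 0) - if r = l then 1 else 0) +
      t * ((if r = j' then 1 else 0) - if r = l' then 1 else 0) = 0 := by
  refine congrFun (Matrix.eq_zero_of_vecMul_eq_zero h (v := fun r =>
    s * ((if r = j then 1 else 0) - if r = l then 1 else 0) +
      t * ((if r = j' then 1 else 0) - if r = l' then 1 else 0)) (funext fun i => ?_)) r
  refine Eq.trans ?_ (e i)
  simp [Matrix.vecMul, dotProduct, add_mul, sub_mul, mul_sub, Finset.sum_add_distrib]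

theorem p_NOD3 (hSPLIT : S_SPLIT) (hCHP : S_CHP) (hDUALP : S_DUALP) (hNODV : S_NODV) (hCODIM2 : S_CODIM2) :
    S_NOD3 := by
  intro k K _ _ _ _ b m D l x h F ha hl hP hh hF h0
  set D1 := D.map (algebraMap k K) with hD1
  obtain ⟨χ, hχ, hd⟩ := hSPLIT K b (D1.fib x) (by
    rw [Str.disc_map, D1.hd, map_mul, coe_evalRingHom, eval_C]
    exact mul_ne_zero D1.c.ne_zero (by rwa [← eval_map_algebraMap] at hP))
  choose χ' hal hpt using fun j => hDUALP k K b D x (χ j) hP (hχ j)
  set ε : DualNumber K := TrivSqZeroExt.inl x + TrivSqZeroExt.inr 1 with hε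
  set e := eval₂RingHom (algebraMap K (DualNumber K)) ε with he
  set Y : Fin b → Fin b → DualNumber K :=
    fun j i => TrivSqZeroExt.inl (χ j i) + TrivSqZeroExt.inr (χ' j i) with hY
  set o := D1.toStr.mapA e (D1.el m l) with ho
  set v : Fin b → DualNumber K := fun j => ∑ i, o i * Y j i with hv
  have hu : IsUnit (Matrix.of Y).det := by
    rw [TrivSqZeroExt.isUnit_iff_isUnit_fst, isUnit_iff_ne_zero]
    have := RingHom.map_det (TrivSqZeroExt.fstHom K K K).toRingHom (Matrix.of Y)
    refine fun u => hd (Eq.trans ?_ (this.symm.trans u))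
    congr 1
    ext i j
    simp [hY]
  have hF' : F.map e = ∏ j, (X - C (v j)) := by
    rw [hF, ← Str.ch_map]
    exact ((hCHP _ b _ Y hpt).2.1 hu o).1
  have hN : e h * (Matrix.of Y).det = (Matrix.vandermonde v).det := by
    rw [hh, RingHom.map_det, RingHom.mapMatrix_apply, ← Str.N_map, ← Matrix.det_transpose (.of Y),
      ← Matrix.det_mul, ← Matrix.det_transpose (.vandermonde v)]
    congr 1
    ext1 r j
    exact map_pow (hpt j).hom o r
  let W : Fin b → J D.a m → DualNumber K := fun j p => ε ^ (p.1.2 : ℕ) * Y j p.1.1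
  have hW : ∀ j, v j = ∑ p, l p • W j p := fun j => by
    simp only [hv, ho, Str.mapA_apply, Dat.el, map_sum, Finset.sum_mul]
    rw [Finset.sum_comm]
    refine Finset.sum_congr rfl fun p _ => ?_
    rw [Finset.sum_eq_single p.1.1 (fun i _ hi => by rw [if_neg hi.symm, map_zero, zero_mul])
      (by simp), if_pos rfl, he, coe_eval₂RingHom, eval₂_monomial, Algebra.smul_def, mul_assoc]
  have h1 : ∀ j j', (v j).fst = (v j').fst →
      ∑ p, ((W j p).fst - (W j' p).fst) * l p = 0 := fun j j' u => by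
    simp only [hW, TrivSqZeroExt.fst_sum, TrivSqZeroExt.fst_smul, smul_eq_mul] at u
    simp only [mul_sub, Finset.sum_sub_distrib, mul_comm _ (l _), u, sub_self]
  have h2 : ∀ j j', (v j).snd = (v j').snd →
      ∑ p, ((W j p).snd - (W j' p).snd) * l p = 0 := fun j j' u => by
    simp only [hW, TrivSqZeroExt.snd_sum, TrivSqZeroExt.snd_smul, smul_eq_mul] at u
    simp only [mul_sub, Finset.sum_sub_distrib, mul_comm _ (l _), u, sub_self]
  have hA : ∀ j p, IsAlgebraic (Algebra.adjoin k {x}) (W j p).fst ∧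
      IsAlgebraic (Algebra.adjoin k {x}) (W j p).snd := fun j p => by
    refine mul_nod3 (pow_nod3 ⟨?_, ?_⟩ _) (by simpa [hY] using hal j p.1.1)
    · simpa [hε] using isAlgebraic_algebraMap (A := K)
        (⟨x, Algebra.subset_adjoin rfl⟩ : Algebra.adjoin k {x})
    · simpa [hε] using isAlgebraic_one
  let p0 : Fin b → J D.a m := fun i => ⟨(i, 0), by have := ha i; simp; omega⟩
  let p1 : Fin b → J D.a m := fun i => ⟨(i, ⟨1, by have := ha i; omega⟩), by
    have := ha i; simp; omega⟩
  have w0 : ∀ j i, (W j (p0 i)).fst = χ j i ∧ (W j (p0 i)).snd = χ' j i := fun j i => by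
    simp [W, p0, hY]
  have w1 : ∀ j i, (W j (p1 i)).fst = x * χ j i ∧ (W j (p1 i)).snd = x * χ' j i + χ j i :=
    fun j i => by simp [W, p1, hY, hε]
  have e1 := ev_nod3 x h
  rw [← hε, ← he, h0] at e1
  obtain ⟨j, j', hj, hne⟩ : ∃ j j', (v j).fst = (v j').fst ∧ j ≠ j' := by
    rw [← Matrix.det_vandermonde_eq_zero_iff (v := fun j => (v j).fst)]
    have := RingHom.map_det (TrivSqZeroExt.fstHom K K K).toRingHom (Matrix.vandermonde v)
    rw [← hN, e1] at this
    exact Eq.trans (by congr 1) (this.symm.trans (by simp))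
  have := hNODV K b v F x j j' hne hj (fun u => ?_) (fun a a' hn u => ?_) hF'
  · refine ⟨fun u => this.1 ?_, _, this.2⟩
    rw [← hN, e1, u]
    simp
  · refine hCODIM2 k K _ l _ _ x hl (fun p => ⟨(hA j p).1.sub (hA j' p).1,
      (hA j p).2.sub (hA j' p).2⟩) (LinearIndependent.pair_iff.2 fun s t q => ?_) ⟨h1 j j' hj, h2 j j' u⟩
    have q0 := fun i => congrFun q (p0 i)
    have q1 := fun i => congrFun q (p1 i)
    simp only [Pi.add_apply, Pi.smul_apply, smul_eq_mul, w0, w1, Pi.zero_apply] at q0 q1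
    have ht : t = 0 := by
      simpa [hne] using ind_nod3 hd (s := t) (t := 0) (j := j) (l := j') (j' := j) (l' := j)
        (fun i => by linear_combination q1 i - x * q0 i) j
    refine ⟨?_, ht⟩
    simpa [hne] using ind_nod3 hd (s := s) (t := 0) (j := j) (l := j') (j' := j) (l' := j)
      (fun i => by rw [ht] at q0; linear_combination q0 i) j
  · by_contra hc
    refine hCODIM2 k K _ l _ _ x hl (fun p => ⟨(hA j p).1.sub (hA j' p).1,
      (hA a p).1.sub (hA a' p).1⟩) (LinearIndependent.pair_iff.2 fun s t q => ?_) ⟨h1 j j' hj, h1 a a' u⟩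
    have q0 := fun i => congrFun q (p0 i)
    simp only [Pi.add_apply, Pi.smul_apply, smul_eq_mul, w0, Pi.zero_apply] at q0
    have r := ind_nod3 hd q0
    have ht : t = 0 := by
      by_cases c : a = j ∨ a = j'
      · have c1 : a' ≠ j := by grind
        have c2 : a' ≠ j' := by grind
        simpa [c1, c2, hn.symm] using r a'
      · rw [not_or] at c
        simpa [c.1, c.2, hn] using r a
    exact ⟨by simpa [ht, hne] using r j, ht⟩

end Pool.Agent.P.MP_ab0431_ag.UB

namespace Pool.Agent.P.MP_ab0431_ag.UB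

open Polynomial Set

theorem p_RSEP :
    S_RSEP := by
  intro K _ f w hf hw
  subst hw
  obtain ⟨k, hk⟩ := Nat.exists_eq_add_of_le (natDegree_derivative_le f)
  rw [hk, resultant_add_right_deg _ _ _ _ _ le_rfl, coeff_natDegree,
    mul_ne_zero_iff_left (pow_ne_zero k (leadingCoeff_ne_zero.2 hf)), Ne, resultant_eq_zero_iff,
    separable_def]
  simp [hf]

end Pool.Agent.P.MP_ab0431_ag.UB

namespace Pool.Agent.P.MP_ab0431_ag.UB

open Polynomial Set

theorem split_nod {K : Type} [Field K] [IsAlgClosed K] {h : K[X]} (h0 : h ≠ 0)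
    (hs : ∀ x, h.eval x = 0 → h.derivative.eval x ≠ 0) :
    ∃ (n : ℕ) (x : Fin n → K) (u : K), Function.Injective x ∧ (∀ i, h.eval (x i) = 0) ∧ u ≠ 0 ∧
      h = C u * nH x := by
  classical
  have hn : h.roots.Nodup := Multiset.nodup_iff_count_le_one.2 fun x => by
    rw [count_roots]
    by_contra hc
    have := (one_lt_rootMultiplicity_iff_isRoot h0).1 (not_le.1 hc)
    exact hs x this.1 this.2
  refine ⟨_, fun i => (h.roots.toFinset.equivFin.symm i : K), h.leadingCoeff,
    Subtype.val_injective.comp (Equiv.injective _), fun i => ?_, leadingCoeff_ne_zero.2 h0, ?_⟩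
  · exact isRoot_of_mem_roots (Multiset.mem_toFinset.1 (h.roots.toFinset.equivFin.symm i).2)
  · rw [nH, h.roots.toFinset.equivFin.symm.prod_comp fun a => X - C (a : K),
      Finset.prod_coe_sort h.roots.toFinset fun a => X - C a, Finset.prod,
      Multiset.toFinset_val, Multiset.dedup_eq_self.2 hn]
    exact (C_leadingCoeff_mul_prod_multiset_X_sub_C IsAlgClosed.card_roots_eq_natDegree).symm

theorem nq_nod {K : Type} [Field K] {b : ℕ} {F : K[X][X]} (h1 : F.Monic) (h2 : F.natDegree = b)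
    {x z : K} (h : F.evalEval x z = 0) : (nq F x z).Monic ∧ (nq F x z).natDegree = b - 1 := by
  have hm := h1.map (evalRingHom x)
  have hr : (F.map (evalRingHom x)).IsRoot z := (map_evalRingHom_eval x z F).trans h
  refine ⟨(monic_X_sub_C z).of_mul_monic_left ?_, ?_⟩
  · rw [nq, mul_divByMonic_eq_iff_isRoot.2 hr]; exact hm
  · rw [nq, natDegree_divByMonic _ (monic_X_sub_C z), h1.natDegree_map, h2, natDegree_X_sub_C]

theorem p_NOD (hNOD1 : S_NOD1) (hNOD2 : S_NOD2) (hNOD3 : S_NOD3) (hDISC : S_DISC) (hDSEP : S_DSEP) (hTOP : S_TOP) (hTUP : S_TUP) (hRSEP : S_RSEP) :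
    S_NOD := by
  intro k K _ _ _ _ _ b m D l c hP ha hl hc
  have ha' : ∀ i, D.a i ≤ m := fun i => (Nat.le_succ _).trans (ha i)
  have n1 := hNOD1 k K b m D l ha' hl
  have n2 := fun x => hNOD2 k K b m D l x hP ha' hl
  have n3 := fun x hx => hNOD3 k K b m D l x _ _ ha hl hx rfl rfl
  obtain ⟨Dt, -, -, -, -, hT, -⟩ := hTUP K b (D.map (algebraMap k K))
  have hW := (hT m _ ((D.map (algebraMap k K)).el_deg m l)).1
  have hΔ := (hDISC K[X] b).1 (D.map (algebraMap k K)).toStr ((D.map (algebraMap k K)).el m l)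
  rw [(D.map (algebraMap k K)).hd] at hΔ
  have hM := (D.map (algebraMap k K)).toStr.ch_monic ((D.map (algebraMap k K)).el m l)
  have hd := (D.map (algebraMap k K)).toStr.ch_natDegree ((D.map (algebraMap k K)).el m l)
  have hPm := (D.map (algebraMap k K)).P_monic
  have hPd : (D.map (algebraMap k K)).P.natDegree = D.w := (D.map (algebraMap k K)).P_natDegree
  have hPs : (D.map (algebraMap k K)).P.Separable := hP.map
  have hc0 : ((D.map (algebraMap k K)).c : K) ≠ 0 := Units.ne_zero _
  have hF := toP_co hM hd hW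
  rw [← hc] at hF
  generalize (D.map (algebraMap k K)).toStr.ch ((D.map (algebraMap k K)).el m l) = F at *
  generalize ((D.map (algebraMap k K)).toStr.N ((D.map (algebraMap k K)).el m l)).det = h at *
  generalize (D.map (algebraMap k K)).P = P at *
  generalize ((D.map (algebraMap k K)).c : K) = γ at *
  have h0 : h ≠ 0 := fun e => n2 0 (by rw [e, eval_zero])
  have key : ∀ x, h.eval x = 0 →
      h.derivative.eval x ≠ 0 ∧ ∃ z, Sing F x z ∧ (nq F x z).Separable := fun x hx => by
    refine n3 x (fun e => ?_) hx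
    obtain ⟨y, rfl⟩ := minpoly.mem_range_of_degree_eq_one k x
      (IsAlgClosed.degree_eq_one_of_irreducible k (minpoly.irreducible ⟨_, D.P_monic, e⟩))
    exact n2 y hx
  obtain ⟨n, x, u, hx, hr, hu, rfl⟩ := split_nod h0 fun x hx => (key x hx).1
  choose z hz hz' using fun i => (key (x i) (hr i)).2
  have hH : (nH x).Monic := monic_prod_of_monic _ _ fun i _ => monic_X_sub_C _
  have hHd : (nH x).natDegree = n := by
    rw [nH, natDegree_prod_of_monic _ _ fun i _ => monic_X_sub_C _]; simp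
  have hu' : u ^ 2 * γ ≠ 0 := mul_ne_zero (pow_ne_zero _ hu) hc0
  have e1 : Δ b F = nH x ^ 2 * (C (u ^ 2 * γ) * P) := by
    rw [hΔ, map_mul, map_pow]; ring
  have e2 : nP c x = C (u ^ 2 * γ) * P := by
    rw [nP, hF, e1, mul_divByMonic_cancel_left _ (hH.pow 2)]
  have e3 : (C (u ^ 2 * γ) * P).natDegree = D.w := by rw [natDegree_C_mul hu', hPd]
  have e4 : C (u ^ 2 * γ) * P ≠ 0 := mul_ne_zero (C_ne_zero.2 hu') hPm.ne_zero
  refine ⟨n, x, z, ?_, ⟨by rwa [hF], by rwa [hF]⟩, ?_⟩
  · rw [← natDegree_eq_of_le_of_coeff_ne_zero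
      (natDegree_le_iff_coeff_eq_zero.2 (hTOP K b m F hM hd hW).1) n1, e1,
      natDegree_mul (hH.pow 2).ne_zero e4, e3, hH.natDegree_pow, hHd, add_comm]
  · rw [nU, e2, hF]
    refine mul_ne_zero (mul_ne_zero (mul_ne_zero (Matrix.det_vandermonde_ne_zero_iff.2 hx) n1)
      (Finset.prod_ne_zero_iff.2 fun i _ => ?_)) ((hRSEP K _ _ e4 e3).2 ?_)
    · exact (hDSEP K _ _ (nq_nod hM hd (hz i).1).1 (nq_nod hM hd (hz i).1).2).2 (hz' i)
    · exact Separable.unit_mul (isUnit_C.2 hu'.isUnit) hPs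

end Pool.Agent.P.MP_ab0431_ag.UB

namespace Pool.Agent.P.MP_ab0431_ag.UB

open Polynomial Set

/-- The three expressions that define a singular point. -/
noncomputable def g_neq {R : Type} [CommRing R] (F : R[X][X]) (x z : R) : Fin 3 → R :=
  ![F.evalEval x z, F.derivative.evalEval x z, (F.eval (C z)).derivative.eval x]

theorem sing_neq {R : Type} [CommRing R] (F : R[X][X]) (x z : R) :
    Sing F x z ↔ ∀ i, g_neq F x z i = 0 := by
  simp [Sing, g_neq, Fin.forall_fin_succ]

theorem map_neq {R R' : Type} [CommRing R] [CommRing R'] (φ : R →+* R') (F : R[X][X]) (x z : R)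
    (i : Fin 3) : φ (g_neq F x z i) = g_neq (F.map (mapRingHom φ)) (φ x) (φ z) i := by
  fin_cases i
  · exact (map_mapRingHom_evalEval φ F x z).symm
  · change _ = (F.map (mapRingHom φ)).derivative.evalEval (φ x) (φ z)
    rw [derivative_map]
    exact (map_mapRingHom_evalEval φ _ x z).symm
  · change _ = ((F.map (mapRingHom φ)).eval (C (φ z))).derivative.eval (φ x)
    rw [← map_C φ, map_mapRingHom_eval_map, derivative_map, eval_map_apply]
    rfl

theorem lt_neq {b m : ℕ} (q : Σ j : Fin b, Fin (m * j)) :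
    m * (b - q.1) + 1 + q.2 < m * b + 1 := by
  have h1 := q.2.2
  have h2 : m * (b - q.1) + m * q.1 = m * b := by rw [← mul_add, Nat.sub_add_cancel q.1.2.le]
  omega

theorem wd_neq {R : Type} [CommRing R] {b m : ℕ} (c : Co b m → R) : WD b m (toP c) ↔
    ∀ q : Σ j : Fin b, Fin (m * j), c (q.1, ⟨_, lt_neq q⟩) = 0 := by
  refine ⟨fun h q => ?_, fun h j n hn => ?_⟩
  · rw [← co_toP c]
    exact h _ _ (by change m * (b - q.1) < m * (b - q.1) + 1 + q.2; omega)
  · rw [toP_coeff, if_neg fun h' => by omega, zero_add]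
    refine Finset.sum_eq_zero fun p _ => ?_
    split_ifs with hp
    · obtain ⟨rfl, rfl⟩ := hp
      have h1 := p.2.2
      have h2 : m * (b - p.1) + m * p.1 = m * b := by rw [← mul_add, Nat.sub_add_cancel p.1.2.le]
      rw [← h ⟨p.1, ⟨p.2 - (m * (b - p.1) + 1), by omega⟩⟩]
      exact congrArg c (Prod.ext rfl (Fin.ext (by
        change _ = m * (b - p.1) + 1 + (p.2 - (m * (b - p.1) + 1)); omega)))
    · rfl

theorem p_NEQ :
    S_NEQ := by
  intro k _ b m n
  refine ⟨(Σ j : Fin b, Fin (m * j)) ⊕ Fin n × Fin 3, inferInstance,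
    Sum.elim (fun q => MvPolynomial.X (Sum.inl (q.1, ⟨_, lt_neq q⟩))) fun r =>
      g_neq (toP fun p => MvPolynomial.X (Sum.inl p)) (MvPolynomial.X (Sum.inr (Sum.inl r.1)))
        (MvPolynomial.X (Sum.inr (Sum.inr r.1))) r.2, ?_, fun K _ _ p => ?_⟩
  · simp only [Fintype.card_sum, Fintype.card_sigma, Fintype.card_prod, Fintype.card_fin]
    rw [← Finset.mul_sum, Fin.sum_univ_eq_sum_range (fun j => j) b]
    have h := Finset.sum_range_id_mul_two b
    rcases b with _ | b
    · simp; ring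
    · rw [Nat.add_sub_cancel] at h
      linear_combination m * h
  · rw [Sum.forall, NodE, wd_neq, Prod.forall]
    refine and_congr (forall_congr' fun q => by simp) (forall_congr' fun i => ?_)
    rw [sing_neq]
    refine forall_congr' fun j => ?_
    have := map_neq (MvPolynomial.aeval (R := k) p).toRingHom
      (toP fun p => MvPolynomial.X (Sum.inl p)) (MvPolynomial.X (Sum.inr (Sum.inl i)))
      (MvPolynomial.X (Sum.inr (Sum.inr i))) j
    rw [← toP_map] at this
    refine Eq.congr_left (this.trans ?_)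
    congr 1
    · congr 1; funext q; simp
    · simp
    · simp

end Pool.Agent.P.MP_ab0431_ag.UB
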