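import Pool.Agent.P.MP_ab0431_ag.UB.IfaceB5
import Pool.Agent.P.MP_ab0431_ag.UB.IfaceO
import Pool.Agent.P.MP_ab0431_ag.UB.IfaceB

/-! Steps KR NMAP NODE KMA LVY KM1 KM2 RK TDA NALG INC. -/

set_option autoImplicit false
set_option linter.unusedSectionVars false
set_option linter.unusedVariables false

namespace Pool.Agent.P.MP_ab0431_ag.UB

open Polynomial Set

theorem p_KR (hHYP : S_HYP) :
    S_KR := by
  classical
  intro k σ ι _ _ _ f p hp hf
  have key : ∀ s : Finset ι, ∃ q : Ideal (MvPolynomial σ k), q.IsPrime ∧ q ≤ p ∧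
      (∀ i ∈ s, f i ∈ q) ∧ Fintype.card σ ≤ dm q + s.card := fun s => by
    induction s using Finset.induction_on with
    | empty =>
      refine ⟨⊥, Ideal.isPrime_bot, bot_le, by simp, ?_⟩
      rw [dm, (AlgEquiv.quotientBot k (MvPolynomial σ k)).trdeg_eq, MvPolynomial.trdeg_of_isDomain]
      simp
    | insert a s ha ih =>
      obtain ⟨q, h1, h2, h3, h4⟩ := ih
      rw [Finset.card_insert_of_notMem ha]
      by_cases h : f a ∈ q
      · exact ⟨q, h1, h2, by simpa [h] using h3, by omega⟩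
      obtain ⟨q', h5, h6⟩ := Ideal.exists_minimalPrimes_le (I := q ⊔ Ideal.span {f a}) (J := p)
        (sup_le h2 ((Ideal.span_singleton_le_iff_mem _).2 (hf a)))
      have h7 := hHYP k σ q q' (f a) h1 h h5
      obtain ⟨h8, h9⟩ := sup_le_iff.1 h5.1.2
      exact ⟨q', h5.1.1, h6, Finset.forall_mem_insert _ _ _ |>.2
        ⟨(Ideal.span_singleton_le_iff_mem _).1 h9, fun i hi => h8 (h3 i hi)⟩, by omega⟩
  obtain ⟨q, h1, h2, h3, h4⟩ := key Finset.univ
  exact ⟨q, h1, h2, fun i => h3 i (Finset.mem_univ i), h4⟩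

end Pool.Agent.P.MP_ab0431_ag.UB

namespace Pool.Agent.P.MP_ab0431_ag.UB

open Polynomial Set

section
variable {R R' : Type} [CommRing R] [CommRing R'] (φ : R →+* R') {b m n : ℕ}

theorem nq_nmap (c : Co b m → R) (x z : R) :
    nq (toP (φ ∘ c)) (φ x) (φ z) = (nq (toP c) x z).map φ := by
  have : (evalRingHom (φ x)).comp (mapRingHom φ) = φ.comp (evalRingHom x) := by
    ext <;> simp
  rw [nq, nq, map_divByMonic φ (monic_X_sub_C z), toP_map, Polynomial.map_map, Polynomial.map_map,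
    this, Polynomial.map_sub, map_X, map_C]

theorem del_nmap (c : Co b m → R) : Δ b (toP (φ ∘ c)) = (Δ b (toP c)).map φ := by
  rw [toP_map, Δ_map, coe_mapRingHom]

theorem nH_nmap (x : Fin n → R) : nH (φ ∘ x) = (nH x).map φ := by
  simp [nH, Polynomial.map_prod]

theorem nP_nmap (c : Co b m → R) (x : Fin n → R) : nP (φ ∘ c) (φ ∘ x) = (nP c x).map φ := by
  have : (nH x ^ 2).Monic := (monic_prod_X_sub_C x _).pow 2
  rw [nP, nP, map_divByMonic φ this, del_nmap, nH_nmap, Polynomial.map_pow]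

end

theorem p_NMAP :
    S_NMAP := by
  intro R R' _ _ φ b m n w c x z
  constructor
  · have h1 : (Matrix.vandermonde (φ ∘ x)).det = φ (Matrix.vandermonde x).det := by
      rw [RingHom.map_det]
      congr 1
      ext i j
      simp
    simp only [nU, map_mul, map_prod]
    rw [h1, del_nmap, coeff_map, nP_nmap, derivative_map, resultant_map_map]
    congr 2
    exact Finset.prod_congr rfl fun i _ => by
      rw [Function.comp_apply, Function.comp_apply, nq_nmap, Δ_map]
  · ext r q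
    rcases q with q | q
    · simp [KMat, apply_ite φ]
    · simp [KMat, apply_ite φ, nq_nmap]

end Pool.Agent.P.MP_ab0431_ag.UB

namespace Pool.Agent.P.MP_ab0431_ag.UB

open Polynomial Set

theorem split_node {K : Type} [Field K] {F : K[X][X]} {x z : K} (h : Sing F x z) :
    ∃ (q : K[X]) (a : K[X]) (β : K[X][X]), nq F x z = (X - C z) * q ∧
      F = (X - C (C z)) * (nq F x z).map C +
        C (X - C x) * (C ((X - C x) * a) + (X - C (C z)) * β) := by
  obtain ⟨h1, h2, h3⟩ := h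
  rw [← map_evalRingHom_eval] at h1 h2
  have e0 : (X - C z) * nq F x z = F.map (evalRingHom x) := mul_divByMonic_eq_iff_isRoot.2 h1
  obtain ⟨q, hq⟩ : X - C z ∣ nq F x z := dvd_iff_isRoot.2 (by
    rw [← derivative_map, ← e0] at h2
    simpa using h2)
  obtain ⟨G, hG⟩ : C (X - C x) ∣ F - (F.map (evalRingHom x)).map C :=
    (C_dvd_iff_dvd_coeff _ _).2 fun i => by simpa using X_sub_C_dvd_sub_C_eval
  have e1 : F.eval (C z) = (X - C x) * G.eval (C z) := by
    have := congrArg (eval (C z)) hG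
    rwa [eval_sub, eval_map_apply, h1, map_zero, sub_zero, eval_mul, eval_C] at this
  obtain ⟨a, ha⟩ : X - C x ∣ G.eval (C z) := dvd_iff_isRoot.2 (by
    rw [e1] at h3
    simpa using h3)
  obtain ⟨β, hβ⟩ : X - C (C z) ∣ G - C (G.eval (C z)) := X_sub_C_dvd_sub_C_eval
  refine ⟨q, a, β, hq, ?_⟩
  rw [← e0, Polynomial.map_mul, Polynomial.map_sub, map_X, map_C] at hG
  rw [← ha, ← hβ]
  linear_combination hG

theorem p_NODE (hMAXI : S_MAXI) :
    S_NODE := by
  intro K _ b D s x z hD h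
  obtain ⟨q, a, β, e1, e2⟩ := split_node h
  have e3 := congrArg (aeval s) e2
  have e4 := congrArg (fun p : K[X] => aeval s (p.map C)) e1
  rw [D.aeval_ch] at e3
  refine hD _ _ (X_sub_C_ne_zero x) (hMAXI K b D _ _ 2
    (fun j => if j = 0 then aeval s (C a * q.map C) else aeval s β) (X_sub_C_ne_zero x) ?_)
  generalize X - C x = ξ at *
  simp only [Polynomial.map_mul, Polynomial.map_sub, map_X, map_C, map_add, map_mul, map_sub,
    aeval_X, aeval_C] at e3 e4
  simp only [Finset.sum_range_succ, Finset.sum_range_zero, Algebra.smul_def, map_pow, map_mul,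
    aeval_C, if_true, one_ne_zero, if_false, Nat.sub_zero, Nat.add_one_sub_one]
  linear_combination (-aeval s (q.map C)) * e3 +
    (aeval s ((nq (D.ch s) x z).map C) + algebraMap _ _ ξ * aeval s β) * e4

end Pool.Agent.P.MP_ab0431_ag.UB

namespace Pool.Agent.P.MP_ab0431_ag.UB

open Polynomial Set

theorem dvd_det_kma {K : Type} [Field K] {b : ℕ} (D : Str K[X] b) (s : D.A) (x z : K)
    (h0 : (D.ch s).evalEval x z = 0)
    (h : ∀ i, X - C x ∣ (aeval s ((nq (D.ch s) x z).map C) : D.A) i) : X - C x ∣ (D.N s).det := by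
  set q := nq (D.ch s) x z with hq
  have hm : ((D.ch s).map (evalRingHom x)).Monic := (D.ch_monic s).map _
  have hd : ((D.ch s).map (evalRingHom x)).natDegree = b := by
    rw [(D.ch_monic s).natDegree_map, D.ch_natDegree]
  have hr : ((D.ch s).map (evalRingHom x)).IsRoot z := by
    rw [IsRoot, map_evalRingHom_eval]; exact h0
  have h1 : (X - C z) * q = (D.ch s).map (evalRingHom x) := mul_divByMonic_eq_iff_isRoot.2 hr
  have hq0 : q ≠ 0 := fun e => hm.ne_zero (by rw [← h1, e, mul_zero])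
  have hqd : q.natDegree < b := by
    rw [← hd, ← h1, natDegree_mul (X_sub_C_ne_zero z) hq0, natDegree_X_sub_C]; omega
  rw [dvd_iff_isRoot, IsRoot, ← coe_evalRingHom, RingHom.map_det,
    ← Matrix.exists_vecMul_eq_zero_iff]
  refine ⟨fun j => q.coeff j, fun e => hq0 (leadingCoeff_eq_zero.1 (congrFun e ⟨_, hqd⟩)), ?_⟩
  funext i
  have h2 := dvd_iff_isRoot.1 (h i)
  rw [aeval_eq_sum_range' (n := b) (natDegree_map_le.trans_lt hqd), ← Fin.sum_univ_eq_sum_range
    (fun j => (q.map C).coeff j • s ^ j), Str.sum_apply, IsRoot, eval_finsetSum] at h2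
  rw [Pi.zero_apply, ← h2, Matrix.vecMul, dotProduct]
  refine Finset.sum_congr rfl fun j _ => ?_
  rw [Str.smul_apply, coeff_map, eval_mul, eval_C]
  rfl

theorem p_KMA (hNODE : S_NODE) (hDISC : S_DISC) (hTOP : S_TOP) (hTUP : S_TUP) (hRSEP : S_RSEP) :
    S_KMA := by
  intro K _ b m n w D s x z hM hs hw hN hU
  obtain ⟨Dt, -, -, -, -, hW, -⟩ := hTUP K b D
  have hWD := (hW m s hs).1
  have hF : toP (co b m (D.ch s)) = D.ch s := toP_co (D.ch_monic s) (D.ch_natDegree s) hWD
  rw [NodE, hF] at hN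
  rw [nU, nP, hF] at hU
  obtain ⟨hU1, hU4⟩ := mul_ne_zero_iff.1 hU
  obtain ⟨hU1, hU2⟩ := mul_ne_zero_iff.1 (mul_ne_zero_iff.1 hU1).1
  have hx : Function.Injective x := Matrix.det_vandermonde_ne_zero_iff.1 hU1
  obtain ⟨g, hg⟩ : nH x ∣ (D.toStr.N s).det :=
    Finset.prod_dvd_of_coprime ((pairwise_coprime_X_sub_C hx).set_pairwise _) fun i _ =>
      dvd_det_kma D.toStr s (x i) (z i) (hN.2 i).1 (hNODE K b D.toStr s (x i) (z i) hM (hN.2 i))
  have hH : (nH x).Monic := monic_prod_of_monic _ _ fun i _ => monic_X_sub_C _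
  have hHd : (nH x).natDegree = n := by
    rw [nH, natDegree_prod_of_monic _ _ fun i _ => monic_X_sub_C _]
    simp
  have hΔ : Δ b (D.ch s) = nH x ^ 2 * (g * g * (C (D.c : K) * D.P)) := by
    rw [(hDISC K[X] b).1 D.toStr s, hg, D.hd]; ring
  have hΔd : (Δ b (D.ch s)).natDegree = m * (b * (b - 1)) :=
    natDegree_eq_of_le_of_coeff_ne_zero (natDegree_le_iff_coeff_eq_zero.2
      (hTOP K b m _ (D.ch_monic s) (D.ch_natDegree s) hWD).1) hU2
  have h0 : g * g * (C (D.c : K) * D.P) ≠ 0 := fun e => hU2 (by rw [hΔ, e, mul_zero, coeff_zero])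
  have hd : (g * g * (C (D.c : K) * D.P)).natDegree = w := by
    rw [hΔ, (hH.pow 2).natDegree_mul' h0, hH.natDegree_pow, hHd] at hΔd
    omega
  rw [hΔ, mul_divByMonic_cancel_left _ (hH.pow 2)] at hU4
  have hsep := (hRSEP K _ w h0 hd).1 hU4
  obtain ⟨u, hu, rfl⟩ := Polynomial.isUnit_iff.1 (hsep.squarefree g (dvd_mul_right _ _))
  refine ⟨hsep.of_dvd ((dvd_mul_left _ _).trans (dvd_mul_left _ _)), ?_, u, hu.ne_zero,
    hg.trans (mul_comm _ _)⟩
  rw [← hd, ← C_mul, natDegree_C_mul (mul_ne_zero hu.ne_zero hu.ne_zero),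
    natDegree_C_mul D.c.ne_zero, D.P_natDegree]

end Pool.Agent.P.MP_ab0431_ag.UB

namespace Pool.Agent.P.MP_ab0431_ag.UB

open Polynomial Set

theorem smul_lvy {K : Type} [Field K] {b k n : ℕ} {D : Dat K b} {o : D.A} {p : K[X]}
    (ho : D.Deg k o) (hp : ∀ l, n < l + k → p.coeff l = 0) : D.Deg n (p • o) ∧
      ∀ i, D.tp n (p • o) i = (if k ≤ n then p.coeff (n - k) else 0) * D.tp k o i := by
  have z : ∀ i u v, n < u + k ∨ k < v + D.a i → p.coeff u * (o i).coeff v = 0 := fun i u v h =>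
    h.elim (fun h => by rw [hp u h, zero_mul]) fun h => by rw [ho i v h, mul_zero]
  refine ⟨fun i N hN => ?_, fun i => ?_⟩
  · rw [Str.smul_apply, coeff_mul]
    refine Finset.sum_eq_zero fun q hq => z i _ _ ?_
    have := Finset.HasAntidiagonal.mem_antidiagonal.1 hq
    omega
  · simp only [Dat.tp]
    rw [Str.smul_apply, coeff_mul]
    by_cases h : k ≤ n ∧ D.a i ≤ k
    · rw [if_pos (h.2.trans h.1), if_pos h.1, if_pos h.2,
        Finset.sum_eq_single (n - k, k - D.a i)]
      · intro q hq hne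
        refine z i _ _ ?_
        have := Finset.HasAntidiagonal.mem_antidiagonal.1 hq
        by_contra hc
        exact hne (Prod.ext (by change q.1 = n - k; omega) (by change q.2 = k - D.a i; omega))
      · intro hq
        exact absurd (Finset.HasAntidiagonal.mem_antidiagonal.2 (by change n - k + (k - D.a i) = _; omega)) hq
    · have e : (if k ≤ n then p.coeff (n - k) else 0) *
          (if D.a i ≤ k then (o i).coeff (k - D.a i) else 0) = 0 := by
        by_cases h1 : k ≤ n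
        · rw [if_neg (c := D.a i ≤ k) fun h2 => h ⟨h1, h2⟩, mul_zero]
        · rw [if_neg h1, zero_mul]
      rw [e]
      split_ifs with h3
      · refine Finset.sum_eq_zero fun q hq => z i _ _ ?_
        have := Finset.HasAntidiagonal.mem_antidiagonal.1 hq
        omega
      · rfl

theorem p_LVY (hTUP : S_TUP) (hTOP : S_TOP) (hDISC : S_DISC) :
    S_LVY := by
  intro K _ b m n D s y hs hd
  obtain ⟨Dt, -, h0, h1, hmul, htop, -⟩ := hTUP K b D
  let sb : Dt.A := D.tp m s
  have hpow : ∀ j : ℕ, D.Deg (m * j) (s ^ j) ∧ D.tp (m * j) (s ^ j) = (sb ^ j : Dt.A) := fun j => by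
    induction j with
    | zero => rw [mul_zero, pow_zero, pow_zero]; exact ⟨h0, h1⟩
    | succ j ih =>
      obtain ⟨a1, a2⟩ := hmul _ _ _ _ ih.1 hs
      rw [Nat.mul_succ, pow_succ, pow_succ]
      exact ⟨a1, by rw [a2, ih.2]⟩
  have hdet : (Dt.N sb).det ≠ 0 := fun h => hd (by
    rw [(hTOP K b m _ (D.toStr.ch_monic s) (D.toStr.ch_natDegree s) (htop m s hs).1).2,
      (htop m s hs).2, (hDISC K b).1 Dt sb, h]
    simp)
  refine ⟨fun hn => ?_, fun h i N hN => ?_⟩
  · have step : ∀ r, (∀ (j : Fin b) l, n + r < l + m * j → (y j).coeff l = 0) →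
        ∀ (j : Fin b) l, n < l + m * j → (y j).coeff l = 0 := fun r => by
      induction r with
      | zero => exact id
      | succ r ih =>
        refine fun h => ih fun j l hl => ?_
        have hv : Matrix.vecMul (fun j : Fin b => if m * j ≤ n + (r + 1) then
            (y j).coeff (n + (r + 1) - m * j) else 0) (Dt.N sb) = 0 := by
          funext i
          have e1 : D.tp (n + (r + 1)) (∑ j, y j • s ^ (j : ℕ)) i = 0 := by
            simp only [Dat.tp]
            split_ifs with h2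
            · exact hn i _ (by omega)
            · rfl
          have e2 : D.tp (n + (r + 1)) (∑ j, y j • s ^ (j : ℕ)) i =
              ∑ j, D.tp (n + (r + 1)) (y j • s ^ (j : ℕ)) i := by
            simp only [Dat.tp]
            split_ifs with h2
            · rw [Str.sum_apply, finsetSum_coeff]
            · simp
          refine Eq.trans ?_ (e2.symm.trans e1)
          rw [Matrix.vecMul, dotProduct]
          refine Finset.sum_congr rfl fun j _ => ?_
          rw [(smul_lvy (hpow j).1 (h j)).2 i, (hpow j).2]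
          rfl
        have h3 := congrFun (Matrix.eq_zero_of_vecMul_eq_zero hdet hv) j
        by_cases h4 : n + (r + 1) < l + m * j
        · exact h j l h4
        · rw [if_pos (by omega), show n + (r + 1) - m * j = l by omega] at h3
          exact h3
    refine step (∑ j, ((y j).natDegree + m * j)) fun j l hl => coeff_eq_zero_of_natDegree_lt ?_
    have := Finset.single_le_sum (f := fun j : Fin b => (y j).natDegree + m * j)
      (fun _ _ => Nat.zero_le _) (Finset.mem_univ j)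
    omega
  · rw [Str.sum_apply, finsetSum_coeff]
    exact Finset.sum_eq_zero fun j _ => (smul_lvy (hpow j).1 (h j)).1 i N hN

end Pool.Agent.P.MP_ab0431_ag.UB

namespace Pool.Agent.P.MP_ab0431_ag.UB

open Polynomial Set

section
variable {K : Type} [Field K] {b : ℕ}

theorem ev_km1 {a : Fin b → ℕ} {N : ℕ} {y : Fin b → K[X]}
    (h : ∀ j l, N < l + a j → (y j).coeff l = 0) (j : Fin b) (x : K) :
    ∑ p : J a N, (if p.1.1 = j then x ^ (p.1.2 : ℕ) else 0) * (y p.1.1).coeff p.1.2 =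
      (y j).eval x := by
  rw [← Finset.sum_subtype (Finset.univ.filter fun p : Fin b × Fin (N + 1) => p.2 + a p.1 ≤ N)
    (by simp) fun p => (if p.1 = j then x ^ (p.2 : ℕ) else 0) * (y p.1).coeff p.2,
    Finset.sum_filter_of_ne fun p _ e => not_lt.1 fun c => e (by rw [h _ _ c, mul_zero]),
    eval_eq_sum_range' (n := N + 1) (Nat.lt_succ_of_le (natDegree_le_iff_coeff_eq_zero.2
      fun l c => h _ _ (by omega))), Finset.sum_range, Fintype.sum_prod_type_right]
  simp [mul_comm]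

theorem node_km1 [IsAlgClosed K] (hDSEP : S_DSEP) (D : Str K b) (s : D.A) (y : Fin b → K) {z : K}
    (h : ∑ j, y j • s ^ (j : ℕ) = 0) (hz : (D.ch s).eval z = 0)
    (hq : Δ (b - 1) (D.ch s /ₘ (X - C z)) ≠ 0) :
    ∃ β, ∀ j : Fin b, y j = β * (D.ch s /ₘ (X - C z)).coeff j := by
  have e := mul_divByMonic_eq_iff_isRoot.2 hz
  have d := natDegree_divByMonic (D.ch s) (monic_X_sub_C z)
  rw [D.ch_natDegree, natDegree_X_sub_C] at d
  generalize D.ch s /ₘ (X - C z) = q at *
  have qm : q.Monic := (monic_X_sub_C z).of_mul_monic_left (e ▸ D.ch_monic s)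
  set Y : K[X] := ∑ j : Fin b, monomial j (y j) with hY
  have c : ∀ j : Fin b, Y.coeff j = y j := fun j => by
    simp [hY, coeff_monomial, Fin.val_inj]
  have a : aeval (D.L s) Y = 0 := by
    rw [aeval_algHom_apply, hY, map_sum]
    simp only [aeval_monomial, ← Algebra.smul_def, h, map_zero]
  have dv : q ∣ Y := by
    by_cases y0 : Y = 0
    · exact y0 ▸ dvd_zero q
    refine (IsAlgClosed.splits q).dvd_of_roots_le_roots qm.ne_zero ((Multiset.le_iff_subset
      (nodup_roots ((hDSEP K _ q qm d).1 hq))).2 fun r hr => (mem_roots y0).2 ?_)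
    have := spectrum.subset_polynomial_aeval (D.L s) Y ⟨r, Matrix.mem_spectrum_iff_isRoot_charpoly.2
      ((isRoot_of_mem_roots hr).dvd (Dvd.intro_left _ e)), rfl⟩
    rw [a, spectrum.mem_iff, sub_zero] at this
    by_contra n
    exact this ((IsUnit.mk0 _ n).map _)
  refine ⟨Y.leadingCoeff, fun j => ?_⟩
  rw [← c, ← coeff_C_mul, ← eq_leadingCoeff_mul_of_monic_of_dvd_of_natDegree_le qm dv]
  exact d ▸ natDegree_sum_le_of_forall_le _ _ fun i _ =>
    (natDegree_monomial_le _).trans (Nat.le_sub_one_of_lt i.2)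

end

theorem p_KM1 (hKMA : S_KMA) (hLVY : S_LVY) (hTUP : S_TUP) (hDSEP : S_DSEP) :
    S_KM1 := by
  intro K _ _ b m n w D s x z hM hs hw hN hU
  obtain ⟨-, -, u, u0, hu⟩ := hKMA K b m n w D s x z hM hs hw hN hU
  obtain ⟨_, -, -, -, -, T, -⟩ := hTUP K b D
  have hF := toP_co (D.ch_monic s) (D.ch_natDegree s) (T m s hs).1
  simp only [nU, hF, mul_ne_zero_iff, Finset.prod_ne_zero_iff] at hU
  have Hm : (nH x).Monic := monic_prod_X_sub_C _ _
  have Hd : (nH x).natDegree = n := by simp [nH, natDegree_finsetProd_X_sub_C_eq_card]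
  let E : (J D.a m → K) →ₗ[K] Fin b → K[X] := .pi fun i =>
    ∑ p : J D.a m, if p.1.1 = i then monomial p.1.2 ∘ₗ .proj p else 0
  have hE : ∀ l, E l = D.el m l := fun l => funext fun i => by
    simp [E, Dat.el, apply_ite fun f : (J D.a m → K) →ₗ[K] K[X] => f l]
  let Y := u⁻¹ • (D.toStr.N s).adjugate.vecMulLinear.restrictScalars K ∘ₗ E
  have hY : ∀ l, ∑ j, Y l j • s ^ (j : ℕ) = nH x • D.el m l := fun l => by
    ext1 i
    have : Matrix.vecMul (Y l) (D.toStr.N s) = nH x • E l := by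
      simp only [Y, LinearMap.comp_apply, LinearMap.smul_apply, LinearMap.restrictScalars_apply,
        Matrix.vecMulLinear_apply, Matrix.smul_vecMul, Matrix.vecMul_vecMul, Matrix.adjugate_mul,
        Matrix.vecMul_smul, Matrix.vecMul_one, hu]
      rw [← smul_assoc, smul_eq_C_mul, ← mul_assoc, ← C_mul, inv_mul_cancel₀ u0, C_1, one_mul]
    rw [Str.sum_apply, ← hE]
    exact congrFun this i
  have hD : ∀ l (j : Fin b) k, m + n < k + m * j → (Y l j).coeff k = 0 := fun l =>
    (hLVY K b m _ D s _ hs hU.1.1.2).1 fun i k c => by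
      rw [hY, Str.smul_apply, coeff_mul]
      refine Finset.sum_eq_zero fun p hp => ?_
      replace hp := Finset.HasAntidiagonal.mem_antidiagonal.1 hp
      by_cases e : n < p.1
      · rw [coeff_eq_zero_of_natDegree_lt (Hd.trans_lt e), zero_mul]
      · rw [D.el_deg m l i _ (by omega), mul_zero]
  let G : (J D.a m → K) →ₗ[K] J (fun j : Fin b => m * j) (m + n) → K :=
    .pi fun p => lcoeff K p.1.2 ∘ₗ .proj p.1.1 ∘ₗ Y
  have inj : Function.Injective G := (injective_iff_map_eq_zero _).2 fun l e => by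
    have y0 : ∀ j, Y l j = 0 := fun j => Polynomial.ext fun k => by
      by_cases c : k + m * j ≤ m + n
      · exact congrFun e ⟨(j, ⟨k, by omega⟩), c⟩
      · exact hD l j k (by omega)
    have := hY l
    simp only [y0, zero_smul, Finset.sum_const_zero] at this
    funext p
    rw [← D.el_coeff m l p, show D.el m l p.1.1 = 0 from
      (mul_eq_zero.1 (congrFun this p.1.1).symm).resolve_left Hm.ne_zero]
    rfl
  rw [← Module.finrank_fintype_fun_eq_card K, ← LinearMap.finrank_range_of_inj inj]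
  refine (Submodule.finrank_mono ?_).trans
    (Submodule.finrank_map_le (LinearMap.funLeft K K Sum.inl) _)
  rintro _ ⟨l, rfl⟩
  have k := fun i => node_km1 hDSEP (D.fib (x i)) (D.toStr.mapA _ s) (fun j => (Y l j).eval (x i))
    (z := z i) (by
      have := congrArg (D.toStr.mapA (evalRingHom (x i))) (hY l)
      rw [Str.mapA_smul, show evalRingHom (x i) (nH x) = 0 by
        simpa [nH, eval_prod] using Finset.prod_eq_zero (Finset.mem_univ i) (sub_self _),
        zero_smul, map_sum] at this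
      simpa only [Str.mapA_smul, map_pow, coe_evalRingHom] using this)
    (by rw [Str.ch_map, map_evalRingHom_eval, ← hF]; exact (hN.2 i).1)
    (by rw [Str.ch_map]; exact hU.1.2 i (Finset.mem_univ i))
  choose β hβ using k
  refine ⟨Sum.elim (G l) β, funext fun r => ?_, rfl⟩
  have := hβ r.1 r.2
  rw [Str.ch_map] at this
  rw [Matrix.mulVecLin_apply, Matrix.mulVec, dotProduct, Fintype.sum_sum_type]
  refine (congrArg (· + _) ((ev_km1 (hD l) r.2 (x r.1)).trans this)).trans ?_
  simp [KMat, hF, nq, mul_comm]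

end Pool.Agent.P.MP_ab0431_ag.UB

namespace Pool.Agent.P.MP_ab0431_ag.UB

open Polynomial Set

theorem nq_km2 {K : Type} [Field K] {F : K[X][X]} {b : ℕ} (h1 : F.Monic) (h2 : F.natDegree = b)
    {x z : K} (h : F.evalEval x z = 0) : nq F x z ≠ 0 ∧ (nq F x z).natDegree < b := by
  have e : (X - C z) * nq F x z = F.map (evalRingHom x) :=
    mul_divByMonic_eq_iff_isRoot.2 (by rw [IsRoot, map_evalRingHom_eval]; exact h)
  have h3 : nq F x z ≠ 0 := fun h0 => (h1.map (evalRingHom x)).ne_zero (by rw [← e, h0, mul_zero])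
  have := congrArg natDegree e
  rw [natDegree_mul (X_sub_C_ne_zero z) h3, natDegree_X_sub_C, h1.natDegree_map, h2] at this
  exact ⟨h3, by omega⟩

theorem coeff_km2 {K : Type} [Field K] {b N : ℕ} {a : Fin b → ℕ} (l : J a N → K) (j : Fin b)
    (n : ℕ) : (∑ p : J a N, if p.1.1 = j then monomial p.1.2 (l p) else 0).coeff n =
      ∑ p : J a N, if p.1.1 = j ∧ p.1.2 = n then l p else 0 := by
  rw [finsetSum_coeff]
  refine Finset.sum_congr rfl fun p _ => ?_
  by_cases h : p.1.1 = j <;> simp [h, coeff_monomial]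

theorem p_KM2 (hKMA : S_KMA) (hLVY : S_LVY) (hTUP : S_TUP) (hNODE : S_NODE) :
    S_KM2 := by
  intro K _ b m n w D s x z hM hs hw hN hU
  obtain ⟨-, -, u, u0, hd⟩ := hKMA K b m n w D s x z hM hs hw hN hU
  obtain ⟨Dt, -, -, -, -, h5, -⟩ := hTUP K b D
  have hF := toP_co (D.ch_monic s) (D.ch_natDegree s) (h5 m s hs).1
  simp only [nU, hF, ne_eq, mul_eq_zero, not_or] at hU
  have hS := hF ▸ hN.2
  let y : Fin b → (J (fun j : Fin b => m * j) (m + n) ⊕ Fin n → K) →ₗ[K] K[X] := fun j =>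
    ∑ p, if p.1.1 = j then monomial p.1.2 ∘ₗ LinearMap.proj (Sum.inl p) else 0
  have hy : ∀ j v, y j v = ∑ p, if p.1.1 = j then monomial p.1.2 (v (Sum.inl p)) else 0 :=
    fun j v => by
      simp only [y, LinearMap.sum_apply]
      exact Finset.sum_congr rfl fun p _ => by split_ifs <;> rfl
  let Φ : (J (fun j : Fin b => m * j) (m + n) ⊕ Fin n → K) →ₗ[K] (J D.a m → K) :=
    LinearMap.pi fun p => lcoeff K (n + p.1.2) ∘ₗ
      ∑ j : Fin b, LinearMap.mulRight K ((s ^ (j : ℕ)) p.1.1) ∘ₗ y j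
  rw [← Module.finrank_fintype_fun_eq_card K]
  refine LinearMap.finrank_le_finrank_of_injective (f := Φ.domRestrict _)
    ((injective_iff_map_eq_zero _).2 fun ⟨v, hv⟩ h0 => Subtype.ext ?_)
  have hY : ∀ k, (∑ j : Fin b, y j v • s ^ (j : ℕ)) k = ∑ j : Fin b, y j v * (s ^ (j : ℕ)) k :=
    fun k => D.sum_apply _ _ k
  have h1 : ∀ p : J D.a m, (∑ j : Fin b, y j v * (s ^ (j : ℕ)) p.1.1).coeff (n + p.1.2) = 0 :=
    fun p => by simpa [Φ, LinearMap.sum_apply] using congrFun h0 p
  have h2 : D.Deg (m + n) (∑ j : Fin b, y j v • s ^ (j : ℕ)) :=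
    (hLVY K b m (m + n) D s (fun j => y j v) hs hU.1.1.2).2 fun j l hl => by
      rw [hy, coeff_km2]
      exact Finset.sum_eq_zero fun p _ => if_neg fun h => by
        have := p.2
        rw [h.1, h.2] at this
        exact hl.not_ge this
  have h3 : ∀ i j, (y j v).eval (x i) = v (.inr i) * (nq (D.ch s) (x i) (z i)).coeff j :=
    fun i j => by
      have := congrFun (LinearMap.mem_ker.1 hv) (i, j)
      simp only [Matrix.mulVecLin_apply, Matrix.mulVec, dotProduct, KMat, Matrix.of_apply, hF,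
        Fintype.sum_sum_type, Sum.elim_inl, Sum.elim_inr, ite_mul, zero_mul, Finset.sum_ite_eq',
        Finset.mem_univ, if_true, Pi.zero_apply] at this
      rw [hy, eval_finsetSum, ← sub_eq_zero, ← this, sub_eq_add_neg, neg_mul, mul_comm]
      congr 1
      exact Finset.sum_congr rfl fun p _ => by split_ifs <;> simp [mul_comm]
  have h4 : ∀ k, ∑ j : Fin b, y j v * (s ^ (j : ℕ)) k = 0 := fun k => by
    refine eq_zero_of_degree_lt_of_eval_index_eq_zero Finset.univ
      (Matrix.det_vandermonde_ne_zero_iff.1 hU.1.1.1).injOn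
      ((degree_lt_iff_coeff_zero _ _).2 fun l hl => ?_) fun i _ => ?_
    · rw [Finset.card_univ, Fintype.card_fin] at hl
      obtain ⟨l, rfl⟩ := Nat.exists_eq_add_of_le hl
      by_cases e : l + D.a k ≤ m
      · exact h1 ⟨(k, ⟨l, by omega⟩), e⟩
      · rw [← hY]; exact h2 k _ (by omega)
    · have := dvd_iff_isRoot.1 (hNODE K b D.toStr s (x i) (z i) hM (hS i) k)
      rw [IsRoot, aeval_eq_sum_range' (natDegree_map_le.trans_lt
        (nq_km2 (D.ch_monic s) (D.ch_natDegree s) (hS i).1).2), Finset.sum_range, D.sum_apply] at this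
      simp only [Str.smul_apply, coeff_map, eval_finsetSum, eval_mul, eval_C] at this
      simp only [eval_finsetSum, eval_mul, h3, mul_assoc, ← Finset.mul_sum, this, mul_zero]
  have h6 : (fun j => y j v) = 0 := Matrix.eq_zero_of_vecMul_eq_zero (M := D.toStr.N s)
    (hd ▸ mul_ne_zero (C_ne_zero.2 u0) (monic_prod_X_sub_C x _).ne_zero) (funext h4)
  funext r
  rcases r with p | i
  · have := congrArg (coeff · p.1.2) (congrFun h6 p.1.1)
    simp only [hy, coeff_km2, Pi.zero_apply, coeff_zero] at this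
    rwa [Finset.sum_eq_single p (fun q _ h => if_neg fun e =>
      h (Subtype.ext (Prod.ext e.1 (Fin.ext e.2)))) (by simp), if_pos ⟨rfl, rfl⟩] at this
  · obtain ⟨a1, a2⟩ := nq_km2 (D.ch_monic s) (D.ch_natDegree s) (hS i).1
    have := h3 i ⟨_, a2⟩
    rw [congrFun h6, Pi.zero_apply, eval_zero, eq_comm, mul_eq_zero] at this
    exact this.resolve_right (leadingCoeff_ne_zero.2 a1)

end Pool.Agent.P.MP_ab0431_ag.UB

namespace Pool.Agent.P.MP_ab0431_ag.UB

open Polynomial Set

theorem rows_rk {K ι κ : Type} [Field K] [Fintype ι] [Fintype κ] (A : Matrix ι κ K) :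
    ∃ r : Fin A.rank → ι, LinearIndependent K (A.submatrix r id).row := by
  obtain ⟨τ, a, ha, hsp, hli⟩ := exists_linearIndependent' K A.row
  have : Finite τ := Finite.of_injective a ha
  have := Fintype.ofFinite τ
  have hc : Fintype.card τ = A.rank := by
    rw [linearIndependent_iff_card_eq_finrank_span.1 hli, Set.finrank, hsp,
      Matrix.rank_eq_finrank_span_row]
  let e := (Fintype.equivFinOfCardEq hc).symm
  exact ⟨a ∘ e, hli.comp e e.injective⟩

theorem minor_rk {K ι κ : Type} [Field K] [Fintype ι] [Fintype κ] (A : Matrix ι κ K) :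
    ∃ (r : Fin A.rank → ι) (c : Fin A.rank → κ), (A.submatrix r c).det ≠ 0 := by
  obtain ⟨r, hr⟩ := rows_rk A
  have h1 : (A.submatrix r id).transpose.rank = A.rank := by
    rw [Matrix.rank_transpose, hr.rank_matrix, Fintype.card_fin]
  obtain ⟨c, hc⟩ := rows_rk (A.submatrix r id).transpose
  let e := (finCongr h1).symm
  refine ⟨r, c ∘ e, ?_⟩
  have h2 : LinearIndependent K (A.submatrix r (c ∘ e)).col := hc.comp e e.injective
  exact ((Matrix.isUnit_iff_isUnit_det _).1 (Matrix.linearIndependent_cols_iff_isUnit.1 h2)).ne_zero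

theorem p_RK :
    S_RK := by
  intro R K K' ι κ _ _ _ _ _ φ ψ M h
  obtain ⟨r, c, hd⟩ := minor_rk (M.map ψ)
  have h1 : ((M.map φ).submatrix r c).det ≠ 0 := fun h0 => hd (by
    have e1 : φ (M.submatrix r c).det = ((M.map φ).submatrix r c).det := RingHom.map_det φ _
    have e2 : ψ (M.submatrix r c).det = ((M.map ψ).submatrix r c).det := RingHom.map_det ψ _
    rw [← e2]
    exact h _ (e1.trans h0))
  have h2 : (M.map ψ).rank ≤ (M.map φ).rank := by
    have := Matrix.rank_submatrix_le (M.map φ) r c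
    rwa [Matrix.rank_of_det_ne_zero h1, Fintype.card_fin] at this
  have a := LinearMap.finrank_range_add_finrank_ker (M.map φ).mulVecLin
  have b := LinearMap.finrank_range_add_finrank_ker (M.map ψ).mulVecLin
  rw [Module.finrank_fintype_fun_eq_card] at a b
  unfold Matrix.rank at h2
  omega

end Pool.Agent.P.MP_ab0431_ag.UB

namespace Pool.Agent.P.MP_ab0431_ag.UB

open Polynomial Set

theorem eq_tda {k K σ : Type} [Field k] [Field K] [Algebra k K] (p : σ → K) :
    Algebra.trdeg k (MvPolynomial σ k ⧸ MvPolynomial.vanishingIdeal k {p}) =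
      Algebra.trdeg k (Algebra.adjoin k (range p)) := by
  have h : MvPolynomial.vanishingIdeal k {p} = RingHom.ker (MvPolynomial.aeval (R := k) p) := by
    ext G
    simp [RingHom.mem_ker]
  rw [h, Algebra.adjoin_range_eq_range_aeval]
  exact (Ideal.quotientKerEquivRange (MvPolynomial.aeval (R := k) p)).trdeg_eq

theorem p_TDA :
    S_TDA := by
  intro k K σ τ _ _ _ _ _ p h
  rw [dm, dm, eq_tda, eq_tda]
  generalize hA : Algebra.adjoin k (range (p ∘ Sum.inl)) = A at h
  have h1 : A ≤ Algebra.adjoin k (range p) := hA ▸ Algebra.adjoin_mono (range_comp_subset_range _ _)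
  have h2 : Algebra.adjoin k (range p) ≤ (Subalgebra.algebraicClosure A K).restrictScalars k := by
    refine Algebra.adjoin_le ?_
    rintro _ ⟨i | j, rfl⟩
    · exact isAlgebraic_algebraMap (⟨p (.inl i), hA ▸ Algebra.subset_adjoin ⟨i, rfl⟩⟩ : A)
    · exact h j
  have h3 : Algebra.IsAlgebraic A (Subalgebra.algebraicClosure A K) :=
    (Subalgebra.isAlgebraic_iff _).1 fun _ hx => hx
  have h4 : Algebra.trdeg k (Subalgebra.algebraicClosure A K) = Algebra.trdeg k A := by
    rw [← trdeg_add_eq k A (A := Subalgebra.algebraicClosure A K), trdeg_eq_zero (R := A), add_zero]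
  have h5 := trdeg_le_of_injective (Subalgebra.inclusion h2) (Subalgebra.inclusion_injective h2)
  have h6 := trdeg_le_of_injective (Subalgebra.inclusion h1) (Subalgebra.inclusion_injective h1)
  exact (congrArg Cardinal.toNat (le_antisymm (h5.trans_eq h4) h6)).le

end Pool.Agent.P.MP_ab0431_ag.UB

namespace Pool.Agent.P.MP_ab0431_ag.UB

open Polynomial Set

theorem p_NALG (hDSEP : S_DSEP) :
    S_NALG := by
  intro k K _ _ _ b m c x z hΔ hs
  let A := Algebra.adjoin k (range c)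
  let c0 : Co b m → A := fun p => ⟨c p, Algebra.subset_adjoin ⟨p, rfl⟩⟩
  have e : toP c = (toP c0).map (mapRingHom (algebraMap A K)) := toP_map (algebraMap A K) c0
  have e1 : Δ b (toP c) = (Δ b (toP c0)).map (algebraMap A K) := by rw [e, Δ_map, coe_mapRingHom]
  have hm : ((toP c).map (evalRingHom x)).Monic := (toP_monic c).map _
  have hx : IsAlgebraic A x := by
    refine ⟨Δ b (toP c0), fun h => hΔ (by rw [e1, h, Polynomial.map_zero]), ?_⟩
    rw [aeval_def, ← eval_map, ← e1, ← coe_evalRingHom, ← Δ_map]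
    by_contra h
    have h1 := (hDSEP K b _ hm (by rw [(toP_monic c).natDegree_map, toP_natDegree])).1 h
    refine h1.eval₂_derivative_ne_zero (RingHom.id K) (x := z) ?_ ?_
    · rw [eval₂_id, map_evalRingHom_eval]; exact hs.1
    · rw [eval₂_id, derivative_map, map_evalRingHom_eval]; exact hs.2.1
  refine ⟨hx, IsIntegral.trans_isAlgebraic (S := Subalgebra.algebraicClosure A K) A
    ⟨(toP c0).map (eval₂RingHom (algebraMap A _) ⟨x, hx⟩), (toP_monic c0).map _, ?_⟩⟩
  rw [eval₂_map, ← hs.1, ← map_evalRingHom_eval, e, Polynomial.map_map, eval_map]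
  congr 1
  ext a
  · simp
  · simp

end Pool.Agent.P.MP_ab0431_ag.UB

namespace Pool.Agent.P.MP_ab0431_ag.UB

open Polynomial Set Filter Topology

theorem top_inc {K : Type} [Field K] {b m : ℕ} (c : Co b m → K) :
    (top b m (toP c)).Monic ∧ (top b m (toP c)).natDegree = b := by
  have h1 : (top b m (toP c)).natDegree ≤ b :=
    natDegree_sum_le_of_forall_le _ _ fun j hj =>
      (natDegree_monomial_le _).trans (Nat.lt_succ_iff.1 (Finset.mem_range.1 hj))
  have h2 : (top b m (toP c)).coeff b = 1 := by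
    have h3 := (toP_monic c).coeff_natDegree
    rw [toP_natDegree] at h3
    rw [top, finsetSum_coeff, Finset.sum_eq_single b]
    · simp [h3]
    · exact fun j _ hj => by rw [coeff_monomial, if_neg hj]
    · simp
  exact ⟨monic_of_natDegree_le_of_coeff_eq_one b h1 h2,
    natDegree_eq_of_le_of_coeff_ne_zero h1 (h2 ▸ one_ne_zero)⟩

theorem van_inc {σ : Type} (p : σ → Om) (G : MvPolynomial σ ℂ) :
    G ∈ MvPolynomial.vanishingIdeal ℂ {p} ↔ MvPolynomial.aeval p G = 0 :=
  MvPolynomial.mem_vanishingIdeal_singleton_iff p G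

theorem arith_inc (b m : ℕ) : m * (b * (b + 1)) = m * (b * (b - 1)) + 2 * (b * m) := by
  cases b with
  | zero => simp
  | succ b => rw [Nat.add_sub_cancel]; ring

theorem p_INC (hEMB : S_EMB) (hNOD : S_NOD) (hNEQ : S_NEQ) (hKR : S_KR) (hNMAP : S_NMAP) (hNORM : S_NORM) (hTOP : S_TOP) (hDSEP : S_DSEP) (hKMA : S_KMA) (hKM1 : S_KM1) (hKM2 : S_KM2) (hRK : S_RK) (hMAXS : S_MAXS) (hJC : S_JC) (hTDA : S_TDA) (hNALG : S_NALG) (hPHI : S_PHI) :
    S_INC := by
  intro b m D₀ hsep ha
  obtain ⟨l, hl0⟩ := hEMB (J D₀.a m) ⊥ Ideal.isPrime_bot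
  have hl : AlgebraicIndependent ℂ l := algebraicIndependent_iff.2 fun G hG =>
    Ideal.mem_bot.1 (hl0 ▸ (van_inc l G).2 hG)
  obtain ⟨c1, hc1⟩ : ∃ c1, c1 = co b m ((D₀.map (algebraMap ℂ Om)).ch
    ((D₀.map (algebraMap ℂ Om)).el m l)) := ⟨_, rfl⟩
  obtain ⟨n, x, z, hw, hN1, hU1⟩ := hNOD ℂ Om b m D₀ l c1 hsep ha hl hc1
  obtain ⟨ι, _, f, hcard, hf⟩ := hNEQ ℂ b m n
  obtain ⟨p1, e1, e2, e3⟩ : ∃ p1 : Co b m ⊕ Fin n ⊕ Fin n → Om, p1 ∘ Sum.inl = c1 ∧
    p1 ∘ Sum.inr ∘ Sum.inl = x ∧ p1 ∘ Sum.inr ∘ Sum.inr = z :=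
    ⟨Sum.elim c1 (Sum.elim x z), rfl, rfl, rfl⟩
  subst e1 e2 e3
  have hpr : (MvPolynomial.vanishingIdeal ℂ {p1}).IsPrime := inferInstance
  obtain ⟨q, hq, hqp, hfq, hdim⟩ := hKR ℂ _ ι f _ hpr fun i =>
    (van_inc p1 _).2 ((hf Om p1).2 hN1 i)
  obtain ⟨p2, rfl⟩ := hEMB _ q hq
  have hN2 := (hf Om p2).1 fun i => (van_inc p2 _).1 (hfq i)
  have hker : ∀ r, MvPolynomial.aeval p2 r = 0 → MvPolynomial.aeval p1 r = 0 := fun r hr =>
    (van_inc p1 r).1 (hqp ((van_inc p2 r).2 hr))
  have huniv : ∀ p : Co b m ⊕ Fin n ⊕ Fin n → Om, _ := fun p => by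
    have h := hNMAP (MvPolynomial (Co b m ⊕ Fin n ⊕ Fin n) ℂ) Om
      (MvPolynomial.aeval (R := ℂ) p).toRingHom b m n D₀.w (MvPolynomial.X ∘ Sum.inl)
      (MvPolynomial.X ∘ Sum.inr ∘ Sum.inl) (MvPolynomial.X ∘ Sum.inr ∘ Sum.inr)
    have e : (MvPolynomial.aeval (R := ℂ) p).toRingHom ∘ MvPolynomial.X = p :=
      funext fun i => MvPolynomial.aeval_X p i
    rw [← Function.comp_assoc, ← Function.comp_assoc _ MvPolynomial.X,
      ← Function.comp_assoc _ MvPolynomial.X, e] at h
    exact h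
  have hU2 : nU D₀.w (p2 ∘ Sum.inl) (p2 ∘ Sum.inr ∘ Sum.inl) (p2 ∘ Sum.inr ∘ Sum.inr) ≠ 0 :=
    fun h => hU1 ((huniv p1).1.trans (hker _ ((huniv p2).1.symm.trans h)))
  have hrk := hRK _ Om Om _ _ (MvPolynomial.aeval (R := ℂ) p2).toRingHom
    (MvPolynomial.aeval (R := ℂ) p1).toRingHom (KMat (b := b) (m := m)
      (MvPolynomial.X ∘ Sum.inl) (MvPolynomial.X ∘ Sum.inr ∘ Sum.inl)
      (MvPolynomial.X ∘ Sum.inr ∘ Sum.inr)) hker
  rw [← (huniv p1).2, ← (huniv p2).2] at hrk
  have hΔ : (Δ b (toP (p2 ∘ Sum.inl))).coeff (m * (b * (b - 1))) ≠ 0 :=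
    right_ne_zero_of_mul (left_ne_zero_of_mul (left_ne_zero_of_mul hU2))
  obtain ⟨D, s, hmax, hdeg, hch, -⟩ := hNORM Om b m _ (toP_monic (p2 ∘ Sum.inl))
    (toP_natDegree _) hN2.1 ((hDSEP Om b _ (top_inc _).1 (top_inc _).2).1
      ((hTOP Om b m _ (toP_monic _) (toP_natDegree _) hN2.1).2 ▸ hΔ))
  have hco : co b m (D.ch s) = p2 ∘ Sum.inl := by rw [hch, co_toP]
  obtain ⟨k1, k2, -⟩ := hKMA Om b m n D₀.w D s _ _ hmax hdeg hw (hco ▸ hN2) (hco ▸ hU2)
  have k3 := hKM1 Om b m n D₀.w D s _ _ hmax hdeg hw (hco ▸ hN2) (hco ▸ hU2)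
  have k4 := hKM2 Om b m n D₀.w (D₀.map (algebraMap ℂ Om)) _ _ _ (hMAXS Om b _ hsep.map)
    (Dat.el_deg _ m l) hw (hc1 ▸ hN1) (hc1 ▸ hU1)
  rw [hco] at k3
  rw [← hc1] at k4
  have k5 : Fintype.card (J D.a m) ≤ Fintype.card (J D₀.a m) := k3.trans (hrk.trans k4)
  have j0 := (hJC b m D₀.a).2.2 fun i => by have := ha i; omega
  have j1 := (hJC b m D.a).1
  have w0 : D₀.w = 2 * ∑ i, D₀.a i := rfl
  have w1 : D.w = 2 * ∑ i, D.a i := rfl
  refine ⟨D, p2 ∘ Sum.inl, k2, k1, (hJC b m D.a).2.1 (by omega), ⟨s, hdeg, hco.symm⟩, ?_, ?_⟩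
  · have hne : Δ b (toP (p2 ∘ Sum.inl)) ≠ 0 := fun h => hΔ (by rw [h, coeff_zero])
    have h1 := hTDA ℂ Om _ _ p2 fun j => by
      cases j with
      | inl i => exact (hNALG ℂ Om b m _ _ _ hne (hN2.2 i)).1
      | inr i => exact (hNALG ℂ Om b m _ _ _ hne (hN2.2 i)).2
    have h2 := arith_inc b m
    have h3 : b * (m + 1) = b * m + b := rfl
    rw [Fintype.card_sum, Fintype.card_sum, Fintype.card_fin] at hdim
    omega
  · rintro _ ⟨o, ho, rfl⟩ G hG
    have h1 := hker (MvPolynomial.rename Sum.inl G)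
      (by rw [MvPolynomial.aeval_rename]; exact (van_inc _ G).1 hG)
    have h2 := (hPHI Om b m (D₀.map (algebraMap ℂ Om)) (G.map (algebraMap ℂ Om))).1 l
    rw [(hPHI ℂ b m D₀ G).2.1, ← hc1, MvPolynomial.eval_map, ← MvPolynomial.aeval_def,
      ← MvPolynomial.aeval_rename, h1] at h2
    have h3 : MvPolynomial.aeval l (D₀.Phi m G) = 0 :=
      (MvPolynomial.eval_map (algebraMap ℂ Om) l (D₀.Phi m G)).symm.trans h2
    rw [ho.eq_el, MvPolynomial.aeval_eq_eval, ← (hPHI ℂ b m D₀ G).1,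
      algebraicIndependent_iff.1 hl _ h3, map_zero]

end Pool.Agent.P.MP_ab0431_ag.UB
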