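import Pool.Agent.P.MP_ab0431_ag.UB.IfaceC
import Pool.Agent.P.MP_ab0431_ag.UB.IfaceO

/-! Steps CBZ1 CBZ2 CLNN CNDM CNLB CBEZ0 CLBU CBEZ CMIN CNRL CDEG CEQS CRES COPT. -/

set_option autoImplicit false
set_option linter.unusedSectionVars false
set_option linter.unusedVariables false

namespace Pool.Agent.P.MP_ab0431_ag.UB

open Polynomial Set Filter Topology Metric
open Pool.Agent.P.MP_ab0431_ag.UB.Cc

theorem p_CBZ1 :
    S_CBZ1 := by
  rintro σ _ p I f e n ρ c hp hf hd he hpI hfI ⟨a, ha⟩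
  have h1 : ∀ k, HF p k + HF I (k + e) ≤ HF p (k + e) := fun k => by
    obtain ⟨v, hv, hv'⟩ := HF_ex p k
    obtain ⟨w, hw, hw'⟩ := HF_ex I (k + e)
    have := HF_ge (I := p) (v := Sum.elim (fun i => f * v i) w) (k := k + e) (fun t ht => by
      simp only [Fintype.sum_sum_type, Sum.elim_inl, Sum.elim_inr] at ht
      have e1 : ∑ i, t (Sum.inl i) • (f * v i) = f * ∑ i, t (Sum.inl i) • v i := by
        simp only [Finset.mul_sum, mul_smul_comm]
      rw [e1] at ht
      have h2 := hw (fun i => t (Sum.inr i))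
        ((I.add_mem_iff_right (I.mul_mem_right _ hfI)).1 (hpI ht))
      have h3 : ∀ i, t (Sum.inr i) = 0 := congrFun h2
      simp only [h3, zero_smul, Finset.sum_const_zero, add_zero] at ht
      have h4 := hv _ ((hp.mem_or_mem ht).resolve_left hf)
      funext i
      rcases i with i | i
      exacts [congrFun h4 i, h3 i]) (fun i => by
      rcases i with i | i
      · exact (MvPolynomial.totalDegree_mul _ _).trans (by have := hv' i; omega)
      · exact hw' i)
    simpa using this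
  have h2 : ∀ k, ∑ i ∈ Finset.range k, HF I (i + a) ≤ e * HF p (k + a) := fun k => by
    induction k using Nat.strong_induction_on with
    | _ k ih =>
      rcases le_or_gt k e with h | h
      · refine (Finset.sum_le_card_nsmul _ _ (HF p (k + a)) fun i hi =>
          HF_mono hpI (by have := Finset.mem_range.1 hi; omega)).trans ?_
        rw [Finset.card_range, smul_eq_mul]
        exact Nat.mul_le_mul_right _ h
      · obtain ⟨k, rfl⟩ := Nat.exists_eq_add_of_le' h.le
        have h3 : ∑ j ∈ Finset.range e, HF I (k + j + a) ≤ e * HF I (k + a + e) := by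
          refine (Finset.sum_le_card_nsmul _ _ (HF I (k + a + e)) fun i hi =>
            HF_mono le_rfl (by have := Finset.mem_range.1 hi; omega)).trans ?_
          rw [Finset.card_range, smul_eq_mul]
        rw [Finset.sum_range_add, add_right_comm k e a]
        refine (add_le_add (ih k (by omega)) h3).trans ?_
        rw [← mul_add]
        exact Nat.mul_le_mul_left _ (h1 _)
  refine ⟨1 + a, fun k => ?_⟩
  rw [← add_assoc, ← Nat.sum_range_add_choose, Finset.mul_sum, ← add_assoc, mul_comm e c,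
    mul_assoc]
  refine (Finset.sum_le_sum fun i _ => ha i).trans ?_
  rw [← Finset.mul_sum]
  exact Nat.mul_le_mul_left _ (h2 _)

end Pool.Agent.P.MP_ab0431_ag.UB

namespace Pool.Agent.P.MP_ab0431_ag.UB

open Polynomial Set Filter Topology Metric
open Pool.Agent.P.MP_ab0431_ag.UB.Cc

theorem p_CBZ2 :
    S_CBZ2 := by
  intro σ _ I Q ρ n c h hQ
  classical
  have hf : ∀ q : Q, ∃ f : MP σ, f ∉ q.1 ∧ ∀ q' : Q, q' ≠ q → f ∈ q'.1 := fun q => by
    have := (h q q.2).1
    choose g h1 h2 using fun q' : {q' : Q // q' ≠ q} => SetLike.not_le_iff_exists.1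
      fun hl : q'.1.1 ≤ q.1 => q'.2 (Subtype.ext (hQ _ q'.1.2 _ q.2 hl))
    refine ⟨∏ q', g q', fun hm => ?_, fun q' hq => ?_⟩
    · obtain ⟨q', -, h3⟩ := Ideal.IsPrime.prod_mem_iff.1 hm
      exact h2 q' h3
    · exact Ideal.prod_mem _ (Finset.mem_univ ⟨q', hq⟩) (h1 ⟨q', hq⟩)
  choose f f1 f2 using hf
  choose a ha using fun q : Q => (h q q.2).2.2
  set e := Finset.univ.sup fun q => (f q).totalDegree
  have key : ∀ k, ∑ q : Q, HF q.1 k ≤ HF I (k + e) := fun k => by
    choose v v1 v2 using fun q : Q => HF_ex q.1 k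
    have := HF_ge (ι := Σ q : Q, Fin (HF q.1 k)) (I := I) (v := fun p => f p.1 * v p.1 p.2)
      (k := k + e) (fun d hd => ?_) fun p => (MvPolynomial.totalDegree_mul _ _).trans (by
        rw [add_comm]
        exact add_le_add (v2 _ _)
          (Finset.le_sup (f := fun q => (f q).totalDegree) (Finset.mem_univ p.1)))
    · simpa using this
    ext ⟨q, i⟩
    refine congrFun (v1 q (fun i => d ⟨q, i⟩) (((h q q.2).1.mem_or_mem ?_).resolve_left (f1 q))) i
    have h1 := (h q q.2).2.1 hd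
    rw [Fintype.sum_sigma, ← Finset.add_sum_erase _ _ (Finset.mem_univ q)] at h1
    have h2 := (Ideal.add_mem_iff_left _ (Ideal.sum_mem _ fun q' hq => Ideal.sum_mem _ fun j _ =>
      Submodule.smul_of_tower_mem _ _
        (Ideal.mul_mem_right _ _ (f2 q' q (Finset.ne_of_mem_erase hq).symm)))).1 h1
    simpa only [Finset.mul_sum, mul_smul_comm] using h2
  refine ⟨Finset.univ.sup a + e, fun k => ?_⟩
  rw [← Finset.sum_coe_sort, Finset.sum_mul, ← add_assoc]
  refine le_trans (Finset.sum_le_sum fun q _ => (ha q k).trans (Nat.mul_le_mul_left c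
    (HF_mono le_rfl (Nat.add_le_add_left (Finset.le_sup (Finset.mem_univ q)) k)))) ?_
  rw [← Finset.mul_sum]
  exact Nat.mul_le_mul_left c (key _)

end Pool.Agent.P.MP_ab0431_ag.UB

namespace Pool.Agent.P.MP_ab0431_ag.UB

open Polynomial Set Filter Topology Metric
open Pool.Agent.P.MP_ab0431_ag.UB.Cc

theorem clnn_mon {R σ : Type} [CommRing R] (p q : σ → R) (d : σ → ℕ) (s : Finset σ) :
    (∏ j ∈ s, (C (p j) + C (q j) * X) ^ d j).natDegree ≤ ∑ j ∈ s, d j ∧
      (∏ j ∈ s, (C (p j) + C (q j) * X) ^ d j).coeff (∑ j ∈ s, d j) = ∏ j ∈ s, q j ^ d j := by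
  classical
  induction s using Finset.induction_on with
  | empty => simp
  | insert i s hi ih =>
    have h1 : (C (p i) + C (q i) * X).natDegree ≤ 1 := by
      rw [add_comm]; exact natDegree_linear_le
    have h2 := natDegree_pow_le_of_le (d i) h1
    have h3 := coeff_pow_of_natDegree_le (m := d i) h1
    rw [mul_one] at h2 h3
    rw [Finset.prod_insert hi, Finset.sum_insert hi, Finset.prod_insert hi]
    refine ⟨natDegree_mul_le.trans (add_le_add h2 ih.1), ?_⟩
    rw [coeff_mul_add_eq_of_natDegree_le h2 ih.1, h3, ih.2]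
    simp

theorem clnn_int {R A σ : Type} [CommRing R] [CommRing A] [Algebra ℂ R] [Algebra ℂ A] [Algebra R A]
    [IsScalarTower ℂ R A] (F : MP σ) (b : σ → ℂ)
    (hb : ev b (MvPolynomial.homogeneousComponent F.totalDegree F) ≠ 0) (p : σ → R) (y : A)
    (h : MvPolynomial.aeval (fun j => algebraMap R A (p j) + algebraMap ℂ A (b j) * y) F = 0) :
    IsIntegral R y := by
  classical
  set G : R[X] := MvPolynomial.aeval (fun j => C (p j) + C (algebraMap ℂ R (b j)) * X) F with hG
  have hs : G = ∑ d ∈ F.support, C (algebraMap ℂ R (F.coeff d)) *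
      ∏ j ∈ d.support, (C (p j) + C (algebraMap ℂ R (b j)) * X) ^ d j := by
    rw [hG, MvPolynomial.aeval_def, MvPolynomial.eval₂_eq]; rfl
  have hd : ∀ d ∈ F.support, ∑ j ∈ d.support, d j ≤ F.totalDegree := fun d hd =>
    MvPolynomial.le_totalDegree hd
  have h1 : G.natDegree ≤ F.totalDegree := by
    rw [hs]
    exact natDegree_sum_le_of_forall_le _ _ fun d h =>
      (natDegree_C_mul_le _ _).trans ((clnn_mon _ _ _ _).1.trans (hd d h))
  have h2 : G.coeff F.totalDegree =
      algebraMap ℂ R (ev b (MvPolynomial.homogeneousComponent F.totalDegree F)) := by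
    rw [hs, finsetSum_coeff, MvPolynomial.homogeneousComponent_apply, map_sum, map_sum,
      Finset.sum_filter]
    refine Finset.sum_congr rfl fun d h => ?_
    rw [coeff_C_mul]
    split_ifs with h3
    · rw [← h3, MvPolynomial.eval_monomial, map_mul, Finsupp.degree_apply, (clnn_mon _ _ _ _).2]
      simp [Finsupp.prod]
    · rw [coeff_eq_zero_of_natDegree_lt ((clnn_mon _ _ _ _).1.trans_lt
        (lt_of_le_of_ne (hd d h) h3)), mul_zero]
  refine ⟨C (algebraMap ℂ R (ev b (MvPolynomial.homogeneousComponent F.totalDegree F))⁻¹) * G,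
    monic_of_natDegree_le_of_coeff_eq_one _ ((natDegree_C_mul_le _ _).trans h1) ?_, ?_⟩
  · rw [coeff_C_mul, h2, ← map_mul, inv_mul_cancel₀ hb, map_one]
  · have h3 := MvPolynomial.comp_aeval_apply
      (fun j => C (p j) + C (algebraMap ℂ R (b j)) * X)
      ((aeval y : R[X] →ₐ[R] A).restrictScalars ℂ) F
    simp only [AlgHom.coe_restrictScalars', map_add, map_mul, aeval_C, aeval_X,
      ← IsScalarTower.algebraMap_apply] at h3
    rw [← aeval_def, map_mul, hG, h3, h, mul_zero]

theorem clnn_dir {σ A : Type} [CommRing A] [Nontrivial A] [Algebra ℂ A] (x : σ → A)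
    (h : ¬AlgebraicIndependent ℂ x) : ∃ (F : MP σ) (b : σ → ℂ) (i : σ),
      MvPolynomial.aeval x F = 0 ∧
      ev b (MvPolynomial.homogeneousComponent F.totalDegree F) ≠ 0 ∧ b i ≠ 0 := by
  classical
  rw [algebraicIndependent_iff] at h
  push Not at h
  obtain ⟨F, h1, h2⟩ := h
  have h3 : MvPolynomial.homogeneousComponent F.totalDegree F ≠ 0 := by
    obtain ⟨d, hd, he⟩ := Finset.exists_mem_eq_sup F.support (MvPolynomial.support_nonempty.2 h2)
      fun d => d.sum fun _ e => e
    intro h0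
    have := congrArg (MvPolynomial.coeff d) h0
    rw [MvPolynomial.coeff_homogeneousComponent, if_pos (by exact he.symm)] at this
    exact MvPolynomial.mem_support_iff.1 hd this
  obtain ⟨b, hb⟩ : ∃ b, ev b (MvPolynomial.homogeneousComponent F.totalDegree F) ≠ 0 := by
    by_contra hc
    push Not at hc
    exact h3 (MvPolynomial.funext fun x => by rw [map_zero]; exact hc x)
  by_contra hc
  push Not at hc
  have hb0 : b = 0 := funext fun i => hc F b i h1 hb
  have h0 : F.totalDegree = 0 := by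
    by_contra hne
    apply hb
    rw [hb0]
    change MvPolynomial.eval 0 _ = 0
    rw [MvPolynomial.eval_zero, MvPolynomial.constantCoeff_eq,
      MvPolynomial.coeff_homogeneousComponent, if_neg (by simpa using Ne.symm hne)]
  rw [MvPolynomial.totalDegree_eq_zero_iff_eq_C] at h0
  rw [h0, MvPolynomial.aeval_C, map_eq_zero] at h1
  exact h2 (by rw [h0, h1, map_zero])

theorem clnn_ind {A : Type} [CommRing A] [Nontrivial A] [Algebra ℂ A] : ∀ (n : ℕ) (x : Fin n → A),
    ∃ (d : ℕ) (l : Fin d → A), (∀ j, l j ∈ Submodule.span ℂ (range x)) ∧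
      AlgebraicIndependent ℂ l ∧ ∀ i, IsIntegral (Algebra.adjoin ℂ (range l)) (x i) := by
  have base : ∀ (n : ℕ) (x : Fin n → A), AlgebraicIndependent ℂ x →
      ∃ (d : ℕ) (l : Fin d → A), (∀ j, l j ∈ Submodule.span ℂ (range x)) ∧
      AlgebraicIndependent ℂ l ∧ ∀ i, IsIntegral (Algebra.adjoin ℂ (range l)) (x i) :=
    fun n x h => ⟨n, x, fun j => Submodule.subset_span ⟨j, rfl⟩, h, fun i =>
      isIntegral_algebraMap
        (x := (⟨x i, Algebra.subset_adjoin ⟨i, rfl⟩⟩ : Algebra.adjoin ℂ (range x)))⟩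
  intro n
  induction n with
  | zero =>
    intro x
    by_contra hc
    obtain ⟨_, _, i, _⟩ := clnn_dir x fun h => hc (base 0 x h)
    exact i.elim0
  | succ n ih =>
    intro x
    by_cases h : AlgebraicIndependent ℂ x
    · exact base _ x h
    obtain ⟨F, b, i, h1, h2, h3⟩ := clnn_dir x h
    let y : A := (b i)⁻¹ • x i
    obtain ⟨d, l, hl, hi, hint⟩ := ih fun j => x (i.succAbove j) - b (i.succAbove j) • y
    refine ⟨d, l, fun j => Submodule.span_le.2 ?_ (hl j), hi, ?_⟩
    · rintro _ ⟨j, rfl⟩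
      exact sub_mem (Submodule.subset_span ⟨_, rfl⟩)
        (Submodule.smul_mem _ _ (Submodule.smul_mem _ _ (Submodule.subset_span ⟨_, rfl⟩)))
    have hp : ∀ j, x j - b j • y ∈ integralClosure (Algebra.adjoin ℂ (range l)) A := fun j => by
      rcases Fin.eq_self_or_eq_succAbove i j with rfl | ⟨j, rfl⟩
      · rw [smul_smul, mul_inv_cancel₀ h3, one_smul, sub_self]; exact zero_mem _
      · exact hint j
    have hy : IsIntegral (Algebra.adjoin ℂ (range l)) y :=
      isIntegral_trans (A := integralClosure (Algebra.adjoin ℂ (range l)) A) y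
        (clnn_int F b h2 (fun j => ⟨_, hp j⟩) y (by
          rw [← h1]
          congr 2
          funext j
          rw [← Algebra.smul_def]
          exact sub_add_cancel _ _))
    intro j
    rw [← sub_add_cancel (x j) (b j • y)]
    exact IsIntegral.add (hp j) (hy.smul (b j))

theorem p_CLNN :
    S_CLNN := by
  intro σ _ q hq
  classical
  let e := Fintype.equivFin σ
  let π : MP σ →ₐ[ℂ] MP σ ⧸ q := Ideal.Quotient.mkₐ ℂ q
  obtain ⟨d, l, hl, hi, hint⟩ := clnn_ind _ fun s => π (MvPolynomial.X (e.symm s))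
  choose c hc using fun j => (Submodule.mem_span_range_iff_exists_fun ℂ).1 (hl j)
  let y : Fin d → MP σ := fun j => ∑ s, c j s • MvPolynomial.X (e.symm s)
  have hy : (fun j => π (y j)) = l := funext fun j => by
    rw [← hc j]; simp only [y, map_sum, map_smul]
  have ha : ∀ p, algebraMap (MP (Fin d)) (Qt q y) p = MvPolynomial.aeval l p := fun p => by
    rw [← hy]; exact MvPolynomial.comp_aeval_apply y π p
  refine ⟨d, y, fun j => ?_, ?_, ⟨fun z => ?_⟩⟩
  · refine MvPolynomial.totalDegree_finsetSum_le fun s _ => ?_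
    exact (MvPolynomial.totalDegree_smul_le _ _).trans (MvPolynomial.totalDegree_X _).le
  · rw [show ⇑(algebraMap (MP (Fin d)) (Qt q y)) = MvPolynomial.aeval l from funext ha]
    exact algebraicIndependent_iff_injective_aeval.1 hi
  · obtain ⟨f, rfl⟩ := mk_surj q y z
    induction f using MvPolynomial.induction_on with
    | C a =>
      rw [← MvPolynomial.algebraMap_eq, AlgHom.commutes,
        IsScalarTower.algebraMap_apply ℂ (MP (Fin d)) (Qt q y)]
      exact isIntegral_algebraMap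
    | add f g hf hg => rw [map_add]; exact hf.add hg
    | mul_X f s hf =>
      rw [map_mul]
      refine hf.mul ?_
      obtain ⟨g, hg1, hg2⟩ := hint (e s)
      refine ⟨g.map hi.aevalEquiv.symm.toAlgHom.toRingHom, hg1.map _, ?_⟩
      rw [eval₂_map]
      rw [e.symm_apply_apply] at hg2
      refine Eq.trans ?_ hg2
      congr 1
      refine RingHom.ext fun z => (ha _).trans ?_
      exact (hi.algebraMap_aevalEquiv _).symm.trans
        (congrArg _ (hi.aevalEquiv.apply_symm_apply z))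

end Pool.Agent.P.MP_ab0431_ag.UB

namespace Pool.Agent.P.MP_ab0431_ag.UB

open Polynomial Set Filter Topology Metric
open Pool.Agent.P.MP_ab0431_ag.UB.Cc

theorem p_CNDM :
    S_CNDM := by
  intro σ _
  refine ⟨fun q d y hq h => ?_, fun p p' _ _ h => ?_⟩
  · have := h.faithful
    have := h.int
    have e := trdeg_add_eq ℂ (MP (Fin d)) (A := Qt q y)
    rw [trdeg_eq_zero (R := MP (Fin d)) (A := Qt q y), add_zero,
      MvPolynomial.trdeg_of_isDomain] at e
    rw [dm_eq (y := y), ← e]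
    simp
  · exact Cardinal.toNat_le_toNat (trdeg_le_of_surjective (Ideal.Quotient.factorₐ ℂ h)
      (Ideal.Quotient.factor_surjective h)) trdeg_lt_aleph0_of_finiteType

end Pool.Agent.P.MP_ab0431_ag.UB

namespace Pool.Agent.P.MP_ab0431_ag.UB

open Polynomial Set Filter Topology Metric
open Pool.Agent.P.MP_ab0431_ag.UB.Cc

theorem p_CNLB :
    S_CNLB := by
  intro σ _ q d y hq hy h
  have := h.finite
  have := h.faithful
  refine ⟨Module.finrank_pos, ?_⟩
  obtain ⟨x, hx⟩ := exists_linearIndependent_of_le_finrank (le_refl (rk q y))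
  choose v hv using fun i => mk_surj q y (x i)
  refine ⟨Finset.univ.sup fun i => (v i).totalDegree, fun k => ?_⟩
  let A := (Finset.univ : Finset (Fin (d + 1))).finsuppAntidiag k
  have hA : ∀ α : A, α.1 0 + ∑ i, α.1.tail i = k := fun α => by
    have := (Finset.mem_finsuppAntidiag.1 α.2).1
    rwa [Fin.sum_univ_succ] at this
  have inj : ∀ α β : A, α.1.tail = β.1.tail → α = β := fun α β e => Subtype.ext (by
    have a := hA α
    rw [e, ← hA β] at a
    rw [← Finsupp.cons_tail α.1, e, add_right_cancel a, Finsupp.cons_tail])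
  have := HF_ge (ι := Fin (rk q y) × A) (I := q)
    (v := fun t => MvPolynomial.aeval y (MvPolynomial.monomial t.2.1.tail (1 : ℂ)) * v t.1)
    (k := k + Finset.univ.sup fun i => (v i).totalDegree) (fun c hc => by
      have a := Fintype.linearIndependent_iff.1 hx
        (fun i => ∑ α : A, c (i, α) • MvPolynomial.monomial α.1.tail (1 : ℂ)) (by
          rw [← mk_eq_zero (y := y), Fintype.sum_prod_type, map_sum] at hc
          refine (Finset.sum_congr rfl fun i _ => ?_).trans hc
          rw [Algebra.smul_def, alg_eq, ← hv, ← map_mul, map_sum, Finset.sum_mul]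
          simp only [map_smul, smul_mul_assoc])
      funext ⟨i, α⟩
      have := congrArg (MvPolynomial.coeff α.1.tail) (a i)
      rw [MvPolynomial.coeff_sum, Finset.sum_eq_single α (fun β _ e => by
        rw [MvPolynomial.coeff_smul, MvPolynomial.coeff_monomial, if_neg fun e' => e (inj _ _ e'),
          smul_zero]) (by simp)] at this
      simpa using this) fun t => by
      refine (MvPolynomial.totalDegree_mul _ _).trans (add_le_add ?_
        (Finset.le_sup (f := fun i => (v i).totalDegree) (Finset.mem_univ t.1)))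
      rw [MvPolynomial.aeval_monomial, map_one, one_mul, Finsupp.prod_fintype _ _ (by simp)]
      refine (MvPolynomial.totalDegree_finsetProd _ _).trans
        ((Finset.sum_le_sum fun i _ => ?_).trans (Nat.le_add_left _ _ |>.trans_eq (hA t.2)))
      exact (MvPolynomial.totalDegree_pow _ _).trans (mul_le_of_le_one_right' (hy i))
  rw [Fintype.card_prod, Fintype.card_fin, Fintype.card_coe,
    Finset.card_finsuppAntidiag_nat_eq_choose, Finset.card_univ, Fintype.card_fin,
    show d + 1 + k - 1 = k + d by omega, Nat.choose_symm_add] at this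
  rwa [one_mul]

end Pool.Agent.P.MP_ab0431_ag.UB

namespace Pool.Agent.P.MP_ab0431_ag.UB

open Polynomial Set Filter Topology Metric
open Pool.Agent.P.MP_ab0431_ag.UB.Cc

theorem p_CBEZ0 (hHYP : S_HYP) (hCBZ1 : S_CBZ1) (hCBZ2 : S_CBZ2) (hCLNN : S_CLNN) (hCNDM : S_CNDM) (hCNLB : S_CNLB) :
    S_CBEZ0 := by
  intro σ _ E e he hE
  have key : ∀ (n : ℕ) (p : Ideal (MP σ)), p.IsPrime → dm p = n →
      (∃ R, LB p n R (e ^ n) ∧ Cov E (V p) R) ∨ ∃ f ∈ E, f ∉ p ∧ ∃ Q : Finset (Ideal (MP σ)),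
        (∀ q ∈ Q, q ∈ (p ⊔ Ideal.span {f}).minimalPrimes ∧ dm q + 1 = n) ∧
        ∀ c ∈ V p, (∀ f ∈ E, ev c f = 0) → ∃ q ∈ Q, c ∈ V q := by
    intro n p hp hn
    by_cases h : ∀ f ∈ E, f ∈ p
    · obtain ⟨d, y, h1, h2⟩ := hCLNN σ p hp
      obtain rfl : d = n := ((hCNDM σ).1 p d y hp h2).symm.trans hn
      exact .inl ⟨rk p y, (hCNLB σ p d y hp h1 h2).2.mono le_rfl (Nat.one_le_pow _ _ he), Unit,
        inferInstance, fun _ => p, fun _ => rk p y, by simp,
        fun _ => ⟨⟨hp, d, y, h2, le_rfl⟩, h⟩, fun c hc _ => ⟨(), hc⟩⟩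
    · push Not at h
      obtain ⟨f, hf, h⟩ := h
      refine .inr ⟨f, hf, h, (Ideal.finite_minimalPrimes_of_isNoetherianRing _
        (p ⊔ Ideal.span {f})).toFinset, fun q hq => ?_, fun c hc h0 => ?_⟩
      · have := (Set.Finite.mem_toFinset _).1 hq
        exact ⟨this, (hHYP ℂ σ p q f hp h this).trans hn⟩
      · have := RingHom.ker_isPrime (ev c)
        obtain ⟨q, h1, h2⟩ := Ideal.exists_minimalPrimes_le (I := p ⊔ Ideal.span {f})
          (J := RingHom.ker (ev c))
          (sup_le hc ((Ideal.span_singleton_le_iff_mem _).2 (h0 f hf)))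
        exact ⟨q, (Set.Finite.mem_toFinset _).2 h1, h2⟩
  intro n
  induction n with
  | zero =>
    intro p hp hn
    obtain h | ⟨f, -, -, Q, h1, h2⟩ := key 0 p hp hn
    · exact h
    · exact ⟨0, ⟨0, fun k => by simp⟩, .union Q (fun _ => 0)
        (fun q hq => absurd (h1 q hq).2 (by omega)) (by simp) h2⟩
  | succ n ih =>
    intro p hp hn
    obtain h | ⟨f, hf, h0, Q, h1, h2⟩ := key _ p hp hn
    · exact h
    choose! R a1 a2 using fun q (hq : q ∈ Q) =>
      ih q (h1 q hq).1.1.1 (Nat.succ_injective (h1 q hq).2)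
    refine ⟨∑ q ∈ Q, R q, ?_, .union Q R a2 le_rfl h2⟩
    rw [pow_succ']
    exact hCBZ1 σ p _ f e n _ _ hp h0 (hE f hf) he le_sup_left
      (Ideal.mem_sup_right (Ideal.mem_span_singleton_self f)) (hCBZ2 σ _ Q R n _
        (fun q hq => ⟨(h1 q hq).1.1.1, (h1 q hq).1.1.2, a1 q hq⟩)
        fun q hq q' hq' h => h.antisymm ((h1 q' hq').1.2 (h1 q hq).1.1 h))

end Pool.Agent.P.MP_ab0431_ag.UB

namespace Pool.Agent.P.MP_ab0431_ag.UB

open Polynomial Set Filter Topology Metric
open Pool.Agent.P.MP_ab0431_ag.UB.Cc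

theorem p_CLBU :
    S_CLBU := by
  rintro σ _ I n n' ρ c Γ h ⟨a, ha⟩
  have key : ∀ k, ρ * (k + 1) ^ n' ≤ n'.factorial * c * Γ * (k + 1 + a) ^ n := fun k => by
    have h1 : (k + 1) ^ n' ≤ n'.factorial * (k + n').choose n' :=
      (Nat.pow_succ_le_ascFactorial (k + 1) n').trans_eq (Nat.ascFactorial_eq_factorial_mul_choose k n')
    have h2 := (ha k).trans (Nat.mul_le_mul_left c ((HF_mono le_rfl (by omega)).trans
      (h (k + 1 + a) (by omega))))
    calc _ ≤ ρ * (n'.factorial * (k + n').choose n') := Nat.mul_le_mul_left _ h1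
      _ = n'.factorial * (ρ * (k + n').choose n') := by ring
      _ ≤ n'.factorial * (c * (Γ * (k + 1 + a) ^ n)) := Nat.mul_le_mul_left _ h2
      _ = _ := by ring
  generalize hA : n'.factorial * c * Γ = A at key
  refine ⟨fun hn => by_contra fun h0 => ?_, fun hn => ?_⟩
  · have h1 := key (A * (1 + a) ^ n)
    generalize hk : A * (1 + a) ^ n = k at h1
    have h2 : (k + 1 + a) ^ n ≤ ((1 + a) * (k + 1)) ^ n :=
      Nat.pow_le_pow_left (by nlinarith [Nat.zero_le (a * k)]) n
    have h3 : (k + 1) ^ (n + 1) ≤ ρ * (k + 1) ^ n' :=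
      (Nat.pow_le_pow_right k.succ_pos hn).trans (Nat.le_mul_of_pos_left _ (Nat.pos_of_ne_zero h0))
    have h4 := h3.trans (h1.trans (Nat.mul_le_mul_left A h2))
    rw [mul_pow, ← mul_assoc, hk, pow_succ'] at h4
    exact absurd (Nat.le_of_mul_le_mul_right h4 (by positivity)) (by omega)
  · subst hn
    have h1 : Tendsto (fun k : ℕ => (A : ℝ) * (1 + a * (1 / ((k : ℝ) + 1))) ^ n') atTop
        (𝓝 (A * (1 + a * 0) ^ n')) :=
      (((tendsto_one_div_add_atTop_nhds_zero_nat.const_mul _).const_add _).pow _).const_mul _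
    have h2 : (ρ : ℝ) ≤ A * (1 + a * 0) ^ n' := ge_of_tendsto' h1 fun k => by
      have h3 : (ρ : ℝ) * (k + 1) ^ n' ≤ A * (k + 1 + a) ^ n' := by exact_mod_cast key k
      rwa [show 1 + a * (1 / ((k : ℝ) + 1)) = (k + 1 + a) / (k + 1) by field_simp, div_pow,
        ← mul_div_assoc, le_div_iff₀ (by positivity)]
    rw [mul_zero, add_zero, one_pow, mul_one, Nat.cast_le, ← hA, mul_comm _ c] at h2
    exact h2.trans (Nat.mul_le_mul_right _ (Nat.mul_le_mul_left _ (Nat.factorial_le_pow _)))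

end Pool.Agent.P.MP_ab0431_ag.UB

namespace Pool.Agent.P.MP_ab0431_ag.UB

open Polynomial Set Filter Topology Metric
open Pool.Agent.P.MP_ab0431_ag.UB.Cc

theorem p_CBEZ (hCBEZ0 : S_CBEZ0) (hCBZ2 : S_CBZ2) (hCLBU : S_CLBU) (hCLNN : S_CLNN) (hCNDM : S_CNDM) (hCNLB : S_CNLB) :
    S_CBEZ := by
  classical
  intro σ _ E I e n Γ he hE hI
  choose! R hR using hCBEZ0 σ E e he hE n
  have hfin := I.finite_minimalPrimes_of_isNoetherianRing
  set Q : Finset (Ideal (MP σ)) := hfin.toFinset.filter fun P => dm P = n with hQ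
  have hmem : ∀ P, P ∈ Q ↔ P ∈ I.minimalPrimes ∧ dm P = n := fun P => by
    rw [hQ, Finset.mem_filter, hfin.mem_toFinset]
  have hLB : LB I n (∑ q ∈ Q, R q) (e ^ n) := by
    refine hCBZ2 σ I Q R n _ (fun q hq => ?_) fun q hq q' hq' hle => ?_
    · obtain ⟨h1, h2⟩ := (hmem q).1 hq
      exact ⟨h1.1.1, h1.1.2, (hR q h1.1.1 h2).1⟩
    · exact le_antisymm hle (((hmem q').1 hq').1.2 ((hmem q).1 hq).1.1 hle)
  refine Cov.union Q R (fun p hp => ?_) ?_ ?_
  · obtain ⟨h1, h2⟩ := (hmem p).1 hp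
    exact (hR p h1.1.1 h2).2
  · rw [mul_pow]
    exact (hCLBU σ I n n _ _ Γ hI hLB).2 rfl
  · rintro c ⟨p, hp, hIp, hn, hc⟩ -
    obtain ⟨P, hP, hPp⟩ := Ideal.exists_minimalPrimes_le hIp
    refine ⟨P, (hmem P).2 ⟨hP, ?_⟩, V_anti hPp hc⟩
    refine le_antisymm (not_lt.1 fun hlt => ?_) (hn.trans ((hCNDM σ).2 P p hP.1.1 hp hPp))
    obtain ⟨d, y, hy, hN⟩ := hCLNN σ P hP.1.1
    obtain ⟨h1, h2⟩ := hCNLB σ P d y hP.1.1 hy hN
    rw [(hCNDM σ).1 P d y hP.1.1 hN] at hlt
    have := (hCLBU σ I n d _ _ Γ hI (h2.mono hP.1.2 le_rfl)).1 hlt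
    omega

end Pool.Agent.P.MP_ab0431_ag.UB

namespace Pool.Agent.P.MP_ab0431_ag.UB

open Polynomial Set Filter Topology Metric
open Pool.Agent.P.MP_ab0431_ag.UB.Cc

theorem p_CMIN :
    S_CMIN := by
  intro ι _ _ L P hP
  constructor
  · rintro ⟨w, hw⟩
    refine Fintype.linearIndependent_iff.2 fun v hv => ?_
    by_contra hne
    refine hw (Matrix.exists_vecMul_eq_zero_iff.1 ⟨v, fun h => hne fun i => congrFun h i, ?_⟩)
    funext k
    have h1 : ∀ j, ∑ i, v i * (P i).coeff j = 0 := fun j => by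
      simpa [finsetSum_coeff] using congrArg (fun f => coeff f j) hv
    simp only [Matrix.vecMul, dotProduct, Matrix.of_apply, Finset.mul_sum, Pi.zero_apply]
    rw [Finset.sum_comm]
    refine Finset.sum_eq_zero fun j _ => ?_
    simp only [mul_left_comm (v _), ← Finset.mul_sum, h1, mul_zero]
  · intro h
    obtain ⟨l, hl⟩ := LinearMap.exists_leftInverse_of_injective (Fintype.linearCombination ℂ P)
      (LinearMap.ker_eq_bot.2 h.fintypeLinearCombination_injective)
    have h1 : ∀ i, l (P i) = Pi.single i 1 := fun i => by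
      have := LinearMap.congr_fun hl (Pi.single i 1)
      simpa [Fintype.linearCombination_apply_single] using this
    refine ⟨fun k j => l (X ^ j) k, ?_⟩
    have : (Matrix.of fun i k => ∑ j ∈ Finset.range L, l (X ^ j) k * (P i).coeff j) = 1 := by
      ext i k
      have e := congrFun (h1 i) k
      rw [as_sum_range' (P i) L (hP i), map_sum, Finset.sum_apply] at e
      rw [Matrix.of_apply, Matrix.one_eq_pi_single, ← e]
      refine Finset.sum_congr rfl fun j _ => ?_
      rw [← smul_X_eq_monomial, map_smul, Pi.smul_apply, smul_eq_mul, mul_comm]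
    rw [mnr, this, Matrix.det_one]
    exact one_ne_zero

end Pool.Agent.P.MP_ab0431_ag.UB

namespace Pool.Agent.P.MP_ab0431_ag.UB

open Polynomial Set Filter Topology Metric
open Pool.Agent.P.MP_ab0431_ag.UB.Cc

theorem cnrl_sum (n : ℕ) (P : ℂ[X]) (g : Fin n ⊕ Fin n → ℂ) : ∑ i, g i • fam n P i =
    ofFn n (g ∘ Sum.inl) * derivative P + ofFn n (g ∘ Sum.inr) * P := by
  simp only [Fintype.sum_sum_type, fam, Sum.elim_inl, Sum.elim_inr, ofFn_eq_sum_monomial,
    Finset.sum_mul, ← C_mul_X_pow_eq_monomial, smul_eq_C_mul, mul_assoc, Function.comp]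

theorem cnrl_ofFn {n : ℕ} {A : ℂ[X]} (h : A.degree < n) :
    ofFn n (fun i : Fin n => A.coeff i) = A := by
  ext i
  by_cases hi : i < n
  · rw [ofFn_coeff_eq_val_of_lt _ hi]
  · rw [ofFn_coeff_eq_zero_of_ge _ (not_lt.1 hi),
      coeff_eq_zero_of_degree_lt (h.trans_le (Nat.cast_le.2 (not_lt.1 hi)))]

theorem cnrl_iff (n : ℕ) {P : ℂ[X]} (hP : P ≠ 0) : LinearIndependent ℂ (fam n P) ↔
    ∀ A B : ℂ[X], A.degree < n → B.degree < n → A * derivative P + B * P = 0 → A = 0 := by
  rw [Fintype.linearIndependent_iff]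
  refine ⟨fun h A B hA hB e => ?_, fun h g e => ?_⟩
  · have := h (Sum.elim (fun i => A.coeff i) fun i => B.coeff i) (by
      rw [cnrl_sum, Sum.elim_comp_inl, Sum.elim_comp_inr, cnrl_ofFn hA, cnrl_ofFn hB, e])
    rw [← cnrl_ofFn hA, show (fun i : Fin n => A.coeff i) = 0 from funext fun i => this (.inl i),
      map_zero]
  · rw [cnrl_sum] at e
    have h1 := h _ _ (ofFn_degree_lt _) (ofFn_degree_lt _) e
    rw [h1, zero_mul, zero_add, mul_eq_zero, or_iff_left hP] at e
    rintro (i | i)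
    · exact (ofFn_coeff_eq_val_of_lt (g ∘ Sum.inl) i.2).symm.trans (by rw [h1, coeff_zero])
    · exact (ofFn_coeff_eq_val_of_lt (g ∘ Sum.inr) i.2).symm.trans (by rw [e, coeff_zero])

theorem p_CNRL :
    S_CNRL := by
  intro n P hP
  rw [cnrl_iff n hP]
  refine ⟨fun h => not_lt.1 fun hn => ?_, fun hn A B hA hB e => by_contra fun hA0 => ?_⟩
  · set A : ℂ[X] := ∏ r ∈ P.roots.toFinset, (X - C r) with hA
    have hm : A.Monic := monic_prod_of_monic _ _ fun _ _ => monic_X_sub_C _
    have hd : A.degree < n := by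
      rw [degree_eq_natDegree hm.ne_zero, hA, natDegree_prod_of_monic _ _ fun _ _ => monic_X_sub_C _]
      simpa using hn
    by_cases h0 : derivative P = 0
    · exact hm.ne_zero (h A 0 hd (WithBot.bot_lt_coe n) (by rw [h0, mul_zero, zero_mul, add_zero]))
    have h1 := mul_ne_zero hm.ne_zero h0
    obtain ⟨B, hB⟩ : P ∣ A * derivative P := by
      rw [IsAlgClosed.dvd_iff_roots_le_roots hP h1, Multiset.le_iff_count]
      intro r
      rw [count_roots, count_roots, rootMultiplicity_mul h1]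
      by_cases hr : P.IsRoot r
      · have h2 := derivative_rootMultiplicity_of_root hr
        have h3 : 0 < A.rootMultiplicity r := (rootMultiplicity_pos hm.ne_zero).2
          (dvd_iff_isRoot.1 (Finset.dvd_prod_of_mem _ (by simp [hP, hr.eq_zero])))
        omega
      · rw [rootMultiplicity_eq_zero hr]; exact Nat.zero_le _
    refine hm.ne_zero (h A (-B) hd ?_ (by rw [hB]; ring))
    have h2 : degree P + degree B < degree P + n := by
      rw [← degree_mul, ← hB, degree_mul, add_comm]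
      exact WithBot.add_lt_add_of_lt_of_le (degree_ne_bot.2 hm.ne_zero) (degree_derivative_lt hP)
        hd.le |>.trans_le le_rfl
    rw [degree_neg]
    exact (WithBot.add_lt_add_iff_left (degree_ne_bot.2 hP)).1 h2
  · have h1 : P.roots.toFinset ⊆ A.roots.toFinset := fun r hr => by
      rw [Multiset.mem_toFinset, mem_roots hP] at hr
      rw [Multiset.mem_toFinset, mem_roots hA0]
      have h2 := derivative_rootMultiplicity_of_root hr
      have h3 := (rootMultiplicity_pos hP).2 hr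
      have h0 : derivative P ≠ 0 := fun h0 => by
        rw [eq_C_of_derivative_eq_zero h0] at hr hP
        exact hP (by rw [IsRoot, eval_C] at hr; rw [hr, map_zero])
      have h4 := mul_ne_zero hA0 h0
      have h5 : A * derivative P = -B * P := by linear_combination e
      have h6 := rootMultiplicity_mul (x := r) h4
      rw [h5, rootMultiplicity_mul (h5 ▸ h4)] at h6
      exact (rootMultiplicity_pos hA0).1 (by omega)
    have h2 := (Finset.card_le_card h1).trans ((Multiset.toFinset_card_le _).trans (card_roots' A))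
    have h3 := (natDegree_lt_iff_degree_lt hA0).2 hA
    omega

end Pool.Agent.P.MP_ab0431_ag.UB

namespace Pool.Agent.P.MP_ab0431_ag.UB

open Polynomial Set Filter Topology Metric
open Pool.Agent.P.MP_ab0431_ag.UB.Cc

theorem cdeg_det {R ι : Type} [CommRing R] [Fintype ι] [DecidableEq ι] (Q : ℕ → AddSubgroup R)
    (h1 : 1 ∈ Q 0) (hm : ∀ k l, ∀ a ∈ Q k, ∀ b ∈ Q l, a * b ∈ Q (k + l)) {k : ℕ}
    {M : Matrix ι ι R} (h : ∀ i j, M i j ∈ Q k) : M.det ∈ Q (Fintype.card ι * k) := by
  have hp : ∀ (f : ι → R), (∀ i, f i ∈ Q k) → ∀ s : Finset ι, ∏ i ∈ s, f i ∈ Q (s.card * k) := by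
    intro f hf s
    induction s using Finset.induction_on with
    | empty => simpa using h1
    | insert a s ha ih =>
      rw [Finset.prod_insert ha, Finset.card_insert_of_notMem ha, add_one_mul, add_comm]
      exact hm _ _ _ (hf a) _ ih
  rw [Matrix.det_apply]
  exact sum_mem fun σ _ => zsmul_mem (hp _ (fun i => h _ _) _) _

noncomputable def cdeg_Q (σ : Type) (k : ℕ) : AddSubgroup (MP σ) :=
  (MvPolynomial.restrictTotalDegree σ ℂ k).toAddSubgroup

theorem cdeg_mem {σ : Type} {k : ℕ} {p : MP σ} : p ∈ cdeg_Q σ k ↔ p.totalDegree ≤ k :=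
  MvPolynomial.mem_restrictTotalDegree _ _ _

theorem cdeg_mul {σ : Type} (k l : ℕ) (a : MP σ) (ha : a ∈ cdeg_Q σ k) (b : MP σ)
    (hb : b ∈ cdeg_Q σ l) : a * b ∈ cdeg_Q σ (k + l) :=
  cdeg_mem.2 ((MvPolynomial.totalDegree_mul a b).trans
    (Nat.add_le_add (cdeg_mem.1 ha) (cdeg_mem.1 hb)))

theorem cdeg_one {σ : Type} {k : ℕ} : (1 : MP σ) ∈ cdeg_Q σ k := cdeg_mem.2 (by simp)

def cdeg_C (σ : Type) (k : ℕ) : AddSubgroup (MP σ)[X] where
  carrier := {p | ∀ n, p.coeff n ∈ cdeg_Q σ k}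
  zero_mem' := fun _ => zero_mem _
  add_mem' := fun a b n => by rw [coeff_add]; exact add_mem (a n) (b n)
  neg_mem' := fun a n => by rw [coeff_neg]; exact neg_mem (a n)

theorem cdeg_Cmul {σ : Type} (k l : ℕ) (a : (MP σ)[X]) (ha : a ∈ cdeg_C σ k) (b : (MP σ)[X])
    (hb : b ∈ cdeg_C σ l) : a * b ∈ cdeg_C σ (k + l) := fun n => by
  rw [coeff_mul]
  exact sum_mem fun c _ => cdeg_mul _ _ _ (ha _) _ (hb _)

theorem cdeg_Cone {σ : Type} {k : ℕ} : (1 : (MP σ)[X]) ∈ cdeg_C σ k := fun n => by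
  rw [coeff_one]
  split_ifs
  exacts [cdeg_one, zero_mem _]

theorem p_CDEG :
    S_CDEG := by
  intro b m
  have h1 : ∀ j, (Fu b m).coeff j ∈ cdeg_C _ 1 := fun j n => by
    rw [Fu, toP_coeff]
    refine add_mem ?_ (sum_mem fun p _ => ?_) <;> split_ifs
    exacts [cdeg_one, zero_mem _, cdeg_mem.2 (MvPolynomial.totalDegree_X _).le, zero_mem _]
  have h2 : ∀ k i j, (comp b (Fu b m) ^ k) i j ∈ cdeg_C _ k := fun k => by
    induction k with
    | zero =>
      intro i j
      rw [pow_zero, Matrix.one_apply]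
      split_ifs
      exacts [cdeg_Cone, zero_mem _]
    | succ k ih =>
      intro i j
      rw [pow_succ, Matrix.mul_apply]
      refine sum_mem fun l _ => cdeg_Cmul _ _ _ (ih _ _) _ ?_
      rw [comp, Matrix.of_apply]
      split_ifs
      exacts [neg_mem (h1 _), cdeg_Cone, zero_mem _]
  have h3 : Du b m ∈ cdeg_C _ (2 * b ^ 2) := by
    have := cdeg_det (cdeg_C (Co b m)) cdeg_Cone cdeg_Cmul (k := 2 * b)
      (M := .of fun i j : Fin b => (comp b (Fu b m) ^ ((i : ℕ) + j)).trace) fun i j => by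
        rw [Matrix.of_apply, Matrix.trace]
        exact sum_mem fun l _ n =>
          cdeg_mem.2 ((cdeg_mem.1 (h2 ((i : ℕ) + j) l l n)).trans (by omega))
    rwa [Fintype.card_fin, show b * (2 * b) = 2 * b ^ 2 by ring] at this
  refine ⟨fun j n => cdeg_mem.1 (h1 j n), fun j => cdeg_mem.1 (h3 j), fun n w => ?_⟩
  have h4 : ∀ i : ℕ, (X ^ i : (MP (Co b m))[X]) ∈ cdeg_C _ 0 := fun i n => by
    rw [coeff_X_pow]
    split_ifs
    exacts [cdeg_one, zero_mem _]
  have h5 : ∀ i, fam n (Du b m) i ∈ cdeg_C _ (0 + 2 * b ^ 2) := by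
    rintro (i | i)
    · refine cdeg_Cmul _ _ _ (h4 i) _ fun l => ?_
      rw [coeff_derivative, ← Nat.cast_succ, ← nsmul_eq_mul']
      exact nsmul_mem (h3 _) _
    · exact cdeg_Cmul _ _ _ (h4 i) _ h3
  have := cdeg_det (cdeg_Q (Co b m)) cdeg_one cdeg_mul (k := 0 + (0 + 2 * b ^ 2))
    (M := .of fun i k => ∑ j ∈ Finset.range ((Du b m).natDegree + n + 1),
      MvPolynomial.C (w k j) * (fam n (Du b m) i).coeff j) fun i k => by
      rw [Matrix.of_apply]
      exact sum_mem fun j _ =>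
        cdeg_mul _ _ _ (cdeg_mem.2 (MvPolynomial.totalDegree_C _).le) _ (h5 i j)
  rw [Fintype.card_sum, Fintype.card_fin, zero_add, zero_add, ← two_mul] at this
  exact cdeg_mem.1 this

end Pool.Agent.P.MP_ab0431_ag.UB

namespace Pool.Agent.P.MP_ab0431_ag.UB

open Polynomial Set Filter Topology Metric
open Pool.Agent.P.MP_ab0431_ag.UB.Cc

theorem ceqs_ev {b m : ℕ} (c : Co b m → ℂ) (j n : ℕ) :
    ev c (((Fu b m).coeff j).coeff n) = ((toP c).coeff j).coeff n := by
  rw [← Fu_map c, coeff_map, coe_mapRingHom, coeff_map]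

theorem p_CEQS (hCMIN : S_CMIN) (hCNRL : S_CNRL) (hCDEG : S_CDEG) :
    S_CEQS := by
  intro b m nn hn
  have key : ∀ c : Co b m → ℂ, Δ b (toP c) ≠ 0 →
      ((∃ w, ev c (Mu b m (nn + 1) w) ≠ 0) ↔ nn + 1 ≤ nr c) := fun c hc => by
    simp only [Mu_ev]
    exact (hCMIN _ _ _ (fam_deg' _ c)).trans (hCNRL _ _ hc)
  refine ⟨{f | ∃ j n, 1 * (b - j) < n ∧ f = ((Fu b m).coeff j).coeff n} ∪ range (Mu b m (nn + 1)),
    ?_, ?_, fun c h => ⟨fun j n hj => ?_, fun hc => ?_⟩⟩
  · rintro f (⟨j, n, -, rfl⟩ | ⟨w, rfl⟩)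
    · exact ((hCDEG b m).1 j n).trans (Nat.one_le_iff_ne_zero.2 (by positivity))
    · refine ((hCDEG b m).2.2 _ w).trans ?_
      have h1 : nn + 1 ≤ (b + 1) ^ 2 := by
        have := Nat.mul_le_mul_left b (Nat.sub_le b 1)
        nlinarith
      have h2 := Nat.mul_le_mul h1 (Nat.pow_le_pow_left (Nat.le_succ b) 2)
      calc 2 * (nn + 1) * (2 * b ^ 2) = 4 * ((nn + 1) * b ^ 2) := by ring
        _ ≤ 64 * ((b + 1) ^ 2 * (b + 1) ^ 2) := Nat.mul_le_mul (by norm_num) h2
        _ = _ := by ring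
  · rintro c hc e f (⟨j, n, hj, rfl⟩ | ⟨w, rfl⟩)
    · rw [ceqs_ev]; exact hc.1 j n hj
    · by_contra h
      have := (key c fun h0 => hc.2.1 (by rw [h0, coeff_zero])).1 ⟨w, h⟩
      omega
  · rw [← ceqs_ev]; exact h _ (Or.inl ⟨j, n, hj, rfl⟩)
  · by_contra h1
    obtain ⟨w, hw⟩ := (key c hc).2 (by omega)
    exact hw (h _ (Or.inr ⟨w, rfl⟩))

end Pool.Agent.P.MP_ab0431_ag.UB

namespace Pool.Agent.P.MP_ab0431_ag.UB

open Polynomial Set Filter Topology Metric
open Pool.Agent.P.MP_ab0431_ag.UB.Cc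

theorem p_CRES :
    S_CRES := by
  intro f g m n h1 h2 h3
  obtain rfl := natDegree_eq_of_le_of_coeff_ne_zero h1 h2
  obtain ⟨k, rfl⟩ := Nat.exists_eq_add_of_le h3
  have hf : f ≠ 0 := fun h => h2 (by rw [h, coeff_zero])
  rw [resultant_add_right_deg _ _ _ _ _ le_rfl, mul_eq_zero, or_iff_right (pow_ne_zero k h2),
    resultant_eq_zero_iff, and_iff_right (Or.inl hf),
    Polynomial.isCoprime_iff_aeval_ne_zero_of_isAlgClosed ℂ ℂ]
  simp only [not_forall, not_or, not_not, coe_aeval_eq_eval]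

end Pool.Agent.P.MP_ab0431_ag.UB

namespace Pool.Agent.P.MP_ab0431_ag.UB

open Polynomial Set Filter Topology Metric
open Pool.Agent.P.MP_ab0431_ag.UB.Cc

/-- The resultant of a curve and a combination of its derivatives. -/
noncomputable def copt_N {R : Type} [CommRing R] (b : ℕ) (F : R[X]) (ρ : R) : R :=
  resultant F (derivative F + C ρ * derivative (derivative F)) b b

theorem copt_map {R R' : Type} [CommRing R] [CommRing R'] (φ : R →+* R') (b : ℕ) (F : R[X])
    (ρ : R) : φ (copt_N b F ρ) = copt_N b (F.map φ) (φ ρ) := by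
  rw [copt_N, ← resultant_map_map, copt_N, derivative_map, derivative_map, Polynomial.map_add,
    Polynomial.map_mul, map_C]

theorem copt_root (hCRES : S_CRES) {b m : ℕ} (c : Co b m → ℂ) (ρ x : ℂ) :
    (copt_N b (toP c) (C ρ)).eval x = 0 ↔ ∃ z, (toP c).evalEval x z = 0 ∧
      (toP c).derivative.evalEval x z + ρ * (toP c).derivative.derivative.evalEval x z = 0 := by
  have hm : ((toP c).map (evalRingHom x)).Monic := (toP_monic c).map _
  have hd : ((toP c).map (evalRingHom x)).natDegree = b := by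
    rw [(toP_monic c).natDegree_map, toP_natDegree]
  rw [← coe_evalRingHom, copt_map, copt_N, hCRES _ _ b b hd.le
    ((hd ▸ hm.coeff_natDegree).trans_ne one_ne_zero)]
  · simp only [evalEval_eq, ← derivative_map, eval_add, eval_mul, eval_C, coe_evalRingHom]
  · have h1 := natDegree_derivative_le ((toP c).map (evalRingHom x))
    have h2 := natDegree_derivative_le ((toP c).map (evalRingHom x)).derivative
    exact natDegree_add_le_of_degree_le (by omega) ((natDegree_C_mul_le _ _).trans (by omega))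

theorem p_COPT (hCRES : S_CRES) (hTOP : S_TOP) (hDSEP : S_DSEP) :
    S_COPT := by
  intro b m c₀ ⟨g1, g2, g3⟩
  have hD : ∀ c : Co b m → ℂ, WD b 1 (toP c) → (Δ b (toP c)).natDegree ≤ b * (b - 1) :=
    fun c h => natDegree_le_iff_coeff_eq_zero.2 fun n hn =>
      (hTOP ℂ b 1 _ (toP_monic c) (toP_natDegree c) h).1 n (by omega)
  have hfin : ((fun p : ℂ × ℂ => -(toP c₀).derivative.evalEval p.1 p.2 /
      (toP c₀).derivative.derivative.evalEval p.1 p.2) '' ⋃ x ∈ {x | (Δ b (toP c₀)).IsRoot x},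
        (fun z => (x, z)) '' {z | ((toP c₀).map (evalRingHom x)).IsRoot z}).Finite :=
    ((finite_setOfPred_isRoot fun h => g2 (by rw [h, coeff_zero])).biUnion fun x _ =>
      (finite_setOfPred_isRoot ((toP_monic c₀).map _).ne_zero).image _).image _
  obtain ⟨ρ, hρ⟩ := hfin.exists_notMem
  let N := copt_N b (Fu b m) (C (MvPolynomial.C ρ))
  have hN : ∀ c, N.map (ev c) = copt_N b (toP c) (C ρ) := fun c => by
    rw [← coe_mapRingHom, copt_map, Fu_map]
    simp
  have he : ∀ c, ev c ((Du b m).coeff (b * (b - 1)) *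
      resultant (Du b m) N (b * (b - 1)) N.natDegree) = (Δ b (toP c)).coeff (b * (b - 1)) *
        resultant (Δ b (toP c)) (copt_N b (toP c) (C ρ)) (b * (b - 1)) N.natDegree := fun c => by
    rw [map_mul, ← coeff_map, ← resultant_map_map, Du_map, hN]
  have hr := fun c h1 h2 => hCRES _ (copt_N b (toP c) (C ρ)) _ N.natDegree (hD c h1) h2
    (hN c ▸ natDegree_map_le)
  refine ⟨_, (he c₀).trans_ne (mul_ne_zero g2 fun h => ?_), fun c h1 h2 => ?_⟩
  · obtain ⟨x, a1, a2⟩ := (hr c₀ g1 g2).1 h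
    obtain ⟨z, a3, a4⟩ := (copt_root hCRES c₀ ρ x).1 a2
    by_cases h0 : (toP c₀).derivative.derivative.evalEval x z = 0
    · exact g3 x z ⟨a3, by simpa [h0] using a4, h0⟩
    · refine hρ ⟨(x, z), mem_iUnion₂.2 ⟨x, a1, z, (evalEval_eq _ x z).symm.trans a3, rfl⟩, ?_⟩
      rw [div_eq_iff h0]
      linear_combination -a4
  · rw [he] at h2
    refine ⟨h1, left_ne_zero_of_mul h2, fun x z ⟨a1, a2, a3⟩ => right_ne_zero_of_mul h2
      ((hr c h1 (left_ne_zero_of_mul h2)).2 ⟨x, ?_, (copt_root hCRES c ρ x).2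
        ⟨z, a1, by rw [a2, a3, mul_zero, add_zero]⟩⟩)⟩
    rw [← coe_evalRingHom, ← Δ_map]
    by_contra h
    refine ((hDSEP ℂ b _ ((toP_monic c).map _) (by
      rw [(toP_monic c).natDegree_map, toP_natDegree])).1 h).eval₂_derivative_ne_zero
        (RingHom.id ℂ) (x := z) ?_ ?_
    · rw [eval₂_id, ← evalEval_eq, a1]
    · rw [eval₂_id, derivative_map, ← evalEval_eq, a2]

end Pool.Agent.P.MP_ab0431_ag.UB
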