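import Pool.Agent.P.MP_ab0431_ag.UB.IfaceC

/-! Steps COPEN CLO CPRIM CMPO CPAR CFIB CSIG CBND CCOV CLIFT CLOC CUNIQ CBRS CPUIS CCMP. -/

set_option autoImplicit false
set_option linter.unusedSectionVars false
set_option linter.unusedVariables false

namespace Pool.Agent.P.MP_ab0431_ag.UB

open Polynomial Set Filter Topology Metric
open Pool.Agent.P.MP_ab0431_ag.UB.Cc

theorem p_COPEN (hCOPT : S_COPT) (hCMIN : S_CMIN) (hCNRL : S_CNRL) :
    S_COPEN := by
  intro b m c₀ h0
  have ne : ∀ c : Co b m → ℂ, Good c → Δ b (toP c) ≠ 0 := fun c h e => h.2.1 (by rw [e, coeff_zero])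
  obtain ⟨h1, a1, a2⟩ := hCOPT b m c₀ h0
  obtain ⟨w, hw⟩ := (hCMIN _ _ _ (fam_deg' (nr c₀) c₀)).2 ((hCNRL _ _ (ne _ h0)).2 le_rfl)
  refine ⟨h1 * Mu b m (nr c₀) w, by rw [map_mul, Mu_ev]; exact mul_ne_zero a1 hw, fun c hc e => ?_⟩
  rw [map_mul, Mu_ev, mul_ne_zero_iff] at e
  have g := a2 c hc e.1
  exact ⟨g, (hCNRL _ _ (ne _ g)).1 ((hCMIN _ _ _ (fam_deg' (nr c₀) c)).1 ⟨w, e.2⟩)⟩

end Pool.Agent.P.MP_ab0431_ag.UB

namespace Pool.Agent.P.MP_ab0431_ag.UB

open Polynomial Set Filter Topology Metric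
open Pool.Agent.P.MP_ab0431_ag.UB.Cc

theorem clo_ext {R S : Type} [CommRing R] [CommRing S] [Algebra ℂ R] [Algebra ℂ S]
    [Algebra.FiniteType ℂ S] (θ : R →ₐ[ℂ] S) (hθ : θ.toRingHom.IsIntegral) (ψ : R →ₐ[ℂ] ℂ)
    (h : ∀ p, θ p = 0 → ψ p = 0) : ∃ χ : S →ₐ[ℂ] ℂ, ∀ p, χ (θ p) = ψ p := by
  let _ := θ.toRingHom.toAlgebra
  have : Algebra.IsIntegral R S := ⟨hθ⟩
  have : (RingHom.ker ψ).IsMaximal := RingHom.ker_isMaximal_of_surjective ψ fun z =>
    ⟨algebraMap ℂ R z, ψ.commutes z⟩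
  obtain ⟨Q, hQ, e⟩ := Ideal.exists_ideal_over_maximal_of_isIntegral (S := S) (RingHom.ker ψ) h
  let _ := Ideal.Quotient.field Q
  have : Module.Finite ℂ (S ⧸ Q) := finite_of_finite_type_of_isJacobsonRing ℂ _
  let χ : (S ⧸ Q) →ₐ[ℂ] ℂ := IsAlgClosed.lift
  refine ⟨χ.comp (Ideal.Quotient.mkₐ ℂ Q), fun p => ?_⟩
  have h1 : p - algebraMap ℂ R (ψ p) ∈ Q.comap (algebraMap R S) := by
    rw [e, RingHom.mem_ker, map_sub, ψ.commutes]
    exact sub_self _
  have h2 : (χ.comp (Ideal.Quotient.mkₐ ℂ Q)) (θ (p - algebraMap ℂ R (ψ p))) = 0 :=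
    (congrArg χ (Ideal.Quotient.eq_zero_iff_mem.2 h1)).trans (map_zero χ)
  rwa [map_sub, map_sub, AlgHom.commutes, AlgHom.commutes, sub_eq_zero] at h2

theorem p_CLO :
    S_CLO := by
  intro σ _ q d y x y₀ u₀ hN h
  have e : ∀ p : (MP (Fin d))[X], eval₂AlgHom (MvPolynomial.aeval y₀) u₀ (fun _ => .all _ _) p =
      (p.map (ev y₀)).eval u₀ := fun p => (eval_map _ _).symm
  obtain ⟨χ, hχ⟩ := clo_ext ((aeval x : (MP (Fin d))[X] →ₐ[MP (Fin d)] Qt q y).restrictScalars ℂ)
    (RingHom.IsIntegral.tower_top C _ (by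
      rw [show RingHom.comp _ C = algebraMap (MP (Fin d)) (Qt q y) from
        RingHom.ext fun p => aeval_C x p]
      exact hN.int.isIntegral))
    (eval₂AlgHom (MvPolynomial.aeval y₀) u₀ fun _ => .all _ _) fun p hp => (e p).trans (h p hp)
  obtain ⟨c, hc, h1⟩ := ex_pt χ
  have h2 : ∀ z, evq y hc z = χ z := fun z => by
    obtain ⟨f, rfl⟩ := mk_surj q y z
    rw [evq_mk, h1]
  refine ⟨c, hc, funext fun i => ?_, ?_⟩
  · have := hχ (C (MvPolynomial.X i))
    rw [e, AlgHom.restrictScalars_apply, aeval_C, ← h2, evq_alg] at this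
    simpa using this
  · have := hχ X
    rw [e, AlgHom.restrictScalars_apply, aeval_X, ← h2] at this
    simpa using this

end Pool.Agent.P.MP_ab0431_ag.UB

namespace Pool.Agent.P.MP_ab0431_ag.UB

open Polynomial Set Filter Topology Metric
open Pool.Agent.P.MP_ab0431_ag.UB.Cc

open scoped nonZeroDivisors in
theorem cprim_gen {B A σ ι : Type} [CommRing B] [IsDomain B] [CommRing A] [IsDomain A]
    [Algebra ℂ B] [Algebra B A] [FaithfulSMul B A] [Module.Finite B A] [Fintype σ] [Finite ι]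
    (x : σ → A) (hx : Algebra.adjoin B (range x) = ⊤) (W : ι → Submodule ℂ (σ → ℂ))
    (hW : ∀ i, W i ≠ ⊤) : ∃ l : σ → ℂ, (∀ i, l ∉ W i) ∧ ∃ δ : B, δ ≠ 0 ∧ ∀ s, ∃ r : B[X],
      algebraMap B A δ * x s = aeval (∑ s, algebraMap ℂ B (l s) • x s) r := by
  classical
  let K := FractionRing B
  let L := FractionRing A
  let _ : Algebra K L := FractionRing.liftAlgebra B L
  have : IsScalarTower B K L := FractionRing.isScalarTower_liftAlgebra B L
  have : FiniteDimensional K L := .of_isLocalization B A B⁰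
  have : CharZero B := charZero_of_injective_algebraMap (algebraMap ℂ B).injective
  let Ω := AlgebraicClosure K
  let D (φ ψ : L →ₐ[K] Ω) : (σ → ℂ) →ₗ[ℂ] Ω := Fintype.linearCombination ℂ
    fun s => φ (algebraMap A L (x s)) - ψ (algebraMap A L (x s))
  obtain ⟨l, hl⟩ := Submodule.exists_forall_notMem_of_forall_ne_top
    (ι := ι ⊕ {p : (L →ₐ[K] Ω) × (L →ₐ[K] Ω) // p.1 ≠ p.2})
    (Sum.elim W fun p => LinearMap.ker (D p.1.1 p.1.2)) (by
      rintro (i | ⟨⟨φ, ψ⟩, h⟩)
      · exact hW i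
      intro e
      have e1 : ∀ s, φ (algebraMap A L (x s)) = ψ (algebraMap A L (x s)) := fun s => by
        have : D φ ψ (Pi.single s 1) = 0 := by rw [LinearMap.ker_eq_top.1 e]; rfl
        rwa [Fintype.linearCombination_apply_single, one_smul, sub_eq_zero] at this
      have e2 : (φ.restrictScalars B).comp (IsScalarTower.toAlgHom B A L) =
          (ψ.restrictScalars B).comp (IsScalarTower.toAlgHom B A L) :=
        AlgHom.ext_of_adjoin_eq_top hx (by rintro _ ⟨s, rfl⟩; exact e1 s)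
      exact h (AlgHom.coe_ringHom_injective (IsLocalization.ringHom_ext A⁰
        (RingHom.ext fun a => DFunLike.congr_fun e2 a))))
  set u := ∑ s, algebraMap ℂ B (l s) • x s with hu
  have hp := (Field.primitive_element_iff_algHom_eq_of_eval' K Ω (fun _ => IsAlgClosed.splits _)
    (algebraMap A L u)).2 fun φ ψ e => by
      by_contra h
      refine hl (.inr ⟨(φ, ψ), h⟩) ?_
      have key : ∀ χ : L →ₐ[K] Ω, χ (algebraMap A L u) =
          ∑ s, l s • χ (algebraMap A L (x s)) := fun χ => by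
        rw [hu, map_sum, map_sum]
        refine Finset.sum_congr rfl fun s _ => ?_
        rw [Algebra.smul_def, map_mul, ← IsScalarTower.algebraMap_apply B A L,
          IsScalarTower.algebraMap_apply B K L, map_mul, AlgHom.commutes, Algebra.smul_def]
        rfl
      change D φ ψ l = 0
      simp only [D, Fintype.linearCombination_apply, smul_sub, Finset.sum_sub_distrib, ← key]
      exact sub_eq_zero.2 e
  have h1 : ∀ s, ∃ b ∈ B⁰, ∃ r : B[X], algebraMap B A b * x s = aeval u r := fun s => by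
    have : algebraMap A L (x s) ∈ Algebra.adjoin K {algebraMap A L u} := by
      rw [← IntermediateField.adjoin_simple_toSubalgebra_of_isAlgebraic (.of_finite K _), hp]
      trivial
    rw [Algebra.adjoin_singleton_eq_range_aeval] at this
    obtain ⟨p, e⟩ := this
    obtain ⟨b, hb, e'⟩ := IsLocalization.integerNormalization_spec B⁰ p
    refine ⟨b, hb, IsLocalization.integerNormalization B⁰ p, IsFractionRing.injective A L ?_⟩
    rw [← aeval_algebraMap_apply, ← aeval_map_algebraMap K, e', ← algebraMap_smul K, map_smul,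
      algebraMap_smul, map_mul, ← IsScalarTower.algebraMap_apply, Algebra.smul_def]
    exact congrArg _ e.symm
  choose b hb r hr using h1
  refine ⟨l, fun i => hl (.inl i), ∏ s, b s,
    Finset.prod_ne_zero_iff.2 fun s _ => nonZeroDivisors.ne_zero (hb s), fun s =>
    ⟨C (∏ t ∈ Finset.univ.erase s, b t) * r s, ?_⟩⟩
  rw [map_mul, aeval_C, ← hr, ← mul_assoc, ← map_mul,
    Finset.prod_erase_mul _ _ (Finset.mem_univ s)]

theorem p_CPRIM :
    S_CPRIM := by
  intro σ _ q d y F hq h hF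
  classical
  have := h.faithful
  have := h.finite
  have := hF.to_subtype
  obtain ⟨l, hl, δ, h0, hr⟩ := cprim_gen (B := MP (Fin d)) (ι := {p : F × F // p.1 ≠ p.2})
    (fun s => mk q y (MvPolynomial.X s)) (eq_top_iff.2 fun a _ => by
      obtain ⟨f, rfl⟩ := mk_surj q y a
      induction f using MvPolynomial.induction_on with
      | C c =>
        rw [← MvPolynomial.algebraMap_eq, AlgHom.commutes,
          IsScalarTower.algebraMap_apply ℂ (MP (Fin d))]
        exact Subalgebra.algebraMap_mem _ _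
      | add f g hf hg => rw [map_add]; exact add_mem (hf trivial) (hg trivial)
      | mul_X f s hf => rw [map_mul]; exact mul_mem (hf trivial) (Algebra.subset_adjoin ⟨s, rfl⟩))
    (fun p => LinearMap.ker (Fintype.linearCombination ℂ (p.1.1.1 - p.1.2.1))) fun p e =>
      p.2 (Subtype.ext (funext fun s => by
        have : Fintype.linearCombination ℂ (p.1.1.1 - p.1.2.1) (Pi.single s 1) = 0 := by
          rw [LinearMap.ker_eq_top.1 e]; rfl
        rwa [Fintype.linearCombination_apply_single, one_smul, Pi.sub_apply, sub_eq_zero] at this))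
  refine ⟨∑ s, l s • MvPolynomial.X s, δ, fun c hc c' hc' e => ?_, h0, fun s => ?_⟩
  · by_contra hn
    refine hl ⟨(⟨c, hc⟩, ⟨c', hc'⟩), fun e => hn (congrArg Subtype.val e)⟩ ?_
    simpa [Fintype.linearCombination_apply, mul_sub, sub_eq_zero] using e
  · simpa only [map_sum, map_smul, algebraMap_smul] using hr s

end Pool.Agent.P.MP_ab0431_ag.UB

namespace Pool.Agent.P.MP_ab0431_ag.UB

open Polynomial Set Filter Topology Metric
open Pool.Agent.P.MP_ab0431_ag.UB.Cc

theorem cmpo_res {B : Type} [CommRing B] [IsDomain B] [IsIntegrallyClosed B] [CharZero B]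
    {g : B[X]} (hm : g.Monic) (hi : Irreducible g) (hp : 0 < g.natDegree) :
    ∃ (δ : B) (α β : B[X]), δ ≠ 0 ∧ α * g + β * derivative g = C δ := by
  obtain ⟨α, β, -, -, h⟩ := exists_mul_add_mul_eq_C_resultant g (derivative g) le_rfl le_rfl
    (Or.inl hp.ne')
  refine ⟨_, α, β, fun h0 => ?_, by rw [← h]; ring⟩
  have inj := IsFractionRing.injective B (FractionRing B)
  have h1 := (hm.irreducible_iff_irreducible_map_fraction_map (K := FractionRing B)).1 hi
  have h2 : IsCoprime _ _ := h1.separable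
  rw [derivative_map] at h2
  have h3 := resultant_ne_zero _ _ h2
  rw [natDegree_map_eq_of_injective inj, natDegree_map_eq_of_injective inj, resultant_map_map,
    h0, map_zero] at h3
  exact h3 rfl

theorem cmpo_li {R S : Type} [CommRing R] [IsDomain R] [IsIntegrallyClosed R] [CommRing S]
    [IsDomain S] [Algebra R S] [Module.IsTorsionFree R S] {x : S} (h : IsIntegral R x) :
    LinearIndependent R fun i : Fin (minpoly R x).natDegree => x ^ (i : ℕ) := by
  refine Fintype.linearIndependent_iff.2 fun g hg i => ?_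
  simp_rw [Algebra.smul_def, ← aeval_monomial, ← map_sum] at hg
  apply (fun hn0 => (minpoly.IsIntegrallyClosed.degree_le_of_ne_zero (s := x)
    (mt (fun h0 => ?_) hn0) hg).not_gt).mtr
  · simp_rw [← C_mul_X_pow_eq_monomial]
    exact (degree_eq_natDegree <| minpoly.ne_zero h).symm ▸ degree_sum_fin_lt _
  · apply_fun lcoeff R i at h0
    simp_rw [map_sum, lcoeff_apply, coeff_monomial, Fin.val_eq_val, Finset.sum_ite_eq'] at h0
    exact (if_pos <| Finset.mem_univ _).symm.trans h0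

theorem p_CMPO :
    S_CMPO := by
  intro σ _ q d y x hq h
  have := h.int
  have := h.faithful
  have := h.finite
  have hx : IsIntegral (MP (Fin d)) x := Algebra.IsIntegral.isIntegral x
  refine ⟨minpoly (MP (Fin d)) x, minpoly.monic hx, ?_, minpoly.aeval _ x,
    fun p hp => minpoly.isIntegrallyClosed_dvd hx hp,
    cmpo_res (minpoly.monic hx) (minpoly.irreducible hx) (minpoly.natDegree_pos hx)⟩
  simpa [rk] using (cmpo_li hx).fintype_card_le_finrank

end Pool.Agent.P.MP_ab0431_ag.UB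

namespace Pool.Agent.P.MP_ab0431_ag.UB

open Polynomial Set Filter Topology Metric
open Pool.Agent.P.MP_ab0431_ag.UB.Cc

theorem p_CPAR (hCLO : S_CLO) (hCPRIM : S_CPRIM) (hCMPO : S_CMPO) :
    S_CPAR := by
  intro σ _ q d y h F hq hN hh hF
  obtain ⟨u, δ₀, hu, h0, hr⟩ := hCPRIM σ q d y F hq hN hF
  choose r₀ hr₀ using hr
  obtain ⟨g, hg, hd, hx, hmin, δ₂, α, β, h2, hb⟩ := hCMPO σ q d y (mk q y u) hq hN
  have := hN.int
  obtain ⟨δ₁, h1, h', hh'⟩ := (Algebra.IsIntegral.isIntegral (R := MP (Fin d))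
    (mk q y h)).isAlgebraic.exists_nonzero_dvd
      (mem_nonZeroDivisors_of_ne_zero fun e => hh (mk_eq_zero.1 e))
  refine ⟨u, g, δ₀ * (δ₁ * δ₂), fun s => C (δ₁ * δ₂) * r₀ s,
    ⟨hg, mul_ne_zero h0 (mul_ne_zero h1 h2), fun c hc => ?_, fun y₀ u₀ hδ hz => ⟨?_, ?_⟩⟩, hd, hu⟩
  · rw [← evq_mk (y := y) hc, ← evq_aeval, hx, map_zero]
  · intro e
    have := congrArg (fun p => (p.map (ev y₀)).eval u₀) hb
    simp only [Polynomial.map_add, Polynomial.map_mul, eval_add, eval_mul, ← derivative_map, hz, e,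
      mul_zero, add_zero, map_C, eval_C] at this
    exact hδ (by rw [map_mul, map_mul, ← this, mul_zero, mul_zero])
  · obtain ⟨c, hc, rfl, e⟩ := hCLO σ q d y (mk q y u) y₀ u₀ hN fun p hp => by
      obtain ⟨p', rfl⟩ := hmin p hp
      rw [Polynomial.map_mul, eval_mul, hz, zero_mul]
    refine ⟨c, hc, rfl, e, fun e' => hδ ?_, fun s => ?_⟩
    · have := congrArg (evq y hc) hh'
      rw [evq_alg, map_mul, evq_mk, e', zero_mul] at this
      rw [map_mul, map_mul, this, zero_mul, mul_zero]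
    · have := congrArg (evq y hc) (hr₀ s)
      rw [map_mul, evq_alg, evq_aeval, e, evq_mk, MvPolynomial.eval_X] at this
      rw [eq_div_iff hδ, Polynomial.map_mul, eval_mul, map_C, eval_C, ← this, map_mul]
      ring

end Pool.Agent.P.MP_ab0431_ag.UB

namespace Pool.Agent.P.MP_ab0431_ag.UB

open Polynomial Set Filter Topology Metric
open Pool.Agent.P.MP_ab0431_ag.UB.Cc

theorem p_CFIB :
    S_CFIB := by
  intro σ _ q d y h
  have H : ∀ s, ∃ g : (MP (Fin d))[X], g.Monic ∧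
      ∀ c ∈ V q, (g.map (ev (yv y c))).eval (c s) = 0 := fun s => by
    obtain ⟨g, hg, h0⟩ := h.int.isIntegral (mk q y (MvPolynomial.X s))
    refine ⟨g, hg, fun c hc => ?_⟩
    have := evq_aeval hc (mk q y (MvPolynomial.X s)) g
    rw [aeval_def, h0, map_zero, evq_mk, MvPolynomial.eval_X] at this
    exact this.symm
  refine ⟨H, fun y₀ => ?_⟩
  choose g hg h0 using H
  refine (Set.Finite.pi' fun s => finite_setOfPred_isRoot ((hg s).map (ev y₀)).ne_zero).subset ?_
  rintro c ⟨hc, rfl⟩ s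
  exact h0 s c hc

end Pool.Agent.P.MP_ab0431_ag.UB

namespace Pool.Agent.P.MP_ab0431_ag.UB

open Polynomial Set Filter Topology Metric
open Pool.Agent.P.MP_ab0431_ag.UB.Cc

theorem p_CSIG :
    S_CSIG := by
  classical
  intro ι _ d y₀ δ hδ
  obtain ⟨y, hy⟩ : ∃ y, ev y δ ≠ 0 := by
    by_contra h
    exact hδ (MvPolynomial.funext fun x => by simpa using not_exists.1 h x)
  let a : Option ι → ℂ := fun o => ((Fintype.equivFin (Option ι) o : ℕ) : ℂ)
  have ha : Function.Injective a := fun _ _ e =>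
    (Fintype.equivFin _).injective (Fin.ext (Nat.cast_injective e))
  let s : Fin d → ℂ[X] := fun l =>
    Lagrange.interpolate Finset.univ a fun o => o.elim (y l) fun i => y₀ i l
  have hs : ∀ l o, (s l).eval (a o) = o.elim (y l) fun i => y₀ i l := fun l o =>
    Lagrange.eval_interpolate_at_node _ ha.injOn (Finset.mem_univ o)
  have e : ∀ t, ev (fun l => (s l).eval t) δ = (MvPolynomial.aeval s δ).eval t := fun t =>
    (MvPolynomial.comp_aeval_apply s (Polynomial.aeval t : ℂ[X] →ₐ[ℂ] ℂ) δ).symm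
  refine ⟨fun i => a (some i), s, fun i l => hs l (some i), ?_⟩
  simp only [e]
  refine finite_setOf_isRoot fun z => hy ?_
  have := e (a none)
  rw [z, eval_zero] at this
  rw [← this]
  simp only [hs, Option.elim]

end Pool.Agent.P.MP_ab0431_ag.UB

namespace Pool.Agent.P.MP_ab0431_ag.UB

open Polynomial Set Filter Topology Metric
open Pool.Agent.P.MP_ab0431_ag.UB.Cc

theorem p_CBND :
    S_CBND := by
  intro α l n p z h hx
  choose x hx using hx
  have h1 : ∀ᶠ a in l, ∀ i ∈ Finset.range n, ‖(p a).coeff i‖₊ < ‖x i‖₊ + 1 :=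
    (eventually_all_finset _).2 fun i _ => (hx i).nnnorm.eventually (gt_mem_nhds (lt_add_one _))
  refine ⟨((Finset.range n).sup fun i => ‖x i‖₊ + 1) + 1, ?_⟩
  filter_upwards [h, h1] with a ⟨a1, a2, a3⟩ a4
  have h2 := (IsRoot.norm_lt_cauchyBound a1.ne_zero a3).le
  rw [cauchyBound, a1.leadingCoeff, nnnorm_one, div_one, a2] at h2
  exact_mod_cast h2.trans (add_le_add_left (Finset.sup_mono_fun fun i hi => (a4 i hi).le) 1)

end Pool.Agent.P.MP_ab0431_ag.UB

namespace Pool.Agent.P.MP_ab0431_ag.UB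

open Polynomial Set Filter Topology Metric
open Pool.Agent.P.MP_ab0431_ag.UB.Cc

theorem ccov_cd (G : ℂ[X][X]) : ContDiff ℂ 1 fun p : ℂ × ℂ => G.evalEval p.1 p.2 := by
  induction G using Polynomial.induction_on' with
  | add p q hp hq => simp only [evalEval_add]; exact hp.add hq
  | monomial n a =>
    simp only [← C_mul_X_pow_eq_monomial, evalEval_mul, evalEval_C, evalEval_pow, evalEval_X]
    exact (a.differentiable.contDiff.comp contDiff_fst).mul (contDiff_snd.pow n)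

theorem ccov_strict (G : ℂ[X][X]) {t u : ℂ} (h : G.derivative.evalEval t u ≠ 0) :
    ∃ L : (ℂ × ℂ) ≃L[ℂ] ℂ × ℂ, HasStrictFDerivAt (fun p : ℂ × ℂ => (p.1, G.evalEval p.1 p.2))
      (L : ℂ × ℂ →L[ℂ] ℂ × ℂ) (t, u) := by
  obtain ⟨D, hD⟩ : ∃ D, HasStrictFDerivAt (fun p : ℂ × ℂ => G.evalEval p.1 p.2) D (t, u) :=
    ⟨_, (ccov_cd G).contDiffAt.hasStrictFDerivAt one_ne_zero⟩
  have h2 : HasDerivAt (fun y => G.evalEval t y) (G.derivative.evalEval t u) u := by
    simp only [evalEval_eq, ← derivative_map]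
    exact Polynomial.hasDerivAt _ u
  have h3 := (hD.hasFDerivAt.comp_hasDerivAt u
    ((hasDerivAt_const u t).prodMk (hasDerivAt_id u))).unique h2
  have h4 : Function.Injective ((ContinuousLinearMap.fst ℂ ℂ ℂ).prod D).toLinearMap := by
    refine (injective_iff_map_eq_zero _).2 fun ⟨v, s⟩ e => ?_
    obtain ⟨rfl, e2⟩ : v = 0 ∧ D (v, s) = 0 := Prod.mk.inj e
    rw [show ((0 : ℂ), s) = s • ((0 : ℂ), (1 : ℂ)) by simp, map_smul, h3] at e2
    rw [(smul_eq_zero.1 e2).resolve_right h]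
    rfl
  exact ⟨(LinearEquiv.ofInjectiveEndo _ h4).toContinuousLinearEquiv,
    hasStrictFDerivAt_fst.prodMk hD⟩

theorem p_CCOV (hCBND : S_CBND) :
    S_CCOV := by
  intro G Z hG hd
  have hΦ : Continuous fun p : ℂ × ℂ => (p.1, G.evalEval p.1 p.2) :=
    continuous_fst.prodMk (evalEval_diff G).continuous
  have hp : IsProperMap fun p : ℂ × ℂ => (p.1, G.evalEval p.1 p.2) := by
    refine isProperMap_iff_ultrafilter_of_t2.2 ⟨hΦ, fun 𝒰 ⟨z, w⟩ h => ?_⟩
    have h1 : Tendsto (fun u : ℂ × ℂ => u.1) 𝒰 (𝓝 z) := h.fst_nhds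
    have h2 : Tendsto (fun u : ℂ × ℂ => G.evalEval u.1 u.2) 𝒰 (𝓝 w) := h.snd_nhds
    obtain ⟨M, hM⟩ := hCBND (ℂ × ℂ) 𝒰 G.natDegree
      (fun a => G.map (evalRingHom a.1) - C (G.evalEval a.1 a.2)) Prod.snd
      (Eventually.of_forall fun a => by
        have a1 := hG.monic.map (evalRingHom a.1)
        have a2 := hG.monic.natDegree_map (evalRingHom a.1)
        refine ⟨a1.sub_of_left (degree_C_le.trans_lt
          (natDegree_pos_iff_degree_pos.1 (by omega))), natDegree_sub_C.trans a2, ?_⟩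
        rw [eval_sub, eval_C, evalEval_eq, sub_self])
      fun i => by
        simp only [coeff_sub, coeff_map, coeff_C, coe_evalRingHom]
        have a1 := ((G.coeff i).continuous.tendsto z).comp h1
        split_ifs
        · exact ⟨_, a1.sub h2⟩
        · exact ⟨_, a1.sub tendsto_const_nhds⟩
    obtain ⟨y, -, hy⟩ := (isCompact_closedBall (0 : ℂ) M).ultrafilter_le_nhds (𝒰.map Prod.snd)
      (le_principal_iff.2 (hM.mono fun u hu => mem_closedBall_zero_iff.2 hu))
    exact ⟨(z, y), h1.prodMk_nhds hy⟩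
  have hl : IsLocalHomeomorphOn (fun p : ℂ × ℂ => (p.1, G.evalEval p.1 p.2))
      ((fun p : ℂ × ℂ => (p.1, G.evalEval p.1 p.2)) ⁻¹' {x | x.1 ∉ Z ∧ x.2 = 0}) := fun u hu => by
    obtain ⟨L, hL⟩ := ccov_strict G (hG.sep _ hu.1 _ hu.2)
    exact ⟨_, hL.mem_toOpenPartialHomeomorph_source, rfl⟩
  exact hp.isClosedMap.isCoveringMapOn_of_isLocalHomeomorphOn (fun x hx =>
    (hp.isCompact_preimage isCompact_singleton).finite
      ((hl.mono (preimage_mono (singleton_subset_iff.2 hx))).isDiscrete_of_image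
        ((finite_singleton x).subset (image_preimage_subset _ _)).isDiscrete)) hl

end Pool.Agent.P.MP_ab0431_ag.UB

namespace Pool.Agent.P.MP_ab0431_ag.UB

open Polynomial Set Filter Topology Metric
open Pool.Agent.P.MP_ab0431_ag.UB.Cc

theorem p_CLIFT (hCCOV : S_CCOV) :
    S_CLIFT := by
  intro G Z E _ _ s τ hG hs hτ hZ a₀ ha u₀ h0
  have hd : G.natDegree ≠ 0 := fun h => by
    rw [hG.monic.natDegree_eq_zero.1 h, evalEval_one] at h0
    exact one_ne_zero h0
  have := hs.contractibleSpace ⟨a₀, ha⟩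
  have := hs.locallyPathConnectedSpace
  obtain ⟨F, ⟨F0, hF⟩, -⟩ := (hCCOV G Z hG hd).existsUnique_continuousMap_lifts
    (⟨fun z : s => (τ z, 0), (continuousOn_iff_continuous_domRestrict.1 hτ).prodMk
      continuous_const⟩) (a₀ := ⟨a₀, ha⟩) (e₀ := (τ a₀, u₀)) (Prod.ext rfl h0)
    fun z => ⟨hZ z z.2, rfl⟩
  obtain ⟨b, hb⟩ : ∃ b : E → ℂ, ∀ z : s, b z = (F z).2 :=
    ⟨fun z => open Classical in if hz : z ∈ s then (F ⟨z, hz⟩).2 else 0, fun z => dif_pos z.2⟩
  refine ⟨b, continuousOn_iff_continuous_domRestrict.2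
    ((continuous_snd.comp F.continuous).congr fun z => (hb z).symm),
    (hb ⟨a₀, ha⟩).trans (congrArg Prod.snd F0), fun z hz => ?_⟩
  obtain ⟨e1, e2⟩ := Prod.mk.inj (congrFun hF ⟨z, hz⟩)
  rw [e1, ← hb] at e2
  exact e2

end Pool.Agent.P.MP_ab0431_ag.UB

namespace Pool.Agent.P.MP_ab0431_ag.UB

open Polynomial Set Filter Topology Metric
open Pool.Agent.P.MP_ab0431_ag.UB.Cc

theorem cloc_an (G : ℂ[X][X]) (x : ℂ × ℂ) :
    AnalyticAt ℂ (fun p : ℂ × ℂ => G.evalEval p.1 p.2) x := by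
  induction G using Polynomial.induction_on' with
  | add p q hp hq => simp only [evalEval_add]; exact hp.add hq
  | monomial n a =>
    simp only [← C_mul_X_pow_eq_monomial, evalEval_mul, evalEval_C, evalEval_pow, evalEval_X]
    exact ((a.differentiable.analyticAt x.1).comp analyticAt_fst).mul (analyticAt_snd.pow n)

theorem p_CLOC :
    S_CLOC := by
  intro G t₀ u₀ h0 h1
  have ha := cloc_an G (t₀, u₀)
  obtain ⟨D, hD⟩ : ∃ D, HasFDerivAt (fun p : ℂ × ℂ => G.evalEval p.1 p.2) D (t₀, u₀) :=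
    ⟨_, ha.differentiableAt.hasFDerivAt⟩
  have h2 : HasDerivAt (fun u => G.evalEval t₀ u) (G.derivative.evalEval t₀ u₀) u₀ := by
    simp only [evalEval_eq, ← derivative_map]
    exact Polynomial.hasDerivAt _ _
  have h3 := (hD.comp_hasDerivAt u₀ ((hasDerivAt_const u₀ t₀).prodMk (hasDerivAt_id u₀))).unique h2
  have h4 : Function.Injective ((ContinuousLinearMap.fst ℂ ℂ ℂ).prod D).toLinearMap := by
    refine (injective_iff_map_eq_zero _).2 fun ⟨v, t⟩ e => ?_
    obtain ⟨rfl, e2⟩ : v = 0 ∧ D (v, t) = 0 := Prod.mk.inj e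
    rw [show ((0 : ℂ), t) = t • ((0 : ℂ), (1 : ℂ)) by simp, map_smul, h3] at e2
    rw [(smul_eq_zero.1 e2).resolve_right h1]
    rfl
  let L := (LinearEquiv.ofInjectiveEndo _ h4).toContinuousLinearEquiv
  have h5 : ContDiffAt ℂ ⊤ (fun p : ℂ × ℂ => (p.1, G.evalEval p.1 p.2)) (t₀, u₀) :=
    (analyticAt_fst.prod ha).contDiffAt
  have h6 : HasFDerivAt (fun p : ℂ × ℂ => (p.1, G.evalEval p.1 p.2))
      (L : ℂ × ℂ →L[ℂ] ℂ × ℂ) (t₀, u₀) := hasFDerivAt_fst.prodMk hD
  have h7 := (h5.to_localInverse h6 (by simp)).analyticAt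
  have h8 := (h5.hasStrictFDerivAt' h6 (by simp)).eventually_left_inverse
  have h9 := (h5.hasStrictFDerivAt' h6 (by simp)).eventually_right_inverse
  simp only [h0] at h7 h9
  have hc : AnalyticAt ℂ (fun t : ℂ => (t, (0 : ℂ))) t₀ := analyticAt_id.prod analyticAt_const
  refine ⟨fun t => (h5.localInverse h6 (by simp) (t, 0)).2,
    analyticAt_snd.comp (h7.comp (f := fun t : ℂ => (t, (0 : ℂ))) hc),
    (hc.continuousAt.eventually h9).mono fun t e => ?_, h8.mono fun p e hp => ?_⟩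
  · obtain ⟨e1, e2⟩ := Prod.mk.inj e
    rw [e1] at e2
    exact e2
  · rw [hp] at e
    exact congrArg Prod.snd e

end Pool.Agent.P.MP_ab0431_ag.UB

namespace Pool.Agent.P.MP_ab0431_ag.UB

open Polynomial Set Filter Topology Metric
open Pool.Agent.P.MP_ab0431_ag.UB.Cc

theorem p_CUNIQ (hCLOC : S_CLOC) :
    S_CUNIQ := by
  intro G Z A _ s f g hG hs hf hg h a₀ h₀ e₀
  have := isPreconnected_iff_preconnectedSpace.1 hs
  have cf : Continuous fun a : s => f a := continuousOn_iff_continuous_domRestrict.1 hf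
  have cg : Continuous fun a : s => g a := continuousOn_iff_continuous_domRestrict.1 hg
  have key : IsClopen {a : s | f a = g a} := by
    refine ⟨isClosed_eq cf cg, isOpen_iff_mem_nhds.2 fun a ha => ?_⟩
    obtain ⟨h1, -, -⟩ := h a a.2
    obtain ⟨κ, -, -, hκ⟩ := hCLOC G (f a).1 (f a).2 h1.2 (hG.sep _ h1.1 _ h1.2)
    have e : g a = ((f a).1, (f a).2) := Eq.symm ha
    filter_upwards [(cf.tendsto a).eventually hκ, (e ▸ cg.tendsto a).eventually hκ] with b b1 b2
    obtain ⟨c1, c2, c3⟩ := h b b.2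
    exact Prod.ext c3 ((b1 c1.2).symm.trans (c3 ▸ b2 c2.2))
  exact fun a ha => (key.eq_univ ⟨⟨a₀, h₀⟩, e₀⟩).ge (mem_univ (⟨a, ha⟩ : s))

end Pool.Agent.P.MP_ab0431_ag.UB

namespace Pool.Agent.P.MP_ab0431_ag.UB

open Polynomial Set Filter Topology Metric
open Pool.Agent.P.MP_ab0431_ag.UB.Cc

theorem cbrs_per {B : Set (ℂ → ℂ)} (hB : B.Finite)
    (h : ∀ (n : ℕ), ∀ b ∈ B, (fun z => b (z + n)) ∈ B) :
    ∃ e : ℕ, 1 ≤ e ∧ ∀ b ∈ B, Function.Periodic b (e : ℝ) := by
  have := hB.to_subtype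
  obtain ⟨n, n', hn, e⟩ := Finite.exists_ne_map_eq_of_infinite
    fun (n : ℕ) (b : B) => (⟨_, h n b b.2⟩ : B)
  have key : ∀ b ∈ B, ∀ z, b (z + n) = b (z + n') := fun b hb z =>
    congrFun (congrArg Subtype.val (congrFun e ⟨b, hb⟩)) z
  wlog hl : n < n' generalizing n n'
  · exact this n' n hn.symm e.symm (fun b hb z => (key b hb z).symm) (by omega)
  refine ⟨n' - n, by omega, fun b hb z => ?_⟩
  have h1 := key b hb (z - n)
  rw [sub_add_cancel] at h1
  rw [h1, Complex.ofReal_natCast, Nat.cast_sub hl.le]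
  congr 1
  ring

theorem cbrs_q (z : ℂ) (n : ℕ) :
    Function.Periodic.qParam 1 (z + n) = Function.Periodic.qParam 1 z := by
  rw [Function.Periodic.qParam, Function.Periodic.qParam, Complex.ofReal_one, div_one, div_one,
    mul_add, Complex.exp_add, mul_comm _ (n : ℂ), Complex.exp_nat_mul_two_pi_mul_I, mul_one]

theorem cbrs_M {Z : Set ℂ} (hZ : Z.Finite) (a : ℂ) :
    ∃ M : ℝ, ∀ z : ℂ, M < z.im → a + Function.Periodic.qParam 1 z ∉ Z := by
  obtain ⟨r, hr, h⟩ := Metric.isOpen_iff.1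
    (hZ.subset (sdiff_subset (t := {a}))).isClosed.isOpen_compl a (by simp)
  refine ⟨-Real.log r / (2 * Real.pi), fun z hz hm => ?_⟩
  have h1 := (Function.Periodic.norm_qParam_lt_iff one_pos _ z).2 hz
  rw [show -2 * Real.pi * (-Real.log r / (2 * Real.pi)) / 1 = Real.log r by
    field_simp, Real.exp_log hr] at h1
  exact h (by simpa using h1) ⟨hm, by simpa using Function.Periodic.qParam_ne_zero z⟩

theorem p_CBRS (hCLIFT : S_CLIFT) (hCUNIQ : S_CUNIQ) (hCLOC : S_CLOC) :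
    S_CBRS := by
  intro G Z a hG
  obtain ⟨M, hM⟩ := cbrs_M hG.fin a
  obtain ⟨τ, hτ⟩ : ∃ τ : ℂ → ℂ, τ = fun z => a + Function.Periodic.qParam 1 z := ⟨_, rfl⟩
  have t0 : ∀ z, a + Function.Periodic.qParam 1 z = τ z := fun z => by rw [hτ]
  have t1 : Differentiable ℂ τ := by rw [hτ]; fun_prop
  have t2 : ∀ z (n : ℕ), τ (z + n) = τ z := fun z n => by rw [← t0, ← t0, cbrs_q]
  simp only [t0] at hM ⊢
  have hc : Convex ℝ {z : ℂ | M < z.im} := convex_halfSpace_im_gt M
  have ho : IsOpen {z : ℂ | M < z.im} := isOpen_lt continuous_const Complex.continuous_im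
  let B : Set (ℂ → ℂ) := {b | ContinuousOn b {z : ℂ | M < z.im} ∧ (∀ z, ¬ M < z.im → b z = 0) ∧
    ∀ z, M < z.im → G.evalEval (τ z) (b z) = 0}
  have hB : B.Finite := by
    have hz : M < (((M + 1 : ℝ) : ℂ) * Complex.I).im := by simp
    generalize ((M + 1 : ℝ) : ℂ) * Complex.I = z₀ at hz
    refine Set.Finite.of_injOn (f := fun b => b z₀) (fun b hb => ?_) (fun b hb b' hb' e => ?_)
      (G.map (evalRingHom (τ z₀))).roots.toFinset.finite_toSet
    · rw [Finset.mem_coe, Multiset.mem_toFinset, mem_roots (hG.monic.map _).ne_zero, IsRoot,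
        ← evalEval_eq]
      exact hb.2.2 _ hz
    · have h1 := hCUNIQ G Z ℂ _ (fun z => (τ z, b z)) (fun z => (τ z, b' z)) hG hc.isPreconnected
        (t1.continuous.continuousOn.prodMk hb.1) (t1.continuous.continuousOn.prodMk hb'.1)
        (fun z h => ⟨⟨hM z h, hb.2.2 z h⟩, ⟨hM z h, hb'.2.2 z h⟩, rfl⟩) z₀ hz (Prod.ext rfl e)
      funext z
      by_cases h : M < z.im
      · exact congrArg Prod.snd (h1 h)
      · rw [hb.2.1 z h, hb'.2.1 z h]
  obtain ⟨e, he, hp⟩ := cbrs_per hB fun n b hb =>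
    ⟨hb.1.comp (by fun_prop) fun z hz => by simpa using hz,
      fun z hz => hb.2.1 _ (by simpa using hz),
      fun z hz => t2 z n ▸ hb.2.2 _ (by simpa using hz)⟩
  refine ⟨e, M, B, he, hB, fun b hb => ⟨hp b hb, fun z hz => ⟨?_, hM z hz, hb.2.2 z hz⟩⟩,
    fun z hz u hu => ?_⟩
  · obtain ⟨κ, k1, -, k2⟩ := hCLOC G _ _ (hb.2.2 z hz) (hG.sep _ (hM z hz) _ (hb.2.2 z hz))
    have h1 : ContinuousAt (fun w => (τ w, b w)) z :=
      t1.continuous.continuousAt.prodMk (hb.1.continuousAt (ho.mem_nhds hz))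
    refine (k1.differentiableAt.comp z (t1 z)).congr_of_eventuallyEq ?_
    filter_upwards [h1.tendsto.eventually k2, ho.mem_nhds hz] with w h2 h3
    exact (h2 (hb.2.2 w h3)).symm
  · obtain ⟨υ, h1, h2, h3⟩ := hCLIFT G Z ℂ _ τ hG hc t1.continuous.continuousOn hM z hz u hu
    have h4 : ∀ w : ℂ, M < w.im → indicator {z : ℂ | M < z.im} υ w = υ w := fun w hw =>
      indicator_of_mem (s := {z : ℂ | M < z.im}) hw _
    exact ⟨indicator {z : ℂ | M < z.im} υ, ⟨h1.congr h4,
      fun w hw => indicator_of_notMem (s := {z : ℂ | M < z.im}) hw _,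
      fun w hw => h4 w hw ▸ h3 w hw⟩, (h4 z hz).trans h2⟩

end Pool.Agent.P.MP_ab0431_ag.UB

namespace Pool.Agent.P.MP_ab0431_ag.UB

open Polynomial Set Filter Topology Metric
open Pool.Agent.P.MP_ab0431_ag.UB.Cc
open Function.Periodic

theorem cpuis_prod {η : ℝ} (h0 : 0 ≤ η) (u : ℂ) (s : Multiset ℂ) (h : ∀ r ∈ s, η ≤ ‖u - r‖) :
    η ^ s.card ≤ ‖(s.map (u - ·)).prod‖ := by
  induction s using Multiset.induction_on with
  | empty => simp
  | cons r s ih =>
    rw [Multiset.card_cons, Multiset.map_cons, Multiset.prod_cons, norm_mul, pow_succ']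
    exact mul_le_mul (h r (Multiset.mem_cons_self _ _))
      (ih fun x hx => h x (Multiset.mem_cons_of_mem hx)) (pow_nonneg h0 _) (norm_nonneg _)

theorem cpuis_low {η : ℝ} (h0 : 0 ≤ η) (u : ℂ) {p : ℂ[X]} (hp : p.Monic)
    (h : ∀ r, p.eval r = 0 → η ≤ ‖u - r‖) : η ^ p.natDegree ≤ ‖p.eval u‖ := by
  rw [(IsAlgClosed.splits p).eval_eq_prod_roots_of_monic hp,
    (IsAlgClosed.splits p).natDegree_eq_card_roots]
  exact cpuis_prod h0 u _ fun r hr => h r ((mem_roots hp.ne_zero).1 hr)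

theorem cpuis_pow {e : ℕ} (he : 1 ≤ e) (z : ℂ) : qParam 1 z = qParam e z ^ e := by
  have h0 : (e : ℂ) ≠ 0 := by exact_mod_cast (by omega : e ≠ 0)
  rw [qParam, qParam, ← Complex.exp_nat_mul]
  congr 1
  push_cast
  field_simp

theorem p_CPUIS (hCBRS : S_CBRS) (hCBND : S_CBND) :
    S_CPUIS := by
  intro G Z a u₀ hG h0
  obtain ⟨e, M, B, he, hB, h1, h2⟩ := hCBRS G Z a hG
  have e0 : (0 : ℝ) < e := by exact_mod_cast he
  have hM : ∀ᶠ z : ℂ in comap Complex.im atTop, M < z.im :=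
    tendsto_comap.eventually (eventually_gt_atTop M)
  have hq : Tendsto (fun z => a + qParam 1 z) (comap Complex.im atTop) (𝓝 a) := by
    simpa using ((qParam_tendsto one_pos).mono_right nhdsWithin_le_nhds).const_add a
  have hhol : ∀ b ∈ B, ∀ᶠ z : ℂ in comap Complex.im atTop, DifferentiableAt ℂ b z := fun b hb =>
    hM.mono fun z hz => ((h1 b hb).2 z hz).1
  have hbd : ∀ b ∈ B, BoundedAtFilter (comap Complex.im atTop) b := fun b hb => by
    obtain ⟨C, hC⟩ := hCBND ℂ (comap Complex.im atTop) G.natDegree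
      (fun z => G.map (evalRingHom (a + qParam 1 z))) b
      (hM.mono fun z hz => ⟨hG.monic.map _, hG.monic.natDegree_map _, by
        rw [← evalEval_eq]; exact ((h1 b hb).2 z hz).2.2⟩)
      fun i => ⟨(G.coeff i).eval a, by
        simpa only [coeff_map, coe_evalRingHom, Function.comp_def] using
          ((G.coeff i).continuous.tendsto a).comp hq⟩
    exact Asymptotics.IsBigO.of_bound C (by simpa using hC)
  obtain ⟨b, hb, hb0⟩ : ∃ b ∈ B, cuspFunction e b 0 = u₀ := by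
    by_contra hne
    have h3 : ∀ᶠ η in 𝓝[>] (0 : ℝ), ∀ b ∈ B, η < ‖u₀ - cuspFunction e b 0‖ :=
      (eventually_all_finite hB).2 fun b hb => nhdsWithin_le_nhds (gt_mem_nhds
        (norm_pos_iff.2 (sub_ne_zero.2 fun h => hne ⟨b, hb, h.symm⟩)))
    obtain ⟨η, h4, η0⟩ := (h3.and self_mem_nhdsWithin).exists
    have h5 : ∀ᶠ z : ℂ in comap Complex.im atTop, ∀ b ∈ B, η < ‖u₀ - b z‖ :=
      (eventually_all_finite hB).2 fun b hb =>
        ((tendsto_at_I_inf e0 (h1 b hb).1 (hhol b hb) (hbd b hb)).const_sub u₀).norm.eventually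
          (lt_mem_nhds (h4 b hb))
    have h6 : Tendsto (fun z => ‖G.evalEval (a + qParam 1 z) u₀‖) (comap Complex.im atTop)
        (𝓝 ‖G.evalEval a u₀‖) :=
      (((evalEval_diff G).continuous.tendsto (a, u₀)).comp (hq.prodMk_nhds tendsto_const_nhds)).norm
    rw [h0, norm_zero] at h6
    have : (comap Complex.im atTop).NeBot := atTop_neBot.comap_of_surj Complex.im_surjective
    refine (pow_pos η0 G.natDegree).not_ge (ge_of_tendsto h6 ?_)
    filter_upwards [hM, h5] with z hz h7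
    rw [evalEval_eq, ← hG.monic.natDegree_map (evalRingHom (a + qParam 1 z))]
    refine cpuis_low η0.le u₀ (hG.monic.map _) fun r hr => ?_
    obtain ⟨b, hb, rfl⟩ := h2 z hz r (by rwa [evalEval_eq])
    exact (h7 b hb).le
  have key : ∀ v ∈ ball (0 : ℂ) (Real.exp (-2 * Real.pi * M / e)), v ≠ 0 →
      ∃ z : ℂ, M < z.im ∧ qParam e z = v := fun v hv h => by
    refine ⟨invQParam e v, (norm_qParam_lt_iff e0 M _).1 ?_, qParam_right_inv e0.ne' h⟩
    rw [qParam_right_inv e0.ne' h]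
    exact mem_ball_zero_iff.1 hv
  refine ⟨e, Real.exp (-2 * Real.pi * M / e), cuspFunction e b, he, Real.exp_pos _,
    fun v hv => DifferentiableAt.differentiableWithinAt ?_, hb0, fun v hv h => ?_⟩
  · by_cases h : v = 0
    · exact h ▸ differentiableAt_cuspFunction_zero e0 (h1 b hb).1 (hhol b hb) (hbd b hb)
    · obtain ⟨z, hz, rfl⟩ := key v hv h
      exact differentiableAt_cuspFunction e0.ne' (h1 b hb).1 ((h1 b hb).2 z hz).1
  · obtain ⟨z, hz, rfl⟩ := key v hv h
    rw [eq_cuspFunction e0.ne' (h1 b hb).1, ← cpuis_pow he]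
    exact ((h1 b hb).2 z hz).2

end Pool.Agent.P.MP_ab0431_ag.UB

namespace Pool.Agent.P.MP_ab0431_ag.UB

open Polynomial Set Filter Topology Metric
open Pool.Agent.P.MP_ab0431_ag.UB.Cc

theorem p_CCMP (hCLIFT : S_CLIFT) :
    S_CCMP := by
  intro G Z ι _ p N h hp hN
  have c := h.fin.countable.isPathConnected_compl_of_one_lt_rank
    (by rw [Complex.rank_real_complex]; exact Cardinal.one_lt_two)
  obtain ⟨t, ht⟩ := c.nonempty
  have k : ∀ i, ∃ r ∈ (G.map (evalRingHom t)).roots.toFinset, JoinedIn (Gm G Z) (p i) (t, r) :=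
    fun i => by
      obtain ⟨γ, hγ⟩ := c.joinedIn _ (hp i).1 t ht
      have z : ∀ a ∈ Icc (0 : ℝ) 1, γ.extend a ∉ Z := fun a ha => by
        rw [γ.extend_apply ha]
        exact hγ _
      obtain ⟨υ, u1, u2, u3⟩ := hCLIFT G Z ℝ (Icc 0 1) γ.extend h (convex_Icc _ _)
        γ.continuous_extend.continuousOn z 0 (by simp) (p i).2 (by simpa using (hp i).2)
      refine ⟨υ 1, ?_, JoinedIn.ofLine (f := fun a => (γ.extend a, υ a))
        (γ.continuous_extend.continuousOn.prodMk u1) (by simp [u2]) (by simp) ?_⟩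
      · rw [Multiset.mem_toFinset, mem_roots (h.monic.map _).ne_zero, IsRoot, ← evalEval_eq]
        simpa using u3 1 (by simp)
      · rintro _ ⟨a, ha, rfl⟩
        exact ⟨z a ha, u3 a ha⟩
  choose r r1 r2 using k
  classical
  obtain ⟨y, -, hy⟩ := Finset.exists_lt_card_fiber_of_mul_lt_card_of_maps_to
    (s := Finset.univ) (f := r) (n := N) (fun i _ => r1 i) (lt_of_le_of_lt (Nat.mul_le_mul_right N
      ((Multiset.toFinset_card_le _).trans ((card_roots' _).trans natDegree_map_le))) hN)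
  obtain ⟨f⟩ := Function.Embedding.nonempty_of_card_le (α := Fin (N + 1))
    (β := Finset.univ.filter fun i => r i = y) (by rwa [Fintype.card_fin, Fintype.card_coe])
  refine ⟨fun j => f j, Subtype.val_injective.comp f.injective, fun j j' => (r2 _).trans ?_⟩
  rw [(Finset.mem_filter.1 (f j).2).2.trans (Finset.mem_filter.1 (f j').2).2.symm]
  exact (r2 _).symm

end Pool.Agent.P.MP_ab0431_ag.UB
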