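import Pool.Agent.P.MP_ab0431_ag.UB.IfaceC
import Pool.Agent.P.MP_ab0431_ag.UB.IfaceT
import Pool.Agent.P.MP_ab0431_ag.UB.IfaceO

/-! Steps CDJ CPATH CWEI CAPX CGAP CHL1 CHLF CREA CST CPST CREM CCURV CMAIN. -/

set_option autoImplicit false
set_option linter.unusedSectionVars false
set_option linter.unusedVariables false

namespace Pool.Agent.P.MP_ab0431_ag.UB

open Polynomial Set Filter Topology Metric
open Pool.Agent.P.MP_ab0431_ag.UB.Cc

theorem p_CDJ :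
    S_CDJ := by
  intro G Z a u₀ e ε φ h v hv v' hv' h0 h0'
  have m1 : ∀ w ∈ {w : ℂ | w.re < Real.log ε}, Complex.exp w ∈ ball (0 : ℂ) ε := fun w hw => by
    rw [mem_ball_zero_iff, Complex.norm_exp]
    exact (Real.lt_log_iff_exp_lt h.pos).1 hw
  have m2 : ∀ v ∈ ball (0 : ℂ) ε, v ≠ 0 → Complex.log v ∈ {w : ℂ | w.re < Real.log ε} :=
    fun v hv h0 => by
      rw [mem_ofPred_eq, Complex.log_re]
      exact Real.log_lt_log (norm_pos_iff.2 h0) (mem_ball_zero_iff.1 hv)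
  have c : ContinuousOn (fun w : ℂ => (a + Complex.exp w ^ e, φ (Complex.exp w)))
      {w : ℂ | w.re < Real.log ε} :=
    ContinuousOn.prodMk (by fun_prop)
      (h.hol.continuousOn.comp Complex.continuous_exp.continuousOn m1)
  have p := ((convex_halfSpace_re_lt (Real.log ε)).isPathConnected ⟨_, m2 v hv h0⟩).image' c
  refine (p.joinedIn _ ⟨_, m2 v hv h0, by simp only [Complex.exp_log h0]⟩ _
    ⟨_, m2 v' hv' h0', by simp only [Complex.exp_log h0']⟩).mono ?_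
  rintro _ ⟨w, hw, rfl⟩
  exact h.mem _ (m1 w hw) (Complex.exp_ne_zero w)

end Pool.Agent.P.MP_ab0431_ag.UB

namespace Pool.Agent.P.MP_ab0431_ag.UB

open Polynomial Set Filter Topology Metric
open Pool.Agent.P.MP_ab0431_ag.UB.Cc

theorem cpath_glue {f g : ℝ → ℂ × ℂ} {a b c : ℝ} (hab : a ≤ b) (hbc : b ≤ c)
    (hf : ContinuousOn f (Icc a b)) (hg : ContinuousOn g (Icc b c)) (h : f b = g b) :
    ContinuousOn (fun x => if x ≤ b then f x else g x) (Icc a c) := by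
  rw [← Icc_union_Icc_eq_Icc hab hbc]
  refine ContinuousOn.union_of_isClosed (hf.congr fun x hx => if_pos hx.2)
    (hg.congr fun x hx => ?_) isClosed_Icc isClosed_Icc
  by_cases hx' : x ≤ b
  · have : x = b := le_antisymm hx' hx.1
    simp only [this, le_refl, if_true, h]
  · exact if_neg hx'

theorem cpath_piece {η : ℝ} {W : Set (ℂ × ℂ)} {A B : ℝ → ℂ × ℂ} (h0 : 0 < η) (h1 : η < 1 / 2)
    (hA : ContinuousOn A (Icc (-η) η)) (hA' : ∀ x ∈ Icc (-η) η, x ≠ 0 → A x ∈ W)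
    (hB : ContinuousOn B (Icc (-η) η)) (hB' : ∀ x ∈ Icc (-η) η, x ≠ 0 → B x ∈ W)
    (hJ : JoinedIn W (A η) (B (-η))) :
    ∃ P : ℝ → ℂ × ℂ, ContinuousOn P (Icc 0 1) ∧ ∀ s ∈ Icc (0 : ℝ) 1,
      (s ≤ η → P s = A s) ∧ (1 - η ≤ s → P s = B (s - 1)) ∧ (s ≠ 0 → s ≠ 1 → P s ∈ W) := by
  obtain ⟨γ, hγ⟩ := hJ
  have hd : 0 < 1 - 2 * η := by linarith
  have e1 : γ.extend ((1 - η - η) / (1 - 2 * η)) = B (1 - η - 1) := by
    rw [show (1 - η - η) / (1 - 2 * η) = 1 by rw [div_eq_one_iff_eq hd.ne']; ring,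
      show 1 - η - 1 = -η by ring]
    exact γ.extend_one
  refine ⟨fun s => if s ≤ η then A s else
    if s ≤ 1 - η then γ.extend ((s - η) / (1 - 2 * η)) else B (s - 1), ?_, fun s hs => ⟨?_, ?_, ?_⟩⟩
  · refine cpath_glue h0.le (by linarith) (hA.mono (Icc_subset_Icc (by linarith) le_rfl))
      (cpath_glue (by linarith) (by linarith)
        (γ.continuous_extend.comp (by fun_prop)).continuousOn
        (hB.comp (by fun_prop) fun x hx => ⟨by linarith [hx.1], by linarith [hx.2]⟩) e1) ?_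
    rw [if_pos (by linarith), sub_self, zero_div]
    exact γ.extend_zero.symm
  · exact fun h => if_pos h
  · intro h
    simp only []
    rw [if_neg (by linarith)]
    split_ifs with h'
    · rw [le_antisymm h' h]; exact e1
    · rfl
  · intro s0 s1
    simp only []
    split_ifs with h h'
    · exact hA' s ⟨by linarith [hs.1], h⟩ s0
    · have : γ.extend ((s - η) / (1 - 2 * η)) ∈ range γ := γ.extend_range ▸ mem_range_self _
      obtain ⟨t, ht⟩ := this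
      exact ht ▸ hγ t
    · exact hB' _ ⟨by linarith, by linarith [hs.2]⟩ (sub_ne_zero.2 s1)

theorem p_CPATH :
    S_CPATH := by
  intro N η W D h0 h1
  induction N with
  | zero =>
    intro _ _
    refine ⟨fun _ => D 0 0, continuousOn_const, fun x hx => ?_⟩
    have hx0 : x = 0 := le_antisymm (by simpa using hx.2) hx.1
    refine ⟨fun j hj _ => ?_, fun h => absurd (by simpa using hx0) (h 0)⟩
    obtain rfl : j = 0 := by omega
    simp [hx0]
  | succ N ih =>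
    intro hD hJ
    obtain ⟨Γ, hΓ, hΓ'⟩ := ih (fun j hj => hD j (by omega)) (fun j hj => hJ j (by omega))
    obtain ⟨P, hP, hP'⟩ := cpath_piece h0 h1 (hD N (by omega)).1 (hD N (by omega)).2
      (hD (N + 1) le_rfl).1 (hD (N + 1) le_rfl).2 (hJ N (by omega))
    have hN : (0 : ℝ) ≤ N := Nat.cast_nonneg N
    refine ⟨fun x => if x ≤ N then Γ x else P (x - N), ?_, fun x hx => ?_⟩
    · refine cpath_glue hN (by push_cast; linarith) hΓ
        (hP.comp (by fun_prop) fun x hx => ⟨by linarith [hx.1], ?_⟩) ?_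
      · have := hx.2
        push_cast at this
        linarith
      · rw [(hΓ' N ⟨hN, le_rfl⟩).1 N le_rfl (by simpa using h0.le),
          (hP' _ ⟨by simp, by simp⟩).1 (by simpa using h0.le)]
    have hx2 : x ≤ N + 1 := by simpa using hx.2
    simp only []
    split_ifs with h
    · refine ⟨fun j hj hj' => (hΓ' x ⟨hx.1, h⟩).1 j ?_ hj', (hΓ' x ⟨hx.1, h⟩).2⟩
      by_contra hc
      obtain rfl : j = N + 1 := by omega
      have := (abs_le.1 hj').1
      push_cast at this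
      linarith
    · have hm : x - N ∈ Icc (0 : ℝ) 1 := ⟨by linarith, by linarith⟩
      refine ⟨fun j hj hj' => ?_, fun hne => (hP' _ hm).2.2 (sub_ne_zero.2 (hne N)) fun e => ?_⟩
      · obtain ⟨l1, l2⟩ := abs_le.1 hj'
        rcases lt_trichotomy j N with hlt | rfl | hgt
        · have : (j : ℝ) + 1 ≤ N := by exact_mod_cast hlt
          linarith
        · exact (hP' _ hm).1 l2
        · obtain rfl : j = N + 1 := by omega
          push_cast at l1 ⊢
          rw [(hP' _ hm).2.1 (by linarith)]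
          congr 1
          ring
      · exact hne (N + 1) (by push_cast; linarith)

end Pool.Agent.P.MP_ab0431_ag.UB

namespace Pool.Agent.P.MP_ab0431_ag.UB

open Polynomial Set Filter Topology Metric
open Pool.Agent.P.MP_ab0431_ag.UB.Cc

theorem cwei_eval (p : ℝ[X]) (x : ℝ) : (p.map Complex.ofRealHom).eval (x : ℂ) = (p.eval x : ℝ) :=
  (eval_map _ _).trans (eval₂_at_apply Complex.ofRealHom x)

theorem p_CWEI :
    S_CWEI := by
  refine ⟨fun g a b ε hg hε => ?_, fun N a e => ?_⟩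
  · obtain ⟨p, hp⟩ := exists_polynomial_near_of_continuousOn a b (fun x => (g x).re)
      (Complex.continuous_re.comp_continuousOn hg) (ε / 2) (half_pos hε)
    obtain ⟨q, hq⟩ := exists_polynomial_near_of_continuousOn a b (fun x => (g x).im)
      (Complex.continuous_im.comp_continuousOn hg) (ε / 2) (half_pos hε)
    refine ⟨p.map Complex.ofRealHom + C Complex.I * q.map Complex.ofRealHom, fun x hx => ?_⟩
    rw [eval_add, eval_mul, eval_C, cwei_eval, cwei_eval]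
    refine (Complex.norm_le_abs_re_add_abs_im _).trans_lt ?_
    have h1 := hp x hx
    have h2 := hq x hx
    simp only [Complex.sub_re, Complex.add_re, Complex.ofReal_re, Complex.mul_re, Complex.I_re,
      Complex.I_im, Complex.ofReal_im, Complex.sub_im, Complex.add_im, Complex.mul_im, zero_mul,
      one_mul, sub_zero, add_zero, zero_add]
    linarith
  · obtain ⟨H, hH⟩ := Ideal.exists_forall_sub_mem_ideal (ι := Fin (N + 1))
      (I := fun j => Ideal.span {(X - C ((j : ℕ) : ℂ)) ^ e j}) (fun i j h =>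
        (Ideal.isCoprime_span_singleton_iff _ _).2 (isCoprime_X_sub_C_of_isUnit_sub
          (sub_ne_zero.2 fun h' => h (Fin.ext (Nat.cast_injective h'))).isUnit).pow)
      fun j => C (a j)
    have h : ∀ j, ∃ m : ℂ[X], j ≤ N → H = C (a j) + (X - C (j : ℂ)) ^ e j * m := fun j => by
      by_cases hj : j ≤ N
      · obtain ⟨m, hm⟩ := Ideal.mem_span_singleton.1 (hH ⟨j, Nat.lt_succ_of_le hj⟩)
        exact ⟨m, fun _ => eq_add_of_sub_eq' hm⟩
      · exact ⟨0, fun h => absurd h hj⟩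
    choose m hm using h
    exact ⟨H, m, hm⟩

end Pool.Agent.P.MP_ab0431_ag.UB

namespace Pool.Agent.P.MP_ab0431_ag.UB

open Polynomial Set Filter Topology Metric
open Pool.Agent.P.MP_ab0431_ag.UB.Cc

theorem capx_uniq {η x : ℝ} (hη : η < 1 / 2) {i j : ℕ} (hi : |x - i| ≤ η) (hj : |x - j| ≤ η) :
    i = j := by
  rw [abs_le] at hi hj
  have a : (i : ℝ) < j + 1 := by linarith [hi.1, hj.2]
  have b : (j : ℝ) < i + 1 := by linarith [hi.2, hj.1]
  have a' : i < j + 1 := by exact_mod_cast a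
  have b' : j < i + 1 := by exact_mod_cast b
  omega

theorem capx_ne (s : Finset ℕ) (e : ℕ → ℕ) {x : ℝ} (h : ∀ i ∈ s, x ≠ i) :
    (∏ i ∈ s, (X - C (i : ℂ)) ^ e i : ℂ[X]).eval (x : ℂ) ≠ 0 := by
  rw [eval_prod]
  refine Finset.prod_ne_zero_iff.2 fun i hi => ?_
  rw [eval_pow, eval_sub, eval_X, eval_C]
  exact pow_ne_zero _ (sub_ne_zero.2 fun h' => h i hi (by exact_mod_cast h'))

theorem capx_cont (p : ℂ[X]) : Continuous fun x : ℝ => p.eval (x : ℂ) :=
  p.continuous.comp Complex.continuous_ofReal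

theorem p_CAPX (hCWEI : S_CWEI) :
    S_CAPX := by
  classical
  intro N η ε a e t η0 η1 ε0 ht h
  obtain ⟨H, m, hH⟩ := hCWEI.2 N a e
  let om : ℂ[X] := ∏ i ∈ Finset.range (N + 1), (X - C (i : ℂ)) ^ e i
  let o : ℕ → ℂ[X] := fun j => ∏ i ∈ (Finset.range (N + 1)).erase j, (X - C (i : ℂ)) ^ e i
  have h1 : ∀ j ≤ N, om = (X - C (j : ℂ)) ^ e j * o j := fun j hj =>
    (Finset.mul_prod_erase _ (fun i : ℕ => (X - C (i : ℂ)) ^ e i)
      (Finset.mem_range.2 (by omega))).symm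
  have h2 : ∀ (x : ℝ) (j : ℕ), |x - j| ≤ η → (o j).eval (x : ℂ) ≠ 0 := fun x j hj =>
    capx_ne _ e fun i hi hx => (Finset.mem_erase.1 hi).1 
      (capx_uniq η1 (x := x) (by simp [hx, η0.le]) hj)
  let g : ℝ → ℂ := fun x => if hx : ∃ j ≤ N, |x - (j : ℕ)| ≤ η then
    (1 - (m hx.choose).eval (x : ℂ)) / (o hx.choose).eval (x : ℂ)
    else (t x - H.eval (x : ℂ)) / om.eval (x : ℂ)
  have ga : ∀ (x : ℝ), ∀ j ≤ N, |x - j| ≤ η →
      g x = (1 - (m j).eval (x : ℂ)) / (o j).eval (x : ℂ) := fun x j hj hx => by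
    have e1 : ∃ j ≤ N, |x - (j : ℕ)| ≤ η := ⟨j, hj, hx⟩
    simp only [g, dif_pos e1, capx_uniq η1 e1.choose_spec.2 hx]
  have gm : ∀ (x : ℝ), ∀ j ≤ N, |x - j| ≤ η →
      (o j).eval (x : ℂ) * g x = 1 - (m j).eval (x : ℂ) := fun x j hj hx => by
    rw [ga x j hj hx, mul_div_cancel₀ _ (h2 x j hx)]
  have gt : ∀ x ∈ Icc (0 : ℝ) N, om.eval (x : ℂ) * g x = t x - H.eval (x : ℂ) := fun x hx => by
    by_cases e1 : ∃ j ≤ N, |x - (j : ℕ)| ≤ η
    · obtain ⟨j, hj, hx'⟩ := e1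
      rw [h1 j hj, eval_mul, mul_assoc, gm x j hj hx', h x hx j hj hx', hH j hj]
      simp only [eval_add, eval_mul, eval_pow, eval_sub, eval_X, eval_C]
      ring
    · simp only [g, dif_neg e1]
      refine mul_div_cancel₀ _ (capx_ne _ e fun i hi hx => e1 ⟨i, ?_, by simp [hx, η0.le]⟩)
      have := Finset.mem_range.1 hi
      omega
  have gc : ContinuousOn g (Icc 0 N) := fun x hx => by
    by_cases e1 : ∃ j ≤ N, |x - (j : ℕ)| < η
    · obtain ⟨j, hj, hx'⟩ := e1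
      have e2 : ∀ᶠ y : ℝ in 𝓝 x, |y - j| < η :=
        (by fun_prop : Continuous fun y : ℝ => |y - j|).continuousAt.eventually_lt
          continuousAt_const hx'
      refine (ContinuousAt.congr (f := fun y : ℝ => (1 - (m j).eval (y : ℂ)) / (o j).eval (y : ℂ))
        ?_ (e2.mono fun y hy => (ga y j hj hy.le).symm)).continuousWithinAt
      exact (continuousAt_const.sub (capx_cont _).continuousAt).div (capx_cont _).continuousAt
        (h2 x j hx'.le)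
    · have e0 : om.eval (x : ℂ) ≠ 0 := capx_ne _ e fun i hi hx => e1 ⟨i, by
        have := Finset.mem_range.1 hi
        omega, by simp [hx, η0]⟩
      have e2 := (capx_cont om).continuousAt.eventually_ne e0
      refine ContinuousWithinAt.congr_of_eventuallyEq_of_mem
        (f := fun y : ℝ => (t y - H.eval (y : ℂ)) / om.eval (y : ℂ)) ?_ ?_ hx
      · exact ((ht x hx).sub (capx_cont _).continuousWithinAt).div
          (capx_cont _).continuousWithinAt e0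
      · filter_upwards [mem_nhdsWithin_of_mem_nhds e2, self_mem_nhdsWithin] with y y1 y2
        rw [← gt y y2, mul_div_cancel_left₀ _ y1]
  obtain ⟨B, hB⟩ := (isCompact_Icc (a := (0 : ℝ)) (b := N)).exists_bound_of_continuousOn
    (f := fun x : ℝ => ‖om.eval (x : ℂ)‖ + ∑ j ∈ Finset.range (N + 1), ‖(o j).eval (x : ℂ)‖)
    ((capx_cont _).norm.add (continuous_finsetSum _ fun j _ => (capx_cont _).norm)).continuousOn
  have B0 : 0 ≤ B := (norm_nonneg _).trans (hB 0 ⟨le_rfl, Nat.cast_nonneg N⟩)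
  obtain ⟨k, hk⟩ := hCWEI.1 g 0 N (ε / (B + 1)) gc (by positivity)
  have key : ∀ x ∈ Icc (0 : ℝ) N, ∀ c : ℂ, ‖c‖ ≤ B → ‖c * (k.eval (x : ℂ) - g x)‖ < ε :=
    fun x hx c hc => by
      have := hk x hx
      rw [lt_div_iff₀ (by positivity)] at this
      rw [norm_mul]
      nlinarith [norm_nonneg (k.eval (x : ℂ) - g x), norm_nonneg c]
  refine ⟨H + om * k, fun j => m j + o j * k, fun j hj => ?_, fun x hx => ⟨?_, fun j hj hx' => ?_⟩⟩
  · rw [hH j hj, h1 j hj]; ring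
  · have s0 : 0 ≤ ∑ j ∈ Finset.range (N + 1), ‖(o j).eval (x : ℂ)‖ := by positivity
    refine lt_of_eq_of_lt (congrArg _ ?_) (key x hx (om.eval (x : ℂ)) ?_)
    · rw [mul_sub, gt x hx, eval_add, eval_mul]; ring
    · linarith [le_of_abs_le (hB x hx)]
  · have s0 := Finset.single_le_sum (f := fun j => ‖(o j).eval (x : ℂ)‖)
      (fun _ _ => norm_nonneg _) (Finset.mem_range.2 (show j < N + 1 by omega))
    refine lt_of_eq_of_lt (congrArg _ ?_) (key x hx ((o j).eval (x : ℂ)) ?_)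
    · rw [mul_sub, gm x j hj hx', eval_add, eval_mul]; ring
    · linarith [le_of_abs_le (hB x hx), norm_nonneg (om.eval (x : ℂ))]

end Pool.Agent.P.MP_ab0431_ag.UB

namespace Pool.Agent.P.MP_ab0431_ag.UB

open Polynomial Set Filter Topology Metric
open Pool.Agent.P.MP_ab0431_ag.UB.Cc

theorem p_CGAP :
    S_CGAP := by
  intro N η Z t hη hZ ht h
  have hK : IsCompact (Icc (0 : ℝ) N ∩ ⋂ j ≤ N, {x : ℝ | η ≤ |x - j|}) :=
    isCompact_Icc.inter_right (isClosed_biInter fun j _ =>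
      isClosed_le continuous_const (by fun_prop))
  obtain ⟨ε, h0, h1⟩ := (hK.image_of_continuousOn (ht.mono inter_subset_left)).exists_thickening_subset_open
    hZ.isClosed.isOpen_compl (by
      rintro _ ⟨x, ⟨hx, h2⟩, rfl⟩
      refine h x hx ?_
      rintro j rfl
      have := mem_iInter₂.1 h2 j (by exact_mod_cast hx.2)
      simp only [mem_ofPred_eq, sub_self, abs_zero] at this
      linarith)
  exact ⟨ε, h0, fun x hx h2 w hw => h1 (mem_thickening_iff.2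
    ⟨_, ⟨x, ⟨hx, mem_iInter₂.2 h2⟩, rfl⟩, by rwa [dist_eq_norm]⟩)⟩

end Pool.Agent.P.MP_ab0431_ag.UB

namespace Pool.Agent.P.MP_ab0431_ag.UB

open Polynomial Set Filter Topology Metric
open Pool.Agent.P.MP_ab0431_ag.UB.Cc

theorem p_CHL1 (hCLIFT : S_CLIFT) (hCUNIQ : S_CUNIQ) :
    S_CHL1 := by
  intro G Z s Γ τ hG hs hΓ hτ hm hZ
  rcases s.eq_empty_or_nonempty with rfl | ⟨x₀, h₀⟩
  · exact ⟨fun _ => 0, continuousOn_empty _, fun _ h => h.elim⟩
  set T : ℝ × ℝ → ℂ := fun p => (Γ p.1).1 + p.2 * (τ p.1 - (Γ p.1).1) with hT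
  have c1 : ContinuousOn (fun p : ℝ × ℝ => (Γ p.1).1) (s ×ˢ Icc 0 1) :=
    (hΓ.comp continuousOn_fst fun _ h => h.1).fst
  have c2 : ContinuousOn (fun p : ℝ × ℝ => τ p.1) (s ×ˢ Icc 0 1) :=
    hτ.comp continuousOn_fst fun _ h => h.1
  have cT : ContinuousOn T (s ×ˢ Icc 0 1) :=
    c1.add ((Complex.continuous_ofReal.comp continuous_snd).continuousOn.mul (c2.sub c1))
  have T0 : ∀ x, T (x, 0) = (Γ x).1 := fun x => by simp [hT]
  have T1 : ∀ x, T (x, 1) = τ x := fun x => by simp [hT]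
  have i0 : (0 : ℝ) ∈ Icc (0 : ℝ) 1 := left_mem_Icc.2 zero_le_one
  have i1 : (1 : ℝ) ∈ Icc (0 : ℝ) 1 := right_mem_Icc.2 zero_le_one
  obtain ⟨L, cL, L0, hL⟩ := hCLIFT G Z (ℝ × ℝ) (s ×ˢ Icc 0 1) T hG (hs.prod (convex_Icc 0 1)) cT
    (fun a ha => hZ a.1 ha.1 a.2 ha.2) (x₀, 0) ⟨h₀, i0⟩ (Γ x₀).2 (by rw [T0]; exact (hm x₀ h₀).2)
  have cp : ContinuousOn (fun p => (T p, L p)) (s ×ˢ Icc 0 1) := cT.prodMk cL
  have mem : ∀ x ∈ s, ∀ r ∈ Icc (0 : ℝ) 1, (T (x, r), L (x, r)) ∈ Gm G Z := fun x hx r hr =>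
    ⟨hZ x hx r hr, hL (x, r) ⟨hx, hr⟩⟩
  have e0 := hCUNIQ G Z ℝ s (fun x => (T (x, 0), L (x, 0))) Γ hG hs.isPreconnected
    (cp.comp (f := fun x : ℝ => (x, (0 : ℝ))) (by fun_prop) fun x hx => ⟨hx, i0⟩) hΓ
    (fun x hx => ⟨mem x hx 0 i0, hm x hx, T0 x⟩) x₀ h₀ (Prod.ext (T0 x₀) L0)
  refine ⟨fun x => L (x, 1),
    cL.comp (f := fun x : ℝ => (x, (1 : ℝ))) (by fun_prop) fun x hx => ⟨hx, i1⟩,
    fun x hx => ⟨T1 x ▸ mem x hx 1 i1, fun ψ cψ ψ0 hψ => ?_⟩⟩
  have cx : ContinuousOn (fun r : ℝ => (x, r)) (Icc 0 1) := by fun_prop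
  exact congrArg Prod.snd (hCUNIQ G Z ℝ (Icc 0 1) (fun r => (T (x, r), L (x, r)))
    (fun r => (T (x, r), ψ r)) hG isPreconnected_Icc (cp.comp cx fun r hr => ⟨hx, hr⟩)
    ((cT.comp cx fun r hr => ⟨hx, hr⟩).prodMk cψ)
    (fun r hr => ⟨mem x hx r hr, ⟨hZ x hx r hr, hψ r hr⟩, rfl⟩) 0 i0
    (Prod.ext rfl ((congrArg Prod.snd (e0 hx)).trans ψ0.symm)) i1)

end Pool.Agent.P.MP_ab0431_ag.UB

namespace Pool.Agent.P.MP_ab0431_ag.UB

open Polynomial Set Filter Topology Metric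
open Pool.Agent.P.MP_ab0431_ag.UB.Cc

theorem p_CHLF (hCHL1 : S_CHL1) :
    S_CHLF := by
  intro G Z N η ε a u e φ Γ τ β hG η0 η1 hD cΓ cτ H
  classical
  have ni : ∀ j : ℕ, ∀ x ∈ Ioo (j : ℝ) (j + 1), ∀ l : ℕ, x ≠ l := fun j x hx l h => by
    rw [h] at hx
    have h1 : j < l := Nat.cast_lt.1 hx.1
    have h2 : l < j + 1 := by exact_mod_cast hx.2
    omega
  have sub : ∀ j < N, Ioo (j : ℝ) (j + 1) ⊆ Icc 0 N := fun j hj x hx =>
    ⟨j.cast_nonneg.trans hx.1.le, hx.2.le.trans (by exact_mod_cast hj)⟩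
  have key : ∀ x ∈ Icc (0 : ℝ) N, ∀ j ≤ N, |x - j| ≤ η → ∀ r ∈ Icc (0 : ℝ) 1,
      ‖1 + r * (β j x - 1) - 1‖ < 1 / 2 ∧
      ((x : ℂ) - j) * rt (e j) (1 + r * (β j x - 1)) ∈ ball (0 : ℂ) (2 * η) ∧
      (Γ x).1 + r * (τ x - (Γ x).1) =
        a j + ((x - j) * rt (e j) (1 + r * (β j x - 1))) ^ e j := fun x hx j hj h r hr => by
    obtain ⟨h1, h2, h3⟩ := (H x hx).2.2.2 j hj h
    have h4 : ‖1 + r * (β j x - 1) - 1‖ < 1 / 2 := by
      rw [add_sub_cancel_left, norm_mul, Complex.norm_of_nonneg hr.1]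
      exact (mul_le_of_le_one_left (norm_nonneg _) hr.2).trans_lt h3
    refine ⟨h4, ?_, by rw [mul_pow, rt_pow (hD j hj).one, h1, h2]; ring⟩
    rw [mem_ball_zero_iff, norm_mul, ← Complex.ofReal_natCast, ← Complex.ofReal_sub,
      Complex.norm_real, Real.norm_eq_abs, mul_comm 2]
    exact mul_lt_mul' h (rt_norm (hD j hj).one h4) (norm_nonneg _) η0
  have mem : ∀ x ∈ Icc (0 : ℝ) N, ∀ j ≤ N, |x - j| ≤ η → x ≠ j → ∀ r ∈ Icc (0 : ℝ) 1,
      ((Γ x).1 + r * (τ x - (Γ x).1), φ j ((x - j) * rt (e j) (1 + r * (β j x - 1)))) ∈ Gm G Z :=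
    fun x hx j hj h h0 r hr => by
      obtain ⟨h1, h2, h3⟩ := key x hx j hj h r hr
      rw [h3]
      exact (hD j hj).mem _ h2 (mul_ne_zero (sub_ne_zero.2 (by exact_mod_cast h0))
        (rt_ne (hD j hj).one h1))
  choose! υ v1 v2 using fun j (hj : j < N) => hCHL1 G Z (Ioo j (j + 1)) Γ τ hG (convex_Ioo _ _)
    (cΓ.mono (sub j hj)) (cτ.mono (sub j hj)) (fun x hx => (H x (sub j hj hx)).1 (ni j x hx))
    fun x hx r hr => by
      by_cases h : ∃ l ≤ N, |x - l| ≤ η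
      · obtain ⟨l, h1, h2⟩ := h
        exact (mem x (sub j hj hx) l h1 h2 (ni j x hx l) r hr).1
      push Not at h
      refine (H x (sub j hj hx)).2.2.1 (fun l hl => (h l hl).le) _ ?_
      rw [add_sub_cancel_left, norm_mul, Complex.norm_of_nonneg hr.1]
      exact (mul_le_of_le_one_left (norm_nonneg _) hr.2).trans_lt (H x (sub j hj hx)).2.1
  let w : ℝ → ℂ := fun x => if x = ⌊x⌋₊ then u ⌊x⌋₊ else υ ⌊x⌋₊ x
  have w1 : ∀ j : ℕ, ∀ x ∈ Ioo (j : ℝ) (j + 1), w x = υ j x := fun j x hx => by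
    have : ⌊x⌋₊ = j := (Nat.floor_eq_iff (j.cast_nonneg.trans hx.1.le)).2 ⟨hx.1.le, hx.2⟩
    simp only [w, this, if_neg hx.1.ne']
  have w2 : ∀ x ∈ Icc (0 : ℝ) N, (∀ l : ℕ, x ≠ l) → ∃ j < N, x ∈ Ioo (j : ℝ) (j + 1) :=
    fun x hx h => ⟨⌊x⌋₊, (Nat.floor_lt hx.1).2 (hx.2.lt_of_ne (h N)),
      (Nat.floor_le hx.1).lt_of_ne (h _).symm, Nat.lt_floor_add_one x⟩
  refine ⟨w, fun x hx => ⟨fun h => ?_, fun j hj h => ?_⟩⟩
  · obtain ⟨j, hj, h1⟩ := w2 x hx h
    have h2 := isOpen_Ioo.mem_nhds h1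
    exact ⟨((v1 j hj).continuousAt h2).congr (mem_of_superset h2 fun y hy => (w1 j y hy).symm),
      mem_of_superset h2 fun y hy => by rw [mem_ofPred, w1 j y hy]; exact (v2 j hj y hy).1⟩
  by_cases h0 : ∀ l : ℕ, x ≠ l
  · obtain ⟨l, hl, h1⟩ := w2 x hx h0
    rw [w1 l x h1, (v2 l hl x h1).2 (fun r => φ j ((x - j) * rt (e j) (1 + r * (β j x - 1))))
      ((hD j hj).hol.continuousOn.comp (fun r hr => ContinuousAt.continuousWithinAt
        (continuousAt_const.mul ((rt_an _ (key x hx j hj h r hr).1).continuousAt.comp_of_eq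
          (Continuous.continuousAt (by fun_prop)) rfl))) fun r hr => (key x hx j hj h r hr).2.1)
      (by simp [rt_one, ((H x hx).2.2.2 j hj h).1]) fun r hr => (mem x hx j hj h (h0 j) r hr).2]
    simp
  obtain ⟨l, rfl⟩ : ∃ l : ℕ, x = l := by simpa using h0
  obtain rfl : l = j := by
    obtain ⟨h1, h2⟩ := abs_le.1 h
    have h3 : l < j + 1 := by exact_mod_cast (show (l : ℝ) < j + 1 by linarith)
    have h4 : j < l + 1 := by exact_mod_cast (show (j : ℝ) < l + 1 by linarith)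
    omega
  simp [w, (hD l hj).zero]

end Pool.Agent.P.MP_ab0431_ag.UB

namespace Pool.Agent.P.MP_ab0431_ag.UB

open Polynomial Set Filter Topology Metric
open Pool.Agent.P.MP_ab0431_ag.UB.Cc

theorem crea_ball {x y r : ℝ} : (y : ℂ) ∈ ball (x : ℂ) r ↔ |y - x| < r := by
  rw [mem_ball, Complex.dist_of_im_eq (by simp), Real.dist_eq, Complex.ofReal_re, Complex.ofReal_re]

theorem crea_eq {ψ ψ' : ℂ → ℂ} {x x' r r' : ℝ} (h : x < x') (r0 : 0 < r) (r0' : 0 < r')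
    (h1 : AnalyticOnNhd ℂ ψ (ball x r)) (h2 : AnalyticOnNhd ℂ ψ' (ball x' r'))
    (he : ∀ y : ℝ, x ≤ y → y ≤ x' → |y - x| < r → |y - x'| < r' → ψ y = ψ' y) :
    EqOn ψ ψ' (ball x r ∩ ball x' r') := by
  intro w hw
  have d : x' - x < r + r' := by
    have := dist_triangle_left (x' : ℂ) x w
    rw [Complex.dist_of_im_eq (z := x') (by simp), Real.dist_eq, Complex.ofReal_re,
      Complex.ofReal_re] at this
    linarith [le_abs_self (x' - x), mem_ball.1 hw.1, mem_ball.1 hw.2]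
  obtain ⟨y, hy⟩ : (Ioo (max x (x' - r')) (min x' (x + r))).Nonempty :=
    nonempty_Ioo.2 (max_lt (lt_min h (by linarith)) (lt_min (by linarith) (by linarith)))
  have k : ∀ y ∈ Ioo (max x (x' - r')) (min x' (x + r)),
      x ≤ y ∧ y ≤ x' ∧ |y - x| < r ∧ |y - x'| < r' := fun y hy => by
    obtain ⟨a, b⟩ := max_lt_iff.1 hy.1
    obtain ⟨c, e⟩ := lt_min_iff.1 hy.2
    exact ⟨a.le, c.le, abs_lt.2 ⟨by linarith, by linarith⟩, abs_lt.2 ⟨by linarith, by linarith⟩⟩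
  have t : Tendsto (fun y : ℝ => (y : ℂ)) (𝓝[≠] y) (𝓝[≠] (y : ℂ)) :=
    tendsto_nhdsWithin_iff.2 ⟨Complex.continuous_ofReal.continuousAt.mono_left nhdsWithin_le_nhds,
      eventually_mem_nhdsWithin.mono fun s hs e => hs (Complex.ofReal_injective e)⟩
  refine AnalyticOnNhd.eqOn_of_preconnected_of_frequently_eq (𝕜 := ℂ) (h1.mono inter_subset_left)
    (h2.mono inter_subset_right) ((convex_ball _ _).inter (convex_ball _ _)).isPreconnected
    (z₀ := y) ⟨crea_ball.2 (k y hy).2.2.1, crea_ball.2 (k y hy).2.2.2⟩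
    (t.frequently (Eventually.frequently ?_)) hw
  filter_upwards [nhdsWithin_le_nhds (isOpen_Ioo.mem_nhds hy)] with s hs
  obtain ⟨a, b, c, e⟩ := k s hs
  exact he s a b c e

theorem p_CREA :
    S_CREA := by
  intro a b υ P h
  have h1 : ∀ x ∈ Icc a b, ∃ (ψ : ℂ → ℂ) (r : ℝ), 0 < r ∧ AnalyticOnNhd ℂ ψ (ball x r) ∧
      (∀ y ∈ Icc a b, |y - x| < r → ψ y = υ y) ∧ ∀ w ∈ ball (x : ℂ) r, P w (ψ w) := by
    intro x hx
    obtain ⟨ψ, c1, c2, c3⟩ := h x hx
    obtain ⟨r, r0, hr⟩ := Metric.eventually_nhds_iff_ball.1 (c1.eventually_analyticAt.and c3)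
    obtain ⟨s, s0, hs⟩ := Metric.eventually_nhds_iff_ball.1 (eventually_nhdsWithin_iff.1 c2)
    exact ⟨ψ, min r s, lt_min r0 s0, fun w hw => (hr w (ball_subset_ball (min_le_left _ _) hw)).1,
      fun y hy e => hs y (e.trans_le (min_le_right _ _)) hy,
      fun w hw => (hr w (ball_subset_ball (min_le_left _ _) hw)).2⟩
  choose! ψ r r0 h2 h3 h4 using h1
  have h5 : ∀ x ∈ Icc a b, ∀ x' ∈ Icc a b, x < x' →
      EqOn (ψ x) (ψ x') (ball x (r x) ∩ ball x' (r x')) := fun x hx x' hx' e =>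
    crea_eq e (r0 x hx) (r0 x' hx') (h2 x hx) (h2 x' hx') fun y y1 y2 y3 y4 =>
      (h3 x hx y ⟨hx.1.trans y1, y2.trans hx'.2⟩ y3).trans
        (h3 x' hx' y ⟨hx.1.trans y1, y2.trans hx'.2⟩ y4).symm
  have h6 : ∀ w : ℂ, ∃ v, ∀ x ∈ Icc a b, w ∈ ball (x : ℂ) (r x) → v = ψ x w := fun w => by
    by_cases e : ∃ x ∈ Icc a b, w ∈ ball (x : ℂ) (r x)
    · obtain ⟨x, hx, e⟩ := e
      refine ⟨ψ x w, fun x' hx' e' => ?_⟩
      rcases lt_trichotomy x x' with l | rfl | l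
      exacts [h5 x hx x' hx' l ⟨e, e'⟩, rfl, (h5 x' hx' x hx l ⟨e', e⟩).symm]
    · exact ⟨0, fun x hx e' => absurd ⟨x, hx, e'⟩ e⟩
  choose φ hφ using h6
  refine ⟨⋃ x ∈ Icc a b, ball (x : ℂ) (r x), φ, isOpen_biUnion fun _ _ => isOpen_ball,
    fun w hw => ?_, fun x hx => ?_, fun w hw => ?_⟩
  · obtain ⟨x, hx, e⟩ := mem_iUnion₂.1 hw
    exact ((h2 x hx w e).differentiableAt.congr_of_eventuallyEq (Eventually.mono
      (isOpen_ball.mem_nhds e) fun w' => hφ w' x hx)).differentiableWithinAt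
  · have := mem_ball_self (x := (x : ℂ)) (r0 x hx)
    exact ⟨mem_biUnion hx this, (hφ _ x hx this).trans (h3 x hx x hx (by simpa using r0 x hx))⟩
  · obtain ⟨x, hx, e⟩ := mem_iUnion₂.1 hw
    exact hφ w x hx e ▸ h4 x hx w e

end Pool.Agent.P.MP_ab0431_ag.UB

namespace Pool.Agent.P.MP_ab0431_ag.UB

open Polynomial Set Filter Topology Metric
open Pool.Agent.P.MP_ab0431_ag.UB.Cc

theorem p_CST (hCPATH : S_CPATH) (hCAPX : S_CAPX) (hCGAP : S_CGAP) (hCHLF : S_CHLF) (hCREA : S_CREA) (hCLOC : S_CLOC) :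
    S_CST := by
  intro G Z N η a u e φ hG η0 η1 hD hJ
  have b1 : ∀ x ∈ Icc (-η) η, (x : ℂ) ∈ ball (0 : ℂ) (2 * η) := fun x hx => by
    rw [mem_ball_zero_iff, Complex.norm_real, Real.norm_eq_abs]
    linarith [abs_le.2 hx]
  obtain ⟨Γ, c1, c2⟩ := hCPATH N η (Gm G Z) (fun j x => (a j + (x : ℂ) ^ e j, φ j x)) η0 η1
    (fun j hj => ⟨(Continuous.continuousOn (by fun_prop)).prodMk ((hD j hj).hol.continuousOn.comp
      Complex.continuous_ofReal.continuousOn b1),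
      fun x hx h0 => (hD j hj).mem _ (b1 x hx) (Complex.ofReal_ne_zero.2 h0)⟩)
    fun j hj => by simpa only [Complex.ofReal_neg] using hJ j hj
  simp only [Complex.ofReal_sub, Complex.ofReal_natCast] at c2
  obtain ⟨ε, ε0, g1⟩ := hCGAP N η Z (fun x => (Γ x).1) η0 hG.fin c1.fst
    fun x hx h => ((c2 x hx).2 h).1
  obtain ⟨τ, β, t1, t2⟩ := hCAPX N η (min ε (1 / 2)) a e (fun x => (Γ x).1) η0 η1
    (lt_min ε0 one_half_pos) c1.fst fun x hx j hj h => congrArg Prod.fst ((c2 x hx).1 j hj h)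
  have t3 : ∀ j ≤ N, ∀ w : ℂ, τ.eval w = a j + (w - j) ^ e j * (β j).eval w := fun j hj w => by
    rw [t1 j hj]; simp
  have tc : Continuous fun x : ℝ => τ.eval (x : ℂ) := τ.continuous.comp Complex.continuous_ofReal
  obtain ⟨υ, v1⟩ := hCHLF G Z N η ε a u e φ Γ (fun x => τ.eval (x : ℂ))
    (fun j x => (β j).eval (x : ℂ)) hG η0 η1 hD c1 tc.continuousOn fun x hx =>
    ⟨(c2 x hx).2, (t2 x hx).1.trans_le (min_le_left _ _), g1 x hx, fun j hj h =>
      ⟨(c2 x hx).1 j hj h, t3 j hj x, ((t2 x hx).2 j hj h).trans_le (min_le_right _ _)⟩⟩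
  have jm : ∀ j ≤ N, (j : ℝ) ∈ Icc (0 : ℝ) N ∧ |(j : ℝ) - j| ≤ η := fun j hj =>
    ⟨⟨j.cast_nonneg, Nat.cast_le.2 hj⟩, by simpa using η0.le⟩
  obtain ⟨U, ψ, u1, u2, u3, u4⟩ := hCREA 0 N υ
    (fun w z => (∀ j ≤ N, w ≠ j) → (τ.eval w, z) ∈ Gm G Z) fun x hx => by
      by_cases h : ∀ j : ℕ, x ≠ j
      · obtain ⟨a1, a2⟩ := (v1 x hx).1 h
        have a3 := a2.self_of_nhds
        obtain ⟨κ, k1, k2, k3⟩ := hCLOC G _ _ a3.2 (hG.sep _ a3.1 _ a3.2)
        refine ⟨fun w => κ (τ.eval w), k1.comp_of_eq (τ.differentiable.analyticAt _) rfl,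
          nhdsWithin_le_nhds ?_, ?_⟩
        · filter_upwards [(tc.continuousAt.prodMk a1).eventually k3, a2] with x' h1 h2
          exact h1 h2.2
        · filter_upwards [τ.continuousAt.eventually k2,
            τ.continuousAt.eventually (hG.fin.isClosed.isOpen_compl.mem_nhds a3.1)] with w h1 h2 _
          exact ⟨h2, h1⟩
      obtain ⟨j, rfl⟩ : ∃ j : ℕ, x = j := by simpa using h
      have hj : j ≤ N := Nat.cast_le.1 hx.2
      have a1 := ((t2 _ hx).2 j hj (jm j hj).2).trans_le (min_le_right _ _)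
      have a2 : AnalyticAt ℂ (fun w => (w - j) * rt (e j) ((β j).eval w)) ((j : ℝ) : ℂ) :=
        (analyticAt_id.sub analyticAt_const).mul
          ((rt_an _ a1).comp_of_eq ((β j).differentiable.analyticAt _) rfl)
      have a3 : (((j : ℝ) : ℂ) - j) * rt (e j) ((β j).eval ((j : ℝ) : ℂ)) ∈
          ball (0 : ℂ) (2 * η) := by simpa using η0
      refine ⟨fun w => φ j ((w - j) * rt (e j) ((β j).eval w)),
        ((hD j hj).hol.analyticAt (isOpen_ball.mem_nhds a3)).comp_of_eq a2 rfl, ?_, ?_⟩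
      · filter_upwards [self_mem_nhdsWithin,
          nhdsWithin_le_nhds (closedBall_mem_nhds (j : ℝ) η0)] with x' h1 h2
        exact ((v1 x' h1).2 j hj h2).symm
      · filter_upwards [a2.continuousAt.eventually (isOpen_ball.mem_nhds a3),
          (show ContinuousAt (fun w => ‖(β j).eval w - 1‖) _ from
            ((β j).continuousAt.sub continuousAt_const).norm).eventually_lt_const a1] with w h1 h2 h3
        have := (hD j hj).mem _ h1 (mul_ne_zero (sub_ne_zero.2 (h3 j hj)) (rt_ne (hD j hj).one h2))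
        rwa [mul_pow, rt_pow (hD j hj).one, ← t3 j hj] at this
  refine ⟨U, τ, ψ, u1, fun x hx => (u3 x hx).1, u2, fun j hj => ⟨?_, ?_⟩, u4⟩
  · rw [t3 j hj, sub_self, zero_pow (Nat.one_le_iff_ne_zero.1 (hD j hj).one), zero_mul, add_zero]
  · have := (u3 j (jm j hj).1).2.trans ((v1 j (jm j hj).1).2 j hj (jm j hj).2)
    simpa [(hD j hj).zero] using this

end Pool.Agent.P.MP_ab0431_ag.UB

namespace Pool.Agent.P.MP_ab0431_ag.UB

open Polynomial Set Filter Topology Metric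
open Pool.Agent.P.MP_ab0431_ag.UB.Cc

theorem p_CPST (hCPUIS : S_CPUIS) (hCCMP : S_CCMP) (hCDJ : S_CDJ) (hCST : S_CST) :
    S_CPST := by
  intro G Z ι _ a u N hG hu hN
  choose e ε φ hD using fun i => hCPUIS G Z (a i) (u i) hG (hu i)
  have h1 : ∀ᶠ η in 𝓝[>] (0 : ℝ), 0 < η ∧ η < 1 / 2 ∧ ∀ i, η < ε i / 2 :=
    Eventually.and eventually_mem_nhdsWithin
      (Eventually.filter_mono nhdsWithin_le_nhds ((gt_mem_nhds (by norm_num)).and
        (eventually_all.2 fun i => gt_mem_nhds (half_pos (hD i).pos))))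
  obtain ⟨η, h0, h2, h3⟩ := h1.exists
  have hD' : ∀ i, Dsc G Z (a i) (u i) (e i) (2 * η) (φ i) := fun i =>
    (hD i).mono (by positivity) (by linarith [h3 i])
  have b1 : (η : ℂ) ∈ ball (0 : ℂ) (2 * η) := by
    rw [mem_ball_zero_iff, Complex.norm_real, Real.norm_of_nonneg h0.le]; linarith
  have b2 : (-η : ℂ) ∈ ball (0 : ℂ) (2 * η) := by
    rw [mem_ball_zero_iff, norm_neg]; exact mem_ball_zero_iff.1 b1
  have n1 : (η : ℂ) ≠ 0 := Complex.ofReal_ne_zero.2 h0.ne'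
  obtain ⟨f, hf, hj⟩ := hCCMP G Z ι (fun i => (a i + (η : ℂ) ^ e i, φ i η)) N hG
    (fun i => (hD' i).mem _ b1 n1) hN
  let g : ℕ → ι := fun j => f (Fin.ofNat (N + 1) j)
  have hg : ∀ j : Fin (N + 1), g j = f j := fun j => congrArg f (Fin.ofNat_val_eq_self j)
  obtain ⟨U, τ, υ, k1, k2, k3, k4, k5⟩ := hCST G Z N η (a ∘ g) (u ∘ g) (e ∘ g) (φ ∘ g) hG h0 h2
    (fun j _ => hD' _) fun j _ => (hj _ _).trans
      (hCDJ G Z _ _ _ _ _ (hD' (g (j + 1))) _ b1 _ b2 n1 (neg_ne_zero.2 n1))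
  refine ⟨f, U, τ, υ, hf, k1, k2, k3, fun j => ?_, fun w hw h => k5 w hw fun j hj' =>
    h ⟨j, Nat.lt_succ_of_le hj'⟩⟩
  rw [← hg j]
  exact k4 j (Nat.le_of_lt_succ j.2)

end Pool.Agent.P.MP_ab0431_ag.UB

namespace Pool.Agent.P.MP_ab0431_ag.UB

open Polynomial Set Filter Topology Metric
open Pool.Agent.P.MP_ab0431_ag.UB.Cc

theorem p_CREM (hCBND : S_CBND) (hCFIB : S_CFIB) :
    S_CREM := by
  intro σ _ q d y u s w₀ c₀ hN hc hi h1 h2 h3 h4
  have hb : ∀ i, ∃ M, ∀ᶠ w in 𝓝[≠] w₀, ‖s w i‖ ≤ M := fun i => by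
    obtain ⟨g, g1, g2⟩ := (hCFIB σ q d y hN).1 i
    refine hCBND ℂ _ g.natDegree (fun w => g.map (ev (yv y (s w)))) (fun w => s w i)
      (h1.mono fun w hw => ⟨g1.map _, g1.natDegree_map _, g2 _ hw.2⟩) fun j => ?_
    simp only [coeff_map]
    exact ⟨_, ((MvPolynomial.continuous_eval (g.coeff j)).tendsto _).comp h2⟩
  choose M hM using hb
  have hd := h1.mono fun _ h => h.1
  have hL := Complex.tendsto_limUnder_of_differentiable_on_punctured_nhds_of_bounded_under hd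
    ⟨‖M‖ + ‖s w₀‖, eventually_map.2 ((eventually_all.2 hM).mono fun w hw =>
      (norm_sub_le _ _).trans (add_le_add_left ((pi_norm_le_iff_of_nonneg (norm_nonneg _)).2
        fun i => (hw i).trans ((le_abs_self _).trans (norm_le_pi_norm M i))) _))⟩
  rw [hi ⟨(V_closed q).mem_of_tendsto hL (h1.mono fun _ h => h.2),
    tendsto_nhds_unique (((yv_cont y).tendsto _).comp hL) h2⟩ ⟨hc, rfl⟩
    (tendsto_nhds_unique (((MvPolynomial.continuous_eval u).tendsto _).comp hL) h3), ← h4] at hL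
  exact (Complex.analyticAt_of_differentiable_on_punctured_nhds_of_continuousAt hd
    (continuousAt_iff_punctured_nhds.2 hL)).differentiableAt

end Pool.Agent.P.MP_ab0431_ag.UB

namespace Pool.Agent.P.MP_ab0431_ag.UB

open Polynomial Set Filter Topology Metric
open Pool.Agent.P.MP_ab0431_ag.UB.Cc

theorem ccurv_ev {d : ℕ} (s : Fin d → ℂ[X]) (t : ℂ) (p : MP (Fin d)) :
    (MvPolynomial.aeval s p : ℂ[X]).eval t = ev (fun l => (s l).eval t) p :=
  MvPolynomial.comp_aeval_apply s (aeval t : ℂ[X] →ₐ[ℂ] ℂ) p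

theorem ccurv_map {d : ℕ} (s : Fin d → ℂ[X]) (t : ℂ) (g : (MP (Fin d))[X]) :
    (g.map (MvPolynomial.aeval s : MP (Fin d) →ₐ[ℂ] ℂ[X]).toRingHom).map (evalRingHom t) =
      g.map (ev fun l => (s l).eval t) := by
  rw [Polynomial.map_map]
  congr 1
  exact RingHom.ext (ccurv_ev s t)

theorem p_CCURV (hCPAR : S_CPAR) (hCFIB : S_CFIB) (hCSIG : S_CSIG) (hCPST : S_CPST) (hCREM : S_CREM) :
    S_CCURV := by
  intro σ _ q ρ N h ι _ c ⟨hq, d, y, hz, hr⟩ hh hc hN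
  classical
  obtain ⟨u, g, δ, r, P, g1, g2⟩ := hCPAR σ q d y h (⋃ i, {c' ∈ V q | yv y c' = yv y (c i)}) hq hz hh
    (finite_iUnion fun i => (hCFIB σ q d y hz).2 _)
  obtain ⟨a, s, s1, s2⟩ := hCSIG ι d (fun i => yv y (c i)) δ P.ne
  let φ := (MvPolynomial.aeval s : MP (Fin d) →ₐ[ℂ] ℂ[X]).toRingHom
  let S : ℂ → Fin d → ℂ := fun t l => (s l).eval t
  have e1 : ∀ (p : (MP (Fin d))[X]) t z, (p.map φ).evalEval t z = (p.map (ev (S t))).eval z :=
    fun p t z => by rw [evalEval_eq, ccurv_map]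
  have e2 : ∀ i, S (a i) = yv y (c i) := fun i => funext (s1 i)
  obtain ⟨f, U, τ, υ, f1, f2, f3, f4, f5, f6⟩ := hCPST (g.map φ) {t | ev (S t) δ = 0} ι a
    (fun i => ev (c i) u) N ⟨P.monic.map _, s2, fun t ht z hz => by
      rw [derivative_map, e1, ← derivative_map]
      exact (P.pt _ _ ht (e1 g t z ▸ hz)).1⟩
    (fun i => by rw [e1, e2]; exact P.root _ (hc i))
    ((Nat.mul_le_mul_right _ (natDegree_map_le.trans (g1.trans hr))).trans_lt hN)
  let s₀ : ℂ → σ → ℂ := fun w l =>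
    ((r l).map φ).evalEval (τ.eval w) (υ w) / (φ δ).eval (τ.eval w)
  let s' : ℂ → σ → ℂ := fun w => if hw : ∃ j : Fin (N + 1), w = j then c (f hw.choose) else s₀ w
  have k1 : ∀ j : Fin (N + 1), s' j = c (f j) := fun j => by
    have hw : ∃ j' : Fin (N + 1), (j : ℂ) = j' := ⟨j, rfl⟩
    rw [show s' j = c (f hw.choose) from dif_pos hw,
      ← Fin.ext (Nat.cast_injective (R := ℂ) hw.choose_spec)]
  have k2 : ∀ w : ℂ, (∀ j : Fin (N + 1), w ≠ j) → s' w = s₀ w := fun w hw =>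
    dif_neg fun h => hw _ h.choose_spec
  have k3 : ∀ w ∈ U, (∀ j : Fin (N + 1), w ≠ j) → s' w ∈ V q ∧ yv y (s' w) = S (τ.eval w) ∧
      ev (s' w) u = υ w ∧ ev (s' w) h ≠ 0 := fun w hw hw' => by
    obtain ⟨c', h1, h2, h3, h4, h5⟩ := (P.pt _ _ (f6 w hw hw').1 (e1 g _ _ ▸ (f6 w hw hw').2)).2
    rw [k2 w hw', show s₀ w = c' from funext fun l => by
      rw [h5, ← e1, ← ccurv_ev]; rfl]
    exact ⟨h1, h2, h3, h4⟩
  have k4 : ∀ w : ℂ, ∀ᶠ w' in 𝓝[≠] w, ∀ j : Fin (N + 1), w' ≠ (j : ℂ) := fun w =>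
    eventually_all.2 fun j => by
      rcases eq_or_ne w j with rfl | h
      · exact self_mem_nhdsWithin
      · exact nhdsWithin_le_nhds (eventually_ne_nhds h)
  have k5 : ∀ w ∈ U, (∀ j : Fin (N + 1), w ≠ j) → DifferentiableAt ℂ s' w := fun w hw hw' => by
    refine DifferentiableAt.congr_of_eventuallyEq (f := s₀) (differentiableAt_pi.2 fun l => ?_)
      ((eventually_all.2 fun j => eventually_ne_nhds (hw' j)).mono k2)
    refine ((evalEval_diff _ _).comp w (τ.differentiableAt.prodMk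
      (f4.differentiableAt (f2.mem_nhds hw)))).div
      ((φ δ).differentiableAt.comp w τ.differentiableAt) ?_
    exact (ccurv_ev s _ δ).trans_ne (f6 w hw hw').1
  refine ⟨f, U, s', f1, f2, f3, fun w hw => DifferentiableAt.differentiableWithinAt ?_, k1,
    fun w hw hw' => ⟨(k3 w hw hw').1, (k3 w hw hw').2.2.2⟩⟩
  by_cases hw' : ∀ j : Fin (N + 1), w ≠ j
  · exact k5 w hw hw'
  obtain ⟨j, rfl⟩ : ∃ j : Fin (N + 1), w = j := by simpa using hw'
  have k6 := (k4 (j : ℂ)).and (nhdsWithin_le_nhds (f2.mem_nhds hw))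
  refine hCREM σ q d y u s' j (c (f j)) hz (hc _)
    (g2.mono (subset_iUnion (fun i => {c' ∈ V q | yv y c' = yv y (c i)}) _))
    (k6.mono fun w h => ⟨k5 w h.2 h.1, (k3 w h.2 h.1).1⟩) ?_ ?_ (k1 j)
  · refine Tendsto.congr' (k6.mono fun w h => (k3 w h.2 h.1).2.1.symm) ?_
    rw [← e2, ← (f5 j).1]
    exact (continuous_pi fun l => (s l).continuous.comp τ.continuous).continuousAt.tendsto.mono_left
      nhdsWithin_le_nhds
  · refine Tendsto.congr' (k6.mono fun w h => (k3 w h.2 h.1).2.2.1.symm) ?_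
    rw [← (f5 j).2]
    exact (f4.continuousOn.continuousAt (f2.mem_nhds hw)).tendsto.mono_left nhdsWithin_le_nhds

end Pool.Agent.P.MP_ab0431_ag.UB

namespace Pool.Agent.P.MP_ab0431_ag.UB

open Polynomial Set Filter Topology

theorem p_CMAIN (hCBEZ : S_CBEZ) (hCEQS : S_CEQS) (hCOPEN : S_COPEN) (hCCURV : S_CCURV) (hTOP : S_TOP) :
    S_CMAIN := by
  intro b m n Γ nn N I ι _ c hI hp hg hc
  classical
  have hb : ∀ i, nn ≤ b * (b - 1) := fun i => by
    rw [← (hg i).2]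
    refine (Multiset.toFinset_card_le _).trans ((card_roots' _).trans ?_)
    have := (hTOP ℂ b 1 _ (toP_monic (c i)) (toP_natDegree _) (hg i).1.1).1
    rw [one_mul] at this
    exact natDegree_le_iff_coeff_eq_zero.2 this
  obtain ⟨i₁⟩ := Fintype.card_pos_iff.1 (Nat.zero_lt_of_lt hc)
  obtain ⟨E, e1, e2, e3⟩ := hCEQS b m nn (hb i₁)
  obtain ⟨κ, _, q, ρ, h1, h2, h3⟩ := hCBEZ _ E I _ n Γ (Nat.succ_le_of_lt (by positivity)) e1 hI
  choose k hk using fun i => h3 (c i) (hp i) (e2 _ (hg i).1 (hg i).2)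
  obtain ⟨j, hj⟩ : ∃ j, ρ j * N < Fintype.card {i // k i = j} := by
    by_contra! h
    refine hc.not_ge ?_
    rw [← Fintype.card_congr (Equiv.sigmaFiberEquiv k), Fintype.card_sigma]
    refine (Finset.sum_le_sum fun j _ => h j).trans ?_
    rw [← Finset.sum_mul, mul_right_comm 64 n]
    exact Nat.mul_le_mul_right _ h1
  obtain ⟨i₀⟩ := Fintype.card_pos_iff.1 (Nat.zero_lt_of_lt hj)
  obtain ⟨h, g1, g2⟩ := hCOPEN b m _ (hg i₀).1
  have hv : ∀ i : {i // k i = j}, c i ∈ Cc.V (q j) := fun i => by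
    have := hk i
    rwa [i.2] at this
  obtain ⟨f, U, s, f1, f2, f3, f4, f5, f6⟩ := hCCURV _ (q j) (ρ j) N h _ (fun i => c i.1) (h2 j).1
    (fun hh => g1 (hv i₀ h hh)) hv hj
  refine ⟨fun l => f l, U, s, Subtype.val_injective.comp f1,
    ⟨f2, fun x a a' => f3 x ⟨a, a'⟩, f4, fun w hw => ?_⟩, f5⟩
  by_cases hw' : ∃ l : Fin (N + 1), w = l
  · obtain ⟨l, rfl⟩ := hw'
    rw [f5]
    exact hg _
  obtain ⟨a1, a2⟩ := f6 w hw fun l hl => hw' ⟨l, hl⟩
  obtain ⟨a3, a4⟩ := e3 _ fun p hp => a1 p ((h2 j).2 p hp)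
  obtain ⟨a5, a6⟩ := g2 _ a3 a2
  exact ⟨a5, (a4 fun h0 => a5.2.1 (by rw [h0, coeff_zero])).antisymm ((hg i₀).2 ▸ a6)⟩

end Pool.Agent.P.MP_ab0431_ag.UB
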