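import Pool.Agent.P.MP_ab0431_ag.UB.IfaceD2
import Pool.Agent.P.MP_ab0431_ag.UB.IfaceO
import Pool.Agent.P.MP_ab0431_ag.UB.IfaceT
import Pool.Agent.P.MP_ab0431_ag.UB.IfaceA

/-! Steps COORD RIEM DIVA MINM AFORM IFT1 ROOTK MORSE TRIV0 ROOT1 TRD0 TRA. -/

set_option autoImplicit false
set_option linter.unusedSectionVars false
set_option linter.unusedVariables false

namespace Pool.Agent.P.MP_ab0431_ag.UB

open Polynomial Set Filter Topology

namespace COORDa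

theorem inv {E : Type} [NormedAddCommGroup E] [NormedSpace ℂ E] [FiniteDimensional ℂ E]
    {Φ : E → E} {p : E} {N : Set E} (ha : AnalyticAt ℂ Φ p)
    (hi : Function.Injective (fderiv ℂ Φ p)) (hN : N ∈ 𝓝 p) :
    ∃ Ψ : OpenPartialHomeomorph E E, p ∈ Ψ.source ∧ Ψ.source ⊆ N ∧ (Ψ : E → E) = Φ ∧
      DifferentiableOn ℂ Ψ Ψ.source ∧ DifferentiableOn ℂ Ψ.symm Ψ.target := by
  have : CompleteSpace E := FiniteDimensional.complete ℂ E
  let L : E ≃L[ℂ] E :=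
    (LinearEquiv.ofInjectiveEndo (fderiv ℂ Φ p).toLinearMap hi).toContinuousLinearEquiv
  have hd : HasFDerivAt Φ (L : E →L[ℂ] E) p := by
    convert ha.differentiableAt.hasFDerivAt using 1
    ext; rfl
  have hc : ContDiffAt ℂ 1 Φ p := ha.contDiffAt
  let e := hc.toOpenPartialHomeomorph Φ hd one_ne_zero
  have he : p ∈ e.source := hc.mem_toOpenPartialHomeomorph_source hd one_ne_zero
  have h1 : ContDiffAt ℂ 1 e.symm (Φ p) := hc.to_localInverse hd one_ne_zero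
  have h2 : ∀ᶠ y in 𝓝 p, DifferentiableAt ℂ e.symm (Φ y) :=
    ha.continuousAt.eventually
      ((h1.eventually (by simp)).mono fun _ h => h.differentiableAt one_ne_zero)
  obtain ⟨U, hU, ho, hp⟩ := mem_nhds_iff.1 (inter_mem hN (h2.and ha.eventually_analyticAt))
  refine ⟨e.restrOpen U ho, ⟨he, hp⟩, fun y hy => (hU hy.2).1, rfl,
    fun y hy => (hU hy.2).2.2.differentiableAt.differentiableWithinAt, fun y hy => ?_⟩
  have h3 : Φ (e.symm y) = y := e.right_inv hy.1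
  have h4 := (hU (show e.symm y ∈ U from hy.2)).2.1
  rw [h3] at h4
  exact h4.differentiableWithinAt

end COORDa

theorem p_COORD :
    S_COORD := by
  intro α β p N ha hb da db hN
  let X : Fin 2 → (C2 × ℂ →L[ℂ] ℂ) := fun i =>
    (ContinuousLinearMap.proj i).comp (ContinuousLinearMap.fst ℂ C2 ℂ)
  let T := ContinuousLinearMap.snd ℂ C2 ℂ
  let A := (X 0).prod T
  let B := (X 1).prod A
  let f : Fin 2 → C2 × ℂ → ℂ := ![α ∘ A, β ∘ B]
  let D : Fin 2 → (C2 × ℂ →L[ℂ] ℂ) := ![(fderiv ℂ α (A p)).comp A, (fderiv ℂ β (B p)).comp B]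
  have h1 : ∀ i, AnalyticAt ℂ (f i) p := Fin.forall_fin_two.2
    ⟨AnalyticAt.comp (g := α) ha (A.analyticAt p), AnalyticAt.comp (g := β) hb (B.analyticAt p)⟩
  have h2 : ∀ i, HasFDerivAt (f i) (D i) p := Fin.forall_fin_two.2
    ⟨HasFDerivAt.comp (g := α) p ha.differentiableAt.hasFDerivAt A.hasFDerivAt,
      HasFDerivAt.comp (g := β) p hb.differentiableAt.hasFDerivAt B.hasFDerivAt⟩
  have h3 : HasFDerivAt (fun q : C2 × ℂ => ((fun i => f i q : C2), q.2))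
      ((ContinuousLinearMap.pi D).prod T) p := (hasFDerivAt_pi.2 h2).prodMk T.hasFDerivAt
  obtain ⟨Ψ, a1, a2, a3, a4, a5⟩ := COORDa.inv ((analyticAt_pi_iff.2 h1).prod analyticAt_snd)
    (by
      rw [h3.fderiv, injective_iff_map_eq_zero]
      rintro ⟨v, t⟩ h
      obtain rfl : t = 0 := congrArg Prod.snd h
      have e0 : fderiv ℂ α (A p) (v 0, 0) = 0 := congrFun (congrArg Prod.fst h) 0
      have e1 : fderiv ℂ β (B p) (v 1, v 0, 0) = 0 := congrFun (congrArg Prod.fst h) 1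
      rw [show ((v 0, 0) : ℂ × ℂ) = v 0 • (1, 0) by simp, map_smul, smul_eq_mul] at e0
      have z0 : v 0 = 0 := (mul_eq_zero.1 e0).resolve_right da
      rw [show ((v 1, v 0, 0) : ℂ × ℂ × ℂ) = v 1 • (1, 0) by simp [z0, Prod.ext_iff], map_smul,
        smul_eq_mul] at e1
      have z1 : v 1 = 0 := (mul_eq_zero.1 e1).resolve_right db
      exact Prod.ext (funext (Fin.forall_fin_two.2 ⟨z0, z1⟩)) rfl) hN
  refine ⟨Ψ, a1, a2, a4, a5, fun q _ => ?_⟩
  rw [a3]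
  exact Prod.ext (funext (Fin.forall_fin_two.2 ⟨rfl, rfl⟩)) rfl

end Pool.Agent.P.MP_ab0431_ag.UB

namespace Pool.Agent.P.MP_ab0431_ag.UB

open Polynomial Set Filter Topology

namespace RIEMa

open Metric MP_f17f76_ag.E
open scoped Nat

variable {E F : Type} [NormedAddCommGroup E] [NormedSpace ℂ E] [NormedAddCommGroup F]
  [NormedSpace ℂ F] [CompleteSpace F] {f : E → F} {c z : E} {R C : ℝ} {U : Set E}

theorem of_sq {G : Type} [NormedAddCommGroup G] [NormedSpace ℂ G] {h : E → G} {L : E →L[ℂ] G}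
    (hR : 0 < R) (hb : ∀ z ∈ ball c R, ‖h z - h c - L (z - c)‖ ≤ C * (‖z - c‖ / R) ^ 2) :
    DifferentiableAt ℂ h c := by
  refine HasFDerivAt.differentiableAt (f' := L) (.of_isLittleO
    (Asymptotics.IsBigO.trans_isLittleO (g := fun z => ‖z - c‖ ^ 2)
    (Asymptotics.IsBigO.of_bound (C / R ^ 2) ?_) (Asymptotics.isLittleO_pow_sub_sub c one_lt_two)))
  filter_upwards [ball_mem_nhds c hR] with z hz
  refine (hb z hz).trans_eq ?_
  rw [Real.norm_of_nonneg (by positivity)]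
  ring

theorem lim_unif {α : Type} {l : Filter α} [l.NeBot] {g : α → E → F} {η : α → ℝ} (hR : 0 < R)
    (hη : Tendsto η l (𝓝 0)) (hf : ∀ z ∈ ball c R, ‖f z‖ ≤ C)
    (hg : ∀ᶠ n in l, DifferentiableOn ℂ (g n) (ball c R) ∧ ∀ z ∈ ball c R, ‖g n z - f z‖ ≤ η n) :
    DifferentiableAt ℂ f c := by
  have h : ∀ z ∈ ball c R, Tendsto (g · z) l (𝓝 (f z)) := fun z hz =>
    tendsto_iff_norm_sub_tendsto_zero.2
      (squeeze_zero' (.of_forall fun _ => norm_nonneg _) (hg.mono fun n hn => hn.2 z hz) hη)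
  obtain ⟨L, hL⟩ : ∃ L, Tendsto (fun n => fderiv ℂ (g n) c) l (𝓝 L) := by
    refine CompleteSpace.complete (Metric.cauchy_iff.2 ⟨inferInstance, fun ε hε => ?_⟩)
    refine ⟨_, image_mem_map (hg.and (hη.eventually_lt_const
      (show 0 < ε * R / 5 by positivity))), ?_⟩
    rintro _ ⟨n, hn, rfl⟩ _ ⟨m, hm, rfl⟩
    have := norm_fderiv_le (C := 2 * (ε * R / 5)) (hn.1.1.sub hm.1.1) (fun y hy => by
      have := norm_sub_le (g n y - f y) (g m y - f y)
      rw [sub_sub_sub_cancel_right] at this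
      change ‖g n y - g m y‖ ≤ _
      linarith [hn.1.2 y hy, hm.1.2 y hy, hn.2, hm.2]) hR
    rw [fderiv_sub (hn.1.1.differentiableAt (ball_mem_nhds c hR))
      (hm.1.1.differentiableAt (ball_mem_nhds c hR))] at this
    rw [dist_eq_norm]
    refine this.trans_lt ?_
    rw [div_lt_iff₀ hR]
    nlinarith [mul_pos hε hR]
  refine of_sq (L := L) (C := 4 * (C + 1)) hR fun z hz => ?_
  refine le_of_tendsto (((h z hz).sub (h c (mem_ball_self hR))).sub
    (((ContinuousLinearMap.apply ℂ F (z - c)).continuous.tendsto L).comp hL)).norm ?_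
  filter_upwards [hg, hη.eventually_lt_const one_pos] with n hn hn1
  refine norm_second_le hn.1 (fun y hy => ?_) hz
  have := norm_add_le (g n y - f y) (f y)
  rw [sub_add_cancel] at this
  linarith [hn.2 y hy, hf y hy]

theorem diffAt_apply (hR : 0 < R) (hd : DifferentiableOn ℂ f (ball c (2 * R)))
    (hC : ∀ z ∈ ball c (2 * R), ‖f z‖ ≤ C) (v : E) :
    DifferentiableOn ℂ (fun x => fderiv ℂ f x v) (ball c R) ∧
      ∀ x ∈ ball c R, ‖fderiv ℂ f x v‖ ≤ 2 * C / R * ‖v‖ := by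
  have h3 : ∀ x ∈ ball c R, ball x R ⊆ ball c (2 * R) := fun x hx =>
    ball_subset_ball' (by linarith [mem_ball.1 hx])
  have hb : ∀ x ∈ ball c R, ‖fderiv ℂ f x v‖ ≤ 2 * C / R * ‖v‖ := fun x hx =>
    ((fderiv ℂ f x).le_opNorm v).trans (mul_le_mul_of_nonneg_right
      (norm_fderiv_le (hd.mono (h3 x hx)) (fun y hy => hC y (h3 x hx hy)) hR) (norm_nonneg _))
  refine ⟨fun y hy => (lim_unif (l := 𝓝[≠] (0 : ℂ))
    (g := fun t x => t⁻¹ • (f (x + t • v) - f x)) (η := fun t => 4 * C * (‖v‖ / R) ^ 2 * ‖t‖)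
    (sub_pos.2 (mem_ball_iff_norm.1 hy)) ?_ (fun x hx => hb x (ball_sub _ _ _ hx))
    ?_).differentiableWithinAt, hb⟩
  · exact tendsto_nhdsWithin_of_tendsto_nhds
      (Continuous.tendsto' (by fun_prop) _ _ (by simp))
  · have : ∀ᶠ t in 𝓝 (0 : ℂ), ‖t • v‖ < R :=
      (show ContinuousAt (fun t : ℂ => ‖t • v‖) 0 by fun_prop).eventually_lt_const (by simpa)
    filter_upwards [this.filter_mono nhdsWithin_le_nhds, self_mem_nhdsWithin] with t ht ht0
    have h4 : ∀ x, x + t • v ∈ ball x R := fun x => by simpa using ht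
    refine ⟨((hd.comp (by fun_prop) fun x hx => h3 x (ball_sub _ _ _ hx) (h4 x)).sub
      (hd.mono fun x hx => h3 x (ball_sub _ _ _ hx) (mem_ball_self hR))).const_smul _,
      fun x hx => ?_⟩
    have hx := ball_sub _ _ _ hx
    have := norm_second_le (hd.mono (h3 x hx)) (fun y hy => hC y (h3 x hx hy)) (h4 x)
    have ht0 : t ≠ 0 := ht0
    have h0 : 0 < ‖t‖ := norm_pos_iff.2 ht0
    rw [add_sub_cancel_left, map_smul, norm_smul] at this
    rw [← inv_smul_smul₀ ht0 (fderiv ℂ f x v), ← smul_sub, norm_smul, norm_inv, inv_mul_le_iff₀ h0]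
    exact this.trans_eq (by ring)

theorem diffOn_fderiv (hU : IsOpen U) (hd : DifferentiableOn ℂ f U) :
    DifferentiableOn ℂ (fderiv ℂ f) U := fun c hc => by
  obtain ⟨r, hr, C, h1, h2⟩ := exists_ball_bound hU hd.continuousOn hc
  have hR := half_pos hr
  rw [show r = 2 * (r / 2) by ring] at h1 h2
  generalize r / 2 = R at h1 h2 hR
  have key := diffAt_apply hR (hd.mono h1) h2
  have hd' := fun v => (key v).1.differentiableAt (ball_mem_nhds c hR)
  let B : E →ₗ[ℂ] E →ₗ[ℂ] F := LinearMap.mk₂ ℂ (fun u v => fderiv ℂ (fun x => fderiv ℂ f x v) c u)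
    (fun _ _ _ => map_add _ _ _) (fun _ _ _ => map_smul _ _ _)
    (fun u v w => by simp only [map_add]; rw [fderiv_fun_add (hd' v) (hd' w)]; rfl)
    (fun a u v => by simp only [map_smul]; rw [fderiv_fun_const_smul (hd' v)]; rfl)
  have hB : ∀ u v, ‖B u v‖ ≤ 2 * (2 * C / R) / R * ‖u‖ * ‖v‖ := fun u v =>
    (((fderiv ℂ (fun x => fderiv ℂ f x v) c).le_opNorm u).trans (mul_le_mul_of_nonneg_right
      (norm_fderiv_le (key v).1 (key v).2 hR) (norm_nonneg _))).trans_eq (by ring)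
  have h0 : 0 ≤ C := (norm_nonneg _).trans (h2 c (mem_ball_self (by positivity)))
  refine (of_sq (L := B.mkContinuous₂ _ hB) (C := 4 * (2 * C / R)) hR
    fun z hz => ?_).differentiableWithinAt
  refine ContinuousLinearMap.opNorm_le_bound _ (by positivity) fun v => ?_
  exact (norm_second_le (key v).1 (key v).2 hz).trans_eq (by ring)

theorem contDiffOn_of_diffOn (hU : IsOpen U) (n : ℕ) : ∀ {F : Type} [NormedAddCommGroup F]
    [NormedSpace ℂ F] [CompleteSpace F] {f : E → F},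
    DifferentiableOn ℂ f U → ContDiffOn ℂ n f U := by
  induction n with
  | zero => exact fun h => contDiffOn_zero.2 h.continuousOn
  | succ n ih =>
    exact fun h => (contDiffOn_succ_iff_fderiv_of_isOpen hU).2
      ⟨h, by simp, ih (diffOn_fderiv hU h)⟩

theorem norm_iter_le (k : ℕ) {δ : ℝ} (hδ : 0 < δ) : ∀ {F : Type} [NormedAddCommGroup F]
    [NormedSpace ℂ F] [CompleteSpace F] {f : E → F} {C : ℝ},
    DifferentiableOn ℂ f (ball c ((k + 1) * δ)) → (∀ z ∈ ball c ((k + 1) * δ), ‖f z‖ ≤ C) →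
    ‖iteratedFDeriv ℂ k f c‖ ≤ (2 / δ) ^ k * C := by
  induction k with
  | zero => exact fun _ h => by simpa using h c (mem_ball_self (by positivity))
  | succ k ih =>
    intro F _ _ _ f C hd hC
    have h1 : ∀ x ∈ ball c ((k + 1) * δ), ball x δ ⊆ ball c ((↑(k + 1) + 1) * δ) := fun x hx =>
      ball_subset_ball' (by push_cast; linarith [mem_ball.1 hx])
    rw [← norm_iteratedFDeriv_fderiv]
    refine (ih ((diffOn_fderiv isOpen_ball hd).mono fun x hx => h1 x hx (mem_ball_self hδ))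
      fun x hx => norm_fderiv_le (hd.mono (h1 x hx)) (fun y hy => hC y (h1 x hx hy)) hδ).trans_eq ?_
    ring

theorem norm_tser_le (hd : DifferentiableOn ℂ f (ball 0 R)) (hC : ∀ z ∈ ball 0 R, ‖f z‖ ≤ C)
    (hR : 0 < R) (k : ℕ) : ‖tser f k‖ ≤ 3 * C * (6 / R) ^ k := by
  have h0 : 0 ≤ C := (norm_nonneg _).trans (hC 0 (mem_ball_self hR))
  have e : ((k : ℝ) + 1) * (R / (k + 1)) = R := by field_simp
  have h1 := norm_iter_le (c := (0 : E)) (f := f) (C := C) k (δ := R / (k + 1)) (by positivity)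
    (by rwa [e]) (by rwa [e])
  have h2 := Real.pow_div_factorial_le_exp (x := k + 1) (by positivity) k
  have h3 : Real.exp (k + 1) ≤ 3 ^ (k + 1) := by
    rw [← Nat.cast_succ, ← mul_one ((k.succ : ℕ) : ℝ), Real.exp_nat_mul]
    exact pow_le_pow_left₀ (by positivity) (by linarith [Real.exp_one_lt_d9]) _
  rw [tser, norm_smul, norm_inv, Complex.norm_natCast]
  calc _ ≤ (k ! : ℝ)⁻¹ * ((2 / (R / (k + 1))) ^ k * C) := by gcongr
    _ = (k + 1) ^ k / k ! * (2 / R) ^ k * C := by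
      rw [show 2 / (R / (k + 1)) = (k + 1) * (2 / R) by field_simp, mul_pow]
      ring
    _ ≤ 3 ^ (k + 1) * (2 / R) ^ k * C := by gcongr; exact h2.trans h3
    _ = _ := by
      rw [show 6 / R = 3 * (2 / R) by ring, mul_pow]
      ring

theorem hasSum_tser (hd : DifferentiableOn ℂ f (ball 0 R)) (hz : ‖z‖ < R) :
    HasSum (fun k => tser f k fun _ => z) (f z) := by
  let L : ℂ →L[ℂ] E := ContinuousLinearMap.toSpanSingleton ℂ z
  have hL : ∀ t, L t = t • z := fun t => rfl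
  have ho : IsOpen (L ⁻¹' ball 0 R) := isOpen_ball.preimage L.continuous
  have hR : 0 < R := (norm_nonneg z).trans_lt hz
  obtain ⟨r, hr, h1⟩ : ∃ r > 1, r * ‖z‖ < R := by
    have : ∀ᶠ r in 𝓝[>] (1 : ℝ), r * ‖z‖ < R := eventually_nhdsWithin_of_eventually_nhds
      ((show ContinuousAt (fun r : ℝ => r * ‖z‖) 1 by fun_prop).eventually_lt_const (by simpa))
    exact (eventually_mem_nhdsWithin.and this).exists
  have h2 : ball 0 r ⊆ L ⁻¹' ball 0 R := fun t ht => by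
    rw [mem_preimage, mem_ball_zero_iff, hL, norm_smul]
    exact (mul_le_mul_of_nonneg_right (mem_ball_zero_iff.1 ht).le (norm_nonneg z)).trans_lt h1
  have := Complex.hasSum_taylorSeries_on_ball (f := f ∘ L) (c := 0) (z := 1) (r := r)
    (hd.comp L.differentiableOn fun t ht => h2 ht) (by simpa)
  have e : (f ∘ L) 1 = f z := by simp [hL]
  rw [e] at this
  refine (congrArg (HasSum · (f z)) (funext fun k => ?_)).mp this
  have h0 : L 0 ∈ ball (0 : E) R := by simpa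
  have := L.iteratedFDerivWithin_comp_right (contDiffOn_of_diffOn isOpen_ball k hd)
    isOpen_ball.uniqueDiffOn ho.uniqueDiffOn h0 le_rfl
  rw [iteratedFDerivWithin_of_isOpen k ho h0, iteratedFDerivWithin_of_isOpen k isOpen_ball h0]
    at this
  simp [tser, iteratedDeriv_eq_iteratedFDeriv, this, hL]

theorem osgood (hU : IsOpen U) (hd : DifferentiableOn ℂ f U) :
    AnalyticOnNhd ℂ f U := fun c hc => by
  obtain ⟨r, hr, C, h1, h2⟩ := exists_ball_bound hU hd.continuousOn hc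
  have h3 : ∀ y ∈ ball 0 r, c + y ∈ ball c r := fun y hy => by simpa using hy
  have h4 : DifferentiableOn ℂ (fun y => f (c + y)) (ball 0 r) :=
    hd.comp (by fun_prop) fun y hy => h1 (h3 y hy)
  let ρ : NNReal := ⟨r / 6, by positivity⟩
  refine ⟨tser fun y => f (c + y), ρ, FormalMultilinearSeries.le_radius_of_bound _ (3 * C)
    fun k => ?_, ENNReal.coe_pos.2 (show 0 < r / 6 by positivity), fun {y} hy => ?_⟩
  · refine (mul_le_mul_of_nonneg_right (norm_tser_le h4 (fun y hy => h2 _ (h3 y hy)) hr k)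
      (by positivity)).trans_eq ?_
    rw [mul_assoc, ← mul_pow, show 6 / r * (ρ : ℝ) = 1 by change 6 / r * (r / 6) = 1; field_simp]
    simp
  · rw [Metric.eball_coe, mem_ball_zero_iff] at hy
    exact hasSum_tser h4 (hy.trans (show r / 6 < r by linarith))

theorem cauchy0 {κ : ℂ → ℂ} {ψ : ℂ → F} {ρ : ℝ} (hρ : 0 < ρ) (hρ2 : ρ < 2)
    (hk : AnalyticOnNhd ℂ κ (ball 0 2)) (h0 : κ 0 ≠ 0) (hs : ∀ l ∈ sphere (0 : ℂ) ρ, κ l ≠ 0)
    (hψ : ∀ l ∈ ball (0 : ℂ) 2, κ l ≠ 0 → DifferentiableAt ℂ ψ l ∧ ‖ψ l‖ ≤ C) :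
    (∮ l in C(0, ρ), (l - 0)⁻¹ • ψ l) = (2 * Real.pi * Complex.I : ℂ) • ψ 0 := by
  classical
  let Φ : ℂ → F := fun l => if κ l = 0 then limUnder (𝓝[≠] l) ψ else ψ l
  have hΦ : ∀ l, κ l ≠ 0 → Φ l = ψ l := fun l hl => if_neg hl
  have hd : ∀ l ∈ ball (0 : ℂ) 2, DifferentiableAt ℂ Φ l := fun l hl => by
    by_cases h : κ l = 0
    · have h1 : ∀ᶠ w in 𝓝[≠] l, κ w ≠ 0 :=
        (hk l hl).eventually_eq_zero_or_eventually_ne_zero.resolve_left fun h2 => h0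
          (hk.eqOn_zero_of_preconnected_of_eventuallyEq_zero (convex_ball _ _).isPreconnected hl h2
            (mem_ball_self two_pos))
      have h2 : {w | w ∈ ball (0 : ℂ) 2 ∧ (w ∈ ({l}ᶜ : Set ℂ) → κ w ≠ 0)} ∈ 𝓝 l :=
        (isOpen_ball.eventually_mem hl).and (eventually_nhdsWithin_iff.1 h1)
      have h3 := Complex.differentiableOn_update_limUnder_of_bddAbove (f := ψ) h2
        (fun w hw => (hψ w hw.1.1 (hw.1.2 hw.2)).1.differentiableWithinAt)
        ⟨C, by rintro _ ⟨w, hw, rfl⟩; exact (hψ w hw.1.1 (hw.1.2 hw.2)).2⟩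
      refine (h3.differentiableAt h2).congr_of_eventuallyEq ?_
      filter_upwards [h2] with w hw
      by_cases hwl : w = l
      · rw [hwl, Function.update_self]; exact if_pos h
      · rw [Function.update_of_ne hwl]; exact hΦ w (hw.2 hwl)
    · refine (hψ l hl h).1.congr_of_eventuallyEq ?_
      filter_upwards [(hk l hl).continuousAt.eventually_ne h] with w hw using hΦ w hw
  have := DifferentiableOn.circleIntegral_sub_inv_smul (f := Φ) (c := 0) (w := 0) (R := ρ)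
    (fun l hl => (hd l (closedBall_subset_ball hρ2 hl)).differentiableWithinAt) (mem_ball_self hρ)
  rw [hΦ 0 h0] at this
  rw [← this]
  exact circleIntegral.integral_congr hρ.le fun l hl => by simp only [hΦ l (hs l hl)]

theorem diff_circ {W : Set E} {v : E} {ρ δ : ℝ} (hρ : 0 < ρ) (hδ : 0 < δ) (hW : IsOpen W)
    (hd : DifferentiableOn ℂ f W) (hC : ∀ y ∈ W, ‖f y‖ ≤ C)
    (hs : ∀ x ∈ ball c (2 * δ), ∀ l ∈ sphere (0 : ℂ) ρ, x + l • v ∈ W) :
    DifferentiableOn ℂ (fun x => ∮ l in C(0, ρ), (l - 0)⁻¹ • f (x + l • v)) (ball c δ) := by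
  intro x₀ hx₀
  have hm : ∀ θ, circleMap 0 ρ θ ∈ sphere (0 : ℂ) ρ := circleMap_mem_sphere 0 hρ.le
  have hb : ∀ x ∈ ball c δ, ∀ θ, ball (x + circleMap 0 ρ θ • v) δ ⊆ W := fun x hx θ y hy => by
    have := hs (y - circleMap 0 ρ θ • v) (by
      rw [mem_ball_iff_norm] at hx hy ⊢
      have := norm_add_le (y - (x + circleMap 0 ρ θ • v)) (x - c)
      rw [show y - (x + circleMap 0 ρ θ • v) + (x - c) = y - circleMap 0 ρ θ • v - c by abel]
        at this
      linarith) _ (hm θ)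
    rwa [sub_add_cancel] at this
  have hw : ∀ x ∈ ball c δ, ∀ θ, x + circleMap 0 ρ θ • v ∈ W := fun x hx θ =>
    hb x hx θ (mem_ball_self hδ)
  have hk : Continuous fun θ => (circleMap 0 ρ θ - 0)⁻¹ :=
    Continuous.inv₀ (by fun_prop) fun θ => by simpa using hρ.ne'
  have hk' : Continuous fun θ => deriv (circleMap 0 ρ) θ := by
    simp only [deriv_circleMap]; fun_prop
  have hc : ∀ x ∈ ball c δ, Continuous fun θ => deriv (circleMap 0 ρ) θ •
      (circleMap 0 ρ θ - 0)⁻¹ • f (x + circleMap 0 ρ θ • v) := fun x hx =>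
    hk'.smul (hk.smul (hd.continuousOn.comp_continuous (by fun_prop) (hw x hx)))
  refine (intervalIntegral.hasFDerivAt_integral_of_dominated_of_fderiv_le (μ := MeasureTheory.volume)
    (a := 0) (b := 2 * Real.pi) (bound := fun _ => 2 * C / δ)
    (F := fun x θ => deriv (circleMap 0 ρ) θ •
      (circleMap 0 ρ θ - 0)⁻¹ • f (x + circleMap 0 ρ θ • v))
    (F' := fun x θ => deriv (circleMap 0 ρ) θ •
      (circleMap 0 ρ θ - 0)⁻¹ • fderiv ℂ f (x + circleMap 0 ρ θ • v))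
    (isOpen_ball.mem_nhds hx₀) ?_ ((hc x₀ hx₀).intervalIntegrable _ _) ?_
    (.of_forall fun θ _ x hx => ?_) intervalIntegrable_const
    (.of_forall fun θ _ x hx => ?_)).differentiableAt.differentiableWithinAt
  · filter_upwards [isOpen_ball.mem_nhds hx₀] with x hx using (hc x hx).aestronglyMeasurable
  · exact (hk'.smul (hk.smul ((diffOn_fderiv hW hd).continuousOn.comp_continuous (by fun_prop)
      (hw x₀ hx₀)))).aestronglyMeasurable
  · have := norm_fderiv_le (hd.mono (hb x hx θ)) (fun y hy => hC y (hb x hx θ hy)) hδ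
    rw [norm_smul, norm_smul, ← mul_assoc]
    refine (mul_le_of_le_one_left (norm_nonneg _) ?_).trans this
    simp [deriv_circleMap, abs_of_pos hρ, hρ.ne']
  · exact (((hasFDerivAt_comp_add_right _).2 (hd.differentiableAt
      (hW.mem_nhds (hw x hx θ))).hasFDerivAt).const_smul _).const_smul _

end RIEMa

open Metric RIEMa in
theorem p_RIEM :
    S_RIEM := by
  intro E F _ _ _ _ _ g f z₀ C hg hne hf
  obtain ⟨R, hR, h1⟩ := Metric.eventually_nhds_iff_ball.1 (hg.eventually_analyticAt.and hf)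
  obtain ⟨z₁, hz₁, hz₁'⟩ := (hne.and_eventually (ball_mem_nhds z₀ (show 0 < R / 4 by
    positivity))).exists
  obtain ⟨v, rfl⟩ : ∃ v, z₁ = z₀ + v := ⟨z₁ - z₀, by abel⟩
  have hv : ‖v‖ < R / 4 := by simpa using hz₁'
  have h2 : ∀ z ∈ ball z₀ (R / 2), ∀ l ∈ ball (0 : ℂ) 2, z + l • v ∈ ball z₀ R := fun z hz l hl => by
    rw [mem_ball_iff_norm] at hz ⊢
    rw [mem_ball_zero_iff] at hl
    have := norm_add_le (z - z₀) (l • v)
    rw [norm_smul, sub_add_eq_add_sub] at this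
    nlinarith [norm_nonneg l, norm_nonneg v]
  have h3 : ∀ z ∈ ball z₀ (R / 2), AnalyticOnNhd ℂ (fun l : ℂ => g (z + l • v)) (ball 0 2) :=
    fun z hz l hl => (h1 _ (h2 z hz l hl)).1.comp_of_eq (f := fun l : ℂ => z + l • v)
      (by fun_prop) rfl
  have hz₀ : z₀ ∈ ball z₀ (R / 2) := mem_ball_self (half_pos hR)
  have h4 : ∀ᶠ l : ℂ in 𝓝[≠] 0, g (z₀ + l • v) ≠ 0 :=
    (h3 z₀ hz₀ 0 (mem_ball_self two_pos)).eventually_eq_zero_or_eventually_ne_zero.resolve_left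
      fun h => hz₁ (by
        simpa using (h3 z₀ hz₀).eqOn_zero_of_preconnected_of_eventuallyEq_zero
          (convex_ball _ _).isPreconnected (mem_ball_self two_pos) h
          (show (1 : ℂ) ∈ ball 0 2 by simp))
  obtain ⟨ε, hε, h5⟩ := Metric.eventually_nhds_iff_ball.1 (eventually_nhdsWithin_iff.1 h4)
  obtain ⟨ρ, hρ, hρ2, hρε⟩ : ∃ ρ : ℝ, 0 < ρ ∧ ρ < 2 ∧ ρ < ε :=
    ⟨min 1 (ε / 2), by positivity, by linarith [min_le_left 1 (ε / 2)],
      by linarith [min_le_right 1 (ε / 2)]⟩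
  have h6 : ∀ᶠ z in 𝓝 z₀, ∀ l ∈ sphere (0 : ℂ) ρ, g (z + l • v) ≠ 0 :=
    (isCompact_sphere 0 ρ).eventually_forall_of_forall_eventually fun l hl =>
      ((h1 _ (h2 z₀ hz₀ l (sphere_subset_ball hρ2 hl))).1.continuousAt.comp_of_eq
        (f := fun q : E × ℂ => q.1 + q.2 • v) (x := (z₀, l)) (by fun_prop) rfl).eventually_ne
        (h5 l (sphere_subset_ball hρε hl) (ne_of_mem_sphere hl hρ.ne'))
  obtain ⟨δ, hδ, h7⟩ := Metric.eventually_nhds_iff_ball.1
    (h6.and (ball_mem_nhds z₀ (half_pos hR)))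
  have hW : IsOpen {y | y ∈ ball z₀ R ∧ g y ≠ 0} := isOpen_iff_mem_nhds.2 fun y hy =>
    (isOpen_ball.eventually_mem hy.1).and ((h1 y hy.1).1.continuousAt.eventually_ne hy.2)
  have h8 := diff_circ (c := z₀) (v := v) hρ (half_pos hδ) hW
    (fun y hy => ((h1 y hy.1).2 hy.2).1.differentiableWithinAt) (fun y hy => ((h1 y hy.1).2 hy.2).2)
    fun x hx l hl => by
      have hx := h7 x (by rwa [mul_div_cancel₀ _ two_ne_zero] at hx)
      exact ⟨h2 x hx.2 l (sphere_subset_ball hρ2 hl), hx.1 l hl⟩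
  refine ⟨fun x => (2 * Real.pi * Complex.I : ℂ)⁻¹ • ∮ l in C(0, ρ), (l - 0)⁻¹ • f (x + l • v),
    osgood isOpen_ball (h8.const_smul _) z₀ (mem_ball_self (half_pos hδ)), ?_⟩
  filter_upwards [ball_mem_nhds z₀ hδ] with z hz hgz
  have := cauchy0 (C := C) (ψ := fun l => f (z + l • v)) hρ hρ2 (h3 z (h7 z hz).2) (by simpa)
    (h7 z hz).1 fun l hl h => ⟨((h1 _ (h2 z (h7 z hz).2 l hl)).2 h).1.comp l
      (f := fun l : ℂ => z + l • v) (by fun_prop), ((h1 _ (h2 z (h7 z hz).2 l hl)).2 h).2⟩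
  rw [this, inv_smul_smul₀ Complex.two_pi_I_ne_zero]
  simp

end Pool.Agent.P.MP_ab0431_ag.UB

namespace Pool.Agent.P.MP_ab0431_ag.UB

open Polynomial Set Filter Topology

theorem p_DIVA (hRIEM : S_RIEM) :
    S_DIVA := by
  intro P _ _ h ξ p₀ ha hξ h0
  obtain ⟨L, t, ht, hL⟩ := (ha.contDiffAt (n := 1)).exists_lipschitzOnWith
  have hs : Tendsto (Prod.snd : ℂ × P → P) (𝓝 (ξ p₀, p₀)) (𝓝 p₀) := continuous_snd.continuousAt
  have hg : AnalyticAt ℂ (fun q : ℂ × P => q.1 - ξ q.2) (ξ p₀, p₀) :=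
    analyticAt_fst.sub (hξ.comp (f := Prod.snd) (x := (ξ p₀, p₀)) analyticAt_snd)
  have ht' : ∀ᶠ q in 𝓝 (ξ p₀, p₀), (ξ q.2, q.2) ∈ t :=
    ((hξ.continuousAt.tendsto.comp hs).prodMk_nhds hs).eventually ht
  have hf : ∃ᶠ q in 𝓝 (ξ p₀, p₀), q.1 - ξ q.2 ≠ 0 := by
    have c : Tendsto (fun x : ℂ => (x, p₀)) (𝓝[≠] (ξ p₀)) (𝓝 (ξ p₀, p₀)) :=
      ((continuous_id.prodMk continuous_const).tendsto (ξ p₀)).mono_left nhdsWithin_le_nhds
    exact c.frequently (Eventually.frequently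
      (eventually_nhdsWithin_of_forall fun x hx => sub_ne_zero.2 hx))
  obtain ⟨f, a1, a2⟩ := hRIEM (ℂ × P) ℂ (fun q => q.1 - ξ q.2) (fun q => h q / (q.1 - ξ q.2))
    (ξ p₀, p₀) L hg hf (by
      filter_upwards [ha.eventually_analyticAt, hg.eventually_analyticAt, ht, ht',
        hs.eventually h0] with q b1 b2 b3 b4 b5 n
      refine ⟨(b1.fun_div b2 n).differentiableAt, ?_⟩
      have := hL.dist_le_mul q b3 _ b4
      rw [b5, dist_zero_right, Prod.dist_eq, dist_self, max_eq_left dist_nonneg, dist_eq_norm]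
        at this
      rw [norm_div, div_le_iff₀ (norm_pos_iff.2 n)]
      exact this)
  refine ⟨f, a1, ?_⟩
  filter_upwards [a2, hs.eventually h0] with q b1 b2
  by_cases n : q.1 - ξ q.2 = 0
  · rw [n, zero_mul, ← b2, ← sub_eq_zero.1 n]
  · rw [b1 n, mul_div_cancel₀ _ n]

end Pool.Agent.P.MP_ab0431_ag.UB

namespace Pool.Agent.P.MP_ab0431_ag.UB

open Polynomial Set Filter Topology

theorem p_MINM :
    S_MINM := by
  intro P _ _ a x₀ p₀ ha h0 hne N hN
  have hsw : ∀ (x : ℂ) {Q : ℂ × P → Prop}, (∀ᶠ q in 𝓝 (x, p₀), Q q) →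
      ∀ᶠ z : P × ℂ in 𝓝 (p₀, x), Q (z.2, z.1) := fun x Q h =>
    (continuous_swap.tendsto (p₀, x)).eventually h
  have h1 : ∀ᶠ x in 𝓝 x₀, AnalyticAt ℂ a (x, p₀) :=
    (Continuous.prodMk_left p₀).continuousAt.tendsto.eventually ha.eventually_analyticAt
  obtain ⟨r, hr, hb⟩ := Metric.nhds_basis_closedBall.eventually_iff.1
    ((h1.and (eventually_nhdsWithin_iff.1 hne)).and hN)
  have hS : (Metric.sphere x₀ r).Nonempty := NormedSpace.sphere_nonempty.2 hr.le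
  have hcs : ContinuousOn (fun x => ‖a (x, p₀)‖) (Metric.sphere x₀ r) := fun x hx =>
    (((hb (Metric.sphere_subset_closedBall hx)).1.1.continuousAt.comp
      (f := fun x : ℂ => (x, p₀)) (Continuous.prodMk_left p₀).continuousAt).norm).continuousWithinAt
  obtain ⟨x₁, hx₁, hmin⟩ := (isCompact_sphere x₀ r).exists_isMinOn hS hcs
  have hm : 0 < ‖a (x₁, p₀)‖ := norm_pos_iff.2
    ((hb (Metric.sphere_subset_closedBall hx₁)).1.2 (Metric.ne_of_mem_sphere hx₁ hr.ne'))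
  set ε := ‖a (x₁, p₀)‖ / 2 with hε
  have e0 : 0 < ε := by positivity
  have k1 := (isCompact_closedBall x₀ r).eventually_forall_of_forall_eventually (x₀ := p₀)
    (P := fun p x => AnalyticAt ℂ a (x, p)) fun x hx =>
      hsw x (Q := fun q => AnalyticAt ℂ a q) (hb hx).1.1.eventually_analyticAt
  have k2 := (isCompact_sphere x₀ r).eventually_forall_of_forall_eventually (x₀ := p₀)
    (P := fun p x => ε < ‖a (x, p)‖) fun x hx =>
      hsw x (Q := fun q => ε < ‖a q‖)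
        ((hb (Metric.sphere_subset_closedBall hx)).1.1.continuousAt.norm.eventually
          (lt_mem_nhds (lt_of_lt_of_le (by rw [hε]; linarith) (hmin hx))))
  have k3 : ∀ᶠ p in 𝓝 p₀, ‖a (x₀, p)‖ < ε :=
    ((ha.continuousAt.comp (f := fun p : P => (x₀, p))
      (Continuous.prodMk_right x₀).continuousAt).norm).eventually
      (gt_mem_nhds (by simpa [h0] using e0))
  filter_upwards [k1, k2, k3] with p h1 h2 h3
  by_contra hc
  have hz : ∀ x ∈ Metric.closedBall x₀ r, a (x, p) ≠ 0 := fun x hx h => hc ⟨x, (hb hx).2, h⟩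
  have hd : DifferentiableOn ℂ (fun x => (a (x, p))⁻¹) (closure (Metric.ball x₀ r)) := by
    rw [closure_ball x₀ hr.ne']
    exact fun x hx => (((h1 x hx).differentiableAt.comp (f := fun x : ℂ => (x, p)) x
      (differentiableAt_id.prodMk (differentiableAt_const p))).inv (hz x hx)).differentiableWithinAt
  have h4 := Complex.norm_le_of_forall_mem_frontier_norm_le Metric.isBounded_ball hd.diffContOnCl
    (C := ε⁻¹) (fun z hz' => by
      rw [frontier_ball x₀ hr.ne'] at hz'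
      rw [norm_inv]
      exact inv_anti₀ e0 (h2 z hz').le) (subset_closure (Metric.mem_ball_self hr))
  rw [norm_inv, inv_le_inv₀ (norm_pos_iff.2 (hz x₀ (Metric.mem_closedBall_self hr.le))) e0] at h4
  linarith

end Pool.Agent.P.MP_ab0431_ag.UB

namespace Pool.Agent.P.MP_ab0431_ag.UB

open Polynomial Set Filter Topology

namespace AFORMa

theorem key (hDIVA : S_DIVA) (hMINM : S_MINM) {P : Type} [NormedAddCommGroup P] [NormedSpace ℂ P]
    {ξ : P → ℂ} {p₀ : P} (hξ : AnalyticAt ℂ ξ p₀) (n : ℕ) : ∀ (a : ℂ × P → ℂ) (g : ℂ → ℂ),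
    AnalyticAt ℂ a (ξ p₀, p₀) → (∀ᶠ q in 𝓝 (ξ p₀, p₀), a q = 0 → q.1 = ξ q.2) →
    ContinuousAt g (ξ p₀) → g (ξ p₀) ≠ 0 →
    (∀ᶠ x in 𝓝[≠] (ξ p₀), a (x, p₀) = (x - ξ p₀) ^ n * g x) →
    ∃ (k : ℕ) (b : ℂ × P → ℂ), AnalyticAt ℂ b (ξ p₀, p₀) ∧ b (ξ p₀, p₀) ≠ 0 ∧
      ∀ᶠ q in 𝓝 (ξ p₀, p₀), a q = (q.1 - ξ q.2) ^ k * b q := by
  have ht : Tendsto (fun x : ℂ => (x, p₀)) (𝓝 (ξ p₀)) (𝓝 (ξ p₀, p₀)) :=
    (continuous_id.prodMk continuous_const).tendsto _
  induction n with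
  | zero =>
    intro a g ha _ hg g0 h
    refine ⟨0, a, ha, ?_, Eventually.of_forall fun q => by simp⟩
    rwa [tendsto_nhds_unique ((ha.continuousAt.tendsto.comp ht).mono_left nhdsWithin_le_nhds)
      ((hg.tendsto.mono_left nhdsWithin_le_nhds).congr' (h.mono fun x hx => by simp [hx]))]
  | succ n ih =>
    intro a g ha hz hg g0 h
    by_cases a0 : a (ξ p₀, p₀) = 0
    swap
    · exact ⟨0, a, ha, a0, Eventually.of_forall fun q => by simp⟩
    have h1 : ∀ᶠ p in 𝓝 p₀, a (ξ p, p) = 0 := by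
      obtain ⟨N, hN, M, hM, hNM⟩ := mem_nhds_prod_iff.1 hz
      have h2 : ∀ᶠ x in 𝓝[≠] (ξ p₀), a (x, p₀) ≠ 0 := by
        filter_upwards [nhdsWithin_le_nhds (ht.eventually hz), self_mem_nhdsWithin] with x b1 b2 b3
        exact b2 (b1 b3)
      filter_upwards [hMINM P a _ p₀ ha a0 h2 N hN, hM] with p ⟨x, hx, e⟩ hp
      have : x = ξ p := hNM (mk_mem_prod hx hp) e
      rwa [this] at e
    obtain ⟨a', ha', e⟩ := hDIVA P a ξ p₀ ha hξ h1
    obtain ⟨k, b, hb, b0, e'⟩ := ih a' g ha' (by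
      filter_upwards [hz, e] with q b1 b2 b3
      exact b1 (by rw [b2, b3, mul_zero])) hg g0 (by
      filter_upwards [h, nhdsWithin_le_nhds (ht.eventually e), self_mem_nhdsWithin] with x b1 b2 b3
      refine mul_left_cancel₀ (sub_ne_zero.2 b3) ?_
      rw [← b2, b1]
      ring)
    refine ⟨k + 1, b, hb, b0, ?_⟩
    filter_upwards [e, e'] with q b1 b2
    rw [b1, b2]
    ring

end AFORMa

theorem p_AFORM (hDIVA : S_DIVA) (hMINM : S_MINM) :
    S_AFORM := by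
  intro P _ _ a ξ p₀ ha hξ hz
  have ht : Tendsto (fun x : ℂ => (x, p₀)) (𝓝 (ξ p₀)) (𝓝 (ξ p₀, p₀)) :=
    (continuous_id.prodMk continuous_const).tendsto _
  have h1 : AnalyticAt ℂ (fun x : ℂ => a (x, p₀)) (ξ p₀) :=
    ha.comp_of_eq (analyticAt_id.prod analyticAt_const) rfl
  have h2 : ¬∀ᶠ x in 𝓝 (ξ p₀), a (x, p₀) = 0 := fun h0 => by
    have : ∀ᶠ x in 𝓝[≠] (ξ p₀), False := by
      filter_upwards [nhdsWithin_le_nhds h0, nhdsWithin_le_nhds (ht.eventually hz),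
        self_mem_nhdsWithin] with x b1 b2 b3
      exact b3 (b2 b1)
    exact this.exists.elim fun _ => id
  obtain ⟨n, g, hg, g0, e⟩ := h1.exists_eventuallyEq_pow_smul_nonzero_iff.2 h2
  exact AFORMa.key hDIVA hMINM hξ n a g ha hz hg.continuousAt g0 (nhdsWithin_le_nhds e)

end Pool.Agent.P.MP_ab0431_ag.UB

namespace Pool.Agent.P.MP_ab0431_ag.UB

open Polynomial Set Filter Topology
open scoped ContDiff

theorem IFT1a.aux (E : Type) [NormedAddCommGroup E] [NormedSpace ℂ E] [CompleteSpace E]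
    (g : E × ℂ → ℂ) (p : E) (z : ℂ) (hg : AnalyticAt ℂ g (p, z)) (h0 : g (p, z) = 0)
    (hd : fderiv ℂ g (p, z) (0, 1) ≠ 0) : ∃ ζ : E → ℂ, AnalyticAt ℂ ζ p ∧ ζ p = z ∧
      ∀ᶠ q in 𝓝 (p, z), g q = 0 ↔ q.2 = ζ q.1 := by
  have c : ContDiffAt ℂ ω g (p, z) := hg.contDiffAt
  have i : (fderiv ℂ g (p, z) ∘L .inr ℂ E ℂ).IsInvertible :=
    ⟨ContinuousLinearEquiv.unitsEquivAut ℂ (.mk0 _ hd), by ext; simp⟩
  refine ⟨c.implicitFunction (by simp) i, (c.contDiffAt_implicitFunction _ i).analyticAt,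
    c.implicitFunction_apply_self _ i, ?_⟩
  simpa only [h0, eq_comm] using c.eventually_apply_eq_iff_implicitFunction (by simp) i

theorem p_IFT1 :
    S_IFT1 := by
  intro P _ _ _ h x p hh h0 hd
  have hs : AnalyticAt ℂ (fun q : P × ℂ => (q.2, q.1)) (p, x) := analyticAt_snd.prod analyticAt_fst
  have hg : AnalyticAt ℂ (fun q : P × ℂ => h (q.2, q.1)) (p, x) := hh.comp_of_eq hs rfl
  have e : fderiv ℂ (fun q : P × ℂ => h (q.2, q.1)) (p, x) (0, 1) = dz h (x, p) :=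
    (hg.differentiableAt.hasFDerivAt.comp_hasDerivAt x
      ((hasDerivAt_const x p).prodMk (hasDerivAt_id x))).unique
      (hasDerivAt_dz hh.differentiableAt)
  obtain ⟨ζ, ha, hz, hq⟩ := IFT1a.aux P _ p x hg h0 (e ▸ hd)
  refine ⟨ζ, ha, hz, ?_, ?_⟩
  · have t : Tendsto (fun q => (q, ζ q)) (𝓝 p) (𝓝 (p, x)) := by
      rw [← hz]; exact continuousAt_id.prodMk ha.continuousAt
    exact (t.eventually hq).mono fun q hq => hq.2 rfl
  · have t : Tendsto (fun q : ℂ × P => (q.2, q.1)) (𝓝 (x, p)) (𝓝 (p, x)) :=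
      continuous_swap.continuousAt
    exact (t.eventually hq).mono fun q hq => hq.1

end Pool.Agent.P.MP_ab0431_ag.UB

namespace Pool.Agent.P.MP_ab0431_ag.UB

open Polynomial Set Filter Topology

theorem p_ROOTK :
    S_ROOTK := by
  intro E _ _ b p k hb h0 hk
  obtain ⟨r, hr⟩ := IsAlgClosed.exists_pow_nat_eq (b p) (Nat.pos_of_ne_zero hk)
  have hl : AnalyticAt ℂ (fun q => Complex.log (b q / b p)) p :=
    (hb.div_const (c := b p)).clog (by rw [div_self h0]; exact Complex.one_mem_slitPlane)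
  refine ⟨fun q => r * Complex.exp (Complex.log (b q / b p) / k),
    analyticAt_const.mul (hl.div_const (c := (k : ℂ))).cexp,
    mul_ne_zero (fun h => h0 (by rw [← hr, h, zero_pow hk])) (Complex.exp_ne_zero _), ?_⟩
  filter_upwards [hb.continuousAt.eventually_ne h0] with q hq
  rw [mul_pow, hr, ← Complex.exp_nat_mul, mul_div_cancel₀ _ (Nat.cast_ne_zero.2 hk),
    Complex.exp_log (div_ne_zero hq h0), mul_div_cancel₀ _ h0]

end Pool.Agent.P.MP_ab0431_ag.UB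

namespace Pool.Agent.P.MP_ab0431_ag.UB

open Polynomial Set Filter Topology

namespace MORSEa

theorem dzm {P : Type} [NormedAddCommGroup P] [NormedSpace ℂ P] {h u : ℂ × P → ℂ} {g ξ : P → ℂ}
    {q : ℂ × P} (hh : AnalyticAt ℂ h q) (hu : AnalyticAt ℂ u q)
    (e : ∀ᶠ q in 𝓝 q, h q = g q.2 + (q.1 - ξ q.2) * u q) :
    dz h q = u q + (q.1 - ξ q.2) * dz u q := by
  obtain ⟨z, p⟩ := q
  have h1 := (((hasDerivAt_id z).sub_const (ξ p)).mul
    (hasDerivAt_dz hu.differentiableAt)).const_add (g p)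
  have t : Tendsto (fun x : ℂ => (x, p)) (𝓝 z) (𝓝 (z, p)) :=
    (continuous_id.prodMk continuous_const).tendsto z
  have h2 := (hasDerivAt_dz hh.differentiableAt).unique (h1.congr_of_eventuallyEq (t.eventually e))
  simpa using h2

end MORSEa

theorem p_MORSE (hIFT1 : S_IFT1) (hDIVA : S_DIVA) (hROOTK : S_ROOTK) :
    S_MORSE := by
  intro P _ _ _ H z₀ p₀ hH h1 h2
  obtain ⟨ζ, hζ, rfl, hz, -⟩ := hIFT1 P (dz H) z₀ p₀ (analyticAt_dz hH) h1 h2
  have hζ2 : AnalyticAt ℂ (fun q : ℂ × P => ζ q.2) (ζ p₀, p₀) :=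
    hζ.comp_of_eq analyticAt_snd rfl
  have hg : AnalyticAt ℂ (fun q : ℂ × P => H (ζ q.2, q.2)) (ζ p₀, p₀) :=
    hH.comp_of_eq (hζ2.prod analyticAt_snd) rfl
  obtain ⟨u₁, hu₁, e₁⟩ := hDIVA P (fun q => H q - H (ζ q.2, q.2)) ζ p₀ (hH.sub hg) hζ
    (Eventually.of_forall fun p => sub_self _)
  have e₁' : ∀ᶠ q in 𝓝 (ζ p₀, p₀), H q = H (ζ q.2, q.2) + (q.1 - ζ q.2) * u₁ q :=
    e₁.mono fun q a => by rw [← a]; ring
  have e₂ : ∀ᶠ q in 𝓝 (ζ p₀, p₀), dz H q = u₁ q + (q.1 - ζ q.2) * dz u₁ q := by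
    filter_upwards [e₁'.eventually_nhds, hH.eventually_analyticAt, hu₁.eventually_analyticAt]
      with q a b c
    exact MORSEa.dzm (g := fun p => H (ζ p, p)) b c a
  have t : Tendsto (fun p => (ζ p, p)) (𝓝 p₀) (𝓝 (ζ p₀, p₀)) :=
    hζ.continuousAt.prodMk continuousAt_id
  obtain ⟨u, hu, e₃⟩ := hDIVA P u₁ ζ p₀ hu₁ hζ (by
    filter_upwards [t.eventually e₂, hz] with p a b
    simpa [b] using a.symm)
  have a₁ := MORSEa.dzm (g := 0) (ξ := ζ) hu₁ hu (e₃.mono fun q a => by simpa using a)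
  have a₂ := MORSEa.dzm (g := 0) (ξ := ζ) (analyticAt_dz hH) (hu.add (analyticAt_dz hu₁)) (by
    filter_upwards [e₂, e₃] with q a b
    rw [a, Pi.add_apply, Pi.zero_apply]
    linear_combination b)
  have hu0 : u (ζ p₀, p₀) ≠ 0 := fun e => h2 (by simpa [a₁, e] using a₂)
  obtain ⟨c, hc, hc0, e₄⟩ := hROOTK _ u _ 2 hu hu0 two_ne_zero
  have hw : AnalyticAt ℂ (fun q : ℂ × P => (q.1 - ζ q.2) * c q) (ζ p₀, p₀) :=
    (analyticAt_fst.sub hζ2).mul hc
  refine ⟨ζ, fun q => (q.1 - ζ q.2) * c q, hζ, rfl, hw, ?_, hz, ?_⟩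
  · rw [MORSEa.dzm (g := 0) (ξ := ζ) hw hc (Eventually.of_forall fun q => by simp)]
    simpa using hc0
  · filter_upwards [e₁', e₃, e₄] with q a b c
    rw [a, b, ← c]
    ring

end Pool.Agent.P.MP_ab0431_ag.UB

namespace Pool.Agent.P.MP_ab0431_ag.UB

open Polynomial Set Filter Topology

namespace TRIV0a

theorem dz_fst {P : Type} [NormedAddCommGroup P] [NormedSpace ℂ P] (q : ℂ × P) :
    dz (fun q : ℂ × P => q.1) q ≠ 0 := by
  have h1 := hasDerivAt_dz (h := fun q : ℂ × P => q.1) (z := q.1) (p := q.2) differentiableAt_fst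
  have h2 : HasDerivAt (fun x : ℂ => x) 1 q.1 := hasDerivAt_id _
  rw [show dz (fun q : ℂ × P => q.1) q = 1 from h1.unique h2]
  exact one_ne_zero

theorem build (hCOORD : S_COORD) (H : ℂ × ℂ × ℂ → ℂ) (p₀ : C2 × ℂ) (α : ℂ × ℂ → ℂ)
    (β : ℂ × ℂ × ℂ → ℂ) (A : Set C2) (hα : AnalyticAt ℂ α (p₀.1 0, p₀.2))
    (hβ : AnalyticAt ℂ β (p₀.1 1, p₀.1 0, p₀.2)) (dα : dz α (p₀.1 0, p₀.2) ≠ 0)
    (dβ : dz β (p₀.1 1, p₀.1 0, p₀.2) ≠ 0)
    (hA : ∀ᶠ q in 𝓝 (p₀.1 1, p₀.1 0, p₀.2), (H q = 0 ↔ (![α q.2, β q] : C2) ∈ A)) :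
    Str3 (fun p => H (p.1 1, p.1 0, p.2)) p₀ := by
  have hc : Tendsto (fun p : C2 × ℂ => (p.1 1, p.1 0, p.2)) (𝓝 p₀)
      (𝓝 (p₀.1 1, p₀.1 0, p₀.2)) :=
    Continuous.tendsto (f := fun p : C2 × ℂ => (p.1 1, p.1 0, p.2)) (by fun_prop) _
  obtain ⟨Ψ, h0, hN, h1, h2, h3⟩ := hCOORD α β p₀ _ hα hβ dα dβ (hc.eventually hA)
  refine ⟨Ψ, h0, h1, h2, fun p hp => by rw [h3 p hp], A, fun p hp => ?_⟩
  rw [h3 p hp]
  exact hN hp

end TRIV0a

open TRIV0a in
theorem p_TRIV0 (hCOORD : S_COORD) (hAFORM : S_AFORM) (hMORSE : S_MORSE) (hROOTK : S_ROOTK) :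
    S_TRIV0 := by
  intro H p₀ hH hcase
  by_cases h0 : H (p₀.1 1, p₀.1 0, p₀.2) = 0
  swap
  · refine build hCOORD H p₀ (fun q => q.1) (fun q => q.1) ∅ analyticAt_fst analyticAt_fst
      (dz_fst _) (dz_fst _) ?_
    filter_upwards [hH.continuousAt.eventually_ne h0] with q hq
    simp [hq]
  by_cases h1 : dz H (p₀.1 1, p₀.1 0, p₀.2) = 0
  swap
  · refine build hCOORD H p₀ (fun q => q.1) H {v | v 1 = 0} analyticAt_fst hH (dz_fst _) h1 ?_
    filter_upwards with q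
    simp
  obtain ⟨h2, ξ, hξ, hξ0, hz⟩ := (hcase.resolve_left (not_not.2 h0)).resolve_left (not_not.2 h1)
  obtain ⟨ζ, w, hζ, hζ0, hw, dw, hdz, hHw⟩ := hMORSE (ℂ × ℂ) H _ _ hH h1 h2
  have hm : AnalyticAt ℂ (fun p : ℂ × ℂ => (ζ p, p)) (p₀.1 0, p₀.2) := hζ.prod analyticAt_id
  have hm0 : (fun p : ℂ × ℂ => (ζ p, p)) (p₀.1 0, p₀.2) = (p₀.1 1, p₀.1 0, p₀.2) := by
    simp only [hζ0]
  have ha : AnalyticAt ℂ (fun p : ℂ × ℂ => H (ζ p, p)) (p₀.1 0, p₀.2) :=
    AnalyticAt.comp_of_eq hH hm hm0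
  have ht : Tendsto (fun p : ℂ × ℂ => (ζ p, p)) (𝓝 (p₀.1 0, p₀.2))
      (𝓝 (p₀.1 1, p₀.1 0, p₀.2)) := hm0 ▸ hm.continuousAt.tendsto
  have hv : ∀ᶠ q in 𝓝 (p₀.1 0, p₀.2), H (ζ q, q) = 0 → q.1 = ξ q.2 := by
    filter_upwards [ht.eventually hz, hdz] with q hq hq' h using hq h hq'
  obtain ⟨k, b, hb, hb0, hab⟩ := hAFORM ℂ (fun p : ℂ × ℂ => H (ζ p, p)) ξ p₀.2
    (hξ0 ▸ ha) hξ (hξ0 ▸ hv)
  rw [hξ0] at hb hb0 hab
  have hk : k ≠ 0 := by
    rintro rfl
    have := hab.self_of_nhds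
    simp only [hζ0, h0, pow_zero, one_mul] at this
    exact hb0 this.symm
  obtain ⟨c, hc, hc0, hcb⟩ := hROOTK _ b _ k hb hb0 hk
  have hξ' : AnalyticAt ℂ (fun q : ℂ × ℂ => ξ q.2) (p₀.1 0, p₀.2) :=
    AnalyticAt.comp_of_eq hξ analyticAt_snd rfl
  have hα : AnalyticAt ℂ (fun q : ℂ × ℂ => (q.1 - ξ q.2) * c q) (p₀.1 0, p₀.2) :=
    (analyticAt_fst.sub hξ').mul hc
  refine build hCOORD H p₀ (fun q => (q.1 - ξ q.2) * c q) w {v | v 0 ^ k + v 1 ^ 2 = 0} hα hw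
    ?_ dw ?_
  · have e1 := hasDerivAt_dz hα.differentiableAt
    have e2 := ((hasDerivAt_id (p₀.1 0)).sub_const (ξ p₀.2)).mul
      (hasDerivAt_dz hc.differentiableAt)
    have e3 := e1.unique e2
    rw [e3]
    simpa [hξ0] using hc0
  · have hs : Tendsto (fun q : ℂ × ℂ × ℂ => q.2) (𝓝 (p₀.1 1, p₀.1 0, p₀.2))
        (𝓝 (p₀.1 0, p₀.2)) := continuous_snd.tendsto _
    filter_upwards [hHw, hs.eventually hab, hs.eventually hcb] with q e1 e2 e3
    rw [e1, e2, ← e3]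
    simp [mul_pow]

end Pool.Agent.P.MP_ab0431_ag.UB

namespace Pool.Agent.P.MP_ab0431_ag.UB

open Polynomial Set Filter Topology

namespace ROOT1a

theorem sum_mult (Q : ℂ[X]) : ∑ r ∈ Q.roots.toFinset, Q.rootMultiplicity r = Q.natDegree := by
  rw [← IsAlgClosed.card_roots_eq_natDegree, ← Multiset.toFinset_sum_count_eq]
  exact Finset.sum_congr rfl fun r _ => (count_roots Q).symm

theorem alg (Q : ℂ[X]) (R : Finset ℂ) (m : ℂ → ℕ) (N : ℂ → Set ℂ) (hQ : Q ≠ 0)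
    (hc : Q.roots.toFinset.card = R.card) (hs : ∑ r ∈ R, m r = Q.natDegree)
    (hd : (R : Set ℂ).PairwiseDisjoint N)
    (h1 : ∀ r ∈ R, ∀ x ∈ N r, eval x (derivative^[m r] Q) ≠ 0)
    (h2 : ∀ r ∈ R, ∃ x ∈ N r, eval x Q = 0) {r : ℂ} (hr : r ∈ R) {x : ℂ} (hx : x ∈ N r)
    (h0 : eval x Q = 0) : Q.rootMultiplicity x = m r := by
  choose! η hη h3 using h2
  have same : ∀ a ∈ R, ∀ b ∈ R, ∀ y, y ∈ N a → y ∈ N b → a = b := fun a ha b hb y ya yb => by
    by_contra h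
    exact Set.disjoint_left.1 (hd ha hb h) ya yb
  have inj : ∀ a ∈ R, ∀ b ∈ R, η a = η b → a = b := fun a ha b hb e =>
    same a ha b hb _ (hη a ha) (e ▸ hη b hb)
  have im : R.image η = Q.roots.toFinset := by
    refine Finset.eq_of_subset_of_card_le (fun y hy => ?_) ?_
    · obtain ⟨a, ha, rfl⟩ := Finset.mem_image.1 hy
      exact Multiset.mem_toFinset.2 ((mem_roots hQ).2 (h3 a ha))
    · rw [hc, Finset.card_image_of_injOn inj]
  have le : ∀ a ∈ R, Q.rootMultiplicity (η a) ≤ m a := fun a ha =>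
    not_lt.1 fun h => h1 a ha _ (hη a ha) (isRoot_iterate_derivative_of_lt_rootMultiplicity h)
  have e : ∑ a ∈ R, Q.rootMultiplicity (η a) = ∑ a ∈ R, m a := by
    rw [hs, ← sum_mult, ← im, Finset.sum_image inj]
  have hxm : x ∈ R.image η := im ▸ Multiset.mem_toFinset.2 ((mem_roots hQ).2 h0)
  obtain ⟨a, ha, rfl⟩ := Finset.mem_image.1 hxm
  obtain rfl := same a ha r hr _ (hη a ha) hx
  exact (Finset.sum_eq_sum_iff_of_le le).1 e a ha

/-- The values of an iterated derivative. -/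
noncomputable def ph (P : ℂ → ℂ[X]) (k : ℕ) (q : ℂ × ℂ) : ℂ := eval q.1 (derivative^[k] (P q.2))

variable {n : ℕ} {t₀ : ℂ}

theorem an (k : ℕ) : ∀ {P : ℂ → ℂ[X]}, (∀ j, AnalyticAt ℂ (fun t => (P t).coeff j) t₀) →
    (∀ᶠ t in 𝓝 t₀, (P t).natDegree ≤ n) → ∀ x, AnalyticAt ℂ (ph P k) (x, t₀) := by
  induction k with
  | zero =>
    intro P h1 h2 x
    have a : AnalyticAt ℂ (fun q : ℂ × ℂ => ∑ j ∈ Finset.range (n + 1), (P q.2).coeff j * q.1 ^ j)
        (x, t₀) := Finset.analyticAt_fun_sum _ fun j _ =>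
      (AnalyticAt.comp (g := fun t => (P t).coeff j) (f := Prod.snd) (x := (x, t₀)) (h1 j)
        analyticAt_snd).mul (analyticAt_fst.pow j)
    refine a.congr ?_
    filter_upwards [(continuous_snd.tendsto (x, t₀)).eventually h2] with q hq
    exact (eval_eq_sum_range' (Nat.lt_succ_of_le hq) _).symm
  | succ k ih =>
    intro P h1 h2 x
    refine ih (P := fun t => derivative (P t)) (fun j => ?_)
      (h2.mono fun t ht => (natDegree_derivative_le _).trans ((Nat.sub_le _ _).trans ht)) x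
    simp only [coeff_derivative]
    exact (h1 _).mul analyticAt_const

theorem dz_ph {P : ℂ → ℂ[X]} {k : ℕ} {x : ℂ} (h : AnalyticAt ℂ (ph P k) (x, t₀)) :
    dz (ph P k) (x, t₀) = ph P (k + 1) (x, t₀) := by
  have a := (hasDerivAt_dz h.differentiableAt).unique ((derivative^[k] (P t₀)).hasDerivAt x)
  rw [a, ph, Function.iterate_succ_apply']

theorem top_ne {Q : ℂ[X]} (h : Q ≠ 0) (r : ℂ) :
    eval r (derivative^[Q.rootMultiplicity r] Q) ≠ 0 := by
  rw [eval_iterate_derivative_rootMultiplicity, nsmul_eq_mul]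
  exact mul_ne_zero (Nat.cast_ne_zero.2 (Nat.factorial_ne_zero _))
    (eval_divByMonic_pow_rootMultiplicity_ne_zero r h)

end ROOT1a

open ROOT1a in
theorem p_ROOT1 (hIFT1 : S_IFT1) (hMINM : S_MINM) :
    S_ROOT1 := by
  intro n nn P t₀ x₀ h1 h2 hx
  have hA : ∀ k x, AnalyticAt ℂ (ph P k) (x, t₀) := fun k =>
    an k h1 (h2.mono fun t ht => ht.2.1.le)
  obtain ⟨z0, zd, zc⟩ := h2.self_of_nhds
  set R := (P t₀).roots.toFinset with hR
  set m : ℂ → ℕ := fun r => (P t₀).rootMultiplicity r with hm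
  obtain ⟨U, hU, hd⟩ := R.finite_toSet.t2_separation
  have hN : ∀ r, ∃ N ∈ 𝓝 r, N ⊆ U r ∧ ∀ᶠ t in 𝓝 t₀, ∀ x ∈ N, ph P (m r) (x, t) ≠ 0 := by
    intro r
    have a := (hA (m r) r).continuousAt.eventually_ne (top_ne z0 r)
    rw [nhds_prod_eq, eventually_prod_iff] at a
    obtain ⟨pa, ha, pb, hb, h⟩ := a
    exact ⟨{x | pa x} ∩ U r, inter_mem ha ((hU r).2.mem_nhds (hU r).1), inter_subset_right,
      hb.mono fun t ht x hx => h hx.1 ht⟩
  choose N hN hNU hNe using hN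
  have hfin : ∀ r, ∀ᶠ x in 𝓝[≠] r, ph P 0 (x, t₀) ≠ 0 := fun r => by
    have a : ∀ᶠ x in cofinite, ph P 0 (x, t₀) ≠ 0 := by
      rw [eventually_cofinite]
      simpa [ph] using (P t₀).finite_setOfPred_isRoot z0
    exact a.filter_mono (nhdsNE_le_cofinite r)
  have hE : ∀ᶠ t in 𝓝 t₀, ∀ r ∈ R, (∀ x ∈ N r, ph P (m r) (x, t) ≠ 0) ∧
      ∃ x ∈ N r, ph P 0 (x, t) = 0 := by
    rw [eventually_all_finset]
    exact fun r hr => (hNe r).and (hMINM ℂ _ r t₀ (hA 0 r)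
      ((mem_roots z0).1 (Multiset.mem_toFinset.1 hr)) (hfin r) _ (hN r))
  have hx0 : x₀ ∈ R := Multiset.mem_toFinset.2 ((mem_roots z0).2 hx)
  obtain ⟨k, hk⟩ : ∃ k, m x₀ = k + 1 :=
    ⟨m x₀ - 1, by have : 0 < m x₀ := (rootMultiplicity_pos z0).2 hx; omega⟩
  obtain ⟨ξ, a1, a2, -, a3⟩ := hIFT1 ℂ (ph P k) x₀ t₀ (hA k x₀)
    (isRoot_iterate_derivative_of_lt_rootMultiplicity
      (show k < m x₀ from hk ▸ k.lt_succ_self))
    (by rw [dz_ph (hA k x₀), ← hk]; exact top_ne z0 x₀)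
  refine ⟨ξ, a1, a2, ?_⟩
  filter_upwards [a3, (continuous_snd.tendsto (x₀, t₀)).eventually (h2.and hE),
    (continuous_fst.tendsto (x₀, t₀)).eventually (hN x₀)] with q b1 b2 b3 b4
  obtain ⟨⟨c0, cd, cc⟩, c⟩ := b2
  have e := alg (P q.2) R m N c0 (cc.trans zc.symm) (by rw [cd, ← zd]; exact sum_mult _)
    (hd.mono hNU) (fun r hr => (c r hr).1) (fun r hr => (c r hr).2) hx0 b3 b4
  exact b1 (isRoot_iterate_derivative_of_lt_rootMultiplicity (by rw [e, hk]; exact k.lt_succ_self))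

end Pool.Agent.P.MP_ab0431_ag.UB

namespace Pool.Agent.P.MP_ab0431_ag.UB

open Polynomial Set Filter Topology

namespace TRD0a

theorem coeff_eq {b m : ℕ} (c : Co b m → ℂ) (j : ℕ) : (Δ b (toP c)).coeff j =
    MvPolynomial.aeval c
      ((Δ b (toP (MvPolynomial.X : Co b m → MvPolynomial (Co b m) ℂ))).coeff j) := by
  have h : c = (MvPolynomial.eval c) ∘ (MvPolynomial.X : Co b m → MvPolynomial (Co b m) ℂ) := by
    funext i; simp
  conv_lhs => rw [h, toP_map, Δ_map]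
  rw [coe_mapRingHom, coeff_map, MvPolynomial.aeval_eq_eval]

theorem root (hDSEP : S_DSEP) {b m : ℕ} (c : Co b m → ℂ) {x z : ℂ}
    (h1 : (toP c).evalEval x z = 0) (h2 : (toP c).derivative.evalEval x z = 0) :
    (Δ b (toP c)).eval x = 0 := by
  by_contra h
  have hm := toP_monic c
  have hs := (hDSEP ℂ b ((toP c).map (evalRingHom x)) (hm.map _)
    (by rw [hm.natDegree_map, toP_natDegree])).1 (by rw [Δ_map]; exact h)
  obtain ⟨u, v, e⟩ := hs
  have := congrArg (eval z) e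
  rw [derivative_map, eval_add, eval_mul, eval_mul, map_evalRingHom_eval, map_evalRingHom_eval,
    h1, h2, mul_zero, mul_zero, add_zero, eval_one] at this
  exact zero_ne_one this

end TRD0a

theorem p_TRD0 (hROOT1 : S_ROOT1) (hTOP : S_TOP) (hDSEP : S_DSEP) :
    S_TRD0 := by
  intro b m nn N U s H t₀ ht x₀ z₀ h1 h2
  have hU := H.isOpen.mem_nhds ht
  have hs : ∀ i, AnalyticAt ℂ (fun t => s t i) t₀ := fun i =>
    (differentiableOn_pi.1 H.hol i).analyticAt hU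
  obtain ⟨ξ, a1, a2, a3⟩ := hROOT1 (b * (b - 1)) nn (fun t => Δ b (toP (s t))) t₀ x₀
    (fun j => by
      simp only [TRD0a.coeff_eq]
      exact AnalyticAt.aeval_mvPolynomial hs _)
    (by
      filter_upwards [hU] with t ht
      obtain ⟨⟨g1, g2, -⟩, g3⟩ := H.good t ht
      refine ⟨fun e => g2 (by rw [e, coeff_zero]), natDegree_eq_of_le_of_coeff_ne_zero
        (natDegree_le_iff_coeff_eq_zero.2 fun n hn => ?_) g2, g3⟩
      exact (hTOP ℂ b 1 _ (toP_monic _) (toP_natDegree _) g1).1 n (by rwa [one_mul]))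
    (TRD0a.root hDSEP _ h1 h2)
  refine ⟨ξ, a1, a2, ?_⟩
  have hc : Tendsto (fun q : ℂ × ℂ × ℂ => q.2) (𝓝 (z₀, x₀, t₀)) (𝓝 (x₀, t₀)) :=
    continuous_snd.tendsto _
  filter_upwards [hc.eventually a3] with q hq b1 b2
  exact hq (TRD0a.root hDSEP _ b1 b2)

end Pool.Agent.P.MP_ab0431_ag.UB

namespace Pool.Agent.P.MP_ab0431_ag.UB

open Polynomial Set Filter Topology

namespace TRAa

theorem dz_poly {P : Type} [NormedAddCommGroup P] [NormedSpace ℂ P] {h : ℂ × P → ℂ} {z : ℂ} {p : P}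
    (ha : AnalyticAt ℂ h (z, p)) {f : ℂ[X]} (e : ∀ x, h (x, p) = f.eval x) :
    dz h (z, p) = f.derivative.eval z :=
  (hasDerivAt_dz ha.differentiableAt).unique (by simpa only [e] using f.hasDerivAt z)

theorem ana {b m : ℕ} {U : Set ℂ} {s : ℂ → Co b m → ℂ} (hU : IsOpen U)
    (hs : DifferentiableOn ℂ s U) {V : ℂ × ℂ × ℂ → Fin 3 → ℂ} {q : ℂ × ℂ × ℂ} (hq : q.2.2 ∈ U)
    (hV : ∀ i, AnalyticAt ℂ (fun y => V y i) q) :
    AnalyticAt ℂ (fun y => hom b (toP (s y.2.2)) (V y)) q := by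
  have h1 : ∀ p, AnalyticAt ℂ (fun y : ℂ × ℂ × ℂ => s y.2.2 p) q := fun p =>
    (analyticAt_pi_iff.1 (hs.analyticAt (hU.mem_nhds hq)) p).comp (f := fun y : ℂ × ℂ × ℂ => y.2.2)
      (analyticAt_snd.comp analyticAt_snd)
  simp only [hom, toP_coeff]
  refine Finset.analyticAt_fun_sum _ fun j _ => Finset.analyticAt_fun_sum _ fun l _ =>
    ((AnalyticAt.mul (analyticAt_const.add (Finset.analyticAt_fun_sum _ fun p _ => ?_))
      ((hV 0).pow _)).mul ((hV 1).pow _)).mul ((hV 2).pow _)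
  split_ifs
  exacts [h1 p, analyticAt_const]

theorem an21 {q : ℂ × ℂ × ℂ} : AnalyticAt ℂ (fun y : ℂ × ℂ × ℂ => y.2.1) q :=
  analyticAt_fst.comp analyticAt_snd

theorem top_coeff (b m : ℕ) (F : ℂ[X][X]) (j : ℕ) :
    (top b m F).coeff j = if j < b + 1 then (F.coeff j).coeff (m * (b - j)) else 0 := by
  simp [top, coeff_monomial]

theorem ins0 (w : C2) : (0 : Fin 3).insertNth (α := fun _ => ℂ) 1 w = ![1, w 0, w 1] := by
  ext i; fin_cases i <;> rfl

theorem ins1 (w : C2) : (1 : Fin 3).insertNth (α := fun _ => ℂ) 1 w = ![w 0, 1, w 1] := by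
  ext i; fin_cases i <;> rfl

theorem ins2 (w : C2) : (2 : Fin 3).insertNth (α := fun _ => ℂ) 1 w = ![w 0, w 1, 1] := by
  ext i; fin_cases i <;> rfl

end TRAa

open TRAa in
theorem p_TRA (hTRIV0 : S_TRIV0) (hTRD0 : S_TRD0) (hTOP : S_TOP) (hDSEP : S_DSEP) (hPMEX : S_PMEX) (hBCF : S_BCF) :
    S_TRA := by
  intro b m nn N U s H t₀ ht v hv
  obtain ⟨Q⟩ := hPMEX
  have hB := fun t (h : t ∈ U) => (hBCF Q b m (s t) (H.good t h).1.1).2.2
  obtain ⟨g1, g2, g3⟩ := (H.good t₀ ht).1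
  by_cases h0 : v 0 = 0
  · by_cases h1 : v 1 = 0
    · refine ⟨2, ![0, 0], v 2, ?_, ?_⟩
      · rw [ins2]; ext i; fin_cases i <;> simp [h0, h1]
      simp only [ins2]
      exact hTRIV0 (fun q => hom b (toP (s q.2.2)) ![q.2.1, q.1, 1]) (![0, 0], t₀)
        (ana H.isOpen H.hol ht fun i => by
          fin_cases i; exacts [an21, analyticAt_fst, analyticAt_const])
        (.inl ((hB t₀ ht).2.2.1.trans_ne one_ne_zero))
    refine ⟨1, ![0, v 2 / v 1], v 1, ?_, ?_⟩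
    · rw [ins1]; ext i; fin_cases i <;> simp [h0, mul_div_cancel₀ _ h1]
    simp only [ins1]
    have ha : AnalyticAt ℂ (fun q : ℂ × ℂ × ℂ => hom b (toP (s q.2.2)) ![q.2.1, 1, q.1])
        (v 2 / v 1, 0, t₀) := ana H.isOpen H.hol ht fun i => by
      fin_cases i; exacts [an21, analyticAt_const, analyticAt_fst]
    refine hTRIV0 _ (![0, v 2 / v 1], t₀) ha ?_
    have a1 : (top b 1 (toP (s t₀))).natDegree ≤ b :=
      natDegree_le_iff_coeff_eq_zero.2 fun j hj => by rw [top_coeff, if_neg (by omega)]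
    have a2 : (top b 1 (toP (s t₀))).coeff b = 1 := by
      have := (toP_monic (s t₀)).coeff_natDegree
      rw [toP_natDegree] at this
      simp [top_coeff, this]
    have a3 := (hTOP ℂ b 1 _ (toP_monic _) (toP_natDegree _) g1).2
    rw [one_mul] at a3
    obtain ⟨f, g, e⟩ := (hDSEP ℂ b _ (monic_of_natDegree_le_of_coeff_eq_one _ a1 a2)
      (natDegree_eq_of_le_of_coeff_ne_zero a1 (a2.trans_ne one_ne_zero))).1 (a3 ▸ g2)
    by_contra! h
    have := congrArg (eval (v 2 / v 1)) e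
    rw [eval_add, eval_mul, eval_mul, ← dz_poly ha (hB t₀ ht).2.1, ← (hB t₀ ht).2.1] at this
    erw [h.1, h.2.1] at this
    simp at this
  refine ⟨0, ![v 1 / v 0, v 2 / v 0], v 0, ?_, ?_⟩
  · rw [ins0]; ext i; fin_cases i <;> simp [mul_div_cancel₀ _ h0]
  simp only [ins0]
  have ha : ∀ q : ℂ × ℂ × ℂ, q.2.2 ∈ U →
      AnalyticAt ℂ (fun q : ℂ × ℂ × ℂ => hom b (toP (s q.2.2)) ![1, q.2.1, q.1]) q := fun q hq =>
    ana H.isOpen H.hol hq fun i => by fin_cases i; exacts [analyticAt_const, an21, analyticAt_fst]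
  have d1 : ∀ z x t, t ∈ U → dz (fun q : ℂ × ℂ × ℂ => hom b (toP (s q.2.2)) ![1, q.2.1, q.1])
      (z, x, t) = ((toP (s t)).derivative.map (evalRingHom x)).eval z := fun z x t h => by
    rw [dz_poly (ha (z, x, t) h) (f := (toP (s t)).map (evalRingHom x))
      fun y => ((hB t h).1 x y).trans (map_evalRingHom_eval _ _ _).symm, derivative_map]
  refine hTRIV0 _ (![v 1 / v 0, v 2 / v 0], t₀) (ha _ ht) ?_
  change _ ≠ 0 ∨ dz _ (v 2 / v 0, v 1 / v 0, t₀) ≠ 0 ∨ dz _ (v 2 / v 0, v 1 / v 0, t₀) ≠ 0 ∧ _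
  rw [dz_poly (analyticAt_dz (ha (_, _, t₀) ht)) fun y => d1 y _ t₀ ht, d1 _ _ _ ht, derivative_map,
    map_evalRingHom_eval, map_evalRingHom_eval]
  refine or_iff_not_imp_left.2 fun e1 => or_iff_not_imp_left.2 fun e2 => ?_
  replace e1 := ((hB t₀ ht).1 _ _).symm.trans (not_not.1 e1)
  obtain ⟨ξ, b1, b2, b3⟩ := hTRD0 b m nn N U s H t₀ ht _ _ e1 (not_not.1 e2)
  refine ⟨fun e3 => g3 _ _ ⟨e1, not_not.1 e2, e3⟩, ξ, b1, b2, ?_⟩
  filter_upwards [b3, (continuous_snd.comp continuous_snd).continuousAt.eventually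
    (H.isOpen.mem_nhds ht)] with q c1 c2 c3 c4
  exact c1 (((hB _ c2).1 _ _).symm.trans c3)
    ((map_evalRingHom_eval _ _ _).symm.trans ((d1 _ _ _ c2).symm.trans c4))

end Pool.Agent.P.MP_ab0431_ag.UB
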