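import Pool.Agent.P.MP_ab0431_ag.UB.IfaceD5
import Pool.Agent.P.MP_ab0431_ag.UB.IfaceT

/-! Steps RAYS TUNI SECS SL1 TSEC TGLUE SL2 SL3 SLIT HLIFT CONN COVG PULL BCH FOLD. -/

set_option autoImplicit false
set_option linter.unusedSectionVars false
set_option linter.unusedVariables false

namespace Pool.Agent.P.MP_ab0431_ag.UB

open Polynomial Set Filter Topology

/-- The coordinate in which `o` is `0` and `z` is `1`. -/
noncomputable def w_rays (o z x : ℂ) : ℂ := (x - o) / (z - o)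

/-- The complement of the ray. -/
def c_rays (o z : ℂ) : Set ℂ := {x | (w_rays o z x).im ≠ 0 ∨ (w_rays o z x).re < 1}

/-- A half plane. -/
def h_rays (o z : ℂ) (α β γ : ℝ) : Set ℂ :=
  {x | γ < α * (w_rays o z x).re + β * (w_rays o z x).im}

/-- A wedge around the ray. -/
def v_rays (o z : ℂ) (ε : ℝ) : Set ℂ :=
  h_rays o z 1 0 1 ∩ (h_rays o z ε 1 0 ∩ h_rays o z ε (-1) 0)

theorem cont_rays (o z : ℂ) : Continuous (w_rays o z) := by
  unfold w_rays
  fun_prop

theorem comb_rays (o z x y : ℂ) {a b : ℝ} (h : a + b = 1) :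
    w_rays o z (a • x + b • y) = a * w_rays o z x + b * w_rays o z y := by
  have : (a : ℂ) + b = 1 := by exact_mod_cast h
  simp only [w_rays, Complex.real_smul, ← mul_div_assoc, ← add_div]
  congr 1
  linear_combination o * this

theorem oc_rays (o z : ℂ) : IsOpen (c_rays o z) :=
  (isOpen_ne_fun (Complex.continuous_im.comp (cont_rays o z)) continuous_const).union
    (isOpen_lt (Complex.continuous_re.comp (cont_rays o z)) continuous_const)

theorem oh_rays (o z : ℂ) (α β γ : ℝ) : IsOpen (h_rays o z α β γ) :=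
  isOpen_lt continuous_const (by have := cont_rays o z; fun_prop)

theorem ch_rays (o z : ℂ) (α β γ : ℝ) : Convex ℝ (h_rays o z α β γ) := by
  intro x hx y hy a b ha hb hab
  have := convex_Ioi γ hx hy ha hb hab
  simp only [h_rays, mem_ofPred_eq, comb_rays o z x y hab, Complex.add_re, Complex.add_im,
    Complex.re_ofReal_mul, Complex.im_ofReal_mul]
  simp only [mem_Ioi, smul_eq_mul] at this
  linarith

theorem cv_rays (o z : ℂ) (ε : ℝ) : Convex ℝ (v_rays o z ε) :=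
  (ch_rays _ _ _ _ _).inter ((ch_rays _ _ _ _ _).inter (ch_rays _ _ _ _ _))

theorem star_rays {o z p : ℂ} (h1 : (w_rays o z p).im = 0) (h2 : (w_rays o z p).re < 1) :
    StarConvex ℝ p (c_rays o z) := by
  intro y hy a b ha hb hab
  simp only [c_rays, mem_ofPred_eq, comb_rays o z p y hab, Complex.add_re, Complex.add_im,
    Complex.re_ofReal_mul, Complex.im_ofReal_mul, h1, mul_zero, zero_add]
  rcases hy with hy | hy
  · rcases hb.eq_or_lt with rfl | hb'
    · rw [add_zero] at hab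
      exact .inr (by rw [hab]; linarith)
    · exact .inl (mul_ne_zero hb'.ne' hy)
  · exact .inr (convex_Iio (1 : ℝ) h2 hy ha hb hab)

theorem pt_rays {o z : ℂ} (h : z ≠ o) (c : ℂ) {r : ℝ} (hr : 0 < r) :
    ∃ δ : ℝ, 0 < δ ∧ ∃ x ∈ Metric.ball z r, w_rays o z x = 1 + δ * c := by
  have h0 : 0 < ‖c * (z - o)‖ + 1 := by positivity
  refine ⟨r / (‖c * (z - o)‖ + 1), by positivity,
    z + (r / (‖c * (z - o)‖ + 1) : ℝ) * (c * (z - o)), ?_, ?_⟩
  · rw [mem_ball_iff_norm, add_sub_cancel_left, norm_mul, Complex.norm_real,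
      Real.norm_of_nonneg (by positivity), div_mul_eq_mul_div, div_lt_iff₀ h0]
    nlinarith
  · rw [w_rays, div_eq_iff (sub_ne_zero.2 h)]
    ring

theorem gen_rays (Z : Finset ℂ) :
    ∃ o, ∀ z ∈ Z, z ≠ o ∧ ∀ z' ∈ Z, z ≠ z' → (w_rays o z z').im ≠ 0 := by
  have : ∀ᶠ t : ℝ in cofinite, ∀ z ∈ Z, z ≠ ⟨t, t ^ 2⟩ ∧
      ∀ z' ∈ Z, z ≠ z' → (w_rays ⟨t, t ^ 2⟩ z z').im ≠ 0 := by
    refine (eventually_all_finset Z).2 fun z _ => ?_
    have h1 : ∀ᶠ t : ℝ in cofinite, z ≠ ⟨t, t ^ 2⟩ :=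
      (eventually_cofinite_ne z.re).mono fun t ht e => ht (by rw [e])
    refine h1.and ((eventually_all_finset Z).2 fun z' _ => ?_)
    rcases eq_or_ne z z' with e | e
    · exact .of_forall fun _ h => absurd e h
    have h2 : (C (z'.re - z.re) * X ^ 2 + C (z.im - z'.im) * X +
        C (z.re * z'.im - z'.re * z.im) : ℝ[X]) ≠ 0 := fun h => e (by
      have a := congrArg (coeff · 2) h
      have b := congrArg (coeff · 1) h
      simp only [coeff_add, coeff_C_mul, coeff_X_pow, coeff_X, coeff_C, coeff_zero] at a b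
      norm_num at a b
      exact Complex.ext (by linarith) (by linarith))
    filter_upwards [h1, eventually_cofinite_not_isRoot h2] with t a b _ c
    refine b ?_
    have d := (Complex.normSq_pos.2 (sub_ne_zero.2 a)).ne'
    rw [w_rays, Complex.div_im, ← sub_div, div_eq_zero_iff, or_iff_left d] at c
    simp only [Complex.sub_re, Complex.sub_im] at c
    simp only [IsRoot, eval_add, eval_mul, eval_C, eval_pow, eval_X]
    linarith
  obtain ⟨t, ht⟩ := this.exists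
  exact ⟨_, ht⟩

theorem p_RAYS :
    S_RAYS := by
  intro Z
  obtain ⟨o, ho⟩ := gen_rays Z
  have : ∀ᶠ ε : ℝ in 𝓝 0, ∀ z ∈ Z, ∀ z' ∈ Z, z ≠ z' →
      ε * (w_rays o z z').re < |(w_rays o z z').im| := by
    refine (eventually_all_finset Z).2 fun z hz => (eventually_all_finset Z).2 fun z' hz' => ?_
    rcases eq_or_ne z z' with e | e
    · exact .of_forall fun _ h => absurd e h
    refine (ContinuousAt.eventually_lt (f := fun ε : ℝ => ε * (w_rays o z z').re) (by fun_prop)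
      continuousAt_const ?_).mono fun _ h _ => h
    simpa using (ho z hz).2 z' hz' e
  obtain ⟨ε, hε, ε0⟩ := ((this.filter_mono nhdsWithin_le_nhds).and
    (self_mem_nhdsWithin (s := Ioi 0))).exists
  have w1 : ∀ z ∈ Z, w_rays o z z = 1 := fun z hz => div_self (sub_ne_zero.2 (ho z hz).1)
  have w0 : ∀ z, w_rays o z o = 0 := fun z => by simp [w_rays]
  have zc : ∀ z ∈ Z, z ∉ c_rays o z := fun z hz => by simp [c_rays, w1 z hz]
  have zv : ∀ z ∈ Z, z ∉ v_rays o z ε := fun z hz h => by simpa [h_rays, w1 z hz] using h.1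
  have wm : ∀ z, ∀ z' ∈ Z, ∀ x ∉ c_rays o z', ∃ t : ℝ, 1 ≤ t ∧
      w_rays o z x = t * w_rays o z z' := fun z z' hz' x hx => by
    simp only [c_rays, mem_ofPred_eq, not_or, not_not, not_lt] at hx
    refine ⟨_, hx.2, ?_⟩
    rw [show (((w_rays o z' x).re : ℝ) : ℂ) = w_rays o z' x from Complex.ext rfl hx.1.symm, w_rays,
      w_rays, w_rays, div_mul_div_cancel₀ (sub_ne_zero.2 (ho z' hz').1)]
  have vc : ∀ z ∈ Z, ∀ z' ∈ Z, z ≠ z' → v_rays o z ε ⊆ c_rays o z' := fun z hz z' hz' e x hx => by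
    by_contra h
    obtain ⟨t, t1, ht⟩ := wm z z' hz' x h
    obtain ⟨-, a, b⟩ := hx
    simp only [h_rays, mem_ofPred_eq, ht, Complex.re_ofReal_mul, Complex.im_ofReal_mul] at a b
    have := hε z hz z' hz' e
    rcases abs_cases (w_rays o z z').im with c | c <;> nlinarith [c.1]
  have pv : ∀ z ∈ Z, ∀ r, 0 < r → ∀ s : ℝ, s = 1 ∨ s = -1 →
      ∃ x ∈ Metric.ball z r, x ∈ v_rays o z ε ∩ h_rays o z 0 s 0 := fun z hz r hr s hs => by
    obtain ⟨δ, δ0, x, hx, e⟩ := pt_rays (ho z hz).1 ⟨1, s * (ε / 2)⟩ hr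
    have := mul_pos δ0 ε0
    refine ⟨x, hx, ⟨?_, ?_, ?_⟩, ?_⟩ <;> rcases hs with rfl | rfl <;>
      simp only [h_rays, mem_ofPred_eq, e, Complex.add_re, Complex.add_im, Complex.re_ofReal_mul,
        Complex.im_ofReal_mul, Complex.one_re, Complex.one_im] <;> nlinarith
  have hc : ∀ z s x, x ∈ h_rays o z 0 s 0 → x ∈ c_rays o z := fun z s x h =>
    .inl fun e => by simp [h_rays, e] at h
  have hU : ∀ z ∈ Z, ∀ x ∈ c_rays o z, (∀ z' ∈ Z, z ≠ z' → x ∈ c_rays o z') →
      x ∈ ⋂ z ∈ Z, c_rays o z := fun z hz x a b => mem_iInter₂.2 fun z' hz' => by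
    rcases eq_or_ne z z' with rfl | e
    exacts [a, b z' hz' e]
  refine ⟨⟨⋂ z ∈ Z, c_rays o z, fun z => v_rays o z ε, fun z => v_rays o z ε ∩ h_rays o z 0 1 0,
    fun z => v_rays o z ε ∩ h_rays o z 0 (-1) 0, isOpen_biInter_finset fun z _ => oc_rays o z, ?_,
    fun x hx h => zc x h (mem_iInter₂.1 hx x h),
    fun z _ => (oh_rays _ _ _ _ _).inter ((oh_rays _ _ _ _ _).inter (oh_rays _ _ _ _ _)),
    fun z hz => ?_, fun z hz x hx h => ?_, fun z hz => ?_,
    fun z _ => ((cv_rays _ _ _).inter (ch_rays _ _ _ _ _)).isPreconnected,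
    fun z _ => ((cv_rays _ _ _).inter (ch_rays _ _ _ _ _)).isPreconnected,
    fun z hz z' hz' e x hx => ?_,
    fun x hx => ?_, fun z hz r hr => ?_⟩⟩
  · have := (starConvex_iInter₂ fun z (_ : z ∈ Z) => star_rays (o := o) (z := z) (p := o)
      (by simp [w0]) (by simp [w0])).contractibleSpace
        ⟨o, mem_iInter₂.2 fun z _ => .inr (by simp [w0])⟩
    exact SimplyConnectedSpace.ofContractible _
  · obtain ⟨x, -, hx⟩ := pv z hz 1 one_pos 1 (.inl rfl)
    have := (cv_rays o z ε).contractibleSpace ⟨x, hx.1⟩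
    exact SimplyConnectedSpace.ofContractible _
  · rcases eq_or_ne z x with rfl | e
    exacts [zv z hz hx, zc x h (vc z hz x h e hx)]
  · ext x
    refine ⟨fun h => ?_, fun h => h.elim
      (fun h => ⟨h.1, hU z hz x (hc _ _ _ h.2) fun z' hz' e => vc z hz z' hz' e h.1⟩)
      fun h => ⟨h.1, hU z hz x (hc _ _ _ h.2) fun z' hz' e => vc z hz z' hz' e h.1⟩⟩
    rcases mem_iInter₂.1 h.2 z hz with e | e
    · rcases e.lt_or_gt with e | e
      · exact .inr ⟨h.1, by simpa [h_rays] using e⟩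
      · exact .inl ⟨h.1, by simpa [h_rays] using e⟩
    · exact absurd e (lt_asymm (by simpa [h_rays] using h.1.1))
  · exact hU z hz x (vc z' hz' z hz e.symm hx.2) fun y hy e' => vc z hz y hy e' hx.1
  · by_cases h : x ∈ ⋂ z ∈ Z, c_rays o z
    · exact .inl h
    simp only [mem_iInter, not_forall] at h
    obtain ⟨z, hz, h⟩ := h
    obtain ⟨t, t1, ht⟩ := wm z z hz x h
    rw [w1 z hz, mul_one] at ht
    have t2 : 1 < t := t1.lt_of_ne fun e => hx (by
      rw [← e, w_rays, div_eq_iff (sub_ne_zero.2 (ho z hz).1)] at ht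
      rwa [show x = z by simpa using ht])
    refine .inr ⟨z, hz, ?_, ?_, ?_⟩ <;>
      simp only [h_rays, mem_ofPred_eq, ht, Complex.ofReal_re, Complex.ofReal_im] <;> nlinarith
  · have : ∀ᶠ x in 𝓝 z, ∀ z' ∈ Z, z ≠ z' → x ∈ c_rays o z' := by
      refine (eventually_all_finset Z).2 fun z' hz' => ?_
      rcases eq_or_ne z z' with e | e
      · exact .of_forall fun _ h => absurd e h
      exact Eventually.mono ((oc_rays o z').mem_nhds (.inl ((ho z' hz').2 z hz e.symm)))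
        fun _ h _ => h
    obtain ⟨ρ, ρ0, hρ⟩ := Metric.eventually_nhds_iff_ball.1 (this.and (Metric.ball_mem_nhds z hr))
    obtain ⟨δ, δ0, y, hy, e⟩ := pt_rays (ho z hz).1 (-1) ρ0
    have y1 : (w_rays o z y).im = 0 := by simp [e]
    have y2 : (w_rays o z y).re < 1 := by simpa [e] using δ0
    refine ⟨Metric.ball z ρ ∩ c_rays o z, Metric.ball z ρ ∩ v_rays o z ε,
      ((((convex_ball z ρ).starConvex hy).inter (star_rays y1 y2)).isPathConnected
        ⟨hy, .inr y2⟩).isConnected.isPreconnected,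
      ((convex_ball z ρ).inter (cv_rays _ _ _)).isPreconnected,
      fun x hx => ⟨⟨(hρ x hx.1).2, fun e => zc z hz (e ▸ hx.2)⟩, hU z hz x hx.2 (hρ x hx.1).1⟩,
      fun x hx => ⟨⟨(hρ x hx.1).2, fun e => zv z hz (e ▸ hx.2)⟩, hx.2⟩, ?_, ?_⟩
    · obtain ⟨x, a, b⟩ := pv z hz ρ ρ0 1 (.inl rfl)
      exact ⟨x, ⟨⟨a, hc _ _ _ b.2⟩, a, b.1⟩, b⟩
    · obtain ⟨x, a, b⟩ := pv z hz ρ ρ0 (-1) (.inr rfl)
      exact ⟨x, ⟨⟨a, hc _ _ _ b.2⟩, a, b.1⟩, b⟩

end Pool.Agent.P.MP_ab0431_ag.UB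

namespace Pool.Agent.P.MP_ab0431_ag.UB

open Polynomial Set Filter Topology

theorem p_TUNI :
    S_TUNI := by
  intro E T A _ _ _ p W S g₁ g₂ a cov hS h1 h2 h ha e x hx
  rw [continuousOn_iff_continuous_domRestrict] at h1 h2
  rw [isPreconnected_iff_preconnectedSpace] at hS
  have h' : ∀ y : S, g₂ y ∈ p ⁻¹' W := fun y => by
    rw [mem_preimage, (h y y.2).2]; exact (h y y.2).1
  have := cov.isCoveringMap_restrictPreimage.eq_of_comp_eq
    (g₁ := fun y : S => ⟨g₁ y, (h y y.2).1⟩)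
    (g₂ := fun y : S => ⟨g₂ y, h' y⟩)
    (h1.subtype_mk _) (h2.subtype_mk _) (funext fun y => Subtype.ext (h y y.2).2.symm)
    ⟨a, ha⟩ (Subtype.ext e)
  exact congrArg Subtype.val (congrFun this ⟨x, hx⟩)

end Pool.Agent.P.MP_ab0431_ag.UB

namespace Pool.Agent.P.MP_ab0431_ag.UB

open Polynomial Set Filter Topology

theorem p_SECS :
    S_SECS := by
  intro E T ι _ _ _ p O x₀ a hp hO hs hx ha hi hsur
  classical
  have : SimplyConnectedSpace O := hs
  have : LocallyPathConnectedSpace O := hO.locallyPathConnectedSpace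
  have key : ∀ (x : O) (e : E), p e = x → ∃! F : C(O, E), F x = e ∧ p ∘ F = Subtype.val :=
    fun x e he => hp.existsUnique_continuousMap_lifts ⟨Subtype.val, continuous_subtype_val⟩
      (a₀ := x) (e₀ := e) he fun a => a.2
  choose F hF using fun l => (key ⟨x₀, hx⟩ (a l) (ha l)).exists
  refine ⟨fun l x => if h : x ∈ O then F l ⟨x, h⟩ else a l, ⟨fun l => ?_, fun x h =>
    ⟨fun l => ?_, fun l l' e => ?_, fun e he => ?_⟩⟩, fun l => ?_⟩
  · rw [continuousOn_iff_continuous_domRestrict]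
    exact (F l).continuous.congr fun x => by simp
  · simp only [dif_pos h]
    exact congrFun (hF l).2 ⟨x, h⟩
  · simp only [dif_pos h] at e
    have := (key ⟨x, h⟩ (F l' ⟨x, h⟩) (congrFun (hF l').2 ⟨x, h⟩)).unique ⟨e, (hF l).2⟩
      ⟨rfl, (hF l').2⟩
    exact hi (by rw [← (hF l).1, this, (hF l').1])
  · obtain ⟨G, h1, h2⟩ := (key ⟨x, h⟩ e he).exists
    obtain ⟨l, hl⟩ := hsur (G ⟨x₀, hx⟩) (congrFun h2 ⟨x₀, hx⟩)
    refine ⟨l, ?_⟩
    simp only [dif_pos h]
    rw [(key ⟨x₀, hx⟩ (a l) (ha l)).unique (hF l) ⟨hl.symm, h2⟩, h1]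
  · simp only [dif_pos hx]
    exact (hF l).1

end Pool.Agent.P.MP_ab0431_ag.UB

namespace Pool.Agent.P.MP_ab0431_ag.UB

open Polynomial Set Filter Topology

theorem perm_sl1 {d : ℕ} (σ : Equiv.Perm (Fin d)) (j : Fin (d - 2) → Fin d)
    (hj : Function.Injective j) (h : ∀ k, σ (j k) = j k) : σ = 1 ∨ ∃ a b, σ = Equiv.swap a b := by
  have h1 : σ.support ⊆ (Finset.univ.map ⟨j, hj⟩)ᶜ := fun x hx => Finset.mem_compl.2 fun e => by
    obtain ⟨k, -, rfl⟩ := Finset.mem_map.1 e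
    exact Equiv.Perm.mem_support.1 hx (h k)
  have h2 := Finset.card_le_card h1
  rw [Finset.card_compl, Finset.card_map, Finset.card_univ, Fintype.card_fin, Fintype.card_fin] at h2
  by_cases e : σ.support.card ≤ 1
  · exact .inl (Equiv.Perm.card_support_le_one.1 e)
  · obtain ⟨a, b, -, e⟩ := (Equiv.Perm.card_support_eq_two (f := σ)).1 (by omega)
    exact .inr ⟨a, b, e⟩

theorem p_SL1 (hTUNI : S_TUNI) (hSECS : S_SECS) :
    S_SL1 := by
  intro Z R d E _ p hp hd hf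
  have uni : ∀ (S O O' : Set ℂ) (g g' : ℂ → E) (a : ℂ), IsPreconnected S → S ⊆ O → S ⊆ O' →
      O ⊆ (Z : Set ℂ)ᶜ → ContinuousOn g O → ContinuousOn g' O' → (∀ x ∈ O, p (g x) = x) →
      (∀ x ∈ O', p (g' x) = x) → a ∈ S → g a = g' a → EqOn g g' S :=
    fun S O O' g g' a c u u' w t t' e e' =>
      hTUNI E ℂ ℂ p _ S g g' a hp c (t.mono u) (t'.mono u') fun x hx => by
        rw [e x (u hx), e' x (u' hx)]
        exact ⟨w (u hx), rfl⟩
  obtain ⟨u, hu⟩ := R.scU.nonempty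
  have h1 := hd u (R.UZ hu)
  have := (finite_of_encard_eq_coe h1).to_subtype
  let a := (Finite.equivFinOfCardEq (α := p ⁻¹' {u}) (n := d) (by
    rw [Nat.card_coe_set_eq, ncard, h1, ENat.toNat_natCast])).symm
  obtain ⟨s, hs, -⟩ := hSECS E ℂ (Fin d) p R.U u (fun l => a l) (hp.mono R.UZ) R.oU R.scU hu
    (fun l => (a l).2) (Subtype.val_injective.comp a.injective)
    fun e he => ⟨a.symm ⟨e, he⟩, by simp⟩
  have key : ∀ z ∈ Z, ∃ (σ : Equiv.Perm (Fin d)) (τ : Fin d → ℂ → E), (Secs p (R.V z) τ ∧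
      ∀ l, EqOn (τ l) (s l) (R.Vp z) ∧ EqOn (τ l) (s (σ l)) (R.Vm z)) ∧
      (σ = 1 ∨ ∃ a b, σ = Equiv.swap a b) := fun z hz => by
    have vp : R.Vp z ⊆ R.V z ∩ R.U := R.VU z hz ▸ subset_union_left
    have vm : R.Vm z ⊆ R.V z ∩ R.U := R.VU z hz ▸ subset_union_right
    obtain ⟨η, ε, e0, c, hη⟩ := hf z hz
    obtain ⟨A, A', cA, cA', sA, sA', ⟨y, ⟨ya, yb⟩, yc⟩, x, ⟨xa, xb⟩, xc⟩ := R.near z hz ε e0
    obtain ⟨b1, b2, b3⟩ := hs.2 y (vp yc).2
    obtain ⟨τ, ht, e⟩ := hSECS E ℂ (Fin d) p (R.V z) y (fun l => s l y) (hp.mono (R.VZ z hz))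
      (R.oV z hz) (R.scV z hz) (vp yc).1 b1 b2 b3
    choose f hf using fun l => (hs.2 x (vm xc).2).2.2 (τ l x) ((ht.2 x (vm xc).1).1 l)
    have fi : Function.Injective f := fun l l' e => (ht.2 x (vm xc).1).2.1 (by
      simp only [← hf, e])
    choose j hj using fun k => b3 (η k y) ((hη y (sA ya).1).1 k)
    refine ⟨Equiv.ofBijective f (Finite.injective_iff_bijective.1 fi), τ, ⟨ht, fun l => ⟨?_, ?_⟩⟩,
      perm_sl1 _ j (fun k k' e => (hη y (sA ya).1).2 (by simp only [← hj, e])) fun k => ?_⟩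
    · exact uni _ _ _ _ _ y (R.cp z hz) (vp.trans inter_subset_left) (vp.trans inter_subset_right)
        (R.VZ z hz) (ht.1 l) (hs.1 l) (fun x h => (ht.2 x h).1 l) (fun x h => (hs.2 x h).1 l) yc (e l)
    · exact uni _ _ _ _ _ x (R.cm z hz) (vm.trans inter_subset_left) (vm.trans inter_subset_right)
        (R.VZ z hz) (ht.1 l) (hs.1 _) (fun x h => (ht.2 x h).1 l) (fun x h => (hs.2 x h).1 _) xc
        (hf l).symm
    · have e1 := uni A _ _ _ _ y cA (sA.trans inter_subset_right) (sA.trans inter_subset_left) R.UZ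
        (hs.1 (j k)) (c k) (fun x h => (hs.2 x h).1 _) (fun x h => (hη x h).1 k) ya (hj k) xa
      have e2 := uni A' _ _ _ _ y cA' (sA'.trans inter_subset_right) (sA'.trans inter_subset_left)
        (R.VZ z hz) (ht.1 (j k)) (c k) (fun x h => (ht.2 x h).1 _) (fun x h => (hη x h).1 k) yb
        ((e _).trans (hj k)) xb
      exact (hs.2 x (vm xc).2).2.1 ((hf _).trans (e2.trans e1.symm))
  choose σ τ h2 h3 using key
  classical
  refine ⟨fun z => if h : z ∈ Z then σ z h else 1,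
    ⟨s, fun z => if h : z ∈ Z then τ z h else s, hs, fun z hz => ?_⟩, fun z hz => ?_⟩
  · simpa only [dif_pos hz] using h2 z hz
  · simpa only [dif_pos hz] using h3 z hz

end Pool.Agent.P.MP_ab0431_ag.UB

namespace Pool.Agent.P.MP_ab0431_ag.UB

open Polynomial Set Filter Topology

theorem p_TSEC :
    S_TSEC := by
  intro E E' T ι _ _ _ p p' O s s' hp hs hs' ⟨f₀⟩
  classical
  have ex : ∀ e, p e ∈ O → ∃ l, s l (p e) = e := fun e he => (hs.2 _ he).2.2 e rfl
  let f : E → E' := fun e => if he : p e ∈ O then s' (ex e he).choose (p e) else f₀ e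
  have key : ∀ l, ∀ x ∈ O, f (s l x) = s' l x := by
    intro l x hx
    have h1 : p (s l x) = x := (hs.2 x hx).1 l
    have h2 : p (s l x) ∈ O := h1.symm ▸ hx
    have h3 := (ex _ h2).choose_spec
    have h4 : (ex _ h2).choose = l := (hs.2 x hx).2.1 (by
      change s _ x = s l x
      exact (congrArg (s _) h1.symm).trans h3)
    change dite _ _ _ = _
    rw [dif_pos h2, h4, h1]
  have key' : ∀ e l, p e ∈ O → s l (p e) = e → f e = s' l (p e) := fun e l he h =>
    (congrArg f h.symm).trans (key l _ he)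
  have hP : ∀ e, p e ∈ O → p' (f e) = p e := fun e he => by
    obtain ⟨l, hl⟩ := ex e he
    rw [key' e l he hl, (hs'.2 _ he).1]
  refine ⟨f, ⟨fun e he => ?_, hP, fun e he => ?_, fun e he e' he' h => ?_, fun z hz => ?_⟩, key⟩
  · obtain ⟨l, hl⟩ := ex e he
    obtain ⟨u, hu, hpu⟩ := hp.isLocalHomeomorphOn e he
    have c : ContinuousWithinAt p (p ⁻¹' O) e := hp.continuousOn e he
    have c1 : ContinuousWithinAt (fun z => s l (p z)) (p ⁻¹' O) e :=
      (hs.1 l _ he).comp c (mapsTo_preimage _ _)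
    have c2 : ContinuousWithinAt (fun z => s' l (p z)) (p ⁻¹' O) e :=
      (hs'.1 l _ he).comp c (mapsTo_preimage _ _)
    have n := u.open_source.mem_nhds hu
    refine c2.congr_of_eventuallyEq ?_ (key' e l he hl)
    filter_upwards [self_mem_nhdsWithin, mem_nhdsWithin_of_mem_nhds n,
      c1.tendsto.eventually (show ∀ᶠ z in 𝓝 (s l (p e)), z ∈ u.source by rw [hl]; exact n)]
      with z h1 h2 h3
    refine key' z l h1 (u.injOn h3 h2 ?_)
    rw [← hpu]
    exact (hs.2 _ h1).1 l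
  · rw [mem_preimage, hP e he]
    exact he
  · have h1 : p e = p e' := by rw [← hP e he, h, hP e' he']
    obtain ⟨l, hl⟩ := ex e he
    obtain ⟨l', hl'⟩ := ex e' he'
    rw [key' e l he hl, key' e' l' he' hl', ← h1] at h
    rw [← hl, ← hl', ← h1, (hs'.2 _ he).2.1 h]
  · obtain ⟨l, hl⟩ := (hs'.2 _ hz).2.2 z rfl
    refine ⟨s l (p' z), ?_, (key l _ hz).trans hl⟩
    rw [mem_preimage, (hs.2 _ hz).1]
    exact hz

end Pool.Agent.P.MP_ab0431_ag.UB

namespace Pool.Agent.P.MP_ab0431_ag.UB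

open Polynomial Set Filter Topology

theorem p_TGLUE :
    S_TGLUE := by
  intro E E' T α _ _ _ p p' W O f hp hO hc hf hag ⟨f0⟩
  classical
  set g : E → E' := fun e => if h : p e ∈ W then f (hc _ h).choose e else f0 e with hg
  have key : ∀ a e, p e ∈ O a → p e ∈ W → g e = f a e := fun a e h1 h2 => by
    simp only [hg, dif_pos h2]
    exact hag _ _ e (hc _ h2).choose_spec h1 h2
  have hcomp : ∀ z, p z ∈ W → p' (g z) = p z := fun z hz => by
    obtain ⟨a, ha⟩ := hc _ hz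
    rw [key a z ha hz]
    exact (hf a).2.1 z ⟨ha, hz⟩
  refine ⟨g, ⟨fun e he => ?_, hcomp, fun z hz => ?_, fun z hz z' hz' h => ?_, fun e' he' => ?_⟩,
    key⟩
  · obtain ⟨a, ha⟩ := hc _ he
    have h1 : p ⁻¹' (O a ∩ W) ∈ 𝓝[p ⁻¹' W] e :=
      inter_mem (hp e he ((hO a).mem_nhds ha)) self_mem_nhdsWithin
    refine ContinuousWithinAt.mono_of_mem_nhdsWithin ?_ h1
    exact ((hf a).1 e ⟨ha, he⟩).congr (fun y hy => key a y hy.1 hy.2) (key a e ha he)
  · rw [mem_preimage, hcomp z hz]; exact hz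
  · obtain ⟨a, ha⟩ := hc _ hz
    have h2 : p z' = p z := by rw [← hcomp z hz, ← hcomp z' hz', h]
    have ha' : p z' ∈ O a := h2 ▸ ha
    rw [key a z ha hz, key a z' ha' hz'] at h
    exact (hf a).2.2.injOn ⟨ha, hz⟩ ⟨ha', hz'⟩ h
  · obtain ⟨a, ha⟩ := hc _ he'
    obtain ⟨e, he, rfl⟩ := (hf a).2.2.surjOn (show e' ∈ p' ⁻¹' (O a ∩ W) from ⟨ha, he'⟩)
    exact ⟨e, he.2, key a e he.1 he.2⟩

end Pool.Agent.P.MP_ab0431_ag.UB

namespace Pool.Agent.P.MP_ab0431_ag.UB

open Polynomial Set Filter Topology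

theorem p_SL2 (hTSEC : S_TSEC) (hTGLUE : S_TGLUE) :
    S_SL2 := by
  rintro Z R d E E' _ _ p p' σ σ' hp ⟨s, τ, hs, hτ⟩ ⟨s', τ', hs', hτ'⟩ hσ hne
  obtain ⟨f, hf, ef⟩ := hTSEC E E' ℂ (Fin d) p p' R.U s s' (hp.mono R.UZ) hs hs' hne
  choose g hg eg using fun z : Z => hTSEC E E' ℂ (Fin d) p p' (R.V z) (τ z) (τ' z)
    (hp.mono (R.VZ z z.2)) (hτ z z.2).1 (hτ' z z.2).1 hne
  have key : ∀ (z : Z) e, p e ∈ R.V z → p e ∈ R.U → g z e = f e := by
    intro z e h1 h2
    obtain ⟨l, hl⟩ := ((hτ z z.2).1.2 _ h1).2.2 e rfl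
    have h3 := eg z l _ h1
    rw [hl] at h3
    rw [h3]
    rcases (R.VU z z.2).subset ⟨h1, h2⟩ with h | h
    · rw [((hτ' z z.2).2 l).1 h, ← ef l _ h2, ← ((hτ z z.2).2 l).1 h, hl]
    · rw [((hτ' z z.2).2 l).2 h, ← hσ z z.2, ← ef _ _ h2, ← ((hτ z z.2).2 l).2 h, hl]
  obtain ⟨F, hF, -⟩ := hTGLUE E E' ℂ (Option Z) p p' (Z : Set ℂ)ᶜ
    (fun a => a.elim R.U fun z => R.V z) (fun a => a.elim f g) hp.continuousOn
    (by
      rintro (_ | z)
      exacts [R.oU, R.oV z z.2])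
    (fun y hy => (R.cov y hy).elim (fun h => ⟨none, h⟩) fun ⟨z, hz, h⟩ => ⟨some ⟨z, hz⟩, h⟩)
    (by
      rintro (_ | z)
      exacts [hf.mono inter_subset_left, (hg z).mono inter_subset_left])
    (by
      rintro (_ | z) (_ | z') e h1 h2 -
      · rfl
      · exact (key z' e h2 h1).symm
      · exact key z e h1 h2
      · rcases eq_or_ne z z' with rfl | h
        · rfl
        · have h3 := R.VV z z.2 z' z'.2 (fun e => h (Subtype.ext e)) ⟨h1, h2⟩
          exact (key z e h1 h3).trans (key z' e h2 h3).symm) hne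
  exact ⟨F, hF⟩

end Pool.Agent.P.MP_ab0431_ag.UB

namespace Pool.Agent.P.MP_ab0431_ag.UB

open Polynomial Set Filter Topology

theorem p_SL3 (hRAYS : S_RAYS) (hSL1 : S_SL1) (hSL2 : S_SL2) :
    S_SL3 := by
  intro Z d n E _ p hn hc hd hs
  obtain ⟨R⟩ := hRAYS Z
  choose σ hσ hσ' using fun i => hSL1 Z R d (E i) (p i) (hc i) (hd i) (hs i)
  have h : ∀ i (z : Z), ∃ κ : Option (Fin d × Fin d),
      σ i z = κ.elim 1 fun q => Equiv.swap q.1 q.2 := fun i z => by
    rcases hσ' i z z.2 with h | ⟨a, b, h⟩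
    · exact ⟨none, h⟩
    · exact ⟨some (a, b), h⟩
  choose κ hκ using h
  obtain ⟨i, j, hij, he⟩ := Fintype.exists_ne_map_eq_of_card_lt κ (by simpa [sq] using hn)
  have key : ∀ i j, κ i = κ j → Nonempty (E i → E j) → ∃ f, TI (p i) (p j) (Z : Set ℂ)ᶜ f :=
    fun i j he => hSL2 Z R d (E i) (E j) (p i) (p j) (σ i) (σ j) (hc i) (hσ i) (hσ j)
      fun z hz => by rw [hκ i ⟨z, hz⟩, hκ j ⟨z, hz⟩, he]
  rcases hij.lt_or_gt with h | h
  · exact ⟨i, j, h, key i j he, key j i he.symm⟩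
  · exact ⟨j, i, h, key j i he.symm, key i j he⟩

end Pool.Agent.P.MP_ab0431_ag.UB

namespace Pool.Agent.P.MP_ab0431_ag.UB

open Polynomial Set Filter Topology

theorem p_SLIT (hSL3 : S_SL3) :
    S_SLIT := by
  intro Z d n E _ p h1 h2 h3 h4
  obtain ⟨i, j, hij, a, b⟩ := hSL3 Z d n E p h1 h2 h3 h4
  rcases isEmpty_or_nonempty (E j) with h | ⟨⟨x⟩⟩
  · exact ⟨j, i, hij.ne', b ⟨isEmptyElim⟩⟩
  · exact ⟨i, j, hij.ne, a ⟨fun _ => x⟩⟩

end Pool.Agent.P.MP_ab0431_ag.UB

namespace Pool.Agent.P.MP_ab0431_ag.UB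

open Polynomial Set Filter Topology

theorem p_HLIFT :
    S_HLIFT := by
  classical
  intro E T A _ _ _ p W S H g cov hH hW hg h0
  have c := cov.isCoveringMap_restrictPreimage
  let H' : C(unitInterval × S, W) :=
    ⟨fun x => ⟨H (x.2.1, x.1.1), hW _ x.2.2 _ x.1.2⟩,
      (hH.comp_continuous (by fun_prop) fun x => ⟨x.2.2, x.1.2⟩).subtype_mk _⟩
  have m : ∀ a : S, g a.1 ∈ p ⁻¹' W := fun a => by
    rw [mem_preimage, h0 _ a.2]; exact hW _ a.2 _ (left_mem_Icc.2 zero_le_one)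
  let g' : C(S, p ⁻¹' W) :=
    ⟨fun a => ⟨g a.1, m a⟩,
      (hg.comp_continuous continuous_subtype_val fun a => a.2).subtype_mk m⟩
  have e0 : ∀ a, H' (0, a) = W.restrictPreimage p (g' a) := fun a => Subtype.ext (h0 _ a.2).symm
  let L := c.liftHomotopy H' g' e0
  refine ⟨fun x => if h : x.1 ∈ S then (L (projIcc 0 1 zero_le_one x.2, ⟨x.1, h⟩)).1 else g x.1,
    ?_, fun a ha => ⟨?_, fun t ht => ?_⟩⟩
  · rw [continuousOn_iff_continuous_domRestrict]
    have : Continuous fun x : ↥(S ×ˢ Icc (0 : ℝ) 1) =>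
        (L (projIcc 0 1 zero_le_one x.1.2, ⟨x.1.1, x.2.1⟩)).1 :=
      continuous_subtype_val.comp (L.continuous.comp
        ((continuous_projIcc.comp (by fun_prop)).prodMk (Continuous.subtype_mk (by fun_prop) _)))
    refine this.congr fun x => ?_
    simp only [domRestrict_apply]
    rw [dif_pos x.2.1]
  · dsimp only
    rw [dif_pos ha, projIcc_left]
    exact congrArg Subtype.val (c.liftHomotopy_zero H' g' e0 ⟨a, ha⟩)
  · dsimp only
    rw [dif_pos ha, projIcc_of_mem _ ht]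
    exact congrArg Subtype.val (congrFun (c.liftHomotopy_lifts H' g' e0) (⟨t, ht⟩, ⟨a, ha⟩))

end Pool.Agent.P.MP_ab0431_ag.UB

namespace Pool.Agent.P.MP_ab0431_ag.UB

open Polynomial Set Filter Topology

theorem ident_conn {V : Type} [NormedAddCommGroup V] [NormedSpace ℂ V] [NormedSpace ℝ V]
    [IsScalarTower ℝ ℂ V] {C : Set V} {h : V → ℂ} (hO : IsOpen C) (hC : Convex ℝ C)
    (hd : DifferentiableOn ℂ h C) {a b : V} (ha : a ∈ C) (hb : b ∈ C)
    (h0 : ∀ᶠ x in 𝓝 b, h x = 0) : h a = 0 := by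
  let L : ℂ → V := fun t => b + t • (a - b)
  have hL : Differentiable ℂ L := by fun_prop
  have hU : IsOpen (L ⁻¹' C) := hO.preimage hL.continuous
  have hcv : Convex ℝ (L ⁻¹' C) := by
    intro x hx y hy s t hs ht hst
    have := hC hx hy hs ht hst
    have e : L (s • x + t • y) = s • L x + t • L y := by
      simp only [L, smul_add, add_smul, smul_assoc]
      rw [show s • b + s • x • (a - b) + (t • b + t • y • (a - b)) =
        (s + t) • b + (s • x • (a - b) + t • y • (a - b)) by rw [add_smul]; abel, hst, one_smul]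
    rwa [mem_preimage, e]
  have hA : AnalyticOnNhd ℂ (h ∘ L) (L ⁻¹' C) :=
    (hd.comp hL.differentiableOn (mapsTo_preimage _ _)).analyticOnNhd hU
  have hb0 : L 0 = b := by simp [L]
  have ha1 : L 1 = a := by simp [L]
  have hz : (h ∘ L) =ᶠ[𝓝 0] 0 := by
    have : Tendsto L (𝓝 0) (𝓝 b) := hb0 ▸ hL.continuous.tendsto 0
    exact this.eventually h0
  have := hA.eqOn_zero_of_preconnected_of_eventuallyEq_zero hcv.isPreconnected
    (show (0 : ℂ) ∈ L ⁻¹' C by rwa [mem_preimage, hb0]) hz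
    (show (1 : ℂ) ∈ L ⁻¹' C by rwa [mem_preimage, ha1])
  simpa [ha1] using this

theorem p_CONN :
    S_CONN := by
  classical
  intro V _ _ _ _ C g hO hC hd ⟨v0, hv0, hg0⟩
  have hS : IsOpen {v ∈ C | g v ≠ 0} :=
    hd.continuousOn.isOpen_inter_preimage hO isOpen_ne
  constructor
  · intro u w hu hw hcov ⟨a, haS, hau⟩ ⟨b, hbS, hbw⟩
    by_contra hne
    have hdis : ∀ x, x ∈ {v ∈ C | g v ≠ 0} → x ∈ u → x ∈ w → False := fun x h1 h2 h3 =>
      hne ⟨x, h1, h2, h3⟩
    let h : V → ℂ := fun x => if x ∈ {v ∈ C | g v ≠ 0} ∧ x ∈ u then g x ^ 2 else 0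
    have hzero : ∀ x ∈ {v ∈ C | g v ≠ 0}, x ∈ w → ∀ᶠ y in 𝓝 x, h y = 0 := by
      intro x _ hxw
      filter_upwards [hw.mem_nhds hxw] with y hy
      exact if_neg fun hh => hdis y hh.1 hh.2 hy
    have hdh : DifferentiableOn ℂ h C := by
      intro x hx
      have hgx : DifferentiableAt ℂ g x := hd.differentiableAt (hO.mem_nhds hx)
      refine DifferentiableAt.differentiableWithinAt ?_
      by_cases hx0 : g x = 0
      · have hhx : h x = 0 := if_neg fun hh => hh.1.2 hx0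
        refine (show HasFDerivAt h (0 : V →L[ℂ] ℂ) x from ?_).differentiableAt
        rw [hasFDerivAt_iff_isLittleO]
        have h1 : (fun y => g y) =O[𝓝 x] fun y => y - x := by
          simpa [hx0] using hgx.isBigO_sub
        have h2 : (fun y => g y) =o[𝓝 x] fun _ => (1 : ℝ) := by
          rw [Asymptotics.isLittleO_one_iff]
          exact hx0 ▸ hgx.continuousAt.tendsto
        have h3 : (fun y => ‖g y‖ * ‖g y‖) =o[𝓝 x] fun y => (1 : ℝ) * ‖y - x‖ :=
          h2.norm_left.mul_isBigO h1.norm_left.norm_right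
        simp only [one_mul] at h3
        refine Asymptotics.IsLittleO.of_norm_right (Asymptotics.IsBigO.trans_isLittleO ?_ h3)
        refine Asymptotics.IsBigO.of_bound 1 (Eventually.of_forall fun y => ?_)
        simp only [hhx, sub_zero, zero_apply, one_mul, norm_mul, norm_norm, h]
        split_ifs
        · rw [norm_pow, sq]
        · rw [norm_zero]; positivity
      · rcases hcov (show x ∈ {v ∈ C | g v ≠ 0} from ⟨hx, hx0⟩) with h1 | h1
        · refine (hgx.pow 2).congr_of_eventuallyEq ?_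
          filter_upwards [hS.mem_nhds ⟨hx, hx0⟩, hu.mem_nhds h1] with y h2 h3
          exact if_pos ⟨h2, h3⟩
        · exact (differentiableAt_const (0 : ℂ)).congr_of_eventuallyEq (hzero x ⟨hx, hx0⟩ h1)
    have := ident_conn hO hC hdh haS.1 hbS.1 (hzero b hbS hbw)
    rw [show h a = g a ^ 2 from if_pos ⟨haS, hau⟩] at this
    exact haS.2 (pow_eq_zero_iff two_ne_zero |>.1 this)
  · intro v hv
    by_contra hn
    apply hg0
    refine ident_conn hO hC hd hv0 hv ?_
    filter_upwards [isClosed_closure.isOpen_compl.mem_nhds hn, hO.mem_nhds hv] with y h1 h2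
    by_contra h3
    exact h1 (subset_closure ⟨h2, h3⟩)

end Pool.Agent.P.MP_ab0431_ag.UB

namespace Pool.Agent.P.MP_ab0431_ag.UB

open Polynomial Set Filter Topology

theorem cov_covg {Z T : Type} [TopologicalSpace Z] [T2Space Z] [TopologicalSpace T] [T2Space T]
    [LocallyCompactSpace T] {π : Z → T} {Ω A : Set T} (hΩ : IsOpen Ω) (hc : Continuous π)
    (hp : ∀ K ⊆ Ω, IsCompact K → IsCompact (π ⁻¹' K)) (hA : A ⊆ Ω)
    (hf : ∀ q ∈ A, (π ⁻¹' {q}).Finite) (hl : IsLocalHomeomorphOn π (π ⁻¹' A)) :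
    IsCoveringMapOn π A := by
  have := hΩ.locallyCompactSpace
  have hq : Continuous (Ω.restrictPreimage π) := hc.restrictPreimage
  have hcl : IsClosedMap (Ω.restrictPreimage π) := by
    refine (isProperMap_iff_isCompact_preimage.2 ⟨hq, fun K hK => ?_⟩).isClosedMap
    rw [Subtype.isCompact_iff]
    have h1 := hp (Subtype.val '' K) (Subtype.coe_image_subset _ _)
      (hK.image continuous_subtype_val)
    have h2 : Subtype.val '' (Ω.restrictPreimage π ⁻¹' K) = π ⁻¹' (Subtype.val '' K) := by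
      ext z
      constructor
      · rintro ⟨w, hw, rfl⟩
        exact ⟨_, hw, rfl⟩
      · rintro ⟨y, hy, hyz⟩
        refine ⟨⟨z, by rw [mem_preimage, ← hyz]; exact y.2⟩, ?_, rfl⟩
        have : Ω.restrictPreimage π ⟨z, by rw [mem_preimage, ← hyz]; exact y.2⟩ = y :=
          Subtype.ext hyz.symm
        rwa [mem_preimage, this]
    rwa [h2]
  have hl' : IsLocalHomeomorphOn (Ω.restrictPreimage π)
      (Ω.restrictPreimage π ⁻¹' (Subtype.val ⁻¹' A)) := by
    refine IsLocalHomeomorphOn.of_comp_left (g := Subtype.val) ?_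
      hΩ.isOpenEmbedding_subtypeVal.isLocalHomeomorph.isLocalHomeomorphOn
      fun _ _ => hq.continuousAt
    exact hl.comp
      (hΩ.preimage hc).isOpenEmbedding_subtypeVal.isLocalHomeomorph.isLocalHomeomorphOn
      fun z hz => hz
  have hcov := hcl.isCoveringMapOn_of_isLocalHomeomorphOn (fun y hy =>
    ((hf y hy).preimage Subtype.val_injective.injOn).subset
      fun z hz => congrArg Subtype.val hz) hl'
  intro x hx
  exact (((hcov ⟨x, hA hx⟩ hx).subtypeVal_comp _ hΩ).comp_subtypeVal _ hΩ (hΩ.preimage hc)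
    (hA hx)).to_isEvenlyCovered_preimage

theorem p_COVG :
    S_COVG := by
  intro E T _ _ _ _ _ _ F B Ω hΩ h
  refine cov_covg hΩ F.hol.continuous h.prop sdiff_subset (fun q hq => h.fin q hq.1)
    (IsLocalHomeomorphOn.mk _ _ fun z hz => ?_)
  obtain ⟨e, he, he', -⟩ := h.loc z hz.1 hz.2
  exact ⟨e, he, he'.symm⟩

end Pool.Agent.P.MP_ab0431_ag.UB

namespace Pool.Agent.P.MP_ab0431_ag.UB

open Polynomial Set Filter Topology

section

variable {E E' T V : Type} [TopologicalSpace E] [TopologicalSpace E'] [TopologicalSpace T]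
  [TopologicalSpace V] {φ : V → T} (h : IsEmbedding φ) (A : Set V)

theorem mem_pull (p : E → T) (e : p ⁻¹' range φ) : pb p h e ∈ A ↔ p e ∈ φ '' A := by
  rw [← pb_spec p h e, h.injective.mem_set_image]

theorem img_pull (p : E → T) : Subtype.val '' (pb p h ⁻¹' A) = p ⁻¹' (φ '' A) := by
  ext e
  exact ⟨fun ⟨x, hx, e'⟩ => e' ▸ (mem_pull h A p x).1 hx,
    fun he => ⟨⟨e, image_subset_range _ _ he⟩, (mem_pull h A p _).2 he, rfl⟩⟩

theorem iff_pull (p : E → T) (p' : E' → T) (f : E → E') (f₀ : p ⁻¹' range φ → p' ⁻¹' range φ)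
    (hf : ∀ e : p ⁻¹' range φ, pb p h e ∈ A → f e = f₀ e) :
    TI (pb p h) (pb p' h) A f₀ ↔ TI p p' (φ '' A) f := by
  have hE : EqOn (f ∘ Subtype.val) (Subtype.val ∘ f₀) (pb p h ⁻¹' A) := fun e he => hf e he
  refine and_congr ?_ (and_congr ?_ ?_)
  · rw [← img_pull h A p, IsInducing.subtypeVal.continuousOn_image_iff,
      IsInducing.subtypeVal.continuousOn_iff]
    exact (continuousOn_congr hE).symm
  · refine ⟨fun a z hz => ?_, fun a z hz => ?_⟩
    · have hz' := (mem_pull h A p ⟨z, image_subset_range _ _ hz⟩).2 hz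
      have := ((pb_eq p' h _ _).1 (a _ hz')).trans (pb_spec p h _)
      rw [← hf _ hz'] at this
      exact this
    · rw [pb_eq p' h, pb_spec p h z, ← hf _ hz]
      exact a _ ((mem_pull h A p z).1 hz)
  · rw [← img_pull h A p, ← img_pull h A p']
    refine ⟨fun a => ⟨?_, ?_, ?_⟩, fun a => ⟨fun z hz => ?_, fun z hz z' hz' e => ?_,
      fun z hz => ?_⟩⟩
    · rintro _ ⟨z, hz, rfl⟩
      exact ⟨f₀ z, a.mapsTo hz, (hf z hz).symm⟩
    · rintro _ ⟨z, hz, rfl⟩ _ ⟨z', hz', rfl⟩ e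
      rw [hf z hz, hf z' hz'] at e
      rw [a.injOn hz hz' (Subtype.ext e)]
    · rintro _ ⟨z, hz, rfl⟩
      obtain ⟨x, hx, rfl⟩ := a.surjOn hz
      exact ⟨x, ⟨x, hx, rfl⟩, hf x hx⟩
    · obtain ⟨x, hx, e⟩ := a.mapsTo ⟨z, hz, rfl⟩
      rw [hf z hz] at e
      exact Subtype.ext e ▸ hx
    · refine Subtype.ext (a.injOn ⟨z, hz, rfl⟩ ⟨z', hz', rfl⟩ ?_)
      rw [hf z hz, hf z' hz', e]
    · obtain ⟨_, ⟨x, hx, rfl⟩, e⟩ := a.surjOn ⟨z, hz, rfl⟩
      exact ⟨x, hx, Subtype.ext ((hf x hx).symm.trans e)⟩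

end

theorem p_PULL :
    S_PULL := by
  classical
  intro E E' T V _ _ _ _ p p' φ h A
  refine ⟨fun W hW => ?_, fun f₀ h₀ ⟨g⟩ => ?_, fun f hf ⟨g⟩ => ?_⟩
  · exact (hW.restrictPreimage (range φ)).homeomorph_comp h.toHomeomorph.symm
  · have e : ∀ e : p ⁻¹' range φ, pb p h e ∈ A →
        (fun x => if hx : p x ∈ range φ then (f₀ ⟨x, hx⟩ : E') else g x) e = f₀ e :=
      fun e _ => dif_pos e.2
    exact ⟨fun x => if hx : p x ∈ range φ then (f₀ ⟨x, hx⟩ : E') else g x,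
      (iff_pull h A p p' _ f₀ e).1 h₀, e⟩
  · have m : ∀ e : p ⁻¹' range φ, pb p h e ∈ A → f e ∈ p' ⁻¹' range φ := fun e he =>
      image_subset_range _ _ (hf.2.2.mapsTo ((mem_pull h A p e).1 he))
    have e : ∀ e : p ⁻¹' range φ, pb p h e ∈ A → f e =
        ((fun x : p ⁻¹' range φ => if hx : pb p h x ∈ A then (⟨f x, m x hx⟩ : p' ⁻¹' range φ)
          else g x) e : p' ⁻¹' range φ) := fun e he => by simp only [dif_pos he]
    exact ⟨_, (iff_pull h A p p' f _ e).2 hf, e⟩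

end Pool.Agent.P.MP_ab0431_ag.UB

namespace Pool.Agent.P.MP_ab0431_ag.UB

open Polynomial Set Filter Topology

theorem smul_bch (b : ℕ) (F : ℂ[X][X]) (t : ℂ) (v : Fin 3 → ℂ) :
    hom b F (t • v) = t ^ b * hom b F v := by
  simp only [hom, Finset.mul_sum, Pi.smul_apply, smul_eq_mul, mul_pow]
  refine Finset.sum_congr rfl fun j hj => Finset.sum_congr rfl fun l hl => ?_
  have := Finset.mem_range.1 hj
  have := Finset.mem_range.1 hl
  conv_rhs => rw [show t ^ b = t ^ (b - j - l) * t ^ l * t ^ j by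
    rw [← pow_add, ← pow_add]; congr 1; omega]
  ring

theorem p_BCH :
    S_BCH := by
  intro Q b m c hc
  have h1 : ∀ v, v ≠ 0 → (Q.pp v ∈ Bc Q c ↔ hom b (toP c) v = 0) := fun v hv =>
    ⟨fun ⟨w, hw, e, h⟩ => by
      obtain ⟨t, rfl⟩ := (Q.eq_iff w v hw hv).1 e
      rw [smul_bch, h, mul_zero], fun h => ⟨v, hv, rfl, h⟩⟩
  have h2 : ∀ x z, hom b (toP c) ![1, x, z] = (toP c).evalEval x z := fun x z => by
    rw [evalEval, eval_eq_sum_range' (p := toP c) (n := b + 1) (by rw [toP_natDegree]; omega),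
      eval_finsetSum, hom]
    refine Finset.sum_congr rfl fun j _ => ?_
    rw [eval_mul, eval_pow, eval_C, eval_eq_sum_range' (n := b - j + 1) (Nat.lt_succ_of_le
      (natDegree_le_iff_coeff_eq_zero.2 fun n hn => hc j n (by omega))), Finset.sum_mul]
    exact Finset.sum_congr rfl fun l _ => by simp
  have h3 : ∀ q : ℂ × ℂ, Q.af q = Q.pp ![1, q.1, q.2] := fun q => by
    rw [PM.af, Q.ch_symm, Fin.insertNth_zero']
    rfl
  refine ⟨h1, h2, h3, fun q => ?_, ?_, ?_, ?_⟩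
  · rw [h3, h1 _ fun e => one_ne_zero (congrFun e 0), h2]
  · rw [h1 _ fun e => one_ne_zero (congrFun e 2), hom, Finset.sum_range_succ,
      Finset.sum_eq_zero fun j hj => Finset.sum_eq_zero fun l _ => ?_]
    · have : (toP c).coeff b = 1 := by
        have := (toP_monic c).coeff_natDegree
        rwa [toP_natDegree] at this
      simp [this]
    · have := Finset.mem_range.1 hj
      rcases l.eq_zero_or_pos with rfl | hl
      · simp [show b - j ≠ 0 by omega]
      · simp [hl.ne']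
  · refine isOpen_compl_iff.1 (isOpen_iff_mem_nhds.2 fun y hy => ?_)
    obtain ⟨v, hv, rfl⟩ := Q.surj y
    obtain ⟨i, hi⟩ := Function.ne_iff.1 hv
    have hs := (Q.ch_src i v hv).2 hi
    have key : ∀ y ∈ (Q.ch i).source,
        y ∈ Bc Q c ↔ hom b (toP c) (i.insertNth 1 (Q.ch i y)) = 0 := fun y hy => by
      rw [← h1 _ fun e => by simpa using congrFun e i, ← Q.ch_symm, (Q.ch i).left_inv hy]
    have hc : Continuous fun w : C2 => hom b (toP c) (i.insertNth 1 w) :=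
      (show Continuous (hom b (toP c)) by unfold hom; fun_prop).comp
        (continuous_const.finInsertNth i continuous_id)
    filter_upwards [(Q.ch i).open_source.mem_nhds hs, (hc.continuousAt.comp
      ((Q.ch i).continuousAt hs)).eventually_ne fun e => hy ((key _ hs).2 e)] with y a1 a2
    exact fun h => a2 ((key y a1).1 h)
  · exact ((Q.ch 0).symm.isOpenEmbedding (Q.ch_tgt 0)).comp
      (Homeomorph.finTwoArrow (X := ℂ)).symm.isOpenEmbedding

end Pool.Agent.P.MP_ab0431_ag.UB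

namespace Pool.Agent.P.MP_ab0431_ag.UB

open Polynomial Set Filter Topology

theorem p_FOLD :
    S_FOLD := by
  classical
  intro Q F d
  refine ⟨fun B hG => ?_, fun ψ h x₀ ⟨S, hd, hS⟩ => ?_⟩
  · obtain ⟨t, -, ht⟩ := isCompact_univ.elim_nhds_subcover
      (fun q : Q.Y => {q' | q' ≠ q → F.Fold d q'})
      fun q _ => (hG.fold q trivial).mono fun _ a => a rfl
    refine t.finite_toSet.subset fun a ha => ?_
    obtain ⟨q, hq, haq⟩ := mem_iUnion₂.1 (ht (mem_univ a))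
    by_contra hn
    exact ha (haq fun e => hn (e ▸ hq))
  obtain ⟨k⟩ : Nonempty (Fin (d - 2) ↪ S) := Function.Embedding.nonempty_of_card_le (by
    rw [Fintype.card_fin, Fintype.card_coe]; omega)
  choose e he hπ _ using fun l => (hS _ (k l).2).2
  have h0 : ∀ l, e l (k l) = ψ x₀ := fun l => (hπ l (he l)).trans (hS _ (k l).2).1
  have h1 : ∀ l, ψ x₀ ∈ (e l).target := fun l => h0 l ▸ (e l).map_source (he l)
  have h2 : ∀ l, (e l).symm (ψ x₀) = k l := fun l => h0 l ▸ (e l).left_inv (he l)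
  have h3 : ∀ l, ContinuousAt (fun x => (e l).symm (ψ x)) x₀ := fun l =>
    ((e l).continuousAt_symm (h1 l)).comp h.continuous.continuousAt
  have h4 : ∀ l y, y ∈ (e l).target → F.π ((e l).symm y) = y := fun l y hy =>
    (hπ l ((e l).map_target hy)).symm.trans ((e l).right_inv hy)
  have h5 : ∀ᶠ x in 𝓝 x₀, (∀ l, ψ x ∈ (e l).target) ∧
      ∀ l l', l ≠ l' → (e l).symm (ψ x) ≠ (e l').symm (ψ x) := by
    refine (eventually_all.2 fun l => h.continuous.continuousAt.eventually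
      ((e l).open_target.mem_nhds (h1 l))).and
      (eventually_all.2 fun l => eventually_all.2 fun l' => eventually_all.2 fun hl => ?_)
    refine ((h3 l).ne_iff_eventually_ne (h3 l')).1 ?_
    rw [h2, h2]
    exact fun a => hl (k.injective (Subtype.ext a))
  obtain ⟨ε, hε, hb⟩ := Metric.eventually_nhds_iff_ball.1 h5
  let s : Fin (d - 2) → ℂ → F.π ⁻¹' range ψ := fun l x =>
    if hx : ψ x ∈ (e l).target then ⟨(e l).symm (ψ x), x, (h4 l _ hx).symm⟩
    else ⟨k l, x₀, (hS _ (k l).2).1.symm⟩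
  have hs : ∀ l, ∀ x ∈ Metric.ball x₀ ε \ {x₀}, (s l x).1 = (e l).symm (ψ x) := fun l x hx => by
    simp only [s, dif_pos ((hb x hx.1).1 l)]
  refine ⟨s, ε, hε, fun l => ?_, fun x hx => ⟨fun l => ?_, fun l l' hl => ?_⟩⟩
  · refine IsInducing.subtypeVal.continuousOn_iff.2 (ContinuousOn.congr ?_ (hs l))
    exact (e l).continuousOn_symm.comp h.continuous.continuousOn fun x hx => (hb x hx.1).1 l
  · rw [pb_eq, hs l x hx, h4 l _ ((hb x hx.1).1 l)]
  · by_contra hn
    refine (hb x hx.1).2 l l' hn ?_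
    rw [← hs l x hx, ← hs l' x hx]
    exact congrArg Subtype.val hl

end Pool.Agent.P.MP_ab0431_ag.UB
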