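import Pool.Agent.P.MP_ab0431_ag.UB.IfaceD5
import Pool.Agent.P.MP_ab0431_ag.UB.IfaceT
import Pool.Agent.P.MP_ab0431_ag.UB.IfaceO

/-! Steps CT1 TUQ ULIFT ROOTS HTP VL NBH NINF CT2 EXT COUNT. -/

set_option autoImplicit false
set_option linter.unusedSectionVars false
set_option linter.unusedVariables false

namespace Pool.Agent.P.MP_ab0431_ag.UB

open Polynomial Set Filter Topology

theorem p_CT1 (hSL3 : S_SL3) (hCOVG : S_COVG) (hPULL : S_PULL) (hBCH : S_BCH) (hFOLD : S_FOLD) :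
    S_CT1 := by
  classical
  intro Q b m d n c F X₀ hW hd hn h0 h1
  obtain ⟨-, -, -, hB, -, -, hemb⟩ := hBCH Q b m c hW
  have hfin : ((X₀ : Set ℂ) ∪ Prod.fst '' (Q.af ⁻¹' ⋃ i, {q | ¬(F i).Fold d q})).Finite :=
    X₀.finite_toSet.union (((finite_iUnion fun i => (hFOLD Q (F i) d).1 _ (h1 i)).preimage
      hemb.injective.injOn).image _)
  obtain ⟨x₀, hx₀⟩ := hfin.exists_notMem
  have hψ : IsEmbedding fun z : ℂ => Q.af (x₀, z) :=
    hemb.isEmbedding.comp (isEmbedding_prodMkRight x₀)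
  have hm := (toP_monic c).map (evalRingHom x₀)
  set Z := ((toP c).map (evalRingHom x₀)).roots.toFinset with hZ
  have hZm : ∀ z, z ∈ Z ↔ (toP c).evalEval x₀ z = 0 := fun z => by
    rw [hZ, Multiset.mem_toFinset, mem_roots hm.ne_zero, IsRoot.def, map_evalRingHom_eval]
  have hZc : Z.card ≤ b := (Multiset.toFinset_card_le _).trans <| (card_roots' _).trans <| by
    rw [(toP_monic c).natDegree_map, toP_natDegree]
  have hcard : ∀ i, ∀ x ∉ Z, (pb (F i).π hψ ⁻¹' {x}).encard = d := fun i x hx => by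
    rw [← Subtype.val_injective.encard_image,
      ← (h1 i).card (Q.af (x₀, x)) trivial fun h => hx ((hZm x).2 ((hB _).1 h)),
      ((h0 i).fin _ trivial).cast_ncard_eq]
    congr 1
    ext e
    constructor
    · rintro ⟨e, he, rfl⟩
      exact (pb_eq _ hψ e x).1 he
    · exact fun he => ⟨⟨e, x, Eq.symm he⟩, (pb_eq _ hψ _ x).2 he, rfl⟩
  obtain ⟨i, j, hij, -, h⟩ := hSL3 Z d n (fun i => (F i).π ⁻¹' range fun z : ℂ => Q.af (x₀, z))
    (fun i => pb (F i).π hψ) ((Nat.pow_le_pow_right (Nat.succ_pos _) hZc).trans_lt hn)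
    (fun i => ((hPULL _ _ _ _ (F i).π (F i).π _ hψ univ).1 _
      (hCOVG C2 Q.Y (F i) _ univ isOpen_univ (h0 i))).mono fun z hz =>
        ⟨trivial, fun h => hz ((hZm z).2 ((hB _).1 h))⟩) hcard
    fun i z _ => (hFOLD Q (F i) d).2 _ hψ z (by
      by_contra h
      exact hx₀ (Or.inr ⟨(x₀, z), mem_iUnion.2 ⟨i, h⟩, rfl⟩))
  obtain ⟨z, hz⟩ := Z.finite_toSet.exists_notMem
  obtain ⟨e, -⟩ : (pb (F i).π hψ ⁻¹' {z}).Nonempty := by
    rw [← encard_pos, hcard i z hz]; exact_mod_cast hd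
  obtain ⟨f₀, hf₀⟩ := h ⟨fun _ => e⟩
  obtain ⟨f, hf, -⟩ := (hPULL _ _ _ _ (F j).π (F i).π _ hψ _).2.1 f₀ hf₀ ⟨fun _ => e⟩
  refine ⟨x₀, fun h => hx₀ (Or.inl h), i, j, hij, f, hf.mono ?_⟩
  rintro _ ⟨⟨x, w⟩, ⟨hx, hw⟩, rfl⟩
  obtain rfl : x = x₀ := hx
  exact ⟨w, fun h' => hw ((hZm w).1 h'), rfl⟩

end Pool.Agent.P.MP_ab0431_ag.UB

namespace Pool.Agent.P.MP_ab0431_ag.UB

open Polynomial Set Filter Topology

theorem p_TUQ (hTUNI : S_TUNI) (hHLIFT : S_HLIFT) :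
    S_TUQ := by
  intro E E' T _ _ _ p p' W S₀ f f' hp hp' hj hf hf' h0 e he
  obtain ⟨y₀, hy, j⟩ := hj _ he
  have hW : ∀ t ∈ Icc (0 : ℝ) 1, j.somePath.extend t ∈ W := fun t ht => by
    rw [Path.extend_apply _ ht]
    exact j.somePath_mem _
  obtain ⟨K, kc, hK⟩ := hHLIFT E T Unit p W univ (fun q => j.somePath.extend q.2) (fun _ => e) hp
    (j.somePath.continuous_extend.comp continuous_snd).continuousOn (fun _ _ => hW)
    continuousOn_const fun _ _ => j.somePath.extend_zero.symm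
  obtain ⟨k0, k1⟩ := hK () (mem_univ _)
  have kc' : ContinuousOn (fun t : ℝ => K ((), t)) (Icc 0 1) :=
    kc.comp (Continuous.prodMk_right ()).continuousOn fun t ht => ⟨mem_univ _, ht⟩
  have kW : ∀ t ∈ Icc (0 : ℝ) 1, p (K ((), t)) ∈ W := fun t ht => by
    rw [k1 t ht]
    exact hW t ht
  have one : (1 : ℝ) ∈ Icc (0 : ℝ) 1 := right_mem_Icc.2 zero_le_one
  have := hTUNI E' T ℝ p' W (Icc 0 1) (fun t => f (K ((), t))) (fun t => f' (K ((), t))) 1 hp'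
    isPreconnected_Icc (hf.1.comp kc' kW) (hf'.1.comp kc' kW)
    (fun t ht => by
      rw [hf.2.1 _ (kW t ht), hf'.2.1 _ (kW t ht)]
      exact ⟨kW t ht, rfl⟩) one
    (h0 _ (by rw [k1 1 one, Path.extend_one]; exact hy)) (left_mem_Icc.2 zero_le_one)
  simpa only [k0] using this

end Pool.Agent.P.MP_ab0431_ag.UB

namespace Pool.Agent.P.MP_ab0431_ag.UB

open Polynomial Set Filter Topology

theorem p_ULIFT (hTUNI : S_TUNI) (hHLIFT : S_HLIFT) :
    S_ULIFT := by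
  intro E E' T _ _ _ p p' W S₀ H f₀ hp hp' hS hH hW h0 ⟨fc, fp, fb⟩
  have I0 : (0 : ℝ) ∈ Icc (0 : ℝ) 1 := ⟨le_rfl, zero_le_one⟩
  have I1 : (1 : ℝ) ∈ Icc (0 : ℝ) 1 := ⟨zero_le_one, le_rfl⟩
  have Ir : ∀ t ∈ Icc (0 : ℝ) 1, 1 - t ∈ Icc (0 : ℝ) 1 := fun t h =>
    ⟨by linarith [h.2], by linarith [h.1]⟩
  have pc : ContinuousOn p (p ⁻¹' W) := hp.continuousOn
  have rv : ContinuousOn (fun t : ℝ => 1 - t) (Icc 0 1) := by fun_prop
  have sl : ∀ {X Y : Type} [TopologicalSpace X] [TopologicalSpace Y] {S : Set X} {K : X × ℝ → Y},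
      ContinuousOn K (S ×ˢ Icc 0 1) → ∀ e ∈ S, ContinuousOn (fun t => K (e, t)) (Icc 0 1) :=
    fun h e he => h.comp (by fun_prop) fun t ht => ⟨he, ht⟩
  have sl1 : ∀ {X Y : Type} [TopologicalSpace X] [TopologicalSpace Y] {S : Set X} {K : X × ℝ → Y},
      ContinuousOn K (S ×ˢ Icc 0 1) → ContinuousOn (fun e => K (e, 1)) S :=
    fun h => h.comp (by fun_prop) fun e he => ⟨he, I1⟩
  obtain ⟨K, Kc, hK⟩ := hHLIFT E T E p W (p ⁻¹' W) (fun z => H (p z.1, z.2)) id hp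
    (hH.comp ((pc.comp continuousOn_fst fun z hz => hz.1).prodMk continuousOn_snd)
      fun z hz => ⟨hz.1, hz.2⟩) (fun a ha => (hW _ ha).2.2) continuousOn_id
    fun a ha => (hW _ ha).1.symm
  have K1 : ∀ e ∈ p ⁻¹' W, K (e, 1) ∈ p ⁻¹' S₀ := fun e he => by
    rw [mem_preimage, (hK e he).2 1 I1]; exact (hW _ he).2.1
  obtain ⟨L, Lc, hL⟩ := hHLIFT E' T E p' W (p ⁻¹' W) (fun z => H (p z.1, 1 - z.2))
    (fun e => f₀ (K (e, 1))) hp'
    (hH.comp ((pc.comp continuousOn_fst fun z hz => hz.1).prodMk (by fun_prop))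
      fun z hz => ⟨hz.1, Ir _ hz.2⟩) (fun a ha t ht => (hW _ ha).2.2 _ (Ir t ht))
    (fc.comp (sl1 Kc) K1) fun a ha => by
      rw [fp _ (K1 a ha), (hK a ha).2 1 I1]; simp
  have Lp : ∀ e ∈ p ⁻¹' W, p' (L (e, 1)) = p e := fun e he => by
    rw [(hL e he).2 1 I1]; simpa using (hW _ he).1
  refine ⟨fun e => L (e, 1), ⟨sl1 Lc, Lp, fun e he => ?_, fun e he e' he' h => ?_,
    fun e' he' => ?_⟩, fun e he => ?_⟩
  · rw [mem_preimage, Lp e he]; exact he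
  · have a : p e' = p e := by rw [← Lp e he, ← Lp e' he']; exact congrArg p' h.symm
    have b := hTUNI E' T ℝ p' W (Icc 0 1) _ _ 1 hp' isPreconnected_Icc (sl Lc e he) (sl Lc e' he')
      (fun t ht => by
        rw [(hL e he).2 t ht, (hL e' he').2 t ht, a]; exact ⟨(hW _ he).2.2 _ (Ir t ht), rfl⟩)
      I1 h I0
    simp only [(hL e he).1, (hL e' he').1] at b
    have c := hTUNI E T ℝ p W (Icc 0 1) _ _ 1 hp isPreconnected_Icc (sl Kc e he) (sl Kc e' he')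
      (fun t ht => by
        rw [(hK e he).2 t ht, (hK e' he').2 t ht, a]; exact ⟨(hW _ he).2.2 _ ht, rfl⟩)
      I1 (fb.injOn (K1 e he) (K1 e' he') b) I0
    simpa only [(hK e he).1, (hK e' he').1, id] using c
  · have Hc := sl hH _ he'
    obtain ⟨A, Ac, hA⟩ := hHLIFT E' T Unit p' W univ (fun z => H (p' e', z.2)) (fun _ => e') hp'
      (Hc.comp continuousOn_snd fun z hz => hz.2) (fun _ _ => (hW _ he').2.2) continuousOn_const
      fun _ _ => (hW _ he').1.symm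
    obtain ⟨A0, A1⟩ := hA () trivial
    obtain ⟨e₁, he₁, h₁⟩ := fb.surjOn (show A ((), 1) ∈ p' ⁻¹' S₀ by
      rw [mem_preimage, A1 1 I1]; exact (hW _ he').2.1)
    obtain ⟨B, Bc, hB⟩ := hHLIFT E T Unit p W univ (fun z => H (p' e', 1 - z.2)) (fun _ => e₁) hp
      (Hc.comp (by fun_prop) fun z hz => Ir _ hz.2) (fun _ _ t ht => (hW _ he').2.2 _ (Ir t ht))
      continuousOn_const fun _ _ => by rw [← fp _ he₁, h₁, A1 1 I1]; simp
    obtain ⟨B0, B1⟩ := hB () trivial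
    have pe : p (B ((), 1)) = p' e' := by rw [B1 1 I1]; simpa using (hW _ he').1
    have he : B ((), 1) ∈ p ⁻¹' W := by rw [mem_preimage, pe]; exact he'
    have b := hTUNI E T ℝ p W (Icc 0 1) _ (fun t => B ((), 1 - t)) 0 hp isPreconnected_Icc
      (sl Kc _ he) ((sl Bc () trivial).comp rv Ir)
      (fun t ht => by
        rw [(hK _ he).2 t ht, B1 _ (Ir t ht), pe]; exact ⟨(hW _ he').2.2 _ ht, by simp⟩)
      I0 (by simp [(hK _ he).1]) I1
    have c := hTUNI E' T ℝ p' W (Icc 0 1) _ (fun t => A ((), 1 - t)) 0 hp' isPreconnected_Icc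
      (sl Lc _ he) ((sl Ac () trivial).comp rv Ir)
      (fun t ht => by
        rw [(hL _ he).2 t ht, A1 _ (Ir t ht), pe]; exact ⟨(hW _ he').2.2 _ (Ir t ht), rfl⟩)
      I0 (by simp only [sub_self, B0] at b; simp [(hL _ he).1, b, h₁]) I1
    exact ⟨_, he, by simpa only [sub_self, A0] using c⟩
  · have hw : e ∈ p ⁻¹' W := hS he
    have KS : ∀ t ∈ Icc (0 : ℝ) 1, K (e, 1 - t) ∈ p ⁻¹' S₀ := fun t ht => by
      rw [mem_preimage, (hK e hw).2 _ (Ir t ht)]; exact h0 _ he _ (Ir t ht)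
    have c := hTUNI E' T ℝ p' W (Icc 0 1) _ (fun t => f₀ (K (e, 1 - t))) 0 hp' isPreconnected_Icc
      (sl Lc _ hw) (fc.comp ((sl Kc e hw).comp rv Ir) KS)
      (fun t ht => by
        rw [(hL _ hw).2 t ht, fp _ (KS t ht), (hK e hw).2 _ (Ir t ht)]
        exact ⟨(hW _ hw).2.2 _ (Ir t ht), rfl⟩)
      I0 (by simp [(hL _ hw).1]) I1
    simpa only [sub_self, (hK e hw).1, id] using c

end Pool.Agent.P.MP_ab0431_ag.UB

namespace Pool.Agent.P.MP_ab0431_ag.UB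

open Polynomial Set Filter Topology

theorem cd1_roots (q : ℂ[X]) : ContDiff ℂ 1 fun x : ℂ => q.eval x := by
  simpa [coe_aeval_eq_eval] using q.contDiff_aeval (𝕜 := ℂ) 1

theorem cd_roots (F : ℂ[X][X]) : ContDiff ℂ 1 fun v : ℂ × ℂ => F.evalEval v.1 v.2 := by
  induction F using Polynomial.induction_on' with
  | add p q hp hq => simpa only [evalEval_add] using hp.add hq
  | monomial n a =>
    have e : (fun v : ℂ × ℂ => (monomial n a : ℂ[X][X]).evalEval v.1 v.2) =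
        fun v : ℂ × ℂ => a.eval v.1 * v.2 ^ n := by
      funext v
      simp [evalEval, eval_monomial]
    rw [e]
    exact ((cd1_roots a).comp contDiff_fst).mul (contDiff_snd.pow n)

theorem one_roots (F : ℂ[X][X]) (x₁ w₀ : ℂ) (h0 : F.evalEval x₁ w₀ = 0)
    (hd : (F.map (evalRingHom x₁)).derivative.eval w₀ ≠ 0) :
    ∃ z : ℂ → ℂ, z x₁ = w₀ ∧ ContinuousAt z x₁ ∧
      ∀ᶠ x in 𝓝 x₁, DifferentiableAt ℂ z x ∧ F.evalEval x (z x) = 0 := by
  set G : ℂ × ℂ → ℂ := fun v => F.evalEval v.1 v.2 with hG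
  have hc : ContDiffAt ℂ 1 G (x₁, w₀) := (cd_roots F).contDiffAt
  have h1 : HasFDerivAt (fun w => G (x₁, w)) (fderiv ℂ G (x₁, w₀) ∘L .inr ℂ ℂ ℂ) w₀ :=
    (hc.differentiableAt one_ne_zero).hasFDerivAt.comp w₀ (hasFDerivAt_prodMk_right x₁ w₀)
  have h2 : HasDerivAt (fun w => G (x₁, w)) ((F.map (evalRingHom x₁)).derivative.eval w₀) w₀ := by
    have e : (fun w => G (x₁, w)) = fun w => (F.map (evalRingHom x₁)).eval w := by
      funext w
      simp only [hG, map_evalRingHom_eval]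
    rw [e]
    exact Polynomial.hasDerivAt _ _
  have h3 := h1.unique h2.hasFDerivAt
  have hi : (fderiv ℂ G (x₁, w₀) ∘L .inr ℂ ℂ ℂ).IsInvertible := by
    rw [h3]
    exact ⟨ContinuousLinearEquiv.unitsEquivAut ℂ (Units.mk0 _ hd), by ext; simp⟩
  have hz := hc.contDiffAt_implicitFunction one_ne_zero hi
  refine ⟨hc.implicitFunction one_ne_zero hi, hc.implicitFunction_apply_self one_ne_zero hi,
    hz.continuousAt, ?_⟩
  filter_upwards [hz.eventually (by simp), hc.eventually_apply_implicitFunction one_ne_zero hi]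
    with x a b
  exact ⟨a.differentiableAt one_ne_zero, b.trans h0⟩

theorem p_ROOTS :
    S_ROOTS := by
  classical
  intro b F x₁ hm hb hs
  have hdeg : ∀ x : ℂ, (F.map (evalRingHom x)).natDegree = b := fun x => by
    rw [hm.natDegree_map, hb]
  have hne : ∀ x : ℂ, F.map (evalRingHom x) ≠ 0 := fun x => (hm.map _).ne_zero
  set R := (F.map (evalRingHom x₁)).roots.toFinset with hR
  have hcard : R.card = b := by
    rw [hR, Multiset.toFinset_card_of_nodup (nodup_roots hs), IsAlgClosed.card_roots_eq_natDegree,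
      hdeg]
  let e : Fin b ≃ R := (R.equivFinOfCardEq hcard).symm
  have hroot : ∀ i, (F.map (evalRingHom x₁)).eval (e i : ℂ) = 0 := fun i =>
    (mem_roots (hne x₁)).1 (Multiset.mem_toFinset.1 (e i).2)
  have hex := fun i => one_roots F x₁ (e i) (by rw [← map_evalRingHom_eval]; exact hroot i)
    (fun h => by
      have := hs.aeval_derivative_ne_zero (x := (e i : ℂ)) (by simpa using hroot i)
      exact this (by simpa using h))
  choose z hz0 hzc hz using hex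
  have hinj : ∀ᶠ x in 𝓝 x₁, ∀ i j, i ≠ j → z i x ≠ z j x := by
    refine eventually_all.2 fun i => eventually_all.2 fun j => ?_
    by_cases hij : i = j
    · exact Eventually.of_forall fun _ h => absurd hij h
    · have : z i x₁ ≠ z j x₁ := by
        rw [hz0, hz0]
        exact fun h => hij (e.injective (Subtype.ext h))
      exact (((hzc i).sub (hzc j)).eventually_ne (sub_ne_zero.2 this)).mono
        fun _ h _ => sub_ne_zero.1 h
  obtain ⟨δ, hδ, hb'⟩ := Metric.eventually_nhds_iff_ball.1 ((eventually_all.2 hz).and hinj)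
  refine ⟨δ, z, hδ, fun i x hx => ((hb' x hx).1 i).1.differentiableWithinAt, fun x hx => ?_⟩
  have hI : Function.Injective fun i => z i x := fun i j h =>
    by_contra fun hij => (hb' x hx).2 i j hij h
  refine ⟨hI, fun w => ⟨fun hw => ?_, ?_⟩⟩
  · have hsub : Finset.univ.image (fun i => z i x) ⊆ (F.map (evalRingHom x)).roots.toFinset := by
      intro v hv
      obtain ⟨i, -, rfl⟩ := Finset.mem_image.1 hv
      rw [Multiset.mem_toFinset, mem_roots (hne x), IsRoot, map_evalRingHom_eval]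
      exact ((hb' x hx).1 i).2
    have heq := Finset.eq_of_subset_of_card_le hsub (by
      rw [Finset.card_image_of_injective _ hI, Finset.card_univ, Fintype.card_fin]
      exact (Multiset.toFinset_card_le _).trans ((card_roots' _).trans (hdeg x).le))
    have : w ∈ Finset.univ.image (fun i => z i x) := by
      rw [heq, Multiset.mem_toFinset, mem_roots (hne x), IsRoot, map_evalRingHom_eval]
      exact hw
    obtain ⟨i, -, h⟩ := Finset.mem_image.1 this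
    exact ⟨i, h.symm⟩
  · rintro ⟨i, rfl⟩
    exact ((hb' x hx).1 i).2

end Pool.Agent.P.MP_ab0431_ag.UB

namespace Pool.Agent.P.MP_ab0431_ag.UB

open Polynomial Set Filter Topology

/-- A bump function. -/
noncomputable def chi_htp (c : ℂ) (ρ : ℝ) (w : ℂ) : ℝ := max 0 (min 1 (2 - ‖w - c‖ / ρ))

theorem cont_htp (c : ℂ) (ρ : ℝ) : Continuous (chi_htp c ρ) := by
  unfold chi_htp
  fun_prop

theorem abs_htp (c : ℂ) (ρ : ℝ) (w : ℂ) : ‖(chi_htp c ρ w : ℂ)‖ ≤ 1 := by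
  rw [Complex.norm_real, Real.norm_eq_abs, abs_of_nonneg (le_max_left _ _)]
  exact max_le zero_le_one (min_le_left _ _)

theorem one_htp {c w : ℂ} {ρ : ℝ} (h0 : 0 < ρ) (h : ‖w - c‖ ≤ ρ) : chi_htp c ρ w = 1 := by
  have : ‖w - c‖ / ρ ≤ 1 := (div_le_one h0).2 h
  rw [chi_htp, min_eq_left (by linarith), max_eq_right zero_le_one]

theorem zero_htp {c w : ℂ} {ρ : ℝ} (h0 : 0 < ρ) (h : 2 * ρ ≤ ‖w - c‖) : chi_htp c ρ w = 0 := by
  have : 2 ≤ ‖w - c‖ / ρ := (le_div_iff₀ h0).2 h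
  exact max_eq_left ((min_le_right _ _).trans (by linarith))

theorem p_HTP (hROOTS : S_ROOTS) :
    S_HTP := by
  intro F x₁ hm hs
  obtain ⟨δ1, z, hδ1, hd, hz⟩ := hROOTS _ F x₁ hm rfl hs
  generalize F.natDegree = b at z hd hz
  have hinj := (hz x₁ (Metric.mem_ball_self hδ1)).1
  have e1 : ∀ᶠ ρ in 𝓝[>] (0 : ℝ), ∀ i j, i ≠ j → 4 * ρ ≤ ‖z i x₁ - z j x₁‖ :=
    eventually_all.2 fun i => eventually_all.2 fun j => by
      by_cases hij : i = j
      · exact Eventually.of_forall fun _ h => absurd hij h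
      · have : 0 < ‖z i x₁ - z j x₁‖ / 4 :=
          div_pos (norm_pos_iff.2 (sub_ne_zero.2 fun e => hij (hinj e))) (by norm_num)
        filter_upwards [Ioo_mem_nhdsGT this] with ρ hρ _
        linarith [hρ.2]
  obtain ⟨ρ, hρ, hρ0⟩ := (e1.and self_mem_nhdsWithin).exists
  have hρ0 : 0 < ρ := hρ0
  have hb : (0 : ℝ) < 2 * b + 1 := by positivity
  have hη : 0 < ρ / (2 * b + 1) := div_pos hρ0 hb
  have e2 : ∀ᶠ x in 𝓝 x₁, ∀ i, ‖z i x - z i x₁‖ < ρ / (2 * b + 1) :=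
    eventually_all.2 fun i => by
      have := ((hd i).continuousOn.continuousAt (Metric.ball_mem_nhds x₁ hδ1)).eventually
        (Metric.ball_mem_nhds (z i x₁) hη)
      simpa only [dist_eq_norm] using this
  obtain ⟨ε, hε, hε'⟩ := Metric.eventually_nhds_iff_ball.1 e2
  refine ⟨min δ1 ε, lt_min hδ1 hε, fun δ hδ x₂ hx₂ => ?_⟩
  have s1 : Metric.ball x₁ δ ⊆ Metric.ball x₁ δ1 :=
    Metric.ball_subset_ball (hδ.trans (min_le_left _ _))
  have s2 : Metric.ball x₁ δ ⊆ Metric.ball x₁ ε :=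
    Metric.ball_subset_ball (hδ.trans (min_le_right _ _))
  have hc : ∀ x ∈ Metric.ball x₁ δ, ∀ t ∈ Icc (0 : ℝ) 1,
      x + (t : ℂ) * (x₂ - x) ∈ Metric.ball x₁ δ := fun x hx t ht => by
    have := (convex_ball x₁ δ).add_smul_sub_mem hx hx₂ ht
    simpa only [Complex.real_smul] using this
  refine ⟨fun q => (q.1.1 + (q.2 : ℂ) * (x₂ - q.1.1), q.1.2 + ∑ i, (chi_htp (z i x₁) ρ q.1.2 : ℂ) *
    (z i (q.1.1 + (q.2 : ℂ) * (x₂ - q.1.1)) - z i q.1.1)), ?_, fun x hx w =>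
      ⟨by simp, by simp, fun t ht => ⟨hc x hx t ht, fun e => by simp [e], fun hF h0 => hF ?_⟩⟩⟩
  · have c1 : Continuous fun q : (ℂ × ℂ) × ℝ => q.1.1 + (q.2 : ℂ) * (x₂ - q.1.1) := by fun_prop
    refine c1.continuousOn.prodMk (ContinuousOn.add (by fun_prop)
      (continuousOn_finsetSum _ fun i _ => ContinuousOn.mul ?_ (ContinuousOn.sub ?_ ?_)))
    · exact (Complex.continuous_ofReal.comp ((cont_htp _ _).comp (by fun_prop))).continuousOn
    · exact (hd i).continuousOn.comp c1.continuousOn fun q hq => s1 (hc _ hq.1.1 _ hq.2)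
    · exact (hd i).continuousOn.comp (by fun_prop) fun q hq => s1 hq.1.1
  · have hxt := hc x hx t ht
    obtain ⟨k, hk⟩ := ((hz _ (s1 hxt)).2 _).1 h0
    dsimp only at hk
    generalize x + (t : ℂ) * (x₂ - x) = y at hxt hk
    have h1 : ∀ i, ‖(chi_htp (z i x₁) ρ w : ℂ) * (z i y - z i x)‖ ≤ 2 * (ρ / (2 * b + 1)) :=
      fun i => by
        rw [norm_mul]
        have a1 := hε' _ (s2 hxt) i
        have a2 := hε' _ (s2 hx) i
        have a3 : ‖z i y - z i x‖ ≤ ‖z i y - z i x₁‖ + ‖z i x - z i x₁‖ := by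
          simpa using norm_sub_le (z i y - z i x₁) (z i x - z i x₁)
        exact (mul_le_of_le_one_left (norm_nonneg _) (abs_htp _ _ _)).trans (by linarith)
    have h2 := (norm_sum_le Finset.univ _).trans (Finset.sum_le_card_nsmul _ _ _ fun i _ => h1 i)
    rw [Finset.card_univ, Fintype.card_fin, nsmul_eq_mul] at h2
    have h3 : ‖w - z k x₁‖ ≤ ρ := by
      have a1 := hε' _ (s2 hxt) k
      have a2 := norm_sub_le (z k y - z k x₁)
        (∑ i, (chi_htp (z i x₁) ρ w : ℂ) * (z i y - z i x))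
      rw [show z k y - z k x₁ - ∑ i, (chi_htp (z i x₁) ρ w : ℂ) * (z i y - z i x) =
        w - z k x₁ by rw [← hk]; ring] at a2
      have a3 : ρ / (2 * b + 1) + b * (2 * (ρ / (2 * b + 1))) = ρ := by
        field_simp
        ring
      linarith
    rw [Finset.sum_eq_single k (fun i _ hi => ?_) (by simp), one_htp hρ0 h3] at hk
    · exact ((hz _ (s1 hx)).2 _).2 ⟨k, by linear_combination hk - (z k y - z k x) *
        Complex.ofReal_one⟩
    · have a1 := hρ i k hi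
      have a2 := norm_sub_le (w - z k x₁) (w - z i x₁)
      rw [show w - z k x₁ - (w - z i x₁) = z i x₁ - z k x₁ by ring] at a2
      rw [zero_htp hρ0 (by linarith), Complex.ofReal_zero, zero_mul]

end Pool.Agent.P.MP_ab0431_ag.UB

namespace Pool.Agent.P.MP_ab0431_ag.UB

open Polynomial Set Filter Topology

theorem vl_ext {r : ℝ} (hr : 0 ≤ r) : IsPathConnected {z : ℂ | r ≤ ‖z‖} := by
  have h : {z : ℂ | r ≤ ‖z‖} =
      (fun q : ℝ × ℝ => (q.1 : ℂ) * Complex.exp (q.2 * Complex.I)) '' (Ici r ×ˢ univ) := by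
    ext z
    constructor
    · exact fun hz => ⟨(‖z‖, z.arg), ⟨hz, trivial⟩, Complex.norm_mul_exp_arg_mul_I z⟩
    · rintro ⟨⟨t, θ⟩, ⟨ht, -⟩, rfl⟩
      have ht' : r ≤ t := ht
      simp only [mem_ofPred_eq, norm_mul, Complex.norm_exp_ofReal_mul_I, mul_one, Complex.norm_real,
        Real.norm_eq_abs]
      exact ht'.trans (le_abs_self t)
  rw [h]
  exact (((convex_Ici r).prod convex_univ).isPathConnected
    (nonempty_Ici.prod univ_nonempty)).image (by fun_prop)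

theorem vl_line {F : ℂ[X][X]} (hF : F.Monic) (x : ℂ) :
    IsPathConnected {q : ℂ × ℂ | q.1 = x ∧ F.evalEval q.1 q.2 ≠ 0} := by
  have h : {q : ℂ × ℂ | q.1 = x ∧ F.evalEval q.1 q.2 ≠ 0} =
      (fun z => (x, z)) '' {z | (F.map (evalRingHom x)).IsRoot z}ᶜ := by
    ext ⟨x', z⟩
    simp only [mem_ofPred_eq, mem_image, mem_compl_iff, IsRoot.def, map_evalRingHom_eval,
      Prod.mk.injEq]
    constructor
    · rintro ⟨rfl, h⟩
      exact ⟨z, h, rfl, rfl⟩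
    · rintro ⟨z, h, rfl, rfl⟩
      exact ⟨rfl, h⟩
  rw [h]
  exact ((finite_setOfPred_isRoot (hF.map _).ne_zero).countable.isPathConnected_compl_of_one_lt_rank
    (by rw [Complex.rank_real_complex]; norm_num)).image (by fun_prop)

theorem p_VL (hTUQ : S_TUQ) (hTGLUE : S_TGLUE) (hULIFT : S_ULIFT) (hHTP : S_HTP) :
    S_VL := by
  intro E E' _ _ p p' F X₀ N x₀ z₀ f₀ g hF hsep hx₀ hp hp' hN hR hz₀ hg hf₀ hfg
  let P : ℂ → Prop := fun x => ∃ f z, TI p p' {q | q.1 = x ∧ F.evalEval q.1 q.2 ≠ 0} f ∧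
    (∀ z', ‖z‖ ≤ ‖z'‖ → (x, z') ∈ N) ∧ ∀ e, p e = (x, z) → f e = g e
  have loc : ∀ x₁ ∉ X₀, ∃ δ, 0 < δ ∧ ∀ x₂ ∈ Metric.ball x₁ δ, P x₂ → ∃ (f : E → E') (R : ℝ),
      0 ≤ R ∧ TI p p' {q | q.1 ∈ Metric.ball x₁ δ ∧ F.evalEval q.1 q.2 ≠ 0} f ∧
      ∀ x ∈ Metric.ball x₁ δ, ∀ z, R ≤ ‖z‖ → (x, z) ∈ N ∧ ∀ e, p e = (x, z) → f e = g e := by
    intro x₁ hx₁
    obtain ⟨δ, hδ, hH⟩ := hHTP F x₁ hF (hsep x₁ hx₁)
    refine ⟨δ, hδ, ?_⟩
    rintro x₂ hx₂ ⟨f₂, z₂, hf₂, hz₂, hfg₂⟩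
    obtain ⟨H, hHc, hH⟩ := hH δ le_rfl x₂ hx₂
    obtain ⟨f, hf, hff⟩ := hULIFT E E' (ℂ × ℂ) p p'
      {q | q.1 ∈ Metric.ball x₁ δ ∧ F.evalEval q.1 q.2 ≠ 0}
      {q | q.1 = x₂ ∧ F.evalEval q.1 q.2 ≠ 0} H f₂ (hp.mono fun q hq => hq.2)
      (hp'.mono fun q hq => hq.2) (fun q hq => ⟨hq.1 ▸ hx₂, hq.2⟩)
      (hHc.mono (prod_mono (fun q hq => ⟨hq.1, trivial⟩) subset_rfl))
      (fun q hq => by
        obtain ⟨h0, h1, h2⟩ := hH q.1 hq.1 q.2
        exact ⟨h0, ⟨h1, (h2 1 ⟨zero_le_one, le_rfl⟩).2.2 hq.2⟩,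
          fun t ht => ⟨(h2 t ht).1, (h2 t ht).2.2 hq.2⟩⟩)
      (fun q hq t ht => by
        obtain ⟨-, -, h2⟩ := hH q.1 (hq.1 ▸ hx₂) q.2
        exact ⟨(h2 t ht).2.1 hq.1, (h2 t ht).2.2 hq.2⟩) hf₂
    obtain ⟨R, hR⟩ := hR (‖x₁‖ + δ)
    have hb : ∀ x ∈ Metric.ball x₁ δ, ∀ z, max R ‖z₂‖ ≤ ‖z‖ → (x, z) ∈ N := fun x hx z hz =>
      hR x z (norm_le_norm_add_const_of_dist_le (Metric.mem_ball.1 hx).le)
        ((le_max_left _ _).trans hz)
    have h0 : 0 ≤ max R ‖z₂‖ := (norm_nonneg _).trans (le_max_right _ _)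
    set S : Set (ℂ × ℂ) := Metric.ball x₁ δ ×ˢ {z | max R ‖z₂‖ ≤ ‖z‖} ∪
      {x₂} ×ˢ {z | ‖z₂‖ ≤ ‖z‖} with hS
    have hSN : S ⊆ N := by
      rintro ⟨x, z⟩ (h | h)
      · exact hb x h.1 z h.2
      · obtain rfl : x = x₂ := h.1
        exact hz₂ z h.2
    have hSb : S ⊆ {q | q.1 ∈ Metric.ball x₁ δ ∧ F.evalEval q.1 q.2 ≠ 0} := fun q hq =>
      ⟨hq.elim (fun h => h.1) fun h => by rw [show q.1 = x₂ from h.1]; exact hx₂, hN (hSN hq)⟩
    have hn : ‖((max R ‖z₂‖ : ℝ) : ℂ)‖ = max R ‖z₂‖ := by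
      rw [Complex.norm_real, Real.norm_of_nonneg h0]
    have hSc : IsPathConnected S :=
      (((convex_ball x₁ δ).isPathConnected ⟨x₂, hx₂⟩).prod (vl_ext h0)).union
        ((isPathConnected_singleton x₂).prod (vl_ext (norm_nonneg z₂)))
        ⟨(x₂, ((max R ‖z₂‖ : ℝ) : ℂ)), ⟨hx₂, hn.ge⟩, rfl, (le_max_right _ _).trans hn.ge⟩
    have key := hTUQ E E' (ℂ × ℂ) p p' S {(x₂, z₂)} f g (hp.mono (hSN.trans hN))
      (hp'.mono (hSN.trans hN))
      (fun y hy => ⟨_, rfl, hSc.joinedIn y hy _ (Or.inr ⟨rfl, le_refl ‖z₂‖⟩)⟩) (hf.mono hSb)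
      (hg.mono hSN) fun e he => by
        have he' : p e = (x₂, z₂) := he
        rw [hff e (by rw [he']; exact ⟨rfl, hN (hz₂ z₂ le_rfl)⟩), hfg₂ e he']
    exact ⟨f, max R ‖z₂‖, h0, hf, fun x hx z hz =>
      ⟨hb x hx z hz, fun e he => key e (by rw [he]; exact Or.inl ⟨hx, hz⟩)⟩⟩
  have step : ∀ x₁ ∉ X₀, ∃ δ, 0 < δ ∧ ∀ x₂ ∈ Metric.ball x₁ δ, ∀ x ∈ Metric.ball x₁ δ,
      P x₂ → P x := by
    intro x₁ hx₁
    obtain ⟨δ, hδ, h⟩ := loc x₁ hx₁
    refine ⟨δ, hδ, fun x₂ hx₂ x hx hP => ?_⟩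
    obtain ⟨f, R, h0, hf, hfR⟩ := h x₂ hx₂ hP
    have hn : ‖(R : ℂ)‖ = R := by rw [Complex.norm_real, Real.norm_of_nonneg h0]
    exact ⟨f, R, hf.mono fun q hq => ⟨hq.1 ▸ hx, hq.2⟩,
      fun z' hz' => (hfR x hx z' (hn ▸ hz')).1, (hfR x hx R hn.ge).2⟩
  have all : ∀ x ∉ X₀, P x := fun x hx =>
    (X₀.countable_toSet.isPathConnected_compl_of_one_lt_rank
      (by rw [Complex.rank_real_complex]; norm_num)).isConnected.isPreconnected.induction₂'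
      (fun x y => P x → P y) (fun x₁ hx₁ => by
        obtain ⟨δ, hδ, h⟩ := step x₁ hx₁
        filter_upwards [mem_nhdsWithin_of_mem_nhds (Metric.ball_mem_nhds x₁ hδ)] with y hy
        exact ⟨h x₁ (Metric.mem_ball_self hδ) y hy, h y hy x₁ (Metric.mem_ball_self hδ)⟩)
      (fun _ _ _ _ _ _ h h' => h' ∘ h) hx₀ hx ⟨f₀, z₀, hf₀, hz₀, hfg⟩
  choose δ hδ hloc using loc
  choose f R h0 hf hfR using fun a : {x // x ∉ X₀} =>
    hloc a a.2 a (Metric.mem_ball_self (hδ a a.2)) (all a a.2)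
  obtain ⟨G, hG, -⟩ := hTGLUE E E' (ℂ × ℂ) {x // x ∉ X₀} p p'
    {q | q.1 ∉ X₀ ∧ F.evalEval q.1 q.2 ≠ 0} (fun a => Metric.ball a.1 (δ a a.2) ×ˢ univ) f
    (hp.mono fun q hq => hq.2).continuousOn (fun a => Metric.isOpen_ball.prod isOpen_univ)
    (fun y hy => ⟨⟨y.1, hy.1⟩, Metric.mem_ball_self (hδ _ _), trivial⟩)
    (fun a => (hf a).mono fun q hq => ⟨hq.1.1, hq.2.2⟩)
    (fun a b e ha hb he => by
      have hn : ‖((max (R a) (R b) : ℝ) : ℂ)‖ = max (R a) (R b) := by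
        rw [Complex.norm_real, Real.norm_of_nonneg ((h0 a).trans (le_max_left _ _))]
      have h1 := hfR a _ ha.1 _ ((le_max_left _ _).trans hn.ge)
      have h2 := hfR b _ hb.1 _ ((le_max_right _ _).trans hn.ge)
      exact hTUQ E E' (ℂ × ℂ) p p' {q | q.1 = (p e).1 ∧ F.evalEval q.1 q.2 ≠ 0}
        {((p e).1, ((max (R a) (R b) : ℝ) : ℂ))} (f a) (f b) (hp.mono fun q hq => hq.2)
        (hp'.mono fun q hq => hq.2)
        (fun y hy => ⟨_, rfl, (vl_line hF _).joinedIn y hy _ ⟨rfl, hN h1.1⟩⟩)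
        ((hf a).mono fun q hq => ⟨hq.1 ▸ ha.1, hq.2⟩) ((hf b).mono fun q hq => ⟨hq.1 ▸ hb.1, hq.2⟩)
        (fun e' he' => (h1.2 e' he').trans (h2.2 e' he').symm) e ⟨rfl, he.2⟩) ⟨g⟩
  exact ⟨G, hG⟩

end Pool.Agent.P.MP_ab0431_ag.UB

namespace Pool.Agent.P.MP_ab0431_ag.UB

open Polynomial Set Filter Topology

theorem ne_nbh (i : Fin 3) (w : C2) : (i.insertNth 1 w : Fin 3 → ℂ) ≠ 0 := fun h => by
  have := congrFun h i
  simp at this

theorem ins_nbh (i : Fin 3) (v : Fin 3 → ℂ) (h : v i ≠ 0) :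
    (i.insertNth 1 (fun j => v (i.succAbove j) / v i) : Fin 3 → ℂ) = (v i)⁻¹ • v := by
  rw [Fin.insertNth_eq_iff]
  refine ⟨by simp [h], funext fun j => ?_⟩
  simp [Fin.removeNth, div_eq_inv_mul]

theorem diff_nbh (i : Fin 3) :
    Differentiable ℂ fun w : C2 => (i.insertNth 1 w : Fin 3 → ℂ) := by
  refine differentiable_pi.2 fun k => ?_
  rcases Fin.eq_self_or_eq_succAbove i k with rfl | ⟨j, rfl⟩
  · simp
  · simp only [Fin.insertNth_apply_succAbove]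
    fun_prop

theorem p_NBH (hCONN : S_CONN) :
    S_NBH := by
  intro Q G W hW hG hom ⟨v₀, h₀, h₀'⟩
  set A := {y ∈ W | ∃ v, v ≠ 0 ∧ Q.pp v = y ∧ G v ≠ 0} with hA
  have key : ∀ y ∈ W, ∃ N, IsOpen N ∧ y ∈ N ∧ N ⊆ W ∧ IsSimplyConnected N ∧
      IsPreconnected (N ∩ A) ∧ y ∈ closure A := by
    intro y hy
    obtain ⟨v, hv, rfl⟩ := Q.surj y
    obtain ⟨i, hi⟩ := Function.ne_iff.1 hv
    have hφ : IsOpenEmbedding (Q.ch i).symm := (Q.ch i).symm.isOpenEmbedding (Q.ch_tgt i)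
    set g : C2 → ℂ := fun w => G (i.insertNth 1 w) with hg
    have dg : Differentiable ℂ g := hG.comp (diff_nbh i)
    have mem : ∀ w, (Q.ch i).symm w ∈ A ↔ (Q.ch i).symm w ∈ W ∧ g w ≠ 0 := fun w => by
      refine and_congr_right fun _ => ⟨fun ⟨u, hu, e, hu'⟩ => ?_, fun h => ⟨_, ne_nbh i w, (Q.ch_symm i w).symm, h⟩⟩
      rw [Q.ch_symm] at e
      obtain ⟨c, hc⟩ := (Q.eq_iff _ _ hu (ne_nbh i w)).1 e
      have c0 : c ≠ 0 := fun h => ne_nbh i w (by rw [hc, h, zero_smul])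
      simp only [hg, hc]
      exact fun h => hu' ((hom c u c0).1 h)
    have e0 : (Q.ch i).symm (Q.ch i (Q.pp v)) = Q.pp v :=
      (Q.ch i).left_inv ((Q.ch_src i v hv).2 hi)
    set w₀ := Q.ch i (Q.pp v)
    obtain ⟨r, hr, hb⟩ := Metric.isOpen_iff.1 (hW.preimage hφ.continuous) w₀
      (by rw [mem_preimage, e0]; exact hy)
    have d := (hCONN C2 univ g isOpen_univ convex_univ dg.differentiableOn
      ⟨fun j => v₀ (i.succAbove j) / v₀ i, trivial, by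
        simp only [hg, ins_nbh i v₀ (h₀ i)]
        exact fun h => h₀' ((hom _ _ (inv_ne_zero (h₀ i))).1 h)⟩).2 (mem_univ w₀)
    obtain ⟨w₁, h1, h1'⟩ := mem_closure_iff_nhds.1 d _ (Metric.ball_mem_nhds w₀ hr)
    obtain ⟨c1, c2⟩ := hCONN C2 (Metric.ball w₀ r) g Metric.isOpen_ball (convex_ball _ _)
      dg.differentiableOn ⟨w₁, h1, h1'.2⟩
    have im : (Q.ch i).symm '' Metric.ball w₀ r ∩ A =
        (Q.ch i).symm '' {w ∈ Metric.ball w₀ r | g w ≠ 0} := by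
      ext z
      constructor
      · rintro ⟨⟨w, hw, rfl⟩, hz⟩
        exact ⟨w, ⟨hw, ((mem w).1 hz).2⟩, rfl⟩
      · rintro ⟨w, hw, rfl⟩
        exact ⟨⟨w, hw.1, rfl⟩, (mem w).2 ⟨hb hw.1, hw.2⟩⟩
    refine ⟨(Q.ch i).symm '' Metric.ball w₀ r, hφ.isOpenMap _ Metric.isOpen_ball,
      ⟨w₀, Metric.mem_ball_self hr, e0⟩, image_subset_iff.2 hb, ?_, ?_, ?_⟩
    · rw [hφ.isEmbedding.isSimplyConnected_image]
      have := (convex_ball w₀ r).contractibleSpace ⟨w₀, Metric.mem_ball_self hr⟩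
      exact SimplyConnectedSpace.ofContractible _
    · rw [im]
      exact c1.image _ hφ.continuous.continuousOn
    · refine closure_mono (t := A) (im ▸ inter_subset_right) ?_
      rw [← e0]
      exact image_closure_subset_closure_image hφ.continuous
        ⟨w₀, c2 (Metric.mem_ball_self hr), rfl⟩
  refine ⟨fun y hy => ?_, fun y hy => ?_⟩
  · obtain ⟨_, -, -, -, -, -, h⟩ := key y hy
    exact h
  · obtain ⟨N, a, b, c, d, e, -⟩ := key y hy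
    exact ⟨N, a, b, c, d, e⟩

end Pool.Agent.P.MP_ab0431_ag.UB

namespace Pool.Agent.P.MP_ab0431_ag.UB

open Polynomial Set Filter Topology

theorem symm_ninf (Q : PM) (w : C2) : (Q.ch 2).symm w = Q.pp ![w 0, w 1, 1] := by
  rw [Q.ch_symm]
  congr 1
  funext i
  fin_cases i <;> rfl

theorem p_NINF :
    S_NINF := by
  intro Q N M hN
  have h1 : ContinuousAt (Q.ch 2).symm 0 :=
    (Q.ch 2).continuousAt_symm (by rw [Q.ch_tgt]; exact mem_univ _)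
  have h2 : N ∈ 𝓝 ((Q.ch 2).symm 0) := by rw [symm_ninf]; exact hN
  obtain ⟨r, r0, hr⟩ := Metric.mem_nhds_iff.1 (h1 h2)
  refine ⟨(|M| + 1) / r + 1, fun x z hx hz => ?_⟩
  have M1 : 0 < (|M| + 1) / r := by positivity
  have z0 : 0 < ‖z‖ := by linarith
  have z1 : z ≠ 0 := norm_pos_iff.1 z0
  have z2 : |M| + 1 < r * ‖z‖ := by
    rw [mul_comm, ← div_lt_iff₀ r0]; linarith
  have h3 : Q.pp ![1, x, z] = (Q.ch 2).symm ![1 / z, x / z] := by
    rw [symm_ninf]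
    refine (Q.eq_iff _ _ (fun h => one_ne_zero (congrFun h 0))
      (fun h => one_ne_zero (congrFun h 2))).2 ⟨z⁻¹, ?_⟩
    funext i
    fin_cases i <;> simp [z1, div_eq_inv_mul]
  rw [h3]
  refine hr (mem_ball_zero_iff.2 ((pi_norm_lt_iff r0).2 fun i => ?_))
  have := abs_nonneg M
  have := le_abs_self M
  fin_cases i
  · show ‖1 / z‖ < r
    rw [norm_div, norm_one, div_lt_iff₀ z0]; linarith
  · show ‖x / z‖ < r
    rw [norm_div, div_lt_iff₀ z0]; linarith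

end Pool.Agent.P.MP_ab0431_ag.UB

namespace Pool.Agent.P.MP_ab0431_ag.UB

open Polynomial Set Filter Topology

theorem p_CT2 (hVL : S_VL) (hCOVG : S_COVG) (hPULL : S_PULL) (hBCH : S_BCH) (hNBH : S_NBH) (hNINF : S_NINF) (hSECS : S_SECS) (hTSEC : S_TSEC) :
    S_CT2 := by
  intro Q b m d c F F' X₀ x₀ f hW hd hsep hx₀ h0 h0' h1' hf
  obtain ⟨-, -, haf, hB, hinf, hcl, hemb⟩ := hBCH Q b m c hW
  have : LocallyPathConnectedSpace Q.Y := ChartedSpace.locallyPathConnectedSpace C2 Q.Y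
  obtain ⟨N, hNo, hNi, hNB, hNs, -⟩ := (hNBH Q (fun _ => 1) (Bc Q c)ᶜ hcl.isOpen_compl
    (differentiable_const _) (fun _ _ _ => Iff.rfl)
    ⟨fun _ => 1, fun _ => one_ne_zero, one_ne_zero⟩).2 _ hinf
  have hR : ∀ M : ℝ, ∃ R : ℝ, ∀ x z : ℂ, ‖x‖ ≤ M → R ≤ ‖z‖ → (x, z) ∈ Q.af ⁻¹' N := fun M => by
    obtain ⟨R, hR⟩ := hNINF Q N M (hNo.mem_nhds hNi)
    exact ⟨R, fun x z hx hz => by rw [mem_preimage, haf]; exact hR x z hx hz⟩
  obtain ⟨R, hR₀⟩ := hR ‖x₀‖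
  have hz₀ : ∀ z, ‖(R : ℂ)‖ ≤ ‖z‖ → (x₀, z) ∈ Q.af ⁻¹' N := fun z hz =>
    hR₀ x₀ z le_rfl (((le_abs_self R).trans_eq (Complex.norm_real R).symm).trans hz)
  have hy₀ : Q.af (x₀, R) ∈ N := hz₀ R le_rfl
  have hNF : Q.af ⁻¹' N ⊆ {q | (toP c).evalEval q.1 q.2 ≠ 0} := fun q hq h => hNB hq ((hB q).2 h)
  have hc := hCOVG C2 Q.Y F _ univ isOpen_univ h0
  have hc' := hCOVG C2 Q.Y F' _ univ isOpen_univ h0'
  have hNU : N ⊆ univ \ Bc Q c := fun y hy => ⟨trivial, hNB hy⟩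
  have hmem : ∀ e, F.π e = Q.af (x₀, R) →
      F.π e ∈ Q.af '' {q | q.1 = x₀ ∧ (toP c).evalEval q.1 q.2 ≠ 0} := fun e he =>
    ⟨(x₀, R), ⟨rfl, hNF hy₀⟩, he.symm⟩
  obtain ⟨s, hs, hs0⟩ := hSECS F.Z Q.Y (F.π ⁻¹' {Q.af (x₀, R)}) F.π N _ Subtype.val
    (hc.mono hNU) hNo hNs hy₀ (fun l => l.2) Subtype.val_injective fun e he => ⟨⟨e, he⟩, rfl⟩
  obtain ⟨s', hs', hs0'⟩ := hSECS F'.Z Q.Y (F.π ⁻¹' {Q.af (x₀, R)}) F'.π N _ (fun l => f l)
    (hc'.mono hNU) hNo hNs hy₀ (fun l => (hf.2.1 _ (hmem _ l.2)).trans l.2)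
    (fun l l' h => Subtype.ext (hf.2.2.injOn (hmem _ l.2) (hmem _ l'.2) h)) fun e' he' => by
      obtain ⟨e, he, rfl⟩ := hf.2.2.surjOn (a := e') ⟨(x₀, R), ⟨rfl, hNF hy₀⟩, he'.symm⟩
      exact ⟨⟨e, (hf.2.1 e he).symm.trans he'⟩, rfl⟩
  obtain ⟨g, hg, hgs⟩ := hTSEC _ _ _ _ F.π F'.π N s s' (hc.mono hNU) hs hs' ⟨f⟩
  obtain ⟨e', he'⟩ : (F'.π ⁻¹' {Q.af (x₀, R)}).Nonempty :=
    nonempty_of_ncard_ne_zero (by rw [h1'.card _ trivial (hNB hy₀)]; exact hd.ne')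
  have hne : Nonempty (F.π ⁻¹' range Q.af → F'.π ⁻¹' range Q.af) :=
    ⟨fun _ => ⟨e', (x₀, R), Eq.symm he'⟩⟩
  obtain ⟨f₀, hf₀, hff⟩ := (hPULL _ _ _ _ F.π F'.π _ hemb.isEmbedding _).2.2 f hf hne
  obtain ⟨g₀, hg₀, hgg⟩ := (hPULL _ _ _ _ F.π F'.π _ hemb.isEmbedding (Q.af ⁻¹' N)).2.2 g
    (hg.mono (image_preimage_subset _ _)) hne
  have hsub : {q : ℂ × ℂ | (toP c).evalEval q.1 q.2 ≠ 0} ⊆ Q.af ⁻¹' (univ \ Bc Q c) :=
    fun q hq => ⟨trivial, fun h => hq ((hB q).1 h)⟩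
  obtain ⟨f₁, hf₁⟩ := hVL _ _ (pb F.π hemb.isEmbedding) (pb F'.π hemb.isEmbedding) (toP c) X₀
    (Q.af ⁻¹' N) x₀ R f₀ g₀ (toP_monic c) hsep hx₀
    (((hPULL _ _ _ _ F.π F.π _ hemb.isEmbedding univ).1 _ hc).mono hsub)
    (((hPULL _ _ _ _ F'.π F'.π _ hemb.isEmbedding univ).1 _ hc').mono hsub) hNF hR hz₀ hg₀ hf₀
    fun e he => Subtype.ext (by
      have h := hgs ⟨e, (pb_eq _ _ e _).1 he⟩ _ hy₀
      rw [hs0, hs0'] at h
      rw [← hff e (by rw [he]; exact ⟨rfl, hNF hy₀⟩), ← hgg e (by rw [he]; exact hy₀)]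
      exact h.symm)
  obtain ⟨G, hG, -⟩ := (hPULL _ _ _ _ F.π F'.π _ hemb.isEmbedding _).2.1 f₁ hf₁ ⟨f⟩
  exact ⟨G, hG⟩

end Pool.Agent.P.MP_ab0431_ag.UB

namespace Pool.Agent.P.MP_ab0431_ag.UB

open Polynomial Set Filter Topology

theorem loc_ext (hTUNI : S_TUNI) (hTSEC : S_TSEC) (hSECS : S_SECS) {E E' T : Type}
    [TopologicalSpace E] [TopologicalSpace E'] [TopologicalSpace T] [LocallyPathConnectedSpace T]
    {p : E → T} {p' : E' → T} {N W' : Set T} {f : E → E'} (hp : IsCoveringMapOn p N)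
    (hp' : IsCoveringMapOn p' N) (hN : IsOpen N) (hs : IsSimplyConnected N)
    (hc : IsPreconnected (N ∩ W')) (hne : (N ∩ W').Nonempty) (hf : TI p p' W' f) :
    ∃ g, TI p p' N g ∧ ∀ e, p e ∈ N → p e ∈ W' → g e = f e := by
  obtain ⟨y, hyN, hyW⟩ := hne
  obtain ⟨s, hs1, hs2⟩ := hSECS E T {e // p e = y} p N y Subtype.val hp hN hs hyN
    (fun l => l.2) Subtype.val_injective (fun e he => ⟨⟨e, he⟩, rfl⟩)
  have hm : ∀ l : {e // p e = y}, l.1 ∈ p ⁻¹' W' := fun l => by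
    rw [mem_preimage, l.2]; exact hyW
  obtain ⟨s', ht1, ht2⟩ := hSECS E' T {e // p e = y} p' N y (fun l => f l.1) hp' hN hs hyN
    (fun l => by rw [hf.2.1 _ (hm l), l.2])
    (fun l l' h => Subtype.ext (hf.2.2.injOn (hm l) (hm l') h))
    (fun e he => by
      obtain ⟨z, hz, rfl⟩ := hf.2.2.surjOn (show e ∈ p' ⁻¹' W' by rw [mem_preimage, he]; exact hyW)
      exact ⟨⟨z, by rw [← hf.2.1 z hz, he]⟩, rfl⟩)
  obtain ⟨g, hg1, hg2⟩ := hTSEC E E' T _ p p' N s s' hp hs1 ht1 ⟨f⟩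
  refine ⟨g, hg1, fun e heN heW => ?_⟩
  obtain ⟨l, hl⟩ := (hs1.2 _ heN).2.2 e rfl
  have hk := hTUNI E' T T p' N (N ∩ W') (s' l) (fun x => f (s l x)) y hp' hc
    ((ht1.1 l).mono inter_subset_left)
    (hf.1.comp ((hs1.1 l).mono inter_subset_left) (fun x hx => by
      rw [mem_preimage, (hs1.2 x hx.1).1 l]; exact hx.2))
    (fun x hx => by
      have h1 := (ht1.2 x hx.1).1 l
      have h2 := (hs1.2 x hx.1).1 l
      refine ⟨by rw [h1]; exact hx.1, ?_⟩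
      rw [h1, hf.2.1 _ (by rw [h2]; exact hx.2), h2])
    ⟨hyN, hyW⟩ (by rw [ht2, hs2])
  have := hk (show p e ∈ N ∩ W' from ⟨heN, heW⟩)
  rw [← hl, hg2 l _ heN, this]

theorem clo_ext_e (hSECS : S_SECS) {E T : Type} [TopologicalSpace E] [TopologicalSpace T]
    [LocallyPathConnectedSpace T] {p : E → T} {N S : Set T} (hp : IsCoveringMapOn p N)
    (hN : IsOpen N) (hs : IsSimplyConnected N) (hS : S ⊆ N) {e : E} (he : p e ∈ N)
    (hc : p e ∈ closure S) : e ∈ closure (p ⁻¹' S) := by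
  obtain ⟨s, hs1, hs2⟩ := hSECS E T {z // p z = p e} p N (p e) Subtype.val hp hN hs he
    (fun l => l.2) Subtype.val_injective (fun z hz => ⟨⟨z, hz⟩, rfl⟩)
  have h1 : ContinuousWithinAt (s ⟨e, rfl⟩) S (p e) := ((hs1.1 _) _ he).mono hS
  have h2 := h1.mem_closure hc (t := p ⁻¹' S) (fun x hx => by
    rw [mem_preimage, (hs1.2 x (hS hx)).1]; exact hx)
  rwa [hs2] at h2

theorem p_EXT (hTUNI : S_TUNI) (hTSEC : S_TSEC) (hTGLUE : S_TGLUE) (hSECS : S_SECS) :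
    S_EXT := by
  intro E E' T _ _ _ _ _ p p' W W' f hp hp' hW' hW hloc hf
  choose N hNo hNy hNW hNs hNc using hloc
  have hg : ∀ a : W, ∃ g, TI p p' (N a a.2) g ∧ ∀ e, p e ∈ N a a.2 → p e ∈ W' → g e = f e :=
    fun a => loc_ext hTUNI hTSEC hSECS (hp.mono (hNW a a.2)) (hp'.mono (hNW a a.2)) (hNo a a.2)
      (hNs a a.2) (hNc a a.2) (mem_closure_iff.1 (hW a.2) _ (hNo a a.2) (hNy a a.2)) hf
  choose g hg1 hg2 using hg
  obtain ⟨G, hG1, hG2⟩ := hTGLUE E E' T W p p' W (fun a => N a a.2) g hp.continuousOn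
    (fun a => hNo a a.2) (fun y hy => ⟨⟨y, hy⟩, hNy y hy⟩)
    (fun a => (hg1 a).mono inter_subset_left) (fun a b e ha hb hw => by
      have hc : e ∈ closure (p ⁻¹' ((N a a.2 ∩ N b b.2) ∩ W')) :=
        clo_ext_e hSECS (hp.mono (hNW a a.2)) (hNo a a.2) (hNs a a.2)
          (inter_subset_left.trans inter_subset_left) ha
          (((hNo a a.2).inter (hNo b b.2)).inter_closure ⟨⟨ha, hb⟩, hW hw⟩)
      have hne := mem_closure_iff_nhdsWithin_neBot.1 hc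
      have t1 : ContinuousWithinAt (g a) (p ⁻¹' ((N a a.2 ∩ N b b.2) ∩ W')) e :=
        ((hg1 a).1 e ha).mono (fun z hz => hz.1.1)
      have t2 : ContinuousWithinAt (g b) (p ⁻¹' ((N a a.2 ∩ N b b.2) ∩ W')) e :=
        ((hg1 b).1 e hb).mono (fun z hz => hz.1.2)
      refine tendsto_nhds_unique_of_eventuallyEq t1 t2 ?_
      filter_upwards [self_mem_nhdsWithin] with z hz
      rw [hg2 a z hz.1.1 hz.2, hg2 b z hz.1.2 hz.2]) ⟨f⟩
  refine ⟨G, hG1, fun e he => ?_⟩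
  rw [hG2 ⟨p e, hW' he⟩ e (hNy _ _) (hW' he), hg2 _ e (hNy _ _) he]

end Pool.Agent.P.MP_ab0431_ag.UB

namespace Pool.Agent.P.MP_ab0431_ag.UB

open Polynomial Set Filter Topology

theorem p_COUNT (hCT1 : S_CT1) (hCT2 : S_CT2) (hEXT : S_EXT) (hCOVG : S_COVG) (hBCH : S_BCH) (hNBH : S_NBH) (hDSEP : S_DSEP) :
    S_COUNT := by
  classical
  intro Q b m d n c F hG hn h0 h1
  obtain ⟨hBv, hhom, haf, hB, hinf, hcl, hemb⟩ := hBCH Q b m c hG.1
  rcases Nat.eq_zero_or_pos d with rfl | hd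
  · have he : ∀ i, IsEmpty (F i).Z := fun i => ⟨fun z => by
      obtain ⟨z', hz'⟩ := closure_nonempty_iff.1 ⟨z, (h0 i).thin z trivial⟩
      have h := (ncard_eq_zero ((h0 i).fin _ trivial)).1 ((h1 i).card _ trivial hz')
      exact (h.subset (rfl : z' ∈ (F i).π ⁻¹' {(F i).π z'}) : z' ∈ (∅ : Set (F i).Z))⟩
    have hn' : 1 < n := by simpa using hn
    refine ⟨⟨0, by omega⟩, ⟨1, hn'⟩, Fin.mk_lt_mk.2 one_pos, fun z => (he _).elim z,
      fun z => (he _).elim z, fun z => (he _).elim z, fun z => (he _).elim z,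
      fun z => (he _).elim z, fun z => (he _).elim z⟩
  have hΔ : Δ b (toP c) ≠ 0 := fun h => hG.2.1 (by rw [h, coeff_zero])
  set X₀ := (Δ b (toP c)).roots.toFinset with hX
  have hsep : ∀ x ∉ X₀, ((toP c).map (evalRingHom x)).Separable := fun x hx =>
    (hDSEP ℂ b _ ((toP_monic c).map _) (by rw [(toP_monic c).natDegree_map, toP_natDegree])).1
      (by
        rw [Δ_map]
        exact fun h => hx (Multiset.mem_toFinset.2 ((mem_roots hΔ).2 h)))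
  obtain ⟨x₀, hx₀, i, j, hij, f, hf⟩ := hCT1 Q b m d n c F X₀ hG.1 hd hn h0 h1
  obtain ⟨g, hg⟩ := hCT2 Q b m d c (F j) (F i) X₀ x₀ f hG.1 hd hsep hx₀ (h0 j) (h0 i) (h1 i) hf
  have : LocallyPathConnectedSpace Q.Y := ChartedSpace.locallyPathConnectedSpace C2 Q.Y
  let G : (Fin 3 → ℂ) → ℂ := fun v => v 0 * ∏ ξ ∈ X₀, (v 1 - ξ * v 0)
  have hG0 : ∀ v, G v ≠ 0 ↔ v 0 ≠ 0 ∧ v 1 / v 0 ∉ X₀ := fun v => by
    simp only [G, mul_ne_zero_iff, Finset.prod_ne_zero_iff]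
    refine and_congr_right fun h => ⟨fun h' hm => h' _ hm (by field_simp; ring),
      fun h' ξ hξ h'' => h' ?_⟩
    rwa [sub_eq_zero.1 h'', mul_div_cancel_right₀ _ h]
  obtain ⟨x₁, hx₁⟩ := (insert 0 X₀).finite_toSet.exists_notMem
  obtain ⟨hd', hN⟩ := hNBH Q G (Bc Q c)ᶜ hcl.isOpen_compl
    ((differentiable_apply 0).mul ((contDiff_prod (n := 1) (t := X₀)
      (f := fun ξ (v : Fin 3 → ℂ) => v 1 - ξ * v 0) fun ξ _ => by fun_prop).differentiable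
      one_ne_zero))
    (fun t v ht => by
      rw [← not_iff_not, ← Ne, ← Ne, hG0, hG0]
      simp only [Pi.smul_apply, smul_eq_mul, mul_div_mul_left _ _ ht, ht, ne_eq, mul_eq_zero,
        false_or])
    ⟨![1, x₁, 1], fun l => by
      have : x₁ ≠ 0 := fun h => hx₁ (by simp [h])
      fin_cases l <;> simp [this], (hG0 _).2 ⟨by simp, fun h => hx₁ (by simp at h; simp [h])⟩⟩
  have hu : (Bc Q c)ᶜ ⊆ univ \ Bc Q c := fun y hy => ⟨trivial, hy⟩
  obtain ⟨g', hg', -⟩ := hEXT _ _ _ (F j).π (F i).π (Bc Q c)ᶜ _ g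
    ((hCOVG C2 Q.Y (F j) _ univ isOpen_univ (h0 j)).mono hu)
    ((hCOVG C2 Q.Y (F i) _ univ isOpen_univ (h0 i)).mono hu) (sep_subset _ _) hd' hN
    (hg.mono (by
      rintro y ⟨hy, v, hv, rfl, hv'⟩
      obtain ⟨h, h'⟩ := (hG0 v).1 hv'
      have he : Q.af (v 1 / v 0, v 2 / v 0) = Q.pp v := by
        rw [haf]
        refine (Q.eq_iff _ _ (fun h => by simpa using congrFun h 0) hv).2 ⟨v 0, ?_⟩
        funext l
        fin_cases l <;> simp <;> field_simp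
      exact ⟨(v 1 / v 0, v 2 / v 0), ⟨h', fun h'' => hy (he ▸ (hB _).2 h'')⟩, he⟩))
  exact ⟨i, j, hij, g', hg'⟩

end Pool.Agent.P.MP_ab0431_ag.UB
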