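import Pool.Agent.P.MP_ab0431_ag.UB.IfaceD
import Pool.Agent.P.MP_ab0431_ag.UB.IfaceD2
import Pool.Agent.P.MP_ab0431_ag.UB.IfaceA
import Pool.Agent.P.MP_ab0431_ag.UB.IfaceD5
import Pool.Agent.P.MP_ab0431_ag.UB.MD2_1

/-! Steps TBOX ZLB TRN1 TRANS SLC HL STEP PROP DIVC XT0 XT1 TRSN GLUE0. -/

set_option autoImplicit false
set_option linter.unusedSectionVars false
set_option linter.unusedVariables false

namespace Pool.Agent.P.MP_ab0431_ag.UB

open Set Filter Topology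
open scoped Manifold ContDiff

namespace TBOXa

variable {M : Type} [TopologicalSpace M] [ChartedSpace C2 M] [IsManifold 𝓘(ℂ, C2) ω M]
  {e : OpenPartialHomeomorph M C2}

theorem bi (he : e ∈ atlas C2 M) : @Bi (C2 × ℂ) _ _ (M × ℂ) (C2 × ℂ) _ _ _ (chartedSpaceSelf _)
    (e.prod (OpenPartialHomeomorph.refl ℂ)) :=
  ⟨((mdifferentiableOn_atlas he).comp md_fst.mdifferentiableOn fun _ hx => hx.1).prodMk_space
    md_snd.mdifferentiableOn,
    md_pair ((mdifferentiableOn_atlas_symm he).comp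
      differentiable_fst.mdifferentiable.mdifferentiableOn fun _ hx => hx.1)
      differentiable_snd.mdifferentiable.mdifferentiableOn⟩

theorem box (he : e ∈ atlas C2 M) (ht : e.target = univ) {H : C2 × ℂ → ℂ} {B : Set (M × ℂ)}
    {U : Set ℂ} (hU : IsOpen U)
    (hB : ∀ w : M × ℂ, w.1 ∈ e.source → w.2 ∈ U → (w ∈ B ↔ H (e w.1, w.2) = 0)) {w : M × ℂ}
    (h1 : w.1 ∈ e.source) (h2 : w.2 ∈ U) (h : Str3 H (e w.1, w.2)) :
    ∃ Ψ, Box B Ψ ∧ w ∈ Ψ.source := by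
  obtain ⟨Ψ, a1, a2, a3, a4, A, a5⟩ := h
  have b : Bi (C2 × ℂ) Ψ := ⟨a2.mdifferentiableOn, a3.mdifferentiableOn⟩
  refine ⟨_, ⟨(((bi he).trans b).trans (bi he).symm).restr (hU.preimage continuous_snd),
    fun y hy => a4 _ hy.1.1.2, e ⁻¹' A, fun y hy => ?_⟩,
    ⟨⟨⟨h1, trivial⟩, a1⟩, ht ▸ mem_univ _, trivial⟩, h2⟩
  refine (hB y hy.1.1.1.1 hy.2).trans ((a5 _ hy.1.1.2).trans ?_)
  change _ ↔ e (e.symm _) ∈ A
  rw [e.right_inv (ht ▸ mem_univ _)]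
  rfl

end TBOXa

theorem p_TBOX (hTRA : S_TRA) (hBCF : S_BCF) :
    S_TBOX := by
  intro Q b m nn N U s hS w hw
  obtain ⟨v, v0, hv⟩ := Q.surj w.1
  obtain ⟨i, x, a, e, h⟩ := hTRA b m nn N U s hS w.2 hw v v0
  have n0 : ∀ x : C2, (i.insertNth 1 x : Fin 3 → ℂ) ≠ 0 := fun x e => by
    simpa using congrFun e i
  have h1 : (Q.ch i).symm x = w.1 := by
    rw [Q.ch_symm, ← hv]
    exact (Q.eq_iff _ _ (n0 x) v0).2 ⟨a, e⟩
  have h2 : x ∈ (Q.ch i).target := Q.ch_tgt i ▸ mem_univ _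
  refine TBOXa.box (Q.ch_mem i) (Q.ch_tgt i) hS.isOpen (fun y y1 y2 => ?_)
    (h1 ▸ (Q.ch i).map_target h2) hw (by rwa [← h1, (Q.ch i).right_inv h2])
  rw [← (hBCF Q b m _ (hS.good _ y2).1.1).1 _ (n0 _), ← Q.ch_symm, (Q.ch i).left_inv y1]
  rfl

end Pool.Agent.P.MP_ab0431_ag.UB

namespace Pool.Agent.P.MP_ab0431_ag.UB

open Set Filter Topology
open scoped Manifold ContDiff

namespace ZLBa

theorem diff (b : ℕ) (F : Polynomial (Polynomial ℂ)) (i : Fin 3) :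
    Differentiable ℂ fun w : C2 => hom b F (i.insertNth 1 w) := by
  have h : ∀ j : Fin 3, Differentiable ℂ fun w : C2 => (i.insertNth 1 w : Fin 3 → ℂ) j := by
    intro j
    induction j using Fin.succAboveCases i with
    | x => simp only [Fin.insertNth_apply_same]; exact differentiable_const _
    | p j => simp only [Fin.insertNth_apply_succAbove]; fun_prop
  unfold hom
  exact Differentiable.fun_sum fun j _ => Differentiable.fun_sum fun l _ =>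
    ((((h 0).fun_pow _).const_mul _).fun_mul ((h 1).fun_pow _)).fun_mul ((h 2).fun_pow _)

end ZLBa

theorem p_ZLB (hBCF : S_BCF) :
    S_ZLB := by
  intro Q b m c hc y _
  obtain ⟨v, hv, rfl⟩ := Q.surj y
  obtain ⟨i, hi⟩ := Function.ne_iff.1 hv
  refine ⟨(Q.ch i).source, fun y => hom b (toP c) (i.insertNth 1 (Q.ch i y)), (Q.ch i).open_source,
    (Q.ch_src i v hv).2 hi, (ZLBa.diff b _ i).mdifferentiable.comp_mdifferentiableOn
      (mdifferentiableOn_atlas (Q.ch_mem i)), fun y hy => ?_⟩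
  have h1 : (i.insertNth 1 (Q.ch i y) : Fin 3 → ℂ) ≠ 0 := fun e => by simpa using congrFun e i
  have h2 := (hBCF Q b m c hc).1 _ h1
  rwa [← Q.ch_symm, (Q.ch i).left_inv hy] at h2

end Pool.Agent.P.MP_ab0431_ag.UB

namespace Pool.Agent.P.MP_ab0431_ag.UB

open Set Filter Topology
open scoped Manifold ContDiff

theorem p_TRN1 :
    S_TRN1 := by
  intro Y _ _ B A Ψ w₀ h0 h2 hB
  let x₀ : (Y × ℂ) × ℂ := (w₀, w₀.2)
  let k : ((Y × ℂ) × ℂ) × ℝ → Y × ℂ := fun p =>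
    ((Ψ p.1.1).1, p.1.1.2 + p.2 * (p.1.2 - p.1.1.2))
  have hk : ∀ x s, x.1 ∈ Ψ.source → ContinuousAt k (x, s) := fun x s hx =>
    (((Ψ.continuousAt hx).comp_of_eq (f := fun p : ((Y × ℂ) × ℂ) × ℝ => p.1.1) (by fun_prop)
      rfl).fst).prodMk (by fun_prop)
  have hd : ∀ w ∈ Ψ.source, ∀ s, k ((w, w.2), s) = Ψ w := fun w hw s =>
    Prod.ext rfl (by simp [k, h2 w hw])
  have h1 : ∀ᶠ x in 𝓝 x₀, x.1 ∈ Ψ.source ∧ ∀ s ∈ Icc (0 : ℝ) 1, k (x, s) ∈ Ψ.target :=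
    (continuousAt_fst.eventually (Ψ.open_source.mem_nhds h0)).and
      (isCompact_Icc.eventually_forall_of_forall_eventually fun s _ => (hk x₀ s h0).eventually
        (Ψ.open_target.mem_nhds ((hd w₀ h0 s).symm ▸ Ψ.map_source h0)))
  obtain ⟨ε, hε, h3⟩ := Metric.eventually_nhds_iff.1 h1
  let c : (Y × ℂ) × ℂ → ℝ := fun x => max 0 (min 1 (2 - 3 * dist x x₀ / ε))
  have hc : Continuous c := by fun_prop
  have hc1 : ∀ x, c x ∈ Icc (0 : ℝ) 1 := fun x =>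
    ⟨le_max_left _ _, max_le zero_le_one (min_le_left _ _)⟩
  let G : (Y × ℂ) × ℂ → Y × ℂ := fun x => if dist x x₀ < ε then Ψ.symm (k (x, c x)) else x.1
  have hG : ∀ x, dist x x₀ < ε → G x = Ψ.symm (k (x, c x)) := fun x hx => if_pos hx
  have hG' : ∀ x, ¬dist x x₀ < ε → G x = x.1 := fun x hx => if_neg hx
  have hb : ∀ r, IsOpen {x | dist x x₀ < r} := fun r => Metric.isOpen_ball
  refine ⟨G, continuous_iff_continuousAt.2 fun x => ?_, fun w => ?_, fun x hx => ?_, ?_⟩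
  · by_cases hx : dist x x₀ < ε
    · refine ContinuousAt.congr ((Ψ.continuousAt_symm ((h3 hx).2 _ (hc1 x))).comp_of_eq
        ((hk x (c x) (h3 hx).1).comp_of_eq (f := fun x => (x, c x)) (by fun_prop) rfl) rfl) ?_
      filter_upwards [(hb ε).mem_nhds hx] with y hy using (hG y hy).symm
    · refine continuousAt_fst.congr ?_
      have h4 : IsOpen {y | 2 * ε / 3 < dist y x₀} := isOpen_lt continuous_const (by fun_prop)
      filter_upwards [h4.mem_nhds (show 2 * ε / 3 < dist x x₀ by linarith [not_lt.1 hx])] with y hy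
      by_cases h5 : dist y x₀ < ε
      · have : c y = 0 := max_eq_left (min_le_of_right_le (by
          rw [sub_nonpos, le_div_iff₀ hε]; linarith))
        rw [hG y h5, this, ← Ψ.left_inv (h3 h5).1]
        exact congrArg _ (Prod.ext rfl (by simp [k, h2 _ (h3 h5).1]))
      · exact (hG' y h5).symm
  · by_cases hx : dist (w, w.2) x₀ < ε
    · rw [hG _ hx, hd w (h3 hx).1, Ψ.left_inv (h3 hx).1]
    · exact hG' _ hx
  · by_cases h5 : dist x x₀ < ε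
    · have h6 := (h3 h5).2 _ (hc1 x)
      rw [hG x h5, hB _ (Ψ.map_target h6), Ψ.right_inv h6]
      exact fun a => hx ((hB _ (h3 h5).1).2 a)
    · rwa [hG' x h5]
  · filter_upwards [(hb (ε / 3)).mem_nhds (show dist x₀ x₀ < ε / 3 by rw [dist_self]; positivity)]
      with x hx
    have h5 : dist x x₀ < ε := by linarith
    have h6 := (h3 h5).2 _ (hc1 x)
    have : c x = 1 := by
      rw [show c x = max 0 1 from congrArg _ (min_eq_left (by
        rw [le_sub_comm, div_le_iff₀ hε]; linarith)), max_eq_right zero_le_one]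
    rw [hG x h5, ← h2 _ (Ψ.map_target h6), Ψ.right_inv h6, this]
    simp [k]

end Pool.Agent.P.MP_ab0431_ag.UB

namespace Pool.Agent.P.MP_ab0431_ag.UB

open Set Filter Topology
open scoped Manifold ContDiff

namespace TRANSa

theorem loc (hTRN1 : S_TRN1) {Y : Type} [MetricSpace Y] [CompactSpace Y] {B : Set (Y × ℂ)}
    {K : Set ℂ} (hK : IsCompact K)
    (h : ∀ w : Y × ℂ, w.2 ∈ K → ∃ (Ψ : OpenPartialHomeomorph (Y × ℂ) (Y × ℂ)) (A : Set Y),
      w ∈ Ψ.source ∧ (∀ w ∈ Ψ.source, (Ψ w).2 = w.2) ∧ ∀ w ∈ Ψ.source, (w ∈ B ↔ (Ψ w).1 ∈ A)) :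
    ∃ G : (Y × ℂ) × ℂ → Y × ℂ, Continuous G ∧ (∀ w, G (w, w.2) = w) ∧ (∀ x, x.1 ∉ B → G x ∉ B) ∧
      ∀ w ∈ (univ : Set Y) ×ˢ K, ∀ᶠ x in 𝓝 (w, w.2), (G x).2 = x.2 := by
  refine (isCompact_univ.prod hK).induction_on (p := fun S => ∃ G : (Y × ℂ) × ℂ → Y × ℂ,
    Continuous G ∧ (∀ w, G (w, w.2) = w) ∧ (∀ x, x.1 ∉ B → G x ∉ B) ∧
      ∀ w ∈ S, ∀ᶠ x in 𝓝 (w, w.2), (G x).2 = x.2) ?_ ?_ ?_ ?_
  · exact ⟨Prod.fst, continuous_fst, fun _ => rfl, fun _ h => h, fun _ h => h.elim⟩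
  · rintro S T hST ⟨G, a, b, c, d⟩
    exact ⟨G, a, b, c, fun w hw => d w (hST hw)⟩
  · rintro S T ⟨G, a, b, c, d⟩ ⟨G', a', b', c', d'⟩
    have m : Continuous fun x : (Y × ℂ) × ℂ => (G x, x.2) := a.prodMk continuous_snd
    refine ⟨fun x => G' (G x, x.2), a'.comp m, fun w => by simp only [b, b'],
      fun x hx => c' _ (c x hx), fun w hw => hw.elim (fun hw => ?_) fun hw => ?_⟩
    · filter_upwards [d w hw] with x hx
      rw [← hx, b']
    · exact (m.tendsto' (w, w.2) (w, w.2) (by simp only [b])).eventually (d' w hw)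
  · intro w hw
    obtain ⟨Ψ, A, a, b, c⟩ := h w hw.2
    obtain ⟨G, g1, g2, g3, g4⟩ := hTRN1 Y B A Ψ w a b c
    exact ⟨_, nhdsWithin_le_nhds (((continuous_id.prodMk continuous_snd).tendsto w).eventually
      g4.eventually_nhds), G, g1, g2, g3, fun _ hw => hw⟩

end TRANSa

theorem p_TRANS (hTRN1 : S_TRN1) :
    S_TRANS := by
  intro Y _ _ B K hK hc h
  obtain ⟨G, g1, g2, g3, g4⟩ := TRANSa.loc hTRN1 hK h
  have hC : IsCompact ((fun w : Y × ℂ => (w, w.2)) '' (univ ×ˢ K)) :=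
    (isCompact_univ.prod hK).image (continuous_id.prodMk continuous_snd)
  obtain ⟨δ, δ0, hδ⟩ := hC.exists_thickening_subset_open
    (isOpen_interior (s := {x | (G x).2 = x.2}))
    (by rintro _ ⟨w, hw, rfl⟩; exact mem_interior_iff_mem_nhds.2 (g4 w hw))
  have g5 : ∀ (w : Y × ℂ) (t : ℂ), w.2 ∈ K → dist t w.2 < δ → (G (w, t)).2 = t := fun w t hw ht =>
    interior_subset (s := {x | (G x).2 = x.2}) (hδ (a := (w, t)) (Metric.mem_thickening_iff.2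
      ⟨(w, w.2), ⟨w, ⟨trivial, hw⟩, rfl⟩, by
        rwa [Prod.dist_eq, dist_self, max_eq_right dist_nonneg]⟩))
  obtain ⟨R, hR⟩ := Metric.isBounded_iff.1 hK.isBounded
  obtain ⟨n, hn⟩ := exists_nat_gt (max (R / δ) 0)
  have n0 : (0 : ℝ) < n := (le_max_right _ _).trans_lt hn
  have n1 : R < n * δ := (div_lt_iff₀ δ0).1 ((le_max_left _ _).trans_lt hn)
  have key : ∀ k : ℕ, ∃ H : (Y × ℂ) × ℂ → Y × ℂ, Continuous H ∧ (∀ w, H (w, w.2) = w) ∧
      (∀ x, x.1 ∉ B → H x ∉ B) ∧ (k ≤ n → ∀ x : (Y × ℂ) × ℂ, x.1.2 ∈ K → x.2 ∈ K →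
        (H x).2 = x.1.2 + ((k : ℝ) / n) • (x.2 - x.1.2)) := by
    intro k
    induction k with
    | zero => exact ⟨Prod.fst, continuous_fst, fun _ => rfl, fun _ h => h, fun _ x _ _ => by simp⟩
    | succ k ih =>
      obtain ⟨H, a, b, c, d⟩ := ih
      refine ⟨fun x => G (H x, x.1.2 + (((k + 1 : ℕ) : ℝ) / n) • (x.2 - x.1.2)),
        g1.comp (a.prodMk (by fun_prop)), fun w => by simp only [b, sub_self, smul_zero, add_zero, g2],
        fun x hx => g3 _ (c x hx), fun hk x h1 h2 => g5 _ _ ?_ ?_⟩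
      · rw [d (by omega) x h1 h2]
        exact hc.add_smul_sub_mem h1 h2 ⟨by positivity,
          (div_le_one n0).2 (by exact_mod_cast (by omega : k ≤ n))⟩
      · rw [d (by omega) x h1 h2, dist_add_left, dist_eq_norm, ← sub_smul, norm_smul,
          ← dist_eq_norm x.2, Nat.cast_succ, ← sub_div, add_sub_cancel_left, Real.norm_eq_abs,
          abs_of_pos (by positivity), one_div, inv_mul_lt_iff₀ n0]
        exact (hR h2 h1).trans_lt n1
  obtain ⟨H, a, b, c, d⟩ := key n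
  refine ⟨H, a, b, c, fun x h1 h2 => ?_⟩
  rw [d le_rfl x h1 h2, div_self n0.ne', one_smul, add_sub_cancel]

end Pool.Agent.P.MP_ab0431_ag.UB

namespace Pool.Agent.P.MP_ab0431_ag.UB

open Set Filter Topology
open scoped Manifold ContDiff

namespace SLCa

variable {M : Type} [TopologicalSpace M] [ChartedSpace C2 M]
  {Λ : OpenPartialHomeomorph (M × ℂ) (M × ℂ)} {τ : ℂ} {y : M}

theorem pr (h : Fs Λ) (hy : (y, τ) ∈ Λ.source) : ((Λ (y, τ)).1, τ) = Λ (y, τ) :=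
  Prod.ext rfl (h _ hy).symm

theorem md (h : Bi (C2 × ℂ) Λ) : MDifferentiableOn 𝓘(ℂ, C2) 𝓘(ℂ, C2) (fun y => (Λ (y, τ)).1)
    {y | (y, τ) ∈ Λ.source} :=
  md_fst.comp_mdifferentiableOn
    (h.hol.comp (md_pair mdifferentiableOn_id mdifferentiableOn_const) fun _ hy => hy)

end SLCa

open SLCa in
theorem p_SLC :
    S_SLC := by
  intro M _ _ Λ τ hb hf
  have a1 : ∀ y, (y, τ) ∈ Λ.source → ((Λ (y, τ)).1, τ) ∈ Λ.target := fun y hy => by
    rw [pr hf hy]; exact Λ.map_source hy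
  have a2 : ∀ y, (y, τ) ∈ Λ.target → ((Λ.symm (y, τ)).1, τ) ∈ Λ.source := fun y hy => by
    rw [pr hf.symm hy]; exact Λ.map_target hy
  refine ⟨⟨⟨⟨fun y => (Λ (y, τ)).1, fun y => (Λ.symm (y, τ)).1, _, _, a1, a2,
    fun y hy => by rw [pr hf hy, Λ.left_inv hy], fun y hy => by rw [pr hf.symm hy, Λ.right_inv hy]⟩,
    (md hb).continuousOn, (md hb.symm).continuousOn⟩,
    Λ.open_source.preimage (Continuous.prodMk_left τ),
    Λ.open_target.preimage (Continuous.prodMk_left τ)⟩, ⟨md hb, md hb.symm⟩, rfl, rfl,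
    fun _ => rfl, fun _ => rfl, fun X Y _ F A B q r φ h =>
      ⟨⟨md hb, md hb.symm⟩, fun w hw => h.bb (w, τ) hw, ?_, fun z hz => ?_, fun z z' hz e e' => ?_,
        fun w hw z' hz' => ?_⟩⟩
  · exact h.car.cont.comp (Continuous.prodMk_left τ).continuousOn fun z hz => hz
  · exact (h.car.comm (z, τ) hz).trans (congrArg r (pr hf.symm hz.1).symm)
  · exact congrArg Prod.fst (h.car.inj (z, τ) (z', τ) hz (Prod.ext e rfl) e')
  · obtain ⟨⟨z, t⟩, e, e'⟩ := h.car.surj (w, τ) hw z' (hz'.trans (congrArg r (pr hf.symm hw.1)))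
    obtain rfl : t = τ := congrArg Prod.snd e
    exact ⟨z, congrArg Prod.fst e, e'⟩

end Pool.Agent.P.MP_ab0431_ag.UB

namespace Pool.Agent.P.MP_ab0431_ag.UB

open Set Filter Topology
open scoped Manifold ContDiff

theorem p_HL (hTUNI : S_TUNI) (hHLIFT : S_HLIFT) :
    S_HL := by
  intro E T X Y _ _ _ _ p q W W₀ H f hq hp hH hW c
  have h0 : (0 : ℝ) ∈ Icc (0 : ℝ) 1 := left_mem_Icc.2 zero_le_one
  have h1 : (1 : ℝ) ∈ Icc (0 : ℝ) 1 := right_mem_Icc.2 zero_le_one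
  obtain ⟨K, hK, hK'⟩ := hHLIFT X Y E q W₀ (p ⁻¹' W) (fun a => H (p a.1, a.2)) f hq
    (hH.comp ((hp.comp continuous_fst).prodMk continuous_snd).continuousOn fun _ a => a)
    (fun a ha t ht => hW _ ha t ht) c.cont c.comm
  have hs : ∀ z, p z ∈ W → ContinuousOn (fun s : ℝ => K (z, s)) (Icc 0 1) := fun z hz =>
    hK.comp (continuous_const.prodMk continuous_id).continuousOn fun _ a => ⟨hz, a⟩
  refine ⟨fun z => K (z, 1),
    hK.comp (continuous_id.prodMk continuous_const).continuousOn fun _ a => ⟨a, h1⟩,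
    fun z hz => (hK' z hz).2 1 h1, fun z z' hz e e' => ?_, fun w hw z' hz' => ?_⟩
  · have hz' : p z' ∈ W := e ▸ hz
    have := hTUNI X Y ℝ q W₀ _ _ _ 1 hq isPreconnected_Icc (hs z hz) (hs z' hz') (fun s a => by
      rw [(hK' z hz).2 s a, (hK' z' hz').2 s a, e]; exact ⟨hW _ hz s a, rfl⟩) h1 e'.symm h0
    exact c.inj z z' hz e (by rw [← (hK' z hz).1, ← (hK' z' hz').1]; exact this.symm)
  · have m : ∀ s ∈ Icc (0 : ℝ) 1, 1 - s ∈ Icc (0 : ℝ) 1 := fun s a =>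
      ⟨sub_nonneg.2 a.2, sub_le_self _ a.1⟩
    obtain ⟨L, hL, hL'⟩ := hHLIFT X Y Unit q W₀ univ (fun a => H (w, 1 - a.2)) (fun _ => z') hq
      (hH.comp (continuous_const.prodMk (continuous_const.sub continuous_snd)).continuousOn
        fun _ a => ⟨hw, m _ a.2⟩)
      (fun _ _ t ht => hW _ hw _ (m t ht)) continuousOn_const fun _ _ => by simpa using hz'
    obtain ⟨a0, a1⟩ := hL' () trivial
    obtain ⟨z, rfl, hz⟩ := c.surj w hw (L ((), 1)) (by simpa using a1 1 h1)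
    refine ⟨z, rfl, ?_⟩
    have := hTUNI X Y ℝ q W₀ _ _ (fun s => L ((), 1 - s)) 0 hq isPreconnected_Icc (hs z hw)
      (hL.comp (continuous_const.prodMk (continuous_const.sub continuous_id)).continuousOn
        fun _ a => ⟨trivial, m _ a⟩)
      (fun s a => by
        rw [(hK' z hw).2 s a, a1 _ (m s a)]
        exact ⟨hW _ hw s a, by simp⟩) h0 (by simpa [(hK' z hw).1] using hz) h1
    simpa [a0] using this

end Pool.Agent.P.MP_ab0431_ag.UB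

namespace Pool.Agent.P.MP_ab0431_ag.UB

open Set Filter Topology
open scoped Manifold ContDiff

theorem p_STEP (hSLC : S_SLC) (hHL : S_HL) :
    S_STEP := by
  intro M X Y _ _ _ _ F A B q W₀ r μ φ Ψ V D τ hq hr hW hM hΨ hV hD hc hτ hVD
  obtain ⟨ν, n1, n2, n3, n4, n5, -⟩ := hSLC M Ψ τ hΨ.bi hΨ.fs
  obtain ⟨A', hA⟩ := hΨ.bb
  have hD' : IsOpen (Prod.snd ⁻¹' D : Set (M × ℂ)) := hD.preimage continuous_snd
  obtain ⟨Λ, hb, hs, ht, e1, e2⟩ : ∃ Λ : OpenPartialHomeomorph (M × ℂ) (M × ℂ), Bi (C2 × ℂ) Λ ∧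
      (∀ w, w ∈ Λ.source ↔ w ∈ Ψ.source ∧ (Ψ w).1 ∈ V ∧ w.2 ∈ D ∧
        (Ψ.symm ((Ψ w).1, τ)).1 ∈ μ.source) ∧
      (∀ w, w ∈ Λ.target ↔ w.1 ∈ μ.target ∧ (μ.symm w.1, τ) ∈ Ψ.source ∧
        (Ψ (μ.symm w.1, τ)).1 ∈ V ∧ w.2 ∈ D) ∧
      (∀ w, Λ w = (μ (Ψ.symm ((Ψ w).1, τ)).1, (Ψ w).2)) ∧
      ∀ w, Λ.symm w = Ψ.symm ((Ψ (μ.symm w.1, τ)).1, w.2) := by
    refine ⟨(Ψ.trans (((ν.symm.restrOpen V hV).trans μ).prod
      (OpenPartialHomeomorph.refl ℂ))).restrOpen _ hD',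
      (hΨ.bi.trans ((n1.symm.restr hV).trans hM.bi).prod).restr hD', fun w => ?_, fun w => ?_,
      fun w => by rw [← n5]; rfl, fun w => by rw [← n4]; rfl⟩
    · rw [← n5]
      exact ⟨fun h => ⟨h.1.1, h.1.2.1.1.2, h.2, h.1.2.1.2⟩, fun h => ⟨⟨h.1, ⟨⟨by
        change _ ∈ ν.target; rw [n3]; exact hVD ⟨h.2.1, hτ⟩, h.2.1⟩, h.2.2.2⟩, trivial⟩, h.2.2.1⟩⟩
    · rw [← n4]
      refine ⟨fun h => ⟨h.1.1.1.1, ?_, h.1.1.1.2.2, ?_⟩, fun h => ?_⟩
      · have : μ.symm w.1 ∈ ν.source := h.1.1.1.2.1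
        rwa [n2] at this
      · exact mem_of_eq_of_mem (hΨ.fs.symm _ h.1.2).symm h.2
      · have h1 : (ν (μ.symm w.1), w.2) ∈ Ψ.target := hVD ⟨h.2.2.1, h.2.2.2⟩
        have h2 := mem_of_eq_of_mem (hΨ.fs.symm _ h1) h.2.2.2
        refine ⟨⟨⟨⟨h.1, ?_, h.2.2.1⟩, trivial⟩, h1⟩, h2⟩
        change _ ∈ ν.source; rw [n2]; exact h.2.1
  have hbb : ∀ w ∈ Λ.source, (w ∈ B ↔ Λ w ∈ Prod.fst ⁻¹' A) := fun w hw => by
    obtain ⟨h1, h2, -, h4⟩ := (hs w).1 hw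
    have h5 : ((Ψ w).1, τ) ∈ Ψ.target := hVD ⟨h2, hτ⟩
    have h6 : ((Ψ.symm ((Ψ w).1, τ)).1, τ) = Ψ.symm ((Ψ w).1, τ) :=
      Prod.ext rfl (hΨ.fs.symm _ h5).symm
    rw [e1, mem_preimage, ← hM.bb _ h4, mem_ofPred, h6, hA _ (Ψ.map_target h5), Ψ.right_inv h5,
      hA w h1]
  have hm : ∀ w ∈ Λ.target, ∀ s ∈ Icc (0 : ℝ) 1, (w.1, τ + s * (w.2 - τ)) ∈ Λ.target :=
    fun w hw s h => by
      rw [ht] at hw ⊢
      exact ⟨hw.1, hw.2.1, hw.2.2.1, hc.add_smul_sub_mem hτ hw.2.2.2 h⟩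
  have c : Car F.prod.π F.π Prod.fst (Λ.target \ Prod.fst ⁻¹' A) Prod.fst :=
    ⟨continuousOn_fst, fun _ _ => rfl, fun _ _ _ h h' => Prod.ext h' (Prod.ext_iff.1 h).2,
      fun w _ z hz => ⟨(z, w.2), Prod.ext hz rfl, rfl⟩⟩
  obtain ⟨φ', h⟩ := hHL _ _ X Y F.prod.π q (Λ.target \ Prod.fst ⁻¹' A) W₀
    (fun x => r (Λ.symm (x.1.1, τ + x.2 * (x.1.2 - τ)))) _ hq F.prod.cont
    (hr.comp_continuousOn (Λ.continuousOn_symm.comp (by fun_prop) fun x hx => hm _ hx.1.1 _ hx.2))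
    (fun w hw s h => hW _ ((hs _).1 (Λ.map_target (hm w hw.1 s h))).2.2.1 fun hB => hw.2 (by
      rwa [hbb _ (Λ.map_target (hm w hw.1 s h)), Λ.right_inv (hm w hw.1 s h)] at hB))
    ((hM.car.comp c fun w hw => ⟨((ht w).1 hw.1).1, hw.2⟩).congr fun w hw => by
      have h1 := ((ht w).1 hw.1).2.1
      have h2 : ((Ψ (μ.symm w.1, τ)).1, τ) = Ψ (μ.symm w.1, τ) :=
        Prod.ext rfl (hΨ.fs _ h1).symm
      simp only [e2, Complex.ofReal_zero, zero_mul, add_zero, h2, Ψ.left_inv h1]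
      rfl)
  exact ⟨Λ, φ', fun w hw => by rw [e1]; exact hΨ.fs w ((hs w).1 hw).1,
    ⟨hb, hbb, h.congr fun w _ => by simp⟩, hs⟩

end Pool.Agent.P.MP_ab0431_ag.UB

namespace Pool.Agent.P.MP_ab0431_ag.UB

open Set Filter Topology
open scoped Manifold ContDiff

namespace PROPa

theorem loc {M : Type} [TopologicalSpace M] [ChartedSpace C2 M] [CompactSpace M]
    {B : Set (M × ℂ)} {U : Set ℂ} (hU : IsOpen U)
    (hB : ∀ w : M × ℂ, w.2 ∈ U → ∃ Ψ, Box B Ψ ∧ w ∈ Ψ.source) {t₁ : ℂ} (h : t₁ ∈ U) :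
    ∃ ε > 0, Metric.ball t₁ ε ⊆ U ∧ ∀ t ∈ Metric.ball t₁ ε, ∀ y, ∃ Ψ V, Box B Ψ ∧
      (y, t) ∈ Ψ.source ∧ IsOpen V ∧ (Ψ (y, t)).1 ∈ V ∧ V ×ˢ Metric.ball t₁ ε ⊆ Ψ.target := by
  have small : ∀ δ : ℝ, 0 < δ → ∀ᶠ x : ℂ × ℝ in 𝓝 (t₁, 0),
      Metric.ball t₁ x.2 ⊆ Metric.ball t₁ δ := fun δ hδ =>
    (continuous_snd.continuousAt.eventually (gt_mem_nhds hδ)).mono fun x hx =>
      Metric.ball_subset_ball hx.le
  have a := isCompact_univ.eventually_forall_of_forall_eventually (x₀ := ((t₁, 0) : ℂ × ℝ))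
    (P := fun x (y : M) => ∃ Ψ V, Box B Ψ ∧ (y, x.1) ∈ Ψ.source ∧ IsOpen V ∧
      (Ψ (y, x.1)).1 ∈ V ∧ V ×ˢ Metric.ball t₁ x.2 ⊆ Ψ.target) fun y _ => by
    obtain ⟨Ψ, b, hy⟩ := hB (y, t₁) h
    obtain ⟨V, D, oV, oD, mV, mD, s⟩ := isOpen_prod_iff.1 Ψ.open_target _ _ (Ψ.map_source hy)
    obtain ⟨δ, hδ, hD⟩ := Metric.isOpen_iff.1 oD t₁ (mem_of_eq_of_mem (b.fs _ hy).symm mD)
    have c : ContinuousAt (fun z : (ℂ × ℝ) × M => (z.2, z.1.1)) ((t₁, 0), y) := by fun_prop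
    filter_upwards [c.eventually (Ψ.open_source.mem_nhds hy),
      (continuousAt_fst.comp ((Ψ.continuousAt hy).comp_of_eq c rfl)).eventually (oV.mem_nhds mV),
      continuousAt_fst.eventually (small δ hδ)] with z h1 h2 h3
    exact ⟨Ψ, V, b, h1, oV, h2, (prod_mono Subset.rfl (h3.trans hD)).trans s⟩
  obtain ⟨δ, hδ, hD⟩ := Metric.isOpen_iff.1 hU _ h
  obtain ⟨η, hη, c⟩ := Metric.eventually_nhds_iff.1 (a.and (small δ hδ))
  have d : ∀ t ∈ Metric.ball t₁ (η / 2), dist (t, η / 2) (t₁, 0) < η := fun t ht => by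
    rw [Prod.dist_eq, Real.dist_eq, sub_zero, abs_of_pos (half_pos hη)]
    exact max_lt (lt_trans ht (half_lt_self hη)) (half_lt_self hη)
  exact ⟨η / 2, half_pos hη, (c (d t₁ (Metric.mem_ball_self (half_pos hη)))).2.trans hD,
    fun t ht y => (c (d t ht)).1 y trivial⟩

end PROPa

theorem p_PROP (hSTEP : S_STEP) (hSLC : S_SLC) :
    S_PROP := by
  intro M _ _ _ F A B r U t₀ hc hr hrA hU hU' hB h₀ hB₀ hr₀
  let P : ℂ → Prop := fun t => ∀ y, ∃ μ φ,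
    Md F A {y | (y, t) ∈ B} F.π (fun y => r (y, t)) μ φ ∧ y ∈ μ.source
  let R : ℂ → Prop := fun t => ∀ y, ∃ Λ φ, Fs Λ ∧ Md F.prod (Prod.fst ⁻¹' A) B F.π r Λ φ ∧
    (y, t) ∈ Λ.source ∧ Λ.source ⊆ Prod.snd ⁻¹' U
  have RP : ∀ t, R t → P t := fun t h y => by
    obtain ⟨Λ, φ, a, b, c, -⟩ := h y
    obtain ⟨μ, -, d, -, -, -, e⟩ := hSLC M Λ t b.bi a
    exact ⟨μ, _, e F.Z M F A B F.π r φ b, d ▸ c⟩
  have step : ∀ t₁ ∈ U, ∃ ε > 0, ∀ τ ∈ Metric.ball t₁ ε, ∀ t ∈ Metric.ball t₁ ε, P τ → R t :=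
    fun t₁ h₁ => by
      obtain ⟨ε, hε, hs, h⟩ := PROPa.loc hU hB h₁
      refine ⟨ε, hε, fun τ hτ t ht hP y => ?_⟩
      obtain ⟨Ψ, V, b, h1, h2, h3, h4⟩ := h t ht y
      obtain ⟨μ, φ, m, hm⟩ := hP (Ψ.symm ((Ψ (y, t)).1, τ)).1
      obtain ⟨Λ, φ', a, c, d⟩ := hSTEP M F.Z M F A B F.π Aᶜ r μ φ Ψ V (Metric.ball t₁ ε) τ hc hr
        (fun w hw => hrA w (hs hw)) m b h2 Metric.isOpen_ball (convex_ball _ _) hτ h4
      exact ⟨Λ, φ', a, c, (d _).2 ⟨h1, h3, ht, hm⟩, fun w hw => hs ((d w).1 hw).2.2.1⟩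
  have P0 : P t₀ := fun y => ⟨OpenPartialHomeomorph.refl M, id,
    ⟨Bi.refl, fun w _ => hB₀ w, Car.refl.congr fun w _ => hr₀ w⟩, trivial⟩
  intro w hw
  have Pw : P w.2 := hU'.induction₂' (P := fun x y => P x → P y) (fun x hx => by
    obtain ⟨ε, hε, h⟩ := step x hx
    filter_upwards [mem_nhdsWithin_of_mem_nhds (Metric.ball_mem_nhds x hε)] with y hy
    exact ⟨fun a => RP _ (h x (Metric.mem_ball_self hε) y hy a),
      fun a => RP _ (h y hy x (Metric.mem_ball_self hε) a)⟩) (fun _ _ _ _ _ _ a b c => b (a c)) h₀ hw P0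
  obtain ⟨ε, hε, h⟩ := step w.2 hw
  exact h _ (Metric.mem_ball_self hε) _ (Metric.mem_ball_self hε) Pw w.1

end Pool.Agent.P.MP_ab0431_ag.UB

namespace Pool.Agent.P.MP_ab0431_ag.UB

open Set Filter Topology
open scoped Manifold ContDiff

theorem p_DIVC :
    S_DIVC := by
  intro E₁ T₁ E₂ T₂ X Y _ _ _ _ _ _ p₁ p₂ q k h W₁ W₂ φ₁ φ₂ hp hk m l₂ lq c₁ c₂ ⟨g₀⟩
  have ex : ∀ z, ∃ y, p₁ z ∈ W₁ → p₂ y = k (p₁ z) ∧ φ₂ y = φ₁ z := fun z => by
    by_cases hz : p₁ z ∈ W₁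
    · exact (c₂.surj _ (m hz) _ (c₁.comm z hz)).imp fun _ a _ => a
    · exact ⟨g₀ z, fun a => (hz a).elim⟩
  choose g hg using ex
  refine ⟨g, ⟨fun z₀ h₀ => ?_, fun z hz => (hg z hz).1, fun z z' hz e e' => ?_,
    fun w hw y hy => ?_⟩, fun z hz => (hg z hz).2⟩
  · obtain ⟨e, he, ee⟩ := l₂ (g z₀) ((hg z₀ h₀).1 ▸ m h₀)
    obtain ⟨e', he', ee'⟩ := lq _ (m h₀) _ (c₁.comm z₀ h₀)
    have t1 : Tendsto (fun z => k (p₁ z)) (𝓝[p₁ ⁻¹' W₁] z₀) (𝓝 (e (g z₀))) := by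
      rw [ee he, (hg z₀ h₀).1]
      exact (hk.comp hp.continuousOn fun _ a => a) z₀ h₀
    have t2 := (e.tendsto_symm he).comp t1
    have v1 : ∀ᶠ z in 𝓝[p₁ ⁻¹' W₁] z₀, p₁ z ∈ W₁ ∧ p₂ (e.symm (k (p₁ z))) = k (p₁ z) := by
      filter_upwards [self_mem_nhdsWithin, t1 (e.open_target.mem_nhds (e.map_source he))]
        with z a b
      exact ⟨a, by rw [← ee (e.map_target b), e.right_inv b]⟩
    have t3 : Tendsto (fun z => φ₂ (e.symm (k (p₁ z)))) (𝓝[p₁ ⁻¹' W₁] z₀) (𝓝 (φ₁ z₀)) := by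
      rw [← (hg z₀ h₀).2]
      exact (c₂.cont _ (show p₂ (g z₀) ∈ W₂ from (hg z₀ h₀).1 ▸ m h₀)).tendsto.comp
        (tendsto_nhdsWithin_iff.2 ⟨t2, v1.mono fun z a =>
          show p₂ (e.symm (k (p₁ z))) ∈ W₂ from a.2.symm ▸ m a.1⟩)
    refine t2.congr' ?_
    filter_upwards [v1, t3 (e'.open_source.mem_nhds he'),
      (c₁.cont z₀ h₀).tendsto (e'.open_source.mem_nhds he')] with z a b c
    have d := hg z a.1
    refine c₂.inj _ _ (d.1 ▸ m a.1) (a.2.trans d.1.symm) (Eq.trans ?_ d.2.symm)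
    refine e'.injOn b c ?_
    rw [ee' b, ee' c, c₁.comm z a.1, c₂.comm _ (a.2.symm ▸ m a.1), a.2, Function.comp_apply]
  · exact c₁.inj z z' hz e (by rw [← (hg z hz).2, ← e', (hg z' (e ▸ hz)).2])
  · obtain ⟨z, rfl, hz⟩ := c₁.surj w hw (φ₂ y) (by rw [c₂.comm y (hy ▸ m hw), hy]; rfl)
    exact ⟨z, rfl, c₂.inj y _ (hy ▸ m hw) ((hg z hw).1.trans hy.symm) ((hg z hw).2.trans hz)⟩

end Pool.Agent.P.MP_ab0431_ag.UB

namespace Pool.Agent.P.MP_ab0431_ag.UB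

open Set Filter Topology
open scoped Manifold ContDiff

theorem p_XT0 (hRIEM : S_RIEM) (hCONN : S_CONN) :
    S_XT0 := by
  intro E₁ E₂ M _ _ _ _ _ _ _ _ O S z hO hz hZ hc
  obtain ⟨N, g, n1, n2, n3, n4⟩ := hZ z hz
  obtain ⟨c, ca, cz⟩ : ∃ c ∈ atlas E₁ M, z ∈ c.source := ⟨_, chart_mem_atlas E₁ z, mem_chart_source _ z⟩
  have o : IsOpen (c.target ∩ c.symm ⁻¹' N) := c.symm.isOpen_inter_preimage n1
  have m : c z ∈ c.target ∩ c.symm ⁻¹' N := ⟨c.map_source cz, by simpa [cz] using n2⟩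
  have d : DifferentiableOn ℂ (g ∘ c.symm) (c.target ∩ c.symm ⁻¹' N) :=
    mdifferentiableOn_iff_differentiableOn.1 (n3.comp
      ((mdifferentiableOn_atlas_symm ca).mono inter_subset_left) fun _ h => h.2)
  have fr : ∃ᶠ v in 𝓝 (c z), (g ∘ c.symm) v ≠ 0 := by
    rw [← c.map_nhds_eq cz, frequently_map]
    refine ((mem_closure_iff_frequently.1 (hc hz)).and_eventually
      ((c.eventually_left_inverse cz).and (n1.mem_nhds n2))).mono fun y hy => ?_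
    rw [Function.comp_apply, hy.2.1]
    exact mt (n4 y hy.2.2).2 hy.1.2
  refine ⟨fun N' hN' => ?_, fun f C hf => ?_⟩
  · obtain ⟨ε, ε0, hε⟩ := Metric.mem_nhds_iff.1 (inter_mem (o.mem_nhds m) (c.tendsto_symm cz hN'))
    let _ : NormedSpace ℝ E₁ := .restrictScalars ℝ ℂ E₁
    have : IsScalarTower ℝ ℂ E₁ := .of_algebraMap_smul fun _ _ => rfl
    have := (hCONN E₁ _ _ Metric.isOpen_ball (convex_ball _ ε) (d.mono fun v hv => (hε hv).1)
      ((fr.and_eventually (Metric.ball_mem_nhds _ ε0)).exists.imp fun _ h => h.symm)).1.image c.symm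
        (c.continuousOn_symm.mono fun v hv => (hε hv.1).1.1)
    refine ⟨c.symm '' Metric.ball (c z) ε, c.symm_map_nhds_eq cz ▸ image_mem_map
      (Metric.ball_mem_nhds _ ε0), image_subset_iff.2 fun v hv => (hε hv).2, ?_⟩
    rwa [show c.symm '' Metric.ball (c z) ε \ S =
        c.symm '' {v ∈ Metric.ball (c z) ε | (g ∘ c.symm) v ≠ 0} from Set.ext fun y =>
      ⟨fun ⟨⟨v, a, b⟩, e⟩ => ⟨v, ⟨a, mt (n4 _ (hε a).1.2).2 (b ▸ e)⟩, b⟩,
        fun ⟨v, a, b⟩ => ⟨⟨v, a.1, b⟩, b ▸ mt (n4 _ (hε a.1).1.2).1 a.2⟩⟩]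
  · obtain ⟨f', a1, a2⟩ := hRIEM E₁ E₂ _ (f ∘ c.symm) _ C (RIEMa.osgood o d _ m) fr (by
      filter_upwards [(c.tendsto_symm cz).eventually hf, o.mem_nhds m] with v h1 h2 h3
      have := h1 (mt (n4 _ h2.2).1 h3)
      exact ⟨mdifferentiableAt_iff_differentiableAt.1
        (this.1.comp v (mdifferentiableAt_atlas_symm ca h2.1)), this.2⟩)
    refine ⟨f' ∘ c, ?_⟩
    filter_upwards [(c.continuousAt cz).eventually (a1.eventually_analyticAt.and a2),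
      c.open_source.mem_nhds cz, n1.mem_nhds n2] with y h1 h2 h3
    refine ⟨(mdifferentiableAt_iff_differentiableAt.2 h1.1.differentiableAt).comp y
      (mdifferentiableAt_atlas ca h2), fun h => ?_⟩
    simpa [h2] using h1.2 (by simpa [h2] using mt (n4 y h3).2 h)

end Pool.Agent.P.MP_ab0431_ag.UB

namespace Pool.Agent.P.MP_ab0431_ag.UB

open Set Filter Topology
open scoped Manifold ContDiff

namespace XT1a

variable {E T : Type} [NormedAddCommGroup E] [NormedSpace ℂ E] [FiniteDimensional ℂ E]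
  [TopologicalSpace T] [ChartedSpace E T] [T2Space T]

/-- Near a point the lift stays in one small chart ball. -/
theorem one_ball {M : Type} [TopologicalSpace M] {F : Cv E T} {B Ω : Set T} {O S : Set M}
    {h : M → T} {f : M → F.Z} {z : M} (hΩ : IsOpen Ω) (hG : F.G0 B Ω) (hO : O ∈ 𝓝 z)
    (hd : z ∈ closure (O \ S)) (hh : ContinuousAt h z) (hz : h z ∈ Ω)
    (hf : ContinuousOn f (O \ S)) (hπ : ∀ y ∈ O \ S, F.π (f y) = h y)
    (hc : ∀ N ∈ 𝓝 z, ∃ N' ∈ 𝓝 z, N' ⊆ N ∧ IsPreconnected (N' \ S)) :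
    ∃ (w : F.Z) (r : ℝ), Metric.closedBall (chartAt E w w) r ⊆ (chartAt E w).target ∧
      ∀ᶠ y in 𝓝 z, y ∉ S → f y ∈ (chartAt E w).source ∧
        chartAt E w (f y) ∈ Metric.closedBall (chartAt E w w) r := by
  have : ProperSpace E := FiniteDimensional.proper ℂ E
  have : LocallyCompactSpace T := ChartedSpace.locallyCompactSpace E T
  obtain ⟨K, hK, hqK, hKΩ⟩ := exists_compact_subset hΩ hz
  obtain ⟨U, hU, hdis⟩ := (hG.fin _ hz).t2_separation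
  have hr : ∀ w : F.Z, ∃ r > 0, Metric.closedBall (chartAt E w w) r ⊆ (chartAt E w).target :=
    fun w => Metric.nhds_basis_closedBall.mem_iff.1
      ((chartAt E w).open_target.mem_nhds (mem_chart_target E w))
  choose r hr0 hr using hr
  set N : F.Z → Set F.Z := fun w =>
    U w ∩ ((chartAt E w).source ∩ chartAt E w ⁻¹' Metric.ball (chartAt E w w) (r w)) with hN
  have hNo : ∀ w, IsOpen (N w) := fun w => (hU w).2.inter
    ((chartAt E w).isOpen_inter_preimage Metric.isOpen_ball)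
  have hNm : ∀ w, w ∈ N w := fun w =>
    ⟨(hU w).1, mem_chart_source E w, Metric.mem_ball_self (hr0 w)⟩
  have hcl : IsClosed (F.π '' (F.π ⁻¹' K \ ⋃ w ∈ F.π ⁻¹' {h z}, N w)) :=
    (((hG.prop K hKΩ hK).diff (isOpen_biUnion fun w _ => hNo w)).image F.cont).isClosed
  have hq : h z ∈ (F.π '' (F.π ⁻¹' K \ ⋃ w ∈ F.π ⁻¹' {h z}, N w))ᶜ := by
    rintro ⟨w, hw, e⟩
    exact hw.2 (mem_biUnion (show w ∈ F.π ⁻¹' {h z} from e) (hNm w))
  obtain ⟨N', hN', hs, hp⟩ := hc _ (inter_mem hO (inter_mem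
    (hh (mem_interior_iff_mem_nhds.1 hqK)) (hh (hcl.isOpen_compl.mem_nhds hq))))
  have hin : ∀ y ∈ N' \ S, ∃ w ∈ F.π ⁻¹' {h z}, f y ∈ N w := fun y hy => by
    by_contra hn
    obtain ⟨h1, h2, h3⟩ := hs hy.1
    have e := hπ y ⟨h1, hy.2⟩
    refine h3 ⟨f y, ⟨?_, fun hm => hn ?_⟩, e⟩
    · rw [mem_preimage, e]; exact h2
    · simpa only [mem_iUnion, exists_prop] using hm
  obtain ⟨y₀, hy₀, hy₁⟩ := mem_closure_iff_nhds.1 hd N' hN'
  obtain ⟨w, hw, hfw⟩ := hin y₀ ⟨hy₀, hy₁.2⟩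
  have hsub : f '' (N' \ S) ⊆ N w := by
    refine IsPreconnected.subset_left_of_subset_union
      (v := ⋃ w' ∈ F.π ⁻¹' {h z} \ {w}, N w') (hNo w) (isOpen_biUnion fun w _ => hNo w) ?_ ?_
      ⟨_, ⟨y₀, ⟨hy₀, hy₁.2⟩, rfl⟩, hfw⟩
      (hp.image f (hf.mono fun y hy => ⟨(hs hy.1).1, hy.2⟩))
    · refine disjoint_iUnion₂_right.2 fun w' hw' => ?_
      exact (hdis hw hw'.1 fun e => hw'.2 e.symm).mono inter_subset_left inter_subset_left
    · rintro _ ⟨y, hy, rfl⟩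
      obtain ⟨w', hw', hm⟩ := hin y hy
      by_cases e : w' = w
      · exact Or.inl (e ▸ hm)
      · exact Or.inr (mem_biUnion (show w' ∈ F.π ⁻¹' {h z} \ {w} from ⟨hw', e⟩) hm)
  refine ⟨w, r w, hr w, ?_⟩
  filter_upwards [hN'] with y hy hS
  have := hsub ⟨y, ⟨hy, hS⟩, rfl⟩
  exact ⟨this.2.1, Metric.ball_subset_closedBall this.2.2⟩

end XT1a

theorem p_XT1 (hXT0 : S_XT0) :
    S_XT1 := by
  intro E₁ E₂ M T _ _ _ _ _ _ _ _ _ _ _ F B Ω O S h f hΩ hG hO hZ hd hh hm hB hf hπ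
  have : CompleteSpace E₂ := FiniteDimensional.complete ℂ E₂
  have hU := hZ.isOpen hO
  have hA : ∀ y ∈ O \ S, MDifferentiableAt 𝓘(ℂ, E₁) 𝓘(ℂ, E₂) f y := fun y hy => by
    obtain ⟨e, h1, h2, h3⟩ := hG.loc (f y) (by rw [hπ y hy]; exact hm hy.1)
      (by rw [hπ y hy]; exact hB y hy)
    have h4 : h y ∈ e.target := by rw [← hπ y hy, ← h2 h1]; exact e.map_source h1
    refine ((h3.mdifferentiableAt (e.open_target.mem_nhds h4)).comp y
      (hh.mdifferentiableAt (hO.mem_nhds hy.1))).congr_of_eventuallyEq ?_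
    filter_upwards [hf.continuousAt (hU.mem_nhds hy) (e.open_source.mem_nhds h1),
      hU.mem_nhds hy] with y' h5 h6
    rw [Function.comp_apply, ← hπ y' h6, ← h2 h5, e.left_inv h5]
  have hne : ∀ y ∈ O, (𝓝[O \ S] y).NeBot := fun y hy =>
    mem_closure_iff_nhdsWithin_neBot.1 (hd hy)
  have hloc : ∀ z ∈ O, ∃ g : M → F.Z, ∀ᶠ y in 𝓝 z,
      MDifferentiableAt 𝓘(ℂ, E₁) 𝓘(ℂ, E₂) g y ∧ (y ∉ S → g y = f y) := fun z hz => by
    obtain ⟨hc, hx⟩ := hXT0 E₁ E₂ M O S z hO hz hZ hd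
    obtain ⟨w, r, hr, hev⟩ := XT1a.one_ball hΩ hG (hO.mem_nhds hz) (hd hz)
      (hh.continuousOn.continuousAt (hO.mem_nhds hz)) (hm hz) hf hπ hc
    obtain ⟨f₂, h₂⟩ := hx (chartAt E₂ w ∘ f) (‖chartAt E₂ w w‖ + r) (by
      filter_upwards [hev, hO.mem_nhds hz] with y h1 h2 hS
      exact ⟨(mdifferentiableAt_atlas (chart_mem_atlas E₂ w) (h1 hS).1).comp y (hA y ⟨h2, hS⟩),
        norm_le_of_mem_closedBall (h1 hS).2⟩)
    refine ⟨(chartAt E₂ w).symm ∘ f₂, ?_⟩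
    filter_upwards [(h₂.and hev).eventually_nhds, hO.mem_nhds hz] with y h1 h2
    have h3 := h1.self_of_nhds
    have h4 : f₂ y ∈ Metric.closedBall (chartAt E₂ w w) r := by
      have := hne y h2
      refine Metric.isClosed_closedBall.mem_of_tendsto
        (h3.1.1.continuousAt.continuousWithinAt (s := O \ S)) ?_
      filter_upwards [nhdsWithin_le_nhds h1, self_mem_nhdsWithin] with y' h5 h6
      rw [h5.1.2 h6.2]
      exact (h5.2 h6.2).2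
    refine ⟨(mdifferentiableAt_atlas_symm (chart_mem_atlas E₂ w) (hr h4)).comp y h3.1.1,
      fun hS => ?_⟩
    rw [Function.comp_apply, h3.1.2 hS, Function.comp_apply, (chartAt E₂ w).left_inv (h3.2 hS).1]
  have hM : ∀ z ∈ O, MDifferentiableAt 𝓘(ℂ, E₁) 𝓘(ℂ, E₂) (extendFrom (O \ S) f) z :=
    fun z hz => by
    obtain ⟨g, hg⟩ := hloc z hz
    refine hg.self_of_nhds.1.congr_of_eventuallyEq ?_
    filter_upwards [hg.eventually_nhds, hO.mem_nhds hz] with y h1 h2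
    refine extendFrom_eq (hd h2) (Tendsto.congr' ?_
      (h1.self_of_nhds.1.continuousAt.continuousWithinAt (s := O \ S)))
    filter_upwards [nhdsWithin_le_nhds h1, self_mem_nhdsWithin] with y' h5 h6 using h5.2 h6.2
  have hE : EqOn (extendFrom (O \ S) f) f (O \ S) := extendFrom_extends hf
  refine ⟨_, fun z hz => (hM z hz).mdifferentiableWithinAt, hE, fun z hz => ?_⟩
  have := hne z hz
  refine tendsto_nhds_unique (l := 𝓝[O \ S] z)
    ((F.cont.continuousAt.comp (hM z hz).continuousAt).continuousWithinAt (s := O \ S))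
    (Tendsto.congr' ?_ ((hh.continuousOn z hz).mono sdiff_subset))
  filter_upwards [self_mem_nhdsWithin] with y hy
  rw [Function.comp_apply, hE hy, hπ y hy]

end Pool.Agent.P.MP_ab0431_ag.UB

namespace Pool.Agent.P.MP_ab0431_ag.UB

open Set Filter Topology
open scoped Manifold ContDiff

theorem p_TRSN (hDIVC : S_DIVC) (hXT1 : S_XT1) :
    S_TRSN := by
  intro E M X Y _ _ _ _ _ _ _ _ F A B q r Λ Λ' φ φ' G0 zl lh m m'
  set k := Λ.symm.trans Λ'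
  have a : ∀ w ∈ k.source, (k w ∈ A ↔ w ∈ A) := fun w hw =>
    (m'.bb _ hw.2).symm.trans ((m.bb _ (Λ.map_target hw.1)).trans (by rw [Λ.right_inv hw.1]))
  obtain ⟨g, c, e⟩ := hDIVC _ _ _ _ _ _ F.π F.π q k (r ∘ Λ'.symm) (k.source \ A) (Λ'.target \ A)
    φ φ' F.cont (k.continuousOn.mono sdiff_subset)
    (fun w hw => ⟨Λ'.map_source hw.1.2, fun h => hw.2 ((a w hw.1).1 h)⟩)
    (fun z hz => (G0.loc z trivial hz.2).lh)
    (fun w hw => lh _ ⟨Λ'.map_target hw.1, fun h => hw.2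
      (Λ'.right_inv hw.1 ▸ (m'.bb _ (Λ'.map_target hw.1)).1 h)⟩)
    ((m.car.mono fun w hw => ⟨hw.1.1, hw.2⟩).congr fun w hw => congrArg r (Λ'.left_inv hw.1.2))
    m'.car ⟨id⟩
  have o := k.open_source.preimage F.cont
  obtain ⟨g', h1, h2, h3⟩ := hXT1 E E F.Z M F A univ (F.π ⁻¹' k.source) (F.π ⁻¹' A) (k ∘ F.π) g
    isOpen_univ G0 o (zl.pull o F.hol.mdifferentiableOn (mapsTo_univ _ _))
    (fun z hz => o.inter_closure ⟨hz, G0.thin z trivial⟩)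
    ((m.bi.symm.trans m'.bi).hol.comp F.hol.mdifferentiableOn fun _ h => h) (mapsTo_univ _ _)
    (fun z hz h => hz.2 ((a _ hz.1).1 h)) c.cont c.comm
  exact ⟨g', h1, fun z hz => ⟨h3 z hz, fun h => h2 ⟨hz, h⟩ ▸ e z ⟨hz, h⟩⟩⟩

end Pool.Agent.P.MP_ab0431_ag.UB

namespace Pool.Agent.P.MP_ab0431_ag.UB

open Set Filter Topology
open scoped Manifold ContDiff

namespace GLUE0a

variable {E M Z α : Type} [NormedAddCommGroup E] [NormedSpace ℂ E] [CompleteSpace E]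
  [TopologicalSpace M] [ChartedSpace E M] [IsManifold 𝓘(ℂ, E) ω M]

theorem exists_emb [TopologicalSpace Z] {O : α → Set M} {ι : α → M → Z}
    (hT : ∀ S, IsOpen S ↔ ∀ a, IsOpen (O a ∩ ι a ⁻¹' S)) (hO : ∀ a, IsOpen (O a))
    (hi : ∀ a, InjOn (ι a) (O a)) (hc : ∀ z, ∃ a, ∃ m ∈ O a, ι a m = z)
    (hg : ∀ a b, ∀ m ∈ O a, ι a m ∈ ι b '' O b → ∃ g : M → M, ContinuousAt g m ∧ ∀ᶠ m' in 𝓝 m,
      g m' ∈ O b ∧ ι b (g m') = ι a m') (a : α) :
    ∃ e : OpenPartialHomeomorph M Z, e.source = O a ∧ e.target = ι a '' O a ∧ ⇑e = ι a := by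
  have h1 : ∀ z, ∃ m, z ∈ ι a '' O a → m ∈ O a ∧ ι a m = z := fun z => by
    by_cases h : z ∈ ι a '' O a
    · exact h.imp fun _ hm _ => hm
    · obtain ⟨_, m, -⟩ := hc z
      exact ⟨m, fun h' => absurd h' h⟩
  choose j hj using h1
  have hl : ∀ m ∈ O a, j (ι a m) = m := fun m hm =>
    hi a (hj _ (mem_image_of_mem _ hm)).1 hm (hj _ (mem_image_of_mem _ hm)).2
  have ho : ∀ U, IsOpen U → U ⊆ O a → IsOpen (ι a '' U) := fun U hU hs =>
    (hT _).2 fun b => isOpen_iff_mem_nhds.2 fun m hm => by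
      obtain ⟨hm, u, hu, hum⟩ := hm
      obtain ⟨g, hg1, hg2⟩ := hg b a m hm ⟨u, hs hu, hum⟩
      have h2 : g m = u := hi a hg2.self_of_nhds.1 (hs hu) (hg2.self_of_nhds.2.trans hum.symm)
      filter_upwards [hg2, (hO b).mem_nhds hm, hg1.preimage_mem_nhds (hU.mem_nhds (h2 ▸ hu))]
        with y h3 h4 h5 using ⟨h4, g y, h5, h3.2⟩
  refine ⟨⟨⟨⟨ι a, j, O a, ι a '' O a, fun _ hm => mem_image_of_mem _ hm, fun z hz => (hj z hz).1,
    hl, fun z hz => (hj z hz).2⟩, (continuousOn_open_iff (hO a)).2 fun t ht => (hT t).1 ht a,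
    (continuousOn_open_iff (ho _ (hO a) subset_rfl)).2 fun t ht => ?_⟩, hO a,
    ho _ (hO a) subset_rfl⟩, rfl, rfl, rfl⟩
  have : ι a '' O a ∩ j ⁻¹' t = ι a '' (O a ∩ t) := by
    ext z
    constructor
    · exact fun hz => ⟨j z, ⟨(hj z hz.1).1, hz.2⟩, (hj z hz.1).2⟩
    · rintro ⟨m, hm, rfl⟩
      exact ⟨mem_image_of_mem _ hm.1, by rw [mem_preimage, hl m hm.1]; exact hm.2⟩
  exact this ▸ ho _ ((hO a).inter ht) inter_subset_left

theorem exists_cs [TopologicalSpace Z] (e : α → OpenPartialHomeomorph M Z)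
    (hc : ∀ z, ∃ a, z ∈ (e a).target)
    (hd : ∀ a b, ∀ m ∈ (e a).source, e a m ∈ (e b).target →
      MDifferentiableAt 𝓘(ℂ, E) 𝓘(ℂ, E) ((e b).symm ∘ e a) m) :
    ∃ _ : ChartedSpace E Z, IsManifold 𝓘(ℂ, E) ω Z ∧ ∀ a, Bi E (e a) := by
  choose A hA using hc
  let cs : ChartedSpace E Z :=
    { atlas := {c | ∃ a m, c = (e a).symm.trans (chartAt E m)}
      chartAt := fun z => (e (A z)).symm.trans (chartAt E ((e (A z)).symm z))
      mem_chart_source := fun z => ⟨hA z, mem_chart_source _ _⟩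
      chart_mem_atlas := fun z => ⟨_, _, rfl⟩ }
  have hm : IsManifold 𝓘(ℂ, E) ω Z := by
    refine isManifold_of_contDiffOn _ _ _ ?_
    rintro _ _ ⟨a, m, rfl⟩ ⟨b, m', rfl⟩
    simp only [modelWithCornersSelf_coe, modelWithCornersSelf_coe_symm, Function.id_comp,
      Function.comp_id, preimage_id_eq, id, range_id, inter_univ]
    refine (RIEMa.osgood (OpenPartialHomeomorph.open_source _) fun x hx => ?_).contDiffOn
      (OpenPartialHomeomorph.open_source _).uniqueDiffOn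
    exact (mdifferentiableAt_iff_differentiableAt.1
      ((mdifferentiableAt_atlas (I := 𝓘(ℂ, E)) (chart_mem_atlas E m') hx.2.2).comp x
        ((hd a b _ hx.1.2 hx.2.1).comp x (mdifferentiableAt_atlas_symm (I := 𝓘(ℂ, E))
          (chart_mem_atlas E m) hx.1.1)))).differentiableWithinAt
  refine ⟨cs, hm, fun a => ⟨fun m hm => ?_, fun z hz => ?_⟩⟩
  · have hc : (e a).symm.trans (chartAt E m) ∈ atlas E Z := ⟨a, m, rfl⟩
    have h1 := (mdifferentiableAt_atlas_symm (I := 𝓘(ℂ, E)) hc (x := chartAt E m m)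
      ⟨mem_chart_target _ _, by simpa using hm⟩).comp m
      (mdifferentiableAt_atlas (I := 𝓘(ℂ, E)) (chart_mem_atlas E m) (mem_chart_source _ _))
    refine (h1.congr_of_eventuallyEq ?_).mdifferentiableWithinAt
    filter_upwards [chart_source_mem_nhds E m] with y hy
    simp [(chartAt E m).left_inv hy]
  · have hc : (e a).symm.trans (chartAt E ((e a).symm z)) ∈ atlas E Z := ⟨a, _, rfl⟩
    have hz' : z ∈ ((e a).symm.trans (chartAt E ((e a).symm z))).source :=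
      ⟨hz, mem_chart_source _ _⟩
    have h1 := (mdifferentiableAt_atlas_symm (I := 𝓘(ℂ, E)) (chart_mem_atlas E ((e a).symm z))
      (mem_chart_target _ _)).comp z (mdifferentiableAt_atlas (I := 𝓘(ℂ, E)) hc hz')
    refine (h1.congr_of_eventuallyEq ?_).mdifferentiableWithinAt
    filter_upwards [(OpenPartialHomeomorph.open_source _).mem_nhds hz'] with y hy
    exact ((chartAt E ((e a).symm z)).left_inv hy.2).symm

end GLUE0a

theorem p_GLUE0 :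
    S_GLUE0 := by
  intro E M Z α _ _ _ _ _ _ O ι hO hi hc hg
  let τ : TopologicalSpace Z :=
    { IsOpen := fun S => ∀ a, IsOpen (O a ∩ ι a ⁻¹' S)
      isOpen_univ := fun a => by simpa using hO a
      isOpen_inter := fun S T hS hT a => by
        rw [preimage_inter, inter_inter_distrib_left]; exact (hS a).inter (hT a)
      isOpen_sUnion := fun s h a => by
        rw [preimage_sUnion, inter_iUnion₂]; exact isOpen_biUnion fun S hS => h S hS a }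
  choose e h1 h2 h3 using GLUE0a.exists_emb (O := O) (ι := ι) (fun _ => Iff.rfl) hO hi hc
    fun a b m hm h => (hg a b m hm h).imp fun g hg =>
      ⟨hg.self_of_nhds.1.continuousAt, hg.mono fun _ h => h.2⟩
  obtain ⟨cs, hm, hb⟩ := GLUE0a.exists_cs (E := E) e
    (fun z => (hc z).imp fun a h => by rw [h2]; exact h) fun a b m hm h => by
      obtain ⟨g, hg⟩ := hg a b m (h1 a ▸ hm) (by rwa [h2, h3] at h)
      refine hg.self_of_nhds.1.congr_of_eventuallyEq (hg.mono fun y hy => ?_)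
      rw [Function.comp_apply, h3, ← hy.2.2, ← h3]
      exact (e b).left_inv (h1 b ▸ hy.2.1)
  exact ⟨τ, cs, hm, fun a => ⟨e a, h1 a, fun _ _ => by rw [h3], hb a⟩⟩

end Pool.Agent.P.MP_ab0431_ag.UB
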