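import Pool.Agent.P.MP_ab0431_ag.UB.IfaceD
import Pool.Agent.P.MP_ab0431_ag.UB.IfaceT
import Pool.Agent.P.MP_ab0431_ag.UB.IfaceD5
import Pool.Agent.P.MP_ab0431_ag.UB.IfaceA

/-! Steps ZCON ASMG PRODG SUBM FIB BACK DMAIN. -/

set_option autoImplicit false
set_option linter.unusedSectionVars false
set_option linter.unusedVariables false

namespace Pool.Agent.P.MP_ab0431_ag.UB

open Set Filter Topology
open scoped Manifold ContDiff

namespace ZCONa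

variable {E M X Y : Type} [NormedAddCommGroup E] [NormedSpace ℂ E] [TopologicalSpace M]
  [ChartedSpace E M] [T2Space M] [TopologicalSpace X] {F : Cv E M} {A B : Set M} {q : X → Y}
  {r : M → Y} {Λ Λ' : OpenPartialHomeomorph M M} {φ φ' : F.Z → X} {m m' : F.Z}

/-- The filter attached to a point of a local model. -/
def fl (F : Cv E M) (A : Set M) (Λ : OpenPartialHomeomorph M M) (φ : F.Z → X) (m : F.Z) :
    Filter (M × X) :=
  map (fun m => (Λ.symm (F.π m), φ m)) (𝓝[F.π ⁻¹' (Λ.target \ A)] m)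

theorem nb (h : F.G0 A univ) {O : Set M} (ho : IsOpen O) (hm : F.π m ∈ O) :
    (𝓝[F.π ⁻¹' (O \ A)] m).NeBot :=
  mem_closure_iff_nhdsWithin_neBot.1
    ((ho.preimage F.cont).inter_closure ⟨hm, h.thin m (mem_univ _)⟩)

theorem fl_inj (h : F.G0 A univ) (d : Md F A B q r Λ φ) (hm : F.π m ∈ Λ.target)
    (e : fl F A Λ φ m ≤ fl F A Λ φ m') : m = m' := by
  have := nb h Λ.open_target hm
  have h1 := (map_le_map_iff_of_injOn self_mem_nhdsWithin self_mem_nhdsWithin fun x hx y hy e =>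
    d.car.inj y x hy (Λ.symm.injOn hx.1 hy.1 (congrArg Prod.fst e)) (congrArg Prod.snd e)).1 e
  exact eq_of_nhds_neBot (this.mono (le_inf nhdsWithin_le_nhds (h1.trans nhdsWithin_le_nhds)))

theorem fl_fst (hm : F.π m ∈ Λ.target) :
    Tendsto Prod.fst (fl F A Λ φ m) (𝓝 (Λ.symm (F.π m))) :=
  tendsto_map' (((Λ.continuousAt_symm hm).comp F.cont.continuousAt).mono_left nhdsWithin_le_nhds)

theorem fl_eq (h : F.G0 A univ) (hm : F.π m ∈ Λ.target) (hm' : F.π m' ∈ Λ'.target)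
    (e : fl F A Λ φ m = fl F A Λ' φ' m') : Λ.symm (F.π m) = Λ'.symm (F.π m') := by
  have := nb h Λ.open_target hm
  have : (fl F A Λ φ m).NeBot := map_neBot
  exact tendsto_nhds_unique (fl_fst hm) (e ▸ fl_fst hm')

/-- A transition map. -/
def Tr (F : Cv E M) (A : Set M) (Λ Λ' : OpenPartialHomeomorph M M) (φ φ' : F.Z → X)
    (g : F.Z → F.Z) : Prop :=
  MDifferentiableOn 𝓘(ℂ, E) 𝓘(ℂ, E) g (F.π ⁻¹' (Λ.symm.trans Λ').source) ∧
    ∀ m ∈ F.π ⁻¹' (Λ.symm.trans Λ').source,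
      F.π (g m) = Λ' (Λ.symm (F.π m)) ∧ (F.π m ∉ A → φ' (g m) = φ m)

theorem fl_le {g : F.Z → F.Z} (d : Md F A B q r Λ φ) (d' : Md F A B q r Λ' φ')
    (t : Tr F A Λ Λ' φ φ' g) (hm : F.π m ∈ (Λ.symm.trans Λ').source) :
    fl F A Λ φ m ≤ fl F A Λ' φ' (g m) := by
  have ho := ((Λ.symm.trans Λ').open_source.preimage F.cont).mem_nhds hm
  have h1 : ∀ᶠ y in 𝓝[F.π ⁻¹' (Λ.target \ A)] m, F.π y ∈ (Λ.symm.trans Λ').source ∧ F.π y ∉ A := by
    filter_upwards [mem_nhdsWithin_of_mem_nhds ho, self_mem_nhdsWithin] with y a b using ⟨a, b.2⟩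
  have h2 : Tendsto g (𝓝[F.π ⁻¹' (Λ.target \ A)] m) (𝓝[F.π ⁻¹' (Λ'.target \ A)] (g m)) := by
    refine tendsto_nhdsWithin_iff.2 ⟨(t.1.continuousOn.continuousAt ho).mono_left
      nhdsWithin_le_nhds, h1.mono fun y hy => ?_⟩
    rw [mem_preimage, (t.2 y hy.1).1]
    refine ⟨Λ'.map_source hy.1.2, fun a => hy.2 ?_⟩
    have := (d.bb _ (Λ.map_target hy.1.1)).1 ((d'.bb _ hy.1.2).2 a)
    rwa [Λ.right_inv hy.1.1] at this
  refine (tendsto_map.comp h2).congr' (h1.mono fun y hy => Prod.ext ?_ ((t.2 y hy.1).2 hy.2))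
  show Λ'.symm (F.π (g y)) = _
  rw [(t.2 y hy.1).1]
  exact Λ'.left_inv hy.1.2

theorem fl_tr {g g' : F.Z → F.Z} (h : F.G0 A univ) (d : Md F A B q r Λ φ)
    (d' : Md F A B q r Λ' φ') (t : Tr F A Λ Λ' φ φ' g) (t' : Tr F A Λ' Λ φ' φ g')
    (hm : F.π m ∈ (Λ.symm.trans Λ').source) : fl F A Λ' φ' (g m) = fl F A Λ φ m := by
  have h1 := fl_le d d' t hm
  have h2 : F.π (g m) ∈ (Λ'.symm.trans Λ).source := by
    rw [(t.2 m hm).1]
    refine ⟨Λ'.map_source hm.2, ?_⟩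
    exact mem_preimage.2 (mem_of_eq_of_mem (Λ'.left_inv hm.2) (Λ.map_target hm.1))
  have h3 := fl_le d' d t' h2
  rw [← fl_inj h d hm.1 (h1.trans h3)] at h3
  exact h3.antisymm h1

end ZCONa

open ZCONa in
theorem p_ZCON (hTRSN : S_TRSN) (hGLUE0 : S_GLUE0) :
    S_ZCON := by
  classical
  intro E M X Y _ _ _ _ _ _ _ _ F A B Ω q r R h hZ hs ⟨w₀, hw₀⟩ hq H
  have : CompleteSpace E := FiniteDimensional.complete ℂ E
  let α := {a : OpenPartialHomeomorph M M × (F.Z → X) //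
    R a.1 ∧ Md F A B q r a.1 a.2 ∧ a.1.source ⊆ Ω}
  let O : α → Set F.Z := fun a => F.π ⁻¹' a.1.1.target
  have oO : ∀ a, IsOpen (O a) := fun a => a.1.1.open_target.preimage F.cont
  have tr : ∀ a b : α, ∃ g, Tr F A a.1.1 b.1.1 a.1.2 b.1.2 g := fun a b =>
    hTRSN E M X Y F A B q r _ _ _ _ h hZ (fun w hw => hq w ⟨b.2.2.2 hw.1, hw.2⟩) a.2.2.1 b.2.2.1
  choose g hg using tr
  let Z := {Φ : Filter (M × X) // ∃ a : α, ∃ m ∈ O a, fl F A a.1.1 a.1.2 m = Φ}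
  obtain ⟨z₀⟩ : Nonempty Z := by
    obtain ⟨Λ, φ, a, b, c, d⟩ := H w₀ hw₀
    obtain ⟨m, hm⟩ := hs (Λ w₀)
    exact ⟨⟨_, ⟨(Λ, φ), a, b, d⟩, m, by
      show F.π m ∈ Λ.target
      rw [hm]; exact Λ.map_source c, rfl⟩⟩
  let ι : α → F.Z → Z := fun a m => if hm : m ∈ O a then ⟨_, a, m, hm, rfl⟩ else z₀
  have hι : ∀ a, ∀ m ∈ O a, (ι a m).1 = fl F A a.1.1 a.1.2 m := fun a m hm => by
    simp only [ι, dif_pos hm]
  have inj : ∀ a, InjOn (ι a) (O a) := fun a m hm m' hm' e =>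
    fl_inj h a.2.2.1 hm (by rw [← hι a m hm, e, hι a m' hm'])
  have cov : ∀ z, ∃ a, ∃ m ∈ O a, ι a m = z := fun ⟨_, a, m, hm, e⟩ =>
    ⟨a, m, hm, Subtype.ext ((hι a m hm).trans e)⟩
  have base : ∀ a b, ∀ m ∈ O a, ∀ m' ∈ O b, ι a m = ι b m' →
      a.1.1.symm (F.π m) = b.1.1.symm (F.π m') := fun a b m hm m' hm' e =>
    fl_eq h hm hm' (by rw [← hι a m hm, e, hι b m' hm'])
  have trn : ∀ a b m, F.π m ∈ (a.1.1.symm.trans b.1.1).source →
      g a b m ∈ O b ∧ ι b (g a b m) = ι a m := fun a b m hm => by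
    have h1 : g a b m ∈ O b := by
      show F.π _ ∈ b.1.1.target
      rw [((hg a b).2 m hm).1]; exact b.1.1.map_source hm.2
    exact ⟨h1, Subtype.ext (by
      rw [hι _ _ h1, hι a m hm.1, fl_tr h a.2.2.1 b.2.2.1 (hg a b) (hg b a) hm])⟩
  have src : ∀ a b, ∀ m ∈ O a, ∀ m' ∈ O b, ι a m = ι b m' →
      F.π m ∈ (a.1.1.symm.trans b.1.1).source := fun a b m hm m' hm' e => ⟨hm, by
    show a.1.1.symm _ ∈ b.1.1.source
    rw [base a b m hm m' hm' e]; exact b.1.1.map_target hm'⟩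
  obtain ⟨top, cs, mfd, he⟩ := hGLUE0 E F.Z Z α O ι oO inj cov fun a b m hm ⟨m', hm', e⟩ => by
    have ho := (a.1.1.symm.trans b.1.1).open_source.preimage F.cont
    refine ⟨g a b, ?_⟩
    filter_upwards [ho.mem_nhds (src a b m hm m' hm' e.symm)] with y hy
    exact ⟨(hg a b).1.mdifferentiableAt (ho.mem_nhds hy), trn a b y hy⟩
  choose e e1 e2 e3 using he
  choose ia im i1 i2 using cov
  let P : Z → M := fun z => (ia z).1.1.symm (F.π (im z))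
  let κ : Z → X := fun z => (ia z).1.2 (im z)
  have hP : ∀ a, ∀ m ∈ O a, P (e a m) = a.1.1.symm (F.π m) := fun a m hm =>
    base _ _ _ (i1 _) m hm ((i2 _).trans (e2 a hm))
  have hκ : ∀ a, ∀ m ∈ O a, F.π m ∉ A → κ (e a m) = a.1.2 m := fun a m hm hA => by
    have h1 := (e2 a hm).symm.trans (i2 (e a m)).symm
    have h2 := src _ _ m hm _ (i1 _) h1
    have h3 := trn _ _ m h2
    rw [← ((hg _ _).2 m h2).2 hA, inj _ h3.1 (i1 _) (h3.2.trans h1)]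
  have tg : ∀ a, (e a).target = P ⁻¹' a.1.1.source := fun a => by
    refine Subset.antisymm (fun z hz => ?_) fun z hz => ?_
    · have h1 : (e a).symm z ∈ O a := e1 a ▸ (e a).map_target hz
      rw [mem_preimage, ← (e a).right_inv hz, hP a _ h1]
      exact a.1.1.map_target h1
    · have h1 := trn (ia z) a (im z) ⟨i1 z, hz⟩
      rw [← i2 z, ← h1.2, ← e2 a h1.1]
      exact (e a).map_source (e1 a ▸ h1.1)
  have mem : ∀ z, z ∈ (e (ia z)).target := fun z => by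
    rw [tg]; exact (ia z).1.1.map_target (i1 z)
  have hol : MDifferentiable 𝓘(ℂ, E) 𝓘(ℂ, E) P := fun z => by
    have ht := (e (ia z)).open_target.mem_nhds (mem z)
    have h1 : ∀ y ∈ (e (ia z)).target, (e (ia z)).symm y ∈ O (ia z) := fun y hy =>
      e1 (ia z) ▸ (e (ia z)).map_target hy
    refine ((((ia z).2.2.1.bi.inv.comp (F.hol.comp_mdifferentiableOn (e3 (ia z)).inv) h1).congr
      fun y hy => ?_).mdifferentiableAt ht)
    rw [← (e (ia z)).right_inv hy, hP _ _ (h1 y hy), (e (ia z)).right_inv hy]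
    rfl
  have t2 : T2Space Z := ⟨fun z z' ne => by
    by_cases hp : P z = P z'
    · have h1 : z' ∈ (e (ia z)).target := by
        rw [tg, mem_preimage, ← hp]; exact (ia z).1.1.map_target (i1 z)
      obtain ⟨u, v, hu, hv, a, b, c⟩ := t2_separation
        fun h2 => ne ((e (ia z)).symm.injOn (mem z) h1 h2)
      exact ⟨_, _, (e (ia z)).isOpen_inter_preimage_symm hu,
        (e (ia z)).isOpen_inter_preimage_symm hv, ⟨mem z, a⟩, ⟨h1, b⟩,
        disjoint_left.2 fun y h3 h4 => disjoint_left.1 c h3.2 h4.2⟩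
    · exact separated_by_continuous hol.continuous hp⟩
  refine ⟨Cv.mk Z mfd t2 P hol, κ, fun z => (ia z).2.2.2 ((ia z).1.1.map_target (i1 z)),
    fun w hw => ?_⟩
  obtain ⟨Λ, φ, a, b, c, d⟩ := H w hw
  let x : α := ⟨(Λ, φ), a, b, d⟩
  exact ⟨Λ, φ, e x, a, b, c, e3 x, e1 x, tg x, fun m hm => hP x m (e1 x ▸ hm),
    fun m hm => hκ x m (e1 x ▸ hm)⟩

end Pool.Agent.P.MP_ab0431_ag.UB

namespace Pool.Agent.P.MP_ab0431_ag.UB

open Set Filter Topology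
open scoped Manifold ContDiff

theorem p_ASMG :
    S_ASMG := by
  classical
  rintro E M X Y _ _ _ _ _ _ _ F A B Ω q r R G κ hF ⟨hΩ, h⟩
  have := FiniteDimensional.proper ℂ E
  have := ChartedSpace.locallyCompactSpace E M
  have dat : ∀ w ∈ Ω, ∃ (Λ : OpenPartialHomeomorph M M) (φ : F.Z → X)
      (e : OpenPartialHomeomorph F.Z G.Z), Md F A B q r Λ φ ∧ w ∈ Λ.source ∧
      e.source = F.π ⁻¹' Λ.target ∧ e.target = G.π ⁻¹' Λ.source ∧
      (∀ m ∈ e.source, G.π (e m) = Λ.symm (F.π m)) ∧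
      (∀ z ∈ e.target, F.π (e.symm z) = Λ (G.π z)) ∧
      (∀ C ⊆ Λ.source, G.π ⁻¹' C = e '' (F.π ⁻¹' (Λ '' C)) ∧ F.π ⁻¹' (Λ '' C) ⊆ e.source) ∧
      (∀ m ∈ e.source, F.Loc m → G.Loc (e m)) ∧ (∀ m ∈ e.source, F.π m ∉ A → κ (e m) = φ m) ∧
      ∀ z ∈ e.target, G.π z ∉ B → F.π (e.symm z) ∈ Λ.target \ A ∧ κ z = φ (e.symm z) := by
    intro w hw
    obtain ⟨Λ, φ, e, -, hM, hw', hb, hs, ht, he, hκ⟩ := h w hw
    have k : ∀ z ∈ e.target, F.π (e.symm z) = Λ (G.π z) := fun z hz => by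
      have h1 := he _ (e.map_target hz)
      rw [e.right_inv hz] at h1
      rw [h1, Λ.right_inv (hs.subset (e.map_target hz))]
    refine ⟨Λ, φ, e, hM, hw', hs, ht, he, k, fun C hC => ?_, ?_, hκ, fun z hz hB => ?_⟩
    · have h2 : F.π ⁻¹' (Λ '' C) ⊆ e.source := by
        rintro m ⟨c, hc, h1⟩
        rw [hs, mem_preimage, ← h1]
        exact Λ.map_source (hC hc)
      refine ⟨Subset.antisymm (fun z hz => ?_) ?_, h2⟩
      · have h1 : z ∈ e.target := ht.superset (hC hz)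
        exact ⟨e.symm z, ⟨_, hz, (k z h1).symm⟩, e.right_inv h1⟩
      · rintro _ ⟨m, ⟨c, hc, h1⟩, rfl⟩
        rw [mem_preimage, he m (h2 ⟨c, hc, h1⟩), ← h1, Λ.left_inv (hC hc)]
        exact hc
    · rintro m hm ⟨e0, h0, h1, h2⟩
      refine ⟨e.symm.trans (e0.trans Λ.symm), ⟨e.map_source hm, ?_⟩, fun z hz => ?_, ?_⟩
      · change e.symm (e m) ∈ (e0.trans Λ.symm).source
        rw [e.left_inv hm]
        exact ⟨h0, show e0 m ∈ Λ.target from h1 h0 ▸ hs.subset hm⟩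
      · change Λ.symm (e0 (e.symm z)) = _
        rw [h1 (show e.symm z ∈ e0.source from hz.2.1), ← he _ (e.map_target hz.1),
          e.right_inv hz.1]
      · exact hb.hol.comp ((h2.comp (hM.bi.hol.mono fun _ hx => hx.1)
          fun _ hx => hx.2).mono fun _ hx => hx.1) fun _ hx => hx.2
    · have h1 : F.π (e.symm z) ∉ A := by rw [k z hz, ← hM.bb _ (ht.subset hz)]; exact hB
      exact ⟨⟨hs.subset (e.map_target hz), h1⟩, by rw [← hκ _ (e.map_target hz) h1, e.right_inv hz]⟩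
  refine ⟨⟨fun K hK hc => ?_, fun w hw => ?_, fun z hz hB => ?_, fun z hz => ?_⟩,
    ⟨fun z hz => ?_, fun z hz => ?_, fun z z' hz h1 h2 => ?_, fun w hw x hx => ?_⟩,
    fun d hd => ⟨fun w hw hB => ?_, fun w hw => ?_⟩⟩
  · obtain ⟨C, hC, hs⟩ : ∃ C, IsCompact C ∧ G.π ⁻¹' K ⊆ C := by
      refine hc.induction_on (p := fun S => ∃ C, IsCompact C ∧ G.π ⁻¹' S ⊆ C)
        ⟨∅, isCompact_empty, subset_rfl⟩
        (fun _ _ hs ⟨C, h1, h2⟩ => ⟨C, h1, (preimage_mono hs).trans h2⟩)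
        (fun _ _ ⟨C, h1, h2⟩ ⟨C', h3, h4⟩ => ⟨_, h1.union h3, union_subset_union h2 h4⟩)
        fun w hw => ?_
      obtain ⟨Λ, φ, e, -, hw', -, -, -, -, hf, -⟩ := dat w (hK hw)
      obtain ⟨C, h1, h2, h3⟩ := exists_compact_subset Λ.open_source hw'
      exact ⟨C, mem_nhdsWithin_of_mem_nhds (mem_interior_iff_mem_nhds.1 h2), _,
        (hF.prop _ (subset_univ _) (h1.image_of_continuousOn (Λ.continuousOn.mono h3))).image_of_continuousOn
          (e.continuousOn.mono (hf C h3).2), (hf C h3).1.subset⟩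
    exact hC.of_isClosed_subset (hc.isClosed.preimage G.cont) hs
  · obtain ⟨Λ, φ, e, -, hw', -, -, -, -, hf, -⟩ := dat w hw
    rw [(hf {w} (singleton_subset_iff.2 hw')).1, image_singleton]
    exact (hF.fin _ trivial).image _
  · obtain ⟨Λ, φ, e, -, hw', -, ht, -, -, -, hl, -, hk⟩ := dat _ hz
    have h1 : z ∈ e.target := ht.superset hw'
    rw [← e.right_inv h1]
    exact hl _ (e.map_target h1) (hF.loc _ trivial (hk z h1 hB).1.2)
  · obtain ⟨Λ, φ, e, hM, hw', hs, ht, he, -⟩ := dat _ hz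
    have h1 : z ∈ e.target := ht.superset hw'
    have h2 := e.map_target h1
    rw [← e.right_inv h1]
    refine (e.continuousAt h2).continuousWithinAt.mem_closure
      (e.open_source.inter_closure ⟨h2, hF.thin _ trivial⟩) fun m hm hB => hm.2 ?_
    rw [he m hm.1, hM.bb _ (Λ.map_target (hs.subset hm.1)), Λ.right_inv (hs.subset hm.1)] at hB
    exact hB
  · obtain ⟨Λ, φ, e, hM, hw', -, ht, -, -, -, -, -, hk⟩ := dat _ hz.1
    have h1 : z ∈ e.target := ht.superset hw'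
    rw [← continuousWithinAt_inter (e.open_target.mem_nhds h1)]
    exact ((hM.car.cont.comp (e.continuousOn_symm.mono inter_subset_right)
      fun y hy => (hk y hy.2 hy.1.2).1).congr fun y hy => (hk y hy.2 hy.1.2).2) z ⟨hz, h1⟩
  · obtain ⟨Λ, φ, e, hM, hw', -, ht, -, k, -, -, -, hk⟩ := dat _ hz.1
    have h1 : z ∈ e.target := ht.superset hw'
    rw [(hk z h1 hz.2).2, hM.car.comm _ (hk z h1 hz.2).1, k z h1, Function.comp_apply,
      Λ.left_inv hw']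
  · obtain ⟨Λ, φ, e, hM, hw', -, ht, -, k, -, -, -, hk⟩ := dat _ hz.1
    have h3 : z ∈ e.target := ht.superset hw'
    have h4 : z' ∈ e.target := ht.superset (by rw [mem_preimage, h1]; exact hw')
    rw [(hk z h3 hz.2).2, (hk z' h4 (h1 ▸ hz.2)).2] at h2
    exact e.symm.injOn h4 h3 (hM.car.inj _ _ (hk z h3 hz.2).1 (by rw [k z h3, k z' h4, h1]) h2)
  · obtain ⟨Λ, φ, e, hM, hw', hs, -, he, -, -, -, hκ, -⟩ := dat _ hw.1
    have h1 : Λ w ∈ Λ.target \ A := ⟨Λ.map_source hw', fun h => hw.2 ((hM.bb w hw').2 h)⟩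
    obtain ⟨m, h2, rfl⟩ := hM.car.surj _ h1 x (by rw [hx, Function.comp_apply, Λ.left_inv hw'])
    have h3 : m ∈ e.source := hs.superset (by rw [mem_preimage, h2]; exact h1.1)
    exact ⟨e m, by rw [he m h3, h2, Λ.left_inv hw'], hκ m h3 (h2 ▸ h1.2)⟩
  · obtain ⟨Λ, φ, e, hM, hw', -, -, -, -, hf, -⟩ := dat w hw
    obtain ⟨h1, h2⟩ := hf {w} (singleton_subset_iff.2 hw')
    rw [h1, (e.injOn.mono h2).ncard_image, image_singleton]
    exact hd.card _ trivial fun h => hB ((hM.bb w hw').2 h)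
  · obtain ⟨Λ, φ, e, -, hw', hs, -, he, -, -, hl, -⟩ := dat w hw
    filter_upwards [(Λ.continuousAt hw').eventually (hd.fold _ trivial),
      Λ.open_source.mem_nhds hw'] with y h1 h2 _ hy
    obtain ⟨S, h3, h4⟩ := h1 rfl fun h => hy (Λ.injOn h2 hw' h)
    have h5 : ∀ m ∈ S, m ∈ e.source := fun m hm =>
      hs.superset (by rw [mem_preimage, (h4 m hm).1]; exact Λ.map_source h2)
    refine ⟨S.image e, by rwa [Finset.card_image_of_injOn (e.injOn.mono h5)], fun z hz => ?_⟩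
    obtain ⟨m, hm, rfl⟩ := Finset.mem_image.1 hz
    exact ⟨by rw [he m (h5 m hm), (h4 m hm).1, Λ.left_inv h2], hl m (h5 m hm) (h4 m hm).2⟩

end Pool.Agent.P.MP_ab0431_ag.UB

namespace Pool.Agent.P.MP_ab0431_ag.UB

open Set Filter Topology
open scoped Manifold ContDiff

theorem p_PRODG :
    S_PRODG := by
  intro M _ _ _ F A h
  refine ⟨fun K _ hK => ?_, fun q _ => ?_, fun z _ hz => ?_, fun z _ => ?_⟩
  · have h1 : IsCompact (F.π ⁻¹' (Prod.fst '' K)) :=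
      h.prop _ (subset_univ _) (hK.image continuous_fst)
    have h2 : IsCompact ((F.π ⁻¹' (Prod.fst '' K)) ×ˢ (Prod.snd '' K)) :=
      h1.prod (hK.image continuous_snd)
    refine IsCompact.of_isClosed_subset (s := (F.π ⁻¹' (Prod.fst '' K)) ×ˢ (Prod.snd '' K)) h2
      (hK.isClosed.preimage F.prod.cont) ?_
    intro z hz
    exact ⟨⟨_, hz, rfl⟩, ⟨_, hz, rfl⟩⟩
  · have h1 : ((F.π ⁻¹' {q.1}) ×ˢ ({q.2} : Set ℂ)).Finite :=
      (h.fin q.1 (mem_univ _)).prod (finite_singleton _)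
    refine h1.subset ?_
    intro z hz
    have e : (F.π z.1, z.2) = q := hz
    exact ⟨congrArg Prod.fst e, congrArg Prod.snd e⟩
  · obtain ⟨e, h1, h2, h3⟩ := h.loc z.1 (mem_univ _) hz
    refine ⟨e.prod (OpenPartialHomeomorph.refl ℂ), ⟨h1, mem_univ _⟩, fun y hy => ?_, ?_⟩
    · show (e y.1, y.2) = (F.π y.1, y.2)
      rw [h2 hy.1]
    · exact md_pair (h3.comp md_fst.mdifferentiableOn fun _ hx => hx.1) md_snd.mdifferentiableOn
  · have h1 : z ∈ closure ((F.π ⁻¹' Aᶜ) ×ˢ (univ : Set ℂ)) := by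
      rw [closure_prod_eq]
      exact ⟨h.thin z.1 (mem_univ _), subset_closure (mem_univ _)⟩
    exact closure_mono (fun y hy => hy.1) h1

end Pool.Agent.P.MP_ab0431_ag.UB

namespace Pool.Agent.P.MP_ab0431_ag.UB

open Set Filter Topology
open scoped Manifold ContDiff

namespace SUBMa

theorem snd_surj {M : Type} [TopologicalSpace M] [ChartedSpace C2 M] (m : M × ℂ) :
    Function.Surjective (mfderiv 𝓘(ℂ, C2 × ℂ) 𝓘(ℂ, ℂ) (Prod.snd : M × ℂ → ℂ) m) := by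
  rw [modelWithCornersSelf_prod]
  have h : mfderiv (𝓘(ℂ, C2).prod 𝓘(ℂ, ℂ)) 𝓘(ℂ, ℂ) (Prod.snd : M × ℂ → ℂ) m =
      ContinuousLinearMap.snd ℂ (TangentSpace 𝓘(ℂ, C2) m.1) (TangentSpace 𝓘(ℂ, ℂ) m.2) :=
    mfderiv_snd
  intro t
  refine ⟨((0 : C2), t), ?_⟩
  erw [h]
  rfl

end SUBMa

theorem p_SUBM :
    S_SUBM := by
  intro M X Y _ _ _ F A B Ω q r G κ h z
  obtain ⟨Λ, φ, e, hR, -, hw, he, hs, ht, hc, -⟩ := h.2 _ (h.1 z)
  have hz : z ∈ e.target := by rw [ht]; exact hw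
  have hm := e.map_target hz
  have hzz : e (e.symm z) = z := e.right_inv hz
  have h1 : MDifferentiableAt 𝓘(ℂ, C2 × ℂ) 𝓘(ℂ, C2 × ℂ) e (e.symm z) :=
    (he.hol _ hm).mdifferentiableAt (e.open_source.mem_nhds hm)
  have h2 : MDifferentiableAt 𝓘(ℂ, C2 × ℂ) 𝓘(ℂ, ℂ) (fun z => (G.π z).2) (e (e.symm z)) :=
    (md_snd.comp G.hol) _
  have h3 : ((fun z => (G.π z).2) ∘ e) =ᶠ[𝓝 (e.symm z)] (Prod.snd : F.Z × ℂ → ℂ) := by
    filter_upwards [e.open_source.mem_nhds hm] with m hm'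
    have hm2 : F.prod.π m ∈ Λ.target := by rw [hs] at hm'; exact hm'
    rw [Function.comp_apply, hc m hm', hR.symm _ hm2]
    rfl
  have h4 := SUBMa.snd_surj (M := F.Z) (e.symm z)
  have h5 := h3.mfderiv_eq (I := 𝓘(ℂ, C2 × ℂ)) (I' := 𝓘(ℂ, ℂ))
  have h6 := mfderiv_comp _ h2 h1
  rw [← hzz]
  intro t
  obtain ⟨v, hv⟩ := h4 t
  refine ⟨mfderiv 𝓘(ℂ, C2 × ℂ) 𝓘(ℂ, C2 × ℂ) e (e.symm z) v, ?_⟩
  exact ((DFunLike.congr_fun h6 v).symm.trans (DFunLike.congr_fun h5 v)).trans hv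

end Pool.Agent.P.MP_ab0431_ag.UB

namespace Pool.Agent.P.MP_ab0431_ag.UB

open Set Filter Topology
open scoped Manifold ContDiff

namespace FIBa

theorem ext {M N : Type} [TopologicalSpace M] [TopologicalSpace N] [T2Space N] {f g : M → N}
    {O S : Set M} (ho : IsOpen O) (hd : ∀ z, z ∈ closure Sᶜ) (hf : ContinuousOn f O)
    (hg : ContinuousOn g O) (e : EqOn f g (O \ S)) : EqOn f g O :=
  e.of_subset_closure hf hg sdiff_subset fun z hz => ho.inter_closure ⟨hz, hd z⟩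

end FIBa

theorem p_FIB (hDIVC : S_DIVC) (hXT1 : S_XT1) (hASMG : S_ASMG) (hPRODG : S_PRODG) (hSLC : S_SLC) :
    S_FIB := by
  intro M _ _ _ F F' A B r U t G κ ψ hU ht ⟨x₀⟩ h0 zl h0' zl' hr as hψ
  obtain ⟨g0, cκ, -⟩ := hASMG _ _ _ _ _ _ _ _ _ _ _ G κ (hPRODG M F A h0) as
  have lh : ∀ w, w.2 ∈ U → w ∉ B → ∀ x, F.π x = r w → LH F.π x := fun w hw hB x hx =>
    (h0.loc x (mem_univ _) (by rw [hx]; exact hr w hw hB)).lh
  have th := fun z => h0.thin z (mem_univ _)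
  have th' := fun z => h0'.thin z (mem_univ _)
  obtain ⟨x₁, hx₁⟩ := closure_nonempty_iff.1 ⟨x₀, th' x₀⟩
  obtain ⟨z₁, -⟩ := cκ.surj (F'.π x₁, t) ⟨ht, hx₁⟩ (ψ x₁) (hψ.comm x₁ hx₁)
  obtain ⟨j₀, cj, ej⟩ := hDIVC _ _ _ _ _ _ F'.π G.π F.π (fun y => (y, t)) r {y | (y, t) ∉ B}
    (Prod.snd ⁻¹' U \ B) ψ κ F'.cont (by fun_prop) (fun y hy => ⟨ht, hy⟩)
    (fun z hz => (g0.loc z hz.1 hz.2).lh) (fun w hw => lh w hw.1 hw.2) hψ cκ ⟨fun _ => z₁⟩
  obtain ⟨j, j1, j2, j3⟩ := hXT1 C2 (C2 × ℂ) F'.Z (M × ℂ) G B _ univ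
    (F'.π ⁻¹' {y | (y, t) ∈ B}) (fun x => (F'.π x, t)) j₀ (hU.preimage continuous_snd) g0
    isOpen_univ (zl'.pull isOpen_univ F'.hol.mdifferentiableOn (mapsTo_univ _ _))
    (fun z _ => isOpen_univ.inter_closure ⟨mem_univ _, th' z⟩)
    (md_pair F'.hol.mdifferentiableOn mdifferentiableOn_const) (fun _ _ => ht) (fun _ hz => hz.2)
    (cj.cont.mono fun _ hz => hz.2) fun z hz => cj.comm z hz.2
  have jm := mdifferentiableOn_univ.1 j1
  have jp : ∀ x, G.π (j x) = (F'.π x, t) := fun x => j3 x (mem_univ _)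
  have jk : ∀ x, (F'.π x, t) ∉ B → κ (j x) = ψ x := fun x hx => by
    rw [j2 ⟨mem_univ _, hx⟩, ej x hx]
  have key : ∀ y : M, ∃ (N : Set (M × ℂ)) (L : G.Z → F'.Z), IsOpen N ∧ (y, t) ∈ N ∧
      (∀ x, (F'.π x, t) ∈ N → MDifferentiableAt 𝓘(ℂ, C2 × ℂ) 𝓘(ℂ, C2) L (j x) ∧ L (j x) = x) ∧
      ∀ z, G.π z = (y, t) → z ∈ range j := fun y => by
    obtain ⟨Λ, φ, e, fs, md, hy, bi, e1, e2, e3, e4⟩ := as.2 (y, t) ht
    obtain ⟨μ, -, m1, m2, m3, m4, m5⟩ := hSLC M Λ t md.bi fs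
    have ms := m5 _ _ F A B F.π r φ md
    have nB : ∀ y ∈ μ.target \ A, (μ.symm y, t) ∉ B := fun y hy a =>
      hy.2 (μ.right_inv hy.1 ▸ (ms.bb _ (μ.map_target hy.1)).1 a)
    obtain ⟨k₀, ck, ek⟩ := hDIVC _ _ _ _ _ _ F.π F'.π F.π μ.symm (fun y => r (y, t))
      (μ.target \ A) {y | (y, t) ∉ B} (fun x => φ (x, t)) ψ F.cont
      (μ.continuousOn_symm.mono sdiff_subset) nB (fun z hz => (h0'.loc z (mem_univ _) hz).lh)
      (fun w hw => lh (w, t) ht hw) ms.car hψ ⟨fun _ => x₀⟩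
    have oO := μ.open_target.preimage F.cont
    obtain ⟨k, k1, k2, k3⟩ := hXT1 C2 C2 F.Z M F' _ univ (F.π ⁻¹' μ.target) (F.π ⁻¹' A)
      (μ.symm ∘ F.π) k₀ isOpen_univ h0' oO
      (zl.pull oO F.hol.mdifferentiableOn (mapsTo_univ _ _))
      (fun z hz => oO.inter_closure ⟨hz, th z⟩)
      (ms.bi.inv.comp F.hol.mdifferentiableOn fun _ hx => hx) (mapsTo_univ _ _)
      (fun z hz => nB _ hz) (ck.cont.mono fun _ hz => hz) fun z hz => ck.comm z hz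
    have sr : ∀ x ∈ F.π ⁻¹' μ.target, (x, t) ∈ e.source := fun x hx => by
      rw [e1]; rw [m2] at hx; exact hx
    have pe : ∀ x ∈ F.π ⁻¹' μ.target, G.π (e (x, t)) = (μ.symm (F.π x), t) := fun x hx => by
      rw [e3 _ (sr x hx), m4]
      exact Prod.ext rfl (fs.symm _ (by rw [m2] at hx; exact hx))
    have E1 : EqOn (fun x => j (k x)) (fun x => e (x, t)) (F.π ⁻¹' μ.target) :=
      FIBa.ext oO th (jm.continuous.comp_continuousOn k1.continuousOn)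
        (e.continuousOn.comp (by fun_prop) sr) fun x hx => by
          have h1 : (F'.π (k x), t) ∉ B := by rw [k3 x hx.1]; exact nB _ hx
          refine cκ.inj _ _ (by rw [pe x hx.1]; exact ⟨ht, nB _ hx⟩)
            (by rw [jp, k3 x hx.1, pe x hx.1]; rfl) ?_
          rw [jk _ h1, k2 hx, ek x hx]
          exact (e4 _ (sr x hx.1) hx.2).symm
    have bk : ∀ z, G.π z ∈ Λ.source → (G.π z).2 = t → z ∈ e.target ∧
        (e.symm z).1 ∈ F.π ⁻¹' μ.target ∧ e ((e.symm z).1, t) = z := fun z hz hz' => by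
      have h1 : z ∈ e.target := e2 ▸ hz
      have h2 := e.map_target h1
      have h3 := e3 _ h2
      rw [e.right_inv h1] at h3
      rw [e1] at h2
      have h4 : (e.symm z).2 = t := by rw [← hz', h3]; exact (fs.symm _ h2).symm
      refine ⟨h1, ?_, ?_⟩
      · rw [m2, ← h4]; exact h2
      · rw [← h4]; exact e.right_inv h1
    have oN : IsOpen {x | (F'.π x, t) ∈ Λ.source} :=
      Λ.open_source.preimage (F'.cont.prodMk continuous_const)
    have b2 : ∀ x, (F'.π x, t) ∈ Λ.source → _ := fun x hx => bk (j x) (jp x ▸ hx) (by rw [jp])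
    have dL : ∀ x, (F'.π x, t) ∈ Λ.source →
        MDifferentiableAt 𝓘(ℂ, C2 × ℂ) 𝓘(ℂ, C2) (fun z => k (e.symm z).1) (j x) := fun x hx =>
      (k1.mdifferentiableAt (oO.mem_nhds (b2 x hx).2.1)).comp (j x) ((md_fst _).comp (j x)
        (bi.inv.mdifferentiableAt (e.open_target.mem_nhds (b2 x hx).1)))
    refine ⟨Λ.source, fun z => k (e.symm z).1, Λ.open_source, hy, fun x hx => ⟨dL x hx, ?_⟩,
      fun z hz => ?_⟩
    · refine FIBa.ext (f := fun x => k (e.symm (j x)).1) (g := id) oN th' (fun x hx =>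
        ((dL x hx).continuousAt.comp jm.continuous.continuousAt).continuousWithinAt)
        continuousOn_id (fun x hx => ?_) hx
      have h1 := (E1 (b2 x hx.1).2.1).trans (b2 x hx.1).2.2
      have h2 : F'.π (k (e.symm (j x)).1) = F'.π x :=
        congrArg Prod.fst ((jp _).symm.trans ((congrArg G.π h1).trans (jp x)))
      refine hψ.inj x _ hx.2 h2 ?_
      rw [← jk x hx.2, ← jk _ (h2 ▸ hx.2)]
      exact congrArg κ h1
    · have := bk z (hz ▸ hy) (by rw [hz])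
      exact ⟨_, (E1 this.2.1).trans this.2.2⟩
  refine ⟨j, fun x x' e => ?_, jm, fun x => ?_, Subset.antisymm ?_ fun z hz => ?_⟩
  · obtain ⟨N, L, -, a, c, -⟩ := key (F'.π x)
    rw [← (c x a).2, e, (c x' (by rw [← jp, ← e, jp]; exact a)).2]
  · obtain ⟨N, L, o, a, c, -⟩ := key (F'.π x)
    have h1 : L ∘ j =ᶠ[𝓝 x] id := by
      filter_upwards [(o.preimage (F'.cont.prodMk continuous_const)).mem_nhds a] with y hy
      exact (c y hy).2
    have h2 := mfderiv_comp x (c x a).1 (jm x)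
    rw [h1.mfderiv_eq, mfderiv_id] at h2
    refine Function.LeftInverse.injective (g := mfderiv 𝓘(ℂ, C2 × ℂ) 𝓘(ℂ, C2) L (j x)) fun v => ?_
    exact (congrArg (fun T => T v) h2).symm
  · rintro _ ⟨x, rfl⟩
    exact congrArg Prod.snd (jp x)
  · obtain ⟨N, L, -, -, -, c⟩ := key (G.π z).1
    exact c z (Prod.ext rfl hz)

end Pool.Agent.P.MP_ab0431_ag.UB

namespace Pool.Agent.P.MP_ab0431_ag.UB

open Set Filter Topology
open scoped Manifold ContDiff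

theorem p_BACK (hHL : S_HL) (hDIVC : S_DIVC) :
    S_BACK := by
  intro Y X X' E E' _ _ _ _ _ B U G t t' τ q q' p p' κ κ' f hU ht ht' hτ hG h1 h2 h3 hq' cq cq'
    lp cκ cκ' hf hne
  have e0 : ∀ y a b, a ∈ U → b ∈ U → ((G ((y, a), b)).1, b) = G ((y, a), b) :=
    fun y a b ha hb => Prod.ext rfl (h3 ((y, a), b) ha hb).symm
  have st : ∀ y a b, a ∈ U → b ∈ U → (y, a) ∉ B → ((G ((y, a), b)).1, b) ∉ B :=
    fun y a b ha hb hy => by rw [e0 y a b ha hb]; exact h2 _ hy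
  have mv : ∀ (Z : Type) [TopologicalSpace Z] (r : Z → Y) (a b c : ℂ) (g : X' → Z), a ∈ U →
      b ∈ U → c ∈ U → IsCoveringMapOn r {y | (y, c) ∉ B} →
      Car q' r (fun y => (G (G ((y, t'), a), c)).1) {y | (y, t') ∉ B} g →
      ∃ g', Car q' r (fun y => (G (G ((y, t'), b), c)).1) {y | (y, t') ∉ B} g' := by
    intro Z _ r a b c g ha hb hc hr hg
    obtain ⟨g', hg'⟩ := hHL X' Y Z Y q' r {y | (y, t') ∉ B} _
      (fun x => (G (G ((x.1, t'), (1 - x.2) • a + x.2 • b), c)).1) g hr hq' (by fun_prop)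
      (fun y hy s hs => by
        have hm : (1 - s) • a + s • b ∈ U := hU ha hb (sub_nonneg.2 hs.2) hs.1 (by ring)
        have := st _ _ c hm hc (st y t' _ ht' hm hy)
        rwa [e0 y t' _ ht' hm] at this) (hg.congr fun y _ => by simp)
    exact ⟨g', hg'.congr fun y _ => by simp⟩
  have i0 : ∀ y, G ((y, t'), t') = (y, t') := fun y => h1 (y, t')
  obtain ⟨f₁, c₁⟩ := mv X' q' t' τ t' id ht' hτ ht' cq' (Car.refl.congr fun y _ => by simp [i0])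
  have mu : MapsTo (fun y => (G ((y, t'), τ)).1) {y | (y, t') ∉ B} {y | (y, τ) ∉ B} :=
    fun y hy => st y t' τ ht' hτ hy
  obtain ⟨g, cg, -⟩ := hDIVC X' Y E' Y X' Y q' p' q' (fun y => (G ((y, t'), τ)).1)
    (fun y => (G ((y, τ), t')).1) _ _ f₁ κ' hq' (by fun_prop) mu lp (fun y hy x hx => by
      obtain ⟨e, a, b⟩ := cq'.isLocalHomeomorphOn x
        (show q' x ∈ {y | (y, t') ∉ B} by rw [hx]; exact st y τ t' hτ ht' hy)
      exact ⟨e, a, fun z _ => congrFun b.symm z⟩)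
    (c₁.congr fun y _ => by simp only [Function.comp_apply, e0 y t' τ ht' hτ]) cκ' hne
  obtain ⟨ψ, c⟩ := mv X q τ t' t _ hτ ht' ht cq
    (((cκ.comp hf.car (mapsTo_id _)).comp cg mu).congr fun y _ => by
      simp only [Function.comp_apply, id, e0 y t' τ ht' hτ])
  exact ⟨ψ, c.congr fun y _ => by simp only [i0]⟩

end Pool.Agent.P.MP_ab0431_ag.UB

namespace Pool.Agent.P.MP_ab0431_ag.UB

open Polynomial Set Filter Topology
open scoped Manifold ContDiff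

namespace DMAINa

theorem surj {Y : Type} [TopologicalSpace Y] [T2Space Y] [ChartedSpace C2 Y] (F : Cv C2 Y)
    [CompactSpace F.Z] [Nonempty F.Z] {A : Set Y} {d : ℕ} (h : F.G0 A univ)
    (h1 : F.G1 A d (fun _ => 0) univ) (hd : Dense Aᶜ) : Function.Surjective F.π := by
  obtain ⟨x⟩ := ‹Nonempty F.Z›
  obtain ⟨x, hx⟩ := closure_nonempty_iff.1 ⟨x, h.thin x (mem_univ _)⟩
  have h2 : 0 < d := by
    rw [← h1.card _ (mem_univ _) hx, ncard_pos (h.fin _ (mem_univ _))]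
    exact ⟨x, rfl⟩
  refine range_eq_univ.1 (eq_univ_of_univ_subset ?_)
  rw [← hd.closure_eq]
  refine closure_minimal (fun y hy => ?_) (isCompact_range F.cont).isClosed
  exact nonempty_of_ncard_ne_zero (s := F.π ⁻¹' {y}) (by rw [h1.card _ (mem_univ _) hy]; omega)

theorem strip {U : Set ℂ} {N : ℕ} (ho : IsOpen U) (h : ∀ x : ℝ, 0 ≤ x → x ≤ N → (x : ℂ) ∈ U) :
    ∃ K V : Set ℂ, IsCompact K ∧ Convex ℝ K ∧ K ⊆ U ∧ IsOpen V ∧ Convex ℝ V ∧ V ⊆ K ∧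
      ∀ j : Fin (N + 1), (j : ℂ) ∈ V := by
  let S : Set ℂ := Complex.ofRealCLM '' Icc 0 N
  have h1 : IsCompact S := isCompact_Icc.image Complex.ofRealCLM.continuous
  have h2 : Convex ℝ S := (convex_Icc _ _).linear_image Complex.ofRealCLM.toLinearMap
  obtain ⟨η, h3, h4⟩ := h1.exists_cthickening_subset_open ho
    (by rintro _ ⟨x, hx, rfl⟩; exact h x hx.1 hx.2)
  refine ⟨_, _, h1.cthickening, h2.cthickening η, h4, Metric.isOpen_thickening, h2.thickening η,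
    Metric.thickening_subset_cthickening _ _, fun j => Metric.self_subset_thickening h3 _
      ⟨j, ⟨Nat.cast_nonneg _, Nat.cast_le.2 (Nat.lt_succ_iff.1 j.2)⟩, by simp⟩⟩

end DMAINa

theorem p_DMAIN (hTBOX : S_TBOX) (hZLB : S_ZLB) (hTRANS : S_TRANS) (hPROP : S_PROP) (hSLC : S_SLC) (hZCON : S_ZCON) (hASMG : S_ASMG) (hPRODG : S_PRODG) (hSUBM : S_SUBM) (hFIB : S_FIB) (hBACK : S_BACK) (hCOUNT : S_COUNT) (hCOVG : S_COVG) (hBCF : S_BCF) :
    S_DMAIN := by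
  intro Q b m d nn N U s X hS hN hX
  choose π hπ h0 h1 using hX
  let F : Fin (N + 1) → Cv C2 Q.Y := fun j => Cv.mk (X j).X (X j).mfd (X j).t2 (π j) (hπ j)
  obtain ⟨K, V, k1, k2, k3, v1, v2, v3, v4⟩ := DMAINa.strip hS.isOpen hS.seg
  have box : ∀ w : Q.Y × ℂ, w.2 ∈ K → ∃ Ψ, Box (Fam Q s) Ψ ∧ w ∈ Ψ.source := fun w hw =>
    hTBOX Q b m nn N U s hS w (k3 hw)
  obtain ⟨G, g1, g2, g3, g4⟩ := hTRANS Q.Y (Fam Q s) K k1 k2 fun w hw =>
    let ⟨Ψ, ⟨_, a, A, c⟩, e⟩ := box w hw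
    ⟨Ψ, A, e, a, c⟩
  have gd : ∀ j : Fin (N + 1), Good (s j) := fun j => (hS.good _ (k3 (v3 (v4 j)))).1
  have zl : ∀ j : Fin (N + 1), ZL C2 (Bc Q (s j)) univ := fun j => hZLB Q b m _ (gd j).1
  have ne : ∀ j, Nonempty (F j).Z := fun j => (X j).conn.toNonempty
  have sj : ∀ j, Function.Surjective (F j).π := fun j =>
    have : CompactSpace (F j).Z := (X j).cpt
    DMAINa.surj (F j) (h0 j) (h1 j) (hBCF Q b m _ (gd j).1).2.2.2.2.2.2.1
  have cov : ∀ j, IsCoveringMapOn (F j).π (Bc Q (s j))ᶜ := fun j => by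
    rw [compl_eq_univ_sdiff]; exact hCOVG C2 Q.Y (F j) _ _ isOpen_univ (h0 j)
  let r : Fin (N + 1) → Q.Y × ℂ → Q.Y := fun j w => (G (w, j)).1
  have hr : ∀ (j : Fin (N + 1)) w, w.2 ∈ V → w ∉ Fam Q s → r j w ∉ Bc Q (s j) :=
    fun j w hw hB e => g3 (w, j) hB (by
      show (G (w, j)).1 ∈ Bc Q (s (G (w, j)).2)
      rw [g4 (w, j) (v3 hw) (v3 (v4 j))]; exact e)
  have r0 : ∀ j y, r j (y, j) = y := fun j y => congrArg Prod.fst (g2 (y, j))
  have lh : ∀ j w, w.2 ∈ V → w ∉ Fam Q s → ∀ x, (F j).π x = r j w → LH (F j).π x :=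
    fun j w hw hB x hx => ((h0 j).loc x (mem_univ _) (by
      show (F j).π x ∉ _
      rw [hx]; exact hr j w hw hB)).lh
  have md := fun j => hPROP Q.Y (F j) (Bc Q (s j)) (Fam Q s) (r j) V j (cov j)
    (g1.comp (continuous_id.prodMk continuous_const)).fst (hr j) v1 v2.isPreconnected
    (fun w hw => box w (v3 hw)) (v4 j) (fun _ => Iff.rfl) (r0 j)
  have sl : ∀ j, ∃ E κ, Asm (F j) (Bc Q (s j)) (Bc Q (s (0 : Fin (N + 1)))) univ (F j).π
      (fun y => r j (y, (0 : Fin (N + 1)))) (fun _ => True) E κ := fun j => by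
    obtain ⟨x⟩ := ne j
    refine hZCON C2 Q.Y _ _ (F j) _ _ _ _ _ _ (h0 j) (zl j) (sj j) ⟨(F j).π x, mem_univ _⟩
      (fun y hy => lh j (y, _) (v4 0) hy.2) fun y _ => ?_
    obtain ⟨Λ, φ, a, c, e, -⟩ := md j (y, (0 : Fin (N + 1))) (v4 0)
    obtain ⟨μ, -, m1, -, -, -, m2⟩ := hSLC Q.Y Λ (0 : Fin (N + 1)) c.bi a
    exact ⟨μ, _, trivial, m2 _ _ (F j) _ _ _ _ φ c, by rw [m1]; exact e, subset_univ _⟩
  choose E κ hE using sl
  have as := fun j => hASMG C2 Q.Y _ _ (F j) _ _ _ _ _ _ (E j) (κ j) (h0 j) (hE j)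
  obtain ⟨i, j, ij, f, hf⟩ := hCOUNT Q b m d (N + 1) (s (0 : Fin (N + 1))) E (gd 0)
    (Nat.lt_succ_of_le hN) (fun j => (as j).1) fun j => (as j).2.2 d (h1 j)
  obtain ⟨ψ, hψ⟩ := hBACK Q.Y _ _ _ _ (Fam Q s) V G i j (0 : Fin (N + 1)) (F i).π (F j).π (E i).π
    (E j).π (κ i) (κ j) f v2 (v4 i) (v4 j) (v4 0) g1 g2 g3 (fun x a c => g4 x (v3 a) (v3 c))
    (F j).cont (cov i) (cov j) (fun z hz => ((as j).1.loc z (mem_univ _) hz).lh)
    ((as i).2.1.mono fun _ hy => ⟨mem_univ _, hy⟩) ((as j).2.1.mono fun _ hy => ⟨mem_univ _, hy⟩)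
    hf (by
      obtain ⟨x⟩ := ne j
      obtain ⟨_, _, e, -⟩ := (hE j).2 ((F j).π x) (mem_univ _)
      exact ⟨e⟩)
  have p0 := hPRODG Q.Y (F i) _ (h0 i)
  obtain ⟨Z, κ', hZ⟩ := hZCON (C2 × ℂ) (Q.Y × ℂ) _ _ (F i).prod (Prod.fst ⁻¹' Bc Q (s i))
    (Fam Q s) (Prod.snd ⁻¹' V) (F i).π (r i) Fs p0
    ((zl i).pull isOpen_univ md_fst.mdifferentiableOn (mapsTo_univ _ _))
    (fun w => by
      obtain ⟨x, hx⟩ := sj i w.1
      exact ⟨(x, w.2), Prod.ext hx rfl⟩)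
    (by obtain ⟨x⟩ := ne i; exact ⟨((F i).π x, i), v4 i⟩) (fun w hw => lh i w hw.1 hw.2) (md i)
  have g0 := (hASMG _ _ _ _ _ _ _ _ _ _ _ Z κ' p0 hZ).1
  have fib : ∀ (l : Fin (N + 1)) (ψ : (F l).Z → (F i).Z), Car (F l).π (F i).π
      (fun y => r i (y, l)) {y | (y, (l : ℂ)) ∉ Fam Q s} ψ → IsFibre (X l) fun z => (Z.π z).2 :=
    fun l ψ hψ => by
      obtain ⟨j, j1, j2, j3, j4⟩ := hFIB Q.Y (F i) (F l) _ (Fam Q s) (r i) V l Z κ' ψ v1 (v4 l)
        (ne l) (h0 i) (zl i) (h0 l) (zl l) (hr i) hZ hψ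
      exact ⟨l, j, j1, ⟨j2, j3⟩, j4⟩
  refine ⟨i, j, ij.ne, Z.Z, Z.top, Z.cs, V, fun z => (Z.π z).2, Z.t2, Z.mfd, v1,
    ⟨⟨_, v4 0⟩, v2.isPreconnected⟩, hZ.1, ⟨md_snd.comp Z.hol, hSUBM Q.Y _ _ _ _ _ _ _ _ Z κ' hZ⟩,
    fun C hC hc => ?_, fib i id (Car.refl.congr fun y _ => r0 i y), fib j ψ hψ⟩
  have := g0.prop (univ ×ˢ C) (fun w hw => hC hw.2) (isCompact_univ.prod hc)
  rwa [univ_prod] at this

end Pool.Agent.P.MP_ab0431_ag.UB
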