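import Pool.Agent.P.MP_ab0431_ag.UB.IfaceO

/-! Steps POLY NEWT COMP WDET TOP DISC DSEP POWB TUP NIL LV CHS. -/

set_option autoImplicit false
set_option linter.unusedSectionVars false
set_option linter.unusedVariables false

namespace Pool.Agent.P.MP_ab0431_ag.UB

open Polynomial Set Filter Topology

theorem inf_poly : Tendsto (fun x : ℂ => ‖x‖) (cocompact ℂ) atTop := tendsto_norm_cocompact_atTop

theorem ent_poly (n : ℕ) : ∀ g : ℂ → ℂ, Differentiable ℂ g → (g =o[cocompact ℂ] fun x => x ^ n) →
    ∃ p : ℂ[X], p.degree < n ∧ ∀ x, g x = p.eval x := by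
  induction n with
  | zero =>
    exact fun g h1 h2 => ⟨0, by simp, fun x => by
      simpa using h1.apply_eq_of_tendsto_cocompact x
        ((Asymptotics.isLittleO_one_iff ℂ).1 (by simpa using h2))⟩
  | succ n ih =>
    intro g h1 h2
    have h3 : (fun x => g x - g 0) =o[cocompact ℂ] fun x => x ^ (n + 1) :=
      h2.sub (Asymptotics.isLittleO_const_left.2 (.inr (by
        simpa [Function.comp_def] using (tendsto_pow_atTop n.succ_ne_zero).comp inf_poly)))
    have h4 : dslope g 0 =o[cocompact ℂ] fun x => x ^ n := by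
      refine ((Asymptotics.isBigO_refl (fun x : ℂ => x⁻¹) _).mul_isLittleO h3).congr' ?_ ?_ <;>
        filter_upwards [inf_poly.eventually_gt_atTop 0] with x hx
      · simp [dslope_of_ne _ (norm_pos_iff.1 hx), slope]
      · rw [pow_succ', inv_mul_cancel_left₀ (norm_pos_iff.1 hx)]
    obtain ⟨p, p1, p2⟩ := ih (dslope g 0) (differentiableOn_univ.1
      ((Complex.differentiableOn_dslope univ_mem).2 h1.differentiableOn)) h4
    refine ⟨C (g 0) + X * p, (degree_add_le _ _).trans_lt (max_lt (degree_C_le.trans_lt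
      (by exact_mod_cast n.succ_pos)) ?_), fun x => ?_⟩
    · rw [mul_comm, degree_mul_X, Nat.cast_succ]
      exact WithBot.add_lt_add_right (by simp) p1
    · have := sub_smul_dslope g 0 x
      rw [p2, sub_zero, smul_eq_mul] at this
      simp only [eval_add, eval_C, eval_mul, eval_X]
      linear_combination -this

theorem p_POLY :
    S_POLY := by
  intro f Z c n hZ h1 h2
  classical
  let g : ℂ → ℂ := fun x => if x ∈ Z then limUnder (𝓝[≠] x) f else f x
  have e : ∀ x ∉ Z, g x = f x := fun x hx => if_neg hx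
  have d : Differentiable ℂ g := fun x => by
    by_cases hx : x ∈ Z
    · have s : (Z \ {x})ᶜ ∩ Metric.ball x 1 ∈ 𝓝 x := inter_mem
        ((hZ.subset sdiff_subset).isClosed.isOpen_compl.mem_nhds fun h => h.2 rfl)
        (Metric.ball_mem_nhds x one_pos)
      have nz : ∀ y ∈ ((Z \ {x})ᶜ ∩ Metric.ball x 1) \ {x}, y ∉ Z := fun y hy h => hy.1.1 ⟨h, hy.2⟩
      refine ((Complex.differentiableOn_update_limUnder_of_bddAbove s
        (fun y hy => (h1 y (nz y hy)).differentiableWithinAt) ⟨|c| * (1 + (‖x‖ + 1)) ^ n, ?_⟩).congr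
          fun y hy => ?_).differentiableAt s
      · rintro _ ⟨y, hy, rfl⟩
        have := (norm_lt_of_mem_ball hy.1.2).le
        exact (h2 y (nz y hy)).trans (by gcongr; exact le_abs_self c)
      · rcases eq_or_ne y x with rfl | h
        · rw [Function.update_self]
          exact if_pos hx
        · rw [Function.update_of_ne h, e y (nz y ⟨hy, h⟩)]
    · exact (h1 x hx).congr_of_eventuallyEq
        (mem_of_superset (hZ.isClosed.isOpen_compl.mem_nhds hx) e)
  have o : g =O[cocompact ℂ] fun x => x ^ n := .of_bound (|c| * 2 ^ n) (by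
    filter_upwards [inf_poly.eventually_ge_atTop 1, hZ.isCompact.compl_mem_cocompact] with x a b
    rw [e x b, norm_pow, mul_assoc, ← mul_pow]
    exact (h2 x b).trans (by gcongr; exacts [le_abs_self c, by linarith]))
  obtain ⟨p, p1, p2⟩ := ent_poly (n + 1) g d (o.trans_isLittleO
    ((Asymptotics.isLittleO_pow_pow_cobounded_of_lt n.lt_succ_self).mono
      Metric.cobounded_eq_cocompact.ge))
  exact ⟨p, natDegree_le_iff_degree_le.2 (Order.le_of_lt_succ (by exact_mod_cast p1)),
    fun x hx => (e x hx).symm.trans (p2 x)⟩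

end Pool.Agent.P.MP_ab0431_ag.UB

namespace Pool.Agent.P.MP_ab0431_ag.UB

open Polynomial Set Filter Topology

theorem jac_newt {R : Type} [CommRing R] {b : ℕ} (N : Matrix (Fin b) (Fin b) R[X]) :
    derivative N.det = (N.adjugate * N.map derivative).trace := by
  have h1 : (N.adjugate * N.map derivative).trace =
      ∑ j, (N.updateCol j fun i => derivative (N i j)).det := by
    refine Finset.sum_congr rfl fun j _ => ?_
    rw [← Matrix.cramer_apply, Matrix.cramer_eq_adjugate_mulVec]
    rfl
  rw [h1, Matrix.det_apply, map_sum]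
  simp only [Matrix.det_apply]
  rw [Finset.sum_comm]
  refine Finset.sum_congr rfl fun σ _ => ?_
  rw [← Finset.smul_sum, Units.smul_def, Units.smul_def, map_zsmul, derivative_prod_finset]
  congr 1
  refine Finset.sum_congr rfl fun j _ => ?_
  rw [← Finset.prod_erase_mul _ _ (Finset.mem_univ j), Matrix.updateCol_self]
  congr 1
  exact Finset.prod_congr rfl fun i hi => (Matrix.updateCol_ne (Finset.ne_of_mem_erase hi)).symm

theorem adj_newt {R : Type} [CommRing R] {b : ℕ} (M : Matrix (Fin b) (Fin b) R) (k : ℕ) :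
    (1 - (X : R[X]) • M.map C).adjugate.map (coeff · k) =
      ∑ i ∈ Finset.range (k + 1), M.charpolyRev.coeff i • M ^ (k - i) := by
  obtain ⟨A, hA⟩ : ∃ A, A = (1 - (X : R[X]) • M.map C).adjugate := ⟨_, rfl⟩
  have h : A = M.charpolyRev • (1 : Matrix (Fin b) (Fin b) R[X]) + (X : R[X]) • (A * M.map C) := by
    rw [← Matrix.mul_smul, ← sub_eq_iff_eq_add, ← mul_one_sub, hA, Matrix.adjugate_mul]
    rfl
  have h1 : ∀ k, (M.charpolyRev • (1 : Matrix (Fin b) (Fin b) R[X])).map (coeff · k) =
      M.charpolyRev.coeff k • (1 : Matrix (Fin b) (Fin b) R) := fun k => by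
    ext i j
    by_cases e : i = j <;> simp [e]
  rw [← hA]
  induction k with
  | zero =>
    rw [h, Matrix.map_add _ fun _ _ => coeff_add _ _ _, h1]
    ext i j
    simp
  | succ k ih =>
    have h2 : ((X : R[X]) • (A * M.map C)).map (coeff · (k + 1)) = A.map (coeff · k) * M := by
      ext i j
      simp [Matrix.mul_apply, coeff_X_mul, finsetSum_coeff]
    rw [h, Matrix.map_add _ fun _ _ => coeff_add _ _ _, h1, h2, ih, Finset.sum_range_succ _ (k + 1),
      Nat.sub_self, pow_zero, add_comm, Finset.sum_mul]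
    congr 1
    refine Finset.sum_congr rfl fun i hi => ?_
    have := Finset.mem_range.1 hi
    rw [smul_mul_assoc, ← pow_succ, show k - i + 1 = k + 1 - i by omega]

theorem p_NEWT :
    S_NEWT := by
  intro R _ b M k
  rcases subsingleton_or_nontrivial R with _ | _
  · exact Subsingleton.elim _ _
  have hq : ∀ i, (if i ≤ b then M.charpoly.coeff (b - i) else 0) = M.charpolyRev.coeff i := by
    intro i
    have hd : M.charpoly.natDegree = b := by rw [Matrix.charpoly_natDegree_eq_dim, Fintype.card_fin]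
    rw [← Matrix.reverse_charpoly, coeff_reverse, hd]
    split_ifs with h
    · rw [revAt_le h]
    · rw [revAt_eq_self_of_lt (not_le.1 h), coeff_eq_zero_of_natDegree_lt (hd.trans_lt (not_le.1 h))]
  simp only [hq]
  cases k with
  | zero => simp
  | succ k =>
    have h1 := congrArg (coeff · k) (jac_newt (1 - (X : R[X]) • M.map C))
    have h2 : (1 - (X : R[X]) • M.map C).map derivative = -M.map C := by
      ext i j : 2
      by_cases e : i = j <;> simp [e]
    have h3 : ∀ A : Matrix (Fin b) (Fin b) R[X],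
        (A * -M.map C).trace.coeff k = -(A.map (coeff · k) * M).trace := fun A => by
      simp [Matrix.trace, Matrix.mul_apply, finsetSum_coeff]
    simp only [h2, h3, adj_newt, coeff_derivative, Finset.sum_mul, Matrix.trace_sum,
      smul_mul_assoc, Matrix.trace_smul, ← pow_succ, smul_eq_mul] at h1
    rw [mul_comm, Nat.cast_succ, add_eq_zero_iff_eq_neg']
    refine h1.trans (congrArg _ (Finset.sum_congr rfl fun i hi => ?_))
    have := Finset.mem_range.1 hi
    rw [show k - i + 1 = k + 1 - i by omega]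

end Pool.Agent.P.MP_ab0431_ag.UB

namespace Pool.Agent.P.MP_ab0431_ag.UB

open Polynomial Set Filter Topology

theorem pow_comp {R : Type} [CommRing R] {b : ℕ} (F : R[X]) (h0 : 0 < b) (j : ℕ) (hj : j < b)
    (i : Fin b) : (comp b F ^ j) i ⟨0, h0⟩ = if i = ⟨j, hj⟩ then 1 else 0 := by
  induction j generalizing i with
  | zero => rw [pow_zero, Matrix.one_apply]
  | succ j ih =>
    simp only [pow_succ', Matrix.mul_apply, ih (by omega), mul_ite, mul_one, mul_zero,
      Finset.sum_ite_eq', Finset.mem_univ, if_true]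
    simp [comp, hj.ne, Fin.ext_iff]

theorem last_comp {R : Type} [CommRing R] {b : ℕ} (F : R[X]) (i : Fin (b + 1)) :
    (comp (b + 1) F ^ (b + 1)) i ⟨0, b.succ_pos⟩ = -F.coeff i := by
  simp only [pow_succ', Matrix.mul_apply, pow_comp F b.succ_pos b b.lt_succ_self, mul_ite, mul_one,
    mul_zero, Finset.sum_ite_eq', Finset.mem_univ, if_true]
  simp [comp]

theorem char_comp {R : Type} [CommRing R] {b : ℕ} (F : R[X]) (hF : F.Monic)
    (hb : F.natDegree = b) : (comp b F).charpoly = F := by
  nontriviality R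
  have hd : (comp b F).charpoly.natDegree = b := by
    rw [Matrix.charpoly_natDegree_eq_dim, Fintype.card_fin]
  have h1 : (comp b F).charpoly.coeff b = 1 := by
    have := (comp b F).charpoly_monic.coeff_natDegree
    rwa [hd] at this
  ext i
  rcases lt_trichotomy i b with h | rfl | h
  · obtain ⟨b, rfl⟩ : ∃ c, b = c + 1 := ⟨b - 1, by omega⟩
    have := congrFun (congrFun (comp (b + 1) F).aeval_self_charpoly ⟨i, h⟩) ⟨0, b.succ_pos⟩
    rw [aeval_eq_sum_range, hd, Finset.sum_range_succ, h1, one_smul, Matrix.add_apply, last_comp,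
      Matrix.sum_apply, Finset.sum_eq_single i, Matrix.smul_apply, pow_comp F _ i h] at this
    · simpa [add_neg_eq_zero] using this
    · intro j hj hji
      rw [Matrix.smul_apply, pow_comp F _ j (Finset.mem_range.1 hj),
        if_neg fun e => hji (congrArg Fin.val e).symm, smul_zero]
    · exact fun e => (e (Finset.mem_range.2 h)).elim
  · rw [h1, ← hb, hF.coeff_natDegree]
  · rw [coeff_eq_zero_of_natDegree_lt (hd.trans_lt h), coeff_eq_zero_of_natDegree_lt (hb.trans_lt h)]

theorem p_COMP (hNEWT : S_NEWT) :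
    S_COMP := by
  intro R _ b M
  refine ⟨fun F hF hb => char_comp F hF hb, fun k => ?_⟩
  rcases subsingleton_or_nontrivial R with _ | _
  · exact Subsingleton.elim _ _
  have hd : M.charpoly.natDegree = b := by rw [Matrix.charpoly_natDegree_eq_dim, Fintype.card_fin]
  have h1 : M.charpoly.coeff b = 1 := by
    have := M.charpoly_monic.coeff_natDegree
    rwa [hd] at this
  induction k using Nat.strong_induction_on with
  | _ k ih =>
    rcases k with _ | k
    · rw [pow_zero, pow_zero]
    · have a1 := hNEWT R b M (k + 1)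
      have a2 := hNEWT R b (comp b M.charpoly) (k + 1)
      rw [char_comp _ M.charpoly_monic hd, Finset.sum_range_succ',
        Finset.sum_congr rfl fun i _ => by rw [ih (k + 1 - (i + 1)) (by omega)]] at a2
      rw [Finset.sum_range_succ'] at a1
      simp only [Nat.zero_le, if_true, Nat.sub_zero, h1, one_mul] at a1 a2
      linear_combination a2 - a1

end Pool.Agent.P.MP_ab0431_ag.UB

namespace Pool.Agent.P.MP_ab0431_ag.UB

open Polynomial Set Filter Topology

theorem mul_wdet {R : Type} [CommRing R] {p q : R[X]} {t u : ℤ}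
    (hp : ∀ n : ℕ, t < n → p.coeff n = 0) (hq : ∀ n : ℕ, u < n → q.coeff n = 0) :
    (∀ n : ℕ, t + u < n → (p * q).coeff n = 0) ∧
      (if 0 ≤ t + u then (p * q).coeff (t + u).toNat else 0) =
        (if 0 ≤ t then p.coeff t.toNat else 0) * if 0 ≤ u then q.coeff u.toNat else 0 := by
  have z : ∀ a b : ℕ, t < a ∨ u < b → p.coeff a * q.coeff b = 0 := fun a b h =>
    h.elim (fun h => by rw [hp a h, zero_mul]) fun h => by rw [hq b h, mul_zero]
  refine ⟨fun n hn => ?_, ?_⟩
  · rw [coeff_mul]
    refine Finset.sum_eq_zero fun x hx => z _ _ ?_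
    rw [Finset.HasAntidiagonal.mem_antidiagonal] at hx
    omega
  by_cases h1 : 0 ≤ t
  swap
  · obtain rfl : p = 0 := Polynomial.ext fun n => hp n (by omega)
    simp
  by_cases h2 : 0 ≤ u
  swap
  · obtain rfl : q = 0 := Polynomial.ext fun n => hq n (by omega)
    simp
  rw [if_pos h1, if_pos h2, if_pos (add_nonneg h1 h2), coeff_mul,
    Finset.sum_eq_single (t.toNat, u.toNat)]
  · intro x hx hne
    rw [Finset.HasAntidiagonal.mem_antidiagonal] at hx
    refine z _ _ (by_contra fun h => hne (Prod.ext ?_ ?_)) <;> simp only <;> omega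
  · intro h
    exact absurd (Finset.HasAntidiagonal.mem_antidiagonal.2 (by simp only; omega)) h

theorem prod_wdet {R ι : Type} [CommRing R] (p : ι → R[X]) (t : ι → ℤ)
    (hp : ∀ i (n : ℕ), t i < n → (p i).coeff n = 0) (S : Finset ι) :
    (∀ n : ℕ, ∑ i ∈ S, t i < n → (∏ i ∈ S, p i).coeff n = 0) ∧
      (if 0 ≤ ∑ i ∈ S, t i then (∏ i ∈ S, p i).coeff (∑ i ∈ S, t i).toNat else 0) =
        ∏ i ∈ S, if 0 ≤ t i then (p i).coeff (t i).toNat else 0 := by
  induction S using Finset.cons_induction with
  | empty =>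
    refine ⟨fun n hn => ?_, by simp⟩
    rw [Finset.sum_empty] at hn
    rw [Finset.prod_empty, coeff_one, if_neg (by omega)]
  | cons a S ha ih =>
    simp only [Finset.sum_cons, Finset.prod_cons]
    rw [← ih.2]
    exact mul_wdet (hp a) ih.1

theorem p_WDET :
    S_WDET := by
  intro R _ ι _ _ M r s h
  have e : ∀ σ : Equiv.Perm ι, ∑ i, (r (σ i) + s i) = ∑ i, (r i + s i) := fun σ => by
    rw [Finset.sum_add_distrib, Finset.sum_add_distrib, Equiv.sum_comp σ r]
  have k := fun σ : Equiv.Perm ι =>
    prod_wdet (fun i => M (σ i) i) (fun i => r (σ i) + s i) (fun i => h _ _) Finset.univ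
  have c : ∀ n, M.det.coeff n =
      ∑ σ : Equiv.Perm ι, Equiv.Perm.sign σ • (∏ i, M (σ i) i).coeff n := fun n => by
    rw [Matrix.det_apply, finsetSum_coeff]
    exact Finset.sum_congr rfl fun σ _ => map_zsmul (lcoeff R n) _ _
  refine ⟨fun n hn => ?_, fun n hn => ?_⟩
  · rw [c]
    exact Finset.sum_eq_zero fun σ _ => by rw [(k σ).1 n (by rwa [e]), smul_zero]
  · rw [c, Matrix.det_apply]
    refine Finset.sum_congr rfl fun σ _ => congrArg _ ?_
    have := (k σ).2
    rw [e, hn, if_pos (Int.natCast_nonneg n), Int.toNat_natCast] at this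
    exact this

end Pool.Agent.P.MP_ab0431_ag.UB

namespace Pool.Agent.P.MP_ab0431_ag.UB

open Polynomial Set Filter Topology

theorem p_TOP (hNEWT : S_NEWT) (hCOMP : S_COMP) (hWDET : S_WDET) :
    S_TOP := by
  intro R _ b m F h1 h2 h3
  rcases subsingleton_or_nontrivial R with hR | hR
  · exact ⟨fun _ _ => Subsingleton.elim _ _, Subsingleton.elim _ _⟩
  have t1 : ∀ j, (top b m F).coeff j = if j ≤ b then (F.coeff j).coeff (m * (b - j)) else 0 :=
    fun j => by simp [top, coeff_monomial]
  have f1 : F.coeff b = 1 := h2 ▸ h1.coeff_natDegree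
  have t2 : (top b m F).coeff b = 1 := by simp [t1, f1]
  have t3 : (top b m F).natDegree ≤ b :=
    natDegree_le_iff_coeff_eq_zero.2 fun j hj => by rw [t1, if_neg hj.not_ge]
  have g : ∀ i, (if i ≤ b then F.coeff (b - i) else 0).natDegree ≤ m * i ∧
      (if i ≤ b then F.coeff (b - i) else 0).coeff (m * i) =
        if i ≤ b then (top b m F).coeff (b - i) else 0 := fun i => by
    split_ifs with e
    · rw [t1, if_pos (Nat.sub_le _ _), Nat.sub_sub_self e]
      exact ⟨natDegree_le_iff_coeff_eq_zero.2 fun n hn => h3 _ n (by rwa [Nat.sub_sub_self e]), rfl⟩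
    · simp
  have key : ∀ k, (comp b F ^ k).trace.natDegree ≤ m * k ∧
      (comp b F ^ k).trace.coeff (m * k) = (comp b (top b m F) ^ k).trace := fun k => by
    induction k using Nat.strong_induction_on with
    | _ k ih =>
      rcases k with _ | k
      · simp
      have n1 := hNEWT _ b (comp b F) (k + 1)
      have n2 := hNEWT _ b (comp b (top b m F)) (k + 1)
      rw [(hCOMP _ b 0).1 F h1 h2] at n1
      rw [(hCOMP _ b 0).1 _ (monic_of_natDegree_le_of_coeff_eq_one b t3 t2)
        (natDegree_eq_of_le_of_coeff_ne_zero t3 (t2 ▸ one_ne_zero))] at n2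
      rw [Finset.sum_range_succ', if_pos b.zero_le, Nat.sub_zero, Nat.sub_zero, add_right_comm,
        add_eq_zero_iff_neg_eq] at n1 n2
      rw [f1, one_mul] at n1
      rw [t2, one_mul] at n2
      have e : ∀ i ∈ Finset.range k, m * (k + 1) = m * (i + 1) + m * (k + 1 - (i + 1)) :=
        fun i hi => by rw [← mul_add, Nat.add_sub_cancel' (by simpa using (Finset.mem_range.1 hi).le)]
      rw [← n1, ← n2, natDegree_neg, coeff_neg, coeff_add, finsetSum_coeff, ← C_eq_natCast,
        coeff_C_mul, (g _).2]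
      refine ⟨natDegree_add_le_of_degree_le (natDegree_sum_le_of_forall_le _ _ fun i hi => ?_)
        ((natDegree_C_mul_le _ _).trans (g _).1), ?_⟩
      · exact e i hi ▸ natDegree_mul_le_of_le (g _).1 (ih _ (by omega)).1
      · rw [Finset.sum_congr rfl fun i hi => by
          rw [e i hi, coeff_mul_add_eq_of_natDegree_le (g _).1 (ih _ (by omega)).1, (g _).2,
            (ih _ (by omega)).2]]
  have e : ∀ i j : Fin b, (m * (i : ℕ) : ℤ) + m * (j : ℕ) = (m * ((i : ℕ) + j) : ℕ) := fun i j => by
    push_cast; ring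
  obtain ⟨w1, w2⟩ := hWDET R (Fin b) (.of fun i j => (comp b F ^ ((i : ℕ) + j)).trace)
    (fun i => m * (i : ℕ)) (fun i => m * (i : ℕ)) fun i j n hn => coeff_eq_zero_of_natDegree_lt
      ((key _).1.trans_lt (by rw [e] at hn; exact_mod_cast hn))
  have s : ∑ i : Fin b, ((m * (i : ℕ) : ℤ) + m * (i : ℕ)) = (m * (b * (b - 1)) : ℕ) := by
    rw [← Finset.sum_range_id_mul_two, Finset.sum_range]
    push_cast
    rw [Finset.sum_mul, Finset.mul_sum]
    exact Finset.sum_congr rfl fun _ _ => by ring
  refine ⟨fun n hn => w1 n (by rw [s]; exact_mod_cast hn), (w2 _ s).trans ?_⟩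
  rw [Δ]
  congr 1
  ext i j
  simp only [Matrix.of_apply, e, Int.toNat_natCast, Nat.cast_nonneg, if_true, (key _).2]

end Pool.Agent.P.MP_ab0431_ag.UB

namespace Pool.Agent.P.MP_ab0431_ag.UB

open Polynomial Set Filter Topology

theorem gram_disc {R : Type} [CommRing R] {b : ℕ} (D : Str R b) (y : Fin b → D.A) :
    (Matrix.of fun i j => D.tr (y i * y j)) =
      (Matrix.of fun i j => y i j) * D.T * (Matrix.of fun i j => y i j).transpose := by
  ext i j
  have h : y i * y j = ∑ k, ∑ l, (y i k * y j l) • (D.e k * D.e l) := by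
    conv_lhs => rw [← D.sum_e (y i), ← D.sum_e (y j)]
    rw [Finset.sum_mul_sum]
    refine Finset.sum_congr rfl fun k _ => Finset.sum_congr rfl fun l _ => ?_
    rw [smul_mul_smul_comm]
  rw [Matrix.of_apply, h]
  simp only [map_sum, map_smul, smul_eq_mul, Matrix.mul_apply, Matrix.of_apply,
    Matrix.transpose_apply, Str.T, Finset.sum_mul]
  rw [Finset.sum_comm]
  exact Finset.sum_congr rfl fun l _ => Finset.sum_congr rfl fun k _ => by ring

theorem det_disc {R : Type} [CommRing R] {b : ℕ} (D : Str R b) (y : Fin b → D.A) :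
    (Matrix.of fun i j => D.tr (y i * y j)).det =
      (Matrix.of fun i j => y i j).det ^ 2 * D.disc := by
  rw [gram_disc, Matrix.det_mul, Matrix.det_mul, Matrix.det_transpose, Str.disc]
  ring

theorem p_DISC (hCOMP : S_COMP) :
    S_DISC := by
  intro R _ b
  refine ⟨fun D o => ?_, fun D y => det_disc D y, fun z => ?_⟩
  · have h := det_disc D fun j => o ^ (j : ℕ)
    rw [Str.N, ← h, Δ]
    congr 1
    ext i j
    rw [Matrix.of_apply, Matrix.of_apply, Str.ch, (hCOMP R b _).2, ← pow_add, Str.tr_apply, map_pow]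
  · have h1 : (∏ i, (X - C (z i)) : R[X]) = (Matrix.diagonal z).charpoly := by
      rw [Matrix.charpoly_diagonal]
    have h2 : (Matrix.of fun i j : Fin b =>
        (comp b (Matrix.diagonal z).charpoly ^ ((i : ℕ) + j)).trace) =
        (Matrix.vandermonde z).transpose * Matrix.vandermonde z := by
      ext i j
      rw [Matrix.of_apply, (hCOMP R b _).2, Matrix.diagonal_pow, Matrix.trace_diagonal, Matrix.mul_apply]
      refine Finset.sum_congr rfl fun k _ => ?_
      rw [Matrix.transpose_apply, Matrix.vandermonde_apply, Matrix.vandermonde_apply,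
        Pi.pow_apply, pow_add]
    rw [h1, Δ, h2, Matrix.det_mul, Matrix.det_transpose, sq]

end Pool.Agent.P.MP_ab0431_ag.UB

namespace Pool.Agent.P.MP_ab0431_ag.UB

open Polynomial Set Filter Topology

theorem p_DSEP (hDISC : S_DISC) :
    S_DSEP := by
  intro K _ b F hm hb
  set φ := algebraMap K (AlgebraicClosure K) with hφ
  have hs : (F.map φ).Splits := IsAlgClosed.splits _
  have hm' : (F.map φ).Monic := hm.map φ
  have hc : (F.map φ).roots.toList.length = b := by
    rw [Multiset.length_toList, ← hs.natDegree_eq_card_roots, hm.natDegree_map, hb]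
  set z : Fin b → AlgebraicClosure K := fun i => (F.map φ).roots.toList[(i : ℕ)]'(hc ▸ i.2)
    with hz
  have hF : F.map φ = ∏ i, (X - C (z i)) := by
    have h1 : List.ofFn z = (F.map φ).roots.toList := by
      apply List.ext_getElem
      · simp only [List.length_ofFn, hc]
      · intro i h1 h2; simp [hz]
    rw [← List.prod_ofFn, show (List.ofFn fun i => X - C (z i)) =
      (List.ofFn z).map (fun a => X - C a) from by rw [List.map_ofFn]; rfl, h1,
      Multiset.prod_map_toList]
    exact hs.eq_prod_roots_of_monic hm'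
  rw [← separable_map φ, ← map_ne_zero_iff φ φ.injective, ← Δ_map, hF, (hDISC _ b).2.2 z,
    separable_prod_X_sub_C_iff, pow_ne_zero_iff two_ne_zero, Matrix.det_vandermonde_ne_zero_iff]

end Pool.Agent.P.MP_ab0431_ag.UB

namespace Pool.Agent.P.MP_ab0431_ag.UB

open Polynomial Set Filter Topology

section
variable {S A : Type} [CommRing S] [CommRing A] [Algebra S A] {b : ℕ}
  (β : Module.Basis (Fin b) S A)

theorem key_powb (x y : A) (l : Fin b) :
    ∑ m, β.repr x m * β.repr (β m * y) l = β.repr (x * y) l := by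
  conv_rhs => rw [← β.sum_repr x, Finset.sum_mul, map_sum, Finsupp.finsetSum_apply]
  simp

/-- The structure constants of a basis. -/
noncomputable def ofBas_powb : Str S b where
  γ i j l := β.repr (β i * β j) l
  u l := β.repr 1 l
  comm i j := by simp only [mul_comm (β i)]
  assoc i j k l := by
    rw [key_powb]
    simp only [mul_comm (β i), key_powb]
    congr 2; ring
  one j l := by
    rw [key_powb, one_mul, β.repr_self, Finsupp.single_apply]

/-- The coordinates. -/
noncomputable def hom_powb : A →ₐ[S] (ofBas_powb β).A :=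
  AlgHom.ofLinearMap β.equivFun.toLinearMap rfl fun x y => funext fun l => by
    change β.repr (x * y) l = ∑ i, ∑ j, β.repr x i * β.repr y j * β.repr (β i * β j) l
    simp only [mul_assoc, ← Finset.mul_sum]
    rw [← key_powb]
    refine Finset.sum_congr rfl fun i _ => ?_
    rw [mul_comm (β i), ← key_powb]
    simp only [mul_comm (β i)]

theorem hom_apply_powb (x : A) (l : Fin b) : hom_powb β x l = β.repr x l := rfl

end

theorem deg_powb {K A : Type} [Field K] [CommRing A] [Algebra K[X] A] {b m : ℕ}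
    (β : Module.Basis (Fin b) K[X] A) (ρ : A) (hβ : ∀ i, β i = ρ ^ (i : ℕ)) {F : K[X][X]}
    (h1 : F.Monic) (h2 : F.natDegree = b) (h3 : WD b m F) (h0 : aeval ρ F = 0) (N : ℕ) :
    ∀ (l : Fin b) (n : ℕ), m * N < n + m * l → (β.repr (ρ ^ N) l).coeff n = 0 := by
  have hs : ∀ (N : ℕ) (l : Fin b) (n : ℕ), N < b → m * N < n + m * l →
      (β.repr (ρ ^ N) l).coeff n = 0 := fun N l n hN h => by
    rw [← hβ ⟨N, hN⟩, β.repr_self, Finsupp.single_apply]
    split_ifs with e
    · subst e
      rw [coeff_one, if_neg (by dsimp only at h; omega)]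
    · exact coeff_zero _
  have hb : ρ ^ b = ∑ i : Fin b, (-F.coeff i) • β i := by
    rw [aeval_eq_sum_range, Finset.sum_range_succ, h1.coeff_natDegree, one_smul, h2,
      Finset.sum_range] at h0
    simp only [neg_smul, Finset.sum_neg_distrib, hβ]
    exact eq_neg_of_add_eq_zero_right h0
  induction N with
  | zero => exact fun l n => hs 0 l n l.pos
  | succ N ih =>
    intro l n h
    rw [pow_succ, ← key_powb, finsetSum_coeff]
    refine Finset.sum_eq_zero fun j _ => ?_
    rw [coeff_mul]
    refine Finset.sum_eq_zero fun p hp => ?_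
    rw [Finset.HasAntidiagonal.mem_antidiagonal] at hp
    by_cases hc : m * N < p.1 + m * j
    · rw [ih j p.1 hc, zero_mul]
    · have h4 : m * (j + 1) < p.2 + m * l := by
        rw [mul_add] at h ⊢; omega
      rw [hβ, ← pow_succ]
      rcases (Nat.succ_le_of_lt j.2).lt_or_eq with e | e
      · rw [hs _ l _ e h4, mul_zero]
      · have e' : (j : ℕ) + 1 = b := e
        rw [e'] at h4
        have h5 := Nat.mul_le_mul_left m l.2.le
        rw [e', hb, β.repr_sum_self, coeff_neg, h3 l p.2 (by rw [Nat.mul_sub]; omega), neg_zero,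
          mul_zero]

theorem p_POWB (hCOMP : S_COMP) (hDISC : S_DISC) (hTOP : S_TOP) (hDSEP : S_DSEP) :
    S_POWB := by
  intro K _ b m F h1 h2 h3 h4
  let β : Module.Basis (Fin b) K[X] (AdjoinRoot F) :=
    (AdjoinRoot.powerBasis' h1).basis.reindex (finCongr h2)
  have hβ : ∀ i, β i = AdjoinRoot.root F ^ (i : ℕ) := fun i => by
    simp [β]
  have hd := deg_powb β _ hβ h1 h2 h3 (by rw [AdjoinRoot.aeval_eq, AdjoinRoot.mk_self])
  have ht : (top b m F).coeff b = 1 := by
    rw [top, finsetSum_coeff, Finset.sum_eq_single b, coeff_monomial, if_pos rfl, Nat.sub_self,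
      mul_zero, show F.coeff b = 1 from h2 ▸ h1.coeff_natDegree, coeff_one_zero]
    · exact fun j _ h => by rw [coeff_monomial, if_neg h]
    · simp
  have ht' : (top b m F).natDegree ≤ b :=
    natDegree_sum_le_of_forall_le _ _ fun j hj =>
      (natDegree_monomial_le _).trans (Nat.lt_succ_iff.1 (Finset.mem_range.1 hj))
  have hc : Δ b (top b m F) ≠ 0 := (hDSEP K b _ (monic_of_natDegree_le_of_coeff_eq_one b ht' ht)
    (natDegree_eq_of_le_of_coeff_ne_zero ht' (by rw [ht]; exact one_ne_zero))).2 h4
  have hw : 2 * ∑ i : Fin b, m * (i : ℕ) = m * (b * (b - 1)) := by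
    rw [← Finset.mul_sum, ← Finset.sum_range fun i => i, ← Finset.sum_range_id_mul_two]; ring
  have hz : (ofBas_powb β).ch (hom_powb β (AdjoinRoot.root F)) = F := by
    have := (ofBas_powb β).aeval_ch (hom_powb β (AdjoinRoot.root F))
    rw [aeval_algHom_apply, AdjoinRoot.aeval_eq] at this
    exact eq_of_monic_of_dvd_of_natDegree_le h1 (Str.ch_monic _ _)
      (AdjoinRoot.mk_eq_zero.1 (β.equivFun.injective (this.trans (map_zero _).symm)))
      (by rw [Str.ch_natDegree, h2])
  have hN : (ofBas_powb β).N (hom_powb β (AdjoinRoot.root F)) = 1 := by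
    ext1 j i
    rw [Str.N, Matrix.of_apply, ← map_pow, hom_apply_powb, ← hβ, β.repr_self, Finsupp.single_apply,
      Matrix.one_apply]
  obtain ⟨t1, t2⟩ := hTOP K b m F h1 h2 h3
  refine ⟨⟨ofBas_powb β, fun j => m * j, fun i j l n h => ?_, fun i n h => ?_, Units.mk0 _ hc,
    C (Δ b (top b m F))⁻¹ * Δ b F, ?_, fun n h => ?_, ?_⟩, _, fun _ => rfl, hz, hN⟩
  · change (β.repr (β i * β j) l).coeff n = 0
    rw [hβ, hβ, ← pow_add]
    exact hd _ l n (by rwa [mul_add])
  · exact hd 0 i n h
  · rw [hw, coeff_C_mul, t2, inv_mul_cancel₀ hc]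
  · rw [coeff_C_mul, t1 n (hw ▸ h), mul_zero]
  · have := (hDISC K[X] b).1 (ofBas_powb β) (hom_powb β (AdjoinRoot.root F))
    rw [hz, hN, Matrix.det_one, one_pow, one_mul] at this
    rw [← this, Units.val_mk0, ← mul_assoc, ← C_mul, mul_inv_cancel₀ hc, C_1, one_mul]

end Pool.Agent.P.MP_ab0431_ag.UB

namespace Pool.Agent.P.MP_ab0431_ag.UB

open Polynomial Set Filter Topology

section
variable {R : Type} [CommRing R] {r s : ℤ} {p q : R[X]} {b : ℕ}

/-- No coefficient above `r`. -/
def bd_tup (r : ℤ) (p : R[X]) : Prop := ∀ n : ℕ, r < n → p.coeff n = 0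

/-- The coefficient in degree `r`. -/
noncomputable def tc_tup (r : ℤ) : R[X] →+ R where
  toFun p := if 0 ≤ r then p.coeff r.toNat else 0
  map_zero' := by simp
  map_add' p q := by split_ifs <;> simp

theorem tc_eq_tup (r : ℤ) (p : R[X]) : tc_tup r p = if 0 ≤ r then p.coeff r.toNat else 0 := rfl

theorem mul_tup (hp : bd_tup r p) (hq : bd_tup s q) {t : ℤ} (e : t = r + s) :
    bd_tup t (p * q) ∧ tc_tup t (p * q) = tc_tup r p * tc_tup s q := by
  subst e
  rcases lt_or_ge r 0 with h | h
  · obtain rfl : p = 0 := Polynomial.ext fun n => hp n (by omega)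
    simp [bd_tup]
  rcases lt_or_ge s 0 with h' | h'
  · obtain rfl : q = 0 := Polynomial.ext fun n => hq n (by omega)
    simp [bd_tup]
  lift r to ℕ using h
  lift s to ℕ using h'
  have h1 : p.natDegree ≤ r := natDegree_le_iff_coeff_eq_zero.2 fun n hn => hp n (by omega)
  have h2 : q.natDegree ≤ s := natDegree_le_iff_coeff_eq_zero.2 fun n hn => hq n (by omega)
  refine ⟨fun n hn => coeff_eq_zero_of_natDegree_lt (natDegree_mul_le.trans_lt (by omega)), ?_⟩
  rw [tc_eq_tup, tc_eq_tup, tc_eq_tup, if_pos (by omega), if_pos (by omega), if_pos (by omega),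
    ← Nat.cast_add, Int.toNat_natCast, Int.toNat_natCast, Int.toNat_natCast,
    coeff_mul_add_eq_of_natDegree_le h1 h2]

theorem sum_tup {ι : Type} (S : Finset ι) {f : ι → R[X]} (h : ∀ i, bd_tup r (f i)) :
    bd_tup r (∑ i ∈ S, f i) := fun n hn => by
  rw [finsetSum_coeff]
  exact Finset.sum_eq_zero fun i _ => h i n hn

theorem ite_tup {ι : Type} [DecidableEq ι] (a : ι → ℤ) (j l : ι) :
    bd_tup (a j - a l) (if j = l then (1 : R[X]) else 0) ∧
      tc_tup (a j - a l) (if j = l then (1 : R[X]) else 0) = if j = l then 1 else 0 := by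
  split_ifs with h
  · subst h
    exact ⟨fun n hn => by rw [coeff_one, if_neg (by omega)], by simp [tc_eq_tup]⟩
  · simp [bd_tup]

variable (D : Dat R b)

theorem ga_tup (i j l : Fin b) : bd_tup ((D.a i : ℤ) + D.a j - D.a l) (D.γ i j l) :=
  fun n hn => D.dγ i j l n (by omega)

theorem deg_tup {n : ℕ} {o : D.A} : D.Deg n o ↔ ∀ i, bd_tup ((n : ℤ) - D.a i) (o i) :=
  forall_congr' fun i => forall_congr' fun k => imp_congr_left (by omega)

theorem tp_tup (n : ℕ) (o : D.A) (i : Fin b) : D.tp n o i = tc_tup ((n : ℤ) - D.a i) (o i) := by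
  rw [Dat.tp, tc_eq_tup, Int.toNat_sub]
  exact if_congr (by omega) rfl rfl

/-- The algebra of top forms. -/
noncomputable def dt_tup : Str R b where
  γ i j l := tc_tup ((D.a i : ℤ) + D.a j - D.a l) (D.γ i j l)
  u := D.tp 0 1
  comm i j := funext fun l => by rw [D.comm, add_comm]
  assoc i j k l := by
    have := congrArg (tc_tup ((D.a i : ℤ) + D.a j + D.a k - D.a l)) (D.assoc i j k l)
    rw [map_sum, map_sum] at this
    refine Eq.trans ?_ (this.trans ?_) <;> refine Finset.sum_congr rfl fun m _ => ?_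
    · exact (mul_tup (ga_tup D _ _ _) (ga_tup D _ _ _) (by ring)).2.symm
    · exact (mul_tup (ga_tup D _ _ _) (ga_tup D _ _ _) (by ring)).2
  one j l := by
    have := congrArg (tc_tup ((D.a j : ℤ) - D.a l)) (D.one j l)
    rw [map_sum, (ite_tup (fun i => (D.a i : ℤ)) j l).2] at this
    refine Eq.trans (Finset.sum_congr rfl fun m _ => ?_) this
    rw [tp_tup]
    exact (mul_tup ((deg_tup D).1 D.d1 m) (ga_tup D _ _ _) (by push_cast; ring)).2.symm

theorem pr_tup {n n' : ℕ} {o o' : D.A} (h : D.Deg n o) (h' : D.Deg n' o') :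
    D.Deg (n + n') (o * o') ∧ D.tp (n + n') (o * o') =
      HMul.hMul (α := (dt_tup D).A) (β := (dt_tup D).A) (D.tp n o) (D.tp n' o') := by
  have k := fun i j l => mul_tup (t := ((n + n' : ℕ) : ℤ) - D.a l) (mul_tup ((deg_tup D).1 h i)
    ((deg_tup D).1 h' j) rfl).1 (ga_tup D i j l) (by push_cast; ring)
  refine ⟨(deg_tup D).2 fun l => sum_tup _ fun i => sum_tup _ fun j => (k i j l).1,
    funext fun l => ?_⟩
  rw [tp_tup, Str.mul_apply, map_sum]
  refine Finset.sum_congr rfl fun i _ => ?_
  rw [map_sum]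
  refine Finset.sum_congr rfl fun j _ => ?_
  rw [(k i j l).2, (mul_tup ((deg_tup D).1 h i) ((deg_tup D).1 h' j) rfl).2, tp_tup, tp_tup]
  rfl

theorem L_tup {n : ℕ} {o : D.A} (h : D.Deg n o) (l j : Fin b) :
    bd_tup ((n : ℤ) - D.a l + D.a j) (D.L o l j) ∧
      tc_tup ((n : ℤ) - D.a l + D.a j) (D.L o l j) = (dt_tup D).L (D.tp n o) l j := by
  have k := fun i => mul_tup (t := (n : ℤ) - D.a l + D.a j) ((deg_tup D).1 h i) (ga_tup D i j l)
    (by ring)
  rw [Str.L_apply, map_sum]
  exact ⟨sum_tup _ fun i => (k i).1, (Finset.sum_congr rfl fun i _ => by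
    rw [(k i).2, ← tp_tup]; rfl).trans ((dt_tup D).L_apply _ l j).symm⟩

theorem T_tup (i j : Fin b) : bd_tup ((D.a i : ℤ) + D.a j) (D.T i j) ∧
    tc_tup ((D.a i : ℤ) + D.a j) (D.T i j) = (dt_tup D).T i j := by
  have h : D.Deg (D.a i + D.a j) (D.γ i j) := D.dγ i j
  have e : D.tp (D.a i + D.a j) (D.γ i j) = (dt_tup D).γ i j := funext fun l =>
    (tp_tup D _ _ l).trans (by rw [Nat.cast_add]; rfl)
  have k := fun l => L_tup D h l l
  simp only [sub_add_cancel, Nat.cast_add, e] at k
  simp only [Str.T, Matrix.of_apply, Str.e_mul_e]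
  exact ⟨sum_tup Finset.univ fun l => (k l).1,
    (map_sum _ _ Finset.univ).trans (Finset.sum_congr rfl fun l _ => (k l).2)⟩

theorem ev_tup (n m j : ℕ) (F : R[X][X]) :
    ((eval₂RingHom (mapRingHom C) (X ^ n * C X : R[X][X]) F).coeff (m + n * j)).coeff j =
      (F.coeff j).coeff m := by
  induction F using Polynomial.induction_on' with
  | add p q hp hq => simp only [map_add, coeff_add, hp, hq]
  | monomial k p =>
    rw [coe_eval₂RingHom, eval₂_monomial, mul_pow, ← pow_mul, ← C_pow, ← mul_assoc, coeff_mul_C,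
      coeff_mul_X_pow' _ (n * k), coeff_monomial, coe_mapRingHom, coeff_map]
    by_cases h : k = j
    · subst h
      simp
    · rw [if_neg h]
      split_ifs <;> simp [coeff_X_pow, Ne.symm h]

end

theorem p_TUP (hWDET : S_WDET) :
    S_TUP := by
  intro R _ b D
  have hw : ∑ i, ((D.a i : ℤ) + D.a i) = D.w := by
    rw [Dat.w, Finset.sum_add_distrib]; push_cast; ring
  refine ⟨dt_tup D, ?_, D.d1, rfl, fun n n' o o' => pr_tup D, fun n o h => ?_, fun l i k hk => ?_⟩
  · have := (hWDET R _ D.T (fun i => D.a i) (fun i => D.a i) fun i j => (T_tup D i j).1).2 _ hw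
    rw [← Str.disc, D.hd, coeff_C_mul, Dat.w, D.P1, mul_one] at this
    rw [this, Str.disc]
    congr 1
    ext i j
    exact (T_tup D i j).2.symm
  · let ψ := eval₂RingHom (mapRingHom C) (X ^ n * C X : R[X][X])
    have e : ∀ l j, (ψ.mapMatrix (D.L o).charmatrix) l j =
        (if l = j then 1 else 0) * (X ^ n * C X) - (D.L o l j).map C := fun l j => by
      simp [ψ, Matrix.charmatrix_apply, Matrix.diagonal_apply, apply_ite]
    have e1 : ∀ l j, bd_tup ((n : ℤ) - D.a l + D.a j)
        ((if l = j then 1 else 0) * (X ^ n * C X : R[X][X])) ∧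
        tc_tup ((n : ℤ) - D.a l + D.a j) ((if l = j then 1 else 0) * (X ^ n * C X : R[X][X])) =
          if l = j then X else 0 := fun l j => by
      split_ifs with h
      · subst h
        refine ⟨fun k hk => ?_, ?_⟩
        · rw [one_mul, coeff_mul_C, coeff_X_pow, if_neg (by omega), zero_mul]
        · simp [tc_eq_tup]
      · simp [bd_tup]
    have hs : ∑ l, ((n : ℤ) - D.a l + D.a l) = (n * b : ℕ) := by simp [mul_comm]
    obtain ⟨h1, h2⟩ := hWDET R[X] _ (ψ.mapMatrix (D.L o).charmatrix) (fun l => n - D.a l)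
      (fun j => D.a j) fun l j k hk => by
        rw [e, coeff_sub, (e1 l j).1 k hk, coeff_map, (L_tup D h l j).1 k hk, map_zero, sub_zero]
    rw [← RingHom.map_det, hs] at h1 h2
    have h3 : (ψ (D.ch o)).coeff (n * b) = (dt_tup D).ch (D.tp n o) := by
      refine (h2 _ rfl).trans (congrArg Matrix.det (Matrix.ext fun l j => ?_))
      rw [Matrix.of_apply, ← tc_eq_tup, e, map_sub, (e1 l j).2, Matrix.charmatrix_apply,
        Matrix.diagonal_apply, ← (L_tup D h l j).2, tc_eq_tup, tc_eq_tup, coeff_map, apply_ite C,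
        map_zero]
    refine ⟨fun j k hk => ?_, ?_⟩
    · rw [← ev_tup n, show eval₂RingHom _ _ (D.ch o) = ψ (D.L o).charmatrix.det from rfl, h1 _ ?_,
        coeff_zero]
      have : n * b ≤ n * (b - j) + n * j := by rw [← mul_add]; exact Nat.mul_le_mul_left _ (by omega)
      omega
    · rcases subsingleton_or_nontrivial R with _ | _
      · exact Subsingleton.elim _ _
      ext j
      rw [top, finsetSum_coeff, Finset.sum_eq_single j (fun i _ hi => by
        rw [coeff_monomial, if_neg hi]) fun hj => by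
          rw [Finset.mem_range] at hj
          rw [coeff_eq_zero_of_natDegree_lt (p := D.ch o) (by rw [Str.ch_natDegree]; omega)]
          simp]
      rw [coeff_monomial, if_pos rfl]
      rcases le_or_gt j b with hj | hj
      · rw [← ev_tup n, ← mul_add, Nat.sub_add_cancel hj, ← h3]
      · rw [coeff_eq_zero_of_natDegree_lt (p := D.ch o) (by rw [Str.ch_natDegree]; omega),
          coeff_zero]
        exact (coeff_eq_zero_of_natDegree_lt (((dt_tup D).ch_natDegree _).trans_lt hj)).symm
  · rw [Str.du, Matrix.adjugate_apply]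
    refine (hWDET R _ _ (Function.update (fun i => D.a i) i (-D.a l)) (fun i => D.a i)
      fun i' j n hn => ?_).1 k ?_
    · by_cases h : i' = i
      · subst h
        rw [Function.update_self] at hn
        rw [Matrix.updateRow_self, Pi.single_apply]
        exact (ite_tup (fun i => (D.a i : ℤ)) j l).1 n (by omega)
      · rw [Function.update_of_ne h] at hn
        rw [Matrix.updateRow_ne h]
        exact (T_tup D i' j).1 n hn
    · rw [Finset.sum_add_distrib, Finset.sum_update_of_mem (Finset.mem_univ i),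
        Finset.sdiff_singleton_eq_erase, Finset.sum_erase_eq_sub (Finset.mem_univ i)]
      rw [Finset.sum_add_distrib] at hw
      omega

end Pool.Agent.P.MP_ab0431_ag.UB

namespace Pool.Agent.P.MP_ab0431_ag.UB

open Polynomial Set Filter Topology

theorem p_NIL :
    S_NIL := by
  intro R _ _ b D hD
  have h1 : ∀ o : D.A, (∀ y, D.tr (o * y) = 0) → o = 0 := by
    intro o ho
    refine Matrix.eq_zero_of_vecMul_eq_zero (M := D.T) hD (v := o) ?_
    funext j
    have := ho (D.e j)
    rw [← D.sum_e o, Finset.sum_mul, map_sum] at this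
    simp only [smul_mul_assoc, map_smul, smul_eq_mul] at this
    exact this
  refine ⟨h1, fun o ho => h1 o fun y => ?_⟩
  have h2 : IsNilpotent (o * y) := (Commute.all o y).isNilpotent_mul_right ho
  exact (Matrix.isNilpotent_trace_of_isNilpotent (h2.map D.L)).eq_zero

end Pool.Agent.P.MP_ab0431_ag.UB

namespace Pool.Agent.P.MP_ab0431_ag.UB

open Polynomial Set Filter Topology

theorem p_LV (hTUP : S_TUP) (hNIL : S_NIL) :
    S_LV := by
  intro K _ b n D o h
  obtain ⟨Dt, a1, -, -, -, a2, -⟩ := hTUP K b D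
  have step : ∀ k, D.Deg (n + k) o → D.Deg n o := fun k => by
    induction k with
    | zero => exact id
    | succ k ih =>
      refine fun hd => ih fun i t ht => ?_
      have e : top b (n + (k + 1)) (D.ch o) = X ^ b := by
        rw [top, Finset.sum_range_succ, Finset.sum_eq_zero fun j hj => by
          rw [h j _ (Nat.mul_lt_mul_of_pos_right (by omega)
            (Nat.sub_pos_of_lt (Finset.mem_range.1 hj))), map_zero], zero_add, Nat.sub_self,
          show (D.ch o).coeff b = 1 by
            simpa [Str.ch_natDegree] using (D.ch_monic o).coeff_natDegree, ← monomial_one_right_eq_X_pow]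
        simp
      have z := Dt.aeval_ch (D.tp (n + (k + 1)) o)
      rw [← (a2 _ o hd).2, e] at z
      have z' := congrFun ((hNIL K b Dt (a1 ▸ D.c.ne_zero)).2 _
        ⟨b, (aeval_X_pow _).symm.trans z⟩) i
      rcases (Nat.succ_le_of_lt ht).eq_or_lt with e | e
      · rw [Dat.tp, if_pos (by omega), show n + (k + 1) - D.a i = t by omega] at z'
        exact z'
      · exact hd i t e
  refine step (∑ i, ((o i).natDegree + D.a i)) fun i t ht => coeff_eq_zero_of_natDegree_lt ?_
  have := Finset.single_le_sum (f := fun i => (o i).natDegree + D.a i) (fun _ _ => Nat.zero_le _)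
    (Finset.mem_univ i)
  omega

end Pool.Agent.P.MP_ab0431_ag.UB

namespace Pool.Agent.P.MP_ab0431_ag.UB

open Polynomial Set Filter Topology

theorem smul_chs {R : Type} [CommRing R] {b : ℕ} (M : Matrix (Fin b) (Fin b) R) (g : R) (j : ℕ) :
    (g • M).charpoly.coeff j = g ^ (b - j) * M.charpoly.coeff j := by
  nontriviality R
  rcases le_or_gt j b with h | h
  · have e := fun N : Matrix (Fin b) (Fin b) R =>
      Matrix.charpoly_coeff_eq_sum_minors N (b - j) (by simp)
    simp only [Fintype.card_fin, Nat.sub_sub_self h] at e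
    rw [e, e, mul_left_comm, Finset.mul_sum _ _ (g ^ _)]
    congr 1
    refine Finset.sum_congr rfl fun s hs => ?_
    rw [Matrix.submatrix_smul, Pi.smul_apply, Pi.smul_apply, Matrix.det_smul, Fintype.card_coe,
      (Finset.mem_powersetCard.1 hs).2]
  · rw [coeff_eq_zero_of_natDegree_lt (by simpa using h),
      coeff_eq_zero_of_natDegree_lt (by simpa using h), mul_zero]

theorem tr_chs {R : Type} [CommRing R] {b : ℕ} (D : Str R b) (x y : D.A) :
    D.tr (x * y) = ∑ i, ∑ j, x i * D.T i j * y j := by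
  conv_lhs => rw [← D.sum_e x, ← D.sum_e y, Finset.sum_mul_sum]
  simp only [map_sum, smul_mul_smul_comm, map_smul, smul_eq_mul, Str.T, Matrix.of_apply,
    mul_right_comm]

theorem p_CHS :
    S_CHS := by
  intro R _ b D o
  refine ⟨fun g j => by rw [Str.ch, map_smul, smul_chs, Str.ch], fun h => ?_, fun l => ?_, ?_⟩
  · have : Nonempty (Fin b) := ⟨⟨0, h⟩⟩
    rw [Str.tr_apply, Matrix.trace_eq_neg_charpoly_coeff, Fintype.card_fin, Str.ch]
  · have := fun j => congrFun (congrFun (Matrix.adjugate_mul D.T) l) j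
    simp only [Matrix.mul_apply, Matrix.smul_apply, Matrix.one_apply] at this
    rw [tr_chs, Finset.sum_comm]
    simp [← Finset.sum_mul, Str.du, this, Str.disc]
  · ext k
    have := fun j => congrFun (congrFun (Matrix.mul_adjugate D.T) j) k
    simp only [Matrix.mul_apply, Matrix.smul_apply, Matrix.one_apply] at this
    have e : ∀ l, D.tr (o * D.e l) = ∑ i, o i * D.T i l := fun l => by
      simp [tr_chs, Str.e_apply]
    simp only [Str.sum_apply, Str.smul_apply, e, Finset.sum_mul, Str.du]
    rw [Finset.sum_comm]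
    simp only [mul_assoc, ← Finset.mul_sum, this]
    simp [Str.disc, mul_comm]

end Pool.Agent.P.MP_ab0431_ag.UB
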