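import Pool.Agent.P.MP_ab0431_ag.UB.IfaceO

/-! Steps CHI MAXI HOM RED NORM SPLIT CHP PINT PTS. -/

set_option autoImplicit false
set_option linter.unusedSectionVars false
set_option linter.unusedVariables false

namespace Pool.Agent.P.MP_ab0431_ag.UB

open Polynomial Set Filter Topology

theorem p_CHI :
    S_CHI := by
  intro R K _ _ _ b M f hf h j
  let L := AlgebraicClosure K
  rw [← isIntegral_algebraMap_iff (B := L) (algebraMap K L).injective, ← coeff_map,
    ← Matrix.charpoly_map]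
  refine isIntegral_coeff_of_factors _ ?_ (IsAlgClosed.splits _) (fun x hx => ?_) j
  · rw [(Matrix.charpoly_monic _).leadingCoeff]; exact isIntegral_one
  · have h1 := Matrix.mem_spectrum_iff_isRoot_charpoly.2 hx
    have h2 := spectrum.subset_polynomial_aeval _ (f.map (algebraMap R L)) ⟨x, h1, rfl⟩
    have h3 : aeval (M.map (algebraMap K L)) (f.map (algebraMap R L)) = 0 := by
      have := map_aeval_eq_aeval_map (φ := algebraMap K L) (ψ := (algebraMap K L).mapMatrix)
        (by ext1 a; simp [Matrix.algebraMap_eq_diagonal]) (f.map (algebraMap R K)) M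
      rwa [h, map_zero, Polynomial.map_map, ← IsScalarTower.algebraMap_eq, eq_comm] at this
    rw [h3] at h2
    refine ⟨f, hf, ?_⟩
    rw [eval₂_eq_eval_map]
    by_contra h4
    exact spectrum.mem_iff.1 h2 (by rw [sub_zero]; exact (IsUnit.mk0 _ h4).map _)

end Pool.Agent.P.MP_ab0431_ag.UB

namespace Pool.Agent.P.MP_ab0431_ag.UB

open Polynomial Set Filter Topology

theorem p_MAXI (hCHI : S_CHI) (hCHS : S_CHS) :
    S_MAXI := by
  intro K _ b D g o n α g0 h j
  let φ := algebraMap K[X] (FractionRing K[X])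
  have φi : Function.Injective φ := IsFractionRing.injective _ _
  have g1 : φ g ≠ 0 := (map_ne_zero_iff φ φi).2 g0
  let D' := D.map φ
  let _ : Algebra K[X] D'.A := ((algebraMap _ D'.A).comp φ).toAlgebra
  have : IsScalarTower K[X] (FractionRing K[X]) D'.A := .of_algebraMap_eq fun _ => rfl
  let _ : Algebra D.A D'.A := (D.mapA φ).toAlgebra
  have : IsScalarTower K[X] D.A D'.A := .of_algebraMap_eq fun c => by
    change algebraMap _ D'.A (φ c) = D.mapA φ (algebraMap _ _ c)
    rw [Algebra.algebraMap_eq_smul_one (φ c), Algebra.algebraMap_eq_smul_one (A := D.A) c,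
      D.mapA_smul, map_one]
  obtain ⟨y, hy⟩ : ∃ y : D'.A, φ g • y = D.mapA φ o :=
    ⟨(φ g)⁻¹ • D.mapA φ o, smul_inv_smul₀ g1 _⟩
  have i1 : IsIntegral D.A y := by
    refine ⟨X ^ n + ∑ j ∈ Finset.range n, C (α j) * X ^ j, monic_X_pow_add ((degree_sum_le _ _).trans_lt
      ((Finset.sup_lt_iff (WithBot.bot_lt_coe n)).2 fun j hj => (degree_C_mul_X_pow_le _ _).trans_lt
        (Nat.cast_lt.2 (Finset.mem_range.1 hj)))), ?_⟩
    have := congrArg (D.mapA φ) h
    simp only [map_add, map_sum, map_pow, D.mapA_smul, map_mul, map_zero, ← hy] at this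
    refine (smul_eq_zero_iff_right (pow_ne_zero n g1)).1 (Eq.trans ?_ this)
    simp only [eval₂_add, eval₂_finsetSum, eval₂_mul, eval₂_C, eval₂_X_pow, smul_add,
      Finset.smul_sum, _root_.smul_pow]
    congr 1
    refine Finset.sum_congr rfl fun j hj => ?_
    rw [mul_smul_comm, smul_smul, ← pow_add, Nat.sub_add_cancel (Finset.mem_range.1 hj).le]
    rfl
  obtain ⟨f, f1, f2⟩ : IsIntegral K[X] y := isIntegral_trans y i1
  have i2 := hCHI K[X] (FractionRing K[X]) b (D'.L y) f f1 (by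
    rw [aeval_algHom_apply, aeval_map_algebraMap, aeval_def, f2, map_zero]) j
  obtain ⟨c, hc⟩ := IsIntegrallyClosed.isIntegral_iff.1 i2
  refine ⟨c, φi ?_⟩
  rw [← coeff_map, ← D.ch_map, ← hy, (hCHS _ b D' y).1, map_mul, map_pow, hc]
  rfl

end Pool.Agent.P.MP_ab0431_ag.UB

namespace Pool.Agent.P.MP_ab0431_ag.UB

open Polynomial Set Filter Topology

theorem p_HOM :
    S_HOM := by
  intro R _ _ b D D' f hf o
  let U := LinearMap.toMatrix D.bas D'.bas f.toLinearMap
  have h1 : U.det ≠ 0 := fun h => by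
    obtain ⟨v, hv, e⟩ := Matrix.exists_mulVec_eq_zero_iff.2 h
    have e1 := LinearMap.toMatrix_mulVec_repr D.bas D'.bas f.toLinearMap (v : D.A)
    exact hv (hf (a₁ := v) (a₂ := 0) ((e1.symm.trans e).trans (map_zero f).symm))
  have h2 : D'.L (f o) * U = U * D.L o := by
    rw [Str.L, Str.L, Algebra.leftMulMatrix_apply, Algebra.leftMulMatrix_apply,
      ← LinearMap.toMatrix_comp, ← LinearMap.toMatrix_comp]
    exact congrArg _ (LinearMap.ext fun x => (map_mul f o x).symm)
  have h3 : (D'.L (f o)).charmatrix * U.map C = U.map C * (D.L o).charmatrix := by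
    simp only [Matrix.charmatrix, RingHom.mapMatrix_apply, Matrix.sub_mul, Matrix.mul_sub,
      ← Matrix.map_mul, h2, Matrix.scalar_commute (X : R[X]) (fun _ => Commute.all _ _) _ |>.eq]
  have h4 := congrArg Matrix.det h3
  rw [Matrix.det_mul, Matrix.det_mul, mul_comm (U.map C).det] at h4
  refine mul_right_cancel₀ ?_ h4
  rw [← RingHom.mapMatrix_apply, ← RingHom.map_det]
  exact C_ne_zero.2 h1

end Pool.Agent.P.MP_ab0431_ag.UB

namespace Pool.Agent.P.MP_ab0431_ag.UB

open Polynomial Set Filter Topology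

section
variable {K : Type} [Field K] {b : ℕ} (D : Dat K b)

theorem term_red {p : K[X]} {y : D.A} {d m : ℕ} (hp : ∀ k, m < k + d → p.coeff k = 0)
    (hy : D.Deg d y) (l : Fin b) (n : ℕ) (h : m ≤ n + D.a l) : (p * y l).coeff n =
      if n + D.a l = m then (if d ≤ m then p.coeff (m - d) else 0) * D.tp d y l else 0 := by
  rw [coeff_mul]
  have z : ∀ x : ℕ × ℕ, x ∈ Finset.HasAntidiagonal.antidiagonal n → ¬ (x.1 + d = m ∧ x.2 + D.a l = d) →
      p.coeff x.1 * (y l).coeff x.2 = 0 := fun x hx hn => by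
    rw [Finset.HasAntidiagonal.mem_antidiagonal] at hx
    by_cases h1 : m < x.1 + d
    · rw [hp _ h1, zero_mul]
    · rw [hy l x.2 (by omega), mul_zero]
  by_cases h1 : n + D.a l = m ∧ d ≤ m ∧ D.a l ≤ d
  · rw [if_pos h1.1, if_pos h1.2.1, Dat.tp, if_pos h1.2.2,
      Finset.sum_eq_single (m - d, d - D.a l) (fun x hx hn => z x hx fun h2 =>
        hn (Prod.ext (by dsimp only; omega) (by dsimp only; omega))) fun h2 =>
        (h2 (Finset.HasAntidiagonal.mem_antidiagonal.2 (by dsimp only; omega))).elim]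
  · rw [Finset.sum_eq_zero fun x hx => z x hx fun h2 => h1 (by
      rw [Finset.HasAntidiagonal.mem_antidiagonal] at hx; omega), Dat.tp]
    split_ifs <;> first | omega | simp

theorem sum_red {p : Fin b → K[X]} {y : Fin b → D.A} {d : Fin b → ℕ} {m : ℕ}
    (hp : ∀ i k, m < k + d i → (p i).coeff k = 0) (hy : ∀ i, D.Deg (d i) (y i)) (l : Fin b) (n : ℕ)
    (h : m ≤ n + D.a l) : ((∑ i, p i • y i) l).coeff n = if n + D.a l = m then
      Matrix.vecMul (fun i => if d i ≤ m then (p i).coeff (m - d i) else 0)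
        (Matrix.of fun i => D.tp (d i) (y i)) l else 0 := by
  simp only [Str.sum_apply, Str.smul_apply, finsetSum_coeff, term_red D (hp _) (hy _) l n h]
  split_ifs <;> simp [Matrix.vecMul, dotProduct]

theorem deg_red {p : Fin b → K[X]} {y : Fin b → D.A} {d : Fin b → ℕ} {n : ℕ}
    (hy : ∀ i, D.Deg (d i) (y i)) (h0 : (Matrix.of fun i => D.tp (d i) (y i)).det ≠ 0)
    (h : D.Deg n (∑ i, p i • y i)) : ∀ i k, n < k + d i → (p i).coeff k = 0 := by
  obtain ⟨m, hm, h1⟩ : ∃ m, n ≤ m ∧ ∀ i k, m < k + d i → (p i).coeff k = 0 :=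
    ⟨n + ∑ i, ((p i).natDegree + d i), by omega, fun i k hk => coeff_eq_zero_of_natDegree_lt (by
      have := Finset.single_le_sum (f := fun i => (p i).natDegree + d i) (fun _ _ => Nat.zero_le _)
        (Finset.mem_univ i)
      omega)⟩
  induction m, hm using Nat.le_induction with
  | base => exact h1
  | succ m hm ih =>
    refine ih fun i k hk => ?_
    by_cases h2 : m + 1 < k + d i
    · exact h1 i k h2
    have h3 := congrFun (Matrix.eq_zero_of_vecMul_eq_zero h0
      (v := fun i => if d i ≤ m + 1 then (p i).coeff (m + 1 - d i) else 0) (funext fun l => by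
        by_cases h4 : D.a l ≤ m + 1
        · have := sum_red D h1 hy l (m + 1 - D.a l) (by omega)
          rw [h l _ (by omega), if_pos (by omega)] at this
          exact this.symm
        · simp only [Matrix.vecMul, dotProduct, Pi.zero_apply]
          refine Finset.sum_eq_zero fun j _ => ?_
          simp only [Matrix.of_apply, Dat.tp]
          split_ifs <;> first | omega | simp)) i
    rwa [if_pos (by omega), show m + 1 - d i = k by omega] at h3

theorem basis_red {S : Submodule K[X] D.A} {G : K[X]} (hG : G ≠ 0) (h1 : ∀ o, G • o ∈ S) :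
    ∃ (y : Fin b → D.A) (d : Fin b → ℕ), Submodule.span K[X] (range y) = S ∧
      (Matrix.of fun i j => y i j).det ≠ 0 ∧ (∀ i, D.Deg (d i) (y i)) ∧
      (Matrix.of fun i => D.tp (d i) (y i)).det ≠ 0 := by
  classical
  have tf : Module.IsTorsionFree K[X] D.A := 
    inferInstanceAs (Module.IsTorsionFree K[X] (Fin b → K[X]))
  have hb : Module.finrank K[X] D.A = b := by simpa using Module.finrank_eq_card_basis D.bas
  have hr : Module.finrank K[X] S = b := le_antisymm (S.finrank_le.trans hb.le) (by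
    have := LinearMap.finrank_le_finrank_of_injective
      (f := (LinearMap.lsmul K[X] D.A G).codRestrict S h1) fun x y e =>
        smul_right_injective _ hG (congrArg Subtype.val e)
    rwa [hb] at this)
  have ex : ∃ N, ∃ (y : Fin b → D.A) (d : Fin b → ℕ), Submodule.span K[X] (range y) = S ∧
      (∀ i, D.Deg (d i) (y i)) ∧ ∑ i, d i = N := by
    let β := Module.finBasisOfFinrankEq K[X] S hr
    refine ⟨_, fun i => β i, fun i => ∑ l, (((β i : D.A) l).natDegree + D.a l), ?_,
      fun i l n hn => coeff_eq_zero_of_natDegree_lt (by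
        have := Finset.single_le_sum (f := fun l => ((β i : D.A) l).natDegree + D.a l)
          (fun _ _ => Nat.zero_le _) (Finset.mem_univ l)
        beta_reduce at hn this ⊢
        omega), rfl⟩
    rw [show (range fun i => (β i : D.A)) = S.subtype '' range β from range_comp _ _,
      Submodule.span_image, β.span_eq, Submodule.map_subtype_top]
  obtain ⟨y, d, hs, hd, hN⟩ := Nat.find_spec ex
  have hdet : (Matrix.of fun i j => y i j).det ≠ 0 := fun h => by
    have h2 : ∀ i, ∃ c : Fin b → K[X], ∑ j, c j • y j = G • D.e i := fun i =>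
      (Submodule.mem_span_range_iff_exists_fun _).1 (hs ▸ h1 _)
    choose c hc using h2
    have h3 : Matrix.of c * (Matrix.of fun i j => y i j) = G • 1 := by
      ext1 i j
      simpa [Matrix.mul_apply, Str.sum_apply, Str.smul_apply, Str.e_apply, Matrix.one_apply,
        eq_comm] using congrFun (hc i) j
    have h4 := congrArg Matrix.det h3
    rw [Matrix.det_mul, h, mul_zero, Matrix.det_smul, Matrix.det_one, mul_one] at h4
    exact pow_ne_zero _ hG h4.symm
  refine ⟨y, d, hs, hdet, hd, fun h => ?_⟩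
  obtain ⟨c, c0, hc⟩ := Matrix.exists_vecMul_eq_zero_iff.2 h
  obtain ⟨i, hi, hm⟩ := Finset.exists_max_image (Finset.univ.filter (c · ≠ 0)) d (by
    obtain ⟨j, hj⟩ := Function.ne_iff.1 c0
    exact ⟨j, by simpa using hj⟩)
  simp only [Finset.mem_filter, Finset.mem_univ, true_and] at hi hm
  set p : Fin b → K[X] := fun j => monomial (d i - d j) (c j) with hp
  have pi : p i = C (c i) := by simp [hp]
  have h2 : ∀ l n, d i ≤ n + D.a l → ((∑ j, p j • y j) l).coeff n = 0 := fun l n hn => by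
    rw [sum_red D (m := d i) (fun j k hk => by
      rw [hp, coeff_monomial]
      split_ifs with h3
      · by_contra h4
        have := hm j h4
        omega
      · rfl) hd l n hn, show (fun j => if d j ≤ d i then (p j).coeff (d i - d j) else 0) = c from
      funext fun j => by
        split_ifs with h3
        · simp [hp]
        · exact (by_contra fun h4 => h3 (hm j h4) : c j = 0).symm, hc]
    simp
  rcases Nat.eq_zero_or_pos (d i) with h3 | h3
  · have := congrFun (Matrix.eq_zero_of_vecMul_eq_zero hdet (v := p) (funext fun l => by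
      ext n
      simpa [Matrix.vecMul, dotProduct, Str.sum_apply, Str.smul_apply] using h2 l n (by omega))) i
    exact hi (by simpa [pi] using this)
  refine Nat.find_min ex (m := ∑ j, Function.update d i (d i - 1) j) ?_
    ⟨Function.update y i (∑ j, p j • y j), _, ?_, fun j => ?_, rfl⟩
  · rw [← hN, Finset.sum_update_of_mem (Finset.mem_univ i),
      ← Finset.add_sum_erase _ _ (Finset.mem_univ i), Finset.sdiff_singleton_eq_erase]
    omega
  · have my : ∀ j, y j ∈ S := fun j => hs ▸ Submodule.subset_span ⟨j, rfl⟩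
    refine le_antisymm (Submodule.span_le.2 ?_) (hs ▸ Submodule.span_le.2 ?_)
    · rintro _ ⟨j, rfl⟩
      by_cases h4 : j = i
      · rw [h4, Function.update_self]
        exact S.sum_mem fun k _ => S.smul_mem _ (my k)
      · rw [Function.update_of_ne h4]
        exact my j
    · have h5 : ∀ j, j ≠ i → y j ∈ Submodule.span K[X]
          (range (Function.update y i (∑ j, p j • y j))) := fun j h4 =>
        Submodule.subset_span ⟨j, Function.update_of_ne h4 _ _⟩
      rintro _ ⟨j, rfl⟩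
      by_cases h4 : j = i
      · rw [h4, show y i = C (c i)⁻¹ • (∑ j, p j • y j - ∑ j ∈ Finset.univ.erase i, p j • y j) by
          rw [← Finset.add_sum_erase _ _ (Finset.mem_univ i), add_sub_cancel_right, pi, smul_smul,
            ← C_mul, inv_mul_cancel₀ hi, C_1, one_smul]]
        exact Submodule.smul_mem _ _ (sub_mem (Submodule.subset_span ⟨i, Function.update_self ..⟩)
          (Submodule.sum_mem _ fun k hk =>
            Submodule.smul_mem _ _ (h5 k (Finset.ne_of_mem_erase hk))))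
      · exact h5 j h4
  · by_cases h4 : j = i
    · rw [h4, Function.update_self, Function.update_self]
      exact fun l n hn => h2 l n (by omega)
    · rw [Function.update_of_ne h4, Function.update_of_ne h4]
      exact hd j

theorem str_red {R : Type} [CommRing R] [IsDomain R] (D : Str R b) {G : R} (hG : G ≠ 0)
    {y : Fin b → D.A} (h0 : (Matrix.of fun i j => y i j).det ≠ 0)
    (h1 : ∀ o, G • o ∈ Submodule.span R (range y))
    (h2 : ∀ i j, ∃ z ∈ Submodule.span R (range y), y i * y j = G • z) :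
    ∃ (E : Str R b) (f : D.A →ₐ[R] E.A), Function.Injective f ∧ (∀ o, ∑ i, f o i • y i = G • o) ∧
      (∀ i j, ∑ l, (G * E.γ i j l) • y l = y i * y j) ∧ ∀ i, f (y i) = G • E.e i := by
  have tf : Module.IsTorsionFree R D.A := inferInstanceAs (Module.IsTorsionFree R (Fin b → R))
  set φ := Fintype.linearCombination R y
  have hφ : ∀ c, φ c = ∑ i, c i • y i := fun c => Fintype.linearCombination_apply R y c
  have i0 : Function.Injective φ := (injective_iff_map_eq_zero φ).2 fun c hc =>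
    Matrix.eq_zero_of_vecMul_eq_zero h0 (funext fun l => by
      simpa [hφ, Matrix.vecMul, dotProduct, Str.sum_apply, Str.smul_apply, Str.zero_apply]
        using congrFun hc l)
  have i1 : ∀ {c c'}, G • φ c = G • φ c' → c = c' := fun h => i0 (smul_right_injective _ hG h)
  have e1 : ∀ o, ∃ c, φ c = G • o := fun o => by
    simpa only [hφ] using (Submodule.mem_span_range_iff_exists_fun R).1 (h1 o)
  have e2 : ∀ i j, ∃ c, G • φ c = y i * y j := fun i j => by
    obtain ⟨z, hz, e⟩ := h2 i j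
    obtain ⟨c, rfl⟩ := (Submodule.mem_span_range_iff_exists_fun R).1 hz
    exact ⟨c, by rw [e, hφ]⟩
  choose g hg using e1
  choose γ hγ using e2
  have cm : ∀ i j, γ i j = γ j i := fun i j => i1 (by rw [hγ, hγ, mul_comm])
  have k1 : ∀ (c : Fin b → R) k, G • φ (∑ m, c m • γ m k) = φ c * y k := fun c k => by
    simp only [map_sum, map_smul, Finset.smul_sum, smul_comm G, hγ, hφ c, Finset.sum_mul,
      smul_mul_assoc]
  have sg : ∀ j, φ (Pi.single j 1) = y j := fun j => by simp [φ]
  let E : Str R b := ⟨γ, g 1, cm, fun i j k l => by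
    have : ∑ m, γ i j m • γ m k = ∑ m, γ j k m • γ m i := i1 (smul_right_injective _ hG (by
      beta_reduce
      rw [k1, k1, ← smul_mul_assoc, ← smul_mul_assoc, hγ, hγ]; ring))
    simpa [cm i] using congrFun this l, fun j l => by
    have : ∑ m, g 1 m • γ m j = Pi.single j 1 := i1 (by
      rw [k1, hg, sg, smul_mul_assoc, one_mul])
    simpa [Pi.single_apply, eq_comm] using congrFun this l⟩
  have k2 : ∀ x x' : E.A, G • φ (x * x') = φ x * φ x' := fun x x' => by
    rw [show (x * x' : E.A) = ∑ j, x' j • ∑ i, x i • γ i j from funext fun l => by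
      rw [Str.mul_apply, Finset.sum_comm]
      simp only [Finset.sum_apply, Pi.smul_apply, smul_eq_mul, Finset.mul_sum]
      exact Finset.sum_congr rfl fun _ _ => Finset.sum_congr rfl fun _ _ => by ring]
    simp only [map_sum φ (fun j => x' j • ∑ i, x i • γ i j), map_smul, Finset.smul_sum (r := G),
      smul_comm G, k1, hφ x', Finset.mul_sum, mul_smul_comm]
  refine ⟨E, AlgHom.ofLinearMap ⟨⟨g, fun x x' => i0 (Eq.trans (by rw [hg, hg, hg, smul_add])
    (φ.map_add (g x) (g x')).symm)⟩, fun c x => i0 (Eq.trans (by rw [hg, hg, smul_comm])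
    (φ.map_smul c (g x)).symm)⟩ rfl
    fun x x' => i1 ((k2 (g x) (g x')).trans ?_).symm, fun x x' h => smul_right_injective _ hG ?_,
    fun o => (hφ _).symm.trans (hg o), fun i j => ?_, fun i => i0 ((hg _).trans ?_)⟩
  · change _ = G • φ (g (x * x'))
    rw [hg, hg, hg, smul_mul_smul_comm, smul_smul]
  · exact (hg x).symm.trans ((congrArg φ h).trans (hg x'))
  · rw [← hγ, hφ, Finset.smul_sum]
    simp only [smul_smul, E]
  · exact ((map_smul φ G _).trans (congrArg _ (sg i))).symm

theorem mul_red {G q : K[X]} {m e : ℕ} (hG : G ≠ 0) (h : ∀ k, m < k + e → (G * q).coeff k = 0)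
    (n : ℕ) (hn : m < n + G.natDegree + e) : q.coeff n = 0 := by
  by_contra h1
  have := le_natDegree_of_ne_zero h1
  refine mul_ne_zero (leadingCoeff_ne_zero.2 hG) (leadingCoeff_ne_zero.2 fun h2 => h1 ?_)
    (coeff_mul_degree_add_degree G q ▸ h _ (by omega))
  simp [h2]

theorem con_red (hTUP : S_TUP) (hNIL : S_NIL) (hCHS : S_CHS) (hHOM : S_HOM) (hDISC : S_DISC)
    (hWDET : S_WDET) (hb : 0 < b) {S : Submodule K[X] D.A} {G : K[X]} (hG : G ≠ 0)
    (h1 : ∀ o, G • o ∈ S) (h2 : ∀ y ∈ S, ∀ y' ∈ S, ∃ z ∈ S, y * y' = G • z) :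
    ∃ (D' : Dat K b) (f : D.A →ₐ[K[X]] D'.A), Function.Injective f ∧
      (D'.w < D.w ∨ ∀ s ∈ S, ∃ o, G • o = s) := by
  obtain ⟨y, d, rfl, h0, hd, ht⟩ := basis_red D hG h1
  have my : ∀ i, y i ∈ Submodule.span K[X] (range y) := fun i => Submodule.subset_span ⟨i, rfl⟩
  obtain ⟨E, f, hf, f1, f2, f3⟩ := str_red D.toStr hG h0 h1 fun i j => h2 _ (my i) _ (my j)
  obtain ⟨Dt, -, t1, -, t2, -⟩ := hTUP K b D
  have dc : C (D.c : K) ≠ 0 := C_ne_zero.2 D.c.ne_zero
  have d0 : D.disc ≠ 0 := D.hd ▸ mul_ne_zero dc D.P_monic.ne_zero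
  have dn : D.disc.natDegree = 2 * ∑ i, D.a i := by
    rw [D.hd, natDegree_C_mul D.c.ne_zero, D.P_natDegree, Dat.w]
  have g1 : ∀ i j l n, d i + d j < n + G.natDegree + d l → (E.γ i j l).coeff n = 0 :=
    fun i j l => mul_red hG (deg_red D hd ht (f2 i j ▸ (t2 _ _ _ _ (hd i) (hd j)).1) l)
  have g2 : ∀ i, G.natDegree ≤ d i := by
    obtain ⟨i, -, hi⟩ := Finset.exists_min_image Finset.univ d ⟨⟨0, hb⟩, Finset.mem_univ _⟩
    refine fun j => le_trans (not_lt.1 fun h => h0 (Matrix.det_eq_zero_of_row_eq_zero i fun l =>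
      congrFun ((hNIL _ b D.toStr d0).2 (y i) ⟨2, ?_⟩) l)) (hi j (Finset.mem_univ _))
    rw [pow_two, ← f2]
    refine Finset.sum_eq_zero fun l _ => ?_
    rw [show E.γ i i l = 0 from Polynomial.ext fun n => g1 i i l n (by
      have := hi l (Finset.mem_univ _); omega), mul_zero, zero_smul]
  have g3 : D.Deg G.natDegree (∑ i, E.u i • y i) := fun l n hn => by
    rw [show ∑ i, E.u i • y i = G • 1 by rw [← f1, map_one]; rfl, Str.smul_apply, term_red D
      (fun k hk => coeff_eq_zero_of_natDegree_lt hk) t1 l n hn.le, if_neg hn.ne']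
  set Y := Matrix.of fun i j => y i j with hY
  have y1 : Y.det.natDegree + ∑ i, D.a i = ∑ i, d i := by
    obtain ⟨w1, w2⟩ := hWDET K (Fin b) Y (fun i => d i) (fun j => -D.a j) fun i j n hn =>
      hd i j n (by omega)
    obtain ⟨n, hn⟩ := Int.eq_ofNat_of_zero_le (a := ∑ i, ((d i : ℤ) + -D.a i))
      (not_lt.1 fun h => h0 (Polynomial.ext fun n => w1 n (by omega)))
    rw [natDegree_eq_of_le_of_coeff_ne_zero (natDegree_le_iff_coeff_eq_zero.2 fun k hk =>
      w1 k (by omega)) (n := n) (by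
        rw [w2 n hn]
        convert ht using 2
        ext i j
        simp only [Matrix.of_apply, Dat.tp, hY]
        exact if_congr (by omega) (congrArg _ (by omega)) rfl)]
    rw [Finset.sum_add_distrib, Finset.sum_neg_distrib] at hn
    zify
    omega
  have y2 : G ^ (2 * b) * E.disc = Y.det ^ 2 * D.disc := by
    rw [← (hDISC _ b).2.1 D.toStr y, Str.disc, pow_mul,
      show (G ^ 2) ^ b * E.T.det = (G ^ 2 • E.T).det by simp]
    congr 1
    ext1 i j
    rw [Matrix.of_apply, (hCHS _ b _ _).2.1 hb, ← hHOM _ b _ _ f hf, ← (hCHS _ b _ _).2.1 hb,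
      map_mul, f3, f3, smul_mul_smul_comm, map_smul, ← pow_two]
    rfl
  have e0 : E.disc ≠ 0 := fun h => mul_ne_zero (pow_ne_zero 2 h0) d0 (by rw [← y2, h, mul_zero])
  have s1 : ∑ i, (d i - G.natDegree) + b * G.natDegree = ∑ i, d i := by
    rw [← Finset.sum_congr rfl fun i _ => Nat.sub_add_cancel (g2 i), Finset.sum_add_distrib]
    simp
  have y3 : E.disc.natDegree = 2 * ∑ i, (d i - G.natDegree) := by
    have := congrArg natDegree y2
    rw [natDegree_mul (pow_ne_zero _ hG) e0, natDegree_mul (pow_ne_zero _ h0) d0, natDegree_pow,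
      natDegree_pow, dn, mul_assoc] at this
    omega
  have lc := leadingCoeff_ne_zero.2 e0
  refine ⟨⟨E, fun i => d i - G.natDegree, fun i j l n h => g1 i j l n (by
    have := g2 i; have := g2 j; have := g2 l; omega), fun i n h => deg_red D hd ht g3 i n (by
    have := g2 i; omega), Units.mk0 _ lc, E.disc * C E.disc.leadingCoeff⁻¹, by
    rw [coeff_mul_C, ← y3, coeff_natDegree, mul_inv_cancel₀ lc], fun n h => by
    rw [coeff_mul_C, coeff_eq_zero_of_natDegree_lt (y3 ▸ h), zero_mul], by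
    rw [Units.val_mk0, mul_left_comm, ← C_mul, mul_inv_cancel₀ lc, C_1, mul_one]⟩, f, hf, ?_⟩
  set M := Matrix.of fun i j => f (D.e i) j
  have m1 : M * Y = G • 1 := by
    ext1 i j
    simpa [M, Y, Matrix.mul_apply, Str.sum_apply, Str.smul_apply, Str.e_apply, Matrix.one_apply,
      eq_comm] using congrFun (f1 (D.e i)) j
  have m2 := congrArg Matrix.det m1
  rw [Matrix.det_mul, Matrix.det_smul, Matrix.det_one, mul_one, Fintype.card_fin] at m2
  have m3 : M.det ≠ 0 := left_ne_zero_of_mul (m2 ▸ pow_ne_zero _ hG)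
  have m4 := congrArg natDegree m2
  rw [natDegree_mul m3 h0, natDegree_pow] at m4
  refine or_iff_not_imp_left.2 fun h => Submodule.span_le (p := LinearMap.range
    (LinearMap.lsmul K[X] D.A G)) |>.2 ?_
  rintro _ ⟨i, rfl⟩
  have m5 : IsUnit M.det := by
    simp only [Dat.w] at h
    rw [eq_C_of_natDegree_eq_zero (p := M.det) (by omega)] at m3 ⊢
    exact isUnit_C.2 (C_ne_zero.1 m3).isUnit
  have m6 : Y = G • M⁻¹ := by
    rw [← M.nonsing_inv_mul_cancel_left Y m5, m1, Matrix.mul_smul, mul_one]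
  exact ⟨M⁻¹ i, (congrFun m6 i).symm⟩

end

theorem p_RED (hTUP : S_TUP) (hLV : S_LV) (hNIL : S_NIL) (hCHS : S_CHS) (hMAXI : S_MAXI) (hHOM : S_HOM) (hDISC : S_DISC) (hWDET : S_WDET) :
    S_RED := by
  classical
  intro K _ b D₀
  have ex : ∃ N, ∃ (D : Dat K b) (f : D₀.A →ₐ[K[X]] D.A), Function.Injective f ∧ D.w = N :=
    ⟨_, D₀, AlgHom.id _ _, fun _ _ h => h, rfl⟩
  obtain ⟨D, f, hf, hN⟩ := Nat.find_spec ex
  refine ⟨D, f, fun g x hg hx i => ?_, hf⟩
  have hb := i.pos
  have tf : Module.IsTorsionFree K[X] D.A :=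
    inferInstanceAs (Module.IsTorsionFree K[X] (Fin b → K[X]))
  choose t ht using hx
  have e1 : ∀ m, ∃ z, g ^ m • z = g ^ (b - 1) • x ^ m := fun m => by
    induction m using Nat.strong_induction_on with
    | _ m ih =>
    by_cases h : m < b
    · exact ⟨g ^ (b - 1 - m) • x ^ m, by rw [smul_smul, ← pow_add]; congr 2; omega⟩
    obtain ⟨k, rfl⟩ := Nat.exists_eq_add_of_le (not_lt.1 h)
    choose! z hz using ih
    have h1 := D.aeval_ch x
    rw [aeval_eq_sum_range, Finset.sum_range_succ, coeff_natDegree, D.ch_monic, one_smul,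
      D.ch_natDegree, add_eq_zero_iff_neg_eq] at h1
    refine ⟨-∑ j ∈ Finset.range b, t j • z (j + k), ?_⟩
    rw [pow_add x, ← h1, neg_mul, smul_neg, smul_neg, Finset.sum_mul, Finset.smul_sum,
      Finset.smul_sum]
    refine congrArg _ (Finset.sum_congr rfl fun j hj => ?_)
    rw [Finset.mem_range] at hj
    rw [smul_mul_assoc, ← pow_add, smul_comm (g ^ (b - 1)), ← hz _ (by omega), ht, smul_smul,
      smul_smul, mul_right_comm, ← pow_add]
    congr 3
    omega
  choose z hz using e1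
  have hG := pow_ne_zero (b - 1) hg
  set G := g ^ (b - 1)
  have mz : ∀ m, z m ∈ Ideal.span (range z) := fun m => Ideal.subset_span ⟨m, rfl⟩
  have e2 : Ideal.span (range z) * Ideal.span (range z) ≤
      Ideal.span (range z) * Ideal.span {G • 1} :=
    (Ideal.span_mul_span' _ _).le.trans (Ideal.span_le.2 (by
      rintro _ ⟨_, ⟨m, rfl⟩, _, ⟨n, rfl⟩, rfl⟩
      refine Ideal.mem_mul_span_singleton.2 ⟨_, mz (m + n), smul_right_injective _
        (pow_ne_zero (m + n) hg) ?_⟩
      beta_reduce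
      rw [← smul_mul_assoc, hz, pow_add g, ← smul_mul_smul_comm, hz, hz, smul_mul_smul_comm,
        smul_mul_smul_comm, mul_one, pow_add]))
  obtain ⟨D', f', hf', h | h⟩ := con_red D hTUP hNIL hCHS hHOM hDISC hWDET hb
    (S := (Ideal.span (range z)).restrictScalars K[X]) hG (fun o => by
      have := Ideal.mul_mem_right o _ (mz 0)
      rwa [← one_smul K[X] (z 0), ← pow_zero g, hz, pow_zero, smul_mul_assoc, one_mul] at this)
    fun y hy y' hy' => by
      obtain ⟨w, hw, e⟩ := Ideal.mem_mul_span_singleton.1 (e2 (Ideal.mul_mem_mul hy hy'))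
      exact ⟨w, hw, by rw [← e, mul_smul_comm, mul_one]⟩
  · exact (Nat.find_min ex (hN ▸ h) ⟨D', f'.comp f, hf'.comp hf, rfl⟩).elim
  · obtain ⟨o, ho⟩ := h _ (mz 1)
    have := hz 1
    rw [← ho, smul_comm, pow_one, pow_one] at this
    exact ⟨o i, (congrFun (smul_right_injective _ hG this) i).symm⟩

end Pool.Agent.P.MP_ab0431_ag.UB

namespace Pool.Agent.P.MP_ab0431_ag.UB

open Polynomial Set Filter Topology

theorem vec_norm {R : Type} [CommRing R] {b : ℕ} (D : Str R b) (x : D.A) (v : Fin b → R) :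
    Matrix.vecMul v (D.N x) = (∑ j, v j • x ^ (j : ℕ) : D.A) := by
  funext i
  rw [D.sum_apply]
  rfl

theorem p_NORM (hPOWB : S_POWB) (hRED : S_RED) (hHOM : S_HOM) (hLV : S_LV) :
    S_NORM := by
  intro K _ b m F h1 h2 h3 h4
  obtain ⟨D, z, -, a2, a3⟩ := hPOWB K b m F h1 h2 h3 h4
  obtain ⟨D', f, b1, b2⟩ := hRED K b D
  have e : D'.ch (f z) = F := (hHOM _ b _ _ f b2 z).trans a2
  refine ⟨D', f z, b1, hLV K b m D' _ (e ▸ h3), e, fun h => ?_⟩
  obtain ⟨v, v0, hv⟩ := Matrix.exists_vecMul_eq_zero_iff.2 h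
  rw [vec_norm] at hv
  have : f (∑ j, v j • z ^ (j : ℕ)) = f 0 := by
    simp only [map_sum, map_smul, map_pow, map_zero]
    exact hv
  have h5 := (vec_norm D.toStr z v).trans (b2 this)
  rw [a3, Matrix.vecMul_one] at h5
  exact v0 h5

end Pool.Agent.P.MP_ab0431_ag.UB

namespace Pool.Agent.P.MP_ab0431_ag.UB

open Polynomial Set Filter Topology

theorem equiv_split (K A : Type) [Field K] [IsAlgClosed K] [CommRing A] [Algebra K A]
    [Module.Finite K A] [IsReduced A] : Nonempty (A ≃ₐ[K] (MaximalSpectrum A → K)) := by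
  haveI : IsArtinianRing A := IsArtinianRing.of_finite K A
  have h : ∀ I : MaximalSpectrum A, Function.Bijective (algebraMap K (A ⧸ I.asIdeal)) := fun I => by
    haveI := I.isMaximal
    exact IsAlgClosed.algebraMap_bijective_of_isIntegral
  exact ⟨((IsArtinianRing.equivPi A).restrictScalars K).trans
    (AlgEquiv.piCongrRight fun I => (AlgEquiv.ofBijective (Algebra.ofId K _) (h I)).symm)⟩

theorem p_SPLIT (hNIL : S_NIL) :
    S_SPLIT := by
  intro K _ _ b D hD
  haveI : IsReduced D.A := ⟨(hNIL K b D hD).2⟩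
  haveI : IsArtinianRing D.A := IsArtinianRing.of_finite K D.A
  obtain ⟨Φ⟩ := equiv_split K D.A
  haveI := Fintype.ofFinite (MaximalSpectrum D.A)
  have hc : Fintype.card (MaximalSpectrum D.A) = b := by
    have h1 := Φ.toLinearEquiv.finrank_eq
    rw [Module.finrank_eq_card_basis D.bas, Module.finrank_fintype_fun_eq_card,
      Fintype.card_fin] at h1
    exact h1.symm
  let e := Fintype.equivFinOfCardEq hc
  let f : Fin b → (D.A →ₐ[K] K) := fun j =>
    (Pi.evalAlgHom K (fun _ => K) (e.symm j)).comp Φ.toAlgHom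
  refine ⟨fun j i => f j (D.e i), fun j => D.isPt_hom (f j), fun h => ?_⟩
  obtain ⟨v, hv, hv0⟩ := Matrix.exists_mulVec_eq_zero_iff.2 h
  apply hv
  have h0 : Φ (show D.A from v) = 0 := by
    funext m
    have h1 := congrFun hv0 (e m)
    have h2 : f (e m) (show D.A from v) = ∑ i, f (e m) (D.e i) * v i := by
      conv_lhs => rw [← D.sum_e (show D.A from v)]
      rw [map_sum]
      exact Finset.sum_congr rfl fun i _ => by rw [map_smul, smul_eq_mul, mul_comm]
    have h3 : f (e m) (show D.A from v) = 0 := h2.trans h1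
    simpa [f] using h3
  exact Φ.injective (h0.trans (map_zero Φ).symm)

end Pool.Agent.P.MP_ab0431_ag.UB

namespace Pool.Agent.P.MP_ab0431_ag.UB

open Polynomial Set Filter Topology

section
variable {R : Type} [CommRing R] {b : ℕ} {D : Str R b} {χ : Fin b → Fin b → R}

theorem hom_e_chp {χ : Fin b → R} (h : D.IsPt χ) (i : Fin b) : h.hom (D.e i) = χ i := by
  simp [h.hom_apply, Str.e_apply]

theorem vec_chp (h : ∀ j, D.IsPt (χ j)) (o : D.A) (j : Fin b) :
    (h j).hom o = (Matrix.of χ).mulVec o j :=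
  ((h j).hom_apply o).trans (Finset.sum_congr rfl fun _ _ => mul_comm _ _)

theorem conj_chp (h : ∀ j, D.IsPt (χ j)) (o : D.A) :
    Matrix.of χ * D.L o = Matrix.diagonal (fun j => (h j).hom o) * Matrix.of χ := by
  ext j i
  rw [Matrix.diagonal_mul, Matrix.of_apply, ← hom_e_chp (h j) i, ← map_mul, (h j).hom_apply,
    Matrix.mul_apply]
  refine Finset.sum_congr rfl fun l _ => ?_
  rw [Str.L, Algebra.leftMulMatrix_eq_repr_mul, Str.bas_apply, Str.bas_repr, mul_comm]
  rfl

theorem two_chp (h : ∀ j, D.IsPt (χ j)) (hu : IsUnit (Matrix.of χ).det) (o : D.A) :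
    D.ch o = ∏ j, (X - C ((h j).hom o)) ∧ D.tr o = ∑ j, (h j).hom o := by
  obtain ⟨U, hU⟩ := (Matrix.isUnit_iff_isUnit_det _).2 hu
  have e : D.L o = (U⁻¹ : (Matrix (Fin b) (Fin b) R)ˣ) *
      Matrix.diagonal (fun j => (h j).hom o) * U := by
    rw [mul_assoc, hU, ← conj_chp h, ← hU, Units.inv_mul_cancel_left]
  rw [Str.ch, Str.tr_apply, e, Matrix.trace_units_conj', Matrix.coe_units_inv,
    Matrix.charpoly_units_conj', Matrix.charpoly_diagonal, Matrix.trace_diagonal]
  exact ⟨rfl, rfl⟩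

end

theorem p_CHP :
    S_CHP := by
  intro R _ b D χ h
  refine ⟨or_iff_not_imp_right.2 fun hu => ?_, two_chp h, fun hu _ χ' h' => ?_⟩
  · have e : D.T = (Matrix.of χ).transpose * Matrix.of χ := by
      ext i k
      rw [Str.T, Matrix.of_apply, (two_chp h (not_not.1 hu) _).2, Matrix.mul_apply]
      exact Finset.sum_congr rfl fun j _ => by rw [map_mul, hom_e_chp, hom_e_chp]; rfl
    rw [Str.disc, e, Matrix.det_mul, Matrix.det_transpose, pow_two]
  have hU := (Matrix.isUnit_iff_isUnit_det _).2 hu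
  have hi : ∀ x y : D.A, (∀ k, (h k).hom x = (h k).hom y) → x = y := fun x y e =>
    Matrix.mulVec_injective_of_isUnit hU (funext fun k => by rw [← vec_chp h, ← vec_chp h, e])
  have hs : ∀ j, ∃ x : D.A, ∀ k, (h k).hom x = if k = j then 1 else 0 := fun j => by
    obtain ⟨x, hx⟩ := Matrix.mulVec_surjective_iff_isUnit.2 hU (Pi.single j 1)
    exact ⟨x, fun k => by rw [vec_chp h, hx, Pi.single_apply]⟩
  choose ε hε using hs
  have h1 : ∑ j, ε j = 1 := hi _ _ fun k => by simp [hε]
  have h2 : ∑ j, h'.hom (ε j) ≠ 0 := by rw [← map_sum, h1, map_one]; exact one_ne_zero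
  obtain ⟨j, -, hj⟩ := Finset.exists_ne_zero_of_sum_ne_zero h2
  refine ⟨j, funext fun i => mul_right_cancel₀ hj ?_⟩
  have h3 : D.e i * ε j = χ j i • ε j := hi _ _ fun k => by
    rw [map_mul, map_smul, hε, hom_e_chp]
    split_ifs with e
    · rw [e, smul_eq_mul]
    · simp
  rw [← hom_e_chp h' i, ← map_mul, h3, map_smul, smul_eq_mul]

end Pool.Agent.P.MP_ab0431_ag.UB

namespace Pool.Agent.P.MP_ab0431_ag.UB

open Polynomial Set Filter Topology

theorem grow_pint (p : ℂ[X]) : ∃ (c : ℝ) (n : ℕ), 0 ≤ c ∧ ∀ x, ‖p.eval x‖ ≤ c * (1 + ‖x‖) ^ n := by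
  refine ⟨∑ i ∈ Finset.range (p.natDegree + 1), ‖p.coeff i‖, p.natDegree, by positivity, fun x => ?_⟩
  rw [eval_eq_sum_range, Finset.sum_mul]
  refine (norm_sum_le _ _).trans (Finset.sum_le_sum fun i hi => ?_)
  rw [norm_mul, norm_pow]
  refine mul_le_mul_of_nonneg_left ?_ (norm_nonneg _)
  exact (pow_le_pow_left₀ (norm_nonneg _) (by linarith) i).trans
    (pow_le_pow_right₀ (by linarith [norm_nonneg x]) (Nat.lt_succ_iff.1 (Finset.mem_range.1 hi)))

theorem root_pint (H : ℂ[X][X]) : ∃ (c : ℝ) (n : ℕ), 0 ≤ c ∧ ∀ x z,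
    (H.map (evalRingHom x)).Monic → (H.map (evalRingHom x)).IsRoot z → ‖z‖ ≤ c * (1 + ‖x‖) ^ n := by
  choose c n h0 h using fun j => grow_pint (H.coeff j)
  refine ⟨∑ j ∈ Finset.range H.natDegree, c j + 1, ∑ j ∈ Finset.range H.natDegree, n j,
    add_nonneg (Finset.sum_nonneg fun j _ => h0 j) zero_le_one, fun x z hm hz => ?_⟩
  have h1 : (1 : ℝ) ≤ 1 + ‖x‖ := by linarith [norm_nonneg x]
  have h2 := hz.norm_lt_cauchyBound hm.ne_zero
  rw [cauchyBound, hm.leadingCoeff, nnnorm_one, div_one] at h2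
  set B := (∑ j ∈ Finset.range H.natDegree, c j) * (1 + ‖x‖) ^ ∑ j ∈ Finset.range H.natDegree, n j
  have hB : 0 ≤ B := mul_nonneg (Finset.sum_nonneg fun j _ => h0 j) (by positivity)
  have h3 : (Finset.range (H.map (evalRingHom x)).natDegree).sup
      (‖(H.map (evalRingHom x)).coeff ·‖₊) ≤ ⟨B, hB⟩ := Finset.sup_le fun j hj => by
    have hj' : j ∈ Finset.range H.natDegree :=
      Finset.mem_range.2 ((Finset.mem_range.1 hj).trans_le natDegree_map_le)
    change ‖_‖ ≤ B
    rw [coeff_map]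
    exact (h j x).trans (mul_le_mul (Finset.single_le_sum (fun j _ => h0 j) hj')
      (pow_le_pow_right₀ h1 (Finset.single_le_sum (fun j _ => Nat.zero_le (n j)) hj'))
      (by positivity) (Finset.sum_nonneg fun j _ => h0 j))
  have h4 : ‖z‖ ≤ B + 1 := NNReal.coe_le_coe.2 (h2.le.trans (add_le_add_left h3 1))
  rw [add_mul, one_mul]
  exact h4.trans (add_le_add_right (one_le_pow₀ h1) B)

theorem p_PINT (hPOLY : S_POLY) (hCHP : S_CHP) (hCHS : S_CHS) :
    S_PINT := by
  intro b D Z G f hM hZ H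
  let t : Fin b → ℂ → ℂ := fun l x => ∑ᶠ p ∈ {p | (D.fib x).IsPt p}, f x p * p l
  have ht : ∀ x (χ : Fin b → Fin b → ℂ), (∀ j, (D.fib x).IsPt (χ j)) → (Matrix.of χ).det ≠ 0 →
      ∀ l, t l x = ∑ j, f x (χ j) * χ j l := fun x χ h1 h2 l => by
    have e : {p | (D.fib x).IsPt p} = range χ := Set.ext fun p => ⟨fun hp => by
      obtain ⟨j, hj⟩ := (hCHP ℂ b _ χ h1).2.2 h2.isUnit inferInstance p hp
      exact ⟨j, hj.symm⟩, by rintro ⟨j, rfl⟩; exact h1 j⟩
    have hi : Function.Injective χ := fun j k h =>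
      by_contra fun hne => h2 (Matrix.det_zero_of_row_eq hne h)
    simp only [t]
    rw [e, finsum_mem_range hi, finsum_eq_sum_of_fintype]
  have hp : ∀ l, ∃ p : ℂ[X], ∀ x ∉ Z, t l x = p.eval x := fun l => by
    obtain ⟨c, n, hc, h⟩ := root_pint G
    obtain ⟨c', n', hc', h'⟩ := root_pint (D.ch (D.e l))
    obtain ⟨p, -, hp⟩ := hPOLY (t l) Z (b * (c * c')) (n + n') hZ (fun x hx => by
      obtain ⟨χ, a1, a2⟩ := H x hx
      refine (Finset.analyticAt_fun_sum Finset.univ fun j _ =>
        (a1 j).2.mul (analyticAt_pi_iff.1 (a1 j).1 l)).differentiableAt.congr_of_eventuallyEq ?_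
      exact a2.mono fun y hy => ht y _ hy.1 hy.2.1 l) fun x hx => by
        obtain ⟨χ, -, a2⟩ := H x hx
        obtain ⟨a2, a3, a4⟩ := a2.self_of_nhds
        rw [ht x _ a2 a3]
        refine (norm_sum_le _ _).trans ((Finset.sum_le_card_nsmul _ _
          (c * (1 + ‖x‖) ^ n * (c' * (1 + ‖x‖) ^ n')) fun j _ => ?_).trans_eq ?_)
        · rw [norm_mul]
          refine mul_le_mul (h x _ ?_ ?_) (h' x _ ((D.ch_monic _).map _) ?_) (norm_nonneg _)
            (by positivity)
          · rw [a4]; exact monic_prod_of_monic _ _ fun _ _ => monic_X_sub_C _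
          · rw [a4, IsRoot, eval_prod]
            exact Finset.prod_eq_zero (Finset.mem_univ j) (by simp)
          · have e : χ j x l = (a2 j).hom ((D.fib x).e l) := by
              simp [Str.IsPt.hom_apply, Str.e_apply]
            rw [← Str.ch_map, Str.mapA_e, e, IsRoot, ← coe_aeval_eq_eval, aeval_algHom_apply,
              Str.aeval_ch, map_zero]
        · simp only [Finset.card_univ, Fintype.card_fin, nsmul_eq_mul]; ring
    exact ⟨p, hp⟩
  choose p hp using hp
  let y : D.A := ∑ l, p l • D.du l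
  have hy : ∀ j, (D.ch y).coeff j = D.disc ^ (b - j) * G.coeff j := fun j => by
    refine eq_of_infinite_eval_eq _ _ (hZ.infinite_compl.mono fun x hx => ?_)
    obtain ⟨χ, -, a2⟩ := H x hx
    obtain ⟨a2, a3, a4⟩ := a2.self_of_nhds
    let o : (D.fib x).A := (Matrix.of fun j => χ j x)⁻¹.mulVec fun j => f x (χ j x)
    have ho : ∀ j, ∑ i, o i * χ j x i = f x (χ j x) := fun j => by
      have : (Matrix.of fun j => χ j x).mulVec o = fun j => f x (χ j x) := by
        rw [Matrix.mulVec_mulVec, Matrix.mul_nonsing_inv _ a3.isUnit, Matrix.one_mulVec]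
      rw [← congrFun this j]
      exact Finset.sum_congr rfl fun i _ => mul_comm _ _
    have h1 := (hCHP ℂ b _ _ a2).2.1 a3.isUnit
    have h2 : D.toStr.mapA (evalRingHom x) y = (D.fib x).disc • o := by
      rw [← (hCHS ℂ b _ o).2.2.2, map_sum]
      refine Finset.sum_congr rfl fun l _ => ?_
      rw [Str.mapA_smul]
      congr 1
      · rw [coe_evalRingHom, ← hp l x hx, ht x _ a2 a3, (h1 _).2]
        refine Finset.sum_congr rfl fun j _ => ?_
        rw [← (a2 j).hom_apply, map_mul, (a2 j).hom_apply, ho]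
        simp [Str.IsPt.hom_apply, Str.e_apply]
      · ext i
        rw [Str.mapA_apply, Str.du, Str.du, Str.T_map]
        exact congrFun₂ (RingHom.map_adjugate (evalRingHom x) D.toStr.T) l i
    have h3 := (hCHS ℂ b _ o).1 (D.fib x).disc j
    rw [← h2, Str.ch_map, (h1 o).1] at h3
    simp only [ho] at h3
    rw [← a4, Str.disc_map] at h3
    simpa using h3
  have hd : D.disc ≠ 0 := by
    rw [D.hd]
    exact mul_ne_zero (C_ne_zero.2 D.c.ne_zero) D.P_monic.ne_zero
  choose o ho using hM D.disc y hd fun j => ⟨_, hy j⟩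
  refine ⟨o, Polynomial.ext fun j => mul_left_cancel₀ (pow_ne_zero (b - j) hd) ?_⟩
  rw [← hy, ← (hCHS ℂ[X] b D.toStr o).1]
  exact congrArg (fun z => (D.ch z).coeff j) (funext ho).symm

end Pool.Agent.P.MP_ab0431_ag.UB

namespace Pool.Agent.P.MP_ab0431_ag.UB

open Polynomial Set Filter Topology

theorem van_pts {K : Type} [Field K] {b : ℕ} (D : Str K b) (s : D.A) (χ : Fin b → Fin b → K)
    (h : ∀ j, D.IsPt (χ j)) (hi : Function.Injective fun j => ∑ i, s i * χ j i) :
    (D.N s).det ≠ 0 ∧ (Matrix.of χ).det ≠ 0 := by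
  have e : Matrix.of χ * (D.N s).transpose = Matrix.vandermonde fun j => ∑ i, s i * χ j i := by
    ext j k
    rw [Matrix.mul_apply, Matrix.vandermonde_apply, ← (h j).hom_apply, ← map_pow, (h j).hom_apply]
    exact Finset.sum_congr rfl fun i _ => mul_comm _ _
  have := Matrix.det_vandermonde_ne_zero_iff.2 hi
  rw [← e, Matrix.det_mul, Matrix.det_transpose] at this
  exact ⟨right_ne_zero_of_mul this, left_ne_zero_of_mul this⟩

theorem root_pts {K : Type} [Field K] {b : ℕ} (D : Str K b) (s : D.A) (z : K)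
    (hN : (D.N s).det ≠ 0) (hz : (D.ch s).IsRoot z) :
    D.IsPt (fun i => (D.N s).det⁻¹ * ∑ j, (D.N s).adjugate i j * z ^ (j : ℕ)) ∧
      ∑ i, s i * ((D.N s).det⁻¹ * ∑ j, (D.N s).adjugate i j * z ^ (j : ℕ)) = z := by
  have hb : IsUnit (D.bas.det fun j : Fin b => s ^ (j : ℕ)) := by
    rw [Module.Basis.det_apply, ← Matrix.det_transpose]
    exact hN.isUnit
  obtain ⟨h1, h2⟩ := (D.bas.is_basis_iff_det).2 hb
  let pb : PowerBasis K D.A := ⟨s, b, Module.Basis.mk h1 h2.ge, fun i => Module.Basis.mk_apply _ _ i⟩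
  have hm : minpoly K s = D.ch s := by
    refine (eq_of_monic_of_dvd_of_natDegree_le (minpoly.monic (Algebra.IsIntegral.isIntegral s))
      (D.ch_monic s) (minpoly.dvd K s (D.aeval_ch s)) ?_).symm
    rw [D.ch_natDegree]
    exact (pb.natDegree_minpoly).ge
  have hy : aeval z (minpoly K pb.gen) = 0 := by
    change aeval z (minpoly K s) = 0
    rw [hm, coe_aeval_eq_eval]; exact hz
  let f := pb.lift z hy
  have hf : f s = z := pb.lift_gen z hy
  have hp := D.isPt_hom f
  have key : ∀ x : D.A, f x = ∑ i, x i * f (D.e i) := fun x => by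
    conv_lhs => rw [← D.sum_e x]
    simp [map_sum]
  have e : (fun i => (D.N s).det⁻¹ * ∑ j, (D.N s).adjugate i j * z ^ (j : ℕ)) =
      fun i => f (D.e i) := by
    have h3 : (D.N s).mulVec (fun i => f (D.e i)) = fun j : Fin b => z ^ (j : ℕ) := by
      ext j
      rw [← hf, ← map_pow, key]; rfl
    ext i
    have h4 := congrFun (congrArg (D.N s).adjugate.mulVec h3) i
    rw [Matrix.mulVec_mulVec, Matrix.adjugate_mul, Matrix.smul_mulVec, Matrix.one_mulVec] at h4
    rw [inv_mul_eq_iff_eq_mul₀ hN]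
    exact h4.symm
  refine ⟨e ▸ hp, ?_⟩
  exact (Finset.sum_congr rfl fun i _ => congrArg _ (congrFun e i)).trans ((key s).symm.trans hf)

theorem an_pts (F : ℂ[X][X]) (u : ℂ × ℂ) :
    AnalyticAt ℂ (fun v : ℂ × ℂ => (F.map (evalRingHom v.1)).eval v.2) u := by
  induction F using Polynomial.induction_on' with
  | add p q hp hq => simpa only [Polynomial.map_add, eval_add] using hp.fun_add hq
  | monomial n a =>
    simp only [Polynomial.map_monomial, eval_monomial, coe_evalRingHom]
    exact (analyticAt_fst.aeval_polynomial a).mul (analyticAt_snd.pow n)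

theorem ift_pts (F : ℂ[X][X]) (x₀ z₀ : ℂ) (h0 : (F.map (evalRingHom x₀)).IsRoot z₀)
    (h1 : ¬(F.map (evalRingHom x₀)).derivative.IsRoot z₀) :
    ∃ ζ : ℂ → ℂ, AnalyticAt ℂ ζ x₀ ∧ ζ x₀ = z₀ ∧
      ∀ᶠ x in 𝓝 x₀, (F.map (evalRingHom x)).IsRoot (ζ x) := by
  set f := fun v : ℂ × ℂ => (F.map (evalRingHom v.1)).eval v.2 with hf
  have ha : AnalyticAt ℂ f (x₀, z₀) := an_pts F _
  have hc : ContDiffAt ℂ ⊤ f (x₀, z₀) := ha.contDiffAt
  have hd : HasFDerivAt (fun z => f (x₀, z)) (fderiv ℂ f (x₀, z₀) ∘L .inr ℂ ℂ ℂ) z₀ :=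
    ha.differentiableAt.hasFDerivAt.comp z₀ (hasFDerivAt_prodMk_right x₀ z₀)
  have hd' := ((F.map (evalRingHom x₀)).hasDerivAt z₀).hasFDerivAt
  have hi : (fderiv ℂ f (x₀, z₀) ∘L .inr ℂ ℂ ℂ).IsInvertible := by
    rw [hd.unique hd']
    exact ⟨ContinuousLinearEquiv.unitsEquivAut ℂ (Units.mk0 _ h1), by ext; simp⟩
  exact ⟨hc.implicitFunction (by simp) hi,
    (hc.contDiffAt_implicitFunction (by simp) hi).analyticAt,
    hc.implicitFunction_apply_self (by simp) hi,
    (hc.eventually_apply_implicitFunction (by simp) hi).mono fun x hx => hx.trans h0⟩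

theorem two_pts {b : ℕ} (D : Dat ℂ b) (x₀ : ℂ) (s : (D.fib x₀).A) (z₀ : ℂ)
    (hN : ((D.fib x₀).N s).det ≠ 0) (h0 : ((D.fib x₀).ch s).IsRoot z₀)
    (h1 : ¬((D.fib x₀).ch s).derivative.IsRoot z₀) : ∃ χ : ℂ → Fin b → ℂ, AnalyticAt ℂ χ x₀ ∧
      ∑ i, s i * χ x₀ i = z₀ ∧ ∀ᶠ x in 𝓝 x₀, (D.fib x).IsPt (χ x) := by
  let S : D.A := fun i => C (s i)
  have hS : D.toStr.mapA (evalRingHom x₀) S = s := funext fun i => eval_C
  have hch := fun x => D.toStr.ch_map (evalRingHom x) S
  have hNm := fun x => D.toStr.N_map (evalRingHom x) S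
  have hdet : ∀ x, ((D.fib x).N (D.toStr.mapA (evalRingHom x) S)).det =
      (D.toStr.N S).det.eval x := fun x => by
    rw [hNm, ← coe_evalRingHom, RingHom.map_det]; rfl
  have hadj : ∀ x i j, ((D.fib x).N (D.toStr.mapA (evalRingHom x) S)).adjugate i j =
      ((D.toStr.N S).adjugate i j).eval x := fun x i j => by
    rw [hNm]
    exact (congrFun₂ (RingHom.map_adjugate (evalRingHom x) (D.toStr.N S)) i j).symm
  rw [← hS] at hN h0 h1
  rw [hch] at h0 h1
  obtain ⟨ζ, a1, a2, a3⟩ := ift_pts _ x₀ z₀ h0 h1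
  have hp : ∀ p : ℂ[X], AnalyticAt ℂ (fun x => p.eval x) x₀ := fun p =>
    AnalyticOnNhd.eval_polynomial p x₀ (mem_univ _)
  refine ⟨fun x i => ((D.toStr.N S).det.eval x)⁻¹ *
    ∑ j, ((D.toStr.N S).adjugate i j).eval x * ζ x ^ (j : ℕ), ?_, ?_, ?_⟩
  · refine analyticAt_pi_iff.2 fun i => ((hp _).inv (hdet x₀ ▸ hN)).mul ?_
    exact Finset.analyticAt_fun_sum _ fun j _ => (hp _).mul (a1.pow _)
  · have := (root_pts _ _ z₀ hN (hch x₀ ▸ h0)).2
    simp only [hdet, hadj] at this
    rw [hS] at this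
    simpa only [a2] using this
  · have hne : ∀ᶠ x in 𝓝 x₀, (D.toStr.N S).det.eval x ≠ 0 :=
      (hp _).continuousAt.eventually_ne (hdet x₀ ▸ hN)
    filter_upwards [a3, hne] with x h3 h4
    have := (root_pts _ _ (ζ x) ((hdet x).symm ▸ h4) (hch x ▸ h3)).1
    simpa only [hdet, hadj] using this

theorem p_PTS (hSPLIT : S_SPLIT) (hCHP : S_CHP) (hDISC : S_DISC) (hDSEP : S_DSEP) :
    S_PTS := by
  intro b D x₀
  refine ⟨fun hP => ?_, two_pts D x₀⟩
  have hd : (D.fib x₀).disc ≠ 0 := by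
    rw [Str.disc_map, D.hd]
    simpa using hP
  obtain ⟨χ, h1, h2⟩ := hSPLIT ℂ b _ hd
  have hu : IsUnit (Matrix.of χ).det := h2.isUnit
  let s : (D.fib x₀).A := (Matrix.of χ)⁻¹.mulVec fun j => ((j : ℕ) : ℂ)
  have hs : ∀ j, ∑ i, s i * χ j i = ((j : ℕ) : ℂ) := fun j => by
    have : (Matrix.of χ).mulVec s = fun j : Fin b => ((j : ℕ) : ℂ) := by
      rw [Matrix.mulVec_mulVec, Matrix.mul_nonsing_inv _ hu, Matrix.one_mulVec]
    rw [← congrFun this j]
    exact Finset.sum_congr rfl fun i _ => mul_comm _ _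
  have hinj : Function.Injective fun j : Fin b => ((j : ℕ) : ℂ) :=
    Nat.cast_injective.comp Fin.val_injective
  have hN := (van_pts _ s χ h1 (by simpa only [hs] using hinj)).1
  have hch := ((hCHP ℂ b _ χ h1).2.1 hu s).1
  simp only [hs] at hch
  have hsep : ((D.fib x₀).ch s).Separable := hch ▸ separable_prod_X_sub_C_iff.2 hinj
  have hr : ∀ j : Fin b, ((D.fib x₀).ch s).IsRoot ((j : ℕ) : ℂ) := fun j => by
    rw [hch, IsRoot, eval_prod]
    exact Finset.prod_eq_zero (Finset.mem_univ j) (by simp)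
  choose ψ a1 a2 a3 using fun j : Fin b => two_pts D x₀ s _ hN (hr j)
    (hsep.aeval_derivative_ne_zero (S := ℂ) (hr j))
  have a4 := eventually_all.2 a3
  refine ⟨ψ, a1, a4.and ?_⟩
  have hc : ContinuousAt (fun x => (Matrix.of fun j => ψ j x).det) x₀ :=
    (continuous_id.matrix_det.continuousAt).comp
      (continuousAt_pi.2 fun j => (a1 j).continuousAt)
  exact hc.eventually_ne (van_pts _ s _ a4.self_of_nhds (by simpa only [a2] using hinj)).2

end Pool.Agent.P.MP_ab0431_ag.UB
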