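import Pool.Agent.P.MP_ab0431_ag.UB.IfaceO
import Pool.Agent.P.MP_ab0431_ag.UB.IfaceT

/-! Steps SPLIT1 MAXS JC PHI LIFTD DER HYP MAIN. -/

set_option autoImplicit false
set_option linter.unusedSectionVars false
set_option linter.unusedVariables false

namespace Pool.Agent.P.MP_ab0431_ag.UB

open Polynomial Set Filter Topology

theorem sq_split1 {K : Type} [Field K] {b : ℕ} (M : Matrix (Fin b) (Fin b) K[X]) (x : K)
    (v w : Fin b → K) (i j : Fin b) (hv : v i ≠ 0) (hw : w j ≠ 0) (h0 : w i = 0)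
    (h1 : ∀ l, ∑ k, v k * (M k l).eval x = 0) (h2 : ∀ l, ∑ k, w k * (M k l).eval x = 0) :
    (X - C x) ^ 2 ∣ M.det := by
  have hij : i ≠ j := fun h => hw (h ▸ h0)
  have row : ∀ u : Fin b → K, (∀ l, ∑ k, u k * (M k l).eval x = 0) →
      ∃ r : Fin b → K[X], ∑ k, C (u k) • M k = (X - C x) • r := fun u hu => by
    have : ∀ l, (X - C x) ∣ (∑ k, C (u k) • M k) l := fun l => by
      rw [dvd_iff_isRoot, IsRoot, Finset.sum_apply, eval_finsetSum, ← hu l]
      exact Finset.sum_congr rfl fun k _ => by simp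
    choose r hr using this
    exact ⟨r, funext hr⟩
  obtain ⟨r, hr⟩ := row v h1
  obtain ⟨r', hr'⟩ := row w h2
  have e1 := Matrix.det_updateRow_sum M i fun k => C (v k)
  have e2 := Matrix.det_updateRow_sum (M.updateRow i r) j fun k => C (w k)
  have e3 : ∑ k, C (w k) • (M.updateRow i r) k = (X - C x) • r' := by
    rw [← hr']
    refine Finset.sum_congr rfl fun k _ => ?_
    by_cases h : k = i
    · simp [h, h0]
    · rw [Matrix.updateRow_ne h]
  rw [hr, Matrix.det_updateRow_smul] at e1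
  rw [e3, Matrix.det_updateRow_smul] at e2
  refine (IsUnit.dvd_mul_left ((isUnit_C.2 hw.isUnit).mul (isUnit_C.2 hv.isUnit))).1
    ⟨((M.updateRow i r).updateRow j r').det, ?_⟩
  rw [smul_eq_mul] at e1 e2
  rw [mul_assoc, ← e1, mul_left_comm, ← e2]; ring

theorem nil_split1 {K : Type} [Field K] [IsAlgClosed K] {A : Type} [CommRing A] [Algebra K A]
    [Module.Finite K A] (a : A) (h : ∀ χ : A →ₐ[K] K, χ a = 0) : IsNilpotent a := by
  refine nilpotent_iff_mem_prime.2 fun J hJ => ?_
  let e := AlgEquiv.ofBijective (Algebra.ofId K (A ⧸ J)) IsAlgClosed.algebraMap_bijective_of_isIntegral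
  have := h (e.symm.toAlgHom.comp (Ideal.Quotient.mkₐ K J))
  exact Ideal.Quotient.eq_zero_iff_mem.1 ((map_eq_zero_iff _ e.symm.injective).1 this)

theorem mono_split1 {K : Type} [Field K] [IsAlgClosed K] {A : Type} [CommRing A] [Algebra K A]
    [Module.Finite K A] (H : ∀ ε η : A, IsNilpotent ε → IsNilpotent η → ε ≠ 0 → ∃ c : K, η = c • ε) :
    ∃ s : A, (Function.Injective fun χ : A →ₐ[K] K => χ s) ∧
      Module.finrank K A ≤ Fintype.card (A →ₐ[K] K) + 1 ∧
      ∀ p : K[X], p.degree < Module.finrank K A → aeval s p = 0 → p = 0 := by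
  classical
  obtain ⟨s, hs⟩ : ∃ s : A, Function.Injective fun χ : A →ₐ[K] K => χ s := by
    obtain ⟨s, hs⟩ := Submodule.exists_forall_notMem_of_forall_ne_top
      (fun q : {q : (A →ₐ[K] K) × (A →ₐ[K] K) // q.1 ≠ q.2} =>
        LinearMap.ker (q.1.1.toLinearMap - q.1.2.toLinearMap)) fun q hq =>
      q.2 (AlgHom.toLinearMap_injective (sub_eq_zero.1 (LinearMap.ker_eq_top.1 hq)))
    exact ⟨s, fun χ χ' h => by_contra fun hne => hs ⟨(χ, χ'), hne⟩ (sub_eq_zero.2 h)⟩
  let Φ : A →ₗ[K] (A →ₐ[K] K) → K := LinearMap.pi fun χ => χ.toLinearMap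
  have hk : ∀ a, Φ a = 0 → IsNilpotent a := fun a ha => nil_split1 a (congrFun ha)
  have hr := Φ.finrank_range_add_finrank_ker
  have hr' : Module.finrank K (LinearMap.range Φ) ≤ Fintype.card (A →ₐ[K] K) :=
    (Submodule.finrank_le _).trans (Module.finrank_fintype_fun_eq_card K).le
  have root : ∀ (t : A) (p : K[X]), aeval t p = 0 → ∀ χ : A →ₐ[K] K, p.eval (χ t) = 0 :=
    fun t p hp χ => by rw [← coe_aeval_eq_eval, aeval_algHom_apply, hp, map_zero]
  by_cases h0 : LinearMap.ker Φ = ⊥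
  · rw [h0, finrank_bot] at hr
    refine ⟨s, hs, by omega, fun p hp h => ?_⟩
    by_contra hne
    refine hne (eq_zero_of_natDegree_lt_card_of_eval_eq_zero p hs (root s p h) ?_)
    have := (natDegree_lt_iff_degree_lt hne).2 hp
    omega
  obtain ⟨ε, hε, hε0⟩ := Submodule.exists_mem_ne_zero_of_ne_bot h0
  have h1 : Module.finrank K (LinearMap.ker Φ) ≤ 1 := finrank_le_one ⟨ε, hε⟩ fun w => by
    obtain ⟨c, hc⟩ := H ε w (hk ε hε) (hk w w.2) hε0
    exact ⟨c, Subtype.ext hc.symm⟩
  choose l hl using fun y : A => H ε (y * ε) (hk ε hε)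
    ((Commute.all y ε).isNilpotent_mul_left (hk ε hε)) hε0
  have inj : ∀ c c' : K, c • ε = c' • ε → c = c' := fun c c' h => smul_left_injective K hε0 h
  let lam : A →ₐ[K] K :=
    { toFun := l
      map_one' := inj _ _ (by rw [← hl, one_mul, one_smul])
      map_mul' := fun y z => inj _ _ (by rw [← hl, mul_assoc, hl z, mul_smul_comm, hl y, smul_smul, mul_comm])
      map_zero' := inj _ _ (by rw [← hl, zero_mul, zero_smul])
      map_add' := fun y z => inj _ _ (by rw [← hl, add_mul, hl y, hl z, add_smul])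
      commutes' := fun c => inj _ _ (by rw [← hl, Algebra.smul_def]; rfl) }
  have hχ : ∀ χ : A →ₐ[K] K, χ ε = 0 := congrFun hε
  let m : K[X] := ∏ χ : A →ₐ[K] K, (X - C (χ s))
  have hm : m.Monic := monic_prod_of_monic _ _ fun _ _ => monic_X_sub_C _
  have hmd : m.natDegree = Fintype.card (A →ₐ[K] K) := by
    simp [m, natDegree_prod_of_monic, monic_X_sub_C]
  obtain ⟨t, ht, htm⟩ : ∃ t : A, (∀ χ : A →ₐ[K] K, χ t = χ s) ∧ aeval t m ≠ 0 := by
    by_cases h : aeval s m = 0
    · refine ⟨s + ε, fun χ => by rw [map_add, hχ, add_zero], ?_⟩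
      rw [aeval_add_of_sq_eq_zero _ _ _ (by rw [sq, hl, show l ε = 0 from hχ lam, zero_smul]), h,
        zero_add, hl]
      refine smul_ne_zero ?_ hε0
      change lam _ ≠ 0
      rw [← aeval_algHom_apply]
      exact (separable_prod_X_sub_C_iff.2 hs).aeval_derivative_ne_zero (root s m h lam)
    · exact ⟨s, fun _ => rfl, h⟩
  refine ⟨t, by simpa only [ht] using hs, by omega, fun p hp h => ?_⟩
  by_contra hne
  obtain ⟨q, rfl⟩ : m ∣ p := Finset.prod_dvd_of_coprime
    (fun χ _ χ' _ hc => isCoprime_X_sub_C_of_isUnit_sub (sub_ne_zero.2 (hs.ne hc)).isUnit)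
    fun χ _ => dvd_iff_isRoot.2 (ht χ ▸ root t p h χ)
  have hq : q ≠ 0 := right_ne_zero_of_mul hne
  have := (natDegree_lt_iff_degree_lt hne).2 hp
  rw [hm.natDegree_mul' hq] at this
  rw [eq_C_of_natDegree_eq_zero (show q.natDegree = 0 by omega)] at h hq
  rw [map_mul, aeval_C, mul_comm, ← Algebra.smul_def] at h
  exact smul_ne_zero (C_ne_zero.1 hq) htm h

theorem p_SPLIT1 (hSPLIT : S_SPLIT) (hNIL : S_NIL) (hCHP : S_CHP) (hDISC : S_DISC) :
    S_SPLIT1 := by
  intro K _ _ b D x hx
  classical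
  have ker : ∀ o : (D.fib x).A, IsNilpotent o → ∀ l, ∑ k, o k * (D.toStr.T k l).eval x = 0 := by
    intro o ho l
    have h1 : (D.fib x).tr (o * (D.fib x).e l) = 0 :=
      (Matrix.isNilpotent_trace_of_isNilpotent
        (((Commute.all _ _).isNilpotent_mul_right ho).map (D.fib x).L)).eq_zero
    rw [← h1]
    conv_rhs => rw [← (D.fib x).sum_e o, Finset.sum_mul, map_sum]
    refine Finset.sum_congr rfl fun k _ => ?_
    rw [smul_mul_assoc, map_smul, smul_eq_mul]
    exact congrArg _ (congrFun₂ (D.toStr.T_map (evalRingHom x)) k l).symm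
  obtain ⟨s, h1, h2, h3⟩ := mono_split1 (K := K) (A := (D.fib x).A) fun ε η hε hη h0 => by
    obtain ⟨i, hi⟩ := Function.ne_iff.1 h0
    refine ⟨η i / ε i, sub_eq_zero.1 (by_contra fun hw => hx ?_)⟩
    obtain ⟨j, hj⟩ := Function.ne_iff.1 hw
    have := sq_split1 D.toStr.T x ε _ i j hi hj
      (by rw [Str.sub_apply, Str.smul_apply, div_mul_cancel₀ _ hi, sub_self]) (ker ε hε)
      (ker _ ((Commute.all _ _).isNilpotent_sub hη (hε.smul _)))
    rw [← Str.disc, D.hd] at this
    exact (IsUnit.dvd_mul_left (isUnit_C.2 D.c.isUnit)).1 this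
  have hb : Module.finrank K (D.fib x).A = b := by
    rw [Module.finrank_eq_card_basis (D.fib x).bas, Fintype.card_fin]
  rw [hb] at h2 h3
  refine ⟨s, Finset.univ.image fun χ : (D.fib x).A →ₐ[K] K => χ s, fun h => ?_, ?_, fun z hz => ?_⟩
  · obtain ⟨v, hv, h4⟩ := Matrix.exists_vecMul_eq_zero_iff.2 h
    have h5 := h3 _ (degree_sum_fin_lt v) (by
      ext i
      simp only [map_sum, map_mul, aeval_C, map_pow, aeval_X, ← Algebra.smul_def, Str.sum_apply,
        Str.smul_apply]
      exact congrFun h4 i)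
    refine hv (funext fun j => ?_)
    have := congrArg (coeff · j) h5
    simpa [finsetSum_coeff, coeff_X_pow, Fin.val_inj] using this
  · rwa [Finset.card_image_of_injective _ h1]
  · obtain ⟨χ, -, rfl⟩ := Finset.mem_image.1 hz
    rw [IsRoot, ← coe_aeval_eq_eval, aeval_algHom_apply, Str.aeval_ch, map_zero]

end Pool.Agent.P.MP_ab0431_ag.UB

namespace Pool.Agent.P.MP_ab0431_ag.UB

open Polynomial Set Filter Topology

theorem smul_maxs {R : Type} [CommRing R] {b : ℕ} (M : Matrix (Fin b) (Fin b) R) (g : R) (j : ℕ) :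
    (g • M).charpoly.coeff j = g ^ (b - j) * M.charpoly.coeff j := by
  nontriviality R
  rcases le_or_gt j b with h | h
  · have e := fun N : Matrix (Fin b) (Fin b) R =>
      Matrix.charpoly_coeff_eq_sum_minors N (b - j) (by simp)
    simp only [Fintype.card_fin, Nat.sub_sub_self h] at e
    rw [e, e, mul_left_comm, Finset.mul_sum _ _ (g ^ _)]
    congr 1
    refine Finset.sum_congr rfl fun s hs => ?_
    rw [Matrix.submatrix_smul, Pi.smul_apply, Pi.smul_apply, Matrix.det_smul, Fintype.card_coe,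
      (Finset.mem_powersetCard.1 hs).2]
  · rw [coeff_eq_zero_of_natDegree_lt (by simpa using h),
      coeff_eq_zero_of_natDegree_lt (by simpa using h), mul_zero]

theorem tr_maxs {S : Type} [CommRing S] {b : ℕ} (D : Str S b) {π : S} (hπ : Prime π) {x : D.A}
    (h : ∀ j, π ^ (b - j) ∣ (D.ch x).coeff j) (y : D.A) : π ∣ D.tr (x * y) := by
  have := (Ideal.span_singleton_prime hπ.ne_zero).2 hπ
  let φ := Ideal.Quotient.mk (Ideal.span {π})
  have h1 : (D.map φ).ch (D.mapA φ x) = X ^ b := by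
    ext j
    rw [coeff_X_pow]
    rcases lt_trichotomy j b with e | e | e
    · rw [if_neg e.ne, D.ch_map, coeff_map, Ideal.Quotient.eq_zero_iff_dvd]
      exact (dvd_pow_self π (by omega)).trans (h j)
    · rw [if_pos e, e.trans ((D.map φ).ch_natDegree (D.mapA φ x)).symm]
      exact (Str.ch_monic _ _).coeff_natDegree
    · rw [if_neg e.ne', coeff_eq_zero_of_natDegree_lt (by rwa [Str.ch_natDegree])]
  have h2 := (D.map φ).aeval_ch (D.mapA φ x)
  rw [h1, aeval_X_pow] at h2
  have h3 : IsNilpotent (D.mapA φ (x * y)) := ⟨b, by rw [map_mul, mul_pow, h2, zero_mul]⟩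
  rw [← Ideal.Quotient.eq_zero_iff_dvd, ← D.tr_map, Str.tr_apply]
  exact (Matrix.isNilpotent_trace_of_isNilpotent (h3.map _)).eq_zero

theorem sq_maxs (hNEWT : S_NEWT) {S : Type} [CommRing S] {b : ℕ} (D : Str S b) {π : S}
    (hπ : Prime π) {x : D.A} (h : ∀ j, π ^ (b - j) ∣ (D.ch x).coeff j) (hb : 0 < b) :
    π * π ∣ D.tr (x * x) := by
  have := nontrivial_of_ne _ _ hπ.ne_zero
  have h1 := hNEWT S b (D.L x) 2
  have h2 : (D.L x).charpoly.coeff b = 1 :=
    (congrArg _ (D.ch_natDegree x)).symm.trans (D.ch_monic x).coeff_natDegree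
  rw [Finset.sum_range_succ, Finset.sum_range_one, if_pos b.zero_le, if_pos (show 1 ≤ b from hb),
    Nat.sub_zero, h2,
    one_mul, Nat.sub_zero, pow_two, ← map_mul, add_assoc, ← eq_neg_iff_add_eq_zero] at h1
  rw [Str.tr_apply, h1, dvd_neg]
  refine dvd_add (mul_dvd_mul ((dvd_pow_self π (by omega)).trans (h _)) ?_) (Dvd.dvd.mul_left ?_ _)
  · simpa [Str.tr_apply] using tr_maxs D hπ h 1
  · split_ifs with e
    · have := h (b - 2)
      rwa [Nat.sub_sub_self e, pow_two] at this
    · exact dvd_zero _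

theorem dvd_maxs (hDISC : S_DISC) (hNEWT : S_NEWT) {S : Type} [CommRing S] [IsDomain S] {b : ℕ}
    (D : Str S b) {π : S} (hπ : Prime π) (hd : ¬π ^ 2 ∣ D.disc) {x : D.A}
    (h : ∀ j, π ^ (b - j) ∣ (D.ch x).coeff j) (i : Fin b) : π ∣ x i := by
  by_contra hx
  let y : Fin b → D.A := fun k => if k = i then x else D.e k
  let d : Fin b → S := fun k => if k = i then π else 1
  have h1 : ∀ k l, ∃ g, D.tr (y k * y l) = d k * (d l * g) := fun k l => by
    by_cases hk : k = i <;> by_cases hl : l = i <;> simp only [y, d, hk, hl, if_true, if_false,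
      one_mul, ← mul_assoc]
    · exact sq_maxs hNEWT D hπ h i.pos
    · exact tr_maxs D hπ h _
    · rw [mul_comm]; exact tr_maxs D hπ h _
    · exact ⟨_, rfl⟩
  choose g hg using h1
  have h2 := (hDISC S b).2.1 D y
  have h3 : (Matrix.of fun k j => y k j) =
      (1 : Matrix _ _ S).updateRow i (∑ k, x k • (1 : Matrix _ _ S) k) := by
    ext k j
    by_cases hk : k = i
    · simp [y, hk, Matrix.one_apply, Finset.sum_apply]
    · simp only [y, Matrix.of_apply, if_neg hk, Matrix.updateRow_ne hk, Matrix.one_apply,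
        Str.e_apply, @eq_comm _ k j]
  have h4 : ∏ k, d k = π := by simp [d]
  rw [h3, Matrix.det_updateRow_sum, Matrix.det_one, smul_eq_mul, mul_one] at h2
  simp only [hg] at h2
  have h5 := Matrix.det_mul_column d (Matrix.of fun k l => d l * g k l)
  have h6 := Matrix.det_mul_row d (Matrix.of g)
  simp only [Matrix.of_apply] at h5 h6
  rw [h5, h6, h4, ← mul_assoc, ← pow_two] at h2
  exact hd (hπ.pow_dvd_of_dvd_mul_left 2 (fun e => hx (hπ.dvd_of_dvd_pow e)) ⟨_, h2.symm⟩)

theorem p_MAXS (hDISC : S_DISC) (hNEWT : S_NEWT) :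
    S_MAXS := by
  intro K _ b D hP g
  induction g using UniqueFactorizationMonoid.induction_on_prime with
  | h₁ => exact fun _ h => absurd rfl h
  | h₂ g hg => exact fun _ _ _ _ => hg.dvd
  | h₃ a π ha hπ ih =>
    intro x _ h
    have hd : ¬π ^ 2 ∣ D.disc := fun e => by
      rw [D.hd, (D.c.isUnit.map C).dvd_mul_left, pow_two] at e
      exact hπ.not_isUnit (hP.squarefree π e)
    choose x' hx using dvd_maxs hDISC hNEWT D.toStr hπ hd fun j =>
      (pow_dvd_pow_of_dvd (dvd_mul_right π a) _).trans (h j)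
    obtain rfl : x = π • (show D.A from x') := funext hx
    intro i
    refine mul_dvd_mul_left π (ih x' ha (fun j => ?_) i)
    have := h j
    rw [Str.ch, map_smul, smul_maxs, mul_pow] at this
    exact (mul_dvd_mul_iff_left (pow_ne_zero _ hπ.ne_zero)).1 this

end Pool.Agent.P.MP_ab0431_ag.UB

namespace Pool.Agent.P.MP_ab0431_ag.UB

open Polynomial Set Filter Topology

theorem card_jc {b : ℕ} (m : ℕ) (a : Fin b → ℕ) :
    Fintype.card (J a m) = ∑ i, (m + 1 - a i) := by
  rw [Fintype.card_subtype, Finset.card_filter, Fintype.sum_prod_type]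
  refine Finset.sum_congr rfl fun i _ => ?_
  rw [Fin.sum_univ_eq_sum_range (fun n => if n + a i ≤ m then 1 else 0), ← Finset.card_filter,
    ← Finset.card_range (m + 1 - a i)]
  congr 1
  ext n
  simp only [Finset.mem_filter, Finset.mem_range]
  omega

theorem p_JC :
    S_JC := by
  intro b m a
  have h : ∀ i ∈ Finset.univ, m + 1 ≤ m + 1 - a i + a i := fun i _ => by omega
  have e : b * (m + 1) = ∑ _i : Fin b, (m + 1) := by simp
  rw [card_jc, ← Finset.sum_add_distrib, e, eq_comm, Finset.sum_eq_sum_iff_of_le h]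
  exact ⟨Finset.sum_le_sum h, fun h i => by have := h i (Finset.mem_univ i); omega,
    fun h i _ => by have := h i; omega⟩

end Pool.Agent.P.MP_ab0431_ag.UB

namespace Pool.Agent.P.MP_ab0431_ag.UB

open Polynomial Set Filter Topology

theorem congr_phi {S : Type} [CommRing S] {b : ℕ} {D D' : Str S b} (h : D.γ = D'.γ)
    (x : Fin b → S) : D.ch x = D'.ch x :=
  congrArg Matrix.charpoly (Matrix.ext fun l j =>
    (D.L_apply x l j).trans (h ▸ (D'.L_apply x l j).symm))

theorem key_phi {R R' : Type} [CommRing R] [CommRing R'] {b m : ℕ} (D : Dat R b)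
    (ψ : MvPolynomial (J D.a m) R →+* R') (D' : Str R'[X] b) {φ : R →+* R'}
    (hφ : ψ.comp MvPolynomial.C = φ) {l : J D.a m → R'} (hl : ψ ∘ MvPolynomial.X = l)
    (h : ∀ i j l, D'.γ i j l = (D.γ i j l).map φ) (G : MvPolynomial (Co b m) R) :
    ψ (D.Phi m G) = MvPolynomial.eval₂ φ (co b m (D'.ch ((D.map φ).el m l))) G := by
  subst hφ hl
  have e := (congr_phi (D := D') (D' := (D.map MvPolynomial.C).toStr.map (mapRingHom ψ))
    (funext fun i => funext fun j => funext fun l => (h i j l).trans (map_map _ _ _).symm) _).trans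
      ((congrArg _ ((D.map MvPolynomial.C).el_map ψ m MvPolynomial.X)).trans (Str.ch_map _ _ _))
  refine (MvPolynomial.eval₂_comp_left ψ _ _ G).trans (Eq.trans ?_
    (congrArg (fun F => MvPolynomial.eval₂ _ (co b m F) G) e).symm)
  congr 1
  funext p
  simp [co]

/-- Polynomials with coefficients in a filtration. -/
def upPhi {S : Type} [CommRing S] (A : ℕ → AddSubgroup S) (n : ℕ) : AddSubgroup S[X] where
  carrier := {F | ∀ j, F.coeff j ∈ A n}
  zero_mem' _ := zero_mem _
  add_mem' h h' j := by rw [coeff_add]; exact add_mem (h j) (h' j)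
  neg_mem' h j := by rw [coeff_neg]; exact neg_mem (h j)

theorem grad_phi {S : Type} [CommRing S] (A : ℕ → AddSubgroup S) [SetLike.GradedMonoid A] :
    SetLike.GradedMonoid (upPhi A) where
  one_mem j := by
    rw [coeff_one]
    split_ifs
    exacts [SetLike.GradedOne.one_mem, zero_mem _]
  mul_mem _ _ _ _ h h' j := by
    rw [coeff_mul]
    exact sum_mem fun p _ => SetLike.GradedMul.mul_mem (h _) (h' _)

theorem mon_phi {S : Type} [CommRing S] {A : ℕ → AddSubgroup S} {n : ℕ} {x : S} (h : x ∈ A n)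
    (k : ℕ) : monomial k x ∈ upPhi A n := fun j => by
  rw [coeff_monomial]
  split_ifs
  exacts [h, zero_mem _]

theorem p_PHI :
    S_PHI := by
  intro R _ b m D G
  refine ⟨fun l => ?_, fun R' _ φ => ?_, ?_⟩
  · exact key_phi D (MvPolynomial.eval l) D.toStr (φ := RingHom.id R) (by ext; simp) (l := l)
      (by ext; simp) (fun i j l => Polynomial.map_id.symm) G
  · refine (MvPolynomial.eval₂_map _ _ _ _).trans (key_phi D (MvPolynomial.map φ)
      ((D.map φ).map MvPolynomial.C).toStr (φ := MvPolynomial.C.comp φ) (by ext; simp)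
      (l := MvPolynomial.X) (by ext1; simp) (fun i j l => map_map _ _ _) G).symm
  let A : ℕ → AddSubgroup (MvPolynomial (J D.a m) R) := fun n =>
    (MvPolynomial.restrictTotalDegree _ R n).toAddSubgroup
  have hA : ∀ n x, x ∈ A n ↔ x.totalDegree ≤ n := fun n x =>
    MvPolynomial.mem_restrictTotalDegree _ _ _
  have : SetLike.GradedMonoid A :=
    { one_mem := (hA _ _).2 MvPolynomial.totalDegree_one.le
      mul_mem := fun _ _ _ _ h h' => (hA _ _).2 ((MvPolynomial.totalDegree_mul _ _).trans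
        (add_le_add ((hA _ _).1 h) ((hA _ _).1 h'))) }
  have := grad_phi A
  have := grad_phi (upPhi A)
  have h1 : ∀ M : Matrix (Fin b) (Fin b) (MvPolynomial (J D.a m) R)[X],
      (∀ i j, M i j ∈ upPhi A 1) → M.charpoly ∈ upPhi (upPhi A) b := fun M hM => by
    rw [Matrix.charpoly, Matrix.det_apply]
    refine sum_mem fun s _ => zsmul_mem ?_ _
    have := SetLike.prod_mem_graded (upPhi (upPhi A)) (fun _ : Fin b => 1)
      (fun i => M.charmatrix (s i) i) (F := Finset.univ) fun i _ => by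
        rw [Matrix.charmatrix_apply, Matrix.diagonal_apply]
        refine sub_mem ?_ (mon_phi (hM _ _) 0)
        split_ifs
        · exact mon_phi (mon_phi ((hA _ _).2 (MvPolynomial.totalDegree_one.trans_le zero_le_one)) 0) 1
        · exact zero_mem _
    simpa using this
  have h2 := h1 ((D.map MvPolynomial.C).toStr.L ((D.map MvPolynomial.C).el m MvPolynomial.X))
    fun l j => by
      rw [Str.L_apply]
      refine sum_mem fun i _ => SetLike.GradedMul.mul_mem (i := 1) (j := 0)
        (sum_mem fun p _ => ?_) fun k => ?_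
      · split_ifs
        · exact mon_phi ((hA _ _).2 (MvPolynomial.isHomogeneous_X _ _).totalDegree_le) _
        · exact zero_mem _
      · exact (hA _ _).2 ((congrArg _ (coeff_map _ _)).trans (MvPolynomial.totalDegree_C _)).le
  rw [Dat.Phi, MvPolynomial.aeval_def, MvPolynomial.eval₂_eq]
  refine MvPolynomial.totalDegree_finsetSum_le fun d hd => (MvPolynomial.totalDegree_mul _ _).trans ?_
  rw [MvPolynomial.algebraMap_eq, MvPolynomial.totalDegree_C, zero_add]
  refine (MvPolynomial.totalDegree_finsetProd _ _).trans (le_trans ?_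
    (Nat.mul_le_mul_left b (MvPolynomial.le_totalDegree hd)))
  rw [Finsupp.sum, Finset.mul_sum]
  exact Finset.sum_le_sum fun p _ => (MvPolynomial.totalDegree_pow _ _).trans
    ((Nat.mul_le_mul_left _ ((hA _ _).1 (h2 p.1 p.2))).trans_eq (mul_comm _ _))

end Pool.Agent.P.MP_ab0431_ag.UB

namespace Pool.Agent.P.MP_ab0431_ag.UB

open Polynomial Set Filter Topology

theorem str_liftd {S : Type} [CommRing S] {b : ℕ} {D E : Str S b} (h : D.γ = E.γ)
    (h' : D.u = E.u) : D = E := by
  cases D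
  cases E
  congr

theorem dat_liftd {R : Type} [CommRing R] {b : ℕ} {D E : Dat R b} (h1 : D.toStr = E.toStr)
    (h2 : D.a = E.a) (h3 : D.c = E.c) (h4 : D.P = E.P) : D = E := by
  cases D
  cases E
  congr

theorem p_LIFTD :
    S_LIFTD := by
  intro R R' _ _ φ b D hφ h1 h2 h3 ⟨c, hc⟩ ⟨c', hc'⟩
  have lf : ∀ p : R'[X], (∀ n, p.coeff n ∈ φ.range) → ∃ q, mapRingHom φ q = p := fun p h =>
    (lifts_iff_coeffs_subset_range p).2 fun x hx => by
      obtain ⟨n, -, rfl⟩ := mem_coeffs_iff.1 hx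
      exact h n
  have hi : Function.Injective (mapRingHom φ) := map_injective φ hφ
  have hco : ∀ (q : R[X]) n, φ (q.coeff n) = (mapRingHom φ q).coeff n := fun q n =>
    (coeff_map φ n).symm
  choose γ hγ using fun i j l => lf _ (h1 i j l)
  choose u hu using fun i => lf _ (h2 i)
  obtain ⟨P, hP⟩ := lf _ h3
  obtain ⟨S, s1, s2⟩ : ∃ S : Str R[X] b, S.γ = γ ∧ S.u = u :=
    ⟨⟨γ, u, fun i j => funext fun l => hi (by rw [hγ, hγ, D.comm]),
      fun i j k l => hi (by simp only [map_sum, map_mul, hγ, D.assoc]),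
      fun j l => hi (by simp only [map_sum, map_mul, hγ, hu, D.one, apply_ite (mapRingHom φ),
        map_one, map_zero])⟩, rfl, rfl⟩
  subst s1 s2
  have hS : S.map (mapRingHom φ) = D.toStr :=
    by
    refine str_liftd (funext fun i => funext fun j => funext fun l => ?_) (funext fun i => ?_)
    exacts [hγ i j l, hu i]
  have e : c * c' = 1 := hφ (by rw [map_mul, hc, hc', Units.mul_inv, map_one])
  exact ⟨⟨S, D.a, fun i j l n h => hφ (by rw [hco, hγ, D.dγ i j l n h, map_zero]),
    fun i n h => hφ (by rw [hco, hu, D.d1 i n h, map_zero]), ⟨c, c', e, mul_comm c c' ▸ e⟩, P,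
    hφ (by rw [hco, hP, D.P1, map_one]), fun n h => hφ (by rw [hco, hP, D.P0 n h, map_zero]),
    hi (by rw [← Str.disc_map, hS, D.hd, map_mul, hP, coe_mapRingHom, map_C, hc])⟩,
    dat_liftd hS rfl (Units.ext hc) hP⟩

end Pool.Agent.P.MP_ab0431_ag.UB

namespace Pool.Agent.P.MP_ab0431_ag.UB

open Polynomial Set Filter Topology

section
variable {R : Type} [CommRing R] {b m n : ℕ} (D : Dat R b)

/-- The coordinatewise derivative. -/
noncomputable def d0_der : D.A →+ D.A where
  toFun y i := derivative (y i)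
  map_zero' := funext fun _ => derivative_zero
  map_add' _ _ := funext fun _ => derivative_add

theorem d0_smul_der (f : R[X]) (y : D.A) :
    d0_der D (f • y) = derivative f • y + f • d0_der D y := funext fun _ => derivative_mul

/-- The defect of the Leibniz rule. -/
noncomputable def psi_der : D.A →ₗ[R[X]] D.A →ₗ[R[X]] D.A :=
  LinearMap.mk₂ R[X] (fun y z => d0_der D (y * z) - y * d0_der D z - z * d0_der D y)
    (fun x y z => by simp only [add_mul, map_add]; ring)
    (fun f y z => by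
      rw [smul_mul_assoc, d0_smul_der, d0_smul_der]; simp only [Algebra.smul_def]; ring)
    (fun x y z => by simp only [mul_add, map_add]; ring)
    (fun f y z => by
      rw [mul_smul_comm, d0_smul_der, d0_smul_der]; simp only [Algebra.smul_def]; ring)

theorem psi_eq_der (y z : D.A) :
    psi_der D y z = d0_der D (y * z) - y * d0_der D z - z * d0_der D y := rfl

theorem canc_der {x y : D.A} (h : D.disc • x = D.disc • y) : x = y := funext fun i => by
  have := congrArg (C ((D.c⁻¹ : Rˣ) : R) * ·) (congrFun h i)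
  simp only [Str.smul_apply, D.hd, ← mul_assoc, ← C_mul, Units.inv_mul, C_1, one_mul] at this
  exact D.P_monic.isRegular.left this

variable {D}

theorem smul_der {f : R[X]} {z : D.A} (hf : ∀ k, m < k → f.coeff k = 0) (h : D.Deg n z) :
    D.Deg (n + m) (f • z) := fun i k hk => by
  rw [Str.smul_apply, coeff_mul]
  refine Finset.sum_eq_zero fun p hp => ?_
  have := Finset.HasAntidiagonal.mem_antidiagonal.1 hp
  rcases lt_or_ge m p.1 with a | a
  · rw [hf _ a, zero_mul]
  · rw [h i _ (by omega), mul_zero]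

theorem xd_der {z : D.A} (h : D.Deg n z) : D.Deg n ((X : R[X]) • d0_der D z) := fun i k hk => by
  change (X * derivative (z i)).coeff k = 0
  rcases k with _ | k
  · exact coeff_X_mul_zero _
  · rw [coeff_X_mul, coeff_derivative, h i _ hk, zero_mul]

theorem add_der {y z : D.A} (h : D.Deg n y) (h' : D.Deg n z) : D.Deg n (y + z) := fun i k hk => by
  rw [Str.add_apply, coeff_add, h i k hk, h' i k hk, add_zero]

theorem sub_der {y z : D.A} (h : D.Deg n y) (h' : D.Deg n z) : D.Deg n (y - z) := fun i k hk => by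
  rw [Str.sub_apply, coeff_sub, h i k hk, h' i k hk, sub_zero]

theorem e_der (l : Fin b) : D.Deg (D.a l) (D.e l) := fun i k hk => by
  rw [Str.e_apply]
  split_ifs with h
  · subst h
    rw [coeff_one, if_neg (by omega)]
  · rfl

end

theorem p_DER (hCHS : S_CHS) (hTUP : S_TUP) :
    S_DER := by
  intro R _ b D
  obtain ⟨Dt, -, -, -, hm, -, hdu⟩ := hTUP R b D
  have c3 := fun o => (hCHS _ b D.toStr o).2.2.1
  have c4 := fun o => (hCHS _ b D.toStr o).2.2.2
  have tr : ∀ y : D.A, D.tr y = ∑ l, (y * D.e l) l := fun y =>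
    (D.tr_apply y).trans <| Finset.sum_congr rfl fun l _ => by
      rw [Matrix.diag_apply, Str.L, Algebra.leftMulMatrix_eq_repr_mul, Str.bas_apply, Str.bas_repr]
  have f1 : ∑ l, D.e l * D.du l = D.disc • (1 : D.A) := canc_der D (by
    rw [← c4, ← c4 1, Finset.smul_sum]
    refine Finset.sum_congr rfl fun k _ => ?_
    rw [smul_smul, one_mul, tr (D.e k), Finset.mul_sum, Finset.sum_mul, map_sum]
    refine congrArg (· • _) (Finset.sum_congr rfl fun l _ => ?_)
    rw [← c3]
    congr 1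
    ring)
  have f2 : ∀ (y : D.A) k, y * D.du k = ∑ l, (y * D.e l) k • D.du l := fun y k => canc_der D (by
    rw [← c4, Finset.smul_sum]
    refine Finset.sum_congr rfl fun l _ => ?_
    rw [smul_smul, ← c3]
    congr 2
    ring)
  let th : D.A →ₗ[R[X]] D.A := ∑ l, (LinearMap.mulRight R[X] (D.du l)).comp
    ((psi_der D).flip (D.e l))
  have et : ∀ y, th y = ∑ l, psi_der D y (D.e l) * D.du l := fun y => by simp [th]
  have f3 : ∀ x y, th (x * y) + D.disc • psi_der D x y = x * th y + y * th x := fun x y => by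
    have e : y * th x = ∑ l, psi_der D x (y * D.e l) * D.du l := by
      simp only [et, Finset.mul_sum, mul_left_comm y, f2 y]
      rw [Finset.sum_comm]
      refine Finset.sum_congr rfl fun l _ => ?_
      conv_rhs => rw [← D.sum_e (y * D.e l), map_sum, Finset.sum_mul]
      simp only [map_smul, mul_smul_comm, smul_mul_assoc]
    rw [e, ← one_mul (psi_der D x y), ← smul_mul_assoc, ← f1, et, et, Finset.sum_mul,
      Finset.mul_sum, ← Finset.sum_add_distrib, ← Finset.sum_add_distrib]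
    refine Finset.sum_congr rfl fun l _ => ?_
    simp only [psi_eq_der, mul_assoc]
    ring
  let ci : R[X] := C ((D.c⁻¹ : Rˣ) : R)
  have hc : ci * D.disc = D.P := by
    rw [D.hd, ← mul_assoc, ← C_mul, Units.inv_mul, C_1, one_mul]
  refine ⟨D.P • d0_der D + ci • th.toAddMonoidHom, fun y z => ?_, fun g y => ?_,
    fun n y i k h hk => ?_⟩
  · change D.P • d0_der D (y * z) + ci • th (y * z) =
      y * (D.P • d0_der D z + ci • th z) + z * (D.P • d0_der D y + ci • th y)
    rw [eq_sub_of_add_eq (f3 y z), psi_eq_der, ← hc]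
    simp only [Algebra.smul_def, map_mul]
    ring
  · change D.P • d0_der D (g • y) + ci • th (g • y) = _ + g • (D.P • d0_der D y + ci • th y)
    rw [d0_smul_der, map_smul]
    module
  · have k1 : D.Deg (n + D.w) ((X : R[X]) • th y) := fun i k hk => by
      rw [et, Finset.smul_sum, Str.sum_apply, finsetSum_coeff]
      refine Finset.sum_eq_zero fun l _ => ?_
      have hl : D.a l ≤ ∑ i, D.a i :=
        Finset.single_le_sum (fun _ _ => Nat.zero_le _) (Finset.mem_univ l)
      rw [← smul_mul_assoc, psi_eq_der, smul_sub, smul_sub, ← mul_smul_comm, ← mul_smul_comm,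
        mul_comm (D.e l)]
      refine (hm _ _ _ _ (sub_der (sub_der (xd_der (hm _ _ _ _ h (e_der l)).1)
        (hm _ _ _ _ h (xd_der (e_der l))).1) (hm _ _ _ _ (xd_der h) (e_der l)).1) (hdu l)).1 i k ?_
      rw [Dat.w] at hk ⊢
      omega
    have k2 := add_der (smul_der (m := D.w) D.P0 (xd_der h))
      (smul_der (f := ci) (m := 0) (fun k hk => coeff_C_of_ne_zero hk.ne') k1) i (k + 1) (by omega)
    rw [smul_comm D.P, smul_comm ci, ← smul_add, Str.smul_apply, coeff_X_mul] at k2
    exact k2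

end Pool.Agent.P.MP_ab0431_ag.UB

namespace Pool.Agent.P.MP_ab0431_ag.UB

open Polynomial Set Filter Topology

theorem alg_hyp (K S T : Type) [Field K] [CommRing S] [CommRing T] [IsDomain T] [Algebra K S]
    [Algebra K T] [Algebra S T] [IsScalarTower K S T] [FaithfulSMul S T] [Algebra.IsAlgebraic S T] :
    Algebra.trdeg K T = Algebra.trdeg K S := by
  have := (FaithfulSMul.algebraMap_injective S T).isDomain
  rw [← trdeg_add_eq K S (A := T), trdeg_eq_zero (R := S), add_zero]

theorem root_hyp (K B : Type) [Field K] [CommRing B] [IsDomain B] [Algebra K B] {π : B[X]}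
    (h : Prime π) (hd : π.natDegree ≠ 0) :
    Algebra.trdeg K (B[X] ⧸ Ideal.span {π}) = Algebra.trdeg K B := by
  have := AdjoinRoot.isDomain_of_prime h
  have : FaithfulSMul B (AdjoinRoot π) := (faithfulSMul_iff_algebraMap_injective _ _).2
    (AdjoinRoot.of.injective_of_degree_ne_zero fun e => hd (natDegree_eq_zero_iff_degree_le_zero.2 e.le))
  have : Algebra.IsAlgebraic B (AdjoinRoot π) := ⟨fun x => by
    have h1 : Algebra.adjoin B {AdjoinRoot.root π} ≤ Subalgebra.algebraicClosure B (AdjoinRoot π) :=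
      Algebra.adjoin_le (singleton_subset_iff.2 (AdjoinRoot.isAlgebraic_root h.ne_zero))
    exact h1 (by rw [AdjoinRoot.adjoinRoot_eq_top]; trivial)⟩
  exact alg_hyp K B (AdjoinRoot π)

theorem mv_hyp (K : Type) [Field K] {s : ℕ} {π : MvPolynomial (Fin s) K} (h : Prime π) :
    ∃ n : ℕ, s = n + 1 ∧ Algebra.trdeg K (MvPolynomial (Fin s) K ⧸ Ideal.span {π}) = n := by
  obtain ⟨i, hi⟩ : π.vars.Nonempty := Finset.nonempty_of_ne_empty fun e => by
    rw [MvPolynomial.vars_eq_empty_iff_eq_C] at e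
    refine h.not_isUnit (e ▸ IsUnit.map _ (IsUnit.mk0 _ fun e0 => h.ne_zero ?_))
    rw [e, e0, map_zero]
  obtain ⟨n, rfl⟩ : ∃ n, s = n + 1 := ⟨s - 1, by have := i.2; omega⟩
  let e := (MvPolynomial.renameEquiv K (Equiv.swap i 0)).trans (MvPolynomial.finSuccEquiv K n)
  have h1 : (e π).natDegree ≠ 0 := by
    have := MvPolynomial.degreeOf_rename_of_injective (p := π) (Equiv.swap i 0).injective i
    rw [Equiv.swap_apply_left] at this
    rw [AlgEquiv.trans_apply, MvPolynomial.natDegree_finSuccEquiv, MvPolynomial.renameEquiv_apply,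
      this]
    exact MvPolynomial.mem_vars_iff_degreeOf_ne_zero.1 hi
  refine ⟨n, rfl, ?_⟩
  refine ((AlgEquiv.trdeg_eq (A' := (MvPolynomial (Fin n) K)[X] ⧸ Ideal.span {e π})
    (Ideal.quotientEquivAlg _ _ e (by rw [Ideal.map_span, image_singleton]; rfl))).trans
    (root_hyp K _ ((MulEquiv.prime_iff e).2 h) h1)).trans ?_
  simp

theorem core_hyp (K R : Type) [Field K] [CommRing R] [IsDomain R] [Algebra K R]
    [Algebra.FiniteType K R] (Q : Ideal R) [Q.IsPrime] (h0 : Q ≠ ⊥) (h1 : Q.height ≤ 1) :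
    (Algebra.trdeg K (R ⧸ Q)).toNat + 1 = (Algebra.trdeg K R).toNat := by
  obtain ⟨s, g, g1, g2⟩ := exists_integral_inj_algHom_of_fg K R
  algebraize [g.toRingHom]
  have : FaithfulSMul (MvPolynomial (Fin s) K) R := (faithfulSMul_iff_algebraMap_injective _ _).2 g1
  have : Algebra.IsIntegral (MvPolynomial (Fin s) K) R := ⟨g2⟩
  obtain ⟨π, h2, h3⟩ := Ideal.IsPrime.exists_mem_prime_of_ne_bot
    (I := Q.under (MvPolynomial (Fin s) K)) inferInstance fun e => h0 (Ideal.eq_bot_of_comap_eq_bot e)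
  have := (Ideal.span_singleton_prime h3.ne_zero).2 h3
  have h4 : Ideal.span {π} = Q.under (MvPolynomial (Fin s) K) :=
    ((Ideal.span_singleton_le_iff_mem _).2 h2).eq_or_lt.resolve_right fun e => by
      obtain ⟨P, p1, p2, p3⟩ := Ideal.exists_ideal_lt_liesOver_of_lt (Q := Q) (hpq := e)
      have p4 : P.height = 0 := by
        have := (Ideal.height_add_one_le_of_lt_of_isPrime p1).trans h1
        exact nonpos_iff_eq_zero.1 (by simpa using (ENat.add_le_add_iff_right (by simp)).1 (this.trans_eq (zero_add 1).symm))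
      rw [Ideal.height_eq_zero_iff_eq_bot] at p4
      have p5 : π ∈ P.under (MvPolynomial (Fin s) K) := p3.over ▸ Ideal.mem_span_singleton_self π
      rw [p4] at p5
      exact h3.ne_zero (g1 ((Ideal.mem_bot.1 p5).trans (map_zero g).symm))
  have : Q.LiesOver (Ideal.span {π}) := ⟨h4⟩
  obtain ⟨n, rfl, h5⟩ := mv_hyp K h3
  rw [alg_hyp K (MvPolynomial (Fin (n + 1)) K ⧸ Ideal.span {π}) (R ⧸ Q), h5,
    alg_hyp K (MvPolynomial (Fin (n + 1)) K) R]
  simp

theorem p_HYP :
    S_HYP := by
  intro K σ _ _ p q f hp hf hq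
  have := hq.isPrime
  have h1 : p ≤ q := le_sup_left.trans hq.le
  have : (q.map (Ideal.Quotient.mk p)).IsPrime :=
    Ideal.map_isPrime_of_surjective Ideal.Quotient.mk_surjective (p.mk_ker.trans_le h1)
  have h2 := core_hyp K _ (q.map (Ideal.Quotient.mk p)) (fun e => hf (Ideal.Quotient.eq_zero_iff_mem.1
    (Ideal.mem_bot.1 (e ▸ Ideal.mem_map_of_mem _ (hq.le (Ideal.mem_sup_right
      (Ideal.mem_span_singleton_self f))))))) (Ideal.map_height_le_one_of_mem_minimalPrimes hq)
  have h3 := AlgEquiv.trdeg_eq (A := (MvPolynomial σ K ⧸ p) ⧸ q.map (Ideal.Quotient.mk p))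
    (DoubleQuot.quotQuotEquivQuotOfLEₐ K h1)
  exact (congrArg (fun c => Cardinal.toNat c + 1) h3).symm.trans h2

end Pool.Agent.P.MP_ab0431_ag.UB

namespace Pool.Agent.P.MP_ab0431_ag.UB

open Polynomial Set Filter Topology

theorem pig_main {α : Type} [DecidableEq α] {n M : ℕ} (S : Finset α) (κ : Fin n → α)
    (hκ : ∀ i, κ i ∈ S) (h : M < n) :
    ∃ a ∈ S, M < S.card * (Finset.univ.filter fun i => κ i = a).card := by
  by_contra hc
  push Not at hc
  have h0 : 0 < S.card := Finset.card_pos.2 ⟨_, hκ ⟨0, by omega⟩⟩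
  have h1 := Finset.card_eq_sum_card_fiberwise (s := Finset.univ) (t := S) (f := κ)
    fun i _ => hκ i
  rw [Finset.card_univ, Fintype.card_fin] at h1
  have h2 : S.card * n ≤ S.card * M := by
    calc S.card * n = ∑ a ∈ S, S.card * (Finset.univ.filter fun i => κ i = a).card := by
          rw [← Finset.mul_sum, ← h1]
      _ ≤ ∑ _a ∈ S, M := Finset.sum_le_sum hc
      _ = _ := by rw [Finset.sum_const, smul_eq_mul]
  exact absurd (Nat.le_of_mul_le_mul_left h2 h0) (not_le.2 h)

theorem nr_main (hTOP : S_TOP) {b m : ℕ} {c : Co b m → ℂ} (h : Good c) : nr c ≤ b ^ 2 := by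
  have h1 := (hTOP ℂ b 1 (toP c) (toP_monic c) (toP_natDegree c) h.1).1
  calc nr c ≤ (Δ b (toP c)).roots.card := Multiset.toFinset_card_le _
    _ ≤ (Δ b (toP c)).natDegree := card_roots' _
    _ ≤ 1 * (b * (b - 1)) := natDegree_le_iff_coeff_eq_zero.2 h1
    _ ≤ b ^ 2 := by rw [one_mul, sq]; exact Nat.mul_le_mul_left _ (Nat.sub_le _ _)

theorem p_MAIN (hPMEX : S_PMEX) (hAMAIN : S_AMAIN) (hBMAIN : S_BMAIN) (hCMAIN : S_CMAIN) (hDMAIN : S_DMAIN) (hARITH : S_ARITH) (hTOP : S_TOP) :
    S_MAIN := by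
  classical
  intro m hm
  obtain ⟨Q⟩ := hPMEX
  obtain ⟨C, hC⟩ := hAMAIN Q m hm
  obtain ⟨C', hC'⟩ := hARITH C
  refine ⟨C', fun y n X hn hX => ?_⟩
  let S : Finset (ℕ × ℕ × ℕ × ℕ) := Finset.range (C * y + 1) ×ˢ Finset.range (C * y + 1) ×ˢ
    Finset.range (C * y + 1) ×ˢ Finset.range ((C * y) ^ 2 + 1)
  have hS : S.card = (C * y + 1) ^ 3 * ((C * y) ^ 2 + 1) := by
    simp only [S, Finset.card_product, Finset.card_range]; ring
  have h1 : ∀ i, ∃ a ∈ S, ∃ c : Co a.1 6 → ℂ, c ∈ Y0 a.1 a.2.1 6 ∧ (Good c ∧ nr c = a.2.2.2) ∧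
      IsCov Q (X i) (Bc Q c) a.2.2.1 := fun i => by
    obtain ⟨b, w, d, c, hb, hw, hd, h1, h2, h3⟩ := hC y (X i) (hX i).1 (hX i).2
    refine ⟨(b, w, d, nr c), ?_, c, h1, ⟨h2, rfl⟩, h3⟩
    have := (nr_main hTOP h2).trans (Nat.pow_le_pow_left hb 2)
    simp only [S, Finset.mem_product, Finset.mem_range]
    omega
  choose κ hκ hc using h1
  obtain ⟨⟨b, w, d, nn⟩, ha, hM⟩ := pig_main S κ hκ hn
  simp only [S, Finset.mem_product, Finset.mem_range] at ha
  obtain ⟨I, k, hk, hI, hY⟩ := hBMAIN b w 6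
  have h2 := (hC' y b w d k (by omega) (by omega) (by omega) hk).trans_lt hM
  rw [hS] at h2
  have h3 := Nat.lt_of_mul_lt_mul_left h2
  have h4 : ∀ i : {i // κ i = (b, w, d, nn)}, ∃ c : Co b 6 → ℂ, c ∈ Y0 b w 6 ∧
      (Good c ∧ nr c = nn) ∧ IsCov Q (X i.1) (Bc Q c) d := fun i => by
    have := hc i.1
    rw [i.2] at this
    exact this
  choose c hc1 hc2 hc3 using h4
  obtain ⟨f, U, s, hf, hs, hsf⟩ := hCMAIN b 6 k (Gam b w 6) nn ((d ^ 2 + 1) ^ b) I _ c hI
    (fun i => hY _ (hc1 i)) hc2 (by rw [Fintype.card_subtype]; exact h3)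
  obtain ⟨i, j, hij, h⟩ := hDMAIN Q b 6 d nn _ U s (fun j => X (f j).1) hs le_rfl
    fun j => by rw [hsf]; exact hc3 _
  exact ⟨_, _, fun e => hij (hf (Subtype.ext e)), h⟩

end Pool.Agent.P.MP_ab0431_ag.UB
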