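import Pool.Agent.P.MP_ab0431_ag.UB.IfaceT

/-! Steps PMEX ARITH. -/

set_option autoImplicit false
set_option linter.unusedSectionVars false
set_option linter.unusedVariables false

namespace Pool.Agent.P.MP_ab0431_ag.UB

open Polynomial Set Filter Topology

open scoped Manifold ContDiff ComplexConjugate

/-- The square of the norm. -/
noncomputable def nn_pmex (v : Fin 3 → ℂ) : ℂ := ∑ k, v k * conj (v k)

/-- The orthogonal projection on a line. -/
noncomputable def pr_pmex (v : Fin 3 → ℂ) : Fin 3 → Fin 3 → ℂ :=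
  fun i j => v i * conj (v j) / nn_pmex v

theorem nn_ne_pmex {v : Fin 3 → ℂ} (h : v ≠ 0) : nn_pmex v ≠ 0 := fun e => h (funext fun k => by
  simp only [nn_pmex, Complex.mul_conj, ← Complex.ofReal_sum, Complex.ofReal_eq_zero] at e
  exact Complex.normSq_eq_zero.1 ((Finset.sum_eq_zero_iff_of_nonneg fun k _ =>
    Complex.normSq_nonneg _).1 e k (Finset.mem_univ k)))

theorem smul_pmex {c : ℂ} (hc : c ≠ 0) (v : Fin 3 → ℂ) : pr_pmex (c • v) = pr_pmex v := by
  funext i j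
  have : nn_pmex (c • v) = c * conj c * nn_pmex v := by
    simp only [nn_pmex, Finset.mul_sum, Pi.smul_apply, smul_eq_mul, map_mul, mul_mul_mul_comm]
  rw [pr_pmex, pr_pmex, this, Pi.smul_apply, Pi.smul_apply, smul_eq_mul, smul_eq_mul, map_mul,
    mul_mul_mul_comm, mul_div_mul_left _ _ (mul_ne_zero hc ((_root_.map_ne_zero _).2 hc))]

theorem diag_pmex {v : Fin 3 → ℂ} (h : v ≠ 0) (i : Fin 3) : pr_pmex v i i ≠ 0 ↔ v i ≠ 0 := by
  simp [pr_pmex, nn_ne_pmex h]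

theorem ratio_pmex {v : Fin 3 → ℂ} {i : Fin 3} (h : v i ≠ 0) (k : Fin 3) :
    pr_pmex v k i / pr_pmex v i i = v k / v i := by
  rw [pr_pmex, pr_pmex, div_div_div_cancel_right₀ (nn_ne_pmex fun e => h (congrFun e i)),
    mul_div_mul_right _ _ ((_root_.map_ne_zero _).2 h)]

theorem cont_pmex : ContinuousOn pr_pmex {v | v ≠ 0} :=
  continuousOn_pi.2 fun i => continuousOn_pi.2 fun j =>
    ContinuousOn.div (by fun_prop) (by unfold nn_pmex; fun_prop) fun _ h => nn_ne_pmex h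

/-- The plane. -/
abbrev Y_pmex : Type := pr_pmex '' {v | v ≠ 0}

open Classical in
/-- The point of a vector. -/
noncomputable def pp_pmex (v : Fin 3 → ℂ) : Y_pmex :=
  if h : v = 0 then ⟨_, 1, one_ne_zero, rfl⟩ else ⟨_, v, h, rfl⟩

theorem val_pmex {v : Fin 3 → ℂ} (h : v ≠ 0) : (pp_pmex v).1 = pr_pmex v := by
  rw [pp_pmex, dif_neg h]

theorem surj_pmex (y : Y_pmex) : ∃ v, v ≠ 0 ∧ pp_pmex v = y :=
  y.2.imp fun _ h => ⟨h.1, Subtype.ext ((val_pmex h.1).trans h.2)⟩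

theorem ins_ne_pmex (i : Fin 3) (w : C2) : (i.insertNth 1 w : Fin 3 → ℂ) ≠ 0 := fun e => by
  simpa using congrFun e i

theorem ins_pmex {v : Fin 3 → ℂ} {i : Fin 3} (h : v i ≠ 0) :
    (i.insertNth 1 fun j => v (i.succAbove j) / v i : Fin 3 → ℂ) = (v i)⁻¹ • v := by
  funext k
  induction k using i.succAboveCases <;> simp [h, div_eq_inv_mul]

theorem cd_pmex (i k : Fin 3) : ContDiff ℂ ω fun w : C2 => (i.insertNth 1 w : Fin 3 → ℂ) k := by
  induction k using i.succAboveCases <;>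
    simp only [Fin.insertNth_apply_same, Fin.insertNth_apply_succAbove] <;> fun_prop

theorem ent_pmex (i j : Fin 3) : Continuous fun M : Y_pmex => M.1 i j :=
  (continuous_apply_apply i j).comp continuous_subtype_val

/-- The charts. -/
noncomputable def ch_pmex (i : Fin 3) : OpenPartialHomeomorph Y_pmex C2 where
  toFun M j := M.1 (i.succAbove j) i / M.1 i i
  invFun w := pp_pmex (i.insertNth 1 w)
  source := {M | M.1 i i ≠ 0}
  target := univ
  map_source' _ _ := trivial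
  map_target' w _ := by
    rw [mem_ofPred_eq, val_pmex (ins_ne_pmex i w), diag_pmex (ins_ne_pmex i w)]; simp
  left_inv' M h := by
    obtain ⟨v, hv, rfl⟩ := surj_pmex M
    rw [mem_ofPred_eq, val_pmex hv, diag_pmex hv] at h
    simp only [val_pmex hv, ratio_pmex h]
    refine Subtype.ext ?_
    rw [val_pmex (ins_ne_pmex _ _), ins_pmex h, smul_pmex (inv_ne_zero h), val_pmex hv]
  right_inv' w _ := by
    funext j
    rw [val_pmex (ins_ne_pmex i w), ratio_pmex (by simp)]; simp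
  open_source := isOpen_ne_fun (ent_pmex i i) continuous_const
  open_target := isOpen_univ
  continuousOn_toFun := continuousOn_pi.2 fun _ =>
    (ent_pmex _ i).continuousOn.div (ent_pmex i i).continuousOn fun _ h => h
  continuousOn_invFun := by
    refine (continuous_induced_rng.2 ?_).continuousOn
    simp only [Function.comp_def, val_pmex (ins_ne_pmex i _)]
    exact cont_pmex.comp_continuous (continuous_pi fun k => (cd_pmex i k).continuous)
      (ins_ne_pmex i)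

theorem src_pmex (i : Fin 3) (v : Fin 3 → ℂ) (h : v ≠ 0) :
    pp_pmex v ∈ (ch_pmex i).source ↔ v i ≠ 0 := by
  rw [← diag_pmex h, ← val_pmex h]; rfl

theorem app_pmex (i : Fin 3) (v : Fin 3 → ℂ) (h : v i ≠ 0) :
    ch_pmex i (pp_pmex v) = fun j => v (i.succAbove j) / v i := by
  funext j
  rw [← ratio_pmex h, ← val_pmex fun e => h (congrFun e i)]; rfl

theorem ex_pmex (y : Y_pmex) : ∃ i, y ∈ (ch_pmex i).source := by
  obtain ⟨v, hv, rfl⟩ := surj_pmex y
  exact (Function.ne_iff.1 hv).imp fun i h => (src_pmex i v hv).2 h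

noncomputable instance : ChartedSpace C2 Y_pmex where
  atlas := range ch_pmex
  chartAt y := ch_pmex (ex_pmex y).choose
  mem_chart_source y := (ex_pmex y).choose_spec
  chart_mem_atlas _ := ⟨_, rfl⟩

theorem p_PMEX :
    S_PMEX := by
  refine ⟨⟨Y_pmex, isManifold_of_contDiffOn _ _ _ ?_, isCompact_iff_compactSpace.1 ?_, pp_pmex,
    surj_pmex, fun v w hv hw => ⟨fun e => ?_, ?_⟩, ch_pmex, fun i => ⟨i, rfl⟩, src_pmex,
    fun _ => rfl, app_pmex, fun _ _ => rfl⟩⟩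
  · rintro _ _ ⟨i, rfl⟩ ⟨k, rfl⟩
    have h : ∀ w ∈ 𝓘(ℂ, C2).symm ⁻¹' ((ch_pmex i).symm ≫ₕ ch_pmex k).source ∩ range 𝓘(ℂ, C2),
        (i.insertNth 1 w : Fin 3 → ℂ) k ≠ 0 := fun w hw =>
      (src_pmex k _ (ins_ne_pmex i w)).1 hw.1.2
    exact (contDiffOn_pi.2 fun j => (cd_pmex i _).contDiffOn.div (cd_pmex i k).contDiffOn h).congr
      fun w hw => app_pmex k _ (h w hw)
  · have : pr_pmex '' {v | v ≠ 0} = pr_pmex '' Metric.sphere 0 1 := by
      refine Subset.antisymm ?_ (image_mono fun v h => ne_zero_of_mem_unit_sphere ⟨v, h⟩)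
      rintro _ ⟨v, hv, rfl⟩
      have h : (‖v‖ : ℂ) ≠ 0 := by simpa using hv
      exact ⟨(‖v‖ : ℂ)⁻¹ • v, by simpa [norm_smul] using inv_mul_cancel₀ (norm_ne_zero_iff.2 hv),
        smul_pmex (inv_ne_zero h) v⟩
    rw [this]
    exact (isCompact_sphere 0 1).image_of_continuousOn
      (cont_pmex.mono fun v h => ne_zero_of_mem_unit_sphere ⟨v, h⟩)
  · obtain ⟨i, hi⟩ := Function.ne_iff.1 hv
    have hi' := (src_pmex i w hw).1 (e ▸ (src_pmex i v hv).2 hi)
    have h := (app_pmex i v hi).symm.trans (e ▸ app_pmex i w hi')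
    have h' := (ins_pmex hi).symm.trans (h ▸ ins_pmex hi')
    exact ⟨w i * (v i)⁻¹, by rw [mul_smul, h', smul_inv_smul₀ hi']⟩
  · rintro ⟨c, rfl⟩
    refine Subtype.ext ?_
    rw [val_pmex hv, val_pmex hw, smul_pmex (left_ne_zero_of_smul hw)]

end Pool.Agent.P.MP_ab0431_ag.UB

namespace Pool.Agent.P.MP_ab0431_ag.UB

open Polynomial Set Filter Topology

theorem pow_arith {a T c e f : ℕ} (hT : 1 ≤ T) (h : a ≤ T ^ c) (he : e ≤ f) :
    a ^ e ≤ T ^ (c * f) :=
  (Nat.pow_le_pow_left h e).trans (by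
    rw [← pow_mul]; exact Nat.pow_le_pow_right hT (Nat.mul_le_mul_left c he))

theorem sq_arith {a u : ℕ} (h : a ≤ u) : a ^ 2 + 1 ≤ (u + 2) ^ 2 := by nlinarith

theorem main_arith (u b w d n : ℕ) (hb : b ≤ u) (hw : w ≤ u) (hd : d ≤ u) (hn : n ≤ w + b * 7) :
    (u + 1) ^ 3 * (u ^ 2 + 1) * ((64 * n * (b + 1) ^ 4) ^ n * Gam b w 6 * (d ^ 2 + 1) ^ b) ≤
      (u + 2) ^ (5 + 131 * u) := by
  have hT : 1 ≤ u + 2 := by omega
  have h2 : ∀ k, 2 ^ k ≤ (u + 2) ^ k := fun k => Nat.pow_le_pow_left (by omega) k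
  have a1 : (u + 1) ^ 3 ≤ (u + 2) ^ 3 := Nat.pow_le_pow_left (by omega) 3
  have a2 : u ^ 2 + 1 ≤ (u + 2) ^ 2 := sq_arith le_rfl
  have a3 : (64 * n * (b + 1) ^ 4) ^ n ≤ (u + 2) ^ (14 * (8 * u)) := by
    refine pow_arith hT ?_ (by omega)
    calc 64 * n * (b + 1) ^ 4 ≤ 2 ^ 9 * (u + 2) * (u + 2) ^ 4 :=
          Nat.mul_le_mul (by omega) (Nat.pow_le_pow_left (by omega) 4)
      _ ≤ (u + 2) ^ 9 * (u + 2) * (u + 2) ^ 4 := by gcongr ?_ * _ * _; exact h2 9
      _ = (u + 2) ^ 14 := by ring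
  have a4 : (b * del b 6 + 1) ^ w ≤ (u + 2) ^ (8 * u) := by
    refine pow_arith hT ?_ hw
    calc b * del b 6 + 1 = b * (7 * (4 * b ^ 2 + 1)) + 1 := rfl
      _ ≤ u * (7 * (4 * u ^ 2 + 1)) + 1 := by gcongr
      _ ≤ 2 ^ 5 * (u + 2) ^ 3 := by nlinarith [Nat.zero_le (u ^ 3), Nat.zero_le (u ^ 2)]
      _ ≤ (u + 2) ^ 5 * (u + 2) ^ 3 := Nat.mul_le_mul_right _ (h2 5)
      _ = (u + 2) ^ 8 := by ring
  have a5 : (b ^ 2 + 1) ^ w ≤ (u + 2) ^ (2 * u) := pow_arith hT (sq_arith hb) hw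
  have a6 : (b + 1) ^ (b * (6 + 1)) ≤ (u + 2) ^ (1 * (7 * u)) :=
    pow_arith hT (by rw [pow_one]; omega) (by omega)
  have a7 : (d ^ 2 + 1) ^ b ≤ (u + 2) ^ (2 * u) := pow_arith hT (sq_arith hd) hb
  calc _ ≤ (u + 2) ^ 3 * (u + 2) ^ 2 * ((u + 2) ^ (14 * (8 * u)) *
        ((u + 2) ^ (8 * u) * (u + 2) ^ (2 * u) * (u + 2) ^ (1 * (7 * u))) * (u + 2) ^ (2 * u)) :=
        Nat.mul_le_mul (Nat.mul_le_mul a1 a2) (Nat.mul_le_mul
          (Nat.mul_le_mul a3 (Nat.mul_le_mul (Nat.mul_le_mul a4 a5) a6)) a7)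
    _ = (u + 2) ^ (5 + 131 * u) := by
        simp only [← pow_add]
        congr 1
        omega

theorem p_ARITH :
    S_ARITH := by
  intro C
  refine ⟨(C + 1) * (5 + 131 * C), fun y b w d n hb hw hd hn => ?_⟩
  refine (main_arith (C * y) b w d n hb hw hd hn).trans ?_
  rw [mul_assoc]
  refine pow_arith (by omega) ?_ (by nlinarith [Nat.zero_le y, Nat.zero_le C])
  calc C * y + 2 ≤ (C + 1) * (y + 2) := by nlinarith [Nat.zero_le y, Nat.zero_le C]
    _ ≤ (y + 2) ^ C * (y + 2) := Nat.mul_le_mul_right _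
        ((Nat.lt_two_pow_self (n := C)).trans_le (Nat.pow_le_pow_left (by omega) C))
    _ = (y + 2) ^ (C + 1) := (pow_succ _ _).symm

end Pool.Agent.P.MP_ab0431_ag.UB
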