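import Pool.Agent.P.MP_ab0431_ag.UB.MD_1
import Pool.Agent.P.MP_ab0431_ag.UB.MD_2
import Pool.Agent.P.MP_ab0431_ag.UB.MD2_1
import Pool.Agent.P.MP_ab0431_ag.UB.MA2_1
import Pool.Agent.P.MP_ab0431_ag.UB.MC_1
import Pool.Agent.P.MP_ab0431_ag.UB.MC_2
import Pool.Agent.P.MP_ab0431_ag.UB.MC_3
import Pool.Agent.P.MP_ab0431_ag.UB.MB3_1
import Pool.Agent.P.MP_ab0431_ag.UB.MB3_2
import Pool.Agent.P.MP_ab0431_ag.UB.MB3_3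
import Pool.Agent.P.MP_ab0431_ag.UB.MB5_1
import Pool.Agent.P.MP_ab0431_ag.UB.MB5_2
import Pool.Agent.P.MP_ab0431_ag.UB.MB1_1
import Pool.Agent.P.MP_ab0431_ag.UB.MD5_1
import Pool.Agent.P.MP_ab0431_ag.UB.MD5_2
import Pool.Agent.P.MP_ab0431_ag.UB.MA_1
import Pool.Agent.P.MP_ab0431_ag.UB.MA_2
import Pool.Agent.P.MP_ab0431_ag.UB.MA_3
import Pool.Agent.P.MP_ab0431_ag.UB.MA_4
import Pool.Agent.P.MP_ab0431_ag.UB.MA_5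
import Pool.Agent.P.MP_ab0431_ag.UB.MO_1
import Pool.Agent.P.MP_ab0431_ag.UB.MO_2
import Pool.Agent.P.MP_ab0431_ag.UB.MO_3
import Pool.Agent.P.MP_ab0431_ag.UB.MT_1

/-! Assembly of the steps. -/

namespace Pool.Agent.P.MP_ab0431_ag.UB

theorem t_PMEX : S_PMEX := p_PMEX
theorem t_TAY : S_TAY := p_TAY
theorem t_JET : S_JET := p_JET t_TAY
theorem t_ORDB : S_ORDB := p_ORDB
theorem t_GEN0 : S_GEN0 := p_GEN0
theorem t_HOLD : S_HOLD := p_HOLD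
theorem t_APX : S_APX := p_APX
theorem t_JETF : S_JETF := p_JETF t_ORDB t_APX
theorem t_GENE0 : S_GENE0 := p_GENE0 t_ORDB t_GEN0 t_HOLD t_JETF
theorem t_GENE : S_GENE := p_GENE t_GENE0
theorem t_LR : S_LR := p_LR t_ORDB
theorem t_NF : S_NF := p_NF
theorem t_TRUNC : S_TRUNC := p_TRUNC t_ORDB
theorem t_HESS : S_HESS := p_HESS t_ORDB
theorem t_ADP : S_ADP := p_ADP t_NF t_TRUNC t_ORDB t_HESS
theorem t_LC : S_LC := p_LC t_ADP t_LR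
theorem t_LTU : S_LTU := p_LTU
theorem t_WJ : S_WJ := p_WJ
theorem t_PT1 : S_PT1 := p_PT1 t_LR t_LC t_LTU t_WJ
theorem t_LO : S_LO := p_LO t_ADP t_LR t_HESS t_ORDB
theorem t_PT2 : S_PT2 := p_PT2 t_LO t_LTU t_WJ t_PT1 t_ORDB
theorem t_RPAR : S_RPAR := p_RPAR
theorem t_RCH : S_RCH := p_RCH t_RPAR t_ORDB
theorem t_JFORM : S_JFORM := p_JFORM
theorem t_RM1 : S_RM1 := p_RM1 t_PT1 t_PT2 t_RCH t_JFORM
theorem t_RM2 : S_RM2 := p_RM2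
theorem t_RFIN : S_RFIN := p_RFIN
theorem t_RM4 : S_RM4 := p_RM4 t_RM2 t_RFIN t_APX
theorem t_PT3 : S_PT3 := p_PT3 t_LR t_LC t_LTU t_WJ t_PT1
theorem t_RM3 : S_RM3 := p_RM3 t_RM2 t_RM4 t_PT3 t_JFORM t_ORDB
theorem t_QREG : S_QREG := p_QREG t_RPAR t_ORDB
theorem t_SEPF : S_SEPF := p_SEPF
theorem t_BEZ : S_BEZ := p_BEZ t_QREG t_SEPF
theorem t_RM5 : S_RM5 := p_RM5 t_BEZ t_RFIN t_PT1 t_JFORM
theorem t_POLY : S_POLY := p_POLY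
theorem t_APROP : S_APROP := p_APROP
theorem t_ASHG : S_ASHG := p_ASHG t_APROP t_RFIN
theorem t_ASH1 : S_ASH1 := p_ASH1 t_ASHG t_RFIN
theorem t_AGRO : S_AGRO := p_AGRO
theorem t_ACF : S_ACF := p_ACF
theorem t_ATOP : S_ATOP := p_ATOP
theorem t_ACH0 : S_ACH0 := p_ACH0 t_POLY t_ASH1 t_AGRO t_ACF t_ATOP
theorem t_ASH2 : S_ASH2 := p_ASH2 t_ASHG t_ASH1 t_RFIN
theorem t_ACHR : S_ACHR := p_ACHR t_ACH0 t_ASH2 t_RFIN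
theorem t_NEWT : S_NEWT := p_NEWT
theorem t_COMP : S_COMP := p_COMP t_NEWT
theorem t_WDET : S_WDET := p_WDET
theorem t_TOP : S_TOP := p_TOP t_NEWT t_COMP t_WDET
theorem t_DISC : S_DISC := p_DISC t_COMP
theorem t_DSEP : S_DSEP := p_DSEP t_DISC
theorem t_AGOOD : S_AGOOD := p_AGOOD t_ASH1 t_ASH2 t_TOP t_DSEP
theorem t_POWB : S_POWB := p_POWB t_COMP t_DISC t_TOP t_DSEP
theorem t_TUP : S_TUP := p_TUP t_WDET
theorem t_NIL : S_NIL := p_NIL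
theorem t_LV : S_LV := p_LV t_TUP t_NIL
theorem t_CHS : S_CHS := p_CHS
theorem t_CHI : S_CHI := p_CHI
theorem t_MAXI : S_MAXI := p_MAXI t_CHI t_CHS
theorem t_HOM : S_HOM := p_HOM
theorem t_RED : S_RED := p_RED t_TUP t_LV t_NIL t_CHS t_MAXI t_HOM t_DISC t_WDET
theorem t_NORM : S_NORM := p_NORM t_POWB t_RED t_HOM t_LV
theorem t_SPLIT : S_SPLIT := p_SPLIT t_NIL
theorem t_CHP : S_CHP := p_CHP
theorem t_AREP : S_AREP := p_AREP t_SPLIT t_CHP t_DISC t_RFIN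
theorem t_PINT : S_PINT := p_PINT t_POLY t_CHP t_CHS
theorem t_APIN : S_APIN := p_APIN t_PINT t_ASH1
theorem t_AORD : S_AORD := p_AORD t_ASH2 t_DISC
theorem t_APS : S_APS := p_APS t_APIN t_ACHR t_AORD t_DISC t_RFIN
theorem t_AYN : S_AYN := p_AYN t_NEWT t_CHS
theorem t_ARB : S_ARB := p_ARB
theorem t_ANS1 : S_ANS1 := p_ANS1 t_AYN t_ARB t_TUP
theorem t_ANSP : S_ANSP := p_ANSP t_ANS1 t_ACH0 t_ASH1 t_TUP t_CHP t_CHS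
theorem t_AALG : S_AALG := p_AALG t_ACHR t_AGOOD t_NORM t_AREP t_APS t_ANSP t_RFIN
theorem t_PIH : S_PIH := p_PIH t_PT1
theorem t_LF : S_LF := p_LF t_ADP t_LR
theorem t_L2 : S_L2 := p_L2 t_ADP
theorem t_PT4 : S_PT4 := p_PT4 t_LF t_L2 t_LTU t_WJ t_PT1 t_PIH
theorem t_BCF : S_BCF := p_BCF
theorem t_COV0 : S_COV0 := p_COV0 t_PT1 t_PT4 t_BCF t_JFORM
theorem t_CARD : S_CARD := p_CARD
theorem t_COV1 : S_COV1 := p_COV1 t_PT1 t_PT4 t_BCF t_CARD t_DSEP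
theorem t_DEGB : S_DEGB := p_DEGB t_BEZ t_PT1 t_PT4 t_WJ
theorem t_AMAIN : S_AMAIN := p_AMAIN t_JET t_GENE t_RM1 t_RM3 t_RM5 t_AALG t_PIH t_COV0 t_COV1 t_CARD t_BCF t_DEGB
theorem t_HFP : S_HFP := p_HFP
theorem t_RAYS : S_RAYS := p_RAYS
theorem t_TUNI : S_TUNI := p_TUNI
theorem t_SECS : S_SECS := p_SECS
theorem t_SL1 : S_SL1 := p_SL1 t_TUNI t_SECS
theorem t_TSEC : S_TSEC := p_TSEC
theorem t_TGLUE : S_TGLUE := p_TGLUE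
theorem t_SL2 : S_SL2 := p_SL2 t_TSEC t_TGLUE
theorem t_SL3 : S_SL3 := p_SL3 t_RAYS t_SL1 t_SL2
theorem t_SLIT : S_SLIT := p_SLIT t_SL3
theorem t_HCOVS : S_HCOVS := p_HCOVS
theorem t_PTS : S_PTS := p_PTS t_SPLIT t_CHP t_DISC t_DSEP
theorem t_HCOV : S_HCOV := p_HCOV t_HCOVS t_PTS t_CHP
theorem t_SPLIT1 : S_SPLIT1 := p_SPLIT1 t_SPLIT t_NIL t_CHP t_DISC
theorem t_HSEC : S_HSEC := p_HSEC t_SPLIT1 t_PTS
theorem t_HLOC : S_HLOC := p_HLOC t_PTS t_CHP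
theorem t_MAXS : S_MAXS := p_MAXS t_DISC t_NEWT
theorem t_HINC : S_HINC := p_HINC t_PINT t_MAXS t_CHP t_TUP t_LV
theorem t_HTI : S_HTI := p_HTI t_HLOC t_HINC
theorem t_HUR : S_HUR := p_HUR t_SLIT t_HCOV t_HSEC t_HTI
theorem t_JC : S_JC := p_JC
theorem t_PHI : S_PHI := p_PHI
theorem t_HPT : S_HPT := p_HPT t_HUR t_JC t_PHI
theorem t_LIFTD : S_LIFTD := p_LIFTD
theorem t_DESC : S_DESC := p_DESC t_LIFTD
theorem t_HPRIM : S_HPRIM := p_HPRIM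
theorem t_HDIVM : S_HDIVM := p_HDIVM t_HPRIM
theorem t_LDOWN : S_LDOWN := p_LDOWN t_NEWT t_CHI t_CHS
theorem t_LTAME : S_LTAME := p_LTAME t_LDOWN t_DISC t_CHI t_CHS
theorem t_LCOLS : S_LCOLS := p_LCOLS
theorem t_LTRI : S_LTRI := p_LTRI t_LCOLS
theorem t_LWD : S_LWD := p_LWD
theorem t_LPOW : S_LPOW := p_LPOW
theorem t_LROOT : S_LROOT := p_LROOT t_LPOW t_DISC
theorem t_DER : S_DER := p_DER t_CHS t_TUP
theorem t_LTANGO : S_LTANGO := p_LTANGO t_LPOW t_LROOT t_DER t_MAXS t_LV t_TUP t_CHS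
theorem t_LWIN : S_LWIN := p_LWIN t_LTANGO t_LCOLS
theorem t_LCOORD : S_LCOORD := p_LCOORD t_CHI t_CHS
theorem t_LFR : S_LFR := p_LFR t_LWIN t_LCOORD t_TUP
theorem t_LLOSS : S_LLOSS := p_LLOSS t_LDOWN t_TUP t_CHI t_CHS
theorem t_LKEY : S_LKEY := p_LKEY t_LTRI t_LWD t_LFR t_LLOSS
theorem t_LPL : S_LPL := p_LPL t_LCOLS
theorem t_LSH : S_LSH := p_LSH t_CHI
theorem t_LGEN : S_LGEN := p_LGEN
theorem t_LHT : S_LHT := p_LHT t_LTAME t_LKEY t_LPL t_LSH t_LGEN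
theorem t_LBAD : S_LBAD := p_LBAD
theorem t_LVAL : S_LVAL := p_LVAL t_PHI t_CHI t_CHS t_LCOORD
theorem t_LTHL : S_LTHL := p_LTHL t_LHT t_LBAD t_LVAL
theorem t_LPF : S_LPF := p_LPF
theorem t_LINEP : S_LINEP := p_LINEP t_LTHL t_LPF t_LIFTD t_SPLIT t_PHI
theorem t_LSPR : S_LSPR := p_LSPR
theorem t_LINE0 : S_LINE0 := p_LINE0 t_LINEP t_LSPR t_LIFTD t_PHI
theorem t_HLINE1 : S_HLINE1 := p_HLINE1 t_DESC t_HDIVM t_LINE0 t_PHI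
theorem t_HLINE2 : S_HLINE2 := p_HLINE2 t_HLINE1
theorem t_HGRID : S_HGRID := p_HGRID t_HLINE2 t_DESC
theorem t_HIND : S_HIND := p_HIND
theorem t_HFB : S_HFB := p_HFB t_HFP t_HPT t_HGRID t_HIND
theorem t_EMB : S_EMB := p_EMB
theorem t_NOD1 : S_NOD1 := p_NOD1 t_TUP t_TOP t_SPLIT t_CHP t_DSEP
theorem t_NOD2 : S_NOD2 := p_NOD2 t_SPLIT1
theorem t_DUALP : S_DUALP := p_DUALP t_DER
theorem t_NODV : S_NODV := p_NODV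
theorem t_CODIM2 : S_CODIM2 := p_CODIM2
theorem t_NOD3 : S_NOD3 := p_NOD3 t_SPLIT t_CHP t_DUALP t_NODV t_CODIM2
theorem t_RSEP : S_RSEP := p_RSEP
theorem t_NOD : S_NOD := p_NOD t_NOD1 t_NOD2 t_NOD3 t_DISC t_DSEP t_TOP t_TUP t_RSEP
theorem t_NEQ : S_NEQ := p_NEQ
theorem t_HYP : S_HYP := p_HYP
theorem t_KR : S_KR := p_KR t_HYP
theorem t_NMAP : S_NMAP := p_NMAP
theorem t_NODE : S_NODE := p_NODE t_MAXI
theorem t_KMA : S_KMA := p_KMA t_NODE t_DISC t_TOP t_TUP t_RSEP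
theorem t_LVY : S_LVY := p_LVY t_TUP t_TOP t_DISC
theorem t_KM1 : S_KM1 := p_KM1 t_KMA t_LVY t_TUP t_DSEP
theorem t_KM2 : S_KM2 := p_KM2 t_KMA t_LVY t_TUP t_NODE
theorem t_RK : S_RK := p_RK
theorem t_TDA : S_TDA := p_TDA
theorem t_NALG : S_NALG := p_NALG t_DSEP
theorem t_INC : S_INC := p_INC t_EMB t_NOD t_NEQ t_KR t_NMAP t_NORM t_TOP t_DSEP t_KMA t_KM1 t_KM2 t_RK t_MAXS t_JC t_TDA t_NALG t_PHI
theorem t_HTRK : S_HTRK := p_HTRK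
theorem t_HURO : S_HURO := p_HURO t_HUR
theorem t_HTRD : S_HTRD := p_HTRD t_HURO t_DESC t_PHI
theorem t_TR : S_TR := p_TR t_HTRK t_HTRD t_JC
theorem t_BMAIN : S_BMAIN := p_BMAIN t_HFB t_INC t_TR
theorem t_CBZ1 : S_CBZ1 := p_CBZ1
theorem t_CBZ2 : S_CBZ2 := p_CBZ2
theorem t_CLNN : S_CLNN := p_CLNN
theorem t_CNDM : S_CNDM := p_CNDM
theorem t_CNLB : S_CNLB := p_CNLB
theorem t_CBEZ0 : S_CBEZ0 := p_CBEZ0 t_HYP t_CBZ1 t_CBZ2 t_CLNN t_CNDM t_CNLB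
theorem t_CLBU : S_CLBU := p_CLBU
theorem t_CBEZ : S_CBEZ := p_CBEZ t_CBEZ0 t_CBZ2 t_CLBU t_CLNN t_CNDM t_CNLB
theorem t_CMIN : S_CMIN := p_CMIN
theorem t_CNRL : S_CNRL := p_CNRL
theorem t_CDEG : S_CDEG := p_CDEG
theorem t_CEQS : S_CEQS := p_CEQS t_CMIN t_CNRL t_CDEG
theorem t_CRES : S_CRES := p_CRES
theorem t_COPT : S_COPT := p_COPT t_CRES t_TOP t_DSEP
theorem t_COPEN : S_COPEN := p_COPEN t_COPT t_CMIN t_CNRL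
theorem t_CLO : S_CLO := p_CLO
theorem t_CPRIM : S_CPRIM := p_CPRIM
theorem t_CMPO : S_CMPO := p_CMPO
theorem t_CPAR : S_CPAR := p_CPAR t_CLO t_CPRIM t_CMPO
theorem t_CFIB : S_CFIB := p_CFIB
theorem t_CSIG : S_CSIG := p_CSIG
theorem t_CBND : S_CBND := p_CBND
theorem t_CCOV : S_CCOV := p_CCOV t_CBND
theorem t_CLIFT : S_CLIFT := p_CLIFT t_CCOV
theorem t_CLOC : S_CLOC := p_CLOC
theorem t_CUNIQ : S_CUNIQ := p_CUNIQ t_CLOC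
theorem t_CBRS : S_CBRS := p_CBRS t_CLIFT t_CUNIQ t_CLOC
theorem t_CPUIS : S_CPUIS := p_CPUIS t_CBRS t_CBND
theorem t_CCMP : S_CCMP := p_CCMP t_CLIFT
theorem t_CDJ : S_CDJ := p_CDJ
theorem t_CPATH : S_CPATH := p_CPATH
theorem t_CWEI : S_CWEI := p_CWEI
theorem t_CAPX : S_CAPX := p_CAPX t_CWEI
theorem t_CGAP : S_CGAP := p_CGAP
theorem t_CHL1 : S_CHL1 := p_CHL1 t_CLIFT t_CUNIQ
theorem t_CHLF : S_CHLF := p_CHLF t_CHL1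
theorem t_CREA : S_CREA := p_CREA
theorem t_CST : S_CST := p_CST t_CPATH t_CAPX t_CGAP t_CHLF t_CREA t_CLOC
theorem t_CPST : S_CPST := p_CPST t_CPUIS t_CCMP t_CDJ t_CST
theorem t_CREM : S_CREM := p_CREM t_CBND t_CFIB
theorem t_CCURV : S_CCURV := p_CCURV t_CPAR t_CFIB t_CSIG t_CPST t_CREM
theorem t_CMAIN : S_CMAIN := p_CMAIN t_CBEZ t_CEQS t_COPEN t_CCURV t_TOP
theorem t_COORD : S_COORD := p_COORD
theorem t_RIEM : S_RIEM := p_RIEM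
theorem t_DIVA : S_DIVA := p_DIVA t_RIEM
theorem t_MINM : S_MINM := p_MINM
theorem t_AFORM : S_AFORM := p_AFORM t_DIVA t_MINM
theorem t_IFT1 : S_IFT1 := p_IFT1
theorem t_ROOTK : S_ROOTK := p_ROOTK
theorem t_MORSE : S_MORSE := p_MORSE t_IFT1 t_DIVA t_ROOTK
theorem t_TRIV0 : S_TRIV0 := p_TRIV0 t_COORD t_AFORM t_MORSE t_ROOTK
theorem t_ROOT1 : S_ROOT1 := p_ROOT1 t_IFT1 t_MINM
theorem t_TRD0 : S_TRD0 := p_TRD0 t_ROOT1 t_TOP t_DSEP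
theorem t_TRA : S_TRA := p_TRA t_TRIV0 t_TRD0 t_TOP t_DSEP t_PMEX t_BCF
theorem t_TBOX : S_TBOX := p_TBOX t_TRA t_BCF
theorem t_ZLB : S_ZLB := p_ZLB t_BCF
theorem t_TRN1 : S_TRN1 := p_TRN1
theorem t_TRANS : S_TRANS := p_TRANS t_TRN1
theorem t_SLC : S_SLC := p_SLC
theorem t_HLIFT : S_HLIFT := p_HLIFT
theorem t_HL : S_HL := p_HL t_TUNI t_HLIFT
theorem t_STEP : S_STEP := p_STEP t_SLC t_HL
theorem t_PROP : S_PROP := p_PROP t_STEP t_SLC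
theorem t_DIVC : S_DIVC := p_DIVC
theorem t_CONN : S_CONN := p_CONN
theorem t_XT0 : S_XT0 := p_XT0 t_RIEM t_CONN
theorem t_XT1 : S_XT1 := p_XT1 t_XT0
theorem t_TRSN : S_TRSN := p_TRSN t_DIVC t_XT1
theorem t_GLUE0 : S_GLUE0 := p_GLUE0
theorem t_ZCON : S_ZCON := p_ZCON t_TRSN t_GLUE0
theorem t_ASMG : S_ASMG := p_ASMG
theorem t_PRODG : S_PRODG := p_PRODG
theorem t_SUBM : S_SUBM := p_SUBM
theorem t_FIB : S_FIB := p_FIB t_DIVC t_XT1 t_ASMG t_PRODG t_SLC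
theorem t_BACK : S_BACK := p_BACK t_HL t_DIVC
theorem t_COVG : S_COVG := p_COVG
theorem t_PULL : S_PULL := p_PULL
theorem t_BCH : S_BCH := p_BCH
theorem t_FOLD : S_FOLD := p_FOLD
theorem t_CT1 : S_CT1 := p_CT1 t_SL3 t_COVG t_PULL t_BCH t_FOLD
theorem t_TUQ : S_TUQ := p_TUQ t_TUNI t_HLIFT
theorem t_ULIFT : S_ULIFT := p_ULIFT t_TUNI t_HLIFT
theorem t_ROOTS : S_ROOTS := p_ROOTS
theorem t_HTP : S_HTP := p_HTP t_ROOTS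
theorem t_VL : S_VL := p_VL t_TUQ t_TGLUE t_ULIFT t_HTP
theorem t_NBH : S_NBH := p_NBH t_CONN
theorem t_NINF : S_NINF := p_NINF
theorem t_CT2 : S_CT2 := p_CT2 t_VL t_COVG t_PULL t_BCH t_NBH t_NINF t_SECS t_TSEC
theorem t_EXT : S_EXT := p_EXT t_TUNI t_TSEC t_TGLUE t_SECS
theorem t_COUNT : S_COUNT := p_COUNT t_CT1 t_CT2 t_EXT t_COVG t_BCH t_NBH t_DSEP
theorem t_DMAIN : S_DMAIN := p_DMAIN t_TBOX t_ZLB t_TRANS t_PROP t_SLC t_ZCON t_ASMG t_PRODG t_SUBM t_FIB t_BACK t_COUNT t_COVG t_BCF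
theorem t_ARITH : S_ARITH := p_ARITH
theorem t_MAIN : S_MAIN := p_MAIN t_PMEX t_AMAIN t_BMAIN t_CMAIN t_DMAIN t_ARITH t_TOP

end Pool.Agent.P.MP_ab0431_ag.UB
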